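import Pool.Agent.W_26e041_h61.CombA

/-!
Splitting regions.
-/

namespace EPG26

variable {V : Type*} [DecidableEq V]

/-- parts of regions are regions -/
theorem RegA_aux1 {T : Finset V} {Fs : Finset (Finset V)} {l l₁ : List V}
    {F F₁ : Finset (Finset V)} (h : Reg T Fs l F) (hF : F₁ ⊆ F) (hd : Disc l₁ F₁)
    (h1 : ∀ w, w ∈ verts l₁ F₁ → w ∉ l₁ → w ∉ l)
    (h2 : ∀ w, w ∈ verts l₁ F₁ → w ∉ l₁ → ∀ f ∈ F, w ∈ f → f ∈ F₁) : Reg T Fs l₁ F₁ := by
  refine ⟨hd, fun f hf => h.sub (hF hf), fun w hw hwl => ?_⟩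
  have h3 : w ∈ verts l F := by
    unfold verts at hw ⊢
    rw [Finset.mem_union, List.mem_toFinset] at hw
    rw [Finset.mem_union]
    rcases hw with hw | hw
    · exact absurd hw hwl
    · right
      obtain ⟨f, hf, hwf⟩ := Finset.mem_biUnion.1 hw
      exact Finset.mem_biUnion.2 ⟨f, hF hf, hwf⟩
  obtain ⟨h4, h5⟩ := h.star w h3 (h1 w hw hwl)
  exact ⟨h4, fun f hf hwf => h2 w hw hwl f (h5 f hf hwf) hwf⟩

theorem RegA_aux2 {l : List V} {F : Finset (Finset V)} {w : V} (h : w ∈ l) : w ∈ verts l F := by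
  unfold verts
  rw [Finset.mem_union, List.mem_toFinset]
  exact Or.inl h

theorem RegA_aux3 {l : List V} {F : Finset (Finset V)} {w : V} {f : Finset V} (hf : f ∈ F)
    (h : w ∈ f) : w ∈ verts l F := by
  unfold verts
  rw [Finset.mem_union]
  exact Or.inr (Finset.mem_biUnion.2 ⟨f, hf, h⟩)

theorem RegA_aux4 {F : Finset (Finset V)} {a b : V} (h : AdjF F a b) : AdjF F b a := by
  obtain ⟨h1, f, hf, h2, h3⟩ := h
  exact ⟨h1.symm, f, hf, h3, h2⟩

theorem RegA_aux5 {a : V} {l : List V} {F : Finset (Finset V)} (h : Disc (a :: l) F)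
    (hl : 3 ≤ (a :: l).length) : F ≠ ∅ := by
  rintro rfl
  have h1 := Disc.mem_biUnion h hl (v := a) (by simp)
  simp at h1

/-- `Disc.reverse` -/
theorem Reg.rev {T : Finset V} {Fs : Finset (Finset V)} {l : List V} {F : Finset (Finset V)}
    (h : Reg T Fs l F) : Reg T Fs l.reverse F :=
  CombA_reg h (Disc.reverse h.disc) fun v => by rw [List.mem_reverse]

/-- `Disc.append_comm` -/
theorem Reg.rot {T : Finset V} {Fs : Finset (Finset V)} {p q : List V} {F : Finset (Finset V)}
    (h : Reg T Fs (p ++ q) F) : Reg T Fs (q ++ p) F :=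
  CombA_reg h (Disc.append_comm h.disc) fun v => by
    rw [List.mem_append, List.mem_append]
    exact or_comm

/-- `Disc.chord`: the inner vertices of each part are inner vertices of the whole region, and all
faces at them are in that part. `F₁`, `F₂` are not empty because the boundary lists have length at
least three (for `F₂`: `p ≠ []` or `s ≠ []`). -/
theorem Reg.chord {T : Finset V} {Fs : Finset (Finset V)} {p m s : List V} {u v : V}
    {F : Finset (Finset V)} (h : Reg T Fs (p ++ u :: (m ++ v :: s)) F) (hm : m ≠ [])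
    (hps : p ≠ [] ∨ s ≠ []) (ha : AdjF F u v) :
    ∃ F₁ F₂ : Finset (Finset V), F = F₁ ∪ F₂ ∧ Disjoint F₁ F₂ ∧ F₁ ≠ ∅ ∧ F₂ ≠ ∅ ∧
      Reg T Fs (u :: (m ++ [v])) F₁ ∧ Reg T Fs (p ++ u :: v :: s) F₂ ∧
      ∀ w, w ∈ verts (u :: (m ++ [v])) F₁ → w ∈ verts (p ++ u :: v :: s) F₂ → w = u ∨ w = v := by
  obtain ⟨F₁, F₂, rfl, hdis, hd1, hd2, hw⟩ := Disc.chord h.disc hm hps ha
  refine ⟨F₁, F₂, rfl, hdis, ?_, ?_, ?_, ?_, hw⟩
  · refine RegA_aux5 hd1 ?_
    have := List.length_pos_of_ne_nil hm
    simp only [List.length_cons, List.length_append, List.length_nil]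
    omega
  · cases p with
    | nil =>
      refine RegA_aux5 hd2 ?_
      have hs : s ≠ [] := by
        rcases hps with h1 | h1
        · exact absurd rfl h1
        · exact h1
      have := List.length_pos_of_ne_nil hs
      simp only [List.length_cons]
      omega
    | cons a p =>
      refine RegA_aux5 (a := a) (l := p ++ u :: v :: s) hd2 ?_
      simp only [List.length_cons, List.length_append]
      omega
  · refine RegA_aux1 h Finset.subset_union_left hd1 ?_ ?_
    · intro w hw1 hw2 hw3
      have h1 : w ∈ p ++ u :: v :: s := by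
        simp only [List.mem_append, List.mem_cons, List.not_mem_nil, or_false, not_or]
          at hw2 hw3 ⊢
        tauto
      rcases hw w hw1 (RegA_aux2 h1) with rfl | rfl
      · exact hw2 (by simp)
      · exact hw2 (by simp)
    · intro w hw1 hw2 f hf hwf
      rcases Finset.mem_union.1 hf with h1 | h1
      · exact h1
      · rcases hw w hw1 (RegA_aux3 h1 hwf) with rfl | rfl
        · exact absurd (by simp) hw2
        · exact absurd (by simp) hw2
  · refine RegA_aux1 h Finset.subset_union_right hd2 ?_ ?_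
    · intro w hw1 hw2 hw3
      have h1 : w ∈ u :: (m ++ [v]) := by
        simp only [List.mem_append, List.mem_cons, List.not_mem_nil, or_false, not_or]
          at hw2 hw3 ⊢
        tauto
      rcases hw w (RegA_aux2 h1) hw1 with rfl | rfl
      · exact hw2 (by simp)
      · exact hw2 (by simp)
    · intro w hw1 hw2 f hf hwf
      rcases Finset.mem_union.1 hf with h1 | h1
      · rcases hw w (RegA_aux3 h1 hwf) hw1 with rfl | rfl
        · exact absurd (by simp) hw2
        · exact absurd (by simp) hw2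
      · exact h1

/-- `Disc.chord2`, as `Reg.chord`. -/
theorem Reg.chord2 {T : Finset V} {Fs : Finset (Finset V)} {p m s : List V} {u v x : V}
    {F : Finset (Finset V)} (h : Reg T Fs (p ++ u :: (m ++ v :: s)) F)
    (hx : x ∉ p ++ u :: (m ++ v :: s)) (hu : AdjF F u x) (hv : AdjF F v x) :
    ∃ F₁ F₂ : Finset (Finset V), F = F₁ ∪ F₂ ∧ Disjoint F₁ F₂ ∧
      Reg T Fs (u :: (m ++ [v, x])) F₁ ∧ Reg T Fs (p ++ u :: x :: v :: s) F₂ ∧
      ∀ w, w ∈ verts (u :: (m ++ [v, x])) F₁ → w ∈ verts (p ++ u :: x :: v :: s) F₂ →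
        w = u ∨ w = v ∨ w = x := by
  obtain ⟨F₁, F₂, rfl, hdis, hd1, hd2, hw⟩ := Disc.chord2 h.disc hx hu hv
  refine ⟨F₁, F₂, rfl, hdis, ?_, ?_, hw⟩
  · refine RegA_aux1 h Finset.subset_union_left hd1 ?_ ?_
    · intro w hw1 hw2 hw3
      have h1 : w ∈ p ++ u :: x :: v :: s := by
        simp only [List.mem_append, List.mem_cons, List.not_mem_nil, or_false, not_or]
          at hw2 hw3 ⊢
        tauto
      rcases hw w hw1 (RegA_aux2 h1) with rfl | rfl | rfl
      · exact hw2 (by simp)
      · exact hw2 (by simp)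
      · exact hw2 (by simp)
    · intro w hw1 hw2 f hf hwf
      rcases Finset.mem_union.1 hf with h1 | h1
      · exact h1
      · rcases hw w hw1 (RegA_aux3 h1 hwf) with rfl | rfl | rfl
        · exact absurd (by simp) hw2
        · exact absurd (by simp) hw2
        · exact absurd (by simp) hw2
  · refine RegA_aux1 h Finset.subset_union_right hd2 ?_ ?_
    · intro w hw1 hw2 hw3
      have h1 : w ∈ u :: (m ++ [v, x]) := by
        simp only [List.mem_append, List.mem_cons, List.not_mem_nil, or_false, not_or]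
          at hw2 hw3 ⊢
        tauto
      rcases hw w (RegA_aux2 h1) hw1 with rfl | rfl | rfl
      · exact hw2 (by simp)
      · exact hw2 (by simp)
      · exact hw2 (by simp)
    · intro w hw1 hw2 f hf hwf
      rcases Finset.mem_union.1 hf with h1 | h1
      · rcases hw w (RegA_aux3 h1 hwf) hw1 with rfl | rfl | rfl
        · exact absurd (by simp) hw2
        · exact absurd (by simp) hw2
        · exact absurd (by simp) hw2
      · exact h1

theorem Chless.mono {F F' : Finset (Finset V)} {l : List V} (h : Chless F l) (hF : F' ⊆ F) :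
    Chless F' l := fun p a b q c s hl hac => h p a b q c s hl (CombA_adj_mono hF hac)

theorem Chless.infx {F : Finset (Finset V)} {l l' : List V} (h : Chless F l) (hl : l' <:+: l) :
    Chless F l' := by
  obtain ⟨s1, t1, rfl⟩ := hl
  intro p a b q c s hl'
  exact h (s1 ++ p) a b q c (s ++ t1) (by rw [hl']; simp)

theorem Chless.rev {F : Finset (Finset V)} {l : List V} (h : Chless F l) :
    Chless F l.reverse := by
  intro p a b q c s hl hac
  have h1 : l = s.reverse ++ c :: (q.reverse ++ b :: (a :: p.reverse)) := by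
    have := congrArg List.reverse hl
    rw [List.reverse_reverse] at this
    rw [this]
    simp
  cases hq : q.reverse with
  | nil =>
    rw [hq] at h1
    exact h s.reverse c b [] a p.reverse h1 (RegA_aux4 hac)
  | cons b' q' =>
    rw [hq] at h1
    exact h s.reverse c b' (q' ++ [b]) a p.reverse (by rw [h1]; simp) (RegA_aux4 hac)

end EPG26
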