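import Pool.Agent.W_26e041_h61.CombA

/-!
Combinatorics of the flip.
-/

namespace EPG26

variable {V : Type*} [DecidableEq V]

theorem CoreC1_mono {F F' : Finset (Finset V)} {l : List V} (h : Chless F l) (hF : F' ⊆ F) :
    Chless F' l := fun p a b q c s hl ha => h p a b q c s hl (CombA_adj_mono hF ha)

omit [DecidableEq V] in
theorem CoreC1_symm {F : Finset (Finset V)} {a b : V} (h : AdjF F a b) : AdjF F b a := by
  obtain ⟨h1, f, hf, h2, h3⟩ := h
  exact ⟨h1.symm, f, hf, h3, h2⟩

omit [DecidableEq V] in
theorem CoreC1_reverse {F : Finset (Finset V)} {l : List V} (h : Chless F l) :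
    Chless F l.reverse := by
  intro p a b q c s hl ha
  have h1 : l = s.reverse ++ c :: ((q.reverse ++ [b]) ++ a :: p.reverse) := by
    rw [← List.reverse_reverse l, hl]
    simp
  cases hq : q.reverse ++ [b] with
  | nil => simp at hq
  | cons b' q' =>
    rw [hq] at h1
    exact h s.reverse c b' q' a p.reverse (by rw [h1]; simp) (CoreC1_symm ha)

omit [DecidableEq V] in
theorem CoreC1_left {F : Finset (Finset V)} {l l' : List V} (h : Chless F (l ++ l')) :
    Chless F l := by
  intro p a b q c s hl
  exact h p a b q c (s ++ l') (by rw [hl]; simp)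

theorem CoreC1_mem_verts {l : List V} {F : Finset (Finset V)} {v : V} :
    v ∈ verts l F ↔ v ∈ l ∨ ∃ f ∈ F, v ∈ f := by
  simp [verts]

/-- Flip without inner neighbours: the face at the edge `d, b₁` is `{d, m, b₁}`, where `m` is the
boundary vertex before `d`. Removing `d` from the boundary `nl ++ [m] ++ [d] ++ (b₁ :: be) ++ [a0]` leaves
an N-region with the black list `(nl ++ [m]).reverse` and the white list `b₁ :: be ++ [a0]`.
Rotate so that the edge `(b₁, d)` is the root edge (`b₁` first, `d` last), `Disc.peel`: the apex is `m`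
(`Disc.root_unique`), the vertex before `d`, so the second part of the split is an edge. Then rotate and
reverse. `star`: inner vertices of the new region are inner in the old one and not in the removed
face. -/
theorem NC.flip0 {T : Finset V} {Fs : Finset (Finset V)} {nl be : List V} {m d b₁ a0 : V}
    {F : Finset (Finset V)} (h : NC T Fs (nl ++ [m] ++ [d]) [a0] (b₁ :: be) F)
    (hch : Chless F (d :: (b₁ :: be) ++ [a0])) (hf : ({d, m, b₁} : Finset V) ∈ F) :
    ∃ F', F = insert {d, m, b₁} F' ∧ ({d, m, b₁} : Finset V) ∉ F' ∧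
      NC T Fs (nl ++ [m]).reverse (b₁ :: be ++ [a0]) [] F' := by
  have hD : Disc ((nl ++ [m, d]) ++ (b₁ :: be ++ [a0])) F := by
    have := h.reg.disc
    simpa using this
  have hnd := hD.nodup
  have hD1 : Disc (b₁ :: ((be ++ [a0] ++ nl ++ [m]) ++ [d])) F := by
    have := Disc.append_comm hD
    simpa using this
  have hne : be ++ [a0] ++ nl ++ [m] ≠ [] := by simp
  have hnd1 := hD1.nodup
  obtain ⟨t, F', hF1, hF2, hcase⟩ := hD1.peel hne
  have hmem1 : ({b₁, d, t} : Finset V) ∈ F := by
    rw [hF2]
    exact Finset.mem_insert_self _ _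
  have hface : ({d, m, b₁} : Finset V) = {b₁, d, t} :=
    hD1.root_unique hne hf hmem1 (by simp) (by simp) (by simp) (by simp)
  have hmb : m ≠ b₁ := by
    rintro rfl
    simp at hnd1
  have hmd : m ≠ d := by
    rintro rfl
    simp [List.nodup_append] at hnd1
  have hmt : m = t := by
    have h1 : m ∈ ({b₁, d, t} : Finset V) := by
      rw [← hface]
      simp
    simp only [Finset.mem_insert, Finset.mem_singleton] at h1
    tauto
  subst hmt
  rcases hcase with ⟨h1, _, _⟩ | ⟨m₁, m₂, F₁, F₂, hm, rfl, _, h₁, h₂, hdis⟩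
  · exact absurd (by simp) h1
  have hm2 : m₂ = [] := by
    by_contra hcon
    have h1 : m₂.getLast hcon = m := by
      have h2 := congrArg List.getLast? hm
      rw [List.getLast?_append_of_ne_nil _ (by simp),
        List.getLast?_append_of_ne_nil _ (by simp)] at h2
      simp only [List.getLast?_singleton] at h2
      rw [List.getLast?_cons, List.getLast?_eq_getLast_of_ne_nil hcon] at h2
      simpa using h2.symm
    have h3 : m ∈ m₂ := by
      rw [← h1]
      exact List.getLast_mem hcon
    have h4 := hnd1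
    rw [hm] at h4
    simp only [List.nodup_cons, List.append_assoc, List.nodup_append, List.cons_append] at h4
    exact h4.2.2.1.1 (by simp [h3])
  subst hm2
  have hm1 : m₁ = be ++ [a0] ++ nl := by
    have h2 : be ++ [a0] ++ nl ++ [m] = m₁ ++ [m] := hm
    exact (List.append_cancel_right h2).symm
  subst hm1
  have hF2e : F₂ = ∅ := by
    have : Disc [m, d] F₂ := h₂
    exact this.empty_of_two
  subst hF2e
  rw [Finset.union_empty] at hF1 hF2
  have hD2 : Disc ((nl ++ [m]).reverse ++ [] ++ (b₁ :: be ++ [a0]).reverse) F₁ := by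
    have h1 : Disc ((b₁ :: be ++ [a0]) ++ (nl ++ [m])) F₁ := by simpa using h₁
    have h2 := Disc.reverse h1
    rw [List.reverse_append] at h2
    simpa using h2
  have hdF : ∀ v, v ∈ verts (b₁ :: (be ++ [a0] ++ nl ++ [m])) F₁ → v ≠ d := by
    rintro v hv rfl
    exact hmd (hdis v hv (CoreC1_mem_verts.2 (Or.inl (by simp)))).symm
  have hsub : F₁ ⊆ F := by
    rw [hF2]
    exact Finset.subset_insert _ _
  refine ⟨F₁, ?_, ?_, ⟨⟨hD2, hsub.trans h.reg.sub, ?_⟩, ?_, ?_⟩⟩
  · rw [hface]
    exact hF2
  · rw [hface]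
    exact hF1
  · intro v hv hvl
    have hvF : ∃ f ∈ F₁, v ∈ f := by
      rcases CoreC1_mem_verts.1 hv with h1 | h1
      · exact absurd h1 hvl
      · exact h1
    have hvd : v ≠ d := hdF v (CoreC1_mem_verts.2 (Or.inr hvF))
    have hvl' : v ∉ nl ++ [m] ++ [d] ++ (b₁ :: be) ++ [a0].reverse := by
      intro h1
      apply hvl
      simp only [List.mem_append, List.mem_reverse, List.mem_cons, List.not_mem_nil, or_false]
        at h1 ⊢
      tauto
    obtain ⟨f0, hf0, hvf0⟩ := hvF
    obtain ⟨h1, h2⟩ := h.reg.star v (CoreC1_mem_verts.2 (Or.inr ⟨f0, hsub hf0, hvf0⟩)) hvl'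
    refine ⟨h1, fun f hfs hvf => ?_⟩
    have h3 := h2 f hfs hvf
    rw [hF2, Finset.mem_insert] at h3
    rcases h3 with h3 | h3
    · exfalso
      rw [h3] at hvf
      apply hvl'
      simp only [Finset.mem_insert, Finset.mem_singleton] at hvf
      simp only [List.mem_append, List.mem_reverse, List.mem_cons, List.not_mem_nil, or_false]
      tauto
    · exact h3
  · exact CoreC1_reverse (CoreC1_mono (CoreC1_left h.chB) hsub)
  · have h1 : Chless F (b₁ :: be ++ [a0]) := CombA_chless_tail (by simpa using hch)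
    exact CoreC1_mono h1 hsub

end EPG26
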