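import Pool.Agent.W_26e041_h61.CombA
import Pool.Agent.W_26e041_h31.Uniq

/-!
Combinatorics of the flip.
-/

namespace EPG26

variable {V : Type*} [DecidableEq V]

/-- the data of a split at an inner vertex `y` adjacent to `d` and `c` -/
structure CoreC2_D (N S : List V) (d : V) (F : Finset (Finset V)) (y : V) (bt : List V) (c : V)
    (rest : List V) (FA FB : Finset (Finset V)) : Prop where
  e : S = bt ++ c :: rest
  hy : y ∉ N ++ d :: S
  hF : F = FA ∪ FB
  dj : Disjoint FA FB
  dA : Disc (d :: (bt ++ [c, y])) FA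
  dB : Disc (N ++ d :: y :: c :: rest) FB
  sep : ∀ w, w ∈ verts (d :: (bt ++ [c, y])) FA → w ∈ verts (N ++ d :: y :: c :: rest) FB →
    w = d ∨ w = c ∨ w = y

theorem CoreC2_mk {N S bt rest : List V} {d c y : V} {F : Finset (Finset V)}
    (hd : Disc (N ++ d :: S) F) (hS : S = bt ++ c :: rest) (hy : y ∉ N ++ d :: S)
    (h1 : AdjF F d y) (h2 : AdjF F c y) : ∃ FA FB, CoreC2_D N S d F y bt c rest FA FB := by
  subst hS
  obtain ⟨F₁, F₂, h3, h4, h5, h6, h7⟩ := Disc.chord2 hd hy h1 h2
  exact ⟨F₁, F₂, rfl, hy, h3, h4, h5, h6, h7⟩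

theorem CoreC2_symm {F : Finset (Finset V)} {a b : V} (h : AdjF F a b) : AdjF F b a := by
  obtain ⟨h1, f, hf, h2, h3⟩ := h
  exact ⟨h1.symm, f, hf, h3, h2⟩

theorem CoreC2_pos {x y : V} {m : List V} {F : Finset (Finset V)} (hd : Disc (x :: (m ++ [y])) F)
    (hm : m ≠ []) : 0 < F.card := by
  obtain ⟨-, f, hf, -, -⟩ := hd.root_adj hm
  exact Finset.card_pos.2 ⟨f, hf⟩

theorem CoreC2_verts {l : List V} {F : Finset (Finset V)} {a b : V} (h : AdjF F a b) :
    a ∈ verts l F := by
  obtain ⟨-, f, hf, h1, -⟩ := h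
  exact DiscA_mem_verts_right hf h1

/-- contiguous parts of lists without chords -/
theorem CoreC2_chless {F F' : Finset (Finset V)} {l p q : List V} (h : Chless F (p ++ l ++ q))
    (hF : F' ⊆ F) : Chless F' l := by
  intro p' a b q' c s hl hadj
  refine h (p ++ p') a b q' c (s ++ q) ?_ (CombA_adj_mono hF hadj)
  rw [hl]
  simp

theorem CoreC2_chless_reverse {F : Finset (Finset V)} {l : List V} (h : Chless F l) :
    Chless F l.reverse := by
  intro p a b q c s hl hadj
  have h1 : l = (p ++ a :: b :: (q ++ c :: s)).reverse := by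
    rw [← hl, List.reverse_reverse]
  obtain ⟨b', q', hbq⟩ : ∃ b' q', q.reverse ++ [b] = b' :: q' := by
    cases hq : q.reverse ++ [b] with
    | nil => simp at hq
    | cons b' q' => exact ⟨b', q', rfl⟩
  refine h s.reverse c b' q' a p.reverse ?_ (CoreC2_symm hadj)
  have h2 : (p ++ a :: b :: (q ++ c :: s)).reverse =
      s.reverse ++ c :: ((q.reverse ++ [b]) ++ a :: p.reverse) := by simp
  rw [h1, h2, hbq]
  rfl

/-- a part of a region is a region -/
theorem CoreC2_reg {T : Finset V} {Fs : Finset (Finset V)} {l l₁ l₂ : List V}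
    {F F₁ F₂ : Finset (Finset V)} (h : Reg T Fs l F) (hd : Disc l₁ F₁) (hF : F = F₁ ∪ F₂)
    (hl : ∀ v ∈ l, v ∈ l₁ ∨ v ∈ l₂)
    (hs : ∀ v, v ∈ verts l₁ F₁ → v ∈ verts l₂ F₂ → v ∈ l₁) : Reg T Fs l₁ F₁ := by
  have hF1 : F₁ ⊆ F := by
    rw [hF]
    exact Finset.subset_union_left
  refine ⟨hd, hF1.trans h.sub, fun v hv hvl => ?_⟩
  have hvl' : v ∉ l := by
    intro h1
    rcases hl v h1 with h2 | h2
    · exact hvl h2
    · exact hvl (hs v hv (DiscA_mem_verts_left h2))
  have hv' : v ∈ verts l F := by
    rcases DiscB_mem_verts.1 hv with h1 | ⟨f, hf, hvf⟩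
    · exact absurd h1 hvl
    · exact DiscA_mem_verts_right (hF1 hf) hvf
  obtain ⟨h1, h2⟩ := h.star v hv' hvl'
  refine ⟨h1, fun f hf hvf => ?_⟩
  have h3 := h2 f hf hvf
  rw [hF, Finset.mem_union] at h3
  rcases h3 with h3 | h3
  · exact h3
  · exact absurd (hs v hv (DiscA_mem_verts_right h3 hvf)) hvl

/-- Flip with an inner neighbour. Boundary `nl ++ [m] ++ [d] ++ (b₁ :: be) ++ [a0]`, the face at the edge
`d, b₁` is not `{d, m, b₁}`. Let `S = b₁ :: be ++ [a0]`.
There are an inner vertex `y` adjacent to `d` and a vertex `c ∈ S` adjacent to `y`: the apex `y` of the edge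
`d, b₁` and `c = b₁` (the apex is not a boundary vertex: `d` has no other neighbours in `nl` by `chB`, none in
`be ++ [a0]` by `hch`, and it is not `m`). For every such pair, `S = bt ++ c :: rest`, `Disc.chord2` with
`u = d`, `v = c`, `x = y`, in the list `(nl ++ [m]) ++ d :: (bt ++ c :: rest)` gives `F = FA ∪ FB`, `Disc (d :: (bt ++ [c, y])) FA`,
`Disc ((nl ++ [m]) ++ d :: y :: c :: rest) FB`. Choose the pair with `FB.card` minimal.
Then an inner vertex of the part `FB` adjacent to `d` is not adjacent to a vertex of `c :: rest` (otherwise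
this pair, split with `Disc.chord2` of the same region, has a smaller second part: apply `Disc.chord2` to
the disc of `FB`, and check that the second part for the whole region is the second part inside `FB`; it
may be easier to minimise over all data `(FA, FB, y, bt, c, rest)` satisfying the conclusion of
`Disc.chord2`), and `y` is not adjacent (in `FB`) to a vertex of `rest` (otherwise `Disc.chord` for `y` and
that vertex gives a smaller second part).
Part A: `MC T Fs [y] (bt ++ [c]) [] [] d FA`: its list `y :: (bt ++ [c]).reverse ++ [d]` is the reverse of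
`d :: (bt ++ [c, y])`; `z1` by `hch`. Part B: `MC T Fs (y :: c :: rest) (nl ++ [m]).reverse [] [] d FB`: list
`(y :: c :: rest) ++ (nl ++ [m]) ++ [d]`, a rotation; `z1` by `chB` and `hch`, `z2` and `chB` by
minimality. -/
theorem NC.flip1 {G : SimpleGraph V} {T : Finset V} {Fs : Finset (Finset V)}
    {J : Finset V → Finset V} (hc : Ctx G T Fs J) {nl be : List V} {m d b₁ a0 : V}
    {F : Finset (Finset V)} (h : NC T Fs (nl ++ [m] ++ [d]) [a0] (b₁ :: be) F)
    (hch : Chless F (d :: (b₁ :: be) ++ [a0])) (hf : ({d, m, b₁} : Finset V) ∉ F) :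
    ∃ y bt c rest FA FB, b₁ :: be ++ [a0] = bt ++ c :: rest ∧
      y ∈ verts (nl ++ [m] ++ [d] ++ (b₁ :: be) ++ [a0]) F ∧
      y ∉ nl ++ [m] ++ [d] ++ (b₁ :: be) ++ [a0] ∧ AdjF F y d ∧ AdjF F y c ∧
      F = FA ∪ FB ∧ Disjoint FA FB ∧ MC T Fs [y] (bt ++ [c]) [] [] d FA ∧
      MC T Fs (y :: c :: rest) (nl ++ [m]).reverse [] [] d FB ∧
      ∀ v, v ∈ verts ([y] ++ (bt ++ [c]).reverse ++ [d]) FA →
        v ∈ verts ((y :: c :: rest) ++ (nl ++ [m]) ++ [d]) FB → v = y ∨ v = c ∨ v = d := by
  obtain ⟨N, hN⟩ : ∃ N, N = nl ++ [m] := ⟨_, rfl⟩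
  obtain ⟨S, hS⟩ : ∃ S, S = b₁ :: be ++ [a0] := ⟨_, rfl⟩
  have hNne : N ≠ [] := by
    rw [hN]
    simp
  have hl : nl ++ [m] ++ [d] ++ (b₁ :: be) ++ [a0].reverse = N ++ d :: S := by
    rw [hN, hS]
    simp
  have hreg := h.reg
  rw [hl] at hreg
  have hd := hreg.disc
  have hl2 : nl ++ [m] ++ [d] ++ (b₁ :: be) ++ [a0] = N ++ d :: S := hl
  rw [hl2]
  have hSch : Chless F (d :: S) := by
    rw [hS]
    exact hch
  have hNch : Chless F (N ++ [d]) := by
    rw [hN]
    exact h.chB
  have hnd : (N ++ d :: S).Nodup := hd.nodup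
  -- main induction
  have main : ∀ n, ∀ (FB : Finset (Finset V)), FB.card = n → ∀ y bt c rest FA,
      CoreC2_D N S d F y bt c rest FA FB →
      ∃ y bt c rest FA FB, CoreC2_D N S d F y bt c rest FA FB ∧
        (∀ v ∈ rest, ¬ AdjF FB y v) ∧
        (∀ c', c' ∉ N ++ d :: y :: c :: rest → AdjF FB d c' → ∀ v ∈ c :: rest, ¬ AdjF FB c' v) := by
    intro n
    induction n using Nat.strong_induction_on with
    | _ n ih =>
      intro FB hn y bt c rest FA D
      have hFB : FB ⊆ F := by
        rw [D.hF]
        exact Finset.subset_union_right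
      by_cases h1 : ∃ v ∈ rest, AdjF FB y v
      · obtain ⟨v, hv, hyv⟩ := h1
        obtain ⟨q, s, rfl⟩ := List.append_of_mem hv
        have hdy : AdjF FB d y := Disc.bd_adj D.dB (Or.inl hNne)
        have hS' : S = (bt ++ c :: q) ++ v :: s := by
          rw [D.e]
          simp
        obtain ⟨G₁, G₂, D'⟩ := CoreC2_mk hd hS' D.hy (CombA_adj_mono hFB hdy)
          (CombA_adj_mono hFB (CoreC2_symm hyv))
        have e1 : N ++ d :: y :: c :: (q ++ v :: s) = (N ++ [d]) ++ y :: ((c :: q) ++ v :: s) := by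
          simp
        have hdB := D.dB
        rw [e1] at hdB
        obtain ⟨F₁, F₂, h3, h4, h5, h6, -⟩ := Disc.chord hdB (by simp) (Or.inl (by simp)) hyv
        have e2 : (N ++ [d]) ++ y :: v :: s = N ++ d :: y :: v :: s := by simp
        rw [e2] at h6
        have hF2 : F₂ ⊆ FB := by
          rw [h3]
          exact Finset.subset_union_right
        have hG2 : G₂ ⊆ F := by
          rw [D'.hF]
          exact Finset.subset_union_right
        have h7 : G₂ = F₂ := Disc.uniq hd hG2 (hF2.trans hFB) D'.dB h6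
        have h8 : 0 < F₁.card := CoreC2_pos h5 (by simp)
        have h9 : FB.card = F₁.card + F₂.card := by
          rw [h3]
          exact Finset.card_union_of_disjoint h4
        exact ih G₂.card (by rw [h7]; omega) G₂ rfl _ _ _ _ _ D'
      by_cases h2 : ∃ c', c' ∉ N ++ d :: y :: c :: rest ∧ AdjF FB d c' ∧ ∃ v ∈ c :: rest,
          AdjF FB c' v
      · obtain ⟨c', hc', hdc, v, hv, hcv⟩ := h2
        obtain ⟨q, s, hqs⟩ := List.append_of_mem hv
        have hc'l : c' ∉ N ++ d :: S := by
          intro h3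
          have h4 : c' ∈ verts (N ++ d :: y :: c :: rest) FB := CoreC2_verts (CoreC2_symm hdc)
          have h5 : c' ∈ bt := by
            rw [D.e] at h3
            simp only [List.mem_append, List.mem_cons, not_or] at h3 hc'
            tauto
          have h6 := D.sep c' (DiscA_mem_verts_left (by simp [h5])) h4
          apply hc'
          simp only [List.mem_append, List.mem_cons]
          tauto
        have hS' : S = (bt ++ q) ++ v :: s := by
          rw [D.e, hqs]
          simp
        obtain ⟨G₁, G₂, D'⟩ := CoreC2_mk hd hS' hc'l (CombA_adj_mono hFB hdc)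
          (CombA_adj_mono hFB (CoreC2_symm hcv))
        have e1 : N ++ d :: y :: c :: rest = N ++ d :: ((y :: q) ++ v :: s) := by
          rw [hqs]
          simp
        have hdB := D.dB
        rw [e1] at hdB hc'
        obtain ⟨F₁, F₂, h3, h4, h5, h6, -⟩ := Disc.chord2 hdB hc' hdc (CoreC2_symm hcv)
        have hF2 : F₂ ⊆ FB := by
          rw [h3]
          exact Finset.subset_union_right
        have hG2 : G₂ ⊆ F := by
          rw [D'.hF]
          exact Finset.subset_union_right
        have h7 : G₂ = F₂ := Disc.uniq hd hG2 (hF2.trans hFB) D'.dB h6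
        have e3 : d :: ((y :: q) ++ [v, c']) = d :: (((y :: q) ++ [v]) ++ [c']) := by simp
        rw [e3] at h5
        have h8 : 0 < F₁.card := CoreC2_pos h5 (by simp)
        have h9 : FB.card = F₁.card + F₂.card := by
          rw [h3]
          exact Finset.card_union_of_disjoint h4
        exact ih G₂.card (by rw [h7]; omega) G₂ rfl _ _ _ _ _ D'
      · exact ⟨y, bt, c, rest, FA, FB, D, fun v hv hyv => h1 ⟨v, hv, hyv⟩,
          fun c' hc' hdc v hv hcv => h2 ⟨c', hc', hdc, v, hv, hcv⟩⟩
  -- the first pair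
  have hS2 : S = b₁ :: (be ++ [a0]) := by
    rw [hS]
    rfl
  obtain ⟨hdb, f, hfF, hdf, hbf⟩ : AdjF F d b₁ := by
    refine Disc.bd_adj (p := N) (s := be ++ [a0]) ?_ (Or.inl hNne)
    rw [← hS2]
    exact hd
  obtain ⟨y₀, hy₀f, hy₀d, hy₀b⟩ : ∃ y₀ ∈ f, y₀ ≠ d ∧ y₀ ≠ b₁ := by
    by_contra hcon
    push Not at hcon
    have h1 : f ⊆ {d, b₁} := by
      intro z hz
      rw [Finset.mem_insert, Finset.mem_singleton]
      by_contra h2
      push Not at h2
      exact h2.2 (hcon z hz h2.1)
    have h2 := Finset.card_le_card h1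
    have h3 := hd.card3 f hfF
    have h4 := Finset.card_le_two (a := d) (b := b₁)
    omega
  have hdy₀ : AdjF F d y₀ := ⟨hy₀d.symm, f, hfF, hdf, hy₀f⟩
  have hby₀ : AdjF F b₁ y₀ := ⟨hy₀b.symm, f, hfF, hbf, hy₀f⟩
  have hy₀l : y₀ ∉ N ++ d :: S := by
    intro h1
    rw [List.mem_append, List.mem_cons, hS2, List.mem_cons] at h1
    rcases h1 with h1 | h1 | h1 | h1
    · rw [hN, List.mem_append, List.mem_singleton] at h1
      rcases h1 with h1 | h1
      · obtain ⟨q, s, rfl⟩ := List.append_of_mem h1
        obtain ⟨b', q', hbq⟩ : ∃ b' q', s ++ [m] = b' :: q' := by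
          cases hq : s ++ [m] with
          | nil => simp at hq
          | cons b' q' => exact ⟨b', q', rfl⟩
        refine hNch q y₀ b' q' d [] ?_ (CoreC2_symm hdy₀)
        rw [hN]
        have h2 : q ++ y₀ :: s ++ [m] ++ [d] = q ++ y₀ :: ((s ++ [m]) ++ [d]) := by simp
        rw [h2, hbq]
        rfl
      · subst h1
        apply hf
        have h2 : ({d, y₀, b₁} : Finset V) ⊆ f := by
          intro z hz
          simp only [Finset.mem_insert, Finset.mem_singleton] at hz
          rcases hz with rfl | rfl | rfl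
          · exact hdf
          · exact hy₀f
          · exact hbf
        have h3 : ({d, y₀, b₁} : Finset V).card = 3 := by
          rw [Finset.card_eq_three]
          exact ⟨d, y₀, b₁, hy₀d.symm, hdb, hy₀b, rfl⟩
        rw [Finset.eq_of_subset_of_card_le h2 (by rw [h3, hd.card3 f hfF])]
        exact hfF
    · exact hy₀d h1
    · exact hy₀b h1
    · obtain ⟨q, s, hqs⟩ := List.append_of_mem h1
      refine hSch [] d b₁ q y₀ s ?_ hdy₀
      rw [hS2, hqs]
      rfl
  obtain ⟨FA₀, FB₀, D₀⟩ := CoreC2_mk (bt := []) (rest := be ++ [a0]) hd hS2 hy₀l hdy₀ hby₀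
  obtain ⟨y, bt, c, rest, FA, FB, D, hyr, hz2⟩ := main _ FB₀ rfl _ _ _ _ _ D₀
  have hFB : FB ⊆ F := by
    rw [D.hF]
    exact Finset.subset_union_right
  have hFA : FA ⊆ F := by
    rw [D.hF]
    exact Finset.subset_union_left
  have hdy : AdjF FB d y := Disc.bd_adj D.dB (Or.inl hNne)
  have hyc : AdjF FB y c := by
    have e1 : N ++ d :: y :: c :: rest = (N ++ [d]) ++ y :: c :: rest := by simp
    have hdB := D.dB
    rw [e1] at hdB
    exact Disc.bd_adj hdB (Or.inl (by simp))
  have hSe : S = bt ++ c :: rest := D.e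
  have hlA : [y] ++ (bt ++ [c]).reverse ++ [d] = (d :: (bt ++ [c, y])).reverse := by simp
  have hlB : ∀ v, v ∈ (y :: c :: rest) ++ N ++ [d] ↔ v ∈ N ++ d :: y :: c :: rest := by
    intro v
    simp only [List.mem_append, List.mem_cons, List.not_mem_nil, or_false]
    tauto
  have hcov : ∀ v ∈ N ++ d :: S, v ∈ d :: (bt ++ [c, y]) ∨ v ∈ N ++ d :: y :: c :: rest := by
    intro v hv
    rw [hSe] at hv
    simp only [List.mem_append, List.mem_cons, List.not_mem_nil, or_false] at hv ⊢
    tauto
  have hRA : Reg T Fs (d :: (bt ++ [c, y])) FA := by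
    refine CoreC2_reg hreg D.dA D.hF hcov fun v h1 h2 => ?_
    rcases D.sep v h1 h2 with rfl | rfl | rfl <;> simp
  have hRB : Reg T Fs (N ++ d :: y :: c :: rest) FB := by
    refine CoreC2_reg hreg D.dB (by rw [D.hF, Finset.union_comm]) (fun v hv => (hcov v hv).symm)
      fun v h1 h2 => ?_
    rcases D.sep v h2 h1 with rfl | rfl | rfl <;> simp
  have hdS : ∀ v ∈ S.tail, ¬ AdjF F d v := fun v hv => CombA_chless_head hSch hv
  refine ⟨y, bt, c, rest, FA, FB, hS.symm.trans D.e, CoreC2_verts (CombA_adj_mono hFB hyc), D.hy,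
    CoreC2_symm (CombA_adj_mono hFB hdy), CombA_adj_mono hFB hyc, D.hF, D.dj, ⟨?_, ?_, ?_, ?_, ?_⟩,
    ⟨?_, ?_, ?_, ?_, ?_⟩, ?_⟩
  · -- region A
    have e1 : [y] ++ [] ++ (bt ++ [c]).reverse ++ [d] = (d :: (bt ++ [c, y])).reverse := by simp
    rw [e1]
    exact CombA_reg hRA hRA.disc.reverse fun v => (List.mem_reverse).symm
  · intro p a b q c' s he
    have := congrArg List.length he
    simp only [List.length_cons, List.length_append, List.length_nil] at this
    omega
  · refine CoreC2_chless (p := [d]) (q := rest) (F := F) ?_ hFA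
    have e1 : [d] ++ (bt ++ [c]) ++ rest = d :: S := by
      rw [hSe]
      simp
    rw [e1]
    exact hSch
  · intro v hv hadj
    refine hdS v ?_ (CombA_adj_mono hFA hadj)
    rw [hSe]
    cases bt with
    | nil => simp at hv
    | cons b' bt' =>
      simp only [List.tail_cons, List.append_nil, List.nil_append, List.cons_append,
        List.mem_append, List.mem_cons, List.not_mem_nil, or_false] at hv ⊢
      tauto
  · intro c' _ _ _ v hv
    simp at hv
  · -- region B
    have e1 : (y :: c :: rest) ++ [] ++ (nl ++ [m]).reverse.reverse ++ [d] =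
        (y :: c :: rest) ++ (N ++ [d]) := by
      rw [hN]
      simp
    rw [e1]
    refine CombA_reg hRB ?_ fun v => ?_
    · refine Disc.append_comm ?_
      have e2 : (N ++ [d]) ++ (y :: c :: rest) = N ++ d :: y :: c :: rest := by simp
      rw [e2]
      exact hRB.disc
    · simp only [List.mem_append, List.mem_cons, List.not_mem_nil, or_false]
      tauto
  · intro p a b q c' s he hadj
    cases p with
    | nil =>
      rw [List.nil_append, List.cons.injEq, List.cons.injEq] at he
      obtain ⟨rfl, rfl, he⟩ := he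
      exact hyr c' (by rw [he]; simp) hadj
    | cons p₀ p' =>
      rw [List.cons_append, List.cons.injEq] at he
      refine hSch (d :: (bt ++ p')) a b q c' s ?_ (CombA_adj_mono hFB hadj)
      rw [hSe, he.2]
      simp
  · rw [← hN]
    refine CoreC2_chless_reverse (CoreC2_chless (p := []) (q := [d]) (F := F) ?_ hFB)
    simpa using hNch
  · intro v hv hadj
    rw [← hN] at hv
    have hv' : v ∈ c :: rest ∨ v ∈ nl := by
      rw [hN] at hv
      simp only [List.tail_cons, List.append_nil, List.reverse_append, List.reverse_cons,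
        List.reverse_nil, List.nil_append, List.cons_append, List.mem_append, List.mem_reverse,
        List.mem_cons] at hv ⊢
      tauto
    rcases hv' with hv' | hv'
    · cases bt with
      | nil =>
        rcases List.mem_cons.1 hv' with h1 | h1
        · subst h1
          have h2 : AdjF FA d v := by
            have h3 : Disc ([] ++ d :: v :: [y]) FA := D.dA
            exact Disc.bd_adj h3 (Or.inr (by simp))
          obtain ⟨-, f₁, hf₁, h4, h5⟩ := h2
          obtain ⟨-, f₂, hf₂, h6, h7⟩ := hadj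
          have h8 : Disc (N ++ d :: v :: rest) F := by
            have := hd
            rw [hSe] at this
            exact this
          have h9 := Disc.bd_unique h8 (Or.inl hNne) (hFA hf₁) (hFB hf₂) h4 h5 h6 h7
          subst h9
          exact Finset.disjoint_left.1 D.dj hf₁ hf₂
        · refine hdS v ?_ (CombA_adj_mono hFB hadj)
          rw [hSe]
          exact h1
      | cons b' bt' =>
        refine hdS v ?_ (CombA_adj_mono hFB hadj)
        rw [hSe]
        exact List.mem_append_right _ hv'
    · obtain ⟨q, s, hqs⟩ := List.append_of_mem hv'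
      obtain ⟨b', q', hbq⟩ : ∃ b' q', s ++ [m] = b' :: q' := by
        cases hq : s ++ [m] with
        | nil => simp at hq
        | cons b' q' => exact ⟨b', q', rfl⟩
      refine hNch q v b' q' d [] ?_ (CoreC2_symm (CombA_adj_mono hFB hadj))
      have h2 : N ++ [d] = q ++ v :: ((s ++ [m]) ++ [d]) := by
        rw [hN, hqs]
        simp
      rw [h2, hbq]
      rfl
  · intro c' _ hcl hdc v hv
    have hcl' : c' ∉ N ++ d :: y :: c :: rest := by
      intro h1
      apply hcl
      rw [hN] at h1
      simp only [List.append_nil, List.reverse_reverse, List.mem_append, List.mem_cons,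
        List.not_mem_nil, or_false] at h1 ⊢
      tauto
    exact hz2 c' hcl' hdc v (by simpa using hv)
  · intro v hvA hvB
    have h1 : v ∈ verts (d :: (bt ++ [c, y])) FA := by
      rw [hlA] at hvA
      rw [DiscB_mem_verts] at hvA ⊢
      simpa only [List.mem_reverse] using hvA
    have h2 : v ∈ verts (N ++ d :: y :: c :: rest) FB := by
      rw [← hN] at hvB
      rw [DiscB_mem_verts, hlB] at hvB
      rw [DiscB_mem_verts]
      exact hvB
    have h3 := D.sep v h1 h2
    tauto

end EPG26
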