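import Pool.Agent.W_26e041_h61.CoreG

/-!
The flip when the last base `d` has no inner neighbour.
-/

namespace EPG26

variable {V : Type*} [DecidableEq V]

theorem CoreG1_inf {C C' : Cov} {o : Bool} {l x : ℚ} :
    x ∈ (C ⊓ C') o l ↔ x ∈ C o l ∧ x ∈ C' o l := Iff.rfl

theorem CoreG1_sup {C C' : Cov} {o : Bool} {l x : ℚ} :
    x ∈ (C ⊔ C') o l ↔ x ∈ C o l ∨ x ∈ C' o l := Iff.rfl

theorem CoreG1_bandv {a b l x : ℚ} : x ∈ band a b true l ↔ a ≤ x ∧ x ≤ b := by
  simp [band]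

theorem CoreG1_bandh {a b l x : ℚ} : x ∈ band a b false l ↔ a ≤ l ∧ l ≤ b := by
  simp [band]

theorem CoreG1_segm {o o' : Bool} {l l' a b x : ℚ} (h : a < b) :
    x ∈ seg o l a b o' l' ↔ o' = o ∧ l' = l ∧ a < x ∧ x < b := by
  have h1 : x ∈ seg o l a b o' l' ↔ o' = o ∧ l' = l ∧ min a b < x ∧ x < max a b := Iff.rfl
  rw [h1, min_eq_left h.le, max_eq_right h.le]

theorem CoreG1_ordP_mono {lo lo' hi : ℚ} {qs : List (Pl V)} (h : OrdP lo qs hi)
    (h1 : lo' ≤ lo) : OrdP lo' qs hi := by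
  cases qs with
  | nil => exact lt_of_le_of_lt h1 h
  | cons p t => exact ⟨lt_of_le_of_lt h1 h.1, h.2.1, h.2.2⟩

theorem CoreG1_ordP_mem {lo hi : ℚ} {qs : List (Pl V)} (h : OrdP lo qs hi) {p : Pl V}
    (hp : p ∈ qs) : lo < p.g ∧ p.g < p.X ∧ p.X < hi := by
  have hlt : ∀ (t : List (Pl V)) (m : ℚ), OrdP m t hi → m < hi := by
    intro t
    induction t with
    | nil => exact fun m h1 => h1
    | cons q t ih => exact fun m h1 => h1.1.trans (h1.2.1.trans (ih _ h1.2.2))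
  induction qs generalizing lo with
  | nil => exact absurd hp (List.not_mem_nil)
  | cons q t ih =>
    obtain ⟨h1, h2, h3⟩ := h
    rcases List.mem_cons.1 hp with rfl | hp
    · exact ⟨h1, h2, hlt t _ h3⟩
    · obtain ⟨h4, h5, h6⟩ := ih h3 hp
      exact ⟨h1.trans (h2.trans h4), h5, h6⟩

/-- the main column of the first placed vertex is left of the other lines -/
theorem CoreG1_ordP_first {lo hi : ℚ} {q : Pl V} {qs : List (Pl V)} (h : OrdP lo (q :: qs) hi)
    {p : Pl V} (hp : p ∈ qs) : q.X < p.g := (CoreG1_ordP_mem h.2.2 hp).1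

theorem CoreG1_ordL {f : Pl V → Rec V} (hfc : ∀ p, (f p).c = p.X) (hfg : ∀ p, (f p).g = p.g)
    {lo hi : ℚ} {qs : List (Pl V)} (h : OrdP lo qs hi) : OrdL lo (qs.map f) hi := by
  induction qs generalizing lo with
  | nil => exact h
  | cons p t ih =>
    refine ⟨?_, ?_, ?_⟩
    · rw [hfg]
      exact h.1
    · rw [hfg, hfc]
      exact h.2.1
    · rw [hfc]
      exact ih h.2.2

/-- the flipped records, in reversed order, with new gaps -/
def CoreG1_fl : List (Rec V) → ℚ → List (Rec V)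
  | [], _ => []
  | r :: t, T => CoreG1_fl t T ++ [⟨r.v, -r.c, -((r.c + topc t T) / 2), r.e, -r.c + 1, true⟩]

theorem CoreG1_append {lo hi : ℚ} {L : List (Rec V)} {r : Rec V} (h : OrdL lo L r.g)
    (h1 : r.g < r.c) (h2 : r.c < hi) : OrdL lo (L ++ [r]) hi := by
  induction L generalizing lo with
  | nil => exact ⟨h, h1, h2⟩
  | cons q t ih => exact ⟨h.1, h.2.1, ih h.2.2⟩

theorem CoreG1_topc {lo hi T : ℚ} {L : List (Rec V)} (h : OrdL lo L hi) (hT : lo < T) :
    lo < topc L T := by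
  cases L with
  | nil => exact hT
  | cons r t => exact h.1.trans h.2.1

theorem CoreG1_flord {lo hi T m : ℚ} {L : List (Rec V)} (h : OrdL lo L hi)
    (hT : ∀ r ∈ L, r.c < T) (hm : m < topc L T) : OrdL (-T) (CoreG1_fl L T) (-m) := by
  induction L generalizing lo m with
  | nil => exact neg_lt_neg hm
  | cons r t ih =>
    have h1 : r.c < topc t T := CoreG1_topc h.2.2 (hT r List.mem_cons_self)
    have h2 : m < r.c := hm
    have h3 : (r.c + topc t T) / 2 < topc t T := by linarith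
    have h4 : r.c < (r.c + topc t T) / 2 := by linarith
    exact CoreG1_append (ih h.2.2 (fun q hq => hT q (List.mem_cons_of_mem _ hq)) h3)
      (neg_lt_neg h4) (neg_lt_neg h2)

theorem CoreG1_flrv (L : List (Rec V)) (T : ℚ) : rv (CoreG1_fl L T) = (rv L).reverse := by
  induction L with
  | nil => rfl
  | cons r t ih =>
    have h1 : rv (CoreG1_fl (r :: t) T) = rv (CoreG1_fl t T) ++ [r.v] := by
      simp [rv, CoreG1_fl]
    have h2 : rv (r :: t) = r.v :: rv t := rfl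
    rw [h1, h2, List.reverse_cons, ih]

theorem CoreG1_flmem {lo hi T : ℚ} {L : List (Rec V)} (h : OrdL lo L hi)
    (hT : ∀ r ∈ L, r.c < T) {q : Rec V} (hq : q ∈ CoreG1_fl L T) :
    ∃ r ∈ L, ∃ g', r.c < g' ∧ q = ⟨r.v, -r.c, -g', r.e, -r.c + 1, true⟩ := by
  induction L generalizing lo with
  | nil => exact absurd hq (List.not_mem_nil)
  | cons r t ih =>
    have h1 : r.c < topc t T := CoreG1_topc h.2.2 (hT r List.mem_cons_self)
    rcases List.mem_append.1 hq with hq | hq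
    · obtain ⟨r', h2, h3⟩ := ih h.2.2 (fun q hq => hT q (List.mem_cons_of_mem _ hq)) hq
      exact ⟨r', List.mem_cons_of_mem _ h2, h3⟩
    · exact ⟨r, List.mem_cons_self, _, by linarith, List.mem_singleton.1 hq⟩

theorem CoreG1_last {L : List (Rec V)} {r : Rec V} : ∀ {b : V}, lastv (L ++ [r]) b = r.v := by
  induction L with
  | nil => exact fun {_} => rfl
  | cons q t ih => exact fun {_} => ih

theorem CoreG1_end {lo hi : ℚ} {L : List (Rec V)} {r : Rec V} (h : OrdL lo (L ++ [r]) hi)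
    {q : Rec V} (hq : q ∈ L) : q.c < r.c := by
  have h1 : OrdL lo L r.g := OrdL.left h
  exact (h1.mem hq).2.2.trans (h.mem (List.mem_append_right _ List.mem_cons_self)).2.1

/-- the last pending black vertex is drawn up to `xI` -/
theorem CoreG1_commit {G : SimpleGraph V} {P : V → Cov → Prop} {Γ : Dr V} {U : Bool → Finset ℚ}
    {D : Cov} {A X0 Y0 xI : ℚ} {N : Rec V} {L : List (Rec V)} {d : V} (hw : Wd G Γ U)
    (hpl : ∀ r ∈ L, r.pl = true) (hord : OrdL N.c L Y0) (hN : N.c < Y0)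
    (hbl : ∀ r ∈ L, ∃ s ≤ A, Pend P Γ U D false s X0 r)
    (hrow : SW Γ D {N.v} false N.c A X0) (hnd : (rv L).Nodup) (h1 : A < xI) (h2 : xI < X0) :
    ∃ Γb Db Ym, Step G Γ U Db {v | v ∈ rv L} Γb U ∧ (∀ l x, x ∉ Db true l) ∧
      (∀ l x, x ∈ Db false l → l = Ym ∧ N.c < l ∧ l < Y0 ∧ x < xI ∧ x ∈ D false l) ∧
      N.c ≤ Ym ∧ Ym < Y0 ∧ SW Γb D {lastv (N :: L) d} false Ym A xI ∧
      ∀ r ∈ L, ∃ s ≤ xI, Pend P Γb U D false s X0 r ∧ (r.c = Ym → xI ≤ s) := by
  rcases List.eq_nil_or_concat L with rfl | ⟨L₀, r, hL⟩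
  · refine ⟨Γ, ⊥, N.c, Step.refl hw _ _, fun l x hx => hx, fun l x hx => absurd hx (fun h => h),
      le_rfl, hN, hrow.sub le_rfl h2.le, fun r hr => absurd hr (List.not_mem_nil)⟩
  · rw [List.concat_eq_append] at hL
    subst hL
    have hr : r ∈ L₀ ++ [r] := List.mem_append_right _ List.mem_cons_self
    obtain ⟨s, hs, hp⟩ := hbl r hr
    obtain ⟨g1, g2, g3⟩ := hord.mem hr
    obtain ⟨Γb, hst, hpb, hD, hcov⟩ := hp.commit hw (by linarith : s ≤ xI) h2.le
    refine ⟨Γb, hseg false r.c s xI, r.c, hst.weaken le_rfl ?_, ?_, ?_, (g1.trans g2).le, g3, ?_,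
      ?_⟩
    · intro v hv
      have hv' : v = r.v := hv
      rw [hv']
      exact List.mem_map_of_mem hr
    · rintro l x ⟨h, -⟩
      exact absurd h (by decide)
    · rintro l x ⟨-, rfl, h3, h4⟩
      exact ⟨rfl, g1.trans g2, g3, h4, hD false _ ⟨rfl, rfl, h3, h4⟩⟩
    · have h5 : lastv (N :: (L₀ ++ [r])) d = r.v := CoreG1_last (L := N :: L₀)
      rw [h5]
      intro x hx1 hx2
      exact ⟨hD false _ ⟨rfl, rfl, by linarith, hx2⟩, fun v => hcov x (by linarith) hx2 v⟩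
    · intro q hq
      rcases List.mem_append.1 hq with hq' | hq'
      · obtain ⟨t, ht, hpt⟩ := hbl q hq
        have h6 : q.c < r.c := CoreG1_end hord hq'
        refine ⟨t, by linarith, hpt.grow hst.grow (fun _ _ h => h) ?_ ?_ ?_, fun h => ?_⟩
        · intro h
          have h' : q.v = r.v := h
          have h7 : (rv L₀ ++ [r.v]).Nodup := by
            have h8 : rv (L₀ ++ [r]) = rv L₀ ++ [r.v] := by simp [rv]
            rw [h8] at hnd
            exact hnd
          have h8 := List.disjoint_of_nodup_append h7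
          exact h8 (List.mem_map_of_mem hq') (by rw [h']; exact List.mem_cons_self)
        · rintro x - - ⟨-, h, -⟩
          linarith
        · intro x hx1 hx2
          exfalso
          have := (hpt.plain (hpl q hq)).2.1
          linarith
        · linarith
      · have hq2 : q = r := List.mem_singleton.1 hq'
        rw [hq2]
        exact ⟨xI, le_rfl, hpb, fun _ => le_rfl⟩

/-- Flip without inner neighbours of `d`. Blacks `N₁ :: L` (base `d`), all `qs` are of kind `conn`,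
`m = lastv (N₁ :: L) d` is the last pending black vertex, `J` the content of the face `{d, m, q.v}`, where
`q` is the first placed vertex. `(l₀, l₁)` is the link zone of `m` and `d`.
1. `Pend.finish` for `N₁` at `X0` with its gap `N₁.g` (`N₁.e < s`, so the reserved part is empty): the
   foot is on the column of `a0` (`acol`), `N₁.v` covers its line from `s` to `X0`.
2. Choose `xI` new with `A < xI < Xd`. If `L ≠ []` the last record of `L` is `m`: `Pend.commit` up to
   `xI`. (If `L = []` then `m = N₁.v` covers its line on `(A, xI)` already.)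
3. Fill `{d, m, q.v}` in the wk-socket: `o = false`, `u = d` (line `Y0`), `v = m`, window `(A, xI)`,
   `x = q.v` with column `q.X > xI` and window `(y₁, T₁)` above both lines, zone `R = Y0`,
   `(l₀, l₁)`.
4. Reflected state: `A' = xI`, `B' = -y₁`. White records from `conn_pend` (`hi = -N₁.c < -yl`,
   `s = -y₁`); black records: for the records `r` of `L` in reversed order `Pend.flip` with new gaps `g'`
   between `r.c` and the next black line (the next record, or `Y0` for the last one; choose them by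
   `exists_fresh` and put them into `U'`); base `N₁.v` with the line `-N₁.c`, alone on `(xI, X0)`; base
   `a0`: real window `(N₁.c, y₁)` inside `acol` (the foot of `N₁` is below `N₁.c`).
   `OrdL (-y₁) L' (-N₁.c)` and `OrdL xI W' X0` from `OrdL`, `OrdP`.
All windows are in `D ⊓ (nl U' ⊔ band yl y₁)`. All growth is in
`D ⊓ (nl U ⊔ band yl T₁)` (the line `Y0` is in `band yl T₁`, `rowD`). -/
theorem flip0G {G : SimpleGraph V} {P : V → Cov → Prop} {Γ : Dr V} {U : Bool → Finset ℚ}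
    {D : Cov} {A B : ℚ} {N₁ : Rec V} {L : List (Rec V)} {d : V} {Xd Y0 : ℚ} {a0 : V}
    {X0 T₁ T₂ Λ Yt yl y₁ sh a l₀ l₁ : ℚ} {q : Pl V} {qs : List (Pl V)} {J : Finset V}
    (hw : Wd G Γ U) (hD : Adm U D) (hI : CIn P Γ U D A B (N₁ :: L) d Xd Y0 a0 X0 T₁)
    (hnd : (rv (N₁ :: L) ++ d :: a0 :: (q :: qs).map Pl.v).Nodup)
    (hq : ∀ p ∈ q :: qs, Placed Γ U D Λ Yt T₁ T₂ yl y₁ sh p ∧ p.k = Kind.conn)
    (ho : OrdP a (q :: qs) X0) (ha : Xd < a) (hP : ∀ p ∈ q :: qs, ∀ C, Ext Λ p.es C → P p.v C)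
    (h1 : B < yl) (h2 : yl < N₁.g) (h3 : sh ≤ yl) (h3' : Λ < yl) (h4 : Y0 < y₁) (h5 : y₁ < T₁)
    (h6 : T₁ < T₂) (hl : l₀ < l₁) (hl' : l₁ ≤ A)
    (hz : Solo Γ {lastv (N₁ :: L) d, d} false Y0 l₀ l₁) (hadj : G.Adj N₁.v a0)
    (hJ : ∀ v ∈ J, Undrawn Γ v ∧ v ∉ rv (N₁ :: L) ++ d :: a0 :: (q :: qs).map Pl.v)
    (hf : FillT G {d, lastv (N₁ :: L) d, q.v} J) :
    ∃ Γ' U' A' W' L', Step G Γ U (D ⊓ (nl U ⊔ band yl T₁)) {v | v ∈ rv (N₁ :: L) ∨ v ∈ J} Γ' U' ∧
      P N₁.v (Γ' N₁.v) ∧ Ov Γ' N₁.v a0 ∧ Filled G Γ' J ∧ rv W' = (q :: qs).map Pl.v ∧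
      rv L' = (rv L).reverse ∧ (∀ r ∈ L', r.pl = true) ∧
      NSt (flP P) (flD Γ') (flU U') (fly (D ⊓ (nl U' ⊔ band yl y₁))) A' (-y₁) W' a0 X0 X0 L' N₁.v
        (-N₁.c) (-N₁.c) := by
  obtain ⟨⟨hordW, hordB, huX, -, -, hblack, hwbase, hbbase⟩, hpl, hlt, hYT, hrowD, hrow, hdcol,
    hacol⟩ := hI
  have hAX : A < Xd := hordW
  obtain ⟨hB1, hN1, hordL⟩ := hordB
  have hcY : N₁.c < Y0 := hordL.lt
  -- different vertices
  have hnd1' : (N₁.v :: (rv L ++ d :: a0 :: (q :: qs).map Pl.v)).Nodup := hnd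
  obtain ⟨hN0, hnd2⟩ := List.nodup_cons.1 hnd1'
  have hrvL : ∀ r ∈ L, r.v ∈ rv L := fun r hr => List.mem_map_of_mem hr
  have hndL : (rv L).Nodup := (List.nodup_append.1 hnd2).1
  have hdisL : ∀ v ∈ rv L, v ∉ d :: a0 :: (q :: qs).map Pl.v := fun v hv hv2 =>
    List.disjoint_of_nodup_append hnd2 hv hv2
  have hNL : ∀ r ∈ L, r.v ≠ N₁.v := fun r hr h => hN0 (by
    rw [← h]
    exact List.mem_append_left _ (hrvL r hr))
  have hNd : d ≠ N₁.v := fun h => hN0 (by
    rw [← h]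
    exact List.mem_append_right _ List.mem_cons_self)
  have hNa : a0 ≠ N₁.v := fun h => hN0 (by
    rw [← h]
    exact List.mem_append_right _ (List.mem_cons_of_mem _ List.mem_cons_self))
  have hNq : ∀ p ∈ q :: qs, p.v ≠ N₁.v := fun p hp h => hN0 (by
    rw [← h]
    exact List.mem_append_right _
      (List.mem_cons_of_mem _ (List.mem_cons_of_mem _ (List.mem_map_of_mem hp))))
  have hLq : ∀ p ∈ q :: qs, p.v ∉ rv L := fun p hp h => hdisL _ h
    (List.mem_cons_of_mem _ (List.mem_cons_of_mem _ (List.mem_map_of_mem hp)))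
  have hJN : ∀ v ∈ J, v ∉ N₁.v :: (rv L ++ d :: a0 :: (q :: qs).map Pl.v) := fun v hv => (hJ v hv).2
  have hJL : ∀ v ∈ J, v ≠ N₁.v ∧ v ∉ rv L := fun v hv => ⟨fun h => hJN v hv (by
    rw [h]
    exact List.mem_cons_self), fun h => hJN v hv
      (List.mem_cons_of_mem _ (List.mem_append_left _ h))⟩
  have hNJ : N₁.v ∉ J := fun h => (hJL _ h).1 rfl
  have hqJ : ∀ p ∈ q :: qs, p.v ∉ J := fun p hp h => hJN _ h
    (List.mem_cons_of_mem _ (List.mem_append_right _
      (List.mem_cons_of_mem _ (List.mem_cons_of_mem _ (List.mem_map_of_mem hp)))))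
  -- the lists
  have hqX : ∀ p ∈ q :: qs, a < p.g ∧ p.g < p.X ∧ p.X < X0 := fun p hp => CoreG1_ordP_mem ho hp
  have hqm : q ∈ q :: qs := List.mem_cons_self
  obtain ⟨hqa, hqg, hqX0⟩ := hqX q hqm
  have hX0U : X0 ∈ U true := hacol.mem (Set.mem_singleton a0) hw.lines (by linarith)
  have hY0U : Y0 ∈ U false := hbbase.mem (Set.mem_singleton d) hw.lines hAX
  -- the first black vertex is finished
  obtain ⟨s, hsA, hpN⟩ := hblack N₁ List.mem_cons_self
  have hNe : N₁.e < s := (hpN.plain (hpl N₁ List.mem_cons_self)).2.1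
  obtain ⟨Γa, hsa, hPN, hNrow, hNfoot, hND⟩ := Pend.finish (Y := X0) hw hpN (by linarith) le_rfl
    hX0U (by
      intro x hx1 hx2 w hwN hxw
      have h := (hacol x (by linarith) (by linarith)).2 w
      rw [h.1 hxw]
      exact hadj)
  have hND' : ∀ x, s ≤ x → x < X0 → x ∈ D false N₁.c := fun x hx1 hx2 =>
    hND false N₁.c (Or.inl ⟨rfl, rfl, hx1, hx2⟩)
  have hga : ∀ v o l x, x ∈ Γa v o l → x ∈ Γ v o l ∨ (v = N₁.v ∧
      ((o = false ∧ l = N₁.c ∧ s ≤ x ∧ x < X0) ∨ (o = true ∧ l = X0 ∧ N₁.g < x ∧ x < N₁.c))) := by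
    intro v o l x hx
    rcases hsa.grow.new v o l x hx with h | ⟨hv, (h | h) | h⟩
    · exact Or.inl h
    · exact Or.inr ⟨hv, Or.inl ⟨h.1, h.2.1, h.2.2.1, h.2.2.2⟩⟩
    · have h' : o = true ∧ l = X0 ∧ N₁.g < x ∧ x < N₁.c := by
        have h0 : x ∈ seg true X0 N₁.g N₁.c o l := h
        rw [CoreG1_segm hN1] at h0
        exact h0
      exact Or.inr ⟨hv, Or.inr h'⟩
    · obtain ⟨-, -, h10, h11⟩ := h
      exfalso
      linarith
  have hΓa : ∀ v, v ≠ N₁.v → Γa v = Γ v := fun v hv => hsa.grow.eq (fun h => hv h)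
  have hinL : ∀ r ∈ L, N₁.c < r.c ∧ r.c < Y0 := by
    intro r hr
    obtain ⟨h8, h9, h10⟩ := hordL.mem hr
    exact ⟨h8.trans h9, h10⟩
  have hbla : ∀ r ∈ L, ∃ s ≤ A, Pend P Γa U D false s X0 r := by
    intro r hr
    obtain ⟨t, ht, hpt⟩ := hblack r (List.mem_cons_of_mem _ hr)
    refine ⟨t, ht, hpt.grow hsa.grow (fun _ _ h => h) (hNL r hr) ?_ ?_⟩
    · intro x hx1 hx2 hx3
      obtain ⟨h8, -⟩ := hinL r hr
      rcases hx3 with (⟨-, h9, -⟩ | ⟨h9, -⟩) | ⟨-, -, h9, h10⟩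
      · linarith
      · exact absurd h9 (by decide)
      · linarith
    · intro x hx1 hx2
      exfalso
      have := (hpt.plain (hpl r (List.mem_cons_of_mem _ hr))).2.1
      linarith
  -- new coordinate
  obtain ⟨xI, hx1, hx2⟩ := exists_between hAX
  have hrowa : SW Γa D {N₁.v} false N₁.c A X0 := fun x h8 h9 =>
    ⟨hND' x (by linarith) h9, fun v => hNrow x (by linarith) h9 v⟩
  obtain ⟨Γb, Db, Ym, hsb, hDbt, hDbf, hYm1, hYm2, hYm3, hblb⟩ := CoreG1_commit (d := d) hsa.wd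
    (fun r hr => hpl r (List.mem_cons_of_mem _ hr)) hordL hcY hbla hrowa hndL hx1
    (by linarith : xI < X0)
  have hYmU : Ym ∈ U false := hYm3.mem (Set.mem_singleton _) hsb.wd.lines hx1
  -- the lines of the new gaps
  set S : Finset ℚ := ((CoreG1_fl L Y0).map (fun r => -r.g)).toFinset with hS
  set U₁ : Bool → Finset ℚ := fun o => if o then U true else U false ∪ S with hU₁
  have hUt : U₁ true = U true := by
    rw [hU₁]
    simp
  have hUf : ∀ l, l ∈ U₁ false ↔ l ∈ U false ∨ l ∈ S := by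
    intro l
    have h : U₁ false = U false ∪ S := by
      rw [hU₁]
      simp
    rw [h, Finset.mem_union]
  have hUU : ∀ o, U o ⊆ U₁ o := by
    intro o l hl
    cases o with
    | true =>
      rw [hUt]
      exact hl
    | false => exact (hUf l).2 (Or.inl hl)
  have hsc : Step G Γb U Db {v | v ∈ rv L} Γb U₁ := Step.addLine hsb.wd hUU
  -- the drawing before the filling
  have hgb : ∀ v o l x, x ∈ Γb v o l → x ∈ Γ v o l ∨
      (o = false ∧ l = N₁.c ∧ v = N₁.v) ∨ (o = true ∧ l = X0 ∧ N₁.g < x ∧ x < N₁.c) ∨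
      (o = false ∧ l = Ym ∧ N₁.c < l ∧ x < xI ∧ v ∈ rv L) := by
    intro v o l x hx
    rcases hsb.grow.new v o l x hx with h | ⟨hv, h⟩
    · rcases hga v o l x h with h | ⟨hv, h | h⟩
      · exact Or.inl h
      · exact Or.inr (Or.inl ⟨h.1, h.2.1, hv⟩)
      · exact Or.inr (Or.inr (Or.inl h))
    · cases o with
      | true => exact absurd h (hDbt l x)
      | false =>
        obtain ⟨h8, h9, -, h10, -⟩ := hDbf l x h
        exact Or.inr (Or.inr (Or.inr ⟨rfl, h8, h9, h10, hv⟩))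
  have hmb : ∀ v o l x, x ∈ Γ v o l → x ∈ Γb v o l := fun v o l x hx =>
    hsb.grow.mono _ _ _ _ (hsa.grow.mono _ _ _ _ hx)
  have hΓb : ∀ v, v ≠ N₁.v → v ∉ rv L → Γb v = Γ v := fun v hv1 hv2 => by
    rw [hsb.grow.eq (fun h => hv2 h), hΓa v hv1]
  have hΓq : ∀ p ∈ q :: qs, Γ p.v = seg false Λ p.g p.es ⊔ seg true p.g Λ yl ⊔
      seg true p.X y₁ T₂ := by
    intro p hp
    obtain ⟨h8, h9⟩ := hq p hp
    rw [h8.cov]
    unfold Pl.cov
    rw [h9]
  have hlX : ∀ p ∈ q :: qs, ∀ x, yl ≤ x → x ∈ D true p.X ∧ ∀ w, x ∈ Γ w true p.X → w = p.v :=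
    fun p hp x hx => (hq p hp).1.lX x (by linarith)
  have hlg : ∀ p ∈ q :: qs, ∀ x, yl ≤ x → x ∈ D true p.g ∧ ∀ w, x ∈ Γ w true p.g → w = p.v :=
    fun p hp x hx => (hq p hp).1.lg x (by linarith)
  -- the filling
  have hsock : SockR Γb d (lastv (N₁ :: L) d) q.v false Y0 Ym A xI q.X y₁ T₁ := by
    refine ⟨hx1, h5, ?_, hYm3.solo, ?_, hYm2.ne', Or.inr (by linarith)⟩
    · intro x h8 h9 v
      refine ⟨fun hv => ?_, fun hv => hmb _ _ _ _ (((hbbase x h8 (by linarith)).2 v).2 hv)⟩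
      rcases hgb v _ _ _ hv with h | ⟨-, h, -⟩ | ⟨h, -⟩ | ⟨-, h, -⟩
      · exact ((hbbase x h8 (by linarith)).2 v).1 h
      · exfalso
        linarith
      · exact absurd h (by decide)
      · exfalso
        linarith
    · intro x h8 h9 v
      show x ∈ Γb v true q.X ↔ v = q.v
      refine ⟨fun hv => ?_, fun hv => ?_⟩
      · rcases hgb v _ _ _ hv with h | ⟨h, -⟩ | ⟨-, h, -⟩ | ⟨h, -⟩
        · exact (hlX q hqm x (by linarith)).2 v h
        · exact absurd h (by decide)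
        · exfalso
          linarith
        · exact absurd h (by decide)
      · rw [hv]
        refine hmb _ _ _ _ ?_
        rw [hΓq q hqm, CoreG1_sup, CoreG1_segm (show y₁ < T₂ by linarith)]
        exact Or.inr ⟨rfl, rfl, h8, by linarith⟩
  have hzone : ZoneW Γb d (lastv (N₁ :: L) d) false Y0 Ym y₁ T₁ Y0 l₀ l₁ := by
    refine ⟨hl, ?_, Or.inl ⟨h4.le, by linarith, h4.le⟩⟩
    have hz' : Solo Γ {d, lastv (N₁ :: L) d} false Y0 l₀ l₁ := by
      rw [Set.pair_comm]
      exact hz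
    intro x h8 h9 v
    refine ⟨fun hv => ?_, fun hv => hmb _ _ _ _ ((hz' x h8 h9 v).2 hv)⟩
    rcases hgb v _ _ _ hv with h | ⟨-, h, -⟩ | ⟨h, -⟩ | ⟨-, h, -⟩
    · exact (hz' x h8 h9 v).1 h
    · exfalso
      linarith
    · exact absurd h (by decide)
    · exfalso
      linarith
  have hJb : ∀ v ∈ J, Undrawn Γb v := by
    intro v hv
    obtain ⟨h8, h9⟩ := hJL v hv
    intro o l x hx
    rw [hΓb v h8 h9] at hx
    exact (hJ v hv).1 o l x hx
  obtain ⟨Γ', U', hsd, hfill⟩ := hf.wk Γb U₁ d (lastv (N₁ :: L) d) q.v false Y0 Ym A xI q.X y₁ T₁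
    Y0 l₀ l₁ rfl hsc.wd hJb hsock hzone
  have hU' : ∀ o, U o ⊆ U' o := fun o l h => hsd.sub o (hUU o h)
  -- growth of the filling
  have hgd : ∀ v o l x, x ∈ Γ' v o l → x ∈ Γb v o l ∨ (v ∈ J ∧ (l ∉ U₁ o ∨
      (o = false ∧ l = Y0 ∧ A < x ∧ x < xI) ∨ (o = false ∧ l = Ym ∧ A < x ∧ x < xI) ∨
      (o = true ∧ l = q.X ∧ y₁ < x ∧ x < T₁) ∨ (o = false ∧ l = Y0 ∧ l₀ < x ∧ x < l₁))) := by
    intro v o l x hx
    rcases hsd.grow.new v o l x hx with h | ⟨hv, h⟩
    · exact Or.inl h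
    · refine Or.inr ⟨hv, ?_⟩
      have h' : (l ∉ U₁ o) ∨ x ∈ (seg false Y0 A xI ⊔ seg false Ym A xI ⊔ seg true q.X y₁ T₁ ⊔
          seg false Y0 l₀ l₁) o l := h
      rw [CoreG1_sup, CoreG1_sup, CoreG1_sup, CoreG1_segm hx1, CoreG1_segm hx1, CoreG1_segm h5,
        CoreG1_segm hl] at h'
      rcases h' with h' | ((h' | h') | h') | h'
      · exact Or.inl h'
      · exact Or.inr (Or.inl h')
      · exact Or.inr (Or.inr (Or.inl h'))
      · exact Or.inr (Or.inr (Or.inr (Or.inl h')))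
      · exact Or.inr (Or.inr (Or.inr (Or.inr h')))
  have hmd : ∀ v o l x, x ∈ Γ v o l → x ∈ Γ' v o l := fun v o l x hx =>
    hsd.grow.mono _ _ _ _ (hmb v o l x hx)
  -- vertical lines
  have hgv : ∀ v l x, l ∈ U true → x ∈ Γ' v true l → x ∈ Γ v true l ∨
      (l = X0 ∧ N₁.g < x ∧ x < N₁.c) ∨ (l = q.X ∧ y₁ < x) := by
    intro v l x hlU hx
    rcases hgd v _ l x hx with h | ⟨-, h | ⟨h, -⟩ | ⟨h, -⟩ | ⟨-, h, h', -⟩ | ⟨h, -⟩⟩
    · rcases hgb v _ _ _ h with h | ⟨h, -⟩ | ⟨-, h⟩ | ⟨h, -⟩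
      · exact Or.inl h
      · exact absurd h (by decide)
      · exact Or.inr (Or.inl h)
      · exact absurd h (by decide)
    · exact absurd (hUU _ hlU) h
    · exact absurd h (by decide)
    · exact absurd h (by decide)
    · exact Or.inr (Or.inr ⟨h, h'⟩)
    · exact absurd h (by decide)
  have hstep : Step G Γ U (D ⊓ (nl U ⊔ band yl T₁)) {v | v ∈ rv (N₁ :: L) ∨ v ∈ J} Γ' U' := by
    have t1 : Step G Γ U (D ⊓ (nl U ⊔ band yl T₁)) {v | v ∈ rv (N₁ :: L) ∨ v ∈ J} Γa U := by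
      refine ⟨fun _ _ h => h, hsa.wd, hsa.grow.mono, fun v o l x hx => ?_⟩
      rcases hga v o l x hx with h | ⟨hv, h⟩
      · exact Or.inl h
      · refine Or.inr ⟨Or.inl (by rw [hv]; exact List.mem_cons_self), ?_⟩
        rcases h with ⟨rfl, rfl, h8, h9⟩ | ⟨rfl, rfl, h8, h9⟩
        · exact ⟨hND' x h8 h9, Or.inr (CoreG1_bandh.2 ⟨by linarith, by linarith⟩)⟩
        · exact ⟨(hacol x (by linarith) (by linarith)).1,
            Or.inr (CoreG1_bandv.2 ⟨by linarith, by linarith⟩)⟩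
    have t2 : Step G Γa U (D ⊓ (nl U ⊔ band yl T₁)) {v | v ∈ rv (N₁ :: L) ∨ v ∈ J} Γb U := by
      refine hsb.weaken ?_ ?_
      · intro o l x hx
        cases o with
        | true => exact absurd hx (hDbt l x)
        | false =>
          obtain ⟨-, h9, h10, -, h11⟩ := hDbf l x hx
          exact ⟨h11, Or.inr (CoreG1_bandh.2 ⟨by linarith, by linarith⟩)⟩
      · intro v hv
        exact Or.inl (List.mem_cons_of_mem _ hv)
    have t3 : Step G Γb U (D ⊓ (nl U ⊔ band yl T₁)) {v | v ∈ rv (N₁ :: L) ∨ v ∈ J} Γ' U' := by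
      refine ⟨hU', hsd.wd, hsd.grow.mono, fun v o l x hx => ?_⟩
      rcases hgd v o l x hx with h | ⟨hv, h⟩
      · exact Or.inl h
      · refine Or.inr ⟨Or.inr hv, ?_⟩
        rcases h with h | ⟨rfl, rfl, -, -⟩ | ⟨rfl, rfl, h8, h9⟩ | ⟨rfl, rfl, h8, h9⟩ |
          ⟨rfl, rfl, -, -⟩
        · have h8 : l ∉ U o := fun h9 => h (hUU o h9)
          exact ⟨hD o l h8, Or.inl h8⟩
        · exact ⟨hrowD x, Or.inr (CoreG1_bandh.2 ⟨by linarith, by linarith⟩)⟩
        · exact ⟨(hYm3 x h8 h9).1, Or.inr (CoreG1_bandh.2 ⟨by linarith, by linarith⟩)⟩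
        · exact ⟨(hlX q hqm x (by linarith)).1,
            Or.inr (CoreG1_bandv.2 ⟨by linarith, by linarith⟩)⟩
        · exact ⟨hrowD x, Or.inr (CoreG1_bandh.2 ⟨by linarith, by linarith⟩)⟩
    exact (t1.trans t2).trans t3
  have hNL' : N₁.v ∉ rv L := fun h => hN0 (List.mem_append_left _ h)
  have hΓN : Γ' N₁.v = Γa N₁.v := by
    rw [hsd.grow.eq (fun h => hNJ h), hsb.grow.eq (fun h => hNL' h)]
  refine ⟨Γ', U', xI, (q :: qs).map (fun p => ⟨p.v, p.X, p.g, -yl, p.X, false⟩), CoreG1_fl L Y0,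
    hstep, ?_, ?_, hfill, ?_, CoreG1_flrv L Y0, ?_, ?_⟩
  · rw [hΓN]
    exact hPN
  · obtain ⟨x, h8, h9⟩ := exists_between hN1
    refine ⟨true, X0, x, ?_, ?_⟩
    · rw [hΓN]
      exact hNfoot x h8 h9
    · exact hmd _ _ _ _ (((hacol x (by linarith) (by linarith)).2 a0).2 rfl)
  · simp [rv, Function.comp_def]
  · intro r hr
    obtain ⟨r', -, g', -, rfl⟩ := CoreG1_flmem hordL (fun r hr => (hinL r hr).2) hr
    rfl
  · -- the reflected state
    refine ⟨?_, ?_, le_rfl, le_rfl, ?_, ?_, ?_, ?_⟩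
    · exact CoreG1_ordL (fun _ => rfl) (fun _ => rfl) (CoreG1_ordP_mono ho (by linarith))
    · exact (CoreG1_flord hordL (fun r hr => (hinL r hr).2)
        (CoreG1_topc hordL hcY)).mono (by linarith) le_rfl
    · -- the whites
      intro r hr
      refine ⟨-y₁, le_rfl, ?_⟩
      obtain ⟨p, hp, rfl⟩ := List.mem_map.1 hr
      obtain ⟨h8, h9⟩ := hq p hp
      obtain ⟨h10, h11, h12⟩ := hqX p hp
      have h13 : Γ' p.v = Γ p.v := by
        rw [hsd.grow.eq (fun h => hqJ p hp h), hΓb p.v (hNq p hp) (hLq p hp)]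
      refine conn_pend (e' := p.es) (T₂ := T₂) (yl := yl) (by linarith [h8.es]) h3' h11
        (by linarith) (by linarith) (hP p hp) ?_ (hU' _ h8.hX) (hU' _ h8.hg) ?_ ?_
      · rw [h13]
        exact hΓq p hp
      · intro x h14 h15
        have h14' : N₁.c < x := by linarith
        refine ⟨⟨(hlX p hp x (by linarith)).1, Or.inr (CoreG1_bandv.2 ⟨by linarith, h15⟩)⟩,
          fun w hxw => ?_⟩
        rcases hgv w _ x h8.hX hxw with h | ⟨h, -⟩ | ⟨-, h⟩
        · exact (hlX p hp x (by linarith)).2 w h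
        · exfalso
          linarith
        · exfalso
          linarith
      · intro x h14 h15
        refine ⟨⟨(hlg p hp x h14).1, Or.inr (CoreG1_bandv.2 ⟨h14, h15⟩)⟩, fun w hxw => ?_⟩
        rcases hgv w _ x h8.hg hxw with h | ⟨h, -⟩ | ⟨-, h⟩
        · exact (hlg p hp x h14).2 w h
        · exfalso
          linarith
        · exfalso
          linarith
    · -- the blacks
      intro r' hr'
      obtain ⟨r, hr, g', hg', hqe⟩ := CoreG1_flmem hordL (fun r hr => (hinL r hr).2) hr'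
      obtain ⟨sr, hsr, hpr, hor⟩ := hblb r hr
      obtain ⟨h8, h9⟩ := hinL r hr
      have hplr := hpl r (List.mem_cons_of_mem _ hr)
      have hre : r.e < sr := (hpr.plain hplr).2.1
      refine ⟨sr, hsr, ?_⟩
      have hgS : g' ∈ U' false := by
        refine hsd.sub _ ((hUf _).2 (Or.inr ?_))
        rw [hS, List.mem_toFinset]
        refine List.mem_map.2 ⟨r', hr', ?_⟩
        rw [hqe]
        simp
      rw [hqe]
      refine Pend.flip ?_ hplr hg' hgS
      have hrJ : r.v ∉ J := fun h => (hJL _ h).2 (hrvL r hr)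
      have h12 : Pend P Γ' U' D false sr X0 r := by
        refine hpr.grow hsd.grow hU' hrJ ?_ ?_
        · intro x h13 h14 h15
          have h15' : (r.c ∉ U₁ false) ∨ x ∈ (seg false Y0 A xI ⊔ seg false Ym A xI ⊔
            seg true q.X y₁ T₁ ⊔ seg false Y0 l₀ l₁) false r.c := h15
          rw [CoreG1_sup, CoreG1_sup, CoreG1_sup, CoreG1_segm hx1, CoreG1_segm hx1,
            CoreG1_segm h5, CoreG1_segm hl] at h15'
          rcases h15' with h | ((⟨-, h, -⟩ | ⟨-, h, -, h16⟩) | ⟨h, -⟩) | ⟨-, h, -⟩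
          · exact h (hUU _ hpr.hc)
          · linarith
          · have := hor h
            linarith
          · exact absurd h (by decide)
          · linarith
        · intro x h13 h14
          exfalso
          linarith
      refine h12.mono_D ?_ ?_
      · intro x h13 h14 h15
        exact ⟨h15, Or.inr (CoreG1_bandh.2 ⟨by linarith, by linarith⟩)⟩
      · intro x h13 h14
        exfalso
        linarith
    · -- the column of `a0`
      rw [SW.flv, neg_neg, neg_neg]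
      intro x h8 h9
      have h10 := hacol x (by linarith) (by linarith)
      refine ⟨⟨h10.1, Or.inr (CoreG1_bandv.2 ⟨by linarith, by linarith⟩)⟩,
        fun v => ⟨fun hv => ?_, fun hv => hmd _ _ _ _ ((h10.2 v).2 hv)⟩⟩
      rcases hgv v _ x hX0U hv with h | ⟨-, -, h⟩ | ⟨-, h⟩
      · exact (h10.2 v).1 h
      · exfalso
        linarith
      · exfalso
        linarith
    · -- the line of `N₁`
      rw [SW.flh, neg_neg]
      intro x h8 h9
      refine ⟨⟨hND' x (by linarith) h9, Or.inr (CoreG1_bandh.2 ⟨by linarith, by linarith⟩)⟩,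
        fun v => ⟨fun hv => ?_, fun hv => ?_⟩⟩
      · have h10 : x ∈ Γa v false N₁.c := by
          rcases hgd v _ _ x hv with h | ⟨-, h | ⟨-, h, -⟩ | ⟨-, -, -, h⟩ | ⟨h, -⟩ | ⟨-, h, -⟩⟩
          · rcases hsb.grow.new v _ _ _ h with h | ⟨-, h⟩
            · exact h
            · exfalso
              obtain ⟨-, h11, -⟩ := hDbf _ _ h
              linarith
          · exact absurd (hUU _ hpN.hc) h
          · exfalso
            linarith
          · exfalso
            linarith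
          · exact absurd h (by decide)
          · exfalso
            linarith
        exact (hNrow x (by linarith) h9 v).1 h10
      · have hv' : v = N₁.v := hv
        rw [hv', hΓN]
        exact (hNrow x (by linarith) h9 _).2 rfl

end EPG26
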