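import Pool.Agent.W_26e041_h61.CoreG

/-!
The flip with an inner neighbour `y` of the last base `d`.
-/

namespace EPG26

variable {V : Type*} [DecidableEq V]

/-- the first placed vertex, or `a` -/
def topp : List (Pl V) → V → V
  | [], a => a
  | p :: _, _ => p.v

/-- the main column of the first placed vertex, or `X` -/
def topX : List (Pl V) → ℚ → ℚ
  | [], X => X
  | p :: _, _ => p.X

theorem CoreG2_inf {C C' : Cov} {o : Bool} {l x : ℚ} :
    x ∈ (C ⊓ C') o l ↔ x ∈ C o l ∧ x ∈ C' o l := Iff.rfl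

theorem CoreG2_sup {C C' : Cov} {o : Bool} {l x : ℚ} :
    x ∈ (C ⊔ C') o l ↔ x ∈ C o l ∨ x ∈ C' o l := Iff.rfl

theorem CoreG2_bandv {a b l x : ℚ} : x ∈ band a b true l ↔ a ≤ x ∧ x ≤ b := by
  simp [band]

theorem CoreG2_bandh {a b l x : ℚ} : x ∈ band a b false l ↔ a ≤ l ∧ l ≤ b := by
  simp [band]

theorem CoreG2_xgev {q l x : ℚ} : x ∈ xge q true l ↔ q ≤ l := by
  simp [xge]

theorem CoreG2_xgeh {q l x : ℚ} : x ∈ xge q false l ↔ q ≤ x := by
  simp [xge]

theorem CoreG2_segm {o o' : Bool} {l l' a b x : ℚ} (h : a < b) :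
    x ∈ seg o l a b o' l' ↔ o' = o ∧ l' = l ∧ a < x ∧ x < b := by
  have h1 : x ∈ seg o l a b o' l' ↔ o' = o ∧ l' = l ∧ min a b < x ∧ x < max a b := Iff.rfl
  rw [h1, min_eq_left h.le, max_eq_right h.le]

theorem CoreG2_SW {Γ : Dr V} {D D' : Cov} {S : Set V} {o : Bool} {l a b : ℚ}
    (h : SW Γ D S o l a b) (hd : ∀ x, a < x → x < b → x ∈ D o l → x ∈ D' o l) :
    SW Γ D' S o l a b := fun x h1 h2 => ⟨hd x h1 h2 (h x h1 h2).1, (h x h1 h2).2⟩

theorem CoreG2_ordP_mono {lo lo' hi : ℚ} {qs : List (Pl V)} (h : OrdP lo qs hi)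
    (h1 : lo' ≤ lo) : OrdP lo' qs hi := by
  cases qs with
  | nil => exact lt_of_le_of_lt h1 h
  | cons p t => exact ⟨lt_of_le_of_lt h1 h.1, h.2.1, h.2.2⟩

theorem CoreG2_ordP_mem {lo hi : ℚ} {qs : List (Pl V)} (h : OrdP lo qs hi) {p : Pl V}
    (hp : p ∈ qs) : lo < p.g ∧ p.g < p.X ∧ p.X < hi := by
  have hlt : ∀ (t : List (Pl V)) (m : ℚ), OrdP m t hi → m < hi := by
    intro t
    induction t with
    | nil => exact fun m h1 => h1
    | cons q t ih => exact fun m h1 => h1.1.trans (h1.2.1.trans (ih _ h1.2.2))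
  induction qs generalizing lo with
  | nil => exact absurd hp (List.not_mem_nil)
  | cons q t ih =>
    obtain ⟨h1, h2, h3⟩ := h
    rcases List.mem_cons.1 hp with rfl | hp
    · exact ⟨h1, h2, hlt t _ h3⟩
    · obtain ⟨h4, h5, h6⟩ := ih h3 hp
      exact ⟨h1.trans (h2.trans h4), h5, h6⟩

theorem CoreG2_ordP_right {lo hi : ℚ} {qa qb : List (Pl V)} (h : OrdP lo (qa ++ qb) hi) :
    OrdP lo qb hi := by
  induction qa generalizing lo with
  | nil => exact h
  | cons p t ih => exact CoreG2_ordP_mono (ih h.2.2) (h.1.trans h.2.1).le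

theorem CoreG2_topX_lt {lo hi : ℚ} {qb : List (Pl V)} (h : OrdP lo qb hi) :
    lo < topX qb hi := by
  cases qb with
  | nil => exact h
  | cons p t => exact h.1.trans h.2.1

theorem CoreG2_topX_hi {lo hi : ℚ} {qb : List (Pl V)} (h : OrdP lo qb hi) :
    topX qb hi ≤ hi := by
  cases qb with
  | nil => exact le_rfl
  | cons p t => exact (CoreG2_ordP_mem h (List.mem_cons_self)).2.2.le

theorem CoreG2_topX_le {lo hi : ℚ} {qb : List (Pl V)} (h : OrdP lo qb hi) {p : Pl V}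
    (hp : p ∈ qb) : topX qb hi ≤ p.X := by
  cases qb with
  | nil => exact absurd hp (List.not_mem_nil)
  | cons q t =>
    rcases List.mem_cons.1 hp with rfl | hp
    · exact le_rfl
    · obtain ⟨h1, h2, -⟩ := CoreG2_ordP_mem h.2.2 hp
      exact (h1.trans h2).le

theorem CoreG2_ordP_left {lo hi : ℚ} {qa qb : List (Pl V)} (h : OrdP lo (qa ++ qb) hi) :
    OrdP lo qa (topX qb hi) := by
  induction qa generalizing lo with
  | nil => exact CoreG2_topX_lt h
  | cons p t ih => exact ⟨h.1, h.2.1, ih h.2.2⟩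

theorem CoreG2_ordL {f : Pl V → Rec V} (hfc : ∀ p, (f p).c = p.X) (hfg : ∀ p, (f p).g = p.g)
    {lo hi : ℚ} {qs : List (Pl V)} (h : OrdP lo qs hi) : OrdL lo (qs.map f) hi := by
  induction qs generalizing lo with
  | nil => exact h
  | cons p t ih =>
    refine ⟨?_, ?_, ?_⟩
    · rw [hfg]
      exact h.1
    · rw [hfg, hfc]
      exact h.2.1
    · rw [hfc]
      exact ih h.2.2

/-- the flipped records, in reversed order, with new gaps -/
def CoreG2_fl : List (Rec V) → ℚ → List (Rec V)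
  | [], _ => []
  | r :: t, T => CoreG2_fl t T ++ [⟨r.v, -r.c, -((r.c + topc t T) / 2), r.e, -r.c + 1, true⟩]

theorem CoreG2_append {lo hi : ℚ} {L : List (Rec V)} {r : Rec V} (h : OrdL lo L r.g)
    (h1 : r.g < r.c) (h2 : r.c < hi) : OrdL lo (L ++ [r]) hi := by
  induction L generalizing lo with
  | nil => exact ⟨h, h1, h2⟩
  | cons q t ih => exact ⟨h.1, h.2.1, ih h.2.2⟩

theorem CoreG2_topc {lo hi T : ℚ} {L : List (Rec V)} (h : OrdL lo L hi) (hT : lo < T) :
    lo < topc L T := by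
  cases L with
  | nil => exact hT
  | cons r t => exact h.1.trans h.2.1

theorem CoreG2_flord {lo hi T m : ℚ} {L : List (Rec V)} (h : OrdL lo L hi)
    (hT : ∀ r ∈ L, r.c < T) (hm : m < topc L T) : OrdL (-T) (CoreG2_fl L T) (-m) := by
  induction L generalizing lo m with
  | nil => exact neg_lt_neg hm
  | cons r t ih =>
    have h1 : r.c < topc t T := CoreG2_topc h.2.2 (hT r List.mem_cons_self)
    have h2 : m < r.c := hm
    have h3 : (r.c + topc t T) / 2 < topc t T := by linarith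
    have h4 : r.c < (r.c + topc t T) / 2 := by linarith
    exact CoreG2_append (ih h.2.2 (fun q hq => hT q (List.mem_cons_of_mem _ hq)) h3)
      (neg_lt_neg h4) (neg_lt_neg h2)

theorem CoreG2_flrv (L : List (Rec V)) (T : ℚ) : rv (CoreG2_fl L T) = (rv L).reverse := by
  induction L with
  | nil => rfl
  | cons r t ih =>
    have h1 : rv (CoreG2_fl (r :: t) T) = rv (CoreG2_fl t T) ++ [r.v] := by
      simp [rv, CoreG2_fl]
    have h2 : rv (r :: t) = r.v :: rv t := rfl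
    rw [h1, h2, List.reverse_cons, ih]

theorem CoreG2_flmem {lo hi T : ℚ} {L : List (Rec V)} (h : OrdL lo L hi)
    (hT : ∀ r ∈ L, r.c < T) {q : Rec V} (hq : q ∈ CoreG2_fl L T) :
    ∃ r ∈ L, ∃ g', r.c < g' ∧ q = ⟨r.v, -r.c, -g', r.e, -r.c + 1, true⟩ := by
  induction L generalizing lo with
  | nil => exact absurd hq (List.not_mem_nil)
  | cons r t ih =>
    have h1 : r.c < topc t T := CoreG2_topc h.2.2 (hT r List.mem_cons_self)
    rcases List.mem_append.1 hq with hq | hq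
    · obtain ⟨r', h2, h3⟩ := ih h.2.2 (fun q hq => hT q (List.mem_cons_of_mem _ hq)) hq
      exact ⟨r', List.mem_cons_of_mem _ h2, h3⟩
    · exact ⟨r, List.mem_cons_self, _, by linarith, List.mem_singleton.1 hq⟩

/-- the finishing of the new vertex in the reflected drawing -/
theorem CoreG2_pay {P : Cov → Prop} (hP : ∀ C, IsPath3 C → P C) {Xm Y0 yv Xy y₁ g' hi : ℚ}
    (h1 : Y0 < yv) (h2 : Xy < Xm) (h3 : y₁ < Y0) (hg : g' ≠ Xy) :
    Pay (fun C => P (fly C)) (fly (seg true Xm Y0 yv ⊔ seg false Y0 Xy Xm ⊔ seg true Xy y₁ Y0))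
      true Xy g' (-y₁) hi (fun _ => ⊥) := by
  intro Y hY1 _
  have hY : -Y < y₁ := by linarith
  set R : Cov := seg true Xm yv Y0 ⊔ seg false Y0 Xm Xy ⊔ seg true Xy Y0 (-Y) ⊔
    seg false (-Y) Xy g' with hR
  have hRp : IsPath3 R := by
    have h4 : IsPath3 (seg false Xm yv Y0 ⊔ seg true Y0 Xm Xy ⊔ seg false Xy Y0 (-Y) ⊔
        seg true (-Y) Xy g') := by
      refine LineB_path6 h1.ne' h2.ne' (by linarith) hg.symm ?_
      rintro ⟨h5, -, -, -⟩
      rw [min_eq_right h1.le] at h5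
      linarith
    have h5 := IsPath3.swp.2 h4
    rw [swp_sup, swp_sup, swp_sup, swp_seg, swp_seg, swp_seg, swp_seg] at h5
    exact h5
  have m1 : ∀ {o : Bool} {l x : ℚ}, x ∈ R o l ↔
      ((((o = true ∧ l = Xm ∧ Y0 < x ∧ x < yv) ∨ (o = false ∧ l = Y0 ∧ Xy < x ∧ x < Xm)) ∨
        (o = true ∧ l = Xy ∧ -Y < x ∧ x < Y0)) ∨ x ∈ seg false (-Y) Xy g' o l) := by
    intro o l x
    rw [hR, LineB_comm true Xm yv Y0, LineB_comm false Y0 Xm Xy, LineB_comm true Xy Y0 (-Y)]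
    rw [CoreG2_sup, CoreG2_sup, CoreG2_sup, CoreG2_segm h1, CoreG2_segm h2,
      CoreG2_segm (by linarith : -Y < Y0)]
  have m2 : ∀ {o : Bool} {l x : ℚ},
      x ∈ (seg true Xm Y0 yv ⊔ seg false Y0 Xy Xm ⊔ seg true Xy y₁ Y0) o l ↔
      (((o = true ∧ l = Xm ∧ Y0 < x ∧ x < yv) ∨ (o = false ∧ l = Y0 ∧ Xy < x ∧ x < Xm)) ∨
        (o = true ∧ l = Xy ∧ y₁ < x ∧ x < Y0)) := by
    intro o l x
    rw [CoreG2_sup, CoreG2_sup, CoreG2_segm h1, CoreG2_segm h2, CoreG2_segm h3]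
  refine ⟨fly R, ?_, ?_, ?_, ?_, ?_⟩
  · show P (fly (fly R))
    rw [fly_fly]
    exact hP R hRp
  · rw [fly_le]
    intro o l x hx
    rw [m2] at hx
    rw [m1]
    rcases hx with (hx | hx) | hx
    · exact Or.inl (Or.inl (Or.inl hx))
    · exact Or.inl (Or.inl (Or.inr hx))
    · exact Or.inl (Or.inr ⟨hx.1, hx.2.1, by linarith [hx.2.2.1], hx.2.2.2⟩)
  · rintro o l x ⟨rfl, rfl, hx1, hx2⟩
    show -x ∈ R true l
    rw [m1]
    exact Or.inl (Or.inr ⟨rfl, rfl, by linarith, by linarith⟩)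
  · rintro o l x ⟨ho, hl, hx1, hx2⟩
    have ho' : o = false := ho
    subst ho'
    subst hl
    show x ∈ R false (-l)
    rw [m1]
    refine Or.inr ⟨rfl, rfl, ?_, ?_⟩
    · rw [min_comm]
      exact hx1
    · rw [max_comm]
      exact hx2
  · intro o l x hx
    refine Or.inl ?_
    cases o with
    | true =>
      have hx' : -x ∈ R true l := hx
      rw [m1] at hx'
      rcases hx' with ((hx' | hx') | hx') | hx'
      · refine Or.inl (Or.inl ?_)
        show -x ∈ (seg true Xm Y0 yv ⊔ seg false Y0 Xy Xm ⊔ seg true Xy y₁ Y0) true l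
        rw [m2]
        exact Or.inl (Or.inl hx')
      · exact absurd hx'.1 (by simp)
      · obtain ⟨-, h5, h6, h7⟩ := hx'
        rcases lt_or_ge y₁ (-x) with h8 | h8
        · refine Or.inl (Or.inl ?_)
          show -x ∈ (seg true Xm Y0 yv ⊔ seg false Y0 Xy Xm ⊔ seg true Xy y₁ Y0) true l
          rw [m2]
          exact Or.inr ⟨rfl, h5, h8, h7⟩
        · exact Or.inl (Or.inr ⟨rfl, h5, by linarith, by linarith⟩)
      · exact absurd hx'.1 (by simp)
    | false =>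
      have hx' : x ∈ R false (-l) := hx
      rw [m1] at hx'
      rcases hx' with ((hx' | hx') | hx') | hx'
      · exact absurd hx'.1 (by simp)
      · refine Or.inl (Or.inl ?_)
        show x ∈ (seg true Xm Y0 yv ⊔ seg false Y0 Xy Xm ⊔ seg true Xy y₁ Y0) false (-l)
        rw [m2]
        exact Or.inl (Or.inr hx')
      · exact absurd hx'.1 (by simp)
      · obtain ⟨-, h5, h6, h7⟩ := hx'
        refine Or.inr ⟨rfl, by linarith, ?_, ?_⟩
        · rw [min_comm]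
          exact h6
        · rw [max_comm]
          exact h7

/-- Flip with a vertex `y` adjacent to `d` and to `c = topp qb a0` (column `Xm = topX qb X0`). Blacks
`N₁ :: L` (base `d`); the placed vertices are `qa` (kind `tail`) followed by `qb` (kind `conn`).
1. `Pend.finish` for `N₁` at `X0` with its gap `N₁.g` (as in `flip0G`).
2. New coordinates `A < ty < Xy < Xd`, `Y0 < yv < T₁`. Draw
   `Γ₁ y = seg true Xm Y0 yv ⊔ seg false Y0 Xy Xm ⊔ seg true Xy y₁ Y0`: it meets `c` on its column above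
   `Y0` (`acol` resp. coverage of `c` above `y₁`), `d` on `(Xy, Xd)` of `Y0`, and nothing else (`row`).
Sub-state A (not reflected), `z = d` with its column `Xd`, whites: the records of `qa`
(`tail_pend` with `s = Yt`, `hi = Y0 ≤ T₁`), base `c` with column `Xm`, black base `y` with the line `Y0`:
`h = A = hh` with `Xd < hh < a`, `B = Yt`, limits `Xm` and `Y0`; allowed set
`D ⊓ (nl U₁ ⊔ (band Yt T₁ ⊓ xge Xd))`.
Sub-state B (reflected and exchanged), `z = d` with its line `-Y0`, `h = A = -y₁`, `B = A`: whites `y`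
(record `⟨y, Xy, ty, A - 1 (or any number < -y₁), _, true⟩`, `s = -y₁`, final path at the real height
`Y < y₁` with foot `g'`: `zig true [yv, Xm, Y0, Xy, Y, g']`, simple because `Y < Y0 < yv`), then
the records of `qb` (`conn_pend`), base `a0`; blacks: the records of `L` reversed with `Pend.flip` and new
gaps between `r.c` and the next line, resp. between `r.c` and `y₁` for the last one; base `N₁.v` with the
line `-N₁.c`. The first black window `(Xz, h)` is `(-Y0, -y₁)` of the column `Xy`. Growth in the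
allowed set of A does not touch its windows: rows of the blacks and the columns of `qb` and `a0` are
used below `y₁ < Yt`; the column `Xy` and the used part `(A, Xy)` of `Y0` are left of `Xd`. -/
theorem trickYG {G : SimpleGraph V} {P : V → Cov → Prop} {Γ : Dr V} {U : Bool → Finset ℚ}
    {D : Cov} {A B : ℚ} {N₁ : Rec V} {L : List (Rec V)} {d : V} {Xd Y0 : ℚ} {a0 : V}
    {X0 T₁ T₂ Λ Yt yl y₁ sh a : ℚ} {qa qb : List (Pl V)} {y : V}
    (hw : Wd G Γ U) (hD : Adm U D) (hI : CIn P Γ U D A B (N₁ :: L) d Xd Y0 a0 X0 T₁)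
    (hnd : (y :: (rv (N₁ :: L) ++ d :: a0 :: (qa ++ qb).map Pl.v)).Nodup)
    (hqa : ∀ p ∈ qa, Placed Γ U D Λ Yt T₁ T₂ yl y₁ sh p ∧ p.k = Kind.tail)
    (hqb : ∀ p ∈ qb, Placed Γ U D Λ Yt T₁ T₂ yl y₁ sh p ∧ p.k = Kind.conn)
    (ho : OrdP a (qa ++ qb) X0) (ha : Xd < a)
    (hP : ∀ p ∈ qa ++ qb, ∀ C, Ext Λ p.es C → P p.v C)
    (h1 : B < yl) (h2 : yl < N₁.g) (h3 : sh ≤ yl) (h3' : Λ < yl)
    (h4 : ∀ r ∈ N₁ :: L, r.c < y₁) (h5 : y₁ < Yt) (h6 : Yt < Y0) (h7 : T₁ < T₂)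
    (hadj : G.Adj N₁.v a0) (hy : Undrawn Γ y) (hPy : ∀ C, IsPath3 C → P y C)
    (hyd : G.Adj y d) (hyc : G.Adj y (topp qb a0)) :
    ∃ Γ₁ U₁ hh Wa Wy L', Step G Γ U (D ⊓ (nl U ⊔ band yl T₁)) {v | v = y ∨ v ∈ rv (N₁ :: L)} Γ₁ U₁ ∧
      P N₁.v (Γ₁ N₁.v) ∧ Ov Γ₁ N₁.v a0 ∧ Ov Γ₁ y d ∧ Ov Γ₁ y (topp qb a0) ∧
      rv Wa = qa.map Pl.v ∧ rv Wy = y :: qb.map Pl.v ∧ rv L' = (rv L).reverse ∧
      (∀ r ∈ L', r.pl = true) ∧
      MSt P Γ₁ U₁ (D ⊓ (nl U₁ ⊔ (band Yt T₁ ⊓ xge Xd))) d Xd hh hh Yt Wa (topp qb a0)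
        (topX qb X0) (topX qb X0) [] y Y0 Y0 ∧
      ∀ Γ₂ U₂ K₂, Step G Γ₁ U₁ (D ⊓ (nl U₁ ⊔ (band Yt T₁ ⊓ xge Xd))) K₂ Γ₂ U₂ →
        (∀ v ∈ rv (N₁ :: L), v ∉ K₂) → (∀ v ∈ qb.map Pl.v, v ∉ K₂) → y ∉ K₂ →
        MSt (swP (flP P)) (swD (flD Γ₂)) (swp (flU U₂)) (swp (fly (D ⊓ (nl U₂ ⊔ band yl Y0)))) d
          (-Y0) (-y₁) (-y₁) A L' N₁.v (-N₁.c) (-N₁.c) Wy a0 X0 X0 := by
  obtain ⟨⟨hordW, hordB, huX, -, -, hblack, hwbase, hbbase⟩, hpl, hlt, hYT, hrowD, hrow, hdcol,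
    hacol⟩ := hI
  have hAX : A < Xd := hordW
  obtain ⟨hB1, hN1, hordL⟩ := hordB
  have hc1 : N₁.c < y₁ := h4 N₁ List.mem_cons_self
  have hcY : N₁.c < Y0 := by linarith
  have hyY0 : y₁ < Y0 := by linarith
  -- different vertices
  obtain ⟨hy0, hnd1⟩ := List.nodup_cons.1 hnd
  have hnd1' : (N₁.v :: (rv L ++ d :: a0 :: (qa ++ qb).map Pl.v)).Nodup := hnd1
  obtain ⟨hN0, hnd2⟩ := List.nodup_cons.1 hnd1'
  have hy0' : y ∉ N₁.v :: (rv L ++ d :: a0 :: (qa ++ qb).map Pl.v) := hy0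
  have hyN : y ≠ N₁.v := fun h => hy0' (by rw [h]; exact List.mem_cons_self)
  have hrvL : ∀ r ∈ L, r.v ∈ rv L := fun r hr => List.mem_map_of_mem hr
  have hyL : ∀ r ∈ L, r.v ≠ y := fun r hr h => hy0' (by
    rw [← h]
    exact List.mem_cons_of_mem _ (List.mem_append_left _ (hrvL r hr)))
  have hyd' : d ≠ y := fun h => hy0' (by
    rw [← h]
    exact List.mem_cons_of_mem _ (List.mem_append_right _ List.mem_cons_self))
  have hya' : a0 ≠ y := fun h => hy0' (by
    rw [← h]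
    exact List.mem_cons_of_mem _ (List.mem_append_right _
      (List.mem_cons_of_mem _ List.mem_cons_self)))
  have hyq : ∀ p ∈ qa ++ qb, p.v ≠ y := fun p hp h => hy0' (by
    rw [← h]
    exact List.mem_cons_of_mem _ (List.mem_append_right _
      (List.mem_cons_of_mem _ (List.mem_cons_of_mem _ (List.mem_map_of_mem hp)))))
  have hNL : ∀ r ∈ L, r.v ≠ N₁.v := fun r hr h => hN0 (by
    rw [← h]
    exact List.mem_append_left _ (hrvL r hr))
  have hNd : d ≠ N₁.v := fun h => hN0 (by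
    rw [← h]
    exact List.mem_append_right _ List.mem_cons_self)
  have hNa : a0 ≠ N₁.v := fun h => hN0 (by
    rw [← h]
    exact List.mem_append_right _ (List.mem_cons_of_mem _ List.mem_cons_self))
  have hNq : ∀ p ∈ qa ++ qb, p.v ≠ N₁.v := fun p hp h => hN0 (by
    rw [← h]
    exact List.mem_append_right _
      (List.mem_cons_of_mem _ (List.mem_cons_of_mem _ (List.mem_map_of_mem hp))))
  -- the lists
  have hoB : OrdP a qb X0 := CoreG2_ordP_right ho
  have hoA : OrdP a qa (topX qb X0) := CoreG2_ordP_left ho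
  have hqX : ∀ p ∈ qa ++ qb, a < p.g ∧ p.g < p.X ∧ p.X < X0 := fun p hp => CoreG2_ordP_mem ho hp
  have haM : a < topX qb X0 := CoreG2_topX_lt hoB
  have hM0 : topX qb X0 ≤ X0 := CoreG2_topX_hi hoB
  have hqaX : ∀ p ∈ qa, p.g < p.X ∧ p.X < topX qb X0 := fun p hp => (CoreG2_ordP_mem hoA hp).2
  have hqbX : ∀ p ∈ qb, topX qb X0 ≤ p.X := fun p hp => CoreG2_topX_le hoB hp
  have hX0U : X0 ∈ U true := hacol.mem (Set.mem_singleton a0) hw.lines (by linarith)
  have hY0U : Y0 ∈ U false := hbbase.mem (Set.mem_singleton d) hw.lines hAX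
  have hXdU : Xd ∈ U true := hdcol.mem (Set.mem_singleton d) hw.lines (by linarith)
  -- the column of `c`
  have hcol : topX qb X0 ∈ U true ∧ topp qb a0 ≠ y ∧ topp qb a0 ≠ N₁.v ∧
      ∀ x, y₁ < x → x < T₁ → x ∈ D true (topX qb X0) ∧
        ∀ v, x ∈ Γ v true (topX qb X0) ↔ v = topp qb a0 := by
    cases qb with
    | nil =>
      refine ⟨hX0U, hya', hNa, fun x hx1 hx2 => ?_⟩
      have h := hacol x (by linarith) hx2
      exact ⟨h.1, fun v => h.2 v⟩
    | cons p t =>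
      have hp : p ∈ p :: t := List.mem_cons_self
      obtain ⟨h8, h9⟩ := hqb p hp
      refine ⟨h8.hX, hyq p (List.mem_append_right _ hp), hNq p (List.mem_append_right _ hp),
        fun x hx1 hx2 => ?_⟩
      have h10 := h8.lX x (by linarith)
      refine ⟨h10.1, fun v => ⟨fun hv => h10.2 v hv, fun hv => ?_⟩⟩
      rw [hv]
      show x ∈ Γ p.v true p.X
      have h11 : Γ p.v = seg false Λ p.g p.es ⊔ seg true p.g Λ yl ⊔ seg true p.X y₁ T₂ := by
        rw [h8.cov]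
        unfold Pl.cov
        rw [h9]
      rw [h11, CoreG2_sup, CoreG2_segm (show y₁ < T₂ by linarith)]
      exact Or.inr ⟨rfl, rfl, hx1, by linarith⟩
  obtain ⟨hXmU, hcy, hcN, hcol⟩ := hcol
  -- the first black vertex is finished
  obtain ⟨s, hsA, hpN⟩ := hblack N₁ List.mem_cons_self
  have hNe : N₁.e < s := (hpN.plain (hpl N₁ List.mem_cons_self)).2.1
  obtain ⟨Γa, hsa, hPN, hNrow, hNfoot, hND⟩ := Pend.finish (Y := X0) hw hpN (by linarith) le_rfl
    hX0U (by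
      intro x hx1 hx2 w hwN hxw
      have h := (hacol x (by linarith) (by linarith)).2 w
      rw [h.1 hxw]
      exact hadj)
  have hND' : ∀ x, s ≤ x → x < X0 → x ∈ D false N₁.c := fun x hx1 hx2 =>
    hND false N₁.c (Or.inl ⟨rfl, rfl, hx1, hx2⟩)
  have hga : ∀ v o l x, x ∈ Γa v o l → x ∈ Γ v o l ∨ (v = N₁.v ∧
      ((o = false ∧ l = N₁.c ∧ s ≤ x ∧ x < X0) ∨ (o = true ∧ l = X0 ∧ N₁.g < x ∧ x < N₁.c))) := by
    intro v o l x hx
    rcases hsa.grow.new v o l x hx with h | ⟨hv, (h | h) | h⟩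
    · exact Or.inl h
    · exact Or.inr ⟨hv, Or.inl ⟨h.1, h.2.1, h.2.2.1, h.2.2.2⟩⟩
    · have h' : o = true ∧ l = X0 ∧ N₁.g < x ∧ x < N₁.c := by
        have h0 : x ∈ seg true X0 N₁.g N₁.c o l := h
        rw [CoreG2_segm hN1] at h0
        exact h0
      exact Or.inr ⟨hv, Or.inr h'⟩
    · obtain ⟨-, -, h10, h11⟩ := h
      exfalso
      linarith
  have hΓa : ∀ v, v ≠ N₁.v → Γa v = Γ v := fun v hv => hsa.grow.eq (fun h => hv h)
  -- new coordinates
  obtain ⟨Xy, hXy1, hXy2, hXyU⟩ := exists_fresh U true hAX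
  obtain ⟨ty, hty1, hty2⟩ := exists_between hXy1
  obtain ⟨yv, hyv1, hyv2⟩ := exists_between hYT
  obtain ⟨hh, hhh1, hhh2⟩ := exists_between ha
  have hXyM : Xy < topX qb X0 := by linarith
  set C : Cov := seg true (topX qb X0) Y0 yv ⊔ seg false Y0 Xy (topX qb X0) ⊔ seg true Xy y₁ Y0
    with hC
  have mC : ∀ {o : Bool} {l x : ℚ}, x ∈ C o l ↔
      (((o = true ∧ l = topX qb X0 ∧ Y0 < x ∧ x < yv) ∨
        (o = false ∧ l = Y0 ∧ Xy < x ∧ x < topX qb X0)) ∨
        (o = true ∧ l = Xy ∧ y₁ < x ∧ x < Y0)) := by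
    intro o l x
    rw [hC, CoreG2_sup, CoreG2_sup, CoreG2_segm hyv1, CoreG2_segm hXyM, CoreG2_segm hyY0]
  set S : Finset ℚ := ((CoreG2_fl L y₁).map (fun r => -r.g)).toFinset with hS
  set U₁ : Bool → Finset ℚ := fun o => if o then insert ty (insert Xy (U true)) else U false ∪ S
    with hU₁
  have hUt : ∀ l, l ∈ U₁ true ↔ l = ty ∨ l = Xy ∨ l ∈ U true := by
    intro l
    have h : U₁ true = insert ty (insert Xy (U true)) := by
      rw [hU₁]
      simp
    rw [h, Finset.mem_insert, Finset.mem_insert]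
  have hUf : ∀ l, l ∈ U₁ false ↔ l ∈ U false ∨ l ∈ S := by
    intro l
    have h : U₁ false = U false ∪ S := by
      rw [hU₁]
      simp
    rw [h, Finset.mem_union]
  have hUU : ∀ o, U o ⊆ U₁ o := by
    intro o l hl
    cases o with
    | true => exact (hUt l).2 (Or.inr (Or.inr hl))
    | false => exact (hUf l).2 (Or.inl hl)
  have hya : Γa y = Γ y := hΓa y hyN
  have hyemp : ∀ o l x, x ∉ Γa y o l := by
    intro o l x
    rw [hya]
    exact hy o l x
  have hsy : Step G Γa U C {y} (Function.update Γa y C) U₁ := by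
    refine Step.draw hsa.wd hUU (fun o l x hx => absurd hx (hyemp o l x)) ?_ (fun o l x hx _ => hx)
      ?_
    · intro o l x hx
      rw [mC] at hx
      rcases hx with (⟨rfl, rfl, -, -⟩ | ⟨rfl, rfl, -, -⟩) | ⟨rfl, rfl, -, -⟩
      · exact hUU _ hXmU
      · exact hUU _ hY0U
      · exact (hUt _).2 (Or.inr (Or.inl rfl))
    · intro o l x hx _ w hwy hxw
      rw [mC] at hx
      rcases hx with (⟨rfl, rfl, h8, h9⟩ | ⟨rfl, rfl, h8, h9⟩) | ⟨rfl, rfl, h8, h9⟩
      · rcases hga w _ _ _ hxw with h | ⟨-, ⟨h, -⟩ | ⟨-, -, -, h⟩⟩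
        · rw [((hcol x (by linarith) (by linarith)).2 w).1 h]
          exact hyc
        · exact absurd h (by simp)
        · exfalso
          linarith
      · rcases hga w _ _ _ hxw with h | ⟨-, ⟨-, h, -⟩ | ⟨h, -⟩⟩
        · rcases lt_or_ge x Xd with h10 | h10
          · have h11 := ((hbbase x (by linarith) h10).2 w).1 h
            rw [h11]
            exact hyd
          · exact absurd h (hrow x h10 (by linarith) w)
        · exfalso
          linarith
        · exact absurd h (by simp)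
      · exact absurd (hsa.wd.lines _ _ _ _ hxw) hXyU
  set Γ₁ : Dr V := Function.update Γa y C with hΓ₁
  have hΓ₁y : Γ₁ y = C := by
    rw [hΓ₁, Function.update_self]
  have hΓ₁a : ∀ v, v ≠ y → Γ₁ v = Γa v := by
    intro v hv
    rw [hΓ₁, Function.update_of_ne hv]
  have hΓ₁Γ : ∀ v, v ≠ y → v ≠ N₁.v → Γ₁ v = Γ v := fun v hv1 hv2 => by
    rw [hΓ₁a v hv1, hΓa v hv2]
  -- everything that is new
  set D₁ : Cov := fun o l => {x | ((o = false ∧ l = N₁.c ∧ s ≤ x ∧ x < X0) ∨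
      (o = true ∧ l = X0 ∧ N₁.g < x ∧ x < N₁.c)) ∨ x ∈ C o l} with hD₁
  have hg1 : Grow Γ Γ₁ D₁ {v | v = y ∨ v = N₁.v} := by
    refine ⟨fun v o l x hx => hsy.grow.mono v o l x (hsa.grow.mono v o l x hx), ?_⟩
    intro v o l x hx
    rcases hsy.grow.new v o l x hx with h | ⟨hv, h⟩
    · rcases hga v o l x h with h | ⟨hv, h⟩
      · exact Or.inl h
      · exact Or.inr ⟨Or.inr hv, Or.inl h⟩
    · exact Or.inr ⟨Or.inl hv, Or.inr h⟩
  have mD : ∀ {o : Bool} {l x : ℚ}, x ∈ D₁ o l →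
      ((o = false ∧ l = N₁.c ∧ s ≤ x ∧ x < X0) ∨
      (o = true ∧ l = X0 ∧ N₁.g < x ∧ x < N₁.c)) ∨
      ((o = true ∧ l = topX qb X0 ∧ Y0 < x ∧ x < yv) ∨
        (o = false ∧ l = Y0 ∧ Xy < x ∧ x < topX qb X0)) ∨
        (o = true ∧ l = Xy ∧ y₁ < x ∧ x < Y0) := by
    intro o l x hx
    rcases hx with hx | hx
    · exact Or.inl hx
    · exact Or.inr (mC.1 hx)
  -- vertical and horizontal lines
  have mDv : ∀ {l x : ℚ}, x ∈ D₁ true l → (l = X0 ∧ N₁.g < x ∧ x < N₁.c) ∨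
      (l = topX qb X0 ∧ Y0 < x ∧ x < yv) ∨ (l = Xy ∧ y₁ < x ∧ x < Y0) := by
    intro l x hx
    rcases mD hx with (h | h) | (h | h) | h
    · exact absurd h.1 (by simp)
    · exact Or.inl h.2
    · exact Or.inr (Or.inl h.2)
    · exact absurd h.1 (by simp)
    · exact Or.inr (Or.inr h.2)
  have mDh : ∀ {l x : ℚ}, x ∈ D₁ false l → (l = N₁.c ∧ s ≤ x ∧ x < X0) ∨
      (l = Y0 ∧ Xy < x ∧ x < topX qb X0) := by
    intro l x hx
    rcases mD hx with (h | h) | (h | h) | h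
    · exact Or.inl h.2
    · exact absurd h.1 (by simp)
    · exact absurd h.1 (by simp)
    · exact Or.inr h.2
    · exact absurd h.1 (by simp)
  have hstep : Step G Γ U (D ⊓ (nl U ⊔ band yl T₁)) {v | v = y ∨ v ∈ rv (N₁ :: L)} Γ₁ U₁ := by
    refine ⟨hUU, hsy.wd, hg1.weaken ?_ ?_⟩
    · intro o l x hx
      cases o with
      | true =>
        rcases mDv hx with ⟨rfl, h8, h9⟩ | ⟨rfl, h8, h9⟩ | ⟨rfl, h8, h9⟩
        · exact ⟨(hacol x (by linarith) (by linarith)).1,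
            Or.inr (CoreG2_bandv.2 ⟨by linarith, by linarith⟩)⟩
        · exact ⟨(hcol x (by linarith) (by linarith)).1,
            Or.inr (CoreG2_bandv.2 ⟨by linarith, by linarith⟩)⟩
        · exact ⟨hD true _ hXyU, Or.inl hXyU⟩
      | false =>
        rcases mDh hx with ⟨rfl, h8, h9⟩ | ⟨rfl, h8, h9⟩
        · exact ⟨hND' x h8 h9, Or.inr (CoreG2_bandh.2 ⟨by linarith, by linarith⟩)⟩
        · exact ⟨hrowD x, Or.inr (CoreG2_bandh.2 ⟨by linarith, by linarith⟩)⟩
    · rintro v (hv | hv)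
      · exact Or.inl hv
      · exact Or.inr (by rw [hv]; exact List.mem_cons_self)
  -- the placed vertices of `qa` in the new drawing
  have hP1 : ∀ p ∈ qa, Pend P Γ₁ U₁ (D ⊓ (nl U₁ ⊔ (band Yt T₁ ⊓ xge Xd))) true Yt Y0
      ⟨p.v, p.X, p.g, T₁, p.X, false⟩ := by
    intro p hp
    obtain ⟨h8, h9⟩ := hqa p hp
    have hp' : p ∈ qa ++ qb := List.mem_append_left _ hp
    obtain ⟨h10, h11, h12⟩ := hqX p hp'
    have h13 := (hqaX p hp).2
    have h14 : Γ₁ p.v = Γ p.v := hΓ₁Γ p.v (hyq p hp') (hNq p hp')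
    refine tail_pend (e' := p.es) (by exact h8.es) (by linarith) h11 (by linarith) h7 (hP p hp') ?_
      (hUU _ h8.hX) (hUU _ h8.hg) ?_ ?_
    · rw [h14, h8.cov]
      unfold Pl.cov
      rw [h9]
    · intro x hx1 hx2
      refine ⟨⟨(h8.lX x (by linarith)).1, Or.inr ⟨CoreG2_bandv.2 ⟨hx1, by linarith⟩,
        CoreG2_xgev.2 (by linarith)⟩⟩, fun w hxw => ?_⟩
      rcases hg1.new w _ _ _ hxw with h | ⟨-, h⟩
      · exact (h8.lX x (by linarith)).2 w h
      · exfalso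
        rcases mDv h with ⟨h15, -⟩ | ⟨h15, -⟩ | ⟨h15, -⟩ <;> linarith
    · intro x hx1 hx2
      refine ⟨⟨(h8.lg x (by linarith)).1, Or.inr ⟨CoreG2_bandv.2 ⟨hx1, by linarith⟩,
        CoreG2_xgev.2 (by linarith)⟩⟩, fun w hxw => ?_⟩
      rcases hg1.new w _ _ _ hxw with h | ⟨-, h⟩
      · exact (h8.lg x (by linarith)).2 w h
      · exfalso
        rcases mDv h with ⟨h15, -⟩ | ⟨h15, -⟩ | ⟨h15, -⟩ <;> linarith
  refine ⟨Γ₁, U₁, hh, qa.map (fun p => ⟨p.v, p.X, p.g, T₁, p.X, false⟩),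
    ⟨y, Xy, ty, -y₁ - 1, Xy + 1, true⟩ :: qb.map (fun p => ⟨p.v, p.X, p.g, -yl, p.X, false⟩),
    CoreG2_fl L y₁, hstep, ?_, ?_, ?_, ?_, ?_, ?_, CoreG2_flrv L y₁, ?_, ?_, ?_⟩
  · rw [hΓ₁a _ hyN.symm]
    exact hPN
  · obtain ⟨x, hx1, hx2⟩ := exists_between hN1
    refine ⟨true, X0, x, ?_, ?_⟩
    · rw [hΓ₁a _ hyN.symm]
      exact hNfoot x hx1 hx2
    · exact hg1.mono _ _ _ _ (((hacol x (by linarith) (by linarith)).2 a0).2 rfl)
  · obtain ⟨x, hx1, hx2⟩ := exists_between hXy2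
    refine ⟨false, Y0, x, ?_, ?_⟩
    · rw [hΓ₁y, mC]
      exact Or.inl (Or.inr ⟨rfl, rfl, hx1, by linarith⟩)
    · exact hg1.mono _ _ _ _ (((hbbase x (by linarith) hx2).2 d).2 rfl)
  · obtain ⟨x, hx1, hx2⟩ := exists_between hyv1
    refine ⟨true, topX qb X0, x, ?_, ?_⟩
    · rw [hΓ₁y, mC]
      exact Or.inl (Or.inl ⟨rfl, rfl, hx1, hx2⟩)
    · exact hg1.mono _ _ _ _ (((hcol x (by linarith) (by linarith)).2 _).2 rfl)
  · simp [rv, Function.comp_def]
  · simp [rv, Function.comp_def]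
  · intro q hq
    obtain ⟨r, -, g', -, rfl⟩ := CoreG2_flmem hordL
      (fun r hr => h4 r (List.mem_cons_of_mem _ hr)) hq
    rfl
  · -- the first sub-state
    have hcol1 : SW Γ₁ (D ⊓ (nl U₁ ⊔ (band Yt T₁ ⊓ xge Xd))) {topp qb a0} true (topX qb X0) Yt Y0 := by
      intro x hx1 hx2
      obtain ⟨h8, h9⟩ := hcol x (by linarith) (by linarith)
      refine ⟨⟨h8, Or.inr ⟨CoreG2_bandv.2 ⟨hx1.le, by linarith⟩, CoreG2_xgev.2 (by linarith)⟩⟩,
        fun v => ⟨fun hv => ?_, fun hv => hg1.mono _ _ _ _ ((h9 v).2 hv)⟩⟩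
      rcases hg1.new v _ _ _ hv with h | ⟨-, h⟩
      · exact (h9 v).1 h
      · exfalso
        rcases mDv h with ⟨-, -, h15⟩ | ⟨-, h15, -⟩ | ⟨h15, -⟩ <;> linarith
    have hrow1 : ∀ x, Xd < x → x < topX qb X0 →
        x ∈ (D ⊓ (nl U₁ ⊔ (band Yt T₁ ⊓ xge Xd))) false Y0 ∧ ∀ v, x ∈ Γ₁ v false Y0 ↔ v = y := by
      intro x hx1 hx2
      refine ⟨⟨hrowD x, Or.inr ⟨CoreG2_bandh.2 ⟨h6.le, hYT.le⟩, CoreG2_xgeh.2 hx1.le⟩⟩,
        fun v => ⟨fun hv => ?_, fun hv => ?_⟩⟩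
      · by_contra hvy
        rw [hΓ₁a v hvy] at hv
        rcases hga v _ _ _ hv with h | ⟨-, ⟨-, h, -⟩ | ⟨h, -⟩⟩
        · exact hrow x hx1.le (by linarith) v h
        · linarith
        · exact absurd h (by simp)
      · rw [hv, hΓ₁y, mC]
        exact Or.inl (Or.inr ⟨rfl, rfl, by linarith, hx2⟩)
    refine ⟨⟨?_, h6, le_rfl, le_rfl, ?_, ?_, hcol1, ?_⟩, hhh1, le_rfl, ?_, ?_⟩
    · exact CoreG2_ordL (fun _ => rfl) (fun _ => rfl) (CoreG2_ordP_mono hoA hhh2.le)
    · intro r hr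
      obtain ⟨p, hp, rfl⟩ := List.mem_map.1 hr
      exact ⟨Yt, le_rfl, hP1 p hp⟩
    · intro r hr
      exact absurd hr (List.not_mem_nil)
    · intro x hx1 hx2
      exact hrow1 x (by linarith) hx2
    · intro x hx1 hx2
      have hx2' : x < Y0 := hx2
      have h8 := hdcol x (by linarith) hx2'
      refine ⟨⟨h8.1, Or.inr ⟨CoreG2_bandv.2 ⟨hx1.le, by linarith⟩, CoreG2_xgev.2 le_rfl⟩⟩,
        fun v => ⟨fun hv => ?_, fun hv => hg1.mono _ _ _ _ ((h8.2 v).2 hv)⟩⟩
      rcases hg1.new v _ _ _ hv with h | ⟨-, h⟩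
      · exact (h8.2 v).1 h
      · exfalso
        rcases mDv h with ⟨h15, -⟩ | ⟨-, h15, -⟩ | ⟨h15, -⟩ <;> linarith
    · intro x hx1 hx2
      exact hrow1 x hx1 (by linarith)
  · -- the second sub-state
    intro Γ₂ U₂ K₂ hs2 hK1 hK2 hyK
    have hU2 : ∀ o, U₁ o ⊆ U₂ o := hs2.sub
    -- growth does not touch old lines outside the zone
    have hnv : ∀ l x, l ∈ U₁ true → (x < Yt ∨ l < Xd) → ∀ v, x ∈ Γ₂ v true l → x ∈ Γ₁ v true l := by
      intro l x hl h8 v hv
      rcases hs2.grow.new v _ _ _ hv with h | ⟨-, -, h | ⟨h9, h10⟩⟩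
      · exact h
      · exact absurd hl h
      · exfalso
        have h11 := (CoreG2_bandv.1 h9).1
        have h12 := CoreG2_xgev.1 h10
        rcases h8 with h8 | h8 <;> linarith
    have hnh : ∀ l x, l ∈ U₁ false → (l < Yt ∨ x < Xd) → ∀ v, x ∈ Γ₂ v false l →
        x ∈ Γ₁ v false l := by
      intro l x hl h8 v hv
      rcases hs2.grow.new v _ _ _ hv with h | ⟨-, -, h | ⟨h9, h10⟩⟩
      · exact h
      · exact absurd hl h
      · exfalso
        have h11 := (CoreG2_bandh.1 h9).1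
        have h12 := CoreG2_xgeh.1 h10
        rcases h8 with h8 | h8 <;> linarith
    have hXyU1 : Xy ∈ U₁ true := (hUt _).2 (Or.inr (Or.inl rfl))
    have htyU1 : ty ∈ U₁ true := (hUt _).2 (Or.inl rfl)
    have hΓ₂y : Γ₂ y = C := by
      rw [hs2.grow.eq hyK, hΓ₁y]
    -- only `y` is on the line `Xy`
    have hXyl : ∀ x v, x ∈ Γ₂ v true Xy → v = y := by
      intro x v hv
      have h := hnv Xy x hXyU1 (Or.inr hXy2) v hv
      by_contra hvy
      rw [hΓ₁a v hvy] at h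
      exact hXyU (hsa.wd.lines _ _ _ _ h)
    have hinL : ∀ r ∈ L, N₁.c < r.c ∧ r.c < Y0 := by
      intro r hr
      obtain ⟨h8, h9, h10⟩ := hordL.mem hr
      exact ⟨h8.trans h9, h10⟩
    refine ⟨NSt.sw.2 ⟨?_, ?_, le_rfl, le_rfl, ?_, ?_, ?_, ?_⟩, ?_, le_rfl, ?_, ?_⟩
    · refine ⟨hty1, hty2, ?_⟩
      exact CoreG2_ordL (fun _ => rfl) (fun _ => rfl) (CoreG2_ordP_mono hoB (by linarith))
    · exact CoreG2_flord hordL (fun r hr => h4 r (List.mem_cons_of_mem _ hr))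
        (CoreG2_topc hordL hc1)
    · -- the whites
      intro r hr
      refine ⟨-y₁, le_rfl, ?_⟩
      rcases List.mem_cons.1 hr with rfl | hr
      · have hpayy : ∀ g', g' ≠ Xy → Pay (flP P y) (flD Γ₂ y) true Xy g' (-y₁) (-N₁.c)
            (fun _ => ⊥) := by
          intro g' hg'
          have h8 : flD Γ₂ y = fly C := by
            show fly (Γ₂ y) = fly C
            rw [hΓ₂y]
          rw [h8]
          exact CoreG2_pay hPy hyv1 hXyM hyY0 hg'
        refine ⟨hU2 _ hXyU1, hU2 _ htyU1, hty2, ?_, ?_, ?_, ?_, ?_⟩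
        · intro x hx1 hx2
          refine ⟨⟨hD true Xy hXyU, Or.inr ?_⟩, fun w hxw => hXyl (-x) w hxw⟩
          exact CoreG2_bandv.2 ⟨by linarith, by linarith⟩
        · intro x hx1 hx2
          exfalso
          have h8 : x ≤ -y₁ - 1 := hx2
          linarith
        · exact LineB_Pay (hpayy ty hty2.ne) (fun _ h => h) (fun _ => bot_le)
        · intro _
          refine ⟨by show Xy < Xy + 1; linarith, by show -y₁ - 1 < -y₁; linarith, hpayy⟩
        · intro x hx1 hx2 hx3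
          have h8 : -x ∈ Γ₂ y true Xy := hx3
          rw [hΓ₂y, mC] at h8
          rcases h8 with (⟨-, h8, -⟩ | ⟨h8, -⟩) | ⟨-, -, h8, -⟩
          · linarith
          · exact absurd h8 (by simp)
          · linarith
      · obtain ⟨p, hp, rfl⟩ := List.mem_map.1 hr
        obtain ⟨h8, h9⟩ := hqb p hp
        have hp' : p ∈ qa ++ qb := List.mem_append_right _ hp
        obtain ⟨h10, h11, h12⟩ := hqX p hp'
        have h13 : Γ₂ p.v = Γ p.v := by
          rw [hs2.grow.eq (hK2 _ (List.mem_map_of_mem hp)), hΓ₁Γ p.v (hyq p hp') (hNq p hp')]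
        refine conn_pend (e' := p.es) (T₂ := T₂) (yl := yl) (by linarith [h8.es]) h3' h11 (by linarith) (by linarith)
          (hP p hp') ?_ (hU2 _ (hUU _ h8.hX)) (hU2 _ (hUU _ h8.hg)) ?_ ?_
        · rw [h13, h8.cov]
          unfold Pl.cov
          rw [h9]
        · intro x hx1 hx2
          refine ⟨⟨(h8.lX x (by linarith)).1, Or.inr (CoreG2_bandv.2 ⟨by linarith, by linarith⟩)⟩,
            fun w hxw => ?_⟩
          have h14 := hnv _ x (hUU _ h8.hX) (Or.inl (by linarith)) w hxw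
          rcases hg1.new w _ _ _ h14 with h | ⟨-, h⟩
          · exact (h8.lX x (by linarith)).2 w h
          · exfalso
            rcases mDv h with ⟨h15, -⟩ | ⟨-, h15, -⟩ | ⟨h15, -⟩ <;> linarith
        · intro x hx1 hx2
          refine ⟨⟨(h8.lg x (by linarith)).1, Or.inr (CoreG2_bandv.2 ⟨by linarith, by linarith⟩)⟩,
            fun w hxw => ?_⟩
          have h14 := hnv _ x (hUU _ h8.hg) (Or.inl (by linarith)) w hxw
          rcases hg1.new w _ _ _ h14 with h | ⟨-, h⟩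
          · exact (h8.lg x (by linarith)).2 w h
          · exfalso
            rcases mDv h with ⟨h15, -⟩ | ⟨-, h15, -⟩ | ⟨h15, -⟩ <;> linarith
    · -- the blacks
      intro q hq
      obtain ⟨r, hr, g', hg', hqe⟩ := CoreG2_flmem hordL
        (fun r hr => h4 r (List.mem_cons_of_mem _ hr)) hq
      obtain ⟨sr, hsr, hpr⟩ := hblack r (List.mem_cons_of_mem _ hr)
      obtain ⟨h8, h9⟩ := hinL r hr
      have h10 := h4 r (List.mem_cons_of_mem _ hr)
      have hre : r.e < sr := (hpr.plain (hpl r (List.mem_cons_of_mem _ hr))).2.1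
      refine ⟨sr, hsr, ?_⟩
      have hgS : g' ∈ U₂ false := by
        refine hU2 _ ((hUf _).2 (Or.inr ?_))
        rw [hS, List.mem_toFinset]
        refine List.mem_map.2 ⟨q, hq, ?_⟩
        rw [hqe]
        simp
      rw [hqe]
      refine Pend.flip ?_ (hpl r (List.mem_cons_of_mem _ hr)) hg' hgS
      have h11 : Pend P Γ₁ U₁ D false sr X0 r := by
        refine hpr.grow hg1 hUU ?_ ?_ ?_
        · rintro (h | h)
          · exact hyL r hr h
          · exact hNL r hr h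
        · intro x hx1 hx2 hx3
          rcases mDh hx3 with ⟨h12, -⟩ | ⟨h12, -⟩ <;> linarith
        · intro x hx1 hx2
          exfalso
          linarith
      have h12 : Pend P Γ₂ U₂ D false sr X0 r := by
        refine h11.grow hs2.grow hU2 (hK1 _ (List.mem_cons_of_mem _ (hrvL r hr))) ?_ ?_
        · rintro x hx1 hx2 ⟨-, h13 | ⟨h13, -⟩⟩
          · exact h13 h11.hc
          · have := (CoreG2_bandh.1 h13).1
            linarith
        · intro x hx1 hx2
          exfalso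
          linarith
      refine h12.mono_D ?_ ?_
      · intro x hx1 hx2 hx3
        exact ⟨hx3, Or.inr (CoreG2_bandh.2 ⟨by linarith, by linarith⟩)⟩
      · intro x hx1 hx2
        exfalso
        linarith
    · -- the column of `a0`
      rw [SW.flv, neg_neg, neg_neg]
      intro x hx1 hx2
      have h8 := hacol x (by linarith) (by linarith)
      refine ⟨⟨h8.1, Or.inr (CoreG2_bandv.2 ⟨by linarith, by linarith⟩)⟩,
        fun v => ⟨fun hv => ?_, fun hv => hs2.grow.mono _ _ _ _ (hg1.mono _ _ _ _ ((h8.2 v).2 hv))⟩⟩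
      have h14 := hnv _ x (hUU _ hX0U) (Or.inl (by linarith)) v hv
      rcases hg1.new v _ _ _ h14 with h | ⟨-, h⟩
      · exact (h8.2 v).1 h
      · exfalso
        rcases mDv h with ⟨-, -, h15⟩ | ⟨-, h15, -⟩ | ⟨h15, -⟩ <;> linarith
    · -- the line of `N₁`
      rw [SW.flh, neg_neg]
      intro x hx1 hx2
      refine ⟨⟨hND' x (by linarith) hx2, Or.inr (CoreG2_bandh.2 ⟨by linarith, by linarith⟩)⟩,
        fun v => ⟨fun hv => ?_, fun hv => ?_⟩⟩
      · have h14 := hnh _ x (hUU _ hpN.hc) (Or.inl (by linarith)) v hv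
        have h15 : x ∈ Γa v false N₁.c := by
          by_cases hvy : v = y
          · exfalso
            rw [hvy, hΓ₁y, mC] at h14
            rcases h14 with (⟨h16, -⟩ | ⟨-, h16, -⟩) | ⟨h16, -⟩
            · exact absurd h16 (by simp)
            · linarith
            · exact absurd h16 (by simp)
          · rw [hΓ₁a v hvy] at h14
            exact h14
        exact (hNrow x (by linarith) hx2 v).1 h15
      · have hv' : v = N₁.v := hv
        refine hs2.grow.mono _ _ _ _ ?_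
        rw [hv', hΓ₁a _ hyN.symm]
        exact (hNrow x (by linarith) hx2 _).2 rfl
    · linarith
    · -- the line of `d`
      rw [SW.sw]
      show SW (flD Γ₂) (fly (D ⊓ (nl U₂ ⊔ band yl Y0))) {d} false (-Y0) A Xy
      rw [SW.flh, neg_neg]
      intro x hx1 hx2
      have h8 := hbbase x hx1 (by linarith)
      refine ⟨⟨h8.1, Or.inr (CoreG2_bandh.2 ⟨by linarith, le_rfl⟩)⟩,
        fun v => ⟨fun hv => ?_, fun hv => hs2.grow.mono _ _ _ _ (hg1.mono _ _ _ _ ((h8.2 v).2 hv))⟩⟩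
      have h14 := hnh _ x (hUU _ hY0U) (Or.inr (by linarith)) v hv
      rcases hg1.new v _ _ _ h14 with h | ⟨-, h⟩
      · exact (h8.2 v).1 h
      · exfalso
        rcases mDh h with ⟨h15, -⟩ | ⟨-, h15, -⟩ <;> linarith
    · -- the column of `y`
      rw [SW.sw]
      show SW (flD Γ₂) (fly (D ⊓ (nl U₂ ⊔ band yl Y0))) {y} true Xy (-Y0) (-y₁)
      rw [SW.flv, neg_neg, neg_neg]
      intro x hx1 hx2
      refine ⟨⟨hD true Xy hXyU, Or.inr (CoreG2_bandv.2 ⟨by linarith, hx2.le⟩)⟩,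
        fun v => ⟨fun hv => hXyl x v hv, fun hv => ?_⟩⟩
      have hv' : v = y := hv
      rw [hv', hΓ₂y, mC]
      exact Or.inr ⟨rfl, rfl, hx1, hx2⟩

end EPG26
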