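import Pool.Agent.W_26e041_h61.DiscF

namespace EPG26

variable {V : Type*} [DecidableEq V]

/-- The conditions on a disc with boundary `[x, y, z]`, faces `F` and contents `J f` of the faces,
relative to the graph `G`. -/
structure Node (G : SimpleGraph V) (x y z : V) (F : Finset (Finset V))
    (J : Finset V → Finset V) : Prop where
  disc : Disc [x, y, z] F
  disj : ∀ f ∈ F, ∀ g ∈ F, f ≠ g → Disjoint (J f) (J g)
  sep : ∀ f ∈ F, Disjoint (J f) (verts [x, y, z] F)
  adj : ∀ f ∈ F, ∀ u ∈ f, ∀ v ∈ f, u ≠ v → G.Adj u v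
  closed : ∀ v ∈ verts [x, y, z] F, v ∉ ({x, y, z} : Finset V) → ∀ w, G.Adj v w →
    AdjF F v w ∨ ∃ f ∈ F, v ∈ f ∧ w ∈ J f

/-- all vertices strictly inside -/
def inside (x y z : V) (F : Finset (Finset V)) (J : Finset V → Finset V) : Finset V :=
  (verts [x, y, z] F \ {x, y, z}) ∪ F.biUnion J

/-- `Fat G T J`: `J` is the set of vertices inside the triangle `T`, described by nested discs -/
inductive Fat (G : SimpleGraph V) : Finset V → Finset V → Prop
  | empty {T : Finset V} (h : T.card = 3) : Fat G T ∅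
  | node {x y z : V} {F : Finset (Finset V)} {J : Finset V → Finset V} (h : Node G x y z F J)
      (hF : ∀ f ∈ F, Fat G f (J f)) : Fat G {x, y, z} (inside x y z F J)

/-- Induction on `Fat`: for `v` in a content `J f` use the induction hypothesis for `f` (and
`f ⊆ verts [x,y,z] F`), for `v ∈ verts \ {x,y,z}` use `closed`. -/
theorem Fat.nbr {G : SimpleGraph V} {T J : Finset V} (h : Fat G T J) :
    ∀ v ∈ J, ∀ w, G.Adj v w → w ∈ T ∨ w ∈ J := by
  induction h with
  | empty h => intro v hv; exact absurd hv (Finset.notMem_empty v)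
  | @node x y z F J h hF ih =>
    intro v hv w hw
    have key : ∀ f ∈ F, ∀ a ∈ f, a ∈ ({x, y, z} : Finset V) ∨ a ∈ inside x y z F J := by
      intro f hf a ha
      by_cases h1 : a ∈ ({x, y, z} : Finset V)
      · exact Or.inl h1
      · refine Or.inr (Finset.mem_union_left _ (Finset.mem_sdiff.2 ⟨?_, h1⟩))
        exact DiscA_mem_verts_right hf ha
    have key2 : ∀ f ∈ F, ∀ a ∈ J f, a ∈ inside x y z F J := fun f hf a ha =>
      Finset.mem_union_right _ (Finset.mem_biUnion.2 ⟨f, hf, ha⟩)
    rcases Finset.mem_union.1 hv with hv | hv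
    · obtain ⟨hv1, hv2⟩ := Finset.mem_sdiff.1 hv
      rcases h.closed v hv1 hv2 w hw with ⟨-, f, hf, -, hwf⟩ | ⟨f, hf, -, hwf⟩
      · exact key f hf w hwf
      · exact Or.inr (key2 f hf w hwf)
    · obtain ⟨f, hf, hvf⟩ := Finset.mem_biUnion.1 hv
      rcases ih f hf v hvf w hw with h1 | h1
      · exact key f hf w h1
      · exact Or.inr (key2 f hf w h1)

/-- Induction on `Fat`. -/
theorem Fat.disjoint {G : SimpleGraph V} {T J : Finset V} (h : Fat G T J) : Disjoint T J := by
  cases h with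
  | empty h => exact Finset.disjoint_empty_right _
  | @node x y z F J h hF =>
    rw [Finset.disjoint_left]
    intro a ha hb
    rcases Finset.mem_union.1 hb with hb | hb
    · exact (Finset.mem_sdiff.1 hb).2 ha
    · obtain ⟨f, hf, haf⟩ := Finset.mem_biUnion.1 hb
      refine Finset.disjoint_left.1 (h.sep f hf) haf (DiscA_mem_verts_left ?_)
      simpa using ha

theorem Fat_mem_tri {a x y z : V} : a ∈ [x, y, z] ↔ a ∈ ({x, y, z} : Finset V) := by
  simp

/-- If the outer triangle is a face, it is the only one. -/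
theorem Fat_eq_singleton {x y z : V} {F : Finset (Finset V)} (h : Disc [x, y, z] F)
    (hT : ({x, y, z} : Finset V) ∈ F) : F = {({x, y, z} : Finset V)} := by
  obtain ⟨t, F', h0, h1, h2⟩ := Disc.peel (x := x) (y := z) (m := [y]) (F := F) h (by simp)
  rcases h2 with ⟨h2, -, -⟩ | ⟨m₁, m₂, F₁, F₂, h3, h4, -, h5, h6, -⟩
  · exfalso
    have h3 : ({x, z, t} : Finset V) = {x, y, z} :=
      Disc.root_unique (x := x) (y := z) (m := [y]) (F := F) h (by simp)
        (by rw [h1]; exact Finset.mem_insert_self _ _) hT (by simp) (by simp) (by simp) (by simp)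
    have h4 : t ∈ ({x, y, z} : Finset V) := by
      rw [← h3]
      simp
    exact h2 (Fat_mem_tri.2 h4)
  · have h7 : m₁ = [] ∧ t = y ∧ m₂ = [] := by
      cases m₁ with
      | nil =>
        simp only [List.nil_append, List.cons.injEq] at h3
        exact ⟨rfl, h3.1.symm, h3.2.symm⟩
      | cons a m₁ =>
        simp at h3
    obtain ⟨rfl, rfl, rfl⟩ := h7
    have h8 := Disc.empty_of_two (a := x) (b := t) h5
    have h9 := Disc.empty_of_two (a := t) (b := z) h6
    rw [h1, h4, h8, h9, Finset.empty_union, insert_empty_eq, Finset.pair_comm t z]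

theorem Fat_tri_card {x y z : V} {F : Finset (Finset V)} (h : Disc [x, y, z] F) :
    ({x, y, z} : Finset V).card = 3 := by
  have h1 := Disc.nodup h
  simp only [List.nodup_cons, List.mem_cons, List.not_mem_nil, or_false, not_or,
    not_false_eq_true, List.nodup_nil, and_true] at h1
  exact Finset.card_eq_three.2 ⟨x, y, z, h1.1.1, h1.1.2, h1.2, rfl⟩

/-- data of a disc with outer triangle `T` and inside `J` -/
def Fat_Data (G : SimpleGraph V) (T J : Finset V) (x y z : V) (F : Finset (Finset V))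
    (J' : Finset V → Finset V) : Prop :=
  T = {x, y, z} ∧ Node G x y z F J' ∧ (∀ f ∈ F, Fat G f (J' f)) ∧ J = inside x y z F J' ∧ F ≠ {T}

theorem Fat_step1 {G : SimpleGraph V} {T J : Finset V} (h : Fat G T J) (hJ : J.Nonempty) :
    ∃ (x y z : V) (F : Finset (Finset V)) (J' : Finset V → Finset V),
      Fat_Data G T J x y z F J' := by
  induction h with
  | empty h => exact absurd hJ Finset.not_nonempty_empty
  | @node x y z F J h hF ih =>
    by_cases hE : F = {({x, y, z} : Finset V)}
    · have h1 : inside x y z F J = J {x, y, z} := by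
        unfold inside verts
        rw [hE]
        ext a
        simp only [Finset.mem_union, Finset.mem_sdiff, List.mem_toFinset, Fat_mem_tri,
          Finset.singleton_biUnion, id]
        tauto
      have h2 : ({x, y, z} : Finset V) ∈ F := by
        rw [hE]
        exact Finset.mem_singleton_self _
      rw [h1] at hJ ⊢
      exact ih _ h2 hJ
    · exact ⟨x, y, z, F, J, rfl, h, hF, rfl, hE⟩

theorem Fat_step3 {G : SimpleGraph V} {T J : Finset V} {x y z : V} {F : Finset (Finset V)}
    {J' : Finset V → Finset V} (h : Fat_Data G T J x y z F J') :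
    T ∉ F ∧ ∀ f ∈ F, (J' f).card < J.card := by
  obtain ⟨rfl, hN, hF, rfl, hne⟩ := h
  have hT : ({x, y, z} : Finset V) ∉ F := fun h1 => hne (Fat_eq_singleton hN.disc h1)
  refine ⟨hT, fun f hf => ?_⟩
  have h1 : ∃ a ∈ f, a ∉ ({x, y, z} : Finset V) := by
    by_contra h2
    push Not at h2
    have h3 : f = {x, y, z} := Finset.eq_of_subset_of_card_le h2
      (by rw [Fat_tri_card hN.disc, Disc.card3 hN.disc f hf])
    exact hT (h3 ▸ hf)
  obtain ⟨a, ha, ha'⟩ := h1
  have hav : a ∈ verts [x, y, z] F := DiscA_mem_verts_right hf ha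
  refine Finset.card_lt_card ?_
  rw [Finset.ssubset_iff_of_subset]
  · refine ⟨a, Finset.mem_union_left _ (Finset.mem_sdiff.2 ⟨hav, ha'⟩), fun h2 => ?_⟩
    exact Finset.disjoint_left.1 (hN.sep f hf) h2 hav
  · intro b hb
    exact Finset.mem_union_right _ (Finset.mem_biUnion.2 ⟨f, hf, hb⟩)

theorem Fat_step2 {G : SimpleGraph V} {T J : Finset V} {x y z : V} {F : Finset (Finset V)}
    {J' : Finset V → Finset V} (h : Fat_Data G T J x y z F J') {u v w : V}
    (huv : AdjF F u v) (hvw : AdjF F v w) (huw : AdjF F u w)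
    (h1 : ({u, v, w} : Finset V) ≠ T) (h2 : ({u, v, w} : Finset V) ∉ F) :
    ∃ (F' : Finset (Finset V)) (J'' : Finset V → Finset V), F'.card < F.card ∧
      Fat_Data G T J x y z F' J'' := by
  obtain ⟨rfl, hN, hF, rfl, hne⟩ := h
  obtain ⟨F₁, F₂, hFF, hdis, hd1, hd2, hτ, hsep⟩ := Disc.extract hN.disc huv hvw huw
  obtain ⟨τ, hτe⟩ : ∃ τ : Finset V, τ = {u, v, w} := ⟨_, rfl⟩
  rw [← hτe] at h1 h2 hd2 hτ
  have hsep' : ∀ a, a ∈ verts [u, v, w] F₁ → a ∈ verts [x, y, z] F₂ → a ∈ τ := by
    intro a ha hb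
    rw [hτe]
    simpa using hsep a ha hb
  have hτmem : ∀ a, a ∈ τ → a = u ∨ a = v ∨ a = w := by
    intro a ha
    rw [hτe] at ha
    simpa using ha
  have hF₁ : ∀ f ∈ F₁, f ∈ F := fun f hf => by rw [hFF]; exact Finset.mem_union_left _ hf
  have hF₂ : ∀ f ∈ F₂, f ∈ F := fun f hf => by rw [hFF]; exact Finset.mem_union_right _ hf
  have hFor : ∀ f ∈ F, f ∈ F₁ ∨ f ∈ F₂ := fun f hf => by
    rw [hFF] at hf
    exact Finset.mem_union.1 hf
  -- τ inside the vertices of F
  have hτv : ∀ a ∈ τ, a ∈ verts [x, y, z] F := by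
    intro a ha
    obtain ⟨-, f, hf, hu1, hv1⟩ := huv
    obtain ⟨-, g, hg, hv2, hw2⟩ := hvw
    rcases hτmem a ha with rfl | rfl | rfl
    · exact DiscA_mem_verts_right hf hu1
    · exact DiscA_mem_verts_right hf hv1
    · exact DiscA_mem_verts_right hg hw2
  have hv1 : ∀ a, a ∈ verts [u, v, w] F₁ → a ∈ verts [x, y, z] F := by
    intro a ha
    rcases DiscF_mem_verts.1 ha with ha | ⟨f, hf, ha⟩
    · exact hτv a (by rw [hτe]; exact Fat_mem_tri.1 ha)
    · exact DiscA_mem_verts_right (hF₁ f hf) ha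
  have hv2 : ∀ a, a ∈ verts [x, y, z] (insert τ F₂) ↔ a ∈ τ ∨ a ∈ verts [x, y, z] F₂ := by
    intro a
    rw [DiscF_mem_verts, DiscF_mem_verts]
    constructor
    · rintro (ha | ⟨f, hf, ha⟩)
      · exact Or.inr (Or.inl ha)
      · rcases Finset.mem_insert.1 hf with rfl | hf
        · exact Or.inl ha
        · exact Or.inr (Or.inr ⟨f, hf, ha⟩)
    · rintro (ha | ha | ⟨f, hf, ha⟩)
      · exact Or.inr ⟨τ, Finset.mem_insert_self _ _, ha⟩
      · exact Or.inl ha
      · exact Or.inr ⟨f, Finset.mem_insert_of_mem hf, ha⟩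
  have hv3 : ∀ a, a ∈ verts [x, y, z] (insert τ F₂) → a ∈ verts [x, y, z] F := by
    intro a ha
    rcases (hv2 a).1 ha with ha | ha
    · exact hτv a ha
    · rcases DiscF_mem_verts.1 ha with ha | ⟨f, hf, ha⟩
      · exact DiscA_mem_verts_left ha
      · exact DiscA_mem_verts_right (hF₂ f hf) ha
  -- vertices of `F₁` outside `τ` are not on the outer triangle
  have hv4 : ∀ a, a ∈ verts [u, v, w] F₁ → a ∉ τ → a ∉ ({x, y, z} : Finset V) := by
    intro a ha hb hc
    exact hb (hsep' a ha (DiscA_mem_verts_left (Fat_mem_tri.2 hc)))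
  have hnode1 : Node G u v w F₁ J' := by
    refine ⟨hd1, fun f hf g hg => hN.disj f (hF₁ f hf) g (hF₁ g hg), fun f hf => ?_,
      fun f hf => hN.adj f (hF₁ f hf), fun a ha hb b hab => ?_⟩
    · rw [Finset.disjoint_left]
      intro a ha hb
      exact Finset.disjoint_left.1 (hN.sep f (hF₁ f hf)) ha (hv1 a hb)
    · rw [← hτe] at hb
      have hb2 : ∀ f ∈ F, a ∈ f → f ∈ F₁ := by
        intro f hf haf
        rcases hFor f hf with h3 | h3
        · exact h3
        · exact absurd (hsep' a ha (DiscA_mem_verts_right h3 haf)) hb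
      rcases hN.closed a (hv1 a ha) (hv4 a ha hb) b hab with ⟨hne, f, hf, haf, hbf⟩ |
        ⟨f, hf, haf, hbf⟩
      · exact Or.inl ⟨hne, f, hb2 f hf haf, haf, hbf⟩
      · exact Or.inr ⟨f, hb2 f hf haf, haf, hbf⟩
  have hfat1 : Fat G τ (inside u v w F₁ J') := by
    rw [hτe]
    exact Fat.node hnode1 (fun f hf => hF f (hF₁ f hf))
  obtain ⟨J'', hJ''⟩ : ∃ J'', J'' = Function.update J' τ (inside u v w F₁ J') := ⟨_, rfl⟩
  have hJτ : J'' τ = inside u v w F₁ J' := by
    rw [hJ'', Function.update_self]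
  have hJ2 : ∀ f ∈ F₂, J'' f = J' f := by
    intro f hf
    rw [hJ'', Function.update_of_ne]
    rintro rfl
    exact hτ hf
  have hin1 : ∀ a, a ∈ inside u v w F₁ J' ↔ (a ∈ verts [u, v, w] F₁ ∧ a ∉ τ) ∨
      ∃ f ∈ F₁, a ∈ J' f := by
    intro a
    unfold inside
    rw [Finset.mem_union, Finset.mem_sdiff, Finset.mem_biUnion, hτe]
  have hadjτ : ∀ a ∈ τ, ∀ b ∈ τ, a ≠ b → G.Adj a b := by
    have e1 : G.Adj u v := by
      obtain ⟨hn, f, hf, ha, hb⟩ := huv
      exact hN.adj f hf u ha v hb hn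
    have e2 : G.Adj v w := by
      obtain ⟨hn, f, hf, ha, hb⟩ := hvw
      exact hN.adj f hf v ha w hb hn
    have e3 : G.Adj u w := by
      obtain ⟨hn, f, hf, ha, hb⟩ := huw
      exact hN.adj f hf u ha w hb hn
    intro a ha b hb hab
    rcases hτmem a ha with rfl | rfl | rfl <;> rcases hτmem b hb with rfl | rfl | rfl
    · exact absurd rfl hab
    · exact e1
    · exact e3
    · exact e1.symm
    · exact absurd rfl hab
    · exact e2
    · exact e3.symm
    · exact e2.symm
    · exact absurd rfl hab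
  have hdis2 : ∀ g ∈ F₂, Disjoint (inside u v w F₁ J') (J' g) := by
    intro g hg
    rw [Finset.disjoint_left]
    intro a ha hb
    rcases (hin1 a).1 ha with ⟨ha, -⟩ | ⟨f, hf, ha⟩
    · exact Finset.disjoint_left.1 (hN.sep g (hF₂ g hg)) hb (hv1 a ha)
    · have hfg : f ≠ g := by
        rintro rfl
        exact Finset.disjoint_left.1 hdis hf hg
      exact Finset.disjoint_left.1 (hN.disj f (hF₁ f hf) g (hF₂ g hg) hfg) ha hb
  have hnode2 : Node G x y z (insert τ F₂) J'' := by
    refine ⟨hd2, ?_, ?_, ?_, ?_⟩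
    · intro f hf g hg hfg
      rcases Finset.mem_insert.1 hf with hf1 | hf1 <;>
        rcases Finset.mem_insert.1 hg with hg1 | hg1
      · exact absurd (hf1.trans hg1.symm) hfg
      · rw [hf1, hJτ, hJ2 g hg1]
        exact hdis2 g hg1
      · rw [hg1, hJτ, hJ2 f hf1]
        exact (hdis2 f hf1).symm
      · rw [hJ2 f hf1, hJ2 g hg1]
        exact hN.disj f (hF₂ f hf1) g (hF₂ g hg1) hfg
    · intro f hf
      rw [Finset.disjoint_left]
      intro a ha hb
      rcases Finset.mem_insert.1 hf with rfl | hf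
      · rw [hJτ] at ha
        rcases (hin1 a).1 ha with ⟨ha1, ha2⟩ | ⟨g, hg, ha⟩
        · rcases (hv2 a).1 hb with hb | hb
          · exact ha2 hb
          · exact ha2 (hsep' a ha1 hb)
        · exact Finset.disjoint_left.1 (hN.sep g (hF₁ g hg)) ha (hv3 a hb)
      · rw [hJ2 f hf] at ha
        exact Finset.disjoint_left.1 (hN.sep f (hF₂ f hf)) ha (hv3 a hb)
    · intro f hf
      rcases Finset.mem_insert.1 hf with rfl | hf
      · exact hadjτ
      · exact hN.adj f (hF₂ f hf)
    · intro a ha hb b hab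
      have hbτ : ∀ f ∈ F₁, a ∈ f → a ∈ τ := by
        intro f hf haf
        rcases (hv2 a).1 ha with ha | ha
        · exact ha
        · exact hsep' a (DiscA_mem_verts_right hf haf) ha
      rcases hN.closed a (hv3 a ha) hb b hab with ⟨hne, f, hf, haf, hbf⟩ | ⟨f, hf, haf, hbf⟩
      · rcases hFor f hf with hf | hf
        · have haτ := hbτ f hf haf
          by_cases hbb : b ∈ τ
          · exact Or.inl ⟨hne, τ, Finset.mem_insert_self _ _, haτ, hbb⟩
          · refine Or.inr ⟨τ, Finset.mem_insert_self _ _, haτ, ?_⟩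
            rw [hJτ]
            exact (hin1 b).2 (Or.inl ⟨DiscA_mem_verts_right hf hbf, hbb⟩)
        · exact Or.inl ⟨hne, f, Finset.mem_insert_of_mem hf, haf, hbf⟩
      · rcases hFor f hf with hf | hf
        · refine Or.inr ⟨τ, Finset.mem_insert_self _ _, hbτ f hf haf, ?_⟩
          rw [hJτ]
          exact (hin1 b).2 (Or.inr ⟨f, hf, hbf⟩)
        · refine Or.inr ⟨f, Finset.mem_insert_of_mem hf, haf, ?_⟩
          rw [hJ2 f hf]
          exact hbf
  have hin : inside x y z F J' = inside x y z (insert τ F₂) J'' := by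
    ext a
    unfold inside
    rw [Finset.mem_union, Finset.mem_sdiff, Finset.mem_biUnion, Finset.mem_union,
      Finset.mem_sdiff, Finset.mem_biUnion]
    constructor
    · rintro (⟨ha, hb⟩ | ⟨f, hf, ha⟩)
      · rcases DiscF_mem_verts.1 ha with ha | ⟨f, hf, ha⟩
        · exact absurd (Fat_mem_tri.1 ha) hb
        · rcases hFor f hf with hf | hf
          · by_cases haτ : a ∈ τ
            · exact Or.inl ⟨(hv2 a).2 (Or.inl haτ), hb⟩
            · refine Or.inr ⟨τ, Finset.mem_insert_self _ _, ?_⟩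
              rw [hJτ]
              exact (hin1 a).2 (Or.inl ⟨DiscA_mem_verts_right hf ha, haτ⟩)
          · exact Or.inl ⟨(hv2 a).2 (Or.inr (DiscA_mem_verts_right hf ha)), hb⟩
      · rcases hFor f hf with hf | hf
        · refine Or.inr ⟨τ, Finset.mem_insert_self _ _, ?_⟩
          rw [hJτ]
          exact (hin1 a).2 (Or.inr ⟨f, hf, ha⟩)
        · refine Or.inr ⟨f, Finset.mem_insert_of_mem hf, ?_⟩
          rw [hJ2 f hf]
          exact ha
    · rintro (⟨ha, hb⟩ | ⟨f, hf, ha⟩)
      · exact Or.inl ⟨hv3 a ha, hb⟩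
      · rcases Finset.mem_insert.1 hf with rfl | hf
        · rw [hJτ] at ha
          rcases (hin1 a).1 ha with ⟨ha1, ha2⟩ | ⟨g, hg, ha⟩
          · exact Or.inl ⟨hv1 a ha1, hv4 a ha1 ha2⟩
          · exact Or.inr ⟨g, hF₁ g hg, ha⟩
        · rw [hJ2 f hf] at ha
          exact Or.inr ⟨f, hF₂ f hf, ha⟩
  refine ⟨insert τ F₂, J'', ?_, rfl, hnode2, ?_, hin, ?_⟩
  · rw [Finset.card_insert_of_notMem hτ, hFF, Finset.card_union_of_disjoint hdis]
    have h3 : F₁.Nonempty := by
      obtain ⟨-, f, hf, -, -⟩ := Disc.root_adj (x := u) (y := w) (m := [v]) hd1 (by simp)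
      exact ⟨f, hf⟩
    have h4 : F₁.card ≠ 1 := by
      intro h4
      obtain ⟨g, hg⟩ := Finset.card_eq_one.1 h4
      have h5 := hd1
      rw [hg] at h5
      have h6 := Disc.eq_single h5
      apply h2
      rw [hτe, ← h6]
      apply hF₁
      rw [hg]
      exact Finset.mem_singleton_self _
    have h5 := Finset.card_pos.2 h3
    omega
  · intro f hf
    rcases Finset.mem_insert.1 hf with rfl | hf
    · rw [hJτ]
      exact hfat1
    · rw [hJ2 f hf]
      exact hF f (hF₂ f hf)
  · intro h3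
    have h4 : τ ∈ insert τ F₂ := Finset.mem_insert_self _ _
    rw [h3, Finset.mem_singleton] at h4
    exact h1 h4

theorem Fat_main (n : ℕ) : ∀ {G : SimpleGraph V} {T J : Finset V} {x y z : V}
    {F : Finset (Finset V)} {J' : Finset V → Finset V}, F.card = n →
    Fat_Data G T J x y z F J' →
    ∃ (F' : Finset (Finset V)) (J'' : Finset V → Finset V), Fat_Data G T J x y z F' J'' ∧
      ∀ u v w, AdjF F' u v → AdjF F' v w → AdjF F' u w →
        ({u, v, w} : Finset V) = T ∨ ({u, v, w} : Finset V) ∈ F' := by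
  induction n using Nat.strong_induction_on with
  | _ n ih =>
    intro G T J x y z F J' hn h
    by_cases hc : ∀ u v w, AdjF F u v → AdjF F v w → AdjF F u w →
        ({u, v, w} : Finset V) = T ∨ ({u, v, w} : Finset V) ∈ F
    · exact ⟨F, J', h, hc⟩
    · push Not at hc
      obtain ⟨u, v, w, huv, hvw, huw, h1, h2⟩ := hc
      obtain ⟨F', J'', h3, h4⟩ := Fat_step2 h huv hvw huw h1 h2
      exact ih F'.card (hn ▸ h3) rfl h4

/-- A nonempty content has a skeleton without separating triangles.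
Step 1 (induction on `Fat`): there are `x y z F J'` with `T = {x,y,z}`, `Node`, `∀ f ∈ F, Fat G f (J' f)`,
`J = inside x y z F J'` and `F ≠ {T}`: `empty` is excluded by `J` nonempty; for `node` with
`F = {T}` we have `verts [x,y,z] F = {x,y,z}` so `J = J' T` and the induction hypothesis for the
face `T` gives the claim; otherwise take the node itself.
Step 2: choose such data with `F.card` minimal. Suppose `u, v, w` is a triangle of `AdjF F`,
`τ = {u,v,w} ≠ T`, `τ ∉ F`. By `Disc.extract` `F = F₁ ∪ F₂`, `Disc [u,v,w] F₁`,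
`Disc [x,y,z] (insert τ F₂)`. Let `J'' τ = inside u v w F₁ J'` and `J'' f = J' f` for `f ≠ τ`.
Then `Node G u v w F₁ J'` (closed: a vertex of `verts [u,v,w] F₁` outside `τ` is not in
`verts [x,y,z] F₂`, so all faces of `F` containing it are in `F₁`), hence `Fat G τ (J'' τ)`, and
`Node G x y z (insert τ F₂) J''`, with the same inside. `card F₁ ≥ 2`: `F₁ ≠ ∅` by `Disc.root_adj`,
and `F₁ = {g}` gives `g = τ ∈ F` by `Disc.eq_single`. So `card (insert τ F₂) < card F`, and
`insert τ F₂ ≠ {T}` since `τ ≠ T`: contradiction to minimality.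
Step 3: `(J' f).card < J.card` since `verts \ T` is nonempty: otherwise all faces are subsets of `T`
of card 3, so `F ⊆ {T}`, and `F ≠ ∅`, so `F = {T}`. -/
theorem Fat.skeleton {G : SimpleGraph V} {T J : Finset V} (h : Fat G T J) (hJ : J.Nonempty) :
    ∃ (x y z : V) (F : Finset (Finset V)) (J' : Finset V → Finset V), T = {x, y, z} ∧
      Node G x y z F J' ∧ (∀ f ∈ F, Fat G f (J' f)) ∧ J = inside x y z F J' ∧
      (∀ f ∈ F, (J' f).card < J.card) ∧ T ∉ F ∧
      ∀ u v w, AdjF F u v → AdjF F v w → AdjF F u w →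
        ({u, v, w} : Finset V) = T ∨ ({u, v, w} : Finset V) ∈ F := by
  obtain ⟨x, y, z, F, J', h1⟩ := Fat_step1 h hJ
  obtain ⟨F', J'', h2, h3⟩ := Fat_main F.card rfl h1
  have h4 := Fat_step3 h2
  obtain ⟨e1, e2, e3, e4, -⟩ := h2
  exact ⟨x, y, z, F', J'', e1, e2, e3, e4, h4.2, h4.1, h3⟩

/-- The data of `Node` do not depend on the order of the three boundary vertices
(`Disc.rotate`, `Disc.reverse`). -/
theorem Node.perm {G : SimpleGraph V} {x y z x' y' z' : V} {F : Finset (Finset V)}
    {J : Finset V → Finset V} (h : Node G x y z F J)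
    (he : ({x, y, z} : Finset V) = {x', y', z'}) : Node G x' y' z' F J := by
  have hc := Fat_tri_card h.disc
  rw [he] at hc
  have hxy : x' ≠ y' := by
    rintro rfl
    rw [Finset.insert_eq_of_mem (Finset.mem_insert_self _ _)] at hc
    have := Finset.card_le_two (a := x') (b := z')
    omega
  have hyz : y' ≠ z' := by
    rintro rfl
    rw [Finset.pair_eq_singleton] at hc
    have := Finset.card_le_two (a := x') (b := y')
    omega
  have hxz : x' ≠ z' := by
    rintro rfl
    rw [Finset.insert_eq_of_mem (by simp)] at hc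
    have := Finset.card_le_two (a := y') (b := x')
    omega
  have hm : ∀ a ∈ ({x', y', z'} : Finset V), a = x ∨ a = y ∨ a = z := by
    intro a ha
    rw [← he] at ha
    simpa using ha
  have hd : Disc [x', y', z'] F := DiscF_perm h.disc (hm x' (by simp)) (hm y' (by simp))
    (hm z' (by simp)) hxy hyz hxz
  have hv : verts [x', y', z'] F = verts [x, y, z] F := by
    unfold verts
    congr 1
    have e1 : ∀ a b c : V, [a, b, c].toFinset = {a, b, c} := by
      intro a b c
      ext t
      simp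
    rw [e1, e1, he]
  refine ⟨hd, h.disj, ?_, h.adj, ?_⟩
  · rw [hv]
    exact h.sep
  · rw [hv, ← he]
    exact h.closed

end EPG26
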