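import Pool.Agent.W_26e041_h61.MachA

/-!
One step of an M-state with a black vertex `z`.
-/

namespace EPG26

variable {V : Type*} [DecidableEq V]

theorem MachB2_top (W : List (Rec V)) (a0 : V) : ∃ t, rv W ++ [a0] = topv W a0 :: t := by
  cases W with
  | nil => exact ⟨[], rfl⟩
  | cons r W => exact ⟨rv W ++ [a0], rfl⟩

theorem MachB2_topmem (W : List (Rec V)) (a0 : V) : topv W a0 ∈ rv W ++ [a0] := by
  obtain ⟨t, ht⟩ := MachB2_top W a0
  rw [ht]
  exact List.mem_cons_self

theorem MachB2_comb {G : SimpleGraph V} {T : Finset V} {Fs : Finset (Finset V)}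
    {J : Finset V → Finset V} (hc : Ctx G T Fs J) {W L : List (Rec V)} {a0 b0 : V}
    {be Y : List V} {z : V} {F : Finset (Finset V)}
    (h : MC T Fs (rv W ++ [a0]) (rv L ++ [b0]) be Y z F) :
    (∃ F', F = insert {topv W a0, z, topv L b0} F' ∧
      ({topv W a0, z, topv L b0} : Finset V) ∉ F' ∧
      NC T Fs (rv W ++ [a0]) (rv L ++ [b0]) be F') ∨
    (∃ c F', F = insert {topv W a0, z, c} F' ∧ ({topv W a0, z, c} : Finset V) ∉ F' ∧
      c ∈ verts (rv W ++ [a0] ++ be ++ (rv L ++ [b0]).reverse ++ [z]) F ∧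
      c ∉ rv W ++ [a0] ++ be ++ (rv L ++ [b0]).reverse ++ [z] ∧
      MC T Fs (c :: (rv W ++ [a0])) (rv L ++ [b0]) be Y z F' ∧ ∀ v ∈ Y, ¬ AdjF F' c v) := by
  obtain ⟨t1, h1⟩ := MachB2_top W a0
  obtain ⟨t2, h2⟩ := MachB2_top L b0
  rw [h1, h2] at h ⊢
  exact MC.step hc h

theorem MachB2_own {J : Finset V → Finset V} {l l' : List V} {f : Finset V}
    {F' : Finset (Finset V)} (h : ∀ v, (∃ g ∈ F', v ∈ g) → v ∉ l' → v ∉ l) {v : V}
    (hv : v ∈ Own J l' F') : v ∈ Own J l (insert f F') := by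
  rcases hv with ⟨h1, h2⟩ | ⟨g, hg, h1⟩
  · left
    have h3 : ∃ g ∈ F', v ∈ g := by
      simpa [verts, h2] using h1
    refine ⟨?_, h v h3 h2⟩
    obtain ⟨g, hg, hvg⟩ := h3
    exact Finset.mem_union_right _
      (Finset.mem_biUnion.2 ⟨g, Finset.mem_insert_of_mem hg, hvg⟩)
  · exact Or.inr ⟨g, Finset.mem_insert_of_mem hg, h1⟩

theorem MachB2_notJ {G : SimpleGraph V} {T : Finset V} {Fs : Finset (Finset V)}
    {J : Finset V → Finset V} (hc : Ctx G T Fs J) {l' : List V} {f : Finset V}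
    {F' : Finset (Finset V)} (hs : insert f F' ⊆ Fs) (hf : f ∉ F') {v : V}
    (hv : v ∈ Own J l' F') : v ∉ J f := by
  intro hvf
  have hfs : f ∈ Fs := hs (Finset.mem_insert_self _ _)
  rcases hv with ⟨h1, h2⟩ | ⟨g, hg, h1⟩
  · have h3 : ∃ g ∈ F', v ∈ g := by
      simpa [verts, h2] using h1
    obtain ⟨g, hg, hvg⟩ := h3
    exact Finset.disjoint_left.1 (hc.sep f hfs g (hs (Finset.mem_insert_of_mem hg))) hvf hvg
  · have hne : f ≠ g := fun he => hf (he ▸ hg)
    exact Finset.disjoint_left.1 (hc.disj f hfs g (hs (Finset.mem_insert_of_mem hg)) hne) hvf h1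

theorem MachB2_lost {J : Finset V → Finset V} {l l' : List V} {f : Finset V}
    {F' : Finset (Finset V)} {v : V} (hv : v ∈ Own J l (insert f F'))
    (hv' : v ∉ Own J l' F') : v ∈ J f ∨ (v ∉ l ∧ (v ∈ f ∨ v ∈ l')) := by
  rcases hv with ⟨h1, h2⟩ | ⟨g, hg, h1⟩
  · right
    refine ⟨h2, ?_⟩
    have h3 : ∃ g ∈ insert f F', v ∈ g := by
      unfold verts at h1
      rcases Finset.mem_union.1 h1 with h4 | h4
      · exact absurd (List.mem_toFinset.1 h4) h2
      · obtain ⟨g, hg, h5⟩ := Finset.mem_biUnion.1 h4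
        exact ⟨g, hg, h5⟩
    obtain ⟨g, hg, hvg⟩ := h3
    rcases Finset.mem_insert.1 hg with rfl | hg
    · exact Or.inl hvg
    · right
      by_contra hl
      exact hv' (Or.inl ⟨Finset.mem_union_right _ (Finset.mem_biUnion.2 ⟨g, hg, hvg⟩), hl⟩)
  · rcases Finset.mem_insert.1 hg with rfl | hg
    · exact Or.inl h1
    · exact absurd (Or.inr ⟨g, hg, h1⟩) hv'

/-- the link survives when the start of the black base is only known by its window -/
theorem MachB2_link {Γ Γ' : Dr V} {D D' : Cov} {K : Set V} {A A' u : ℚ} {L : List (Rec V)}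
    {b0 : V} {Y0 : ℚ} (h : Link Γ D A L b0 Y0) (hg : Grow Γ Γ' D K) (hD : D' ≤ D)
    (hAu : A < u) (hb : ∀ x, A' < x → x < u → x ∈ D' false Y0) :
    Link Γ' D' A' L b0 Y0 := by
  obtain ⟨h1, l₀, l₁, h2, h3, h4, h5⟩ := Link.grow h hg hD le_rfl
  obtain ⟨g1, m₀, m₁, g2, g3, g4, g5⟩ := h
  refine ⟨h1, l₀, l₁, h2, ?_, h4, h5⟩
  by_contra hcon
  rw [not_le] at hcon
  have hlt : max l₀ A' < l₁ := max_lt h2 hcon
  obtain ⟨x, hx1, hx2⟩ := exists_between hlt
  exact h5 x (lt_of_le_of_lt (le_max_left _ _) hx1) hx2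
    (hb x (lt_of_le_of_lt (le_max_right _ _) hx1) (hx2.trans_le (h3.trans hAu.le)))

theorem MachB2_mem {W L : List (Rec V)} {a0 b0 z v : V} {be : List V} :
    v ∈ rv W ++ [a0] ++ be.reverse ++ (rv L ++ [b0]).reverse ++ [z] ↔
      v ∈ lN W a0 L b0 be ++ [z] := by
  simp only [lN, List.mem_append, List.mem_reverse]
  tauto

theorem MachB2_nodup {W L : List (Rec V)} {a0 b0 z : V} {be : List V}
    (h : (rv W ++ [a0] ++ be.reverse ++ (rv L ++ [b0]).reverse ++ [z]).Nodup) :
    (z :: (rv L ++ b0 :: (rv W ++ [a0]))).Nodup := by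
  have hp : List.Perm (rv W ++ [a0] ++ be.reverse ++ (rv L ++ [b0]).reverse ++ [z])
      ((z :: (rv L ++ b0 :: (rv W ++ [a0]))) ++ be) := by
    rw [List.perm_iff_count]
    intro x
    simp only [List.count_append, List.count_cons, List.count_nil, List.count_reverse,
      List.cons_append]
    omega
  exact (hp.nodup_iff.1 h).of_append_left

theorem MachB2_sub {W L : List (Rec V)} {a0 b0 z v : V} {be : List V}
    (h : v ∈ z :: (rv L ++ b0 :: (rv W ++ [a0]))) : v ∈ lN W a0 L b0 be ++ [z] := by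
  simp only [lN, List.mem_append, List.mem_reverse, List.mem_cons] at h ⊢
  tauto

theorem MachB2_vW {W L : List (Rec V)} {a0 b0 z v : V} {be : List V}
    (h : v ∈ rv W) : v ∈ lN W a0 L b0 be ++ [z] := by
  simp only [lN, List.mem_append, List.mem_reverse, List.mem_cons]
  tauto

theorem MachB2_vL {W L : List (Rec V)} {a0 b0 z v : V} {be : List V}
    (h : v ∈ rv L) : v ∈ lN W a0 L b0 be ++ [z] := by
  simp only [lN, List.mem_append, List.mem_reverse, List.mem_cons]
  tauto

theorem MachB2_tW {W L : List (Rec V)} {a0 b0 z : V} {be : List V} :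
    topv W a0 ∈ lN W a0 L b0 be ++ [z] := by
  have h := MachB2_topmem W a0
  simp only [lN, List.mem_append, List.mem_reverse, List.mem_cons] at h ⊢
  tauto

theorem MachB2_tL {W L : List (Rec V)} {a0 b0 z : V} {be : List V} :
    topv L b0 ∈ lN W a0 L b0 be ++ [z] := by
  have h := MachB2_topmem L b0
  simp only [lN, List.mem_append, List.mem_reverse, List.mem_cons] at h ⊢
  tauto

theorem MachB2_in3 {a b c : V} : a ∈ ({a, b, c} : Finset V) ∧ b ∈ ({a, b, c} : Finset V) ∧
    c ∈ ({a, b, c} : Finset V) := by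
  simp

theorem MachB2_pop {G : SimpleGraph V} {P : V → Cov → Prop} {T : Finset V}
    {Fs : Finset (Finset V)} {J : Finset V → Finset V} {Ex : V → V → Prop}
    (hc : Ctx G T Fs J) (hE : ∀ u v, Ex u v → Ex v u) {Γ : Dr V} {U : Bool → Finset ℚ}
    {D : Cov} {z : V} {Yz h A B : ℚ} {W : List (Rec V)} {a0 : V} {X0 u : ℚ}
    {L : List (Rec V)} {b0 : V} {Y0 yu : ℚ} {be : List V} {F : Finset (Finset V)}
    (hM : MG2 G P T Fs J Ex Γ U D z Yz h A B W a0 X0 u L b0 Y0 yu be F)
    {F' : Finset (Finset V)} (hF : F = insert {topv W a0, z, topv L b0} F')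
    (hf : ({topv W a0, z, topv L b0} : Finset V) ∉ F')
    (hN : NC T Fs (rv W ++ [a0]) (rv L ++ [b0]) be.reverse F') :
    ∃ Γ' U' A', Prog G P J Ex Γ U D F (KSet J (lN W a0 L b0 be ++ [z]) F W L) Γ' U' D F'
            (KSet J (lN W a0 L b0 be) F' W L) (topv W a0) (topv L b0) ∧
          NG G P T Fs J Ex Γ' U' D A' B W a0 X0 u L b0 Y0 yu be F' := by
  set f : Finset V := {topv W a0, z, topv L b0} with hfdef
  set l : List V := lN W a0 L b0 be ++ [z] with hl
  set l' : List V := lN W a0 L b0 be with hl'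
  have hFs : insert f F' ⊆ Fs := hF ▸ hM.comb.reg.sub
  have hfs : f ∈ Fs := hFs (Finset.mem_insert_self _ _)
  have hnd0 := hM.comb.reg.disc.nodup
  have hnd := MachB2_nodup hnd0
  have hOwn : Own J (rv W ++ [a0] ++ be.reverse ++ (rv L ++ [b0]).reverse ++ [z]) F =
      Own J l F := Own.congr fun v => MachB2_mem
  -- boundary vertices are not own
  have hbd : ∀ v ∈ l, v ∉ Own J l F := by
    intro v hv
    rw [← hOwn]
    exact Reg.notMem_Own hc hM.comb.reg (MachB2_mem.2 hv)
  have hzl' : z ∉ l' := by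
    intro hz
    have hp : (l' ++ [z]).Nodup := by
      have hp : List.Perm (rv W ++ [a0] ++ be.reverse ++ (rv L ++ [b0]).reverse ++ [z])
          (l' ++ [z]) := by
        rw [List.perm_iff_count]
        intro x
        simp only [hl', lN, List.count_append, List.count_cons, List.count_nil,
          List.count_reverse, List.cons_append]
        omega
      exact hp.nodup_iff.1 hnd0
    rw [List.nodup_append] at hp
    exact hp.2.2 z hz z (List.mem_singleton_self _) rfl
  have hmem' : ∀ v, v ∈ rv W ++ [a0] ++ be.reverse ++ (rv L ++ [b0]).reverse ↔ v ∈ l' := by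
    intro v
    simp only [hl', lN, List.mem_append, List.mem_reverse]
    tauto
  have hsub : ∀ v, v ∈ Own J l' F' → v ∈ Own J l F := by
    intro v hv
    rw [hF]
    refine MachB2_own ?_ hv
    rintro w ⟨g, hg, hwg⟩ hw
    rw [hl, List.mem_append, List.mem_singleton]
    rintro (h1 | rfl)
    · exact hw h1
    · have h2 : w ∈ verts (rv W ++ [a0] ++ be.reverse ++ (rv L ++ [b0]).reverse) F' :=
        Finset.mem_union_right _ (Finset.mem_biUnion.2 ⟨g, hg, hwg⟩)
      exact hf ((hN.reg.star w h2 (fun h3 => hw ((hmem' w).1 h3))).2 f hfs MachB2_in3.2.1)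
  have hJl : ∀ v ∈ J f, v ∈ Own J l F := fun v hv =>
    Or.inr ⟨f, hF ▸ Finset.mem_insert_self _ _, hv⟩
  have hJu : ∀ v ∈ J f, Undrawn (swD Γ) v ∧ v ∉ z :: (rv L ++ b0 :: (rv W ++ [a0])) :=
    fun v hv => ⟨Undrawn.sw.2 (hM.side.und v (hJl v hv)),
      fun h1 => hbd v (MachB2_sub h1) (hJl v hv)⟩
  have hfill : FillT G {z, topv W a0, topv L b0} (J f) := by
    have h1 := hc.fill f hfs
    have h2 : ({z, topv W a0, topv L b0} : Finset V) = f := by
      rw [hfdef]
      exact DiscC_swap _ _ _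
    rw [h2]
    exact h1
  obtain ⟨Γ₁, U₁, A', hst, hgeo, hfl⟩ :=
    popStep (Wd.sw.2 hM.wd) (Adm.sw.2 hM.adm) hM.geo hnd hJu hfill
  obtain ⟨Γ', rfl⟩ : ∃ Γ', Γ₁ = swD Γ' := ⟨swD Γ₁, (swD_swD _).symm⟩
  obtain ⟨U', rfl⟩ : ∃ U', U₁ = swp U' := ⟨swp U₁, (swp_swp _).symm⟩
  rw [Step.sw] at hst
  rw [NSt.sw] at hgeo
  rw [Filled.sw] at hfl
  have hadm : Adm U' D := hM.adm.mono hst.sub
  have hF'F : F' ⊆ F := hF ▸ Finset.subset_insert _ _
  have hKs : {v | v ∈ J f ∨ v ∈ rv L ∨ v ∈ rv W} ⊆ KSet J l F W L := by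
    rintro v (hv | hv | hv)
    · exact Or.inl (hJl v hv)
    · exact Or.inr (Or.inr hv)
    · exact Or.inr (Or.inl hv)
  have hg := hst.grow
  have hund : ∀ v ∈ Own J l' F', v ∉ {v | v ∈ J f ∨ v ∈ rv L ∨ v ∈ rv W} := by
    rintro v hv (h1 | h1 | h1)
    · exact MachB2_notJ hc hFs hf hv h1
    · exact hbd v (MachB2_vL h1) (hsub v hv)
    · exact hbd v (MachB2_vW h1) (hsub v hv)
  refine ⟨Γ', U', A', ⟨hst.weaken le_rfl hKs, le_rfl, hadm, hF'F, ?_, ?_, ?_, ?_, ?_⟩,
    ⟨hadm, hst.wd, hgeo, ?_, ?_⟩⟩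
  · rintro v (hv | hv)
    · exact Or.inl (hsub v hv)
    · exact Or.inr hv
  · rintro v (hv | hv) hv'
    · have hv2 : v ∉ Own J l' F' := fun h1 => hv' (Or.inl h1)
      have hv3 := hv
      rw [hF] at hv3
      rcases MachB2_lost hv3 hv2 with h1 | ⟨h1, h2 | h2⟩
      · exact hM.side.hP v hv _ (hfl v h1).1
      · exfalso
        apply h1
        rw [hfdef, Finset.mem_insert, Finset.mem_insert, Finset.mem_singleton] at h2
        rcases h2 with rfl | rfl | rfl
        · exact MachB2_tW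
        · rw [hl]
          simp
        · exact MachB2_tL
      · exact absurd (List.mem_append_left _ h2) h1
    · exact absurd (Or.inr hv) hv'
  · intro g hg1 hg2
    rw [hF] at hg1
    rcases Finset.mem_insert.1 hg1 with rfl | h1
    · exact hfl
    · exact absurd h1 hg2
  · intro g hg1 hg2 v hv
    rw [hF] at hg1
    rcases Finset.mem_insert.1 hg1 with rfl | h1
    · rintro (h1 | h1 | h1)
      · exact MachB2_notJ hc hFs hf h1 hv
      · exact hbd v (MachB2_vW h1) (hJl v hv)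
      · exact hbd v (MachB2_vL h1) (hJl v hv)
    · exact absurd h1 hg2
  · intro g hg1 hg2 v1 hv1 v2 hv2 hne
    rw [hF] at hg1
    rcases Finset.mem_insert.1 hg1 with rfl | h1
    · rw [hfdef, Finset.mem_insert, Finset.mem_insert, Finset.mem_singleton] at hv1 hv2
      have r1 := Rz.mono hg hM.rz1
      have r2 := Rz.mono hg hM.rz2
      rcases hv1 with rfl | rfl | rfl <;> rcases hv2 with rfl | rfl | rfl
      · exact absurd rfl hne
      · exact Or.inl (Rz.symm hE r1)
      · exact Or.inr (Or.inl ⟨rfl, rfl⟩)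
      · exact Or.inl r1
      · exact absurd rfl hne
      · exact Or.inl r2
      · exact Or.inr (Or.inr ⟨rfl, rfl⟩)
      · exact Or.inl (Rz.symm hE r2)
      · exact absurd rfl hne
    · exact absurd h1 hg2
  · have h1 := NC.swap hN
    rw [List.reverse_reverse] at h1
    exact h1
  · refine ⟨?_, ?_, ?_, ?_, hM.side.pl, Rz.chain_mono hg hM.side.rW,
      Rz.chain_mono hg hM.side.rL, ?_, ?_⟩
    · intro v hv x hx h1
      exact hM.side.av v hv x hx (CombA_adj_mono hF'F h1)
    · intro hb h1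
      exact hM.side.base hb (CombA_adj_mono hF'F h1)
    · intro v hv
      exact (hM.side.und v (hsub v hv)).grow hg (hund v hv)
    · intro v hv
      exact hM.side.hP v (hsub v hv)
    · intro hb
      exact Rz.mono hg (hM.side.rB hb)
    · intro hb hL
      exact MachB2_link (hM.side.lk hb hL) hg le_rfl hM.geo.n.ordB.lt
        (fun x hx hx' => (hgeo.bbase x hx hx').1)

theorem MachB2_lNcons {W L : List (Rec V)} {r : Rec V} {a0 b0 z v : V} {be : List V} :
    v ∈ lN (r :: W) a0 L b0 be ++ [z] ↔ v = r.v ∨ v ∈ lN W a0 L b0 be ++ [z] := by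
  have h1 : rv (r :: W) = r.v :: rv W := rfl
  simp only [lN, h1, List.mem_append, List.mem_reverse, List.mem_cons]
  tauto

theorem MachB2_push {G : SimpleGraph V} {P : V → Cov → Prop} {T : Finset V}
    {Fs : Finset (Finset V)} {J : Finset V → Finset V} {Ex : V → V → Prop}
    (hc : Ctx G T Fs J) (hE : ∀ u v, Ex u v → Ex v u) {Γ : Dr V} {U : Bool → Finset ℚ}
    {D : Cov} {z : V} {Yz h A B : ℚ} {W : List (Rec V)} {a0 : V} {X0 u : ℚ}
    {L : List (Rec V)} {b0 : V} {Y0 yu : ℚ} {be : List V} {F : Finset (Finset V)}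
    (hM : MG2 G P T Fs J Ex Γ U D z Yz h A B W a0 X0 u L b0 Y0 yu be F)
    {c : V} {F' : Finset (Finset V)} (hF : F = insert {topv W a0, z, c} F')
    (hf : ({topv W a0, z, c} : Finset V) ∉ F')
    (hcv : c ∈ verts (rv W ++ [a0] ++ be.reverse ++ (rv L ++ [b0]).reverse ++ [z]) F)
    (hcl : c ∉ rv W ++ [a0] ++ be.reverse ++ (rv L ++ [b0]).reverse ++ [z])
    (hN : MC T Fs (c :: (rv W ++ [a0])) (rv L ++ [b0]) be.reverse be z F')
    (hav : ∀ v ∈ be, ¬ AdjF F' c v) :
    ∃ Γ' U' D' r h' A' B', Prog G P J Ex Γ U D F (KSet J (lN W a0 L b0 be ++ [z]) F W L)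
            Γ' U' D' F' (KSet J (lN (r :: W) a0 L b0 be ++ [z]) F' (r :: W) L) z z ∧
          MG2 G P T Fs J Ex Γ' U' D' z Yz h' A' B' (r :: W) a0 X0 u L b0 Y0 yu be F' := by
  set f : Finset V := {topv W a0, z, c} with hfdef
  set l : List V := lN W a0 L b0 be ++ [z] with hl
  have hFs : insert f F' ⊆ Fs := hF ▸ hM.comb.reg.sub
  have hfs : f ∈ Fs := hFs (Finset.mem_insert_self _ _)
  have hnd0 := hM.comb.reg.disc.nodup
  have hnd := MachB2_nodup hnd0
  have hOwn : Own J (rv W ++ [a0] ++ be.reverse ++ (rv L ++ [b0]).reverse ++ [z]) F =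
      Own J l F := Own.congr fun v => MachB2_mem
  have hbd : ∀ v ∈ l, v ∉ Own J l F := by
    intro v hv
    rw [← hOwn]
    exact Reg.notMem_Own hc hM.comb.reg (MachB2_mem.2 hv)
  have hcl' : c ∉ l := fun h1 => hcl (MachB2_mem.2 h1)
  have hcO : c ∈ Own J l F := by
    rw [← hOwn]
    exact Or.inl ⟨hcv, hcl⟩
  have hJl : ∀ v ∈ J f, v ∈ Own J l F := fun v hv =>
    Or.inr ⟨f, hF ▸ Finset.mem_insert_self _ _, hv⟩
  have hcz : c ≠ z := by
    rintro rfl
    exact hcl' (List.mem_append_right _ (List.mem_singleton_self _))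
  have hca : c ≠ topv W a0 := by
    intro h1
    exact hcl' (h1 ▸ MachB2_tW)
  have hza : z ≠ topv W a0 := by
    intro h1
    have h2 := MachB2_topmem W a0
    rw [List.nodup_cons] at hnd
    apply hnd.1
    rw [h1]
    exact List.mem_append_right _ (List.mem_cons_of_mem _ h2)
  have hJu : ∀ v ∈ J f, Undrawn (swD Γ) v ∧ v ∉ c :: z :: (rv L ++ b0 :: (rv W ++ [a0])) := by
    intro v hv
    refine ⟨Undrawn.sw.2 (hM.side.und v (hJl v hv)), fun h1 => ?_⟩
    rcases List.mem_cons.1 h1 with h1 | h1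
    · rw [h1] at hv
      exact Finset.disjoint_left.1 (hc.sep f hfs f hfs) hv MachB2_in3.2.2
    · exact hbd v (MachB2_sub h1) (hJl v hv)
  have hfill : FillT G {topv W a0, c, z} (J f) := by
    have h1 := hc.fill f hfs
    have h2 : ({topv W a0, c, z} : Finset V) = f := by
      rw [hfdef]
      exact congrArg (insert (topv W a0)) (Finset.pair_comm c z)
    rw [h2]
    exact h1
  obtain ⟨Γ₁, U₁, h', B', A', r, l₀, l₁, hr, hrpl, hrt, hst, hgeo, hfl, hov1, hov2, -, -, -⟩ :=
    pushStep (c := c) (Wd.sw.2 hM.wd) (Adm.sw.2 hM.adm) hM.geo hnd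
      (Undrawn.sw.2 (hM.side.und c hcO)) (fun h1 => hcl' (MachB2_sub h1))
      (fun C hC => hM.side.hP c hcO _ (IsPath3.swp.2 hC))
      (hc.adj f hfs c MachB2_in3.2.2 z MachB2_in3.2.1 hcz)
      (hc.adj f hfs c MachB2_in3.2.2 _ MachB2_in3.1 hca) hJu hfill
  obtain ⟨Γ', rfl⟩ : ∃ Γ', Γ₁ = swD Γ' := ⟨swD Γ₁, (swD_swD _).symm⟩
  obtain ⟨U', rfl⟩ : ∃ U', U₁ = swp U' := ⟨swp U₁, (swp_swp _).symm⟩
  rw [Step.sw] at hst
  rw [Filled.sw] at hfl
  rw [Ov.sw] at hov1 hov2
  have hgD : swp D \ seg false (topc W X0) l₀ l₁ = swp (D \ seg true (topc W X0) l₀ l₁) := by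
    rw [swp_sdiff, swp_seg]
    rfl
  rw [hgD] at hgeo
  set D' : Cov := D \ seg true (topc W X0) l₀ l₁ with hD'
  have hDD : D' ≤ D := sdiff_le
  have hXW : topc W X0 ∈ U true := by
    have h1 := hM.geo.top.mem (v := topv W a0) (Set.mem_singleton _) (Wd.sw.2 hM.wd).lines
      hM.geo.hz
    exact h1
  have hadm : Adm U' D' := by
    intro o x y hy
    refine ⟨hM.adm.mono hst.sub o x hy, ?_⟩
    rintro ⟨ho, hx, -⟩
    subst ho
    subst hx
    exact hy (hst.sub true hXW)
  have hF'F : F' ⊆ F := hF ▸ Finset.subset_insert _ _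
  have hg := hst.grow
  have hmem' : ∀ v, v ∈ c :: (rv W ++ [a0]) ++ be.reverse ++ (rv L ++ [b0]).reverse ++ [z] ↔
      v ∈ lN (r :: W) a0 L b0 be ++ [z] := by
    intro v
    rw [MachB2_lNcons, hr]
    simp only [lN, List.mem_append, List.mem_reverse, List.mem_cons]
    tauto
  set l' : List V := lN (r :: W) a0 L b0 be ++ [z] with hl'
  have hOwn' : Own J (c :: (rv W ++ [a0]) ++ be.reverse ++ (rv L ++ [b0]).reverse ++ [z]) F' =
      Own J l' F' := Own.congr hmem'
  have hbd' : ∀ v ∈ l', v ∉ Own J l' F' := by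
    intro v hv
    rw [← hOwn']
    exact Reg.notMem_Own hc hN.reg ((hmem' v).2 hv)
  have hll' : ∀ v, v ∈ l' ↔ v = c ∨ v ∈ l := by
    intro v
    rw [hl', MachB2_lNcons, hr]
  have hsub : ∀ v, v ∈ Own J l' F' → v ∈ Own J l F := by
    intro v hv
    rw [hF]
    refine MachB2_own ?_ hv
    rintro w - hw hw'
    exact hw ((hll' w).2 (Or.inr hw'))
  have hund : ∀ v ∈ Own J l' F', v ∉ {v | v = c ∨ v ∈ J f ∨ v ∈ rv W} := by
    rintro v hv (h1 | h1 | h1)
    · exact hbd' v ((hll' v).2 (Or.inl h1)) hv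
    · exact MachB2_notJ hc hFs hf hv h1
    · exact hbd v (MachB2_vW h1) (hsub v hv)
  have hKs : {v | v = c ∨ v ∈ J f ∨ v ∈ rv W} ⊆ KSet J l F W L := by
    rintro v (hv | hv | hv)
    · exact Or.inl (hv ▸ hcO)
    · exact Or.inl (hJl v hv)
    · exact Or.inr (Or.inl hv)
  have hrv : rv (r :: W) = c :: rv W := by
    rw [← hr]
    rfl
  refine ⟨Γ', U', D', r, h', A', B', ⟨hst.weaken le_rfl hKs, hDD, hadm, hF'F, ?_, ?_, ?_, ?_, ?_⟩,
    ⟨hadm, hst.wd, hgeo, ?_, ?_, ?_, ?_⟩⟩
  · rintro v (hv | hv | hv)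
    · exact Or.inl (hsub v hv)
    · rw [hrv] at hv
      rcases List.mem_cons.1 hv with rfl | hv
      · exact Or.inl hcO
      · exact Or.inr (Or.inl hv)
    · exact Or.inr (Or.inr hv)
  · rintro v (hv | hv | hv) hv'
    · have hv2 : v ∉ Own J l' F' := fun h1 => hv' (Or.inl h1)
      have hv3 := hv
      rw [hF] at hv3
      have hvc : v ≠ c := by
        rintro rfl
        apply hv'
        right
        left
        rw [hrv]
        exact List.mem_cons_self
      rcases MachB2_lost hv3 hv2 with h1 | ⟨h1, h2 | h2⟩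
      · exact hM.side.hP v hv _ (hfl v h1).1
      · exfalso
        apply h1
        rw [hfdef, Finset.mem_insert, Finset.mem_insert, Finset.mem_singleton] at h2
        rcases h2 with rfl | rfl | rfl
        · exact MachB2_tW
        · rw [hl]
          simp
        · exact absurd rfl hvc
      · rcases (hll' v).1 h2 with h3 | h3
        · exact absurd h3 hvc
        · exact absurd h3 h1
    · refine absurd (Or.inr (Or.inl ?_)) hv'
      rw [hrv]
      exact List.mem_cons_of_mem _ hv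
    · exact absurd (Or.inr (Or.inr hv)) hv'
  · intro g hg1 hg2
    rw [hF] at hg1
    rcases Finset.mem_insert.1 hg1 with rfl | h1
    · exact hfl
    · exact absurd h1 hg2
  · intro g hg1 hg2 v hv
    rw [hF] at hg1
    rcases Finset.mem_insert.1 hg1 with rfl | h1
    · rintro (h1 | h1 | h1)
      · exact MachB2_notJ hc hFs hf h1 hv
      · rw [hrv] at h1
        rcases List.mem_cons.1 h1 with h1 | h1
        · exact (hJu v hv).2 (h1 ▸ List.mem_cons_self)
        · exact hbd v (MachB2_vW h1) (hJl v hv)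
      · exact hbd v (MachB2_vL h1) (hJl v hv)
    · exact absurd h1 hg2
  · intro g hg1 hg2 v1 hv1 v2 hv2 hne
    rw [hF] at hg1
    rcases Finset.mem_insert.1 hg1 with rfl | h1
    · rw [hfdef, Finset.mem_insert, Finset.mem_insert, Finset.mem_singleton] at hv1 hv2
      have r1 := Rz.mono hg hM.rz1
      have r2 : Rz Ex Γ' c z := Or.inr hov1
      have r3 : Rz Ex Γ' c (topv W a0) := Or.inr hov2
      rcases hv1 with rfl | rfl | rfl <;> rcases hv2 with rfl | rfl | rfl
      · exact absurd rfl hne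
      · exact Or.inl (Rz.symm hE r1)
      · exact Or.inl (Rz.symm hE r3)
      · exact Or.inl r1
      · exact absurd rfl hne
      · exact Or.inl (Rz.symm hE r2)
      · exact Or.inl r3
      · exact Or.inl r2
      · exact absurd rfl hne
    · exact absurd h1 hg2
  · rw [hrv]
    exact hN
  · refine ⟨?_, ?_, ?_, ?_, hM.side.pl, ?_, Rz.chain_mono hg hM.side.rL, ?_, ?_⟩
    · intro v hv x hx h1
      rw [hrv] at hv
      rcases List.mem_cons.1 hv with rfl | hv
      · exact hav x hx h1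
      · exact hM.side.av v hv x hx (CombA_adj_mono hF'F h1)
    · intro hb h1
      exact hM.side.base hb (CombA_adj_mono hF'F h1)
    · intro v hv
      exact (hM.side.und v (hsub v hv)).grow hg (hund v hv)
    · intro v hv
      exact hM.side.hP v (hsub v hv)
    · obtain ⟨t, ht⟩ := MachB2_top W a0
      have h1 := Rz.chain_mono hg hM.side.rW
      rw [hrv, List.cons_append]
      rw [ht] at h1 ⊢
      exact List.isChain_cons_cons.2 ⟨Or.inr hov2, h1⟩
    · intro hb
      exact Rz.mono hg (hM.side.rB hb)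
    · intro hb hL
      exact MachB2_link (hM.side.lk hb hL) hg hDD hM.geo.n.ordB.lt
        (fun x hx hx' => (hgeo.n.wbase x hx hx').1)
  · exact Rz.symm hE (show Rz Ex Γ' r.v z from hr ▸ Or.inr hov1)
  · exact Rz.mono hg hM.rz2

/-- One step of an M-state with a black vertex `z`. As `MG1.next`, with the roles of white and black
exchanged: `MC.step` for `comb` (black list of `MC` = `rv W ++ [a0]`, white list = `rv L ++ [b0]`,
`Y = be`); `popStep` resp. `pushStep` are applied to the exchanged drawing `swD Γ`; results are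
transferred back with `Step.sw`, `NSt.sw`, `Filled.sw`, `Ov.sw` (write `Γ' = swD (swD Γ')` etc.).
Differences: in the push case the new vertex `c` becomes the first white vertex (`r :: W`); `av` for
it is the last statement of `MC.step` (`Y = be`); `Link` is unchanged up to `Link.grow` (`L` is the
same). In the push case the returned allowed set may be enlarged again, take
`D' = D \ swp (seg ..)`. The list conditions differ from `MG1` only by the order
(`Own.congr`). -/
theorem MG2.next {G : SimpleGraph V} {P : V → Cov → Prop} {T : Finset V}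
    {Fs : Finset (Finset V)} {J : Finset V → Finset V} {Ex : V → V → Prop}
    (hc : Ctx G T Fs J) (hE : ∀ u v, Ex u v → Ex v u) {Γ : Dr V} {U : Bool → Finset ℚ}
    {D : Cov} {z : V} {Yz h A B : ℚ} {W : List (Rec V)} {a0 : V} {X0 u : ℚ}
    {L : List (Rec V)} {b0 : V} {Y0 yu : ℚ} {be : List V} {F : Finset (Finset V)}
    (hM : MG2 G P T Fs J Ex Γ U D z Yz h A B W a0 X0 u L b0 Y0 yu be F) :
    ∃ Γ' U' D' F', F'.card < F.card ∧
      ((∃ A', Prog G P J Ex Γ U D F (KSet J (lN W a0 L b0 be ++ [z]) F W L) Γ' U' D' F'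
            (KSet J (lN W a0 L b0 be) F' W L) (topv W a0) (topv L b0) ∧
          NG G P T Fs J Ex Γ' U' D' A' B W a0 X0 u L b0 Y0 yu be F') ∨
        ∃ r h' A' B', Prog G P J Ex Γ U D F (KSet J (lN W a0 L b0 be ++ [z]) F W L) Γ' U' D' F'
            (KSet J (lN (r :: W) a0 L b0 be ++ [z]) F' (r :: W) L) z z ∧
          MG2 G P T Fs J Ex Γ' U' D' z Yz h' A' B' (r :: W) a0 X0 u L b0 Y0 yu be F') := by
  rcases MachB2_comb hc hM.comb with ⟨F', hF, hf, hN⟩ | ⟨c, F', hF, hf, hcv, hcl, hN, hav⟩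
  · obtain ⟨Γ', U', A', h1, h2⟩ := MachB2_pop hc hE hM hF hf hN
    refine ⟨Γ', U', D, F', ?_, Or.inl ⟨A', h1, h2⟩⟩
    rw [hF, Finset.card_insert_of_notMem hf]
    exact Nat.lt_succ_self _
  · obtain ⟨Γ', U', D', r, h', A', B', h1, h2⟩ := MachB2_push hc hE hM hF hf hcv hcl hN hav
    refine ⟨Γ', U', D', F', ?_, Or.inr ⟨r, h', A', B', h1, h2⟩⟩
    rw [hF, Finset.card_insert_of_notMem hf]
    exact Nat.lt_succ_self _

end EPG26
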