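import Pool.Agent.W_26e041_h61.MachA

/-!
The paying steps of the machine.
-/

namespace EPG26

variable {V : Type*} [DecidableEq V]

omit [DecidableEq V] in
theorem MachB3_top (L : List (Rec V)) (b : V) : ∃ t, rv L ++ [b] = topv L b :: t := by
  cases L with
  | nil => exact ⟨[], rfl⟩
  | cons r L => exact ⟨rv L ++ [b], rfl⟩

theorem MachB3_adj {G : SimpleGraph V} {T : Finset V} {Fs : Finset (Finset V)}
    {J : Finset V → Finset V} (hc : Ctx G T Fs J) {L W : List (Rec V)} {b0 a0 z : V} {be : List V}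
    {F : Finset (Finset V)}
    (h : Reg T Fs (rv L ++ [b0] ++ be ++ (rv W ++ [a0]).reverse ++ [z]) F) :
    G.Adj z (topv L b0) := by
  obtain ⟨t, ht⟩ := MachB3_top L b0
  have h1 : rv L ++ [b0] ++ be ++ (rv W ++ [a0]).reverse ++ [z] =
      topv L b0 :: ((t ++ be ++ (rv W ++ [a0]).reverse) ++ [z]) := by
    rw [ht]
    simp
  have hd := h.disc
  rw [h1] at hd
  obtain ⟨hne, f, hf, h2, h3⟩ := Disc.root_adj hd (by simp)
  exact (hc.adj f (h.sub hf) _ h2 _ h3 hne).symm

omit [DecidableEq V] in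
theorem MachB3_nodup {L W : List (Rec V)} {b0 a0 : V} {be : List V}
    (h : (rv L ++ [b0] ++ be ++ (rv W ++ [a0]).reverse).Nodup) :
    ((rv L ++ [b0]) ++ (rv W ++ [a0]).reverse).Nodup := by
  refine List.Nodup.sublist ?_ h
  exact (List.sublist_append_left _ _).append_right _

theorem MachB3_topR {Ex : V → V → Prop} {Γ : Dr V} {v b : V} {L : List (Rec V)}
    (h : List.IsChain (Rz Ex Γ) (v :: (rv L ++ [b]))) : Rz Ex Γ v (topv L b) := by
  obtain ⟨t, ht⟩ := MachB3_top L b
  rw [ht] at h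
  cases h with
  | cons_cons h1 _ => exact h1

theorem MachB3_und {G : SimpleGraph V} {T : Finset V} {Fs : Finset (Finset V)}
    {J : Finset V → Finset V} (hc : Ctx G T Fs J) {Γ Γ' : Dr V} {D : Cov} {K : Set V}
    {l : List V} {F : Finset (Finset V)} (h : Reg T Fs l F) (hg : Grow Γ Γ' D K)
    (hK : ∀ v ∈ K, v ∈ l) {v : V} (hv : v ∈ Own J l F) (hu : Undrawn Γ v) : Undrawn Γ' v := by
  intro o l' x hx
  rcases hg.new v o l' x hx with h1 | h1
  · exact hu o l' x h1
  · exact h.notMem_Own hc (hK v h1.1) hv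

omit [DecidableEq V] in
theorem MachB3_A {P : V → Cov → Prop} {Γ : Dr V} {U : Bool → Finset ℚ}
    {D : Cov} {A B : ℚ} {r : Rec V} {W : List (Rec V)} {a0 : V} {X0 u : ℚ} {L : List (Rec V)}
    {b0 : V} {Y0 yu : ℚ} (h : NSt P Γ U D A B (r :: W) a0 X0 u L b0 Y0 yu) : A < r.c := by
  obtain ⟨h1, h2, _⟩ := h.ordW
  exact h1.trans h2

/-- The first white vertex is paid. `payStep` (`G.Adj` from `Ctx.adj` and `Disc.root_adj`: the
boundary has at least three vertices). The regions are the same, `D' = D`. `rz1` from `rW`, `rz2` is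
the new overlap. `Prog`: no face is finished, the vertex `ra.v` is finished; note that `ra.v` is not in
`Own` (`Reg.notMem_Own`). -/
theorem NG.payA {G : SimpleGraph V} {P : V → Cov → Prop} {T : Finset V}
    {Fs : Finset (Finset V)} {J : Finset V → Finset V} {Ex : V → V → Prop}
    (hc : Ctx G T Fs J) (hE : ∀ u v, Ex u v → Ex v u) {Γ : Dr V} {U : Bool → Finset ℚ}
    {D : Cov} {A B : ℚ} {ra : Rec V} {W : List (Rec V)} {a0 : V} {X0 u : ℚ}
    {L : List (Rec V)} {b0 : V} {Y0 yu : ℚ} {be : List V} {F : Finset (Finset V)}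
    (hN : NG G P T Fs J Ex Γ U D A B (ra :: W) a0 X0 u L b0 Y0 yu be F)
    (hM : MC T Fs (rv L ++ [b0]) (rv W ++ [a0]) be [] ra.v F) :
    ∃ Γ' U' h, Prog G P J Ex Γ U D F (KSet J (lN (ra :: W) a0 L b0 be) F (ra :: W) L) Γ' U' D F
        (KSet J (lN W a0 L b0 be ++ [ra.v]) F W L) ra.v ra.v ∧
      MG1 G P T Fs J Ex Γ' U' D ra.v ra.c h h B W a0 X0 u L b0 Y0 yu be F ∧
      Ov Γ' ra.v (topv L b0) := by
  have hl : lN (ra :: W) a0 L b0 be = lN W a0 L b0 be ++ [ra.v] := by
    simp [lN, rv]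
  have hregN := hN.comb.reg
  have hl' : rv L ++ [b0] ++ be ++ (rv (ra :: W) ++ [a0]).reverse = lN W a0 L b0 be ++ [ra.v] := hl
  rw [hl'] at hregN
  have hnd0 := MachB3_nodup hN.comb.reg.disc.nodup
  have hnd : (rv (ra :: W) ++ a0 :: (rv L ++ [b0])).Nodup := by
    have h1 : (rv (ra :: W) ++ a0 :: (rv L ++ [b0])) = (rv (ra :: W) ++ [a0]) ++ (rv L ++ [b0]) := by
      simp
    rw [h1]
    exact ((List.perm_append_comm.trans
      ((List.reverse_perm _).append_right _)).nodup_iff).1 hnd0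
  have hadj : G.Adj ra.v (topv L b0) := MachB3_adj hc hM.reg
  obtain ⟨Γ', U', h, hst, hMS, hP, hO⟩ := payStep hN.wd hN.geo hnd hadj
  have hKl : ∀ v ∈ {v | v = ra.v ∨ v ∈ rv L}, v ∈ lN W a0 L b0 be ++ [ra.v] := by
    rintro v (hv | hv)
    · rw [hv]
      simp
    · simp [lN, hv]
  have hadm : Adm U' D := hN.adm.mono hst.sub
  refine ⟨Γ', U', h, ?_, ?_, hO⟩
  · rw [hl]
    refine ⟨hst.weaken le_rfl ?_, le_rfl, hadm, subset_rfl, ?_, ?_, ?_, ?_, ?_⟩
    · rintro v (hv | hv)
      · exact Or.inr (Or.inl (by rw [hv]; exact List.mem_cons_self))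
      · exact Or.inr (Or.inr hv)
    · rintro v (hv | hv | hv)
      · exact Or.inl hv
      · exact Or.inr (Or.inl (List.mem_cons_of_mem _ hv))
      · exact Or.inr (Or.inr hv)
    · rintro v (hv | hv | hv) hn
      · exact absurd (Or.inl hv) hn
      · rcases List.mem_cons.1 hv with h1 | h1
        · rw [h1]
          exact hP
        · exact absurd (Or.inr (Or.inl h1)) hn
      · exact absurd (Or.inr (Or.inr hv)) hn
    · intro f hf hn
      exact absurd hf hn
    · intro f hf hn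
      exact absurd hf hn
    · intro f hf hn
      exact absurd hf hn
  · have hs := hN.side
    rw [hl] at hs
    have hrW : List.IsChain (Rz Ex Γ) (ra.v :: (rv W ++ [a0])) := hs.rW
    refine ⟨hadm, hst.wd, hMS, hM, ⟨?_, hs.base, ?_, hs.hP, hs.pl, ?_, ?_, ?_, ?_⟩, ?_, ?_⟩
    · intro v hv
      exact hs.av v (List.mem_cons_of_mem _ hv)
    · intro v hv
      exact MachB3_und hc hregN hst.grow hKl hv (hs.und v hv)
    · exact Rz.chain_mono hst.grow hrW.tail
    · exact Rz.chain_mono hst.grow hs.rL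
    · intro hb
      exact Rz.mono hst.grow (hs.rB hb)
    · intro hb hL
      exact (hs.lk hb hL).grow hst.grow le_rfl ((MachB3_A hN.geo).trans hMS.hz).le
    · exact Rz.mono hst.grow (MachB3_topR hrW)
    · exact Or.inr hO

/-- The first black vertex is paid: `payStep` for the exchanged drawing. `Link` for `L` from `Link` for
`rb :: L` (if `L ≠ []` the last record is the same). -/
theorem NG.payB {G : SimpleGraph V} {P : V → Cov → Prop} {T : Finset V}
    {Fs : Finset (Finset V)} {J : Finset V → Finset V} {Ex : V → V → Prop}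
    (hc : Ctx G T Fs J) (hE : ∀ u v, Ex u v → Ex v u) {Γ : Dr V} {U : Bool → Finset ℚ}
    {D : Cov} {A B : ℚ} {W : List (Rec V)} {a0 : V} {X0 u : ℚ} {rb : Rec V}
    {L : List (Rec V)} {b0 : V} {Y0 yu : ℚ} {be : List V} {F : Finset (Finset V)}
    (hN : NG G P T Fs J Ex Γ U D A B W a0 X0 u (rb :: L) b0 Y0 yu be F)
    (hM : MC T Fs (rv W ++ [a0]) (rv L ++ [b0]) be.reverse be rb.v F) :
    ∃ Γ' U' h, Prog G P J Ex Γ U D F (KSet J (lN W a0 (rb :: L) b0 be) F W (rb :: L)) Γ' U' D F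
        (KSet J (lN W a0 L b0 be ++ [rb.v]) F W L) rb.v rb.v ∧
      MG2 G P T Fs J Ex Γ' U' D rb.v rb.c h A h W a0 X0 u L b0 Y0 yu be F ∧
      Ov Γ' rb.v (topv W a0) := by
  have hmem : ∀ v, v ∈ lN W a0 (rb :: L) b0 be ↔ v ∈ lN W a0 L b0 be ++ [rb.v] := by
    intro v
    simp only [lN, rv, List.map_cons, List.mem_append, List.mem_cons, List.mem_reverse,
      List.not_mem_nil, or_false]
    tauto
  have hOwn : Own J (lN W a0 (rb :: L) b0 be) F = Own J (lN W a0 L b0 be ++ [rb.v]) F :=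
    Own.congr hmem
  have hregN := hN.comb.reg
  have hnd0 := MachB3_nodup hN.comb.reg.disc.nodup
  have hnd : (rv (rb :: L) ++ b0 :: (rv W ++ [a0])).Nodup := by
    have h1 : (rv (rb :: L) ++ b0 :: (rv W ++ [a0])) = (rv (rb :: L) ++ [b0]) ++ (rv W ++ [a0]) := by
      simp
    rw [h1]
    exact (((List.reverse_perm _).append_left _).nodup_iff).1 hnd0
  have hadj : G.Adj rb.v (topv W a0) := MachB3_adj hc hM.reg
  obtain ⟨Γ₁, U₁, h, hst, hMS, hP, hO⟩ := payStep (Wd.sw.2 hN.wd) (NSt.sw.2 hN.geo) hnd hadj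
  have eΓ : Γ₁ = swD (swD Γ₁) := (swD_swD Γ₁).symm
  have eU : U₁ = swp (swp U₁) := (swp_swp U₁).symm
  generalize swD Γ₁ = Γ' at eΓ
  generalize swp U₁ = U' at eU
  subst eΓ eU
  rw [Step.sw] at hst
  rw [Ov.sw] at hO
  have hP' : P rb.v (Γ' rb.v) := by
    have h1 : P rb.v (swp (swp (Γ' rb.v))) := hP
    rwa [swp_swp] at h1
  have hKl : ∀ v ∈ {v | v = rb.v ∨ v ∈ rv W}, v ∈ lN W a0 (rb :: L) b0 be := by
    rintro v (hv | hv)
    · rw [hv]
      simp [lN, rv]
    · simp [lN, hv]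
  have hadm : Adm U' D := hN.adm.mono hst.sub
  refine ⟨Γ', U', h, ?_, ?_, hO⟩
  · refine ⟨hst.weaken le_rfl ?_, le_rfl, hadm, subset_rfl, ?_, ?_, ?_, ?_, ?_⟩
    · rintro v (hv | hv)
      · exact Or.inr (Or.inr (by rw [hv]; exact List.mem_cons_self))
      · exact Or.inr (Or.inl hv)
    · rintro v (hv | hv | hv)
      · exact Or.inl (by rw [hOwn]; exact hv)
      · exact Or.inr (Or.inl hv)
      · exact Or.inr (Or.inr (List.mem_cons_of_mem _ hv))
    · rintro v (hv | hv | hv) hn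
      · exact absurd (Or.inl (by rw [← hOwn]; exact hv)) hn
      · exact absurd (Or.inr (Or.inl hv)) hn
      · rcases List.mem_cons.1 hv with h1 | h1
        · rw [h1]
          exact hP'
        · exact absurd (Or.inr (Or.inr h1)) hn
    · intro f hf hn
      exact absurd hf hn
    · intro f hf hn
      exact absurd hf hn
    · intro f hf hn
      exact absurd hf hn
  · have hs := hN.side
    have hrL : List.IsChain (Rz Ex Γ) (rb.v :: (rv L ++ [b0])) := hs.rL
    refine ⟨hadm, hst.wd, hMS, hM, ⟨hs.av, hs.base, ?_, ?_, ?_, ?_, ?_, ?_, ?_⟩, ?_, ?_⟩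
    · intro v hv
      rw [← hOwn] at hv
      exact MachB3_und hc hregN hst.grow hKl hv (hs.und v hv)
    · intro v hv
      rw [← hOwn] at hv
      exact hs.hP v hv
    · intro r hr
      exact hs.pl r (List.mem_cons_of_mem _ hr)
    · exact Rz.chain_mono hst.grow hs.rW
    · exact Rz.chain_mono hst.grow hrL.tail
    · intro hb
      exact Rz.mono hst.grow (hs.rB hb)
    · intro hb hL
      have h1 := (hs.lk hb (List.cons_ne_nil _ _)).grow hst.grow le_rfl (le_refl A)
      refine ⟨h1.tch.2, ?_⟩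
      have h2 := h1.zone
      cases L with
      | nil => exact absurd rfl hL
      | cons r L => exact h2
    · exact Or.inr hO
    · exact Rz.mono hst.grow (MachB3_topR hrL)

end EPG26
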