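import Pool.Agent.W_26e041_h61.MachA

/-!
Step T of the machine.
-/

namespace EPG26

variable {V : Type*} [DecidableEq V]

omit [DecidableEq V] in
theorem MachB4_top (L : List (Rec V)) (b : V) : ∃ t, rv L ++ [b] = topv L b :: t := by
  cases L with
  | nil => exact ⟨[], rfl⟩
  | cons r L => exact ⟨rv L ++ [b], rfl⟩

omit [DecidableEq V] in
theorem MachB4_topmem (L : List (Rec V)) (b : V) : topv L b ∈ rv L ∨ topv L b = b := by
  cases L with
  | nil => exact Or.inr rfl
  | cons r L => exact Or.inl List.mem_cons_self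

omit [DecidableEq V] in
theorem MachB4_tch {L₁ L₂ : List (Rec V)} {Y : ℚ} (h : TCh (L₁ ++ L₂) Y) : TCh L₂ Y := by
  induction L₁ with
  | nil => exact h
  | cons r L ih => exact ih h.2

omit [DecidableEq V] in
theorem MachB4_last (L₁ : List (Rec V)) (r : Rec V) (L₂ : List (Rec V)) (b : V) :
    lastv (L₁ ++ r :: L₂) b = lastv L₂ r.v := by
  induction L₁ generalizing b with
  | nil => rfl
  | cons r' L ih => exact ih r'.v

omit [DecidableEq V] in
theorem MachB4_topR {Ex : V → V → Prop} {Γ : Dr V} {v b : V} {L : List (Rec V)}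
    (h : List.IsChain (Rz Ex Γ) (v :: (rv L ++ [b]))) : Rz Ex Γ v (topv L b) := by
  obtain ⟨t, ht⟩ := MachB4_top L b
  rw [ht] at h
  cases h with
  | cons_cons h1 _ => exact h1

/-- a vertex in the boundary of a region is not in the content of a face -/
theorem MachB4_sep {G : SimpleGraph V} {T : Finset V} {Fs : Finset (Finset V)}
    {J : Finset V → Finset V} (hc : Ctx G T Fs J) {f g : Finset V} (hf : f ∈ Fs) (hg : g ∈ Fs)
    {v : V} (h1 : v ∈ J f) (h2 : v ∈ g) : False :=
  Finset.disjoint_left.1 (hc.sep f hf g hg) h1 h2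

theorem MachB4_disj {G : SimpleGraph V} {T : Finset V} {Fs : Finset (Finset V)}
    {J : Finset V → Finset V} (hc : Ctx G T Fs J) {f g : Finset V} (hf : f ∈ Fs) (hg : g ∈ Fs)
    (hne : f ≠ g) {v : V} (h1 : v ∈ J f) (h2 : v ∈ J g) : False :=
  Finset.disjoint_left.1 (hc.disj f hf g hg hne) h1 h2

/-- the contents of a face outside `F` are not in the own part of a region with faces `F` -/
theorem MachB4_content {G : SimpleGraph V} {T : Finset V} {Fs : Finset (Finset V)}
    {J : Finset V → Finset V} (hc : Ctx G T Fs J) {l : List V} {F : Finset (Finset V)}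
    (hF : F ⊆ Fs) {f : Finset V} (hf : f ∈ Fs) (hfn : f ∉ F) {v : V} (hv : v ∈ J f) :
    v ∉ Own J l F := by
  rintro (⟨h1, h2⟩ | ⟨g, hg, hvg⟩)
  · rcases Finset.mem_union.1 h1 with h3 | h3
    · exact h2 (List.mem_toFinset.1 h3)
    · obtain ⟨g, hg, hvg⟩ := Finset.mem_biUnion.1 h3
      exact MachB4_sep hc hf (hF hg) hv hvg
  · refine MachB4_disj hc hf (hF hg) ?_ hv hvg
    rintro rfl
    exact hfn hg

/-- a vertex of a face is not a content; so it is in the own part of a region only as an inner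
vertex -/
theorem MachB4_face {G : SimpleGraph V} {T : Finset V} {Fs : Finset (Finset V)}
    {J : Finset V → Finset V} (hc : Ctx G T Fs J) {l : List V} {F : Finset (Finset V)}
    (hF : F ⊆ Fs) {f : Finset V} (hf : f ∈ Fs) {v : V} (hv : v ∈ f) (hl : v ∈ l) :
    v ∉ Own J l F := by
  rintro (⟨_, h2⟩ | ⟨g, hg, hvg⟩)
  · exact h2 hl
  · exact MachB4_sep hc (hF hg) hf hvg hv

/-- The own part of a subregion is contained in the own part of the region, if the boundary
vertices of the region which are vertices of the subregion are boundary vertices of it. -/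
theorem MachB4_sub {J : Finset V → Finset V} {l l' : List V} {F F' : Finset (Finset V)}
    (hF : F' ⊆ F) (h : ∀ v, v ∈ verts l' F' → v ∈ l → v ∈ l') {v : V} (hv : v ∈ Own J l' F') :
    v ∈ Own J l F := by
  rcases hv with ⟨h1, h2⟩ | ⟨f, hf, hvf⟩
  · left
    refine ⟨?_, fun h3 => h2 (h v h1 h3)⟩
    rcases Finset.mem_union.1 h1 with h3 | h3
    · exact absurd (List.mem_toFinset.1 h3) h2
    · obtain ⟨g, hg, hvg⟩ := Finset.mem_biUnion.1 h3
      exact DiscA_mem_verts_right (hF hg) hvg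
  · exact Or.inr ⟨f, hF hf, hvf⟩

/-- Step T. From `tStep` (with `y = topv L₂ b0`, content `J {rb.v, ra.v, x}`); `D₁ = D ⊓ (nl U₁ ⊔ reg ..)`,
`D' = D \ seg ..` (the zone of `x` and `y`).
First statement, the sub-state `MG2` (whites: only the base `x`; blacks `L₁`, base `y`; `be = []`):
geometry from `tStep`, `Side`: `und`, `hP` because `Own` of the sub-region is contained in `Own` of the
region and disjoint from the drawn vertices; `rL`: the chain `rv L₁ ++ [y]` is a piece of
`rv (rb :: (L₁ ++ L₂)) ++ [b0]`; `rB`: `Ov x y`; `rz1`: `Ov b x`, `rz2`: first link of the chain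
starting with `rb.v`.
Second statement: given the result `Γ₂, U₂` of the closed run in the sub-state, the main state
`MG1` with `z = ra.v` and blacks `rx :: L₂` holds for `Γ₂` (`tStep`; the vertices of `K₂` are
not in `W`, `L₂`, `x` and not in `Own` of the main region: `hv`, `Own.disj`, `Reg.notMem_Own`,
nodup) and there is progress from `Γ` to `Γ₂`: the finished faces are `{rb.v, ra.v, x}` and `F₂`. `Link`:
if `L₂ = []` the zone of `tStep` (`lastv [rx] b0 = x`), otherwise `Link.grow` (the last record is the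
same; `TCh (rx :: L₂)` since `rx.t = topc L₂ Y0`); the zone is not changed by growth in `D₁` since it is
outside `D₁` (positions larger than `Xx`). -/
theorem NG.stepT {G : SimpleGraph V} {P : V → Cov → Prop} {T : Finset V}
    {Fs : Finset (Finset V)} {J : Finset V → Finset V} {Ex : V → V → Prop}
    (hc : Ctx G T Fs J) (hE : ∀ u v, Ex u v → Ex v u) {Γ : Dr V} {U : Bool → Finset ℚ}
    {D : Cov} {A B : ℚ} {ra rb : Rec V} {W : List (Rec V)} {a0 : V} {X0 u : ℚ}
    {L₁ L₂ : List (Rec V)} {b0 : V} {Y0 yu : ℚ} {be : List V} {F F₁ F₂ : Finset (Finset V)}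
    {x : V} (hN : NG G P T Fs J Ex Γ U D A B (ra :: W) a0 X0 u (rb :: (L₁ ++ L₂)) b0 Y0 yu be F)
    (hx : x ∈ verts (lN (ra :: W) a0 (rb :: (L₁ ++ L₂)) b0 be) F)
    (hxl : x ∉ lN (ra :: W) a0 (rb :: (L₁ ++ L₂)) b0 be)
    (hxy : AdjF F x (topv L₂ b0)) (hF : F = insert {rb.v, ra.v, x} (F₁ ∪ F₂))
    (hd : Disjoint F₁ F₂) (hn : ({rb.v, ra.v, x} : Finset V) ∉ F₁ ∪ F₂)
    (hM₁ : MC T Fs (x :: (rv L₂ ++ [b0])) (rv W ++ [a0]) be [] ra.v F₁)
    (hM₂ : MC T Fs [x] (rv L₁ ++ [topv L₂ b0]) [] [] rb.v F₂)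
    (hv : ∀ v, v ∈ verts (x :: (rv L₂ ++ [b0]) ++ be ++ (rv W ++ [a0]).reverse ++ [ra.v]) F₁ →
      v ∈ verts ([x] ++ (rv L₁ ++ [topv L₂ b0]).reverse ++ [rb.v]) F₂ →
      v = x ∨ v = topv L₂ b0) :
    ∃ Γ₁ U₁ D₁ D' rx h A' B' Bp Xx,
      MG2 G P T Fs J Ex Γ₁ U₁ D₁ rb.v rb.c Bp A Bp [] x Xx Xx L₁ (topv L₂ b0) (topc L₂ Y0)
        (topc L₂ Y0) [] F₂ ∧
      ∀ Γ₂ U₂, Step G Γ₁ U₁ D₁ (KSet J (lN [] x L₁ (topv L₂ b0) [] ++ [rb.v]) F₂ [] L₁) Γ₂ U₂ →
        (∀ v ∈ KSet J (lN [] x L₁ (topv L₂ b0) [] ++ [rb.v]) F₂ [] L₁, P v (Γ₂ v)) →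
        (∀ f ∈ F₂, Filled G Γ₂ (J f)) →
        (∀ f ∈ F₂, ∀ p ∈ f, ∀ q ∈ f, p ≠ q → Rz Ex Γ₂ p q) →
        MG1 G P T Fs J Ex Γ₂ U₂ D' ra.v ra.c h A' B' W a0 X0 u (rx :: L₂) b0 Y0 yu be F₁ ∧
        Prog G P J Ex Γ U D F (KSet J (lN (ra :: W) a0 (rb :: (L₁ ++ L₂)) b0 be) F (ra :: W)
            (rb :: (L₁ ++ L₂))) Γ₂ U₂ D' F₁
          (KSet J (lN W a0 (rx :: L₂) b0 be ++ [ra.v]) F₁ W (rx :: L₂)) ra.v ra.v ∧
        Rz Ex Γ₂ ra.v rb.v := by
  classical
  set y := topv L₂ b0 with hy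
  set Yj := topc L₂ Y0 with hYj
  set f0 : Finset V := {rb.v, ra.v, x} with hf0
  set lA := lN (ra :: W) a0 (rb :: (L₁ ++ L₂)) b0 be with hlA
  set l1 := x :: (rv L₂ ++ [b0]) ++ be ++ (rv W ++ [a0]).reverse ++ [ra.v] with hl1
  set l2 := lN [] x L₁ y [] ++ [rb.v] with hl2
  -- membership in the three lists
  have hmA : ∀ v, v ∈ lA ↔ v = rb.v ∨ v ∈ rv L₁ ∨ v ∈ rv L₂ ∨ v = b0 ∨ v ∈ be ∨ v ∈ rv W ∨
      v = a0 ∨ v = ra.v := by
    intro v
    simp only [hlA, lN, rv, List.map_cons, List.map_append, List.mem_append, List.mem_cons,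
      List.mem_reverse, List.not_mem_nil, or_false]
    (clear * -; tauto)
  have hm1 : ∀ v, v ∈ l1 ↔ v = x ∨ v ∈ rv L₂ ∨ v = b0 ∨ v ∈ be ∨ v ∈ rv W ∨
      v = a0 ∨ v = ra.v := by
    intro v
    simp only [hl1, List.mem_append, List.mem_cons, List.mem_reverse, List.not_mem_nil, or_false]
    (clear * -; tauto)
  have hm2 : ∀ v, v ∈ l2 ↔ v ∈ rv L₁ ∨ v = y ∨ v = x ∨ v = rb.v := by
    intro v
    simp only [hl2, lN, rv, List.map_nil, List.nil_append, List.mem_append, List.mem_cons,
      List.mem_reverse, List.not_mem_nil, or_false]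
    (clear * -; tauto)
  have hyL : y ∈ rv L₂ ∨ y = b0 := MachB4_topmem L₂ b0
  have hyA : y ∈ lA := by
    rw [hmA]
    (clear * - hyL; tauto)
  have hy1 : y ∈ l1 := by
    rw [hm1]
    (clear * - hyL; tauto)
  have hx1 : x ∈ l1 := (hm1 x).2 (Or.inl rfl)
  have hx2 : x ∈ l2 := (hm2 x).2 (Or.inr (Or.inr (Or.inl rfl)))
  have hy2 : y ∈ l2 := (hm2 y).2 (Or.inr (Or.inl rfl))
  have hv12 : ∀ v, v ∈ verts l1 F₁ → v ∈ verts l2 F₂ → v = x ∨ v = y := by
    intro v h1 h2
    refine hv v h1 ?_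
    have : verts l2 F₂ = verts ([x] ++ (rv L₁ ++ [y]).reverse ++ [rb.v]) F₂ := by
      apply CombA_verts
      intro w
      rw [hm2]
      simp only [List.mem_append, List.mem_cons, List.mem_reverse, List.not_mem_nil, or_false]
      (clear * -; tauto)
    rw [← this]
    exact h2
  -- the faces
  have hf0F : f0 ∈ F := by
    rw [hF]
    exact Finset.mem_insert_self _ _
  have hF₁ : F₁ ⊆ F := by
    rw [hF]
    exact fun f hf => Finset.mem_insert_of_mem (Finset.mem_union_left _ hf)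
  have hF₂ : F₂ ⊆ F := by
    rw [hF]
    exact fun f hf => Finset.mem_insert_of_mem (Finset.mem_union_right _ hf)
  have hregN : Reg T Fs lA F := hN.comb.reg
  have hFs : F ⊆ Fs := hregN.sub
  have hf01 : f0 ∉ F₁ := fun h => hn (Finset.mem_union_left _ h)
  have hf02 : f0 ∉ F₂ := fun h => hn (Finset.mem_union_right _ h)
  have hFcases : ∀ f ∈ F, f = f0 ∨ f ∈ F₁ ∨ f ∈ F₂ := by
    intro f hf
    rw [hF] at hf
    rcases Finset.mem_insert.1 hf with h | h
    · exact Or.inl h
    · exact Or.inr (Finset.mem_union.1 h)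
  have hbf : rb.v ∈ f0 := by simp [hf0]
  have haf : ra.v ∈ f0 := by simp [hf0]
  have hxf : x ∈ f0 := by simp [hf0]
  -- nodup
  have hnd0 : lA.Nodup := hregN.disc.nodup
  have hnd : (rv (ra :: W) ++ a0 :: (rv (rb :: (L₁ ++ L₂)) ++ [b0])).Nodup := by
    have h0 : ((rv (rb :: (L₁ ++ L₂)) ++ [b0]) ++ (rv (ra :: W) ++ [a0]).reverse).Nodup := by
      refine List.Nodup.sublist ?_ hnd0
      exact (List.sublist_append_left _ _).append_right _
    have h1 : (rv (ra :: W) ++ a0 :: (rv (rb :: (L₁ ++ L₂)) ++ [b0])) =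
        (rv (ra :: W) ++ [a0]) ++ (rv (rb :: (L₁ ++ L₂)) ++ [b0]) := by
      simp
    rw [h1]
    exact ((List.perm_append_comm.trans
      ((List.reverse_perm _).append_right _)).nodup_iff).1 h0
  have hrvL : rv (rb :: (L₁ ++ L₂)) = rb.v :: (rv L₁ ++ rv L₂) := by
    simp [rv]
  -- disjointness of parts of the list
  have hndL : (rb.v :: (rv L₁ ++ rv L₂) ++ [b0]).Nodup := by
    have h1 := (List.nodup_append.1 hnd).2.1
    rw [List.nodup_cons] at h1
    have h2 := h1.2
    rw [hrvL] at h2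
    exact h2
  have hL₁y : ∀ v ∈ rv L₁, v ≠ rb.v ∧ v ∉ rv L₂ ∧ v ≠ b0 := by
    intro v hv'
    have h1 : (rb.v :: (rv L₁ ++ (rv L₂ ++ [b0]))).Nodup := by
      have : rb.v :: (rv L₁ ++ (rv L₂ ++ [b0])) = rb.v :: (rv L₁ ++ rv L₂) ++ [b0] := by simp
      rw [this]
      exact hndL
    rw [List.nodup_cons, List.nodup_append] at h1
    obtain ⟨h2, _, _, h3⟩ := h1
    refine ⟨?_, ?_, ?_⟩
    · rintro rfl
      exact h2 (List.mem_append_left _ hv')
    · intro h4
      exact h3 v hv' v (List.mem_append_left _ h4) rfl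
    · exact h3 v hv' b0 (List.mem_append_right _ (List.mem_singleton_self _))
  have hndAB : ∀ v ∈ rv (ra :: W) ++ [a0], v ≠ rb.v ∧ v ∉ rv L₁ ∧ v ∉ rv L₂ ∧ v ≠ b0 := by
    intro v hv'
    have h1 : ((rv (ra :: W) ++ [a0]) ++ (rv (rb :: (L₁ ++ L₂)) ++ [b0])).Nodup := by
      have : (rv (ra :: W) ++ a0 :: (rv (rb :: (L₁ ++ L₂)) ++ [b0])) =
        (rv (ra :: W) ++ [a0]) ++ (rv (rb :: (L₁ ++ L₂)) ++ [b0]) := by simp
      rw [← this]
      exact hnd
    have h2 := (List.nodup_append.1 h1).2.2 v hv'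
    rw [hrvL] at h2
    refine ⟨h2 _ (by simp), ?_, ?_, h2 _ (by simp)⟩
    · intro h3
      exact h2 v (by simp [h3]) rfl
    · intro h3
      exact h2 v (by simp [h3]) rfl
  have hab' : ra.v ≠ rb.v := (hndAB ra.v (by simp [rv])).1
  have hxa' : x ≠ ra.v := by
    rintro h
    exact hxl ((hmA x).2 (by (clear * - h; tauto)))
  have hxb' : x ≠ rb.v := by
    rintro h
    exact hxl ((hmA x).2 (by (clear * - h; tauto)))
  -- own parts
  have hsub1 : ∀ v, v ∈ Own J l1 F₁ → v ∈ Own J lA F := by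
    intro v hv'
    refine MachB4_sub hF₁ ?_ hv'
    intro w hw hwA
    rcases (hmA w).1 hwA with h | h | h
    · have h2 : w ∈ verts l2 F₂ := DiscA_mem_verts_left ((hm2 w).2 (by (clear * - h; tauto)))
      rcases hv12 w hw h2 with h3 | h3
      · rw [h3]; exact hx1
      · rw [h3]; exact hy1
    · have h2 : w ∈ verts l2 F₂ := DiscA_mem_verts_left ((hm2 w).2 (by (clear * - h; tauto)))
      rcases hv12 w hw h2 with h3 | h3
      · rw [h3]; exact hx1
      · rw [h3]; exact hy1
    · exact (hm1 w).2 (Or.inr h)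
  have hsub2 : ∀ v, v ∈ Own J l2 F₂ → v ∈ Own J lA F := by
    intro v hv'
    refine MachB4_sub hF₂ ?_ hv'
    intro w hw hwA
    rcases (hmA w).1 hwA with h | h | h
    · exact (hm2 w).2 (by (clear * - h; tauto))
    · exact (hm2 w).2 (by (clear * - h; tauto))
    · have h2 : w ∈ verts l1 F₁ := DiscA_mem_verts_left ((hm1 w).2 (Or.inr h))
      rcases hv12 w h2 hw with h3 | h3
      · rw [h3]; exact hx2
      · rw [h3]; exact hy2
  have hnA : ∀ v, v ∈ lA → v ∉ Own J lA F := fun v hv' => hregN.notMem_Own hc hv'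
  have hxO : x ∈ Own J lA F := Or.inl ⟨hx, hxl⟩
  have hxO1 : x ∉ Own J l1 F₁ := MachB4_face hc (hF₁.trans hFs) (hFs hf0F) hxf hx1
  have hxO2 : x ∉ Own J l2 F₂ := MachB4_face hc (hF₂.trans hFs) (hFs hf0F) hxf hx2
  have hJ0A : ∀ v, v ∈ J f0 → v ∈ Own J lA F := fun v hv' => Or.inr ⟨f0, hf0F, hv'⟩
  have hJ01 : ∀ v, v ∈ J f0 → v ∉ Own J l1 F₁ := fun v hv' =>
    MachB4_content hc (hF₁.trans hFs) (hFs hf0F) hf01 hv'
  have hJ02 : ∀ v, v ∈ J f0 → v ∉ Own J l2 F₂ := fun v hv' =>
    MachB4_content hc (hF₂.trans hFs) (hFs hf0F) hf02 hv'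
  have hJ0x : ∀ v, v ∈ J f0 → v ≠ x := by
    rintro v hv' rfl
    exact MachB4_sep hc (hFs hf0F) (hFs hf0F) hv' hxf
  have hO12 : ∀ v, v ∈ Own J l1 F₁ → v ∉ Own J l2 F₂ := by
    intro v hv'
    refine Own.disj hc (hF₁.trans hFs) (hF₂.trans hFs) hd ?_ hv'
    intro w h1 h2
    rcases hv12 w h1 h2 with h3 | h3
    · rw [h3]; exact ⟨hx1, hx2⟩
    · rw [h3]; exact ⟨hy1, hy2⟩
  -- the geometric step
  have hs := hN.side
  have hlist : ∀ v, v ∈ rv (ra :: W) ++ a0 :: (rv (rb :: (L₁ ++ L₂)) ++ [b0]) → v ∈ lA := by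
    intro v hv'
    rw [hrvL] at hv'
    rw [hmA]
    simp only [rv, List.map_cons, List.mem_append, List.mem_cons, List.not_mem_nil,
      or_false] at hv' ⊢
    (clear * - hv'; tauto)
  have hadj : ∀ u ∈ f0, ∀ v ∈ f0, u ≠ v → G.Adj u v := hc.adj f0 (hFs hf0F)
  obtain ⟨hxyne, g, hgF, hxg, hyg⟩ := hxy
  obtain ⟨Γ₁, U₁, rx, A', B', h, Bp, Xx, xh, hrx, hrxpl, hrxt, hst, hfill, hPa, hPb, hOab, hOxa,
    hOxb, hOxy, hXx, hxhA, hsolo, hMS2, hMS1⟩ := tStep (J := J f0) (x := x) hN.wd hN.adm hN.geo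
    hs.pl hnd (hs.und x hxO) (fun h0 => hxl (hlist x h0)) (hs.hP x hxO)
    (hadj _ haf _ hbf hab') (hadj _ hxf _ haf hxa') (hadj _ hxf _ hbf hxb')
    (hc.adj g (hFs hgF) _ hxg _ hyg hxyne)
    (by
      intro v hv'
      refine ⟨hs.und v (hJ0A v hv'), ?_⟩
      intro h0
      rcases List.mem_cons.1 h0 with h1 | h1
      · exact hJ0x v hv' h1
      · exact hnA v (hlist v h1) (hJ0A v hv'))
    (hc.fill f0 (hFs hf0F))
  set D₁ := D ⊓ (nl U₁ ⊔ reg Xx Yj) with hD₁
  have hD₁D : D₁ ≤ D := inf_le_left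
  have hadm1 : Adm U₁ D₁ := by
    intro o l z hz
    exact ⟨hN.adm.mono hst.sub o l hz, Or.inl hz⟩
  -- undrawn vertices after the first step
  have hund1 : ∀ v, v ∈ Own J lA F → v ≠ x → v ∉ J f0 → Undrawn Γ₁ v := by
    intro v hv' hvx hvJ o l z hz
    rcases hst.grow.new v o l z hz with h1 | ⟨h1, _⟩
    · exact hs.und v hv' o l z h1
    · rcases h1 with h1 | h1 | h1 | h1 | h1
      · exact hvx h1
      · exact hnA v ((hmA v).2 (by (clear * - h1; tauto))) hv'
      · exact hnA v ((hmA v).2 (by (clear * - h1; tauto))) hv'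
      · exact hvJ h1
      · exact hnA v ((hmA v).2 (by (clear * - h1; tauto))) hv'
  have hrLg : List.IsChain (Rz Ex Γ) (rb.v :: (rv L₁ ++ (rv L₂ ++ [b0]))) := by
    have h1 := hs.rL
    rw [hrvL] at h1
    have h2 : rb.v :: (rv L₁ ++ rv L₂) ++ [b0] = rb.v :: (rv L₁ ++ (rv L₂ ++ [b0])) := by simp
    rw [h2] at h1
    exact h1
  obtain ⟨t, ht⟩ := MachB4_top L₂ b0
  have hrLg1 : List.IsChain (Rz Ex Γ) (rb.v :: (rv L₁ ++ [y])) := by
    have h1 := hrLg
    rw [ht] at h1
    have h2 : rb.v :: (rv L₁ ++ topv L₂ b0 :: t) = (rb.v :: (rv L₁ ++ [y])) ++ t := by simp [hy]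
    rw [h2] at h1
    exact h1.left_of_append
  have hrLg2 : List.IsChain (Rz Ex Γ) (rv L₂ ++ [b0]) := by
    have h2 : rb.v :: (rv L₁ ++ (rv L₂ ++ [b0])) = (rb.v :: rv L₁) ++ (rv L₂ ++ [b0]) := by simp
    rw [h2] at hrLg
    exact hrLg.right_of_append
  have hrW' : List.IsChain (Rz Ex Γ) (ra.v :: (rv W ++ [a0])) := hs.rW
  refine ⟨Γ₁, U₁, D₁, D \ seg false Yj Xx xh, rx, h, A', B', Bp, Xx, ?_, ?_⟩
  · -- the sub-state
    refine ⟨hadm1, hst.wd, hMS2, hM₂, ⟨?_, ?_, ?_, ?_, ?_, ?_, ?_, ?_, ?_⟩, ?_, ?_⟩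
    · intro v hv' w hw
      exact absurd hw List.not_mem_nil
    · intro h0
      exact absurd rfl h0
    · intro v hv'
      exact hund1 v (hsub2 v hv') (fun h0 => hxO2 (h0 ▸ hv')) (fun h0 => hJ02 v h0 hv')
    · intro v hv'
      exact hs.hP v (hsub2 v hv')
    · intro r hr
      exact hs.pl r (List.mem_cons_of_mem _ (List.mem_append_left _ hr))
    · exact List.isChain_singleton _
    · exact Rz.chain_mono hst.grow hrLg1.tail
    · intro _
      exact Or.inr hOxy
    · intro h0
      exact absurd rfl h0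
    · exact Or.inr (Ov.symm hOxb)
    · exact Rz.mono hst.grow (MachB4_topR hrLg1)
  · -- the main state
    intro Γ₂ U₂ hst2 hPK hfill2 hreal2
    set K₂ := KSet J l2 F₂ [] L₁ with hK₂
    have hK₂mem : ∀ v, v ∈ K₂ ↔ v ∈ Own J l2 F₂ ∨ v ∈ rv L₁ := by
      intro v
      show (v ∈ Own J l2 F₂ ∨ v ∈ rv [] ∨ v ∈ rv L₁) ↔ _
      constructor
      · rintro (h0 | h0 | h0)
        · exact Or.inl h0
        · exact absurd h0 List.not_mem_nil
        · exact Or.inr h0
      · rintro (h0 | h0)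
        · exact Or.inl h0
        · exact Or.inr (Or.inr h0)
    have hK₂A : ∀ v, v ∈ lA → v ∉ rv L₁ → v ∉ K₂ := by
      intro v h0 h1 h2
      rcases (hK₂mem v).1 h2 with h3 | h3
      · exact hnA v h0 (hsub2 v h3)
      · exact h1 h3
    have hxK₂ : x ∉ K₂ := by
      intro h2
      rcases (hK₂mem x).1 h2 with h3 | h3
      · exact hxO2 h3
      · exact hxl ((hmA x).2 (by (clear * - h3; tauto)))
    have haK₂ : ra.v ∉ K₂ := hK₂A _ ((hmA _).2 (by (clear * -; tauto))) (hndAB ra.v (by simp [rv])).2.1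
    have hbK₂ : rb.v ∉ K₂ := hK₂A _ ((hmA _).2 (by (clear * -; tauto))) (fun h0 => (hL₁y _ h0).1 rfl)
    have hJK₂ : ∀ v ∈ J f0, v ∉ K₂ := by
      intro v hv' h2
      rcases (hK₂mem v).1 h2 with h3 | h3
      · exact hJ02 v hv' h3
      · exact hnA v ((hmA v).2 (by (clear * - h3; tauto))) (hJ0A v hv')
    have hWK₂ : ∀ v ∈ rv W, v ∉ K₂ := by
      intro v hv'
      refine hK₂A v ((hmA v).2 (by (clear * - hv'; tauto))) ?_
      exact (hndAB v (by
        simp only [rv, List.map_cons, List.mem_append, List.mem_cons] at hv' ⊢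
        (clear * - hv'; tauto))).2.1
    have hLK₂ : ∀ v ∈ rv L₂, v ∉ K₂ := by
      intro v hv'
      refine hK₂A v ((hmA v).2 (by (clear * - hv'; tauto))) ?_
      intro h0
      exact (hL₁y v h0).2.1 hv'
    have hMS := hMS1 Γ₂ U₂ K₂ hst2 hWK₂ hLK₂ hxK₂
    have hstA : Step G Γ U D (KSet J lA F (ra :: W) (rb :: (L₁ ++ L₂))) Γ₁ U₁ := by
      refine hst.weaken le_rfl ?_
      rintro v (h1 | h1 | h1 | h1 | h1)
      · rw [h1]
        exact Or.inl hxO
      · rw [h1]
        exact Or.inr (Or.inl List.mem_cons_self)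
      · rw [h1]
        exact Or.inr (Or.inr List.mem_cons_self)
      · exact Or.inl (hJ0A v h1)
      · refine Or.inr (Or.inr ?_)
        rw [hrvL]
        exact List.mem_cons_of_mem _ (List.mem_append_right _ h1)
    have hstB : Step G Γ₁ U₁ D (KSet J lA F (ra :: W) (rb :: (L₁ ++ L₂))) Γ₂ U₂ := by
      refine hst2.weaken hD₁D ?_
      intro v hv'
      rcases (hK₂mem v).1 hv' with h3 | h3
      · exact Or.inl (hsub2 v h3)
      · refine Or.inr (Or.inr ?_)
        rw [hrvL]
        exact List.mem_cons_of_mem _ (List.mem_append_left _ h3)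
    have hstAB := hstA.trans hstB
    have hl1' : lN W a0 (rx :: L₂) b0 be ++ [ra.v] = l1 := by
      simp [lN, rv, hl1, hrx]
    have hYU : Yj ∈ U₁ false := hsolo.mem (v := x) (Or.inl rfl) hst.wd.lines hXx
    have hadm2 : Adm U₂ (D \ seg false Yj Xx xh) := by
      intro o l z hz
      refine ⟨hN.adm.mono hstAB.sub o l hz, ?_⟩
      rintro ⟨h1, h2, _⟩
      rw [h1, h2] at hz
      exact hz (hst2.sub false hYU)
    have hD' : D \ seg false Yj Xx xh ≤ D := sdiff_le
    have hund2 : ∀ v, v ∈ Own J l1 F₁ → Undrawn Γ₂ v := by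
      intro v hv' o l z hz
      rcases hst2.grow.new v o l z hz with h1 | ⟨h1, _⟩
      · exact hund1 v (hsub1 v hv') (fun h0 => hxO1 (h0 ▸ hv')) (fun h0 => hJ01 v h0 hv') o l z h1
      · rcases (hK₂mem v).1 h1 with h3 | h3
        · exact hO12 v hv' h3
        · exact hnA v ((hmA v).2 (by (clear * - h3; tauto))) (hsub1 v hv')
    have hAA' : A ≤ A' := by
      have h1 : A < ra.g := hN.geo.ordW.1
      have h2 : ra.g < ra.c := hN.geo.ordW.2.1
      have h3 := hMS.hz
      have h4 := hMS.hA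
      exact (h1.trans (h2.trans (h3.trans_le h4))).le
    have hgAB : Grow Γ Γ₂ D (KSet J lA F (ra :: W) (rb :: (L₁ ++ L₂))) := hstAB.grow
    refine ⟨?_, ?_, Or.inr (Ov.mono hst2.grow hOab)⟩
    · refine ⟨hadm2, hst2.wd, hMS, ?_, ?_, ?_, ?_⟩
      · have : rv (rx :: L₂) ++ [b0] = x :: (rv L₂ ++ [b0]) := by simp [rv, hrx]
        rw [this]
        exact hM₁
      · rw [hl1']
        refine ⟨?_, ?_, hund2, ?_, ?_, ?_, ?_, ?_, ?_⟩
        · intro v hv' w hw h0
          exact hs.av v (List.mem_cons_of_mem _ hv') w hw (CombA_adj_mono hF₁ h0)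
        · intro hb h0
          exact hs.base hb (CombA_adj_mono hF₁ h0)
        · intro v hv'
          exact hs.hP v (hsub1 v hv')
        · intro r hr
          rcases List.mem_cons.1 hr with h1 | h1
          · rw [h1]
            exact hrxpl
          · exact hs.pl r (List.mem_cons_of_mem _ (List.mem_append_right _ h1))
        · exact Rz.chain_mono hgAB hrW'.tail
        · have h1 : rv (rx :: L₂) ++ [b0] = x :: (rv L₂ ++ [b0]) := by simp [rv, hrx]
          rw [h1, ht]
          have h2 := Rz.chain_mono hgAB hrLg2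
          rw [ht] at h2
          exact List.IsChain.cons_cons (Or.inr (Ov.mono hst2.grow hOxy)) h2
        · intro hb
          exact Rz.mono hgAB (hs.rB hb)
        · intro hb _
          have hlk := hs.lk hb (List.cons_ne_nil _ _)
          have htch : TCh (rx :: L₂) Y0 := ⟨hrxt.ge, MachB4_tch (L₁ := rb :: L₁) hlk.tch⟩
          cases hL₂ : L₂ with
          | nil =>
            refine ⟨hL₂ ▸ htch, Xx, xh, hXx, hxhA, ?_, ?_⟩
            · have h1 : Solo Γ₂ {x, y} false Yj Xx xh := by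
                refine hsolo.grow hst2.grow ?_
                intro z hz1 hz2 hz3
                rcases hz3.2 with h4 | h4
                · exact h4 hYU
                · have h5 : z ≤ Xx ∧ Yj ≤ Yj := h4
                  exact absurd h5.1 (not_le.2 hz1)
              rw [hy, hYj, hL₂] at h1
              show Solo Γ₂ {rx.v, b0} false Y0 Xx xh
              rw [hrx]
              exact h1
            · intro z hz1 hz2 hz3
              apply hz3.2
              rw [hYj, hL₂]
              refine ⟨rfl, rfl, ?_, ?_⟩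
              · rw [min_eq_left hXx.le]
                exact hz1
              · rw [max_eq_right hXx.le]
                exact hz2
          | cons r L =>
            have hlk2 : Link Γ D A (rx :: L₂) b0 Y0 := by
              refine ⟨htch, ?_⟩
              have h2 := hlk.zone
              rw [hL₂] at h2 ⊢
              have e1 : lastv (rb :: (L₁ ++ r :: L)) b0 = lastv L r.v :=
                MachB4_last (rb :: L₁) r L b0
              rw [e1] at h2
              exact h2
            have := hlk2.grow hgAB hD' hAA'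
            rw [hL₂] at this
            exact this
      · exact Rz.mono hgAB (MachB4_topR hrW')
      · show Rz Ex Γ₂ ra.v rx.v
        rw [hrx]
        exact Or.inr (Ov.mono hst2.grow (Ov.symm hOxa))
    · rw [hl1']
      have hK1 : ∀ v, v ∈ KSet J l1 F₁ W (rx :: L₂) ↔
          v ∈ Own J l1 F₁ ∨ v ∈ rv W ∨ v = x ∨ v ∈ rv L₂ := by
        intro v
        show (v ∈ Own J l1 F₁ ∨ v ∈ rv W ∨ v ∈ rv (rx :: L₂)) ↔ _
        have : rv (rx :: L₂) = x :: rv L₂ := by simp [rv, hrx]
        rw [this, List.mem_cons]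
      refine ⟨hstAB, hD', hadm2, hF₁, ?_, ?_, ?_, ?_, ?_⟩
      · -- hK
        intro v hv'
        rcases (hK1 v).1 hv' with h1 | h1 | h1 | h1
        · exact Or.inl (hsub1 v h1)
        · exact Or.inr (Or.inl (List.mem_cons_of_mem _ h1))
        · rw [h1]
          exact Or.inl hxO
        · refine Or.inr (Or.inr ?_)
          rw [hrvL]
          exact List.mem_cons_of_mem _ (List.mem_append_right _ h1)
      · -- fin
        intro v hv' hvn
        have hvn' : v ∉ Own J l1 F₁ ∧ v ∉ rv W ∧ v ≠ x ∧ v ∉ rv L₂ := by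
          have := fun h0 => hvn ((hK1 v).2 h0)
          (clear * - this; tauto)
        obtain ⟨hn1, hn2, hn3, hn4⟩ := hvn'
        have hK₂P : v ∈ K₂ → P v (Γ₂ v) := hPK v
        rcases hv' with h1 | h1 | h1
        · have h1c := h1
          rcases h1 with ⟨h2, h3⟩ | ⟨f, hf, hvf⟩
          · rcases Finset.mem_union.1 h2 with h4 | h4
            · exact absurd (List.mem_toFinset.1 h4) h3
            · obtain ⟨f, hf, hvf⟩ := Finset.mem_biUnion.1 h4
              have hvf : v ∈ f := hvf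
              rcases hFcases f hf with h5 | h5 | h5
              · rw [h5] at hvf
                simp only [hf0, Finset.mem_insert, Finset.mem_singleton] at hvf
                rcases hvf with h6 | h6 | h6
                · exact absurd ((hmA v).2 (by (clear * - h6; tauto))) h3
                · exact absurd ((hmA v).2 (by (clear * - h6; tauto))) h3
                · exact absurd h6 hn3
              · have h6 : v ∈ l1 := by
                  by_contra h7
                  exact hn1 (Or.inl ⟨DiscA_mem_verts_right h5 hvf, h7⟩)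
                rcases (hm1 v).1 h6 with h7 | h7
                · exact absurd h7 hn3
                · exact absurd ((hmA v).2 (Or.inr (Or.inr h7))) h3
              · by_cases h6 : v ∈ l2
                · rcases (hm2 v).1 h6 with h7 | h7 | h7 | h7
                  · exact absurd ((hmA v).2 (by (clear * - h7; tauto))) h3
                  · rw [h7] at h3
                    exact absurd hyA h3
                  · exact absurd h7 hn3
                  · exact absurd ((hmA v).2 (by (clear * - h7; tauto))) h3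
                · exact hK₂P ((hK₂mem v).2 (Or.inl (Or.inl ⟨DiscA_mem_verts_right h5 hvf, h6⟩)))
          · rcases hFcases f hf with h5 | h5 | h5
            · rw [h5] at hvf
              have h6 := hfill v hvf
              rw [hst2.grow.eq (hJK₂ v hvf)]
              exact hs.hP v h1c _ h6.1
            · exact absurd (Or.inr ⟨f, h5, hvf⟩) hn1
            · exact hK₂P ((hK₂mem v).2 (Or.inl (Or.inr ⟨f, h5, hvf⟩)))
        · rcases List.mem_cons.1 h1 with h2 | h2
          · rw [h2, hst2.grow.eq haK₂]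
            exact hPa
          · exact absurd h2 hn2
        · rw [hrvL] at h1
          rcases List.mem_cons.1 h1 with h2 | h2
          · rw [h2, hst2.grow.eq hbK₂]
            exact hPb
          · rcases List.mem_append.1 h2 with h3 | h3
            · exact hK₂P ((hK₂mem v).2 (Or.inr h3))
            · exact absurd h3 hn4
      · -- filled
        intro f hf hfn
        rcases hFcases f hf with h5 | h5 | h5
        · rw [h5]
          exact Filled.mono hst2.grow hfill hJK₂
        · exact absurd h5 hfn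
        · exact hfill2 f h5
      · -- sepf
        intro f hf hfn v hvf hvK
        rcases (hK1 v).1 hvK with h1 | h1 | h1 | h1
        · exact MachB4_content hc (hF₁.trans hFs) (hFs hf) hfn hvf h1
        · exact hnA v ((hmA v).2 (by (clear * - h1; tauto))) (Or.inr ⟨f, hf, hvf⟩)
        · rw [h1] at hvf
          exact MachB4_sep hc (hFs hf) (hFs hf0F) hvf hxf
        · exact hnA v ((hmA v).2 (by (clear * - h1; tauto))) (Or.inr ⟨f, hf, hvf⟩)
      · -- real
        intro f hf hfn p hp q hq hpq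
        rcases hFcases f hf with h5 | h5 | h5
        · left
          rw [h5] at hp hq
          simp only [hf0, Finset.mem_insert, Finset.mem_singleton] at hp hq
          have e1 : Rz Ex Γ₂ ra.v rb.v := Or.inr (Ov.mono hst2.grow hOab)
          have e2 : Rz Ex Γ₂ x ra.v := Or.inr (Ov.mono hst2.grow hOxa)
          have e3 : Rz Ex Γ₂ x rb.v := Or.inr (Ov.mono hst2.grow hOxb)
          rcases hp with hp | hp | hp <;> rcases hq with hq | hq | hq <;> rw [hp, hq]
          · exact absurd (hp.trans hq.symm) hpq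
          · exact Rz.symm hE e1
          · exact Rz.symm hE e3
          · exact e1
          · exact absurd (hp.trans hq.symm) hpq
          · exact Rz.symm hE e2
          · exact e3
          · exact e2
          · exact absurd (hp.trans hq.symm) hpq
        · exact absurd h5 hfn
        · exact Or.inl (hreal2 f h5 p hp q hq hpq)

end EPG26
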