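import Pool.Agent.W_26e041_h61.MachB1
import Pool.Agent.W_26e041_h61.MachB2
import Pool.Agent.W_26e041_h61.MachB3
import Pool.Agent.W_26e041_h61.MachB4

/-!
The run of the machine.
-/

namespace EPG26

variable {V : Type*} [DecidableEq V]

/-- the final state of a run: no pending white vertices, and no pending black vertices if
`be = []` -/
def Final (G : SimpleGraph V) (P : V → Cov → Prop) (T : Finset V) (Fs : Finset (Finset V))
    (J : Finset V → Finset V) (Ex : V → V → Prop) (Γ : Dr V) (U : Bool → Finset ℚ) (D : Cov)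
    (a0 : V) (X0 u : ℚ) (b0 : V) (Y0 yu : ℚ) (be : List V) (F : Finset (Finset V)) (K : Set V)
    (Q : Dr V → List (Rec V) → Prop) : Prop :=
  ∃ Γ' U' D' A' B' L' F',
    Prog G P J Ex Γ U D F K Γ' U' D' F' (KSet J (lN [] a0 L' b0 be) F' [] L') a0 (topv L' b0) ∧
    NG G P T Fs J Ex Γ' U' D' A' B' [] a0 X0 u L' b0 Y0 yu be F' ∧ (be = [] → L' = []) ∧ Q Γ' L'

/-- progress followed by a final run -/
theorem MachC_trans {G : SimpleGraph V} {P : V → Cov → Prop} {T : Finset V}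
    {Fs : Finset (Finset V)} {J : Finset V → Finset V} {Ex : V → V → Prop}
    (hE : ∀ u v, Ex u v → Ex v u) {Γ Γ₁ : Dr V} {U U₁ : Bool → Finset ℚ} {D D₁ : Cov} {a0 : V}
    {X0 u : ℚ} {b0 : V} {Y0 yu : ℚ} {be : List V} {F F₁ : Finset (Finset V)} {K K₁ : Set V}
    {p q : V} {Q₁ Q₂ : Dr V → List (Rec V) → Prop}
    (h₁ : Prog G P J Ex Γ U D F K Γ₁ U₁ D₁ F₁ K₁ p q)
    (h₂ : Final G P T Fs J Ex Γ₁ U₁ D₁ a0 X0 u b0 Y0 yu be F₁ K₁ Q₁)
    (hpq : ∀ Γ₂ L₂, Grow Γ₁ Γ₂ D₁ K₁ → Q₁ Γ₂ L₂ →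
      p = q ∨ Rz Ex Γ₂ p q ∨ (p = a0 ∧ q = topv L₂ b0))
    (hQ : ∀ Γ₂ L₂, Grow Γ₁ Γ₂ D₁ K₁ → Q₁ Γ₂ L₂ → Q₂ Γ₂ L₂) :
    Final G P T Fs J Ex Γ U D a0 X0 u b0 Y0 yu be F K Q₂ := by
  obtain ⟨Γ', U', D', A', B', L', F', hp, hn, hl, hq⟩ := h₂
  exact ⟨Γ', U', D', A', B', L', F', h₁.trans hE hp (hpq Γ' L' hp.step.grow hq), hn, hl,
    hQ Γ' L' hp.step.grow hq⟩

/-- no progress is a progress -/
theorem MachC_refl {G : SimpleGraph V} {P : V → Cov → Prop} {J : Finset V → Finset V}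
    {Ex : V → V → Prop} {Γ : Dr V} {U : Bool → Finset ℚ} {D : Cov} (hw : Wd G Γ U)
    (ha : Adm U D) (F : Finset (Finset V)) (K : Set V) (p q : V) :
    Prog G P J Ex Γ U D F K Γ U D F K p q :=
  ⟨Step.refl hw D K, le_rfl, ha, Finset.Subset.refl F, Set.Subset.refl K,
    fun _ hv hv' => absurd hv hv', fun _ hf hf' => absurd hf hf',
    fun _ hf hf' => absurd hf hf', fun _ hf hf' => absurd hf hf'⟩

/-- a final state with `be = []` is an edge -/
theorem MachC_close {G : SimpleGraph V} {P : V → Cov → Prop} {T : Finset V}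
    {Fs : Finset (Finset V)} {J : Finset V → Finset V} {Ex : V → V → Prop}
    (hE : ∀ u v, Ex u v → Ex v u) {Γ : Dr V} {U : Bool → Finset ℚ} {D : Cov} {a0 : V}
    {X0 u : ℚ} {b0 : V} {Y0 yu : ℚ} {F : Finset (Finset V)} {K : Set V}
    {Q : Dr V → List (Rec V) → Prop}
    (h : Final G P T Fs J Ex Γ U D a0 X0 u b0 Y0 yu [] F K Q) :
    ∃ Γ' U', Step G Γ U D K Γ' U' ∧ (∀ v ∈ K, P v (Γ' v)) ∧ (∀ f ∈ F, Filled G Γ' (J f)) ∧
      ∀ f ∈ F, ∀ p ∈ f, ∀ q ∈ f, p ≠ q → Rz Ex Γ' p q := by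
  obtain ⟨Γ', U', D', A', B', L', F', hp, hn, hl, -⟩ := h
  have hL : L' = [] := hl rfl
  subst hL
  have hd : Disc [b0, a0] F' := by
    have h1 := hn.comb.reg.disc
    simpa [rv] using h1
  have hF' : F' = ∅ := hd.empty_of_two
  subst hF'
  have hK : ∀ v, v ∉ KSet J (lN [] a0 [] b0 []) (∅ : Finset (Finset V)) [] [] := by
    intro v hv
    rcases hv with (⟨h1, h2⟩ | ⟨f, hf, -⟩) | h1 | h1
    · simp only [verts, Finset.biUnion_empty, Finset.union_empty, List.mem_toFinset] at h1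
      exact h2 h1
    · exact absurd hf (Finset.notMem_empty f)
    · simp [rv] at h1
    · simp [rv] at h1
  refine ⟨Γ', U', hp.step, fun v hv => hp.fin v hv (hK v),
    fun f hf => hp.filled f hf (Finset.notMem_empty f), ?_⟩
  intro f hf p hpf q hqf hpq
  have hB : Rz Ex Γ' a0 b0 := hn.side.rB rfl
  rcases hp.real f hf (Finset.notMem_empty f) p hpf q hqf hpq with h1 | ⟨h1, h2⟩ | ⟨h1, h2⟩
  · exact h1
  · have h3 : q = b0 := h2
    rw [h1, h3]
    exact hB
  · have h3 : p = b0 := h1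
    rw [h2, h3]
    exact hB.symm hE

/-- splitting a list of black vertices -/
theorem MachC_split {L : List (Rec V)} {b0 : V} {L₁v L₂v : List V} {y : V}
    (h : rv L ++ [b0] = L₁v ++ y :: L₂v) :
    ∃ L₁ L₂, L = L₁ ++ L₂ ∧ rv L₁ = L₁v ∧ y = topv L₂ b0 ∧ y :: L₂v = rv L₂ ++ [b0] := by
  induction L₁v generalizing L with
  | nil =>
    refine ⟨[], L, rfl, rfl, ?_, h.symm⟩
    cases L with
    | nil =>
      have h1 : b0 :: [] = y :: L₂v := h
      exact (List.cons.inj h1).1.symm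
    | cons r L =>
      have h1 : r.v :: (rv L ++ [b0]) = y :: L₂v := h
      exact (List.cons.inj h1).1.symm
  | cons a L₁v ih =>
    cases L with
    | nil =>
      have h1 : b0 :: [] = a :: (L₁v ++ y :: L₂v) := h
      have h2 := (List.cons.inj h1).2
      simp at h2
    | cons r L =>
      have h1 : r.v :: (rv L ++ [b0]) = a :: (L₁v ++ y :: L₂v) := h
      obtain ⟨h2, h3⟩ := List.cons.inj h1
      obtain ⟨L₁, L₂, g1, g2, g3, g4⟩ := ih h3
      refine ⟨r :: L₁, L₂, by rw [g1]; rfl, ?_, g3, g4⟩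
      show r.v :: rv L₁ = a :: L₁v
      rw [h2, g2]

/-- Strong induction on `n`.
M-states: `MG1.next`, `MG2.next`, then the induction hypothesis and `Prog.trans`. After a pop the
missing pair is `topv W a0, topv L b0`; the N-part of the induction hypothesis says that it is
realized or that the state was already final (then it is the missing pair of the final state).
N-states: if `W = []` and (`be ≠ []` or `L = []`) the state is final (`Prog` reflexive). If `W = []`,
`be = []`, `L = rb :: L'`: `NC.payB0` and `NG.payB` (the missing pair `a0, rb.v` is realized by it). If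
`W = ra :: W'` use `NC.rules` (`rv L ++ [b0] = b :: _`; `hbe` from `Side.av`): `NG.payA`; or `NG.payB`
(`L ≠ []` because `bl ≠ []`); or `NG.stepT`: write `rv L ++ [b0] = rb.v :: (L₁v ++ y :: L₂v)` as
`L = rb :: (L₁ ++ L₂)`, `y = topv L₂ b0`, `y :: L₂v = rv L₂ ++ [b0]`; run the sub-state (closed: `be = []`, so the
final region is an edge, `F' = ∅`, the set `KSet` is empty, the missing pair is the base pair, realized
by `Side.rB`), then the main state. The measure is `2 * F.card + 1` for N-states and `2 * F.card` for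
M-states. -/
theorem run {G : SimpleGraph V} {P : V → Cov → Prop} {T : Finset V} {Fs : Finset (Finset V)}
    {J : Finset V → Finset V} {Ex : V → V → Prop} (hc : Ctx G T Fs J)
    (hE : ∀ u v, Ex u v → Ex v u) : ∀ n : ℕ,
    (∀ Γ U D A B W a0 X0 u L b0 Y0 yu be F, 2 * F.card + 1 ≤ n →
      NG G P T Fs J Ex Γ U D A B W a0 X0 u L b0 Y0 yu be F →
      Final G P T Fs J Ex Γ U D a0 X0 u b0 Y0 yu be F (KSet J (lN W a0 L b0 be) F W L)
        (fun Γ' L' => Rz Ex Γ' (topv W a0) (topv L b0) ∨ (W = [] ∧ L' = L))) ∧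
    (∀ Γ U D z Xz h A B W a0 X0 u L b0 Y0 yu be F, 2 * F.card ≤ n →
      MG1 G P T Fs J Ex Γ U D z Xz h A B W a0 X0 u L b0 Y0 yu be F →
      Final G P T Fs J Ex Γ U D a0 X0 u b0 Y0 yu be F
        (KSet J (lN W a0 L b0 be ++ [z]) F W L) (fun _ _ => True)) ∧
    (∀ Γ U D z Yz h A B W a0 X0 u L b0 Y0 yu be F, 2 * F.card ≤ n →
      MG2 G P T Fs J Ex Γ U D z Yz h A B W a0 X0 u L b0 Y0 yu be F →
      Final G P T Fs J Ex Γ U D a0 X0 u b0 Y0 yu be F
        (KSet J (lN W a0 L b0 be ++ [z]) F W L) (fun _ _ => True)) := by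
  intro n
  induction n with
  | zero =>
    refine ⟨?_, ?_, ?_⟩
    · intro Γ U D A B W a0 X0 u L b0 Y0 yu be F hn
      omega
    · intro Γ U D z Xz h A B W a0 X0 u L b0 Y0 yu be F hn hM
      obtain ⟨Γ', U', D', F', hcard, -⟩ := MG1.next hc hE hM
      omega
    · intro Γ U D z Xz h A B W a0 X0 u L b0 Y0 yu be F hn hM
      obtain ⟨Γ', U', D', F', hcard, -⟩ := MG2.next hc hE hM
      omega
  | succ n ih =>
    obtain ⟨ihN, ihM1, ihM2⟩ := ih
    refine ⟨?_, ?_, ?_⟩
    · intro Γ U D A B W a0 X0 u L b0 Y0 yu be F hn hN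
      cases W with
      | nil =>
        by_cases hcase : be = [] ∧ L ≠ []
        · obtain ⟨hbe, hL⟩ := hcase
          subst hbe
          cases L with
          | nil => exact absurd rfl hL
          | cons rb L =>
            have hcomb : NC T Fs (rb.v :: (rv L ++ [b0])) [a0] [] F := hN.comb
            have hMC : MC T Fs (rv ([] : List (Rec V)) ++ [a0]) (rv L ++ [b0]) ([] : List V).reverse
                [] rb.v F := NC.payB0 hcomb (by simp)
            obtain ⟨Γ', U', h, hp, hM, hov⟩ := NG.payB hc hE hN hMC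
            refine MachC_trans hE hp (ihM2 _ _ _ _ _ _ _ _ _ _ _ _ _ _ _ _ _ _ (by omega) hM)
              (fun _ _ _ _ => Or.inl rfl) ?_
            intro Γ₂ L₂ hg _
            left
            exact Rz.symm hE (Rz.mono hg (Or.inr hov))
        · refine ⟨Γ, U, D, A, B, L, F, MachC_refl hN.wd hN.adm F _ _ _, hN, ?_, Or.inr ⟨rfl, rfl⟩⟩
          intro hbe
          by_contra hL
          exact hcase ⟨hbe, hL⟩
      | cons ra W =>
        have hbe : ∀ v ∈ be, ¬ AdjF F ra.v v :=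
          fun v hv => hN.side.av ra.v (by simp [rv]) v hv
        have hwl : rv W ++ [a0] ≠ [] := by simp
        -- the first white vertex is paid
        have hpayA : MC T Fs (rv L ++ [b0]) (rv W ++ [a0]) be [] ra.v F →
            Final G P T Fs J Ex Γ U D a0 X0 u b0 Y0 yu be F
              (KSet J (lN (ra :: W) a0 L b0 be) F (ra :: W) L)
              (fun Γ' L' => Rz Ex Γ' (topv (ra :: W) a0) (topv L b0) ∨
                (ra :: W = [] ∧ L' = L)) := by
          intro hMC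
          obtain ⟨Γ', U', h, hp, hM, hov⟩ := NG.payA hc hE hN hMC
          refine MachC_trans hE hp (ihM1 _ _ _ _ _ _ _ _ _ _ _ _ _ _ _ _ _ _ (by omega) hM)
            (fun _ _ _ _ => Or.inl rfl) ?_
          intro Γ₂ L₂ hg _
          left
          exact Rz.mono hg (Or.inr hov)
        cases L with
        | nil =>
          have hcomb : NC T Fs (b0 :: []) (ra.v :: (rv W ++ [a0])) be F := hN.comb
          rcases NC.rules hc hcomb hwl hbe with h1 | ⟨h1, -⟩ | ⟨x, L₁, y, L₂, F₁, F₂, -, -, h1, -⟩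
          · exact hpayA h1
          · exact absurd rfl h1
          · simp at h1
        | cons rb L =>
          have hcomb : NC T Fs (rb.v :: (rv L ++ [b0])) (ra.v :: (rv W ++ [a0])) be F := hN.comb
          rcases NC.rules hc hcomb hwl hbe with h1 | ⟨-, h1⟩ |
            ⟨x, L₁v, y, L₂v, F₁, F₂, hx, hxl, hbl, hxy, hF, hd, hnm, hM₁, hM₂, hv⟩
          · exact hpayA h1
          · obtain ⟨Γ', U', h, hp, hM, hov⟩ := NG.payB hc hE hN h1
            refine MachC_trans hE hp (ihM2 _ _ _ _ _ _ _ _ _ _ _ _ _ _ _ _ _ _ (by omega) hM)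
              (fun _ _ _ _ => Or.inl rfl) ?_
            intro Γ₂ L₂ hg _
            left
            exact Rz.symm hE (Rz.mono hg (Or.inr hov))
          · obtain ⟨L₁, L₂, g1, g2, g3, g4⟩ := MachC_split hbl
            subst g1
            subst g2
            subst g3
            have hcard : (F₁ ∪ F₂).card < F.card := by
              rw [hF, Finset.card_insert_of_notMem hnm]
              omega
            have hc1 : F₁.card < F.card :=
              lt_of_le_of_lt (Finset.card_le_card Finset.subset_union_left) hcard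
            have hc2 : F₂.card < F.card :=
              lt_of_le_of_lt (Finset.card_le_card Finset.subset_union_right) hcard
            rw [g4] at hM₁ hv
            obtain ⟨Γ₁, U₁, D₁, D', rx, h, A', B', Bp, Xx, hsub, hmain⟩ :=
              NG.stepT hc hE hN hx hxl hxy hF hd hnm hM₁ hM₂ hv
            obtain ⟨Γ₂, U₂, k1, k2, k3, k4⟩ := MachC_close hE
              (ihM2 _ _ _ _ _ _ _ _ _ _ _ _ _ _ _ _ _ _ (by omega) hsub)
            obtain ⟨hM, hp, hrz⟩ := hmain Γ₂ U₂ k1 k2 k3 k4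
            refine MachC_trans hE hp (ihM1 _ _ _ _ _ _ _ _ _ _ _ _ _ _ _ _ _ _ (by omega) hM)
              (fun _ _ _ _ => Or.inl rfl) ?_
            intro Γ₃ L₃ hg _
            left
            exact Rz.mono hg hrz
    · intro Γ U D z Xz h A B W a0 X0 u L b0 Y0 yu be F hn hM
      obtain ⟨Γ', U', D', F', hcard, hcase⟩ := MG1.next hc hE hM
      rcases hcase with ⟨B', hp, hN⟩ | ⟨r, h', A', B', hp, hM'⟩
      · refine MachC_trans hE hp (ihN _ _ _ _ _ _ _ _ _ _ _ _ _ _ _ (by omega) hN) ?_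
          (fun _ _ _ _ => trivial)
        intro Γ₂ L₂ _ hq
        rcases hq with hq | ⟨hW, hL⟩
        · exact Or.inr (Or.inl hq)
        · right; right
          rw [hW, hL]
          exact ⟨rfl, rfl⟩
      · exact MachC_trans hE hp (ihM1 _ _ _ _ _ _ _ _ _ _ _ _ _ _ _ _ _ _ (by omega) hM')
          (fun _ _ _ _ => Or.inl rfl) (fun _ _ _ _ => trivial)
    · intro Γ U D z Xz h A B W a0 X0 u L b0 Y0 yu be F hn hM
      obtain ⟨Γ', U', D', F', hcard, hcase⟩ := MG2.next hc hE hM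
      rcases hcase with ⟨B', hp, hN⟩ | ⟨r, h', A', B', hp, hM'⟩
      · refine MachC_trans hE hp (ihN _ _ _ _ _ _ _ _ _ _ _ _ _ _ _ (by omega) hN) ?_
          (fun _ _ _ _ => trivial)
        intro Γ₂ L₂ _ hq
        rcases hq with hq | ⟨hW, hL⟩
        · exact Or.inr (Or.inl hq)
        · right; right
          rw [hW, hL]
          exact ⟨rfl, rfl⟩
      · exact MachC_trans hE hp (ihM2 _ _ _ _ _ _ _ _ _ _ _ _ _ _ _ _ _ _ (by omega) hM')
          (fun _ _ _ _ => Or.inl rfl) (fun _ _ _ _ => trivial)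

/-- all faces and vertices of a region are finished -/
def Closed (G : SimpleGraph V) (P : V → Cov → Prop) (J : Finset V → Finset V)
    (Ex : V → V → Prop) (Γ : Dr V) (U : Bool → Finset ℚ) (D : Cov) (F : Finset (Finset V))
    (K : Set V) : Prop :=
  ∃ Γ' U', Step G Γ U D K Γ' U' ∧ (∀ v ∈ K, P v (Γ' v)) ∧ (∀ f ∈ F, Filled G Γ' (J f)) ∧
    ∀ f ∈ F, ∀ p ∈ f, ∀ q ∈ f, p ≠ q → Rz Ex Γ' p q

/-- `run` with `be = []`: the final region is an edge. -/
theorem closedN {G : SimpleGraph V} {P : V → Cov → Prop} {T : Finset V}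
    {Fs : Finset (Finset V)} {J : Finset V → Finset V} {Ex : V → V → Prop}
    (hc : Ctx G T Fs J) (hE : ∀ u v, Ex u v → Ex v u) {Γ : Dr V} {U : Bool → Finset ℚ}
    {D : Cov} {A B : ℚ} {W : List (Rec V)} {a0 : V} {X0 u : ℚ} {L : List (Rec V)} {b0 : V}
    {Y0 yu : ℚ} {F : Finset (Finset V)}
    (h : NG G P T Fs J Ex Γ U D A B W a0 X0 u L b0 Y0 yu [] F) :
    Closed G P J Ex Γ U D F (KSet J (lN W a0 L b0 []) F W L) := by
  exact MachC_close hE ((run hc hE (2 * F.card + 1)).1 _ _ _ _ _ _ _ _ _ _ _ _ _ _ _ le_rfl h)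

theorem closedM1 {G : SimpleGraph V} {P : V → Cov → Prop} {T : Finset V}
    {Fs : Finset (Finset V)} {J : Finset V → Finset V} {Ex : V → V → Prop}
    (hc : Ctx G T Fs J) (hE : ∀ u v, Ex u v → Ex v u) {Γ : Dr V} {U : Bool → Finset ℚ}
    {D : Cov} {z : V} {Xz h A B : ℚ} {W : List (Rec V)} {a0 : V} {X0 u : ℚ}
    {L : List (Rec V)} {b0 : V} {Y0 yu : ℚ} {F : Finset (Finset V)}
    (hM : MG1 G P T Fs J Ex Γ U D z Xz h A B W a0 X0 u L b0 Y0 yu [] F) :
    Closed G P J Ex Γ U D F (KSet J (lN W a0 L b0 [] ++ [z]) F W L) := by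
  exact MachC_close hE
    ((run hc hE (2 * F.card)).2.1 _ _ _ _ _ _ _ _ _ _ _ _ _ _ _ _ _ _ le_rfl hM)

theorem closedM2 {G : SimpleGraph V} {P : V → Cov → Prop} {T : Finset V}
    {Fs : Finset (Finset V)} {J : Finset V → Finset V} {Ex : V → V → Prop}
    (hc : Ctx G T Fs J) (hE : ∀ u v, Ex u v → Ex v u) {Γ : Dr V} {U : Bool → Finset ℚ}
    {D : Cov} {z : V} {Yz h A B : ℚ} {W : List (Rec V)} {a0 : V} {X0 u : ℚ}
    {L : List (Rec V)} {b0 : V} {Y0 yu : ℚ} {F : Finset (Finset V)}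
    (hM : MG2 G P T Fs J Ex Γ U D z Yz h A B W a0 X0 u L b0 Y0 yu [] F) :
    Closed G P J Ex Γ U D F (KSet J (lN W a0 L b0 [] ++ [z]) F W L) := by
  exact MachC_close hE
    ((run hc hE (2 * F.card)).2.2 _ _ _ _ _ _ _ _ _ _ _ _ _ _ _ _ _ _ le_rfl hM)

end EPG26
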