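import Pool.Agent.W_26e041_h61.CanA
import Pool.Agent.W_26e041_h61.Fat
import Pool.Agent.W_26e041_h61.MachC

/-!
From nodes to contexts.
-/

namespace EPG26

variable {V : Type*} [DecidableEq V]

/-- the pairs of vertices of `T` are exempt -/
def ExT (T : Finset V) (u v : V) : Prop := u ∈ T ∧ v ∈ T

/-- Routine: `Ctx.sep` from `Node.sep`, since `g ⊆ verts [x, y, z] F` for `g ∈ F`. -/
theorem Node.ctx {G : SimpleGraph V} {x y z : V} {F : Finset (Finset V)}
    {J : Finset V → Finset V} (h : Node G x y z F J)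
    (hns : ∀ u v w, AdjF F u v → AdjF F v w → AdjF F u w →
      ({u, v, w} : Finset V) = {x, y, z} ∨ ({u, v, w} : Finset V) ∈ F)
    (hf : ∀ f ∈ F, FillT G f (J f)) : Ctx G {x, y, z} F J := by
  refine ⟨h.adj, h.disj, ?_, hns, hf⟩
  intro f hf g hg
  rw [Finset.disjoint_left]
  intro a ha ha'
  exact Finset.disjoint_left.1 (h.sep f hf) ha (DiscA_mem_verts_right hg ha')

/-- If all inner vertices of the node are paths, the faces are filled and all pairs of adjacent
vertices in faces, except pairs of outer vertices, overlap, then the content of the outer triangle is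
filled (`Node.closed`). -/
theorem Node.filled {G : SimpleGraph V} {x y z : V} {F : Finset (Finset V)}
    {J : Finset V → Finset V} (h : Node G x y z F J) {Γ : Dr V}
    (h1 : ∀ v ∈ verts [x, y, z] F, v ∉ ({x, y, z} : Finset V) → IsPath3 (Γ v))
    (h2 : ∀ f ∈ F, Filled G Γ (J f))
    (h3 : ∀ f ∈ F, ∀ p ∈ f, ∀ q ∈ f, p ≠ q → Rz (ExT {x, y, z}) Γ p q) :
    Filled G Γ (inside x y z F J) := by
  intro v hv
  rcases Finset.mem_union.1 hv with hv | hv
  · obtain ⟨hv1, hv2⟩ := Finset.mem_sdiff.1 hv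
    refine ⟨h1 v hv1 hv2, fun w hw => ?_⟩
    rcases h.closed v hv1 hv2 w hw with ⟨hne, f, hf, hvf, hwf⟩ | ⟨f, hf, hvf, hwf⟩
    · rcases h3 f hf v hvf w hwf hne with h4 | h4
      · exact absurd h4.1 hv2
      · exact h4
    · exact ((h2 f hf w hwf).2 v hw.symm).symm
  · obtain ⟨f, hf, hvf⟩ := Finset.mem_biUnion.1 hv
    exact h2 f hf v hvf

/-- Corner sockets. Let `T = {s, r, t}`. `MG1` with `z = s`, `Xz = Xs`, `h = A` where `Xs < A < u`, no
pending vertices, white base `t` (`X0 = Xt`, `u`), black base `r` (`Y0 = Yr`, `yu`), `be = []`,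
`P = PI`-like (`fun _ C => IsPath3 C`), `Ex = ExT T`, allowed set
`D = nl U ⊔ (seg true Xs B Yr ⊔ seg false Yr Xs u ⊔ seg true Xt B yu)`, and the region of all faces
(`Disc [r, t, s] F` by `Node.perm`). `closedM1` and `Node.filled`. -/
theorem Node.canC {G : SimpleGraph V} {x y z : V} {F : Finset (Finset V)}
    {J : Finset V → Finset V} (h : Node G x y z F J) (hc : Ctx G {x, y, z} F J) :
    CanC G {x, y, z} (inside x y z F J) := by
  intro Γ U s r t Xs Yr Xt B u yu hT hw hund hs hr ht h1 h2 h3 h4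
  have hT' : ({x, y, z} : Finset V) = {r, t, s} := by
    rw [hT]
    ext a
    simp only [Finset.mem_insert, Finset.mem_singleton]
    tauto
  have h' := h.perm hT'
  have hv : verts [r, t, s] F = verts [x, y, z] F := by
    refine CombA_verts fun v => ?_
    have h5 : v ∈ ({r, t, s} : Finset V) ↔ v ∈ ({x, y, z} : Finset V) := by rw [hT']
    simpa using h5
  have hm : ∀ v, v ∈ [r, t, s] ↔ v ∈ ({x, y, z} : Finset V) := by
    intro v
    rw [hT']
    simp
  have hOwn : ∀ v ∈ Own J [r, t, s] F, v ∈ inside x y z F J := by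
    rintro v (⟨h5, h6⟩ | ⟨f, hf, hvf⟩)
    · rw [hv] at h5
      exact Finset.mem_union_left _ (Finset.mem_sdiff.2 ⟨h5, fun h7 => h6 ((hm v).2 h7)⟩)
    · exact Finset.mem_union_right _ (Finset.mem_biUnion.2 ⟨f, hf, hvf⟩)
  obtain ⟨A, hA1, hA2⟩ := exists_between h3
  have hE : ∀ p q, ExT {x, y, z} p q → ExT {x, y, z} q p := fun p q h5 => ⟨h5.2, h5.1⟩
  have hsT : s ∈ ({x, y, z} : Finset V) := by rw [hT]; simp
  have hrT : r ∈ ({x, y, z} : Finset V) := by rw [hT]; simp
  have htT : t ∈ ({x, y, z} : Finset V) := by rw [hT]; simp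
  have hBY : B ≤ Yr := h1.le.trans h2
  have hM : MG1 G (fun _ C => IsPath3 C) {x, y, z} F J (ExT {x, y, z}) Γ U
      (nl U ⊔ (seg true Xs B Yr ⊔ seg false Yr Xs u ⊔ seg true Xt B yu)) s Xs A A B [] t Xt u []
      r Yr yu [] F := by
    refine ⟨le_sup_left, hw, ⟨⟨hA2, h1, h4, h2, fun r' hr' => absurd hr' List.not_mem_nil,
      fun r' hr' => absurd hr' List.not_mem_nil, ?_, ?_⟩, hA1, le_rfl, ?_, ?_⟩, ⟨⟨h'.disc,
      Finset.Subset.refl _, ?_⟩, ?_, ?_, ?_, ?_⟩, ⟨?_, fun h5 => absurd rfl h5, ?_,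
      fun _ _ C hC => hC, fun r' hr' => absurd hr' List.not_mem_nil, List.isChain_singleton _,
      List.isChain_singleton _, fun _ => Or.inl ⟨htT, hrT⟩, fun h5 => absurd rfl h5⟩,
      Or.inl ⟨hsT, htT⟩, Or.inl ⟨hsT, hrT⟩⟩
    · intro a ha hb
      refine ⟨Or.inr (Or.inr ⟨rfl, rfl, ?_, ?_⟩), ht a ha hb⟩
      · rw [min_eq_left h1.le]
        exact ha
      · rw [max_eq_right h1.le]
        exact hb
    · intro a ha hb
      refine ⟨Or.inr (Or.inl (Or.inr ⟨rfl, rfl, ?_, ?_⟩)), hr a (hA1.trans ha) hb⟩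
      · rw [min_eq_left h3.le]
        exact hA1.trans ha
      · rw [max_eq_right h3.le]
        exact hb
    · intro a ha hb
      refine ⟨Or.inr (Or.inl (Or.inl ⟨rfl, rfl, ?_, ?_⟩)), hs a ha hb⟩
      · rw [min_eq_left hBY]
        exact ha
      · rw [max_eq_right hBY]
        exact hb
    · intro a ha hb
      refine ⟨Or.inr (Or.inl (Or.inr ⟨rfl, rfl, ?_, ?_⟩)), hr a ha (hb.trans hA2)⟩
      · rw [min_eq_left h3.le]
        exact ha
      · rw [max_eq_right h3.le]
        exact hb.trans hA2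
    · intro v _ hvl
      exact ⟨fun h5 => hvl ((hm v).2 h5), fun f hf _ => hf⟩
    · intro p a b q c r' hl
      have := congrArg List.length hl
      simp only [rv, List.map_nil, List.nil_append, List.length_cons, List.length_append,
        List.length_nil] at this
      omega
    · intro p a b q c r' hl
      have := congrArg List.length hl
      simp only [rv, List.map_nil, List.nil_append, List.length_cons, List.length_append,
        List.length_nil] at this
      omega
    · intro v hv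
      exact absurd hv (by simp [rv])
    · intro c _ _ _ v hv
      exact absurd hv (by simp [rv])
    · intro v hv
      exact absurd hv (by simp [rv])
    · exact fun v hv => hund v (hOwn v hv)
  obtain ⟨Γ', U', g1, g2, g3, g4⟩ := closedM1 hc hE hM
  refine ⟨Γ', U', g1.weaken le_rfl ?_, h.filled ?_ g3 g4⟩
  · rintro v (h5 | h5 | h5)
    · exact hOwn v h5
    · exact absurd h5 (by simp [rv])
    · exact absurd h5 (by simp [rv])
  · intro v hv1 hv2
    rw [← hv] at hv1
    exact g2 v (Or.inl (Or.inl ⟨hv1, fun h5 => hv2 ((hm v).1 h5)⟩))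

end EPG26
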