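import Pool.Agent.W_26e041_h61.K4B
import Pool.Agent.W_26e041_h61.NodeA

/-!
Nodes with one inner vertex.
-/

namespace EPG26

variable {V : Type*} [DecidableEq V]

/-- the faces `F` of the triangle `T` are the three faces at one inner vertex -/
def IsK4 (T : Finset V) (F : Finset (Finset V)) : Prop :=
  ∃ y, y ∉ T ∧ ∀ u v x, T = {u, v, x} → F = {{u, v, y}, {u, x, y}, {v, x, y}}

theorem K4C_ne {x y z u v w : V} {F : Finset (Finset V)} (hd : Disc [x, y, z] F)
    (hT : ({x, y, z} : Finset V) = {u, v, w}) : u ≠ v ∧ u ≠ w ∧ v ≠ w := by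
  have hc := Fat_tri_card hd
  rw [hT] at hc
  refine ⟨?_, ?_, ?_⟩
  · rintro rfl
    rw [Finset.insert_eq_of_mem (Finset.mem_insert_self _ _)] at hc
    have := Finset.card_le_two (a := u) (b := w)
    omega
  · rintro rfl
    rw [Finset.insert_eq_of_mem (by simp)] at hc
    have := Finset.card_le_two (a := v) (b := u)
    omega
  · rintro rfl
    rw [Finset.pair_eq_singleton] at hc
    have := Finset.card_le_two (a := u) (b := v)
    omega

theorem K4C_data {G : SimpleGraph V} {x y z : V} {F : Finset (Finset V)}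
    {J : Finset V → Finset V} (h : Node G x y z F J) (hc : Ctx G {x, y, z} F J) {q u v w : V}
    (hy : q ∉ ({x, y, z} : Finset V)) (hT : ({x, y, z} : Finset V) = {u, v, w})
    (hF : F = {{u, v, q}, {u, w, q}, {v, w, q}}) :
    K4D G u v w q (J {u, v, q}) (J {u, w, q}) (J {v, w, q}) := by
  obtain ⟨huv, huw, hvw⟩ := K4C_ne h.disc hT
  have hy' := hy
  rw [hT] at hy'
  have hqu : q ≠ u := fun e => hy' (by rw [e]; simp)
  have hqv : q ≠ v := fun e => hy' (by rw [e]; simp)
  have hqw : q ≠ w := fun e => hy' (by rw [e]; simp)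
  have fa : ({u, v, q} : Finset V) ∈ F := by rw [hF]; simp
  have fb : ({u, w, q} : Finset V) ∈ F := by rw [hF]; simp
  have fc : ({v, w, q} : Finset V) ∈ F := by rw [hF]; simp
  have nab : ({u, v, q} : Finset V) ≠ {u, w, q} := fun e => by
    have : v ∈ ({u, w, q} : Finset V) := by rw [← e]; simp
    simp only [Finset.mem_insert, Finset.mem_singleton] at this
    rcases this with e | e | e
    · exact huv e.symm
    · exact hvw e
    · exact hqv e.symm
  have nac : ({u, v, q} : Finset V) ≠ {v, w, q} := fun e => by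
    have : u ∈ ({v, w, q} : Finset V) := by rw [← e]; simp
    simp only [Finset.mem_insert, Finset.mem_singleton] at this
    rcases this with e | e | e
    · exact huv e
    · exact huw e
    · exact hqu e.symm
  have nbc : ({u, w, q} : Finset V) ≠ {v, w, q} := fun e => by
    have : u ∈ ({v, w, q} : Finset V) := by rw [← e]; simp
    simp only [Finset.mem_insert, Finset.mem_singleton] at this
    rcases this with e | e | e
    · exact huv e
    · exact huw e
    · exact hqu e.symm
  have hout : ∀ f ∈ F, ∀ g ∈ F, ∀ p ∈ g, p ∉ J f := fun f hf g hg p hp hpf =>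
    Finset.disjoint_left.1 (h.sep f hf) hpf (DiscA_mem_verts_right hg hp)
  refine ⟨huv, huw, hvw, ?_, ?_, ?_, hc.fill _ fa, hc.fill _ fb, hc.fill _ fc,
    h.disj _ fa _ fb nab, h.disj _ fa _ fc nac, h.disj _ fb _ fc nbc, ?_, ?_, ?_, ?_⟩
  · exact h.adj _ fa q (by simp) u (by simp) hqu
  · exact h.adj _ fa q (by simp) v (by simp) hqv
  · exact h.adj _ fb q (by simp) w (by simp) hqw
  · exact ⟨hout _ fa _ fa u (by simp), hout _ fb _ fa u (by simp), hout _ fc _ fa u (by simp)⟩
  · exact ⟨hout _ fa _ fa v (by simp), hout _ fb _ fa v (by simp), hout _ fc _ fa v (by simp)⟩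
  · exact ⟨hout _ fa _ fb w (by simp), hout _ fb _ fb w (by simp), hout _ fc _ fb w (by simp)⟩
  · exact ⟨hout _ fa _ fb q (by simp), hout _ fb _ fb q (by simp), hout _ fc _ fb q (by simp)⟩

theorem K4C_verts {x y z q u v w : V} {F : Finset (Finset V)}
    (hT : ({x, y, z} : Finset V) = {u, v, w})
    (hF : F = {{u, v, q}, {u, w, q}, {v, w, q}}) {p : V} (hp : p ∈ verts [x, y, z] F) :
    p ∈ ({x, y, z} : Finset V) ∨ p = q := by
  rw [verts, Finset.mem_union] at hp
  rcases hp with hp | hp
  · left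
    simpa using hp
  · rw [Finset.mem_biUnion] at hp
    obtain ⟨f, hf, hpf⟩ := hp
    rw [hT]
    simp only [id] at hpf
    rw [hF] at hf
    simp only [Finset.mem_insert, Finset.mem_singleton] at hf
    rcases hf with rfl | rfl | rfl
    all_goals
      simp only [Finset.mem_insert, Finset.mem_singleton] at hpf ⊢
      tauto

theorem K4C_done {G : SimpleGraph V} {x y z : V} {F : Finset (Finset V)}
    {J : Finset V → Finset V} (h : Node G x y z F J) {q u v w : V}
    (hy : q ∉ ({x, y, z} : Finset V)) (hT : ({x, y, z} : Finset V) = {u, v, w})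
    (hF : F = {{u, v, q}, {u, w, q}, {v, w, q}}) {Γ : Dr V} {U : Bool → Finset ℚ} {D : Cov}
    (hd : K4Done G Γ U D u v w q (J {u, v, q}) (J {u, w, q}) (J {v, w, q})) :
    CanFill G Γ U D (inside x y z F J) := by
  obtain ⟨Γ', U', hst, hp, ha, hb, hc, ou, ov, ow⟩ := hd
  have hsym : ∀ a b, Ov Γ' a b → Ov Γ' b a := fun a b ⟨o, l, t, h1, h2⟩ => ⟨o, l, t, h2, h1⟩
  have hK : ({p | p = q ∨ p ∈ J {u, v, q} ∨ p ∈ J {u, w, q} ∨ p ∈ J {v, w, q}} : Set V) ⊆
      ↑(inside x y z F J) := by
    rintro p (rfl | hp | hp | hp)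
    · refine Finset.mem_coe.2 (Finset.mem_union_left _ (Finset.mem_sdiff.2 ⟨?_, hy⟩))
      exact DiscA_mem_verts_right (f := {u, v, p}) (by rw [hF]; simp) (by simp)
    · exact Finset.mem_coe.2 (Finset.mem_union_right _ (Finset.mem_biUnion.2
        ⟨_, by rw [hF]; simp, hp⟩))
    · exact Finset.mem_coe.2 (Finset.mem_union_right _ (Finset.mem_biUnion.2
        ⟨_, by rw [hF]; simp, hp⟩))
    · exact Finset.mem_coe.2 (Finset.mem_union_right _ (Finset.mem_biUnion.2
        ⟨_, by rw [hF]; simp, hp⟩))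
  refine ⟨Γ', U', ⟨hst.sub, hst.wd, ⟨hst.grow.mono, ?_⟩⟩, ?_⟩
  · intro p o l t ht
    rcases hst.grow.new p o l t ht with h1 | ⟨h1, h2⟩
    · exact Or.inl h1
    · exact Or.inr ⟨hK h1, h2⟩
  · refine h.filled ?_ ?_ ?_
    · intro p hp1 hp2
      rcases K4C_verts hT hF hp1 with h1 | h1
      · exact absurd h1 hp2
      · rw [h1]; exact hp
    · intro f hf
      rw [hF] at hf
      simp only [Finset.mem_insert, Finset.mem_singleton] at hf
      rcases hf with rfl | rfl | rfl
      · exact ha
      · exact hb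
      · exact hc
    · intro f hf p hpf r hrf hpr
      have hp1 := K4C_verts hT hF (DiscA_mem_verts_right hf hpf : p ∈ verts [x, y, z] F)
      have hr1 := K4C_verts hT hF (DiscA_mem_verts_right hf hrf : r ∈ verts [x, y, z] F)
      have key : ∀ a, a ∈ ({x, y, z} : Finset V) → Ov Γ' q a := by
        intro a ha
        rw [hT] at ha
        simp only [Finset.mem_insert, Finset.mem_singleton] at ha
        rcases ha with rfl | rfl | rfl
        · exact ou
        · exact ov
        · exact ow
      rcases hp1 with hp1 | rfl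
      · rcases hr1 with hr1 | rfl
        · exact Or.inl ⟨hp1, hr1⟩
        · exact Or.inr (hsym _ _ (key _ hp1))
      · rcases hr1 with hr1 | rfl
        · exact Or.inr (key _ hr1)
        · exact absurd rfl hpr

/-- `k4W`, `k4O` and `Node.filled`: the only inner vertex is `y`. -/
theorem Node.canK4 {G : SimpleGraph V} {x y z : V} {F : Finset (Finset V)}
    {J : Finset V → Finset V} (h : Node G x y z F J) (hc : Ctx G {x, y, z} F J)
    (hk : IsK4 {x, y, z} F) :
    CanW G {x, y, z} (inside x y z F J) ∧ CanO G {x, y, z} (inside x y z F J) := by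
  obtain ⟨q, hq, hk⟩ := hk
  have hun : ∀ {u v w : V} {Γ : Dr V}, ({x, y, z} : Finset V) = {u, v, w} →
      (∀ v ∈ inside x y z F J, Undrawn Γ v) →
      ∀ p, p = q ∨ p ∈ J {u, v, q} ∨ p ∈ J {u, w, q} ∨ p ∈ J {v, w, q} → Undrawn Γ p := by
    intro u v w Γ hT hu p hp
    have hF := hk u v w hT
    apply hu
    rcases hp with rfl | hp | hp | hp
    · refine Finset.mem_union_left _ (Finset.mem_sdiff.2 ⟨?_, hq⟩)
      exact DiscA_mem_verts_right (f := {u, v, p}) (by rw [hF]; simp) (by simp)
    · exact Finset.mem_union_right _ (Finset.mem_biUnion.2 ⟨_, by rw [hF]; simp, hp⟩)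
    · exact Finset.mem_union_right _ (Finset.mem_biUnion.2 ⟨_, by rw [hF]; simp, hp⟩)
    · exact Finset.mem_union_right _ (Finset.mem_biUnion.2 ⟨_, by rw [hF]; simp, hp⟩)
  constructor
  · intro Γ U u v w Yu Yv I0 I1 X J0 J1 R C0 C1 hT hw hu hS hC hz hR
    have hF := hk u v w hT
    exact K4C_done h hq hT hF
      (k4W (K4C_data h hc hq hT hF) hw (hun hT hu) hS hC hz hR)
  · intro Γ U u v w Yu Yv I0 I1 X J0 J1 X2 C0 C1 hT hw hu hS hC hz hR hs
    have hF := hk u v w hT
    exact K4C_done h hq hT hF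
      (k4O (K4C_data h hc hq hT hF) hw (hun hT hu) hS hC hz hR hs)

end EPG26
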