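import Pool.Agent.W_26e041_h61.RegA
import Pool.Agent.W_26e041_h61.K4C

/-!
The combinatorial structure of a triangulated triangle without separating triangles and with more
than one inner vertex.
-/

namespace EPG26

variable {V : Type*} [DecidableEq V]

/-- the boundary of the inner region of a block -/
def blkBd (w e d : V) (al be fs : List V) : List V :=
  fs.reverse ++ [d] ++ be ++ [w] ++ al.reverse ++ [e]

/-- the faces at the outer vertices of a block -/
def blkF (o1 o2 q w e d : V) (al be fs : List V) : Finset (Finset V) :=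
  {({o1, o2, w} : Finset V), ({o1, q, e} : Finset V), ({o2, q, d} : Finset V)} ∪
    (fanF o1 (e :: al ++ [w]) ∪ fanF o2 (d :: be ++ [w]) ∪ fanF q (d :: fs ++ [e]))

/-- A block: outer vertices `o1, o2, q`, apices `w` (of `o1 o2`), `e` (of `o1 q`), `d` (of `o2 q`),
further neighbours `al` of `o1` (from `e` to `w`), `be` of `o2` (from `d` to `w`), `fs` of `q` (from `d` to
`e`); `F` are the faces without outer vertices. -/
structure Blk0 (T : Finset V) (Fs : Finset (Finset V)) (o1 o2 q w e d : V) (al be fs : List V)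
    (F : Finset (Finset V)) : Prop where
  hT : T = {o1, o2, q}
  hF : Fs = blkF o1 o2 q w e d al be fs ∪ F
  reg : Reg T Fs (blkBd w e d al be fs) F
  nd : (o1 :: o2 :: q :: blkBd w e d al be fs).Nodup
  out : ∀ v ∈ T, v ∉ verts (blkBd w e d al be fs) F
  chA : Chless F (e :: al ++ [w])
  chD : Chless F (d :: be ++ [w])
  chQ : Chless F (e :: fs.reverse ++ [d])

/-- a block with the right order of `o1` and `o2` -/
structure Blk (T : Finset V) (Fs : Finset (Finset V)) (o1 o2 q w e d : V) (al be fs : List V)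
    (F : Finset (Finset V)) : Prop extends Blk0 T Fs o1 o2 q w e d al be fs F where
  zb : ∀ v ∈ be, ¬ AdjF F e v

/-- `fanF` of a reversed list -/
theorem fanF_reverse (z : V) (l : List V) : fanF z l.reverse = fanF z l := by
  have key : ∀ l : List V, fanF z l ⊆ fanF z l.reverse := by
    intro l f hf
    obtain ⟨p, a, b, s, hl, hf⟩ := mem_fanF.1 hf
    refine mem_fanF.2 ⟨s.reverse, b, a, p.reverse, ?_, ?_⟩
    · rw [hl]
      simp
    · rw [hf]
      ext v
      simp only [Finset.mem_insert, Finset.mem_singleton]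
      tauto
  refine Finset.Subset.antisymm ?_ (key l)
  have := key l.reverse
  rwa [List.reverse_reverse] at this

theorem BlkA_fanF_append (z : V) (l : List V) (a b : V) :
    fanF z (l ++ [a, b]) = insert {z, a, b} (fanF z (l ++ [a])) := by
  induction l with
  | nil => simp [fanF]
  | cons x t ih =>
    cases t with
    | nil =>
      simp [fanF, Finset.pair_comm]
    | cons y t =>
      have h1 : fanF z (x :: y :: (t ++ [a, b])) = insert {z, x, y} (fanF z (y :: (t ++ [a, b]))) :=
        rfl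
      have h2 : fanF z (x :: y :: (t ++ [a])) = insert {z, x, y} (fanF z (y :: (t ++ [a]))) :=
        rfl
      show fanF z (x :: y :: (t ++ [a, b])) = insert _ (fanF z (x :: y :: (t ++ [a])))
      rw [h1, h2]
      have ih' : fanF z (y :: (t ++ [a, b])) = insert {z, a, b} (fanF z (y :: (t ++ [a]))) := ih
      rw [ih', Finset.insert_comm]

theorem BlkA_fan_mem {z : V} {l : List V} {f : Finset V} (hf : f ∈ fanF z l) {v : V}
    (hv : v ∈ f) : v = z ∨ v ∈ l := by
  obtain ⟨p, a, b, s, rfl, rfl⟩ := mem_fanF.1 hf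
  simp only [Finset.mem_insert, Finset.mem_singleton] at hv
  simp only [List.mem_append, List.mem_cons]
  tauto

theorem BlkA_fan_cov {z : V} {L : List V} {v : V} (hv : v ∈ L) (hL : 2 ≤ L.length) :
    ∃ f ∈ fanF z L, z ∈ f ∧ v ∈ f := by
  obtain ⟨p, s, rfl⟩ := List.append_of_mem hv
  cases s with
  | cons b s => exact ⟨{z, v, b}, mem_fanF.2 ⟨p, v, b, s, rfl, rfl⟩, by simp, by simp⟩
  | nil =>
    rcases List.eq_nil_or_concat p with rfl | ⟨p', b, rfl⟩
    · simp at hL
    · exact ⟨{z, b, v}, mem_fanF.2 ⟨p', b, v, [], by simp, rfl⟩, by simp, by simp⟩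

theorem BlkA_fan_last {z : V} {l : List V} {a b : V} (hz : b ≠ z) (hn : (l ++ [a, b]).Nodup)
    {f : Finset V} (hf : f ∈ fanF z (l ++ [a, b])) (hb : b ∈ f) : f = {z, a, b} := by
  rw [BlkA_fanF_append, Finset.mem_insert] at hf
  rcases hf with hf | hf
  · exact hf
  · exfalso
    rcases BlkA_fan_mem hf hb with h | h
    · exact hz h
    · rw [show l ++ [a, b] = (l ++ [a]) ++ [b] by simp, List.nodup_append] at hn
      exact hn.2.2 b h b (by simp) rfl

theorem BlkA_idx {L p t : List V} {a : V} (hn : L.Nodup) (h : L = p ++ a :: t) :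
    L.idxOf a = p.length := by
  subst h
  have : a ∉ p := by
    rw [List.nodup_append] at hn
    intro hp
    exact hn.2.2 a hp a (by simp) rfl
  rw [List.idxOf_append_of_notMem this, List.idxOf_cons_self, Nat.add_zero]

theorem BlkA_consec {L : List V} (hn : L.Nodup) {p q s p' s' : List V} {a b c a' b' : V}
    (h : L = p ++ a :: b :: (q ++ c :: s)) (h' : L = p' ++ a' :: b' :: s') :
    ¬ ((a' = a ∧ b' = c) ∨ (a' = c ∧ b' = a)) := by
  have h1 := BlkA_idx hn h
  have h2 := BlkA_idx (p := p ++ a :: b :: q) (a := c) (t := s) hn (by rw [h]; simp)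
  have h3 := BlkA_idx hn h'
  have h4 := BlkA_idx (p := p' ++ [a']) (a := b') (t := s') hn (by rw [h']; simp)
  simp only [List.length_append, List.length_cons, List.length_nil] at h2 h4
  rintro (⟨rfl, rfl⟩ | ⟨rfl, rfl⟩) <;> omega

theorem BlkA_chless {T : Finset V} {Fs F : Finset (Finset V)}
    (hns : ∀ u v w, AdjF Fs u v → AdjF Fs v w → AdjF Fs u w →
      ({u, v, w} : Finset V) = T ∨ ({u, v, w} : Finset V) ∈ Fs)
    {o : V} {L M p0 s0 : List V} (hnd : (o :: L).Nodup) (hM : L = p0 ++ (M ++ s0))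
    (hfan : ∀ f ∈ Fs, o ∈ f → f ∈ fanF o L) (hF : F ⊆ Fs) (hMT : ∀ a ∈ M, a ∉ T)
    (hadj : ∀ a ∈ M, AdjF Fs o a) : Chless F M := by
  intro p a b q c s hl hac
  have ha : a ∈ M := by
    rw [hl]
    simp
  have hc : c ∈ M := by
    rw [hl]
    simp
  have hne : a ≠ c := hac.1
  obtain ⟨hoL, hnL⟩ := List.nodup_cons.1 hnd
  rcases hns o a c (hadj a ha) (CombA_adj_mono hF hac) (hadj c hc) with h | h
  · exact hMT a ha (by rw [← h]; simp)
  · obtain ⟨p', a', b', s', h', he⟩ := mem_fanF.1 (hfan _ h (by simp))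
    have hao : a ≠ o := (hadj a ha).1.symm
    have hco : c ≠ o := (hadj c hc).1.symm
    have h1 : a ∈ ({o, a', b'} : Finset V) := by
      rw [← he]
      simp
    have h2 : c ∈ ({o, a', b'} : Finset V) := by
      rw [← he]
      simp
    simp only [Finset.mem_insert, Finset.mem_singleton] at h1 h2
    have h3 : L = (p0 ++ p) ++ a :: b :: (q ++ c :: (s ++ s0)) := by
      rw [hM, hl]
      simp
    apply BlkA_consec hnL h3 h'
    rcases h1 with h1 | h1 | h1
    · exact absurd h1 hao
    · rcases h2 with h2 | h2 | h2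
      · exact absurd h2 hco
      · exact absurd (h1.trans h2.symm) hne
      · exact Or.inl ⟨h1.symm, h2.symm⟩
    · rcases h2 with h2 | h2 | h2
      · exact absurd h2 hco
      · exact Or.inr ⟨h2.symm, h1.symm⟩
      · exact absurd (h1.trans h2.symm) hne

theorem BlkA_distinct {u v x : V} (h : ({u, v, x} : Finset V).card = 3) :
    u ≠ v ∧ u ≠ x ∧ v ≠ x := by
  refine ⟨?_, ?_, ?_⟩
  · rintro rfl
    have : ({u, u, x} : Finset V) = {u, x} := by simp
    rw [this] at h
    have := Finset.card_le_two (a := u) (b := x)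
    omega
  · rintro rfl
    have : ({u, v, u} : Finset V) = {u, v} := by
      ext t
      simp only [Finset.mem_insert, Finset.mem_singleton]
      tauto
    rw [this] at h
    have := Finset.card_le_two (a := u) (b := v)
    omega
  · rintro rfl
    have : ({u, v, v} : Finset V) = {u, v} := by simp
    rw [this] at h
    have := Finset.card_le_two (a := u) (b := v)
    omega

theorem BlkA_image {u v x : V} (w : V) (huv : u ≠ v) (hux : u ≠ x) (hvx : v ≠ x) :
    ({u, v, x} : Finset V).image (fun t => insert w (({u, v, x} : Finset V).erase t)) =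
      {{u, v, w}, {u, x, w}, {v, x, w}} := by
  have h1 : insert w (({u, v, x} : Finset V).erase u) = {v, x, w} := by
    ext t
    simp only [Finset.mem_insert, Finset.mem_erase, Finset.mem_singleton]
    constructor
    · tauto
    · rintro (rfl | rfl | rfl)
      · exact Or.inr ⟨huv.symm, by tauto⟩
      · exact Or.inr ⟨hux.symm, by tauto⟩
      · exact Or.inl rfl
  have h2 : insert w (({u, v, x} : Finset V).erase v) = {u, x, w} := by
    ext t
    simp only [Finset.mem_insert, Finset.mem_erase, Finset.mem_singleton]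
    constructor
    · tauto
    · rintro (rfl | rfl | rfl)
      · exact Or.inr ⟨huv, by tauto⟩
      · exact Or.inr ⟨hvx.symm, by tauto⟩
      · exact Or.inl rfl
  have h3 : insert w (({u, v, x} : Finset V).erase x) = {u, v, w} := by
    ext t
    simp only [Finset.mem_insert, Finset.mem_erase, Finset.mem_singleton]
    constructor
    · tauto
    · rintro (rfl | rfl | rfl)
      · exact Or.inr ⟨hux, by tauto⟩
      · exact Or.inr ⟨hvx, by tauto⟩
      · exact Or.inl rfl
  rw [Finset.image_insert, Finset.image_insert, Finset.image_singleton, h1, h2, h3]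
  ext f
  simp only [Finset.mem_insert, Finset.mem_singleton]
  tauto

theorem BlkA_isK4 {o1 o2 q w : V} {Fs : Finset (Finset V)} (h12 : o1 ≠ o2) (h1q : o1 ≠ q)
    (h2q : o2 ≠ q) (hw : w ∉ ({o1, o2, q} : Finset V))
    (hF : Fs = {{o1, o2, w}, {o1, q, w}, {o2, q, w}}) : IsK4 {o1, o2, q} Fs := by
  refine ⟨w, hw, fun u v x hT => ?_⟩
  have hc : ({o1, o2, q} : Finset V).card = 3 := by
    rw [Finset.card_insert_of_notMem (by simp [h12, h1q]), Finset.card_pair h2q]
  rw [← BlkA_image w h12 h1q h2q] at hF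
  rw [hT] at hF hc
  obtain ⟨h1, h2, h3⟩ := BlkA_distinct hc
  rw [hF, BlkA_image w h1 h2 h3]

theorem BlkA_mem_bd {w e d v : V} {al be fs : List V} :
    v ∈ blkBd w e d al be fs ↔ v = w ∨ v = e ∨ v = d ∨ v ∈ al ∨ v ∈ be ∨ v ∈ fs := by
  simp only [blkBd, List.mem_append, List.mem_reverse, List.mem_cons, List.not_mem_nil, or_false]
  tauto

theorem BlkA_nd {a b c : V} {M : List V} (hM : M.Nodup)
    (h : ∀ v ∈ M, v ≠ a ∧ v ≠ b ∧ v ≠ c) (hab : a ≠ b) (hac : a ≠ c) (hbc : b ≠ c) :
    (a :: ([b] ++ (M ++ [c]))).Nodup := by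
  rw [List.nodup_cons]
  refine ⟨?_, ?_⟩
  · simp only [List.mem_append, List.mem_cons, List.not_mem_nil, or_false]
    rintro (h1 | h1 | h1)
    · exact hab h1
    · exact (h a h1).1 rfl
    · exact hac h1
  · show (b :: (M ++ [c])).Nodup
    rw [List.nodup_cons]
    refine ⟨?_, ?_⟩
    · simp only [List.mem_append, List.mem_cons, List.not_mem_nil, or_false]
      rintro (h1 | h1)
      · exact (h b h1).2.1 rfl
      · exact hbc h1
    · rw [List.nodup_append]
      refine ⟨hM, by simp, ?_⟩
      intro x hx y hy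
      simp only [List.mem_cons, List.not_mem_nil, or_false] at hy
      rw [hy]
      exact (h x hx).2.2

theorem BlkA_main {Fs : Finset (Finset V)} {o1 o2 q : V} (hd : Disc [o2, q, o1] Fs)
    (hT : ({o1, o2, q} : Finset V) ∉ Fs)
    (hns : ∀ u v w, AdjF Fs u v → AdjF Fs v w → AdjF Fs u w →
      ({u, v, w} : Finset V) = {o1, o2, q} ∨ ({u, v, w} : Finset V) ∈ Fs) :
    IsK4 {o1, o2, q} Fs ∨
      ∃ w e d al be fs F, Blk0 {o1, o2, q} Fs o1 o2 q w e d al be fs F := by
  have hnod := hd.nodup
  obtain ⟨h2q, h21, hq1⟩ : o2 ≠ q ∧ o2 ≠ o1 ∧ q ≠ o1 := by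
    simp only [List.nodup_cons, List.mem_cons, List.not_mem_nil, or_false] at hnod
    tauto
  have hmT : ∀ v, v ∈ ({o1, o2, q} : Finset V) ↔ v = o1 ∨ v = o2 ∨ v = q := by
    intro v
    simp
  have A1 : AdjF Fs o2 q := Disc.bd_adj (p := []) (s := [o1]) hd (Or.inr (by simp))
  have A2 : AdjF Fs q o1 := Disc.bd_adj (p := [o2]) (s := []) hd (Or.inl (by simp))
  have A3 : AdjF Fs o2 o1 := Disc.root_adj (x := o2) (m := [q]) (y := o1) hd (by simp)
  have U1 : ∀ f ∈ Fs, ∀ g ∈ Fs, o2 ∈ f → q ∈ f → o2 ∈ g → q ∈ g → f = g :=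
    fun f hf g hg h1 h2 h3 h4 =>
      Disc.bd_unique (p := []) (s := [o1]) hd (Or.inr (by simp)) hf hg h1 h2 h3 h4
  have U2 : ∀ f ∈ Fs, ∀ g ∈ Fs, q ∈ f → o1 ∈ f → q ∈ g → o1 ∈ g → f = g :=
    fun f hf g hg h1 h2 h3 h4 =>
      Disc.bd_unique (p := [o2]) (s := []) hd (Or.inl (by simp)) hf hg h1 h2 h3 h4
  have U3 : ∀ f ∈ Fs, ∀ g ∈ Fs, o2 ∈ f → o1 ∈ f → o2 ∈ g → o1 ∈ g → f = g :=
    fun f hf g hg h1 h2 h3 h4 =>
      Disc.root_unique (x := o2) (m := [q]) (y := o1) hd (by simp) hf hg h1 h2 h3 h4
  obtain ⟨gs, F', hF1, ho1, hd1, hgs⟩ := Disc.fan (a := o2) (m := []) (y := q) (z := o1) hd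
    (by simp)
  have hd1 : Disc (o2 :: q :: gs.reverse) F' := hd1
  have hgs : ∀ v ∈ gs, v ≠ o2 ∧ v ≠ q ∧ v ≠ o1 := by
    intro v hv
    have := hgs v hv
    simp only [List.nil_append, List.mem_cons, List.not_mem_nil, or_false] at this
    tauto
  have hF'Fs : F' ⊆ Fs := by
    rw [hF1]
    exact Finset.subset_union_right
  have hfan1 : fanF o1 (o2 :: (gs ++ [q])) ⊆ Fs := by
    rw [hF1]
    exact Finset.subset_union_left
  have hadj1 : ∀ v ∈ gs, AdjF Fs o1 v := by
    intro v hv
    obtain ⟨f, hf, h1, h2⟩ := BlkA_fan_cov (z := o1) (L := o2 :: (gs ++ [q])) (v := v)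
      (by simp [hv]) (by simp)
    exact ⟨(hgs v hv).2.2.symm, f, hfan1 hf, h1, h2⟩
  rcases gs with _ | ⟨w, rest⟩
  · exfalso
    apply hT
    apply hfan1
    simp [fanF]
  have hw1 : ({o1, o2, w} : Finset V) ∈ Fs := by
    apply hfan1
    exact mem_fanF.2 ⟨[], o2, w, rest ++ [q], rfl, rfl⟩
  rcases List.eq_nil_or_concat rest with rfl | ⟨al', e, rfl⟩
  · left
    have hw := hgs w (by simp)
    have hwT : w ∉ ({o1, o2, q} : Finset V) := by
      rw [hmT]
      tauto
    have hE : fanF o1 (o2 :: ([w] ++ [q])) = {{o1, o2, w}, {o1, w, q}} := by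
      simp [fanF]
    have hwq : ({o1, w, q} : Finset V) ∈ Fs := by
      apply hfan1
      rw [hE]
      simp
    have h2 : ({o2, q, w} : Finset V) ∈ Fs := by
      rcases hns o2 q w A1 ⟨hw.2.1.symm, _, hwq, by simp, by simp⟩
        ⟨hw.1.symm, _, hw1, by simp, by simp⟩ with h | h
      · exact absurd (show w ∈ ({o1, o2, q} : Finset V) by rw [← h]; simp) hwT
      · exact h
    have h3 : ({o2, q, w} : Finset V) ∈ F' := by
      rw [hF1, Finset.mem_union] at h2
      rcases h2 with h2 | h2
      · exfalso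
        obtain ⟨p, a, b, s, -, he⟩ := mem_fanF.1 h2
        have : o1 ∈ ({o2, q, w} : Finset V) := by
          rw [he]
          simp
        simp only [Finset.mem_insert, Finset.mem_singleton] at this
        rcases this with h | h | h
        · exact h21 h.symm
        · exact hq1 h.symm
        · exact hw.2.2 h.symm
      · exact h2
    have h4 : F' = {({o2, q, w} : Finset V)} := Fat_eq_singleton (x := o2) (y := q) (z := w)
      (by simpa using hd1) h3
    refine BlkA_isK4 h21.symm hq1.symm h2q hwT ?_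
    rw [hF1, h4, hE]
    have e1 : ({o1, w, q} : Finset V) = {o1, q, w} := by
      rw [Finset.pair_comm w q]
    rw [e1]
    ext f
    simp only [Finset.mem_union, Finset.mem_insert, Finset.mem_singleton]
    tauto
  right
  obtain ⟨al, rfl⟩ : ∃ al : List V, al' = al.reverse := ⟨al'.reverse, by simp⟩
  have hr1 : (w :: (al.reverse ++ [e])).reverse = e :: (al ++ [w]) := by simp
  simp only [List.concat_eq_append] at *
  rw [hr1] at hd1
  have hgs' : ∀ v, v = w ∨ v ∈ al ∨ v = e → v ≠ o2 ∧ v ≠ q ∧ v ≠ o1 ∧ AdjF Fs o1 v := by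
    intro v hv
    have hv' : v ∈ w :: (al.reverse ++ [e]) := by
      simp only [List.mem_cons, List.mem_append, List.mem_reverse, List.not_mem_nil, or_false]
      tauto
    obtain ⟨h1, h2, h3⟩ := hgs v hv'
    exact ⟨h1, h2, h3, hadj1 v hv'⟩
  have hn1 : (e :: (al ++ [w])).Nodup := by
    have := hd1.nodup
    rw [List.nodup_cons, List.nodup_cons] at this
    exact this.2.2
  have hne1 : ∀ v, v ∈ al ∨ v = w → v ≠ e := by
    intro v hv hve
    subst hve
    apply (List.nodup_cons.1 hn1).1
    simp only [List.mem_append, List.mem_cons, List.not_mem_nil, or_false]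
    exact hv
  have hnw1 : ∀ v, v ∈ al ∨ v = e → v ≠ w := by
    intro v hv hvw
    subst hvw
    have h1 : (e :: al ++ [v]).Nodup := hn1
    rw [List.nodup_append] at h1
    refine h1.2.2 v ?_ v (by simp) rfl
    rcases hv with hv | hv
    · simp [hv]
    · simp [hv]
  have he1 : ({o1, e, q} : Finset V) ∈ Fs := by
    apply hfan1
    exact mem_fanF.2 ⟨o2 :: w :: al.reverse, e, q, [], by simp, rfl⟩
  have hd1' : Disc (e :: ((al ++ [w]) ++ [o2, q])) F' :=
    Disc.append_comm (p := [o2, q]) (q := e :: (al ++ [w])) hd1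
  have hqn : ∀ v ∈ al ++ [w], ¬ AdjF F' q v := by
    intro v hv hadj
    have hv' : v ∈ al ∨ v = w := by simpa using hv
    obtain ⟨a1, a2, a3, a4⟩ := hgs' v (by tauto)
    rcases hns q o1 v A2 a4 (CombA_adj_mono hF'Fs hadj) with h | h
    · have : v ∈ ({o1, o2, q} : Finset V) := by
        rw [← h]
        simp
      rw [hmT] at this
      tauto
    · have h5 := U2 _ h _ he1 (by simp) (by simp) (by simp) (by simp)
      have : v ∈ ({o1, e, q} : Finset V) := by
        rw [← h5]
        simp
      simp only [Finset.mem_insert, Finset.mem_singleton] at this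
      rcases this with h | h | h
      · exact a3 h
      · exact hne1 v hv' h
      · exact a2 h
  obtain ⟨hs, F'', hF2, hqF, hd2, hhs⟩ := Disc.fan (a := e) (m := al ++ [w]) (y := o2) (z := q)
    hd1' hqn
  have hF''F' : F'' ⊆ F' := by
    rw [hF2]
    exact Finset.subset_union_right
  have hfan2' : fanF q (e :: (hs ++ [o2])) ⊆ F' := by
    rw [hF2]
    exact Finset.subset_union_left
  have hfan2 : fanF q (e :: (hs ++ [o2])) ⊆ Fs := hfan2'.trans hF'Fs
  have hhs' : ∀ v ∈ hs, v ≠ e ∧ v ∉ al ∧ v ≠ w ∧ v ≠ o2 ∧ v ≠ q ∧ v ≠ o1 ∧ AdjF Fs q v := by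
    intro v hv
    have h1 := hhs v hv
    simp only [List.mem_cons, List.mem_append, List.not_mem_nil, or_false] at h1
    push Not at h1
    obtain ⟨f, hf, h2, h3⟩ := BlkA_fan_cov (z := q) (L := e :: (hs ++ [o2])) (v := v)
      (by simp [hv]) (by simp)
    have h4 : v ≠ o1 := by
      intro h
      exact ho1 f (hfan2' hf) (h ▸ h3)
    exact ⟨h1.1, h1.2.1.1, h1.2.1.2, h1.2.2.1, h1.2.2.2, h4,
      ⟨h1.2.2.2.symm, f, hfan2 hf, h2, h3⟩⟩
  rcases List.eq_nil_or_concat hs with rfl | ⟨fs', d, rfl⟩
  · exfalso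
    have h1 : ({q, e, o2} : Finset V) ∈ Fs := by
      apply hfan2
      exact mem_fanF.2 ⟨[], e, o2, [], rfl, rfl⟩
    obtain ⟨a1, a2, a3, a4⟩ := hgs' e (by tauto)
    rcases hns o2 o1 e A3 a4 ⟨a1.symm, _, h1, by simp, by simp⟩ with h | h
    · have : e ∈ ({o1, o2, q} : Finset V) := by
        rw [← h]
        simp
      rw [hmT] at this
      tauto
    · have h5 := U3 _ h _ hw1 (by simp) (by simp) (by simp) (by simp)
      have : e ∈ ({o1, o2, w} : Finset V) := by
        rw [← h5]
        simp
      simp only [Finset.mem_insert, Finset.mem_singleton] at this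
      rcases this with h | h | h
      · exact a3 h
      · exact a1 h
      · exact hnw1 e (by tauto) h
  obtain ⟨fs, rfl⟩ : ∃ fs : List V, fs' = fs.reverse := ⟨fs'.reverse, by simp⟩
  simp only [List.concat_eq_append] at *
  have hr2 : (fs.reverse ++ [d]).reverse = d :: fs := by simp
  rw [hr2] at hd2
  have hhs'' : ∀ v, v = d ∨ v ∈ fs →
      v ≠ e ∧ v ∉ al ∧ v ≠ w ∧ v ≠ o2 ∧ v ≠ q ∧ v ≠ o1 ∧ AdjF Fs q v := by
    intro v hv
    apply hhs'
    simp only [List.mem_append, List.mem_reverse, List.mem_cons, List.not_mem_nil, or_false]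
    tauto
  have hdq : ({q, d, o2} : Finset V) ∈ Fs := by
    apply hfan2
    exact mem_fanF.2 ⟨e :: fs.reverse, d, o2, [], by simp, rfl⟩
  have hd2' : Disc (d :: ((fs ++ e :: al) ++ [w, o2])) F'' := by
    have := Disc.append_comm (p := e :: (al ++ [w]) ++ [o2]) (q := d :: fs)
      (F := F'') (by simpa using hd2)
    simpa using this
  have hn2 : (d :: fs).Nodup := by
    have := hd2'.nodup
    have h1 : (d :: ((fs ++ e :: al) ++ [w, o2])) = (d :: fs) ++ (e :: al ++ [w, o2]) := by simp
    rw [h1, List.nodup_append] at this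
    exact this.1
  have hF''Fs : F'' ⊆ Fs := hF''F'.trans hF'Fs
  have h2n : ∀ v ∈ fs ++ e :: al, ¬ AdjF F'' o2 v := by
    intro v hv hadj
    have hv' : v ∈ fs ∨ v = e ∨ v ∈ al := by simpa using hv
    have hadj' := CombA_adj_mono hF''Fs hadj
    rcases hv' with hv' | hv'
    · obtain ⟨a1, a2, a3, a4, a5, a6, a7⟩ := hhs'' v (by tauto)
      rcases hns o2 q v A1 a7 hadj' with h | h
      · have : v ∈ ({o1, o2, q} : Finset V) := by
          rw [← h]
          simp
        rw [hmT] at this
        tauto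
      · have h5 := U1 _ h _ hdq (by simp) (by simp) (by simp) (by simp)
        have : v ∈ ({q, d, o2} : Finset V) := by
          rw [← h5]
          simp
        simp only [Finset.mem_insert, Finset.mem_singleton] at this
        rcases this with h | h | h
        · exact a5 h
        · exact (List.nodup_cons.1 hn2).1 (h ▸ hv')
        · exact a4 h
    · obtain ⟨a1, a2, a3, a4⟩ := hgs' v (by tauto)
      rcases hns o2 o1 v A3 a4 hadj' with h | h
      · have : v ∈ ({o1, o2, q} : Finset V) := by
          rw [← h]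
          simp
        rw [hmT] at this
        tauto
      · have h5 := U3 _ h _ hw1 (by simp) (by simp) (by simp) (by simp)
        have : v ∈ ({o1, o2, w} : Finset V) := by
          rw [← h5]
          simp
        simp only [Finset.mem_insert, Finset.mem_singleton] at this
        rcases this with h | h | h
        · exact a3 h
        · exact a1 h
        · exact hnw1 v (by tauto) h
  obtain ⟨be, F, hF3, ho2, hd3, hbe⟩ := Disc.fan (a := d) (m := fs ++ e :: al) (y := w)
    (z := o2) hd2' h2n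
  have hFF'' : F ⊆ F'' := by
    rw [hF3]
    exact Finset.subset_union_right
  have hfan3' : fanF o2 (d :: (be ++ [w])) ⊆ F'' := by
    rw [hF3]
    exact Finset.subset_union_left
  have hFFs : F ⊆ Fs := hFF''.trans hF''Fs
  have hdF : Disc (blkBd w e d al be fs) F := by
    have h1 := hd3.reverse
    have h2 : (d :: ((fs ++ e :: al) ++ w :: be.reverse)).reverse =
        (be ++ [w] ++ al.reverse ++ [e]) ++ (fs.reverse ++ [d]) := by simp
    rw [h2] at h1
    have h3 := Disc.append_comm h1
    have h4 : (fs.reverse ++ [d]) ++ (be ++ [w] ++ al.reverse ++ [e]) =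
        blkBd w e d al be fs := by simp [blkBd]
    rwa [h4] at h3
  have hno : ∀ f ∈ F, o1 ∉ f ∧ o2 ∉ f ∧ q ∉ f := fun f hf =>
    ⟨ho1 f (hF''F' (hFF'' hf)), ho2 f hf, hqF f (hFF'' hf)⟩
  have hlen : 3 ≤ (blkBd w e d al be fs).length := by
    simp only [blkBd, List.length_append, List.length_cons, List.length_nil, List.length_reverse]
    omega
  have hcov : ∀ v ∈ verts (blkBd w e d al be fs) F, ∃ f ∈ F, v ∈ f := by
    intro v hv
    rcases DiscE_mem.1 hv with h | h
    · have := hdF.mem_biUnion hlen h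
      simpa using this
    · exact h
  have hvT : ∀ v ∈ verts (blkBd w e d al be fs) F, v ≠ o1 ∧ v ≠ o2 ∧ v ≠ q := by
    intro v hv
    obtain ⟨f, hf, hvf⟩ := hcov v hv
    obtain ⟨h1, h2, h3⟩ := hno f hf
    refine ⟨?_, ?_, ?_⟩
    · rintro rfl
      exact h1 hvf
    · rintro rfl
      exact h2 hvf
    · rintro rfl
      exact h3 hvf
  have hbd : ∀ v ∈ blkBd w e d al be fs, v ≠ o1 ∧ v ≠ o2 ∧ v ≠ q := fun v hv =>
    hvT v (DiscE_mem.2 (Or.inl hv))
  have hE1 : fanF o1 (o2 :: (w :: (al.reverse ++ [e]) ++ [q])) =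
      insert {o1, o2, w} (insert {o1, e, q} (fanF o1 (e :: al ++ [w]))) := by
    have h1 : fanF o1 (o2 :: (w :: (al.reverse ++ [e]) ++ [q])) =
        insert {o1, o2, w} (fanF o1 (w :: (al.reverse ++ [e]) ++ [q])) := rfl
    have h2 : (w :: (al.reverse ++ [e]) ++ [q]) = (w :: al.reverse) ++ [e, q] := by simp
    have h3 : (w :: al.reverse) ++ [e] = (e :: al ++ [w]).reverse := by simp
    rw [h1, h2, BlkA_fanF_append, h3, fanF_reverse]
  have hE2 : fanF q (e :: ((fs.reverse ++ [d]) ++ [o2])) =
      insert {q, d, o2} (fanF q (d :: fs ++ [e])) := by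
    have h2 : (e :: ((fs.reverse ++ [d]) ++ [o2])) = (e :: fs.reverse) ++ [d, o2] := by simp
    have h3 : (e :: fs.reverse) ++ [d] = (d :: fs ++ [e]).reverse := by simp
    rw [h2, BlkA_fanF_append, h3, fanF_reverse]
  have hFs : Fs = blkF o1 o2 q w e d al be fs ∪ F := by
    rw [hF1, hF2, hF3, hE1, hE2]
    have e1 : ({o1, e, q} : Finset V) = {o1, q, e} := by rw [Finset.pair_comm e q]
    have e2 : ({q, d, o2} : Finset V) = {o2, q, d} := by
      ext t
      simp only [Finset.mem_insert, Finset.mem_singleton]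
      tauto
    rw [e1, e2]
    ext f
    simp only [blkF, Finset.mem_union, Finset.mem_insert, Finset.mem_singleton]
    have h5 : f ∈ fanF o2 (d :: (be ++ [w])) ↔ f ∈ fanF o2 (d :: be ++ [w]) := Iff.rfl
    rw [h5]
    tauto
  have hmbd : ∀ v, v ∈ blkBd w e d al be fs ↔
      v = w ∨ v = e ∨ v = d ∨ v ∈ al ∨ v ∈ be ∨ v ∈ fs := fun v => BlkA_mem_bd
  have hnbd := hdF.nodup
  have ho1fan : ∀ f ∈ Fs, o1 ∈ f → f ∈ fanF o1 (o2 :: (w :: (al.reverse ++ [e]) ++ [q])) := by
    intro f hf h1
    rw [hF1, Finset.mem_union] at hf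
    rcases hf with hf | hf
    · exact hf
    · exact absurd h1 (ho1 f hf)
  have hrevL1 : (o2 :: (w :: (al.reverse ++ [e]) ++ [q])).reverse =
      [q] ++ ((e :: al ++ [w]) ++ [o2]) := by simp
  have hsubA : (e :: al ++ [w]).Nodup := hn1
  have hsubD : (d :: be ++ [w]).Nodup := by
    have h1 : blkBd w e d al be fs = fs.reverse ++ ((d :: be ++ [w]) ++ (al.reverse ++ [e])) := by
      simp [blkBd]
    rw [h1] at hnbd
    exact (List.nodup_append.1 (List.nodup_append.1 hnbd).2.1).1
  have hsubQ : (e :: fs.reverse ++ [d]).Nodup := by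
    have h1 : (e :: fs.reverse ++ [d]) = (d :: fs ++ [e]).reverse := by simp
    rw [h1, List.nodup_reverse]
    rw [List.nodup_append]
    refine ⟨hn2, by simp, ?_⟩
    intro a ha b hb
    simp only [List.mem_cons, List.not_mem_nil, or_false] at hb
    rw [hb]
    have ha' : a = d ∨ a ∈ fs := by simpa using ha
    exact (hhs'' a ha').1
  have hndA : (o1 :: ([q] ++ ((e :: al ++ [w]) ++ [o2]))).Nodup := by
    refine BlkA_nd hsubA ?_ hq1.symm h21.symm h2q.symm
    intro v hv
    have hv' : v ∈ blkBd w e d al be fs := by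
      rw [hmbd]
      simp only [List.mem_cons, List.mem_append, List.not_mem_nil, or_false] at hv
      tauto
    have := hbd v hv'
    tauto
  have hndD : (o2 :: ([q] ++ ((d :: be ++ [w]) ++ [o1]))).Nodup := by
    refine BlkA_nd hsubD ?_ h2q h21 hq1
    intro v hv
    have hv' : v ∈ blkBd w e d al be fs := by
      rw [hmbd]
      simp only [List.mem_cons, List.mem_append, List.not_mem_nil, or_false] at hv
      tauto
    have := hbd v hv'
    tauto
  have hndQ : (q :: ([o1] ++ ((e :: fs.reverse ++ [d]) ++ [o2]))).Nodup := by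
    refine BlkA_nd hsubQ ?_ hq1 h2q.symm h21.symm
    intro v hv
    have hv' : v ∈ blkBd w e d al be fs := by
      rw [hmbd]
      simp only [List.mem_cons, List.mem_append, List.mem_reverse, List.not_mem_nil,
        or_false] at hv
      tauto
    have := hbd v hv'
    tauto
  have hbdT : ∀ v ∈ blkBd w e d al be fs, v ∉ ({o1, o2, q} : Finset V) := by
    intro v hv
    rw [hmT]
    have := hbd v hv
    tauto
  refine ⟨w, e, d, al, be, fs, F, ⟨rfl, hFs, ⟨hdF, hFFs, ?_⟩, ?_, ?_, ?_, ?_, ?_⟩⟩
  · intro v hv hvl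
    have h1 := hvT v hv
    refine ⟨by rw [hmT]; tauto, ?_⟩
    intro f hf hvf
    rw [hF1, hF2, hF3] at hf
    simp only [Finset.mem_union] at hf
    rw [hmbd] at hvl
    rcases hf with hf | hf | hf | hf
    · exfalso
      rcases BlkA_fan_mem hf hvf with h | h
      · exact h1.1 h
      · simp only [List.mem_cons, List.mem_append, List.mem_reverse, List.not_mem_nil,
          or_false] at h
        tauto
    · exfalso
      rcases BlkA_fan_mem hf hvf with h | h
      · exact h1.2.2 h
      · simp only [List.mem_cons, List.mem_append, List.mem_reverse, List.not_mem_nil,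
          or_false] at h
        tauto
    · exfalso
      rcases BlkA_fan_mem hf hvf with h | h
      · exact h1.2.1 h
      · simp only [List.mem_cons, List.mem_append, List.mem_reverse, List.not_mem_nil,
          or_false] at h
        tauto
    · exact hf
  · rw [List.nodup_cons, List.nodup_cons, List.nodup_cons]
    refine ⟨?_, ?_, ?_, hnbd⟩
    · simp only [List.mem_cons]
      rintro (h | h | h)
      · exact h21 h.symm
      · exact hq1 h.symm
      · exact (hbd _ h).1 rfl
    · simp only [List.mem_cons]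
      rintro (h | h)
      · exact h2q h
      · exact (hbd _ h).2.1 rfl
    · intro h
      exact (hbd _ h).2.2 rfl
  · intro v hv hv2
    rw [hmT] at hv
    have := hvT v hv2
    tauto
  · refine BlkA_chless hns (p0 := [q]) (s0 := [o2]) hndA rfl ?_ hFFs ?_ ?_
    · intro f hf h1
      have := ho1fan f hf h1
      rwa [← fanF_reverse, hrevL1] at this
    · intro a ha
      apply hbdT
      rw [hmbd]
      simp only [List.mem_cons, List.mem_append, List.not_mem_nil, or_false] at ha
      tauto
    · intro a ha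
      simp only [List.mem_cons, List.mem_append, List.not_mem_nil, or_false] at ha
      exact (hgs' a (by tauto)).2.2.2
  · refine BlkA_chless hns (p0 := [q]) (s0 := [o1]) hndD rfl ?_ hFFs ?_ ?_
    · intro f hf h1
      rw [hF1, hF2, hF3] at hf
      simp only [Finset.mem_union] at hf
      rcases hf with hf | hf | hf | hf
      · rw [← fanF_reverse, hrevL1] at hf
        have h2 : [q] ++ ((e :: al ++ [w]) ++ [o2]) = (q :: e :: al) ++ [w, o2] := by simp
        rw [h2] at hf
        have h3 : ((q :: e :: al) ++ [w, o2]).Nodup := by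
          rw [← h2]
          exact (List.nodup_cons.1 hndA).2
        have h4 := BlkA_fan_last h21 h3 hf h1
        refine mem_fanF.2 ⟨q :: d :: be, w, o1, [], by simp, ?_⟩
        rw [h4]
        ext t
        simp only [Finset.mem_insert, Finset.mem_singleton]
        tauto
      · have h2 : (e :: ((fs.reverse ++ [d]) ++ [o2])) = (e :: fs.reverse) ++ [d, o2] := by simp
        rw [h2] at hf
        have h3 : ((e :: fs.reverse) ++ [d, o2]).Nodup := by
          have h4 := (List.nodup_cons.1 (List.nodup_cons.1 hndQ).2).2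
          have h5 : (e :: fs.reverse) ++ [d, o2] = ([] ++ ((e :: fs.reverse ++ [d]) ++ [o2])) := by
            simp
          rw [h5]
          exact h4
        have h4 := BlkA_fan_last h2q h3 hf h1
        refine mem_fanF.2 ⟨[], q, d, be ++ [w, o1], by simp, ?_⟩
        rw [h4]
        ext t
        simp only [Finset.mem_insert, Finset.mem_singleton]
        tauto
      · obtain ⟨p, a, b, s, hl, he⟩ := mem_fanF.1 hf
        refine mem_fanF.2 ⟨q :: p, a, b, s ++ [o1], ?_, he⟩
        have h2 : [q] ++ ((d :: be ++ [w]) ++ [o1]) = q :: ((d :: (be ++ [w])) ++ [o1]) := by simp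
        rw [h2, hl]
        simp
      · exact absurd h1 (ho2 f hf)
    · intro a ha
      apply hbdT
      rw [hmbd]
      simp only [List.mem_cons, List.mem_append, List.not_mem_nil, or_false] at ha
      tauto
    · intro a ha
      obtain ⟨f, hf, h1, h2⟩ := BlkA_fan_cov (z := o2) (L := d :: be ++ [w]) (v := a) ha (by simp)
      have hab : a ∈ blkBd w e d al be fs := by
        rw [hmbd]
        simp only [List.mem_cons, List.mem_append, List.not_mem_nil, or_false] at ha
        tauto
      exact ⟨(hbd a hab).2.1.symm, f, hF''Fs (hfan3' hf), h1, h2⟩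
  · refine BlkA_chless hns (p0 := [o1]) (s0 := [o2]) hndQ rfl ?_ hFFs ?_ ?_
    · intro f hf h1
      rw [hF1, hF2] at hf
      simp only [Finset.mem_union] at hf
      rcases hf with hf | hf | hf
      · have h2 : (o2 :: (w :: (al.reverse ++ [e]) ++ [q])) =
            (o2 :: w :: al.reverse) ++ [e, q] := by simp
        rw [h2] at hf
        have h3 : ((o2 :: w :: al.reverse) ++ [e, q]).Nodup := by
          rw [← h2, ← List.nodup_reverse, hrevL1]
          exact (List.nodup_cons.1 hndA).2
        have h4 := BlkA_fan_last hq1 h3 hf h1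
        refine mem_fanF.2 ⟨[], o1, e, fs.reverse ++ [d, o2], by simp, ?_⟩
        rw [h4]
        ext t
        simp only [Finset.mem_insert, Finset.mem_singleton]
        tauto
      · obtain ⟨p, a, b, s, hl, he⟩ := mem_fanF.1 hf
        refine mem_fanF.2 ⟨o1 :: p, a, b, s, ?_, he⟩
        have h2 : [o1] ++ ((e :: fs.reverse ++ [d]) ++ [o2]) =
            o1 :: (e :: ((fs.reverse ++ [d]) ++ [o2])) := by simp
        rw [h2, hl]
        simp
      · exact absurd h1 (hqF f hf)
    · intro a ha
      apply hbdT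
      rw [hmbd]
      simp only [List.mem_cons, List.mem_append, List.mem_reverse, List.not_mem_nil,
        or_false] at ha
      tauto
    · intro a ha
      simp only [List.mem_cons, List.mem_append, List.mem_reverse, List.not_mem_nil,
        or_false] at ha
      rcases ha with (ha | ha) | ha
      · subst ha
        refine ⟨?_, _, he1, by simp, by simp⟩
        have := hgs' a (by tauto)
        exact this.2.1.symm
      · exact (hhs'' a (by tauto)).2.2.2.2.2.2
      · exact (hhs'' a (by tauto)).2.2.2.2.2.2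

/-- Fans of the three outer vertices.
1. Rotate/reverse to `Disc [o2, q, o1] Fs` (a triangle `{x, y, z}` in any order, as in `Node.perm`).
   `Disc.fan` with `a = o2`, `m = []`, `y = q`, `z = o1` gives `gs`, `F'`:
   `Fs = fanF o1 (o2 :: gs ++ [q]) ∪ F'`, no face of `F'` contains `o1`, `Disc (o2 :: q :: gs.reverse) F'`.
   `gs ≠ []` because `T ∉ Fs`. Let `w` be the first and `e` the last element of `gs`. If `gs = [w]` then
   `{o1, o2, w}, {o1, q, w} ∈ Fs`, `F'` has the boundary `[o2, q, w]` and `AdjF Fs o2 q`... so by `hns`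
   `{o2, q, w} ∈ Fs` (it is not `T`), it is in `F'`, and `Disc [o2, q, w] F'` with `{o2, q, w} ∈ F'` gives
   `F' = {{o2, q, w}}` (`Fat_eq_singleton`): `IsK4`. Otherwise `gs = w :: (al.reverse ++ [e])`.
2. Rotate `F'` to `e :: (al ++ [w] ++ [o2, q])` and apply `Disc.fan` with `z = q`: no `v ∈ al ++ [w]` is
   adjacent to `q`, since `v` is adjacent to `o1` and `o1, q, v` would be in `Fs` by `hns`, but the face at
   the edge `o1 q` is `{o1, q, e}` (`Disc.bd_unique`). It gives `hs`, `F''`; `hs ≠ []` because otherwise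
   `{q, e, o2}` is a face, `e` is adjacent to `o2` and `o1`, so `{o1, o2, e} ∈ Fs` by `hns` and `e = w` by
   `Disc.bd_unique`. Write `hs = fs.reverse ++ [d]`.
3. Rotate `F''` to `d :: (fs ++ e :: al ++ [w, o2])` and apply `Disc.fan` with `z = o2`: the vertices of
   `fs` are not adjacent to `o2` (face `{q, o2, d}`), `e` and the vertices of `al` are not adjacent to `o2`
   (face `{o1, o2, w}`). It gives `be` and `F`.
`out`: no face of `F` contains `o1`, `o2`, `q`. `nd`: the lists of `Disc.fan` are new vertices. `Reg.star`: an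
inner vertex of `F` is on no face outside `F`, since these faces have their vertices in
`{o1, o2, q}` and the boundary list. `Chless`: if `a, c` are in `e :: al ++ [w]` at distance at least two and
adjacent then `{o1, a, c} ∈ Fs` by `hns`, so it is in `fanF o1 (o2 :: gs ++ [q])` and `a, c` are consecutive
(`mem_fanF`), contradiction to `nd`. The same for the other two lists. -/
theorem blk0_or_k4 {x y z : V} {Fs : Finset (Finset V)} (hd : Disc [x, y, z] Fs)
    (hT : ({x, y, z} : Finset V) ∉ Fs)
    (hns : ∀ u v w, AdjF Fs u v → AdjF Fs v w → AdjF Fs u w →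
      ({u, v, w} : Finset V) = {x, y, z} ∨ ({u, v, w} : Finset V) ∈ Fs)
    {o1 o2 q : V} (ho : ({x, y, z} : Finset V) = {o1, o2, q}) :
    IsK4 {x, y, z} Fs ∨
      ∃ w e d al be fs F, Blk0 {x, y, z} Fs o1 o2 q w e d al be fs F := by
  have hcard := Fat_tri_card hd
  rw [ho] at hcard
  obtain ⟨h12, h1q, h2q⟩ := BlkA_distinct hcard
  have m : ∀ t ∈ ({o1, o2, q} : Finset V), t = x ∨ t = y ∨ t = z := by
    intro t ht
    rw [← ho] at ht
    simpa using ht
  have hd0 : Disc [o2, q, o1] Fs :=
    DiscF_perm hd (m _ (by simp)) (m _ (by simp)) (m _ (by simp)) h2q h1q.symm h12.symm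
  rw [ho] at hT hns ⊢
  exact BlkA_main hd0 hT hns

/-- Exchange `o1` and `o2` (and `e, d`, and `al, be`, and reverse `fs`). -/
theorem Blk0.swap {T : Finset V} {Fs : Finset (Finset V)} {o1 o2 q w e d : V}
    {al be fs : List V} {F : Finset (Finset V)} (h : Blk0 T Fs o1 o2 q w e d al be fs F) :
    Blk0 T Fs o2 o1 q w d e be al fs.reverse F := by
  have e1 : ({o2, o1, q} : Finset V) = {o1, o2, q} := by
    ext t
    simp only [Finset.mem_insert, Finset.mem_singleton]
    tauto
  have e2 : ({o2, o1, w} : Finset V) = {o1, o2, w} := by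
    ext t
    simp only [Finset.mem_insert, Finset.mem_singleton]
    tauto
  have e3 : fanF q (e :: fs.reverse ++ [d]) = fanF q (d :: fs ++ [e]) := by
    rw [← fanF_reverse]
    simp
  have hbd : blkBd w d e be al fs.reverse = fs ++ ([e] ++ al ++ [w] ++ be.reverse ++ [d]) := by
    simp [blkBd]
  have hrev : (blkBd w e d al be fs).reverse = ([e] ++ al ++ [w] ++ be.reverse ++ [d]) ++ fs := by
    simp [blkBd]
  have hmem : ∀ v, v ∈ blkBd w d e be al fs.reverse ↔ v ∈ blkBd w e d al be fs := by
    intro v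
    rw [BlkA_mem_bd, BlkA_mem_bd, List.mem_reverse]
    tauto
  have hperm : (blkBd w d e be al fs.reverse).Perm (blkBd w e d al be fs) := by
    rw [hbd]
    refine List.perm_append_comm.trans ?_
    rw [← hrev]
    exact List.reverse_perm _
  refine ⟨by rw [h.hT, e1], ?_, ?_, ?_, ?_, h.chD, h.chA, ?_⟩
  · rw [h.hF]
    unfold blkF
    rw [e2, e3]
    ext f
    simp only [Finset.mem_union, Finset.mem_insert, Finset.mem_singleton]
    tauto
  · have h1 := h.reg.rev
    rw [hrev] at h1
    have h2 := h1.rot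
    rwa [← hbd] at h2
  · have h1 : (o2 :: o1 :: q :: blkBd w d e be al fs.reverse).Perm
        (o1 :: o2 :: q :: blkBd w e d al be fs) :=
      (List.Perm.swap _ _ _).trans (((hperm.cons q).cons o2).cons o1)
    exact h1.nodup_iff.2 h.nd
  · intro v hv
    rw [CombA_verts hmem]
    exact h.out v hv
  · have h1 := h.chQ.rev
    have h2 : (e :: fs.reverse ++ [d]).reverse = d :: fs.reverse.reverse ++ [e] := by simp
    rwa [h2] at h1

/-- Chords do not cross: if `e` is adjacent to `v ∈ be` then `Reg.chord` (`u = v`, `v = e`) separates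
`d` from the vertices of `al` (`d` is only in the part with `fs`, the vertices of `al` are only in the
part with `w`), so `d` is adjacent to no vertex of `al`. -/
theorem Blk0.order {T : Finset V} {Fs : Finset (Finset V)} {o1 o2 q w e d : V}
    {al be fs : List V} {F : Finset (Finset V)} (h : Blk0 T Fs o1 o2 q w e d al be fs F) :
    (∀ v ∈ be, ¬ AdjF F e v) ∨ ∀ v ∈ al, ¬ AdjF F d v := by
  by_contra hcon
  push Not at hcon
  obtain ⟨⟨v, hv, hev⟩, ⟨u, hu, hdu⟩⟩ := hcon
  obtain ⟨b1, b2, rfl⟩ := List.append_of_mem hv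
  have hnd := (List.nodup_cons.1 (List.nodup_cons.1 (List.nodup_cons.1 h.nd).2).2).2
  have hl : blkBd w e d al (b1 ++ v :: b2) fs =
      (fs.reverse ++ [d] ++ b1) ++ v :: ((b2 ++ [w] ++ al.reverse) ++ e :: []) := by
    simp [blkBd]
  have hreg := h.reg
  rw [hl] at hreg
  obtain ⟨F₁, F₂, hF, -, -, -, h1, h2, hcom⟩ := hreg.chord (by simp) (Or.inl (by simp))
    (DiscC_symm hev)
  have hd1 : d ≠ v ∧ d ≠ e ∧ u ≠ v ∧ u ≠ e := by
    have h3 : blkBd w e d al (b1 ++ v :: b2) fs =
        fs.reverse ++ ([d] ++ (b1 ++ ([v] ++ (b2 ++ [w] ++ (al.reverse ++ [e]))))) := by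
      simp [blkBd]
    rw [h3] at hnd
    have h4 := (List.nodup_append.1 hnd).2.1
    have h5 := List.nodup_append.1 h4
    have h6 := List.nodup_append.1 (List.nodup_append.1 h5.2.1).2.1
    have h7 := List.nodup_append.1 (List.nodup_append.1 h6.2.1).2.1
    refine ⟨h5.2.2 d (by simp) v (by simp), h5.2.2 d (by simp) e (by simp), ?_, ?_⟩
    · exact (h6.2.2 v (by simp) u (by simp [hu])).symm
    · exact h7.2.2 u (by simp [hu]) e (by simp)
  obtain ⟨hne, f, hf, hdf, huf⟩ := hdu
  rw [hF, Finset.mem_union] at hf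
  rcases hf with hf | hf
  · have h3 := hcom d (DiscE_mem.2 (Or.inr ⟨f, hf, hdf⟩)) (DiscE_mem.2 (Or.inl (by simp)))
    rcases h3 with h3 | h3
    · exact hd1.1 h3
    · exact hd1.2.1 h3
  · have h3 := hcom u (DiscE_mem.2 (Or.inl (by simp [hu]))) (DiscE_mem.2 (Or.inr ⟨f, hf, huf⟩))
    rcases h3 with h3 | h3
    · exact hd1.2.2.1 h3
    · exact hd1.2.2.2 h3

/-- `blk0_or_k4`, `Blk0.order`, `Blk0.swap`. -/
theorem blk_or_k4 {x y z : V} {Fs : Finset (Finset V)} (hd : Disc [x, y, z] Fs)
    (hT : ({x, y, z} : Finset V) ∉ Fs)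
    (hns : ∀ u v w, AdjF Fs u v → AdjF Fs v w → AdjF Fs u w →
      ({u, v, w} : Finset V) = {x, y, z} ∨ ({u, v, w} : Finset V) ∈ Fs)
    {o1 o2 q : V} (ho : ({x, y, z} : Finset V) = {o1, o2, q}) :
    IsK4 {x, y, z} Fs ∨
      (∃ w e d al be fs F, Blk {x, y, z} Fs o1 o2 q w e d al be fs F) ∨
      ∃ w e d al be fs F, Blk {x, y, z} Fs o2 o1 q w e d al be fs F := by
  rcases blk0_or_k4 hd hT hns ho with h | ⟨w, e, d, al, be, fs, F, h⟩
  · exact Or.inl h
  · right
    rcases h.order with h1 | h1
    · exact Or.inl ⟨w, e, d, al, be, fs, F, ⟨h, h1⟩⟩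
    · exact Or.inr ⟨w, d, e, be, al, fs.reverse, F, ⟨h.swap, h1⟩⟩

end EPG26
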