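import Pool.Agent.W_26e041_h61.BlkA

/-!
Splitting the inner region of a block at the last neighbour of `e` which is adjacent to a later
neighbour of `q`.
-/

namespace EPG26

variable {V : Type*} [DecidableEq V]

/-- two faces with two common vertices -/
def BlkB_adj (f g : Finset V) : Prop := ∃ s t, s ≠ t ∧ s ∈ f ∧ t ∈ f ∧ s ∈ g ∧ t ∈ g

theorem BlkB_closed {l : List V} {F : Finset (Finset V)} (h : Disc l F) :
    ∀ A : Finset (Finset V), A ⊆ F → A.Nonempty →
      (∀ f ∈ A, ∀ g ∈ F, BlkB_adj f g → g ∈ A) → F ⊆ A := by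
  induction h with
  | edge h =>
    intro A hA hne _
    obtain ⟨f, hf⟩ := hne
    exact absurd (hA hf) (by simp)
  | @inner x m y t F hd hm hxy ih =>
    intro A hA hne hcl
    have hbd : AdjF F y t := by
      have h' : Disc ((x :: m) ++ y :: t :: []) F := by simpa using hd
      exact h'.bd_adj (Or.inl (by simp))
    obtain ⟨hyt, g0, hg0, hy0, ht0⟩ := hbd
    have hadj : BlkB_adj ({x, y, t} : Finset V) g0 := ⟨y, t, hyt, by simp, by simp, hy0, ht0⟩
    have hadj' : BlkB_adj g0 ({x, y, t} : Finset V) := ⟨y, t, hyt, hy0, ht0, by simp, by simp⟩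
    have key : (A ∩ F).Nonempty → F ⊆ A := by
      intro hn
      have := ih (A ∩ F) Finset.inter_subset_right hn (by
        intro f hf g hg hfg
        rw [Finset.mem_inter] at hf ⊢
        exact ⟨hcl f hf.1 g (Finset.mem_insert_of_mem hg) hfg, hg⟩)
      exact fun f hf => (Finset.mem_inter.1 (this hf)).1
    have hFA : F ⊆ A := by
      obtain ⟨f, hf⟩ := hne
      rcases Finset.mem_insert.1 (hA hf) with hf' | hf'
      · rw [hf'] at hf
        have hg : g0 ∈ A := hcl _ hf g0 (Finset.mem_insert_of_mem hg0) hadj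
        exact key ⟨g0, Finset.mem_inter.2 ⟨hg, hg0⟩⟩
      · exact key ⟨f, Finset.mem_inter.2 ⟨hf, hf'⟩⟩
    have h0 : ({x, y, t} : Finset V) ∈ A :=
      hcl g0 (hFA hg0) _ (Finset.mem_insert_self _ _) hadj'
    exact Finset.insert_subset h0 hFA
  | @split x m₁ t m₂ y F₁ F₂ h₁ h₂ hdis ih₁ ih₂ =>
    intro A hA hne hcl
    have a1 : F₁.Nonempty → ∃ g ∈ F₁, BlkB_adj ({x, y, t} : Finset V) g ∧
        BlkB_adj g ({x, y, t} : Finset V) := by
      intro hn
      have hm : m₁ ≠ [] := by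
        rintro rfl
        have := Disc.empty_of_two (a := x) (b := t) (F := F₁) (by simpa using h₁)
        rw [this] at hn
        simp at hn
      have hb : AdjF F₁ t x := by
        have h' : Disc ((t :: []) ++ (x :: m₁)) F₁ := by
          apply Disc.append_comm
          simpa using h₁
        have h'' : Disc ([] ++ t :: x :: m₁) F₁ := by simpa using h'
        exact h''.bd_adj (Or.inr hm)
      obtain ⟨hne', g, hg, ht, hx⟩ := hb
      exact ⟨g, hg, ⟨t, x, hne', by simp, by simp, ht, hx⟩, ⟨t, x, hne', ht, hx, by simp, by simp⟩⟩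
    have a2 : F₂.Nonempty → ∃ g ∈ F₂, BlkB_adj ({x, y, t} : Finset V) g ∧
        BlkB_adj g ({x, y, t} : Finset V) := by
      intro hn
      have hm : m₂ ≠ [] := by
        rintro rfl
        have := Disc.empty_of_two (a := t) (b := y) (F := F₂) (by simpa using h₂)
        rw [this] at hn
        simp at hn
      have hb : AdjF F₂ y t := by
        have h' : Disc ((y :: []) ++ (t :: m₂)) F₂ := by
          apply Disc.append_comm
          simpa using h₂
        have h'' : Disc ([] ++ y :: t :: m₂) F₂ := by simpa using h'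
        exact h''.bd_adj (Or.inr hm)
      obtain ⟨hne', g, hg, hy, ht⟩ := hb
      exact ⟨g, hg, ⟨y, t, hne', by simp, by simp, hy, ht⟩, ⟨y, t, hne', hy, ht, by simp, by simp⟩⟩
    have k1 : (A ∩ F₁).Nonempty → F₁ ⊆ A := by
      intro hn
      have := ih₁ (A ∩ F₁) Finset.inter_subset_right hn (by
        intro f hf g hg hfg
        rw [Finset.mem_inter] at hf ⊢
        exact ⟨hcl f hf.1 g (Finset.mem_insert_of_mem (Finset.mem_union_left _ hg)) hfg, hg⟩)
      exact fun f hf => (Finset.mem_inter.1 (this hf)).1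
    have k2 : (A ∩ F₂).Nonempty → F₂ ⊆ A := by
      intro hn
      have := ih₂ (A ∩ F₂) Finset.inter_subset_right hn (by
        intro f hf g hg hfg
        rw [Finset.mem_inter] at hf ⊢
        exact ⟨hcl f hf.1 g (Finset.mem_insert_of_mem (Finset.mem_union_right _ hg)) hfg, hg⟩)
      exact fun f hf => (Finset.mem_inter.1 (this hf)).1
    have h0 : ({x, y, t} : Finset V) ∈ A := by
      obtain ⟨f, hf⟩ := hne
      rcases Finset.mem_insert.1 (hA hf) with hf' | hf'
      · rwa [hf'] at hf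
      · rcases Finset.mem_union.1 hf' with hf' | hf'
        · obtain ⟨g, hg, -, hg2⟩ := a1 ⟨f, hf'⟩
          exact hcl g (k1 ⟨f, Finset.mem_inter.2 ⟨hf, hf'⟩⟩ hg) _ (Finset.mem_insert_self _ _) hg2
        · obtain ⟨g, hg, -, hg2⟩ := a2 ⟨f, hf'⟩
          exact hcl g (k2 ⟨f, Finset.mem_inter.2 ⟨hf, hf'⟩⟩ hg) _ (Finset.mem_insert_self _ _) hg2
    refine Finset.insert_subset h0 (Finset.union_subset ?_ ?_)
    · rcases F₁.eq_empty_or_nonempty with e | hn
      · rw [e]; exact Finset.empty_subset _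
      · obtain ⟨g, hg, hg1, -⟩ := a1 hn
        have : g ∈ A := hcl _ h0 g (Finset.mem_insert_of_mem (Finset.mem_union_left _ hg)) hg1
        exact k1 ⟨g, Finset.mem_inter.2 ⟨this, hg⟩⟩
    · rcases F₂.eq_empty_or_nonempty with e | hn
      · rw [e]; exact Finset.empty_subset _
      · obtain ⟨g, hg, hg1, -⟩ := a2 hn
        have : g ∈ A := hcl _ h0 g (Finset.mem_insert_of_mem (Finset.mem_union_right _ hg)) hg1
        exact k2 ⟨g, Finset.mem_inter.2 ⟨this, hg⟩⟩

/-- A triangulated disc is edge connected: if its faces are divided into two nonempty parts, two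
faces of different parts have two common vertices. Induction on `Disc`: `inner`: if both parts meet the
smaller disc use the induction hypothesis, otherwise one part is the new face `{x, y, t}` and the
other one contains the face at the boundary edge `y t` of the smaller disc (`Disc.bd_adj`). `split`: the
new face and the faces of the parts at the edges `x t` and `t y`, if these parts are not edges. -/
theorem Disc.conn {l : List V} {F : Finset (Finset V)} (h : Disc l F) {A B : Finset (Finset V)}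
    (hF : F = A ∪ B) (hAB : Disjoint A B) (hA : A.Nonempty) (hB : B.Nonempty) :
    ∃ f ∈ A, ∃ g ∈ B, ∃ s t, s ≠ t ∧ s ∈ f ∧ t ∈ f ∧ s ∈ g ∧ t ∈ g := by
  by_contra hcon
  have hsub : A ⊆ F := by rw [hF]; exact Finset.subset_union_left
  have hall := BlkB_closed h A hsub hA (by
    intro f hf g hg hfg
    rw [hF] at hg
    rcases Finset.mem_union.1 hg with hg | hg
    · exact hg
    · exact absurd ⟨f, hf, g, hg, hfg⟩ hcon)
  obtain ⟨g, hg⟩ := hB
  exact (Finset.disjoint_left.1 hAB (hall (by rw [hF]; exact Finset.mem_union_right _ hg))) hg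

/-- a splitting of the inner region of a block at a vertex `x` adjacent to `e` and `y` -/
structure BlkB_Q (T : Finset V) (Fs : Finset (Finset V)) (l m0 : List V) (e : V) (bl : List V)
    (F : Finset (Finset V)) (b : V) (L₁ : List V) (y : V) (L₂ : List V) (x : V)
    (F₁ F₂ : Finset (Finset V)) : Prop where
  hbl : bl = b :: (L₁ ++ y :: L₂)
  xl : x ∉ l
  ex : AdjF F e x
  xy : AdjF F x y
  un : F = F₁ ∪ F₂
  dj : Disjoint F₁ F₂
  r1 : Reg T Fs (y :: ((L₂ ++ m0) ++ [e, x])) F₁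
  r2 : Reg T Fs ((b :: L₁) ++ y :: x :: e :: []) F₂
  cap : ∀ v, v ∈ verts (y :: ((L₂ ++ m0) ++ [e, x])) F₁ →
    v ∈ verts ((b :: L₁) ++ y :: x :: e :: []) F₂ → v = y ∨ v = e ∨ v = x

theorem BlkB_mk {T : Finset V} {Fs : Finset (Finset V)} {l m0 : List V} {e : V} {bl : List V}
    {F : Finset (Finset V)} (hl : l = bl ++ (m0 ++ [e])) (hr : Reg T Fs l F) {b : V}
    {L₁ : List V} {y : V} {L₂ : List V} {x : V} (hbl : bl = b :: (L₁ ++ y :: L₂))
    (xl : x ∉ l) (ex : AdjF F e x) (xy : AdjF F x y) :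
    ∃ F₁ F₂, BlkB_Q T Fs l m0 e bl F b L₁ y L₂ x F₁ F₂ := by
  have hl' : l = (b :: L₁) ++ y :: ((L₂ ++ m0) ++ e :: []) := by
    rw [hl, hbl]; simp
  have hr' := hr
  rw [hl'] at hr'
  have xl' := xl
  rw [hl'] at xl'
  obtain ⟨F₁, F₂, h1, h2, h3, h4, h5⟩ := Reg.chord2 hr' xl' (DiscC_symm xy) ex
  exact ⟨F₁, F₂, hbl, xl, ex, xy, h1, h2, h3, h4, h5⟩

theorem BlkB_inF {l : List V} {F : Finset (Finset V)} {v : V} (h : v ∈ verts l F) (hl : v ∉ l) :
    ∃ f ∈ F, v ∈ f := by
  rcases Finset.mem_union.1 h with h | h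
  · exact absurd (List.mem_toFinset.1 h) hl
  · obtain ⟨f, hf, hv⟩ := Finset.mem_biUnion.1 h
    exact ⟨f, hf, hv⟩

theorem BlkB_ofF {l : List V} {F : Finset (Finset V)} {v : V} {f : Finset V} (hf : f ∈ F)
    (hv : v ∈ f) : v ∈ verts l F :=
  Finset.mem_union_right _ (Finset.mem_biUnion.2 ⟨f, hf, hv⟩)

theorem BlkB_ofl {l : List V} {F : Finset (Finset V)} {v : V} (hv : v ∈ l) : v ∈ verts l F :=
  Finset.mem_union_left _ (List.mem_toFinset.2 hv)

theorem BlkB_face {l : List V} {F : Finset (Finset V)} (h : Disc l F) (hl : 3 ≤ l.length)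
    {v : V} (hv : v ∈ l) : ∃ f ∈ F, v ∈ f := by
  obtain ⟨f, hf, hv⟩ := Finset.mem_biUnion.1 (Disc.mem_biUnion h hl hv)
  exact ⟨f, hf, hv⟩

theorem BlkB_less {T : Finset V} {Fs : Finset (Finset V)} {l m0 : List V} {e : V} {bl : List V}
    {F : Finset (Finset V)} (hl : l = bl ++ (m0 ++ [e])) (hr : Reg T Fs l F)
    (hch : ∀ v ∈ bl.tail, ¬ AdjF F e v) {b : V}
    {L₁ : List V} {y : V} {L₂ : List V} {x : V} {F₁ F₂ : Finset (Finset V)}
    (h : BlkB_Q T Fs l m0 e bl F b L₁ y L₂ x F₁ F₂) {c v : V} {M₁ M₂ : List V}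
    (hM : y :: L₂ = M₁ ++ v :: M₂)
    (hc : (c = x ∧ M₁ ≠ []) ∨ (c ∈ verts (y :: ((L₂ ++ m0) ++ [e, x])) F₁ ∧
      c ∉ y :: ((L₂ ++ m0) ++ [e, x])))
    (hec : AdjF F e c) (hcv : AdjF F c v) :
    ∃ H₁ H₂, BlkB_Q T Fs l m0 e bl F b (L₁ ++ M₁) v M₂ c H₁ H₂ ∧ H₁.card < F₁.card := by
  have hnd : l.Nodup := hr.disc.nodup
  have hbl' : bl = b :: ((L₁ ++ M₁) ++ v :: M₂) := by
    rw [h.hbl, hM]; simp
  have hl1 : l = b :: ((L₁ ++ y :: L₂) ++ (m0 ++ [e])) := by rw [hl, h.hbl]; simp
  have hl2 : l = b :: (((L₁ ++ M₁) ++ v :: M₂) ++ (m0 ++ [e])) := by rw [hl, hbl']; simp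
  have hvt : v ∈ bl.tail := by rw [hbl']; simp
  have hyt : y ∈ bl.tail := by rw [h.hbl]; simp
  have hel : e ∈ l := by rw [hl1]; simp
  have hvl : v ∈ l := by rw [hl2]; simp
  have hyl : y ∈ l := by rw [hl1]; simp
  have hbll : b ∈ l := by rw [hl1]; simp
  have hbe : b ≠ e := by
    rintro rfl
    rw [hl1, List.nodup_cons] at hnd
    exact hnd.1 (by simp)
  have hbv : b ≠ v := by
    rintro rfl
    rw [hl2, List.nodup_cons] at hnd
    exact hnd.1 (by simp)
  have hye : y ≠ e := by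
    rintro rfl
    rw [hl1, List.nodup_cons, List.nodup_append] at hnd
    exact hnd.2.2.2 y (by simp) y (by simp) rfl
  have hve : v ≠ e := by
    rintro rfl
    rw [hl2, List.nodup_cons, List.nodup_append] at hnd
    exact hnd.2.2.2 v (by simp) v (by simp) rfl
  have hxl := h.xl
  have hxy : x ≠ y := fun q => hxl (q ▸ hyl)
  have hxe : x ≠ e := fun q => hxl (q ▸ hel)
  have hxv : x ≠ v := fun q => hxl (q ▸ hvl)
  -- `c` is not on the boundary
  have hcl : c ∉ l := by
    rcases hc with ⟨rfl, -⟩ | ⟨hc1, hc2⟩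
    · exact hxl
    · intro hcl
      rw [hl1] at hcl
      have hc3 : c ∈ (b :: L₁) ++ y :: x :: e :: [] := by
        simp only [List.mem_append, List.mem_cons, List.not_mem_nil, or_false] at hcl hc2 ⊢
        tauto
      rcases h.cap c hc1 (BlkB_ofl hc3) with q | q | q
      · exact hc2 (by rw [q]; simp)
      · exact hc2 (by rw [q]; simp)
      · exact hc2 (by rw [q]; simp)
  obtain ⟨H₁, H₂, hQ⟩ := BlkB_mk hl hr hbl' hcl hec hcv
  refine ⟨H₁, H₂, hQ, ?_⟩
  have d1 : Disc (y :: ((L₂ ++ m0) ++ [e, x])) F₁ := h.r1.disc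
  have d2 : Disc ((b :: L₁) ++ y :: x :: e :: []) F₂ := h.r2.disc
  -- a face with `b` in `F₂ ∩ H₂`
  obtain ⟨fb, hfb, hbfb⟩ := BlkB_face d2 (by simp) (v := b) (by simp)
  have hsub2 : F₂ ⊆ F := by rw [h.un]; exact Finset.subset_union_right
  have hsub1 : F₁ ⊆ F := by rw [h.un]; exact Finset.subset_union_left
  have hfbH : fb ∈ H₂ := by
    have h1 := hsub2 hfb
    rw [hQ.un] at h1
    rcases Finset.mem_union.1 h1 with h1 | h1
    · exfalso
      rcases hQ.cap b (BlkB_ofF h1 hbfb) (BlkB_ofl (by simp)) with q | q | q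
      · exact hbv q
      · exact hbe q
      · exact hcl (q ▸ hbll)
    · exact h1
  -- all faces of `F₂` are in `H₂`
  have hF2 : F₂ ⊆ H₂ := by
    by_contra hcon
    rw [Finset.not_subset] at hcon
    obtain ⟨f0, hf0, hf0'⟩ := hcon
    have hsplit : F₂ = (F₂ ∩ H₁) ∪ (F₂ ∩ H₂) := by
      rw [← Finset.inter_union_distrib_left, ← hQ.un]
      exact (Finset.inter_eq_left.2 hsub2).symm
    have hdj : Disjoint (F₂ ∩ H₁) (F₂ ∩ H₂) :=
      hQ.dj.mono Finset.inter_subset_right Finset.inter_subset_right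
    have hf01 : f0 ∈ F₂ ∩ H₁ := by
      have h1 := hf0
      rw [hsplit] at h1
      rcases Finset.mem_union.1 h1 with h1 | h1
      · exact h1
      · exact absurd (Finset.mem_inter.1 h1).2 hf0'
    obtain ⟨f, hf, g, hg, s, t, hst, hsf, htf, hsg, htg⟩ :=
      d2.conn hsplit hdj ⟨f0, hf01⟩ ⟨fb, Finset.mem_inter.2 ⟨hfb, hfbH⟩⟩
    rw [Finset.mem_inter] at hf hg
    have hs := hQ.cap s (BlkB_ofF hf.2 hsf) (BlkB_ofF hg.2 hsg)
    have ht := hQ.cap t (BlkB_ofF hf.2 htf) (BlkB_ofF hg.2 htg)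
    rcases hc with ⟨rfl, hM1⟩ | ⟨hc1, hc2⟩
    · -- `c = x`, `v` is in no face of `F₂`
      have hv1 : v ∈ y :: ((L₂ ++ m0) ++ [e, c]) := by
        have : v ∈ y :: L₂ := by rw [hM]; simp
        simp only [List.mem_cons, List.mem_append] at this ⊢
        tauto
      have hvy : v ≠ y := by
        obtain ⟨a, M, rfl⟩ := List.exists_cons_of_ne_nil hM1
        rw [List.cons_append, List.cons.injEq] at hM
        rintro rfl
        rw [hl1, hM.2] at hnd
        rw [List.nodup_cons, List.nodup_append, List.nodup_append] at hnd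
        have h5 := hnd.2.1.2.1
        rw [List.nodup_cons] at h5
        exact h5.1 (by simp)
      have hvn : ∀ k ∈ F₂, v ∉ k := by
        intro k hk hvk
        rcases h.cap v (BlkB_ofl hv1) (BlkB_ofF hk hvk) with q | q | q
        · exact hvy q
        · exact hve q
        · exact hxv q.symm
      have hs' : s ≠ v := fun q => hvn f hf.1 (q ▸ hsf)
      have ht' : t ≠ v := fun q => hvn f hf.1 (q ▸ htf)
      have hfg : f = g := by
        have d2' : Disc (((b :: L₁) ++ [y]) ++ c :: e :: []) F₂ := by simpa using d2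
        have hs2 : s = e ∨ s = c := hs.resolve_left hs'
        have ht2 : t = e ∨ t = c := ht.resolve_left ht'
        rcases hs2 with rfl | rfl
        · rcases ht2 with rfl | rfl
          · exact absurd rfl hst
          · exact d2'.bd_unique (Or.inl (by simp)) hf.1 hg.1 htf hsf htg hsg
        · rcases ht2 with rfl | rfl
          · exact d2'.bd_unique (Or.inl (by simp)) hf.1 hg.1 hsf htf hsg htg
          · exact absurd rfl hst
      rw [← hfg] at hg
      exact Finset.disjoint_left.1 hQ.dj hf.2 hg.2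
    · have hcn : ∀ k ∈ F₂, c ∉ k := by
        intro k hk hck
        rcases h.cap c hc1 (BlkB_ofF hk hck) with q | q | q
        · exact hc2 (by rw [q]; simp)
        · exact hc2 (by rw [q]; simp)
        · exact hc2 (by rw [q]; simp)
      have hs' : s ≠ c := fun q => hcn f hf.1 (q ▸ hsf)
      have ht' : t ≠ c := fun q => hcn f hf.1 (q ▸ htf)
      have hs2 : s = v ∨ s = e := by
        rcases hs with q | q | q
        · exact Or.inl q
        · exact Or.inr q
        · exact absurd q hs'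
      have ht2 : t = v ∨ t = e := by
        rcases ht with q | q | q
        · exact Or.inl q
        · exact Or.inr q
        · exact absurd q ht'
      have : AdjF F e v := by
        refine ⟨hve.symm, f, hsub2 hf.1, ?_, ?_⟩
        · rcases hs2 with rfl | rfl
          · rcases ht2 with rfl | rfl
            · exact absurd rfl hst
            · exact htf
          · exact hsf
        · rcases hs2 with rfl | rfl
          · exact hsf
          · rcases ht2 with rfl | rfl
            · exact htf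
            · exact absurd rfl hst
      exact hch v hvt this
  have hH1 : H₁ ⊆ F₁ := by
    intro f hf
    have h1 : f ∈ F := by rw [hQ.un]; exact Finset.mem_union_left _ hf
    rw [h.un] at h1
    rcases Finset.mem_union.1 h1 with h1 | h1
    · exact h1
    · exact absurd (hF2 h1) (Finset.disjoint_left.1 hQ.dj hf)
  apply Finset.card_lt_card
  refine ⟨hH1, fun hcon => ?_⟩
  rcases hc with ⟨rfl, hM1⟩ | ⟨hc1, hc2⟩
  · obtain ⟨g, hg, hyg⟩ := BlkB_face d1 (by simp; omega) (v := y) (by simp)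
    obtain ⟨a, M, rfl⟩ := List.exists_cons_of_ne_nil hM1
    rw [List.cons_append, List.cons.injEq] at hM
    have hya : y = a := hM.1
    subst hya
    have hvy : v ≠ y := by
      rintro rfl
      rw [hl1, hM.2] at hnd
      rw [List.nodup_cons, List.nodup_append, List.nodup_append] at hnd
      have h5 := hnd.2.1.2.1
      rw [List.nodup_cons] at h5
      exact h5.1 (by simp)
    rcases hQ.cap y (BlkB_ofF (hcon hg) hyg) (BlkB_ofl (by simp)) with q | q | q
    · exact hvy q.symm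
    · exact hye q
    · exact hxy q.symm
  · obtain ⟨g, hg, hxg⟩ := BlkB_face d1 (by simp; omega) (v := x) (by simp)
    obtain ⟨k, hk, hxk⟩ := BlkB_face d2 (by simp) (v := x) (by simp)
    rcases hQ.cap x (BlkB_ofF (hcon hg) hxg) (BlkB_ofF (hF2 hk) hxk) with q | q | q
    · exact hxv q
    · exact hxe q
    · exact hc2 (by rw [← q]; simp)

theorem BlkB_find {T : Finset V} {Fs : Finset (Finset V)} {l m0 : List V} {e : V} {bl : List V}
    {F : Finset (Finset V)} (hl : l = bl ++ (m0 ++ [e])) (hr : Reg T Fs l F)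
    (hch : ∀ v ∈ bl.tail, ¬ AdjF F e v) {b : V} (n : ℕ) :
    ∀ {L₁ : List V} {y : V} {L₂ : List V} {x : V} {F₁ F₂ : Finset (Finset V)},
      F₁.card ≤ n → BlkB_Q T Fs l m0 e bl F b L₁ y L₂ x F₁ F₂ →
      ∃ L₁ y L₂ x F₁ F₂, BlkB_Q T Fs l m0 e bl F b L₁ y L₂ x F₁ F₂ ∧
        (∀ v ∈ L₂, ¬ AdjF F₁ x v) ∧
        ∀ c ∈ verts (y :: ((L₂ ++ m0) ++ [e, x])) F₁, c ∉ y :: ((L₂ ++ m0) ++ [e, x]) →
          AdjF F₁ e c → ∀ v ∈ y :: L₂, ¬ AdjF F₁ c v := by
  induction n with
  | zero =>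
    intro L₁ y L₂ x F₁ F₂ hn h
    exfalso
    obtain ⟨f, hf, -⟩ := BlkB_face h.r1.disc (by simp; omega) (v := y) (by simp)
    have := Finset.card_pos.2 ⟨f, hf⟩
    omega
  | succ n ih =>
    intro L₁ y L₂ x F₁ F₂ hn h
    have hsub1 : F₁ ⊆ F := by rw [h.un]; exact Finset.subset_union_left
    by_cases g1 : ∀ v ∈ L₂, ¬ AdjF F₁ x v
    · by_cases g2 : ∀ c ∈ verts (y :: ((L₂ ++ m0) ++ [e, x])) F₁,
          c ∉ y :: ((L₂ ++ m0) ++ [e, x]) → AdjF F₁ e c → ∀ v ∈ y :: L₂, ¬ AdjF F₁ c v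
      · exact ⟨L₁, y, L₂, x, F₁, F₂, h, g1, g2⟩
      · push Not at g2
        obtain ⟨c, hc1, hc2, hec, v, hv, hcv⟩ := g2
        obtain ⟨M₁, M₂, hM⟩ := List.append_of_mem hv
        obtain ⟨H₁, H₂, hQ, hlt⟩ := BlkB_less hl hr hch h hM (Or.inr ⟨hc1, hc2⟩)
          (CombA_adj_mono hsub1 hec) (CombA_adj_mono hsub1 hcv)
        exact ih (by omega) hQ
    · push Not at g1
      obtain ⟨v, hv, hxv⟩ := g1
      obtain ⟨M₁, M₂, hM⟩ := List.append_of_mem hv
      obtain ⟨H₁, H₂, hQ, hlt⟩ := BlkB_less (M₁ := y :: M₁) (M₂ := M₂) (v := v) (c := x)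
        hl hr hch h (by rw [hM]; simp) (Or.inl ⟨rfl, by simp⟩) h.ex (CombA_adj_mono hsub1 hxv)
      exact ih (by omega) hQ

/-- Let `bl = fs.reverse ++ [d]`. If no inner vertex adjacent to `e` is adjacent to a vertex of
`bl.tail`, the first alternative holds. Otherwise consider all `x, y, b, L₁, L₂` with
`bl = b :: (L₁ ++ y :: L₂)`, `x` inner, adjacent to `e` and `y`, and the parts `F₁, F₂` of `Reg.chord2`
(`u = y`, `v = e`, `x`, `p = b :: L₁`, `m = L₂ ++ be ++ [w] ++ al.reverse`, `s = []`; `F₁` is the part of `m`, both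
lists rotated), and choose one with `F₁.card` minimal.
Suppose `x` is adjacent in `F₁` to a vertex `v ∈ L₂` (put `c = x`), or an inner vertex `c` of `F₁` is
adjacent in `F₁` to `e` and to `v ∈ y :: L₂`. Let `H₁, H₂` be the parts of `Reg.chord2` for `c, v`
(`H₁` is the part of `w`). All faces of `F₂` are in one of `H₁`, `H₂`: otherwise by `Disc.conn` there are
`f ∈ F₂ ∩ H₁`, `g ∈ F₂ ∩ H₂` with two common vertices `s, t`, which are in `{v, e, c}`; for inner `c` of
`F₁` `c` is in no face of `F₂`, so `{s, t} = {v, e}` and `e` is adjacent to `v`, against `chQ`; for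
`c = x`, `v ∈ L₂` is in no face of `F₂`, so `{s, t} = {e, x}`, but there is only one face of `F₂` at the
boundary edge `e x` of `F₂` (`Disc.bd_unique`). `F₂` contains a face with `b`, which is in `verts H₂` only,
so `F₂ ⊆ H₂` and `H₁ ⊆ F₁`; the inclusion is strict: a face of `F₁` containing `x` (if `c ≠ x`) or `y`
(if `c = x`) is not in `H₁`, since `x` resp. `y` are in `verts H₂` (in `verts F₂` resp. on the boundary of
`H₂`) and not in `{v, e, c}`. Contradiction.
`MC` of `F₂`: `z1` by `chQ`, `chW` by `chQ`, `z2` is empty. -/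
theorem Blk0.split {T : Finset V} {Fs : Finset (Finset V)} {o1 o2 q w e d : V}
    {al be fs : List V} {F : Finset (Finset V)} (h : Blk0 T Fs o1 o2 q w e d al be fs F) :
    (∀ c ∈ verts (blkBd w e d al be fs) F, c ∉ blkBd w e d al be fs → AdjF F e c →
      ∀ v ∈ (fs.reverse ++ [d]).tail, ¬ AdjF F c v) ∨
    ∃ b L₁ y L₂ x F₁ F₂, fs.reverse ++ [d] = b :: (L₁ ++ y :: L₂) ∧
      x ∈ verts (blkBd w e d al be fs) F ∧ x ∉ blkBd w e d al be fs ∧ AdjF F e x ∧ AdjF F x y ∧
      F = F₁ ∪ F₂ ∧ Disjoint F₁ F₂ ∧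
      Reg T Fs (x :: y :: L₂ ++ be ++ [w] ++ al.reverse ++ [e]) F₁ ∧
      MC T Fs [x] (b :: L₁ ++ [y]) [] [] e F₂ ∧
      (∀ v, v ∈ verts (x :: y :: L₂ ++ be ++ [w] ++ al.reverse ++ [e]) F₁ →
        v ∈ verts ([x] ++ (b :: L₁ ++ [y]).reverse ++ [e]) F₂ → v = x ∨ v = y ∨ v = e) ∧
      Chless F₁ (x :: y :: L₂) ∧
      ∀ c ∈ verts (x :: y :: L₂ ++ be ++ [w] ++ al.reverse ++ [e]) F₁,
        c ∉ x :: y :: L₂ ++ be ++ [w] ++ al.reverse ++ [e] → AdjF F₁ e c →
        ∀ v ∈ y :: L₂, ¬ AdjF F₁ c v := by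
  have hl : blkBd w e d al be fs = (fs.reverse ++ [d]) ++ ((be ++ [w] ++ al.reverse) ++ [e]) := by
    simp [blkBd]
  have hr := h.reg
  have hchQ : Chless F (e :: (fs.reverse ++ [d])) := h.chQ
  have hch : ∀ v ∈ (fs.reverse ++ [d]).tail, ¬ AdjF F e v :=
    fun v hv => CombA_chless_head hchQ hv
  by_cases h0 : ∀ c ∈ verts (blkBd w e d al be fs) F, c ∉ blkBd w e d al be fs → AdjF F e c →
      ∀ v ∈ (fs.reverse ++ [d]).tail, ¬ AdjF F c v
  · exact Or.inl h0
  right
  push Not at h0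
  obtain ⟨c, -, hcl, hec, v, hv, hcv⟩ := h0
  obtain ⟨b, t, hbt⟩ := List.exists_cons_of_ne_nil (show fs.reverse ++ [d] ≠ [] by simp)
  have hvt : v ∈ t := by rw [hbt] at hv; exact hv
  obtain ⟨N₁, N₂, hN⟩ := List.append_of_mem hvt
  obtain ⟨G₁, G₂, hG⟩ := BlkB_mk hl hr (b := b) (L₁ := N₁) (y := v) (L₂ := N₂) (by rw [hbt, hN])
    hcl hec hcv
  obtain ⟨L₁, y, L₂, x, F₁, F₂, hQ, g1, g2⟩ := BlkB_find hl hr hch G₁.card le_rfl hG
  have hsub1 : F₁ ⊆ F := by rw [hQ.un]; exact Finset.subset_union_left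
  have hsub2 : F₂ ⊆ F := by rw [hQ.un]; exact Finset.subset_union_right
  have e1 : ∀ u, u ∈ y :: ((L₂ ++ (be ++ [w] ++ al.reverse)) ++ [e, x]) ↔
      u ∈ x :: y :: L₂ ++ be ++ [w] ++ al.reverse ++ [e] := by
    intro u
    simp only [List.mem_append, List.mem_cons, List.not_mem_nil, or_false]
    tauto
  have e2 : ∀ u, u ∈ (b :: L₁) ++ y :: x :: e :: [] ↔
      u ∈ [x] ++ (b :: L₁ ++ [y]).reverse ++ [e] := by
    intro u
    simp only [List.mem_append, List.mem_cons, List.mem_reverse, List.not_mem_nil, or_false]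
    tauto
  refine ⟨b, L₁, y, L₂, x, F₁, F₂, hQ.hbl, ?_, hQ.xl, hQ.ex, hQ.xy, hQ.un, hQ.dj, ?_, ?_, ?_, ?_, ?_⟩
  · obtain ⟨-, f, hf, hx, -⟩ := hQ.xy
    exact BlkB_ofF hf hx
  · have r1 : Reg T Fs ((y :: (L₂ ++ (be ++ [w] ++ al.reverse) ++ [e])) ++ [x]) F₁ := by
      have := hQ.r1
      simpa using this
    have := r1.rot
    simpa using this
  · refine ⟨?_, ?_, ?_, ?_, ?_⟩
    · have r2 := hQ.r2.rev
      have r3 : Reg T Fs ([e] ++ ([x] ++ (b :: L₁ ++ [y]).reverse)) F₂ := by simpa using r2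
      have := r3.rot
      simpa using this
    · intro p a b' q' c' s hls
      have := congrArg List.length hls
      simp only [List.length_cons, List.length_append, List.length_nil] at this
      omega
    · refine (hchQ.mono hsub2).infx ?_
      rw [hQ.hbl]
      exact ⟨[e], L₂, by simp⟩
    · intro u hu
      have hu' : u ∈ L₁ ++ [y] := by simpa using hu
      intro hadj
      refine hch u ?_ (CombA_adj_mono hsub2 hadj)
      rw [hQ.hbl]
      simp only [List.tail_cons, List.mem_append, List.mem_cons, List.not_mem_nil, or_false] at hu' ⊢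
      tauto
    · intro c' _ _ _ u hu
      simp at hu
  · intro u hu1 hu2
    rw [← CombA_verts e1] at hu1
    rw [← CombA_verts e2] at hu2
    rcases hQ.cap u hu1 hu2 with k | k | k
    · exact Or.inr (Or.inl k)
    · exact Or.inr (Or.inr k)
    · exact Or.inl k
  · intro p a b' q' c' s hls
    rcases p with _ | ⟨p0, p⟩
    · rw [List.nil_append, List.cons.injEq, List.cons.injEq] at hls
      obtain ⟨rfl, -, hL⟩ := hls
      exact g1 c' (by rw [hL]; simp)
    · rw [List.cons_append, List.cons.injEq] at hls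
      have h5 : Chless F₁ (y :: L₂) := by
        refine (hchQ.mono hsub1).infx ?_
        rw [hQ.hbl]
        exact ⟨e :: b :: L₁, [], by simp⟩
      exact h5 p a b' q' c' s hls.2
  · intro c' hc1 hc2 hec' u hu
    rw [← CombA_verts e1] at hc1
    exact g2 c' hc1 (fun hh => hc2 ((e1 c').1 hh)) hec' u hu

end EPG26
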