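import Pool.Agent.W_26e041_h61.GeoS

/-!
Canonical positions of the sockets.
-/

namespace EPG26

variable {V : Type*} [DecidableEq V]

/-- `J` can be drawn in all corner sockets in canonical position -/
def CanC (G : SimpleGraph V) (T J : Finset V) : Prop :=
  ∀ (Γ : Dr V) (U : Bool → Finset ℚ) (s r t : V) (Xs Yr Xt B u yu : ℚ), T = {s, r, t} →
    Wd G Γ U → (∀ v ∈ J, Undrawn Γ v) → Solo Γ {s} true Xs B Yr → Solo Γ {r} false Yr Xs u →
    Solo Γ {t} true Xt B yu → B < yu → yu ≤ Yr → Xs < u → u ≤ Xt →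
    CanFill G Γ U (seg true Xs B Yr ⊔ seg false Yr Xs u ⊔ seg true Xt B yu) J

/-- two horizontal lines of `u`, `v` with a common window, and a vertical line of `x` on the left with
a window above both lines -/
structure CanSock (Γ : Dr V) (u v x : V) (Yu Yv I0 I1 X J0 J1 : ℚ) : Prop where
  hI : I0 < I1
  hJ : J0 < J1
  hu : Solo Γ {u} false Yu I0 I1
  hv : Solo Γ {v} false Yv I0 I1
  hx : Solo Γ {x} true X J0 J1
  ne : Yu ≠ Yv
  XI : X ≤ I0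
  uJ : Yu ≤ J0
  vJ : Yv ≤ J0

/-- `J` can be drawn in all rectangular sockets in canonical position without a zone -/
def CanR (G : SimpleGraph V) (T J : Finset V) : Prop :=
  ∀ (Γ : Dr V) (U : Bool → Finset ℚ) (u v x : V) (Yu Yv I0 I1 X J0 J1 : ℚ), T = {u, v, x} →
    Wd G Γ U → (∀ v ∈ J, Undrawn Γ v) → CanSock Γ u v x Yu Yv I0 I1 X J0 J1 →
    CanFill G Γ U (seg false Yu I0 I1 ⊔ seg false Yv I0 I1 ⊔ seg true X J0 J1) J

/-- `J` can be drawn in all canonical rectangular sockets with a common zone of `u` and `v` -/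
def CanW (G : SimpleGraph V) (T J : Finset V) : Prop :=
  ∀ (Γ : Dr V) (U : Bool → Finset ℚ) (u v x : V) (Yu Yv I0 I1 X J0 J1 R C0 C1 : ℚ),
    T = {u, v, x} → Wd G Γ U → (∀ v ∈ J, Undrawn Γ v) →
    CanSock Γ u v x Yu Yv I0 I1 X J0 J1 → C0 < C1 → Solo Γ {u, v} false R C0 C1 → R ≤ J0 →
    CanFill G Γ U
      (seg false Yu I0 I1 ⊔ seg false Yv I0 I1 ⊔ seg true X J0 J1 ⊔ seg false R C0 C1) J

/-- `J` can be drawn in all canonical rectangular sockets with a common zone of `u` and `x` -/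
def CanO (G : SimpleGraph V) (T J : Finset V) : Prop :=
  ∀ (Γ : Dr V) (U : Bool → Finset ℚ) (u v x : V) (Yu Yv I0 I1 X J0 J1 X2 C0 C1 : ℚ),
    T = {u, v, x} → Wd G Γ U → (∀ v ∈ J, Undrawn Γ v) →
    CanSock Γ u v x Yu Yv I0 I1 X J0 J1 → C0 < C1 → Solo Γ {u, x} true X2 C0 C1 → C1 ≤ J0 →
    (Yu < Yv ∧ C1 ≤ Yv) ∨ (Yv < Yu ∧ Yv ≤ C0) →
    CanFill G Γ U
      (seg false Yu I0 I1 ⊔ seg false Yv I0 I1 ⊔ seg true X J0 J1 ⊔ seg true X2 C0 C1) J

/-- Exchange of the coordinates: transfer `Γ', U'` back with `swD`, `swp` (`Step.sw`, `Filled.sw`,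
`swp_sup`, `swp_nl`). -/
theorem CanFill.sw {G : SimpleGraph V} {Γ : Dr V} {U : Bool → Finset ℚ} {D : Cov} {J : Finset V}
    (h : CanFill G (swD Γ) (swp U) (swp D) J) : CanFill G Γ U D J := by
  obtain ⟨Γ', U', h1, h2⟩ := h
  refine ⟨swD Γ', swp U', ?_, Filled.sw.2 h2⟩
  apply Step.sw.1
  rw [swD_swD, swp_swp, swp_sup, swp_nl]
  exact h1

theorem CanA_fly_sup {C C' : Cov} : fly (C ⊔ C') = fly C ⊔ fly C' := by
  funext o l
  cases o
  · rfl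
  · rfl

/-- Reflection: transfer back with `flD`, `flU`. -/
theorem CanFill.fl {G : SimpleGraph V} {Γ : Dr V} {U : Bool → Finset ℚ} {D : Cov} {J : Finset V}
    (h : CanFill G (flD Γ) (flU U) (fly D) J) : CanFill G Γ U D J := by
  obtain ⟨Γ', U', h1, h2⟩ := h
  refine ⟨flD Γ', flU U', ?_, Filled.fl.2 h2⟩
  apply Step.fl.1
  rw [flD_flD, flU_flU, CanA_fly_sup, fly_nl]
  exact h1

/-- A larger allowed set. -/
theorem CanFill.mono {G : SimpleGraph V} {Γ : Dr V} {U : Bool → Finset ℚ} {D D' : Cov}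
    {J : Finset V} (h : CanFill G Γ U D J) (hD : D ≤ D') : CanFill G Γ U D' J := by
  obtain ⟨Γ', U', h1, h2⟩ := h
  refine ⟨Γ', U', h1.weaken (sup_le_sup_left hD _) (fun _ hx => hx), h2⟩

theorem CanA_seg_comm (o : Bool) (l a b : ℚ) : seg o l a b = seg o l b a := by
  funext o' l'
  ext x
  simp only [seg, Set.mem_setOf_eq, min_comm a b, max_comm a b]

/-! ### reflection of the first coordinate -/

/-- reflection of the first coordinate for a drawing -/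
def CanA_xD (Γ : Dr V) : Dr V := swD (flD (swD Γ))

/-- reflection of the first coordinate for sets of lines -/
def CanA_xU (U : Bool → Finset ℚ) : Bool → Finset ℚ := swp (flU (swp U))

/-- reflection of the first coordinate for a coverage -/
def CanA_xC (D : Cov) : Cov := swp (fly (swp D))

theorem CanA_x_can {G : SimpleGraph V} {Γ : Dr V} {U : Bool → Finset ℚ} {D : Cov} {J : Finset V}
    (h : CanFill G (CanA_xD Γ) (CanA_xU U) (CanA_xC D) J) : CanFill G Γ U D J :=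
  CanFill.sw (CanFill.fl (CanFill.sw h))

theorem CanA_x_wd {G : SimpleGraph V} {Γ : Dr V} {U : Bool → Finset ℚ} (h : Wd G Γ U) :
    Wd G (CanA_xD Γ) (CanA_xU U) := Wd.sw.2 (Wd.fl.2 (Wd.sw.2 h))

theorem CanA_x_un {Γ : Dr V} {v : V} (h : Undrawn Γ v) : Undrawn (CanA_xD Γ) v :=
  Undrawn.sw.2 (Undrawn.fl.2 (Undrawn.sw.2 h))

theorem CanA_x_solo_v {Γ : Dr V} {S : Set V} {l a b : ℚ} (h : Solo Γ S true l a b) :
    Solo (CanA_xD Γ) S true (-l) a b := by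
  apply Solo.sw.2
  apply Solo.flh.2
  apply Solo.sw.2
  rw [neg_neg]
  exact h

theorem CanA_x_solo_h {Γ : Dr V} {S : Set V} {l a b : ℚ} (h : Solo Γ S false l a b) :
    Solo (CanA_xD Γ) S false l (-b) (-a) := by
  apply Solo.sw.2
  apply Solo.flv.2
  apply Solo.sw.2
  rw [neg_neg, neg_neg]
  exact h

theorem CanA_y_solo_v {Γ : Dr V} {S : Set V} {l a b : ℚ} (h : Solo Γ S true l a b) :
    Solo (flD Γ) S true l (-b) (-a) := by
  apply Solo.flv.2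
  rw [neg_neg, neg_neg]
  exact h

theorem CanA_y_solo_h {Γ : Dr V} {S : Set V} {l a b : ℚ} (h : Solo Γ S false l a b) :
    Solo (flD Γ) S false (-l) a b := by
  apply Solo.flh.2
  rw [neg_neg]
  exact h

theorem CanA_x_sup (C C' : Cov) : CanA_xC (C ⊔ C') = CanA_xC C ⊔ CanA_xC C' := by
  simp only [CanA_xC, swp_sup, CanA_fly_sup]

theorem CanA_x_seg_v (l a b : ℚ) : CanA_xC (seg true l a b) = seg true (-l) a b := by
  simp only [CanA_xC, swp_seg, Bool.not_true, fly_seg_h, Bool.not_false]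

theorem CanA_x_seg_h (l a b : ℚ) : CanA_xC (seg false l a b) = seg false l (-a) (-b) := by
  simp only [CanA_xC, swp_seg, Bool.not_true, fly_seg_v, Bool.not_false]

/-! ### corner sockets -/

theorem CanA_corner1 {G : SimpleGraph V} {T J : Finset V} (hC : CanC G T J) (Γ : Dr V)
    (U : Bool → Finset ℚ) (s r t : V) (Xs Yr Xt B u yu : ℚ) (hT : T = {s, r, t}) (hwd : Wd G Γ U)
    (hJ : ∀ v ∈ J, Undrawn Γ v)
    (hs : Solo Γ {s} true Xs (min B Yr) (max B Yr)) (hr : Solo Γ {r} false Yr Xs u)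
    (ht : Solo Γ {t} true Xt (min B yu) (max B yu))
    (h1 : (B < yu ∧ yu ≤ Yr) ∨ (Yr ≤ yu ∧ yu < B)) (h2 : Xs < u) (h3 : u ≤ Xt) :
    CanFill G Γ U (seg true Xs B Yr ⊔ seg false Yr Xs u ⊔ seg true Xt B yu) J := by
  rcases h1 with ⟨h4, h5⟩ | ⟨h4, h5⟩
  · rw [min_eq_left (by linarith), max_eq_right (by linarith)] at hs
    rw [min_eq_left (by linarith), max_eq_right (by linarith)] at ht
    exact hC Γ U s r t Xs Yr Xt B u yu hT hwd hJ hs hr ht h4 h5 h2 h3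
  · rw [min_eq_right (by linarith), max_eq_left (by linarith)] at hs
    rw [min_eq_right (by linarith), max_eq_left (by linarith)] at ht
    apply CanFill.fl
    have h := hC (flD Γ) (flU U) s r t Xs (-Yr) Xt (-B) u (-yu) hT (Wd.fl.2 hwd)
      (fun v hv => Undrawn.fl.2 (hJ v hv)) (CanA_y_solo_v hs) (CanA_y_solo_h hr)
      (CanA_y_solo_v ht) (by linarith) (by linarith) h2 h3
    rw [CanA_fly_sup, CanA_fly_sup, fly_seg_v, fly_seg_h, fly_seg_v]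
    exact h

theorem CanA_corner2 {G : SimpleGraph V} {T J : Finset V} (hC : CanC G T J) (Γ : Dr V)
    (U : Bool → Finset ℚ) (s r t : V) (Xs Yr Xt B u yu : ℚ) (hT : T = {s, r, t}) (hwd : Wd G Γ U)
    (hJ : ∀ v ∈ J, Undrawn Γ v)
    (hs : Solo Γ {s} true Xs (min B Yr) (max B Yr))
    (hr : Solo Γ {r} false Yr (min Xs u) (max Xs u))
    (ht : Solo Γ {t} true Xt (min B yu) (max B yu))
    (h1 : (B < yu ∧ yu ≤ Yr) ∨ (Yr ≤ yu ∧ yu < B))
    (h2 : (Xs < u ∧ u ≤ Xt) ∨ (Xt ≤ u ∧ u < Xs)) :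
    CanFill G Γ U (seg true Xs B Yr ⊔ seg false Yr Xs u ⊔ seg true Xt B yu) J := by
  rcases h2 with ⟨h4, h5⟩ | ⟨h4, h5⟩
  · rw [min_eq_left (by linarith), max_eq_right (by linarith)] at hr
    exact CanA_corner1 hC Γ U s r t Xs Yr Xt B u yu hT hwd hJ hs hr ht h1 h4 h5
  · rw [min_eq_right (by linarith), max_eq_left (by linarith)] at hr
    apply CanA_x_can
    have h := CanA_corner1 hC (CanA_xD Γ) (CanA_xU U) s r t (-Xs) Yr (-Xt) B (-u) yu hT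
      (CanA_x_wd hwd) (fun v hv => CanA_x_un (hJ v hv)) (CanA_x_solo_v hs) (CanA_x_solo_h hr)
      (CanA_x_solo_v ht) h1 (by linarith) (by linarith)
    rw [CanA_x_sup, CanA_x_sup, CanA_x_seg_v, CanA_x_seg_h, CanA_x_seg_v]
    exact h

theorem CanA_corner {G : SimpleGraph V} {T J : Finset V} (hC : CanC G T J) (Γ : Dr V)
    (U : Bool → Finset ℚ) (s r t : V) (o : Bool) (Xs Yr Xt B u yu : ℚ) (hT : T = {s, r, t})
    (hwd : Wd G Γ U) (hJ : ∀ v ∈ J, Undrawn Γ v) (hk : SockC Γ s r t o Xs Yr Xt B u yu) :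
    CanFill G Γ U (seg o Xs B Yr ⊔ seg (!o) Yr Xs u ⊔ seg o Xt B yu) J := by
  obtain ⟨hs, hr, ht, h1, h2⟩ := hk
  cases o
  · apply CanFill.sw
    have h := CanA_corner2 hC (swD Γ) (swp U) s r t Xs Yr Xt B u yu hT (Wd.sw.2 hwd)
      (fun v hv => Undrawn.sw.2 (hJ v hv)) (Solo.sw.2 hs) (Solo.sw.2 hr) (Solo.sw.2 ht) h1 h2
    rw [swp_sup, swp_sup, swp_seg, swp_seg, swp_seg]
    exact h
  · exact CanA_corner2 hC Γ U s r t Xs Yr Xt B u yu hT hwd hJ hs hr ht h1 h2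

/-! ### sockets with a zone of `u` and `v` -/

theorem CanA_wk1 {G : SimpleGraph V} {T J : Finset V} (hW : CanW G T J) (Γ : Dr V)
    (U : Bool → Finset ℚ) (u v x : V) (Yu Yv I0 I1 X J0 J1 R C0 C1 : ℚ)
    (hT : T = {u, v, x}) (hwd : Wd G Γ U) (hJu : ∀ v ∈ J, Undrawn Γ v)
    (hI : I0 < I1) (hJ : J0 < J1) (hu : Solo Γ {u} false Yu I0 I1)
    (hv : Solo Γ {v} false Yv I0 I1) (hx : Solo Γ {x} true X J0 J1) (ne : Yu ≠ Yv)
    (XI : X ≤ I0) (hCC : C0 < C1) (hz : Solo Γ {u, v} false R C0 C1)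
    (hb : (Yu ≤ J0 ∧ Yv ≤ J0 ∧ R ≤ J0) ∨ (J1 ≤ Yu ∧ J1 ≤ Yv ∧ J1 ≤ R)) :
    CanFill G Γ U
      (seg false Yu I0 I1 ⊔ seg false Yv I0 I1 ⊔ seg true X J0 J1 ⊔ seg false R C0 C1) J := by
  rcases hb with ⟨h1, h2, h3⟩ | ⟨h1, h2, h3⟩
  · exact hW Γ U u v x Yu Yv I0 I1 X J0 J1 R C0 C1 hT hwd hJu
      ⟨hI, hJ, hu, hv, hx, ne, XI, h1, h2⟩ hCC hz h3
  · apply CanFill.fl
    have h := hW (flD Γ) (flU U) u v x (-Yu) (-Yv) I0 I1 X (-J1) (-J0) (-R) C0 C1 hT (Wd.fl.2 hwd)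
      (fun v hv => Undrawn.fl.2 (hJu v hv))
      ⟨hI, by linarith, CanA_y_solo_h hu, CanA_y_solo_h hv, CanA_y_solo_v hx,
        fun e => ne (neg_inj.1 e), XI, by linarith, by linarith⟩ hCC (CanA_y_solo_h hz)
      (by linarith)
    rw [CanA_fly_sup, CanA_fly_sup, CanA_fly_sup, fly_seg_h, fly_seg_h, fly_seg_v, fly_seg_h,
      CanA_seg_comm true]
    exact h

theorem CanA_wk2 {G : SimpleGraph V} {T J : Finset V} (hW : CanW G T J) (Γ : Dr V)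
    (U : Bool → Finset ℚ) (u v x : V) (Yu Yv I0 I1 X J0 J1 R C0 C1 : ℚ)
    (hT : T = {u, v, x}) (hwd : Wd G Γ U) (hJu : ∀ v ∈ J, Undrawn Γ v)
    (hI : I0 < I1) (hJ : J0 < J1) (hu : Solo Γ {u} false Yu I0 I1)
    (hv : Solo Γ {v} false Yv I0 I1) (hx : Solo Γ {x} true X J0 J1) (ne : Yu ≠ Yv)
    (hs : X ≤ I0 ∨ I1 ≤ X) (hCC : C0 < C1) (hz : Solo Γ {u, v} false R C0 C1)
    (hb : (Yu ≤ J0 ∧ Yv ≤ J0 ∧ R ≤ J0) ∨ (J1 ≤ Yu ∧ J1 ≤ Yv ∧ J1 ≤ R)) :
    CanFill G Γ U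
      (seg false Yu I0 I1 ⊔ seg false Yv I0 I1 ⊔ seg true X J0 J1 ⊔ seg false R C0 C1) J := by
  rcases hs with h1 | h1
  · exact CanA_wk1 hW Γ U u v x Yu Yv I0 I1 X J0 J1 R C0 C1 hT hwd hJu hI hJ hu hv hx ne h1 hCC
      hz hb
  · apply CanA_x_can
    have h := CanA_wk1 hW (CanA_xD Γ) (CanA_xU U) u v x Yu Yv (-I1) (-I0) (-X) J0 J1 R (-C1) (-C0)
      hT (CanA_x_wd hwd) (fun v hv => CanA_x_un (hJu v hv)) (by linarith) hJ (CanA_x_solo_h hu)
      (CanA_x_solo_h hv) (CanA_x_solo_v hx) ne (by linarith) (by linarith) (CanA_x_solo_h hz) hb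
    rw [CanA_x_sup, CanA_x_sup, CanA_x_sup, CanA_x_seg_h, CanA_x_seg_h, CanA_x_seg_v,
      CanA_x_seg_h, CanA_seg_comm false Yu, CanA_seg_comm false Yv, CanA_seg_comm false R]
    exact h

theorem CanA_wk {G : SimpleGraph V} {T J : Finset V} (hW : CanW G T J) (Γ : Dr V)
    (U : Bool → Finset ℚ) (u v x : V) (o : Bool) (Yu Yv I0 I1 X J0 J1 R C0 C1 : ℚ)
    (hT : T = {u, v, x}) (hwd : Wd G Γ U) (hJu : ∀ v ∈ J, Undrawn Γ v)
    (hk : SockR Γ u v x o Yu Yv I0 I1 X J0 J1) (hzo : ZoneW Γ u v o Yu Yv J0 J1 R C0 C1) :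
    CanFill G Γ U (seg o Yu I0 I1 ⊔ seg o Yv I0 I1 ⊔ seg (!o) X J0 J1 ⊔ seg o R C0 C1) J := by
  obtain ⟨hI, hJ, hu, hv, hx, ne, side⟩ := hk
  obtain ⟨hCC, hz, hb⟩ := hzo
  cases o
  · exact CanA_wk2 hW Γ U u v x Yu Yv I0 I1 X J0 J1 R C0 C1 hT hwd hJu hI hJ hu hv hx ne side hCC
      hz hb
  · apply CanFill.sw
    have h := CanA_wk2 hW (swD Γ) (swp U) u v x Yu Yv I0 I1 X J0 J1 R C0 C1 hT (Wd.sw.2 hwd)
      (fun v hv => Undrawn.sw.2 (hJu v hv)) hI hJ (Solo.sw.2 hu) (Solo.sw.2 hv) (Solo.sw.2 hx) ne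
      side hCC (Solo.sw.2 hz) hb
    rw [swp_sup, swp_sup, swp_sup, swp_seg, swp_seg, swp_seg, swp_seg]
    exact h

/-! ### sockets with a zone of `u` and `x` -/

theorem CanA_om1 {G : SimpleGraph V} {T J : Finset V} (hO : CanO G T J) (Γ : Dr V)
    (U : Bool → Finset ℚ) (u v x : V) (Yu Yv I0 I1 X J0 J1 X2 C0 C1 : ℚ)
    (hT : T = {u, v, x}) (hwd : Wd G Γ U) (hJu : ∀ v ∈ J, Undrawn Γ v)
    (hI : I0 < I1) (hJ : J0 < J1) (hu : Solo Γ {u} false Yu I0 I1)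
    (hv : Solo Γ {v} false Yv I0 I1) (hx : Solo Γ {x} true X J0 J1) (ne : Yu ≠ Yv)
    (XI : X ≤ I0) (hCC : C0 < C1) (hz : Solo Γ {u, x} true X2 C0 C1)
    (hb : (Yu ≤ J0 ∧ Yv ≤ J0 ∧ C1 ≤ J0) ∨ (J1 ≤ Yu ∧ J1 ≤ Yv ∧ J1 ≤ C0))
    (hm : (Yu < Yv ∧ C1 ≤ Yv) ∨ (Yv < Yu ∧ Yv ≤ C0)) :
    CanFill G Γ U
      (seg false Yu I0 I1 ⊔ seg false Yv I0 I1 ⊔ seg true X J0 J1 ⊔ seg true X2 C0 C1) J := by
  rcases hb with ⟨h1, h2, h3⟩ | ⟨h1, h2, h3⟩
  · exact hO Γ U u v x Yu Yv I0 I1 X J0 J1 X2 C0 C1 hT hwd hJu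
      ⟨hI, hJ, hu, hv, hx, ne, XI, h1, h2⟩ hCC hz h3 hm
  · apply CanFill.fl
    have hm' : (-Yu < -Yv ∧ -C0 ≤ -Yv) ∨ (-Yv < -Yu ∧ -Yv ≤ -C1) := by
      rcases hm with ⟨h4, h5⟩ | ⟨h4, h5⟩
      · right
        exact ⟨by linarith, by linarith⟩
      · left
        exact ⟨by linarith, by linarith⟩
    have h := hO (flD Γ) (flU U) u v x (-Yu) (-Yv) I0 I1 X (-J1) (-J0) X2 (-C1) (-C0) hT
      (Wd.fl.2 hwd) (fun v hv => Undrawn.fl.2 (hJu v hv))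
      ⟨hI, by linarith, CanA_y_solo_h hu, CanA_y_solo_h hv, CanA_y_solo_v hx,
        fun e => ne (neg_inj.1 e), XI, by linarith, by linarith⟩ (by linarith) (CanA_y_solo_v hz)
      (by linarith) hm'
    rw [CanA_fly_sup, CanA_fly_sup, CanA_fly_sup, fly_seg_h, fly_seg_h, fly_seg_v, fly_seg_v,
      CanA_seg_comm true X, CanA_seg_comm true X2]
    exact h

theorem CanA_om2 {G : SimpleGraph V} {T J : Finset V} (hO : CanO G T J) (Γ : Dr V)
    (U : Bool → Finset ℚ) (u v x : V) (Yu Yv I0 I1 X J0 J1 X2 C0 C1 : ℚ)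
    (hT : T = {u, v, x}) (hwd : Wd G Γ U) (hJu : ∀ v ∈ J, Undrawn Γ v)
    (hI : I0 < I1) (hJ : J0 < J1) (hu : Solo Γ {u} false Yu I0 I1)
    (hv : Solo Γ {v} false Yv I0 I1) (hx : Solo Γ {x} true X J0 J1) (ne : Yu ≠ Yv)
    (hs : X ≤ I0 ∨ I1 ≤ X) (hCC : C0 < C1) (hz : Solo Γ {u, x} true X2 C0 C1)
    (hb : (Yu ≤ J0 ∧ Yv ≤ J0 ∧ C1 ≤ J0) ∨ (J1 ≤ Yu ∧ J1 ≤ Yv ∧ J1 ≤ C0))
    (hm : (Yu < Yv ∧ C1 ≤ Yv) ∨ (Yv < Yu ∧ Yv ≤ C0)) :
    CanFill G Γ U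
      (seg false Yu I0 I1 ⊔ seg false Yv I0 I1 ⊔ seg true X J0 J1 ⊔ seg true X2 C0 C1) J := by
  rcases hs with h1 | h1
  · exact CanA_om1 hO Γ U u v x Yu Yv I0 I1 X J0 J1 X2 C0 C1 hT hwd hJu hI hJ hu hv hx ne h1 hCC
      hz hb hm
  · apply CanA_x_can
    have h := CanA_om1 hO (CanA_xD Γ) (CanA_xU U) u v x Yu Yv (-I1) (-I0) (-X) J0 J1 (-X2) C0 C1
      hT (CanA_x_wd hwd) (fun v hv => CanA_x_un (hJu v hv)) (by linarith) hJ (CanA_x_solo_h hu)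
      (CanA_x_solo_h hv) (CanA_x_solo_v hx) ne (by linarith) hCC (CanA_x_solo_v hz) hb hm
    rw [CanA_x_sup, CanA_x_sup, CanA_x_sup, CanA_x_seg_h, CanA_x_seg_h, CanA_x_seg_v,
      CanA_x_seg_v, CanA_seg_comm false Yu, CanA_seg_comm false Yv]
    exact h

theorem CanA_om {G : SimpleGraph V} {T J : Finset V} (hO : CanO G T J) (Γ : Dr V)
    (U : Bool → Finset ℚ) (u v x : V) (o : Bool) (Yu Yv I0 I1 X J0 J1 X2 C0 C1 : ℚ)
    (hT : T = {u, v, x}) (hwd : Wd G Γ U) (hJu : ∀ v ∈ J, Undrawn Γ v)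
    (hk : SockR Γ u v x o Yu Yv I0 I1 X J0 J1) (hzo : ZoneO Γ u x o Yu Yv J0 J1 X2 C0 C1) :
    CanFill G Γ U
      (seg o Yu I0 I1 ⊔ seg o Yv I0 I1 ⊔ seg (!o) X J0 J1 ⊔ seg (!o) X2 C0 C1) J := by
  obtain ⟨hI, hJ, hu, hv, hx, ne, side⟩ := hk
  obtain ⟨hCC, hz, hb, hm⟩ := hzo
  cases o
  · exact CanA_om2 hO Γ U u v x Yu Yv I0 I1 X J0 J1 X2 C0 C1 hT hwd hJu hI hJ hu hv hx ne side hCC
      hz hb hm
  · apply CanFill.sw
    have h := CanA_om2 hO (swD Γ) (swp U) u v x Yu Yv I0 I1 X J0 J1 X2 C0 C1 hT (Wd.sw.2 hwd)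
      (fun v hv => Undrawn.sw.2 (hJu v hv)) hI hJ (Solo.sw.2 hu) (Solo.sw.2 hv) (Solo.sw.2 hx) ne
      side hCC (Solo.sw.2 hz) hb hm
    rw [swp_sup, swp_sup, swp_sup, swp_seg, swp_seg, swp_seg, swp_seg]
    exact h

/-- All positions of the sockets reduce to the canonical ones: exchange the coordinates if
`o = false` (for the corner) or `o = true` (for the other two), reflect the second coordinate
(`fly`), reflect the first coordinate (exchange, `fly`, exchange). Do these reductions one after the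
other (for instance: first prove the statement for canonical orientation and canonical first
coordinate with arbitrary second coordinate, then with arbitrary first coordinate, then for both
orientations). Open windows `(a, b)` of a vertical line become `(-b, -a)` under `fly`; `seg` is
symmetric in its two ends. In the corner socket the reflected data are `-B, -Yr, -yu` resp.
`-Xs, -Xt, -u`; in the rectangular sockets the window `(J0, J1)` and the zone are reflected together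
with `Yu, Yv`. The second alternative of `side`, `beyond` and `same` is exchanged with the first one. -/
theorem FillT.of_can {G : SimpleGraph V} {T J : Finset V} (hC : CanC G T J) (hW : CanW G T J)
    (hO : CanO G T J) : FillT G T J :=
  ⟨CanA_corner hC, CanA_wk hW, CanA_om hO⟩

/-- `CanR` implies `CanW` and `CanO`. -/
theorem FillT.of_canR {G : SimpleGraph V} {T J : Finset V} (hC : CanC G T J) (hR : CanR G T J) :
    FillT G T J := by
  refine FillT.of_can hC ?_ ?_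
  · intro Γ U u v x Yu Yv I0 I1 X J0 J1 R C0 C1 hT hwd hJu hk _ _ _
    exact (hR Γ U u v x Yu Yv I0 I1 X J0 J1 hT hwd hJu hk).mono le_sup_left
  · intro Γ U u v x Yu Yv I0 I1 X J0 J1 X2 C0 C1 hT hwd hJu hk _ _ _ _
    exact (hR Γ U u v x Yu Yv I0 I1 X J0 J1 hT hwd hJu hk).mono le_sup_left

theorem CanA_empty {G : SimpleGraph V} {Γ : Dr V} {U : Bool → Finset ℚ} (h : Wd G Γ U) (D : Cov) :
    CanFill G Γ U D ∅ :=
  ⟨Γ, U, Step.refl h _ _, fun v hv => absurd hv (Finset.notMem_empty v)⟩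

/-- Nothing has to be drawn. -/
theorem FillT.empty (G : SimpleGraph V) (T : Finset V) : FillT G T ∅ := by
  refine ⟨?_, ?_, ?_⟩
  · intro Γ U s r t o Xs Yr Xt B u yu _ hwd _ _
    exact CanA_empty hwd _
  · intro Γ U u v x o Yu Yv I0 I1 X J0 J1 R C0 C1 _ hwd _ _ _
    exact CanA_empty hwd _
  · intro Γ U u v x o Yu Yv I0 I1 X J0 J1 X2 C0 C1 _ hwd _ _ _
    exact CanA_empty hwd _

end EPG26
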