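import Pool.Agent.W_26e041_h61.StageA
import Pool.Agent.W_26e041_h61.CanA

/-!
Drawing a block: the vertex `w`.
-/

namespace EPG26

variable {V : Type*} [DecidableEq V]

/-- where a block may draw -/
def blkD (U : Bool → Finset ℚ) (Ll Lu I0 I1 Xq J0 J1 : ℚ) : Cov :=
  nl U ⊔ (seg false Ll I0 I1 ⊔ seg false Lu I0 I1 ⊔ seg true Xq J0 J1)

/-- A line before the first vertex is put on it. Only `l.ow` covers it from `I0` to `l.R`
(inclusively); `w` alone covers the column `l.R` between the line and `l.s1`, and with `l.ow` the line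
between `l.R` and `l.nr`; only `l.ow` covers it between `hR` and `I1`. (The other fields of `l` are not
used.) -/
structure PreL (Γ : Dr V) (D : Cov) (w : V) (Xw I0 hR I1 : ℚ) (l : Ln V) : Prop where
  XR : Xw ≤ l.R
  nr : l.R < l.nr
  nh : l.nr ≤ hR
  hI : hR < I1
  Λs : l.Λ < l.s1
  free : ∀ x, I0 < x → x ≤ l.R → x ∈ D false l.Λ ∧ ∀ v, x ∈ Γ v false l.Λ ↔ v = l.ow
  row : SW Γ D {l.ow, w} false l.Λ l.R l.nr
  col : SW Γ D {w} true l.R l.Λ l.s1
  tail : SW Γ D {l.ow} false l.Λ hR I1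

/-- The drawing of a block after `w`: two lines, the columns of `w` and `q` between `S1` (above both
lines) and `Top`. -/
structure BW (Γ : Dr V) (U : Bool → Finset ℚ) (D : Cov) (q w : V)
    (Xq I0 I1 Xw S1 Top hR : ℚ) (l1 l2 : Ln V) : Prop where
  XI : Xq ≤ I0
  IX : I0 < Xw
  ST : S1 < Top
  ne : l1.Λ ≠ l2.Λ
  Λ1 : l1.Λ < S1
  Λ2 : l2.Λ < S1
  s1 : l1.s1 ≤ S1
  s2 : l2.s1 ≤ S1
  u1 : l1.Λ ∈ U false
  u2 : l2.Λ ∈ U false
  uw : Xw ∈ U true
  uq : Xq ∈ U true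
  p1 : PreL Γ D w Xw I0 hR I1 l1
  p2 : PreL Γ D w Xw I0 hR I1 l2
  wcol : SW Γ D {w} true Xw S1 Top
  qcol : SW Γ D {q} true Xq S1 Top

theorem BlkC_seg {o : Bool} {l a b : ℚ} (h : a < b) {o' : Bool} {l' p : ℚ} :
    p ∈ seg o l a b o' l' ↔ o' = o ∧ l' = l ∧ a < p ∧ p < b := by
  show (o' = o ∧ l' = l ∧ min a b < p ∧ p < max a b) ↔ _
  rw [min_eq_left h.le, max_eq_right h.le]

theorem BlkC_seg' {o : Bool} {l a b : ℚ} (h : b < a) {o' : Bool} {l' p : ℚ} :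
    p ∈ seg o l a b o' l' ↔ o' = o ∧ l' = l ∧ b < p ∧ p < a := by
  show (o' = o ∧ l' = l ∧ min a b < p ∧ p < max a b) ↔ _
  rw [min_eq_right h.le, max_eq_left h.le]

theorem BlkC_zig {t a b c d e : ℚ} (h1 : b < t) (h2 : a < c) (h3 : d < b) (h4 : c < e)
    {o : Bool} {l p : ℚ} : p ∈ zig true [t, a, b, c, d, e] o l ↔
      (o = true ∧ l = a ∧ b < p ∧ p < t) ∨ (o = false ∧ l = b ∧ a < p ∧ p < c) ∨
      (o = true ∧ l = c ∧ d < p ∧ p < b) ∨ (o = false ∧ l = d ∧ c < p ∧ p < e) := by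
  have e1 : zig true [t, a, b, c, d, e] o l =
      seg true a t b o l ∪ (seg false b a c o l ∪ (seg true c b d o l ∪
        (seg false d c e o l ∪ ∅))) := rfl
  rw [e1]
  simp only [Set.mem_union, Set.mem_empty_iff_false, or_false]
  rw [BlkC_seg' h1, BlkC_seg h2, BlkC_seg' h3, BlkC_seg h4]

theorem BlkC_D {U : Bool → Finset ℚ} {Ll Lu I0 I1 Xq J0 J1 : ℚ} (hI : I0 < I1) (hJ : J0 < J1)
    {o : Bool} {l x : ℚ} : x ∈ blkD U Ll Lu I0 I1 Xq J0 J1 o l ↔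
      l ∉ U o ∨ (o = false ∧ l = Ll ∧ I0 < x ∧ x < I1) ∨ (o = false ∧ l = Lu ∧ I0 < x ∧ x < I1) ∨
        (o = true ∧ l = Xq ∧ J0 < x ∧ x < J1) := by
  have e1 : (x ∈ blkD U Ll Lu I0 I1 Xq J0 J1 o l) ↔ (l ∉ U o ∨ ((x ∈ seg false Ll I0 I1 o l ∨
      x ∈ seg false Lu I0 I1 o l) ∨ x ∈ seg true Xq J0 J1 o l)) := Iff.rfl
  rw [e1, BlkC_seg hI, BlkC_seg hI, BlkC_seg hJ, or_assoc]

theorem BW.symm {Γ : Dr V} {U : Bool → Finset ℚ} {D : Cov} {q w : V}
    {Xq I0 I1 Xw S1 Top hR : ℚ} {l1 l2 : Ln V} (h : BW Γ U D q w Xq I0 I1 Xw S1 Top hR l1 l2) :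
    BW Γ U D q w Xq I0 I1 Xw S1 Top hR l2 l1 :=
  ⟨h.XI, h.IX, h.ST, h.ne.symm, h.Λ2, h.Λ1, h.s2, h.s1, h.u2, h.u1, h.uw, h.uq, h.p2, h.p1,
    h.wcol, h.qcol⟩

/-- Draw `w` and fill the face `{ol, ou, w}`.
Choose `I0 < Xw < X₁ < hE < yu < hR < I1` with `Xw, X₁` new, `Ll < sig < Lu`, `J0 < S1 < Top < J1`.
`Γ' w = zig true [Top, Xw, Lu, X₁, Ll, hE]`: it meets `ou` on `Lu` between `Xw` and `X₁` and `ol` on `Ll`
between `X₁` and `hE`. The face is a corner socket with `o = false`: `s = ou` on `Xs = Lu`, `r = w` on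
`Yr = X₁`, `t = ol` on `Xt = Ll`, `B = hR`, `u = sig`, `yu` (between `hE` and `hR`).
Lines: `l1` with `ow = ol`, `Λ = Ll`, `R = X₁`, `nr = hE`, `s1 = sig`; `l2` with `ow = ou`, `Λ = Lu`,
`R = Xw`, `nr = X₁`, `s1 = S1` (the other fields arbitrary). -/
theorem blk_w {G : SimpleGraph V} {Γ : Dr V} {U : Bool → Finset ℚ} {ol ou q w : V}
    {Ll Lu I0 I1 Xq J0 J1 : ℚ} {J : Finset V} (hw : Wd G Γ U)
    (hS : CanSock Γ ol ou q Ll Lu I0 I1 Xq J0 J1) (hL : Ll < Lu) (hlu : ol ≠ ou)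
    (hun : Undrawn Γ w) (hwl : G.Adj w ol) (hwu : G.Adj w ou)
    (hJ : ∀ v ∈ J, Undrawn Γ v ∧ v ≠ w ∧ v ≠ ol ∧ v ≠ ou ∧ v ≠ q) (hwq : w ≠ q)
    (hf : FillT G {ol, ou, w} J) :
    ∃ Γ' U' Xw S1 Top hR l1 l2, l1.ow = ol ∧ l2.ow = ou ∧
      Step G Γ U (blkD U Ll Lu I0 I1 Xq J0 J1) {v | v = w ∨ v ∈ J} Γ' U' ∧
      BW Γ' U' (blkD U Ll Lu I0 I1 Xq J0 J1) q w Xq I0 I1 Xw S1 Top hR l1 l2 ∧
      IsPath3 (Γ' w) ∧ Filled G Γ' J ∧ Ov Γ' w ol ∧ Ov Γ' w ou := by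
  have hUl : Ll ∈ U false := hS.hu.mem (v := ol) rfl hw.lines hS.hI
  have hUu : Lu ∈ U false := hS.hv.mem (v := ou) rfl hw.lines hS.hI
  have hUq : Xq ∈ U true := hS.hx.mem (v := q) rfl hw.lines hS.hJ
  obtain ⟨Xw, a1, a2, a3⟩ := exists_fresh U true hS.hI
  obtain ⟨X₁, b1, b2, b3⟩ := exists_fresh U true a2
  obtain ⟨hE, c1, c2⟩ := exists_between b2
  obtain ⟨yu, d1, d2⟩ := exists_between c2
  obtain ⟨hR, e1, e2⟩ := exists_between d2
  obtain ⟨S1, f1, f2⟩ := exists_between hS.hJ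
  obtain ⟨Top, g1, g2⟩ := exists_between f2
  obtain ⟨sig, k1, k2⟩ := exists_between hL
  have hLuJ := hS.vJ
  have hLlJ := hS.uJ
  have hXI := hS.XI
  have hI := hS.hI
  have hJJ := hS.hJ
  have t1 : Lu < Top := by linarith
  have hXq1 : Xq ≠ Xw := fun e => a3 (e ▸ hUq)
  have hXq2 : Xq ≠ X₁ := fun e => b3 (e ▸ hUq)
  set C : Cov := zig true [Top, Xw, Lu, X₁, Ll, hE] with hC
  have hCm : ∀ {o : Bool} {l p : ℚ}, p ∈ C o l ↔
      (o = true ∧ l = Xw ∧ Lu < p ∧ p < Top) ∨ (o = false ∧ l = Lu ∧ Xw < p ∧ p < X₁) ∨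
      (o = true ∧ l = X₁ ∧ Ll < p ∧ p < Lu) ∨ (o = false ∧ l = Ll ∧ X₁ < p ∧ p < hE) :=
    fun {o l p} => BlkC_zig t1 b1 hL c1
  set D : Cov := blkD U Ll Lu I0 I1 Xq J0 J1 with hD
  have hDm : ∀ {o : Bool} {l x : ℚ}, x ∈ D o l ↔
      l ∉ U o ∨ (o = false ∧ l = Ll ∧ I0 < x ∧ x < I1) ∨ (o = false ∧ l = Lu ∧ I0 < x ∧ x < I1) ∨
        (o = true ∧ l = Xq ∧ J0 < x ∧ x < J1) := fun {o l x} => BlkC_D hI hJJ
  have hCD : ∀ o l x, x ∈ C o l → x ∈ D o l := by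
    intro o l x hx
    rw [hCm] at hx
    rw [hDm]
    rcases hx with ⟨rfl, rfl, -, -⟩ | ⟨rfl, rfl, h1, h2⟩ | ⟨rfl, rfl, -, -⟩ | ⟨rfl, rfl, h1, h2⟩
    · exact Or.inl a3
    · exact Or.inr (Or.inr (Or.inl ⟨rfl, rfl, by linarith, by linarith⟩))
    · exact Or.inl b3
    · exact Or.inr (Or.inl ⟨rfl, rfl, by linarith, by linarith⟩)
  have hfr : ∀ (o : Bool) (l x : ℚ) (v : V), x ∈ Γ v o l → l ∈ U o := fun o l x v h =>
    hw.lines v o l x h
  set U₁ := addL (addL U true Xw) true X₁ with hU₁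
  have hU₁m : ∀ {o : Bool} {l : ℚ}, l ∈ U₁ o ↔ (l ∈ U o ∨ (o = true ∧ l = Xw)) ∨
      (o = true ∧ l = X₁) := fun {o l} => by rw [hU₁, mem_addL, mem_addL]
  have st1 : Step G Γ U D {w} (Function.update Γ w C) U₁ := by
    refine Step.draw hw ?_ ?_ ?_ ?_ ?_
    · intro o l hl
      exact hU₁m.2 (Or.inl (Or.inl hl))
    · intro o l x hx
      exact absurd hx (hun o l x)
    · intro o l x hx
      rw [hCm] at hx
      rw [hU₁m]
      rcases hx with ⟨rfl, rfl, -, -⟩ | ⟨rfl, rfl, h1, h2⟩ | ⟨rfl, rfl, -, -⟩ | ⟨rfl, rfl, h1, h2⟩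
      · exact Or.inl (Or.inr ⟨rfl, rfl⟩)
      · exact Or.inl (Or.inl hUu)
      · exact Or.inr ⟨rfl, rfl⟩
      · exact Or.inl (Or.inl hUl)
    · intro o l x hx _
      exact hCD o l x hx
    · intro o l x hx _ v hv hvx
      rw [hCm] at hx
      rcases hx with ⟨rfl, rfl, -, -⟩ | ⟨rfl, rfl, h1, h2⟩ | ⟨rfl, rfl, -, -⟩ | ⟨rfl, rfl, h1, h2⟩
      · exact absurd (hfr _ _ _ _ hvx) a3
      · have := (hS.hv x (by linarith) (by linarith) v).1 hvx
        rw [Set.mem_singleton_iff] at this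
        rw [this]; exact hwu
      · exact absurd (hfr _ _ _ _ hvx) b3
      · have := (hS.hu x (by linarith) (by linarith) v).1 hvx
        rw [Set.mem_singleton_iff] at this
        rw [this]; exact hwl
  set Γ₁ := Function.update Γ w C with hΓ₁
  have hΓ₁m : ∀ {v : V} {o : Bool} {l x : ℚ}, x ∈ Γ₁ v o l ↔
      (v = w ∧ x ∈ C o l) ∨ x ∈ Γ v o l := by
    intro v o l x
    by_cases hv : v = w
    · subst hv
      rw [hΓ₁, Function.update_self]
      constructor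
      · intro h; exact Or.inl ⟨rfl, h⟩
      · rintro (⟨-, h⟩ | h)
        · exact h
        · exact absurd h (hun o l x)
    · rw [hΓ₁, Function.update_of_ne hv]
      constructor
      · intro h; exact Or.inr h
      · rintro (⟨h, -⟩ | h)
        · exact absurd h hv
        · exact h
  -- the face
  have hJ₁ : ∀ v ∈ J, Undrawn Γ₁ v := by
    intro v hv o l x hx
    rcases hΓ₁m.1 hx with ⟨h, -⟩ | h
    · exact (hJ v hv).2.1 h
    · exact (hJ v hv).1 o l x h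
  have hsock : SockC Γ₁ ou w ol false Lu X₁ Ll hR sig yu := by
    refine ⟨?_, ?_, ?_, Or.inr ⟨by linarith, e1⟩, Or.inr ⟨k1.le, k2⟩⟩
    · rw [min_eq_right (by linarith), max_eq_left (by linarith)]
      intro x hx1 hx2 v
      rw [hΓ₁m, hCm, hS.hv x (by linarith) (by linarith) v]
      constructor
      · rintro (⟨-, h⟩ | h)
        · rcases h with ⟨h, -⟩ | ⟨-, -, -, h⟩ | ⟨h, -⟩ | ⟨-, h, -⟩
          · exact absurd h (by decide)
          · linarith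
          · exact absurd h (by decide)
          · exact absurd h hL.ne'
        · exact h
      · intro h; exact Or.inr h
    · rw [min_eq_right (by linarith), max_eq_left (by linarith)]
      intro x hx1 hx2 v
      rw [hΓ₁m, hCm]
      constructor
      · rintro (⟨h, -⟩ | h)
        · exact h
        · exact absurd (hfr _ _ _ _ h) b3
      · intro h
        exact Or.inl ⟨h, Or.inr (Or.inr (Or.inl ⟨rfl, rfl, by linarith, hx2⟩))⟩
    · rw [min_eq_right (by linarith), max_eq_left (by linarith)]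
      intro x hx1 hx2 v
      rw [hΓ₁m, hCm, hS.hu x (by linarith) (by linarith) v]
      constructor
      · rintro (⟨-, h⟩ | h)
        · rcases h with ⟨h, -⟩ | ⟨-, h, -⟩ | ⟨h, -⟩ | ⟨-, -, -, h⟩
          · exact absurd h (by decide)
          · exact absurd h hL.ne
          · exact absurd h (by decide)
          · linarith
        · exact h
      · intro h; exact Or.inr h
  have hT : ({ol, ou, w} : Finset V) = {ou, w, ol} := by
    ext v
    simp only [Finset.mem_insert, Finset.mem_singleton]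
    tauto
  obtain ⟨Γ₂, U₂, st2, hfill⟩ := hf.corner Γ₁ U₁ ou w ol false Lu X₁ Ll hR sig yu hT st1.wd hJ₁ hsock
  set D₂ : Cov := nl U₁ ⊔ (seg false Lu hR X₁ ⊔ seg (!false) X₁ Lu sig ⊔ seg false Ll hR yu)
    with hD₂
  have hD₂m : ∀ {o : Bool} {l x : ℚ}, x ∈ D₂ o l ↔ l ∉ U₁ o ∨
      (o = false ∧ l = Lu ∧ X₁ < x ∧ x < hR) ∨ (o = true ∧ l = X₁ ∧ sig < x ∧ x < Lu) ∨
      (o = false ∧ l = Ll ∧ yu < x ∧ x < hR) := by
    intro o l x
    have q1 : (x ∈ D₂ o l) ↔ (l ∉ U₁ o ∨ ((x ∈ seg false Lu hR X₁ o l ∨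
      x ∈ seg true X₁ Lu sig o l) ∨ x ∈ seg false Ll hR yu o l)) := Iff.rfl
    rw [q1, BlkC_seg' (by linarith), BlkC_seg' k2, BlkC_seg' e1, or_assoc]
  have hg := st2.grow
  have hUl₁ : Ll ∈ U₁ false := st1.sub _ hUl
  have hUu₁ : Lu ∈ U₁ false := st1.sub _ hUu
  have hUq₁ : Xq ∈ U₁ true := st1.sub _ hUq
  have hUw₁ : Xw ∈ U₁ true := hU₁m.2 (Or.inl (Or.inr ⟨rfl, rfl⟩))
  have hUx₁ : X₁ ∈ U₁ true := hU₁m.2 (Or.inr ⟨rfl, rfl⟩)
  have hwJ : w ∉ (↑J : Set V) := fun h => (hJ w h).2.1 rfl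
  -- windows of `Γ₁`
  have wLl : ∀ x, I0 < x → x < I1 → ∀ v, x ∈ Γ₁ v false Ll ↔
      (v = w ∧ X₁ < x ∧ x < hE) ∨ v = ol := by
    intro x h1 h2 v
    rw [hΓ₁m, hCm, hS.hu x h1 h2 v, Set.mem_singleton_iff]
    constructor
    · rintro (⟨h, h'⟩ | h)
      · rcases h' with ⟨h', -⟩ | ⟨-, h', -⟩ | ⟨h', -⟩ | ⟨-, -, h3, h4⟩
        · exact absurd h' (by decide)
        · exact absurd h' hL.ne
        · exact absurd h' (by decide)
        · exact Or.inl ⟨h, h3, h4⟩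
      · exact Or.inr h
    · rintro (⟨h, h3, h4⟩ | h)
      · exact Or.inl ⟨h, Or.inr (Or.inr (Or.inr ⟨rfl, rfl, h3, h4⟩))⟩
      · exact Or.inr h
  have wLu : ∀ x, I0 < x → x < I1 → ∀ v, x ∈ Γ₁ v false Lu ↔
      (v = w ∧ Xw < x ∧ x < X₁) ∨ v = ou := by
    intro x h1 h2 v
    rw [hΓ₁m, hCm, hS.hv x h1 h2 v, Set.mem_singleton_iff]
    constructor
    · rintro (⟨h, h'⟩ | h)
      · rcases h' with ⟨h', -⟩ | ⟨-, -, h3, h4⟩ | ⟨h', -⟩ | ⟨-, h', -⟩
        · exact absurd h' (by decide)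
        · exact Or.inl ⟨h, h3, h4⟩
        · exact absurd h' (by decide)
        · exact absurd h' hL.ne'
      · exact Or.inr h
    · rintro (⟨h, h3, h4⟩ | h)
      · exact Or.inl ⟨h, Or.inr (Or.inl ⟨rfl, rfl, h3, h4⟩)⟩
      · exact Or.inr h
  have wX1 : ∀ x v, x ∈ Γ₁ v true X₁ ↔ v = w ∧ Ll < x ∧ x < Lu := by
    intro x v
    rw [hΓ₁m, hCm]
    constructor
    · rintro (⟨h, h'⟩ | h)
      · rcases h' with ⟨-, h', -⟩ | ⟨h', -⟩ | ⟨-, -, h3, h4⟩ | ⟨h', -⟩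
        · exact absurd h' b1.ne'
        · exact absurd h' (by decide)
        · exact ⟨h, h3, h4⟩
        · exact absurd h' (by decide)
      · exact absurd (hfr _ _ _ _ h) b3
    · rintro ⟨h, h3, h4⟩
      exact Or.inl ⟨h, Or.inr (Or.inr (Or.inl ⟨rfl, rfl, h3, h4⟩))⟩
  have wXw : ∀ x v, x ∈ Γ₁ v true Xw ↔ v = w ∧ Lu < x ∧ x < Top := by
    intro x v
    rw [hΓ₁m, hCm]
    constructor
    · rintro (⟨h, h'⟩ | h)
      · rcases h' with ⟨-, -, h3, h4⟩ | ⟨h', -⟩ | ⟨-, h', -⟩ | ⟨h', -⟩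
        · exact ⟨h, h3, h4⟩
        · exact absurd h' (by decide)
        · exact absurd h' b1.ne
        · exact absurd h' (by decide)
      · exact absurd (hfr _ _ _ _ h) a3
    · rintro ⟨h, h3, h4⟩
      exact Or.inl ⟨h, Or.inl ⟨rfl, rfl, h3, h4⟩⟩
  have wXq : ∀ x v, J0 < x → x < J1 → (x ∈ Γ₁ v true Xq ↔ v = q) := by
    intro x v h1 h2
    rw [hΓ₁m, hCm, hS.hx x h1 h2 v, Set.mem_singleton_iff]
    constructor
    · rintro (⟨h, h'⟩ | h)
      · rcases h' with ⟨-, h', -⟩ | ⟨h', -⟩ | ⟨-, h', -⟩ | ⟨h', -⟩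
        · exact absurd h' hXq1
        · exact absurd h' (by decide)
        · exact absurd h' hXq2
        · exact absurd h' (by decide)
      · exact h
    · intro h; exact Or.inr h
  -- no growth in these windows
  have nLl : ∀ x, x ≤ yu ∨ hR ≤ x → x ∉ D₂ false Ll := by
    intro x hx h
    rw [hD₂m] at h
    rcases h with h | ⟨-, h, -⟩ | ⟨h, -⟩ | ⟨-, -, h3, h4⟩
    · exact h hUl₁
    · exact absurd h hL.ne
    · exact absurd h (by decide)
    · rcases hx with hx | hx <;> linarith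
  have nLu : ∀ x, x ≤ X₁ ∨ hR ≤ x → x ∉ D₂ false Lu := by
    intro x hx h
    rw [hD₂m] at h
    rcases h with h | ⟨-, -, h3, h4⟩ | ⟨h, -⟩ | ⟨-, h, -⟩
    · exact h hUu₁
    · rcases hx with hx | hx <;> linarith
    · exact absurd h (by decide)
    · exact absurd h hL.ne'
  have nX1 : ∀ x, x ≤ sig → x ∉ D₂ true X₁ := by
    intro x hx h
    rw [hD₂m] at h
    rcases h with h | ⟨h, -⟩ | ⟨-, -, h3, h4⟩ | ⟨h, -⟩
    · exact h hUx₁
    · exact absurd h (by decide)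
    · linarith
    · exact absurd h (by decide)
  have nXw : ∀ x, x ∉ D₂ true Xw := by
    intro x h
    rw [hD₂m] at h
    rcases h with h | ⟨h, -⟩ | ⟨-, h, -⟩ | ⟨h, -⟩
    · exact h hUw₁
    · exact absurd h (by decide)
    · exact absurd h b1.ne
    · exact absurd h (by decide)
  have nXq : ∀ x, x ∉ D₂ true Xq := by
    intro x h
    rw [hD₂m] at h
    rcases h with h | ⟨h, -⟩ | ⟨-, h, -⟩ | ⟨h, -⟩
    · exact h hUq₁
    · exact absurd h (by decide)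
    · exact absurd h hXq2
    · exact absurd h (by decide)
  have key : ∀ {v : V} {o : Bool} {l x : ℚ}, x ∉ D₂ o l → (x ∈ Γ₂ v o l ↔ x ∈ Γ₁ v o l) := by
    intro v o l x h
    constructor
    · intro h1
      rcases hg.new v o l x h1 with h2 | ⟨-, h2⟩
      · exact h2
      · exact absurd h2 h
    · exact hg.mono v o l x
  have dLl : ∀ x, I0 < x → x < I1 → x ∈ D false Ll := fun x h1 h2 =>
    hDm.2 (Or.inr (Or.inl ⟨rfl, rfl, h1, h2⟩))
  have dLu : ∀ x, I0 < x → x < I1 → x ∈ D false Lu := fun x h1 h2 =>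
    hDm.2 (Or.inr (Or.inr (Or.inl ⟨rfl, rfl, h1, h2⟩)))
  have dX1 : ∀ x, x ∈ D true X₁ := fun x => hDm.2 (Or.inl b3)
  have dXw : ∀ x, x ∈ D true Xw := fun x => hDm.2 (Or.inl a3)
  have dXq : ∀ x, J0 < x → x < J1 → x ∈ D true Xq := fun x h1 h2 =>
    hDm.2 (Or.inr (Or.inr (Or.inr ⟨rfl, rfl, h1, h2⟩)))
  have hst : Step G Γ U D {v | v = w ∨ v ∈ J} Γ₂ U₂ := by
    refine (st1.weaken le_rfl ?_).trans (st2.weaken ?_ ?_)
    · intro v hv
      exact Or.inl hv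
    · intro o l x hx
      have hx' : x ∈ D₂ o l := hx
      rw [hD₂m] at hx'
      show x ∈ D o l
      rw [hDm]
      rcases hx' with h | ⟨rfl, rfl, h1, h2⟩ | ⟨rfl, rfl, h1, h2⟩ | ⟨rfl, rfl, h1, h2⟩
      · exact Or.inl fun h' => h (st1.sub _ h')
      · exact Or.inr (Or.inr (Or.inl ⟨rfl, rfl, by linarith, by linarith⟩))
      · exact Or.inl b3
      · exact Or.inr (Or.inl ⟨rfl, rfl, by linarith, by linarith⟩)
    · intro v hv
      exact Or.inr hv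
  obtain ⟨x₁, x₂, x₃⟩ : ∃ x, X₁ < x ∧ x < hE := exists_between c1
  obtain ⟨y₁, y₂, y₃⟩ : ∃ x, Xw < x ∧ x < X₁ := exists_between b1
  refine ⟨Γ₂, U₂, Xw, S1, Top, hR,
    ⟨ol, Ll, 0, 0, 0, X₁, 0, 0, 0, sig, hE⟩, ⟨ou, Lu, 0, 0, 0, Xw, 0, 0, 0, S1, X₁⟩, rfl, rfl,
    hst, ?_, ?_, hfill, ?_, ?_⟩
  · refine ⟨hXI, a1, g1, hL.ne, ?_, ?_, ?_, le_rfl, st2.sub _ hUl₁, st2.sub _ hUu₁,
      st2.sub _ hUw₁, st2.sub _ hUq₁, ⟨b1.le, c1, ?_, e2, k1, ?_, ?_, ?_, ?_⟩,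
      ⟨le_rfl, b1, ?_, e2, ?_, ?_, ?_, ?_, ?_⟩, ?_, ?_⟩
    · show Ll < S1
      linarith
    · show Lu < S1
      linarith
    · show sig ≤ S1
      linarith
    · show hE ≤ hR
      linarith
    · intro x h1 h2
      have h2' : x ≤ X₁ := h2
      refine ⟨dLl x h1 (by linarith), fun v => ?_⟩
      show x ∈ Γ₂ v false Ll ↔ v = ol
      rw [key (nLl x (Or.inl (by linarith))), wLl x h1 (by linarith)]
      constructor
      · rintro (⟨-, h, -⟩ | h)
        · linarith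
        · exact h
      · intro h; exact Or.inr h
    · intro x h1 h2
      have h1' : X₁ < x := h1
      have h2' : x < hE := h2
      refine ⟨dLl x (by linarith) (by linarith), fun v => ?_⟩
      show x ∈ Γ₂ v false Ll ↔ v = ol ∨ v = w
      rw [key (nLl x (Or.inl (by linarith))), wLl x (by linarith) (by linarith)]
      constructor
      · rintro (⟨h, -⟩ | h)
        · exact Or.inr h
        · exact Or.inl h
      · rintro (h | h)
        · exact Or.inr h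
        · exact Or.inl ⟨h, h1', h2'⟩
    · intro x h1 h2
      have h1' : Ll < x := h1
      have h2' : x < sig := h2
      refine ⟨dX1 x, fun v => ?_⟩
      show x ∈ Γ₂ v true X₁ ↔ v = w
      rw [key (nX1 x h2'.le), wX1]
      exact ⟨fun h => h.1, fun h => ⟨h, h1', by linarith⟩⟩
    · intro x h1 h2
      refine ⟨dLl x (by linarith) h2, fun v => ?_⟩
      show x ∈ Γ₂ v false Ll ↔ v = ol
      rw [key (nLl x (Or.inr h1.le)), wLl x (by linarith) h2]
      constructor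
      · rintro (⟨-, -, h⟩ | h)
        · linarith
        · exact h
      · intro h; exact Or.inr h
    · show X₁ ≤ hR
      linarith
    · show Lu < S1
      linarith
    · intro x h1 h2
      have h2' : x ≤ Xw := h2
      refine ⟨dLu x h1 (by linarith), fun v => ?_⟩
      show x ∈ Γ₂ v false Lu ↔ v = ou
      rw [key (nLu x (Or.inl (by linarith))), wLu x h1 (by linarith)]
      constructor
      · rintro (⟨-, h, -⟩ | h)
        · linarith
        · exact h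
      · intro h; exact Or.inr h
    · intro x h1 h2
      have h1' : Xw < x := h1
      have h2' : x < X₁ := h2
      refine ⟨dLu x (by linarith) (by linarith), fun v => ?_⟩
      show x ∈ Γ₂ v false Lu ↔ v = ou ∨ v = w
      rw [key (nLu x (Or.inl (by linarith))), wLu x (by linarith) (by linarith)]
      constructor
      · rintro (⟨h, -⟩ | h)
        · exact Or.inr h
        · exact Or.inl h
      · rintro (h | h)
        · exact Or.inr h
        · exact Or.inl ⟨h, h1', h2'⟩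
    · intro x h1 h2
      have h1' : Lu < x := h1
      have h2' : x < S1 := h2
      refine ⟨dXw x, fun v => ?_⟩
      show x ∈ Γ₂ v true Xw ↔ v = w
      rw [key (nXw x), wXw]
      exact ⟨fun h => h.1, fun h => ⟨h, h1', by linarith⟩⟩
    · intro x h1 h2
      refine ⟨dLu x (by linarith) h2, fun v => ?_⟩
      show x ∈ Γ₂ v false Lu ↔ v = ou
      rw [key (nLu x (Or.inr h1.le)), wLu x (by linarith) h2]
      constructor
      · rintro (⟨-, -, h⟩ | h)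
        · linarith
        · exact h
      · intro h; exact Or.inr h
    · intro x h1 h2
      refine ⟨dXw x, fun v => ?_⟩
      show x ∈ Γ₂ v true Xw ↔ v = w
      rw [key (nXw x), wXw]
      exact ⟨fun h => h.1, fun h => ⟨h, by linarith, by linarith⟩⟩
    · intro x h1 h2
      refine ⟨dXq x (by linarith) (by linarith), fun v => ?_⟩
      show x ∈ Γ₂ v true Xq ↔ v = q
      rw [key (nXq x), wXq x v (by linarith) (by linarith)]
  · rw [hg.eq hwJ]
    have h1 : Γ₁ w = C := by rw [hΓ₁, Function.update_self]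
    rw [h1]
    refine ⟨true, [Top, Xw, Lu, X₁, Ll, hE], by simp, by simp,
      ⟨t1.ne', b1.ne, hL.ne', c1.ne, trivial⟩, ?_, fun _ _ _ => Iff.rfl⟩
    rintro ⟨h2, -⟩
    rw [min_eq_right t1.le] at h2
    linarith
  · refine ⟨false, Ll, x₁, hg.mono _ _ _ _ ?_, hg.mono _ _ _ _ ?_⟩
    · rw [wLl x₁ (by linarith) (by linarith)]
      exact Or.inl ⟨rfl, x₂, x₃⟩
    · rw [wLl x₁ (by linarith) (by linarith)]
      exact Or.inr rfl
  · refine ⟨false, Lu, y₁, hg.mono _ _ _ _ ?_, hg.mono _ _ _ _ ?_⟩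
    · rw [wLu y₁ (by linarith) (by linarith)]
      exact Or.inl ⟨rfl, y₂, y₃⟩
    · rw [wLu y₁ (by linarith) (by linarith)]
      exact Or.inr rfl

end EPG26
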