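import Pool.Agent.W_26e041_h61.BlkC

/-!
Drawing a block: the vertex `d`.
-/

namespace EPG26

variable {V : Type*} [DecidableEq V]

theorem BlkD_seg {o o' : Bool} {l l' a b x : ℚ} (h : a < b) :
    x ∈ seg o l a b o' l' ↔ o' = o ∧ l' = l ∧ a < x ∧ x < b := by
  unfold seg
  rw [min_eq_left h.le, max_eq_right h.le]
  exact Iff.rfl

theorem BlkD_mem4 {A B C E : Cov} {o : Bool} {l z : ℚ} :
    z ∈ (A ⊔ B ⊔ C ⊔ E) o l ↔ z ∈ A o l ∨ z ∈ B o l ∨ z ∈ C o l ∨ z ∈ E o l := by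
  show ((z ∈ A o l ∨ z ∈ B o l) ∨ z ∈ C o l) ∨ z ∈ E o l ↔ _
  tauto

/-- Draw `d` on the line `l2` and fill the face `{o2, q, d}` (`o2 = l2.ow`).
Choose `I0 < hi < Xd < e₂ < Xw` with `Xd` new, `S1 < b < B < yd < yd₂ < Top` with `yd` new. Draw
`Γ' d = zig false [e₂, l2.Λ, Xd, yd, Xq, yd₂]`: it meets `o2` on `l2.Λ` between `Xd` and `e₂` and `q` on `Xq`
between `yd` and `yd₂`. The face is a wk-socket with `o = true`: lines `Xq` (`q`) and `Xd` (`d`), window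
`(b, B)`, `o2` on the line `l2.Λ` with window `(hR, I1)` (to the right), zone of `q, d` on `Xq`:
`(yd, yd₂)`. `l2'` is `l2` with `lc = c0 = Xd`, `e = e₂`, `lo = I0`, `hi`, `s0 = l2.Λ`; `Ext` because
`Xq < Xd` (the path is simple for every longer stub). `D false yd` is everything since `yd` is new. -/
theorem blk_d {G : SimpleGraph V} {Γ : Dr V} {U : Bool → Finset ℚ} {D : Cov} {q w d : V}
    {Xq I0 I1 Xw S1 Top hR : ℚ} {l1 l2 : Ln V} {J : Finset V} (hw : Wd G Γ U) (hD : Adm U D)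
    (h : BW Γ U D q w Xq I0 I1 Xw S1 Top hR l1 l2) (hun : Undrawn Γ d) (hdo : G.Adj d l2.ow)
    (hdq : G.Adj d q) (hdw : d ≠ w) (hqo : q ≠ l2.ow)
    (hJ : ∀ v ∈ J, Undrawn Γ v ∧ v ≠ d ∧ v ≠ w ∧ v ≠ q ∧ v ≠ l1.ow ∧ v ≠ l2.ow)
    (hf : FillT G {l2.ow, q, d} J) :
    ∃ Γ' U' Xd b B yd l2', I0 < Xd ∧ Xd < Xw ∧ S1 < b ∧ b < B ∧ B < yd ∧ yd < Top ∧
      l2'.ow = l2.ow ∧ l2'.Λ = l2.Λ ∧ l2'.lc = Xd ∧
      Step G Γ U D {v | v = d ∨ v ∈ J} Γ' U' ∧ Filled G Γ' J ∧ Ov Γ' d l2.ow ∧ Ov Γ' d q ∧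
      yd ∈ U' false ∧ Xd ∈ U' true ∧ PreL Γ' D w Xw I0 hR I1 l1 ∧ LG Γ' D d w Xw B l2' ∧
      SW Γ' D {w} true Xw S1 Top ∧ SW Γ' D {d} true Xd B yd ∧ SW Γ' D {d} false yd Xq Xd ∧
      SW Γ' D {q} true Xq S1 b ∧ SW Γ' D {q} true Xq B yd ∧ (∀ x, x ∈ D false yd) ∧
      ∀ x, Xd ≤ x → x ≤ Xw → ∀ v, x ∉ Γ' v false yd := by
  obtain ⟨hXI, hIX, hST, hne, hΛ1, hΛ2, hs1, hs2, hu1, hu2, huw, huq, p1, p2, hwc, hqc⟩ := h
  obtain ⟨hi, a1, a2⟩ := exists_between hIX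
  obtain ⟨Xd, a3, a4, a5⟩ := exists_fresh U true a2
  obtain ⟨e₂, a6, a7⟩ := exists_between a4
  obtain ⟨b, b1, b2⟩ := exists_between hST
  obtain ⟨B, b3, b4⟩ := exists_between b2
  obtain ⟨yd, b5, b6, b7⟩ := exists_fresh U false b4
  obtain ⟨yd₂, b8, b9⟩ := exists_between b6
  have c1 : Xw ≤ l2.R := p2.XR
  have c2 : l2.R < hR := lt_of_lt_of_le p2.nr p2.nh
  have c3 : l2.nr ≤ hR := p2.nh
  have c4 : hR < I1 := p2.hI
  have c5 : l2.R < l2.nr := p2.nr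
  have c6 : l2.Λ < l2.s1 := p2.Λs
  have hXqd : Xq < Xd := by linarith
  have hXdq : Xd ≠ Xq := ne_of_gt hXqd
  have hΛyd : l2.Λ < yd := by linarith
  -- the coverage of `d`
  let C : Cov := seg false l2.Λ Xd e₂ ⊔ seg true Xd l2.Λ yd ⊔ seg false yd Xq Xd ⊔ seg true Xq yd yd₂
  have hC : ∀ o l x, x ∈ C o l ↔ (o = false ∧ l = l2.Λ ∧ Xd < x ∧ x < e₂) ∨
      (o = true ∧ l = Xd ∧ l2.Λ < x ∧ x < yd) ∨ (o = false ∧ l = yd ∧ Xq < x ∧ x < Xd) ∨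
      (o = true ∧ l = Xq ∧ yd < x ∧ x < yd₂) := by
    intro o l x
    rw [BlkD_mem4, BlkD_seg a6, BlkD_seg hΛyd, BlkD_seg hXqd, BlkD_seg b8]
  have hExt : Ext l2.Λ e₂ C := LineB_ext6 a6 hΛyd.ne hXdq b8.ne (Or.inl hXqd)
  let U₁ : Bool → Finset ℚ := addL (addL U true Xd) false yd
  have hsub : ∀ o, U o ⊆ U₁ o := fun o z hz => mem_addL.2 (Or.inl (mem_addL.2 (Or.inl hz)))
  have hXd₁ : Xd ∈ U₁ true := mem_addL.2 (Or.inl (mem_addL.2 (Or.inr ⟨rfl, rfl⟩)))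
  have hyd₁ : yd ∈ U₁ false := mem_addL.2 (Or.inr ⟨rfl, rfl⟩)
  have hnD : ∀ o l x, l ∉ U o → x ∈ D o l := fun o l x hl => hD o l hl
  have ho2 : ∀ x, Xd < x → x < e₂ → x ∈ D false l2.Λ ∧ ∀ v, x ∈ Γ v false l2.Λ ↔ v = l2.ow :=
    fun x h1 h2 => p2.free x (by linarith) (by linarith)
  have hq2 : ∀ x, yd < x → x < yd₂ → x ∈ D true Xq ∧ ∀ v, x ∈ Γ v true Xq ↔ v = q :=
    fun x h1 h2 => hqc x (by linarith) (by linarith)
  have st1 : Step G Γ U (nl U ⊔ C) {d} (Function.update Γ d C) U₁ := by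
    refine Step.draw hw hsub (fun o l z hz => absurd hz (hun o l z)) ?_ ?_ ?_
    · intro o l z hz
      rcases (hC o l z).1 hz with ⟨rfl, rfl, -⟩ | ⟨rfl, rfl, -⟩ | ⟨rfl, rfl, -⟩ | ⟨rfl, rfl, -⟩
      · exact hsub _ hu2
      · exact hXd₁
      · exact hyd₁
      · exact hsub _ huq
    · intro o l z hz _
      exact Or.inr hz
    · intro o l z hz _ v _ hzv
      rcases (hC o l z).1 hz with ⟨rfl, rfl, h1, h2⟩ | ⟨rfl, rfl, -⟩ | ⟨rfl, rfl, -⟩ |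
        ⟨rfl, rfl, h1, h2⟩
      · rw [((ho2 z h1 h2).2 v).1 hzv]
        exact hdo
      · exact absurd (hw.lines _ _ _ _ hzv) a5
      · exact absurd (hw.lines _ _ _ _ hzv) b7
      · rw [((hq2 z h1 h2).2 v).1 hzv]
        exact hdq
  have hΓd : (Function.update Γ d C) d = C := Function.update_self _ _ _
  have hdo' : d ≠ l2.ow := hdo.ne
  have hdq' : d ≠ q := hdq.ne
  have hΓo : ∀ v, v ≠ d → (Function.update Γ d C) v = Γ v := fun v hv =>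
    Function.update_of_ne hv _ _
  generalize hG1 : Function.update Γ d C = Γ₁ at st1 hΓd hΓo
  -- windows of the drawing `Γ₁`
  have k1 : ∀ {S : Set V} {o : Bool} {l a b' : ℚ}, Solo Γ S o l a b' →
      (∀ x, a < x → x < b' → x ∉ C o l) → d ∉ S → Solo Γ₁ S o l a b' := by
    intro S o l a b' hs hn hdS z h1 h2 v
    by_cases hv : v = d
    · subst hv
      rw [hΓd]
      exact ⟨fun h3 => absurd h3 (hn z h1 h2), fun h3 => absurd h3 hdS⟩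
    · rw [hΓo v hv]
      exact hs z h1 h2 v
  have k2 : ∀ {S : Set V} {o : Bool} {l a b' : ℚ}, Solo Γ S o l a b' →
      (∀ x, a < x → x < b' → x ∈ C o l) → Solo Γ₁ (insert d S) o l a b' := by
    intro S o l a b' hs hn z h1 h2 v
    by_cases hv : v = d
    · subst hv
      rw [hΓd]
      exact ⟨fun _ => Set.mem_insert _ _, fun _ => hn z h1 h2⟩
    · rw [hΓo v hv, hs z h1 h2 v]
      exact ⟨fun h3 => Set.mem_insert_of_mem _ h3, fun h3 => h3.resolve_left hv⟩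
  have k0 : ∀ {o : Bool} {l : ℚ}, l ∉ U o → ∀ a b', Solo Γ ∅ o l a b' := fun hl a b' z _ _ v =>
    ⟨fun h => absurd (hw.lines v _ _ z h) hl, fun h => absurd h (Set.notMem_empty v)⟩
  have hun₁ : ∀ v ∈ J, Undrawn Γ₁ v := by
    intro v hv o l z hz
    rw [hΓo v (hJ v hv).2.1] at hz
    exact (hJ v hv).1 o l z hz
  have w1 : Solo Γ₁ {q} true Xq b B := k1 (fun x h1 h2 => (hqc x (by linarith) (by linarith)).2)
    (by
      intro x h1 h2 h3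
      rcases (hC _ _ _).1 h3 with ⟨h4, -⟩ | ⟨-, h4, -⟩ | ⟨h4, -⟩ | ⟨-, -, h4, -⟩
      · cases h4
      · exact hXdq h4.symm
      · cases h4
      · linarith) hdq'
  have w2 : Solo Γ₁ {d} true Xd b B := by
    have := k2 (k0 a5 b B) (fun x h1 h2 => (hC _ _ _).2 (Or.inr (Or.inl
      ⟨rfl, rfl, by linarith, by linarith⟩)))
    simpa using this
  have w3 : Solo Γ₁ {l2.ow} false l2.Λ hR I1 := k1 (fun x h1 h2 => (p2.tail x h1 h2).2)
    (by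
      intro x h1 h2 h3
      rcases (hC _ _ _).1 h3 with ⟨-, -, -, h4⟩ | ⟨h4, -⟩ | ⟨-, h4, -⟩ | ⟨h4, -⟩
      · linarith
      · cases h4
      · linarith
      · cases h4) hdo'
  have w4 : Solo Γ₁ {q, d} true Xq yd yd₂ := by
    have := k2 (S := {q}) (fun x h1 h2 => (hq2 x h1 h2).2) (fun x h1 h2 => (hC _ _ _).2
      (Or.inr (Or.inr (Or.inr ⟨rfl, rfl, h1, h2⟩))))
    rwa [Set.pair_comm] at this
  obtain ⟨Γ₂, U₂, st2, f2⟩ := hf.wk Γ₁ U₁ q d l2.ow true Xq Xd b B l2.Λ hR I1 Xq yd yd₂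
    (by ext p; simp only [Finset.mem_insert, Finset.mem_singleton]; tauto) st1.wd hun₁
    ⟨b3, c4, w1, w2, w3, hXdq.symm, Or.inl (by linarith)⟩
    ⟨b8, w4, Or.inl ⟨by linarith, by linarith, by linarith⟩⟩
  rw [Bool.not_true] at st2
  have hD2 : ∀ o l x, x ∈ (nl U₁ ⊔ (seg true Xq b B ⊔ seg true Xd b B ⊔ seg false l2.Λ hR I1 ⊔
      seg true Xq yd yd₂) : Cov) o l ↔ l ∉ U₁ o ∨ (o = true ∧ l = Xq ∧ b < x ∧ x < B) ∨
      (o = true ∧ l = Xd ∧ b < x ∧ x < B) ∨ (o = false ∧ l = l2.Λ ∧ hR < x ∧ x < I1) ∨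
      (o = true ∧ l = Xq ∧ yd < x ∧ x < yd₂) := by
    intro o l x
    show (l ∉ U₁ o ∨ x ∈ (seg true Xq b B ⊔ seg true Xd b B ⊔ seg false l2.Λ hR I1 ⊔
      seg true Xq yd yd₂ : Cov) o l) ↔ _
    rw [BlkD_mem4, BlkD_seg b3, BlkD_seg b3, BlkD_seg c4, BlkD_seg b8]
  have hdJ : d ∉ (↑J : Set V) := fun hh => (hJ d (Finset.mem_coe.1 hh)).2.1 rfl
  -- a window of `Γ` on a line of `U` which meets none of the new parts
  have key : ∀ {S : Set V} {o : Bool} {l a b' : ℚ}, SW Γ D S o l a b' → l ∈ U o →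
      (∀ x, a < x → x < b' → ¬ (o = false ∧ l = l2.Λ ∧ (Xd < x ∧ x < e₂ ∨ hR < x ∧ x < I1)) ∧
        ¬ (o = true ∧ l = Xq ∧ (b < x ∧ x < B ∨ yd < x ∧ x < yd₂))) → SW Γ₂ D S o l a b' := by
    intro S o l a b' hs hl hn
    refine (hs.grow st1.grow ?_).grow st2.grow ?_
    · intro x h1 h2 h3
      rcases h3 with h3 | h3
      · exact h3 hl
      rcases (hC _ _ _).1 h3 with ⟨e1, e2, e3⟩ | ⟨e1, e2, -⟩ | ⟨e1, e2, -⟩ | ⟨e1, e2, e3⟩
      · exact (hn x h1 h2).1 ⟨e1, e2, Or.inl e3⟩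
      · subst e1 e2
        exact a5 hl
      · subst e1 e2
        exact b7 hl
      · exact (hn x h1 h2).2 ⟨e1, e2, Or.inr e3⟩
    · intro x h1 h2 h3
      rcases (hD2 _ _ _).1 h3 with e0 | ⟨e1, e2, e3⟩ | ⟨e1, e2, -⟩ | ⟨e1, e2, e3⟩ | ⟨e1, e2, e3⟩
      · exact e0 (hsub _ hl)
      · exact (hn x h1 h2).2 ⟨e1, e2, Or.inl e3⟩
      · subst e1 e2
        exact a5 hl
      · exact (hn x h1 h2).1 ⟨e1, e2, Or.inr e3⟩
      · exact (hn x h1 h2).2 ⟨e1, e2, Or.inr e3⟩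
  -- windows of `d`
  have key2 : ∀ {S : Set V} {o : Bool} {l a b' : ℚ}, Solo Γ₁ S o l a b' →
      (∀ x, a < x → x < b' → x ∈ D o l) → l ∈ U₁ o →
      (∀ x, a < x → x < b' → ¬ (o = true ∧ l = Xd ∧ b < x ∧ x < B) ∧
        ¬ (o = false ∧ l = l2.Λ ∧ hR < x ∧ x < I1) ∧
        ¬ (o = true ∧ l = Xq ∧ (b < x ∧ x < B ∨ yd < x ∧ x < yd₂))) → SW Γ₂ D S o l a b' := by
    intro S o l a b' hs hDx hl hn
    have h4 : SW Γ₁ D S o l a b' := fun x h1 h2 => ⟨hDx x h1 h2, hs x h1 h2⟩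
    refine h4.grow st2.grow ?_
    intro x h1 h2 h3
    obtain ⟨n1, n2, n3⟩ := hn x h1 h2
    rcases (hD2 _ _ _).1 h3 with e0 | ⟨e1, e2, e3⟩ | ⟨e1, e2, e3⟩ | ⟨e1, e2, e3⟩ | ⟨e1, e2, e3⟩
    · exact e0 hl
    · exact n3 ⟨e1, e2, Or.inl e3⟩
    · exact n1 ⟨e1, e2, e3⟩
    · exact n2 ⟨e1, e2, e3⟩
    · exact n3 ⟨e1, e2, Or.inr e3⟩
  have hXD : ∀ x, x ∈ D true Xd := fun x => hnD _ _ _ a5
  have hyD : ∀ x, x ∈ D false yd := fun x => hnD _ _ _ b7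
  have hwXq : Xw ≠ Xq := by
    have : Xq < Xw := by linarith
    exact this.ne'
  have hX1 : ∀ x, Xw ≤ x → x ≠ Xq := fun x hx => by
    have : Xq < x := by linarith
    exact this.ne'
  have hR1 : l1.R ∈ U true := p1.col.mem (Set.mem_singleton w) hw.lines p1.Λs
  have hR2 : l2.R ∈ U true := p2.col.mem (Set.mem_singleton w) hw.lines p2.Λs
  have hstD : Step G Γ U D {v | v = d ∨ v ∈ J} Γ₂ U₂ := by
    have t1 : Step G Γ U D {v | v = d ∨ v ∈ J} Γ₁ U₁ := by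
      refine st1.weaken ?_ (fun v hv => Or.inl hv)
      refine sup_le hD ?_
      intro o l x hx
      rcases (hC _ _ _).1 hx with ⟨rfl, rfl, h1, h2⟩ | ⟨rfl, rfl, -⟩ | ⟨rfl, rfl, -⟩ |
        ⟨rfl, rfl, h1, h2⟩
      · exact (ho2 x h1 h2).1
      · exact hXD x
      · exact hyD x
      · exact (hq2 x h1 h2).1
    have t2 : Step G Γ₁ U₁ D {v | v = d ∨ v ∈ J} Γ₂ U₂ := by
      refine st2.weaken ?_ (fun v hv => Or.inr hv)
      intro o l x hx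
      rcases (hD2 _ _ _).1 hx with h0 | ⟨rfl, rfl, h1, h2⟩ | ⟨rfl, rfl, -⟩ | ⟨rfl, rfl, h1, h2⟩ |
        ⟨rfl, rfl, h1, h2⟩
      · exact hnD _ _ _ (fun hh => h0 (hsub _ hh))
      · exact (hqc x (by linarith) (by linarith)).1
      · exact hXD x
      · exact (p2.tail x h1 h2).1
      · exact (hq2 x h1 h2).1
    exact t1.trans t2
  have hdG : Γ₂ d = C := by
    rw [st2.grow.eq hdJ, hΓd]
  have ov1 : Ov Γ₂ d l2.ow := by
    obtain ⟨x, h1, h2⟩ := exists_between a6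
    refine Ov.mono st2.grow ⟨false, l2.Λ, x, ?_, ?_⟩
    · rw [hΓd]
      exact (hC _ _ _).2 (Or.inl ⟨rfl, rfl, h1, h2⟩)
    · rw [hΓo _ hdo'.symm]
      exact ((ho2 x h1 h2).2 _).2 rfl
  have ov2 : Ov Γ₂ d q := by
    obtain ⟨x, h1, h2⟩ := exists_between b8
    refine Ov.mono st2.grow ⟨true, Xq, x, ?_, ?_⟩
    · rw [hΓd]
      exact (hC _ _ _).2 (Or.inr (Or.inr (Or.inr ⟨rfl, rfl, h1, h2⟩)))
    · rw [hΓo _ hdq'.symm]
      exact ((hq2 x h1 h2).2 _).2 rfl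
  -- pointwise versions on the lines
  have line1 : ∀ x, I0 < x → x ≤ l1.R → x ∈ D false l1.Λ ∧ ∀ v, x ∈ Γ₂ v false l1.Λ ↔ v = l1.ow := by
    intro x h1 h2
    refine ⟨(p1.free x h1 h2).1, fun v => ?_⟩
    rw [← (p1.free x h1 h2).2 v]
    refine ⟨fun h3 => ?_, fun h3 => st2.grow.mono _ _ _ _ (st1.grow.mono _ _ _ _ h3)⟩
    rcases st2.grow.new v _ _ x h3 with h4 | ⟨-, h4⟩
    · rcases st1.grow.new v _ _ x h4 with h5 | ⟨-, h5 | h5⟩
      · exact h5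
      · exact absurd hu1 h5
      · rcases (hC _ _ _).1 h5 with ⟨-, e2, -⟩ | ⟨e1, -⟩ | ⟨-, e2, -⟩ | ⟨e1, -⟩
        · exact absurd e2 hne
        · cases e1
        · exact absurd (e2 ▸ hu1) b7
        · cases e1
    · rcases (hD2 _ _ _).1 h4 with e0 | ⟨e1, -⟩ | ⟨e1, -⟩ | ⟨-, e2, -⟩ | ⟨e1, -⟩
      · exact absurd (hsub _ hu1) e0
      · cases e1
      · cases e1
      · exact absurd e2 hne
      · cases e1
  have line2 : ∀ x, e₂ ≤ x → x ≤ l2.R → x ∈ D false l2.Λ ∧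
      ∀ v, x ∈ Γ₂ v false l2.Λ ↔ v = l2.ow := by
    intro x h1 h2
    have h0 : I0 < x := by linarith
    refine ⟨(p2.free x h0 h2).1, fun v => ?_⟩
    rw [← (p2.free x h0 h2).2 v]
    refine ⟨fun h3 => ?_, fun h3 => st2.grow.mono _ _ _ _ (st1.grow.mono _ _ _ _ h3)⟩
    rcases st2.grow.new v _ _ x h3 with h4 | ⟨-, h4⟩
    · rcases st1.grow.new v _ _ x h4 with h5 | ⟨-, h5 | h5⟩
      · exact h5
      · exact absurd hu2 h5
      · rcases (hC _ _ _).1 h5 with ⟨-, -, -, e2⟩ | ⟨e1, -⟩ | ⟨-, e2, -⟩ | ⟨e1, -⟩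
        · linarith
        · cases e1
        · exact absurd (e2 ▸ hu2) b7
        · cases e1
    · rcases (hD2 _ _ _).1 h4 with e0 | ⟨e1, -⟩ | ⟨e1, -⟩ | ⟨-, -, e2, -⟩ | ⟨e1, -⟩
      · exact absurd (hsub _ hu2) e0
      · cases e1
      · cases e1
      · linarith
      · cases e1
  refine ⟨Γ₂, U₂, Xd, b, B, yd,
    { l2 with lc := Xd, c0 := Xd, e := e₂, lo := I0, hi := hi, s0 := l2.Λ }, by linarith, a4, b1, b3,
    b5, b6, rfl, rfl, rfl, hstD, f2, ov1, ov2, st2.sub _ hyd₁, st2.sub _ hXd₁, ?_, ?_, ?_, ?_, ?_, ?_,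
    ?_, hyD, ?_⟩
  · -- `PreL` of `l1`
    refine ⟨p1.XR, p1.nr, p1.nh, p1.hI, p1.Λs, line1, ?_, ?_, ?_⟩
    · refine key p1.row hu1 (fun x _ _ => ⟨fun hh => hne hh.2.1, fun hh => ?_⟩)
      cases hh.1
    · refine key p1.col hR1 (fun x _ _ => ⟨fun hh => ?_, fun hh => hX1 _ p1.XR hh.2.1⟩)
      cases hh.1
    · refine key p1.tail hu1 (fun x _ _ => ⟨fun hh => hne hh.2.1, fun hh => ?_⟩)
      cases hh.1
  · -- `LG` of `l2'`
    refine ⟨⟨a1, a3.le, le_rfl, a6, by linarith, le_rfl, c6, ?_, line2, ?_, ?_⟩, a7, c1, by linarith,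
      c5, ?_, ?_, ?_⟩
    · refine key2 (S := {l2.ow, d}) ?_ (fun x h1 h2 => (ho2 x h1 h2).1) (hsub _ hu2) ?_
      · have := k2 (S := {l2.ow}) (fun x h1 h2 => (ho2 x h1 h2).2) (fun x h1 h2 => (hC _ _ _).2
          (Or.inl ⟨rfl, rfl, h1, h2⟩))
        rwa [Set.pair_comm] at this
      · intro x h1 h2
        refine ⟨fun hh => ?_, fun hh => ?_, fun hh => ?_⟩
        · cases hh.1
        · linarith [hh.2.2.1]
        · cases hh.1
    · refine key (fun x h1 h2 => p2.free x h1 (by linarith)) hu2 (fun x h1 h2 => ⟨fun hh => ?_,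
        fun hh => ?_⟩)
      · rcases hh.2.2 with h3 | h3
        · linarith [h3.1]
        · linarith [h3.1]
      · cases hh.1
    · refine key2 ?_ (fun x _ _ => hXD x) hXd₁ ?_
      · have := k2 (k0 a5 l2.Λ l2.s1) (fun x h1 h2 => (hC _ _ _).2 (Or.inr (Or.inl
          ⟨rfl, rfl, h1, by linarith⟩)))
        simpa using this
      · intro x h1 h2
        refine ⟨fun hh => ?_, fun hh => ?_, fun hh => hXdq hh.2.1⟩
        · have h3 : b < x := hh.2.2.1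
          have h4 : x < l2.s1 := h2
          linarith
        · cases hh.1
    · refine key p2.row hu2 (fun x h1 h2 => ⟨fun hh => ?_, fun hh => ?_⟩)
      · rcases hh.2.2 with h3 | h3
        · linarith [h3.2]
        · linarith [h3.1]
      · cases hh.1
    · refine key p2.col hR2 (fun x _ _ => ⟨fun hh => ?_, fun hh => hX1 _ p2.XR hh.2.1⟩)
      cases hh.1
    · show Ext l2.Λ e₂ (Γ₂ d)
      rw [hdG]
      exact hExt
  · refine key hwc huw (fun x _ _ => ⟨fun hh => ?_, fun hh => hwXq hh.2.1⟩)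
    cases hh.1
  · refine key2 ?_ (fun x _ _ => hXD x) hXd₁ ?_
    · have := k2 (k0 a5 B yd) (fun x h1 h2 => (hC _ _ _).2 (Or.inr (Or.inl
        ⟨rfl, rfl, by linarith, h2⟩)))
      simpa using this
    · intro x h1 h2
      refine ⟨fun hh => ?_, fun hh => ?_, fun hh => hXdq hh.2.1⟩
      · linarith [hh.2.2.2]
      · cases hh.1
  · refine key2 ?_ (fun x _ _ => hyD x) hyd₁ ?_
    · have := k2 (k0 b7 Xq Xd) (fun x h1 h2 => (hC _ _ _).2 (Or.inr (Or.inr (Or.inl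
        ⟨rfl, rfl, h1, h2⟩))))
      simpa using this
    · intro x h1 h2
      refine ⟨fun hh => ?_, fun hh => ?_, fun hh => ?_⟩
      · cases hh.1
      · exact hΛyd.ne' hh.2.1
      · cases hh.1
  · refine key (hqc.sub le_rfl (by linarith)) huq (fun x h1 h2 => ⟨fun hh => ?_, fun hh => ?_⟩)
    · cases hh.1
    · rcases hh.2.2 with h3 | h3
      · linarith [h3.1]
      · linarith [h3.1]
  · refine key (hqc.sub (by linarith) (by linarith)) huq (fun x h1 h2 => ⟨fun hh => ?_,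
      fun hh => ?_⟩)
    · cases hh.1
    · rcases hh.2.2 with h3 | h3
      · linarith [h3.2]
      · linarith [h3.1]
  · intro x h1 h2 v h3
    rcases st2.grow.new v _ _ x h3 with h4 | ⟨-, h4⟩
    · rcases st1.grow.new v _ _ x h4 with h5 | ⟨h6, h5⟩
      · exact b7 (hw.lines _ _ _ _ h5)
      · subst h6
        rw [hΓd] at h4
        rcases (hC _ _ _).1 h4 with ⟨-, e2, -⟩ | ⟨e1, -⟩ | ⟨-, -, -, e2⟩ | ⟨e1, -⟩
        · exact hΛyd.ne' e2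
        · cases e1
        · linarith
        · cases e1
    · rcases (hD2 _ _ _).1 h4 with e0 | ⟨e1, -⟩ | ⟨e1, -⟩ | ⟨-, e2, -⟩ | ⟨e1, -⟩
      · exact e0 hyd₁
      · cases e1
      · cases e1
      · exact hΛyd.ne' e2
      · cases e1

end EPG26
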