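import Pool.Agent.W_26e041_h61.StageA

/-!
Drawing a block: the neighbours of `q`.
-/

namespace EPG26

variable {V : Type*} [DecidableEq V]

theorem BlkE_SW {Γ : Dr V} {D D' : Cov} {S : Set V} {o : Bool} {l a b : ℚ}
    (h : SW Γ D S o l a b) (hD : D ≤ D') : SW Γ D' S o l a b :=
  fun x h1 h2 => ⟨hD o l (h x h1 h2).1, (h x h1 h2).2⟩

/-- an M-state for a smaller allowed set is an M-state -/
theorem BlkE_MSt {P : V → Cov → Prop} {Γ : Dr V} {U : Bool → Finset ℚ} {D D' : Cov} {z : V}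
    {Xz h A B : ℚ} {W : List (Rec V)} {a0 : V} {X0 u : ℚ} {L : List (Rec V)} {b0 : V}
    {Y0 yu : ℚ} (hM : MSt P Γ U D z Xz h A B W a0 X0 u L b0 Y0 yu) (hD : D ≤ D') :
    MSt P Γ U D' z Xz h A B W a0 X0 u L b0 Y0 yu := by
  refine ⟨⟨hM.n.ordW, hM.n.ordB, hM.n.huX, hM.n.hyY, ?_, ?_, BlkE_SW hM.n.wbase hD,
    BlkE_SW hM.n.bbase hD⟩, hM.hz, hM.hA, BlkE_SW hM.zcol hD, BlkE_SW hM.top hD⟩
  · intro r hr
    obtain ⟨s, hs, hp⟩ := hM.n.white r hr
    exact ⟨s, hs, hp.mono_D (fun x _ _ hx => hD _ _ hx) (fun x _ _ hx => hD _ _ hx)⟩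
  · intro r hr
    obtain ⟨s, hs, hp⟩ := hM.n.black r hr
    exact ⟨s, hs, hp.mono_D (fun x _ _ hx => hD _ _ hx) (fun x _ _ hx => hD _ _ hx)⟩

theorem BlkE_fan_sub {Fs : Finset (Finset V)} {q : V} : ∀ {l : List V},
    List.IsChain (fun a b => ({q, a, b} : Finset V) ∈ Fs) l → ∀ g ∈ fanF q l, g ∈ Fs := by
  intro l
  induction l with
  | nil => intro _ g hg; simp [fanF] at hg
  | cons a t ih =>
    cases t with
    | nil => intro _ g hg; simp [fanF] at hg
    | cons b t =>
      intro h g hg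
      rw [List.isChain_cons_cons] at h
      rw [fanF, Finset.mem_insert] at hg
      rcases hg with rfl | hg
      · exact h.1
      · exact ih h.2 g hg

theorem BlkE_face {Fs : Finset (Finset V)} {q : V} : ∀ {l : List V} {a : V},
    List.IsChain (fun a b => ({q, a, b} : Finset V) ∈ Fs) (a :: l) → ∀ v ∈ l, ∃ g ∈ Fs, v ∈ g := by
  intro l
  induction l with
  | nil => intro a _ v hv; simp at hv
  | cons b t ih =>
    intro a h v hv
    rw [List.isChain_cons_cons] at h
    rcases List.mem_cons.1 hv with rfl | hv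
    · exact ⟨_, h.1, by simp⟩
    · exact ih h.2 v hv

theorem BlkE_fan_mem {q : V} {l : List V} {g : Finset V} (hg : g ∈ fanF q l) {v : V}
    (hv : v ∈ g) : v = q ∨ v ∈ l := by
  obtain ⟨p, a, b, s, rfl, rfl⟩ := mem_fanF.1 hg
  rw [Finset.mem_insert, Finset.mem_insert, Finset.mem_singleton] at hv
  rcases hv with rfl | rfl | rfl
  · exact Or.inl rfl
  · right; simp
  · right; simp

theorem BlkE_top (L : List (Rec V)) (d : V) : rv L ++ [d] = topv L d :: (rv L ++ [d]).tail := by
  cases L with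
  | nil => rfl
  | cons r L => rfl

theorem BlkE_lastv {L : List (Rec V)} (hL : L ≠ []) (a b : V) : lastv L a = lastv L b := by
  cases L with
  | nil => exact absurd rfl hL
  | cons r L => rfl

theorem BlkE_run {G : SimpleGraph V} {T : Finset V} {Fs : Finset (Finset V)}
    {J : Finset V → Finset V} (hc : Ctx G T Fs J) {q w d : V} {Xq Xw u yd : ℚ}
    (hwF : ∃ g ∈ Fs, w ∈ g) (D : Cov) : ∀ (gs : List V) (Γ : Dr V) (U : Bool → Finset ℚ)
    (D₁ : Cov) (h A B : ℚ) (L : List (Rec V)), Wd G Γ U → Adm U D₁ → D₁ ≤ D →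
    MSt PI Γ U D₁ q Xq h A B [] w Xw u L d yd yd →
    (∀ r ∈ L, r.pl = true) →
    List.IsChain (fun a b => ({q, a, b} : Finset V) ∈ Fs) (topv L d :: gs) →
    (q :: w :: (rv L ++ [d] ++ gs)).Nodup →
    (∀ v ∈ (rv L ++ [d]).tail, ∃ g ∈ Fs, v ∈ g) →
    List.IsChain (Ov Γ) (rv L ++ [d]) → TCh L yd →
    (L ≠ [] → ∃ l₀ l₁, l₀ < l₁ ∧ l₁ ≤ A ∧ Solo Γ {lastv L d, d} false yd l₀ l₁ ∧
      ∀ x, l₀ < x → x < l₁ → x ∉ D₁ false yd) →
    (∀ r L₂, L = r :: L₂ → Solo Γ {r.v, q} true Xq r.c (topc L₂ yd)) →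
    (∀ v ∈ gs, Undrawn Γ v) → (∀ f ∈ fanF q (topv L d :: gs), ∀ v ∈ J f, Undrawn Γ v) →
    ∃ Γ' U' h' A' B' L', rv L' = gs.reverse ++ rv L ∧ (∀ r ∈ L', r.pl = true) ∧ h ≤ h' ∧
      A ≤ A' ∧ B ≤ B' ∧
      Step G Γ U D {v | v ∈ gs ∨ v ∈ rv L ∨ ∃ f ∈ fanF q (topv L d :: gs), v ∈ J f} Γ' U' ∧
      MSt PI Γ' U' D q Xq h' A' B' [] w Xw u L' d yd yd ∧
      (∀ f ∈ fanF q (topv L d :: gs), Filled G Γ' (J f)) ∧
      List.IsChain (Ov Γ') (rv L' ++ [d]) ∧
      (∀ v ∈ gs, Ov Γ' v q) ∧ TCh L' yd ∧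
      (L' ≠ [] → ∃ l₀ l₁, l₀ < l₁ ∧ l₁ ≤ A' ∧ Solo Γ' {lastv L' d, d} false yd l₀ l₁) ∧
      ∀ r L₂, L' = r :: L₂ → Solo Γ' {r.v, q} true Xq r.c (topc L₂ yd) := by
  intro gs
  induction gs with
  | nil =>
    intro Γ U D₁ h A B L hw hD₁ hle hM hpl hln hnd hLF hch hT hZ hS hun hJ
    refine ⟨Γ, U, h, A, B, L, rfl, hpl, le_rfl, le_rfl, le_rfl, Step.refl hw _ _,
      BlkE_MSt hM hle, ?_, hch, ?_, hT, ?_, hS⟩
    · intro f hf
      simp [fanF] at hf
    · intro v hv
      simp at hv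
    · intro hL
      obtain ⟨l₀, l₁, h1, h2, h3, -⟩ := hZ hL
      exact ⟨l₀, l₁, h1, h2, h3⟩
  | cons c gs ih =>
    intro Γ U D₁ h A B L hw hD₁ hle hM hpl hln hnd hLF hch hT hZ hS hun hJ
    rw [List.isChain_cons_cons] at hln
    obtain ⟨hfFs, hln'⟩ := hln
    set f : Finset V := {q, topv L d, c} with hf
    have hqf : q ∈ f := by rw [hf]; simp
    have htf : topv L d ∈ f := by rw [hf]; simp
    have hcf : c ∈ f := by rw [hf]; simp
    have hfan : fanF q (topv L d :: c :: gs) = insert f (fanF q (c :: gs)) := rfl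
    have hfanFs : ∀ g ∈ fanF q (c :: gs), g ∈ Fs := BlkE_fan_sub hln'
    -- nodup
    have hnd1 : (q :: w :: (c :: (rv L ++ [d] ++ gs))).Nodup :=
      ((List.perm_middle.cons w).cons q).nodup_iff.1 hnd
    have hqr : q ∉ w :: (c :: (rv L ++ [d] ++ gs)) := (List.nodup_cons.1 hnd1).1
    have hwr : w ∉ c :: (rv L ++ [d] ++ gs) := (List.nodup_cons.1 (List.nodup_cons.1 hnd1).2).1
    have hcr : c ∉ rv L ++ [d] ++ gs :=
      (List.nodup_cons.1 (List.nodup_cons.1 (List.nodup_cons.1 hnd1).2).2).1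
    have hrest : (rv L ++ [d] ++ gs).Nodup :=
      (List.nodup_cons.1 (List.nodup_cons.1 (List.nodup_cons.1 hnd1).2).2).2
    have hdisj : ∀ v ∈ rv L ++ [d], v ∉ gs := fun v hv hv' =>
      (List.disjoint_of_nodup_append hrest) hv hv'
    have hcL : c ∉ rv L ++ [d] := fun h1 => hcr (List.mem_append_left _ h1)
    have hcgs : c ∉ gs := fun h1 => hcr (List.mem_append_right _ h1)
    have hqc : q ≠ c := fun e => hqr (by rw [e]; simp)
    have htL : topv L d ∈ rv L ++ [d] := by
      rw [BlkE_top L d]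
      exact List.mem_cons_self
    have htc : topv L d ≠ c := fun e => hcL (e ▸ htL)
    have htq : topv L d ≠ q := fun e => hqr (by
      rw [← e]
      exact List.mem_cons_of_mem _ (List.mem_cons_of_mem _ (List.mem_append_left _ htL)))
    -- vertices of faces are not in contents
    have hsep : ∀ g ∈ Fs, ∀ g' ∈ Fs, ∀ v, v ∈ J g → v ∉ g' := fun g hg g' hg' v h1 h2 =>
      Finset.disjoint_left.1 (hc.sep g hg g' hg') h1 h2
    have hLf : ∀ v ∈ rv L ++ [d], ∃ g ∈ Fs, v ∈ g := by
      intro v hv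
      rw [BlkE_top L d] at hv
      rcases List.mem_cons.1 hv with rfl | hv
      · exact ⟨f, hfFs, htf⟩
      · exact hLF v hv
    have hJL : ∀ g ∈ Fs, ∀ v ∈ J g, v ∉ rv L ++ [d] := by
      intro g hg v hv hv'
      obtain ⟨g', hg', h1⟩ := hLf v hv'
      exact hsep g hg g' hg' v hv h1
    have hJgs : ∀ g ∈ Fs, ∀ v ∈ J g, v ∉ gs := by
      intro g hg v hv hv'
      obtain ⟨g', hg', h1⟩ := BlkE_face hln' v hv'
      exact hsep g hg g' hg' v hv h1
    have hJw : ∀ g ∈ Fs, ∀ v ∈ J g, v ≠ w := by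
      rintro g hg v hv rfl
      obtain ⟨g', hg', h1⟩ := hwF
      exact hsep g hg g' hg' v hv h1
    have hfnot : ∀ g ∈ fanF q (c :: gs), f ≠ g := by
      rintro g hg e
      rcases BlkE_fan_mem hg (e ▸ htf) with h1 | h1
      · exact htq h1
      · rcases List.mem_cons.1 h1 with h1 | h1
        · exact htc h1
        · exact hdisj _ htL h1
    have hJJ : ∀ g ∈ fanF q (c :: gs), ∀ v ∈ J g, v ∉ J f := fun g hg v hv hv' =>
      Finset.disjoint_left.1 (hc.disj f hfFs g (hfanFs g hg) (hfnot g hg)) hv' hv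
    -- the push
    have hndp : (q :: (rv ([] : List (Rec V)) ++ w :: (rv L ++ [d]))).Nodup := by
      show (q :: w :: (rv L ++ [d])).Nodup
      refine hnd.sublist ?_
      exact ((List.sublist_append_left _ _).cons_cons w).cons_cons q
    have hcn : c ∉ q :: (rv ([] : List (Rec V)) ++ w :: (rv L ++ [d])) := by
      show c ∉ q :: w :: (rv L ++ [d])
      intro h1
      rcases List.mem_cons.1 h1 with h1 | h1
      · exact hqc h1.symm
      · rcases List.mem_cons.1 h1 with h1 | h1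
        · exact hwr (h1 ▸ List.mem_cons_self)
        · exact hcL h1
    have hJp : ∀ v ∈ J f, Undrawn Γ v ∧
        v ∉ c :: q :: (rv ([] : List (Rec V)) ++ w :: (rv L ++ [d])) := by
      intro v hv
      refine ⟨hJ f (hfan ▸ Finset.mem_insert_self _ _) v hv, ?_⟩
      show v ∉ c :: q :: w :: (rv L ++ [d])
      intro h1
      rcases List.mem_cons.1 h1 with h1 | h1
      · exact hsep f hfFs f hfFs v hv (h1 ▸ hcf)
      · rcases List.mem_cons.1 h1 with h1 | h1
        · exact hsep f hfFs f hfFs v hv (h1 ▸ hqf)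
        · rcases List.mem_cons.1 h1 with h1 | h1
          · exact hJw f hfFs v hv h1
          · exact hJL f hfFs v hv h1
    have hfill : FillT G {topv L d, c, q} (J f) := by
      have h1 := hc.fill f hfFs
      have h2 : ({topv L d, c, q} : Finset V) = f := by
        rw [hf]
        ext v
        simp only [Finset.mem_insert, Finset.mem_singleton]
        tauto
      rw [h2]
      exact h1
    obtain ⟨Γ₁, U₁, h₁, A₁, B₁, r, l₀, l₁, hr, hrpl, hrt, hst, hgeo, hfl, hov1, hov2, hl01, hlA,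
      hsolo, hhA, hAA, hBB, hsq⟩ :=
      pushStepX (c := c) hw hD₁ hM hndp (hun c List.mem_cons_self) hcn (fun C hC => hC)
        (hc.adj f hfFs c hcf q hqf hqc.symm) (hc.adj f hfFs c hcf _ htf htc.symm) hJp hfill
    set D₂ : Cov := D₁ \ seg false (topc L yd) l₀ l₁ with hD₂
    have hDD : D₂ ≤ D₁ := sdiff_le
    have hXW : topc L yd ∈ U false :=
      hM.top.mem (v := topv L d) (Set.mem_singleton _) hw.lines hM.hz
    have hadm : Adm U₁ D₂ := by
      intro o x y hy
      refine ⟨hD₁.mono hst.sub o x hy, ?_⟩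
      rintro ⟨ho, hx, -⟩
      subst ho
      subst hx
      exact hy (hst.sub false hXW)
    have hrvL : rv (r :: L) = c :: rv L := by
      rw [← hr]
      rfl
    have htop : topv (r :: L) d = c := hr
    have hK₁ : ∀ v, v ∉ ({v | v = c ∨ v ∈ J f ∨ v ∈ rv L} : Set V) → Γ₁ v = Γ v := fun v hv =>
      hst.grow.eq hv
    obtain ⟨Γ', U', h', A', B', L', k1, k2, k3, k4, k5, k6, k7, k8, k9, k10, k11, k12, k13⟩ :=
      ih Γ₁ U₁ D₂ h₁ A₁ B₁ (r :: L) hst.wd hadm (hDD.trans hle) hgeo
        (by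
          intro r' hr'
          rcases List.mem_cons.1 hr' with rfl | hr'
          · exact hrpl
          · exact hpl r' hr')
        (by rw [htop]; exact hln')
        (by rw [hrvL]; exact hnd1)
        (by rw [hrvL]; exact hLf)
        (by
          rw [hrvL]
          show List.IsChain (Ov Γ₁) (c :: (rv L ++ [d]))
          rw [BlkE_top L d, List.isChain_cons_cons, ← BlkE_top L d]
          exact ⟨hov2, hch.imp fun _ _ h1 => Ov.mono hst.grow h1⟩)
        ⟨hrt.ge, hT⟩
        (by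
          intro _
          by_cases hL : L = []
          · subst hL
            refine ⟨l₀, l₁, hl01, hlA, ?_, ?_⟩
            · have h1 : lastv [r] d = c := hr
              rw [h1]
              exact hsolo
            · intro x hx hx' hx2
              refine hx2.2 ⟨rfl, rfl, ?_, ?_⟩
              · rw [min_eq_left hl01.le]
                exact hx
              · rw [max_eq_right hl01.le]
                exact hx'
          · obtain ⟨m₀, m₁, h1, h2, h3, h4⟩ := hZ hL
            refine ⟨m₀, m₁, h1, h2.trans hAA, ?_, fun x hx hx' hx2 => h4 x hx hx' (hDD _ _ hx2)⟩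
            have h5 : lastv (r :: L) d = lastv L d := BlkE_lastv hL _ _
            rw [h5]
            exact h3.grow hst.grow h4)
        (by
          intro r' L₂ e
          obtain ⟨e1, e2⟩ := List.cons.inj e
          subst e1
          subst e2
          rw [hr]
          exact hsq)
        (by
          intro v hv
          have h1 : v ∉ ({v | v = c ∨ v ∈ J f ∨ v ∈ rv L} : Set V) := by
            rintro (h2 | h2 | h2)
            · exact hcgs (h2 ▸ hv)
            · exact hJgs f hfFs v h2 hv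
            · exact hdisj v (List.mem_append_left _ h2) hv
          intro o l x hx
          rw [hK₁ v h1] at hx
          exact hun v (List.mem_cons_of_mem _ hv) o l x hx)
        (by
          rw [htop]
          intro g hg v hv
          have h1 : v ∉ ({v | v = c ∨ v ∈ J f ∨ v ∈ rv L} : Set V) := by
            rintro (h2 | h2 | h2)
            · exact hsep g (hfanFs g hg) f hfFs v hv (h2 ▸ hcf)
            · exact hJJ g hg v hv h2
            · exact hJL g (hfanFs g hg) v hv (List.mem_append_left _ h2)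
          intro o l x hx
          rw [hK₁ v h1] at hx
          exact hJ g (hfan ▸ Finset.mem_insert_of_mem hg) v hv o l x hx)
    rw [htop] at k6 k8
    refine ⟨Γ', U', h', A', B', L', ?_, k2, ?_, hAA.trans k4, hBB.trans k5, ?_, k7, ?_, k9, ?_,
      k11, k12, k13⟩
    · rw [k1, hrvL, List.reverse_cons, List.append_assoc]
      rfl
    · calc h ≤ A := hM.hA
        _ = h₁ := hhA.symm
        _ ≤ h' := k3
    · refine (hst.weaken hle ?_).trans (k6.weaken le_rfl ?_)
      · rintro v (h2 | h2 | h2)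
        · exact Or.inl (h2 ▸ List.mem_cons_self)
        · exact Or.inr (Or.inr ⟨f, hfan ▸ Finset.mem_insert_self _ _, h2⟩)
        · exact Or.inr (Or.inl h2)
      · rintro v (h2 | h2 | ⟨g, hg, h2⟩)
        · exact Or.inl (List.mem_cons_of_mem _ h2)
        · rw [hrvL] at h2
          rcases List.mem_cons.1 h2 with h2 | h2
          · exact Or.inl (h2 ▸ List.mem_cons_self)
          · exact Or.inr (Or.inl h2)
        · exact Or.inr (Or.inr ⟨g, hfan ▸ Finset.mem_insert_of_mem hg, h2⟩)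
    · intro g hg
      rw [hfan] at hg
      rcases Finset.mem_insert.1 hg with rfl | hg
      · refine Filled.mono k6.grow hfl ?_
        rintro v hv (h2 | h2 | ⟨g', hg', h2⟩)
        · exact hJgs f hfFs v hv h2
        · rw [hrvL] at h2
          rcases List.mem_cons.1 h2 with h2 | h2
          · exact hsep f hfFs f hfFs v hv (h2 ▸ hcf)
          · exact hJL f hfFs v hv (List.mem_append_left _ h2)
        · exact hJJ g' hg' v h2 hv
      · exact k8 g hg
    · intro v hv
      rcases List.mem_cons.1 hv with rfl | hv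
      · exact Ov.mono k6.grow hov1
      · exact k10 v hv

/-- The vertices of `fs` (`c₁, c₂, ...`, with `{q, d, c₁}, {q, c₁, c₂}, ... ∈ Fs`) are pushed one after the
other. Induction on `fs` with `pushStepX`; for the induction generalize: there are already records
`L` (plain, with `TCh L yd`, `IsChain (Ov Γ) (rv L ++ [d])`, and if `L ≠ []` a zone `(l₀, l₁)` of `lastv L d`
and `d` on `yd` with `l₁ ≤ A` which is not in `D`), the allowed set `D₁ ≤ D` gets smaller by the zones of
`pushStepX` (the zone of the first push is the one of the statement, the later ones are not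
needed). In the end use that an M-state for `D₁ ≤ D` is an M-state for `D`. Adjacencies from
`hc.adj`, the contents of different faces are disjoint (`hc.disj`) and contain no vertices of faces
(`hc.sep`), the faces of `fanF q (d :: fs)` are different by `hnd`. -/
theorem qChain {G : SimpleGraph V} {T : Finset V} {Fs : Finset (Finset V)}
    {J : Finset V → Finset V} (hc : Ctx G T Fs J) {Γ : Dr V} {U : Bool → Finset ℚ} {D : Cov}
    {q w d : V} {Xq h A B Xw u yd : ℚ} {fs : List V} (hw : Wd G Γ U) (hD : Adm U D)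
    (hM : MSt PI Γ U D q Xq h A B [] w Xw u [] d yd yd)
    (hln : List.IsChain (fun a b => ({q, a, b} : Finset V) ∈ Fs) (d :: fs))
    (hnd : (q :: w :: d :: fs).Nodup) (hwF : ∃ g ∈ Fs, w ∈ g)
    (hun : ∀ v ∈ fs, Undrawn Γ v) (hJ : ∀ f ∈ fanF q (d :: fs), ∀ v ∈ J f, Undrawn Γ v) :
    ∃ Γ' U' h' A' B' L, rv L = fs.reverse ∧ (∀ r ∈ L, r.pl = true) ∧ h ≤ h' ∧ A ≤ A' ∧ B ≤ B' ∧
      Step G Γ U D {v | v ∈ fs ∨ ∃ f ∈ fanF q (d :: fs), v ∈ J f} Γ' U' ∧
      MSt PI Γ' U' D q Xq h' A' B' [] w Xw u L d yd yd ∧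
      (∀ f ∈ fanF q (d :: fs), Filled G Γ' (J f)) ∧ List.IsChain (Ov Γ') (rv L ++ [d]) ∧
      (∀ v ∈ fs, Ov Γ' v q) ∧ TCh L yd ∧
      (L ≠ [] → ∃ l₀ l₁, l₀ < l₁ ∧ l₁ ≤ A' ∧ Solo Γ' {lastv L d, d} false yd l₀ l₁) ∧
      ∀ r L₂, L = r :: L₂ → Solo Γ' {r.v, q} true Xq r.c (topc L₂ yd) := by
  have hnd' : (q :: w :: (rv ([] : List (Rec V)) ++ [d] ++ fs)).Nodup := hnd
  obtain ⟨Γ', U', h', A', B', L', k1, k2, k3, k4, k5, k6, k7, k8, k9, k10, k11, k12, k13⟩ :=
    BlkE_run hc hwF D fs Γ U D h A B [] hw hD le_rfl hM (fun r hr => by simp at hr) hln hnd'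
      (fun v hv => by simp [rv] at hv) (by
        show List.IsChain (Ov Γ) [d]
        simp) trivial (fun h1 => absurd rfl h1)
      (fun r L₂ e => by simp at e) hun hJ
  refine ⟨Γ', U', h', A', B', L', ?_, k2, k3, k4, k5, ?_, k7, k8, k9, k10, k11, k12, k13⟩
  · rw [k1]
    simp [rv]
  · refine k6.weaken le_rfl ?_
    rintro v (h2 | h2 | h2)
    · exact Or.inl h2
    · simp [rv] at h2
    · exact Or.inr h2

end EPG26
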