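import Pool.Agent.W_26e041_h61.BlkB
import Pool.Agent.W_26e041_h61.BlkD
import Pool.Agent.W_26e041_h61.BlkE

/-!
Drawing a block: the state before the vertex `e` is drawn.
-/

namespace EPG26

variable {V : Type*} [DecidableEq V]

/-- The state before `e` is drawn: `q` with its column `Xq` (left of everything), the pending black
vertices `L` (neighbours of `q`) with base `d`, the base `w`. Between `S1` and `b` the column `Xq` is
clean (for the face `{o1, q, e}`). -/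
structure BQ (Γ : Dr V) (U : Bool → Finset ℚ) (D : Cov) (q w d : V)
    (Xq I0 I1 Xw Xd S1 b h A B u yd Top hR : ℚ) (L : List (Rec V)) (l1 l2 : Ln V) : Prop where
  XI : Xq ≤ I0
  Iu : I0 < u
  ud : u ≤ Xd
  dX : Xd < Xw
  ne : l1.Λ ≠ l2.Λ
  Λ1 : l1.Λ < S1
  Λ2 : l2.Λ < S1
  s1 : l1.s1 ≤ S1
  Sb : S1 < b
  bB : b ≤ B
  yT : yd < Top
  u1 : l1.Λ ∈ U false
  u2 : l2.Λ ∈ U false
  uw : Xw ∈ U true
  uq : Xq ∈ U true
  ud' : Xd ∈ U true
  uy : yd ∈ U false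
  p1 : PreL Γ D w Xw I0 hR I1 l1
  line2 : LG Γ D d w Xw B l2
  lc2 : l2.lc = Xd
  m : MSt PI Γ U D q Xq h A B [] w Xw u L d yd yd
  pl : ∀ r ∈ L, r.pl = true
  wcol : SW Γ D {w} true Xw B Top
  dcol : SW Γ D {d} true Xd B yd
  drow : SW Γ D {d} false yd u Xd
  YD : ∀ x, x ∈ D false yd
  row : ∀ x, Xd ≤ x → x ≤ Xw → ∀ v, x ∉ Γ v false yd
  qwin : SW Γ D {q} true Xq S1 b

/-- the vertices drawn between `w` and `e` -/
def blkQ (J : Finset V → Finset V) (o2 q d : V) (fs : List V) : Set V :=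
  {v | v = d ∨ v ∈ fs ∨ ∃ f, (f = ({o2, q, d} : Finset V) ∨ f ∈ fanF q (d :: fs)) ∧ v ∈ J f}

theorem BlkF_SWle {Γ : Dr V} {D D₁ : Cov} {S : Set V} {o : Bool} {l a b : ℚ}
    (h : SW Γ D₁ S o l a b) (hD : D₁ ≤ D) : SW Γ D S o l a b :=
  fun x h1 h2 => ⟨hD o l (h x h1 h2).1, (h x h1 h2).2⟩

theorem BlkF_MSt {P : V → Cov → Prop} {Γ : Dr V} {U : Bool → Finset ℚ} {D D₁ : Cov} {z : V}
    {Xz h A B : ℚ} {W : List (Rec V)} {a0 : V} {X0 u : ℚ} {L : List (Rec V)} {b0 : V} {Y0 yu : ℚ}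
    (hM : MSt P Γ U D₁ z Xz h A B W a0 X0 u L b0 Y0 yu) (hD : D₁ ≤ D) :
    MSt P Γ U D z Xz h A B W a0 X0 u L b0 Y0 yu := by
  refine ⟨⟨hM.n.ordW, hM.n.ordB, hM.n.huX, hM.n.hyY, ?_, ?_, BlkF_SWle hM.n.wbase hD,
    BlkF_SWle hM.n.bbase hD⟩, hM.hz, hM.hA, BlkF_SWle hM.zcol hD, BlkF_SWle hM.top hD⟩
  · intro r hr
    obtain ⟨s, hs, hp⟩ := hM.n.white r hr
    exact ⟨s, hs, hp.mono_D (fun x _ _ hx => hD _ _ hx) (fun x _ _ hx => hD _ _ hx)⟩
  · intro r hr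
    obtain ⟨s, hs, hp⟩ := hM.n.black r hr
    exact ⟨s, hs, hp.mono_D (fun x _ _ hx => hD _ _ hx) (fun x _ _ hx => hD _ _ hx)⟩

theorem BlkF_pt {Γ Γ' : Dr V} {D₁ : Cov} {K : Set V} (hg : Grow Γ Γ' D₁ K) {o : Bool} {l x : ℚ}
    (hx : x ∉ D₁ o l) (v : V) : x ∈ Γ' v o l ↔ x ∈ Γ v o l := by
  constructor
  · intro h
    rcases hg.new v o l x h with h1 | h1
    · exact h1
    · exact absurd h1.2 hx
  · exact hg.mono v o l x

theorem BlkF_PreL {Γ Γ' : Dr V} {D D₁ : Cov} {K : Set V} {w : V} {Xw I0 hR I1 : ℚ} {l : Ln V}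
    (h : PreL Γ D w Xw I0 hR I1 l) (hg : Grow Γ Γ' D₁ K)
    (h1 : ∀ x, x ∉ D₁ false l.Λ) (h2 : ∀ x, x < l.s1 → x ∉ D₁ true l.R) :
    PreL Γ' D w Xw I0 hR I1 l := by
  refine ⟨h.XR, h.nr, h.nh, h.hI, h.Λs, ?_, h.row.grow hg fun x _ _ => h1 x,
    h.col.grow hg fun x _ hx => h2 x hx, h.tail.grow hg fun x _ _ => h1 x⟩
  intro x hx hx'
  refine ⟨(h.free x hx hx').1, fun v => ?_⟩
  rw [BlkF_pt hg (h1 x) v]
  exact (h.free x hx hx').2 v

theorem BlkF_LG {Γ Γ' : Dr V} {D D₁ : Cov} {K : Set V} {v w : V} {Xw B B' : ℚ} {l : Ln V}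
    (h : LG Γ D v w Xw B l) (hg : Grow Γ Γ' D₁ K) (hv : v ∉ K) (hB : B ≤ B')
    (h1 : ∀ x, x ∉ D₁ false l.Λ) (h2 : ∀ x, x < l.s1 → x ∉ D₁ true l.R)
    (h3 : ∀ x, x < l.s1 → x ∉ D₁ true l.lc) : LG Γ' D v w Xw B' l := by
  refine ⟨h.ok.grow hg (fun x _ _ => h1 x) (fun x _ _ => h1 x) (fun x _ hx => h3 x hx), h.eX,
    h.XR, h.sB.trans hB, h.nr, h.row.grow hg fun x _ _ => h1 x,
    h.col.grow hg fun x _ hx => h2 x hx, ?_⟩
  rw [hg.eq hv]
  exact h.ext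

theorem BlkF_seg {o o' : Bool} {l l' a b x : ℚ} (h : a ≤ b) :
    x ∈ seg o l a b o' l' ↔ o' = o ∧ l' = l ∧ a < x ∧ x < b := LineA_mem h

/-- the allowed set of the chain -/
def BlkF_D (D : Cov) (U₁ : Bool → Finset ℚ) (Xw Xq B yd u : ℚ) : Cov :=
  D ⊓ (nl U₁ ⊔ seg true Xw B yd ⊔ seg true Xq B yd ⊔ seg false yd Xq u)

theorem BlkF_D_mem {D : Cov} {U₁ : Bool → Finset ℚ} {Xw Xq B yd u : ℚ} (h1 : B ≤ yd)
    (h2 : Xq ≤ u) {o : Bool} {l x : ℚ} :
    x ∈ BlkF_D D U₁ Xw Xq B yd u o l ↔ x ∈ D o l ∧ (l ∉ U₁ o ∨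
      (o = true ∧ (l = Xw ∨ l = Xq) ∧ B < x ∧ x < yd) ∨
      (o = false ∧ l = yd ∧ Xq < x ∧ x < u)) := by
  change x ∈ D o l ∧ (((l ∉ U₁ o ∨ x ∈ seg true Xw B yd o l) ∨ x ∈ seg true Xq B yd o l) ∨
    x ∈ seg false yd Xq u o l) ↔ _
  rw [BlkF_seg h1, BlkF_seg h1, BlkF_seg h2]
  tauto

theorem BlkF_fan_vert {ow : V} {l : List V} {f : Finset V} (hf : f ∈ fanF ow l) {v : V}
    (hv : v ∈ f) : v = ow ∨ v ∈ l := by
  obtain ⟨p, a, b, s, rfl, rfl⟩ := mem_fanF.1 hf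
  simp only [Finset.mem_insert, Finset.mem_singleton] at hv
  rcases hv with h | h | h
  · exact Or.inl h
  · right; rw [h]; simp
  · right; rw [h]; simp

theorem BlkF_fan_sub {q e d : V} {fs : List V} {f : Finset V} (hf : f ∈ fanF q (d :: fs)) :
    f ∈ fanF q (d :: fs ++ [e]) := by
  obtain ⟨p, a, b, s, h1, h2⟩ := mem_fanF.1 hf
  refine mem_fanF.2 ⟨p, a, b, s ++ [e], ?_, h2⟩
  rw [h1]
  simp

/-- `blk_d` for the face `{o2, q, d}`, then `qChain`. Initial M-state: `h = A`; for `tr = false`: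
`u = Xd`, `I0 < A < Xd`; for `tr = true`: `I0 < A < u < Xd`. Allowed set of the chain:
`D₁ = D ⊓ (nl U₁ ⊔ seg true Xw B yd ⊔ seg true Xq B yd ⊔ seg false yd Xq u)`; the other windows are not
in `D₁`. The final `wcol` consists of `wbase` of the M-state below `yd` and of the old one from `yd` on;
the M-state for `D₁` is an M-state for `D`. Adjacencies and faces from the block (`blkF`). -/
theorem blk_q {G : SimpleGraph V} {T : Finset V} {Fs : Finset (Finset V)}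
    {J : Finset V → Finset V} (hc : Ctx G T Fs J) {o1 o2 q w e d : V} {al be fs : List V}
    {F : Finset (Finset V)} (hB : Blk0 T Fs o1 o2 q w e d al be fs F) (tr : Bool) {Γ : Dr V}
    {U : Bool → Finset ℚ} {D : Cov} {Xq I0 I1 Xw S1 Top hR : ℚ} {l1 l2 : Ln V}
    (hw : Wd G Γ U) (hD : Adm U D) (h : BW Γ U D q w Xq I0 I1 Xw S1 Top hR l1 l2)
    (h1 : l1.ow = o1) (h2 : l2.ow = o2) (hun : ∀ v ∈ blkQ J o2 q d fs, Undrawn Γ v) :
    ∃ Γ' U' Xd b h' A B u yd L l2',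
      BQ Γ' U' D q w d Xq I0 I1 Xw Xd S1 b h' A B u yd Top hR L l1 l2' ∧ l2'.ow = o2 ∧
      rv L = fs.reverse ∧ (tr = false → u = Xd ∧ I0 < h') ∧ (tr = true → u < Xd) ∧
      Step G Γ U D (blkQ J o2 q d fs) Γ' U' ∧
      (∀ f, (f = ({o2, q, d} : Finset V) ∨ f ∈ fanF q (d :: fs)) → Filled G Γ' (J f)) ∧
      Ov Γ' d o2 ∧ (∀ v ∈ d :: fs, Ov Γ' v q) ∧ List.IsChain (Ov Γ') (rv L ++ [d]) ∧ TCh L yd ∧
      (L ≠ [] → ∃ l₀ l₁, l₀ < l₁ ∧ l₁ ≤ A ∧ Solo Γ' {lastv L d, d} false yd l₀ l₁) ∧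
      ∀ r L₂, L = r :: L₂ → Solo Γ' {r.v, q} true Xq r.c (topc L₂ yd) := by
  subst h1 h2
  -- combinatorics
  have hf2 : ({l2.ow, q, d} : Finset V) ∈ Fs := by
    rw [hB.hF]
    refine Finset.mem_union_left _ (Finset.mem_union_left _ ?_)
    simp
  have hf1 : ({l1.ow, l2.ow, w} : Finset V) ∈ Fs := by
    rw [hB.hF]
    refine Finset.mem_union_left _ (Finset.mem_union_left _ ?_)
    simp
  have hfan : ∀ f ∈ fanF q (d :: fs), f ∈ Fs := by
    intro f hf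
    rw [hB.hF]
    exact Finset.mem_union_left _ (Finset.mem_union_right _
      (Finset.mem_union_right _ (BlkF_fan_sub hf)))
  have nd0 := hB.nd
  rw [List.nodup_cons, List.nodup_cons, List.nodup_cons] at nd0
  obtain ⟨n1, n2, n3, n4⟩ := nd0
  have memb : ∀ v, v = w ∨ v = d ∨ v ∈ fs → v ∈ blkBd w e d al be fs := by
    intro v hv
    unfold blkBd
    simp only [List.mem_append, List.mem_reverse, List.mem_singleton]
    tauto
  have nd1 : (fs.reverse ++ [d] ++ be ++ [w]).Nodup :=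
    (List.nodup_append.1 (List.nodup_append.1 n4).1).1
  have nd2 := List.nodup_append.1 nd1
  have nd3 := (List.nodup_append.1 nd2.1).1
  have nddfs : (d :: fs).Nodup := by
    have h3 := List.nodup_reverse.2 nd3
    simpa using h3
  have hwd : ∀ v, v = d ∨ v ∈ fs → v ≠ w := by
    intro v hv
    refine nd2.2.2 v ?_ w (by simp)
    simp only [List.mem_append, List.mem_reverse, List.mem_singleton]
    tauto
  have hqv : ∀ v, v = w ∨ v = d ∨ v ∈ fs → v ≠ q := by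
    rintro v hv rfl
    exact n3 (memb v hv)
  have ho2v : ∀ v, v = w ∨ v = d ∨ v ∈ fs → v ≠ l2.ow := by
    rintro v hv hv2
    apply n2
    rw [← hv2]
    exact List.mem_cons_of_mem _ (memb v hv)
  have hqo : q ≠ l2.ow := by
    intro h3
    apply n2
    rw [← h3]
    exact List.mem_cons_self
  have hndq : (q :: w :: d :: fs).Nodup := by
    refine List.nodup_cons.2 ⟨?_, List.nodup_cons.2 ⟨?_, nddfs⟩⟩
    · intro h3
      have h4 : q = w ∨ q = d ∨ q ∈ fs := by simpa using h3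
      exact hqv q h4 rfl
    · intro h3
      have h4 : w = d ∨ w ∈ fs := by simpa using h3
      exact hwd w h4 rfl
  have hsep : ∀ f ∈ Fs, ∀ g ∈ Fs, ∀ v ∈ J f, v ∉ g := fun f hf g hg v hv =>
    Finset.disjoint_left.1 (hc.sep f hf g hg) hv
  have hln : List.IsChain (fun a b => ({q, a, b} : Finset V) ∈ Fs) (d :: fs) := by
    refine List.isChain_iff_forall_rel_of_append_cons_cons.2 ?_
    intro a b l₁ l₂ h3
    exact hfan _ (mem_fanF.2 ⟨l₁, a, b, l₂, h3, rfl⟩)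
  -- the vertex d
  have hundJ : ∀ v ∈ J {l2.ow, q, d}, Undrawn Γ v ∧ v ≠ d ∧ v ≠ w ∧ v ≠ q ∧ v ≠ l1.ow ∧
      v ≠ l2.ow := by
    intro v hv
    refine ⟨hun v (Or.inr (Or.inr ⟨_, Or.inl rfl, hv⟩)), ?_, ?_, ?_, ?_, ?_⟩
    · rintro rfl; exact hsep _ hf2 _ hf2 v hv (by simp)
    · rintro rfl; exact hsep _ hf2 _ hf1 v hv (by simp)
    · rintro rfl; exact hsep _ hf2 _ hf2 v hv (by simp)
    · rintro rfl; exact hsep _ hf2 _ hf1 _ hv (by simp)
    · rintro rfl; exact hsep _ hf2 _ hf2 _ hv (by simp)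
  obtain ⟨Γ1, U1, Xd, b, B, yd, l2', hI0, hXd, hSb, hbB, hByd, hydT, how, hΛ, hlc, st1, fil1, ov1,
    ov2, uyd, uXd, hp1, hLG, hwcol, hdcol, hdrow, hq1, hq2, hYD, hrow⟩ :=
    blk_d hw hD h (hun d (Or.inl rfl))
      (hc.adj _ hf2 d (by simp) l2.ow (by simp) (ho2v d (Or.inr (Or.inl rfl))))
      (hc.adj _ hf2 d (by simp) q (by simp) (hqv d (Or.inr (Or.inl rfl))))
      (hwd d (Or.inl rfl)) hqo hundJ (hc.fill _ hf2)
  -- choice of A and u
  obtain ⟨A, u, hA1, hA2, hu, htr, htr'⟩ : ∃ A u : ℚ, I0 < A ∧ A < u ∧ u ≤ Xd ∧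
      (tr = false → u = Xd) ∧ (tr = true → u < Xd) := by
    cases tr
    · obtain ⟨A, h3, h4⟩ := exists_between hI0
      exact ⟨A, Xd, h3, h4, le_refl _, fun _ => rfl, fun h5 => absurd h5 (by simp)⟩
    · obtain ⟨u, h3, h4⟩ := exists_between hI0
      obtain ⟨A, h5, h6⟩ := exists_between h3
      exact ⟨A, u, h5, h6, h4.le, fun h5 => absurd h5 (by simp), fun _ => h4⟩
  have hXqA : Xq < A := lt_of_le_of_lt h.XI hA1
  have hXqu : Xq ≤ u := (hXqA.trans hA2).le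
  have hDle : BlkF_D D U1 Xw Xq B yd u ≤ D := fun o l x hx =>
    ((BlkF_D_mem hByd.le hXqu).1 hx).1
  have hAdm : Adm U1 (BlkF_D D U1 Xw Xq B yd u) := by
    intro o l x hx
    refine (BlkF_D_mem hByd.le hXqu).2 ⟨?_, Or.inl hx⟩
    exact hD o l (fun h3 => hx (st1.sub o h3))
  have hMt : MSt PI Γ1 U1 (BlkF_D D U1 Xw Xq B yd u) q Xq A A B [] w Xw u [] d yd yd := by
    refine ⟨⟨hA2, hByd, hu.trans hXd.le, le_refl _, by simp, by simp, ?_, ?_⟩, hXqA, le_refl _,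
      ?_, ?_⟩
    · intro x hx hx'
      have h3 := hwcol x (hSb.trans (hbB.trans hx)) (hx'.trans hydT)
      exact ⟨(BlkF_D_mem hByd.le hXqu).2 ⟨h3.1, Or.inr (Or.inl ⟨rfl, Or.inl rfl, hx, hx'⟩)⟩, h3.2⟩
    · intro x hx hx'
      have h3 := hdrow x (hXqA.trans hx) (lt_of_lt_of_le hx' hu)
      exact ⟨(BlkF_D_mem hByd.le hXqu).2
        ⟨h3.1, Or.inr (Or.inr ⟨rfl, rfl, hXqA.trans hx, hx'⟩)⟩, h3.2⟩
    · intro x hx hx'
      have h3 := hq2 x hx hx'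
      exact ⟨(BlkF_D_mem hByd.le hXqu).2 ⟨h3.1, Or.inr (Or.inl ⟨rfl, Or.inr rfl, hx, hx'⟩)⟩, h3.2⟩
    · intro x hx hx'
      have h3 := hdrow x hx (lt_of_lt_of_le (hx'.trans hA2) hu)
      exact ⟨(BlkF_D_mem hByd.le hXqu).2
        ⟨h3.1, Or.inr (Or.inr ⟨rfl, rfl, hx, hx'.trans hA2⟩)⟩, h3.2⟩
  -- undrawn vertices after the first step
  have hun1 : ∀ v ∈ fs, Undrawn Γ1 v := by
    intro v hv
    refine Undrawn.grow st1.grow (hun v (Or.inr (Or.inl hv))) ?_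
    rintro (h3 | h3)
    · rw [h3] at hv
      exact (List.nodup_cons.1 nddfs).1 hv
    · -- v is in a face
      have h4 : v ∈ d :: fs := List.mem_cons_of_mem _ hv
      obtain ⟨f, hf, hvf⟩ : ∃ f ∈ fanF q (d :: fs), v ∈ f := by
        obtain ⟨s, t, hst⟩ := List.append_of_mem hv
        rcases List.eq_nil_or_concat s with rfl | ⟨s', a, rfl⟩
        · refine ⟨{q, d, v}, mem_fanF.2 ⟨[], d, v, t, ?_, rfl⟩, by simp⟩
          rw [hst]
          rfl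
        · refine ⟨{q, a, v}, mem_fanF.2 ⟨d :: s', a, v, t, ?_, rfl⟩, by simp⟩
          rw [hst]
          simp
      exact hsep _ hf2 _ (hfan f hf) v h3 hvf
  have hne2 : ∀ f ∈ fanF q (d :: fs), f ≠ {l2.ow, q, d} := by
    rintro f hf rfl
    rcases BlkF_fan_vert hf (v := l2.ow) (by simp) with h3 | h3
    · exact hqo h3.symm
    · have h4 : l2.ow = d ∨ l2.ow ∈ fs := by simpa using h3
      exact ho2v l2.ow (Or.inr h4) rfl
  have hJ1 : ∀ f ∈ fanF q (d :: fs), ∀ v ∈ J f, Undrawn Γ1 v := by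
    intro f hf v hv
    refine Undrawn.grow st1.grow (hun v (Or.inr (Or.inr ⟨f, Or.inr hf, hv⟩))) ?_
    rintro (h3 | h3)
    · rw [h3] at hv
      exact hsep _ (hfan f hf) _ hf2 d hv (by simp)
    · exact Finset.disjoint_left.1 (hc.disj f (hfan f hf) _ hf2 (hne2 f hf)) hv h3
  obtain ⟨Γ', U', h', A', B', L, hrv, hpl, hh', hA', hB', st2, hM', hfil2, hch, hov, htch, hzone,
    hlast⟩ := qChain hc st1.wd hAdm hMt hln hndq ⟨_, hf1, by simp⟩ hun1 hJ1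
  have hK2d : d ∉ {v | v ∈ fs ∨ ∃ f ∈ fanF q (d :: fs), v ∈ J f} := by
    rintro (h3 | ⟨f, hf, hv⟩)
    · exact (List.nodup_cons.1 nddfs).1 h3
    · exact hsep _ (hfan f hf) _ hf2 d hv (by simp)
  have hK2J : ∀ v ∈ J {l2.ow, q, d}, v ∉ {v | v ∈ fs ∨ ∃ f ∈ fanF q (d :: fs), v ∈ J f} := by
    rintro v hv (h3 | ⟨f, hf, hv2⟩)
    · obtain ⟨s, t, hst⟩ := List.append_of_mem h3
      have : ∃ f ∈ fanF q (d :: fs), v ∈ f := by
        rcases List.eq_nil_or_concat s with rfl | ⟨s', a, rfl⟩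
        · refine ⟨{q, d, v}, mem_fanF.2 ⟨[], d, v, t, ?_, rfl⟩, by simp⟩
          rw [hst]
          rfl
        · refine ⟨{q, a, v}, mem_fanF.2 ⟨d :: s', a, v, t, ?_, rfl⟩, by simp⟩
          rw [hst]
          simp
      obtain ⟨f, hf, hvf⟩ := this
      exact hsep _ hf2 _ (hfan f hf) v hv hvf
    · exact Finset.disjoint_left.1 (hc.disj f (hfan f hf) _ hf2 (hne2 f hf)) hv2 hv
  -- positions outside the allowed set of the chain
  have nF : ∀ l x, l ∈ U1 false → (l ≠ yd ∨ x ≤ Xq ∨ u ≤ x) →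
      x ∉ BlkF_D D U1 Xw Xq B yd u false l := by
    intro l x hl hx hm
    obtain ⟨-, h3 | ⟨h3, -⟩ | ⟨-, h4, h5, h6⟩⟩ := (BlkF_D_mem hByd.le hXqu).1 hm
    · exact h3 hl
    · exact absurd h3 (by simp)
    · rcases hx with h7 | h7 | h7
      · exact h7 h4
      · exact absurd h5 (not_lt.2 h7)
      · exact absurd h6 (not_lt.2 h7)
  have nT : ∀ l x, l ∈ U1 true → ((l ≠ Xw ∧ l ≠ Xq) ∨ x ≤ B ∨ yd ≤ x) →
      x ∉ BlkF_D D U1 Xw Xq B yd u true l := by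
    intro l x hl hx hm
    obtain ⟨-, h3 | ⟨-, h4, h5, h6⟩ | ⟨h3, -⟩⟩ := (BlkF_D_mem hByd.le hXqu).1 hm
    · exact h3 hl
    · rcases hx with h7 | h7 | h7
      · rcases h4 with h4 | h4
        · exact h7.1 h4
        · exact h7.2 h4
      · exact absurd h5 (not_lt.2 h7)
      · exact absurd h6 (not_lt.2 h7)
    · exact absurd h3 (by simp)
  have uΛ1 : l1.Λ ∈ U1 false := st1.sub _ h.u1
  have uΛ2 : l2'.Λ ∈ U1 false := by rw [hΛ]; exact st1.sub _ h.u2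
  have uXw : Xw ∈ U1 true := st1.sub _ h.uw
  have uXq : Xq ∈ U1 true := st1.sub _ h.uq
  have hΛ1yd : l1.Λ ≠ yd := (h.Λ1.trans (hSb.trans (hbB.trans hByd))).ne
  have hΛ2yd : l2'.Λ ≠ yd := by
    rw [hΛ]
    exact (h.Λ2.trans (hSb.trans (hbB.trans hByd))).ne
  have uR1 : l1.R ∈ U1 true := hp1.col.mem (Set.mem_singleton w) st1.wd.lines hp1.Λs
  have uR2 : l2'.R ∈ U1 true := hLG.col.mem (Set.mem_singleton w) st1.wd.lines
    (lt_of_le_of_lt hLG.ok.h6 hLG.ok.h7)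
  have hs1B : l1.s1 ≤ B := h.s1.trans (hSb.trans hbB).le
  have hg2 := st2.grow
  refine ⟨Γ', U', Xd, b, h', A', B', u, yd, L, l2', ?_, how, hrv, ?_, htr', ?_, ?_, ?_, ?_, hch,
    htch, hzone, hlast⟩
  · refine
      { XI := h.XI
        Iu := hA1.trans hA2
        ud := hu
        dX := hXd
        ne := by rw [hΛ]; exact h.ne
        Λ1 := h.Λ1
        Λ2 := by rw [hΛ]; exact h.Λ2
        s1 := h.s1
        Sb := hSb
        bB := hbB.le.trans hB'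
        yT := hydT
        u1 := st2.sub _ uΛ1
        u2 := st2.sub _ uΛ2
        uw := st2.sub _ uXw
        uq := st2.sub _ uXq
        ud' := st2.sub _ uXd
        uy := st2.sub _ uyd
        p1 := ?_
        line2 := ?_
        lc2 := hlc
        m := BlkF_MSt hM' hDle
        pl := hpl
        wcol := ?_
        dcol := ?_
        drow := ?_
        YD := hYD
        row := ?_
        qwin := ?_ }
    · exact BlkF_PreL hp1 hg2 (fun x => nF _ x uΛ1 (Or.inl hΛ1yd))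
        (fun x hx => nT _ x uR1 (Or.inr (Or.inl (hx.le.trans hs1B))))
    · refine BlkF_LG hLG hg2 hK2d hB' (fun x => nF _ x uΛ2 (Or.inl hΛ2yd))
        (fun x hx => nT _ x uR2 (Or.inr (Or.inl (hx.le.trans hLG.sB)))) (fun x hx => ?_)
      refine nT _ x ?_ (Or.inr (Or.inl (hx.le.trans hLG.sB)))
      rw [hlc]
      exact uXd
    · intro x hx hx'
      by_cases hxy : x < yd
      · exact BlkF_SWle hM'.n.wbase hDle x hx hxy
      · have hyx : yd ≤ x := not_lt.1 hxy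
        have h3 := hwcol x (lt_of_lt_of_le (hSb.trans (hbB.trans hByd)) hyx) hx'
        refine ⟨h3.1, fun v => ?_⟩
        rw [BlkF_pt hg2 (nT _ x uXw (Or.inr (Or.inr hyx))) v]
        exact h3.2 v
    · refine (hdcol.sub hB' (le_refl _)).grow hg2 fun x _ _ => nT _ x uXd (Or.inl ⟨hXd.ne, ?_⟩)
      exact (lt_of_le_of_lt h.XI hI0).ne'
    · exact (hdrow.sub hXqu (le_refl _)).grow hg2 fun x hx _ =>
        nF _ x uyd (Or.inr (Or.inr hx.le))
    · intro x hx hx' v hv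
      rw [BlkF_pt hg2 (nF _ x uyd (Or.inr (Or.inr (hu.trans hx)))) v] at hv
      exact hrow x hx hx' v hv
    · exact hq1.grow hg2 fun x _ hx' => nT _ x uXq (Or.inr (Or.inl (hx'.trans hbB).le))
  · intro h3
    exact ⟨htr h3, lt_of_lt_of_le hA1 hh'⟩
  · refine (st1.weaken (le_refl _) ?_).trans (st2.weaken hDle ?_)
    · rintro v (h3 | h3)
      · exact Or.inl h3
      · exact Or.inr (Or.inr ⟨_, Or.inl rfl, h3⟩)
    · rintro v (h3 | ⟨f, hf, h3⟩)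
      · exact Or.inr (Or.inl h3)
      · exact Or.inr (Or.inr ⟨f, Or.inr hf, h3⟩)
  · rintro f (rfl | hf)
    · exact Filled.mono hg2 fil1 hK2J
    · exact hfil2 f hf
  · exact Ov.mono hg2 ov1
  · intro v hv
    rcases List.mem_cons.1 hv with rfl | hv
    · exact Ov.mono hg2 ov2
    · exact hov v hv

end EPG26
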