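import Pool.Agent.W_26e041_h61.BlkF

/-!
Drawing a block: the vertex `e`, first case.
-/

namespace EPG26

variable {V : Type*} [DecidableEq V]

/-- the coverage of `e` -/
def BlkG_C (Λ Xe e₁ Y Xq ye : ℚ) : Cov :=
  seg false Λ Xe e₁ ⊔ seg true Xe Λ Y ⊔ seg false Y Xq Xe ⊔ seg true Xq ye Y

theorem BlkG_C_h {Λ Xe e₁ Y Xq ye l x : ℚ} (h1 : Xe ≤ e₁) (h2 : Xq ≤ Xe) :
    x ∈ BlkG_C Λ Xe e₁ Y Xq ye false l ↔ (l = Λ ∧ Xe < x ∧ x < e₁) ∨ (l = Y ∧ Xq < x ∧ x < Xe) := by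
  constructor
  · rintro (((h | h) | h) | h)
    · exact Or.inl ((LineA_mem h1).1 h).2
    · exact absurd h.1 (by decide)
    · exact Or.inr ((LineA_mem h2).1 h).2
    · exact absurd h.1 (by decide)
  · rintro (h | h)
    · exact Or.inl (Or.inl (Or.inl ((LineA_mem h1).2 ⟨rfl, h⟩)))
    · exact Or.inl (Or.inr ((LineA_mem h2).2 ⟨rfl, h⟩))

theorem BlkG_C_v {Λ Xe e₁ Y Xq ye l x : ℚ} (h1 : Λ ≤ Y) (h2 : ye ≤ Y) :
    x ∈ BlkG_C Λ Xe e₁ Y Xq ye true l ↔ (l = Xe ∧ Λ < x ∧ x < Y) ∨ (l = Xq ∧ ye < x ∧ x < Y) := by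
  constructor
  · rintro (((h | h) | h) | h)
    · exact absurd h.1 (by decide)
    · exact Or.inl ((LineA_mem h1).1 h).2
    · exact absurd h.1 (by decide)
    · exact Or.inr ((LineA_mem h2).1 h).2
  · rintro (h | h)
    · exact Or.inl (Or.inl (Or.inr ((LineA_mem h1).2 ⟨rfl, h⟩)))
    · exact Or.inr ((LineA_mem h2).2 ⟨rfl, h⟩)

/-- the region of a fill -/
def BlkG_R (U : Bool → Finset ℚ) (Xq Xe I0 I1 X J0 J1 C0 C1 : ℚ) : Cov :=
  nl U ⊔ (seg true Xq I0 I1 ⊔ seg true Xe I0 I1 ⊔ seg (!true) X J0 J1 ⊔ seg true Xq C0 C1)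

theorem BlkG_R_h {U : Bool → Finset ℚ} {Xq Xe I0 I1 X J0 J1 C0 C1 l x : ℚ} (h : J0 ≤ J1) :
    x ∈ BlkG_R U Xq Xe I0 I1 X J0 J1 C0 C1 false l ↔ l ∉ U false ∨ (l = X ∧ J0 < x ∧ x < J1) := by
  constructor
  · rintro (h1 | ((h1 | h1) | h1) | h1)
    · exact Or.inl h1
    · exact absurd h1.1 (by decide)
    · exact absurd h1.1 (by decide)
    · exact Or.inr ((LineA_mem h).1 h1).2
    · exact absurd h1.1 (by decide)
  · rintro (h1 | h1)
    · exact Or.inl h1
    · exact Or.inr (Or.inl (Or.inr ((LineA_mem h).2 ⟨rfl, h1⟩)))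

theorem BlkG_R_v {U : Bool → Finset ℚ} {Xq Xe I0 I1 X J0 J1 C0 C1 l x : ℚ} (h : I0 ≤ I1)
    (h' : C0 ≤ C1) :
    x ∈ BlkG_R U Xq Xe I0 I1 X J0 J1 C0 C1 true l ↔ l ∉ U true ∨ (l = Xq ∧ I0 < x ∧ x < I1) ∨
      (l = Xe ∧ I0 < x ∧ x < I1) ∨ (l = Xq ∧ C0 < x ∧ x < C1) := by
  constructor
  · rintro (h1 | ((h1 | h1) | h1) | h1)
    · exact Or.inl h1
    · exact Or.inr (Or.inl ((LineA_mem h).1 h1).2)
    · exact Or.inr (Or.inr (Or.inl ((LineA_mem h).1 h1).2))
    · exact absurd h1.1 (by decide)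
    · exact Or.inr (Or.inr (Or.inr ((LineA_mem h').1 h1).2))
  · rintro (h1 | h1 | h1 | h1)
    · exact Or.inl h1
    · exact Or.inr (Or.inl (Or.inl (Or.inl ((LineA_mem h).2 ⟨rfl, h1⟩))))
    · exact Or.inr (Or.inl (Or.inl (Or.inr ((LineA_mem h).2 ⟨rfl, h1⟩))))
    · exact Or.inr (Or.inr ((LineA_mem h').2 ⟨rfl, h1⟩))

theorem BlkG_top {lo Y : ℚ} {L : List (Rec V)} (h : OrdL lo L Y) :
    lo < topg L Y ∧ topg L Y ≤ topc L Y ∧ topc L Y ≤ Y := by
  cases L with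
  | nil => exact ⟨h, le_rfl, le_rfl⟩
  | cons r t => exact ⟨h.1, h.2.1.le, h.2.2.lt.le⟩

/-- the first record has the smallest coordinate -/
theorem BlkG_first {lo Y : ℚ} {L : List (Rec V)} (h : OrdL lo L Y) {r : Rec V} (hr : r ∈ L)
    (hc : r.c = topc L Y) (d : V) : topv L d = r.v := by
  cases L with
  | nil => exact absurd hr List.not_mem_nil
  | cons q t =>
    rcases List.mem_cons.1 hr with h1 | h1
    · rw [h1]
      rfl
    · exfalso
      have h2 := h.2.2.mem h1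
      have h3 : r.c = q.c := hc
      linarith

theorem BlkG_ne {lo Y : ℚ} {L : List (Rec V)} (h : OrdL lo L Y) (hL : L ≠ []) : topc L Y ≠ Y := by
  cases L with
  | nil => exact absurd rfl hL
  | cons q t => exact (h.2.2.lt).ne

/-- where the three steps draw, apart from the column of `e` -/
def BlkG_T (U : Bool → Finset ℚ) (Λ Xe e₁ Y Xq hR k₀ k₁ : ℚ) : Cov :=
  fun o l => {x | if o then l ∉ U true ∨ l = Xq else l ∉ U false ∨
    (l = Λ ∧ ((Xe < x ∧ x < e₁) ∨ hR < x)) ∨ (l = Y ∧ (x < Xe ∨ (k₀ < x ∧ x < k₁)))}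

theorem BlkG_T_v {U : Bool → Finset ℚ} {Λ Xe e₁ Y Xq hR k₀ k₁ l x : ℚ} :
    x ∈ BlkG_T U Λ Xe e₁ Y Xq hR k₀ k₁ true l ↔ l ∉ U true ∨ l = Xq := by
  simp [BlkG_T]

theorem BlkG_T_h {U : Bool → Finset ℚ} {Λ Xe e₁ Y Xq hR k₀ k₁ l x : ℚ} :
    x ∈ BlkG_T U Λ Xe e₁ Y Xq hR k₀ k₁ false l ↔ l ∉ U false ∨
      (l = Λ ∧ ((Xe < x ∧ x < e₁) ∨ hR < x)) ∨ (l = Y ∧ (x < Xe ∨ (k₀ < x ∧ x < k₁))) := by
  simp [BlkG_T]

/-- Write `b₁ = topv L d`, `Y₁ = topc L yd`, `o1 = l1.ow`. Draw `e` and fill the faces `{q, e, b₁}`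
(content `Ja`) and `{o1, q, e}` (content `Jb`).
Choose `I0 < hi < Xe < e₁ < Xd` and `Xe < h' < k₀ < k₁ < h` with `Xe` new (note `h ≤ A < Xd`);
`B < B' < topg L yd` and `B' < ye₂ < yem < Y₁`.
`Γ' e = zig false [e₁, l1.Λ, Xe, Y₁, Xq, ye₂]`: it meets `o1` on `l1.Λ` between `Xe` and `e₁`, `b₁` on `Y₁`
between `Xq` and `Xe` (`MSt.top`, `Xe < h`), `q` on `Xq` between `ye₂` and `Y₁` (`MSt.zcol`).
`{q, e, b₁}`: wk-socket with `o = true`, lines `Xq` (`q`), `Xe` (`e`), window `(B, B')`, `b₁` on the line `Y₁`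
with window `(k₀, k₁)`, zone of `q, e` on `Xq`: `(yem, Y₁)`.
`{o1, q, e}`: wk-socket with `o = true`, lines `Xq`, `Xe`, window `(S1, b)`, `o1` on the line `l1.Λ` with
window `(hR, I1)`, zone of `q, e` on `Xq`: `(ye₂, yem)`.
`l1'` is `l1` with `lc = c0 = Xe`, `e = e₁`, `lo = I0`, `hi`, `s0 = l1.Λ`; `Ext` because `Xq < Xe`.
The pending black vertices are not disturbed: a record starts at a position `s ≥ h` if it is the
first one (`Pend.own` and `MSt.top`), the other ones are on other lines. If `L ≠ []` then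
`Y₁ < yd` and the line `yd` is not changed. -/
theorem blk_align {G : SimpleGraph V} {Γ : Dr V} {U : Bool → Finset ℚ} {D : Cov} {q w d e : V}
    {Xq I0 I1 Xw Xd S1 b h A B yd Top hR : ℚ} {L : List (Rec V)} {l1 l2 : Ln V}
    {Ja Jb : Finset V} (hw : Wd G Γ U) (hD : Adm U D)
    (hB : BQ Γ U D q w d Xq I0 I1 Xw Xd S1 b h A B Xd yd Top hR L l1 l2) (hIh : I0 < h)
    (hnd : (l1.ow :: q :: e :: w :: (rv L ++ [d])).Nodup) (he : Undrawn Γ e)
    (heo : G.Adj e l1.ow) (heq : G.Adj e q) (heb : G.Adj e (topv L d))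
    (hJ : ∀ v, v ∈ Ja ∨ v ∈ Jb → Undrawn Γ v ∧ v ∉ l1.ow :: q :: e :: w :: (rv L ++ [d]))
    (hJJ : Disjoint Ja Jb) (hfa : FillT G {q, e, topv L d} Ja) (hfb : FillT G {l1.ow, q, e} Jb)
    (al be : List V) :
    ∃ Γ' U' Xe h' B' l1', l1'.ow = l1.ow ∧
      Step G Γ U D {v | v = e ∨ v ∈ Ja ∨ v ∈ Jb} Γ' U' ∧
      SG Γ' U' D ⟨e, d, w, Xe, h', A, B', yd, Xd, Xw, Top, 0, 0, false, L, al, be, l1', l2⟩ ∧
      Filled G Γ' Ja ∧ Filled G Γ' Jb ∧ Ov Γ' e l1.ow ∧ Ov Γ' e q ∧ Ov Γ' e (topv L d) ∧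
      (L ≠ [] → ∀ v p, p ∈ Γ' v false yd ↔ p ∈ Γ v false yd) := by
  have hn := hB.m.n
  have hAd : A < Xd := hn.ordW
  obtain ⟨hBt, htg, htc⟩ := BlkG_top hn.ordB
  obtain ⟨Y₁, hY₁⟩ : ∃ Y, Y = topc L yd := ⟨_, rfl⟩
  obtain ⟨b₁, hb₁⟩ : ∃ b, b = topv L d := ⟨_, rfl⟩
  have hzc := hB.m.zcol
  have htop := hB.m.top
  rw [← hY₁] at htg htc hzc htop
  rw [← hb₁] at htop heb hfa
  rw [← hb₁]
  have hhz := hB.m.hz
  have hhA := hB.m.hA
  obtain ⟨hi, hi1, hi2⟩ := exists_between hIh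
  obtain ⟨Xe, hX1, hX2, hXU⟩ := exists_fresh U true hi2
  obtain ⟨e₁, he1, he2⟩ := exists_between hX2
  obtain ⟨h', hh1, hh2⟩ := exists_between he2
  obtain ⟨k₀, hk1, hk2⟩ := exists_between hh2
  obtain ⟨k₁, hk3, hk4⟩ := exists_between hk2
  obtain ⟨B', hB1, hB2⟩ := exists_between hBt
  have hBY : B' < Y₁ := hB2.trans_le htg
  obtain ⟨ye, hy1, hy2⟩ := exists_between hBY
  obtain ⟨ym, hm1, hm2⟩ := exists_between hy2
  have hXI := hB.XI
  have hdX := hB.dX
  have hΛS := hB.Λ1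
  have hΛ2S := hB.Λ2
  have hs1 := hB.s1
  have hSb := hB.Sb
  have hbB := hB.bB
  have hp1 := hB.p1
  have hXR := hp1.XR
  have hnr := hp1.nr
  have hnh := hp1.nh
  have hhI := hp1.hI
  have hΛs := hp1.Λs
  have hXqXe : Xq < Xe := hXI.trans_lt (hi1.trans hX1)
  have hΛY : l1.Λ < Y₁ := by linarith
  have hY₁U : Y₁ ∈ U false := htop.mem (v := b₁) rfl hw.lines hhz
  have hbm : b₁ = d ∨ b₁ ∈ rv L := by
    rw [hb₁]
    cases L with
    | nil => exact Or.inl rfl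
    | cons r t => exact Or.inr List.mem_cons_self
  have hdm : d ∈ l1.ow :: q :: e :: w :: (rv L ++ [d]) := by simp
  have hbm' : b₁ ∈ l1.ow :: q :: e :: w :: (rv L ++ [d]) := by
    simp only [List.mem_cons, List.mem_append, List.not_mem_nil, or_false]
    tauto
  simp only [List.nodup_cons, List.mem_cons, List.mem_append, List.not_mem_nil, or_false,
    not_or, List.nodup_append] at hnd
  have heq' : e ≠ q := heq.ne
  have heo' : e ≠ l1.ow := heo.ne
  have heb' : e ≠ b₁ := heb.ne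
  have hqb : q ≠ b₁ := by
    rcases hbm with h1 | h1
    · rw [h1]
      grind
    · grind
  -- drawing of `e`
  obtain ⟨C, hC⟩ : ∃ C, C = BlkG_C l1.Λ Xe e₁ Y₁ Xq ye := ⟨_, rfl⟩
  have hCh : ∀ l x, x ∈ C false l ↔ (l = l1.Λ ∧ Xe < x ∧ x < e₁) ∨ (l = Y₁ ∧ Xq < x ∧ x < Xe) := by
    intro l x
    rw [hC]
    exact BlkG_C_h he1.le hXqXe.le
  have hCv : ∀ l x, x ∈ C true l ↔ (l = Xe ∧ l1.Λ < x ∧ x < Y₁) ∨ (l = Xq ∧ ye < x ∧ x < Y₁) := by
    intro l x
    rw [hC]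
    exact BlkG_C_v hΛY.le hy2.le
  have hfree : ∀ x, Xe < x → x < e₁ → x ∈ D false l1.Λ ∧ ∀ v, x ∈ Γ v false l1.Λ ↔ v = l1.ow :=
    fun x hx hx' => hp1.free x (by linarith) (by linarith)
  have hCD : C ≤ D := by
    intro o l x hx
    cases o with
    | false =>
      rcases (hCh l x).1 hx with ⟨h1, h2, h3⟩ | ⟨h1, h2, h3⟩
      · rw [h1]
        exact (hfree x h2 h3).1
      · rw [h1]
        exact (htop x h2 (by linarith)).1
    | true =>
      rcases (hCv l x).1 hx with ⟨h1, h2, h3⟩ | ⟨h1, h2, h3⟩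
      · rw [h1]
        exact hD _ _ hXU
      · rw [h1]
        exact (hzc x (by linarith) h3).1
  obtain ⟨Γ₁, hΓ₁⟩ : ∃ Γ₁ : Dr V, Γ₁ = Function.update Γ e C := ⟨_, rfl⟩
  obtain ⟨U₁, hU₁⟩ : ∃ U₁ : Bool → Finset ℚ, U₁ = addL U true Xe := ⟨_, rfl⟩
  have hUU₁ : ∀ o, U o ⊆ U₁ o := by
    intro o x hx
    rw [hU₁, mem_addL]
    exact Or.inl hx
  have hXeU₁ : Xe ∈ U₁ true := by
    rw [hU₁, mem_addL]
    exact Or.inr ⟨rfl, rfl⟩
  have hst1 : Step G Γ U C {e} Γ₁ U₁ := by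
    rw [hΓ₁]
    refine Step.draw hw hUU₁ (fun o l x hx => absurd hx (he o l x)) ?_ (fun _ _ _ hx _ => hx) ?_
    · intro o l x hx
      cases o with
      | false =>
        rcases (hCh l x).1 hx with ⟨h1, -⟩ | ⟨h1, -⟩
        · rw [h1]
          exact hUU₁ _ hB.u1
        · rw [h1]
          exact hUU₁ _ hY₁U
      | true =>
        rcases (hCv l x).1 hx with ⟨h1, -⟩ | ⟨h1, -⟩
        · rw [h1]
          exact hXeU₁
        · rw [h1]
          exact hUU₁ _ hB.uq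
    · intro o l x hx _ v hv hxv
      cases o with
      | false =>
        rcases (hCh l x).1 hx with ⟨h1, h2, h3⟩ | ⟨h1, h2, h3⟩
        · rw [h1] at hxv
          rw [((hfree x h2 h3).2 v).1 hxv]
          exact heo
        · rw [h1] at hxv
          rw [((htop x h2 (by linarith)).2 v).1 hxv]
          exact heb
      | true =>
        rcases (hCv l x).1 hx with ⟨h1, h2, h3⟩ | ⟨h1, h2, h3⟩
        · rw [h1] at hxv
          exact absurd (hw.lines _ _ _ _ hxv) hXU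
        · rw [h1] at hxv
          rw [((hzc x (by linarith) h3).2 v).1 hxv]
          exact heq
  have hΓe : Γ₁ e = C := by rw [hΓ₁, Function.update_self]
  have hΓn : ∀ v, v ≠ e → Γ₁ v = Γ v := fun v hv => by rw [hΓ₁, Function.update_of_ne hv]
  have hnX : ∀ v x, x ∉ Γ v true Xe := fun v x hx => hXU (hw.lines _ _ _ _ hx)
  -- windows after the drawing
  have w1Xe : ∀ x, l1.Λ < x → x < Y₁ → ∀ v, x ∈ Γ₁ v true Xe ↔ v = e := by
    intro x hx hx' v
    by_cases hv : v = e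
    · rw [hv, hΓe, hCv]
      exact ⟨fun _ => rfl, fun _ => Or.inl ⟨rfl, hx, hx'⟩⟩
    · rw [hΓn v hv]
      exact ⟨fun h1 => absurd h1 (hnX v x), fun h1 => absurd h1 hv⟩
  have w1qe : ∀ x, ye < x → x < Y₁ → ∀ v, x ∈ Γ₁ v true Xq ↔ v = q ∨ v = e := by
    intro x hx hx' v
    by_cases hv : v = e
    · rw [hv, hΓe, hCv]
      exact ⟨fun _ => Or.inr rfl, fun _ => Or.inr ⟨rfl, hx, hx'⟩⟩
    · rw [hΓn v hv, (hzc x (by linarith) hx').2 v]
      exact ⟨fun h1 => Or.inl h1, fun h1 => h1.resolve_right hv⟩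
  have w1q : ∀ x, x < ye → ∀ v, x ∈ Γ₁ v true Xq ↔ x ∈ Γ v true Xq := by
    intro x hx v
    constructor
    · intro h1
      rcases hst1.grow.new v _ _ _ h1 with h2 | h2
      · exact h2
      · rcases (hCv _ _).1 h2.2 with ⟨h3, -⟩ | ⟨-, h3, -⟩
        · exact absurd h3 hXqXe.ne
        · linarith
    · exact hst1.grow.mono v _ _ _
  have w1Λ : ∀ x, Xe < x → x < e₁ → ∀ v, x ∈ Γ₁ v false l1.Λ ↔ v = l1.ow ∨ v = e := by
    intro x hx hx' v
    by_cases hv : v = e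
    · rw [hv, hΓe, hCh]
      exact ⟨fun _ => Or.inr rfl, fun _ => Or.inl ⟨rfl, hx, hx'⟩⟩
    · rw [hΓn v hv, (hfree x hx hx').2 v]
      exact ⟨fun h1 => Or.inl h1, fun h1 => h1.resolve_right hv⟩
  -- the face of `q, e, b₁`
  have hJa : ∀ v ∈ Ja, Undrawn Γ₁ v := fun v hv =>
    Undrawn.grow hst1.grow (hJ v (Or.inl hv)).1 (fun h1 => (hJ v (Or.inl hv)).2 (by
      rw [Set.mem_singleton_iff.1 h1]
      simp))
  have hJb : ∀ v ∈ Jb, Undrawn Γ₁ v := fun v hv =>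
    Undrawn.grow hst1.grow (hJ v (Or.inr hv)).1 (fun h1 => (hJ v (Or.inr hv)).2 (by
      rw [Set.mem_singleton_iff.1 h1]
      simp))
  obtain ⟨Γ₂, U₂, hst2, hfa'⟩ := hfa.wk Γ₁ U₁ q e b₁ true Xq Xe B B' Y₁ k₀ k₁ Xq ym Y₁ rfl hst1.wd
    hJa ⟨hB1, hk3, (by
      intro x hx hx' v
      rw [w1q x (by linarith)]
      exact (hzc x hx (by linarith)).2 v), (by
      intro x hx hx' v
      exact w1Xe x (by linarith) (by linarith) v), (by
      intro x hx hx' v
      constructor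
      · intro h1
        rcases hst1.grow.new v _ _ _ h1 with h2 | h2
        · exact ((htop x (by linarith) (by linarith)).2 v).1 h2
        · rcases (hCh _ _).1 h2.2 with ⟨h3, -⟩ | ⟨-, -, h3⟩
          · exact absurd h3 hΛY.ne'
          · linarith
      · intro h1
        exact hst1.grow.mono v _ _ _ (((htop x (by linarith) (by linarith)).2 v).2 h1)),
      hXqXe.ne, Or.inr hBY.le⟩
    ⟨hm2, (by
      intro x hx hx' v
      exact w1qe x (by linarith) hx' v), Or.inl ⟨by linarith, by linarith, by linarith⟩⟩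
  have hRa : ∀ l x, x ∈ (nl U₁ ⊔ (seg true Xq B B' ⊔ seg true Xe B B' ⊔ seg (!true) Y₁ k₀ k₁ ⊔
      seg true Xq ym Y₁) : Cov) true l ↔ l ∉ U₁ true ∨ (l = Xq ∧ B < x ∧ x < B') ∨
      (l = Xe ∧ B < x ∧ x < B') ∨ (l = Xq ∧ ym < x ∧ x < Y₁) :=
    fun l x => BlkG_R_v hB1.le hm2.le
  have hRa' : ∀ l x, x ∈ (nl U₁ ⊔ (seg true Xq B B' ⊔ seg true Xe B B' ⊔ seg (!true) Y₁ k₀ k₁ ⊔
      seg true Xq ym Y₁) : Cov) false l ↔ l ∉ U₁ false ∨ (l = Y₁ ∧ k₀ < x ∧ x < k₁) :=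
    fun l x => BlkG_R_h hk3.le
  have hXeU₂ : Xe ∈ U₂ true := hst2.sub _ hXeU₁
  have hXqU₁ : Xq ∈ U₁ true := hUU₁ _ hB.uq
  have hΛU₁ : l1.Λ ∈ U₁ false := hUU₁ _ hB.u1
  have hYU₁ : Y₁ ∈ U₁ false := hUU₁ _ hY₁U
  have w2 : ∀ o l p r, (∀ x, p < x → x < r → x ∉ (nl U₁ ⊔ (seg true Xq B B' ⊔ seg true Xe B B' ⊔
      seg (!true) Y₁ k₀ k₁ ⊔ seg true Xq ym Y₁) : Cov) o l) → ∀ S : Set V, Solo Γ₁ S o l p r →
      Solo Γ₂ S o l p r := fun o l p r h1 S h2 => h2.grow hst2.grow h1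
  have hset : ({l1.ow, q, e} : Finset V) = {q, e, l1.ow} := by
    ext v
    simp only [Finset.mem_insert, Finset.mem_singleton]
    tauto
  obtain ⟨Γ₃, U₃, hst3, hfb'⟩ := hfb.wk Γ₂ U₂ q e l1.ow true Xq Xe S1 b l1.Λ hR I1 Xq ye ym hset
    hst2.wd (fun v hv => Undrawn.grow hst2.grow (hJb v hv) (fun h1 =>
      Finset.disjoint_left.1 hJJ (Finset.mem_coe.1 h1) hv))
    ⟨hSb, hhI, (by
      refine w2 _ _ _ _ ?_ _ ?_
      · intro x hx hx' h1
        rcases (hRa _ _).1 h1 with h2 | ⟨-, h2, -⟩ | ⟨-, h2, -⟩ | ⟨-, h2, -⟩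
        · exact h2 hXqU₁
        · linarith
        · linarith
        · linarith
      · intro x hx hx' v
        rw [w1q x (by linarith)]
        exact (hB.qwin x hx hx').2 v), (by
      refine w2 _ _ _ _ ?_ _ ?_
      · intro x hx hx' h1
        rcases (hRa _ _).1 h1 with h2 | ⟨-, h2, -⟩ | ⟨-, h2, -⟩ | ⟨-, h2, -⟩
        · exact h2 hXeU₁
        · linarith
        · linarith
        · linarith
      · exact fun x hx hx' v => w1Xe x (by linarith) (by linarith) v), (by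
      refine w2 _ _ _ _ ?_ _ ?_
      · intro x hx hx' h1
        rcases (hRa' _ _).1 h1 with h2 | ⟨h2, -⟩
        · exact h2 hΛU₁
        · exact hΛY.ne h2
      · refine hp1.tail.solo.grow hst1.grow ?_
        intro x hx hx' h1
        rcases (hCh _ _).1 h1 with ⟨-, -, h2⟩ | ⟨h2, -⟩
        · linarith
        · exact hΛY.ne h2), hXqXe.ne, Or.inl hΛS.le⟩
    ⟨hm1, (by
      refine w2 _ _ _ _ ?_ _ ?_
      · intro x hx hx' h1
        rcases (hRa _ _).1 h1 with h2 | ⟨-, -, h2⟩ | ⟨-, -, h2⟩ | ⟨-, h2, -⟩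
        · exact h2 hXqU₁
        · linarith
        · linarith
        · linarith
      · exact fun x hx hx' v => w1qe x hx (by linarith) v),
      Or.inl ⟨by linarith, by linarith, by linarith⟩⟩
  have hRb : ∀ l x, x ∈ (nl U₂ ⊔ (seg true Xq S1 b ⊔ seg true Xe S1 b ⊔ seg (!true) l1.Λ hR I1 ⊔
      seg true Xq ye ym) : Cov) true l ↔ l ∉ U₂ true ∨ (l = Xq ∧ S1 < x ∧ x < b) ∨
      (l = Xe ∧ S1 < x ∧ x < b) ∨ (l = Xq ∧ ye < x ∧ x < ym) :=
    fun l x => BlkG_R_v hSb.le hm1.le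
  have hRb' : ∀ l x, x ∈ (nl U₂ ⊔ (seg true Xq S1 b ⊔ seg true Xe S1 b ⊔ seg (!true) l1.Λ hR I1 ⊔
      seg true Xq ye ym) : Cov) false l ↔ l ∉ U₂ false ∨ (l = l1.Λ ∧ hR < x ∧ x < I1) :=
    fun l x => BlkG_R_h hhI.le
  have hUU₂ : ∀ o, U o ⊆ U₂ o := fun o x hx => hst2.sub o (hUU₁ o hx)
  have hUU₃ : ∀ o, U o ⊆ U₃ o := fun o x hx => hst3.sub o (hUU₂ o hx)
  have heK : e ∉ Ja ∧ e ∉ Jb := by
    constructor
    · exact fun h1 => (hJ e (Or.inl h1)).2 (by simp)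
    · exact fun h1 => (hJ e (Or.inr h1)).2 (by simp)
  obtain ⟨K, hK⟩ : ∃ K : Set V, K = {v | v = e ∨ v ∈ Ja ∨ v ∈ Jb} := ⟨_, rfl⟩
  have hK1 : ({e} : Set V) ⊆ K := by
    rw [hK]
    exact fun v hv => Or.inl hv
  have hK2 : (↑Ja : Set V) ⊆ K := by
    rw [hK]
    exact fun v hv => Or.inr (Or.inl hv)
  have hK3 : (↑Jb : Set V) ⊆ K := by
    rw [hK]
    exact fun v hv => Or.inr (Or.inr hv)
  have hRaD : (nl U₁ ⊔ (seg true Xq B B' ⊔ seg true Xe B B' ⊔ seg (!true) Y₁ k₀ k₁ ⊔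
      seg true Xq ym Y₁) : Cov) ≤ D := by
    intro o l x hx
    cases o with
    | false =>
      rcases (hRa' l x).1 hx with h1 | ⟨h1, h2, h3⟩
      · exact hD _ _ fun h2 => h1 (hUU₁ _ h2)
      · rw [h1]
        exact (htop x (by linarith) (by linarith)).1
    | true =>
      rcases (hRa l x).1 hx with h1 | ⟨h1, h2, h3⟩ | ⟨h1, h2, h3⟩ | ⟨h1, h2, h3⟩
      · exact hD _ _ fun h2 => h1 (hUU₁ _ h2)
      · rw [h1]
        exact (hzc x (by linarith) (by linarith)).1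
      · rw [h1]
        exact hD _ _ hXU
      · rw [h1]
        exact (hzc x (by linarith) (by linarith)).1
  have hRbD : (nl U₂ ⊔ (seg true Xq S1 b ⊔ seg true Xe S1 b ⊔ seg (!true) l1.Λ hR I1 ⊔
      seg true Xq ye ym) : Cov) ≤ D := by
    intro o l x hx
    cases o with
    | false =>
      rcases (hRb' l x).1 hx with h1 | ⟨h1, h2, h3⟩
      · exact hD _ _ fun h2 => h1 (hUU₂ _ h2)
      · rw [h1]
        exact (hp1.tail x h2 h3).1
    | true =>
      rcases (hRb l x).1 hx with h1 | ⟨h1, h2, h3⟩ | ⟨h1, h2, h3⟩ | ⟨h1, h2, h3⟩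
      · exact hD _ _ fun h2 => h1 (hUU₂ _ h2)
      · rw [h1]
        exact (hB.qwin x h2 h3).1
      · rw [h1]
        exact hD _ _ hXU
      · rw [h1]
        exact (hzc x (by linarith) (by linarith)).1
  have hstep : Step G Γ U D K Γ₃ U₃ :=
    ((hst1.weaken hCD hK1).trans (hst2.weaken hRaD hK2)).trans (hst3.weaken hRbD hK3)
  obtain ⟨TG, hTG⟩ : ∃ TG, TG = BlkG_T U l1.Λ Xe e₁ Y₁ Xq hR k₀ k₁ := ⟨_, rfl⟩
  have hTv : ∀ l x, x ∈ TG true l ↔ l ∉ U true ∨ l = Xq := fun l x => by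
    rw [hTG]
    exact BlkG_T_v
  have hTh : ∀ l x, x ∈ TG false l ↔ l ∉ U false ∨
      (l = l1.Λ ∧ ((Xe < x ∧ x < e₁) ∨ hR < x)) ∨
        (l = Y₁ ∧ (x < Xe ∨ (k₀ < x ∧ x < k₁))) := fun l x => by
    rw [hTG]
    exact BlkG_T_h
  have gT : Grow Γ Γ₃ TG K := by
    refine ((hst1.grow.weaken ?_ hK1).trans (hst2.grow.weaken ?_ hK2)).trans
      (hst3.grow.weaken ?_ hK3)
    · intro o l x hx
      cases o with
      | false =>
        rw [hTh]
        rcases (hCh l x).1 hx with ⟨h1, h2⟩ | ⟨h1, h2, h3⟩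
        · exact Or.inr (Or.inl ⟨h1, Or.inl h2⟩)
        · exact Or.inr (Or.inr ⟨h1, Or.inl h3⟩)
      | true =>
        rw [hTv]
        rcases (hCv l x).1 hx with ⟨h1, -⟩ | ⟨h1, -⟩
        · rw [h1]
          exact Or.inl hXU
        · exact Or.inr h1
    · intro o l x hx
      cases o with
      | false =>
        rw [hTh]
        rcases (hRa' l x).1 hx with h1 | ⟨h1, h2⟩
        · exact Or.inl fun h2 => h1 (hUU₁ _ h2)
        · exact Or.inr (Or.inr ⟨h1, Or.inr h2⟩)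
      | true =>
        rw [hTv]
        rcases (hRa l x).1 hx with h1 | ⟨h1, -⟩ | ⟨h1, -⟩ | ⟨h1, -⟩
        · exact Or.inl fun h2 => h1 (hUU₁ _ h2)
        · exact Or.inr h1
        · rw [h1]
          exact Or.inl hXU
        · exact Or.inr h1
    · intro o l x hx
      cases o with
      | false =>
        rw [hTh]
        rcases (hRb' l x).1 hx with h1 | ⟨h1, h2, -⟩
        · exact Or.inl fun h2 => h1 (hUU₂ _ h2)
        · exact Or.inr (Or.inl ⟨h1, Or.inr h2⟩)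
      | true =>
        rw [hTv]
        rcases (hRb l x).1 hx with h1 | ⟨h1, -⟩ | ⟨h1, -⟩ | ⟨h1, -⟩
        · exact Or.inl fun h2 => h1 (hUU₂ _ h2)
        · exact Or.inr h1
        · rw [h1]
          exact Or.inl hXU
        · exact Or.inr h1
  -- the column of `e`
  have wX : ∀ (S : Set V) (p r : ℚ), (r ≤ S1 ∨ B' ≤ p) → Solo Γ₁ S true Xe p r →
      Solo Γ₃ S true Xe p r := by
    intro S p r hpr h1
    refine (h1.grow hst2.grow ?_).grow hst3.grow ?_
    · intro x hx hx' h2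
      rcases (hRa _ _).1 h2 with h3 | ⟨h3, -⟩ | ⟨-, h3, h4⟩ | ⟨h3, -⟩
      · exact h3 hXeU₁
      · exact hXqXe.ne' h3
      · rcases hpr with h5 | h5 <;> linarith
      · exact hXqXe.ne' h3
    · intro x hx hx' h2
      rcases (hRb _ _).1 h2 with h3 | ⟨h3, -⟩ | ⟨-, h3, h4⟩ | ⟨h3, -⟩
      · exact h3 hXeU₂
      · exact hXqXe.ne' h3
      · rcases hpr with h5 | h5 <;> linarith
      · exact hXqXe.ne' h3
  have hΛzone : Solo Γ₃ {l1.ow, e} false l1.Λ Xe e₁ := by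
    have h1 : Solo Γ₁ {l1.ow, e} false l1.Λ Xe e₁ := fun x hx hx' v => w1Λ x hx hx' v
    refine (h1.grow hst2.grow ?_).grow hst3.grow ?_
    · intro x hx hx' h2
      rcases (hRa' _ _).1 h2 with h3 | ⟨h3, -⟩
      · exact h3 hΛU₁
      · exact hΛY.ne h3
    · intro x hx hx' h2
      rcases (hRb' _ _).1 h2 with h3 | ⟨-, h3, -⟩
      · exact h3 (hst2.sub _ hΛU₁)
      · linarith
  -- growth of the other windows
  have gv : ∀ (l x : ℚ), l ∈ U true → l ≠ Xq → x ∉ TG true l := by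
    intro l x hl hq h1
    rcases (hTv l x).1 h1 with h2 | h2
    · exact h2 hl
    · exact hq h2
  have gh : ∀ (l x : ℚ), l ∈ U false → l ≠ l1.Λ → (l ≠ Y₁ ∨ h ≤ x) → x ∉ TG false l := by
    intro l x hl h0 hY h1
    rcases (hTh l x).1 h1 with h2 | ⟨h2, -⟩ | ⟨h2, h3⟩
    · exact h2 hl
    · exact h0 h2
    · rcases hY with h4 | h4
      · exact h4 h2
      · rcases h3 with h3 | ⟨h3, h5⟩ <;> linarith
  have hYd : Y₁ ≤ yd := htc
  have hΛ2U : l2.Λ ∈ U false := hB.u2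
  have hl2 := hB.line2
  have hΛ2Y : l2.Λ ≠ Y₁ := by
    have : l2.Λ < Y₁ := by linarith
    exact this.ne
  have hXdq : Xd ≠ Xq := by
    have : Xq < Xd := by linarith
    exact this.ne'
  have hXwq : Xw ≠ Xq := by
    have : Xq < Xw := by linarith
    exact this.ne'
  have hR1U : l1.R ∈ U true := hp1.col.mem (v := w) rfl hw.lines hΛs
  have hR2U : l2.R ∈ U true := hl2.col.mem (v := w) rfl hw.lines
    (hl2.ok.h6.trans_lt hl2.ok.h7)
  have hR1q : l1.R ≠ Xq := by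
    have : Xq < l1.R := by linarith
    exact this.ne'
  have hR2q : l2.R ≠ Xq := by
    have h1 := hl2.XR
    have : Xq < l2.R := by linarith
    exact this.ne'
  have hdK : d ∉ K := by
    rw [hK]
    rintro (h1 | h1 | h1)
    · grind
    · exact (hJ d (Or.inl h1)).2 hdm
    · exact (hJ d (Or.inr h1)).2 hdm
  have hΓ3e : Γ₃ e = C := by
    rw [hst3.grow.eq (fun h1 => heK.2 (Finset.mem_coe.1 h1)),
      hst2.grow.eq (fun h1 => heK.1 (Finset.mem_coe.1 h1)), hΓe]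
  have g13 : Grow Γ₁ Γ₃ D K := (hst2.grow.weaken hRaD hK2).trans (hst3.grow.weaken hRbD hK3)
  refine ⟨Γ₃, U₃, Xe, h', B', ⟨l1.ow, l1.Λ, Xe, Xe, e₁, l1.R, I0, hi, l1.Λ, l1.s1, l1.nr⟩, rfl,
    hK ▸ hstep, ?_, ?_, hfb', ?_, ?_, ?_, ?_⟩
  · exact {
      o1 := he1.trans hh1
      o2 := (hh2.le).trans hhA
      o3 := hAd
      o4 := hdX
      o5 := hB.yT
      ordL := hn.ordB.raise hB2
      zcol := by
        intro x hx hx'
        have hx2 : x < Y₁ := hx'.trans_eq hY₁.symm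
        exact ⟨hD _ _ hXU, fun v => wX {e} B' Y₁ (Or.inr le_rfl)
          (fun y hy hy' v => w1Xe y (by linarith) hy' v) x hx hx2 v⟩
      top := by
        show SW Γ₃ D {topv L d} false (topc L yd) Xe h'
        rw [← hY₁, ← hb₁]
        refine (htop.sub hXqXe.le hh2.le).grow gT ?_
        intro x hx hx' h1
        rcases (hTh _ _).1 h1 with h2 | ⟨h2, -⟩ | ⟨-, h2 | ⟨h2, -⟩⟩
        · exact h2 hY₁U
        · exact hΛY.ne' h2
        · linarith
        · linarith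
      black := by
        intro r hr
        obtain ⟨s, hs, hP⟩ := hn.black r hr
        refine ⟨s, hs, ?_⟩
        have hpl := hP.plain (hB.pl r hr)
        have hrv : r.v ∈ l1.ow :: q :: e :: w :: (rv L ++ [d]) := by
          have h1 : r.v ∈ rv L := List.mem_map_of_mem hr
          simp [h1]
        have hrB := hn.ordB.mem hr
        refine hP.grow gT hUU₃ ?_ ?_ ?_
        · rw [hK]
          rintro (h1 | h1 | h1)
          · have h2 : r.v ∈ rv L := List.mem_map_of_mem hr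
            grind
          · exact (hJ _ (Or.inl h1)).2 hrv
          · exact (hJ _ (Or.inr h1)).2 hrv
        · intro x hx hx'
          refine gh _ _ hP.hc ?_ ?_
          · have : l1.Λ < r.c := by linarith
            exact this.ne'
          · by_cases h1 : r.c = Y₁
            · right
              refine le_trans ?_ hx
              by_contra h2
              push Not at h2
              obtain ⟨y, hy1', hy2'⟩ := exists_between (max_lt h2 hhz)
              have h3 := BlkG_first hn.ordB hr (h1.trans hY₁) d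
              have h4 := ((htop y ((le_max_right _ _).trans_lt hy1') hy2').2 b₁).2 rfl
              refine hP.own y ((le_max_left _ _).trans hy1'.le) (by linarith) ?_
              rw [h1, ← h3, ← hb₁]
              exact h4
            · exact Or.inl h1
        · intro x hx hx'
          linarith
      pl := hB.pl
      bbase := by
        refine hn.bbase.grow gT ?_
        intro x hx hx'
        refine gh _ _ hB.uy ?_ (Or.inr (by linarith))
        have : l1.Λ < yd := by linarith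
        exact this.ne'
      YD := hB.YD
      row := by
        intro x hx hx' v hv
        rcases gT.new v _ _ _ hv with h1 | h1
        · exact hB.row x hx hx' v h1
        · refine gh _ _ hB.uy ?_ (Or.inr ?_) h1.2
          · have : l1.Λ < yd := by linarith
            exact this.ne'
          · have hx2 : Xd ≤ x := hx
            linarith
      dcol := (hB.dcol.sub hB1.le le_rfl).grow gT fun x _ _ => gv _ _ hB.ud' hXdq
      wcol := (hB.wcol.sub hB1.le le_rfl).grow gT fun x _ _ => gv _ _ hB.uw hXwq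
      line1 := {
        ok := by
          refine ⟨hi1, hX1.le, le_rfl, he1, ?_, le_rfl, hΛs, ?_, ?_, ?_, ?_⟩
          · show e₁ < l1.R
            linarith
          · exact fun x hx hx' => ⟨(hfree x hx hx').1, hΛzone x hx hx'⟩
          · intro x hx hx'
            have hx1 : e₁ ≤ x := hx
            have hx2 : x ≤ l1.R := hx'
            obtain ⟨h1, h2⟩ := hp1.free x (by linarith) hx2
            refine ⟨h1, fun v => ⟨fun h3 => ?_, fun h3 => gT.mono _ _ _ _ ((h2 v).2 h3)⟩⟩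
            rcases gT.new v _ _ _ h3 with h4 | ⟨-, h4⟩
            · exact (h2 v).1 h4
            · rcases (hTh _ _).1 h4 with h5 | ⟨-, ⟨h5, h6⟩ | h5⟩ | ⟨h5, -⟩
              · exact absurd hB.u1 h5
              · linarith
              · linarith
              · exact absurd h5 hΛY.ne
          · intro x hx hx'
            have hx1 : I0 < x := hx
            have hx2 : x < hi := hx'
            obtain ⟨h1, h2⟩ := hp1.free x hx1 (by linarith)
            refine ⟨h1, fun v => ⟨fun h3 => ?_, fun h3 => gT.mono _ _ _ _ ((h2 v).2 h3)⟩⟩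
            rcases gT.new v _ _ _ h3 with h4 | ⟨-, h4⟩
            · exact (h2 v).1 h4
            · rcases (hTh _ _).1 h4 with h5 | ⟨-, ⟨h5, h6⟩ | h5⟩ | ⟨h5, -⟩
              · exact absurd hB.u1 h5
              · linarith
              · linarith
              · exact absurd h5 hΛY.ne
          · intro x hx hx'
            exact ⟨hD _ _ hXU, fun v => wX {e} l1.Λ l1.s1 (Or.inl hs1)
              (fun y hy hy' v => w1Xe y hy (by linarith) v) x hx hx' v⟩
        eX := by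
          show e₁ < Xw
          linarith
        XR := hXR
        sB := by
          show l1.s1 ≤ B'
          linarith
        nr := hnr
        row := by
          refine hp1.row.grow gT ?_
          intro x hx hx' h1
          rcases (hTh _ _).1 h1 with h2 | ⟨-, ⟨h2, h3⟩ | h2⟩ | ⟨h2, -⟩
          · exact h2 hB.u1
          · linarith
          · linarith
          · exact hΛY.ne h2
        col := hp1.col.grow gT fun x _ _ => gv _ _ hR1U hR1q
        ext := by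
          show Ext l1.Λ e₁ (Γ₃ e)
          rw [hΓ3e, hC]
          unfold BlkG_C
          rw [LineB_comm true Xq ye Y₁]
          exact LineB_ext6 he1 hΛY.ne hXqXe.ne' hy2.ne' (Or.inl hXqXe) }
      line2 := {
        ok := by
          refine hl2.ok.grow gT (fun x _ _ => gh _ _ hΛ2U hB.ne.symm (Or.inl hΛ2Y))
            (fun x _ _ => gh _ _ hΛ2U hB.ne.symm (Or.inl hΛ2Y)) ?_
          intro x _ _
          rw [hB.lc2]
          exact gv _ _ hB.ud' hXdq
        eX := hl2.eX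
        XR := hl2.XR
        sB := hl2.sB.trans hB1.le
        nr := hl2.nr
        row := hl2.row.grow gT fun x _ _ => gh _ _ hΛ2U hB.ne.symm (Or.inl hΛ2Y)
        col := hl2.col.grow gT fun x _ _ => gv _ _ hR2U hR2q
        ext := by
          show Ext l2.Λ l2.e (Γ₃ d)
          rw [gT.eq hdK]
          exact hl2.ext }
      e1 := by
        show e₁ < Xd
        linarith
      lc2 := hB.lc2
      ne := hB.ne
      ztop := fun h1 => absurd h1 (by simp) }
  · exact hfa'.mono hst3.grow fun v hv h1 => Finset.disjoint_left.1 hJJ hv (Finset.mem_coe.1 h1)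
  · obtain ⟨x, hx, hx'⟩ := exists_between he1
    exact ⟨false, l1.Λ, x, ((hΛzone x hx hx') e).2 (Or.inr rfl),
      ((hΛzone x hx hx') l1.ow).2 (Or.inl rfl)⟩
  · obtain ⟨x, hx, hx'⟩ := exists_between hy2
    exact ⟨true, Xq, x, g13.mono _ _ _ _ ((w1qe x hx hx' e).2 (Or.inr rfl)),
      g13.mono _ _ _ _ ((w1qe x hx hx' q).2 (Or.inl rfl))⟩
  · obtain ⟨x, hx, hx'⟩ := exists_between hXqXe
    refine ⟨false, Y₁, x, ?_, gT.mono _ _ _ _ (((htop x hx (by linarith)).2 b₁).2 rfl)⟩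
    rw [hΓ3e, hCh]
    exact Or.inr ⟨rfl, hx, hx'⟩
  · intro hL v p
    have hne : Y₁ ≠ yd := by
      rw [hY₁]
      exact BlkG_ne hn.ordB hL
    refine ⟨fun h1 => ?_, fun h1 => gT.mono _ _ _ _ h1⟩
    rcases gT.new v _ _ _ h1 with h2 | h2
    · exact h2
    · refine absurd h2.2 (gh _ _ hB.uy ?_ (Or.inl hne.symm))
      have : l1.Λ < yd := by linarith
      exact this.ne'

end EPG26
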