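import Pool.Agent.W_26e041_h61.BlkF

/-!
Drawing a block: the vertices `e` and `x`, second case.
-/

namespace EPG26

variable {V : Type*} [DecidableEq V]

theorem BlkH_seg_open {o o' : Bool} {l l' a b p B : ℚ} (hp : p ∈ seg o l a b o' l') (hB : B < p) :
    ∃ x, B < x ∧ x < p ∧ x ∈ seg o l a b o' l' := by
  obtain ⟨h1, h2, h3, h4⟩ := hp
  obtain ⟨x, hx1, hx2⟩ := exists_between (max_lt hB h3)
  exact ⟨x, lt_of_le_of_lt (le_max_left _ _) hx1, hx2,
    ⟨h1, h2, lt_of_le_of_lt (le_max_right _ _) hx1, hx2.trans h4⟩⟩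

theorem BlkH_zig_open : ∀ (l : List ℚ) (o o' : Bool) (l' p B : ℚ), p ∈ zig o l o' l' → B < p →
    ∃ x, B < x ∧ x < p ∧ x ∈ zig o l o' l'
  | [], _, _, _, _, _, hp, _ => absurd hp (Set.notMem_empty _)
  | [_], _, _, _, _, _, hp, _ => absurd hp (Set.notMem_empty _)
  | [_, _], _, _, _, _, _, hp, _ => absurd hp (Set.notMem_empty _)
  | a :: b :: c :: t, o, o', l', p, B, hp, hB => by
    rcases hp with hp | hp
    · obtain ⟨x, h1, h2, h3⟩ := BlkH_seg_open hp hB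
      exact ⟨x, h1, h2, Or.inl h3⟩
    · obtain ⟨x, h1, h2, h3⟩ := BlkH_zig_open (b :: c :: t) (!o) o' l' p B hp hB
      exact ⟨x, h1, h2, Or.inr h3⟩

theorem BlkH_path_open {C : Cov} (hC : IsPath3 C) {o : Bool} {l p B : ℚ} (hp : p ∈ C o l)
    (hB : B < p) : ∃ x, B < x ∧ x < p ∧ x ∈ C o l := by
  obtain ⟨o', L, -, -, -, -, h⟩ := hC
  obtain ⟨x, h1, h2, h3⟩ := BlkH_zig_open L o' o l p B ((h o l p).1 hp) hB
  exact ⟨x, h1, h2, (h o l x).2 h3⟩

theorem BlkH_pend_open {Γ : Dr V} {U : Bool → Finset ℚ} {D : Cov} {s hi : ℚ} {r : Rec V}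
    (h : Pend PI Γ U D false s hi r) (hs : s < hi) {l p B : ℚ} (hp : p ∈ Γ r.v true l)
    (hB : B < p) : ∃ x, B < x ∧ x < p ∧ x ∈ Γ r.v true l := by
  obtain ⟨m, hm1, hm2⟩ := exists_between hs
  obtain ⟨Y, hY1, hY2, hY3⟩ : ∃ Y, s < Y ∧ Y ≤ hi ∧ Y ≠ l := by
    by_cases hml : m = l
    · exact ⟨hi, hs, le_rfl, fun h1 => hm2.ne (hml.trans h1.symm)⟩
    · exact ⟨m, hm1, hm2.le, hml⟩
  obtain ⟨C', hP, h1, -, -, h4⟩ := h.pay Y hY1 hY2
  obtain ⟨x, hx1, hx2, hx3⟩ := BlkH_path_open hP (h1 _ _ hp) hB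
  refine ⟨x, hx1, hx2, ?_⟩
  rcases h4 _ _ hx3 with ((h5 | h5) | h5) | h5
  · exact h5
  · exact absurd h5.1 (by decide)
  · exact absurd h5.2.1 hY3.symm
  · exact absurd h5.1 (by decide)

/-- Only `q` covers the position `r₁.c` of its column: the paths are open. -/
theorem blk_pt {G : SimpleGraph V} {J : Finset V → Finset V} {o2 q w d : V} {fs : List V}
    {Γ Γ' : Dr V} {U U' : Bool → Finset ℚ} {D : Cov}
    {Xq I0 I1 Xw Xd S1 b h A B u yd Top hR : ℚ} {r₁ : Rec V} {L : List (Rec V)}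
    {l1 l2 l2' : Ln V} (hW : BW Γ U D q w Xq I0 I1 Xw S1 Top hR l1 l2)
    (hst : Step G Γ U D (blkQ J o2 q d fs) Γ' U')
    (hB : BQ Γ' U' D q w d Xq I0 I1 Xw Xd S1 b h A B u yd Top hR (r₁ :: L) l1 l2')
    (hrv : ∀ v ∈ fs, v ∈ rv (r₁ :: L))
    (hf : ∀ f, (f = ({o2, q, d} : Finset V) ∨ f ∈ fanF q (d :: fs)) → Filled G Γ' (J f)) :
    ∀ v, r₁.c ∈ Γ' v true Xq → v = q := by
  intro v hv
  have hord := hB.m.n.ordB
  have hBc : B < r₁.c := hord.1.trans hord.2.1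
  have hcy : r₁.c < yd := hord.2.2.lt
  have key : (∃ x, B < x ∧ x < r₁.c ∧ x ∈ Γ' v true Xq) → v = q := by
    rintro ⟨x, h1, h2, h3⟩
    exact ((hB.m.zcol x h1 h2).2 v).1 h3
  rcases hst.grow.new v true Xq r₁.c hv with h1 | ⟨h1, -⟩
  · exact ((hW.qcol r₁.c (by linarith [hB.Sb, hB.bB]) (hcy.trans hB.yT)).2 v).1 h1
  · rcases h1 with rfl | h1 | ⟨f, h1, h2⟩
    · exact key (BlkH_path_open hB.line2.ext.path hv hBc)
    · obtain ⟨r, hr, rfl⟩ := List.mem_map.1 (hrv v h1)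
      obtain ⟨s, hs, hp⟩ := hB.m.n.black r hr
      have hsX : s < Xw := by
        have h3 : A < u := hB.m.n.ordW
        linarith [hB.ud, hB.dX]
      exact key (BlkH_pend_open hp hsX hv hBc)
    · exact key (BlkH_path_open (hf f h1 v h2).1 hv hBc)

/-- the path of `e` -/
def BlkH_C (e₁ Λ Xe ye Xq ye₃ : ℚ) : Cov := zig false [e₁, Λ, Xe, ye, Xq, ye₃]

theorem BlkH_C_mem {e₁ Λ Xe ye Xq ye₃ : ℚ} (h1 : Xe < e₁) (h2 : Λ < ye) (h3 : Xq < Xe)
    (h4 : ye < ye₃) {o : Bool} {l p : ℚ} :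
    p ∈ BlkH_C e₁ Λ Xe ye Xq ye₃ o l ↔
      (o = false ∧ l = Λ ∧ Xe < p ∧ p < e₁) ∨ (o = true ∧ l = Xe ∧ Λ < p ∧ p < ye) ∨
      (o = false ∧ l = ye ∧ Xq < p ∧ p < Xe) ∨ (o = true ∧ l = Xq ∧ ye < p ∧ p < ye₃) := by
  have e1 : BlkH_C e₁ Λ Xe ye Xq ye₃ o l =
      seg false Λ e₁ Xe o l ∪ (seg true Xe Λ ye o l ∪ (seg false ye Xe Xq o l ∪
        (seg true Xq ye ye₃ o l ∪ ∅))) := rfl
  rw [e1]
  simp only [Set.mem_union, Set.mem_empty_iff_false, or_false]
  rw [BlkC_seg' h1, BlkC_seg h2, BlkC_seg' h3, BlkC_seg h4]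

theorem BlkH_X_mem {Yj Xx xh ye A' : ℚ} (h1 : Xx < xh) (h2 : Xx < A') (h3 : ye < Yj) {o : Bool}
    {l p : ℚ} : p ∈ GeoT_C Yj Xx xh ye A' o l ↔
      (o = false ∧ l = Yj ∧ Xx < p ∧ p < xh) ∨ (o = true ∧ l = Xx ∧ ye < p ∧ p < Yj) ∨
      (o = false ∧ l = ye ∧ Xx < p ∧ p < A') := by
  have e1 : (p ∈ GeoT_C Yj Xx xh ye A' o l) ↔ ((p ∈ seg false Yj Xx xh o l ∨
      p ∈ seg true Xx ye Yj o l) ∨ p ∈ seg false ye Xx A' o l) := Iff.rfl
  rw [e1, BlkC_seg h1, BlkC_seg h2, BlkC_seg h3, or_assoc]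

/-- where the drawing changes -/
def BlkH_R (U : Bool → Finset ℚ) (Λ Xe e₁ hR I1 Xq Y₁ A xI Yj Xx xh : ℚ) : Cov :=
  fun o l => {p | l ∉ U o ∨ (o = false ∧ l = Λ ∧ ((Xe < p ∧ p < e₁) ∨ (hR < p ∧ p < I1))) ∨
    (o = true ∧ l = Xq) ∨ (o = false ∧ l = Y₁ ∧ A < p ∧ p < xI) ∨
    (o = false ∧ l = Yj ∧ Xx < p ∧ p < xh)}

/-- Steps 2-5 of the drawing. -/
theorem BlkH_core {G : SimpleGraph V} {Γ : Dr V} {U : Bool → Finset ℚ} {D : Cov}
    {q e x b₁ y o1 : V} {Ja Jb : Finset V}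
    {Λ Xq Xe e₁ hR I1 I0 R S1 b B B' gx ye yem ye₃ Y₁ Yt Yj A xI Xx xh xc A' : ℚ}
    (hw : Wd G Γ U) (hD : Adm U D) (q1 : SW Γ D {q} true Xq S1 b)
    (q2 : SW Γ D {q} true Xq B Y₁) (q3 : ∀ v, Y₁ ∈ Γ v true Xq → v = q)
    (q4 : Solo Γ {b₁, q} true Xq Y₁ Yt) (q5 : ∀ p, S1 < p → p < Yt → p ∈ D true Xq)
    (hb : ∀ p, A < p → p < xI → p ∈ D false Y₁ ∧ ∀ w, p ∈ Γ w false Y₁ ↔ w = b₁)
    (hy : ∀ p, A < p → p < xc → p ∈ D false Yj ∧ ∀ w, p ∈ Γ w false Yj ↔ w = y)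
    (ho : ∀ p, I0 < p → p ≤ R → p ∈ D false Λ ∧ ∀ w, p ∈ Γ w false Λ ↔ w = o1)
    (ht : SW Γ D {o1} false Λ hR I1) (uΛ : Λ ∈ U false) (uq : Xq ∈ U true) (uY : Y₁ ∈ U false)
    (uj : Yj ∈ U false) (h1 : Xq < A) (h2 : A < xI) (h3 : xI < Xx) (h4 : Xx < xh) (h5 : xh < xc)
    (h6 : xc < Xe) (h7 : I0 < Xe) (h8 : Xe < e₁) (h9 : e₁ < R) (h10 : Xe < A')
    (h11 : Xe ≤ hR) (h12 : hR < I1) (h13 : R ≤ hR)
    (k1 : Λ < S1) (k2 : S1 < b) (k3 : b ≤ B) (k4 : B < B') (k5 : B' < gx) (k6 : gx < ye)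
    (k7 : ye < yem) (k8 : yem < Y₁) (k9 : Y₁ < ye₃) (k10 : ye₃ < Yt) (k11 : Y₁ < Yj)
    (n1 : Xe ∉ U true) (n2 : Xx ∉ U true) (n3 : ye ∉ U false)
    (he : Undrawn Γ e) (hx : Undrawn Γ x) (hJa : ∀ v ∈ Ja, Undrawn Γ v)
    (hJb : ∀ v ∈ Jb, Undrawn Γ v) (hJJ : Disjoint Ja Jb) (ea : e ∉ Ja) (eb : e ∉ Jb)
    (xa : x ∉ Ja) (xb : x ∉ Jb) (heo : G.Adj e o1) (heq : G.Adj e q) (heb : G.Adj e b₁)
    (hxe : G.Adj x e) (hxy : G.Adj x y) (hfa : FillT G {q, e, b₁} Ja)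
    (hfb : FillT G {o1, q, e} Jb) :
    ∃ Γ₁ U₁, Step G Γ U D {v | v = e ∨ v = x ∨ v ∈ Ja ∨ v ∈ Jb} Γ₁ U₁ ∧
      Grow Γ Γ₁ (BlkH_R U Λ Xe e₁ hR I1 Xq Y₁ A xI Yj Xx xh)
        {v | v = e ∨ v = x ∨ v ∈ Ja ∨ v ∈ Jb} ∧
      Xe ∈ U₁ true ∧ Xx ∈ U₁ true ∧ ye ∈ U₁ false ∧ gx ∈ U₁ false ∧
      Filled G Γ₁ Ja ∧ Filled G Γ₁ Jb ∧ Γ₁ e = BlkH_C e₁ Λ Xe ye Xq ye₃ ∧
      Γ₁ x = GeoT_C Yj Xx xh ye A' ∧
      (∀ p v, p ∈ Γ₁ v true Xe → v = e ∨ (S1 < p ∧ p < b)) ∧
      (∀ p v, p ∈ Γ₁ v false ye → (v = e ∧ Xq < p ∧ p < Xe) ∨ (v = x ∧ Xx < p ∧ p < A') ∨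
        (A < p ∧ p < xI)) ∧
      (∀ p v, p ∈ Γ₁ v true Xx → v = x) ∧
      (∀ p v, p ∈ Γ₁ v false Yj → v = x ∨ p ∈ Γ v false Yj) ∧
      ∀ p v, p ∈ Γ₁ v false Λ → v = e ∨ (hR < p ∧ p < I1) ∨ p ∈ Γ v false Λ := by
  have hex : e ≠ x := hxe.ne'
  have cm : ∀ {o : Bool} {l p : ℚ}, p ∈ BlkH_C e₁ Λ Xe ye Xq ye₃ o l ↔
      (o = false ∧ l = Λ ∧ Xe < p ∧ p < e₁) ∨ (o = true ∧ l = Xe ∧ Λ < p ∧ p < ye) ∨
      (o = false ∧ l = ye ∧ Xq < p ∧ p < Xe) ∨ (o = true ∧ l = Xq ∧ ye < p ∧ p < ye₃) :=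
    BlkH_C_mem h8 (by linarith) (by linarith) (by linarith)
  have xm : ∀ {o : Bool} {l p : ℚ}, p ∈ GeoT_C Yj Xx xh ye A' o l ↔
      (o = false ∧ l = Yj ∧ Xx < p ∧ p < xh) ∨ (o = true ∧ l = Xx ∧ ye < p ∧ p < Yj) ∨
      (o = false ∧ l = ye ∧ Xx < p ∧ p < A') :=
    BlkH_X_mem h4 (by linarith) (by linarith)
  obtain ⟨Ce, hCe⟩ : ∃ Ce, Ce = BlkH_C e₁ Λ Xe ye Xq ye₃ := ⟨_, rfl⟩
  obtain ⟨Cx, hCx⟩ : ∃ Cx, Cx = GeoT_C Yj Xx xh ye A' := ⟨_, rfl⟩
  rw [← hCe, ← hCx]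
  have cm' : ∀ {o : Bool} {l p : ℚ}, p ∈ Ce o l ↔
      (o = false ∧ l = Λ ∧ Xe < p ∧ p < e₁) ∨ (o = true ∧ l = Xe ∧ Λ < p ∧ p < ye) ∨
      (o = false ∧ l = ye ∧ Xq < p ∧ p < Xe) ∨ (o = true ∧ l = Xq ∧ ye < p ∧ p < ye₃) := by
    rw [hCe]
    exact cm
  have xm' : ∀ {o : Bool} {l p : ℚ}, p ∈ Cx o l ↔
      (o = false ∧ l = Yj ∧ Xx < p ∧ p < xh) ∨ (o = true ∧ l = Xx ∧ ye < p ∧ p < Yj) ∨
      (o = false ∧ l = ye ∧ Xx < p ∧ p < A') := by
    rw [hCx]
    exact xm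
  have nf : ∀ {o : Bool} {l p : ℚ} {v : V}, l ∉ U o → p ∉ Γ v o l := fun hl hp =>
    hl (hw.lines _ _ _ _ hp)
  -- values of `Γ` on the column `Xq`
  have hq : ∀ p, ye < p → p < ye₃ → p ∈ D true Xq ∧ ∀ w, p ∈ Γ w true Xq → G.Adj e w := by
    intro p hp1 hp2
    refine ⟨q5 p (by linarith) (by linarith), fun w hp => ?_⟩
    rcases lt_trichotomy p Y₁ with h | h | h
    · have h' : w = q := ((q2 p (by linarith) h).2 w).1 hp
      rw [h']
      exact heq
    · rw [h] at hp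
      rw [q3 w hp]
      exact heq
    · rcases (q4 p h (by linarith) w).1 hp with h' | h'
      · rw [h']
        exact heb
      · have h'' : w = q := h'
        rw [h'']
        exact heq
  -- the vertex e
  obtain ⟨Uc, hUc⟩ : ∃ Uc, Uc = addL (addL U true Xe) false ye := ⟨_, rfl⟩
  have mUc : ∀ {o : Bool} {l : ℚ}, l ∈ Uc o ↔ (l ∈ U o ∨ (o = true ∧ l = Xe)) ∨
      (o = false ∧ l = ye) := fun {o l} => by rw [hUc, mem_addL, mem_addL]
  have stc : Step G Γ U Ce {e} (Function.update Γ e Ce) Uc := by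
    refine Step.draw hw ?_ ?_ ?_ ?_ ?_
    · intro o l hl
      exact mUc.2 (Or.inl (Or.inl hl))
    · intro o l p hp
      exact absurd hp (he o l p)
    · intro o l p hp
      rw [cm'] at hp
      rw [mUc]
      rcases hp with ⟨rfl, rfl, -, -⟩ | ⟨rfl, rfl, -, -⟩ | ⟨rfl, rfl, -, -⟩ | ⟨rfl, rfl, -, -⟩
      · exact Or.inl (Or.inl uΛ)
      · exact Or.inl (Or.inr ⟨rfl, rfl⟩)
      · exact Or.inr ⟨rfl, rfl⟩
      · exact Or.inl (Or.inl uq)
    · intro o l p hp _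
      exact hp
    · intro o l p hp _ v hv hvp
      rw [cm'] at hp
      rcases hp with ⟨rfl, rfl, a1, a2⟩ | ⟨rfl, rfl, -, -⟩ | ⟨rfl, rfl, -, -⟩ | ⟨rfl, rfl, a1, a2⟩
      · rw [((ho p (by linarith) (by linarith)).2 v).1 hvp]
        exact heo
      · exact absurd hvp (nf n1)
      · exact absurd hvp (nf n3)
      · exact (hq p a1 a2).2 v hvp
  obtain ⟨Γc, hΓc⟩ : ∃ Γc, Γc = Function.update Γ e Ce := ⟨_, rfl⟩
  rw [← hΓc] at stc
  have cΓ : ∀ {v : V} {o : Bool} {l p : ℚ}, p ∈ Γc v o l ↔ (v = e ∧ p ∈ Ce o l) ∨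
      p ∈ Γ v o l := by
    intro v o l p
    by_cases hv : v = e
    · subst hv
      rw [hΓc, Function.update_self]
      constructor
      · intro h; exact Or.inl ⟨rfl, h⟩
      · rintro (⟨-, h⟩ | h)
        · exact h
        · exact absurd h (he o l p)
    · rw [hΓc, Function.update_of_ne hv]
      constructor
      · intro h; exact Or.inr h
      · rintro (⟨h, -⟩ | h)
        · exact absurd h hv
        · exact h
  -- the vertex x
  obtain ⟨Ud, hUd⟩ : ∃ Ud, Ud = addL (addL Uc true Xx) false gx := ⟨_, rfl⟩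
  have mUd : ∀ {o : Bool} {l : ℚ}, l ∈ Ud o ↔ (l ∈ Uc o ∨ (o = true ∧ l = Xx)) ∨
      (o = false ∧ l = gx) := fun {o l} => by rw [hUd, mem_addL, mem_addL]
  have std : Step G Γc Uc Cx {x} (Function.update Γc x Cx) Ud := by
    refine Step.draw stc.wd ?_ ?_ ?_ ?_ ?_
    · intro o l hl
      exact mUd.2 (Or.inl (Or.inl hl))
    · intro o l p hp
      rcases cΓ.1 hp with ⟨h, -⟩ | h
      · exact absurd h hex.symm
      · exact absurd h (hx o l p)
    · intro o l p hp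
      rw [xm'] at hp
      rw [mUd, mUc]
      rcases hp with ⟨rfl, rfl, -, -⟩ | ⟨rfl, rfl, -, -⟩ | ⟨rfl, rfl, -, -⟩
      · exact Or.inl (Or.inl (Or.inl (Or.inl uj)))
      · exact Or.inl (Or.inr ⟨rfl, rfl⟩)
      · exact Or.inl (Or.inl (Or.inr ⟨rfl, rfl⟩))
    · intro o l p hp _
      exact hp
    · intro o l p hp _ v hv hvp
      rw [xm'] at hp
      rcases cΓ.1 hvp with ⟨h, -⟩ | h
      · rw [h]
        exact hxe
      · rcases hp with ⟨rfl, rfl, a1, a2⟩ | ⟨rfl, rfl, -, -⟩ | ⟨rfl, rfl, -, -⟩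
        · rw [((hy p (by linarith) (by linarith)).2 v).1 h]
          exact hxy
        · exact absurd h (nf n2)
        · exact absurd h (nf n3)
  obtain ⟨Γd, hΓd⟩ : ∃ Γd, Γd = Function.update Γc x Cx := ⟨_, rfl⟩
  rw [← hΓd] at std
  have dΓ : ∀ {v : V} {o : Bool} {l p : ℚ}, p ∈ Γd v o l ↔ (v = x ∧ p ∈ Cx o l) ∨
      (v = e ∧ p ∈ Ce o l) ∨ p ∈ Γ v o l := by
    intro v o l p
    by_cases hv : v = x
    · subst hv
      rw [hΓd, Function.update_self]
      constructor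
      · intro h; exact Or.inl ⟨rfl, h⟩
      · rintro (⟨-, h⟩ | ⟨h, -⟩ | h)
        · exact h
        · exact absurd h hex.symm
        · exact absurd h (hx o l p)
    · rw [hΓd, Function.update_of_ne hv, cΓ]
      constructor
      · intro h; exact Or.inr h
      · rintro (⟨h, -⟩ | h)
        · exact absurd h hv
        · exact h
  have tf : ¬ (true = false) := by decide
  have ft : ¬ (false = true) := by decide
  -- windows of `Γd`
  have dq : ∀ p v, p ∈ Γd v true Xq ↔ (v = e ∧ ye < p ∧ p < ye₃) ∨ p ∈ Γ v true Xq := by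
    intro p v
    rw [dΓ, cm', xm']
    constructor
    · rintro (⟨-, ⟨h, -⟩ | ⟨-, h, -⟩ | ⟨h, -⟩⟩ | ⟨rfl, ⟨h, -⟩ | ⟨-, h, -⟩ | ⟨h, -⟩ | ⟨-, -, h⟩⟩ | h)
      · exact absurd h tf
      · linarith
      · exact absurd h tf
      · exact absurd h tf
      · linarith
      · exact absurd h tf
      · exact Or.inl ⟨rfl, h⟩
      · exact Or.inr h
    · rintro (⟨rfl, h⟩ | h)
      · exact Or.inr (Or.inl ⟨rfl, Or.inr (Or.inr (Or.inr ⟨rfl, rfl, h⟩))⟩)
      · exact Or.inr (Or.inr h)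
  have w1 : Solo Γd {e} false ye A xI := by
    intro p a1 a2 v
    rw [dΓ, cm', xm']
    constructor
    · rintro (⟨-, ⟨-, h, -⟩ | ⟨h, -⟩ | ⟨-, -, h, -⟩⟩ | ⟨h, -⟩ | h)
      · linarith
      · exact absurd h ft
      · linarith
      · exact h
      · exact absurd h (nf n3)
    · intro h
      exact Or.inr (Or.inl ⟨h, Or.inr (Or.inr (Or.inl ⟨rfl, rfl, by linarith, by linarith⟩))⟩)
  have w2 : Solo Γd {b₁} false Y₁ A xI := by
    intro p a1 a2 v
    rw [dΓ, cm', xm', (hb p a1 a2).2 v]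
    constructor
    · rintro (⟨-, ⟨-, h, -⟩ | ⟨h, -⟩ | ⟨-, h, -⟩⟩ | ⟨-, ⟨-, h, -⟩ | ⟨h, -⟩ | ⟨-, h, -⟩ | ⟨h, -⟩⟩ | h)
      · linarith
      · exact absurd h ft
      · linarith
      · linarith
      · exact absurd h ft
      · linarith
      · exact absurd h ft
      · exact h
    · intro h
      exact Or.inr (Or.inr h)
  have w3 : Solo Γd {q} true Xq B B' := by
    intro p a1 a2 v
    rw [dq]
    constructor
    · rintro (⟨-, h, -⟩ | h)
      · linarith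
      · exact ((q2 p a1 (by linarith)).2 v).1 h
    · intro h
      exact Or.inr (((q2 p a1 (by linarith)).2 v).2 h)
  have w4 : ∀ p, ye < p → p < Y₁ → ∀ v, p ∈ Γd v true Xq ↔ v = e ∨ v = q := by
    intro p a1 a2 v
    rw [dq]
    constructor
    · rintro (⟨h, -⟩ | h)
      · exact Or.inl h
      · exact Or.inr (((q2 p (by linarith) a2).2 v).1 h)
    · rintro (h | h)
      · exact Or.inl ⟨h, a1, by linarith⟩
      · exact Or.inr (((q2 p (by linarith) a2).2 v).2 h)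
  have w5 : Solo Γd {q} true Xq S1 b := by
    intro p a1 a2 v
    rw [dq]
    constructor
    · rintro (⟨-, h, -⟩ | h)
      · linarith
      · exact ((q1 p a1 a2).2 v).1 h
    · intro h
      exact Or.inr (((q1 p a1 a2).2 v).2 h)
  have w6 : ∀ p v, p ∈ Γd v true Xe ↔ v = e ∧ Λ < p ∧ p < ye := by
    intro p v
    rw [dΓ, cm', xm']
    constructor
    · rintro (⟨-, ⟨h, -⟩ | ⟨-, h, -⟩ | ⟨h, -⟩⟩ | ⟨h0, ⟨h, -⟩ | ⟨-, -, h⟩ | ⟨h, -⟩ | ⟨-, h, -⟩⟩ | h)
      · exact absurd h tf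
      · linarith
      · exact absurd h tf
      · exact absurd h tf
      · exact ⟨h0, h⟩
      · exact absurd h tf
      · linarith
      · exact absurd h (nf n1)
    · rintro ⟨h, h'⟩
      exact Or.inr (Or.inl ⟨h, Or.inr (Or.inl ⟨rfl, rfl, h'⟩)⟩)
  have w7 : Solo Γd {o1} false Λ hR I1 := by
    intro p a1 a2 v
    rw [dΓ, cm', xm', (ht p a1 a2).2 v]
    constructor
    · rintro (⟨-, ⟨-, h, -⟩ | ⟨h, -⟩ | ⟨-, h, -⟩⟩ | ⟨-, ⟨-, -, -, h⟩ | ⟨h, -⟩ | ⟨-, h, -⟩ | ⟨h, -⟩⟩ | h)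
      · linarith
      · exact absurd h ft
      · linarith
      · linarith
      · exact absurd h ft
      · linarith
      · exact absurd h ft
      · exact h
    · intro h
      exact Or.inr (Or.inr h)
  have w8 : ∀ p v, p ∈ Γd v false ye → (v = e ∧ Xq < p ∧ p < Xe) ∨
      (v = x ∧ Xx < p ∧ p < A') := by
    intro p v
    rw [dΓ, cm', xm']
    rintro (⟨h0, ⟨-, h, -⟩ | ⟨h, -⟩ | ⟨-, -, h⟩⟩ | ⟨h0, ⟨-, h, -⟩ | ⟨h, -⟩ | ⟨-, -, h⟩ | ⟨h, -⟩⟩ | h)
    · linarith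
    · exact absurd h ft
    · exact Or.inr ⟨h0, h⟩
    · linarith
    · exact absurd h ft
    · exact Or.inl ⟨h0, h⟩
    · exact absurd h ft
    · exact absurd h (nf n3)
  have w9 : ∀ p v, p ∈ Γd v true Xx → v = x := by
    intro p v
    rw [dΓ, cm', xm']
    rintro (⟨h0, -⟩ | ⟨-, ⟨h, -⟩ | ⟨-, h, -⟩ | ⟨h, -⟩ | ⟨-, h, -⟩⟩ | h)
    · exact h0
    · exact absurd h tf
    · linarith
    · exact absurd h tf
    · linarith
    · exact absurd h (nf n2)
  have undr : ∀ v, Undrawn Γ v → v ≠ e → v ≠ x → Undrawn Γd v := by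
    intro v hv h1 h2 o l p hp
    rcases dΓ.1 hp with ⟨h, -⟩ | ⟨h, -⟩ | h
    · exact h2 h
    · exact h1 h
    · exact hv o l p h
  -- the face of q, e, b₁
  have eT : ({q, e, b₁} : Finset V) = {e, b₁, q} := by
    ext v
    simp only [Finset.mem_insert, Finset.mem_singleton]
    tauto
  obtain ⟨Γe, Ue, ste, fa⟩ := hfa.om Γd Ud e b₁ q false ye Y₁ A xI Xq B B' Xq yem Y₁ eT std.wd
    (fun v hv => undr v (hJa v hv) (fun h => ea (h ▸ hv)) (fun h => xa (h ▸ hv)))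
    ⟨h2, k4, w1, w2, w3, by linarith, Or.inl h1.le⟩
    ⟨k8, fun p a1 a2 v => w4 p (by linarith) a2 v, Or.inr ⟨by linarith, by linarith, by linarith⟩,
      Or.inl ⟨by linarith, le_rfl⟩⟩
  have uqd : Xq ∈ Ud true := mUd.2 (Or.inl (Or.inl (mUc.2 (Or.inl (Or.inl uq)))))
  have uΛd : Λ ∈ Ud false := mUd.2 (Or.inl (Or.inl (mUc.2 (Or.inl (Or.inl uΛ)))))
  have uXed : Xe ∈ Ud true := mUd.2 (Or.inl (Or.inl (mUc.2 (Or.inl (Or.inr ⟨rfl, rfl⟩)))))
  have uyed : ye ∈ Ud false := mUd.2 (Or.inl (Or.inl (mUc.2 (Or.inr ⟨rfl, rfl⟩))))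
  have uXxd : Xx ∈ Ud true := mUd.2 (Or.inl (Or.inr ⟨rfl, rfl⟩))
  have ugxd : gx ∈ Ud false := mUd.2 (Or.inr ⟨rfl, rfl⟩)
  obtain ⟨E₁, hE₁⟩ : ∃ E₁ : Cov, E₁ = nl Ud ⊔ (seg false ye A xI ⊔ seg false Y₁ A xI ⊔
    seg (!false) Xq B B' ⊔ seg (!false) Xq yem Y₁) := ⟨_, rfl⟩
  rw [← hE₁] at ste
  have m1 : ∀ {o : Bool} {l p : ℚ}, p ∈ E₁ o l ↔ l ∉ Ud o ∨
      (o = false ∧ l = ye ∧ A < p ∧ p < xI) ∨ (o = false ∧ l = Y₁ ∧ A < p ∧ p < xI) ∨
      (o = true ∧ l = Xq ∧ B < p ∧ p < B') ∨ (o = true ∧ l = Xq ∧ yem < p ∧ p < Y₁) := by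
    intro o l p
    have e1 : (p ∈ E₁ o l) ↔ (l ∉ Ud o ∨ (((p ∈ seg false ye A xI o l ∨
      p ∈ seg false Y₁ A xI o l) ∨ p ∈ seg true Xq B B' o l) ∨ p ∈ seg true Xq yem Y₁ o l)) := by
      rw [hE₁]
      exact Iff.rfl
    rw [e1, BlkC_seg h2, BlkC_seg h2, BlkC_seg k4, BlkC_seg k8, or_assoc, or_assoc]
  -- the face of o1, q, e
  have eT' : ({o1, q, e} : Finset V) = {q, e, o1} := by
    ext v
    simp only [Finset.mem_insert, Finset.mem_singleton]
    tauto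
  have v5 : Solo Γe {q} true Xq S1 b := by
    refine w5.grow ste.grow fun p a1 a2 hp => ?_
    rcases m1.1 hp with h | ⟨h, -⟩ | ⟨h, -⟩ | ⟨-, -, h, -⟩ | ⟨-, -, h, -⟩
    · exact h uqd
    · exact tf h
    · exact tf h
    · linarith
    · linarith
  have v6 : ∀ p, p ∉ E₁ true Xe := by
    intro p hp
    rcases m1.1 hp with h | ⟨h, -⟩ | ⟨h, -⟩ | ⟨-, h, -⟩ | ⟨-, h, -⟩
    · exact h uXed
    · exact tf h
    · exact tf h
    · linarith
    · linarith
  have v6' : Solo Γe {e} true Xe S1 b := by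
    refine Solo.grow (fun p a1 a2 v => ?_) ste.grow fun p _ _ => v6 p
    rw [w6]
    exact ⟨fun h => h.1, fun h => ⟨h, by linarith, by linarith⟩⟩
  have v7 : Solo Γe {o1} false Λ hR I1 := by
    refine w7.grow ste.grow fun p a1 a2 hp => ?_
    rcases m1.1 hp with h | ⟨-, h, -⟩ | ⟨-, h, -⟩ | ⟨h, -⟩ | ⟨h, -⟩
    · exact h uΛd
    · linarith
    · linarith
    · exact ft h
    · exact ft h
  have v4 : Solo Γe {q, e} true Xq ye yem := by
    refine Solo.grow (fun p a1 a2 v => ?_) ste.grow fun p a1 a2 hp => ?_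
    · rw [w4 p a1 (by linarith)]
      exact ⟨fun h => h.symm, fun h => Or.symm h⟩
    · rcases m1.1 hp with h | ⟨h, -⟩ | ⟨h, -⟩ | ⟨-, -, -, h⟩ | ⟨-, -, h, -⟩
      · exact h uqd
      · exact tf h
      · exact tf h
      · linarith
      · linarith
  have dJ : ∀ v ∈ Jb, v ∉ Ja := fun v hv hv' => Finset.disjoint_left.1 hJJ hv' hv
  obtain ⟨Γf, Uf, stf, fb⟩ := hfb.wk Γe Ue q e o1 true Xq Xe S1 b Λ hR I1 Xq ye yem eT' ste.wd
    (fun v hv => (undr v (hJb v hv) (fun h => eb (h ▸ hv)) (fun h => xb (h ▸ hv))).grow ste.grow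
      (fun h => dJ v hv (Finset.mem_coe.1 h)))
    ⟨k2, h12, v5, v6', v7, by linarith, Or.inl k1.le⟩
    ⟨k7, v4, Or.inl ⟨by linarith, h11, by linarith⟩⟩
  obtain ⟨E₂, hE₂⟩ : ∃ E₂ : Cov, E₂ = nl Ue ⊔ (seg true Xq S1 b ⊔ seg true Xe S1 b ⊔
    seg (!true) Λ hR I1 ⊔ seg true Xq ye yem) := ⟨_, rfl⟩
  rw [← hE₂] at stf
  have m2 : ∀ {o : Bool} {l p : ℚ}, p ∈ E₂ o l ↔ l ∉ Ue o ∨
      (o = true ∧ l = Xq ∧ S1 < p ∧ p < b) ∨ (o = true ∧ l = Xe ∧ S1 < p ∧ p < b) ∨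
      (o = false ∧ l = Λ ∧ hR < p ∧ p < I1) ∨ (o = true ∧ l = Xq ∧ ye < p ∧ p < yem) := by
    intro o l p
    have e1 : (p ∈ E₂ o l) ↔ (l ∉ Ue o ∨ (((p ∈ seg true Xq S1 b o l ∨
      p ∈ seg true Xe S1 b o l) ∨ p ∈ seg false Λ hR I1 o l) ∨ p ∈ seg true Xq ye yem o l)) := by
      rw [hE₂]
      exact Iff.rfl
    rw [e1, BlkC_seg k2, BlkC_seg k2, BlkC_seg h12, BlkC_seg k7, or_assoc, or_assoc]
  have uUc : ∀ {o : Bool} {l : ℚ}, l ∈ U o → l ∈ Ud o := fun hl =>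
    mUd.2 (Or.inl (Or.inl (mUc.2 (Or.inl (Or.inl hl)))))
  have uUe : ∀ {o : Bool} {l : ℚ}, l ∈ U o → l ∈ Ue o := fun hl => ste.sub _ (uUc hl)
  -- everything together
  have gr : ∀ o l p, (p ∈ Ce o l ∨ p ∈ Cx o l ∨ p ∈ E₁ o l ∨ p ∈ E₂ o l) → p ∈ D o l ∧
      p ∈ BlkH_R U Λ Xe e₁ hR I1 Xq Y₁ A xI Yj Xx xh o l := by
    intro o l p hp
    have nn : l ∉ U o → p ∈ D o l ∧ p ∈ BlkH_R U Λ Xe e₁ hR I1 Xq Y₁ A xI Yj Xx xh o l :=
      fun h => ⟨hD o l h, Or.inl h⟩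
    have nq : o = true → l = Xq → S1 < p → p < Yt →
        p ∈ D o l ∧ p ∈ BlkH_R U Λ Xe e₁ hR I1 Xq Y₁ A xI Yj Xx xh o l := by
      rintro rfl rfl a1 a2
      exact ⟨q5 p a1 a2, Or.inr (Or.inr (Or.inl ⟨rfl, rfl⟩))⟩
    rcases hp with hp | hp | hp | hp
    · rcases cm'.1 hp with ⟨rfl, rfl, a1, a2⟩ | ⟨rfl, rfl, -, -⟩ | ⟨rfl, rfl, -, -⟩ |
        ⟨h, h', a1, a2⟩
      · exact ⟨(ho p (by linarith) (by linarith)).1,
          Or.inr (Or.inl ⟨rfl, rfl, Or.inl ⟨a1, a2⟩⟩)⟩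
      · exact nn n1
      · exact nn n3
      · exact nq h h' (by linarith) (by linarith)
    · rcases xm'.1 hp with ⟨rfl, rfl, a1, a2⟩ | ⟨rfl, rfl, -, -⟩ | ⟨rfl, rfl, -, -⟩
      · exact ⟨(hy p (by linarith) (by linarith)).1,
          Or.inr (Or.inr (Or.inr (Or.inr ⟨rfl, rfl, a1, a2⟩)))⟩
      · exact nn n2
      · exact nn n3
    · rcases m1.1 hp with h | ⟨rfl, rfl, -, -⟩ | ⟨rfl, rfl, a1, a2⟩ | ⟨h, h', a1, a2⟩ |
        ⟨h, h', a1, a2⟩
      · exact nn fun h' => h (uUc h')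
      · exact nn n3
      · exact ⟨(hb p a1 a2).1, Or.inr (Or.inr (Or.inr (Or.inl ⟨rfl, rfl, a1, a2⟩)))⟩
      · exact nq h h' (by linarith) (by linarith)
      · exact nq h h' (by linarith) (by linarith)
    · rcases m2.1 hp with h | ⟨h, h', a1, a2⟩ | ⟨rfl, rfl, -, -⟩ | ⟨rfl, rfl, a1, a2⟩ |
        ⟨h, h', a1, a2⟩
      · exact nn fun h' => h (uUe h')
      · exact nq h h' (by linarith) (by linarith)
      · exact nn n1
      · exact ⟨(ht p a1 a2).1, Or.inr (Or.inl ⟨rfl, rfl, Or.inr ⟨a1, a2⟩⟩)⟩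
      · exact nq h h' (by linarith) (by linarith)
  have kc : ({e} : Set V) ⊆ {v | v = e ∨ v = x ∨ v ∈ Ja ∨ v ∈ Jb} := fun v hv => Or.inl hv
  have kd : ({x} : Set V) ⊆ {v | v = e ∨ v = x ∨ v ∈ Ja ∨ v ∈ Jb} := fun v hv =>
    Or.inr (Or.inl hv)
  have ke : (↑Ja : Set V) ⊆ {v | v = e ∨ v = x ∨ v ∈ Ja ∨ v ∈ Jb} := fun v hv =>
    Or.inr (Or.inr (Or.inl hv))
  have kf : (↑Jb : Set V) ⊆ {v | v = e ∨ v = x ∨ v ∈ Ja ∨ v ∈ Jb} := fun v hv =>
    Or.inr (Or.inr (Or.inr hv))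
  refine ⟨Γf, Uf, ?_, ?_, stf.sub _ (ste.sub _ uXed), stf.sub _ (ste.sub _ uXxd),
    stf.sub _ (ste.sub _ uyed), stf.sub _ (ste.sub _ ugxd), ?_, fb, ?_, ?_, ?_, ?_, ?_, ?_, ?_⟩
  · exact (stc.weaken (fun o l p hp => (gr o l p (Or.inl hp)).1) kc).trans
      ((std.weaken (fun o l p hp => (gr o l p (Or.inr (Or.inl hp))).1) kd).trans
        ((ste.weaken (fun o l p hp => (gr o l p (Or.inr (Or.inr (Or.inl hp)))).1) ke).trans
          (stf.weaken (fun o l p hp => (gr o l p (Or.inr (Or.inr (Or.inr hp)))).1) kf)))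
  · exact (stc.grow.weaken (fun o l p hp => (gr o l p (Or.inl hp)).2) kc).trans
      ((std.grow.weaken (fun o l p hp => (gr o l p (Or.inr (Or.inl hp))).2) kd).trans
        ((ste.grow.weaken (fun o l p hp => (gr o l p (Or.inr (Or.inr (Or.inl hp)))).2) ke).trans
          (stf.grow.weaken (fun o l p hp => (gr o l p (Or.inr (Or.inr (Or.inr hp)))).2) kf)))
  · exact Filled.mono stf.grow fa (fun v hv hv' => dJ v (Finset.mem_coe.1 hv') hv)
  · rw [stf.grow.eq (fun h => eb (Finset.mem_coe.1 h)), ste.grow.eq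
      (fun h => ea (Finset.mem_coe.1 h)), std.grow.eq (fun h => hex h), hΓc,
      Function.update_self]
  · rw [stf.grow.eq (fun h => xb (Finset.mem_coe.1 h)), ste.grow.eq
      (fun h => xa (Finset.mem_coe.1 h)), hΓd, Function.update_self]
  · intro p v hp
    rcases stf.grow.new _ _ _ _ hp with h | ⟨-, h⟩
    · rcases ste.grow.new _ _ _ _ h with h | ⟨-, h⟩
      · exact Or.inl ((w6 p v).1 h).1
      · exact absurd h (v6 p)
    · rcases m2.1 h with h | ⟨-, h, -⟩ | ⟨-, -, h⟩ | ⟨h, -⟩ | ⟨-, h, -⟩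
      · exact absurd (ste.sub _ uXed) h
      · linarith
      · exact Or.inr h
      · exact absurd h tf
      · linarith
  · intro p v hp
    rcases stf.grow.new _ _ _ _ hp with h | ⟨-, h⟩
    · rcases ste.grow.new _ _ _ _ h with h | ⟨-, h⟩
      · rcases w8 p v h with h | h
        · exact Or.inl h
        · exact Or.inr (Or.inl h)
      · rcases m1.1 h with h | ⟨-, -, h⟩ | ⟨-, h, -⟩ | ⟨h, -⟩ | ⟨h, -⟩
        · exact absurd uyed h
        · exact Or.inr (Or.inr h)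
        · linarith
        · exact absurd h ft
        · exact absurd h ft
    · rcases m2.1 h with h | ⟨h, -⟩ | ⟨h, -⟩ | ⟨-, h, -⟩ | ⟨h, -⟩
      · exact absurd (ste.sub _ uyed) h
      · exact absurd h ft
      · exact absurd h ft
      · linarith
      · exact absurd h ft
  · intro p v hp
    rcases stf.grow.new _ _ _ _ hp with h | ⟨-, h⟩
    · rcases ste.grow.new _ _ _ _ h with h | ⟨-, h⟩
      · exact w9 p v h
      · rcases m1.1 h with h | ⟨h, -⟩ | ⟨h, -⟩ | ⟨-, h, -⟩ | ⟨-, h, -⟩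
        · exact absurd uXxd h
        · exact absurd h tf
        · exact absurd h tf
        · linarith
        · linarith
    · rcases m2.1 h with h | ⟨-, h, -⟩ | ⟨-, h, -⟩ | ⟨h, -⟩ | ⟨-, h, -⟩
      · exact absurd (ste.sub _ uXxd) h
      · linarith
      · linarith
      · exact absurd h tf
      · linarith
  · intro p v hp
    rcases stf.grow.new _ _ _ _ hp with h | ⟨-, h⟩
    · rcases ste.grow.new _ _ _ _ h with h | ⟨-, h⟩
      · rw [dΓ, cm', xm'] at h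
        rcases h with ⟨h0, -⟩ | ⟨-, ⟨-, h, -⟩ | ⟨h, -⟩ | ⟨-, h, -⟩ | ⟨h, -⟩⟩ | h
        · exact Or.inl h0
        · linarith
        · exact absurd h ft
        · linarith
        · exact absurd h ft
        · exact Or.inr h
      · rcases m1.1 h with h | ⟨-, h, -⟩ | ⟨-, h, -⟩ | ⟨h, -⟩ | ⟨h, -⟩
        · exact absurd (uUc uj) h
        · linarith
        · linarith
        · exact absurd h ft
        · exact absurd h ft
    · rcases m2.1 h with h | ⟨h, -⟩ | ⟨h, -⟩ | ⟨-, h, -⟩ | ⟨h, -⟩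
      · exact absurd (uUe uj) h
      · exact absurd h ft
      · exact absurd h ft
      · linarith
      · exact absurd h ft
  · intro p v hp
    rcases stf.grow.new _ _ _ _ hp with h | ⟨-, h⟩
    · rcases ste.grow.new _ _ _ _ h with h | ⟨-, h⟩
      · rw [dΓ, cm', xm'] at h
        rcases h with ⟨-, ⟨-, h, -⟩ | ⟨h, -⟩ | ⟨-, h, -⟩⟩ | ⟨h0, -⟩ | h
        · linarith
        · exact absurd h ft
        · linarith
        · exact Or.inl h0
        · exact Or.inr (Or.inr h)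
      · rcases m1.1 h with h | ⟨-, h, -⟩ | ⟨-, h, -⟩ | ⟨h, -⟩ | ⟨h, -⟩
        · exact absurd uΛd h
        · linarith
        · linarith
        · exact absurd h ft
        · exact absurd h ft
    · rcases m2.1 h with h | ⟨h, -⟩ | ⟨h, -⟩ | ⟨-, -, h⟩ | ⟨h, -⟩
      · exact absurd (uUe uΛ) h
      · exact absurd h ft
      · exact absurd h ft
      · exact Or.inr (Or.inl h)
      · exact absurd h ft

/-- Write `b₁ = r₁.v`, `y = topv L₂ d`, `Yj = topc L₂ yd`, `o1 = l1.ow`. `x` is a common neighbour of `e` and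
`y`. `Ja` is the content of `{q, e, b₁}`, `Jb` of `{o1, q, e}`.
Coordinates (new ones by `exists_fresh`): `A < xI < Xx < xh < xc < u < Xe < h' < A' < Xd`,
`Xe < e₁ < Xd` (`Xx, Xe` new), `B < B' < gx < ye < Bp < r₁.g` (`gx, ye` new), `ye < yem < r₁.c`,
`r₁.c < ye₃ < topc (L₁ ++ L₂) yd`.
1. `Pend.commit` for `r₁` up to `xI`, and, if `L₂ = rj :: _`, for `rj` up to `xc`.
2. Draw `Γ e = zig false [e₁, l1.Λ, Xe, ye, Xq, ye₃]`: it meets `o1` on `l1.Λ`, `q` on `Xq` between `ye` and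
   `ye₃`, and there `b₁` between `r₁.c` and `ye₃` (`hq`).
3. Draw `Γ x = seg false Yj Xx xh ⊔ seg true Xx ye Yj ⊔ seg false ye Xx A'`: it meets `y` on `Yj` and `e` on
   `ye` between `Xx` and `Xe`.
4. Fill `{e, b₁, q}` in the om-socket with `o = false`: lines `ye` (`e`) and `r₁.c` (`b₁`), window `(A, xI)`,
   `q` on the line `Xq` with window `(B, B')` (below both), zone of `e` and `q`: `X2 = Xq`, `(yem, r₁.c)`.
5. Fill `{o1, q, e}` in the wk-socket with `o = true`: lines `Xq` (`q`), `Xe` (`e`), window `(S1, b)`, `o1` on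
   the line `l1.Λ` with window `(hR, I1)`, zone of `q, e` on `Xq`: `(ye, yem)`.
Record `rx`: `v = x`, `c = ye`, `g = gx`, `e = A' - 1`, `t = Yj`, `pl = true`, pending with `s = A'`:
`C' = zig false [xh, Yj, Xx, ye, Y, g']` (as in `tStep`). `l1'` is `l1` with `lc = c0 = Xe`, `e = e₁`,
`lo = I0`, `hi = u`, `s0 = l1.Λ`.
Sub-state (exchanged coordinates): `z = e` with its line `ye`, whites of the exchanged state
`r₁ :: L₁` and base `y` (line `Yj`), black base `x` (line `Xx`), `h = A = Bp`, `B = xI`, limits `Yj`, `Xx`.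
The allowed set of the sub-state is the part of `D` on lines outside `U₁` or between the heights `ye`
and `Yj` with first coordinate at most `Xx`; growth there does not disturb the main state, whose
windows are to the right of `Xx`, above `Yj` or below `ye`, on lines of `U₁`. If `L₂ ≠ []` then
`Yj < yd` and the line `yd` is not changed at all. -/
theorem blk_trick {G : SimpleGraph V} {Γ : Dr V} {U : Bool → Finset ℚ} {D : Cov}
    {q w d e x : V} {Xq I0 I1 Xw Xd S1 b h A B u yd Top hR : ℚ} {r₁ : Rec V}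
    {L₁ L₂ : List (Rec V)} {l1 l2 : Ln V} {Ja Jb : Finset V} (hw : Wd G Γ U) (hD : Adm U D)
    (hB : BQ Γ U D q w d Xq I0 I1 Xw Xd S1 b h A B u yd Top hR (r₁ :: (L₁ ++ L₂)) l1 l2)
    (hu : u < Xd) (hq : Solo Γ {r₁.v, q} true Xq r₁.c (topc (L₁ ++ L₂) yd))
    (hqD : ∀ p, S1 < p → p < Top → p ∈ D true Xq) (hpt : ∀ v, r₁.c ∈ Γ v true Xq → v = q)
    (hnd : (l1.ow :: q :: e :: x :: w :: (rv (r₁ :: (L₁ ++ L₂)) ++ [d])).Nodup)
    (he : Undrawn Γ e) (hx : Undrawn Γ x) (heo : G.Adj e l1.ow) (heq : G.Adj e q)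
    (heb : G.Adj e r₁.v) (hxe : G.Adj x e) (hxy : G.Adj x (topv L₂ d))
    (hJ : ∀ v, v ∈ Ja ∨ v ∈ Jb → Undrawn Γ v ∧
      v ∉ l1.ow :: q :: e :: x :: w :: (rv (r₁ :: (L₁ ++ L₂)) ++ [d]))
    (hJJ : Disjoint Ja Jb) (hfa : FillT G {q, e, r₁.v} Ja) (hfb : FillT G {l1.ow, q, e} Jb)
    (al be : List V) :
    ∃ Γ₁ U₁ l1' rx Xe ye Xx xh xI Bp A' B' h', l1'.ow = l1.ow ∧ rx.v = x ∧ rx.pl = true ∧
      rx.t = topc L₂ yd ∧
      Step G Γ U D {v | v = e ∨ v = x ∨ v ∈ Ja ∨ v ∈ Jb ∨ v = r₁.v ∨ v ∈ rv L₂} Γ₁ U₁ ∧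
      Filled G Γ₁ Ja ∧ Filled G Γ₁ Jb ∧ Ov Γ₁ e l1.ow ∧ Ov Γ₁ e q ∧ Ov Γ₁ e r₁.v ∧ Ov Γ₁ x e ∧
      Ov Γ₁ x (topv L₂ d) ∧ Xx < xh ∧ xh ≤ A' ∧
      Solo Γ₁ {x, topv L₂ d} false (topc L₂ yd) Xx xh ∧
      Adm U₁ (D ⊓ (nl U₁ ⊔ (band ye (topc L₂ yd) ⊓ reg Xx (topc L₂ yd)))) ∧
      MSt (swP PI) (swD Γ₁) (swp U₁)
        (swp (D ⊓ (nl U₁ ⊔ (band ye (topc L₂ yd) ⊓ reg Xx (topc L₂ yd))))) e ye Bp Bp xI
        (r₁ :: L₁) (topv L₂ d) (topc L₂ yd) (topc L₂ yd) [] x Xx Xx ∧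
      ∀ Γ₂ U₂ K₂,
        Step G Γ₁ U₁ (D ⊓ (nl U₁ ⊔ (band ye (topc L₂ yd) ⊓ reg Xx (topc L₂ yd)))) K₂ Γ₂ U₂ →
        (∀ v ∈ rv L₂, v ∉ K₂) → x ∉ K₂ → e ∉ K₂ → d ∉ K₂ →
        SG Γ₂ U₂ D ⟨e, d, w, Xe, h', A', B', yd, Xd, Xw, Top, 0, 0, false, rx :: L₂, al, be,
          l1', l2⟩ ∧
        Solo Γ₂ {x, topv L₂ d} false (topc L₂ yd) Xx xh ∧
        (L₂ ≠ [] → ∀ v p, p ∈ Γ₂ v false yd ↔ p ∈ Γ v false yd) := by
  -- distinct vertices
  obtain ⟨n1, n1'⟩ := List.nodup_cons.1 hnd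
  obtain ⟨n2, n2'⟩ := List.nodup_cons.1 n1'
  obtain ⟨n3, n3'⟩ := List.nodup_cons.1 n2'
  obtain ⟨n4, n4'⟩ := List.nodup_cons.1 n3'
  obtain ⟨n5, n5'⟩ := List.nodup_cons.1 n4'
  obtain ⟨n6, -, n7⟩ := List.nodup_append.1 n5'
  obtain ⟨n8, n8'⟩ := List.nodup_cons.1 (show (r₁.v :: rv (L₁ ++ L₂)).Nodup from n6)
  have rvap : rv (L₁ ++ L₂) = rv L₁ ++ rv L₂ := by
    unfold rv
    exact List.map_append
  rw [rvap] at n8 n8'
  obtain ⟨-, ndn, n9⟩ := List.nodup_append.1 n8'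
  have mem₁ : r₁.v ∈ rv (r₁ :: (L₁ ++ L₂)) := List.mem_cons_self
  have memL₁ : ∀ v ∈ rv L₁, v ∈ rv (r₁ :: (L₁ ++ L₂)) := fun v hv =>
    List.mem_cons_of_mem _ (show v ∈ rv (L₁ ++ L₂) by
      rw [rvap]
      exact List.mem_append_left _ hv)
  have memL₂ : ∀ v ∈ rv L₂, v ∈ rv (r₁ :: (L₁ ++ L₂)) := fun v hv =>
    List.mem_cons_of_mem _ (show v ∈ rv (L₁ ++ L₂) by
      rw [rvap]
      exact List.mem_append_right _ hv)
  have hJn : ∀ v, v ∈ l1.ow :: q :: e :: x :: w :: (rv (r₁ :: (L₁ ++ L₂)) ++ [d]) →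
      v ∉ Ja ∧ v ∉ Jb := fun v hv =>
    ⟨fun h' => (hJ v (Or.inl h')).2 hv, fun h' => (hJ v (Or.inr h')).2 hv⟩
  have rvm : ∀ v ∈ rv (r₁ :: (L₁ ++ L₂)), v ≠ e ∧ v ≠ x ∧ v ∉ Ja ∧ v ∉ Jb := by
    intro v hv
    have h1 : v ∈ rv (r₁ :: (L₁ ++ L₂)) ++ [d] := List.mem_append_left _ hv
    have h2 : v ∈ x :: w :: (rv (r₁ :: (L₁ ++ L₂)) ++ [d]) :=
      List.mem_cons_of_mem _ (List.mem_cons_of_mem _ h1)
    refine ⟨?_, ?_, hJn v (List.mem_cons_of_mem _ (List.mem_cons_of_mem _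
      (List.mem_cons_of_mem _ h2)))⟩
    · rintro rfl
      exact n3 h2
    · rintro rfl
      exact n4 (List.mem_cons_of_mem _ h1)
  have dm : d ≠ e ∧ d ≠ x ∧ d ∉ Ja ∧ d ∉ Jb ∧ d ∉ rv (r₁ :: (L₁ ++ L₂)) := by
    have h1 : d ∈ rv (r₁ :: (L₁ ++ L₂)) ++ [d] := List.mem_append_right _ List.mem_cons_self
    have h2 : d ∈ x :: w :: (rv (r₁ :: (L₁ ++ L₂)) ++ [d]) :=
      List.mem_cons_of_mem _ (List.mem_cons_of_mem _ h1)
    have h3 := hJn d (List.mem_cons_of_mem _ (List.mem_cons_of_mem _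
      (List.mem_cons_of_mem _ h2)))
    refine ⟨?_, ?_, h3.1, h3.2, ?_⟩
    · intro h'
      apply n3
      rw [← h']
      exact h2
    · intro h'
      apply n4
      rw [← h']
      exact List.mem_cons_of_mem _ h1
    · intro h'
      exact n7 d h' d List.mem_cons_self rfl
  have ea := hJn e (List.mem_cons_of_mem _ (List.mem_cons_of_mem _ List.mem_cons_self))
  have xa := hJn x (List.mem_cons_of_mem _ (List.mem_cons_of_mem _
    (List.mem_cons_of_mem _ List.mem_cons_self)))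
  have hex : e ≠ x := hxe.ne'
  -- data of the state
  have hM := hB.m
  obtain ⟨hBg, hgc, hLo⟩ := hM.n.ordB
  have hAu : A < u := hM.n.ordW
  have hud := hB.ud
  have hdX := hB.dX
  have hXI := hB.XI
  have hIu := hB.Iu
  have hSb := hB.Sb
  have hbB := hB.bB
  have hyT := hB.yT
  have hΛ1 := hB.Λ1
  have hΛ2 := hB.Λ2
  have hs1 := hB.s1
  have hXR := hB.p1.XR
  have hnr := hB.p1.nr
  have hnh := hB.p1.nh
  have hhI := hB.p1.hI
  have hΛs := hB.p1.Λs
  have hhz := hM.hz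
  have hhA := hM.hA
  have hL₂ : r₁.c < topg L₂ yd := hLo.left.lt
  have hL₂o : OrdL r₁.c L₂ yd := hLo.right hL₂
  have hgc₂ : topg L₂ yd ≤ topc L₂ yd := by
    cases L₂ with
    | nil => exact le_rfl
    | cons r L' => exact hL₂o.2.1.le
  have hLo₁ : OrdL r₁.c L₁ (topc L₂ yd) := hLo.left.mono le_rfl hgc₂
  have hYt : r₁.c < topc (L₁ ++ L₂) yd := by
    have h' := hLo
    revert h'
    cases L₁ ++ L₂ with
    | nil => exact fun h' => h'
    | cons r L' => exact fun h' => h'.1.trans h'.2.1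
  have hYt' : topc (L₁ ++ L₂) yd ≤ yd := by
    have h' := hLo
    revert h'
    cases L₁ ++ L₂ with
    | nil => exact fun h' => le_rfl
    | cons r L' => exact fun h' => h'.2.2.lt.le
  -- coordinates
  obtain ⟨xI, x1, x2⟩ := exists_between hAu
  obtain ⟨Xx, x3, x4, hXx⟩ := exists_fresh U true x2
  obtain ⟨xh, x5, x6⟩ := exists_between x4
  obtain ⟨xc, x7, x8⟩ := exists_between x6
  obtain ⟨Xe, x9, x10, hXe⟩ := exists_fresh U true hu
  obtain ⟨h', x11, x12⟩ := exists_between x10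
  obtain ⟨A', x13, x14⟩ := exists_between x12
  obtain ⟨e₁, x15, x16⟩ := exists_between x10
  obtain ⟨B', y1, y2⟩ := exists_between hBg
  obtain ⟨gx, y3, y4⟩ := exists_between y2
  obtain ⟨ye, y5, y6, hye⟩ := exists_fresh U false y4
  obtain ⟨Bp, y7, y8⟩ := exists_between y6
  obtain ⟨ye₃, y9, y10⟩ := exists_between hYt
  -- step 1
  have hpl₂ : ∀ r ∈ L₂, r.pl = true := fun r hr =>
    hB.pl r (List.mem_cons_of_mem _ (List.mem_append_right _ hr))
  have hpl₁ : ∀ r ∈ r₁ :: L₁, r.pl = true := by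
    intro r hr
    rcases List.mem_cons.1 hr with h1 | h1
    · rw [h1]
      exact hB.pl _ List.mem_cons_self
    · exact hB.pl r (List.mem_cons_of_mem _ (List.mem_append_left _ h1))
  obtain ⟨Γa, Da, Ka, sta, hDa, hKa, hDa', hline, hblk, hYjU, hYYj, hYj0⟩ :=
    GeoT_prep (h := xc) hw hL₂o le_rfl (by linarith : u ≤ Xw)
      (fun r hr => hM.n.black r (List.mem_cons_of_mem _ (List.mem_append_right _ hr))) hpl₂
      hM.n.bbase ndn (by linarith) x8
  obtain ⟨s₁, hs₁, p₁⟩ := hM.n.black r₁ List.mem_cons_self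
  have p₁' : Pend PI Γa U D false s₁ Xw r₁ := by
    refine GeoT_pl p₁ (hB.pl _ List.mem_cons_self) sta.grow sta.sub ?_ ?_
    · intro h1
      exact n8 (List.mem_append_right _ (hKa _ h1))
    · intro p _ _ hp
      exact hYYj.ne (hDa' _ _ _ hp).2.1
  obtain ⟨Γb, stb, p₁b, hDb, hcb⟩ := Pend.commit sta.wd p₁' (s' := xI) (by linarith) (by linarith)
  obtain ⟨R₀, hR₀⟩ : ∃ R₀ : Cov, R₀ = fun o l => {p | o = false ∧ ((l = topc L₂ yd ∧ p < xc) ∨
    (l = r₁.c ∧ s₁ ≤ p ∧ p < xI))} := ⟨_, rfl⟩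
  have mR₀ : ∀ {o : Bool} {l p : ℚ}, p ∈ R₀ o l ↔ o = false ∧ ((l = topc L₂ yd ∧ p < xc) ∨
    (l = r₁.c ∧ s₁ ≤ p ∧ p < xI)) := by
    intro o l p
    rw [hR₀]
    exact Iff.rfl
  have gb : Grow Γ Γb R₀ {v | v = r₁.v ∨ v ∈ rv L₂} := by
    refine (sta.grow.weaken ?_ ?_).trans (stb.grow.weaken ?_ ?_)
    · intro o l p hp
      obtain ⟨h1, h2, h3⟩ := hDa' _ _ _ hp
      exact mR₀.2 ⟨h1, Or.inl ⟨h2, h3⟩⟩
    · intro v hv
      exact Or.inr (hKa v hv)
    · rintro o l p ⟨h1, h2, h3, h4⟩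
      exact mR₀.2 ⟨h1, Or.inr ⟨h2, h3, h4⟩⟩
    · intro v hv
      exact Or.inl hv
  have sb : Step G Γ U D {v | v = r₁.v ∨ v ∈ rv L₂} Γb U :=
    (sta.weaken hDa fun v hv => Or.inr (hKa v hv)).trans (stb.weaken hDb fun v hv => Or.inl hv)
  have tf : ¬ (true = false) := by decide
  have ft : ¬ (false = true) := by decide
  have bT : ∀ l p, p ∉ R₀ true l := fun l p hp => tf (mR₀.1 hp).1
  have bF : ∀ l p, l ≠ topc L₂ yd → l ≠ r₁.c → p ∉ R₀ false l := by
    intro l p h1 h2 hp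
    rcases (mR₀.1 hp).2 with h3 | h3
    · exact h1 h3.1
    · exact h2 h3.1
  -- steps 2-5
  obtain ⟨Γ₁, U₁, st1, g1, uXe, uXx, uye, ugx, fa, fb, hΓe, hΓx, cXe, cye, cXx, cYj, cΛ⟩ :=
    BlkH_core (G := G) (Γ := Γb) (U := U) (D := D) (q := q) (e := e) (x := x) (b₁ := r₁.v)
      (y := topv L₂ d) (o1 := l1.ow) (Ja := Ja) (Jb := Jb) (Λ := l1.Λ) (Xq := Xq) (Xe := Xe)
      (e₁ := e₁) (hR := hR) (I1 := I1) (I0 := I0) (R := l1.R) (S1 := S1) (b := b) (B := B)
      (B' := B') (gx := gx) (ye := ye) (yem := Bp) (ye₃ := ye₃) (Y₁ := r₁.c)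
      (Yt := topc (L₁ ++ L₂) yd) (Yj := topc L₂ yd) (A := A) (xI := xI) (Xx := Xx) (xh := xh)
      (xc := xc) (A' := A') stb.wd hD (hB.qwin.grow gb fun p _ _ => bT _ p)
      (hM.zcol.grow gb fun p _ _ => bT _ p)
      (by
        intro v hv
        rcases gb.new v true Xq r₁.c hv with h1 | h1
        · exact hpt v h1
        · exact absurd h1.2 (bT _ _))
      (hq.grow gb fun p _ _ => bT _ p)
      (fun p h1 h2 => hqD p h1 (by linarith))
      (fun p h1 h2 => ⟨(p₁.line p (by linarith) (by linarith)).1, hcb p (by linarith) h2⟩)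
      (fun p h1 h2 => ⟨(hline p h1 h2).1, fun v => by
        rw [← (hline p h1 h2).2 v]
        exact BlkF_pt stb.grow (fun hp => hYYj.ne' hp.2.1) v⟩)
      (fun p h1 h2 => ⟨(hB.p1.free p h1 h2).1, fun v => by
        rw [← (hB.p1.free p h1 h2).2 v]
        exact BlkF_pt gb (bF _ p (by linarith) (by linarith)) v⟩)
      (hB.p1.tail.grow gb fun p _ _ => bF _ p (by linarith) (by linarith))
      hB.u1 hB.uq p₁.hc hYjU (by linarith) x1 x3 x5 x7 (by linarith) (by linarith) x15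
      (by linarith) (by linarith) (by linarith) hhI (by linarith) hΛ1 hSb hbB y1 y3 y5 y7
      (by linarith) y9 y10 hYYj hXe hXx hye
      (he.grow gb (by
        rintro (h1 | h1)
        · exact (rvm _ mem₁).1 h1.symm
        · exact (rvm _ (memL₂ _ h1)).1 rfl))
      (hx.grow gb (by
        rintro (h1 | h1)
        · exact (rvm _ mem₁).2.1 h1.symm
        · exact (rvm _ (memL₂ _ h1)).2.1 rfl))
      (fun v hv => (hJ v (Or.inl hv)).1.grow gb (by
        rintro (h1 | h1)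
        · rw [h1] at hv
          exact (rvm _ mem₁).2.2.1 hv
        · exact (rvm _ (memL₂ _ h1)).2.2.1 hv))
      (fun v hv => (hJ v (Or.inr hv)).1.grow gb (by
        rintro (h1 | h1)
        · rw [h1] at hv
          exact (rvm _ mem₁).2.2.2 hv
        · exact (rvm _ (memL₂ _ h1)).2.2.2 hv))
      hJJ ea.1 ea.2 xa.1 xa.2 heo heq heb hxe hxy hfa hfb
  have cm : ∀ {o : Bool} {l p : ℚ}, p ∈ Γ₁ e o l ↔
      (o = false ∧ l = l1.Λ ∧ Xe < p ∧ p < e₁) ∨ (o = true ∧ l = Xe ∧ l1.Λ < p ∧ p < ye) ∨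
      (o = false ∧ l = ye ∧ Xq < p ∧ p < Xe) ∨ (o = true ∧ l = Xq ∧ ye < p ∧ p < ye₃) := by
    intro o l p
    rw [hΓe]
    exact BlkH_C_mem x15 (by linarith) (by linarith) (by linarith)
  have xm : ∀ {o : Bool} {l p : ℚ}, p ∈ Γ₁ x o l ↔
      (o = false ∧ l = topc L₂ yd ∧ Xx < p ∧ p < xh) ∨
      (o = true ∧ l = Xx ∧ ye < p ∧ p < topc L₂ yd) ∨
      (o = false ∧ l = ye ∧ Xx < p ∧ p < A') := by
    intro o l p
    rw [hΓx]
    exact BlkH_X_mem x5 (by linarith) (by linarith)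
  have uU : ∀ {o : Bool} {l : ℚ}, l ∈ U o → l ∈ U₁ o := fun {o l} hl => st1.sub o hl
  -- growth up to Γ₁
  have r1 : ∀ {o : Bool} {l p : ℚ}, l ∈ U o →
      p ∈ BlkH_R U l1.Λ Xe e₁ hR I1 Xq r₁.c A xI (topc L₂ yd) Xx xh o l →
      (o = false ∧ l = l1.Λ ∧ ((Xe < p ∧ p < e₁) ∨ (hR < p ∧ p < I1))) ∨
      (o = true ∧ l = Xq) ∨ (o = false ∧ l = r₁.c ∧ A < p ∧ p < xI) ∨
      (o = false ∧ l = topc L₂ yd ∧ Xx < p ∧ p < xh) := fun hl hp => hp.resolve_left fun h1 => h1 hl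
  obtain ⟨D', hD'⟩ : ∃ D' : Cov, D' = D ⊓ (nl U₁ ⊔ (band ye (topc L₂ yd) ⊓
    reg Xx (topc L₂ yd))) := ⟨_, rfl⟩
  have mDf : ∀ {l p : ℚ}, p ∈ D' false l ↔ p ∈ D false l ∧ (l ∉ U₁ false ∨
      ((ye ≤ l ∧ l ≤ topc L₂ yd) ∧ p ≤ Xx ∧ l ≤ topc L₂ yd)) := by
    intro l p
    rw [hD']
    exact Iff.rfl
  have mDt : ∀ {l p : ℚ}, p ∈ D' true l ↔ p ∈ D true l ∧ (l ∉ U₁ true ∨
      ((ye ≤ p ∧ p ≤ topc L₂ yd) ∧ l ≤ Xx ∧ p ≤ topc L₂ yd)) := by
    intro l p
    rw [hD']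
    exact Iff.rfl
  -- the line of y
  have lY : ∀ p, A < p → p < xc → ∀ v, p ∈ Γb v false (topc L₂ yd) ↔ v = topv L₂ d := by
    intro p h1 h2 v
    rw [← (hline p h1 h2).2 v]
    exact BlkF_pt stb.grow (fun hp => hYYj.ne' hp.2.1) v
  have lY1 : ∀ p, A < p → p ≤ Xx → ∀ v, p ∈ Γ₁ v false (topc L₂ yd) ↔ v = topv L₂ d := by
    intro p h1 h2 v
    rw [← lY p h1 (by linarith) v]
    refine BlkF_pt g1 (fun hp => ?_) v
    rcases r1 hYjU hp with ⟨-, h3, -⟩ | ⟨h3, -⟩ | ⟨-, h3, -⟩ | ⟨-, -, h3, -⟩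
    · linarith
    · exact ft h3
    · linarith
    · linarith
  have lY2 : Solo Γ₁ {x, topv L₂ d} false (topc L₂ yd) Xx xh := by
    intro p h1 h2 v
    constructor
    · intro hp
      rcases cYj p v hp with h3 | h3
      · exact Or.inl h3
      · exact Or.inr ((lY p (by linarith) (by linarith) v).1 h3)
    · rintro (h3 | h3)
      · rw [h3]
        exact xm.2 (Or.inl ⟨rfl, rfl, h1, h2⟩)
      · exact g1.mono _ _ _ _ ((lY p (by linarith) (by linarith) v).2 h3)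
  have lΛ : ∀ p, I0 < p → p ≤ l1.R → ∀ v, p ∈ Γb v false l1.Λ ↔ v = l1.ow := by
    intro p h1 h2 v
    rw [← (hB.p1.free p h1 h2).2 v]
    exact BlkF_pt gb (fun hp => by
      rcases (mR₀.1 hp).2 with ⟨h3, -⟩ | ⟨h3, -⟩
      · linarith
      · linarith) v
  have rowe : ∀ p, A < p → ∀ v, p ∈ Γ₁ v false ye → (v = e ∧ p < Xe) ∨
      (v = x ∧ Xx < p ∧ p < A') ∨ p < xI := by
    intro p h1 v hp
    rcases cye p v hp with ⟨h2, -, h3⟩ | h2 | ⟨-, h2⟩
    · exact Or.inl ⟨h2, h3⟩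
    · exact Or.inr (Or.inl h2)
    · exact Or.inr (Or.inr h2)
  refine ⟨Γ₁, U₁, ⟨l1.ow, l1.Λ, Xe, Xe, e₁, l1.R, I0, u, l1.Λ, l1.s1, l1.nr⟩,
    ⟨x, ye, gx, A' - 1, topc L₂ yd, true⟩, Xe, ye, Xx, xh, xI, Bp, A', B', h', rfl, rfl, rfl, rfl, ?_,
    fa, fb, ?_, ?_, ?_, ?_, ?_, x5, by linarith, lY2, ?_, ?_, ?_⟩
  · -- the step
    refine (sb.weaken le_rfl ?_).trans (st1.weaken le_rfl ?_)
    · rintro v (h1 | h1)
      · exact Or.inr (Or.inr (Or.inr (Or.inr (Or.inl h1))))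
      · exact Or.inr (Or.inr (Or.inr (Or.inr (Or.inr h1))))
    · rintro v (h1 | h1 | h1 | h1)
      · exact Or.inl h1
      · exact Or.inr (Or.inl h1)
      · exact Or.inr (Or.inr (Or.inl h1))
      · exact Or.inr (Or.inr (Or.inr (Or.inl h1)))
  · obtain ⟨p, h1, h2⟩ := exists_between x15
    exact ⟨false, l1.Λ, p, cm.2 (Or.inl ⟨rfl, rfl, h1, h2⟩),
      g1.mono _ _ _ _ ((lΛ p (by linarith) (by linarith) _).2 rfl)⟩
  · obtain ⟨p, h1, h2⟩ := exists_between y7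
    refine ⟨true, Xq, p, cm.2 (Or.inr (Or.inr (Or.inr ⟨rfl, rfl, h1, by linarith⟩))),
      g1.mono _ _ _ _ (gb.mono _ _ _ _ (((hM.zcol p (by linarith) ?_).2 q).2 rfl))⟩
    show p < r₁.c
    linarith
  · obtain ⟨p, h1, h2⟩ := exists_between y9
    exact ⟨true, Xq, p, cm.2 (Or.inr (Or.inr (Or.inr ⟨rfl, rfl, by linarith, h2⟩))),
      g1.mono _ _ _ _ (gb.mono _ _ _ _ ((hq p h1 (by linarith) r₁.v).2 (Or.inl rfl)))⟩
  · obtain ⟨p, h1, h2⟩ := exists_between (x4.trans x9)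
    exact ⟨false, ye, p, xm.2 (Or.inr (Or.inr ⟨rfl, rfl, h1, by linarith⟩)),
      cm.2 (Or.inr (Or.inr (Or.inl ⟨rfl, rfl, by linarith, h2⟩)))⟩
  · obtain ⟨p, h1, h2⟩ := exists_between x5
    exact ⟨false, topc L₂ yd, p, (lY2 p h1 h2 x).2 (Or.inl rfl), (lY2 p h1 h2 (topv L₂ d)).2 (Or.inr rfl)⟩
  · -- admissible
    exact le_inf (hD.mono fun o l hl => uU hl) le_sup_left
  · -- the sub-state
    have nst : NSt PI Γ₁ U₁ D' xI Bp [] x Xx Xx (r₁ :: L₁) (topv L₂ d) (topc L₂ yd)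
        (topc L₂ yd) := by
      refine ⟨x3, ⟨y8, hgc, hLo₁⟩, le_rfl, le_rfl, fun r hr => absurd hr List.not_mem_nil, ?_,
        ?_, ?_⟩
      · -- records
        have hm : ∀ r ∈ r₁ :: L₁, r₁.c ≤ r.c ∧ r.c < topc L₂ yd := by
          intro r hr
          rcases List.mem_cons.1 hr with h1 | h1
          · rw [h1]
            exact ⟨le_rfl, hYYj⟩
          · have h2 := hLo₁.mem h1
            exact ⟨by linarith, h2.2.2⟩
        have key : ∀ r ∈ r₁ :: L₁, ∀ s ≤ xI, Pend PI Γ₁ U₁ D false s Xw r →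
            ∃ s ≤ xI, Pend PI Γ₁ U₁ D' false s Xx r := by
          intro r hr s hs hp
          obtain ⟨a1, a2⟩ := hm r hr
          refine ⟨s, hs, (hp.mono_hi (by linarith)).mono_D ?_ ?_⟩
          · intro p _ h2 h3
            exact mDf.2 ⟨h3, Or.inr ⟨⟨by linarith, a2.le⟩, h2.le, a2.le⟩⟩
          · intro p h1 h2 _
            exact absurd (hp.plain (hpl₁ r hr)).2.1 (not_lt.2 (h1.trans h2))
        intro r hr
        rcases List.mem_cons.1 hr with h1 | h1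
        · rw [h1]
          refine key r₁ List.mem_cons_self xI le_rfl ?_
          refine GeoT_pl p₁b (hpl₁ r₁ List.mem_cons_self) g1 st1.sub ?_ ?_
          · have h2 := rvm _ mem₁
            rintro (h3 | h3 | h3 | h3)
            · exact h2.1 h3
            · exact h2.2.1 h3
            · exact h2.2.2.1 h3
            · exact h2.2.2.2 h3
          · intro p h2 _ hp
            rcases r1 p₁.hc hp with ⟨-, h3, -⟩ | ⟨h3, -⟩ | ⟨-, -, -, h3⟩ | ⟨-, h3, -⟩
            · linarith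
            · exact ft h3
            · linarith
            · linarith
        · obtain ⟨s, hs, hp⟩ := hM.n.black r
            (List.mem_cons_of_mem _ (List.mem_append_left _ h1))
          have hrv : r.v ∈ rv L₁ := List.mem_map_of_mem h1
          have a1 := hLo₁.mem h1
          refine key r hr s (by linarith) ?_
          have hpb : Pend PI Γb U D false s Xw r := by
            refine GeoT_pl hp (hpl₁ r hr) gb (fun _ => subset_rfl) ?_ ?_
            · rintro (h3 | h3)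
              · apply n8
                rw [← h3]
                exact List.mem_append_left _ hrv
              · exact n9 _ hrv _ h3 rfl
            · intro p _ _
              exact bF _ p (by linarith) (by linarith)
          refine GeoT_pl hpb (hpl₁ r hr) g1 st1.sub ?_ ?_
          · have h2 := rvm _ (memL₁ _ hrv)
            rintro (h3 | h3 | h3 | h3)
            · exact h2.1 h3
            · exact h2.2.1 h3
            · exact h2.2.2.1 h3
            · exact h2.2.2.2 h3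
          · intro p _ _ hq
            rcases r1 hp.hc hq with ⟨-, h3, -⟩ | ⟨h3, -⟩ | ⟨-, h3, -⟩ | ⟨-, h3, -⟩
            · linarith
            · exact ft h3
            · linarith
            · linarith
      · intro p h1 h2
        refine ⟨mDt.2 ⟨hD _ _ hXx, Or.inr ⟨⟨by linarith, h2.le⟩, le_rfl, h2.le⟩⟩, fun v =>
          ⟨fun hp => cXx p v hp, fun hv => ?_⟩⟩
        rw [Set.mem_singleton_iff.1 hv]
        exact xm.2 (Or.inr (Or.inl ⟨rfl, rfl, by linarith, h2⟩))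
      · intro p h1 h2
        exact ⟨mDf.2 ⟨(hline p (by linarith) (by linarith)).1,
          Or.inr ⟨⟨by linarith, le_rfl⟩, h2.le, le_rfl⟩⟩, lY1 p (by linarith) h2.le⟩
    rw [← hD']
    refine ⟨NSt.sw.2 nst, y7, le_rfl, ?_, ?_⟩
    · refine SW.sw.2 ?_
      intro p h1 h2
      have h2' : p < Xx := h2
      refine ⟨mDf.2 ⟨hD _ _ hye, Or.inr ⟨⟨le_rfl, by linarith⟩, h2'.le, by linarith⟩⟩,
        fun v => ⟨fun hp => ?_, fun hv => ?_⟩⟩
      · rcases rowe p (by linarith) v hp with h3 | h3 | h3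
        · exact h3.1
        · linarith [h3.2.1]
        · linarith
      · rw [Set.mem_singleton_iff.1 hv]
        exact cm.2 (Or.inr (Or.inr (Or.inl ⟨rfl, rfl, by linarith, by linarith⟩)))
    · refine SW.sw.2 ?_
      intro p h1 h2
      refine ⟨mDt.2 ⟨hD _ _ hXx, Or.inr ⟨⟨h1.le, by linarith⟩, le_rfl, by linarith⟩⟩, fun v =>
        ⟨fun hp => cXx p v hp, fun hv => ?_⟩⟩
      have hv' : v = x := hv
      rw [hv']
      exact xm.2 (Or.inr (Or.inl ⟨rfl, rfl, h1, by linarith⟩))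
  · intro Γ₂ U₂ K₂ st2 hL2 hx2 he2 hd2
    rw [← hD'] at st2
    have g2 := st2.grow
    have u2 : ∀ {o : Bool} {l : ℚ}, l ∈ U₁ o → l ∈ U₂ o := fun {o l} hl => st2.sub o hl
    have r2t : ∀ l p, l ∈ U₁ true → Xx < l → p ∉ D' true l := by
      intro l p hl h1 hp
      rcases (mDt.1 hp).2 with h2 | h2
      · exact h2 hl
      · linarith [h2.2.1]
    have r2f : ∀ l p, l ∈ U₁ false → (Xx < p ∨ topc L₂ yd < l ∨ l < ye) → p ∉ D' false l := by
      intro l p hl h1 hp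
      rcases (mDf.1 hp).2 with h2 | h2
      · exact h2 hl
      · rcases h1 with h1 | h1 | h1
        · linarith [h2.2.1]
        · linarith [h2.2.2]
        · linarith [h2.1.1]
    obtain ⟨T, hT⟩ : ∃ T : Cov, T = fun o l => {p | p ∈ R₀ o l ∨
      p ∈ BlkH_R U l1.Λ Xe e₁ hR I1 Xq r₁.c A xI (topc L₂ yd) Xx xh o l ∨ p ∈ D' o l} := ⟨_, rfl⟩
    have mT : ∀ {o : Bool} {l p : ℚ}, p ∈ T o l ↔ p ∈ R₀ o l ∨
        p ∈ BlkH_R U l1.Λ Xe e₁ hR I1 Xq r₁.c A xI (topc L₂ yd) Xx xh o l ∨ p ∈ D' o l := by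
      intro o l p
      rw [hT]
      exact Iff.rfl
    have gt : Grow Γ Γ₂ T {v | v = r₁.v ∨ v ∈ rv L₂ ∨ v = e ∨ v = x ∨ v ∈ Ja ∨ v ∈ Jb ∨
        v ∈ K₂} := by
      refine (gb.weaken ?_ ?_).trans ((g1.weaken ?_ ?_).trans (g2.weaken ?_ ?_))
      · exact fun o l p hp => mT.2 (Or.inl hp)
      · rintro v (h1 | h1)
        · exact Or.inl h1
        · exact Or.inr (Or.inl h1)
      · exact fun o l p hp => mT.2 (Or.inr (Or.inl hp))
      · exact fun v hv => by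
          rcases hv with h1 | h1 | h1 | h1
          · exact Or.inr (Or.inr (Or.inl h1))
          · exact Or.inr (Or.inr (Or.inr (Or.inl h1)))
          · exact Or.inr (Or.inr (Or.inr (Or.inr (Or.inl h1))))
          · exact Or.inr (Or.inr (Or.inr (Or.inr (Or.inr (Or.inl h1)))))
      · exact fun o l p hp => mT.2 (Or.inr (Or.inr hp))
      · exact fun v hv => Or.inr (Or.inr (Or.inr (Or.inr (Or.inr (Or.inr hv)))))
    have tT : ∀ l p, l ∈ U true → Xx < l → p ∉ T true l := by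
      intro l p hl h1 hp
      rcases mT.1 hp with h2 | h2 | h2
      · exact bT _ _ h2
      · rcases r1 hl h2 with ⟨h3, -⟩ | ⟨-, h3⟩ | ⟨h3, -⟩ | ⟨h3, -⟩
        · exact tf h3
        · linarith
        · exact tf h3
        · exact tf h3
      · exact r2t l p (uU hl) h1 h2
    have tF : ∀ l p, l ∈ U false → (l ≠ l1.Λ ∨ p ≤ Xe ∨ (e₁ ≤ p ∧ p ≤ hR)) →
        (l < ye ∨ topc L₂ yd < l ∨ xc ≤ p) → p ∉ T false l := by
      intro l p hl h1 h1' hp
      rcases mT.1 hp with h2 | h2 | h2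
      · rcases (mR₀.1 h2).2 with ⟨h3, h4⟩ | ⟨h3, -, h4⟩
        · rcases h1' with h5 | h5 | h5
          · linarith
          · linarith
          · linarith
        · rcases h1' with h5 | h5 | h5
          · linarith
          · linarith
          · linarith
      · rcases r1 hl h2 with ⟨-, h3, h4⟩ | ⟨h3, -⟩ | ⟨-, h3, -, h4⟩ | ⟨-, h3, -, h4⟩
        · rcases h1 with h1 | h1 | h1
          · exact h1 h3
          · rcases h4 with h4 | h4
            · linarith [h4.1]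
            · linarith [h4.1]
          · rcases h4 with h4 | h4
            · linarith [h4.2, h1.1]
            · linarith [h4.1, h1.2]
        · exact ft h3
        · rcases h1' with h5 | h5 | h5
          · linarith
          · linarith
          · linarith
        · rcases h1' with h5 | h5 | h5
          · linarith
          · linarith
          · linarith
      · refine r2f l p (uU hl) ?_ h2
        rcases h1' with h5 | h5 | h5
        · exact Or.inr (Or.inr h5)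
        · exact Or.inr (Or.inl h5)
        · exact Or.inl (by linarith)
    have hΓ2e : Γ₂ e = Γ₁ e := g2.eq he2
    have hΓ2x : Γ₂ x = Γ₁ x := g2.eq hx2
    have hKd : d ∉ ({v | v = r₁.v ∨ v ∈ rv L₂ ∨ v = e ∨ v = x ∨ v ∈ Ja ∨ v ∈ Jb ∨
        v ∈ K₂} : Set V) := by
      rintro (h1 | h1 | h1 | h1 | h1 | h1 | h1)
      · exact dm.2.2.2.2 (h1 ▸ mem₁)
      · exact dm.2.2.2.2 (memL₂ _ h1)
      · exact dm.1 h1
      · exact dm.2.1 h1
      · exact dm.2.2.1 h1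
      · exact dm.2.2.2.1 h1
      · exact hd2 h1
    have uR1 : l1.R ∈ U true := hB.p1.col.mem (Set.mem_singleton w) hw.lines hΛs
    have uR2 : l2.R ∈ U true := hB.line2.col.mem (Set.mem_singleton w) hw.lines
      (lt_of_le_of_lt hB.line2.ok.h6 hB.line2.ok.h7)
    have hXR2 := hB.line2.XR
    have hsB2 := hB.line2.sB
    have wlc2 := hB.lc2
    refine ⟨?_, ?_, ?_⟩
    · refine
        { o1 := x11
          o2 := x13.le
          o3 := x14
          o4 := hdX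
          o5 := hyT
          ordL := ⟨y3, y5, hL₂o.mono (by linarith) le_rfl⟩
          zcol := ?_
          top := ?_
          black := ?_
          pl := ?_
          bbase := ?_
          YD := hB.YD
          row := ?_
          dcol := ?_
          wcol := ?_
          line1 := ?_
          line2 := ?_
          e1 := x16
          lc2 := hB.lc2
          ne := hB.ne
          ztop := fun h1 => absurd h1 Bool.false_ne_true }
      · -- zcol
        intro p h1 h2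
        have h1' : B' < p := h1
        have h2' : p < ye := h2
        refine ⟨hD _ _ hXe, fun v => ⟨fun hp => ?_, fun hv => ?_⟩⟩
        · rcases g2.new _ _ _ _ hp with h3 | ⟨-, h3⟩
          · rcases cXe p v h3 with h4 | h4
            · exact h4
            · linarith [h4.2]
          · exact absurd h3 (r2t _ _ uXe (by linarith))
        · have hv' : v = e := hv
          rw [hv', hΓ2e]
          exact cm.2 (Or.inr (Or.inl ⟨rfl, rfl, by linarith, h2'⟩))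
      · -- top
        intro p h1 h2
        have h1' : Xe < p := h1
        have h2' : p < h' := h2
        refine ⟨hD _ _ hye, fun v => ⟨fun hp => ?_, fun hv => ?_⟩⟩
        · rcases g2.new _ _ _ _ hp with h3 | ⟨-, h3⟩
          · rcases rowe p (by linarith) v h3 with h4 | h4 | h4
            · linarith [h4.2]
            · exact h4.1
            · linarith
          · exact absurd h3 (r2f _ _ uye (Or.inl (by linarith)))
        · have hv' : v = x := hv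
          rw [hv', hΓ2x]
          exact xm.2 (Or.inr (Or.inr ⟨rfl, rfl, by linarith, by linarith⟩))
      · -- black
        intro r hr
        rcases List.mem_cons.1 hr with h1 | h1
        · subst h1
          have hpay : ∀ g', g' ≠ ye → ∀ E' : ℚ → Cov,
              Pay (PI x) (Γ₂ x) false ye g' A' Xw E' := by
            intro g' hg' E' Y q1 _
            obtain ⟨C', c1, c2, c3, c4, c5⟩ := GeoT_path (Y₁ := ye) x5
              (by linarith : xh < A') (by linarith : ye < topc L₂ yd) q1 hg'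
            rw [hΓ2x, hΓx]
            exact ⟨C', c1, c2, c3, c4, c5.trans le_sup_left⟩
          refine ⟨A', le_rfl, u2 uye, u2 ugx, y5, ?_, ?_, hpay gx y5.ne _, ?_, ?_⟩
          · intro p q1 q2
            refine ⟨hD _ _ hye, fun v hp => ?_⟩
            rcases g2.new _ _ _ _ hp with h3 | ⟨-, h3⟩
            · rcases rowe p (by linarith) v h3 with h4 | h4 | h4
              · linarith [h4.2]
              · exact h4.1
              · linarith
            · exact absurd h3 (r2f _ _ uye (Or.inl (by linarith)))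
          · intro p q1 q2
            have q3 : p ≤ A' - 1 := q2
            exfalso
            linarith
          · intro _
            refine ⟨?_, ?_, fun g' hg' => hpay g' hg' _⟩
            · show ye < topc L₂ yd
              linarith
            · show A' - 1 < A'
              linarith
          · intro p q1 q2 q3
            have q4 : p ∈ Γ₁ x false ye := by
              rw [← hΓ2x]
              exact q3
            rcases xm.1 q4 with ⟨-, h4, -⟩ | ⟨h4, -⟩ | ⟨-, -, -, h4⟩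
            · linarith
            · exact ft h4
            · linarith
        · have hrv : r.v ∈ rv L₂ := List.mem_map_of_mem h1
          obtain ⟨s, hs, hp, hor⟩ := hblk r h1
          have hcY : topc L₂ yd ≤ r.c := by
            rcases hor with h0 | h0
            · exact h0.le
            · exact h0.1.ge
          have hpb : Pend PI Γb U D false s Xw r := by
            refine GeoT_pl hp (hpl₂ r h1) stb.grow (fun _ => subset_rfl) ?_ ?_
            · intro h3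
              apply n8
              rw [← Set.mem_singleton_iff.1 h3]
              exact List.mem_append_right _ hrv
            · rintro p _ _ ⟨-, h3, -⟩
              linarith
          have hp1 : Pend PI Γ₁ U₁ D false s Xw r := by
            refine GeoT_pl hpb (hpl₂ r h1) g1 st1.sub ?_ ?_
            · have h2 := rvm _ (memL₂ _ hrv)
              rintro (h3 | h3 | h3 | h3)
              · exact h2.1 h3
              · exact h2.2.1 h3
              · exact h2.2.2.1 h3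
              · exact h2.2.2.2 h3
            · intro p q1 _ hq
              rcases r1 hp.hc hq with ⟨-, h3, -⟩ | ⟨h3, -⟩ | ⟨-, h3, -⟩ | ⟨-, h3, -, h4⟩
              · linarith
              · exact ft h3
              · linarith
              · rcases hor with h0 | h0
                · linarith
                · linarith [h0.2]
          refine ⟨s, by show s ≤ A'; linarith, GeoT_pl hp1 (hpl₂ r h1) g2 st2.sub (hL2 _ hrv) ?_⟩
          intro p q1 _
          refine r2f _ _ (uU hp.hc) ?_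
          rcases hor with h0 | h0
          · exact Or.inr (Or.inl h0)
          · exact Or.inl (by linarith [h0.2])
      · -- pl
        intro r hr
        rcases List.mem_cons.1 hr with h1 | h1
        · rw [h1]
        · exact hpl₂ r h1
      · -- bbase
        intro p h1 h2
        have h1' : A' < p := h1
        have h2' : p < Xd := h2
        have h3 := hB.drow p (by linarith) h2'
        refine ⟨h3.1, fun v => ?_⟩
        rw [BlkF_pt gt (tF yd p hB.uy (Or.inl (by linarith)) (Or.inr (Or.inr (by linarith)))) v]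
        exact h3.2 v
      · -- row
        intro p h1 h2 v hp
        have h1' : Xd ≤ p := h1
        rw [BlkF_pt gt (tF yd p hB.uy (Or.inl (by linarith))
          (Or.inr (Or.inr (by linarith)))) v] at hp
        exact hB.row p h1 h2 v hp
      · exact (hB.dcol.sub y1.le le_rfl).grow gt fun p _ _ => tT _ p hB.ud' (by linarith)
      · exact (hB.wcol.sub y1.le le_rfl).grow gt fun p _ _ => tT _ p hB.uw (by linarith)
      · -- line1
        have fr : ∀ p, I0 < p → p ≤ l1.R → (p ≤ Xe ∨ e₁ ≤ p) → p ∈ D false l1.Λ ∧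
            ∀ v, p ∈ Γ₂ v false l1.Λ ↔ v = l1.ow := by
          intro p h1 h2 h3
          have h4 := hB.p1.free p h1 h2
          refine ⟨h4.1, fun v => ?_⟩
          rw [BlkF_pt gt (tF l1.Λ p hB.u1 (Or.inr (by
            rcases h3 with h3 | h3
            · exact Or.inl h3
            · exact Or.inr ⟨h3, by linarith⟩)) (Or.inl (by linarith))) v]
          exact h4.2 v
        refine ⟨⟨hIu, x9.le, le_rfl, x15, ?_, le_rfl, hΛs, ?_, ?_, ?_, ?_⟩, ?_, hXR, ?_, hnr, ?_, ?_,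
          ?_⟩
        · show e₁ < l1.R
          linarith
        · -- zone
          intro p h1 h2
          have h1' : Xe < p := h1
          have h2' : p < e₁ := h2
          refine ⟨(hB.p1.free p (by linarith) (by linarith)).1, fun v => ⟨fun hp => ?_, ?_⟩⟩
          · rcases g2.new _ _ _ _ hp with h3 | ⟨-, h3⟩
            · rcases cΛ p v h3 with h4 | h4 | h4
              · exact Or.inr h4
              · linarith [h4.1]
              · exact Or.inl ((lΛ p (by linarith) (by linarith) v).1 h4)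
            · exact absurd h3 (r2f _ _ (uU hB.u1) (Or.inl (by linarith)))
          · rintro (h3 | h3)
            · have h3' : v = l1.ow := h3
              exact g2.mono _ _ _ _ (g1.mono _ _ _ _
                ((lΛ p (by linarith) (by linarith) v).2 h3'))
            · have h3' : v = e := h3
              rw [h3', hΓ2e]
              exact cm.2 (Or.inl ⟨rfl, rfl, h1', h2'⟩)
        · intro p h1 h2
          have h1' : e₁ ≤ p := h1
          exact fr p (by linarith) h2 (Or.inr h1')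
        · intro p h1 h2
          have h1' : I0 < p := h1
          have h2' : p < u := h2
          exact fr p h1' (by linarith) (Or.inl (by linarith))
        · -- strip
          intro p h1 h2
          have h1' : l1.Λ < p := h1
          have h2' : p < l1.s1 := h2
          refine ⟨hD _ _ hXe, fun v => ⟨fun hp => ?_, fun hv => ?_⟩⟩
          · rcases g2.new _ _ _ _ hp with h3 | ⟨-, h3⟩
            · rcases cXe p v h3 with h4 | h4
              · exact h4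
              · linarith [h4.1]
            · exact absurd h3 (r2t _ _ uXe (by linarith))
          · have hv' : v = e := hv
            rw [hv', hΓ2e]
            exact cm.2 (Or.inr (Or.inl ⟨rfl, rfl, h1', by linarith⟩))
        · show e₁ < Xw
          linarith
        · show l1.s1 ≤ B'
          linarith
        · exact hB.p1.row.grow gt fun p h1 h2 => tF _ p hB.u1
            (Or.inr (Or.inr ⟨by linarith, by linarith⟩)) (Or.inl (by linarith))
        · exact hB.p1.col.grow gt fun p _ _ => tT _ p uR1 (by linarith)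
        · -- extension
          intro e' he'
          have he'' : e₁ ≤ e' := he'
          show IsPath3 (Γ₂ e ⊔ hseg false l1.Λ e₁ e')
          rw [hΓ2e]
          refine ⟨false, [e', l1.Λ, Xe, ye, Xq, ye₃], by simp, by simp, ?_, ?_, ?_⟩
          · refine ⟨?_, ?_, ?_, ?_, trivial⟩
            · exact (by linarith : Xe < e').ne'
            · exact (by linarith : l1.Λ < ye).ne
            · exact (by linarith : Xq < Xe).ne'
            · exact (by linarith : ye < ye₃).ne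
          · rintro ⟨h1, -⟩
            rw [min_eq_right (by linarith : Xe ≤ e')] at h1
            linarith
          · intro o l p
            have e1 : p ∈ (Γ₁ e ⊔ hseg false l1.Λ e₁ e' : Cov) o l ↔ p ∈ Γ₁ e o l ∨
              (o = false ∧ l = l1.Λ ∧ e₁ ≤ p ∧ p < e') := Iff.rfl
            have e2 : p ∈ zig false [e', l1.Λ, Xe, ye, Xq, ye₃] o l ↔
                (o = false ∧ l = l1.Λ ∧ Xe < p ∧ p < e') ∨
                (o = true ∧ l = Xe ∧ l1.Λ < p ∧ p < ye) ∨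
                (o = false ∧ l = ye ∧ Xq < p ∧ p < Xe) ∨
                (o = true ∧ l = Xq ∧ ye < p ∧ p < ye₃) :=
              BlkH_C_mem (by linarith) (by linarith) (by linarith) (by linarith)
            rw [e1, e2, cm]
            constructor
            · rintro ((⟨h1, h2, h3, h4⟩ | h1) | ⟨h1, h2, h3, h4⟩)
              · exact Or.inl ⟨h1, h2, h3, by linarith⟩
              · exact Or.inr h1
              · exact Or.inl ⟨h1, h2, by linarith, h4⟩
            · rintro (⟨h1, h2, h3, h4⟩ | h1)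
              · rcases lt_or_ge p e₁ with h5 | h5
                · exact Or.inl (Or.inl ⟨h1, h2, h3, h5⟩)
                · exact Or.inr ⟨h1, h2, h5, h4⟩
              · exact Or.inl (Or.inr h1)
      · -- line2
        refine BlkF_LG hB.line2 gt hKd y1.le (fun p => ?_) (fun p _ => ?_) (fun p _ => ?_)
        · exact tF _ p hB.u2 (Or.inl hB.ne.symm) (Or.inl (by linarith))
        · exact tT _ p uR2 (by linarith)
        · rw [hB.lc2]
          exact tT _ p hB.ud' (by linarith)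
    · exact lY2.grow g2 fun p h1 _ => r2f _ _ (uU hYjU) (Or.inl h1)
    · intro hne v p
      have hlt : topc L₂ yd < yd := by
        cases L₂ with
        | nil => exact absurd rfl hne
        | cons r L' => exact hL₂o.2.2.lt
      exact BlkF_pt gt (tF yd p hB.uy (Or.inl (by linarith)) (Or.inr (Or.inl hlt))) v

end EPG26
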