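import Pool.Agent.W_26e041_h61.StageA
import Pool.Agent.W_26e041_h61.RegA

/-!
Stage reduction: `z` is adjacent to a vertex of `be`.
-/

namespace EPG26

variable {V : Type*} [DecidableEq V]

theorem StageC1_chain {ow : V} {Fs : Finset (Finset V)} {l : List V}
    (h : List.IsChain (fun p q => ({ow, p, q} : Finset V) ∈ Fs) l) : ∀ f ∈ fanF ow l, f ∈ Fs := by
  intro f hf
  obtain ⟨p, a, b, s, rfl, rfl⟩ := mem_fanF.1 hf
  exact List.isChain_iff_forall_rel_of_append_cons_cons.1 h rfl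

theorem StageC1_fan_vert {ow : V} {l : List V} {f : Finset V} (hf : f ∈ fanF ow l) {v : V}
    (hv : v ∈ f) : v = ow ∨ v ∈ l := by
  obtain ⟨p, a, b, s, rfl, rfl⟩ := mem_fanF.1 hf
  simp only [Finset.mem_insert, Finset.mem_singleton] at hv
  rcases hv with h | h | h
  · exact Or.inl h
  · right; rw [h]; simp
  · right; rw [h]; simp

theorem StageC1_fan_split (ow a b : V) (i r : List V) :
    fanF ow (i ++ a :: b :: r) = fanF ow (i ++ [a]) ∪ insert {ow, a, b} (fanF ow (b :: r)) := by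
  induction i with
  | nil =>
    show insert {ow, a, b} (fanF ow (b :: r)) = ∅ ∪ insert {ow, a, b} (fanF ow (b :: r))
    rw [Finset.empty_union]
  | cons x i ih =>
    cases i with
    | nil =>
      show insert {ow, x, a} (fanF ow (a :: b :: r)) = insert {ow, x, a} (fanF ow [a]) ∪ _
      rw [show fanF ow (a :: b :: r) = fanF ow [a] ∪ insert {ow, a, b} (fanF ow (b :: r)) from ih,
        Finset.insert_union]
    | cons y i =>
      show insert {ow, x, y} (fanF ow (y :: i ++ a :: b :: r)) =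
        insert {ow, x, y} (fanF ow (y :: i ++ [a])) ∪ _
      rw [ih, Finset.insert_union]

theorem StageC1_nJ {G : SimpleGraph V} {T : Finset V} {Fs : Finset (Finset V)}
    {J : Finset V → Finset V} (hc : Ctx G T Fs J) {v : V} {f g : Finset V} (hg : g ∈ Fs)
    (hv : v ∈ g) (hf : f ∈ Fs) : v ∉ J f := fun h =>
  Finset.disjoint_left.1 (hc.sep f hf g hg) h hv

theorem StageC1_inF {T : Finset V} {Fs : Finset (Finset V)} {l : List V}
    {F : Finset (Finset V)} (h : Reg T Fs l F) (hl : 3 ≤ l.length) {v : V} (hv : v ∈ verts l F) :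
    ∃ g ∈ F, v ∈ g := by
  have key : v ∈ F.biUnion id := by
    rcases Finset.mem_union.1 hv with h1 | h1
    · exact h.disc.mem_biUnion hl (List.mem_toFinset.1 h1)
    · exact h1
  obtain ⟨g, hg, hvg⟩ := Finset.mem_biUnion.1 key
  exact ⟨g, hg, hvg⟩

/-- the combinatorial data of the reduction: `Fn` the faces of the new stage, `Fm` the faces of the
machine -/
structure StageC1_Cb (G : SimpleGraph V) (T : Finset V) (Fs : Finset (Finset V))
    (J : Finset V → Finset V) (s : SD V) (F : Finset (Finset V)) (bt be2 : List V) (u : V)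
    (i : List V) (lv : V) (Fn Fm : Finset (Finset V)) : Prop where
  hF : F = Fn ∪ Fm
  dj : Disjoint Fn Fm
  card : Fn.card < F.card
  regn : Reg T Fs (u :: be2 ++ [s.w] ++ s.al.reverse ++ [s.z]) Fn
  regm : Reg T Fs (rv s.L ++ [s.d] ++ bt ++ [u] ++ [s.z]) Fm
  cut : ∀ v, v ∈ verts (u :: be2 ++ [s.w] ++ s.al.reverse ++ [s.z]) Fn →
    v ∈ verts (rv s.L ++ [s.d] ++ bt ++ [u] ++ [s.z]) Fm → v = u ∨ v = s.z
  il : s.d :: bt = i ++ [lv]
  fan : fanF s.l2.ow (s.d :: s.be ++ [s.w]) = fanF s.l2.ow (s.d :: bt) ∪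
    insert {s.l2.ow, lv, u} (fanF s.l2.ow (u :: be2 ++ [s.w]))

theorem StageC1_comb {G : SimpleGraph V} {T : Finset V} {Fs : Finset (Finset V)}
    {J : Finset V → Finset V} {Ex : V → V → Prop} {Γ : Dr V} {s : SD V} {F : Finset (Finset V)}
    (hS : SC G T Fs J Ex Γ s F) {bt be2 : List V} {u : V} (hb : s.be = bt ++ u :: be2)
    (h2 : AdjF F s.z u) :
    ∃ i lv Fn Fm, StageC1_Cb G T Fs J s F bt be2 u i lv Fn Fm := by
  have hreg := hS.reg
  have e1 : s.bd = (rv s.L ++ [s.d] ++ bt) ++ u :: ((be2 ++ [s.w] ++ s.al.reverse) ++ s.z :: []) := by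
    unfold SD.bd
    rw [hb]
    simp
  rw [e1] at hreg
  obtain ⟨Fn, Fm, hF, hdj, hn, hm, hrn, hrm, hcut⟩ := Reg.chord hreg (by simp) (Or.inl (by simp))
    (DiscC_symm h2)
  obtain ⟨i, lv, hil⟩ : ∃ i lv, s.d :: bt = i ++ [lv] := by
    rcases List.eq_nil_or_concat' (s.d :: bt) with h | ⟨i, lv, h⟩
    · exact absurd h (by simp)
    · exact ⟨i, lv, h⟩
  have e2 : u :: ((be2 ++ [s.w] ++ s.al.reverse) ++ [s.z]) =
      u :: be2 ++ [s.w] ++ s.al.reverse ++ [s.z] := by simp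
  have e3 : (rv s.L ++ [s.d] ++ bt) ++ u :: s.z :: [] = rv s.L ++ [s.d] ++ bt ++ [u] ++ [s.z] := by
    simp
  rw [e2] at hrn hcut
  rw [e3] at hrm hcut
  refine ⟨i, lv, Fn, Fm, hF, hdj, ?_, hrn, hrm, hcut, hil, ?_⟩
  · rw [hF, Finset.card_union_of_disjoint hdj]
    have : 0 < Fm.card := Finset.card_pos.2 (Finset.nonempty_iff_ne_empty.2 hm)
    omega
  · have e4 : s.d :: s.be ++ [s.w] = i ++ lv :: u :: (be2 ++ [s.w]) := by
      rw [hb]
      have : s.d :: (bt ++ u :: be2) ++ [s.w] = (s.d :: bt) ++ u :: (be2 ++ [s.w]) := by simp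
      rw [this, hil]
      simp
    rw [e4, StageC1_fan_split, hil]
    rfl

/-- the new stage -/
def StageC1_s' (s : SD V) (be2 : List V) (u : V) (T₁ yu yu2 Xu A' c e lo s0 : ℚ) : SD V :=
  { s with
    d := u
    h := A'
    A := A'
    B := T₁
    Y0 := yu
    Xd := Xu
    t0 := yu2
    zt := true
    L := []
    be := be2
    l2 := { s.l2 with lc := Xu, c0 := c, e := e, lo := lo, s0 := s0 } }


section cbl

variable {G : SimpleGraph V} {T : Finset V} {Fs : Finset (Finset V)} {J : Finset V → Finset V}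
  {Ex : V → V → Prop} {Γ : Dr V} {s : SD V} {F : Finset (Finset V)} {bt be2 : List V} {u : V}
  {i : List V} {lv : V} {Fn Fm : Finset (Finset V)}

theorem StageC1_N1 (hS : SC G T Fs J Ex Γ s F) (hb : s.be = bt ++ u :: be2) :
    ∀ v ∈ rv s.L ++ s.d :: bt, v ∉ u :: be2 ++ [s.w] ++ s.al.reverse ++ [s.z] := by
  have h := hS.nd
  have e : s.l1.ow :: s.l2.ow :: s.bd = [s.l1.ow, s.l2.ow] ++ ((rv s.L ++ s.d :: bt) ++
      (u :: be2 ++ [s.w] ++ s.al.reverse ++ [s.z])) := by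
    unfold SD.bd
    rw [hb]
    simp
  rw [e] at h
  intro v hv hv'
  exact (List.nodup_append.1 h.of_append_right).2.2 v hv v hv' rfl

theorem StageC1_N2 (hS : SC G T Fs J Ex Γ s F) : s.l2.ow ∉ s.bd ∧ s.l1.ow ∉ s.bd ∧
    s.l1.ow ≠ s.l2.ow := by
  have h := hS.nd
  rw [List.nodup_cons, List.nodup_cons] at h
  refine ⟨h.2.1, fun h1 => h.1 (List.mem_cons_of_mem _ h1), fun h1 => h.1 ?_⟩
  rw [h1]
  exact List.mem_cons_self

theorem StageC1_mem_bd (hb : s.be = bt ++ u :: be2) {v : V} : v ∈ s.bd ↔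
    v ∈ rv s.L ++ s.d :: bt ∨ v ∈ u :: be2 ++ [s.w] ++ s.al.reverse ++ [s.z] := by
  have e : s.bd = (rv s.L ++ s.d :: bt) ++ (u :: be2 ++ [s.w] ++ s.al.reverse ++ [s.z]) := by
    unfold SD.bd
    rw [hb]
    simp
  rw [e, List.mem_append]

theorem StageC1_mem_bm {v : V} : v ∈ rv s.L ++ [s.d] ++ bt ++ [u] ++ [s.z] ↔
    v ∈ rv s.L ++ s.d :: bt ∨ v = u ∨ v = s.z := by
  simp only [List.mem_append, List.mem_cons, List.not_mem_nil, or_false]
  tauto

theorem StageC1_new_sub (hS : SC G T Fs J Ex Γ s F) (hb : s.be = bt ++ u :: be2)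
    (hcb : StageC1_Cb G T Fs J s F bt be2 u i lv Fn Fm) {g : Finset V}
    (hg : g ∈ Fn ∪ (fanF s.l1.ow (s.z :: s.al ++ [s.w]) ∪ fanF s.l2.ow (u :: be2 ++ [s.w]))) :
    g ∈ Fs := by
  rcases Finset.mem_union.1 hg with h | h
  · exact hcb.regn.sub h
  rcases Finset.mem_union.1 h with h | h
  · exact StageC1_chain hS.ln1 g h
  · refine StageC1_chain hS.ln2 g ?_
    rw [hcb.fan]
    exact Finset.mem_union_right _ (Finset.mem_insert_of_mem h)

/-- the finished faces -/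
def StageC1_old (s : SD V) (bt : List V) (u lv : V) (Fm : Finset (Finset V)) (f : Finset V) :
    Prop := f ∈ Fm ∨ f ∈ fanF s.l2.ow (s.d :: bt) ∨ f = {s.l2.ow, lv, u}

theorem StageC1_old_sub (hS : SC G T Fs J Ex Γ s F)
    (hcb : StageC1_Cb G T Fs J s F bt be2 u i lv Fn Fm) {f : Finset V}
    (hf : StageC1_old s bt u lv Fm f) : f ∈ Fs := by
  rcases hf with h | h | h
  · exact hcb.regm.sub h
  · refine StageC1_chain hS.ln2 f ?_
    rw [hcb.fan]
    exact Finset.mem_union_left _ h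
  · refine StageC1_chain hS.ln2 f ?_
    rw [hcb.fan, h]
    exact Finset.mem_union_right _ (Finset.mem_insert_self _ _)

theorem StageC1_ne (hS : SC G T Fs J Ex Γ s F) (hb : s.be = bt ++ u :: be2)
    (hcb : StageC1_Cb G T Fs J s F bt be2 u i lv Fn Fm) {f g : Finset V}
    (hf : StageC1_old s bt u lv Fm f)
    (hg : g ∈ Fn ∪ (fanF s.l1.ow (s.z :: s.al ++ [s.w]) ∪ fanF s.l2.ow (u :: be2 ++ [s.w]))) :
    f ≠ g := by
  rintro rfl
  have hFn : ∀ f ∈ Fn, f ∈ F := fun f hf => by rw [hcb.hF]; exact Finset.mem_union_left _ hf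
  have hFm : ∀ f ∈ Fm, f ∈ F := fun f hf => by rw [hcb.hF]; exact Finset.mem_union_right _ hf
  have h2' : ∀ f ∈ fanF s.l2.ow (u :: be2 ++ [s.w]), f ∈ fanF s.l2.ow (s.d :: s.be ++ [s.w]) := by
    intro f hf
    rw [hcb.fan]
    exact Finset.mem_union_right _ (Finset.mem_insert_of_mem hf)
  have hlv : lv ∈ s.d :: bt := by rw [hcb.il]; simp
  rcases hf with h | h
  · rcases Finset.mem_union.1 hg with h1 | h1
    · exact Finset.disjoint_left.1 hcb.dj h1 h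
    rcases Finset.mem_union.1 h1 with h1 | h1
    · exact Finset.disjoint_left.1 hS.dj1 (hFm _ h) h1
    · exact Finset.disjoint_left.1 hS.dj2 (hFm _ h) (h2' _ h1)
  · have hfan : f ∈ fanF s.l2.ow (s.d :: s.be ++ [s.w]) := by
      rw [hcb.fan]
      rcases h with h | h
      · exact Finset.mem_union_left _ h
      · rw [h]
        exact Finset.mem_union_right _ (Finset.mem_insert_self _ _)
    have hx : ∃ x ∈ s.d :: bt, x ∈ f := by
      rcases h with h | h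
      · obtain ⟨p, a, b, r, h1, h2⟩ := mem_fanF.1 h
        refine ⟨a, by rw [h1]; simp, by rw [h2]; simp⟩
      · exact ⟨lv, hlv, by rw [h]; simp⟩
    rcases Finset.mem_union.1 hg with h1 | h1
    · exact Finset.disjoint_left.1 hS.dj2 (hFn _ h1) hfan
    rcases Finset.mem_union.1 h1 with h1 | h1
    · exact Finset.disjoint_left.1 hS.dj3 h1 hfan
    · obtain ⟨x, hx1, hx2⟩ := hx
      have hx3 : x ∈ rv s.L ++ s.d :: bt := List.mem_append_right _ hx1
      rcases StageC1_fan_vert h1 hx2 with h3 | h3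
      · exact (StageC1_N2 hS).1 (h3 ▸ (StageC1_mem_bd hb).2 (Or.inl hx3))
      · refine StageC1_N1 hS hb x hx3 ?_
        exact List.mem_append_left _ (List.mem_append_left _ h3)

/-- vertices of the machine part -/
def StageC1_Kc (J : Finset V → Finset V) (s : SD V) (bt : List V) (u : V)
    (Fm : Finset (Finset V)) : Set V :=
  {v | v ∈ KSet J (lN [] u s.L s.d bt ++ [s.z]) Fm [] s.L ∨ v ∈ s.d :: bt ∨
    ∃ f ∈ fanF s.l2.ow (s.d :: bt), v ∈ J f}

theorem StageC1_Kc_cases {v : V} (hv : v ∈ StageC1_Kc J s bt u Fm) :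
    ((v ∈ verts (rv s.L ++ [s.d] ++ bt ++ [u] ++ [s.z]) Fm ∧
      v ∉ rv s.L ++ [s.d] ++ bt ++ [u] ++ [s.z]) ∨ v ∈ rv s.L ++ s.d :: bt) ∨
      ∃ f, (f ∈ Fm ∨ f ∈ fanF s.l2.ow (s.d :: bt)) ∧ v ∈ J f := by
  rcases hv with ((h | ⟨f, hf, hv⟩) | h | h) | h | ⟨f, hf, hv⟩
  · exact Or.inl (Or.inl h)
  · exact Or.inr ⟨f, Or.inl hf, hv⟩
  · simp [rv] at h
  · exact Or.inl (Or.inr (List.mem_append_left _ h))
  · exact Or.inl (Or.inr (List.mem_append_right _ h))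
  · exact Or.inr ⟨f, Or.inr hf, hv⟩

theorem StageC1_Kc_vert (hcb : StageC1_Cb G T Fs J s F bt be2 u i lv Fn Fm) {v : V}
    (hv : (v ∈ verts (rv s.L ++ [s.d] ++ bt ++ [u] ++ [s.z]) Fm ∧
      v ∉ rv s.L ++ [s.d] ++ bt ++ [u] ++ [s.z]) ∨ v ∈ rv s.L ++ s.d :: bt) :
    v ∈ verts (rv s.L ++ [s.d] ++ bt ++ [u] ++ [s.z]) Fm ∧ ∃ g ∈ Fs, v ∈ g := by
  have h1 : v ∈ verts (rv s.L ++ [s.d] ++ bt ++ [u] ++ [s.z]) Fm := by
    rcases hv with h | h
    · exact h.1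
    · exact DiscA_mem_verts_left (StageC1_mem_bm.2 (Or.inl h))
  obtain ⟨g, hg, hvg⟩ := StageC1_inF hcb.regm (by simp; omega) h1
  exact ⟨h1, g, hcb.regm.sub hg, hvg⟩

/-- the vertices of the new stage -/
def StageC1_Kn (J : Finset V → Finset V) (s : SD V) (be2 : List V) (u : V)
    (Fn : Finset (Finset V)) : Set V :=
  {v | v ∈ verts (u :: be2 ++ [s.w] ++ s.al.reverse ++ [s.z]) Fn ∧
      v ∉ u :: be2 ++ [s.w] ++ s.al.reverse ++ [s.z] ∨ v ∈ rv ([] : List (Rec V)) ∨ v = s.z ∨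
    v = u ∨ v ∈ s.al ∨ v ∈ be2 ∨ ∃ f ∈ Fn ∪ (fanF s.l1.ow (s.z :: s.al ++ [s.w]) ∪
      fanF s.l2.ow (u :: be2 ++ [s.w])), v ∈ J f}

theorem StageC1_Kn_cases {v : V} (hv : v ∈ StageC1_Kn J s be2 u Fn) :
    v ∈ verts (u :: be2 ++ [s.w] ++ s.al.reverse ++ [s.z]) Fn ∨
    ∃ f ∈ Fn ∪ (fanF s.l1.ow (s.z :: s.al ++ [s.w]) ∪
      fanF s.l2.ow (u :: be2 ++ [s.w])), v ∈ J f := by
  have key : ∀ x, x ∈ u :: be2 ++ [s.w] ++ s.al.reverse ++ [s.z] →
      x ∈ verts (u :: be2 ++ [s.w] ++ s.al.reverse ++ [s.z]) Fn := fun x hx =>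
    DiscA_mem_verts_left hx
  rcases hv with h | h | h | h | h | h | h
  · exact Or.inl h.1
  · simp [rv] at h
  · exact Or.inl (key v (by rw [h]; simp))
  · exact Or.inl (key v (by rw [h]; simp))
  · exact Or.inl (key v (by simp [h]))
  · exact Or.inl (key v (by simp [h]))
  · exact Or.inr h

theorem StageC1_d1 (hc : Ctx G T Fs J) (hS : SC G T Fs J Ex Γ s F)
    (hb : s.be = bt ++ u :: be2) (hcb : StageC1_Cb G T Fs J s F bt be2 u i lv Fn Fm) {v : V}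
    (hv : v ∈ StageC1_Kc J s bt u Fm) : v ∉ StageC1_Kn J s be2 u Fn := by
  intro hv'
  rcases StageC1_Kc_cases hv with h | ⟨f, hf, hvf⟩
  · obtain ⟨h1, g, hg, hvg⟩ := StageC1_Kc_vert hcb h
    rcases StageC1_Kn_cases hv' with h2 | ⟨f', hf', hvf'⟩
    · have h3 := hcb.cut v h2 h1
      rcases h with h | h
      · exact h.2 (StageC1_mem_bm.2 (Or.inr h3))
      · refine StageC1_N1 hS hb v h ?_
        rcases h3 with h3 | h3 <;> rw [h3] <;> simp
    · exact StageC1_nJ hc hg hvg (StageC1_new_sub hS hb hcb hf') hvf'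
  · have hold : StageC1_old s bt u lv Fm f := by
      rcases hf with hf | hf
      · exact Or.inl hf
      · exact Or.inr (Or.inl hf)
    have hfs := StageC1_old_sub hS hcb hold
    rcases StageC1_Kn_cases hv' with h2 | ⟨f', hf', hvf'⟩
    · obtain ⟨g, hg, hvg⟩ := StageC1_inF hcb.regn (by simp; omega) h2
      exact StageC1_nJ hc (hcb.regn.sub hg) hvg hfs hvf
    · exact Finset.disjoint_left.1 (hc.disj f hfs f' (StageC1_new_sub hS hb hcb hf')
        (StageC1_ne hS hb hcb hold hf')) hvf hvf'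

theorem StageC1_d2 (hc : Ctx G T Fs J) (hS : SC G T Fs J Ex Γ s F)
    (hb : s.be = bt ++ u :: be2) (hcb : StageC1_Cb G T Fs J s F bt be2 u i lv Fn Fm) {v : V}
    (hv : v ∈ J ({s.l2.ow, lv, u} : Finset V)) : v ∉ StageC1_Kn J s be2 u Fn ∧ v ∉ StageC1_Kc J s bt u Fm := by
  have hold : StageC1_old s bt u lv Fm ({s.l2.ow, lv, u} : Finset V) := Or.inr (Or.inr rfl)
  have hfs := StageC1_old_sub hS hcb hold
  constructor
  · intro hv'
    rcases StageC1_Kn_cases hv' with h2 | ⟨f', hf', hvf'⟩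
    · obtain ⟨g, hg, hvg⟩ := StageC1_inF hcb.regn (by simp; omega) h2
      exact StageC1_nJ hc (hcb.regn.sub hg) hvg hfs hv
    · exact Finset.disjoint_left.1 (hc.disj _ hfs f' (StageC1_new_sub hS hb hcb hf')
        (StageC1_ne hS hb hcb hold hf')) hv hvf'
  · intro hv'
    rcases StageC1_Kc_cases hv' with h | ⟨f, hf, hvf⟩
    · obtain ⟨-, g, hg, hvg⟩ := StageC1_Kc_vert hcb h
      exact StageC1_nJ hc hg hvg hfs hv
    · have hne : f ≠ ({s.l2.ow, lv, u} : Finset V) := by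
        rintro rfl
        rcases hf with hf | hf
        · refine Finset.disjoint_left.1 hS.dj2 (?_ : ({s.l2.ow, lv, u} : Finset V) ∈ F) ?_
          · rw [hcb.hF]
            exact Finset.mem_union_right _ hf
          · rw [hcb.fan]
            exact Finset.mem_union_right _ (Finset.mem_insert_self _ _)
        · rcases StageC1_fan_vert hf (v := u) (by simp) with h3 | h3
          · exact (StageC1_N2 hS).1 (h3 ▸ (StageC1_mem_bd hb).2 (Or.inr (by simp)))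
          · exact StageC1_N1 hS hb u (List.mem_append_right _ h3) (by simp)
      refine Finset.disjoint_left.1 (hc.disj f (StageC1_old_sub hS hcb ?_) _ hfs hne) hvf hv
      rcases hf with hf | hf
      · exact Or.inl hf
      · exact Or.inr (Or.inl hf)

/-- a vertex of the new part of the boundary -/
theorem StageC1_d3 (hc : Ctx G T Fs J) (hS : SC G T Fs J Ex Γ s F)
    (hb : s.be = bt ++ u :: be2) (hcb : StageC1_Cb G T Fs J s F bt be2 u i lv Fn Fm) {v : V}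
    (hv : v ∈ u :: be2 ++ [s.w] ++ s.al.reverse ++ [s.z]) :
    v ∉ StageC1_Kc J s bt u Fm ∧ v ∉ J ({s.l2.ow, lv, u} : Finset V) ∧ v ≠ lv := by
  have hv1 : v ∈ verts (u :: be2 ++ [s.w] ++ s.al.reverse ++ [s.z]) Fn := DiscA_mem_verts_left hv
  obtain ⟨g, hg, hvg⟩ := StageC1_inF hcb.regn (by simp; omega) hv1
  have hgs := hcb.regn.sub hg
  have hlv : lv ∈ s.d :: bt := by rw [hcb.il]; simp
  refine ⟨?_, ?_, ?_⟩
  · intro hv'
    rcases StageC1_Kc_cases hv' with h | ⟨f, hf, hvf⟩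
    · obtain ⟨h1, -⟩ := StageC1_Kc_vert hcb h
      have h3 := hcb.cut v hv1 h1
      rcases h with h | h
      · exact h.2 (StageC1_mem_bm.2 (Or.inr h3))
      · exact StageC1_N1 hS hb v h hv
    · refine StageC1_nJ hc hgs hvg (StageC1_old_sub (lv := lv) hS hcb ?_) hvf
      rcases hf with hf | hf
      · exact Or.inl hf
      · exact Or.inr (Or.inl hf)
  · intro hv'
    exact StageC1_nJ hc hgs hvg (StageC1_old_sub hS hcb (Or.inr (Or.inr rfl))) hv'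
  · rintro rfl
    exact StageC1_N1 hS hb v (List.mem_append_right _ hlv) hv

/-- inner vertices of a part are inner vertices -/
theorem StageC1_inn (hb : s.be = bt ++ u :: be2)
    (hcb : StageC1_Cb G T Fs J s F bt be2 u i lv Fn Fm) {v : V}
    (hv : v ∈ verts (u :: be2 ++ [s.w] ++ s.al.reverse ++ [s.z]) Fn)
    (hv' : v ∉ u :: be2 ++ [s.w] ++ s.al.reverse ++ [s.z]) :
    v ∈ verts s.bd F ∧ v ∉ s.bd := by
  constructor
  · rcases Finset.mem_union.1 hv with h | h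
    · exact absurd (List.mem_toFinset.1 h) hv'
    · obtain ⟨g, hg, hvg⟩ := Finset.mem_biUnion.1 h
      refine DiscA_mem_verts_right (f := g) ?_ hvg
      rw [hcb.hF]
      exact Finset.mem_union_left _ hg
  · intro h
    rcases (StageC1_mem_bd hb).1 h with h1 | h1
    · rcases hcb.cut v hv (DiscA_mem_verts_left (StageC1_mem_bm.2 (Or.inl h1))) with h2 | h2
      · exact hv' (by rw [h2]; simp)
      · exact hv' (by rw [h2]; simp)
    · exact hv' h1

theorem StageC1_inm (hb : s.be = bt ++ u :: be2)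
    (hcb : StageC1_Cb G T Fs J s F bt be2 u i lv Fn Fm) {v : V}
    (hv : v ∈ verts (rv s.L ++ [s.d] ++ bt ++ [u] ++ [s.z]) Fm)
    (hv' : v ∉ rv s.L ++ [s.d] ++ bt ++ [u] ++ [s.z]) :
    v ∈ verts s.bd F ∧ v ∉ s.bd := by
  constructor
  · rcases Finset.mem_union.1 hv with h | h
    · exact absurd (List.mem_toFinset.1 h) hv'
    · obtain ⟨g, hg, hvg⟩ := Finset.mem_biUnion.1 h
      refine DiscA_mem_verts_right (f := g) ?_ hvg
      rw [hcb.hF]
      exact Finset.mem_union_right _ hg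
  · intro h
    rcases (StageC1_mem_bd hb).1 h with h1 | h1
    · exact hv' (StageC1_mem_bm.2 (Or.inl h1))
    · exact hv' (StageC1_mem_bm.2 (Or.inr (hcb.cut v (DiscA_mem_verts_left h1) hv)))

/-- an inner vertex is an inner vertex of a part -/
theorem StageC1_inner_cases (hb : s.be = bt ++ u :: be2)
    (hcb : StageC1_Cb G T Fs J s F bt be2 u i lv Fn Fm) {v : V} (hv : v ∈ verts s.bd F)
    (hv' : v ∉ s.bd) :
    (v ∈ verts (u :: be2 ++ [s.w] ++ s.al.reverse ++ [s.z]) Fn ∧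
      v ∉ u :: be2 ++ [s.w] ++ s.al.reverse ++ [s.z]) ∨
    (v ∈ verts (rv s.L ++ [s.d] ++ bt ++ [u] ++ [s.z]) Fm ∧
      v ∉ rv s.L ++ [s.d] ++ bt ++ [u] ++ [s.z]) := by
  have h1 : v ∉ u :: be2 ++ [s.w] ++ s.al.reverse ++ [s.z] := fun h =>
    hv' ((StageC1_mem_bd hb).2 (Or.inr h))
  have h2 : v ∉ rv s.L ++ [s.d] ++ bt ++ [u] ++ [s.z] := by
    intro h
    rcases StageC1_mem_bm.1 h with h3 | h3 | h3
    · exact hv' ((StageC1_mem_bd hb).2 (Or.inl h3))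
    · exact h1 (by rw [h3]; simp)
    · exact h1 (by rw [h3]; simp)
  rcases Finset.mem_union.1 hv with h | h
  · exact absurd (List.mem_toFinset.1 h) hv'
  · obtain ⟨g, hg, hvg⟩ := Finset.mem_biUnion.1 h
    rw [hcb.hF] at hg
    rcases Finset.mem_union.1 hg with hg | hg
    · exact Or.inl ⟨DiscA_mem_verts_right hg hvg, h1⟩
    · exact Or.inr ⟨DiscA_mem_verts_right hg hvg, h2⟩

end cbl


/-- numbers for the reduction -/
structure StageC1_P (U : Bool → Finset ℚ) (s : SD V) (T₁ T₂ yu yu2 Xu e2 : ℚ) : Prop where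
  a1 : s.t0 < T₁
  a2 : T₁ < T₂
  a3 : T₂ < yu
  a4 : yu < yu2
  a5 : yu2 < s.t1
  b1 : s.Xd < Xu
  b2 : s.l2.e < Xu
  b3 : Xu < s.Xw
  c1 : Xu < e2
  c2 : e2 < s.Xw
  n1 : yu ∉ U false
  n2 : Xu ∉ U true

theorem StageC1_exP {Γ : Dr V} {U : Bool → Finset ℚ} {D : Cov} {s : SD V} (hG : SG Γ U D s)
    (hz : s.zt = true) : ∃ T₁ T₂ yu yu2 Xu e2, StageC1_P U s T₁ T₂ yu yu2 Xu e2 := by
  obtain ⟨-, ht, -⟩ := hG.ztop hz
  obtain ⟨T₁, h1, h2⟩ := exists_between ht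
  obtain ⟨T₂, h3, h4⟩ := exists_between h2
  obtain ⟨yu, h5, h6, h7⟩ := exists_fresh U false h4
  obtain ⟨yu2, h8, h9⟩ := exists_between h6
  obtain ⟨Xu, g1, g2, g3⟩ := exists_fresh U true (max_lt hG.o4 hG.line2.eX)
  obtain ⟨e2, g4, g5⟩ := exists_between g2
  exact ⟨T₁, T₂, yu, yu2, Xu, e2, h1, h3, h5, h8, h9, lt_of_le_of_lt (le_max_left _ _) g1,
    lt_of_le_of_lt (le_max_right _ _) g1, g2, g4, g5, h7, g3⟩

/-- numbers of a stage -/
structure StageC1_Q (U : Bool → Finset ℚ) (s : SD V) : Prop where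
  q1 : s.Xz < s.Xd
  q2 : s.Xd < s.Xw
  q3 : s.B < s.Y0
  q4 : s.l1.Λ < s.B
  q5 : s.l2.Λ < s.B
  q6 : s.l1.s1 ≤ s.B
  q7 : s.l2.s1 ≤ s.B
  q8 : s.l1.lc < s.Xd
  q9 : s.Y0 ≤ s.t0
  q10 : s.t1 ≤ s.Top
  q11 : s.Xw ≤ s.l1.R
  q12 : s.Xw ≤ s.l2.R
  q13 : s.l2.Λ ≤ s.l2.s0
  q14 : s.l1.Λ ≤ s.l1.s0
  q15 : s.Xz < s.A
  m1 : s.Xz ∈ U true
  m2 : s.Xd ∈ U true
  m3 : s.Xw ∈ U true
  m4 : s.Y0 ∈ U false
  m5 : s.l1.Λ ∈ U false
  m6 : s.l2.Λ ∈ U false
  m7 : s.l1.lc ∈ U true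
  m8 : s.l1.R ∈ U true
  m9 : s.l2.R ∈ U true

theorem StageC1_exQ {G : SimpleGraph V} {Γ : Dr V} {U : Bool → Finset ℚ} {D : Cov} {s : SD V}
    (hw : Wd G Γ U) (hG : SG Γ U D s) (hz : s.zt = true) : StageC1_Q U s := by
  obtain ⟨z1, z2, z3, z4⟩ := hG.ztop hz
  have k1 := hG.line1.ok.h1
  have k2 := hG.line1.ok.h2
  have k3 := hG.line1.ok.h3
  have k4 := hG.line1.ok.h4
  have k6 := hG.line1.ok.h6
  have k7 := hG.line1.ok.h7
  have j4 := hG.line2.ok.h4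
  have j6 := hG.line2.ok.h6
  have j7 := hG.line2.ok.h7
  have o1 := hG.o1
  have o2 := hG.o2
  have o3 := hG.o3
  have o5 := hG.o5
  have e1 := hG.e1
  have s1 := hG.line1.sB
  have s2 := hG.line2.sB
  have hB := hG.ordL.lt
  exact
    { q1 := by linarith
      q2 := hG.o4
      q3 := hB
      q4 := by linarith
      q5 := by linarith
      q6 := s1
      q7 := s2
      q8 := by linarith
      q9 := z1
      q10 := z3
      q11 := hG.line1.XR
      q12 := hG.line2.XR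
      q13 := j6
      q14 := k6
      q15 := by linarith
      m1 := z4.mem (v := s.z) rfl hw.lines z2
      m2 := hG.dcol.mem (v := s.d) rfl hw.lines hB
      m3 := hG.wcol.mem (v := s.w) rfl hw.lines (by linarith)
      m4 := hG.bbase.mem (v := s.d) rfl hw.lines o3
      m5 := hG.line1.ok.zone.mem (v := s.l1.ow) (Or.inl rfl) hw.lines k4
      m6 := hG.line2.ok.zone.mem (v := s.l2.ow) (Or.inl rfl) hw.lines j4
      m7 := hG.line1.ok.strip.mem (v := s.z) rfl hw.lines k7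
      m8 := hG.line1.col.mem (v := s.w) rfl hw.lines (by linarith)
      m9 := hG.line2.col.mem (v := s.w) rfl hw.lines (by linarith) }

/-- the coverage of `u` -/
def StageC1_C (s : SD V) (yu yu2 Xu e2 : ℚ) : Cov :=
  seg false s.l2.Λ Xu e2 ⊔ seg true Xu s.l2.Λ yu ⊔ seg false yu s.Xz Xu ⊔ seg true s.Xz yu yu2

def StageC1_U1 (U : Bool → Finset ℚ) (yu Xu : ℚ) : Bool → Finset ℚ :=
  addL (addL U true Xu) false yu

def StageC1_D0 (U : Bool → Finset ℚ) (s : SD V) (yu yu2 Xu e2 : ℚ) : Cov :=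
  nl U ⊔ seg false s.l2.Λ Xu e2 ⊔ seg true s.Xz yu yu2

section geo

variable {G : SimpleGraph V} {Γ : Dr V} {U : Bool → Finset ℚ} {D : Cov} {s : SD V}
  {T₁ T₂ yu yu2 Xu e2 : ℚ} {u : V}

theorem StageC1_sub1 : ∀ o, U o ⊆ StageC1_U1 U yu Xu o := fun o x hx =>
  mem_addL.2 (Or.inl (mem_addL.2 (Or.inl hx)))

theorem StageC1_XuU : Xu ∈ StageC1_U1 U yu Xu true :=
  mem_addL.2 (Or.inl (mem_addL.2 (Or.inr ⟨rfl, rfl⟩)))

theorem StageC1_yuU : yu ∈ StageC1_U1 U yu Xu false := mem_addL.2 (Or.inr ⟨rfl, rfl⟩)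

theorem StageC1_memC (hP : StageC1_P U s T₁ T₂ yu yu2 Xu e2) (hQ : StageC1_Q U s) {o : Bool}
    {l x : ℚ} : x ∈ StageC1_C s yu yu2 Xu e2 o l ↔
      (o = false ∧ l = s.l2.Λ ∧ Xu < x ∧ x < e2) ∨ (o = true ∧ l = Xu ∧ s.l2.Λ < x ∧ x < yu) ∨
      (o = false ∧ l = yu ∧ s.Xz < x ∧ x < Xu) ∨ (o = true ∧ l = s.Xz ∧ yu < x ∧ x < yu2) := by
  have a1 := hP.a1
  have a2 := hP.a2
  have a3 := hP.a3
  have b1 := hP.b1
  have q1 := hQ.q1
  have q3 := hQ.q3
  have q5 := hQ.q5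
  have q9 := hQ.q9
  show (((x ∈ seg false s.l2.Λ Xu e2 o l ∨ x ∈ seg true Xu s.l2.Λ yu o l) ∨
    x ∈ seg false yu s.Xz Xu o l) ∨ x ∈ seg true s.Xz yu yu2 o l) ↔ _
  rw [LineB_mem hP.c1.le, LineB_mem (show s.l2.Λ ≤ yu by linarith),
    LineB_mem (show s.Xz ≤ Xu by linarith), LineB_mem hP.a4.le, or_assoc, or_assoc]

theorem StageC1_memD0 (hP : StageC1_P U s T₁ T₂ yu yu2 Xu e2) {o : Bool}
    {l x : ℚ} : x ∈ StageC1_D0 U s yu yu2 Xu e2 o l ↔
      l ∉ U o ∨ (o = false ∧ l = s.l2.Λ ∧ Xu < x ∧ x < e2) ∨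
      (o = true ∧ l = s.Xz ∧ yu < x ∧ x < yu2) := by
  show ((l ∉ U o ∨ x ∈ seg false s.l2.Λ Xu e2 o l) ∨ x ∈ seg true s.Xz yu yu2 o l) ↔ _
  rw [LineB_mem hP.c1.le, LineB_mem hP.a4.le, or_assoc]

theorem StageC1_step1 (hw : Wd G Γ U) (hG : SG Γ U D s) (hz : s.zt = true)
    (hP : StageC1_P U s T₁ T₂ yu yu2 Xu e2) (hu : Undrawn Γ u) (huz : G.Adj u s.z)
    (huo : G.Adj u s.l2.ow) :
    Step G Γ U (StageC1_D0 U s yu yu2 Xu e2) {u}
      (Function.update Γ u (StageC1_C s yu yu2 Xu e2)) (StageC1_U1 U yu Xu) := by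
  have hQ := StageC1_exQ hw hG hz
  obtain ⟨z1, z2, z3, z4⟩ := hG.ztop hz
  refine Step.draw hw StageC1_sub1 (fun o l x hx => absurd hx (hu o l x)) ?_ ?_ ?_
  · intro o l x hx
    rcases (StageC1_memC hP hQ).1 hx with ⟨rfl, rfl, -⟩ | ⟨rfl, rfl, -⟩ | ⟨rfl, rfl, -⟩ |
      ⟨rfl, rfl, -⟩
    · exact StageC1_sub1 _ hQ.m6
    · exact StageC1_XuU
    · exact StageC1_yuU
    · exact StageC1_sub1 _ hQ.m1
  · intro o l x hx _
    rw [StageC1_memD0 hP]
    rcases (StageC1_memC hP hQ).1 hx with h | ⟨rfl, rfl, -⟩ | ⟨rfl, rfl, -⟩ | h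
    · exact Or.inr (Or.inl h)
    · exact Or.inl hP.n2
    · exact Or.inl hP.n1
    · exact Or.inr (Or.inr h)
  · intro o l x hx _ w hwu hxw
    rcases (StageC1_memC hP hQ).1 hx with ⟨rfl, rfl, ha, hb⟩ | ⟨rfl, rfl, -⟩ | ⟨rfl, rfl, -⟩ |
      ⟨rfl, rfl, ha, hb⟩
    · have h1 := ((hG.line2.ok.free x (by linarith [hP.b2]) (by linarith [hP.c2, hQ.q12])).2 w).1 hxw
      rw [h1]
      exact huo
    · exact absurd (hw.lines _ _ _ _ hxw) hP.n2
    · exact absurd (hw.lines _ _ _ _ hxw) hP.n1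
    · have h1 := ((z4 x (by linarith [hP.a1, hP.a2, hP.a3]) (by linarith [hP.a5])).2 w).1 hxw
      rw [Set.mem_singleton_iff.1 h1]
      exact huz

/-- the allowed set of the machine -/
def StageC1_D1 (U : Bool → Finset ℚ) (D : Cov) (s : SD V) (yu Xu l₀ l₁ : ℚ) : Cov :=
  fun o l => {x | x ∈ D o l ∧ (l ∉ StageC1_U1 U yu Xu o ∨
    (o = true ∧ (l = s.Xz ∨ l = Xu) ∧ s.B ≤ x ∧ x < s.Y0) ∨ (o = false ∧ ∃ r ∈ s.L, l = r.c) ∨
    (o = false ∧ l = s.Y0 ∧ x < s.Xd ∧ ¬ (s.L ≠ [] ∧ l₀ < x ∧ x < l₁)))}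

end geo


section geo2

variable {G : SimpleGraph V} {Γ : Dr V} {U : Bool → Finset ℚ} {D : Cov} {s : SD V}
  {T₁ T₂ yu yu2 Xu e2 : ℚ} {u : V}

theorem StageC1_new (hw : Wd G Γ U) {o : Bool} {l x : ℚ} (hl : l ∉ U o) {C : Cov} {v : V}
    (hx : x ∈ Function.update Γ u C v o l) : v = u := by
  by_contra hv
  rw [Function.update_of_ne hv] at hx
  exact hl (hw.lines v o l x hx)

theorem StageC1_wXu (hw : Wd G Γ U) (hD : Adm U D) (hG : SG Γ U D s) (hz : s.zt = true)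
    (hP : StageC1_P U s T₁ T₂ yu yu2 Xu e2) :
    SW (Function.update Γ u (StageC1_C s yu yu2 Xu e2)) D {u} true Xu s.l2.Λ yu := by
  have hQ := StageC1_exQ hw hG hz
  refine fun x ha hb => ⟨hD _ _ hP.n2, fun v => ⟨fun h => StageC1_new hw hP.n2 h, fun h => ?_⟩⟩
  rw [Set.mem_singleton_iff.1 h, Function.update_self]
  exact (StageC1_memC hP hQ).2 (Or.inr (Or.inl ⟨rfl, rfl, ha, hb⟩))

theorem StageC1_wyu (hw : Wd G Γ U) (hD : Adm U D) (hG : SG Γ U D s) (hz : s.zt = true)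
    (hP : StageC1_P U s T₁ T₂ yu yu2 Xu e2) :
    SW (Function.update Γ u (StageC1_C s yu yu2 Xu e2)) D {u} false yu s.Xz Xu := by
  have hQ := StageC1_exQ hw hG hz
  refine fun x ha hb => ⟨hD _ _ hP.n1, fun v => ⟨fun h => StageC1_new hw hP.n1 h, fun h => ?_⟩⟩
  rw [Set.mem_singleton_iff.1 h, Function.update_self]
  exact (StageC1_memC hP hQ).2 (Or.inr (Or.inr (Or.inl ⟨rfl, rfl, ha, hb⟩)))

theorem StageC1_wyuR (hw : Wd G Γ U) (hG : SG Γ U D s) (hz : s.zt = true)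
    (hP : StageC1_P U s T₁ T₂ yu yu2 Xu e2) :
    ∀ x, Xu ≤ x → ∀ v, x ∉ Function.update Γ u (StageC1_C s yu yu2 Xu e2) v false yu := by
  have hQ := StageC1_exQ hw hG hz
  intro x hx v hv
  have h1 := StageC1_new hw hP.n1 hv
  rw [h1, Function.update_self] at hv
  rcases (StageC1_memC hP hQ).1 hv with ⟨-, h, -⟩ | ⟨h, -⟩ | ⟨-, -, -, h⟩ | ⟨h, -⟩
  · exact hP.n1 (h ▸ hQ.m6)
  · exact absurd h (by simp)
  · exact absurd h (not_lt.2 hx)
  · exact absurd h (by simp)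

theorem StageC1_wst (hw : Wd G Γ U) (hG : SG Γ U D s) (hz : s.zt = true)
    (hP : StageC1_P U s T₁ T₂ yu yu2 Xu e2) :
    SW (Function.update Γ u (StageC1_C s yu yu2 Xu e2)) D {s.l2.ow, u} false s.l2.Λ Xu e2 := by
  have hQ := StageC1_exQ hw hG hz
  intro x ha hb
  have h1 := hG.line2.ok.free x (by linarith [hP.b2]) (by linarith [hP.c2, hQ.q12])
  refine ⟨h1.1, fun v => ⟨fun h => ?_, fun h => ?_⟩⟩
  · by_cases hv : v = u
    · exact Or.inr hv
    · rw [Function.update_of_ne hv] at h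
      exact Or.inl ((h1.2 v).1 h)
  · by_cases hv : v = u
    · rw [hv, Function.update_self]
      exact (StageC1_memC hP hQ).2 (Or.inl ⟨rfl, rfl, ha, hb⟩)
    · rw [Function.update_of_ne hv]
      rcases h with h | h
      · exact (h1.2 v).2 h
      · exact absurd h hv

theorem StageC1_ovz (hw : Wd G Γ U) (hG : SG Γ U D s) (hz : s.zt = true)
    (hP : StageC1_P U s T₁ T₂ yu yu2 Xu e2) (hzu : s.z ≠ u) :
    Ov (Function.update Γ u (StageC1_C s yu yu2 Xu e2)) s.z u := by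
  have hQ := StageC1_exQ hw hG hz
  obtain ⟨z1, z2, z3, z4⟩ := hG.ztop hz
  obtain ⟨x, ha, hb⟩ := exists_between hP.a4
  refine ⟨true, s.Xz, x, ?_, ?_⟩
  · rw [Function.update_of_ne hzu]
    exact ((z4 x (by linarith [hP.a1, hP.a2, hP.a3]) (by linarith [hP.a5])).2 s.z).2 rfl
  · rw [Function.update_self]
    exact (StageC1_memC hP hQ).2 (Or.inr (Or.inr (Or.inr ⟨rfl, rfl, ha, hb⟩)))

theorem StageC1_line (hw : Wd G Γ U) (hG : SG Γ U D s) (hz : s.zt = true)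
    (hP : StageC1_P U s T₁ T₂ yu yu2 Xu e2)
    (hg : Grow Γ (Function.update Γ u (StageC1_C s yu yu2 Xu e2))
      (StageC1_D0 U s yu yu2 Xu e2) {u}) :
    LineOK (Function.update Γ u (StageC1_C s yu yu2 Xu e2)) D s.l2.ow s.l2.Λ s.d s.Xd s.l2.c0
      s.l2.e Xu s.l2.lo s.l2.hi s.l2.s0 s.l2.s1 := by
  have hQ := StageC1_exQ hw hG hz
  have h := hG.line2.ok
  have hXR : Xu ≤ s.l2.R := by linarith [hP.b3, hQ.q12]
  have h' : LineOK Γ D s.l2.ow s.l2.Λ s.d s.l2.lc s.l2.c0 s.l2.e Xu s.l2.lo s.l2.hi s.l2.s0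
      s.l2.s1 :=
    ⟨h.h1, h.h2, h.h3, h.h4, hP.b2, h.h6, h.h7, h.zone, fun x hx hx' => h.free x hx (hx'.trans hXR),
      h.res, h.strip⟩
  rw [hG.lc2] at h'
  refine h'.grow hg ?_ ?_ ?_
  · intro x ha hb hx
    rcases (StageC1_memD0 hP).1 hx with h1 | ⟨-, -, h1, -⟩ | ⟨h1, -⟩
    · exact h1 hQ.m6
    · have := h'.h2
      linarith [hP.b1]
    · exact absurd h1 (by simp)
  · intro x ha hb hx
    rcases (StageC1_memD0 hP).1 hx with h1 | ⟨-, -, h1, -⟩ | ⟨h1, -⟩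
    · exact h1 hQ.m6
    · exact absurd h1 (not_lt.2 hb)
    · exact absurd h1 (by simp)
  · intro x ha hb hx
    rcases (StageC1_memD0 hP).1 hx with h1 | ⟨h1, -⟩ | ⟨-, h1, -⟩
    · exact h1 hQ.m2
    · exact absurd h1 (by simp)
    · exact hQ.q1.ne' h1

theorem StageC1_MG {T : Finset V} {Fs : Finset (Finset V)} {J : Finset V → Finset V}
    {Ex Ex' : V → V → Prop} {F : Finset (Finset V)} {bt be2 : List V} {i : List V} {lv : V}
    {Fn Fm : Finset (Finset V)} (hc : Ctx G T Fs J)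
    (hw : Wd G Γ U) (hD : Adm U D) (hG : SG Γ U D s) (hz : s.zt = true)
    (hS : SC G T Fs J Ex Γ s F) (hb : s.be = bt ++ u :: be2)
    (h1 : ∀ v ∈ bt, ¬ AdjF F s.z v)
    (hP : StageC1_P U s T₁ T₂ yu yu2 Xu e2)
    (hcb : StageC1_Cb G T Fs J s F bt be2 u i lv Fn Fm)
    (hst : Step G Γ U (StageC1_D0 U s yu yu2 Xu e2) {u}
      (Function.update Γ u (StageC1_C s yu yu2 Xu e2)) (StageC1_U1 U yu Xu))
    (hEE : ∀ a b, Ex a b → Ex' a b) (hEu : Ex' u lv) :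
    ∃ l₀ l₁, MG1 G PI T Fs J Ex' (Function.update Γ u (StageC1_C s yu yu2 Xu e2))
      (StageC1_U1 U yu Xu) (StageC1_D1 U D s yu Xu l₀ l₁) s.z s.Xz s.h s.A s.B [] u Xu s.Xd s.L
      s.d s.Y0 s.Y0 bt Fm := by
  have hQ := StageC1_exQ hw hG hz
  have hFm : Fm ⊆ F := fun f hf => by rw [hcb.hF]; exact Finset.mem_union_right _ hf
  have hAdj : ∀ a b, AdjF Fm a b → AdjF F a b := fun a b h => CombA_adj_mono hFm h
  have hbe : s.be ≠ [] := by rw [hb]; simp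
  -- the link zone
  obtain ⟨l₀, l₁, hlk1, hlk2⟩ : ∃ l₀ l₁, l₁ ≤ s.A ∧ (s.L ≠ [] → TCh s.L s.Y0 ∧ l₀ < l₁ ∧
      Solo Γ {lastv s.L s.d, s.d} false s.Y0 l₀ l₁) := by
    by_cases hL : s.L = []
    · exact ⟨s.A, s.A, le_rfl, fun h => absurd hL h⟩
    · obtain ⟨h3, l₀, l₁, h4, h5, h6⟩ := hS.lk hbe hL
      exact ⟨l₀, l₁, h5, fun _ => ⟨h3, h4, h6⟩⟩
  have hzu : s.z ≠ u := by
    have h3 := hcb.regn.disc.nodup
    intro h4
    exact (List.nodup_cons.1 h3).1 (by rw [← h4]; simp)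
  have hdn : ∀ v ∈ rv s.L ++ s.d :: bt, v ≠ u := by
    intro v hv hvu
    exact StageC1_N1 hS hb v hv (by rw [hvu]; simp)
  have hLt : topc s.L s.Y0 ≤ s.Y0 := by
    cases hL : s.L with
    | nil => exact le_rfl
    | cons r t =>
      have h3 := hG.ordL
      rw [hL] at h3
      exact (h3.mem (List.mem_cons_self)).2.2.le
  have hBt : s.B < topc s.L s.Y0 := by
    cases hL : s.L with
    | nil => exact hQ.q3
    | cons r t =>
      have h3 := hG.ordL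
      rw [hL] at h3
      exact h3.1.trans h3.2.1
  -- membership in the small set
  have hf1 : ∀ l x, l ∈ U false → x ∈ StageC1_D0 U s yu yu2 Xu e2 false l → l = s.l2.Λ := by
    intro l x hl hx
    rcases (StageC1_memD0 hP).1 hx with h3 | ⟨-, h3, -⟩ | ⟨h3, -⟩
    · exact absurd hl h3
    · exact h3
    · exact absurd h3 (by simp)
  have hf2 : ∀ l x, l ∈ U true → x ∈ StageC1_D0 U s yu yu2 Xu e2 true l →
      l = s.Xz ∧ yu < x := by
    intro l x hl hx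
    rcases (StageC1_memD0 hP).1 hx with h3 | ⟨h3, -⟩ | ⟨-, h3, h4, -⟩
    · exact absurd hl h3
    · exact absurd h3 (by simp)
    · exact ⟨h3, h4⟩
  have hYΛ : s.Y0 ≠ s.l2.Λ := by
    have := hQ.q3
    have := hQ.q5
    exact (by linarith : s.l2.Λ < s.Y0).ne'
  have hd1 : ∀ x, s.A < x → x < s.Xd → x ∈ D false s.Y0 →
      x ∈ StageC1_D1 U D s yu Xu l₀ l₁ false s.Y0 := by
    intro x hx hx' hxD
    exact ⟨hxD, Or.inr (Or.inr (Or.inr ⟨rfl, rfl, hx', fun h => by linarith [h.2.2]⟩))⟩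
  have hd2 : ∀ x, ∀ r ∈ s.L, x ∈ D false r.c → x ∈ StageC1_D1 U D s yu Xu l₀ l₁ false r.c :=
    fun x r hr hxD => ⟨hxD, Or.inr (Or.inr (Or.inl ⟨rfl, r, hr, rfl⟩))⟩
  have hreg : Reg T Fs (rv s.L ++ [s.d] ++ bt ++ (rv [] ++ [u]).reverse ++ [s.z]) Fm := hcb.regm
  refine ⟨l₀, l₁, ?_, hst.wd, ⟨⟨?_, hG.ordL, hP.b1.le, le_rfl, ?_, ?_, ?_, ?_⟩, hG.o1, hG.o2, ?_, ?_⟩,
    ⟨hreg, ?_, ?_, ?_, ?_⟩, ⟨?_, ?_, ?_, ?_, hG.pl, ?_, ?_, ?_, ?_⟩, ?_, ?_⟩
  · intro o l x hx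
    exact ⟨hD o l (fun h => hx (StageC1_sub1 o h)), Or.inl hx⟩
  · exact hG.o3
  · intro r hr
    exact absurd hr (List.not_mem_nil)
  · intro r hr
    obtain ⟨q, hq, hpd⟩ := hG.black r hr
    obtain ⟨-, hre, -⟩ := hpd.plain (hG.pl r hr)
    have hcU := hpd.hc
    have hrc := hG.ordL.mem hr
    refine ⟨q, hq, ((Pend.grow hpd hst.grow StageC1_sub1 ?_ ?_ ?_).mono_hi hP.b3.le).mono_D ?_ ?_⟩
    · intro h
      exact hdn r.v (List.mem_append_left _ (List.mem_map_of_mem hr)) h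
    · intro x _ _ hx
      have h3 := hf1 _ _ hcU hx
      have := hQ.q5
      linarith [hrc.1, hrc.2.1]
    · intro x h3 h4
      linarith
    · intro x _ _ hx
      exact hd2 x r hr hx
    · intro x h3 h4
      linarith
  · intro x ha hb'
    have h3 := StageC1_wXu (u := u) hw hD hG hz hP x (by linarith [hQ.q5])
      (by linarith [hP.a1, hP.a2, hP.a3, hQ.q9])
    exact ⟨⟨h3.1, Or.inr (Or.inl ⟨rfl, Or.inr rfl, ha.le, hb'⟩)⟩, h3.2⟩
  · have h3 := hG.bbase.grow hst.grow (fun x _ _ hx => hYΛ (hf1 _ _ hQ.m4 hx))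
    intro x ha hb'
    exact ⟨hd1 x ha hb' (h3 x ha hb').1, (h3 x ha hb').2⟩
  · have h3 := hG.zcol.grow hst.grow (fun x _ hx' hx => by
      have := (hf2 _ _ hQ.m1 hx).2
      linarith [hP.a1, hP.a2, hP.a3, hQ.q9])
    intro x ha hb'
    exact ⟨⟨(h3 x ha hb').1, Or.inr (Or.inl ⟨rfl, Or.inl rfl, ha.le, by linarith⟩)⟩,
      (h3 x ha hb').2⟩
  · have hmem : topc s.L s.Y0 ∈ U false := by
      cases hL : s.L with
      | nil => exact hQ.m4
      | cons r t =>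
        obtain ⟨q, -, hpd⟩ := hG.black r (by rw [hL]; exact List.mem_cons_self)
        exact hpd.hc
    have h3 := hG.top.grow hst.grow (fun x _ _ hx => by
      have := hf1 _ _ hmem hx
      linarith [hQ.q5])
    intro x ha hb'
    refine ⟨?_, (h3 x ha hb').2⟩
    have hxD := (h3 x ha hb').1
    cases hL : s.L with
    | nil =>
      rw [hL] at hxD
      refine ⟨hxD, Or.inr (Or.inr (Or.inr ⟨rfl, rfl, ?_, fun h => h.1 hL⟩))⟩
      linarith [hG.o2, hG.o3]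
    | cons r t =>
      rw [hL] at hxD
      exact hd2 x r (by rw [hL]; exact List.mem_cons_self) hxD
  · exact Chless.mono hS.chB hFm
  · intro p a b q c r hl
    have := congrArg List.length hl
    simp only [rv, List.map_nil, List.nil_append, List.length_cons, List.length_append,
      List.length_nil] at this
    omega
  · intro v hv h3
    rw [List.mem_append, List.mem_append] at hv
    rcases hv with (hv | hv) | hv
    · exact hS.z1 v hv (hAdj _ _ h3)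
    · exact h1 v hv (hAdj _ _ h3)
    · simp [rv] at hv
  · intro c hc' hcl hac v hv h3
    rw [List.append_nil] at hv
    obtain ⟨h4, h5⟩ := StageC1_inm hb hcb (v := c) hc' hcl
    exact hS.z2 c h4 h5 (hAdj _ _ hac) v hv (hAdj _ _ h3)
  · intro v hv
    simp [rv] at hv
  · intro hbt h3
    have h4 : u ∈ (s.be ++ [s.w]).tail := by
      rw [hb]
      cases bt with
      | nil => exact absurd rfl hbt
      | cons a t => simp
    exact CombA_chless_head (show Chless F (s.d :: (s.be ++ [s.w])) from hS.chD) h4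
      (DiscC_symm (hAdj _ _ h3))
  · intro v hv
    have hv' : v ≠ u := by
      rintro rfl
      exact Reg.notMem_Own hc hreg (by simp [rv]) hv
    refine (hS.und v ?_).grow hst.grow hv'
    rcases hv with ⟨h3, h4⟩ | ⟨f, hf, hvf⟩
    · exact Or.inl (StageC1_inm hb hcb h3 h4)
    · exact Or.inr (Or.inr (Or.inr ⟨f, Finset.mem_union_left _ (hFm hf), hvf⟩))
  · exact fun v _ C hC => hC
  · exact List.isChain_singleton _
  · refine hS.rL.imp ?_
    intro a b h3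
    exact h3.imp (hEE a b) (fun h4 => Ov.mono hst.grow h4)
  · intro hbt
    have h3 := hcb.il
    rw [hbt] at h3
    cases i with
    | nil =>
      have h4 : s.d = lv := by simpa using h3
      rw [h4]
      exact Or.inl hEu
    | cons a t => simp at h3
  · intro hbt hL
    obtain ⟨h3, h4, h5⟩ := hlk2 hL
    refine ⟨h3, l₀, l₁, h4, hlk1, h5.grow hst.grow (fun x _ _ hx => hYΛ (hf1 _ _ hQ.m4 hx)), ?_⟩
    rintro x hx hx' ⟨-, h6 | ⟨h6, -⟩ | ⟨-, r, hr, h6⟩ | ⟨-, -, -, h6⟩⟩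
    · exact h6 (StageC1_sub1 _ hQ.m4)
    · exact absurd h6 (by simp)
    · have := (hG.ordL.mem hr).2.2
      exact this.ne h6.symm
    · exact h6 ⟨hL, hx, hx'⟩
  · exact Or.inr (StageC1_ovz hw hG hz hP hzu)
  · exact hS.rz2.imp (hEE _ _) (fun h4 => Ov.mono hst.grow h4)

end geo2


section run

variable {G : SimpleGraph V} {Γ : Dr V} {U : Bool → Finset ℚ} {D : Cov} {s : SD V}
  {T₁ T₂ yu yu2 Xu e2 : ℚ} {u : V}
  {T : Finset V} {Fs : Finset (Finset V)} {J : Finset V → Finset V}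
  {Ex : V → V → Prop} {F : Finset (Finset V)} {bt be2 : List V} {i : List V} {lv : V}
  {Fn Fm : Finset (Finset V)}

def StageC1_Ex (Ex : V → V → Prop) (lv u : V) (a b : V) : Prop :=
  Ex a b ∨ (a = lv ∧ b = u) ∨ (a = u ∧ b = lv)

theorem StageC1_dow (hc : Ctx G T Fs J) (hS : SC G T Fs J Ex Γ s F) : G.Adj s.d s.l2.ow := by
  have h1 : ∃ p, ({s.l2.ow, s.d, p} : Finset V) ∈ Fs := by
    have h2 := hS.ln2
    cases hbe : s.be with
    | nil =>
      rw [hbe] at h2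
      exact ⟨s.w, (List.isChain_cons_cons.1 h2).1⟩
    | cons p t =>
      rw [hbe] at h2
      exact ⟨p, (List.isChain_cons_cons.1 h2).1⟩
  obtain ⟨p, hp⟩ := h1
  refine hc.adj _ hp s.d (by simp) s.l2.ow (by simp) ?_
  intro h3
  refine (StageC1_N2 hS).1 ?_
  rw [← h3]
  unfold SD.bd
  simp

theorem StageC1_core (hc : Ctx G T Fs J) (hE : ∀ u v, Ex u v → Ex v u)
    (hw : Wd G Γ U) (hD : Adm U D) (hG : SG Γ U D s) (hz : s.zt = true)
    (hS : SC G T Fs J Ex Γ s F) (hb : s.be = bt ++ u :: be2)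
    (h1 : ∀ v ∈ bt, ¬ AdjF F s.z v)
    (hP : StageC1_P U s T₁ T₂ yu yu2 Xu e2)
    (hcb : StageC1_Cb G T Fs J s F bt be2 u i lv Fn Fm)
    (hst : Step G Γ U (StageC1_D0 U s yu yu2 Xu e2) {u}
      (Function.update Γ u (StageC1_C s yu yu2 Xu e2)) (StageC1_U1 U yu Xu)) :
    ∃ Γ₂ U₂ lc' c0' e' lo' s0',
      Step G (Function.update Γ u (StageC1_C s yu yu2 Xu e2)) (StageC1_U1 U yu Xu)
        (coreD (StageC1_U1 U yu Xu) D s.l2.Λ s.Xd s.l2.c0 Xu s.l2.lo s.l2.hi s.l2.s0 s.l2.s1 s.B T₁)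
        (StageC1_Kc J s bt u Fm) Γ₂ U₂ ∧
      LineOK Γ₂ D s.l2.ow s.l2.Λ lv lc' c0' e' Xu lo' s.l2.hi s0' s.l2.s1 ∧ e' < Xu ∧
      (∀ v ∈ StageC1_Kc J s bt u Fm, v ≠ lv → IsPath3 (Γ₂ v)) ∧ Ext s.l2.Λ e' (Γ₂ lv) ∧
      (∀ f ∈ Fm ∪ fanF s.l2.ow (s.d :: bt), Filled G Γ₂ (J f)) ∧
      (∀ f ∈ Fm ∪ fanF s.l2.ow (s.d :: bt), ∀ p ∈ f, ∀ q ∈ f, p ≠ q →
        Rz (StageC1_Ex Ex lv u) Γ₂ p q) := by
  have hQ := StageC1_exQ hw hG hz
  obtain ⟨l₀, l₁, hM⟩ := StageC1_MG (Ex' := StageC1_Ex Ex lv u) hc hw hD hG hz hS hb h1 hP hcb hst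
    (fun a b h => Or.inl h) (Or.inr (Or.inr ⟨rfl, rfl⟩))
  have hFm : Fm ⊆ F := fun f hf => by rw [hcb.hF]; exact Finset.mem_union_right _ hf
  have hdn : ∀ v ∈ rv s.L ++ s.d :: bt, v ≠ u := by
    intro v hv hvu
    exact StageC1_N1 hS hb v hv (by rw [hvu]; simp)
  have hlast : ∀ v, (s.d :: bt).getLast? = some v → v = lv := by
    intro v hv
    rw [hcb.il] at hv
    simpa using hv.symm
  have hf1 : ∀ l x, l ∈ U false → x ∈ StageC1_D0 U s yu yu2 Xu e2 false l → l = s.l2.Λ := by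
    intro l x hl hx
    rcases (StageC1_memD0 hP).1 hx with h3 | ⟨-, h3, -⟩ | ⟨h3, -⟩
    · exact absurd hl h3
    · exact h3
    · exact absurd h3 (by simp)
  have hf2 : ∀ l x, l ∈ U true → x ∈ StageC1_D0 U s yu yu2 Xu e2 true l →
      l = s.Xz ∧ yu < x := by
    intro l x hl hx
    rcases (StageC1_memD0 hP).1 hx with h3 | ⟨h3, -⟩ | ⟨-, h3, h4, -⟩
    · exact absurd hl h3
    · exact absurd h3 (by simp)
    · exact ⟨h3, h4⟩
  have hYΛ : s.Y0 ≠ s.l2.Λ := by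
    have := hQ.q3
    have := hQ.q5
    exact (by linarith : s.l2.Λ < s.Y0).ne'
  have hinf : s.d :: bt ++ [u] <:+: s.d :: s.be ++ [s.w] := by
    refine ⟨[], be2 ++ [s.w], ?_⟩
    rw [hb]
    simp
  have hbd : ∀ v, v ∈ verts (lN [] u s.L s.d bt ++ [s.z]) Fm → v ∈ verts s.bd F := by
    intro v hv
    rcases Finset.mem_union.1 hv with h3 | h3
    · refine DiscA_mem_verts_left ((StageC1_mem_bd hb).2 ?_)
      rcases StageC1_mem_bm.1 (List.mem_toFinset.1 h3) with h4 | h4 | h4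
      · exact Or.inl h4
      · exact Or.inr (by rw [h4]; simp)
      · exact Or.inr (by rw [h4]; simp)
    · obtain ⟨g, hg, hvg⟩ := Finset.mem_biUnion.1 h3
      exact DiscA_mem_verts_right (hFm hg) hvg
  have hfan : ∀ f ∈ fanF s.l2.ow (s.d :: bt), f ∈ fanF s.l2.ow (s.d :: s.be ++ [s.w]) := by
    intro f hf
    rw [hcb.fan]
    exact Finset.mem_union_left _ hf
  have hcore := core hc (Ex := StageC1_Ex Ex lv u) (T₁ := T₁) (T₂ := T₂) (R := Xu) ?_ hM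
      (hD.mono StageC1_sub1) ?_ ?_ ?_ ?_ ?_ ?_ hG.YD ?_ ?_ ?_ ?_ hP.a2
      (StageC1_line hw hG hz hP hst.grow) hG.line2.sB hP.b2 le_rfl ?_ ?_ ?_ ?_ ?_ ?_ ?_ ?_ ?_ ?_
  · obtain ⟨Γ₂, U₂, lv', lc', c0', e', lo', s0', up, r1, r2, r3, r4, r5, r6, r7, r8, -⟩ := hcore
    have hlv := hlast lv' r1
    subst hlv
    exact ⟨Γ₂, U₂, lc', c0', e', lo', s0', r2, r3, r4, r5, r6, r7, r8⟩
  · rintro a b (h3 | ⟨h3, h4⟩ | ⟨h3, h4⟩)
    · exact Or.inl (hE _ _ h3)
    · exact Or.inr (Or.inr ⟨h4, h3⟩)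
    · exact Or.inr (Or.inl ⟨h4, h3⟩)
  · exact fun o l x hx => hx.1
  · rintro x ⟨-, h3 | ⟨-, h3 | h3, -⟩ | ⟨h3, -⟩ | ⟨h3, -⟩⟩
    · exact h3 (StageC1_sub1 _ hQ.m2)
    · exact hQ.q1.ne' h3
    · exact hP.b1.ne h3
    · exact absurd h3 (by simp)
    · exact absurd h3 (by simp)
  · rintro x ⟨-, h3 | ⟨h3, -⟩ | ⟨-, r, hr, h3⟩ | ⟨-, -, h3, -⟩⟩
    · exact absurd (StageC1_sub1 _ hQ.m4) h3
    · exact absurd h3 (by simp)
    · exact absurd h3 (hG.ordL.mem hr).2.2.ne'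
    · exact h3
  · rintro x ⟨-, h3 | ⟨-, -, -, h3⟩ | ⟨h3, -⟩ | ⟨h3, -⟩⟩
    · exact absurd StageC1_XuU h3
    · exact h3
    · exact absurd h3 (by simp)
    · exact absurd h3 (by simp)
  · rintro x ⟨-, h3 | ⟨h3, -⟩ | ⟨-, r, hr, h3⟩ | ⟨-, h3, -⟩⟩
    · exact h3 (StageC1_sub1 _ hQ.m6)
    · exact absurd h3 (by simp)
    · have h4 := hG.ordL.mem hr
      linarith [hQ.q5]
    · exact hYΛ h3.symm
  · rintro o l x ⟨-, h3 | ⟨rfl, -, h3, h4⟩ | ⟨rfl, r, hr, h3⟩ | ⟨rfl, h3, -⟩⟩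
    · exact Or.inl h3
    · exact Or.inr ⟨h3, by linarith [hQ.q9, hP.a1]⟩
    · have h4 := hG.ordL.mem hr
      exact Or.inr ⟨by linarith, by linarith [hQ.q9, hP.a1]⟩
    · exact Or.inr ⟨by linarith [hQ.q3], by linarith [hQ.q9, hP.a1]⟩
  · intro x hx hx' v hv
    rcases hst.grow.new v false s.Y0 x hv with h3 | h3
    · exact hG.row x hx (hx'.trans hP.b3.le) v h3
    · exact hYΛ (hf1 _ _ hQ.m4 h3.2)
  · exact hG.dcol.grow hst.grow (fun x _ _ hx => hQ.q1.ne' (hf2 _ _ hQ.m2 hx).1)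
  · exact (StageC1_wXu hw hD hG hz hP).sub hQ.q5.le (by linarith [hP.a2, hP.a3])
  · linarith [hQ.q9, hP.a1]
  · rw [hst.grow.eq (v := s.d) (fun h => hdn s.d (by simp) h)]
    exact hG.line2.ext
  · exact Chless.infx (Chless.mono hS.chD hFm) hinf
  · have h3 := hS.ln2
    have h4 : s.d :: s.be ++ [s.w] = (s.d :: bt) ++ (u :: be2 ++ [s.w]) := by rw [hb]; simp
    rw [h4] at h3
    exact h3.left_of_append
  · exact Disjoint.mono hFm hfan hS.dj2
  · have h3 := hS.nd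
    have h4 := hcb.regm.disc.nodup
    refine List.nodup_cons.2 ⟨?_, h4⟩
    intro h5
    refine (StageC1_N2 hS).1 ((StageC1_mem_bd hb).2 ?_)
    rcases StageC1_mem_bm.1 h5 with h6 | h6 | h6
    · exact Or.inl h6
    · exact Or.inr (by rw [h6]; simp)
    · exact Or.inr (by rw [h6]; simp)
  · exact StageC1_dow hc hS
  · exact fun h3 => hS.ow2 (hbd _ h3)
  · intro p hp
    refine (hS.und p (Or.inr (Or.inr (Or.inl (by rw [hb]; simp [hp]))))).grow hst.grow ?_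
    exact fun h3 => hdn p (by simp [hp]) h3
  · intro f hf q hq
    have hfs := StageC1_old_sub (lv := lv) hS hcb (Or.inr (Or.inl hf))
    refine (hS.und q (Or.inr (Or.inr (Or.inr ⟨f, ?_, hq⟩)))).grow hst.grow ?_
    · exact Finset.mem_union_right _ (Finset.mem_union_right _ (hfan f hf))
    · intro h3
      rw [Set.mem_singleton_iff.1 h3] at hq
      obtain ⟨g, hg, hvg⟩ := StageC1_inF hcb.regn (by simp; omega)
        (DiscA_mem_verts_left (v := u) (by simp))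
      exact StageC1_nJ hc (hcb.regn.sub hg) hvg hfs hq
  · intro v hv
    exact Or.inr (Or.inl ⟨hlast v hv, rfl⟩)

end run


section join

variable {G : SimpleGraph V} {Γ : Dr V} {U : Bool → Finset ℚ} {D : Cov} {s : SD V}
  {T₁ T₂ yu yu2 Xu e2 : ℚ} {u : V}
  {T : Finset V} {Fs : Finset (Finset V)} {J : Finset V → Finset V}
  {Ex : V → V → Prop} {F : Finset (Finset V)} {bt be2 : List V} {i : List V} {lv : V}
  {Fn Fm : Finset (Finset V)}

/-- where the machine and the join may draw -/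
def StageC1_EB (U : Bool → Finset ℚ) (s : SD V) (yu T₁ Xu lc' s0' y₁ sx : ℚ) : Cov :=
  fun o l => {x | l ∉ StageC1_U1 U yu Xu o ∨ (o = true ∧ ((l = s.Xd ∧ x < s.B) ∨
    (s.B ≤ x ∧ x ≤ T₁) ∨ (l = lc' ∧ s0' < x ∧ x < y₁) ∨ (l = Xu ∧ x < y₁))) ∨
    (o = false ∧ ((l = s.l2.Λ ∧ x < sx) ∨ (s.B ≤ l ∧ l ≤ T₁)))}

/-- result of the machine and the join -/
structure StageC1_R (G : SimpleGraph V) (J : Finset V → Finset V) (Ex : V → V → Prop)
    (Γ : Dr V) (U : Bool → Finset ℚ) (D : Cov) (s : SD V) (T₁ yu yu2 Xu e2 : ℚ) (u : V)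
    (bt : List V) (lv : V) (Fm : Finset (Finset V)) (Γ₄ : Dr V) (U₄ : Bool → Finset ℚ)
    (lc' s0' sx x₁ y₁ : ℚ) : Prop where
  sub : ∀ o, StageC1_U1 U yu Xu o ⊆ U₄ o
  wd : Wd G Γ₄ U₄
  grow : Grow (Function.update Γ u (StageC1_C s yu yu2 Xu e2)) Γ₄
    (D ⊓ StageC1_EB U s yu T₁ Xu lc' s0' y₁ sx)
    {v | v ∈ StageC1_Kc J s bt u Fm ∨ v ∈ J ({s.l2.ow, lv, u} : Finset V)}
  n1 : lc' < Xu
  n2 : Xu < sx
  n3 : sx < e2
  n4 : x₁ < s.l2.hi
  n5 : s.l2.Λ < y₁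
  n6 : y₁ < s.l2.s1
  res : SW Γ₄ D {s.l2.ow} false s.l2.Λ x₁ s.l2.hi
  row : Solo Γ₄ {s.l2.ow, u} false s.l2.Λ sx e2
  str : ∀ v, v ≠ lv → ∀ x, s0' < x → x < y₁ →
    x ∉ Function.update Γ u (StageC1_C s yu yu2 Xu e2) v true lc'
  path : ∀ v ∈ StageC1_Kc J s bt u Fm, IsPath3 (Γ₄ v)
  fill : ∀ f ∈ Fm ∪ fanF s.l2.ow (s.d :: bt), Filled G Γ₄ (J f)
  real : ∀ f ∈ Fm ∪ fanF s.l2.ow (s.d :: bt), ∀ p ∈ f, ∀ q ∈ f, p ≠ q → Rz Ex Γ₄ p q
  fill0 : Filled G Γ₄ (J ({s.l2.ow, lv, u} : Finset V))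
  ov1 : Ov Γ₄ lv u
  ov2 : Ov Γ₄ s.l2.ow lv
  ov3 : Ov Γ₄ s.l2.ow u

theorem StageC1_run (hc : Ctx G T Fs J) (hE : ∀ u v, Ex u v → Ex v u)
    (hw : Wd G Γ U) (hD : Adm U D) (hG : SG Γ U D s) (hz : s.zt = true)
    (hS : SC G T Fs J Ex Γ s F) (hb : s.be = bt ++ u :: be2)
    (h1 : ∀ v ∈ bt, ¬ AdjF F s.z v)
    (hP : StageC1_P U s T₁ T₂ yu yu2 Xu e2)
    (hcb : StageC1_Cb G T Fs J s F bt be2 u i lv Fn Fm)
    (hst : Step G Γ U (StageC1_D0 U s yu yu2 Xu e2) {u}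
      (Function.update Γ u (StageC1_C s yu yu2 Xu e2)) (StageC1_U1 U yu Xu)) :
    ∃ Γ₄ U₄ lc' s0' sx x₁ y₁, StageC1_R G J Ex Γ U D s T₁ yu yu2 Xu e2 u bt lv Fm Γ₄ U₄
      lc' s0' sx x₁ y₁ := by
  have hQ := StageC1_exQ hw hG hz
  obtain ⟨Γ₂, U₂, lc', c0', e', lo', s0', r1, r2, r3, r4, r5, r6, r7⟩ :=
    StageC1_core hc hE hw hD hG hz hS hb h1 hP hcb hst
  have hf0 : ({s.l2.ow, lv, u} : Finset V) ∈ Fs :=
    StageC1_old_sub hS hcb (Or.inr (Or.inr rfl))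
  have hf0F : ({s.l2.ow, lv, u} : Finset V) ∈ s.fc F := by
    refine Finset.mem_union_right _ (Finset.mem_union_right _ ?_)
    rw [hcb.fan]
    exact Finset.mem_union_right _ (Finset.mem_insert_self _ _)
  have hfe : ({lv, u, s.l2.ow} : Finset V) = {s.l2.ow, lv, u} := by
    ext a
    simp only [Finset.mem_insert, Finset.mem_singleton]
    tauto
  have hlv : lv ∈ s.d :: bt := by rw [hcb.il]; simp
  have hlvKc : lv ∈ StageC1_Kc J s bt u Fm := Or.inr (Or.inl hlv)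
  have hlvu : lv ≠ u := by
    intro h
    exact StageC1_N1 hS hb lv (List.mem_append_right _ hlv) (by rw [h]; simp)
  have hlvo : lv ≠ s.l2.ow := by
    intro h
    exact (StageC1_N2 hS).1 (h ▸ (StageC1_mem_bd hb).2 (Or.inl (List.mem_append_right _ hlv)))
  have hJ0 : ∀ p ∈ J ({s.l2.ow, lv, u} : Finset V), ∀ q ∈ ({s.l2.ow, lv, u} : Finset V),
      p ≠ q := by
    rintro p hp q hq rfl
    exact Finset.disjoint_left.1 (hc.sep _ hf0 _ hf0) hp hq
  have hm1 := r2.h1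
  have hm2 := r2.h2
  have hm3 := r2.h3
  have hm4 := r2.h4
  have hm6 := r2.h6
  have hm7 := r2.h7
  have hhi : s.l2.hi ≤ s.Xd := by
    rw [← hG.lc2]
    exact hG.line2.ok.h2
  -- the set of the machine
  have hco : coreD (StageC1_U1 U yu Xu) D s.l2.Λ s.Xd s.l2.c0 Xu s.l2.lo s.l2.hi s.l2.s0 s.l2.s1
      s.B T₁ ≤ D := inf_le_left
  have hnU : ∀ {o : Bool} {l : ℚ}, l ∉ StageC1_U1 U yu Xu o → l ∉ U o :=
    fun h h' => h (StageC1_sub1 _ h')
  have hcoA : ∀ x, x < s.B → x ∉ coreD (StageC1_U1 U yu Xu) D s.l2.Λ s.Xd s.l2.c0 Xu s.l2.lo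
      s.l2.hi s.l2.s0 s.l2.s1 s.B T₁ true Xu := by
    rintro x hx ⟨-, (((h2 | ⟨h2, -⟩) | ⟨h2, -⟩) | ⟨-, h2, -⟩) | h2⟩
    · exact h2 StageC1_XuU
    · exact absurd h2 (by simp)
    · exact absurd h2 (by simp)
    · exact hP.b1.ne' h2
    · have h3 : s.B ≤ x := h2.1
      exact absurd hx (not_lt.2 h3)
  have hcoB : ∀ x, Xu < x → x ∉ coreD (StageC1_U1 U yu Xu) D s.l2.Λ s.Xd s.l2.c0 Xu s.l2.lo
      s.l2.hi s.l2.s0 s.l2.s1 s.B T₁ false s.l2.Λ := by
    rintro x hx ⟨-, (((h2 | ⟨-, -, -, h2⟩) | ⟨-, -, -, h2⟩) | ⟨h2, -⟩) | h2⟩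
    · exact h2 (StageC1_sub1 _ hQ.m6)
    · rw [max_eq_right hG.line2.ok.h1.le] at h2
      linarith [hP.b1]
    · rw [max_eq_right (by linarith [hG.line2.ok.h4, hP.b2])] at h2
      exact absurd hx (not_lt.2 h2.le)
    · exact absurd h2 (by simp)
    · have h3 : s.B ≤ s.l2.Λ := h2.1
      exact absurd hQ.q5 (not_lt.2 h3)
  obtain ⟨c2, hc1, hc2⟩ := exists_between hm4
  have hj : LineOK Γ₂ D s.l2.ow s.l2.Λ lv lc' c2 e' Xu lo' s.l2.hi s0' s.l2.s1 :=
    ⟨hm1, hm2, hm3.trans hc1.le, hc2, r3, hm6, hm7, r2.zone.sub hc1.le le_rfl, r2.free, r2.res,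
      r2.strip⟩
  have hjoin := LineOK.join (w := u) (Rw := Xu) (m := Xu) (nr := e2)
    (J := J ({s.l2.ow, lv, u} : Finset V)) r1.wd hj
    (hc.adj _ hf0 lv (by simp) u (by simp) hlvu) (hc.adj _ hf0 lv (by simp) s.l2.ow (by simp) hlvo)
    r3 le_rfl le_rfl hP.c1 ?_ ?_ ?_ ?_
  · obtain ⟨Γ₄, U₄, sx, x₁, y₁, n1, n2, n3, n4, n5, n6, p1, p2, p3, p4, p5⟩ := hjoin
    -- the set of the join
    have hjD : lineD U₂ s.l2.Λ lc' c2 sx lo' x₁ s0' y₁ ⊔ seg true Xu s0' y₁ ≤ D := by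
      rintro o l x ((((h2 | h2) | h2) | h2) | ⟨rfl, rfl, -⟩)
      · exact hD o l (fun h => h2 (r1.sub o (StageC1_sub1 o h)))
      · obtain ⟨rfl, rfl, h3, h4⟩ := (LineB_mem n3.le).1 h2
        exact (r2.res x h3 (h4.trans n4)).1
      · obtain ⟨rfl, rfl, h2, h3⟩ := (LineB_mem (by linarith : c2 ≤ sx)).1 h2
        rcases lt_or_ge x e' with h4 | h4
        · exact (r2.zone x (hc1.trans h2) h4).1
        · rcases le_or_gt x Xu with h5 | h5
          · exact (r2.free x h4 h5).1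
          · refine (hG.line2.ok.free x ?_ ?_).1
            · linarith [hP.b2]
            · linarith [hP.c2, hQ.q12]
      · obtain ⟨rfl, rfl, h3, h4⟩ := (LineB_mem n5.le).1 h2
        exact (r2.strip x h3 (h4.trans n6)).1
      · exact hD _ _ hP.n2
    have hjE : lineD U₂ s.l2.Λ lc' c2 sx lo' x₁ s0' y₁ ⊔ seg true Xu s0' y₁ ≤
        StageC1_EB U s yu T₁ Xu lc' s0' y₁ sx := by
      rintro o l x ((((h2 | h2) | h2) | h2) | h2)
      · exact Or.inl (fun h => h2 (r1.sub o h))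
      · obtain ⟨rfl, rfl, h3, h4⟩ := (LineB_mem n3.le).1 h2
        exact Or.inr (Or.inr ⟨rfl, Or.inl ⟨rfl, by linarith [hP.b1]⟩⟩)
      · obtain ⟨rfl, rfl, h2, h3⟩ := (LineB_mem (by linarith : c2 ≤ sx)).1 h2
        exact Or.inr (Or.inr ⟨rfl, Or.inl ⟨rfl, h3⟩⟩)
      · obtain ⟨rfl, rfl, h3, h4⟩ := (LineB_mem n5.le).1 h2
        exact Or.inr (Or.inl ⟨rfl, Or.inr (Or.inr (Or.inl ⟨rfl, h3, h4⟩))⟩)
      · obtain ⟨rfl, rfl, h3, h4⟩ := (LineB_mem n5.le).1 h2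
        exact Or.inr (Or.inl ⟨rfl, Or.inr (Or.inr (Or.inr ⟨rfl, h4⟩))⟩)
    have hcE : coreD (StageC1_U1 U yu Xu) D s.l2.Λ s.Xd s.l2.c0 Xu s.l2.lo s.l2.hi s.l2.s0
        s.l2.s1 s.B T₁ ≤ StageC1_EB U s yu T₁ Xu lc' s0' y₁ sx := by
      rintro o l x ⟨-, (((h2 | h2) | h2) | h2) | h2⟩
      · exact Or.inl h2
      · obtain ⟨rfl, rfl, h3, h4⟩ := (LineB_mem hG.line2.ok.h1.le).1 h2
        exact Or.inr (Or.inr ⟨rfl, Or.inl ⟨rfl, by linarith [hP.b1]⟩⟩)
      · obtain ⟨rfl, rfl, h2, h3⟩ := (LineB_mem (by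
          linarith [hG.line2.ok.h4, hP.b2] : s.l2.c0 ≤ Xu)).1 h2
        exact Or.inr (Or.inr ⟨rfl, Or.inl ⟨rfl, by linarith⟩⟩)
      · obtain ⟨rfl, rfl, h3, h4⟩ := (LineB_mem hG.line2.ok.h7.le).1 h2
        exact Or.inr (Or.inl ⟨rfl, Or.inl ⟨rfl, by linarith [hQ.q7]⟩⟩)
      · cases o with
        | false => exact Or.inr (Or.inr ⟨rfl, Or.inr h2⟩)
        | true => exact Or.inr (Or.inl ⟨rfl, Or.inr (Or.inl h2)⟩)
    have hlvJ : ∀ f ∈ Fs, lv ∉ J f := fun f hf => StageC1_nJ hc hf0 (by simp) hf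
    have hjK : ∀ f ∈ Fm ∪ fanF s.l2.ow (s.d :: bt), ∀ v ∈ J f,
        v ∉ {p | p = lv ∨ p ∈ J ({s.l2.ow, lv, u} : Finset V)} := by
      rintro f hf v hv (h3 | h3)
      · rw [h3] at hv
        refine hlvJ f (StageC1_old_sub (lv := lv) hS hcb ?_) hv
        rcases Finset.mem_union.1 hf with h4 | h4
        · exact Or.inl h4
        · exact Or.inr (Or.inl h4)
      · refine (StageC1_d2 hc hS hb hcb h3).2 ?_
        rcases Finset.mem_union.1 hf with h4 | h4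
        · exact Or.inl (Or.inl (Or.inr ⟨f, h4, hv⟩))
        · exact Or.inr (Or.inr ⟨f, h4, hv⟩)
    refine ⟨Γ₄, U₄, lc', s0', sx, x₁, y₁, ?_, p1.wd, ?_, ?_, n1, n2, n4, ?_, n6, ?_, p5, ?_, ?_,
      ?_, ?_, p3, p4, ?_, ?_⟩
    · exact fun o x hx => p1.sub o (r1.sub o hx)
    · refine (r1.grow.weaken (le_inf hco hcE) (fun v hv => Or.inl hv)).trans
        (p1.grow.weaken (le_inf hjD hjE) ?_)
      rintro v (h3 | h3)
      · rw [h3]
        exact Or.inl hlvKc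
      · exact Or.inr h3
    · linarith
    · linarith
    · refine (r2.res.sub n3.le le_rfl).grow p1.grow ?_
      rintro x ha hb' ((((h2 | ⟨-, -, -, h2⟩) | ⟨-, -, h2, -⟩) | ⟨h2, -⟩) | ⟨h2, -⟩)
      · exact h2 (r1.sub _ (StageC1_sub1 _ hQ.m6))
      · rw [max_eq_right n3.le] at h2
        exact absurd ha (not_lt.2 h2.le)
      · rw [min_eq_left (by linarith : c2 ≤ sx)] at h2
        linarith
      · exact absurd h2 (by simp)
      · exact absurd h2 (by simp)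
    · intro v hv x ha hb' hx
      exact hv (((r2.strip x ha (hb'.trans n6)).2 v).1 (r1.grow.mono _ _ _ _ hx))
    · intro v hv
      by_cases hvl : v = lv
      · rw [hvl, p2]
        exact (Ext.extend r5 (by linarith)).path
      · rw [p1.grow.eq (v := v)]
        · exact r4 v hv hvl
        · rintro (h3 | h3)
          · exact hvl h3
          · exact (StageC1_d2 hc hS hb hcb h3).2 hv
    · intro f hf
      exact Filled.mono p1.grow (r6 f hf) (hjK f hf)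
    · intro f hf p hp q hq hpq
      rcases r7 f hf p hp q hq hpq with (h3 | ⟨h3, h4⟩ | ⟨h3, h4⟩) | h3
      · exact Or.inl h3
      · rw [h3, h4]
        exact Or.inr p4
      · rw [h3, h4]
        exact Or.inr p4.symm
      · exact Or.inr (Ov.mono p1.grow h3)
    · obtain ⟨x, ha, hb'⟩ := exists_between hc2
      have h3 := (r2.zone x (hc1.trans ha) hb').2
      exact Ov.mono p1.grow ⟨false, s.l2.Λ, x, (h3 s.l2.ow).2 (Or.inl rfl), (h3 lv).2 (Or.inr rfl)⟩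
    · obtain ⟨x, ha, hb'⟩ := exists_between n2
      exact ⟨false, s.l2.Λ, x, (p5 x ha hb' s.l2.ow).2 (Or.inl rfl),
        (p5 x ha hb' u).2 (Or.inr rfl)⟩
  · have h3 := ((StageC1_wXu (u := u) hw hD hG hz hP).sub hm6
      (by linarith [hQ.q7, hQ.q3, hQ.q9, hP.a1, hP.a2, hP.a3] : s.l2.s1 ≤ yu)).solo
    exact h3.grow r1.grow (fun x _ hb' => hcoA x (by linarith [hQ.q7]))
  · exact (StageC1_wst hw hG hz hP).solo.grow r1.grow (fun x ha _ => hcoB x ha)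
  · intro p hp
    refine ⟨?_, hJ0 p hp lv (by simp), hJ0 p hp u (by simp), hJ0 p hp s.l2.ow (by simp)⟩
    refine ((hS.und p (Or.inr (Or.inr (Or.inr ⟨_, hf0F, hp⟩)))).grow hst.grow ?_).grow r1.grow
      (StageC1_d2 hc hS hb hcb hp).2
    exact fun h => hJ0 p hp u (by simp) h
  · rw [hfe]
    exact hc.fill _ hf0

end join


section fin

variable {G : SimpleGraph V} {Γ : Dr V} {U : Bool → Finset ℚ} {D : Cov} {s : SD V}
  {T₁ T₂ yu yu2 Xu e2 : ℚ} {u : V}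
  {T : Finset V} {Fs : Finset (Finset V)} {J : Finset V → Finset V}
  {Ex : V → V → Prop} {F : Finset (Finset V)} {bt be2 : List V} {i : List V} {lv : V}
  {Fn Fm : Finset (Finset V)} {Γ₄ : Dr V} {U₄ : Bool → Finset ℚ} {lc' s0' sx x₁ y₁ A' : ℚ}

theorem StageC1_faces (hcb : StageC1_Cb G T Fs J s F bt be2 u i lv Fn Fm) {f : Finset V}
    (hf : f ∈ s.fc F) :
    f ∈ Fn ∪ (fanF s.l1.ow (s.z :: s.al ++ [s.w]) ∪ fanF s.l2.ow (u :: be2 ++ [s.w])) ∨
    f ∈ Fm ∪ fanF s.l2.ow (s.d :: bt) ∨ f = {s.l2.ow, lv, u} := by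
  have hf' : f ∈ F ∪ (fanF s.l1.ow (s.z :: s.al ++ [s.w]) ∪
    fanF s.l2.ow (s.d :: s.be ++ [s.w])) := hf
  rw [hcb.fan, hcb.hF] at hf'
  simp only [Finset.mem_union, Finset.mem_insert] at hf' ⊢
  tauto

theorem StageC1_Kcov (hb : s.be = bt ++ u :: be2)
    (hcb : StageC1_Cb G T Fs J s F bt be2 u i lv Fn Fm) {v : V} (hv : v ∈ s.K J F) :
    v ∈ StageC1_Kn J s be2 u Fn ∨ v ∈ StageC1_Kc J s bt u Fm ∨
      v ∈ J ({s.l2.ow, lv, u} : Finset V) := by
  rcases hv with ⟨h1, h2⟩ | h1 | h1 | h1 | h1 | h1 | ⟨f, hf, hvf⟩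
  · rcases StageC1_inner_cases hb hcb h1 h2 with h3 | h3
    · exact Or.inl (Or.inl h3)
    · exact Or.inr (Or.inl (Or.inl (Or.inl (Or.inl h3))))
  · exact Or.inr (Or.inl (Or.inl (Or.inr (Or.inr h1))))
  · exact Or.inl (Or.inr (Or.inr (Or.inl h1)))
  · exact Or.inr (Or.inl (Or.inr (Or.inl (by rw [h1]; simp))))
  · exact Or.inl (Or.inr (Or.inr (Or.inr (Or.inr (Or.inl h1)))))
  · rw [hb] at h1
    rcases List.mem_append.1 h1 with h2 | h2
    · exact Or.inr (Or.inl (Or.inr (Or.inl (List.mem_cons_of_mem _ h2))))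
    · rcases List.mem_cons.1 h2 with h3 | h3
      · exact Or.inl (Or.inr (Or.inr (Or.inr (Or.inl h3))))
      · exact Or.inl (Or.inr (Or.inr (Or.inr (Or.inr (Or.inr (Or.inl h3))))))
  · rcases StageC1_faces hcb hf with h3 | h3 | h3
    · exact Or.inl (Or.inr (Or.inr (Or.inr (Or.inr (Or.inr (Or.inr ⟨f, h3, hvf⟩))))))
    · rcases Finset.mem_union.1 h3 with h4 | h4
      · exact Or.inr (Or.inl (Or.inl (Or.inl (Or.inr ⟨f, h4, hvf⟩))))
      · exact Or.inr (Or.inl (Or.inr (Or.inr ⟨f, h4, hvf⟩)))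
    · rw [h3] at hvf
      exact Or.inr (Or.inr hvf)

theorem StageC1_fc1 (hcb : StageC1_Cb G T Fs J s F bt be2 u i lv Fn Fm) {f : Finset V}
    (hf : f ∈ Fn ∪ (fanF s.l1.ow (s.z :: s.al ++ [s.w]) ∪ fanF s.l2.ow (u :: be2 ++ [s.w]))) :
    f ∈ s.fc F := by
  show f ∈ F ∪ (fanF s.l1.ow (s.z :: s.al ++ [s.w]) ∪ fanF s.l2.ow (s.d :: s.be ++ [s.w]))
  rw [hcb.fan, hcb.hF]
  simp only [Finset.mem_union, Finset.mem_insert] at hf ⊢
  tauto

theorem StageC1_fc2 (hcb : StageC1_Cb G T Fs J s F bt be2 u i lv Fn Fm) {f : Finset V}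
    (hf : f ∈ Fm ∪ fanF s.l2.ow (s.d :: bt) ∨ f = {s.l2.ow, lv, u}) :
    f ∈ s.fc F := by
  show f ∈ F ∪ (fanF s.l1.ow (s.z :: s.al ++ [s.w]) ∪ fanF s.l2.ow (s.d :: s.be ++ [s.w]))
  rw [hcb.fan, hcb.hF]
  simp only [Finset.mem_union, Finset.mem_insert] at hf ⊢
  tauto

theorem StageC1_subn (hb : s.be = bt ++ u :: be2)
    (hcb : StageC1_Cb G T Fs J s F bt be2 u i lv Fn Fm) {v : V}
    (hv : v ∈ StageC1_Kn J s be2 u Fn) : v ∈ s.K J F := by
  rcases hv with ⟨h1, h2⟩ | h1 | h1 | h1 | h1 | h1 | ⟨f, hf, hvf⟩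
  · exact Or.inl (StageC1_inn hb hcb h1 h2)
  · simp [rv] at h1
  · exact Or.inr (Or.inr (Or.inl h1))
  · exact Or.inr (Or.inr (Or.inr (Or.inr (Or.inr (Or.inl (by rw [hb, h1]; simp))))))
  · exact Or.inr (Or.inr (Or.inr (Or.inr (Or.inl h1))))
  · exact Or.inr (Or.inr (Or.inr (Or.inr (Or.inr (Or.inl (by rw [hb]; simp [h1]))))))
  · exact Or.inr (Or.inr (Or.inr (Or.inr (Or.inr (Or.inr ⟨f, StageC1_fc1 hcb hf, hvf⟩)))))

theorem StageC1_subc (hb : s.be = bt ++ u :: be2)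
    (hcb : StageC1_Cb G T Fs J s F bt be2 u i lv Fn Fm) {v : V}
    (hv : v ∈ StageC1_Kc J s bt u Fm ∨ v ∈ J ({s.l2.ow, lv, u} : Finset V)) : v ∈ s.K J F := by
  rcases hv with hv | hv
  · rcases StageC1_Kc_cases hv with (⟨h1, h2⟩ | h1) | ⟨f, hf, hvf⟩
    · exact Or.inl (StageC1_inm hb hcb h1 h2)
    · rcases List.mem_append.1 h1 with h2 | h2
      · exact Or.inr (Or.inl h2)
      · rcases List.mem_cons.1 h2 with h3 | h3
        · exact Or.inr (Or.inr (Or.inr (Or.inl h3)))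
        · exact Or.inr (Or.inr (Or.inr (Or.inr (Or.inr (Or.inl (by rw [hb]; simp [h3]))))))
    · exact Or.inr (Or.inr (Or.inr (Or.inr (Or.inr (Or.inr
        ⟨f, StageC1_fc2 hcb (Or.inl (Finset.mem_union.2 hf)), hvf⟩)))))
  · exact Or.inr (Or.inr (Or.inr (Or.inr (Or.inr (Or.inr
      ⟨_, StageC1_fc2 hcb (Or.inr rfl), hv⟩)))))

theorem StageC1_D0le (hD : Adm U D) (hG : SG Γ U D s) (hz : s.zt = true)
    (hw : Wd G Γ U) (hP : StageC1_P U s T₁ T₂ yu yu2 Xu e2) :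
    StageC1_D0 U s yu yu2 Xu e2 ≤ D := by
  have hQ := StageC1_exQ hw hG hz
  intro o l x hx
  rcases (StageC1_memD0 hP).1 hx with h1 | ⟨rfl, rfl, h2, h3⟩ | ⟨rfl, rfl, h2, h3⟩
  · exact hD o l h1
  · exact (hG.line2.ok.free x (by linarith [hP.b2]) (by linarith [hP.c2, hQ.q12])).1
  · obtain ⟨z1, z2, z3, z4⟩ := hG.ztop hz
    exact (z4 x (by linarith [hP.a1, hP.a2, hP.a3]) (by linarith [hP.a5])).1

/-- the transfer of the result -/
theorem StageC1_done (hc : Ctx G T Fs J)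
    (hw : Wd G Γ U) (hD : Adm U D) (hG : SG Γ U D s) (hz : s.zt = true)
    (hS : SC G T Fs J Ex Γ s F) (hb : s.be = bt ++ u :: be2)
    (hP : StageC1_P U s T₁ T₂ yu yu2 Xu e2)
    (hcb : StageC1_Cb G T Fs J s F bt be2 u i lv Fn Fm)
    (hst : Step G Γ U (StageC1_D0 U s yu yu2 Xu e2) {u}
      (Function.update Γ u (StageC1_C s yu yu2 Xu e2)) (StageC1_U1 U yu Xu))
    (hR : StageC1_R G J Ex Γ U D s T₁ yu yu2 Xu e2 u bt lv Fm Γ₄ U₄ lc' s0' sx x₁ y₁)
    (hd : SDone G J Ex Γ₄ U₄ D (StageC1_s' s be2 u T₁ yu yu2 Xu A' sx e2 x₁ y₁) Fn) :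
    SDone G J Ex Γ U D s F := by
  obtain ⟨Γ', U', t1, t2, t3, t4⟩ := hd
  have t1' : Step G Γ₄ U₄ D (StageC1_Kn J s be2 u Fn) Γ' U' := t1
  have t2' : ∀ v ∈ StageC1_Kn J s be2 u Fn, IsPath3 (Γ' v) := t2
  have hJd : ∀ f ∈ Fm ∪ fanF s.l2.ow (s.d :: bt), ∀ v ∈ J f, v ∉ StageC1_Kn J s be2 u Fn := by
    intro f hf v hv
    refine StageC1_d1 hc hS hb hcb ?_
    rcases Finset.mem_union.1 hf with h4 | h4
    · exact Or.inl (Or.inl (Or.inr ⟨f, h4, hv⟩))
    · exact Or.inr (Or.inr ⟨f, h4, hv⟩)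
  have hJ0 : ∀ v ∈ J ({s.l2.ow, lv, u} : Finset V), v ∉ StageC1_Kn J s be2 u Fn :=
    fun v hv => (StageC1_d2 hc hS hb hcb hv).1
  refine ⟨Γ', U', ?_, ?_, ?_, ?_⟩
  · refine (hst.weaken (StageC1_D0le hD hG hz hw hP) ?_).trans (Step.trans (Γ₁ := Γ₄) (U₁ := U₄)
      ⟨hR.sub, hR.wd, hR.grow.weaken inf_le_left ?_⟩ (t1'.weaken le_rfl ?_))
    · rintro v hv
      rw [Set.mem_singleton_iff.1 hv]
      exact Or.inr (Or.inr (Or.inr (Or.inr (Or.inr (Or.inl (by rw [hb]; simp))))))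
    · exact fun v hv => StageC1_subc hb hcb hv
    · exact fun v hv => StageC1_subn hb hcb hv
  · intro v hv
    rcases StageC1_Kcov hb hcb hv with h1 | h1 | h1
    · exact t2' v h1
    · rw [t1'.grow.eq (StageC1_d1 hc hS hb hcb h1)]
      exact hR.path v h1
    · rw [t1'.grow.eq (hJ0 v h1)]
      exact (hR.fill0 v h1).1
  · intro f hf
    rcases StageC1_faces hcb hf with h1 | h1 | h1
    · exact t3 f h1
    · exact Filled.mono t1'.grow (hR.fill f h1) (hJd f h1)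
    · rw [h1]
      exact Filled.mono t1'.grow hR.fill0 hJ0
  · intro f hf p hp q hq hpq
    rcases StageC1_faces hcb hf with h1 | h1 | h1
    · exact t4 f h1 p hp q hq hpq
    · exact Rz.mono t1'.grow (hR.real f h1 p hp q hq hpq)
    · rw [h1] at hp hq
      refine Rz.mono t1'.grow (Or.inr ?_)
      simp only [Finset.mem_insert, Finset.mem_singleton] at hp hq
      rcases hp with rfl | rfl | rfl <;> rcases hq with rfl | rfl | rfl
      · exact absurd rfl hpq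
      · exact hR.ov2
      · exact hR.ov3
      · exact hR.ov2.symm
      · exact absurd rfl hpq
      · exact hR.ov1
      · exact hR.ov3.symm
      · exact hR.ov1.symm
      · exact absurd rfl hpq

end fin


section newst

variable {G : SimpleGraph V} {Γ : Dr V} {U : Bool → Finset ℚ} {D : Cov} {s : SD V}
  {T₁ T₂ yu yu2 Xu e2 : ℚ} {u : V}
  {T : Finset V} {Fs : Finset (Finset V)} {J : Finset V → Finset V}
  {Ex : V → V → Prop} {F : Finset (Finset V)} {bt be2 : List V} {i : List V} {lv : V}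
  {Fn Fm : Finset (Finset V)} {Γ₄ : Dr V} {U₄ : Bool → Finset ℚ} {lc' s0' sx x₁ y₁ A' : ℚ}

theorem StageC1_SC (hc : Ctx G T Fs J)
    (hw : Wd G Γ U) (hG : SG Γ U D s) (hz : s.zt = true)
    (hS : SC G T Fs J Ex Γ s F) (hb : s.be = bt ++ u :: be2)
    (hP : StageC1_P U s T₁ T₂ yu yu2 Xu e2)
    (hcb : StageC1_Cb G T Fs J s F bt be2 u i lv Fn Fm)
    (hst : Step G Γ U (StageC1_D0 U s yu yu2 Xu e2) {u}
      (Function.update Γ u (StageC1_C s yu yu2 Xu e2)) (StageC1_U1 U yu Xu))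
    (hR : StageC1_R G J Ex Γ U D s T₁ yu yu2 Xu e2 u bt lv Fm Γ₄ U₄ lc' s0' sx x₁ y₁) :
    SC G T Fs J Ex Γ₄ (StageC1_s' s be2 u T₁ yu yu2 Xu A' sx e2 x₁ y₁) Fn := by
  have hFn : Fn ⊆ F := fun f hf => by rw [hcb.hF]; exact Finset.mem_union_left _ hf
  have hzu : s.z ≠ u := by
    have h3 := hcb.regn.disc.nodup
    intro h4
    exact (List.nodup_cons.1 h3).1 (by rw [← h4]; simp)
  have hlist : s.d :: s.be ++ [s.w] = (s.d :: bt) ++ (u :: be2 ++ [s.w]) := by rw [hb]; simp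
  have hfan : ∀ f ∈ fanF s.l2.ow (u :: be2 ++ [s.w]), f ∈ fanF s.l2.ow (s.d :: s.be ++ [s.w]) := by
    intro f hf
    rw [hcb.fan]
    exact Finset.mem_union_right _ (Finset.mem_insert_of_mem hf)
  have hsl : (u :: be2 ++ [s.w] ++ s.al.reverse ++ [s.z]).Sublist s.bd := by
    have e : s.bd = (rv s.L ++ s.d :: bt) ++ (u :: be2 ++ [s.w] ++ s.al.reverse ++ [s.z]) := by
      unfold SD.bd
      rw [hb]
      simp
    rw [e]
    exact List.sublist_append_right _ _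
  have hvb : ∀ v, v ∈ verts (u :: be2 ++ [s.w] ++ s.al.reverse ++ [s.z]) Fn →
      v ∈ verts s.bd F := by
    intro v hv
    rcases Finset.mem_union.1 hv with h3 | h3
    · exact DiscA_mem_verts_left (hsl.subset (List.mem_toFinset.1 h3))
    · obtain ⟨g, hg, hvg⟩ := Finset.mem_biUnion.1 h3
      exact DiscA_mem_verts_right (hFn hg) hvg
  have hnd : (s.l1.ow :: s.l2.ow :: (u :: be2 ++ [s.w] ++ s.al.reverse ++ [s.z])).Nodup :=
    hS.nd.sublist ((hsl.cons₂ _).cons₂ _)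
  have hnd2 : (u :: be2 ++ [s.w] ++ s.al.reverse ++ [s.z]).Nodup :=
    (List.nodup_cons.1 (List.nodup_cons.1 hnd).2).2
  have hFs : Fn ⊆ Fs := hcb.regn.sub
  refine
    { reg := hcb.regn
      chB := ?_
      chA := Chless.mono hS.chA hFn
      chD := ?_
      z1 := ?_
      z2 := ?_
      zb := ?_
      ln1 := hS.ln1
      ln2 := ?_
      dj1 := Disjoint.mono_left hFn hS.dj1
      dj2 := Disjoint.mono hFn hfan hS.dj2
      dj3 := Disjoint.mono_right hfan hS.dj3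
      nd := hnd
      ow1 := fun h => hS.ow1 (hvb _ h)
      ow2 := fun h => hS.ow2 (hvb _ h)
      und := ?_
      rL := List.isChain_singleton _
      rz2 := Or.inr (Ov.mono hR.grow (StageC1_ovz hw hG hz hP hzu))
      lk := fun _ h => absurd rfl h }
  · intro p a b q c r hl
    have := congrArg List.length hl
    simp only [StageC1_s', rv, List.map_nil, List.nil_append, List.length_cons, List.length_append,
      List.length_nil] at this
    omega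
  · refine Chless.infx (Chless.mono hS.chD hFn) ⟨s.d :: bt, [], ?_⟩
    show s.d :: bt ++ (u :: be2 ++ [s.w]) ++ [] = _
    rw [hlist, List.append_nil]
  · intro v hv
    exact absurd hv (by simp [StageC1_s', rv])
  · intro c _ _ _ v hv
    exact absurd hv (by simp [StageC1_s', rv])
  · intro h
    exact absurd h (by simp [StageC1_s'])
  · have h3 := hS.ln2
    rw [hlist] at h3
    exact h3.right_of_append
  · intro v hv
    have hv' : (v ∈ verts (u :: be2 ++ [s.w] ++ s.al.reverse ++ [s.z]) Fn ∧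
        v ∉ u :: be2 ++ [s.w] ++ s.al.reverse ++ [s.z]) ∨ v ∈ s.al ∨ v ∈ be2 ∨
        (∃ f ∈ Fn ∪ (fanF s.l1.ow (s.z :: s.al ++ [s.w]) ∪ fanF s.l2.ow (u :: be2 ++ [s.w])),
          v ∈ J f) := hv
    have hKn : v ∈ StageC1_Kn J s be2 u Fn := by
      rcases hv' with h | h | h | h
      · exact Or.inl h
      · exact Or.inr (Or.inr (Or.inr (Or.inr (Or.inl h))))
      · exact Or.inr (Or.inr (Or.inr (Or.inr (Or.inr (Or.inl h)))))
      · exact Or.inr (Or.inr (Or.inr (Or.inr (Or.inr (Or.inr h)))))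
    have hvu : v ≠ u := by
      intro h4
      rw [h4] at hv'
      rcases hv' with h | h | h | ⟨f, hf, h⟩
      · exact h.2 (by simp)
      · exact (List.nodup_cons.1 hnd2).1 (by simp [h])
      · exact (List.nodup_cons.1 hnd2).1 (by simp [h])
      · obtain ⟨g, hg, hvg⟩ := StageC1_inF hcb.regn (by simp; omega)
          (DiscA_mem_verts_left (v := u) (by simp))
        exact StageC1_nJ hc (hFs hg) hvg (StageC1_new_sub hS hb hcb hf) h
    have hu1 : Undrawn Γ v := by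
      refine hS.und v ?_
      rcases hv' with h | h | h | ⟨f, hf, h⟩
      · exact Or.inl (StageC1_inn hb hcb h.1 h.2)
      · exact Or.inr (Or.inl h)
      · exact Or.inr (Or.inr (Or.inl (by rw [hb]; simp [h])))
      · exact Or.inr (Or.inr (Or.inr ⟨f, StageC1_fc1 hcb hf, h⟩))
    refine (hu1.grow hst.grow hvu).grow hR.grow ?_
    rintro (h | h)
    · exact StageC1_d1 hc hS hb hcb h hKn
    · exact (StageC1_d2 hc hS hb hcb h).1 hKn

theorem StageC1_SG (hc : Ctx G T Fs J)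
    (hw : Wd G Γ U) (hD : Adm U D) (hG : SG Γ U D s) (hz : s.zt = true)
    (hS : SC G T Fs J Ex Γ s F) (hb : s.be = bt ++ u :: be2)
    (hP : StageC1_P U s T₁ T₂ yu yu2 Xu e2)
    (hcb : StageC1_Cb G T Fs J s F bt be2 u i lv Fn Fm)
    (hst : Step G Γ U (StageC1_D0 U s yu yu2 Xu e2) {u}
      (Function.update Γ u (StageC1_C s yu yu2 Xu e2)) (StageC1_U1 U yu Xu))
    (hR : StageC1_R G J Ex Γ U D s T₁ yu yu2 Xu e2 u bt lv Fm Γ₄ U₄ lc' s0' sx x₁ y₁)
    (hA1 : s.Xz < A') (hA2 : A' < Xu) :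
    SG Γ₄ U₄ D (StageC1_s' s be2 u T₁ yu yu2 Xu A' sx e2 x₁ y₁) := by
  have hQ := StageC1_exQ hw hG hz
  obtain ⟨z1, z2, z3, z4⟩ := hG.ztop hz
  have a1 := hP.a1
  have a2 := hP.a2
  have a3 := hP.a3
  have a4 := hP.a4
  have a5 := hP.a5
  have b1 := hP.b1
  have b3 := hP.b3
  have c1 := hP.c1
  have c2 := hP.c2
  have q1 := hQ.q1
  have q3 := hQ.q3
  have q4 := hQ.q4
  have q5 := hQ.q5
  have q6 := hQ.q6
  have q7 := hQ.q7
  have q8 := hQ.q8
  have q9 := hQ.q9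
  have q11 := hQ.q11
  have q12 := hQ.q12
  have n1 := hR.n1
  have n2 := hR.n2
  have n3 := hR.n3
  have n4 := hR.n4
  have n5 := hR.n5
  have n6 := hR.n6
  have hhi : s.l2.hi ≤ s.Xd := by
    rw [← hG.lc2]
    exact hG.line2.ok.h2
  have hlv : lv ∈ s.d :: bt := by rw [hcb.il]; simp
  have hzn : s.z ∈ u :: be2 ++ [s.w] ++ s.al.reverse ++ [s.z] := by simp
  have hun : u ∈ u :: be2 ++ [s.w] ++ s.al.reverse ++ [s.z] := by simp
  have hzlv : s.z ≠ lv := (StageC1_d3 hc hS hb hcb hzn).2.2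
  have hzu : s.z ≠ u := by
    have h3 := hcb.regn.disc.nodup
    intro h4
    exact (List.nodup_cons.1 h3).1 (by rw [← h4]; simp)
  have hΓz : Γ₄ s.z = Γ s.z := by
    obtain ⟨g1, g2, g3⟩ := StageC1_d3 hc hS hb hcb hzn
    rw [hR.grow.eq (v := s.z), hst.grow.eq (v := s.z)]
    · exact hzu
    · rintro (h | h)
      · exact g1 h
      · exact g2 h
  have hΓu : Γ₄ u = StageC1_C s yu yu2 Xu e2 := by
    obtain ⟨g1, g2, g3⟩ := StageC1_d3 hc hS hb hcb hun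
    rw [hR.grow.eq (v := u), Function.update_self]
    rintro (h | h)
    · exact g1 h
    · exact g2 h
  -- old lines
  have ptT : ∀ l x, l ∈ U true → (l = s.Xz → ¬ (yu < x ∧ x < yu2)) → (l = s.Xd → s.B ≤ x) →
      (x < s.B ∨ T₁ < x) → (l = lc' → ¬ (s0' < x ∧ x < y₁)) →
      ∀ w, x ∈ Γ₄ w true l ↔ x ∈ Γ w true l := by
    intro l x hl k1 k2 k3 k4 w
    constructor
    · intro hx
      rcases hR.grow.new w true l x hx with h | ⟨-, -, h | ⟨-, ⟨h, h'⟩ | ⟨h, h'⟩ | ⟨h, h'⟩ |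
        ⟨h, h'⟩⟩ | ⟨h, -⟩⟩
      · rcases hst.grow.new w true l x h with h' | ⟨-, h'⟩
        · exact h'
        · rcases (StageC1_memD0 hP).1 h' with h5 | ⟨h5, -⟩ | ⟨-, h5, h6⟩
          · exact absurd hl h5
          · exact absurd h5 (by simp)
          · exact absurd h6 (k1 h5)
      · exact absurd (StageC1_sub1 _ hl) h
      · exact absurd h' (not_lt.2 (k2 h))
      · rcases k3 with k3 | k3
        · exact absurd k3 (not_lt.2 h)
        · exact absurd k3 (not_lt.2 h')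
      · exact absurd h' (k4 h)
      · exact absurd (h ▸ hl) hP.n2
      · exact absurd h (by simp)
    · exact fun hx => hR.grow.mono _ _ _ _ (hst.grow.mono _ _ _ _ hx)
  have ptF : ∀ l x, l ∈ U false → l < s.B → (l = s.l2.Λ → e2 ≤ x) →
      ∀ w, x ∈ Γ₄ w false l ↔ x ∈ Γ w false l := by
    intro l x hl k1 k2 w
    constructor
    · intro hx
      rcases hR.grow.new w false l x hx with h | ⟨-, -, h | ⟨h, -⟩ | ⟨-, ⟨h, h'⟩ | ⟨h, h'⟩⟩⟩
      · rcases hst.grow.new w false l x h with h' | ⟨-, h'⟩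
        · exact h'
        · rcases (StageC1_memD0 hP).1 h' with h5 | ⟨-, h5, h6, h7⟩ | ⟨h5, -⟩
          · exact absurd hl h5
          · exact absurd h7 (not_lt.2 (k2 h5))
          · exact absurd h5 (by simp)
      · exact absurd (StageC1_sub1 _ hl) h
      · exact absurd h (by simp)
      · have := k2 h
        linarith
      · exact absurd k1 (not_lt.2 h)
    · exact fun hx => hR.grow.mono _ _ _ _ (hst.grow.mono _ _ _ _ hx)
  -- new lines
  have ptX : ∀ x, (x < s.B ∨ T₁ < x) → y₁ ≤ x → ∀ w, x ∈ Γ₄ w true Xu ↔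
      x ∈ Function.update Γ u (StageC1_C s yu yu2 Xu e2) w true Xu := by
    intro x k1 k2 w
    constructor
    · intro hx
      rcases hR.grow.new w true Xu x hx with h | ⟨-, -, h | ⟨-, ⟨h, h'⟩ | ⟨h, h'⟩ | ⟨h, h'⟩ |
        ⟨h, h'⟩⟩ | ⟨h, -⟩⟩
      · exact h
      · exact absurd StageC1_XuU h
      · exact absurd h b1.ne'
      · rcases k1 with k3 | k3
        · exact absurd k3 (not_lt.2 h)
        · exact absurd k3 (not_lt.2 h')
      · exact absurd h n1.ne'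
      · exact absurd h' (not_lt.2 k2)
      · exact absurd h (by simp)
    · exact fun hx => hR.grow.mono _ _ _ _ hx
  have ptY : ∀ x w, x ∈ Γ₄ w false yu ↔
      x ∈ Function.update Γ u (StageC1_C s yu yu2 Xu e2) w false yu := by
    intro x w
    constructor
    · intro hx
      rcases hR.grow.new w false yu x hx with h | ⟨-, -, h | ⟨h, -⟩ | ⟨-, ⟨h, h'⟩ | ⟨h, h'⟩⟩⟩
      · exact h
      · exact absurd StageC1_yuU h
      · exact absurd h (by simp)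
      · linarith
      · linarith
    · exact fun hx => hR.grow.mono _ _ _ _ hx
  have wT : ∀ (S : Set V) l a b, SW Γ D S true l a b → l ∈ U true →
      (∀ x, a < x → x < b → (l = s.Xz → ¬ (yu < x ∧ x < yu2)) ∧ (l = s.Xd → s.B ≤ x) ∧
      (x < s.B ∨ T₁ < x) ∧ (l = lc' → ¬ (s0' < x ∧ x < y₁))) → SW Γ₄ D S true l a b := by
    intro S l a b h hl k x ha hb'
    obtain ⟨k1, k2, k3, k4⟩ := k x ha hb'
    exact ⟨(h x ha hb').1, fun v => (ptT l x hl k1 k2 k3 k4 v).trans ((h x ha hb').2 v)⟩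
  have wF : ∀ (S : Set V) l a b, SW Γ D S false l a b → l ∈ U false → l < s.B →
      (∀ x, a < x → x < b → l = s.l2.Λ → e2 ≤ x) → SW Γ₄ D S false l a b := by
    intro S l a b h hl k1 k x ha hb'
    exact ⟨(h x ha hb').1, fun v => (ptF l x hl k1 (k x ha hb') v).trans ((h x ha hb').2 v)⟩
  have hwX := StageC1_wXu (u := u) hw hD hG hz hP
  have hwY := StageC1_wyu (u := u) hw hD hG hz hP
  have hwYR := StageC1_wyuR (u := u) hw hG hz hP
  have hY4 : ∀ {a b : ℚ}, s.Xz ≤ a → b ≤ Xu → SW Γ₄ D {u} false yu a b := by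
    intro a b ha hb' x hx hx'
    have h3 := hwY x (lt_of_le_of_lt ha hx) (lt_of_lt_of_le hx' hb')
    exact ⟨h3.1, fun v => (ptY x v).trans (h3.2 v)⟩
  have hRl1 : s.l1.R ≠ s.Xz ∧ s.l1.R ≠ s.Xd ∧ s.l1.R ≠ lc' :=
    ⟨by intro h; linarith, by intro h; linarith, by intro h; linarith⟩
  have hRl2 : s.l2.R ≠ s.Xz ∧ s.l2.R ≠ s.Xd ∧ s.l2.R ≠ lc' :=
    ⟨by intro h; linarith, by intro h; linarith, by intro h; linarith⟩
  have ok1 := hG.line1.ok
  have ok2 := hG.line2.ok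
  have L1 : LG Γ₄ D s.z s.w s.Xw T₁ s.l1 := by
    refine ⟨⟨ok1.h1, ok1.h2, ok1.h3, ok1.h4, ok1.h5, ok1.h6, ok1.h7, ?_, ?_, ?_, ?_⟩, hG.line1.eX,
      hG.line1.XR, by linarith, hG.line1.nr, ?_, ?_, ?_⟩
    · exact wF _ _ _ _ ok1.zone hQ.m5 q4 (fun x _ _ h => absurd h hG.ne)
    · intro x ha hb'
      exact ⟨(ok1.free x ha hb').1, fun v =>
        (ptF _ x hQ.m5 q4 (fun h => absurd h hG.ne) v).trans ((ok1.free x ha hb').2 v)⟩
    · exact wF _ _ _ _ ok1.res hQ.m5 q4 (fun x _ _ h => absurd h hG.ne)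
    · refine wT _ _ _ _ ok1.strip hQ.m7 (fun x ha hb' => ⟨fun _ h => by linarith [h.1],
        fun h => by linarith, Or.inl (by linarith), fun h h' => ?_⟩)
      refine hR.str s.z hzlv x h'.1 h'.2 ?_
      rw [← h]
      exact hst.grow.mono _ _ _ _ (((ok1.strip x ha hb').2 s.z).2 rfl)
    · exact wF _ _ _ _ hG.line1.row hQ.m5 q4 (fun x _ _ h => absurd h hG.ne)
    · exact wT _ _ _ _ hG.line1.col hQ.m8 (fun x ha hb' => ⟨fun h => absurd h hRl1.1,
        fun h => absurd h hRl1.2.1, Or.inl (by linarith), fun h => absurd h hRl1.2.2⟩)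
    · rw [hΓz]
      exact hG.line1.ext
  have L2 : LG Γ₄ D u s.w s.Xw T₁
      { s.l2 with lc := Xu, c0 := sx, e := e2, lo := x₁, s0 := y₁ } := by
    refine ⟨⟨n4, by linarith, n2.le, n3, by linarith, n5.le, n6, ?_, ?_, hR.res, ?_⟩, c2,
      hG.line2.XR, by linarith, hG.line2.nr, ?_, ?_, ?_⟩
    · intro x ha hb'
      refine ⟨(ok2.free x ?_ ?_).1, hR.row x ha hb'⟩
      · linarith [hP.b2]
      · linarith
    · intro x ha hb'
      have h3 := ok2.free x (by linarith [hP.b2]) hb'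
      exact ⟨h3.1, fun v => (ptF _ x hQ.m6 q5 (fun _ => ha) v).trans (h3.2 v)⟩
    · intro x ha hb'
      have h3 := hwX x (by linarith) (by linarith)
      exact ⟨h3.1, fun v => (ptX x (Or.inl (by linarith)) ha.le v).trans (h3.2 v)⟩
    · exact wF _ _ _ _ hG.line2.row hQ.m6 q5 (fun x ha _ _ => by linarith)
    · exact wT _ _ _ _ hG.line2.col hQ.m9 (fun x ha hb' => ⟨fun h => absurd h hRl2.1,
        fun h => absurd h hRl2.2.1, Or.inl (by linarith), fun h => absurd h hRl2.2.2⟩)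
    · show Ext s.l2.Λ e2 (Γ₄ u)
      rw [hΓu]
      exact LineB_ext6 c1 (by intro h; linarith) (by intro h; linarith) a4.ne
        (Or.inl (by linarith))
  exact
    { o1 := hA1
      o2 := le_rfl
      o3 := hA2
      o4 := b3
      o5 := show yu < s.Top by linarith
      ordL := show T₁ < yu by linarith
      zcol := by
        refine wT _ _ _ _ (z4.sub a1.le (show yu ≤ s.t1 by linarith)) hQ.m1 (fun x ha hb' =>
          ⟨fun _ h => absurd h.1 (not_lt.2 hb'.le), fun h => absurd h q1.ne, Or.inr ha,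
            fun _ h => by linarith [h.2, show T₁ < x from ha]⟩)
      top := hY4 le_rfl hA2.le
      black := fun r hr => absurd hr List.not_mem_nil
      pl := fun r hr => absurd hr List.not_mem_nil
      bbase := hY4 hA1.le le_rfl
      YD := fun x => hD _ _ hP.n1
      row := fun x hx _ v hv => hwYR x hx v ((ptY x v).1 hv)
      dcol := by
        intro x ha hb'
        have ha' : T₁ < x := ha
        have hb'' : x < yu := hb'
        have h3 := hwX x (by linarith) hb''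
        exact ⟨h3.1, fun v => (ptX x (Or.inr ha') (by linarith) v).trans (h3.2 v)⟩
      wcol := by
        show SW Γ₄ D {s.w} true s.Xw T₁ s.Top
        refine wT _ _ _ _ (hG.wcol.sub (show s.B ≤ T₁ by linarith) le_rfl) hQ.m3
          (fun x ha hb' => ⟨fun h => by linarith [show T₁ < x from ha], fun h => by linarith [hQ.q2],
            Or.inr ha, fun h => by linarith⟩)
      line1 := L1
      line2 := L2
      e1 := show s.l1.e < Xu by linarith [hG.e1]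
      lc2 := rfl
      ne := hG.ne
      ztop := by
        intro _
        refine ⟨a4.le, a5, z3, ?_⟩
        refine wT _ _ _ _ (z4.sub (show s.t0 ≤ yu2 by linarith) le_rfl) hQ.m1 (fun x ha hb' =>
          ⟨fun _ h => absurd h.2 (not_lt.2 ?_), fun h => absurd h q1.ne, Or.inr ?_,
            fun _ h => ?_⟩)
        · exact (show yu2 < x from ha).le
        · linarith [show yu2 < x from ha]
        · linarith [h.2, show yu2 < x from ha] }

end newst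

/-- Let `be = bt ++ u :: be2` with `AdjF F z u` and no vertex of `bt` adjacent to `z` (first such
vertex). `Reg.chord` for `u, z`: `F₂` with boundary `u :: be2 ++ [w] ++ al.reverse ++ [z]` (the new
stage) and `F₁` with boundary `rv L ++ [d] ++ bt ++ [u, z]`.
Geometry: `Y0 ≤ t0 < T₁ < T₂ < yu < yu2 < t1 ≤ Top`, `Xu` new with `max Xd e2 < Xu < Xw`, `yu` new.
1. Draw `Γ u = seg true Xu Λ2 yu ⊔ seg false yu Xz Xu ⊔ seg true Xz yu yu2` (meets only `z`, on `Xz`).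
2. M-state `MG1`: `z`, no pending whites, base `a0 = u`, `X0 = Xu`, `u = Xd`, `yu = Y0`, blacks `L`,
   base `d`, list `bt`, faces `F₁`; `Ex'` = `Ex` or the pair (last of `d :: bt`, `u`); allowed set as in
   `stage_last` (vertical lines `Xz` and `Xu` with `B ≤ x < Y0`, rows of `L`, `Y0` with `x < Xd` outside the link
   zone). `core` with line 2 (`be := bt`, `R := l2.R`).
3. Draw the stub of `u`: `seg false Λ2 Xu e''`, `Xu < e'' < Xw`, and `LineOK.join` on line 2 with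
   `w := u`, `Rw = Xu`, `m = Xu`, `nr = e''`. Now `u` is the last vertex of line 2: `lc = Xu`,
   `c0` = the new stub end of the previous vertex, `e = e''`;
   `Γ u = zig false [e'', Λ2, Xu, yu, Xz, yu2]`, `Ext Λ2 e''`.
New stage: `z` and line 1 as before (`e1 < Xd < Xu`), `d' = u`, `Y0' = yu`, `Xd' = Xu`, `L' = []`,
`be' = be2`, `B' = T₁`, `h' = A'` with `Xz < A' < Xu`, `t0' = yu2`, `t1' = t1`, `zt' = true`. All its windows lie
above `T₁` or on new lines or on the lines `Λ1`, `Λ2`, where `core` and `join` do not disturb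
them. `e1 < Xd'`. -/
theorem stage_c1 {G : SimpleGraph V} {T : Finset V} {Fs : Finset (Finset V)}
    {J : Finset V → Finset V} {Ex : V → V → Prop} (hc : Ctx G T Fs J)
    (hE : ∀ u v, Ex u v → Ex v u) {Γ : Dr V} {U : Bool → Finset ℚ} {D : Cov} {s : SD V}
    {F : Finset (Finset V)} (hw : Wd G Γ U) (hD : Adm U D) (hG : SG Γ U D s)
    (hS : SC G T Fs J Ex Γ s F) {bt be2 : List V} {u : V} (hb : s.be = bt ++ u :: be2)
    (h1 : ∀ v ∈ bt, ¬ AdjF F s.z v) (h2 : AdjF F s.z u) :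
    ∃ Γ₁ U₁ s' F', F'.card < F.card ∧ (∀ o, U o ⊆ U₁ o) ∧ Wd G Γ₁ U₁ ∧ SG Γ₁ U₁ D s' ∧
      SC G T Fs J Ex Γ₁ s' F' ∧ (SDone G J Ex Γ₁ U₁ D s' F' → SDone G J Ex Γ U D s F) := by
  have hube : u ∈ s.be := by rw [hb]; simp
  have hz : s.zt = true := by
    cases h : s.zt with
    | true => rfl
    | false => exact absurd h2 (hS.zb h u hube)
  obtain ⟨i, lv, Fn, Fm, hcb⟩ := StageC1_comb (J := J) hS hb h2
  obtain ⟨T₁, T₂, yu, yu2, Xu, e2, hP⟩ := StageC1_exP hG hz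
  have hQ := StageC1_exQ hw hG hz
  have hu : Undrawn Γ u := hS.und u (Or.inr (Or.inr (Or.inl hube)))
  have huz : G.Adj u s.z := by
    obtain ⟨h3, f, hf, h4, h5⟩ := h2
    exact hc.adj f (hS.reg.sub hf) u h5 s.z h4 (fun h => h3 h.symm)
  have huo : G.Adj u s.l2.ow := by
    refine hc.adj _ (StageC1_old_sub hS hcb (Or.inr (Or.inr rfl))) u (by simp) s.l2.ow (by simp) ?_
    intro h
    exact (StageC1_N2 hS).1 (h ▸ (StageC1_mem_bd hb).2 (Or.inr (by simp)))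
  have hst := StageC1_step1 hw hG hz hP hu huz huo
  obtain ⟨Γ₄, U₄, lc', s0', sx, x₁, y₁, hR⟩ := StageC1_run hc hE hw hD hG hz hS hb h1 hP hcb hst
  obtain ⟨A', hA1, hA2⟩ := exists_between (hQ.q1.trans hP.b1)
  exact ⟨Γ₄, U₄, StageC1_s' s be2 u T₁ yu yu2 Xu A' sx e2 x₁ y₁, Fn, hcb.card,
    fun o x hx => hR.sub o (StageC1_sub1 o hx), hR.wd,
    StageC1_SG hc hw hD hG hz hS hb hP hcb hst hR hA1 hA2,
    StageC1_SC hc hw hG hz hS hb hP hcb hst hR,
    fun hd => StageC1_done hc hw hD hG hz hS hb hP hcb hst hR hd⟩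

end EPG26
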