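import Pool.Agent.W_26e041_h61.StageA
import Pool.Agent.W_26e041_h61.RegA
import Pool.Agent.W_26e041_h22.StC2G

/-!
Stage reduction: a vertex `a` of `al`, not adjacent to `d`, is adjacent to a vertex of `be`.
-/

namespace EPG26

variable {V : Type*} [DecidableEq V]

/-- Let `al = at' ++ a :: al2`, `be = bt ++ c :: be2`, `AdjF F a c`, no vertex of `z :: at'` is adjacent to a
vertex of `be`, `a` is not adjacent to `d` and to the vertices of `bt`. `Reg.chord` for `c, a`: `F₂` with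
boundary `c :: be2 ++ [w] ++ al2.reverse ++ [a]` (its reverse is the boundary of the new stage) and `F₁`
with boundary `rv L ++ [d] ++ bt ++ [c, a] ++ at'.reverse ++ [z]`.
Geometry: `Y0 < T₁ < yc < yc2 < T₂ < Top`, `yc` new (put it into `U`).
1. `placeL` on line 1 for `at'` (kind `dir`), interval `(max A e1, Xd)`, `Yt = B`.
2. `Xs` new with `max Xd e2 < Xs < Xw`. `LineOK.place` on line 1 for `a` with `lc' = m = Xs`, `b = Xw`,
   `Yt = yc`, `E = ⊥`.
3. M-state `MG1`: `z`, whites = records of `at'` (`direct_pend`, `s = B`, `hi = Y0`), base `a0 = a`,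
   `X0 = Xs`, `u = Xd`, `yu = Y0`, blacks `L`, base `d`, list `bt ++ [c]`, faces `F₁`;
   `Ex'` = `Ex` or the pair `c, a`; allowed set as in `stage_last`. `Side.base`: `a` is not adjacent to `d`.
   `core` with line 2 (`be := bt ++ [c]`): `c` is finished with `Ext Λ2 e'` and has a clean column `up`
   between `T₁` and `T₂`.
4. Finish `a`: draw `seg false yc up Xs ⊔ seg true up yc yc2` (meets only `c`, on `up`);
   `Γ a = zig false [e, Λ1, Xs, yc, up, yc2]`, `Ext Λ1 e`.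
New stage: `z' = c`, `Xz' = up`, `d' = a`, `Y0' = yc`, `Xd' = Xs`, `L' = []`, `B' = T₁`, `h' = A'` with
`up < A' < Xs`, `al' = be2`, `be' = al2`, line 1' = line 2 (last `c`, its `e' < Xs`), line 2' = line 1 (last
`a`), `t0' = yc2`, `t1' = T₂`, `zt' = true`. -/
theorem stage_c2 {G : SimpleGraph V} {T : Finset V} {Fs : Finset (Finset V)}
    {J : Finset V → Finset V} {Ex : V → V → Prop} (hc : Ctx G T Fs J)
    (hE : ∀ u v, Ex u v → Ex v u) {Γ : Dr V} {U : Bool → Finset ℚ} {D : Cov} {s : SD V}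
    {F : Finset (Finset V)} (hw : Wd G Γ U) (hD : Adm U D) (hG : SG Γ U D s)
    (hS : SC G T Fs J Ex Γ s F) {at' al2 bt be2 : List V} {a c : V}
    (ha : s.al = at' ++ a :: al2) (hb : s.be = bt ++ c :: be2)
    (h1 : ∀ v ∈ s.be, ¬ AdjF F s.z v) (h2 : ∀ p ∈ at', ∀ v ∈ s.be, ¬ AdjF F p v)
    (h3 : ∀ v ∈ bt, ¬ AdjF F a v) (h4 : AdjF F a c) (h5 : ¬ AdjF F a s.d) :
    ∃ Γ₁ U₁ s' F', F'.card < F.card ∧ (∀ o, U o ⊆ U₁ o) ∧ Wd G Γ₁ U₁ ∧ SG Γ₁ U₁ D s' ∧
      SC G T Fs J Ex Γ₁ s' F' ∧ (SDone G J Ex Γ₁ U₁ D s' F' → SDone G J Ex Γ U D s F) := by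
  exact stage_c2_main hc hE hw hD hG hS ha hb h1 h2 h3 h4 h5

end EPG26
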