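import Pool.Agent.W_26e041_h61.StageA
import Pool.Agent.W_26e041_h61.RegA

/-!
Stage reduction: a vertex `a` of `al` is adjacent to `d`.
-/

namespace EPG26

variable {V : Type*} [DecidableEq V]

theorem StageC3_mem_verts {l : List V} {F : Finset (Finset V)} {v : V} :
    v ∈ verts l F ↔ v ∈ l ∨ ∃ f ∈ F, v ∈ f := by
  simp [verts]

theorem StageC3_comb {T : Finset V} {Fs : Finset (Finset V)} {bl at' al2 be : List V}
    {d w a z : V} {F : Finset (Finset V)}
    (hr : Reg T Fs (bl ++ [d] ++ be ++ [w] ++ (at' ++ a :: al2).reverse ++ [z]) F)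
    (hB : Chless F (bl ++ [d])) (hA : Chless F (z :: (at' ++ a :: al2) ++ [w]))
    (z1 : ∀ v ∈ (bl ++ [d]).tail, ¬ AdjF F z v)
    (z2 : ∀ c ∈ verts (bl ++ [d] ++ be ++ [w] ++ (at' ++ a :: al2).reverse ++ [z]) F,
      c ∉ (bl ++ [d] ++ be ++ [w] ++ (at' ++ a :: al2).reverse ++ [z]) →
      AdjF F z c → ∀ v ∈ (bl ++ [d]).tail, ¬ AdjF F c v)
    (h3 : AdjF F a d) :
    ∃ Fn Fo : Finset (Finset V), F = Fn ∪ Fo ∧ Disjoint Fn Fo ∧ Fo ≠ ∅ ∧
      Reg T Fs ([a] ++ al2 ++ [w] ++ be.reverse ++ [d]) Fn ∧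
      MC T Fs (bl ++ [d]) (at' ++ [a]) [] [] z Fo ∧
      ∀ v, v ∈ verts ([a] ++ al2 ++ [w] ++ be.reverse ++ [d]) Fn →
        v ∈ verts (bl ++ [d] ++ [] ++ (at' ++ [a]).reverse ++ [z]) Fo → v = d ∨ v = a := by
  have hr' : Reg T Fs (bl ++ d :: ((be ++ [w] ++ al2.reverse) ++ a :: (at'.reverse ++ [z]))) F := by
    have e : bl ++ [d] ++ be ++ [w] ++ (at' ++ a :: al2).reverse ++ [z] =
      bl ++ d :: ((be ++ [w] ++ al2.reverse) ++ a :: (at'.reverse ++ [z])) := by simp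
    rwa [e] at hr
  obtain ⟨Fn, Fo, hF, hdis, -, hFo, hn, ho, hv⟩ := Reg.chord hr' (by simp) (Or.inr (by simp))
    (DiscC_symm h3)
  have hFoF : Fo ⊆ F := by rw [hF]; exact Finset.subset_union_right
  have hrev : Reg T Fs ([a] ++ al2 ++ [w] ++ be.reverse ++ [d]) Fn := by
    have := hn.rev
    have e : (d :: (be ++ [w] ++ al2.reverse ++ [a])).reverse =
      [a] ++ al2 ++ [w] ++ be.reverse ++ [d] := by simp
    rwa [e] at this
  have eo : bl ++ d :: a :: (at'.reverse ++ [z]) =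
      bl ++ [d] ++ [] ++ (at' ++ [a]).reverse ++ [z] := by simp
  have ev1 : verts (d :: (be ++ [w] ++ al2.reverse ++ [a])) Fn =
      verts ([a] ++ al2 ++ [w] ++ be.reverse ++ [d]) Fn := by
    apply CombA_verts
    intro v
    simp only [List.mem_cons, List.mem_append, List.mem_reverse, List.not_mem_nil, or_false]
    tauto
  have hv' : ∀ v, v ∈ verts ([a] ++ al2 ++ [w] ++ be.reverse ++ [d]) Fn →
        v ∈ verts (bl ++ [d] ++ [] ++ (at' ++ [a]).reverse ++ [z]) Fo → v = d ∨ v = a := by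
    intro v h1 h2
    rw [← ev1] at h1
    rw [← eo] at h2
    exact hv v h1 h2
  refine ⟨Fn, Fo, hF, hdis, hFo, hrev, ⟨?_, ?_, ?_, ?_, ?_⟩, hv'⟩
  · rw [← eo]; exact ho
  · exact hB.mono hFoF
  · exact (hA.mono hFoF).infx ⟨[z], al2 ++ [w], by simp⟩
  · intro v hvm hadj
    simp only [List.append_nil, List.mem_append] at hvm
    rcases hvm with hvm | hvm
    · exact z1 v hvm (CombA_adj_mono hFoF hadj)
    · refine CombA_chless_head (a := z) (l := (at' ++ a :: al2) ++ [w]) (v := v) ?_ ?_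
        (CombA_adj_mono hFoF hadj)
      · simpa using hA
      · cases at' with
        | nil => simp at hvm
        | cons b t =>
          simp only [List.cons_append, List.tail_cons, List.mem_append, List.mem_cons,
            List.not_mem_nil, or_false] at hvm ⊢
          tauto
  · intro c hc hcl hadj v hvm hadj2
    simp only [List.append_nil] at hvm
    rw [← eo] at hc hcl
    refine z2 c ?_ ?_ (CombA_adj_mono hFoF hadj) v hvm (CombA_adj_mono hFoF hadj2)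
    · rw [StageC3_mem_verts] at hc ⊢
      rcases hc with hc | ⟨f, hf, hcf⟩
      · exact absurd hc hcl
      · exact Or.inr ⟨f, hFoF hf, hcf⟩
    · intro hcb
      have hcn : c ∈ d :: (be ++ [w] ++ al2.reverse ++ [a]) := by
        simp only [List.mem_cons, List.mem_append, List.mem_reverse, List.not_mem_nil,
          or_false] at hcb hcl ⊢
        tauto
      have := hv c (StageC3_mem_verts.2 (Or.inl hcn)) hc
      apply hcl
      rcases this with rfl | rfl <;> simp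


theorem StageC3_shrink {Γ : Dr V} {D : Cov} {ow v : V} {Λ lc c0 e R lo hi s0 s1 c : ℚ}
    (h : LineOK Γ D ow Λ v lc c0 e R lo hi s0 s1) (h1 : c0 ≤ c) (h2 : c < e) :
    LineOK Γ D ow Λ v lc c e R lo hi s0 s1 :=
  ⟨h.h1, h.h2, h.h3.trans h1, h2, h.h5, h.h6, h.h7, h.zone.sub h1 le_rfl, h.free, h.res, h.strip⟩

theorem StageC3_lineD {Γ : Dr V} {U : Bool → Finset ℚ} {D : Cov} {ow v : V}
    {Λ lc c0 e R lo hi s0 s1 c b lo' x₁ s0' y₁ : ℚ} (hD : Adm U D)
    (h : LineOK Γ D ow Λ v lc c0 e R lo hi s0 s1) (h1 : c0 < c) (hcb : c ≤ b) (hb : b ≤ R)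
    (h2 : lo ≤ lo') (h2' : lo' < x₁) (h3 : x₁ ≤ hi) (h4 : s0 ≤ s0') (h4' : s0' < y₁)
    (h5 : y₁ ≤ s1) :
    lineD U Λ lc c b lo' x₁ s0' y₁ ≤ D := by
  intro o l x hx
  rcases hx with ((hx | hx) | hx) | hx
  · exact hD o l hx
  · rw [CoreG2_segm h2'] at hx
    obtain ⟨rfl, rfl, h6, h7⟩ := hx
    exact (h.res x (lt_of_le_of_lt h2 h6) (lt_of_lt_of_le h7 h3)).1
  · rw [LineA_mem hcb] at hx
    obtain ⟨rfl, rfl, h6, h7⟩ := hx
    rcases lt_or_ge x e with h8 | h8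
    · exact (h.zone x (h1.trans h6) h8).1
    · exact (h.free x h8 (h7.le.trans hb)).1
  · rw [CoreG2_segm h4'] at hx
    obtain ⟨rfl, rfl, h6, h7⟩ := hx
    exact (h.strip x (lt_of_le_of_lt h4 h6) (lt_of_lt_of_le h7 h5)).1

/-- description of the allowed set of a step on a line -/
theorem StageC3_mem_lineD {U : Bool → Finset ℚ} {Λ lc c b lo x₁ s0 y₁ x l : ℚ} {o : Bool}
    (hcb : c ≤ b) (h2 : lo < x₁) (h4 : s0 < y₁) (hx : x ∈ lineD U Λ lc c b lo x₁ s0 y₁ o l) :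
    l ∉ U o ∨ (o = false ∧ l = Λ ∧ (x < x₁ ∨ x < b)) ∨ (o = true ∧ l = lc ∧ s0 < x ∧ x < y₁) := by
  rcases hx with ((hx | hx) | hx) | hx
  · exact Or.inl hx
  · rw [CoreG2_segm h2] at hx
    obtain ⟨rfl, rfl, h6, h7⟩ := hx
    exact Or.inr (Or.inl ⟨rfl, rfl, Or.inl h7⟩)
  · rw [LineA_mem hcb] at hx
    obtain ⟨rfl, rfl, h6, h7⟩ := hx
    exact Or.inr (Or.inl ⟨rfl, rfl, Or.inr h7⟩)
  · rw [CoreG2_segm h4] at hx
    obtain ⟨rfl, rfl, h6, h7⟩ := hx
    exact Or.inr (Or.inr ⟨rfl, rfl, h6, h7⟩)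

theorem StageC3_fan_snoc {ow z lv a : V} {l : List V} (hl : (z :: l).getLast? = some lv)
    {f : Finset V} :
    f ∈ fanF ow (z :: l ++ [a]) ↔ f ∈ fanF ow (z :: l) ∨ f = {ow, lv, a} := by
  induction l generalizing z with
  | nil =>
    simp only [List.getLast?_singleton, Option.some.injEq] at hl
    subst hl
    simp [fanF]
  | cons b t ih =>
    rw [List.getLast?_cons_cons] at hl
    have := ih hl
    simp only [List.cons_append, fanF, Finset.mem_insert] at this ⊢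
    rw [this]
    tauto

theorem StageC3_fan_split {ow a : V} {l₁ l₂ : List V} {f : Finset V} :
    f ∈ fanF ow (l₁ ++ a :: l₂) ↔ f ∈ fanF ow (l₁ ++ [a]) ∨ f ∈ fanF ow (a :: l₂) := by
  induction l₁ with
  | nil => simp [fanF]
  | cons b t ih =>
    cases t with
    | nil => simp [fanF]
    | cons c t' =>
      simp only [List.cons_append, fanF, Finset.mem_insert] at ih ⊢
      rw [ih]
      tauto

theorem StageC3_fan_mem {ow : V} {l : List V} {f : Finset V} (hf : f ∈ fanF ow l) :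
    ow ∈ f ∧ ∀ v ∈ f, v = ow ∨ v ∈ l := by
  obtain ⟨p, a, b, s, rfl, rfl⟩ := mem_fanF.1 hf
  refine ⟨by simp, fun v hv => ?_⟩
  simp only [Finset.mem_insert, Finset.mem_singleton] at hv
  rcases hv with rfl | rfl | rfl <;> simp

theorem StageC3_fan_sub {ow : V} {l : List V} {Fs : Finset (Finset V)}
    (h : List.IsChain (fun p q => ({ow, p, q} : Finset V) ∈ Fs) l) : fanF ow l ⊆ Fs := by
  intro f hf
  obtain ⟨p, a, b, s, rfl, rfl⟩ := mem_fanF.1 hf
  exact (List.isChain_append_cons_cons.1 h).2.1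

theorem StageC3_ordP {A lo hi : ℚ} (f : Pl V → Rec V) (hf : ∀ q, (f q).g = q.g ∧ (f q).c = q.X)
    {qs : List (Pl V)} (h : OrdP lo qs hi) (hA : A ≤ lo) : OrdL A (qs.map f) hi := by
  induction qs generalizing A lo with
  | nil => exact lt_of_le_of_lt hA h
  | cons q t ih =>
    obtain ⟨h1, h2, h3⟩ := h
    have := hf q
    simp only [List.map_cons, OrdL]
    rw [this.1, this.2]
    exact ⟨lt_of_le_of_lt hA h1, h2, ih h3 le_rfl⟩

theorem StageC3_ordL_shrink {lo hi : ℚ} {L : List (Rec V)} (h : OrdL lo L hi) :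
    ∃ y < hi, ∀ y', y ≤ y' → OrdL lo L y' := by
  induction L generalizing lo with
  | nil =>
    refine ⟨(lo + hi) / 2, ?_, fun y' hy => ?_⟩
    · have : lo < hi := h
      linarith
    · have : lo < hi := h
      show lo < y'
      linarith
  | cons r t ih =>
    obtain ⟨h1, h2, h3⟩ := h
    obtain ⟨y, hy, hy'⟩ := ih h3
    exact ⟨y, hy, fun y' h => ⟨h1, h2, hy' y' h⟩⟩

/-- where the steps on the first line and the hook of `a` draw -/
def StageC3_Q (U : Bool → Finset ℚ) (Λ Xw Xd B yc yc2 : ℚ) : Cov := fun o l =>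
  {x | l ∉ U o ∨ (o = false ∧ l = Λ ∧ x < Xw) ∨ (o = true ∧ l < Xd ∧ x < B) ∨
    (o = true ∧ l = Xd ∧ yc < x ∧ x < yc2)}

theorem StageC3_memQ {U : Bool → Finset ℚ} {Λ Xw Xd B yc yc2 l x : ℚ} {o : Bool} :
    x ∈ StageC3_Q U Λ Xw Xd B yc yc2 o l ↔
      l ∉ U o ∨ (o = false ∧ l = Λ ∧ x < Xw) ∨ (o = true ∧ l < Xd ∧ x < B) ∨
    (o = true ∧ l = Xd ∧ yc < x ∧ x < yc2) := Iff.rfl

theorem StageC3_fan_left {ow a : V} {l : List V} {f : Finset V} (hf : f ∈ fanF ow l) :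
    f ∈ fanF ow (l ++ [a]) := by
  obtain ⟨p, x, y, s, he, rfl⟩ := mem_fanF.1 hf
  refine mem_fanF.2 ⟨p, x, y, s ++ [a], ?_, rfl⟩
  rw [he]
  simp

theorem StageC3_line {G : SimpleGraph V} {T : Finset V} {Fs : Finset (Finset V)}
    {J : Finset V → Finset V} (hc : Ctx G T Fs J) {Γ : Dr V} {U : Bool → Finset ℚ} {D : Cov}
    {ow z a d : V} {at' : List V}
    {Λ lc c0 e R lo hi s0 s1 A B Xd Xw Y0 y2 e2 : ℚ}
    (hw : Wd G Γ U) (hD : Adm U D) (h : LineOK Γ D ow Λ z lc c0 e R lo hi s0 s1)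
    (hext : Ext Λ e (Γ z)) (hA : A < Xd) (he : e < Xd) (hXw : Xd < Xw) (hR : Xw ≤ R)
    (hsB : s1 ≤ B) (hBy : B ≤ y2) (hyY : y2 < Y0) (he2 : e2 < Xw) (hdc : SW Γ D {d} true Xd B Y0) (had : G.Adj a d)
    (hch : List.IsChain (fun p q => ({ow, p, q} : Finset V) ∈ Fs) (z :: (at' ++ [a])))
    (hnd : (ow :: z :: (at' ++ [a])).Nodup)
    (hun : ∀ p ∈ at' ++ [a], Undrawn Γ p)
    (hJ : ∀ f ∈ fanF ow (z :: (at' ++ [a])), ∀ q ∈ J f, Undrawn Γ q) :
    ∃ (Γ₂ : Dr V) (U₂ : Bool → Finset ℚ) (W : List (Rec V)) (yc yc2 Xs c0n e' x₁ y₁ : ℚ),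
      y2 < yc ∧ yc < yc2 ∧ yc2 < Y0 ∧ yc ∉ U false ∧
      Step G Γ U (D ⊓ StageC3_Q U Λ Xw Xd B yc yc2)
        {q | q = z ∨ q ∈ at' ∨ q = a ∨ ∃ f ∈ fanF ow (z :: (at' ++ [a])), q ∈ J f} Γ₂ U₂ ∧
      rv W = at' ∧ OrdL A W Xd ∧
      (∀ r ∈ W, Pend PI Γ₂ U₂ D true B Y0 r ∧ r.c ∉ U true ∧ r.pl = true) ∧
      Xd < Xs ∧ e2 < Xs ∧ Xs < Xw ∧ Xs ∉ U true ∧ Xs ∈ U₂ true ∧ yc ∈ U₂ false ∧ Xs ≠ yc ∧
      Xs < e' ∧ e' < Xw ∧ LineOK Γ₂ D ow Λ a Xs c0n e' R x₁ hi y₁ s1 ∧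
      Γ₂ a = seg false Λ Xs e' ⊔ seg true Xs Λ yc ⊔ seg false yc Xd Xs ⊔ seg true Xd yc yc2 ∧
      (∀ x q, s1 ≤ x → x ∈ Γ₂ q true Xs → q = a) ∧ (∀ x q, x ∈ Γ₂ q false yc → q = a) ∧
      (∀ f ∈ fanF ow (z :: (at' ++ [a])), Filled G Γ₂ (J f)) ∧
      (∀ f ∈ fanF ow (z :: (at' ++ [a])), ∀ p ∈ f, ∀ q ∈ f, p ≠ q → Ov Γ₂ p q) ∧
      List.IsChain (Ov Γ₂) (z :: (at' ++ [a])) ∧ IsPath3 (Γ₂ z) := by
  have hfanFs : fanF ow (z :: (at' ++ [a])) ⊆ Fs := StageC3_fan_sub hch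
  -- step 1
  set ps : List (V × Kind) := at'.map (fun p => (p, Kind.dir)) with hps
  have hpsf : ps.map Prod.fst = at' := by
    simp [hps, List.map_map, Function.comp_def]
  have hΛB : Λ < B := lt_of_le_of_lt h.h6 (lt_of_lt_of_le h.h7 hsB)
  have hc0 : c0 < (c0 + e) / 2 := by linarith [h.h4]
  have hc0' : (c0 + e) / 2 < e := by linarith [h.h4]
  have hL0 := StageC3_shrink h hc0.le hc0'
  have hchz : List.IsChain (fun p q => ({ow, p, q} : Finset V) ∈ Fs) (z :: at') := by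
    have : z :: (at' ++ [a]) = (z :: at') ++ [a] := rfl
    rw [this] at hch
    exact (List.isChain_append.1 hch).1
  have hndz : (ow :: z :: at').Nodup := by
    refine List.Nodup.sublist ?_ hnd
    exact List.Sublist.cons_cons _ (List.Sublist.cons_cons _ (List.sublist_append_left _ _))
  -- vertices of the line lie in faces
  have hface : ∀ v ∈ ow :: z :: (at' ++ [a]), ∃ f ∈ fanF ow (z :: (at' ++ [a])), v ∈ f := by
    have key : ∀ (l : List V) (x : V), l ≠ [] → ∀ v ∈ ow :: x :: l,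
        ∃ f ∈ fanF ow (x :: l), v ∈ f := by
      intro l
      induction l with
      | nil => exact fun x hl => absurd rfl hl
      | cons b t ih =>
        intro x _ v hv
        rw [List.mem_cons, List.mem_cons] at hv
        rcases hv with rfl | rfl | hv
        · exact ⟨_, Finset.mem_insert_self _ _, by simp⟩
        · exact ⟨_, Finset.mem_insert_self _ _, by simp⟩
        · rw [List.mem_cons] at hv
          rcases hv with rfl | hv
          · exact ⟨_, Finset.mem_insert_self _ _, by simp⟩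
          · have ht : t ≠ [] := List.ne_nil_of_mem hv
            obtain ⟨f, hf, hvf⟩ := ih b ht v (List.mem_cons_of_mem _ (List.mem_cons_of_mem _ hv))
            exact ⟨f, Finset.mem_insert_of_mem hf, hvf⟩
    exact key _ _ (by simp)
  have hnJ : ∀ v ∈ ow :: z :: (at' ++ [a]), ∀ f ∈ fanF ow (z :: (at' ++ [a])), v ∉ J f := by
    intro v hv f hf hvf
    obtain ⟨g, hg, hvg⟩ := hface v hv
    exact Finset.disjoint_left.1 (hc.sep f (hfanFs hf) g (hfanFs hg)) hvf hvg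
  have howz : ow ≠ z := by
    intro hh
    subst hh
    simp at hndz
  have hzo : G.Adj z ow := by
    obtain ⟨f, hf, hzf⟩ := hface z (by simp)
    exact hc.adj f (hfanFs hf) z hzf ow (StageC3_fan_mem hf).1 howz.symm
  obtain ⟨Γ₁, U₁, qs, sz, lv, lc', c0', e₁, lo', s0', hqs, hord, st1, hesz, hszb, hz, hpl, hnew,
    hfill, hchain, hov, hlast, hnil, hesl, hlt, hL1⟩ :=
    placeL (a := max A e) (b := Xd) (Yt := B) (T₁ := 0) (T₂ := 1) (yl := s1) (y₁ := 0) (ps := ps)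
      hc hw hD hL0 (le_max_right _ _) (max_lt hA he) (hXw.le.trans hR) hsB le_rfl one_pos one_pos
      (by rw [hpsf]; exact hchz) (by rw [hpsf]; exact hndz) hzo
      (by
        rw [hpsf]
        exact fun p hp => hun p (List.mem_append_left _ hp))
      (by
        rw [hpsf]
        intro f hf q hq
        exact hJ f (StageC3_fan_left (l := z :: at') hf) q hq)
  rw [hpsf] at st1 hfill hchain hlast
  have hrqs : qs.map Pl.v = at' := by
    have h1 := congrArg (List.map Prod.fst) hqs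
    rw [List.map_map, hpsf] at h1
    exact h1
  have hkind : ∀ q ∈ qs, q.k = Kind.dir := by
    intro q hq
    have h1 : (q.v, q.k) ∈ ps := by
      rw [← hqs]
      exact List.mem_map_of_mem hq
    rw [hps, List.mem_map] at h1
    obtain ⟨p, -, h2⟩ := h1
    exact (congrArg Prod.snd h2).symm
  have he₁ : e₁ < Xd := by
    rcases hlt with h1 | h1
    · exact h1
    · rw [(hnil h1).2.2.1]
      exact he
  have hD1 : Adm U₁ D := hD.mono st1.sub
  have hlvm : lv ∈ z :: at' := List.mem_of_getLast? hlast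
  have hlvm' : lv ∈ ow :: z :: (at' ++ [a]) := by
    rcases List.mem_cons.1 hlvm with h1 | h1
    · simp [h1]
    · simp [h1]
  have hndA : a ∉ ow :: z :: at' := by
    have h1 : (ow :: z :: at' ++ [a]).Nodup := hnd
    rw [List.nodup_append] at h1
    intro h2
    exact h1.2.2 a h2 a (by simp) rfl
  have haz : a ≠ z := fun hh => hndA (by simp [hh])
  have haow : a ≠ ow := fun hh => hndA (by simp [hh])
  have haat : a ∉ at' := fun hh => hndA (by simp [hh])
  have hlva : lv ≠ a := by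
    rintro rfl
    rcases List.mem_cons.1 hlvm with h1 | h1
    · exact haz h1
    · exact haat h1
  have hlvow : lv ≠ ow := by
    rintro rfl
    exact (List.nodup_cons.1 hndz).1 hlvm
  have hf0 : ({ow, lv, a} : Finset V) ∈ fanF ow (z :: (at' ++ [a])) :=
    (StageC3_fan_snoc (l := at') hlast).2 (Or.inr rfl)
  have hf0n : ({ow, lv, a} : Finset V) ∉ fanF ow (z :: at') := by
    intro hh
    rcases (StageC3_fan_mem hh).2 a (by simp) with h1 | h1
    · exact haow h1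
    · exact hndA (List.mem_cons_of_mem _ h1)
  have hfz : ∀ f ∈ fanF ow (z :: at'), f ∈ fanF ow (z :: (at' ++ [a])) := fun f hf =>
    StageC3_fan_left (l := z :: at') hf
  -- step 2
  obtain ⟨yc, hyc1, hyc2, hyc3⟩ := exists_fresh U₁ false hyY
  obtain ⟨yc2, hyc4, hyc5⟩ := exists_between hyc2
  have hBy' : B < yc := lt_of_le_of_lt hBy hyc1
  have hycU : yc ∉ U false := fun hh => hyc3 (st1.sub _ hh)
  obtain ⟨Xs, hXs1, hXs2, hXs3⟩ := exists_fresh (addL U₁ true yc) true (a := max Xd e2) (b := Xw)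
    (max_lt hXw he2)
  have hXsyc : Xs ≠ yc := fun hh => hXs3 (mem_addL.2 (Or.inr ⟨rfl, hh⟩))
  have hXsU₁ : Xs ∉ U₁ true := fun hh => hXs3 (mem_addL.2 (Or.inl hh))
  have hXdXs : Xd < Xs := lt_of_le_of_lt (le_max_left _ _) hXs1
  have he2Xs : e2 < Xs := lt_of_le_of_lt (le_max_right _ _) hXs1
  have hc1 : c0' < (c0' + e₁) / 2 := by linarith [hL1.h4]
  have hc1' : (c0' + e₁) / 2 < e₁ := by linarith [hL1.h4]
  have hL1' := StageC3_shrink hL1 hc1.le hc1'
  have hund1 : ∀ v, Undrawn Γ v → v ≠ z → v ∉ at' → (∀ f ∈ fanF ow (z :: at'), v ∉ J f) →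
      Undrawn Γ₁ v := by
    intro v hv h1 h2 h3
    refine hv.grow st1.grow ?_
    rintro (h4 | h4 | ⟨f, hf, h4⟩)
    · exact h1 h4
    · exact h2 h4
    · exact h3 f hf h4
  have hJ0 : ∀ q ∈ J {ow, lv, a}, Undrawn Γ₁ q ∧ q ≠ lv ∧ q ≠ a ∧ q ≠ ow := by
    intro q hq
    have hne : ∀ v ∈ ow :: z :: (at' ++ [a]), q ≠ v := by
      rintro v hv rfl
      exact hnJ q hv _ hf0 hq
    refine ⟨hund1 q (hJ _ hf0 q hq) (hne z (by simp)) (fun h1 => hne q (by simp [h1]) rfl) ?_,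
      hne lv hlvm', hne a (by simp), hne ow (by simp)⟩
    intro f hf hqf
    have hff : f ≠ {ow, lv, a} := by
      rintro rfl
      exact hf0n hf
    exact Finset.disjoint_left.1 (hc.disj f (hfanFs (hfz f hf)) _ (hfanFs hf0) hff) hqf hq
  have hfT : FillT G {lv, a, ow} (J {ow, lv, a}) := by
    have h1 : ({lv, a, ow} : Finset V) = {ow, lv, a} := by
      ext v
      simp only [Finset.mem_insert, Finset.mem_singleton]
      tauto
    rw [h1]
    exact hc.fill _ (hfanFs hf0)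
  have hadj : ∀ u ∈ ({ow, lv, a} : Finset V), ∀ v ∈ ({ow, lv, a} : Finset V), u ≠ v → G.Adj u v :=
    hc.adj _ (hfanFs hf0)
  obtain ⟨Γ₂, U₂, s₂, e₂, x₁, y₁, hms, hse, heb, hlx, hxh, hsy, hys, st2, hXsU₂, hUE, hΓv, hΓp,
    hfill2, hov2, hov3, huniq, huniq2, hL2⟩ :=
    LineOK.place (lc' := Xs) (m := Xs) (b := Xw) (Yt := yc) (J := J {ow, lv, a})
      (E := seg false yc Xd Xs) (UE := fun o => if o = false then {yc} else ∅) (p := a)
      st1.wd hD1 hL1'
      (hund1 a (hun a (by simp)) haz haat (fun f hf => hnJ a (by simp) f (hfz f hf)))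
      (hadj lv (by simp) a (by simp) hlva) (hadj lv (by simp) ow (by simp) hlvow)
      (hadj a (by simp) ow (by simp) haow) hXsU₁ (he₁.trans hXdXs) le_rfl hXs2 hR
      (hsB.trans hBy'.le)
      (by
        intro o l x hx
        rw [CoreG2_segm hXdXs] at hx
        obtain ⟨rfl, rfl, -, -⟩ := hx
        exact ⟨hyc3, by simp⟩)
      (by
        intro x hx
        rw [CoreG2_segm hXdXs] at hx
        exact absurd hx.1 (by decide))
      hJ0 hfT
  have hycU₂ : yc ∈ U₂ false := hUE false (by simp)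
  have he₂ : Xs < e₂ := hms.trans hse
  have hlcXd : lc < Xd := lt_of_le_of_lt h.h3 (h.h4.trans he)
  have hlcXd' : lc' < Xd := lt_of_le_of_lt hL1.h3 (hL1.h4.trans he₁)
  have hcb1 : (c0 + e) / 2 ≤ Xd := (hc0'.trans he).le
  have hcb2 : (c0' + e₁) / 2 ≤ Xw := (hc1'.trans (he₁.trans hXw)).le
  have hlo' : lo' < x₁ := hlx
  have hs0' : s0' < y₁ := hsy
  have hQ1 : lineD U Λ lc ((c0 + e) / 2) Xd lo hi s0 s1 ≤
      D ⊓ StageC3_Q U Λ Xw Xd B yc yc2 := by
    intro o l x hx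
    refine ⟨StageC3_lineD hD h hc0 hcb1 (hXw.le.trans hR) le_rfl h.h1 le_rfl le_rfl h.h7 le_rfl o l hx,
      ?_⟩
    rcases StageC3_mem_lineD hcb1 h.h1 h.h7 hx with h7 | ⟨h7, h8, h9⟩ | ⟨h7, h8, h9, h10⟩
    · exact Or.inl h7
    · refine Or.inr (Or.inl ⟨h7, h8, ?_⟩)
      rcases h9 with h9 | h9
      · linarith [h.h2]
      · linarith
    · exact Or.inr (Or.inr (Or.inl ⟨h7, h8 ▸ hlcXd, h10.trans_le hsB⟩))
  have hQ2 : lineD U₁ Λ lc' ((c0' + e₁) / 2) Xw lo' x₁ s0' y₁ ≤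
      D ⊓ StageC3_Q U Λ Xw Xd B yc yc2 := by
    intro o l x hx
    refine ⟨StageC3_lineD hD1 hL1 hc1 hcb2 hR le_rfl hlo' hxh.le le_rfl hs0' hys.le o l hx, ?_⟩
    rcases StageC3_mem_lineD hcb2 hlo' hs0' hx with h7 | ⟨h7, h8, h9⟩ | ⟨h7, h8, h9, h10⟩
    · exact Or.inl (fun hh => h7 (st1.sub _ hh))
    · refine Or.inr (Or.inl ⟨h7, h8, ?_⟩)
      rcases h9 with h9 | h9
      · linarith [hL1.h2]
      · linarith
    · exact Or.inr (Or.inr (Or.inl ⟨h7, h8 ▸ hlcXd', (h10.trans hys).trans_le hsB⟩))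
  set K₀ : Set V := {q | q = z ∨ q ∈ at' ∨ q = a ∨ ∃ f ∈ fanF ow (z :: (at' ++ [a])), q ∈ J f}
    with hK₀
  have hK1 : {q | q = z ∨ q ∈ at' ∨ ∃ f ∈ fanF ow (z :: at'), q ∈ J f} ⊆ K₀ := by
    rintro q (h7 | h7 | ⟨f, hf, h7⟩)
    · exact Or.inl h7
    · exact Or.inr (Or.inl h7)
    · exact Or.inr (Or.inr (Or.inr ⟨f, hfz f hf, h7⟩))
  have hK2 : {q | q = lv ∨ q = a ∨ q ∈ J {ow, lv, a}} ⊆ K₀ := by
    rintro q (h7 | h7 | h7)
    · rw [h7]
      rcases List.mem_cons.1 hlvm with h8 | h8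
      · exact Or.inl h8
      · exact Or.inr (Or.inl h8)
    · exact Or.inr (Or.inr (Or.inl h7))
    · exact Or.inr (Or.inr (Or.inr ⟨_, hf0, h7⟩))
  have hst1 := st1.weaken hQ1 hK1
  have hst2 := st2.weaken hQ2 hK2
  -- step 3
  have hXdU : Xd ∈ U true := hdc.mem (Set.mem_singleton d) hw.lines (hBy'.trans hyc2)
  have hXdU₂ : Xd ∈ U₂ true := st2.sub _ (st1.sub _ hXdU)
  have hdc1 : SW Γ₁ D {d} true Xd B Y0 := by
    refine hdc.grow st1.grow ?_
    intro x h7 h8 h9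
    rcases StageC3_mem_lineD hcb1 h.h1 h.h7 h9 with h7 | ⟨h7, -⟩ | ⟨-, -, -, h10⟩
    · exact h7 hXdU
    · exact absurd h7 (by decide)
    · linarith
  have hdc2 : SW Γ₂ D {d} true Xd B Y0 := by
    refine hdc1.grow st2.grow ?_
    intro x h7 h8 h9
    rcases StageC3_mem_lineD hcb2 hlo' hs0' h9 with h7 | ⟨h7, -⟩ | ⟨-, -, -, h10⟩
    · exact h7 (st1.sub _ hXdU)
    · exact absurd h7 (by decide)
    · linarith
  have st3 : Step G Γ₂ U₂ (seg true Xd yc yc2) {a}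
      (Function.update Γ₂ a (Γ₂ a ⊔ seg true Xd yc yc2)) U₂ := by
    refine Step.draw st2.wd (fun _ => Finset.Subset.refl _) le_sup_left ?_ ?_ ?_
    · intro o l x hx
      rcases hx with hx | hx
      · exact st2.wd.lines a o l x hx
      · rw [CoreG2_segm hyc4] at hx
        obtain ⟨rfl, rfl, -, -⟩ := hx
        exact hXdU₂
    · intro o l x hx hxn
      rcases hx with hx | hx
      · exact absurd hx hxn
      · exact hx
    · intro o l x hx hxn w hwa hxw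
      rcases hx with hx | hx
      · exact absurd hx hxn
      · rw [CoreG2_segm hyc4] at hx
        obtain ⟨rfl, rfl, h7, h8⟩ := hx
        have := ((hdc2 x (hBy'.trans h7) (h8.trans hyc5)).2 w).1 hxw
        rw [Set.mem_singleton_iff] at this
        rw [this]
        exact had
  set Γ₃ : Dr V := Function.update Γ₂ a (Γ₂ a ⊔ seg true Xd yc yc2) with hΓ₃
  have hQ3 : seg true Xd yc yc2 ≤ D ⊓ StageC3_Q U Λ Xw Xd B yc yc2 := by
    intro o l x hx
    rw [CoreG2_segm hyc4] at hx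
    obtain ⟨rfl, rfl, h7, h8⟩ := hx
    exact ⟨(hdc x (hBy'.trans h7) (h8.trans hyc5)).1, Or.inr (Or.inr (Or.inr ⟨rfl, rfl, h7, h8⟩))⟩
  have hK3 : ({a} : Set V) ⊆ K₀ := by
    intro q hq
    rw [Set.mem_singleton_iff] at hq
    exact Or.inr (Or.inr (Or.inl hq))
  have hst3 := st3.weaken hQ3 hK3
  have hst := (hst1.trans hst2).trans hst3
  have hΓa : Γ₃ a = seg false Λ Xs e₂ ⊔ seg true Xs Λ yc ⊔ seg false yc Xd Xs ⊔
      seg true Xd yc yc2 := by
    rw [hΓ₃, Function.update_self, hΓp]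
  have hΓn : ∀ v, v ≠ a → Γ₃ v = Γ₂ v := fun v hv => Function.update_of_ne hv _ _
  have hpend : ∀ q ∈ qs,
      Pend PI Γ₃ U₂ D true B Y0 ⟨q.v, q.X, q.g, B - 1, q.X + 1, true⟩ ∧ q.X ∉ U true := by
    intro q hq
    have hp := hpl q hq
    have hqat : q.v ∈ at' := by
      rw [← hrqs]
      exact List.mem_map_of_mem hq
    have hqa : q.v ≠ a := fun hh => haat (hh ▸ hqat)
    obtain ⟨h7, h8, h9⟩ := CoreG2_ordP_mem hord hq
    have hcov : Γ₁ q.v = seg false Λ q.X q.es ⊔ seg true q.X Λ B := by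
      rw [hp.cov, Pl.cov, hkind q hq]
    have hcov2 : ∃ es', q.X < es' ∧ Γ₂ q.v = seg false Λ q.X es' ⊔ seg true q.X Λ B := by
      by_cases hql : q.v = lv
      · have hne : qs ≠ [] := List.ne_nil_of_mem hq
        have hl1 : qs.getLast? = some (qs.getLast hne) := List.getLast?_eq_some_getLast hne
        have hl2 : lv = (qs.getLast hne).v := by
          have h10 : (z :: at').getLast? = some (qs.getLast hne).v := by
            rw [List.getLast?_cons, ← hrqs, List.getLast?_map, hl1]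
            rfl
          rw [hlast] at h10
          exact Option.some.inj h10
        have hl3 : q = qs.getLast hne := by
          have h10 : (qs.map Pl.v).Nodup := by
            rw [hrqs]
            exact (List.nodup_cons.1 (List.nodup_cons.1 hndz).2).2
          exact List.inj_on_of_nodup_map h10 hq (List.getLast_mem hne) (hql.trans hl2)
        have hqe : q.es = e₁ := hesl q (by rw [hl3]; exact hl1)
        have hes := hp.es
        have hesXs : e₁ < Xs := he₁.trans hXdXs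
        refine ⟨s₂, ?_, ?_⟩
        · linarith
        · rw [hql, hΓv, ← hql, hcov, hqe, sup_right_comm, LineB_join (hqe ▸ hes) (by linarith)]
      · refine ⟨q.es, hp.es, ?_⟩
        rw [st2.grow.eq, hcov]
        rintro (h10 | h10 | h10)
        · exact hql h10
        · exact hqa h10
        · exact hnJ q.v (by simp [hqat]) _ hf0 h10
    obtain ⟨es', hes1, hes2⟩ := hcov2
    have hown : ∀ x, B ≤ x → ∀ w, x ∈ Γ₃ w true q.X → w = q.v := by
      intro x hx w hxw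
      rcases st3.grow.new w _ _ x hxw with h10 | ⟨-, h10⟩
      · rcases st2.grow.new w _ _ x h10 with h11 | ⟨-, h11⟩
        · exact (hp.lX x (hsB.trans hx)).2 w h11
        · rcases StageC3_mem_lineD hcb2 hlo' hs0' h11 with h12 | ⟨h12, -⟩ | ⟨-, -, -, h12⟩
          · exact absurd hp.hX h12
          · exact absurd h12 (by decide)
          · linarith
      · rw [CoreG2_segm hyc4] at h10
        linarith [h10.2.1]
    refine ⟨direct_pend hes1 hΛB h8 (by linarith) (by linarith) (fun C hC => hC.path) ?_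
      (st2.sub _ hp.hX) (st2.sub _ hp.hg)
      (fun x hx _ => ⟨(hp.lX x (hsB.trans hx)).1, hown x hx⟩),
      fun hh => (hnew q hq).1 hh⟩
    rw [hΓn _ hqa, hes2]
  have hOv12 : ∀ {u v : V}, Ov Γ₁ u v → Ov Γ₃ u v := fun hh => (hh.mono st2.grow).mono st3.grow
  have hOv2 : ∀ {u v : V}, Ov Γ₂ u v → Ov Γ₃ u v := fun hh => hh.mono st3.grow
  have hchainA : List.IsChain (Ov Γ₃) (z :: (at' ++ [a])) := by
    have h7 : z :: (at' ++ [a]) = (z :: at') ++ [a] := rfl
    rw [h7, List.isChain_append]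
    refine ⟨hchain.imp (fun _ _ hh => hOv12 hh), List.isChain_singleton a, ?_⟩
    intro x hx y hy
    rw [hlast] at hx
    simp only [Option.mem_def, Option.some.injEq] at hx
    simp only [List.head?_cons, Option.mem_def, Option.some.injEq] at hy
    subst hx
    subst hy
    exact hOv2 hov2
  have hOw : ∀ v ∈ z :: (at' ++ [a]), Ov Γ₃ v ow := by
    intro v hv
    rw [List.mem_cons, List.mem_append, List.mem_singleton] at hv
    rcases hv with rfl | hv | rfl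
    · have h7 : Ov Γ v ow := by
        refine ⟨false, Λ, (c0 + e) / 2, ?_, ?_⟩
        · exact ((h.zone _ hc0 hc0').2 v).2 (by simp)
        · exact ((h.zone _ hc0 hc0').2 ow).2 (by simp)
      exact hOv12 (h7.mono st1.grow)
    · rw [← hrqs, List.mem_map] at hv
      obtain ⟨q, hq, rfl⟩ := hv
      exact hOv12 (hov q hq)
    · exact hOv2 hov3
  refine ⟨Γ₃, U₂, qs.map (fun q => ⟨q.v, q.X, q.g, B - 1, q.X + 1, true⟩), yc, yc2, Xs, s₂, e₂, x₁,
    y₁, hyc1, hyc4, hyc5, hycU, hst, ?_, ?_, ?_, hXdXs, he2Xs, hXs2,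
    fun hh => hXsU₁ (st1.sub _ hh), hXsU₂, hycU₂, hXsyc, he₂, heb, ?_, hΓa, ?_, ?_, ?_, ?_,
    hchainA, ?_⟩
  · rw [← hrqs]
    simp [rv, List.map_map, Function.comp_def]
  · exact StageC3_ordP (fun q => ⟨q.v, q.X, q.g, B - 1, q.X + 1, true⟩) (fun q => ⟨rfl, rfl⟩)
      hord (le_max_left _ _)
  · intro r hr
    obtain ⟨q, hq, rfl⟩ := List.mem_map.1 hr
    exact ⟨(hpend q hq).1, (hpend q hq).2, rfl⟩
  · refine hL2.grow st3.grow ?_ ?_ ?_
    · intro x _ _ hx
      rw [CoreG2_segm hyc4] at hx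
      exact absurd hx.1 (by decide)
    · intro x _ _ hx
      rw [CoreG2_segm hyc4] at hx
      exact absurd hx.1 (by decide)
    · intro x _ _ hx
      rw [CoreG2_segm hyc4] at hx
      linarith [hx.2.1]
  · intro x q hx hxq
    rcases st3.grow.new q _ _ x hxq with h7 | ⟨h7, -⟩
    · exact huniq x q (hys.le.trans hx) h7
    · exact h7
  · intro x q hxq
    rcases st3.grow.new q _ _ x hxq with h7 | ⟨h7, -⟩
    · exact huniq2 false yc x q hyc3 (by simp) hXsyc.symm h7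
    · exact h7
  · intro f hf
    have hna : ∀ v ∈ J f, v ∉ ({a} : Set V) := by
      intro v hv h7
      rw [Set.mem_singleton_iff] at h7
      exact hnJ a (by simp) f hf (h7 ▸ hv)
    rcases (StageC3_fan_snoc (l := at') hlast).1 hf with h7 | h7
    · refine Filled.mono st3.grow (Filled.mono st2.grow (hfill f h7) ?_) hna
      rintro v hv (h8 | h8 | h8)
      · exact hnJ lv hlvm' f hf (h8 ▸ hv)
      · exact hnJ a (by simp) f hf (h8 ▸ hv)
      · have hff : f ≠ {ow, lv, a} := by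
          rintro rfl
          exact hf0n h7
        exact Finset.disjoint_left.1 (hc.disj f (hfanFs hf) _ (hfanFs hf0) hff) hv h8
    · rw [h7] at hna ⊢
      exact Filled.mono st3.grow hfill2 hna
  · intro f hf p hp q hq hpq
    obtain ⟨l1, x, y, l2, h7, rfl⟩ := mem_fanF.1 hf
    have hxy : Ov Γ₃ x y := by
      have h8 := hchainA
      rw [h7] at h8
      exact (List.isChain_append_cons_cons.1 h8).2.1
    have hx : x ∈ z :: (at' ++ [a]) := by rw [h7]; simp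
    have hy : y ∈ z :: (at' ++ [a]) := by rw [h7]; simp
    simp only [Finset.mem_insert, Finset.mem_singleton] at hp hq
    rcases hp with rfl | rfl | rfl <;> rcases hq with rfl | rfl | rfl
    · exact absurd rfl hpq
    · exact (hOw _ hx).symm
    · exact (hOw _ hy).symm
    · exact hOw _ hx
    · exact absurd rfl hpq
    · exact hxy
    · exact hOw _ hy
    · exact hxy.symm
    · exact absurd rfl hpq
  · rw [hΓn z haz.symm]
    have h7 : Ext Λ sz (Γ₁ z) := by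
      rw [hz]
      exact hext.extend hesz
    by_cases hzl : z = lv
    · have h8 : at' = [] := by
        by_contra h9
        have h10 : lv ∈ at' := by
          obtain ⟨b, t, rfl⟩ := List.exists_cons_of_ne_nil h9
          rw [List.getLast?_cons_cons] at hlast
          exact List.mem_of_getLast? hlast
        exact (List.nodup_cons.1 (List.nodup_cons.1 hndz).2).1 (hzl ▸ h10)
      have h9 : ps = [] := by
        rw [hps, h8]
        rfl
      obtain ⟨-, -, h10, h11⟩ := hnil h9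
      rw [h11] at h7
      rw [hzl, hΓv, ← hzl, h10]
      exact h7 s₂ (by linarith)
    · rw [st2.grow.eq]
      · exact h7.path
      · rintro (h8 | h8 | h8)
        · exact hzl h8
        · exact haz h8.symm
        · exact hnJ z (by simp) _ hf0 h8

theorem StageC3_topc {lo hi : ℚ} {L : List (Rec V)} (h : OrdL lo L hi) :
    lo < topc L hi ∧ topc L hi ≤ hi := by
  cases L with
  | nil => exact ⟨h, le_rfl⟩
  | cons r t => exact ⟨h.1.trans h.2.1, h.2.2.lt.le⟩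

/-- where the run draws -/
def StageC3_D (U₂ : Bool → Finset ℚ) (D : Cov) (W L : List (Rec V)) (Xz Xs B Y0 y2 Xd : ℚ) :
    Cov := fun o l =>
  {x | x ∈ D o l ∧ (l ∉ U₂ o ∨ (o = true ∧ (l = Xz ∨ ∃ r ∈ W, l = r.c) ∧ B ≤ x ∧ x < Y0) ∨
     (o = true ∧ l = Xs ∧ B ≤ x ∧ x < y2) ∨ (o = false ∧ ∃ r ∈ L, l = r.c) ∨
     (o = false ∧ l = Y0 ∧ x < Xd))}

theorem StageC3_nJ {G : SimpleGraph V} {T : Finset V} {Fs : Finset (Finset V)}
    {J : Finset V → Finset V} (hc : Ctx G T Fs J) {v : V} (h : ∃ g ∈ Fs, v ∈ g)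
    {f : Finset V} (hf : f ∈ Fs) : v ∉ J f := by
  obtain ⟨g, hg, hv⟩ := h
  exact fun hh => Finset.disjoint_left.1 (hc.sep f hf g hg) hh hv

theorem StageC3_bd {s : SD V} {at' al2 : List V} {a : V} (ha : s.al = at' ++ a :: al2) {v : V} :
    v ∈ s.bd ↔ v ∈ rv s.L ∨ v = s.d ∨ v ∈ s.be ∨ v = s.w ∨ v ∈ al2 ∨ v = a ∨ v ∈ at' ∨
      v = s.z := by
  simp only [SD.bd, ha, List.mem_append, List.mem_singleton, List.reverse_append,
    List.reverse_cons, List.mem_reverse]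
  tauto

theorem StageC3_bdface {T : Finset V} {Fs : Finset (Finset V)} {s : SD V}
    {F : Finset (Finset V)} (h : Reg T Fs s.bd F) {v : V} (hv : v ∈ s.bd) :
    ∃ f ∈ F, v ∈ f := by
  have h2 : 3 ≤ s.bd.length := by
    simp only [SD.bd, List.length_append, List.length_cons, List.length_nil]
    omega
  have h1 := h.disc.mem_biUnion h2 hv
  simpa using h1

theorem StageC3_closed {G : SimpleGraph V} {T : Finset V} {Fs : Finset (Finset V)}
    {J : Finset V → Finset V} {Ex : V → V → Prop} (hc : Ctx G T Fs J)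
    (hE : ∀ u v, Ex u v → Ex v u) {Γ Γ₂ : Dr V} {U U₂ : Bool → Finset ℚ} {D : Cov} {s : SD V}
    {F Fn Fo : Finset (Finset V)} (hw : Wd G Γ U) (hD : Adm U D) (hG : SG Γ U D s)
    (hS : SC G T Fs J Ex Γ s F) {al2 : List V} {a : V} {W : List (Rec V)}
    {yc yc2 Xs e' y2 : ℚ} (ha : s.al = rv W ++ a :: al2) (hF : F = Fn ∪ Fo)
    (hord : OrdL s.B s.L y2) (h4 : y2 < yc) (h5 : yc < yc2) (h6 : yc2 < s.Y0)
    (hst : Step G Γ U (D ⊓ StageC3_Q U s.l1.Λ s.Xw s.Xd s.B yc yc2)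
      {q | q = s.z ∨ q ∈ rv W ∨ q = a ∨ ∃ f ∈ fanF s.l1.ow (s.z :: (rv W ++ [a])), q ∈ J f} Γ₂ U₂)
    (hWo : OrdL s.A W s.Xd)
    (hW : ∀ r ∈ W, Pend PI Γ₂ U₂ D true s.B s.Y0 r ∧ r.c ∉ U true ∧ r.pl = true)
    (hXd : s.Xd < Xs) (hXw : Xs < s.Xw) (hXsU : Xs ∉ U true)
    (hΓa : Γ₂ a = seg false s.l1.Λ Xs e' ⊔ seg true Xs s.l1.Λ yc ⊔ seg false yc s.Xd Xs ⊔
      seg true s.Xd yc yc2)
    (hu1 : ∀ x q, s.l1.s1 ≤ x → x ∈ Γ₂ q true Xs → q = a)
    (hch : List.IsChain (Ov Γ₂) (s.z :: (rv W ++ [a])))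
    (hMC : MC T Fs (rv s.L ++ [s.d]) (rv W ++ [a]) [] [] s.z Fo)
    (hv : ∀ v, v ∈ verts ([a] ++ al2 ++ [s.w] ++ s.be.reverse ++ [s.d]) Fn →
        v ∈ verts (rv s.L ++ [s.d] ++ [] ++ (rv W ++ [a]).reverse ++ [s.z]) Fo →
        v = s.d ∨ v = a) :
    Closed G PI J Ex Γ₂ U₂ (StageC3_D U₂ D W s.L s.Xz Xs s.B s.Y0 y2 s.Xd) Fo
      (KSet J (lN W a s.L s.d [] ++ [s.z]) Fo W s.L) := by
  have hΛB : s.l1.Λ < s.B :=
    lt_of_le_of_lt hG.line1.ok.h6 (lt_of_lt_of_le hG.line1.ok.h7 hG.line1.sB)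
  obtain ⟨ht1, ht2⟩ := StageC3_topc hG.ordL
  have hXzU : s.Xz ∈ U true := hG.zcol.mem (Set.mem_singleton s.z) hw.lines ht1
  have hXzXd : s.Xz < s.Xd := hG.o1.trans_le hG.o2 |>.trans hG.o3
  have hY0U : s.Y0 ∈ U false := hG.bbase.mem (Set.mem_singleton s.d) hw.lines hG.o3
  have hBY0 : s.B < s.Y0 := hG.ordL.lt
  have hBy2 : s.B < y2 := hord.lt
  have hFoF : Fo ⊆ F := by rw [hF]; exact Finset.subset_union_right
  have hFFs := hS.reg.sub
  have hfc1 : fanF s.l1.ow (s.z :: (rv W ++ [a])) ⊆ fanF s.l1.ow (s.z :: s.al ++ [s.w]) := by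
    intro f hf
    have h7 : s.z :: s.al ++ [s.w] = (s.z :: rv W) ++ a :: (al2 ++ [s.w]) := by
      rw [ha]
      simp
    rw [h7, StageC3_fan_split]
    exact Or.inl hf
  have hfcFs : fanF s.l1.ow (s.z :: s.al ++ [s.w]) ⊆ Fs := StageC3_fan_sub hS.ln1
  -- membership in K₀
  have hbdK : ∀ v, v ∈ rv s.L → v ∉ ({q | q = s.z ∨ q ∈ rv W ∨ q = a ∨
      ∃ f ∈ fanF s.l1.ow (s.z :: (rv W ++ [a])), q ∈ J f} : Set V) := by
    intro v hv1 hv2
    have hvb : v ∈ s.bd := (StageC3_bd ha).2 (Or.inl hv1)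
    have hnd : s.bd.Nodup := (List.nodup_cons.1 (List.nodup_cons.1 hS.nd).2).2
    have hnd' : (rv s.L ++ ([s.d] ++ s.be ++ [s.w] ++ (rv W ++ a :: al2).reverse ++ [s.z])).Nodup := by
      have h7 : s.bd = rv s.L ++ ([s.d] ++ s.be ++ [s.w] ++ (rv W ++ a :: al2).reverse ++ [s.z]) := by
        rw [SD.bd, ha]
        simp
      rwa [← h7]
    rw [List.nodup_append] at hnd'
    rcases hv2 with h7 | h7 | h7 | ⟨f, hf, h7⟩
    · exact hnd'.2.2 v hv1 v (by simp [h7]) rfl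
    · exact hnd'.2.2 v hv1 v (by simp [h7]) rfl
    · exact hnd'.2.2 v hv1 v (by simp [h7]) rfl
    · obtain ⟨g, hg, hvg⟩ := StageC3_bdface hS.reg hvb
      exact StageC3_nJ hc ⟨g, hFFs hg, hvg⟩ (hfcFs (hfc1 hf)) h7
  -- windows on rows and columns
  have hq1 : ∀ l x, l ∈ U false → l ≠ s.l1.Λ →
      x ∉ (D ⊓ StageC3_Q U s.l1.Λ s.Xw s.Xd s.B yc yc2) false l := by
    intro l x hl hne hx
    rcases hx.2 with h7 | ⟨-, h7, -⟩ | ⟨h7, -⟩ | ⟨h7, -⟩
    · exact h7 hl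
    · exact hne h7
    · exact absurd h7 (by decide)
    · exact absurd h7 (by decide)
  have hq2 : ∀ l x, l ∈ U true → l ≠ s.Xd → s.B ≤ x →
      x ∉ (D ⊓ StageC3_Q U s.l1.Λ s.Xw s.Xd s.B yc yc2) true l := by
    intro l x hl hne hxB hx
    rcases hx.2 with h7 | ⟨h7, -⟩ | ⟨-, -, h7⟩ | ⟨-, h7, -⟩
    · exact h7 hl
    · exact absurd h7 (by decide)
    · linarith
    · exact hne h7
  have hnJ : ∀ v, (∃ g ∈ Fs, v ∈ g) → ∀ f ∈ Fs, v ∉ J f := fun v h f hf => StageC3_nJ hc h hf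
  have hadm : Adm U₂ (StageC3_D U₂ D W s.L s.Xz Xs s.B s.Y0 y2 s.Xd) := by
    intro o l x hx
    exact ⟨(hD.mono hst.sub) o l hx, Or.inl hx⟩
  -- geometry
  have hzcol : SW Γ₂ (StageC3_D U₂ D W s.L s.Xz Xs s.B s.Y0 y2 s.Xd) {s.z} true s.Xz s.B
      (topc s.L s.Y0) := by
    refine CoreG2_SW (hG.zcol.grow hst.grow (fun x h7 _ => hq2 _ _ hXzU hXzXd.ne h7.le)) ?_
    intro x h7 h8 h9
    exact ⟨h9, Or.inr (Or.inl ⟨rfl, Or.inl rfl, h7.le, h8.trans_le ht2⟩)⟩
  have htopU : topc s.L s.Y0 ∈ U false := hG.top.mem (Set.mem_singleton _) hw.lines hG.o1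
  have htop : SW Γ₂ (StageC3_D U₂ D W s.L s.Xz Xs s.B s.Y0 y2 s.Xd) {topv s.L s.d} false
      (topc s.L s.Y0) s.Xz s.h := by
    refine CoreG2_SW (hG.top.grow hst.grow (fun x _ _ => hq1 _ _ htopU (hΛB.trans ht1).ne')) ?_
    intro x h7 h8 h9
    refine ⟨h9, ?_⟩
    cases hL : s.L with
    | nil => exact Or.inr (Or.inr (Or.inr (Or.inr ⟨rfl, rfl, by linarith [hG.o2, hG.o3]⟩)))
    | cons r t => exact Or.inr (Or.inr (Or.inr (Or.inl ⟨rfl, r, by simp, rfl⟩)))
  have hblack : ∀ r ∈ s.L, ∃ q ≤ s.A, Pend PI Γ₂ U₂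
      (StageC3_D U₂ D W s.L s.Xz Xs s.B s.Y0 y2 s.Xd) false q Xs r := by
    intro r hr
    obtain ⟨q, hq, hp⟩ := hG.black r hr
    have hre : r.e < q := (hp.plain (hG.pl r hr)).2.1
    refine ⟨q, hq, Pend.mono_D (D := D) (Pend.mono_hi (Pend.grow hp hst.grow hst.sub
      (hbdK r.v (List.mem_map_of_mem hr)) ?_ ?_) hXw.le) ?_ ?_⟩
    · intro x _ _
      exact hq1 _ _ hp.hc (hΛB.trans ((hG.ordL.mem hr).1.trans (hG.ordL.mem hr).2.1)).ne'
    · intro x h7 h8
      linarith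
    · intro x _ _ h7
      exact ⟨h7, Or.inr (Or.inr (Or.inr (Or.inl ⟨rfl, r, hr, rfl⟩)))⟩
    · intro x h7 h8
      linarith
  have hwhite : ∀ r ∈ W, ∃ q ≤ s.B, Pend PI Γ₂ U₂
      (StageC3_D U₂ D W s.L s.Xz Xs s.B s.Y0 y2 s.Xd) true q s.Y0 r := by
    intro r hr
    obtain ⟨hp, -, hpl⟩ := hW r hr
    have hre : r.e < s.B := (hp.plain hpl).2.1
    refine ⟨s.B, le_rfl, hp.mono_D ?_ ?_⟩
    · intro x h7 h8 h9
      exact ⟨h9, Or.inr (Or.inl ⟨rfl, Or.inr ⟨r, hr, rfl⟩, h7, h8⟩)⟩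
    · intro x h7 h8
      linarith
  have hwbase : SW Γ₂ (StageC3_D U₂ D W s.L s.Xz Xs s.B s.Y0 y2 s.Xd) {a} true Xs s.B y2 := by
    intro x h7 h8
    refine ⟨⟨hD true Xs hXsU, Or.inr (Or.inr (Or.inl ⟨rfl, rfl, h7.le, h8⟩))⟩, fun v => ?_⟩
    rw [Set.mem_singleton_iff]
    refine ⟨fun h9 => hu1 x v (hG.line1.sB.trans h7.le) h9, ?_⟩
    rintro rfl
    rw [hΓa]
    refine Or.inl (Or.inl (Or.inr ?_))
    rw [CoreG2_segm (hΛB.trans (hBy2.trans h4))]
    exact ⟨rfl, rfl, hΛB.trans h7, h8.trans h4⟩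
  have hbbase : SW Γ₂ (StageC3_D U₂ D W s.L s.Xz Xs s.B s.Y0 y2 s.Xd) {s.d} false s.Y0 s.A
      s.Xd := by
    refine CoreG2_SW (hG.bbase.grow hst.grow (fun x _ _ => hq1 _ _ hY0U (hΛB.trans hBY0).ne')) ?_
    intro x h7 h8 h9
    exact ⟨h9, Or.inr (Or.inr (Or.inr (Or.inr ⟨rfl, rfl, h8⟩)))⟩
  -- combinatorics of undrawn vertices
  have hlN : lN W a s.L s.d [] ++ [s.z] =
      rv s.L ++ [s.d] ++ [] ++ (rv W ++ [a]).reverse ++ [s.z] := rfl
  have hund : ∀ v ∈ Own J (lN W a s.L s.d [] ++ [s.z]) Fo, Undrawn Γ₂ v := by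
    intro v hvO
    rw [hlN] at hvO
    rcases hvO with ⟨h7, h8⟩ | ⟨f, hf, h7⟩
    · have h9 : ∃ f ∈ Fo, v ∈ f := by
        rcases StageC3_mem_verts.1 h7 with h10 | h10
        · exact absurd h10 h8
        · exact h10
      obtain ⟨f, hf, hvf⟩ := h9
      have h10 : v ∉ s.bd := by
        intro h11
        have h12 : v ∈ [a] ++ al2 ++ [s.w] ++ s.be.reverse ++ [s.d] := by
          rw [StageC3_bd ha] at h11
          simp only [List.mem_append, List.mem_cons, List.mem_reverse, List.not_mem_nil,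
            or_false] at h8 ⊢
          tauto
        have h13 := hv v (StageC3_mem_verts.2 (Or.inl h12)) h7
        apply h8
        rcases h13 with rfl | rfl <;> simp
      refine (hS.und v (Or.inl ⟨StageC3_mem_verts.2 (Or.inr ⟨f, hFoF hf, hvf⟩), h10⟩)).grow
        hst.grow ?_
      rintro (h11 | h11 | h11 | ⟨g, hg, h11⟩)
      · exact h10 ((StageC3_bd ha).2 (by tauto))
      · exact h10 ((StageC3_bd ha).2 (by tauto))
      · exact h10 ((StageC3_bd ha).2 (by tauto))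
      · exact hnJ v ⟨f, hFFs (hFoF hf), hvf⟩ g (hfcFs (hfc1 hg)) h11
    · refine (hS.und v (Or.inr (Or.inr (Or.inr ⟨f, Finset.mem_union_left _ (hFoF hf), h7⟩)))).grow
        hst.grow ?_
      have h8 : v ∉ s.bd := by
        intro h9
        obtain ⟨g, hg, hvg⟩ := StageC3_bdface hS.reg h9
        exact hnJ v ⟨g, hFFs hg, hvg⟩ f (hFFs (hFoF hf)) h7
      rintro (h11 | h11 | h11 | ⟨g, hg, h11⟩)
      · exact h8 ((StageC3_bd ha).2 (by tauto))
      · exact h8 ((StageC3_bd ha).2 (by tauto))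
      · exact h8 ((StageC3_bd ha).2 (by tauto))
      · have h12 : f ≠ g := by
          rintro rfl
          exact Finset.disjoint_left.1 hS.dj1 (hFoF hf) (hfc1 hg)
        exact Finset.disjoint_left.1 (hc.disj f (hFFs (hFoF hf)) g (hfcFs (hfc1 hg)) h12) h7 h11
  have hOvad : Ov Γ₂ a s.d := by
    obtain ⟨x, hx1, hx2⟩ := exists_between h5
    refine ⟨true, s.Xd, x, ?_, ?_⟩
    · rw [hΓa]
      refine Or.inr ?_
      rw [CoreG2_segm h5]
      exact ⟨rfl, rfl, hx1, hx2⟩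
    · exact hst.grow.mono _ _ _ _
        (((hG.dcol x (hBy2.trans (h4.trans hx1)) (hx2.trans h6)).2 s.d).2 rfl)
  have hch' : List.IsChain (Rz Ex Γ₂) (s.z :: (rv W ++ [a])) := hch.imp (fun _ _ hh => Or.inr hh)
  have hside : Side PI J Ex Γ₂ (StageC3_D U₂ D W s.L s.Xz Xs s.B s.Y0 y2 s.Xd) s.A W a s.L s.d
      s.Y0 [] (lN W a s.L s.d [] ++ [s.z]) Fo :=
    { av := fun v _ x hx => absurd hx List.not_mem_nil
      base := fun hh => absurd rfl hh
      und := hund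
      hP := fun v _ C hC => hC
      pl := hG.pl
      rW := (List.isChain_cons.1 hch').2
      rL := Rz.chain_mono hst.grow hS.rL
      rB := fun _ => Or.inr hOvad
      lk := fun hh => absurd rfl hh }
  refine closedM1 hc hE (z := s.z) (Xz := s.Xz) (h := s.h) (A := s.A) (B := s.B) (X0 := Xs)
    (u := s.Xd) (Y0 := s.Y0) (yu := y2) ⟨hadm, hst.wd, ⟨⟨hWo, hord, hXd.le, ?_, hwhite, hblack,
      hwbase, hbbase⟩, hG.o1, hG.o2, hzcol, htop⟩, hMC, hside, ?_, hS.rz2.mono hst.grow⟩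
  · linarith
  · cases W with
    | nil => exact (List.isChain_cons_cons.1 hch').1
    | cons r t => exact (List.isChain_cons_cons.1 hch').1

/-- the data of the new stage -/
def StageC3_s (s : SD V) (a : V) (al2 : List V) (m y2 yc yc2 Xs c0n e' x₁ y₁ : ℚ) : SD V where
  z := s.d
  d := a
  w := s.w
  Xz := s.Xd
  h := m
  A := m
  B := y2
  Y0 := yc
  Xd := Xs
  Xw := s.Xw
  Top := s.Top
  t0 := yc2
  t1 := s.Y0
  zt := true
  L := []
  al := s.be
  be := al2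
  l1 := s.l2
  l2 := ⟨s.l1.ow, s.l1.Λ, Xs, c0n, e', s.l1.R, x₁, s.l1.hi, y₁, s.l1.s1, s.l1.nr⟩

theorem StageC3_SG {G : SimpleGraph V} {Γ Γ₂ Γ₁ : Dr V} {U U₂ U₁ : Bool → Finset ℚ} {D : Cov}
    {s : SD V} {K₀ K₁ : Set V} {W : List (Rec V)} {a : V} {al2 : List V}
    {m y2 yc yc2 Xs c0n e' x₁ y₁ : ℚ} (hw : Wd G Γ U) (hD : Adm U D) (hG : SG Γ U D s)
    (hst : Step G Γ U (D ⊓ StageC3_Q U s.l1.Λ s.Xw s.Xd s.B yc yc2) K₀ Γ₂ U₂)
    (hst2 : Step G Γ₂ U₂ (StageC3_D U₂ D W s.L s.Xz Xs s.B s.Y0 y2 s.Xd) K₁ Γ₁ U₁)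
    (hd0 : s.d ∉ K₀) (hd1 : s.d ∉ K₁) (ha1 : a ∉ K₁) (hord : OrdL s.B s.L y2)
    (h4 : y2 < yc) (h5 : yc < yc2) (h6 : yc2 < s.Y0) (hyc : yc ∉ U false)
    (hycU₂ : yc ∈ U₂ false) (hWc : ∀ r ∈ W, r.c < s.Xd) (hXd : s.Xd < Xs) (hXw : Xs < s.Xw)
    (hXsU : Xs ∉ U true) (hXsU₂ : Xs ∈ U₂ true) (he2 : s.l2.e < Xs) (heX : Xs < e')
    (heXw : e' < s.Xw)
    (hLO : LineOK Γ₂ D s.l1.ow s.l1.Λ a Xs c0n e' s.l1.R x₁ s.l1.hi y₁ s.l1.s1)
    (hΓa : Γ₂ a = seg false s.l1.Λ Xs e' ⊔ seg true Xs s.l1.Λ yc ⊔ seg false yc s.Xd Xs ⊔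
      seg true s.Xd yc yc2)
    (hu1 : ∀ x q, s.l1.s1 ≤ x → x ∈ Γ₂ q true Xs → q = a)
    (hu2 : ∀ x q, x ∈ Γ₂ q false yc → q = a) (hm1 : s.Xd < m) (hm2 : m < Xs) :
    SG Γ₁ U₁ D (StageC3_s s a al2 m y2 yc yc2 Xs c0n e' x₁ y₁) := by
  have hΛs1 : s.l1.Λ < s.l1.s1 := lt_of_le_of_lt hG.line1.ok.h6 hG.line1.ok.h7
  have hΛs2 : s.l2.Λ < s.l2.s1 := lt_of_le_of_lt hG.line2.ok.h6 hG.line2.ok.h7
  have hΛB : s.l1.Λ < s.B := hΛs1.trans_le hG.line1.sB
  have hΛB2 : s.l2.Λ < s.B := hΛs2.trans_le hG.line2.sB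
  have hXzXd : s.Xz < s.Xd := hG.o1.trans_le hG.o2 |>.trans hG.o3
  have hBY0 : s.B < s.Y0 := hG.ordL.lt
  have hBy2 : s.B < y2 := hord.lt
  have hXdU : s.Xd ∈ U true := hG.dcol.mem (Set.mem_singleton _) hw.lines hBY0
  have hXwU : s.Xw ∈ U true :=
    hG.wcol.mem (Set.mem_singleton _) hw.lines (hBY0.trans hG.o5)
  have hΛU : s.l1.Λ ∈ U false :=
    hG.line1.ok.res.mem (Set.mem_singleton _) hw.lines hG.line1.ok.h1
  have hΛU2 : s.l2.Λ ∈ U false :=
    hG.line2.ok.res.mem (Set.mem_singleton _) hw.lines hG.line2.ok.h1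
  have hRU : s.l1.R ∈ U true := hG.line1.col.mem (Set.mem_singleton _) hw.lines hΛs1
  have hRU2 : s.l2.R ∈ U true := hG.line2.col.mem (Set.mem_singleton _) hw.lines hΛs2
  -- windows and the first step
  have hq1 : ∀ l x, l ∈ U false → l ≠ s.l1.Λ →
      x ∉ (D ⊓ StageC3_Q U s.l1.Λ s.Xw s.Xd s.B yc yc2) false l := by
    intro l x hl hne hx
    rcases hx.2 with h7 | ⟨-, h7, -⟩ | ⟨h7, -⟩ | ⟨h7, -⟩
    · exact h7 hl
    · exact hne h7
    · exact absurd h7 (by decide)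
    · exact absurd h7 (by decide)
  have hq2 : ∀ l x, l ∈ U true → s.Xd ≤ l → ¬ (l = s.Xd ∧ yc < x ∧ x < yc2) →
      x ∉ (D ⊓ StageC3_Q U s.l1.Λ s.Xw s.Xd s.B yc yc2) true l := by
    intro l x hl hne hxB hx
    rcases hx.2 with h7 | ⟨h7, -⟩ | ⟨-, h7, -⟩ | ⟨-, h7⟩
    · exact h7 hl
    · exact absurd h7 (by decide)
    · linarith
    · exact hxB h7
  have hq3 : ∀ x, s.Xw ≤ x →
      x ∉ (D ⊓ StageC3_Q U s.l1.Λ s.Xw s.Xd s.B yc yc2) false s.l1.Λ := by
    intro x hxw hx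
    rcases hx.2 with h7 | ⟨-, -, h7⟩ | ⟨h7, -⟩ | ⟨h7, -⟩
    · exact h7 hΛU
    · linarith
    · exact absurd h7 (by decide)
    · exact absurd h7 (by decide)
  -- windows and the run
  have hr1 : ∀ l x, l ∈ U₂ false → l ≠ s.Y0 → (∀ r ∈ s.L, l ≠ r.c) →
      x ∉ (StageC3_D U₂ D W s.L s.Xz Xs s.B s.Y0 y2 s.Xd) false l := by
    rintro l x hl hne hne2 ⟨-, h7 | ⟨h7, -⟩ | ⟨h7, -⟩ | ⟨-, r, hr, h7⟩ | ⟨-, h7, -⟩⟩
    · exact h7 hl
    · exact absurd h7 (by decide)
    · exact absurd h7 (by decide)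
    · exact hne2 r hr h7
    · exact hne h7
  have hr1' : ∀ l x, l ∈ U₂ false → l < s.B →
      x ∉ (StageC3_D U₂ D W s.L s.Xz Xs s.B s.Y0 y2 s.Xd) false l := by
    intro l x hl hlB
    refine hr1 l x hl (by linarith) ?_
    intro r hr hh
    have := hord.mem hr
    linarith
  have hr2 : ∀ l x, l ∈ U₂ true → s.Xd ≤ l → (l = Xs → y2 ≤ x) →
      x ∉ (StageC3_D U₂ D W s.L s.Xz Xs s.B s.Y0 y2 s.Xd) true l := by
    rintro l x hl hle hy ⟨-, h7 | ⟨-, h7, -⟩ | ⟨-, h7, -, h8⟩ | ⟨h7, -⟩ | ⟨h7, -⟩⟩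
    · exact h7 hl
    · rcases h7 with h7 | ⟨r, hr, h7⟩
      · linarith
      · have := hWc r hr
        linarith
    · have := hy h7
      linarith
    · exact absurd h7 (by decide)
    · exact absurd h7 (by decide)
  have hr3 : ∀ l x, l ∈ U₂ true → x < s.B →
      x ∉ (StageC3_D U₂ D W s.L s.Xz Xs s.B s.Y0 y2 s.Xd) true l := by
    rintro l x hl hle ⟨-, h7 | ⟨-, -, h7, -⟩ | ⟨-, -, h7, -⟩ | ⟨h7, -⟩ | ⟨h7, -⟩⟩
    · exact h7 hl
    · linarith
    · linarith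
    · exact absurd h7 (by decide)
    · exact absurd h7 (by decide)
  have hsubU : ∀ {o : Bool} {l : ℚ}, l ∈ U o → l ∈ U₂ o := fun h => hst.sub _ h
  -- the row `yc`
  have hrow1 : ∀ x v, x ∈ Γ₁ v false yc → v = a ∧ s.Xd < x ∧ x < Xs := by
    intro x v hx
    have h7 : x ∈ Γ₂ v false yc := by
      rcases hst2.grow.new v _ _ x hx with h7 | ⟨-, h7⟩
      · exact h7
      · refine absurd h7 (hr1 yc x hycU₂ (by linarith) ?_)
        intro r hr hh
        have := hord.mem hr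
        linarith
    have h8 : v = a := hu2 x v h7
    rw [h8, hΓa] at h7
    refine ⟨h8, ?_⟩
    rcases h7 with ((h7 | h7) | h7) | h7
    · rw [CoreG2_segm heX] at h7
      linarith [h7.2.1]
    · rw [CoreG2_segm (by linarith)] at h7
      exact absurd h7.1 (by decide)
    · rw [CoreG2_segm hXd] at h7
      exact h7.2.2
    · rw [CoreG2_segm h5] at h7
      exact absurd h7.1 (by decide)
  have hrow2 : ∀ x, s.Xd < x → x < Xs → x ∈ Γ₁ a false yc := by
    intro x h7 h8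
    refine hst2.grow.mono _ _ _ _ ?_
    rw [hΓa]
    refine Or.inl (Or.inr ?_)
    rw [CoreG2_segm hXd]
    exact ⟨rfl, rfl, h7, h8⟩
  have hrowW : ∀ p q, s.Xd ≤ p → q ≤ Xs → SW Γ₁ D {a} false yc p q := by
    intro p q hp hq x h7 h8
    refine ⟨hD false yc hyc, fun v => ?_⟩
    rw [Set.mem_singleton_iff]
    refine ⟨fun h9 => (hrow1 x v h9).1, ?_⟩
    rintro rfl
    exact hrow2 x (by linarith) (by linarith)
  -- the column `Xd`
  have hcolXd : ∀ p q, s.B ≤ p → q ≤ s.Y0 → (q ≤ yc ∨ yc2 ≤ p) → SW Γ₁ D {s.d} true s.Xd p q := by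
    intro p q hp hq hpq
    refine SW.grow (SW.grow (hG.dcol.sub hp hq) hst.grow ?_) hst2.grow ?_
    · intro x h7 h8
      refine hq2 _ x hXdU le_rfl ?_
      rintro ⟨-, h9, h10⟩
      rcases hpq with h11 | h11 <;> linarith
    · intro x h7 h8
      exact hr2 _ x (hsubU hXdU) le_rfl (fun hh => by linarith)
  have hG1 := hG.line1
  have hG2 := hG.line2
  have hlc2 := hG.lc2
  have hdcol : SW Γ₁ D {a} true Xs y2 yc := by
    intro x h7 h8
    refine ⟨hD true Xs hXsU, fun v => ?_⟩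
    rw [Set.mem_singleton_iff]
    constructor
    · intro h9
      rcases hst2.grow.new v _ _ x h9 with h10 | ⟨-, h10⟩
      · exact hu1 x v (by linarith [hG1.sB]) h10
      · exact absurd h10 (hr2 Xs x hXsU₂ hXd.le (fun _ => h7.le))
    · rintro rfl
      refine hst2.grow.mono _ _ _ _ ?_
      rw [hΓa]
      refine Or.inl (Or.inl (Or.inr ?_))
      rw [CoreG2_segm (by linarith)]
      exact ⟨rfl, rfl, by linarith, h8⟩
  have hwcol : SW Γ₁ D {s.w} true s.Xw y2 s.Top := by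
    refine SW.grow (SW.grow (hG.wcol.sub hBy2.le le_rfl) hst.grow ?_) hst2.grow ?_
    · intro x h7 h8
      refine hq2 _ x hXwU hG.o4.le ?_
      rintro ⟨h9, -⟩
      linarith [hG.o4]
    · intro x h7 h8
      exact hr2 _ x (hsubU hXwU) hG.o4.le (fun hh => by linarith)
  have hXR1 := hG1.XR
  have hXR2 := hG2.XR
  have ho4 := hG.o4
  have hsB1 := hG1.sB
  have hsB2 := hG2.sB
  have hok2 : LineOK Γ₁ D s.l2.ow s.l2.Λ s.d s.l2.lc s.l2.c0 s.l2.e s.l2.R s.l2.lo s.l2.hi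
      s.l2.s0 s.l2.s1 := by
    refine LineOK.grow (LineOK.grow hG2.ok hst.grow ?_ ?_ ?_) hst2.grow ?_ ?_ ?_
    · intro x _ _
      exact hq1 _ x hΛU2 hG.ne.symm
    · intro x _ _
      exact hq1 _ x hΛU2 hG.ne.symm
    · intro x _ h8
      rw [hlc2]
      refine hq2 _ x hXdU le_rfl ?_
      rintro ⟨-, h9, -⟩
      linarith
    · intro x _ _
      exact hr1' _ x (hsubU hΛU2) hΛB2
    · intro x _ _
      exact hr1' _ x (hsubU hΛU2) hΛB2
    · intro x _ h8
      rw [hlc2]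
      exact hr3 _ x (hsubU hXdU) (by linarith)
  have hrow2' : SW Γ₁ D {s.l2.ow, s.w} false s.l2.Λ s.l2.R s.l2.nr := by
    refine SW.grow (SW.grow hG2.row hst.grow ?_) hst2.grow ?_
    · intro x _ _
      exact hq1 _ x hΛU2 hG.ne.symm
    · intro x _ _
      exact hr1' _ x (hsubU hΛU2) hΛB2
  have hcol2' : SW Γ₁ D {s.w} true s.l2.R s.l2.Λ s.l2.s1 := by
    refine SW.grow (SW.grow hG2.col hst.grow ?_) hst2.grow ?_
    · intro x _ _
      refine hq2 _ x hRU2 (by linarith) ?_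
      rintro ⟨h9, -⟩
      linarith
    · intro x _ h8
      exact hr3 _ x (hsubU hRU2) (by linarith)
  have hext2' : Ext s.l2.Λ s.l2.e (Γ₁ s.d) := by
    have h7 : Γ₁ s.d = Γ s.d := by
      rw [hst2.grow.eq hd1, hst.grow.eq hd0]
    rw [h7]
    exact hG2.ext
  have hok1 : LineOK Γ₁ D s.l1.ow s.l1.Λ a Xs c0n e' s.l1.R x₁ s.l1.hi y₁ s.l1.s1 := by
    refine LineOK.grow hLO hst2.grow ?_ ?_ ?_
    · intro x _ _
      exact hr1' _ x (hsubU hΛU) hΛB
    · intro x _ _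
      exact hr1' _ x (hsubU hΛU) hΛB
    · intro x _ h8
      exact hr3 _ x hXsU₂ (by linarith)
  have hrow1' : SW Γ₁ D {s.l1.ow, s.w} false s.l1.Λ s.l1.R s.l1.nr := by
    refine SW.grow (SW.grow hG1.row hst.grow ?_) hst2.grow ?_
    · intro x h7 _
      exact hq3 x (by linarith)
    · intro x _ _
      exact hr1' _ x (hsubU hΛU) hΛB
  have hcol1' : SW Γ₁ D {s.w} true s.l1.R s.l1.Λ s.l1.s1 := by
    refine SW.grow (SW.grow hG1.col hst.grow ?_) hst2.grow ?_
    · intro x _ _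
      refine hq2 _ x hRU (by linarith) ?_
      rintro ⟨h9, -⟩
      linarith
    · intro x _ h8
      exact hr3 _ x (hsubU hRU) (by linarith)
  have hext1' : Ext s.l1.Λ e' (Γ₁ a) := by
    rw [hst2.grow.eq ha1, hΓa]
    exact LineB_ext6 (Λ := s.l1.Λ) (e' := e') (X := Xs) (Y := yc) (g := s.Xd)
      (T := yc2) heX (by linarith) hXd.ne' h5.ne (Or.inl hXd)
  have hBy' : s.B ≤ yc2 := by linarith
  have hycY : yc ≤ s.Y0 := by linarith
  exact
    { o1 := hm1
      o2 := le_rfl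
      o3 := hm2
      o4 := hXw
      o5 := h5.trans (h6.trans hG.o5)
      ordL := h4
      zcol := hcolXd _ _ hBy2.le hycY (Or.inl le_rfl)
      top := hrowW _ _ le_rfl hm2.le
      black := fun r hr => absurd hr List.not_mem_nil
      pl := fun r hr => absurd hr List.not_mem_nil
      bbase := hrowW _ _ hm1.le le_rfl
      YD := fun x => hD false yc hyc
      row := fun x hx _ v hv => absurd (hrow1 x v hv).2.2 (not_lt.2 hx)
      dcol := hdcol
      wcol := hwcol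
      line1 := ⟨hok2, hG2.eX, hG2.XR, hG2.sB.trans hBy2.le, hG2.nr, hrow2', hcol2', hext2'⟩
      line2 := ⟨hok1, heXw, hG1.XR, hG1.sB.trans hBy2.le, hG1.nr, hrow1', hcol1', hext1'⟩
      e1 := he2
      lc2 := rfl
      ne := hG.ne.symm
      ztop := fun _ => ⟨h5.le, h6, hG.o5.le, hcolXd _ _ hBy' le_rfl (Or.inr le_rfl)⟩ }

theorem StageC3_chain_split {V : Type*} {R : V → V → Prop} {l₁ l₂ : List V} {a : V}
    (h : List.IsChain R (l₁ ++ a :: l₂)) : List.IsChain R (l₁ ++ [a]) ∧ List.IsChain R (a :: l₂) :=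
  List.isChain_split.1 h

theorem StageC3_fan_disj {ow a : V} {l₁ l₂ : List V} (h : (ow :: (l₁ ++ a :: l₂)).Nodup)
    {f : Finset V} (h1 : f ∈ fanF ow (l₁ ++ [a])) (h2 : f ∈ fanF ow (a :: l₂)) : False := by
  obtain ⟨p, x, y, q, h3, rfl⟩ := mem_fanF.1 h1
  rw [List.nodup_cons] at h
  obtain ⟨h4, h5⟩ := h
  have h6 : (l₁ ++ [a]).Nodup := by
    have h7 : l₁ ++ a :: l₂ = (l₁ ++ [a]) ++ l₂ := by simp
    rw [h7, List.nodup_append] at h5
    exact h5.1
  have hxy : x ≠ y := by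
    rw [h3, List.nodup_append] at h6
    have h7 := (List.nodup_cons.1 h6.2.1).1
    exact fun hh => h7 (by simp [hh])
  have hcom : ∀ v, v ∈ l₁ ++ [a] → (v = ow ∨ v ∈ a :: l₂) → v = a := by
    intro v hv1 hv2
    rcases hv2 with hv2 | hv2
    · exfalso
      apply h4
      rw [← hv2]
      simp only [List.mem_append, List.mem_cons, List.not_mem_nil, or_false] at hv1 ⊢
      tauto
    · by_contra hne
      rw [List.nodup_append] at h5
      have hv1' : v ∈ l₁ := by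
        rcases List.mem_append.1 hv1 with h7 | h7
        · exact h7
        · exact absurd (List.mem_singleton.1 h7) hne
      exact h5.2.2 v hv1' v hv2 rfl
  have hx := hcom x (by rw [h3]; simp) ((StageC3_fan_mem h2).2 x (by simp))
  have hy := hcom y (by rw [h3]; simp) ((StageC3_fan_mem h2).2 y (by simp))
  exact hxy (hx.trans hy.symm)

theorem StageC3_SC {G : SimpleGraph V} {T : Finset V} {Fs : Finset (Finset V)}
    {J : Finset V → Finset V} {Ex : V → V → Prop} (hc : Ctx G T Fs J)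
    {Γ Γ₂ Γ₁ : Dr V} {s : SD V} {D₀ D₁ : Cov}
    {F Fn Fo : Finset (Finset V)}
    (hS : SC G T Fs J Ex Γ s F) {al2 : List V} {a : V} {W : List (Rec V)}
    {m y2 yc yc2 Xs c0n e' x₁ y₁ : ℚ} (ha : s.al = rv W ++ a :: al2) (hF : F = Fn ∪ Fo)
    (hdis : Disjoint Fn Fo)
    (hst : Grow Γ Γ₂ D₀ {q | q = s.z ∨ q ∈ rv W ∨ q = a ∨
      ∃ f ∈ fanF s.l1.ow (s.z :: (rv W ++ [a])), q ∈ J f})
    (hst2 : Grow Γ₂ Γ₁ D₁ (KSet J (lN W a s.L s.d [] ++ [s.z]) Fo W s.L))
    (hov : Ov Γ₁ s.d a)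
    (hRn : Reg T Fs ([a] ++ al2 ++ [s.w] ++ s.be.reverse ++ [s.d]) Fn)
    (hv : ∀ v, v ∈ verts ([a] ++ al2 ++ [s.w] ++ s.be.reverse ++ [s.d]) Fn →
        v ∈ verts (rv s.L ++ [s.d] ++ [] ++ (rv W ++ [a]).reverse ++ [s.z]) Fo →
        v = s.d ∨ v = a) :
    SC G T Fs J Ex Γ₁ (StageC3_s s a al2 m y2 yc yc2 Xs c0n e' x₁ y₁) Fn := by
  have hFnF : Fn ⊆ F := by rw [hF]; exact Finset.subset_union_left
  have hFoF : Fo ⊆ F := by rw [hF]; exact Finset.subset_union_right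
  have hFFs := hS.reg.sub
  have hbd' : (StageC3_s s a al2 m y2 yc yc2 Xs c0n e' x₁ y₁).bd =
      [a] ++ al2 ++ [s.w] ++ s.be.reverse ++ [s.d] := rfl
  have hln : s.z :: s.al ++ [s.w] = (s.z :: rv W) ++ a :: (al2 ++ [s.w]) := by
    rw [ha]
    simp
  have hln1 := hS.ln1
  rw [hln] at hln1
  obtain ⟨hlnA, hlnB⟩ := StageC3_chain_split hln1
  have hfcA : fanF s.l1.ow (s.z :: (rv W ++ [a])) ⊆ fanF s.l1.ow (s.z :: s.al ++ [s.w]) := by
    intro f hf
    rw [hln, StageC3_fan_split]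
    exact Or.inl hf
  have hfcB : fanF s.l1.ow (a :: (al2 ++ [s.w])) ⊆ fanF s.l1.ow (s.z :: s.al ++ [s.w]) := by
    intro f hf
    rw [hln, StageC3_fan_split]
    exact Or.inr hf
  have hfcFs : fanF s.l1.ow (s.z :: s.al ++ [s.w]) ⊆ Fs := StageC3_fan_sub hS.ln1
  have hfc2Fs : fanF s.l2.ow (s.d :: s.be ++ [s.w]) ⊆ Fs := StageC3_fan_sub hS.ln2
  have hnd : s.bd.Nodup := (List.nodup_cons.1 (List.nodup_cons.1 hS.nd).2).2
  have how1 : s.l1.ow ∉ s.bd := fun hh =>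
    (List.nodup_cons.1 hS.nd).1 (List.mem_cons_of_mem _ hh)
  have how2 : s.l2.ow ∉ s.bd := (List.nodup_cons.1 (List.nodup_cons.1 hS.nd).2).1
  have how12 : s.l1.ow ≠ s.l2.ow := fun hh => (List.nodup_cons.1 hS.nd).1 (by simp [hh])
  have hnd' : (rv s.L ++ ([s.d] ++ s.be ++ [s.w] ++ al2.reverse ++ [a]) ++
      ((rv W).reverse ++ [s.z])).Nodup := by
    have h7 : s.bd = rv s.L ++ ([s.d] ++ s.be ++ [s.w] ++ al2.reverse ++ [a]) ++
      ((rv W).reverse ++ [s.z]) := by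
      rw [SD.bd, ha]
      simp
    rwa [← h7]
  have hnda : ∀ x ∈ [s.d] ++ s.be ++ [s.w] ++ al2.reverse ++ [a],
      x ∉ rv s.L ∧ x ∉ rv W ∧ x ≠ s.z := by
    rw [List.nodup_append, List.nodup_append] at hnd'
    obtain ⟨⟨-, -, h7⟩, -, h8⟩ := hnd'
    intro x hx
    refine ⟨fun hh => h7 x hh x hx rfl, fun hh => h8 x (List.mem_append_right _ hx) x ?_ rfl,
      fun hh => h8 x (List.mem_append_right _ hx) x ?_ rfl⟩
    · simp [hh]
    · simp [hh]
  have hndb : ([s.d] ++ s.be ++ [s.w] ++ al2.reverse ++ [a]).Nodup := by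
    rw [List.nodup_append, List.nodup_append] at hnd'
    exact hnd'.1.2.1
  have hmemold : ∀ x, x ∈ rv s.L ++ [s.d] ++ [] ++ (rv W ++ [a]).reverse ++ [s.z] ↔
      x ∈ rv s.L ∨ x = s.d ∨ x = a ∨ x ∈ rv W ∨ x = s.z := by
    intro x
    simp only [List.mem_append, List.mem_reverse, List.mem_cons, List.not_mem_nil, or_false]
    tauto
  have hmemnew : ∀ x, x ∈ [a] ++ al2 ++ [s.w] ++ s.be.reverse ++ [s.d] ↔
      x = a ∨ x ∈ al2 ∨ x = s.w ∨ x ∈ s.be ∨ x = s.d := by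
    intro x
    simp only [List.mem_append, List.mem_reverse, List.mem_cons, List.not_mem_nil, or_false]
    tauto
  have hnewbd : ∀ x, x ∈ [a] ++ al2 ++ [s.w] ++ s.be.reverse ++ [s.d] → x ∈ s.bd := by
    intro x hx
    rw [hmemnew] at hx
    rw [StageC3_bd ha]
    tauto
  have hbface : ∀ x ∈ s.bd, ∃ g ∈ Fs, x ∈ g := by
    intro x hx
    obtain ⟨g, hg, hxg⟩ := StageC3_bdface hS.reg hx
    exact ⟨g, hFFs hg, hxg⟩
  have hkey : ∀ v, Undrawn Γ v → v ≠ s.z → v ∉ rv W → v ≠ a → v ∉ rv s.L →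
      (∀ f ∈ fanF s.l1.ow (s.z :: (rv W ++ [a])), v ∉ J f) →
      v ∉ verts (rv s.L ++ [s.d] ++ [] ++ (rv W ++ [a]).reverse ++ [s.z]) Fo →
      (∀ f ∈ Fo, v ∉ J f) → Undrawn Γ₁ v := by
    intro v hu k1 k2 k3 k4 k5 k6 k7
    refine (hu.grow hst ?_).grow hst2 ?_
    · rintro (h7 | h7 | h7 | ⟨f, hf, h7⟩)
      · exact k1 h7
      · exact k2 h7
      · exact k3 h7
      · exact k5 f hf h7
    · rintro (h7 | h7 | h7)
      · rcases h7 with ⟨h7, -⟩ | ⟨f, hf, h7⟩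
        · exact k6 h7
        · exact k7 f hf h7
      · exact k2 h7
      · exact k4 h7
  have hund : ∀ v, v ∈ verts ([a] ++ al2 ++ [s.w] ++ s.be.reverse ++ [s.d]) Fn ∧
      v ∉ [a] ++ al2 ++ [s.w] ++ s.be.reverse ++ [s.d] ∨ v ∈ s.be ∨ v ∈ al2 ∨
      (∃ f ∈ Fn ∪ (fanF s.l2.ow (s.d :: s.be ++ [s.w]) ∪ fanF s.l1.ow (a :: (al2 ++ [s.w]))),
        v ∈ J f) → Undrawn Γ₁ v := by
    -- boundary vertices of the new region
    have hnb : ∀ v, (v ∈ s.be ∨ v ∈ al2) → Undrawn Γ v → Undrawn Γ₁ v := by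
      intro v hvv hu
      have hvm : v ∈ [s.d] ++ s.be ++ [s.w] ++ al2.reverse ++ [a] := by
        simp only [List.mem_append, List.mem_reverse, List.mem_cons, List.not_mem_nil, or_false]
        tauto
      have hvn : v ∈ [a] ++ al2 ++ [s.w] ++ s.be.reverse ++ [s.d] := by
        rw [hmemnew]
        tauto
      obtain ⟨k1, k2, k3⟩ := hnda v hvm
      have hda : v ≠ s.d ∧ v ≠ a := by
        rw [List.nodup_append, List.nodup_append, List.nodup_append, List.nodup_append] at hndb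
        obtain ⟨⟨⟨⟨-, -, n1⟩, -, n2⟩, -, n3⟩, -, n4⟩ := hndb
        refine ⟨?_, ?_⟩
        · rintro rfl
          rcases hvv with h7 | h7
          · exact n1 s.d (by simp) s.d h7 rfl
          · exact n3 s.d (by simp) s.d (by simpa using h7) rfl
        · rintro rfl
          rcases hvv with h7 | h7
          · exact n4 v (by simp [h7]) v (by simp) rfl
          · exact n4 v (by simp [h7]) v (by simp) rfl
      have hvf := hbface v (hnewbd v hvn)
      refine hkey v hu k3 k2 hda.2 k1 (fun f hf => StageC3_nJ hc hvf (hfcFs (hfcA hf))) ?_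
        (fun f hf => StageC3_nJ hc hvf (hFFs (hFoF hf)))
      intro h7
      rcases hv v (StageC3_mem_verts.2 (Or.inl hvn)) h7 with h8 | h8
      · exact hda.1 h8
      · exact hda.2 h8
    rintro v (⟨h7, h8⟩ | h7 | h7 | ⟨f, hf, h7⟩)
    · have h9 : ∃ f ∈ Fn, v ∈ f := by
        rcases StageC3_mem_verts.1 h7 with h10 | h10
        · exact absurd h10 h8
        · exact h10
      obtain ⟨f, hf, hvf⟩ := h9
      have hvf' : ∃ g ∈ Fs, v ∈ g := ⟨f, hFFs (hFnF hf), hvf⟩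
      have h10 : v ∉ verts (rv s.L ++ [s.d] ++ [] ++ (rv W ++ [a]).reverse ++ [s.z]) Fo := by
        intro h11
        apply h8
        rw [hmemnew]
        rcases hv v h7 h11 with h12 | h12
        · tauto
        · tauto
      have h11 : v ∉ rv s.L ++ [s.d] ++ [] ++ (rv W ++ [a]).reverse ++ [s.z] := fun hh =>
        h10 (StageC3_mem_verts.2 (Or.inl hh))
      rw [hmemold] at h11
      have h12 : v ∉ s.bd := by
        rw [StageC3_bd ha]
        rw [hmemnew] at h8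
        tauto
      exact hkey v (hS.und v (Or.inl ⟨StageC3_mem_verts.2 (Or.inr ⟨f, hFnF hf, hvf⟩), h12⟩))
        (by tauto) (by tauto) (by tauto) (by tauto)
        (fun g hg => StageC3_nJ hc hvf' (hfcFs (hfcA hg))) h10
        (fun g hg => StageC3_nJ hc hvf' (hFFs (hFoF hg)))
    · exact hnb v (Or.inl h7) (hS.und v (by tauto))
    · exact hnb v (Or.inr h7) (hS.und v (Or.inr (Or.inl (by rw [ha]; simp [h7]))))
    · have hfFs : f ∈ Fs := by
        rcases Finset.mem_union.1 hf with h8 | h8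
        · exact hFFs (hFnF h8)
        · rcases Finset.mem_union.1 h8 with h9 | h9
          · exact hfc2Fs h9
          · exact hfcFs (hfcB h9)
      have hvn : ∀ g ∈ Fs, v ∉ g := fun g hg hvg => StageC3_nJ hc ⟨g, hg, hvg⟩ hfFs h7
      have hvb : v ∉ s.bd := by
        intro hh
        obtain ⟨g, hg, hvg⟩ := hbface v hh
        exact hvn g hg hvg
      rw [StageC3_bd ha] at hvb
      have hfs : f ∈ s.fc F := by
        rw [SD.fc]
        rcases Finset.mem_union.1 hf with h8 | h8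
        · exact Finset.mem_union_left _ (hFnF h8)
        · rcases Finset.mem_union.1 h8 with h9 | h9
          · exact Finset.mem_union_right _ (Finset.mem_union_right _ h9)
          · exact Finset.mem_union_right _ (Finset.mem_union_left _ (hfcB h9))
      refine hkey v (hS.und v (Or.inr (Or.inr (Or.inr ⟨f, hfs, h7⟩)))) (by tauto) (by tauto)
        (by tauto) (by tauto) ?_ ?_ ?_
      · intro g hg hvg
        have hne : f ≠ g := by
          rintro rfl
          rcases Finset.mem_union.1 hf with h8 | h8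
          · exact Finset.disjoint_left.1 hS.dj1 (hFnF h8) (hfcA hg)
          · rcases Finset.mem_union.1 h8 with h9 | h9
            · exact Finset.disjoint_left.1 hS.dj3 (hfcA hg) h9
            · refine StageC3_fan_disj (ow := s.l1.ow) (l₁ := s.z :: rv W) (a := a)
                (l₂ := al2 ++ [s.w]) ?_ hg h9
              rw [List.nodup_cons, ← hln]
              refine ⟨?_, ?_⟩
              · intro hh
                apply how1
                rw [StageC3_bd ha]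
                rw [ha] at hh
                simp only [List.mem_append, List.mem_cons, List.not_mem_nil, or_false] at hh
                tauto
              · have h10 : (s.z :: s.al ++ [s.w]).reverse <+: s.bd.drop
                    (rv s.L ++ [s.d] ++ s.be).length := by
                  rw [SD.bd]
                  have h11 : rv s.L ++ [s.d] ++ s.be ++ [s.w] ++ s.al.reverse ++ [s.z] =
                    (rv s.L ++ [s.d] ++ s.be) ++ ([s.w] ++ s.al.reverse ++ [s.z]) := by simp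
                  rw [h11, List.drop_left]
                  simp
                exact List.nodup_reverse.1 ((hnd.sublist (List.drop_sublist _ _)).sublist
                  h10.sublist)
        exact Finset.disjoint_left.1 (hc.disj f hfFs g (hfcFs (hfcA hg)) hne) h7 hvg
      · intro hh
        rcases StageC3_mem_verts.1 hh with h8 | ⟨g, hg, hvg⟩
        · rw [hmemold] at h8
          tauto
        · exact hvn g (hFFs (hFoF hg)) hvg
      · intro g hg hvg
        have hne : f ≠ g := by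
          rintro rfl
          rcases Finset.mem_union.1 hf with h8 | h8
          · exact Finset.disjoint_left.1 hdis h8 hg
          · rcases Finset.mem_union.1 h8 with h9 | h9
            · exact Finset.disjoint_left.1 hS.dj2 (hFoF hg) h9
            · exact Finset.disjoint_left.1 hS.dj1 (hFoF hg) (hfcB h9)
        exact Finset.disjoint_left.1 (hc.disj f hfFs g (hFFs (hFoF hg)) hne) h7 hvg
  have hvsub : ∀ v, v ∈ verts ([a] ++ al2 ++ [s.w] ++ s.be.reverse ++ [s.d]) Fn →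
      v ∈ verts s.bd F := by
    intro v h7
    rw [StageC3_mem_verts] at h7 ⊢
    rcases h7 with h7 | ⟨f, hf, h7⟩
    · exact Or.inl (hnewbd v h7)
    · exact Or.inr ⟨f, hFnF hf, h7⟩
  exact
    { reg := hRn
      chB := by
        intro p x y q c r hh
        exfalso
        have h7 := congrArg List.length hh
        simp only [StageC3_s, rv, List.map_nil, List.nil_append, List.length_append,
          List.length_cons, List.length_nil] at h7
        omega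
      chA := hS.chD.mono hFnF
      chD := by
        have h7 := hS.chA
        rw [hln] at h7
        exact (h7.mono hFnF).infx ⟨s.z :: rv W, [], by simp [StageC3_s]⟩
      z1 := fun v hv => absurd hv List.not_mem_nil
      z2 := fun _ _ _ _ v hv => absurd hv List.not_mem_nil
      zb := fun hh => absurd hh (by simp [StageC3_s])
      ln1 := hS.ln2
      ln2 := hlnB
      dj1 := hS.dj2.mono_left hFnF
      dj2 := Disjoint.mono hFnF hfcB hS.dj1
      dj3 := hS.dj3.symm.mono_right hfcB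
      nd := by
        have h7 : ([a] ++ al2 ++ [s.w] ++ s.be.reverse ++ [s.d]).Nodup := by
          have h8 := List.nodup_reverse.2 hndb
          simpa using h8
        refine List.nodup_cons.2 ⟨?_, List.nodup_cons.2 ⟨fun hh => how1 (hnewbd _ hh), h7⟩⟩
        intro hh
        rcases List.mem_cons.1 hh with h8 | h8
        · exact how12 h8.symm
        · exact how2 (hnewbd _ h8)
      ow1 := fun hh => hS.ow2 (hvsub _ hh)
      ow2 := fun hh => hS.ow1 (hvsub _ hh)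
      und := hund
      rL := List.isChain_singleton _
      rz2 := Or.inr hov
      lk := fun _ hh => absurd rfl hh }

theorem StageC3_done {G : SimpleGraph V} {T : Finset V} {Fs : Finset (Finset V)}
    {J : Finset V → Finset V} {Ex : V → V → Prop} (hc : Ctx G T Fs J)
    {Γ Γ₂ Γ₁ : Dr V} {U U₂ U₁ : Bool → Finset ℚ} {s : SD V} {D D₀ D₁ : Cov}
    {F Fn Fo : Finset (Finset V)}
    (hS : SC G T Fs J Ex Γ s F) {al2 : List V} {a : V} {W : List (Rec V)}
    {m y2 yc yc2 Xs c0n e' x₁ y₁ : ℚ} (ha : s.al = rv W ++ a :: al2) (hF : F = Fn ∪ Fo)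
    (hdis : Disjoint Fn Fo)
    (hst : Step G Γ U D₀ {q | q = s.z ∨ q ∈ rv W ∨ q = a ∨
      ∃ f ∈ fanF s.l1.ow (s.z :: (rv W ++ [a])), q ∈ J f} Γ₂ U₂) (hD₀ : D₀ ≤ D)
    (hst2 : Step G Γ₂ U₂ D₁ (KSet J (lN W a s.L s.d [] ++ [s.z]) Fo W s.L) Γ₁ U₁) (hD₁ : D₁ ≤ D)
    (hpath : ∀ v ∈ KSet J (lN W a s.L s.d [] ++ [s.z]) Fo W s.L, IsPath3 (Γ₁ v))
    (hfill : ∀ f ∈ fanF s.l1.ow (s.z :: (rv W ++ [a])), Filled G Γ₂ (J f))
    (hpair : ∀ f ∈ fanF s.l1.ow (s.z :: (rv W ++ [a])), ∀ p ∈ f, ∀ q ∈ f, p ≠ q → Ov Γ₂ p q)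
    (hfill2 : ∀ f ∈ Fo, Filled G Γ₁ (J f))
    (hpair2 : ∀ f ∈ Fo, ∀ p ∈ f, ∀ q ∈ f, p ≠ q → Rz Ex Γ₁ p q)
    (hzp : IsPath3 (Γ₂ s.z))
    (hRn : Reg T Fs ([a] ++ al2 ++ [s.w] ++ s.be.reverse ++ [s.d]) Fn)
    (hv : ∀ v, v ∈ verts ([a] ++ al2 ++ [s.w] ++ s.be.reverse ++ [s.d]) Fn →
        v ∈ verts (rv s.L ++ [s.d] ++ [] ++ (rv W ++ [a]).reverse ++ [s.z]) Fo →
        v = s.d ∨ v = a)
    (hdone : SDone G J Ex Γ₁ U₁ D (StageC3_s s a al2 m y2 yc yc2 Xs c0n e' x₁ y₁) Fn) :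
    SDone G J Ex Γ U D s F := by
  obtain ⟨Γ', U', hst3, hp3, hf3, hr3⟩ := hdone
  set K' : Set V := (StageC3_s s a al2 m y2 yc yc2 Xs c0n e' x₁ y₁).K J Fn with hK'
  have hfc : (StageC3_s s a al2 m y2 yc yc2 Xs c0n e' x₁ y₁).fc Fn =
      Fn ∪ (fanF s.l2.ow (s.d :: s.be ++ [s.w]) ∪ fanF s.l1.ow (a :: (al2 ++ [s.w]))) := rfl
  have hK'm : ∀ v, v ∈ K' ↔ (v ∈ verts ([a] ++ al2 ++ [s.w] ++ s.be.reverse ++ [s.d]) Fn ∧
      v ∉ [a] ++ al2 ++ [s.w] ++ s.be.reverse ++ [s.d]) ∨ v = s.d ∨ v = a ∨ v ∈ s.be ∨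
      v ∈ al2 ∨ ∃ f ∈ Fn ∪ (fanF s.l2.ow (s.d :: s.be ++ [s.w]) ∪
        fanF s.l1.ow (a :: (al2 ++ [s.w]))), v ∈ J f := by
    intro v
    have h7 : v ∈ K' ↔ (v ∈ verts ([a] ++ al2 ++ [s.w] ++ s.be.reverse ++ [s.d]) Fn ∧
      v ∉ [a] ++ al2 ++ [s.w] ++ s.be.reverse ++ [s.d]) ∨ v ∈ rv ([] : List (Rec V)) ∨ v = s.d ∨
      v = a ∨ v ∈ s.be ∨
      v ∈ al2 ∨ ∃ f ∈ Fn ∪ (fanF s.l2.ow (s.d :: s.be ++ [s.w]) ∪
        fanF s.l1.ow (a :: (al2 ++ [s.w]))), v ∈ J f := Iff.rfl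
    rw [h7]
    simp [rv]
  rw [hfc] at hf3 hr3
  have hFnF : Fn ⊆ F := by rw [hF]; exact Finset.subset_union_left
  have hFoF : Fo ⊆ F := by rw [hF]; exact Finset.subset_union_right
  have hFFs := hS.reg.sub
  have hln : s.z :: s.al ++ [s.w] = (s.z :: rv W) ++ a :: (al2 ++ [s.w]) := by
    rw [ha]
    simp
  have hfcA : fanF s.l1.ow (s.z :: (rv W ++ [a])) ⊆ fanF s.l1.ow (s.z :: s.al ++ [s.w]) := by
    intro f hf
    rw [hln, StageC3_fan_split]
    exact Or.inl hf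
  have hfcB : fanF s.l1.ow (a :: (al2 ++ [s.w])) ⊆ fanF s.l1.ow (s.z :: s.al ++ [s.w]) := by
    intro f hf
    rw [hln, StageC3_fan_split]
    exact Or.inr hf
  have hfcFs : fanF s.l1.ow (s.z :: s.al ++ [s.w]) ⊆ Fs := StageC3_fan_sub hS.ln1
  have hfc2Fs : fanF s.l2.ow (s.d :: s.be ++ [s.w]) ⊆ Fs := StageC3_fan_sub hS.ln2
  -- faces of the new stage
  have hfcn : ∀ f ∈ Fn ∪ (fanF s.l2.ow (s.d :: s.be ++ [s.w]) ∪
      fanF s.l1.ow (a :: (al2 ++ [s.w]))), f ∈ s.fc F := by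
    intro f hf
    rw [SD.fc]
    rcases Finset.mem_union.1 hf with h8 | h8
    · exact Finset.mem_union_left _ (hFnF h8)
    · rcases Finset.mem_union.1 h8 with h9 | h9
      · exact Finset.mem_union_right _ (Finset.mem_union_right _ h9)
      · exact Finset.mem_union_right _ (Finset.mem_union_left _ (hfcB h9))
  have hfcs : ∀ f ∈ s.fc F, f ∈ Fn ∪ (fanF s.l2.ow (s.d :: s.be ++ [s.w]) ∪
      fanF s.l1.ow (a :: (al2 ++ [s.w]))) ∨ f ∈ Fo ∨
      f ∈ fanF s.l1.ow (s.z :: (rv W ++ [a])) := by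
    intro f hf
    rw [SD.fc] at hf
    rcases Finset.mem_union.1 hf with h8 | h8
    · rw [hF] at h8
      rcases Finset.mem_union.1 h8 with h9 | h9
      · exact Or.inl (Finset.mem_union_left _ h9)
      · exact Or.inr (Or.inl h9)
    · rcases Finset.mem_union.1 h8 with h9 | h9
      · rw [hln, StageC3_fan_split] at h9
        rcases h9 with h9 | h9
        · exact Or.inr (Or.inr h9)
        · exact Or.inl (Finset.mem_union_right _ (Finset.mem_union_right _ h9))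
      · exact Or.inl (Finset.mem_union_right _ (Finset.mem_union_left _ h9))
  have hfsFs : ∀ f ∈ s.fc F, f ∈ Fs := by
    intro f hf
    rw [SD.fc] at hf
    rcases Finset.mem_union.1 hf with h8 | h8
    · exact hFFs h8
    · rcases Finset.mem_union.1 h8 with h9 | h9
      · exact hfcFs h9
      · exact hfc2Fs h9
  have hbface : ∀ x ∈ s.bd, ∃ g ∈ Fs, x ∈ g := by
    intro x hx
    obtain ⟨g, hg, hxg⟩ := StageC3_bdface hS.reg hx
    exact ⟨g, hFFs hg, hxg⟩
  have hmemold : ∀ x, x ∈ rv s.L ++ [s.d] ++ [] ++ (rv W ++ [a]).reverse ++ [s.z] ↔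
      x ∈ rv s.L ∨ x = s.d ∨ x = a ∨ x ∈ rv W ∨ x = s.z := by
    intro x
    simp only [List.mem_append, List.mem_reverse, List.mem_cons, List.not_mem_nil, or_false]
    tauto
  have hmemnew : ∀ x, x ∈ [a] ++ al2 ++ [s.w] ++ s.be.reverse ++ [s.d] ↔
      x = a ∨ x ∈ al2 ∨ x = s.w ∨ x ∈ s.be ∨ x = s.d := by
    intro x
    simp only [List.mem_append, List.mem_reverse, List.mem_cons, List.not_mem_nil, or_false]
    tauto
  have hnewbd : ∀ x, x ∈ [a] ++ al2 ++ [s.w] ++ s.be.reverse ++ [s.d] → x ∈ s.bd := by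
    intro x hx
    rw [hmemnew] at hx
    rw [StageC3_bd ha]
    tauto
  -- the contents of finished faces are not touched
  have hJK' : ∀ f ∈ Fs, f ∉ Fn ∪ (fanF s.l2.ow (s.d :: s.be ++ [s.w]) ∪
      fanF s.l1.ow (a :: (al2 ++ [s.w]))) → ∀ v ∈ J f, v ∉ K' := by
    intro f hf hfn v hvf hvK
    have hvn : ∀ g ∈ Fs, v ∉ g := fun g hg hvg => StageC3_nJ hc ⟨g, hg, hvg⟩ hf hvf
    have hvb : v ∉ s.bd := by
      intro hh
      obtain ⟨g, hg, hvg⟩ := hbface v hh
      exact hvn g hg hvg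
    rw [StageC3_bd ha] at hvb
    rw [hK'm] at hvK
    rcases hvK with ⟨h7, h8⟩ | h7 | h7 | h7 | h7 | ⟨g, hg, h7⟩
    · rcases StageC3_mem_verts.1 h7 with h9 | ⟨g, hg, h9⟩
      · exact h8 h9
      · exact hvn g (hFFs (hFnF hg)) h9
    · tauto
    · tauto
    · tauto
    · tauto
    · have hne : f ≠ g := by
        rintro rfl
        exact hfn hg
      exact Finset.disjoint_left.1 (hc.disj f hf g (hfsFs g (hfcn g hg)) hne) hvf h7
  have hJK₁ : ∀ f ∈ Fs, f ∉ Fo → ∀ v ∈ J f,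
      v ∉ KSet J (lN W a s.L s.d [] ++ [s.z]) Fo W s.L := by
    intro f hf hfn v hvf hvK
    have hvn : ∀ g ∈ Fs, v ∉ g := fun g hg hvg => StageC3_nJ hc ⟨g, hg, hvg⟩ hf hvf
    have hvb : v ∉ s.bd := by
      intro hh
      obtain ⟨g, hg, hvg⟩ := hbface v hh
      exact hvn g hg hvg
    rw [StageC3_bd ha] at hvb
    rcases hvK with h7 | h7 | h7
    · rcases h7 with ⟨h7, h8⟩ | ⟨g, hg, h7⟩
      · rcases StageC3_mem_verts.1 h7 with h9 | ⟨g, hg, h9⟩
        · exact h8 h9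
        · exact hvn g (hFFs (hFoF hg)) h9
      · have hne : f ≠ g := by
          rintro rfl
          exact hfn hg
        exact Finset.disjoint_left.1 (hc.disj f hf g (hFFs (hFoF hg)) hne) hvf h7
    · tauto
    · tauto
  have hFon : ∀ f ∈ Fo, f ∉ Fn ∪ (fanF s.l2.ow (s.d :: s.be ++ [s.w]) ∪
      fanF s.l1.ow (a :: (al2 ++ [s.w]))) := by
    intro f hf hh
    rcases Finset.mem_union.1 hh with h8 | h8
    · exact Finset.disjoint_left.1 hdis h8 hf
    · rcases Finset.mem_union.1 h8 with h9 | h9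
      · exact Finset.disjoint_left.1 hS.dj2 (hFoF hf) h9
      · exact Finset.disjoint_left.1 hS.dj1 (hFoF hf) (hfcB h9)
  have hAn : ∀ f ∈ fanF s.l1.ow (s.z :: (rv W ++ [a])), f ∉ Fo := fun f hf hh =>
    Finset.disjoint_left.1 hS.dj1 (hFoF hh) (hfcA hf)
  have hKsub₀ : {q | q = s.z ∨ q ∈ rv W ∨ q = a ∨
      ∃ f ∈ fanF s.l1.ow (s.z :: (rv W ++ [a])), q ∈ J f} ⊆ s.K J F := by
    rintro q (h7 | h7 | h7 | ⟨f, hf, h7⟩)
    · exact Or.inr (Or.inr (Or.inl h7))
    · exact Or.inr (Or.inr (Or.inr (Or.inr (Or.inl (by rw [ha]; simp [h7])))))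
    · exact Or.inr (Or.inr (Or.inr (Or.inr (Or.inl (by rw [ha]; simp [h7])))))
    · exact Or.inr (Or.inr (Or.inr (Or.inr (Or.inr (Or.inr ⟨f, Finset.mem_union_right _
        (Finset.mem_union_left _ (hfcA hf)), h7⟩)))))
  have hKsub₁ : KSet J (lN W a s.L s.d [] ++ [s.z]) Fo W s.L ⊆ s.K J F := by
    rintro q (h7 | h7 | h7)
    · rcases h7 with ⟨h7, h8⟩ | ⟨f, hf, h7⟩
      · have h7' : q ∈ verts (rv s.L ++ [s.d] ++ [] ++ (rv W ++ [a]).reverse ++ [s.z]) Fo := h7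
        have h8' : q ∉ rv s.L ++ [s.d] ++ [] ++ (rv W ++ [a]).reverse ++ [s.z] := h8
        refine Or.inl ⟨?_, ?_⟩
        · rcases StageC3_mem_verts.1 h7 with h9 | ⟨g, hg, h9⟩
          · exact absurd h9 h8
          · exact StageC3_mem_verts.2 (Or.inr ⟨g, hFoF hg, h9⟩)
        · intro h9
          have h10 : q ∈ [a] ++ al2 ++ [s.w] ++ s.be.reverse ++ [s.d] := by
            rw [StageC3_bd ha] at h9
            rw [hmemold] at h8'
            rw [hmemnew]
            tauto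
          have h11 := hv q (StageC3_mem_verts.2 (Or.inl h10)) h7'
          rw [hmemold] at h8'
          tauto
      · exact Or.inr (Or.inr (Or.inr (Or.inr (Or.inr (Or.inr ⟨f, Finset.mem_union_left _
          (hFoF hf), h7⟩)))))
    · exact Or.inr (Or.inr (Or.inr (Or.inr (Or.inl (by rw [ha]; simp [h7])))))
    · exact Or.inr (Or.inl h7)
  have hKsub' : K' ⊆ s.K J F := by
    intro q hq
    rw [hK'm] at hq
    rcases hq with ⟨h7, h8⟩ | h7 | h7 | h7 | h7 | ⟨g, hg, h7⟩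
    · have h9 : ∃ f ∈ Fn, q ∈ f := by
        rcases StageC3_mem_verts.1 h7 with h10 | h10
        · exact absurd h10 h8
        · exact h10
      obtain ⟨f, hf, hqf⟩ := h9
      refine Or.inl ⟨StageC3_mem_verts.2 (Or.inr ⟨f, hFnF hf, hqf⟩), ?_⟩
      intro h9
      have h10 : q ∈ rv s.L ++ [s.d] ++ [] ++ (rv W ++ [a]).reverse ++ [s.z] := by
        rw [StageC3_bd ha] at h9
        rw [hmemold]
        rw [hmemnew] at h8
        tauto
      have h11 := hv q h7 (StageC3_mem_verts.2 (Or.inl h10))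
      rw [hmemnew] at h8
      tauto
    · exact Or.inr (Or.inr (Or.inr (Or.inl h7)))
    · exact Or.inr (Or.inr (Or.inr (Or.inr (Or.inl (by rw [ha]; simp [h7])))))
    · exact Or.inr (Or.inr (Or.inr (Or.inr (Or.inr (Or.inl h7)))))
    · exact Or.inr (Or.inr (Or.inr (Or.inr (Or.inl (by rw [ha]; simp [h7])))))
    · exact Or.inr (Or.inr (Or.inr (Or.inr (Or.inr (Or.inr ⟨g, hfcn g hg, h7⟩)))))
  refine ⟨Γ', U', ?_, ?_, ?_, ?_⟩
  · exact ((hst.weaken hD₀ hKsub₀).trans (hst2.weaken hD₁ hKsub₁)).trans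
      (hst3.weaken le_rfl hKsub')
  · intro v hvK
    by_cases h7 : v ∈ K'
    · exact hp3 v h7
    rw [hst3.grow.eq h7]
    by_cases h8 : v ∈ KSet J (lN W a s.L s.d [] ++ [s.z]) Fo W s.L
    · exact hpath v h8
    have h7' := h7
    rw [hK'm] at h7'
    rcases hvK with ⟨h9, h10⟩ | h9 | h9 | h9 | h9 | h9 | ⟨f, hf, h9⟩
    · rcases StageC3_mem_verts.1 h9 with h11 | ⟨f, hf, hvf⟩
      · exact absurd h11 h10
      · rw [hF] at hf
        rcases Finset.mem_union.1 hf with h12 | h12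
        · exact absurd (Or.inl ⟨StageC3_mem_verts.2 (Or.inr ⟨f, h12, hvf⟩),
            fun hh => h10 (hnewbd v hh)⟩) h7'
        · refine absurd (Or.inl (Or.inl ⟨StageC3_mem_verts.2 (Or.inr ⟨f, h12, hvf⟩), ?_⟩)) h8
          intro hh
          have hh' : v ∈ rv s.L ++ [s.d] ++ [] ++ (rv W ++ [a]).reverse ++ [s.z] := hh
          rw [hmemold] at hh'
          apply h10
          rw [StageC3_bd ha]
          tauto
    · exact absurd (Or.inr (Or.inr h9)) h8
    · rw [hst2.grow.eq h8, h9]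
      exact hzp
    · exact absurd (Or.inr (Or.inl h9)) h7'
    · rw [ha, List.mem_append, List.mem_cons] at h9
      rcases h9 with h9 | h9 | h9
      · exact absurd (Or.inr (Or.inl h9)) h8
      · exact absurd (Or.inr (Or.inr (Or.inl h9))) h7'
      · exact absurd (Or.inr (Or.inr (Or.inr (Or.inr (Or.inl h9))))) h7'
    · exact absurd (Or.inr (Or.inr (Or.inr (Or.inl h9)))) h7'
    · rcases hfcs f hf with h10 | h10 | h10
      · exact absurd (Or.inr (Or.inr (Or.inr (Or.inr (Or.inr ⟨f, h10, h9⟩))))) h7'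
      · exact absurd (Or.inl (Or.inr ⟨f, h10, h9⟩)) h8
      · rw [hst2.grow.eq h8]
        exact (hfill f h10 v h9).1
  · intro f hf
    by_cases hfn : f ∈ Fn ∪ (fanF s.l2.ow (s.d :: s.be ++ [s.w]) ∪
      fanF s.l1.ow (a :: (al2 ++ [s.w])))
    · exact hf3 f hfn
    · rcases hfcs f hf with h10 | h10 | h10
      · exact absurd h10 hfn
      · exact Filled.mono hst3.grow (hfill2 f h10) (hJK' f (hfsFs f hf) hfn)
      · exact Filled.mono hst3.grow (Filled.mono hst2.grow (hfill f h10)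
          (hJK₁ f (hfsFs f hf) (hAn f h10))) (hJK' f (hfsFs f hf) hfn)
  · intro f hf p hp q hq hpq
    rcases hfcs f hf with h10 | h10 | h10
    · exact hr3 f h10 p hp q hq hpq
    · exact (hpair2 f h10 p hp q hq hpq).mono hst3.grow
    · exact Rz.mono hst3.grow (Rz.mono hst2.grow (Or.inr (hpair f h10 p hp q hq hpq)))

/-- Let `al = at' ++ a :: al2`, `AdjF F a d`, no vertex of `z :: at'` is adjacent to a vertex of `be`.
`Reg.chord` for `d, a`: `F₂` with boundary `d :: be ++ [w] ++ al2.reverse ++ [a]` (its reverse is the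
boundary of the new stage) and `F₁` with boundary `rv L ++ [d, a] ++ at'.reverse ++ [z]`.
Geometry: `y2 < yc < yc2` between `B` and all lines of `L` on the one side and `Y0` on the other side,
`yc` new.
1. `placeL` on line 1 for `at'` (kind `dir`), interval `(max A e1, Xd)`, `Yt = B`.
2. `Xs` new with `max Xd e2 < Xs < Xw`. `LineOK.place` on line 1 for `a` with `lc' = m = Xs`, `b = Xw`,
   `Yt = yc`, `E = seg false yc Xd Xs`. Then draw `seg true Xd yc yc2` for `a` (meets only `d`, on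
   its column): `Γ a = zig false [e, Λ1, Xs, yc, Xd, yc2]`, `Ext Λ1 e`.
3. M-state `MG1` with `be = []`: `z`, whites = records of `at'` (`direct_pend`, `s = B`, `hi = Y0`), base
   `a0 = a`, `X0 = Xs`, `u = Xd`, `yu = y2`, blacks `L`, base `d`, faces `F₁`. Allowed set `D₁`: positions of
   `D` on lines not in `U`; on the vertical lines `Xz`, lines of `at'`: `B ≤ x < Y0`, on `Xs`:
   `B ≤ x < y2`; on the rows of `L`: everything; on `Y0`: `x < Xd`. `closedM1`. `rB` by the overlap of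
   `a` and `d`.
New stage: `z' = d`, `Xz' = Xd`, `d' = a`, `Y0' = yc`, `Xd' = Xs`, `L' = []`, `B' = y2`, `h' = A'` with
`Xd < A' < Xs`, `al' = be`, `be' = al2`, line 1' = line 2 (last `d`, `e2 < Xs`), line 2' = line 1 (last
`a`), `t0' = yc2`, `t1' = Y0`, `zt' = true`. -/
theorem stage_c3 {G : SimpleGraph V} {T : Finset V} {Fs : Finset (Finset V)}
    {J : Finset V → Finset V} {Ex : V → V → Prop} (hc : Ctx G T Fs J)
    (hE : ∀ u v, Ex u v → Ex v u) {Γ : Dr V} {U : Bool → Finset ℚ} {D : Cov} {s : SD V}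
    {F : Finset (Finset V)} (hw : Wd G Γ U) (hD : Adm U D) (hG : SG Γ U D s)
    (hS : SC G T Fs J Ex Γ s F) {at' al2 : List V} {a : V}
    (ha : s.al = at' ++ a :: al2) (h1 : ∀ v ∈ s.be, ¬ AdjF F s.z v)
    (h2 : ∀ p ∈ at', ∀ v ∈ s.be, ¬ AdjF F p v) (h3 : AdjF F a s.d) :
    ∃ Γ₁ U₁ s' F', F'.card < F.card ∧ (∀ o, U o ⊆ U₁ o) ∧ Wd G Γ₁ U₁ ∧ SG Γ₁ U₁ D s' ∧
      SC G T Fs J Ex Γ₁ s' F' ∧ (SDone G J Ex Γ₁ U₁ D s' F' → SDone G J Ex Γ U D s F) := by
  obtain ⟨Fn, Fo, hF, hdis, hFo, hRn, hMC, hv⟩ := StageC3_comb (bl := rv s.L) (at' := at')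
    (al2 := al2) (be := s.be) (d := s.d) (w := s.w) (a := a) (z := s.z) (F := F) (T := T)
    (Fs := Fs)
    (by
      have := hS.reg
      rw [SD.bd, ha] at this
      exact this) hS.chB
    (by
      have := hS.chA
      rwa [ha] at this) hS.z1
    (by
      have := hS.z2
      rw [SD.bd, ha] at this
      exact this) h3
  obtain ⟨y2, hy2, hy2'⟩ := StageC3_ordL_shrink hG.ordL
  have hord := hy2' y2 le_rfl
  have hFFs := hS.reg.sub
  have hln : s.z :: s.al ++ [s.w] = (s.z :: at') ++ a :: (al2 ++ [s.w]) := by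
    rw [ha]
    simp
  have hln1 := hS.ln1
  rw [hln] at hln1
  obtain ⟨hlnA, hlnB⟩ := StageC3_chain_split hln1
  have hfcA : fanF s.l1.ow (s.z :: (at' ++ [a])) ⊆ fanF s.l1.ow (s.z :: s.al ++ [s.w]) := by
    intro f hf
    rw [hln, StageC3_fan_split]
    exact Or.inl hf
  have hbdm := fun v => StageC3_bd (s := s) ha (v := v)
  have hnd0 := hS.nd
  have hndl : (s.l1.ow :: s.z :: (at' ++ [a])).Nodup := by
    have h7 : s.bd.reverse = (s.z :: (at' ++ [a])) ++ (al2 ++ s.w :: s.be.reverse ++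
        s.d :: (rv s.L).reverse) := by
      rw [SD.bd, ha]
      simp
    have h8 : s.bd.reverse.Nodup :=
      List.nodup_reverse.2 (List.nodup_cons.1 (List.nodup_cons.1 hnd0).2).2
    refine List.nodup_cons.2 ⟨fun hh => ?_, ?_⟩
    · refine (List.nodup_cons.1 hnd0).1 (List.mem_cons_of_mem _ ((hbdm _).2 ?_))
      simp only [List.mem_cons, List.mem_append, List.not_mem_nil, or_false] at hh
      tauto
    · rw [h7, List.nodup_append] at h8
      exact h8.1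
  have had : G.Adj a s.d := by
    obtain ⟨hne, f, hf, h7, h8⟩ := h3
    exact hc.adj f (hFFs hf) a h7 s.d h8 hne
  obtain ⟨Γ₂, U₂, W, yc, yc2, Xs, c0n, e', x₁, y₁, h4, h5, h6, hyc, hst, hrv, hWo, hW, hXd, he2,
    hXw, hXsU, hXsU₂, hycU₂, hXsyc, heX, heXw, hLO, hΓa, hu1, hu2, hfill, hpair, hch, hzp⟩ :=
    StageC3_line (at' := at') (a := a) (d := s.d) (A := s.A) (e2 := s.l2.e) (y2 := y2) hc hw hD
      hG.line1.ok hG.line1.ext hG.o3 hG.e1 hG.o4 hG.line1.XR hG.line1.sB hord.lt.le hy2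
      hG.line2.eX hG.dcol had hlnA hndl
      (fun p hp => hS.und p (Or.inr (Or.inl (by
        rw [ha]
        simp only [List.mem_cons, List.mem_append, List.not_mem_nil, or_false] at hp ⊢
        tauto))))
      (fun f hf q hq => hS.und q (Or.inr (Or.inr (Or.inr ⟨f, Finset.mem_union_right _
        (Finset.mem_union_left _ (hfcA hf)), hq⟩))))
  subst hrv
  obtain ⟨Γ₁, U₁, hst2, hpath, hfill2, hpair2⟩ := StageC3_closed hc hE hw hD hG hS ha hF hord h4
    h5 h6 hst hWo hW hXd hXw hXsU hΓa hu1 hch hMC hv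
  obtain ⟨m, hm1, hm2⟩ := exists_between hXd
  have hFoF : Fo ⊆ F := by rw [hF]; exact Finset.subset_union_right
  have hfcFs : fanF s.l1.ow (s.z :: s.al ++ [s.w]) ⊆ Fs := StageC3_fan_sub hS.ln1
  have hnd' : (rv s.L ++ ([s.d] ++ s.be ++ [s.w] ++ al2.reverse ++ [a]) ++
      ((rv W).reverse ++ [s.z])).Nodup := by
    have h7 : s.bd = rv s.L ++ ([s.d] ++ s.be ++ [s.w] ++ al2.reverse ++ [a]) ++
      ((rv W).reverse ++ [s.z]) := by
      rw [SD.bd, ha]
      simp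
    rw [← h7]
    exact (List.nodup_cons.1 (List.nodup_cons.1 hnd0).2).2
  have hnda : ∀ x ∈ [s.d] ++ s.be ++ [s.w] ++ al2.reverse ++ [a],
      x ∉ rv s.L ∧ x ∉ rv W ∧ x ≠ s.z := by
    rw [List.nodup_append, List.nodup_append] at hnd'
    obtain ⟨⟨-, -, h7⟩, -, h8⟩ := hnd'
    intro x hx
    refine ⟨fun hh => h7 x hh x hx rfl, fun hh => h8 x (List.mem_append_right _ hx) x ?_ rfl,
      fun hh => h8 x (List.mem_append_right _ hx) x ?_ rfl⟩
    · simp [hh]
    · simp [hh]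
  have hd' := hnda s.d (by simp)
  have ha' := hnda a (by simp)
  have hface : ∀ x ∈ s.bd, ∃ g ∈ Fs, x ∈ g := by
    intro x hx
    obtain ⟨g, hg, hxg⟩ := StageC3_bdface hS.reg hx
    exact ⟨g, hFFs hg, hxg⟩
  have hdf := hface s.d ((hbdm _).2 (by tauto))
  have haf := hface a ((hbdm _).2 (by tauto))
  have hda : s.d ≠ a := fun hh => h3.1 hh.symm
  have hK1 : ∀ x, x = s.d ∨ x = a → (∃ g ∈ Fs, x ∈ g) → x ∉ rv s.L → x ∉ rv W →
      x ∉ KSet J (lN W a s.L s.d [] ++ [s.z]) Fo W s.L := by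
    rintro x hx hxf hx1 hx2 (h7 | h7 | h7)
    · rcases h7 with ⟨h7, h8⟩ | ⟨f, hf, h7⟩
      · apply h8
        have h9 : x ∈ rv s.L ++ [s.d] ++ [] ++ (rv W ++ [a]).reverse ++ [s.z] := by
          rcases hx with rfl | rfl <;> simp
        exact h9
      · exact StageC3_nJ hc hxf (hFFs (hFoF hf)) h7
    · exact hx2 h7
    · exact hx1 h7
  have hSG := StageC3_SG (al2 := al2) (W := W) hw hD hG hst hst2
    (by
      rintro (h7 | h7 | h7 | ⟨f, hf, h7⟩)
      · exact hd'.2.2 h7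
      · exact hd'.2.1 h7
      · exact hda h7
      · exact StageC3_nJ hc hdf (hfcFs (hfcA hf)) h7)
    (hK1 s.d (Or.inl rfl) hdf hd'.1 hd'.2.1) (hK1 a (Or.inr rfl) haf ha'.1 ha'.2.1) hord h4 h5 h6
    hyc hycU₂ (fun r hr => (hWo.mem hr).2.2) hXd hXw hXsU hXsU₂ he2 heX heXw hLO hΓa hu1 hu2
    hm1 hm2
  have hov : Ov Γ₁ s.d a := by
    obtain ⟨x, hx1, hx2⟩ := exists_between h5
    refine ⟨true, s.Xd, x, ?_, ?_⟩
    · exact hst2.grow.mono _ _ _ _ (hst.grow.mono _ _ _ _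
        (((hG.dcol x (hord.lt.trans (h4.trans hx1)) (hx2.trans h6)).2 s.d).2 rfl))
    · refine hst2.grow.mono _ _ _ _ ?_
      rw [hΓa]
      refine Or.inr ?_
      rw [CoreG2_segm h5]
      exact ⟨rfl, rfl, hx1, hx2⟩
  refine ⟨Γ₁, U₁, StageC3_s s a al2 m y2 yc yc2 Xs c0n e' x₁ y₁, Fn, ?_,
    fun o => (hst.sub o).trans (hst2.sub o), hst2.wd, hSG,
    StageC3_SC hc hS ha hF hdis hst.grow hst2.grow hov hRn hv,
    StageC3_done hc hS ha hF hdis hst inf_le_left hst2 (fun o l x hx => hx.1) hpath hfill hpair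
      hfill2 hpair2 hzp hRn hv⟩
  rw [hF, Finset.card_union_of_disjoint hdis]
  have h7 : 0 < Fo.card := Finset.card_pos.2 (Finset.nonempty_iff_ne_empty.2 hFo)
  omega

end EPG26
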