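import Pool.Agent.W_26e041_h61.StageB
import Pool.Agent.W_26e041_h61.StageC1
import Pool.Agent.W_26e041_h61.StageC2
import Pool.Agent.W_26e041_h61.StageC3

/-!
All stages.
-/

namespace EPG26

variable {V : Type*} [DecidableEq V]

/-- the first element of a list with a property -/
theorem StageD_first {α : Type*} (P : α → Prop) (l : List α) (h : ∃ x ∈ l, P x) :
    ∃ l1 x l2, l = l1 ++ x :: l2 ∧ P x ∧ ∀ y ∈ l1, ¬ P y := by
  classical
  induction l with
  | nil => obtain ⟨x, hx, _⟩ := h; simp at hx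
  | cons a t ih =>
    by_cases ha : P a
    · exact ⟨[], a, t, rfl, ha, by simp⟩
    · have h' : ∃ x ∈ t, P x := by
        obtain ⟨x, hx, hP⟩ := h
        rcases List.mem_cons.mp hx with rfl | hx
        · exact absurd hP ha
        · exact ⟨x, hx, hP⟩
      obtain ⟨l1, x, l2, rfl, hP, hn⟩ := ih h'
      refine ⟨a :: l1, x, l2, rfl, hP, ?_⟩
      intro y hy
      rcases List.mem_cons.mp hy with rfl | hy
      · exact ha
      · exact hn y hy

/-- Strong induction on `F.card`. If `z` is adjacent (in `F`) to a vertex of `be` take the first such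
vertex: `stage_c1`. Otherwise if some vertex of `al` is adjacent to a vertex of `be` let `a` be the first
such vertex: `stage_c3` if `a` is adjacent to `d`, otherwise `stage_c2` with the first vertex `c` of `be`
adjacent to `a`. Otherwise `stage_last`. (`Adm U₁ D` by `Adm.mono`.) -/
theorem stage {G : SimpleGraph V} {T : Finset V} {Fs : Finset (Finset V)}
    {J : Finset V → Finset V} {Ex : V → V → Prop} (hc : Ctx G T Fs J)
    (hE : ∀ u v, Ex u v → Ex v u) {Γ : Dr V} {U : Bool → Finset ℚ} {D : Cov} {s : SD V}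
    {F : Finset (Finset V)} (hw : Wd G Γ U) (hD : Adm U D) (hG : SG Γ U D s)
    (hS : SC G T Fs J Ex Γ s F) : SDone G J Ex Γ U D s F := by
  classical
  obtain ⟨n, hn⟩ : ∃ n, n = F.card := ⟨_, rfl⟩
  induction n using Nat.strong_induction_on generalizing Γ U s F with
  | _ n ih =>
    -- the reductions
    have red : (∃ Γ₁ U₁ s' F', F'.card < F.card ∧ (∀ o, U o ⊆ U₁ o) ∧ Wd G Γ₁ U₁ ∧ SG Γ₁ U₁ D s' ∧
      SC G T Fs J Ex Γ₁ s' F' ∧ (SDone G J Ex Γ₁ U₁ D s' F' → SDone G J Ex Γ U D s F)) →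
        SDone G J Ex Γ U D s F := by
      rintro ⟨Γ₁, U₁, s', F', hlt, hU, hw', hG', hS', hfin⟩
      exact hfin (ih _ (by rw [hn]; exact hlt) hw' (hD.mono hU) hG' hS' rfl)
    by_cases hz : ∃ u ∈ s.be, AdjF F s.z u
    · obtain ⟨bt, u, be2, hb, hu, hbt⟩ := StageD_first _ _ hz
      exact red (stage_c1 hc hE hw hD hG hS hb hbt hu)
    · have h1 : ∀ v ∈ s.be, ¬ AdjF F s.z v := fun v hv hadj => hz ⟨v, hv, hadj⟩
      by_cases ha : ∃ a ∈ s.al, ∃ v ∈ s.be, AdjF F a v
      · obtain ⟨at', a, al2, hal, ⟨v, hv, hav⟩, hat⟩ := StageD_first _ _ ha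
        have h2 : ∀ p ∈ at', ∀ v ∈ s.be, ¬ AdjF F p v :=
          fun p hp v hv hadj => hat p hp ⟨v, hv, hadj⟩
        by_cases hd : AdjF F a s.d
        · exact red (stage_c3 hc hE hw hD hG hS hal h1 h2 hd)
        · obtain ⟨bt, c, be2, hb, hc', hbt⟩ := StageD_first (fun v => AdjF F a v) _ ⟨v, hv, hav⟩
          exact red (stage_c2 hc hE hw hD hG hS hal hb h1 h2 hbt hc' hd)
      · exact stage_last hc hE hw hD hG hS h1 (fun a haa v hv hadj => ha ⟨a, haa, v, hv, hadj⟩)

end EPG26
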