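import Pool.Agent.W_26e041_h61.BlkG
import Pool.Agent.W_26e041_h61.StageD

/-!
Finishing a block, first case.
-/

namespace EPG26

variable {V : Type*} [DecidableEq V]

/-- everything in a block except `w` and the face `{o1, o2, w}` can be drawn -/
def BDone (G : SimpleGraph V) (T : Finset V) (Fs : Finset (Finset V))
    (J : Finset V → Finset V) (o1 o2 w : V) (bd : List V) (F : Finset (Finset V)) (Γ : Dr V)
    (U : Bool → Finset ℚ) (D : Cov) : Prop :=
  ∃ Γ' U', Step G Γ U D {v | (v ∈ verts bd F ∧ v ≠ w) ∨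
      ∃ f ∈ Fs, f ≠ ({o1, o2, w} : Finset V) ∧ v ∈ J f} Γ' U' ∧
    (∀ v ∈ verts bd F, v ≠ w → IsPath3 (Γ' v)) ∧
    (∀ f ∈ Fs, f ≠ ({o1, o2, w} : Finset V) → Filled G Γ' (J f)) ∧
    ∀ f ∈ Fs, f ≠ ({o1, o2, w} : Finset V) → ∀ p ∈ f, ∀ r ∈ f, p ≠ r → Rz (ExT T) Γ' p r

/-- the vertices of the boundary list of a block -/
theorem BlkI_mem {w e d : V} {al be fs : List V} {v : V} :
    v ∈ blkBd w e d al be fs ↔ v ∈ fs ∨ v = d ∨ v ∈ be ∨ v = w ∨ v ∈ al ∨ v = e := by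
  simp only [blkBd, List.mem_append, List.mem_reverse, List.mem_singleton]
  tauto

theorem BlkI_mem_al {w e d : V} {al be fs : List V} {v : V} (h : v ∈ e :: al ++ [w]) :
    v ∈ blkBd w e d al be fs := by
  simp only [List.cons_append, List.mem_cons, List.mem_append, List.not_mem_nil, or_false] at h
  refine BlkI_mem.2 ?_
  tauto

theorem BlkI_mem_be {w e d : V} {al be fs : List V} {v : V} (h : v ∈ d :: be ++ [w]) :
    v ∈ blkBd w e d al be fs := by
  simp only [List.cons_append, List.mem_cons, List.mem_append, List.not_mem_nil, or_false] at h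
  refine BlkI_mem.2 ?_
  tauto

/-- the faces of a block -/
theorem BlkI_faces {o1 o2 q w e d : V} {al be fs : List V} {F : Finset (Finset V)}
    {f : Finset V} : f ∈ blkF o1 o2 q w e d al be fs ∪ F ↔
      f = {o1, o2, w} ∨ f = {o1, q, e} ∨ f = {o2, q, d} ∨
      f ∈ fanF o1 (e :: al ++ [w]) ∨ f ∈ fanF o2 (d :: be ++ [w]) ∨ f ∈ fanF q (d :: fs ++ [e]) ∨
      f ∈ F := by
  rw [blkF]
  simp only [Finset.mem_union, Finset.mem_insert, Finset.mem_singleton]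
  tauto

/-- the vertices of the boundary list of a block are different -/
theorem BlkI_distinct {w e d : V} {al be fs : List V} (hn : (blkBd w e d al be fs).Nodup) :
    (e ∉ fs ∧ e ≠ d ∧ e ∉ be ∧ e ≠ w ∧ e ∉ al) ∧ (d ∉ fs ∧ d ∉ be ∧ d ≠ w ∧ d ∉ al) ∧
    (∀ v ∈ be, v ∉ fs ∧ v ≠ w ∧ v ∉ al) ∧ (w ∉ fs ∧ w ∉ al) ∧
    (∀ v ∈ fs, v ∉ al) ∧ fs.Nodup := by
  unfold blkBd at hn
  simp only [List.append_assoc, List.nodup_append, List.mem_append, List.mem_cons, List.not_mem_nil,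
    or_false, List.mem_reverse, List.nodup_cons, List.cons_append, List.nil_append, not_or] at hn
  obtain ⟨h0, ⟨⟨h1, h2, h3, h4⟩, -, ⟨⟨h5, h6⟩, -, -, h7⟩, h8⟩, h9⟩ := hn
  refine ⟨⟨fun h => ?_, fun h => h4 h.symm, fun h => ?_, fun h => h6 h.symm, fun h => ?_⟩,
    ⟨fun h => ?_, h1, h2, h3⟩, fun v hv => ⟨fun h => ?_, fun h => ?_, fun h => ?_⟩,
    ⟨fun h => ?_, h5⟩, fun v hv h => ?_, List.nodup_reverse.1 h0⟩
  · exact h9 e h e (by simp) rfl
  · exact h8 e h e (by simp) rfl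
  · exact h7 e h e (by simp) rfl
  · exact h9 d h d (by simp) rfl
  · exact h9 v h v (by simp [hv]) rfl
  · exact h8 v hv w (by simp) h
  · exact h8 v hv v (by simp [h]) rfl
  · exact h9 w h w (by simp) rfl
  · exact h9 v hv v (by simp [h]) rfl

/-- the apex of a fan lies in all its faces -/
theorem BlkI_fan_apex {z : V} {l : List V} {f : Finset V} (hf : f ∈ fanF z l) : z ∈ f := by
  obtain ⟨p, a, b, s, -, rfl⟩ := DiscH_mem_fanF.1 hf
  simp

/-- a chain from a fan -/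
theorem BlkI_chain {z : V} {l : List V} {Fs : Finset (Finset V)} (h : ∀ f ∈ fanF z l, f ∈ Fs) :
    List.IsChain (fun p q => ({z, p, q} : Finset V) ∈ Fs) l := by
  rw [List.isChain_iff_forall_rel_of_append_cons_cons]
  intro a b l1 l2 hl
  exact h _ (DiscH_mem_fanF.2 ⟨l1, a, b, l2, hl, rfl⟩)

/-- the last element of `d :: fs` is the first one of the records -/
theorem BlkI_topv {L : List (Rec V)} {d : V} {fs : List V} (h : rv L = fs.reverse) :
    ∃ p, d :: fs = p ++ [topv L d] := by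
  cases L with
  | nil =>
    have h1 : fs = [] := by
      have h2 : ([] : List V) = fs.reverse := h
      exact List.reverse_eq_nil_iff.1 h2.symm
    exact ⟨[], by rw [h1]; rfl⟩
  | cons r L =>
    have h1 : fs = (rv L).reverse ++ [r.v] := by
      have h2 : r.v :: rv L = fs.reverse := h
      have h3 := congrArg List.reverse h2
      rw [List.reverse_reverse, List.reverse_cons] at h3
      exact h3.symm
    exact ⟨d :: (rv L).reverse, by rw [h1]; rfl⟩

/-- `blk_q` with `tr = false`, `blk_align`, `stage` (`SC`: all conditions from the block; `z2` is `h2`,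
`z1` by `chQ`; `und` since the contents of different faces are disjoint and contain no vertices of
faces; `lk` from `blk_q`, the line `yd` is not changed by `blk_align` if `L ≠ []`). All vertices of
`verts bd F` except `w` are in `SD.K`. The faces `{o2, q, d}` and `fanF q (d :: fs)` are filled by
`blk_q`, `{o1, q, e}` and `{q, e, b₁}` (`b₁` the last element of `d :: fs`) by `blk_align`, the other
ones by the stage. Pairs: `Ex = ExT T`. -/
theorem blk_done1 {G : SimpleGraph V} {T : Finset V} {Fs : Finset (Finset V)}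
    {J : Finset V → Finset V} (hc : Ctx G T Fs J) {o1 o2 q w e d : V} {al be fs : List V}
    {F : Finset (Finset V)} (hB : Blk T Fs o1 o2 q w e d al be fs F)
    (h2 : ∀ c ∈ verts (blkBd w e d al be fs) F, c ∉ blkBd w e d al be fs → AdjF F e c →
      ∀ v ∈ (fs.reverse ++ [d]).tail, ¬ AdjF F c v)
    {Γ : Dr V} {U : Bool → Finset ℚ} {D : Cov} {Xq I0 I1 Xw S1 Top hR : ℚ} {l1 l2 : Ln V}
    (hw : Wd G Γ U) (hD : Adm U D) (h : BW Γ U D q w Xq I0 I1 Xw S1 Top hR l1 l2)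
    (ho1 : l1.ow = o1) (ho2 : l2.ow = o2)
    (hun : ∀ v, ((v ∈ verts (blkBd w e d al be fs) F ∧ v ≠ w) ∨
      ∃ f ∈ Fs, f ≠ ({o1, o2, w} : Finset V) ∧ v ∈ J f) → Undrawn Γ v) :
    BDone G T Fs J o1 o2 w (blkBd w e d al be fs) F Γ U D := by
  -- vertices
  have hnd := hB.nd
  simp only [List.nodup_cons, List.mem_cons, not_or] at hnd
  obtain ⟨⟨h12, h1q, h1b⟩, ⟨h2q, h2b⟩, hqb, hbn⟩ := hnd
  obtain ⟨⟨e1, e2, e3, e4, e5⟩, ⟨d1, d2, d3, d4⟩, hbe, ⟨w1, w2⟩, hfa, hfn⟩ := BlkI_distinct hbn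
  have hlen : 3 ≤ (blkBd w e d al be fs).length := by
    simp only [blkBd, List.length_append, List.length_cons, List.length_nil]
    omega
  have b1 : ∀ {x v : V}, x ∉ blkBd w e d al be fs → v ∈ blkBd w e d al be fs → x ≠ v :=
    fun hx hv hxv => hx (hxv ▸ hv)
  have mw : w ∈ blkBd w e d al be fs := BlkI_mem.2 (by simp)
  have me : e ∈ blkBd w e d al be fs := BlkI_mem.2 (by simp)
  have md : d ∈ blkBd w e d al be fs := BlkI_mem.2 (by simp)
  have mfs : ∀ v ∈ fs, v ∈ blkBd w e d al be fs := fun v hv => BlkI_mem.2 (by simp [hv])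
  have mal : ∀ v ∈ al, v ∈ blkBd w e d al be fs := fun v hv => BlkI_mem.2 (by simp [hv])
  have mbe : ∀ v ∈ be, v ∈ blkBd w e d al be fs := fun v hv => BlkI_mem.2 (by simp [hv])
  have mv : ∀ {v : V}, v ∈ blkBd w e d al be fs → v ∈ verts (blkBd w e d al be fs) F :=
    fun h => DiscA_mem_verts_left h
  have qw : q ≠ w := b1 hqb mw
  have qe : q ≠ e := b1 hqb me
  have qd : q ≠ d := b1 hqb md
  have o1w : o1 ≠ w := b1 h1b mw
  have o1e : o1 ≠ e := b1 h1b me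
  have o1d : o1 ≠ d := b1 h1b md
  have o2w : o2 ≠ w := b1 h2b mw
  have o2e : o2 ≠ e := b1 h2b me
  have o2d : o2 ≠ d := b1 h2b md
  -- faces
  have hFs : ∀ f, f ∈ Fs ↔ f = {o1, o2, w} ∨ f = {o1, q, e} ∨ f = {o2, q, d} ∨
      f ∈ fanF o1 (e :: al ++ [w]) ∨ f ∈ fanF o2 (d :: be ++ [w]) ∨ f ∈ fanF q (d :: fs ++ [e]) ∨
      f ∈ F := by
    intro f
    rw [hB.hF]
    exact BlkI_faces
  have hoF : ∀ f ∈ F, o1 ∉ f ∧ o2 ∉ f ∧ q ∉ f := by
    intro f hf
    refine ⟨fun h3 => ?_, fun h3 => ?_, fun h3 => ?_⟩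
    · exact hB.out o1 (by rw [hB.hT]; simp) (DiscA_mem_verts_right hf h3)
    · exact hB.out o2 (by rw [hB.hT]; simp) (DiscA_mem_verts_right hf h3)
    · exact hB.out q (by rw [hB.hT]; simp) (DiscA_mem_verts_right hf h3)
  have hf1 : ∀ f ∈ fanF o1 (e :: al ++ [w]), o1 ∈ f ∧ o2 ∉ f ∧ q ∉ f := by
    intro f hf
    refine ⟨BlkI_fan_apex hf, fun h3 => ?_, fun h3 => ?_⟩
    · rcases StageC1_fan_vert hf h3 with h4 | h4
      · exact h12 h4.symm
      · exact h2b (BlkI_mem_al h4)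
    · rcases StageC1_fan_vert hf h3 with h4 | h4
      · exact h1q h4.symm
      · exact hqb (BlkI_mem_al h4)
  have hf2 : ∀ f ∈ fanF o2 (d :: be ++ [w]), o2 ∈ f ∧ o1 ∉ f ∧ q ∉ f := by
    intro f hf
    refine ⟨BlkI_fan_apex hf, fun h3 => ?_, fun h3 => ?_⟩
    · rcases StageC1_fan_vert hf h3 with h4 | h4
      · exact h12 h4
      · exact h1b (BlkI_mem_be h4)
    · rcases StageC1_fan_vert hf h3 with h4 | h4
      · exact h2q h4.symm
      · exact hqb (BlkI_mem_be h4)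
  have hfq : ∀ f ∈ fanF q (d :: fs), q ∈ f ∧ e ∉ f ∧ o1 ∉ f := by
    intro f hf
    refine ⟨BlkI_fan_apex hf, fun h3 => ?_, fun h3 => ?_⟩
    · rcases StageC1_fan_vert hf h3 with h4 | h4
      · exact qe h4.symm
      · rcases List.mem_cons.1 h4 with h4 | h4
        · exact e2 h4
        · exact e1 h4
    · rcases StageC1_fan_vert hf h3 with h4 | h4
      · exact h1q h4
      · rcases List.mem_cons.1 h4 with h4 | h4
        · exact o1d h4
        · exact h1b (mfs _ h4)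
  -- vertices are not in contents
  have hnJ : ∀ {v : V}, v ∈ verts (blkBd w e d al be fs) F → ∀ {f : Finset V}, f ∈ Fs → v ∉ J f := by
    intro v hv f hf
    obtain ⟨g, hg, hvg⟩ := StageC1_inF hB.reg hlen hv
    exact StageC1_nJ hc (hB.reg.sub hg) hvg hf
  have hfe : ({o1, q, e} : Finset V) ∈ Fs := (hFs _).2 (Or.inr (Or.inl rfl))
  have hfd : ({o2, q, d} : Finset V) ∈ Fs := (hFs _).2 (Or.inr (Or.inr (Or.inl rfl)))
  have hFs1 : ∀ f ∈ fanF o1 (e :: al ++ [w]), f ∈ Fs :=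
    fun f hf => (hFs f).2 (Or.inr (Or.inr (Or.inr (Or.inl hf))))
  have hFs2 : ∀ f ∈ fanF o2 (d :: be ++ [w]), f ∈ Fs :=
    fun f hf => (hFs f).2 (Or.inr (Or.inr (Or.inr (Or.inr (Or.inl hf)))))
  have hnJ1 : ∀ {f : Finset V}, f ∈ Fs → o1 ∉ J f := fun hf => StageC1_nJ hc hfe (by simp) hf
  have hnJq : ∀ {f : Finset V}, f ∈ Fs → q ∉ J f := fun hf => StageC1_nJ hc hfe (by simp) hf
  have hJJ : ∀ {f g : Finset V} {v : V}, f ∈ Fs → g ∈ Fs → v ∈ J f → v ∈ J g → f = g := by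
    intro f g v hf hg hvf hvg
    by_contra hne
    exact Finset.disjoint_left.1 (hc.disj f hf g hg hne) hvf hvg
  -- the first part
  have hfq0 : ∀ f, (f = ({o2, q, d} : Finset V) ∨ f ∈ fanF q (d :: fs)) → f ∈ Fs := by
    rintro f (rfl | hf)
    · exact hfd
    · refine (hFs f).2 (Or.inr (Or.inr (Or.inr (Or.inr (Or.inr (Or.inl ?_))))))
      obtain ⟨p, a, b, s, h3, rfl⟩ := DiscH_mem_fanF.1 hf
      exact DiscH_mem_fanF.2 ⟨p, a, b, s ++ [e], by rw [h3]; simp, rfl⟩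
  have hfq1 : ∀ f, (f = ({o2, q, d} : Finset V) ∨ f ∈ fanF q (d :: fs)) →
      q ∈ f ∧ e ∉ f ∧ o1 ∉ f := by
    rintro f (rfl | hf)
    · refine ⟨by simp, ?_, ?_⟩
      · simp only [Finset.mem_insert, Finset.mem_singleton, not_or]
        exact ⟨o2e.symm, qe.symm, e2⟩
      · simp only [Finset.mem_insert, Finset.mem_singleton, not_or]
        exact ⟨h12, h1q, o1d⟩
    · exact hfq f hf
  have hne0 : ∀ {f : Finset V}, q ∈ f → f ≠ ({o1, o2, w} : Finset V) := by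
    rintro f hf rfl
    simp only [Finset.mem_insert, Finset.mem_singleton] at hf
    rcases hf with hf | hf | hf
    · exact h1q hf.symm
    · exact h2q hf.symm
    · exact qw hf
  have hun1 : ∀ v ∈ blkQ J o2 q d fs, Undrawn Γ v := by
    rintro v (rfl | hv | ⟨f, hf, hv⟩)
    · exact hun v (Or.inl ⟨mv md, d3⟩)
    · exact hun v (Or.inl ⟨mv (mfs v hv), fun h3 => w1 (h3 ▸ hv)⟩)
    · exact hun v (Or.inr ⟨f, hfq0 f hf, hne0 (hfq1 f hf).1, hv⟩)
  obtain ⟨Γ₁, U₁, Xd, b, h', A, B, u, yd, L, l2', hBQ, ho2', hrv, hfalse, -, hst1, hfil1, hovd,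
    hovq, hchain, htch, hlink, -⟩ := blk_q hc hB.toBlk0 false hw hD h ho1 ho2 hun1
  obtain ⟨huX, hIh⟩ := hfalse rfl
  rw [huX] at hBQ
  obtain ⟨p, hp⟩ := BlkI_topv (d := d) hrv
  have htop : topv L d ∈ d :: fs := by rw [hp]; simp
  have htb : topv L d ∈ blkBd w e d al be fs := by
    rcases List.mem_cons.1 htop with h3 | h3
    · rw [h3]; exact md
    · exact mfs _ h3
  have het : e ≠ topv L d := by
    intro h3
    rcases List.mem_cons.1 htop with h4 | h4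
    · exact e2 (h3.trans h4)
    · exact e1 (h3 ▸ h4)
  have hqt : q ≠ topv L d := b1 hqb htb
  have hfanq : ∀ f, f ∈ fanF q (d :: fs ++ [e]) ↔
      f ∈ fanF q (d :: fs) ∨ f = ({q, e, topv L d} : Finset V) := by
    intro f
    have h3 : fanF q (d :: fs ++ [e]) = fanF q (d :: fs) ∪ {({q, topv L d, e} : Finset V)} := by
      have h4 : d :: fs ++ [e] = p ++ topv L d :: e :: [] := by rw [hp]; simp
      rw [h4, StageC1_fan_split, ← hp]
      rfl
    have h4 : ({q, topv L d, e} : Finset V) = {q, e, topv L d} :=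
      congrArg (insert q) (Finset.pair_comm _ _)
    rw [h3, Finset.mem_union, Finset.mem_singleton, h4]
  have hft : ({q, e, topv L d} : Finset V) ∈ Fs :=
    (hFs _).2 (Or.inr (Or.inr (Or.inr (Or.inr (Or.inr (Or.inl ((hfanq _).2 (Or.inr rfl))))))))
  -- the second part
  have hnb : ∀ {v : V}, v ∈ verts (blkBd w e d al be fs) F → v ≠ d → v ∉ fs →
      v ∉ blkQ J o2 q d fs := by
    rintro v hv hvd hvf (h3 | h3 | ⟨f, hf, h3⟩)
    · exact hvd h3
    · exact hvf h3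
    · exact hnJ hv (hfq0 f hf) h3
  have hnbJ : ∀ {v : V} {f : Finset V}, f ∈ Fs → v ∈ J f →
      (¬ (f = ({o2, q, d} : Finset V) ∨ f ∈ fanF q (d :: fs))) → v ∉ blkQ J o2 q d fs := by
    rintro v f hf hvf hf' (h3 | h3 | ⟨g, hg, h3⟩)
    · exact hnJ (mv md) hf (h3 ▸ hvf)
    · exact hnJ (mv (mfs v h3)) hf hvf
    · exact hf' ((hJJ hf (hfq0 g hg) hvf h3) ▸ hg)
  have hte1 : ¬ (({q, e, topv L d} : Finset V) = {o2, q, d} ∨
      ({q, e, topv L d} : Finset V) ∈ fanF q (d :: fs)) :=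
    fun h3 => (hfq1 _ h3).2.1 (by simp)
  have hte2 : ¬ (({o1, q, e} : Finset V) = {o2, q, d} ∨
      ({o1, q, e} : Finset V) ∈ fanF q (d :: fs)) :=
    fun h3 => (hfq1 _ h3).2.1 (by simp)
  have hte3 : ({q, e, topv L d} : Finset V) ≠ {o1, q, e} := by
    intro h3
    have h4 : o1 ∈ ({q, e, topv L d} : Finset V) := by rw [h3]; simp
    simp only [Finset.mem_insert, Finset.mem_singleton] at h4
    rcases h4 with h4 | h4 | h4
    · exact h1q h4
    · exact o1e h4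
    · exact h1b (h4 ▸ htb)
  have hnd2 : (l1.ow :: q :: e :: w :: (rv L ++ [d])).Nodup := by
    rw [ho1, hrv]
    simp only [List.nodup_cons, List.mem_cons, List.mem_append, List.mem_reverse,
      List.not_mem_nil, or_false, not_or, List.nodup_append, List.nodup_reverse]
    refine ⟨⟨h1q, o1e, o1w, fun h3 => h1b (mfs _ h3), o1d⟩,
      ⟨qe, qw, fun h3 => hqb (mfs _ h3), qd⟩, ⟨e4, e1, e2⟩, ⟨w1, d3.symm⟩, hfn,
      ⟨not_false, List.nodup_nil⟩, ?_⟩
    rintro a ha b' rfl rfl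
    exact d1 ha
  have hund1 : ∀ {v : V}, Undrawn Γ v → v ∉ blkQ J o2 q d fs → Undrawn Γ₁ v :=
    fun h3 h4 => h3.grow hst1.grow h4
  obtain ⟨Γ₂, U₂, Xe, h'', B', l1', ho1', hst2, hSG, hfilA, hfilB, hove1, hoveq, hovet, hline⟩ :=
    blk_align (Ja := J {q, e, topv L d}) (Jb := J {o1, q, e}) hst1.wd (hD.mono hst1.sub) hBQ hIh
      hnd2 (hund1 (hun e (Or.inl ⟨mv me, e4⟩)) (hnb (mv me) e2 e1))
      (by rw [ho1]; exact hc.adj _ hfe _ (by simp) _ (by simp) o1e.symm)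
      (hc.adj _ hfe _ (by simp) _ (by simp) qe.symm)
      (hc.adj _ hft _ (by simp) _ (by simp) het)
      (by
        rintro v (hv | hv)
        · refine ⟨hund1 (hun v (Or.inr ⟨_, hft, hne0 (by simp), hv⟩)) (hnbJ hft hv hte1), ?_⟩
          rw [ho1, hrv]
          simp only [List.mem_cons, List.mem_append, List.mem_reverse, List.not_mem_nil,
            or_false, not_or]
          exact ⟨fun h3 => hnJ1 hft (h3 ▸ hv), fun h3 => hnJq hft (h3 ▸ hv),
            fun h3 => hnJ (mv me) hft (h3 ▸ hv), fun h3 => hnJ (mv mw) hft (h3 ▸ hv),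
            fun h3 => hnJ (mv (mfs v h3)) hft hv, fun h3 => hnJ (mv md) hft (h3 ▸ hv)⟩
        · refine ⟨hund1 (hun v (Or.inr ⟨_, hfe, hne0 (by simp), hv⟩)) (hnbJ hfe hv hte2), ?_⟩
          rw [ho1, hrv]
          simp only [List.mem_cons, List.mem_append, List.mem_reverse, List.not_mem_nil,
            or_false, not_or]
          exact ⟨fun h3 => hnJ1 hfe (h3 ▸ hv), fun h3 => hnJq hfe (h3 ▸ hv),
            fun h3 => hnJ (mv me) hfe (h3 ▸ hv), fun h3 => hnJ (mv mw) hfe (h3 ▸ hv),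
            fun h3 => hnJ (mv (mfs v h3)) hfe hv, fun h3 => hnJ (mv md) hfe (h3 ▸ hv)⟩)
      (hc.disj _ hft _ hfe hte3) (hc.fill _ hft) (by rw [ho1]; exact hc.fill _ hfe) al be
  have hg1 := hst1.grow
  have hg2 := hst2.grow
  -- the stage
  have hbd : SD.bd (⟨e, d, w, Xe, h'', A, B', yd, Xd, Xw, Top, 0, 0, false, L, al, be, l1', l2'⟩ :
      SD V) = blkBd w e d al be fs := by
    show rv L ++ [d] ++ be ++ [w] ++ al.reverse ++ [e] = _
    rw [hrv]
    rfl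
  have hfc : SD.fc (⟨e, d, w, Xe, h'', A, B', yd, Xd, Xw, Top, 0, 0, false, L, al, be, l1', l2'⟩ :
      SD V) F = F ∪ (fanF o1 (e :: al ++ [w]) ∪ fanF o2 (d :: be ++ [w])) := by
    show F ∪ (fanF l1'.ow (e :: al ++ [w]) ∪ fanF l2'.ow (d :: be ++ [w])) = _
    rw [ho1', ho1, ho2']
  have hfc1 : ∀ f, f ∈ F ∪ (fanF o1 (e :: al ++ [w]) ∪ fanF o2 (d :: be ++ [w])) →
      f ∈ Fs ∧ q ∉ f ∧ f ≠ ({o1, o2, w} : Finset V) := by
    intro f hf
    rw [Finset.mem_union, Finset.mem_union] at hf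
    rcases hf with hf | hf | hf
    · refine ⟨hB.reg.sub hf, (hoF f hf).2.2, ?_⟩
      rintro rfl
      exact (hoF _ hf).1 (by simp)
    · refine ⟨hFs1 f hf, (hf1 f hf).2.2, ?_⟩
      rintro rfl
      exact (hf1 _ hf).2.1 (by simp)
    · refine ⟨hFs2 f hf, (hf2 f hf).2.2, ?_⟩
      rintro rfl
      exact (hf2 _ hf).2.1 (by simp)
  have hn2 : ∀ {v : V}, v ∈ verts (blkBd w e d al be fs) F → v ≠ e →
      v ∉ {v | v = e ∨ v ∈ J ({q, e, topv L d} : Finset V) ∨ v ∈ J ({o1, q, e} : Finset V)} := by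
    rintro v hv hve (h3 | h3 | h3)
    · exact hve h3
    · exact hnJ hv hft h3
    · exact hnJ hv hfe h3
  have hn2J : ∀ {v : V} {f : Finset V}, f ∈ Fs → v ∈ J f → (q ∉ f ∨ e ∉ f) →
      v ∉ {v | v = e ∨ v ∈ J ({q, e, topv L d} : Finset V) ∨ v ∈ J ({o1, q, e} : Finset V)} := by
    rintro v f hf hvf hf' (h3 | h3 | h3)
    · exact hnJ (mv me) hf (h3 ▸ hvf)
    · have h4 := hJJ hf hft hvf h3
      rw [h4] at hf'
      rcases hf' with h5 | h5
      · exact h5 (by simp)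
      · exact h5 (by simp)
    · have h4 := hJJ hf hfe hvf h3
      rw [h4] at hf'
      rcases hf' with h5 | h5
      · exact h5 (by simp)
      · exact h5 (by simp)
  have hund2 : ∀ {v : V}, Undrawn Γ v → v ∉ blkQ J o2 q d fs →
      v ∉ {v | v = e ∨ v ∈ J ({q, e, topv L d} : Finset V) ∨ v ∈ J ({o1, q, e} : Finset V)} →
      Undrawn Γ₂ v := fun h3 h4 h5 => (hund1 h3 h4).grow hg2 h5
  have hS : SC G T Fs J (ExT T) Γ₂
      ⟨e, d, w, Xe, h'', A, B', yd, Xd, Xw, Top, 0, 0, false, L, al, be, l1', l2'⟩ F := by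
    refine ⟨?_, ?_, hB.chA, hB.chD, ?_, ?_, fun _ => hB.zb, ?_, ?_, ?_, ?_, ?_, ?_, ?_, ?_, ?_, ?_,
      ?_, ?_⟩
    · rw [hbd]; exact hB.reg
    · show Chless F (rv L ++ [d])
      rw [hrv]
      exact CombA_chless_tail hB.chQ
    · show ∀ v ∈ (rv L ++ [d]).tail, ¬ AdjF F e v
      rw [hrv]
      intro v hv
      exact CombA_chless_head hB.chQ hv
    · rw [hbd]
      show ∀ c ∈ verts (blkBd w e d al be fs) F, c ∉ blkBd w e d al be fs → AdjF F e c →
        ∀ v ∈ (rv L ++ [d]).tail, ¬ AdjF F c v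
      rw [hrv]
      exact h2
    · show List.IsChain (fun p q => ({l1'.ow, p, q} : Finset V) ∈ Fs) (e :: al ++ [w])
      rw [ho1', ho1]
      exact BlkI_chain hFs1
    · show List.IsChain (fun p q => ({l2'.ow, p, q} : Finset V) ∈ Fs) (d :: be ++ [w])
      rw [ho2']
      exact BlkI_chain hFs2
    · show Disjoint F (fanF l1'.ow (e :: al ++ [w]))
      rw [ho1', ho1, Finset.disjoint_left]
      exact fun f hf hf' => (hoF f hf).1 (hf1 f hf').1
    · show Disjoint F (fanF l2'.ow (d :: be ++ [w]))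
      rw [ho2', Finset.disjoint_left]
      exact fun f hf hf' => (hoF f hf).2.1 (hf2 f hf').1
    · show Disjoint (fanF l1'.ow (e :: al ++ [w])) (fanF l2'.ow (d :: be ++ [w]))
      rw [ho1', ho1, ho2', Finset.disjoint_left]
      exact fun f hf hf' => (hf1 f hf).2.1 (hf2 f hf').1
    · rw [hbd]
      show (l1'.ow :: l2'.ow :: blkBd w e d al be fs).Nodup
      rw [ho1', ho1, ho2']
      simp only [List.nodup_cons, List.mem_cons, not_or]
      exact ⟨⟨h12, h1b⟩, h2b, hbn⟩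
    · rw [hbd]
      show l1'.ow ∉ verts (blkBd w e d al be fs) F
      rw [ho1', ho1]
      exact hB.out o1 (by rw [hB.hT]; simp)
    · rw [hbd]
      show l2'.ow ∉ verts (blkBd w e d al be fs) F
      rw [ho2']
      exact hB.out o2 (by rw [hB.hT]; simp)
    · rw [hbd, hfc]
      show ∀ v, v ∈ verts (blkBd w e d al be fs) F ∧ v ∉ blkBd w e d al be fs ∨ v ∈ al ∨ v ∈ be ∨
        (∃ f ∈ F ∪ (fanF o1 (e :: al ++ [w]) ∪ fanF o2 (d :: be ++ [w])), v ∈ J f) → Undrawn Γ₂ v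
      rintro v (⟨hv, hv'⟩ | hv | hv | ⟨f, hf, hv⟩)
      · exact hund2 (hun v (Or.inl ⟨hv, fun h3 => hv' (h3 ▸ mw)⟩))
          (hnb hv (fun h3 => hv' (h3 ▸ md)) (fun h3 => hv' (mfs v h3)))
          (hn2 hv (fun h3 => hv' (h3 ▸ me)))
      · exact hund2 (hun v (Or.inl ⟨mv (mal v hv), fun h3 => w2 (h3 ▸ hv)⟩))
          (hnb (mv (mal v hv)) (fun h3 => d4 (h3 ▸ hv)) (fun h3 => hfa v h3 hv))
          (hn2 (mv (mal v hv)) (fun h3 => e5 (h3 ▸ hv)))
      · exact hund2 (hun v (Or.inl ⟨mv (mbe v hv), (hbe v hv).2.1⟩))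
          (hnb (mv (mbe v hv)) (fun h3 => d2 (h3 ▸ hv)) (hbe v hv).1)
          (hn2 (mv (mbe v hv)) (fun h3 => e3 (h3 ▸ hv)))
      · obtain ⟨g1, g2, g3⟩ := hfc1 f hf
        exact hund2 (hun v (Or.inr ⟨f, g1, g3, hv⟩))
          (hnbJ g1 hv (fun h3 => g2 (hfq1 f h3).1)) (hn2J g1 hv (Or.inl g2))
    · show List.IsChain (Rz (ExT T) Γ₂) (rv L ++ [d])
      exact hchain.imp fun _ _ h3 => Or.inr (Ov.mono hg2 h3)
    · show Rz (ExT T) Γ₂ e (topv L d)
      exact Or.inr hovet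
    · show be ≠ [] → L ≠ [] → TCh L yd ∧ ∃ l₀ l₁, l₀ < l₁ ∧ l₁ ≤ A ∧
        Solo Γ₂ {lastv L d, d} false yd l₀ l₁
      intro _ hL
      obtain ⟨l₀, l₁, g1, g2, g3⟩ := hlink hL
      refine ⟨htch, l₀, l₁, g1, g2, fun x hx hx' v => ?_⟩
      rw [hline hL v x]
      exact g3 x hx hx' v
  have hE : ∀ u v, ExT T u v → ExT T v u := fun u v h3 => ⟨h3.2, h3.1⟩
  obtain ⟨Γ₃, U₃, hst3, hpa, hfil3, hrz3⟩ := stage hc hE hst2.wd
    ((hD.mono hst1.sub).mono hst2.sub) hSG hS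
  have hg3 := hst3.grow
  have hK3 : ∀ v, v ∈ SD.K J (⟨e, d, w, Xe, h'', A, B', yd, Xd, Xw, Top, 0, 0, false, L, al, be,
      l1', l2'⟩ : SD V) F ↔ (v ∈ verts (blkBd w e d al be fs) F ∧ v ∉ blkBd w e d al be fs ∨
      v ∈ fs ∨ v = e ∨ v = d ∨ v ∈ al ∨ v ∈ be ∨
      ∃ f ∈ F ∪ (fanF o1 (e :: al ++ [w]) ∪ fanF o2 (d :: be ++ [w])), v ∈ J f) := by
    intro v
    unfold SD.K
    rw [hbd, hfc, Set.mem_ofPred_eq]
    show (_ ∨ v ∈ rv L ∨ _) ↔ _
    rw [hrv, List.mem_reverse]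
  have hpers3 : ∀ {f : Finset V}, f ∈ Fs → q ∈ f → ∀ v ∈ J f, v ∉ SD.K J (⟨e, d, w, Xe, h'', A,
      B', yd, Xd, Xw, Top, 0, 0, false, L, al, be, l1', l2'⟩ : SD V) F := by
    intro f hf hqf v hv hvK
    rw [hK3] at hvK
    rcases hvK with ⟨h3, -⟩ | h3 | h3 | h3 | h3 | h3 | ⟨g, hg, h3⟩
    · exact hnJ h3 hf hv
    · exact hnJ (mv (mfs v h3)) hf hv
    · exact hnJ (mv me) hf (h3 ▸ hv)
    · exact hnJ (mv md) hf (h3 ▸ hv)
    · exact hnJ (mv (mal v h3)) hf hv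
    · exact hnJ (mv (mbe v h3)) hf hv
    · obtain ⟨g1, g2, g3⟩ := hfc1 g hg
      exact g2 ((hJJ hf g1 hv h3) ▸ hqf)
  refine ⟨Γ₃, U₃, ?_, ?_, ?_, ?_⟩
  · refine (hst1.weaken le_rfl ?_).trans ((hst2.weaken le_rfl ?_).trans (hst3.weaken le_rfl ?_))
    · rintro v (rfl | hv | ⟨f, hf, hv⟩)
      · exact Or.inl ⟨mv md, d3⟩
      · exact Or.inl ⟨mv (mfs v hv), fun h3 => w1 (h3 ▸ hv)⟩
      · exact Or.inr ⟨f, hfq0 f hf, hne0 (hfq1 f hf).1, hv⟩
    · rintro v (rfl | hv | hv)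
      · exact Or.inl ⟨mv me, e4⟩
      · exact Or.inr ⟨_, hft, hne0 (by simp), hv⟩
      · exact Or.inr ⟨_, hfe, hne0 (by simp), hv⟩
    · intro v hv
      rw [hK3] at hv
      rcases hv with ⟨h3, h4⟩ | h3 | h3 | h3 | h3 | h3 | ⟨g, hg, h3⟩
      · exact Or.inl ⟨h3, fun h5 => h4 (h5 ▸ mw)⟩
      · exact Or.inl ⟨mv (mfs v h3), fun h5 => w1 (h5 ▸ h3)⟩
      · exact Or.inl ⟨h3 ▸ mv me, h3 ▸ e4⟩
      · exact Or.inl ⟨h3 ▸ mv md, h3 ▸ d3⟩
      · exact Or.inl ⟨mv (mal v h3), fun h5 => w2 (h5 ▸ h3)⟩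
      · exact Or.inl ⟨mv (mbe v h3), (hbe v h3).2.1⟩
      · obtain ⟨g1, g2, g3⟩ := hfc1 g hg
        exact Or.inr ⟨g, g1, g3, h3⟩
  · intro v hv hvw
    refine hpa v ((hK3 v).2 ?_)
    by_cases hvb : v ∈ blkBd w e d al be fs
    · rcases BlkI_mem.1 hvb with h3 | h3 | h3 | h3 | h3 | h3
      · exact Or.inr (Or.inl h3)
      · exact Or.inr (Or.inr (Or.inr (Or.inl h3)))
      · exact Or.inr (Or.inr (Or.inr (Or.inr (Or.inr (Or.inl h3)))))
      · exact absurd h3 hvw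
      · exact Or.inr (Or.inr (Or.inr (Or.inr (Or.inl h3))))
      · exact Or.inr (Or.inr (Or.inl h3))
    · exact Or.inl ⟨hv, hvb⟩
  · intro f hf hf0
    rcases (hFs f).1 hf with h3 | h3 | h3 | h3 | h3 | h3 | h3
    · exact absurd h3 hf0
    · rw [h3]
      exact Filled.mono hg3 hfilB (hpers3 hfe (by simp))
    · rw [h3]
      exact Filled.mono hg3 (Filled.mono hg2 (hfil1 _ (Or.inl rfl))
        fun v hv => hn2J hfd hv (Or.inr (hfq1 _ (Or.inl rfl)).2.1)) (hpers3 hfd (by simp))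
    · exact hfil3 f (by rw [hfc]; exact Finset.mem_union.2 (Or.inr (Finset.mem_union.2 (Or.inl h3))))
    · exact hfil3 f (by rw [hfc]; exact Finset.mem_union.2 (Or.inr (Finset.mem_union.2 (Or.inr h3))))
    · rcases (hfanq f).1 h3 with h4 | h4
      · exact Filled.mono hg3 (Filled.mono hg2 (hfil1 _ (Or.inr h4))
          fun v hv => hn2J hf hv (Or.inr (hfq1 _ (Or.inr h4)).2.1)) (hpers3 hf (hfq _ h4).1)
      · rw [h4]
        exact Filled.mono hg3 hfilA (hpers3 hft (by simp))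
    · exact hfil3 f (by rw [hfc]; exact Finset.mem_union.2 (Or.inl h3))
  · have hoT1 : o1 ∈ T := by rw [hB.hT]; simp
    have hoT2 : o2 ∈ T := by rw [hB.hT]; simp
    have hqT : q ∈ T := by rw [hB.hT]; simp
    rw [ho1] at hove1
    -- three vertices
    have tri : ∀ {x y z : V}, Rz (ExT T) Γ₃ x y → Rz (ExT T) Γ₃ x z → Rz (ExT T) Γ₃ y z →
        ∀ p ∈ ({x, y, z} : Finset V), ∀ r ∈ ({x, y, z} : Finset V), p ≠ r →
          Rz (ExT T) Γ₃ p r := by
      intro x y z hxy hxz hyz p hp r hr hpr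
      simp only [Finset.mem_insert, Finset.mem_singleton] at hp hr
      rcases hp with rfl | rfl | rfl <;> rcases hr with rfl | rfl | rfl
      · exact absurd rfl hpr
      · exact hxy
      · exact hxz
      · exact Rz.symm hE hxy
      · exact absurd rfl hpr
      · exact hyz
      · exact Rz.symm hE hxz
      · exact Rz.symm hE hyz
      · exact absurd rfl hpr
    have up1 : ∀ {x y : V}, Ov Γ₁ x y → Rz (ExT T) Γ₃ x y :=
      fun h3 => Or.inr (Ov.mono hg3 (Ov.mono hg2 h3))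
    have up2 : ∀ {x y : V}, Ov Γ₂ x y → Rz (ExT T) Γ₃ x y := fun h3 => Or.inr (Ov.mono hg3 h3)
    intro f hf hf0
    rcases (hFs f).1 hf with h3 | h3 | h3 | h3 | h3 | h3 | h3
    · exact absurd h3 hf0
    · rw [h3]
      exact tri (Or.inl ⟨hoT1, hqT⟩) (up2 hove1.symm) (up2 hoveq.symm)
    · rw [h3]
      exact tri (Or.inl ⟨hoT2, hqT⟩) (up1 hovd.symm) (up1 (hovq d (by simp)).symm)
    · exact hrz3 f (by rw [hfc]; exact Finset.mem_union.2 (Or.inr (Finset.mem_union.2 (Or.inl h3))))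
    · exact hrz3 f (by rw [hfc]; exact Finset.mem_union.2 (Or.inr (Finset.mem_union.2 (Or.inr h3))))
    · rcases (hfanq f).1 h3 with h4 | h4
      · have hch : List.IsChain (Ov Γ₁) (d :: fs) := by
          have h5 : List.IsChain (Ov Γ₁) (rv L ++ [d]).reverse := by
            rw [List.isChain_reverse]
            exact hchain.imp fun _ _ h6 => h6.symm
          rw [hrv] at h5
          simpa using h5
        intro p hp r hr hpr
        exact up1 (StageB_fan_rz hch hovq h4 hp hr hpr)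
      · rw [h4]
        exact tri (up2 hoveq.symm) (up1 (hovq _ htop).symm) (up2 hovet)
    · exact hrz3 f (by rw [hfc]; exact Finset.mem_union.2 (Or.inl h3))

end EPG26
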