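import Pool.Agent.W_26e041_h61.BlkI
import Pool.Agent.W_26e041_h61.BlkH
import Pool.Agent.W_26e041_h78.BlkJa

/-!
Finishing a block, second case.
-/

namespace EPG26

variable {V : Type*} [DecidableEq V]

omit [DecidableEq V] in
/-- `TCh` for the last part of a list -/
theorem BlkJ_tch {Y : ℚ} : ∀ {L L' : List (Rec V)}, TCh (L ++ L') Y → TCh L' Y
  | [], _, h => h
  | _ :: L, _, h => BlkJ_tch (L := L) h.2

omit [DecidableEq V] in
theorem BlkJ_last (d : V) (r : Rec V) (t : List (Rec V)) : ∀ L : List (Rec V),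
    lastv (L ++ r :: t) d = lastv t r.v
  | [] => rfl
  | a :: L => by
    show lastv (L ++ r :: t) a.v = lastv t r.v
    exact BlkJ_last a.v r t L

omit [DecidableEq V] in
theorem BlkJ_lastmem : ∀ (t : List (Rec V)) (v : V), lastv t v ∈ v :: rv t
  | [], v => by simp [lastv]
  | r :: t, v => by
    have h := BlkJ_lastmem t r.v
    show lastv t r.v ∈ v :: (r.v :: rv t)
    exact List.mem_cons_of_mem _ h

/-- `blk_q` with `tr = true`: its list is `L = r₁ :: (Lr₁ ++ Lr₂)` with `r₁.v = b`, `rv Lr₁ = L₁`,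
`topv Lr₂ d = y`, `rv Lr₂ ++ [d] = y :: L₂` (`MachC_split`). `blk_trick`, then `closedM2` for the
sub-state: faces `F₂`, black vertices `r₁ :: Lr₁`, white base `x`, black base `y`, `Ex = ExT T`,
`P = PI`; it changes only `K₂ = Own J ([x] ++ (b :: L₁ ++ [y]).reverse ++ [e]) F₂` and `b, L₁`; `x, e, d`
and `rv Lr₂` are not in `K₂` (boundary vertices, `hs`, nodup). Then `stage` for `F₁` with the records
`rx :: Lr₂`: `SC` from the hypotheses (`chB` by `hch`, `z1` by `chQ`, `z2` by `hz2`); the link zone is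
`(Xx, xh)` if `Lr₂ = []`, otherwise the one of `blk_q` (the line `yd` is not changed). The vertices of
`verts bd F` are `w`, the vertices of `b :: L₁` and the inner vertices of `F₂` (finished by
`closedM2`), and vertices of `SD.K`. -/
theorem blk_done2 {G : SimpleGraph V} {T : Finset V} {Fs : Finset (Finset V)}
    {J : Finset V → Finset V} (hc : Ctx G T Fs J) {o1 o2 q w e d : V} {al be fs : List V}
    {F : Finset (Finset V)} (hB : Blk T Fs o1 o2 q w e d al be fs F)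
    {b y x : V} {L₁ L₂ : List V} {F₁ F₂ : Finset (Finset V)}
    (hl : fs.reverse ++ [d] = b :: (L₁ ++ y :: L₂))
    (hx : x ∈ verts (blkBd w e d al be fs) F) (hxb : x ∉ blkBd w e d al be fs)
    (hex : AdjF F e x) (hxy : AdjF F x y) (hF : F = F₁ ∪ F₂) (hFF : Disjoint F₁ F₂)
    (hr₁ : Reg T Fs (x :: y :: L₂ ++ be ++ [w] ++ al.reverse ++ [e]) F₁)
    (hr₂ : MC T Fs [x] (b :: L₁ ++ [y]) [] [] e F₂)
    (hs : ∀ v, v ∈ verts (x :: y :: L₂ ++ be ++ [w] ++ al.reverse ++ [e]) F₁ →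
      v ∈ verts ([x] ++ (b :: L₁ ++ [y]).reverse ++ [e]) F₂ → v = x ∨ v = y ∨ v = e)
    (hch : Chless F₁ (x :: y :: L₂))
    (hz2 : ∀ c ∈ verts (x :: y :: L₂ ++ be ++ [w] ++ al.reverse ++ [e]) F₁,
      c ∉ x :: y :: L₂ ++ be ++ [w] ++ al.reverse ++ [e] → AdjF F₁ e c →
      ∀ v ∈ y :: L₂, ¬ AdjF F₁ c v)
    {Γ : Dr V} {U : Bool → Finset ℚ} {D : Cov} {Xq I0 I1 Xw S1 Top hR : ℚ} {l1 l2 : Ln V}
    (hw : Wd G Γ U) (hD : Adm U D) (h : BW Γ U D q w Xq I0 I1 Xw S1 Top hR l1 l2)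
    (ho1 : l1.ow = o1) (ho2 : l2.ow = o2)
    (hun : ∀ v, ((v ∈ verts (blkBd w e d al be fs) F ∧ v ≠ w) ∨
      ∃ f ∈ Fs, f ≠ ({o1, o2, w} : Finset V) ∧ v ∈ J f) → Undrawn Γ v) :
    BDone G T Fs J o1 o2 w (blkBd w e d al be fs) F Γ U D := by
  classical
  have hB0 : Blk0 T Fs o1 o2 q w e d al be fs F := hB.toBlk0
  obtain ⟨k, c, K⟩ := BlkJa_main hc hB0 hl hx hxb hF hFF hs
  have hE : ∀ u v, ExT T u v → ExT T v u := fun u v h5 => ⟨h5.2, h5.1⟩
  have hR : ∀ {Γ'' : Dr V} (u v : V), Rz (ExT T) Γ'' u v → Rz (ExT T) Γ'' v u :=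
    fun u v h5 => Rz.symm hE h5
  have hnd := hB0.nd
  simp only [List.nodup_cons, List.mem_cons, not_or] at hnd
  obtain ⟨⟨n1, n2, n3⟩, ⟨n4, n5⟩, n6, hnb⟩ := hnd
  have hV : ∀ v, v ∈ blkBd w e d al be fs → v ∈ verts (blkBd w e d al be fs) F :=
    fun v hv => Finset.mem_union_left _ (List.mem_toFinset.2 hv)
  have mbd : ∀ v, v ∈ blkBd w e d al be fs ↔
      v ∈ b :: L₁ ∨ v ∈ y :: L₂ ∨ v ∈ be ∨ v = w ∨ v ∈ al ∨ v = e := by
    intro v
    rw [BlkJa_mem_bd, hl, ← List.cons_append, List.mem_append]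
    tauto
  have mfs : ∀ v, v ∈ d :: fs → v ∈ b :: L₁ ∨ v ∈ y :: L₂ := by
    intro v hv
    have h1 : v ∈ fs.reverse ++ [d] := by
      simp only [List.mem_append, List.mem_reverse, List.mem_cons, List.not_mem_nil,
        or_false] at hv ⊢
      tauto
    rw [hl, ← List.cons_append, List.mem_append] at h1
    exact h1
  have ho1v : ∀ v ∈ verts (blkBd w e d al be fs) F, o1 ≠ v := fun v hv hv' =>
    hB0.out o1 (by rw [hB0.hT]; simp) (hv' ▸ hv)
  have ho2v : ∀ v ∈ verts (blkBd w e d al be fs) F, o2 ≠ v := fun v hv hv' =>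
    hB0.out o2 (by rw [hB0.hT]; simp) (hv' ▸ hv)
  have hqv : ∀ v ∈ verts (blkBd w e d al be fs) F, q ≠ v := fun v hv hv' =>
    hB0.out q (by rw [hB0.hT]; simp) (hv' ▸ hv)
  -- the vertices to be drawn
  obtain ⟨KK, hKK⟩ : ∃ KK : Set V, KK = {v | (v ∈ verts (blkBd w e d al be fs) F ∧ v ≠ w) ∨
      ∃ f ∈ Fs, f ≠ ({o1, o2, w} : Finset V) ∧ v ∈ J f} := ⟨_, rfl⟩
  have hKv : ∀ v ∈ verts (blkBd w e d al be fs) F, k v ≠ 4 → v ∈ KK := by
    intro v hv hk
    rw [hKK]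
    refine Or.inl ⟨hv, ?_⟩
    rintro rfl
    exact hk K.kw
  have hKJ : ∀ f ∈ Fs, c f ≠ 5 → ∀ v ∈ J f, v ∈ KK := by
    intro f hf hcf v hv
    rw [hKK]
    refine Or.inr ⟨f, hf, ?_, hv⟩
    rintro rfl
    exact hcf K.c5
  have hunK : ∀ v ∈ KK, Undrawn Γ v := by
    intro v hv
    rw [hKK] at hv
    exact hun v hv
  have hVA : ∀ v, v ∈ b :: L₁ → v ∈ KK := fun v hv =>
    hKv v (hV v ((mbd v).2 (Or.inl hv))) (by have := K.kA v hv; omega)
  have hVB : ∀ v, v ∈ y :: L₂ → v ∈ KK := fun v hv =>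
    hKv v (hV v ((mbd v).2 (Or.inr (Or.inl hv)))) (by have := K.kB v hv; omega)
  have hVC : ∀ v, v ∈ be ∨ v ∈ al → v ∈ KK := fun v hv =>
    hKv v (hV v ((mbd v).2 (by tauto))) (by have := K.kC v hv; omega)
  have hVe : e ∈ KK := hKv e (hV e ((mbd e).2 (by tauto))) (by have := K.ke; omega)
  have hVx : x ∈ KK := hKv x hx (by have := K.kx; omega)
  -- step 1
  have hk1 : ∀ v ∈ blkQ J o2 q d fs, v ∈ KK ∧ (k v = 1 ∨ k v = 2 ∨ k v = 11) := by
    rintro v hv
    have h1 : v ∈ d :: fs ∨ ∃ f, (f = ({o2, q, d} : Finset V) ∨ f ∈ fanF q (d :: fs)) ∧ v ∈ J f := by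
      rcases hv with rfl | hv | hv
      · left; simp
      · left; exact List.mem_cons_of_mem _ hv
      · exact Or.inr hv
    rcases h1 with h1 | ⟨f, hf, hvf⟩
    · rcases mfs v h1 with h2 | h2
      · exact ⟨hVA v h2, Or.inl (K.kA v h2)⟩
      · exact ⟨hVB v h2, Or.inr (Or.inl (K.kB v h2))⟩
    · obtain ⟨h2, h3⟩ := K.c1 f hf
      have h4 := K.kJ f h2 v hvf
      exact ⟨hKJ f h2 (by omega) v hvf, by omega⟩
  obtain ⟨Γ₁, U₁, Xd, bb, h', A, B, u, yd, L, l2', hQ, ho2', hrvL, -, huX, st1, fil1, ov1, ov1q,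
    ch1, htch, hzone, hsolo⟩ := blk_q hc hB0 true hw hD h ho1 ho2
      (fun v hv => hunK v (hk1 v hv).1)
  obtain ⟨La, Lr₂, hLa, ha, hy, hyL⟩ := MachC_split (L := L) (b0 := d) (L₁v := b :: L₁) (y := y)
    (L₂v := L₂) (by rw [hrvL, hl]; rfl)
  obtain ⟨r₁, Lr₁, rfl⟩ : ∃ r₁ Lr₁, La = r₁ :: Lr₁ := by
    cases La with
    | nil => exact absurd ha (by simp [rv])
    | cons r₁ Lr₁ => exact ⟨r₁, Lr₁, rfl⟩
  have hb1 : r₁.v = b := (List.cons.inj ha).1
  have hL1 : rv Lr₁ = L₁ := (List.cons.inj ha).2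
  subst hb1
  subst hL1
  subst hy
  subst hLa
  have hrvd : rv (r₁ :: (Lr₁ ++ Lr₂)) ++ [d] = fs.reverse ++ [d] := by
    rw [← hrvL]; rfl
  -- step 2
  have f2a : ({q, e, r₁.v} : Finset V) ∈ Fs := (K.c2 _ (Or.inl rfl)).1
  have f2b : ({o1, q, e} : Finset V) ∈ Fs := (K.c2 _ (Or.inr rfl)).1
  have mrv : ∀ v, v ∈ rv (r₁ :: (Lr₁ ++ Lr₂)) ++ [d] → (k v = 1 ∨ k v = 2) ∧ v ∈ KK ∧
      v ∈ verts (blkBd w e d al be fs) F := by
    intro v hv
    rw [hrvd, hl, ← List.cons_append, List.mem_append] at hv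
    rcases hv with hv | hv
    · exact ⟨Or.inl (K.kA v hv), hVA v hv, hV v ((mbd v).2 (Or.inl hv))⟩
    · exact ⟨Or.inr (K.kB v hv), hVB v hv, hV v ((mbd v).2 (Or.inr (Or.inl hv)))⟩
  have hVe' : e ∈ verts (blkBd w e d al be fs) F := hV e ((mbd e).2 (by tauto))
  have hVw' : w ∈ verts (blkBd w e d al be fs) F := hV w ((mbd w).2 (by tauto))
  have hnd2 : (l1.ow :: q :: e :: x :: w :: (rv (r₁ :: (Lr₁ ++ Lr₂)) ++ [d])).Nodup := by
    have ke := K.ke
    have kx := K.kx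
    have kw := K.kw
    rw [ho1]
    simp only [List.nodup_cons, List.mem_cons, not_or]
    refine ⟨⟨n2, ho1v e hVe', ho1v x hx, ho1v w hVw', fun h5 => ho1v _ (mrv _ h5).2.2 rfl⟩,
      ⟨hqv e hVe', hqv x hx, hqv w hVw', fun h5 => hqv _ (mrv _ h5).2.2 rfl⟩,
      ⟨?_, ?_, ?_⟩, ⟨?_, ?_⟩, ?_, ?_⟩
    · rintro rfl
      omega
    · rintro rfl
      omega
    · intro h5
      have := (mrv _ h5).1
      omega
    · rintro rfl
      omega
    · intro h5
      have := (mrv _ h5).1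
      omega
    · intro h5
      have := (mrv _ h5).1
      omega
    · rw [hrvd]
      unfold blkBd at hnb
      exact (((hnb.of_append_left).of_append_left).of_append_left).of_append_left
  have he1 : Undrawn Γ₁ e := Undrawn.grow st1.grow (hunK e hVe) (fun h5 => by
    have := (hk1 e h5).2
    have := K.ke
    omega)
  have hx1 : Undrawn Γ₁ x := Undrawn.grow st1.grow (hunK x hVx) (fun h5 => by
    have := (hk1 x h5).2
    have := K.kx
    omega)
  have hJ2 : ∀ v, v ∈ J {q, e, r₁.v} ∨ v ∈ J {o1, q, e} → Undrawn Γ₁ v ∧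
      v ∉ l1.ow :: q :: e :: x :: w :: (rv (r₁ :: (Lr₁ ++ Lr₂)) ++ [d]) := by
    intro v hv
    obtain ⟨f, hf, hvf⟩ : ∃ f, (f = {q, e, r₁.v} ∨ f = {o1, q, e}) ∧ v ∈ J f := by
      rcases hv with hv | hv
      · exact ⟨_, Or.inl rfl, hv⟩
      · exact ⟨_, Or.inr rfl, hv⟩
    obtain ⟨h2, h3⟩ := K.c2 f hf
    have h4 := K.kJ f h2 v hvf
    obtain ⟨i1, i2, i3, i4⟩ := BlkJa_cont hc hB0 h2 hvf
    refine ⟨Undrawn.grow st1.grow (hunK v (hKJ f h2 (by omega) v hvf)) (fun h5 => by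
      have := (hk1 v h5).2
      omega), ?_⟩
    rw [ho1]
    simp only [List.mem_cons, not_or]
    refine ⟨i2, i4, ?_, ?_, ?_, fun h5 => i1 (mrv _ h5).2.2⟩
    · rintro rfl
      exact i1 hVe'
    · rintro rfl
      exact i1 hx
    · rintro rfl
      exact i1 hVw'
  have hJJ : Disjoint (J {q, e, r₁.v}) (J {o1, q, e}) := by
    refine hc.disj _ f2a _ f2b fun h5 => ?_
    have h6 : o1 ∈ ({q, e, r₁.v} : Finset V) := by rw [h5]; simp
    simp only [Finset.mem_insert, Finset.mem_singleton] at h6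
    rcases h6 with h6 | h6 | h6
    · exact n2 h6
    · exact ho1v e hVe' h6
    · exact ho1v _ (mrv r₁.v (by simp [rv])).2.2 h6
  have heb' : e ≠ r₁.v := by
    intro h5
    have h6 := (mrv r₁.v (by simp [rv])).1
    rw [← h5] at h6
    have := K.ke
    omega
  obtain ⟨Γ₂, U₂, l1', rx, Xe, ye, Xx, xh, xI, Bp, A', B', hh, ho1', hrxv, hrxp, hrxt, st2, fil2a,
    fil2b, ove1, oveq, oveb, ovxe, ovxy, hxx, hxA, hsol, hadm, hmst, hmain⟩ :=
    blk_trick (r₁ := r₁) (L₁ := Lr₁) (L₂ := Lr₂) (Ja := J {q, e, r₁.v}) (Jb := J {o1, q, e})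
      st1.wd (hD.mono st1.sub) hQ (huX rfl) (hsolo r₁ _ rfl)
      (fun p h5 h6 => (h.qcol p h5 h6).1)
      (blk_pt h st1 hQ (fun v hv => by
        have h5 : v ∈ rv (r₁ :: (Lr₁ ++ Lr₂)) := by
          have h6 : v ∈ fs.reverse := List.mem_reverse.2 hv
          rw [← hrvL] at h6
          exact h6
        exact h5) fil1) hnd2 he1 hx1
      (by
        rw [ho1]
        exact hc.adj _ f2b e (by simp) o1 (by simp) (ho1v e hVe').symm)
      (hc.adj _ f2b e (by simp) q (by simp) (hqv e hVe').symm)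
      (hc.adj _ f2a e (by simp) r₁.v (by simp) heb')
      (by
        obtain ⟨h5, f, hf, h6, h7⟩ := hex
        exact hc.adj f (hB0.reg.sub hf) x h7 e h6 h5.symm)
      (by
        obtain ⟨h5, f, hf, h6, h7⟩ := hxy
        exact hc.adj f (hB0.reg.sub hf) x h6 _ h7 h5)
      hJ2 hJJ (hc.fill _ f2a) (by rw [ho1]; exact hc.fill _ f2b) al be
  have mLr₂ : ∀ v, v ∈ rv Lr₂ ∨ v = d → v ∈ topv Lr₂ d :: L₂ := by
    intro v hv
    rw [hyL, List.mem_append, List.mem_singleton]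
    exact hv
  have hk2 : ∀ v, v ∈ {v | v = e ∨ v = x ∨ v ∈ J {q, e, r₁.v} ∨ v ∈ J {o1, q, e} ∨ v = r₁.v ∨
      v ∈ rv Lr₂} → v ∈ KK ∧ (k v = 5 ∨ k v = 6 ∨ k v = 1 ∨ k v = 2 ∨ k v = 12) := by
    rintro v (rfl | rfl | hv | hv | rfl | hv)
    · exact ⟨hVe, Or.inl K.ke⟩
    · exact ⟨hVx, Or.inr (Or.inl K.kx)⟩
    · obtain ⟨h2, h3⟩ := K.c2 _ (Or.inl rfl)
      have h4 := K.kJ _ h2 v hv
      exact ⟨hKJ _ h2 (by omega) v hv, by omega⟩
    · obtain ⟨h2, h3⟩ := K.c2 _ (Or.inr rfl)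
      have h4 := K.kJ _ h2 v hv
      exact ⟨hKJ _ h2 (by omega) v hv, by omega⟩
    · exact ⟨hVA _ (by simp), Or.inr (Or.inr (Or.inl (K.kA _ (by simp))))⟩
    · have h5 := mLr₂ v (Or.inl hv)
      exact ⟨hVB v h5, Or.inr (Or.inr (Or.inr (Or.inl (K.kB v h5))))⟩
  -- step 3
  have hl₂ : ∀ v, v ∈ lN [] x (r₁ :: Lr₁) (topv Lr₂ d) [] ++ [e] ↔
      v ∈ [x] ++ (r₁.v :: rv Lr₁ ++ [topv Lr₂ d]).reverse ++ [e] := by
    intro v
    simp only [lN, rv, List.map_cons, List.map_nil, List.mem_append, List.mem_cons,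
      List.mem_reverse, List.not_mem_nil, or_false, false_or]
    tauto
  have hown : Own J (lN [] x (r₁ :: Lr₁) (topv Lr₂ d) [] ++ [e]) F₂ =
      Own J ([x] ++ (r₁.v :: rv Lr₁ ++ [topv Lr₂ d]).reverse ++ [e]) F₂ := Own.congr hl₂
  have hko : ∀ v ∈ Own J (lN [] x (r₁ :: Lr₁) (topv Lr₂ d) [] ++ [e]) F₂,
      v ∈ KK ∧ (k v = 8 ∨ k v = 13) := by
    intro v hv
    rw [hown] at hv
    rcases hv with ⟨hv, hv'⟩ | ⟨f, hf, hvf⟩
    · have h5 := K.k8 v hv hv'
      exact ⟨hKv v (K.V2 v hv) (by omega), Or.inl h5⟩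
    · obtain ⟨h2, h3⟩ := K.c3 f hf
      have h4 := K.kJ f h2 v hvf
      exact ⟨hKJ f h2 (by omega) v hvf, by omega⟩
  have hund12 : ∀ v ∈ KK, (k v ≠ 1 ∧ k v ≠ 2 ∧ k v ≠ 5 ∧ k v ≠ 6 ∧ k v ≠ 11 ∧ k v ≠ 12) →
      Undrawn Γ₂ v := by
    intro v hv hkv
    refine Undrawn.grow st2.grow (Undrawn.grow st1.grow (hunK v hv) fun h5 => ?_) fun h5 => ?_
    · have := (hk1 v h5).2
      omega
    · have := (hk2 v h5).2
      omega
  have hchR : List.IsChain (Rz (ExT T) Γ₂) (rv (r₁ :: (Lr₁ ++ Lr₂)) ++ [d]) :=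
    ch1.imp fun _ _ h5 => Or.inr (Ov.mono st2.grow h5)
  have hsplit : rv (r₁ :: (Lr₁ ++ Lr₂)) ++ [d] =
      (rv (r₁ :: Lr₁) ++ [topv Lr₂ d]) ++ L₂ := by
    rw [List.append_assoc, List.singleton_append, hyL]
    simp [rv]
  have hM : MG2 G PI T Fs J (ExT T) Γ₂ U₂
      (D ⊓ (nl U₂ ⊔ (band ye (topc Lr₂ yd) ⊓ reg Xx (topc Lr₂ yd)))) e ye Bp xI Bp [] x Xx Xx
      (r₁ :: Lr₁) (topv Lr₂ d) (topc Lr₂ yd) (topc Lr₂ yd) [] F₂ := by
    refine ⟨hadm, st2.wd, hmst, hr₂, ⟨?_, fun h5 => absurd rfl h5, ?_, fun _ _ C hC => hC, ?_,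
      List.isChain_singleton _, ?_, fun _ => Or.inr ovxy, fun h5 => absurd rfl h5⟩,
      Or.inr ovxe.symm, Or.inr oveb⟩
    · intro v hv
      exact absurd hv (by simp [rv])
    · intro v hv
      obtain ⟨h5, h6⟩ := hko v hv
      exact hund12 v h5 (by omega)
    · intro r hr
      exact hQ.pl r (by
        rw [List.cons_append, List.mem_cons, List.mem_append]
        rcases List.mem_cons.1 hr with h5 | h5
        · exact Or.inl h5
        · exact Or.inr (Or.inl h5))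
    · rw [hsplit] at hchR
      exact (List.isChain_append.1 hchR).1
  obtain ⟨Γ₃, U₃, st3, pa3, fil3, pr3⟩ := closedM2 hc hE hM
  have hk3 : ∀ v ∈ KSet J (lN [] x (r₁ :: Lr₁) (topv Lr₂ d) [] ++ [e]) F₂ [] (r₁ :: Lr₁),
      v ∈ KK ∧ (k v = 8 ∨ k v = 1 ∨ k v = 13) := by
    rintro v (hv | hv | hv)
    · obtain ⟨h5, h6⟩ := hko v hv
      exact ⟨h5, by omega⟩
    · exact absurd hv (by simp [rv])
    · exact ⟨hVA v hv, Or.inr (Or.inl (K.kA v hv))⟩
  obtain ⟨hG, hsol3, hline⟩ := hmain Γ₃ U₃ _ st3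
    (fun v hv h5 => by
      have h6 := (hk3 v h5).2
      have h7 := K.kB v (mLr₂ v (Or.inl hv))
      omega)
    (fun h5 => by
      have h6 := (hk3 _ h5).2
      have h7 := K.kx
      omega)
    (fun h5 => by
      have h6 := (hk3 _ h5).2
      have h7 := K.ke
      omega)
    (fun h5 => by
      have h6 := (hk3 _ h5).2
      have h7 := K.kB d (mLr₂ d (Or.inr rfl))
      omega)
  -- the stage
  have hbdeq : rv (rx :: Lr₂) ++ [d] = x :: topv Lr₂ d :: L₂ := by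
    show rx.v :: (rv Lr₂ ++ [d]) = _
    rw [hrxv, ← hyL]
  obtain ⟨s, hsd⟩ : ∃ s : SD V, s = ⟨e, d, w, Xe, hh, A', B', yd, Xd, Xw, Top, 0, 0, false,
    rx :: Lr₂, al, be, l1', l2'⟩ := ⟨_, rfl⟩
  rw [← hsd] at hG
  have sz : s.z = e := by rw [hsd]
  have sd : s.d = d := by rw [hsd]
  have sw : s.w = w := by rw [hsd]
  have sA : s.A = A' := by rw [hsd]
  have sXd : s.Xd = Xd := by rw [hsd]
  have sY : s.Y0 = yd := by rw [hsd]
  have sL : s.L = rx :: Lr₂ := by rw [hsd]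
  have sal : s.al = al := by rw [hsd]
  have sbe : s.be = be := by rw [hsd]
  have so1 : s.l1.ow = o1 := by rw [hsd]; exact ho1'.trans ho1
  have so2 : s.l2.ow = o2 := by rw [hsd]; exact ho2'
  have hbds : s.bd = x :: topv Lr₂ d :: L₂ ++ be ++ [w] ++ al.reverse ++ [e] := by
    rw [SD.bd, sL, sd, sbe, sw, sal, sz, hbdeq]
  have hfc : s.fc F₁ = F₁ ∪ (fanF o1 (e :: al ++ [w]) ∪ fanF o2 (d :: be ++ [w])) := by
    rw [SD.fc, so1, so2, sz, sal, sw, sd, sbe]
  have hund3 : ∀ v ∈ KK, (k v = 3 ∨ k v = 7 ∨ k v = 14) → Undrawn Γ₃ v := by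
    intro v hv hkv
    refine Undrawn.grow st3.grow (hund12 v hv (by omega)) fun h5 => ?_
    have := (hk3 v h5).2
    omega
  have hkJ4 : ∀ f ∈ F₁ ∪ (fanF o1 (e :: al ++ [w]) ∪ fanF o2 (d :: be ++ [w])), ∀ v ∈ J f,
      v ∈ KK ∧ k v = 14 := by
    intro f hf v hv
    obtain ⟨h2, h3⟩ := K.c4 f hf
    have h4 := K.kJ f h2 v hv
    exact ⟨hKJ f h2 (by omega) v hv, by omega⟩
  have hF1 : F₁ ⊆ F := by rw [hF]; exact Finset.subset_union_left
  have htail : (rv s.L ++ [s.d]).tail = topv Lr₂ d :: L₂ := by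
    rw [sL, sd, hbdeq]
    rfl
  have hout1 : o1 ∉ verts (x :: topv Lr₂ d :: L₂ ++ be ++ [w] ++ al.reverse ++ [e]) F₁ :=
    fun h5 => ho1v _ (K.V1 _ h5) rfl
  have hout2 : o2 ∉ verts (x :: topv Lr₂ d :: L₂ ++ be ++ [w] ++ al.reverse ++ [e]) F₁ :=
    fun h5 => ho2v _ (K.V1 _ h5) rfl
  have hvl : ∀ {l : List V} {F' : Finset (Finset V)} {v : V}, v ∈ l → v ∈ verts l F' :=
    fun h5 => Finset.mem_union_left _ (List.mem_toFinset.2 h5)
  have hfan1 : ∀ f ∈ fanF o1 (e :: al ++ [w]), f ∈ Fs := fun f hf =>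
    (K.c4 f (Finset.mem_union_right _ (Finset.mem_union_left _ hf))).1
  have hfan2 : ∀ f ∈ fanF o2 (d :: be ++ [w]), f ∈ Fs := fun f hf =>
    (K.c4 f (Finset.mem_union_right _ (Finset.mem_union_right _ hf))).1
  have hchd : List.IsChain (Rz (ExT T) Γ₃) (topv Lr₂ d :: L₂) := by
    have h5 : rv (r₁ :: (Lr₁ ++ Lr₂)) ++ [d] = rv (r₁ :: Lr₁) ++ (topv Lr₂ d :: L₂) := by
      rw [hyL]
      simp [rv]
    rw [h5] at hchR
    exact Rz.chain_mono st3.grow (List.isChain_append.1 hchR).2.1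
  have hS : SC G T Fs J (ExT T) Γ₃ s F₁ := by
    refine ⟨?_, ?_, ?_, ?_, ?_, ?_, ?_, ?_, ?_, ?_, ?_, ?_, ?_, ?_, ?_, ?_, ?_, ?_, ?_⟩
    · rw [hbds]
      exact hr₁
    · rw [sL, sd, hbdeq]
      exact hch
    · rw [sz, sal, sw]
      exact hB0.chA.mono hF1
    · rw [sd, sbe, sw]
      exact hB0.chD.mono hF1
    · rw [htail, sz]
      intro v hv h5
      have h6 := hB0.chQ
      rw [List.cons_append, hl] at h6
      obtain ⟨qq, ss, hqs⟩ := List.append_of_mem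
        (show v ∈ rv Lr₁ ++ topv Lr₂ d :: L₂ from List.mem_append_right _ hv)
      exact h6 [] e r₁.v qq v ss (by rw [hqs]; rfl) (CombA_adj_mono hF1 h5)
    · rw [htail, sz, hbds]
      exact hz2
    · intro _ v hv h5
      rw [sbe] at hv
      rw [sz] at h5
      exact hB.zb v hv (CombA_adj_mono hF1 h5)
    · rw [so1, sz, sal, sw]
      exact BlkJa_chain hfan1
    · rw [so2, sd, sbe, sw]
      exact BlkJa_chain hfan2
    · rw [so1, sz, sal, sw, Finset.disjoint_left]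
      intro f hf hf'
      exact hout1 (Finset.mem_union_right _ (Finset.mem_biUnion.2 ⟨f, hf, (BlkJa_fan hf').1⟩))
    · rw [so2, sd, sbe, sw, Finset.disjoint_left]
      intro f hf hf'
      exact hout2 (Finset.mem_union_right _ (Finset.mem_biUnion.2 ⟨f, hf, (BlkJa_fan hf').1⟩))
    · rw [so1, so2, sz, sal, sd, sbe, sw, Finset.disjoint_left]
      intro f hf hf'
      have h5 := (BlkJa_fan hf).1
      have h6 := (BlkJa_fan hf').2 o1 h5 n1
      refine n3 ((mbd o1).2 ?_)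
      simp only [List.mem_append, List.mem_cons, List.not_mem_nil, or_false] at h6
      rcases h6 with (h6 | h6) | h6
      · have h7 : o1 ∈ topv Lr₂ d :: L₂ := by
          rw [h6]
          exact mLr₂ d (Or.inr rfl)
        exact Or.inr (Or.inl h7)
      · exact Or.inr (Or.inr (Or.inl h6))
      · exact Or.inr (Or.inr (Or.inr (Or.inl h6)))
    · rw [so1, so2, hbds, List.nodup_cons, List.nodup_cons, List.mem_cons, not_or]
      exact ⟨⟨n1, fun h5 => hout1 (hvl h5)⟩, fun h5 => hout2 (hvl h5), hr₁.disc.nodup⟩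
    · rw [so1, hbds]
      exact hout1
    · rw [so2, hbds]
      exact hout2
    · intro v hv
      rw [hbds, sal, sbe, hfc] at hv
      rcases hv with ⟨h5, h6⟩ | hv | hv | ⟨f, hf, hv⟩
      · have h7 := K.k7 v h5 h6
        exact hund3 v (hKv v (K.V1 v h5) (by omega)) (by omega)
      · exact hund3 v (hVC v (Or.inr hv)) (Or.inl (K.kC v (Or.inr hv)))
      · exact hund3 v (hVC v (Or.inl hv)) (Or.inl (K.kC v (Or.inl hv)))
      · obtain ⟨h5, h6⟩ := hkJ4 f hf v hv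
        exact hund3 v h5 (by omega)
    · rw [sL, sd, hbdeq, List.isChain_cons_cons]
      exact ⟨Or.inr (Ov.mono st3.grow ovxy), hchd⟩
    · rw [sL, sd, sz]
      show Rz (ExT T) Γ₃ e rx.v
      rw [hrxv]
      exact Or.inr (Ov.mono st3.grow ovxe.symm)
    · intro _ _
      have hbb := hG.bbase
      rw [sd, sA, sXd, sY] at hbb
      rw [sL, sY, sd, sA]
      refine ⟨⟨by rw [hrxt], BlkJ_tch (L := r₁ :: Lr₁) htch⟩, ?_⟩
      cases hLr : Lr₂ with
      | nil =>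
        rw [hLr] at hsol3
        refine ⟨Xx, xh, hxx, hxA, ?_⟩
        show Solo Γ₃ {rx.v, d} false yd Xx xh
        rw [hrxv]
        exact hsol3
      | cons r t =>
        obtain ⟨l₀, l₁, h5, h6, h7⟩ := hzone (by simp)
        have hline' := hline (by rw [hLr]; simp)
        have h8 : lastv (r₁ :: Lr₁ ++ Lr₂) d = lastv t r.v := by
          rw [hLr]
          exact BlkJ_last d r t _
        rw [h8] at h7
        have h9 : Solo Γ₃ {lastv t r.v, d} false yd l₀ l₁ := by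
          intro p hp1 hp2 v
          rw [hline' v p]
          exact h7 p hp1 hp2 v
        have hne : lastv t r.v ≠ d := by
          intro h10
          have h11 := BlkJ_lastmem t r.v
          rw [h10] at h11
          have h12 : (rv (r₁ :: (Lr₁ ++ Lr₂)) ++ [d]).Nodup := by
            rw [hrvd]
            unfold blkBd at hnb
            exact (((hnb.of_append_left).of_append_left).of_append_left).of_append_left
          have h13 : d ∈ rv (r₁ :: (Lr₁ ++ Lr₂)) := by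
            rw [hLr]
            simp only [rv, List.map_cons, List.map_append, List.mem_cons, List.mem_append] at h11 ⊢
            exact Or.inr (Or.inr h11)
          exact (List.nodup_append'.1 h12).2.2 h13 (List.mem_singleton.2 rfl)
        refine ⟨l₀, l₁, h5, ?_, h9⟩
        by_contra h10
        rw [not_le] at h10
        have hAX : A < Xd := lt_of_lt_of_le hQ.m.n.ordW hQ.ud
        obtain ⟨p, hp1, hp2⟩ := exists_between (max_lt h5 h10)
        have h11 := (h9 p (lt_of_le_of_lt (le_max_left _ _) hp1) hp2 (lastv t r.v)).2 (by simp)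
        have h12 := ((hbb p (lt_of_le_of_lt (le_max_right _ _) hp1)
          (hp2.trans_le (h6.trans hAX.le))).2 (lastv t r.v)).1 h11
        exact hne h12
  obtain ⟨Γ', U', st4, pa4, fil4, pr4⟩ := stage hc hE st3.wd
    (((hD.mono st1.sub).mono st2.sub).mono st3.sub) hG hS
  have hk4 : ∀ v ∈ s.K J F₁, v ∈ KK ∧
      (k v = 7 ∨ k v = 6 ∨ k v = 2 ∨ k v = 5 ∨ k v = 3 ∨ k v = 14) := by
    intro v hv
    unfold SD.K at hv
    rw [hbds, sL, sz, sd, sal, sbe, hfc] at hv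
    rcases hv with ⟨h5, h6⟩ | hv | rfl | rfl | hv | hv | ⟨f, hf, hv⟩
    · have h7 := K.k7 v h5 h6
      exact ⟨hKv v (K.V1 v h5) (by omega), Or.inl h7⟩
    · have h5 : v = x ∨ v ∈ rv Lr₂ := by
        have h6 : v ∈ rx.v :: rv Lr₂ := hv
        rw [hrxv, List.mem_cons] at h6
        exact h6
      rcases h5 with rfl | h5
      · exact ⟨hVx, Or.inr (Or.inl K.kx)⟩
      · have h6 := mLr₂ v (Or.inl h5)
        exact ⟨hVB v h6, Or.inr (Or.inr (Or.inl (K.kB v h6)))⟩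
    · exact ⟨hVe, by have := K.ke; omega⟩
    · have h6 := mLr₂ v (Or.inr rfl)
      exact ⟨hVB v h6, Or.inr (Or.inr (Or.inl (K.kB v h6)))⟩
    · exact ⟨hVC v (Or.inr hv), by have := K.kC v (Or.inr hv); omega⟩
    · exact ⟨hVC v (Or.inl hv), by have := K.kC v (Or.inl hv); omega⟩
    · obtain ⟨h5, h6⟩ := hkJ4 f hf v hv
      exact ⟨h5, by omega⟩
  have hin4 : ∀ v, (v ∈ verts (x :: topv Lr₂ d :: L₂ ++ be ++ [w] ++ al.reverse ++ [e]) F₁ ∧
      v ∉ x :: topv Lr₂ d :: L₂ ++ be ++ [w] ++ al.reverse ++ [e]) ∨ v = x ∨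
      v ∈ topv Lr₂ d :: L₂ ∨ v = e ∨ v ∈ be ∨ v ∈ al → v ∈ s.K J F₁ := by
    intro v hv
    unfold SD.K
    rw [hbds, sL, sz, sd, sal, sbe, hfc]
    rcases hv with hv | rfl | hv | hv | hv | hv
    · exact Or.inl hv
    · refine Or.inr (Or.inl ?_)
      show v ∈ rx.v :: rv Lr₂
      rw [hrxv]
      simp
    · rw [hyL, List.mem_append, List.mem_singleton] at hv
      rcases hv with hv | hv
      · refine Or.inr (Or.inl ?_)
        show v ∈ rx.v :: rv Lr₂
        exact List.mem_cons_of_mem _ hv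
      · exact Or.inr (Or.inr (Or.inr (Or.inl hv)))
    · exact Or.inr (Or.inr (Or.inl hv))
    · exact Or.inr (Or.inr (Or.inr (Or.inr (Or.inr (Or.inl hv)))))
    · exact Or.inr (Or.inr (Or.inr (Or.inr (Or.inl hv))))
  have keep : ∀ f ∈ Fs, ∀ {Γa Γb : Dr V} {Db : Cov} {S : Set V}, Grow Γa Γb Db S →
      (∀ v ∈ S, k v ≠ 10 + c f) → Filled G Γa (J f) → Filled G Γb (J f) :=
    fun f hf {_ _ _ _} hg hS' hfil => Filled.mono hg hfil
      (fun v hv h5 => hS' v h5 (K.kJ f hf v hv))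
  have hov3 : ∀ p r, Rz (ExT T) Γ₃ p r → Rz (ExT T) Γ' p r := fun p r h5 => Rz.mono st4.grow h5
  have hov2 : ∀ p r, Ov Γ₂ p r → Rz (ExT T) Γ' p r :=
    fun p r h5 => hov3 p r (Or.inr (Ov.mono st3.grow h5))
  have hov1 : ∀ p r, Ov Γ₁ p r → Rz (ExT T) Γ' p r :=
    fun p r h5 => hov2 p r (Ov.mono st2.grow h5)
  refine ⟨Γ', U', ?_, ?_, ?_, ?_⟩
  · rw [← hKK]
    exact (((st1.weaken le_rfl fun v hv => (hk1 v hv).1).trans
      (st2.weaken le_rfl fun v hv => (hk2 v hv).1)).trans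
      (st3.weaken inf_le_left fun v hv => (hk3 v hv).1)).trans
      (st4.weaken le_rfl fun v hv => (hk4 v hv).1)
  · intro v hv hvw
    by_cases h4 : v ∈ s.K J F₁
    · exact pa4 v h4
    · have h5 : v ∈ KSet J (lN [] x (r₁ :: Lr₁) (topv Lr₂ d) [] ++ [e]) F₂ [] (r₁ :: Lr₁) := by
        rcases K.kV v hv with h6 | h6 | h6 | h6 | h6 | h6 | h6 | h6
        · exact Or.inr (Or.inr h6)
        · exact absurd (hin4 v (Or.inr (Or.inr (Or.inl h6)))) h4
        · exact absurd (hin4 v (Or.inr (Or.inr (Or.inr (Or.inr h6))))) h4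
        · exact absurd h6 hvw
        · exact absurd (hin4 v (Or.inr (Or.inr (Or.inr (Or.inl h6))))) h4
        · exact absurd (hin4 v (Or.inr (Or.inl h6))) h4
        · exact absurd (hin4 v (Or.inl h6)) h4
        · refine Or.inl ?_
          rw [hown]
          exact Or.inl h6
      rw [st4.grow.eq h4]
      exact pa3 v h5
  · intro f hf hfw
    rcases K.call f hf with h5 | h5 | h5 | h5 | h5
    · exact absurd h5 hfw
    · have h6 := (K.c1 f h5).2
      refine keep f hf st4.grow (fun v hv => ?_) (keep f hf st3.grow (fun v hv => ?_)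
        (keep f hf st2.grow (fun v hv => ?_) (fil1 f h5)))
      · have := (hk4 v hv).2
        omega
      · have := (hk3 v hv).2
        omega
      · have := (hk2 v hv).2
        omega
    · have h6 := (K.c2 f h5).2
      have h7 : Filled G Γ₂ (J f) := by
        rcases h5 with rfl | rfl
        · exact fil2a
        · exact fil2b
      refine keep f hf st4.grow (fun v hv => ?_) (keep f hf st3.grow (fun v hv => ?_) h7)
      · have := (hk4 v hv).2
        omega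
      · have := (hk3 v hv).2
        omega
    · have h6 := (K.c3 f h5).2
      refine keep f hf st4.grow (fun v hv => ?_) (fil3 f h5)
      have := (hk4 v hv).2
      omega
    · exact fil4 f (by rw [hfc]; exact h5)
  · intro f hf hfw
    have hTo1 : o1 ∈ T := by rw [hB0.hT]; simp
    have hTo2 : o2 ∈ T := by rw [hB0.hT]; simp
    have hTq : q ∈ T := by rw [hB0.hT]; simp
    rcases K.call f hf with h5 | (rfl | h5) | (rfl | rfl) | h5 | h5
    · exact absurd h5 hfw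
    · exact BlkJa_tri hR (Or.inl ⟨hTo2, hTq⟩) (hov1 _ _ ov1.symm)
        (hov1 _ _ (ov1q d (by simp)).symm)
    · refine BlkJa_pairs hR (z := q) (l := d :: fs) (fun v hv => hov1 _ _ (ov1q v hv).symm) ?_ h5
      have h6 : List.IsChain (Ov Γ₁) ((d :: fs).reverse) := by
        rw [List.reverse_cons, ← hrvd]
        exact ch1
      rw [List.isChain_reverse] at h6
      exact h6.imp fun p r h7 => hov1 _ _ h7.symm
    · exact BlkJa_tri hR (hov2 _ _ oveq.symm) (hov1 _ _ (ov1q r₁.v (by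
        have h6 : r₁.v ∈ fs.reverse := by
          rw [← hrvL]
          simp [rv]
        exact List.mem_cons_of_mem _ (List.mem_reverse.1 h6))).symm) (hov2 _ _ oveb)
    · exact BlkJa_tri hR (Or.inl ⟨hTo1, hTq⟩) (hov2 _ _ (by
        have h6 := ove1.symm
        rw [ho1] at h6
        exact h6)) (hov2 _ _ oveq.symm)
    · exact fun p hp r hr hpr => hov3 p r (pr3 f h5 p hp r hr hpr)
    · exact pr4 f (by rw [hfc]; exact h5)

end EPG26
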