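import Pool.Agent.W_26e041_h61.GridA

/-!
Conversion of a drawing with rational coordinates into grid paths.
-/

namespace EPG26

/-- the segments of an alternating path: orientation, line, first end, second end -/
def GridB_segs {α : Type*} : Bool → List α → List (Bool × α × α × α)
  | o, a :: b :: c :: t => (o, b, a, c) :: GridB_segs (!o) (b :: c :: t)
  | _, _ => []

theorem GridB_mem_zig : ∀ (o : Bool) (l : List ℚ) (o' : Bool) (l' x : ℚ),
    x ∈ zig o l o' l' ↔ ∃ s ∈ GridB_segs o l, s.1 = o' ∧ s.2.1 = l' ∧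
      min s.2.2.1 s.2.2.2 < x ∧ x < max s.2.2.1 s.2.2.2
  | _, [], _, _, _ => by simp [zig, GridB_segs]
  | _, [_], _, _, _ => by simp [zig, GridB_segs]
  | _, [_, _], _, _, _ => by simp [zig, GridB_segs]
  | o, a :: b :: c :: t, o', l', x => by
      rw [zig, GridB_segs, Set.mem_union, GridB_mem_zig (!o) (b :: c :: t) o' l' x]
      constructor
      · rintro (h | ⟨s, hs, h⟩)
        · exact ⟨_, List.mem_cons_self, h.1.symm, h.2.1.symm, h.2.2⟩
        · exact ⟨s, List.mem_cons_of_mem _ hs, h⟩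
      · rintro ⟨s, hs, h⟩
        rcases List.mem_cons.1 hs with rfl | hs
        · exact Or.inl ⟨h.1.symm, h.2.1.symm, h.2.2⟩
        · exact Or.inr ⟨s, hs, h⟩

theorem GridB_mem_zigZ : ∀ (o : Bool) (l : List ℤ) (e : Bool × ℤ × ℤ),
    e ∈ zigZ o l ↔ ∃ s ∈ GridB_segs o l, s.1 = e.1 ∧ s.2.1 = e.2.1 ∧
      min s.2.2.1 s.2.2.2 ≤ e.2.2 ∧ e.2.2 < max s.2.2.1 s.2.2.2
  | _, [], _ => by simp [zigZ, GridB_segs]
  | _, [_], _ => by simp [zigZ, GridB_segs]
  | _, [_, _], _ => by simp [zigZ, GridB_segs]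
  | o, a :: b :: c :: t, e => by
      rw [zigZ, GridB_segs, Set.mem_union, GridB_mem_zigZ (!o) (b :: c :: t) e]
      constructor
      · rintro (h | ⟨s, hs, h⟩)
        · exact ⟨_, List.mem_cons_self, h.1.symm, h.2.1.symm, h.2.2⟩
        · exact ⟨s, List.mem_cons_of_mem _ hs, h⟩
      · rintro ⟨s, hs, h⟩
        rcases List.mem_cons.1 hs with rfl | hs
        · exact Or.inl ⟨h.1.symm, h.2.1.symm, h.2.2⟩
        · exact Or.inr ⟨s, hs, h⟩

theorem GridB_segs_map {α β : Type*} (r : α → β) : ∀ (o : Bool) (l : List α),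
    GridB_segs o (l.map r) =
      (GridB_segs o l).map (fun s => (s.1, r s.2.1, r s.2.2.1, r s.2.2.2))
  | _, [] => by simp [GridB_segs]
  | _, [_] => by simp [GridB_segs]
  | _, [_, _] => by simp [GridB_segs]
  | o, a :: b :: c :: t => by
      have h := GridB_segs_map r (!o) (b :: c :: t)
      simp only [List.map_cons] at h ⊢
      rw [GridB_segs, GridB_segs, h, List.map_cons]

theorem GridB_segs_mem {α : Type*} : ∀ (o : Bool) (l : List α) (s : Bool × α × α × α),
    s ∈ GridB_segs o l → s.2.1 ∈ l ∧ s.2.2.1 ∈ l ∧ s.2.2.2 ∈ l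
  | _, [], _ => by simp [GridB_segs]
  | _, [_], _ => by simp [GridB_segs]
  | _, [_, _], _ => by simp [GridB_segs]
  | o, a :: b :: c :: t, s => by
      intro hs
      rw [GridB_segs] at hs
      rcases List.mem_cons.1 hs with rfl | hs
      · simp
      · have h := GridB_segs_mem (!o) (b :: c :: t) s hs
        exact ⟨List.mem_cons_of_mem _ h.1, List.mem_cons_of_mem _ h.2.1,
          List.mem_cons_of_mem _ h.2.2⟩

theorem GridB_nd (r : ℚ → ℤ) (S : Finset ℚ)
    (hr : ∀ x ∈ S, ∀ y ∈ S, r x = r y → x = y) :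
    ∀ l : List ℚ, (∀ x ∈ l, x ∈ S) → ZigNd l → ZigNdZ (l.map r)
  | [], _, _ => by simp [ZigNdZ]
  | [_], _, _ => by simp [ZigNdZ]
  | [_, _], _, _ => by simp [ZigNdZ]
  | a :: b :: c :: t, hl, h => by
      have ih := GridB_nd r S hr (b :: c :: t)
        (fun x hx => hl x (List.mem_cons_of_mem _ hx)) h.2
      refine ⟨fun e => h.1 (hr a (hl a (by simp)) c (hl c (by simp)) e), ih⟩

theorem GridB_simple (r : ℚ → ℤ) (S : Finset ℚ) (hm : Monotone r)
    (hr : ∀ x ∈ S, ∀ y ∈ S, r x ≤ r y → x ≤ y) :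
    ∀ l : List ℚ, (∀ x ∈ l, x ∈ S) → ZigSimple l → ZigSimpleZ (l.map r)
  | [], _, _ => trivial
  | [_], _, _ => trivial
  | [_, _], _, _ => trivial
  | [_, _, _], _, _ => trivial
  | [_, _, _, _], _, _ => trivial
  | [_, _, _, _, _], _, _ => trivial
  | _ :: _ :: _ :: _ :: _ :: _ :: _ :: _, _, _ => trivial
  | [a0, a1, a2, a3, a4, a5], hl, h => by
      have hmin : ∀ x ∈ S, ∀ y ∈ S, min x y ∈ S := by
        intro x hx y hy
        rcases min_choice x y with e | e <;> rw [e] <;> assumption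
      have hmax : ∀ x ∈ S, ∀ y ∈ S, max x y ∈ S := by
        intro x hx y hy
        rcases max_choice x y with e | e <;> rw [e] <;> assumption
      have h0 := hl a0 (by simp)
      have h1 := hl a1 (by simp)
      have h2 := hl a2 (by simp)
      have h3 := hl a3 (by simp)
      have h4 := hl a4 (by simp)
      have h5 := hl a5 (by simp)
      rintro ⟨e1, e2, e3, e4⟩
      rw [← hm.map_min] at e1 e3
      rw [← hm.map_max] at e2 e4
      exact h ⟨hr _ (hmin _ h0 _ h2) _ h4 e1, hr _ h4 _ (hmax _ h0 _ h2) e2,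
        hr _ (hmin _ h3 _ h5) _ h1 e3, hr _ h1 _ (hmax _ h3 _ h5) e4⟩

/-- the rank function of a finite set of rationals -/
def GridB_rank (S : Finset ℚ) (x : ℚ) : ℤ := ((S.filter (fun s => s < x)).card : ℤ)

theorem GridB_rank_mono (S : Finset ℚ) : Monotone (GridB_rank S) := by
  intro x y hxy
  unfold GridB_rank
  refine Int.ofNat_le.2 (Finset.card_le_card ?_)
  intro s hs
  rw [Finset.mem_filter] at hs ⊢
  exact ⟨hs.1, hs.2.trans_le hxy⟩

theorem GridB_rank_lt (S : Finset ℚ) (x : ℚ) (hx : x ∈ S) (y : ℚ) (h : x < y) :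
    GridB_rank S x < GridB_rank S y := by
  unfold GridB_rank
  refine Int.ofNat_lt.2 (Finset.card_lt_card ?_)
  rw [Finset.ssubset_iff_of_subset]
  · exact ⟨x, Finset.mem_filter.2 ⟨hx, h⟩, fun hh => lt_irrefl _ (Finset.mem_filter.1 hh).2⟩
  · intro s hs
    rw [Finset.mem_filter] at hs ⊢
    exact ⟨hs.1, hs.2.trans h⟩

/-- overlap of the rational paths is the same as overlap of the integer paths -/
theorem GridB_overlap (S : Finset ℚ) (o₁ o₂ : Bool) (l₁ l₂ : List ℚ)
    (h₁ : ∀ x ∈ l₁, x ∈ S) (h₂ : ∀ x ∈ l₂, x ∈ S) :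
    (∃ o' l' x, x ∈ zig o₁ l₁ o' l' ∧ x ∈ zig o₂ l₂ o' l') ↔
      ∃ e, e ∈ zigZ o₁ (l₁.map (GridB_rank S)) ∧ e ∈ zigZ o₂ (l₂.map (GridB_rank S)) := by
  have hmin : ∀ x ∈ S, ∀ y ∈ S, min x y ∈ S := by
    intro x hx y hy
    rcases min_choice x y with e | e <;> rw [e] <;> assumption
  have hmax : ∀ x ∈ S, ∀ y ∈ S, max x y ∈ S := by
    intro x hx y hy
    rcases max_choice x y with e | e <;> rw [e] <;> assumption
  have hm := GridB_rank_mono S
  constructor
  · rintro ⟨o', l', x, hx₁, hx₂⟩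
    rw [GridB_mem_zig] at hx₁ hx₂
    obtain ⟨s₁, hs₁, e₁, f₁, g₁, k₁⟩ := hx₁
    obtain ⟨s₂, hs₂, e₂, f₂, g₂, k₂⟩ := hx₂
    have m₁ := GridB_segs_mem _ _ _ hs₁
    have m₂ := GridB_segs_mem _ _ _ hs₂
    set p := max (min s₁.2.2.1 s₁.2.2.2) (min s₂.2.2.1 s₂.2.2.2) with hp
    have hpS : p ∈ S := hmax _ (hmin _ (h₁ _ m₁.2.1) _ (h₁ _ m₁.2.2)) _
      (hmin _ (h₂ _ m₂.2.1) _ (h₂ _ m₂.2.2))
    have hpx : p < x := max_lt g₁ g₂
    refine ⟨(o', GridB_rank S l', GridB_rank S p), ?_, ?_⟩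
    · rw [GridB_mem_zigZ]
      refine ⟨(s₁.1, GridB_rank S s₁.2.1, GridB_rank S s₁.2.2.1, GridB_rank S s₁.2.2.2), ?_,
        e₁, by rw [f₁], ?_, ?_⟩
      · rw [GridB_segs_map]
        exact List.mem_map.2 ⟨s₁, hs₁, rfl⟩
      · dsimp only
        rw [← hm.map_min]
        exact hm (le_max_left _ _)
      · dsimp only
        rw [← hm.map_max]
        exact GridB_rank_lt S p hpS _ (hpx.trans k₁)
    · rw [GridB_mem_zigZ]
      refine ⟨(s₂.1, GridB_rank S s₂.2.1, GridB_rank S s₂.2.2.1, GridB_rank S s₂.2.2.2), ?_,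
        e₂, by rw [f₂], ?_, ?_⟩
      · rw [GridB_segs_map]
        exact List.mem_map.2 ⟨s₂, hs₂, rfl⟩
      · dsimp only
        rw [← hm.map_min]
        exact hm (le_max_right _ _)
      · dsimp only
        rw [← hm.map_max]
        exact GridB_rank_lt S p hpS _ (hpx.trans k₂)
  · rintro ⟨e, he₁, he₂⟩
    rw [GridB_mem_zigZ, GridB_segs_map] at he₁ he₂
    obtain ⟨t₁, ht₁, e₁, f₁, g₁, k₁⟩ := he₁
    obtain ⟨t₂, ht₂, e₂, f₂, g₂, k₂⟩ := he₂
    obtain ⟨s₁, hs₁, rfl⟩ := List.mem_map.1 ht₁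
    obtain ⟨s₂, hs₂, rfl⟩ := List.mem_map.1 ht₂
    dsimp only at e₁ f₁ g₁ k₁ e₂ f₂ g₂ k₂
    have m₁ := GridB_segs_mem _ _ _ hs₁
    have m₂ := GridB_segs_mem _ _ _ hs₂
    have hl : s₁.2.1 = s₂.2.1 := by
      have hS₁ := h₁ _ m₁.1
      have hS₂ := h₂ _ m₂.1
      rcases lt_trichotomy s₁.2.1 s₂.2.1 with h | h | h
      · have := GridB_rank_lt S _ hS₁ _ h
        omega
      · exact h
      · have := GridB_rank_lt S _ hS₂ _ h
        omega
    rw [← hm.map_min] at g₁ g₂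
    rw [← hm.map_max] at k₁ k₂
    have key : max (min s₁.2.2.1 s₁.2.2.2) (min s₂.2.2.1 s₂.2.2.2) <
        min (max s₁.2.2.1 s₁.2.2.2) (max s₂.2.2.1 s₂.2.2.2) := by
      by_contra hcon
      have hc := hm (not_lt.1 hcon)
      have q1 : GridB_rank S (min (max s₁.2.2.1 s₁.2.2.2) (max s₂.2.2.1 s₂.2.2.2)) =
        min (GridB_rank S (max s₁.2.2.1 s₁.2.2.2)) (GridB_rank S (max s₂.2.2.1 s₂.2.2.2)) :=
        hm.map_min
      have q2 : GridB_rank S (max (min s₁.2.2.1 s₁.2.2.2) (min s₂.2.2.1 s₂.2.2.2)) =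
        max (GridB_rank S (min s₁.2.2.1 s₁.2.2.2)) (GridB_rank S (min s₂.2.2.1 s₂.2.2.2)) :=
        hm.map_max
      have a1 := max_le g₁ g₂
      have a2 := lt_min k₁ k₂
      rw [← q1] at a2
      rw [← q2] at a1
      exact absurd (a2.trans_le (hc.trans a1)) (lt_irrefl _)
    obtain ⟨x, hx1, hx2⟩ := exists_between key
    refine ⟨e.1, s₁.2.1, x, ?_, ?_⟩
    · rw [GridB_mem_zig]
      exact ⟨s₁, hs₁, e₁, rfl, (le_max_left _ _).trans_lt hx1, hx2.trans_le (min_le_left _ _)⟩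
    · rw [GridB_mem_zig]
      exact ⟨s₂, hs₂, e₂, hl.symm, (le_max_right _ _).trans_lt hx1,
        hx2.trans_le (min_le_right _ _)⟩

/-- Rational drawings give grid drawings. Let `S` be a finite set of rationals containing all
entries of the lists in `IsPath3 (Γ v)` (`V` finite, choose one `o, l` for every `v`) and
`r : ℚ → ℤ`, `r x =` number of elements of `S` smaller than `x`; `r` is strictly monotone on `S`. For
each `v` take the grid path of `o, l.map r` (`exists_gridPath`; `ZigNdZ`, `ZigSimpleZ` follow since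
`r` is strictly monotone on `S`, so it commutes with `min, max` and reflects `≤` there). Two paths
share a grid edge iff the rational paths overlap: if `x` is covered by both on the line `(o, l)`
then the two segments containing `x` have ends `a < b`, `a' < b'` in `S` with
`max a a' < x < min b b'`, so the grid edge `(o, r l, r (max a a'))` is common. Conversely a common
grid edge (`code_injective`) gives segments on the same line (`r` injective on `S`) with
`max a a' < min b b'`, hence a common rational point (the midpoint). -/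
theorem grid_of_drawing {V : Type*} [Fintype V] (G : SimpleGraph V) (Γ : Dr V)
    (hp : ∀ v, IsPath3 (Γ v)) (hO : ∀ u v, u ≠ v → (G.Adj u v ↔ Ov Γ u v)) : IsKBend G 3 := by
  classical
  choose o l h3 h6 hnd hs hmem using hp
  set S : Finset ℚ := Finset.univ.biUnion (fun v => (l v).toFinset) with hS
  have hlS : ∀ v, ∀ x ∈ l v, x ∈ S := by
    intro v x hx
    rw [hS, Finset.mem_biUnion]
    exact ⟨v, Finset.mem_univ v, List.mem_toFinset.2 hx⟩
  have hle : ∀ x ∈ S, ∀ y ∈ S, GridB_rank S x ≤ GridB_rank S y → x ≤ y := by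
    intro x hx y hy h
    by_contra hc
    exact absurd (GridB_rank_lt S y hy x (not_le.1 hc)) (not_lt.2 h)
  have hinj : ∀ x ∈ S, ∀ y ∈ S, GridB_rank S x = GridB_rank S y → x = y := fun x hx y hy h =>
    le_antisymm (hle x hx y hy h.le) (hle y hy x hx h.ge)
  have hex := fun v => exists_gridPath (o v) ((l v).map (GridB_rank S))
    (by rw [List.length_map]; exact h3 v) (by rw [List.length_map]; exact h6 v)
    (GridB_nd _ S hinj _ (hlS v) (hnd v))
    (GridB_simple _ S (GridB_rank_mono S) hle _ (hlS v) (hs v))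
  choose P hP hb he using hex
  refine ⟨P, hP, hb, ?_⟩
  intro u v huv
  rw [hO u v huv]
  have hov : Ov Γ u v ↔ ∃ o' l' x, x ∈ zig (o u) (l u) o' l' ∧ x ∈ zig (o v) (l v) o' l' := by
    unfold Ov
    constructor
    · rintro ⟨o', l', x, a, b⟩
      exact ⟨o', l', x, (hmem u _ _ _).1 a, (hmem v _ _ _).1 b⟩
    · rintro ⟨o', l', x, a, b⟩
      exact ⟨o', l', x, (hmem u _ _ _).2 a, (hmem v _ _ _).2 b⟩
  rw [hov, GridB_overlap S _ _ _ _ (hlS u) (hlS v)]
  constructor
  · rintro ⟨c, hc1, hc2⟩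
    exact ⟨code c, (he u _).2 ⟨c, hc1, rfl⟩, (he v _).2 ⟨c, hc2, rfl⟩⟩
  · rintro ⟨e, h1, h2⟩
    obtain ⟨c, hc, rfl⟩ := (he u _).1 h1
    obtain ⟨c', hc', h⟩ := (he v _).1 h2
    have hcc := code_injective h
    subst hcc
    exact ⟨c, hc, hc'⟩

/-- Induced subgraphs of `k`-bend graphs are `k`-bend graphs: restrict the representation. -/
theorem IsKBend.comap {V W : Type*} {G : SimpleGraph V} {H : SimpleGraph W} {k : ℕ} (φ : W → V)
    (hφ : Function.Injective φ) (hH : ∀ u v, H.Adj u v ↔ G.Adj (φ u) (φ v)) (h : IsKBend G k) :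
    IsKBend H k := by
  obtain ⟨P, hP⟩ := h
  refine ⟨fun w => P (φ w), fun w => hP.path (φ w), fun w => hP.bend (φ w), ?_⟩
  intro u v huv
  rw [hH, hP.edge (φ u) (φ v) (fun e => huv (hφ e))]

end EPG26
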