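import Pool.Agent.W_26e041_h61.PlA

namespace EPG26

open Set

/-- two edges of a drawing meet only in a common end -/
theorem PlF2_meet {V : Type*} {G : SimpleGraph V} {p : V → ℝ × ℝ} (h : Drawn G p) {u v x y : V}
    (huv : G.Adj u v) (hxy : G.Adj x y) {z : ℝ × ℝ} (h1 : z ∈ segment ℝ (p u) (p v))
    (h2 : z ∈ segment ℝ (p x) (p y)) :
    s(u, v) = s(x, y) ∨ ∃ c, (c = u ∨ c = v) ∧ (c = x ∨ c = y) ∧ z = p c := by
  by_cases hux : u = x
  · subst hux
    by_cases hvy : v = y
    · left; rw [hvy]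
    · right; exact ⟨u, Or.inl rfl, Or.inl rfl, h.inter huv hxy hvy h1 h2⟩
  by_cases huy : u = y
  · subst huy
    by_cases hvx : v = x
    · left; rw [hvx]; exact Sym2.eq_swap
    · right
      refine ⟨u, Or.inl rfl, Or.inr rfl, h.inter huv hxy.symm hvx h1 ?_⟩
      rwa [segment_symm]
  by_cases hvx : v = x
  · subst hvx
    right
    refine ⟨v, Or.inr rfl, Or.inl rfl, h.inter huv.symm hxy huy ?_ h2⟩
    rwa [segment_symm]
  by_cases hvy : v = y
  · subst hvy
    right
    refine ⟨v, Or.inr rfl, Or.inr rfl, h.inter huv.symm hxy.symm hux ?_ ?_⟩ <;> rwa [segment_symm]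
  · exact absurd h2 (Set.disjoint_left.1 (h.cross u v x y huv hxy hux huy hvx hvy) h1)

/-- the midpoint of a pair -/
noncomputable def PlF2_mid {V : Type*} (q : V → ℝ × ℝ) (e : Sym2 V) : ℝ × ℝ :=
  (1 / 2 : ℝ) • (q (Quot.out e).1 + q (Quot.out e).2)

theorem PlF2_mid_mk {V : Type*} (q : V → ℝ × ℝ) (u v : V) :
    PlF2_mid q s(u, v) = (1 / 2 : ℝ) • (q u + q v) := by
  unfold PlF2_mid
  have h : s((Quot.out s(u, v)).1, (Quot.out s(u, v)).2) = s(u, v) := Quot.out_eq _
  rcases Sym2.eq_iff.1 h with ⟨h1, h2⟩ | ⟨h1, h2⟩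
  · rw [h1, h2]
  · rw [h1, h2, add_comm]

theorem PlF2_mid_mem (a b : ℝ × ℝ) : (1 / 2 : ℝ) • (a + b) ∈ segment ℝ a b :=
  ⟨1 / 2, 1 / 2, by norm_num, by norm_num, by norm_num, by rw [smul_add]⟩

theorem PlF2_half_sub (a b : ℝ × ℝ) : segment ℝ a ((1 / 2 : ℝ) • (a + b)) ⊆ segment ℝ a b :=
  (convex_segment a b).segment_subset (left_mem_segment ℝ a b) (PlF2_mid_mem a b)

theorem PlF2_end_not_mem {a b : ℝ × ℝ} (hab : a ≠ b) : b ∉ segment ℝ a ((1 / 2 : ℝ) • (a + b)) := by
  rintro ⟨s, t, hs, ht, hst, h⟩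
  apply hab
  have h1 : (1 - t / 2) • (a - b) = 0 := by
    have hs' : s = 1 - t := by linarith
    rw [hs'] at h
    have h2 : (1 - t / 2) • (a - b) = ((1 - t) • a + t • (1 / 2 : ℝ) • (a + b)) - b := by
      module
    rw [h2, h, sub_self]
  rcases smul_eq_zero.1 h1 with h3 | h3
  · exfalso; linarith
  · exact sub_eq_zero.1 h3

theorem PlF2_mid_ne {a b : ℝ × ℝ} (hab : a ≠ b) : (1 / 2 : ℝ) • (a + b) ≠ a := by
  intro h
  apply hab
  have h1 : (1 / 2 : ℝ) • (b - a) = 0 := by
    have h2 : (1 / 2 : ℝ) • (b - a) = (1 / 2 : ℝ) • (a + b) - a := by module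
    rw [h2, h, sub_self]
  rcases smul_eq_zero.1 h1 with h3 | h3
  · norm_num at h3
  · exact (sub_eq_zero.1 h3).symm

/-- the graph with the bad edges subdivided -/
def PlF2_graph {V : Type*} (H : SimpleGraph V) (bad : V → V → Prop)
    (hsym : ∀ u v, bad u v → bad v u) :
    SimpleGraph (V ⊕ {e : Sym2 V // ∃ u v, e = s(u, v) ∧ bad u v}) where
  Adj a b := match a, b with
    | .inl u, .inl v => H.Adj u v ∧ ¬ bad u v
    | .inl u, .inr e => u ∈ e.1
    | .inr e, .inl u => u ∈ e.1
    | .inr _, .inr _ => False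
  symm := by
    constructor
    rintro (u | e) (v | e') h
    · exact ⟨h.1.symm, fun h' => h.2 (hsym _ _ h')⟩
    · exact h
    · exact h
    · exact h
  loopless := by
    constructor
    rintro (u | e) h
    · exact H.loopless.irrefl u h.1
    · exact h

/-- the drawing of the new graph -/
noncomputable def PlF2_q {V : Type*} (q : V → ℝ × ℝ) (bad : V → V → Prop) :
    V ⊕ {e : Sym2 V // ∃ u v, e = s(u, v) ∧ bad u v} → ℝ × ℝ
  | .inl u => q u
  | .inr e => PlF2_mid q e.1

section

variable {V : Type*} {H : SimpleGraph V} {q : V → ℝ × ℝ} (h : Drawn H q) (bad : V → V → Prop)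
  (hsym : ∀ u v, bad u v → bad v u) (hbad : ∀ u v, bad u v → H.Adj u v)

/-- every edge of the new graph is a part of an old edge -/
theorem PlF2_parent {a b : V ⊕ {e : Sym2 V // ∃ u v, e = s(u, v) ∧ bad u v}}
    (hbad : ∀ u v, bad u v → H.Adj u v)
    (hab : (PlF2_graph H bad hsym).Adj a b) :
    ∃ u v, H.Adj u v ∧
      segment ℝ (PlF2_q q bad a) (PlF2_q q bad b) ⊆ segment ℝ (q u) (q v) ∧
      ((a = .inl u ∧ b = .inl v ∧ ¬ bad u v) ∨
        ∃ e : {e : Sym2 V // ∃ u v, e = s(u, v) ∧ bad u v}, e.1 = s(u, v) ∧ bad u v ∧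
          ((a = .inl u ∧ b = .inr e) ∨ (a = .inr e ∧ b = .inl u))) := by
  rcases a with u | e
  · rcases b with v | e
    · exact ⟨u, v, hab.1, subset_rfl, Or.inl ⟨rfl, rfl, hab.2⟩⟩
    · have hu : u ∈ e.1 := hab
      obtain ⟨x, y, he, hxy⟩ := e.2
      obtain ⟨v, hv⟩ : ∃ v, e.1 = s(u, v) := Sym2.mem_iff_exists.1 hu
      have hb : bad u v := by
        rw [he] at hv
        rcases Sym2.eq_iff.1 hv with ⟨h1, h2⟩ | ⟨h1, h2⟩
        · rw [← h1, ← h2]; exact hxy
        · rw [← h1, ← h2]; exact hsym _ _ hxy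
      refine ⟨u, v, hbad _ _ hb, ?_, Or.inr ⟨e, hv, hb, Or.inl ⟨rfl, rfl⟩⟩⟩
      show segment ℝ (q u) (PlF2_mid q e.1) ⊆ _
      rw [hv, PlF2_mid_mk]
      exact PlF2_half_sub _ _
  · rcases b with u | e'
    · have hu : u ∈ e.1 := hab
      obtain ⟨x, y, he, hxy⟩ := e.2
      obtain ⟨v, hv⟩ : ∃ v, e.1 = s(u, v) := Sym2.mem_iff_exists.1 hu
      have hb : bad u v := by
        rw [he] at hv
        rcases Sym2.eq_iff.1 hv with ⟨h1, h2⟩ | ⟨h1, h2⟩
        · rw [← h1, ← h2]; exact hxy
        · rw [← h1, ← h2]; exact hsym _ _ hxy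
      refine ⟨u, v, hbad _ _ hb, ?_, Or.inr ⟨e, hv, hb, Or.inr ⟨rfl, rfl⟩⟩⟩
      show segment ℝ (PlF2_mid q e.1) (q u) ⊆ _
      rw [hv, PlF2_mid_mk, segment_symm]
      exact PlF2_half_sub _ _
    · exact absurd hab (fun h => h)

include h hbad in
theorem PlF2_pt (a b w : V ⊕ {e : Sym2 V // ∃ u v, e = s(u, v) ∧ bad u v})
    (hab : (PlF2_graph H bad hsym).Adj a b) (hwa : w ≠ a) (hwb : w ≠ b) :
    PlF2_q q bad w ∉ segment ℝ (PlF2_q q bad a) (PlF2_q q bad b) := by
  intro hmem
  obtain ⟨u, v, huv, hsub, hcase⟩ := PlF2_parent (q := q) bad hsym hbad hab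
  have hne : q u ≠ q v := fun h' => huv.ne (h.inj h')
  have hw := hsub hmem
  rcases w with x | e
  · -- an old vertex
    by_cases hxu : x = u
    · subst hxu
      rcases hcase with ⟨h1, _, _⟩ | ⟨e, _, _, ⟨h1, _⟩ | ⟨_, h2⟩⟩
      · exact hwa h1.symm
      · exact hwa h1.symm
      · exact hwb h2.symm
    by_cases hxv : x = v
    · subst hxv
      rcases hcase with ⟨_, h2, _⟩ | ⟨e, he, _, ⟨h1, h2⟩ | ⟨h1, h2⟩⟩
      · exact hwb h2.symm
      · rw [h1, h2] at hmem
        have hmem' : q x ∈ segment ℝ (q u) (PlF2_mid q e.1) := hmem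
        rw [he, PlF2_mid_mk] at hmem'
        exact PlF2_end_not_mem hne hmem'
      · rw [h1, h2] at hmem
        have hmem' : q x ∈ segment ℝ (PlF2_mid q e.1) (q u) := hmem
        rw [he, PlF2_mid_mk, segment_symm] at hmem'
        exact PlF2_end_not_mem hne hmem'
    exact h.pt u v x huv hxu hxv hw
  · -- a midpoint
    obtain ⟨x, y, he, hxy⟩ := e.2
    have hxy' := hbad _ _ hxy
    have hne' : q x ≠ q y := fun h' => hxy'.ne (h.inj h')
    have hw' : (1 / 2 : ℝ) • (q x + q y) ∈ segment ℝ (q u) (q v) := by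
      have h3 : PlF2_q q bad (.inr e) = PlF2_mid q e.1 := rfl
      rw [h3, he, PlF2_mid_mk] at hw
      exact hw
    rcases PlF2_meet h huv hxy' hw' (PlF2_mid_mem _ _) with h4 | ⟨c, _, hc, hcm⟩
    · rcases hcase with ⟨_, _, hnb⟩ | ⟨e', he', _, ⟨_, h2⟩ | ⟨h1, _⟩⟩
      · rcases Sym2.eq_iff.1 h4 with ⟨h5, h6⟩ | ⟨h5, h6⟩
        · rw [h5, h6] at hnb; exact hnb hxy
        · rw [h5, h6] at hnb; exact hnb (hsym _ _ hxy)
      · apply hwb
        rw [h2]
        congr 1
        exact Subtype.ext (by rw [he, he', h4])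
      · apply hwa
        rw [h1]
        congr 1
        exact Subtype.ext (by rw [he, he', h4])
    · rcases hc with rfl | rfl
      · exact PlF2_mid_ne hne' hcm
      · rw [add_comm] at hcm
        exact PlF2_mid_ne hne'.symm hcm

include h hbad in
theorem PlF2_drawn : Drawn (PlF2_graph H bad hsym) (PlF2_q q bad) := by
  refine ⟨?_, PlF2_pt h bad hsym hbad, ?_⟩
  · rintro (x | e) (y | e') heq
    · exact congrArg _ (h.inj heq)
    · exfalso
      obtain ⟨u, v, he, huv⟩ := e'.2
      have huv' := hbad _ _ huv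
      have hne : q u ≠ q v := fun h' => huv'.ne (h.inj h')
      have heq' : q x = (1 / 2 : ℝ) • (q u + q v) := by
        have h3 : q x = PlF2_mid q e'.1 := heq
        rw [h3, he, PlF2_mid_mk]
      by_cases hxu : x = u
      · subst hxu; exact PlF2_mid_ne hne heq'.symm
      by_cases hxv : x = v
      · subst hxv; rw [add_comm] at heq'; exact PlF2_mid_ne hne.symm heq'.symm
      exact h.pt u v x huv' hxu hxv (heq' ▸ PlF2_mid_mem _ _)
    · exfalso
      obtain ⟨u, v, he, huv⟩ := e.2
      have huv' := hbad _ _ huv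
      have hne : q u ≠ q v := fun h' => huv'.ne (h.inj h')
      have heq' : q y = (1 / 2 : ℝ) • (q u + q v) := by
        have h3 : q y = PlF2_mid q e.1 := heq.symm
        rw [h3, he, PlF2_mid_mk]
      by_cases hxu : y = u
      · subst hxu; exact PlF2_mid_ne hne heq'.symm
      by_cases hxv : y = v
      · subst hxv; rw [add_comm] at heq'; exact PlF2_mid_ne hne.symm heq'.symm
      exact h.pt u v y huv' hxu hxv (heq' ▸ PlF2_mid_mem _ _)
    · obtain ⟨u, v, he, huv⟩ := e.2
      obtain ⟨x, y, he', hxy⟩ := e'.2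
      have huv' := hbad _ _ huv
      have hxy' := hbad _ _ hxy
      have hne : q u ≠ q v := fun h' => huv'.ne (h.inj h')
      have heq' : (1 / 2 : ℝ) • (q u + q v) = (1 / 2 : ℝ) • (q x + q y) := by
        have h3 : PlF2_mid q e.1 = PlF2_mid q e'.1 := heq
        rw [he, he', PlF2_mid_mk, PlF2_mid_mk] at h3
        exact h3
      rcases PlF2_meet h huv' hxy' (PlF2_mid_mem _ _) (heq' ▸ PlF2_mid_mem _ _) with h4 | ⟨c, hc, _, hcm⟩
      · congr 1
        exact Subtype.ext (by rw [he, he', h4])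
      · exfalso
        rcases hc with rfl | rfl
        · exact PlF2_mid_ne hne hcm
        · rw [add_comm] at hcm
          exact PlF2_mid_ne hne.symm hcm
  · intro a b c d hab hcd hac had hbc hbd
    rw [Set.disjoint_left]
    intro z hz1 hz2
    obtain ⟨u, v, huv, hsub, hcase⟩ := PlF2_parent (q := q) bad hsym hbad hab
    obtain ⟨x, y, hxy, hsub', hcase'⟩ := PlF2_parent (q := q) bad hsym hbad hcd
    rcases PlF2_meet h huv hxy (hsub hz1) (hsub' hz2) with h4 | ⟨w, _, _, hw⟩
    · rcases hcase with ⟨h1, h2, hnb⟩ | ⟨e, he, hb, hor⟩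
      · rcases hcase' with ⟨h3, h5, _⟩ | ⟨e', he', hb', hor'⟩
        · rcases Sym2.eq_iff.1 h4 with ⟨h6, _⟩ | ⟨h6, _⟩
          · exact hac (by rw [h1, h3, h6])
          · exact had (by rw [h1, h5, h6])
        · rcases Sym2.eq_iff.1 h4 with ⟨h5, h6⟩ | ⟨h5, h6⟩
          · rw [h5, h6] at hnb; exact hnb hb'
          · rw [h5, h6] at hnb; exact hnb (hsym _ _ hb')
      · rcases hcase' with ⟨h3, h5, hnb⟩ | ⟨e', he', hb', hor'⟩
        · rcases Sym2.eq_iff.1 h4 with ⟨h5, h6⟩ | ⟨h5, h6⟩
          · rw [← h5, ← h6] at hnb; exact hnb hb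
          · rw [← h5, ← h6] at hnb; exact hnb (hsym _ _ hb)
        · have hee : e = e' := Subtype.ext (by rw [he, he', h4])
          subst hee
          rcases hor with ⟨_, h2⟩ | ⟨h1, _⟩ <;> rcases hor' with ⟨_, h5⟩ | ⟨h3, _⟩
          · exact hbd (by rw [h2, h5])
          · exact hbc (by rw [h2, h3])
          · exact had (by rw [h1, h5])
          · exact hac (by rw [h1, h3])
    · -- the meeting point is an old vertex `w`
      have hz : z = PlF2_q q bad (.inl w) := hw
      by_cases h1 : Sum.inl w = a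
      · by_cases h2 : Sum.inl w = c
        · exact hac (h1.symm.trans h2)
        by_cases h3 : Sum.inl w = d
        · exact had (h1.symm.trans h3)
        exact PlF2_pt h bad hsym hbad c d _ hcd h2 h3 (hz ▸ hz2)
      by_cases h1' : Sum.inl w = b
      · by_cases h2 : Sum.inl w = c
        · exact hbc (h1'.symm.trans h2)
        by_cases h3 : Sum.inl w = d
        · exact hbd (h1'.symm.trans h3)
        exact PlF2_pt h bad hsym hbad c d _ hcd h2 h3 (hz ▸ hz2)
      exact PlF2_pt h bad hsym hbad a b _ hab h1 h1' (hz ▸ hz1)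

end

/-- transport of a maximal drawing along a bijection of the vertices -/
theorem PlF2_transport {W W' : Type*} (e : W' ≃ W) {G : SimpleGraph W} {p : W → ℝ × ℝ}
    (h : MaxDrawn G p) : MaxDrawn (G.comap e) (p ∘ e) := by
  refine ⟨?_, ?_⟩
  · refine ⟨h.1.inj.comp e.injective, ?_, ?_⟩
    · intro u v w huv hwu hwv
      exact h.1.pt (e u) (e v) (e w) huv (fun h' => hwu (e.injective h'))
        (fun h' => hwv (e.injective h'))
    · intro u v x y huv hxy h1 h2 h3 h4
      exact h.1.cross (e u) (e v) (e x) (e y) huv hxy (fun h' => h1 (e.injective h'))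
        (fun h' => h2 (e.injective h')) (fun h' => h3 (e.injective h'))
        (fun h' => h4 (e.injective h'))
  · intro K hK hd
    have hd' : Drawn (K.comap e.symm) p := by
      refine ⟨h.1.inj, ?_, ?_⟩
      · intro u v w huv hwu hwv
        have := hd.pt (e.symm u) (e.symm v) (e.symm w) huv (fun h' => hwu (e.symm.injective h'))
          (fun h' => hwv (e.symm.injective h'))
        simpa using this
      · intro u v x y huv hxy h1 h2 h3 h4
        have := hd.cross (e.symm u) (e.symm v) (e.symm x) (e.symm y) huv hxy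
          (fun h' => h1 (e.symm.injective h')) (fun h' => h2 (e.symm.injective h'))
          (fun h' => h3 (e.symm.injective h')) (fun h' => h4 (e.symm.injective h'))
        simpa using this
    have hle : G ≤ K.comap e.symm := by
      intro u v huv
      show K.Adj (e.symm u) (e.symm v)
      apply hK
      show G.Adj (e (e.symm u)) (e (e.symm v))
      simpa using huv
    have heq := h.2 _ hle hd'
    ext u v
    constructor
    · intro huv
      show G.Adj (e u) (e v)
      rw [← heq]
      show K.Adj (e.symm (e u)) (e.symm (e v))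
      simpa using huv
    · intro huv
      exact hK huv

/-- Subdividing unwanted edges. Let `H` be maximal with drawing `q`, `S` a set of pairs of vertices
(given by a symmetric relation `bad`, `bad u v → H.Adj u v`). Let `W` be the type
`V ⊕ {e : Sym2 V // e ∈ H.edgeSet and e is bad}`, drawn by `q` and the midpoints of the bad edges.
The graph `H₁` on `W`: the edges of `H` that are not bad, and for a bad edge `e = s(u, v)` the two edges
from its midpoint to `u` and `v`. It is drawn (`Drawn`): the edges and half edges are parts of edges of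
`H`; midpoints of different edges are different and not on other edges since edges of `H` meet only
in common ends (`Drawn.inter`, `Drawn.cross`). Let `H₂ ≥ H₁` be maximal (`Drawn.exists_max`). Claim: if
`H₂.Adj (inl u) (inl v)` then `H.Adj u v` and not `bad u v`. Indeed `MaxDrawn.adj` for `H` applies to `u, v`:
the segment contains no other vertex, and it is disjoint from every edge `x y` of `H` without common
end: for a non-bad edge by `Drawn.cross` of `H₂`, for a bad edge with midpoint `m` it is disjoint from the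
half edges `x m` and `m y`. If `bad u v`, the midpoint is a vertex on the segment, contradiction to
`Drawn.pt` for `H₂`. -/
theorem subdivide {V : Type*} [Fintype V] [DecidableEq V] {H : SimpleGraph V} {q : V → ℝ × ℝ}
    (hm : MaxDrawn H q) (bad : V → V → Prop) (hsym : ∀ u v, bad u v → bad v u)
    (hbad : ∀ u v, bad u v → H.Adj u v) :
    ∃ (W : Type _) (_ : Fintype W) (_ : DecidableEq W) (ι : V → W) (H₂ : SimpleGraph W)
      (q₂ : W → ℝ × ℝ), Function.Injective ι ∧ MaxDrawn H₂ q₂ ∧ (∀ v, q₂ (ι v) = q v) ∧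
      (∀ w, w ∉ Set.range ι → ∃ u v, H.Adj u v ∧ q₂ w ∈ segment ℝ (q u) (q v) ∧ bad u v) ∧
      ∀ u v, H₂.Adj (ι u) (ι v) ↔ H.Adj u v ∧ ¬ bad u v := by
  classical
  have h := hm.1
  obtain ⟨H₂, hle, hmax⟩ := (PlF2_drawn h bad hsym hbad).exists_max
  have hhalf : ∀ x y, bad x y → ∃ m : {e : Sym2 V // ∃ u v, e = s(u, v) ∧ bad u v},
      PlF2_q q bad (.inr m) = (1 / 2 : ℝ) • (q x + q y) ∧ H₂.Adj (.inl x) (.inr m) ∧
        H₂.Adj (.inr m) (.inl y) := by
    intro x y hxy
    refine ⟨⟨s(x, y), x, y, rfl, hxy⟩, PlF2_mid_mk q x y, hle ?_, hle ?_⟩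
    · show x ∈ s(x, y)
      exact Sym2.mem_mk_left x y
    · show y ∈ s(x, y)
      exact Sym2.mem_mk_right x y
  have hmain : ∀ u v, H₂.Adj (.inl u) (.inl v) ↔ H.Adj u v ∧ ¬ bad u v := by
    intro u v
    constructor
    · intro huv
      have hne : u ≠ v := fun h' => huv.ne (congrArg _ h')
      have hadj : H.Adj u v := by
        refine hm.adj hne ?_ ?_
        · intro w hwu hwv
          exact hmax.1.pt (.inl u) (.inl v) (.inl w) huv (fun h' => hwu (Sum.inl.inj h'))
            (fun h' => hwv (Sum.inl.inj h'))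
        · intro x y hxy h1 h2 h3 h4
          by_cases hb : bad x y
          · obtain ⟨m, hmm, hxm, hmy⟩ := hhalf x y hb
            have c1 := hmax.1.cross (.inl u) (.inl v) (.inl x) (.inr m) huv hxm
              (fun h' => h1 (Sum.inl.inj h')) (by simp) (fun h' => h3 (Sum.inl.inj h')) (by simp)
            have c2 := hmax.1.cross (.inl u) (.inl v) (.inr m) (.inl y) huv hmy
              (by simp) (fun h' => h2 (Sum.inl.inj h')) (by simp) (fun h' => h4 (Sum.inl.inj h'))
            rw [hmm] at c1 c2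
            rw [Set.disjoint_left] at c1 c2 ⊢
            intro z hz1 hz2
            -- `z` is on one of the two halves
            obtain ⟨s, t, hs, ht, hst, hz⟩ := hz2
            by_cases hts : t ≤ s
            · apply c1 hz1
              refine ⟨s - t, 2 * t, by linarith, by linarith, by linarith, ?_⟩
              rw [← hz]
              show (s - t) • q x + (2 * t) • (1 / 2 : ℝ) • (q x + q y) = s • q x + t • q y
              module
            · apply c2 hz1
              refine ⟨2 * s, t - s, by linarith, by linarith, by linarith, ?_⟩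
              rw [← hz]
              show (2 * s) • (1 / 2 : ℝ) • (q x + q y) + (t - s) • q y = s • q x + t • q y
              module
          · have hxy2 : H₂.Adj (.inl x) (.inl y) := hle ⟨hxy, hb⟩
            exact hmax.1.cross (.inl u) (.inl v) (.inl x) (.inl y) huv hxy2
              (fun h' => h1 (Sum.inl.inj h')) (fun h' => h2 (Sum.inl.inj h'))
              (fun h' => h3 (Sum.inl.inj h')) (fun h' => h4 (Sum.inl.inj h'))
      refine ⟨hadj, fun hb => ?_⟩
      obtain ⟨m, hmm, _, _⟩ := hhalf u v hb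
      have := hmax.1.pt (.inl u) (.inl v) (.inr m) huv (by simp) (by simp)
      rw [hmm] at this
      exact this (PlF2_mid_mem _ _)
    · intro huv
      exact hle huv
  -- transport to the given universe
  let W₀ := V ⊕ {e : Sym2 V // ∃ u v, e = s(u, v) ∧ bad u v}
  have hfin : Finite W₀ := inferInstance
  have hft : Fintype W₀ := Fintype.ofFinite W₀
  let e : ULift (Fin (Fintype.card W₀)) ≃ W₀ := Equiv.ulift.trans (Fintype.equivFin W₀).symm
  refine ⟨ULift (Fin (Fintype.card W₀)), inferInstance, inferInstance, fun v => e.symm (.inl v),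
    H₂.comap e, PlF2_q q bad ∘ e, ?_, PlF2_transport e hmax, ?_, ?_, ?_⟩
  · intro a b hab
    exact Sum.inl.inj (e.symm.injective hab)
  · intro v
    show PlF2_q q bad (e (e.symm (.inl v))) = q v
    rw [Equiv.apply_symm_apply]
    rfl
  · intro w hw
    rcases hew : e w with v | m
    · exact absurd ⟨v, by show e.symm (Sum.inl v) = w; rw [← hew, Equiv.symm_apply_apply]⟩ hw
    · obtain ⟨x, y, hexy, hxy⟩ := m.2
      refine ⟨x, y, hbad _ _ hxy, ?_, hxy⟩
      show PlF2_q q bad (e w) ∈ _
      rw [hew]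
      show PlF2_mid q m.1 ∈ _
      rw [hexy, PlF2_mid_mk]
      exact PlF2_mid_mem _ _
  · intro u v
    show H₂.Adj (e (e.symm (.inl u))) (e (e.symm (.inl v))) ↔ _
    rw [Equiv.apply_symm_apply, Equiv.apply_symm_apply]
    exact hmain u v

end EPG26
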