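import Pool.Agent.W_26e041_h61.PlF1
import Pool.Agent.W_26e041_h61.PlF2

namespace EPG26

open Set

theorem PlF3_cr_pos {a b x y z : ℝ × ℝ} (hx : 0 < cr a b x) (hy : 0 < cr a b y)
    (hz : z ∈ segment ℝ x y) : 0 < cr a b z := by
  obtain ⟨s, t, hs, ht, hst, rfl⟩ := hz
  have h1 : cr a b (s • x + t • y) = s * cr a b x + t * cr a b y := by
    unfold cr
    simp only [Prod.fst_add, Prod.snd_add, Prod.smul_fst, Prod.smul_snd, smul_eq_mul]
    have hs' : s = 1 - t := by linarith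
    subst hs'
    ring
  rw [h1]
  rcases hs.eq_or_lt with h | h
  · have ht1 : t = 1 := by linarith
    rw [← h, ht1]
    linarith
  · have h2 : 0 < s * cr a b x := mul_pos h hx
    have h3 : 0 ≤ t * cr a b y := mul_nonneg ht hy.le
    linarith

/-- Every planar graph is an induced subgraph of a triangulated disc. From `Drawn G p` take
`exists_outer`, then a maximal `H' ≥ H` (`Drawn.exists_max`); `Outer` stays true. Apply `subdivide` with
`bad u v`: `u = inl a`, `v = inl b`, `H'.Adj u v` and not `G.Adj a b`. The new vertices are strictly inside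
the outer triangle (midpoints of segments between `inl` vertices, which are strictly inside; convexity
of `cr` in the last argument), so `Outer` holds for `ι (inr i)`; then `disc_of_outer`. -/
theorem planar_disc {V : Type*} [Fintype V] {G : SimpleGraph V} (hG : Planar G) :
    ∃ (W : Type _) (_ : Fintype W) (_ : DecidableEq W) (H : SimpleGraph W) (φ : V → W)
      (x y z : W) (F : Finset (Finset W)), Function.Injective φ ∧
      (∀ u v, G.Adj u v ↔ H.Adj (φ u) (φ v)) ∧ Disc [x, y, z] F ∧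
      (∀ w, w ∈ verts [x, y, z] F) ∧ ∀ u v, H.Adj u v ↔ AdjF F u v := by
  classical
  obtain ⟨p, hp⟩ := planar_iff.1 hG
  obtain ⟨H, q, hHq, hout, hqp, hadj⟩ := exists_outer hp
  obtain ⟨H', hHH', hmax⟩ := hHq.exists_max
  let bad : V ⊕ Fin 3 → V ⊕ Fin 3 → Prop := fun u v =>
    ∃ a b, u = Sum.inl a ∧ v = Sum.inl b ∧ H'.Adj u v ∧ ¬ G.Adj a b
  have hsym : ∀ u v, bad u v → bad v u := by
    rintro u v ⟨a, b, hu, hv, h1, h2⟩
    exact ⟨b, a, hv, hu, h1.symm, fun h => h2 h.symm⟩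
  have hbad : ∀ u v, bad u v → H'.Adj u v := by
    rintro u v ⟨a, b, hu, hv, h1, h2⟩
    exact h1
  obtain ⟨W, hWf, hWd, ι, H₂, q₂, hι, hm₂, hq₂, hnew, hadj₂⟩ := subdivide hmax bad hsym hbad
  have hnb : ∀ i j : Fin 3, ¬ bad (Sum.inr i) (Sum.inr j) := by
    rintro i j ⟨a, b, hu, -⟩
    exact absurd hu (by simp)
  have hO : Outer H₂ q₂ (ι (Sum.inr 0)) (ι (Sum.inr 1)) (ι (Sum.inr 2)) := by
    refine ⟨?_, ?_, ?_, ?_, ?_⟩
    · rw [hq₂, hq₂, hq₂]
      exact hout.ccw
    · exact (hadj₂ _ _).2 ⟨hHH' hout.AB, hnb _ _⟩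
    · exact (hadj₂ _ _).2 ⟨hHH' hout.BC, hnb _ _⟩
    · exact (hadj₂ _ _).2 ⟨hHH' hout.CA, hnb _ _⟩
    · intro w hA hB hC
      rw [hq₂, hq₂, hq₂]
      by_cases hw : w ∈ Set.range ι
      · obtain ⟨v, rfl⟩ := hw
        rw [hq₂]
        exact hout.ins v (fun h => hA (by rw [h])) (fun h => hB (by rw [h]))
          (fun h => hC (by rw [h]))
      · obtain ⟨u, v, -, hseg, a, b, rfl, rfl, -, -⟩ := hnew w hw
        have ha := hout.ins (Sum.inl a) (by simp) (by simp) (by simp)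
        have hb := hout.ins (Sum.inl b) (by simp) (by simp) (by simp)
        exact ⟨PlF3_cr_pos ha.1 hb.1 hseg, PlF3_cr_pos ha.2.1 hb.2.1 hseg,
          PlF3_cr_pos ha.2.2 hb.2.2 hseg⟩
  obtain ⟨F, hF1, hF2, hF3⟩ := disc_of_outer hm₂ hO
  refine ⟨W, hWf, hWd, H₂, fun v => ι (Sum.inl v), ι (Sum.inr 0), ι (Sum.inr 1),
    ι (Sum.inr 2), F, ?_, ?_, hF1, hF2, hF3⟩
  · intro u v h
    exact Sum.inl_injective (hι h)
  · intro u v
    rw [hadj₂]
    constructor
    · intro h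
      refine ⟨hHH' ((hadj u v).2 h), ?_⟩
      rintro ⟨a, b, hu, hv, -, h2⟩
      rw [Sum.inl_injective hu, Sum.inl_injective hv] at h
      exact h2 h
    · rintro ⟨h1, h2⟩
      by_contra hcon
      exact h2 ⟨u, v, rfl, rfl, h1, hcon⟩

end EPG26
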