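import Pool.Agent.W_26e041_h61.NodeA
import Pool.Agent.W_26e041_h61.GridB
import Pool.Agent.W_26e041_h61.PlF3

/-!
The final drawing.
-/

namespace EPG26

variable {V : Type*} [DecidableEq V]

/-- The drawing of the outer triangle. -/
def Fin_dr {W : Type*} [DecidableEq W] (x y z : W) : Dr W := fun w =>
  if w = x then zig false [-10, 0, 20]
  else if w = y then zig false [-4, 0, -2, 1, 20]
  else if w = z then zig false [-7/2, 0, -3, 10]
  else fun _ _ => ∅

/-- the lines of the drawing of the outer triangle -/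
def Fin_U : Bool → Finset ℚ := fun o => if o then {-2, -3} else {0, 1}

theorem Fin_x {W : Type*} [DecidableEq W] (x y z : W) :
    Fin_dr x y z x = zig false [-10, 0, 20] := by
  simp [Fin_dr]

theorem Fin_y {W : Type*} [DecidableEq W] {x y : W} (z : W) (h : y ≠ x) :
    Fin_dr x y z y = zig false [-4, 0, -2, 1, 20] := by
  simp [Fin_dr, h]

theorem Fin_z {W : Type*} [DecidableEq W] {x y z : W} (h : z ≠ x) (h' : z ≠ y) :
    Fin_dr x y z z = zig false [-7/2, 0, -3, 10] := by
  simp [Fin_dr, h, h']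

theorem Fin_w {W : Type*} [DecidableEq W] {x y z w : W} (h : w ≠ x) (h' : w ≠ y) (h'' : w ≠ z)
    (o : Bool) (l t : ℚ) : t ∉ Fin_dr x y z w o l := by
  simp [Fin_dr, h, h', h'']

theorem Fin_mem_x {o : Bool} {l t : ℚ} : t ∈ zig false [-10, 0, 20] o l ↔
    o = false ∧ l = 0 ∧ -10 < t ∧ t < 20 := by
  have e1 : min (-10 : ℚ) 20 = -10 := by norm_num
  have e2 : max (-10 : ℚ) 20 = 20 := by norm_num
  simp only [zig, seg, Set.mem_union, Set.mem_ofPred_eq, Set.mem_empty_iff_false, or_false, e1, e2]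

theorem Fin_mem_y {o : Bool} {l t : ℚ} : t ∈ zig false [-4, 0, -2, 1, 20] o l ↔
    (o = false ∧ l = 0 ∧ -4 < t ∧ t < -2) ∨ (o = true ∧ l = -2 ∧ 0 < t ∧ t < 1) ∨
      (o = false ∧ l = 1 ∧ -2 < t ∧ t < 20) := by
  have e1 : min (-4 : ℚ) (-2) = -4 := by norm_num
  have e2 : max (-4 : ℚ) (-2) = -2 := by norm_num
  have e3 : min (0 : ℚ) 1 = 0 := by norm_num
  have e4 : max (0 : ℚ) 1 = 1 := by norm_num
  have e5 : min (-2 : ℚ) 20 = -2 := by norm_num
  have e6 : max (-2 : ℚ) 20 = 20 := by norm_num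
  simp only [zig, seg, Set.mem_union, Set.mem_ofPred_eq, Set.mem_empty_iff_false, or_false, e1, e2,
    e3, e4, e5, e6, Bool.not_false, Bool.not_true]

theorem Fin_mem_z {o : Bool} {l t : ℚ} : t ∈ zig false [-7/2, 0, -3, 10] o l ↔
    (o = false ∧ l = 0 ∧ -7/2 < t ∧ t < -3) ∨ (o = true ∧ l = -3 ∧ 0 < t ∧ t < 10) := by
  have e1 : min (-7/2 : ℚ) (-3) = -7/2 := by norm_num
  have e2 : max (-7/2 : ℚ) (-3) = -3 := by norm_num
  have e3 : min (0 : ℚ) 10 = 0 := by norm_num
  have e4 : max (0 : ℚ) 10 = 10 := by norm_num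
  simp only [zig, seg, Set.mem_union, Set.mem_ofPred_eq, Set.mem_empty_iff_false, or_false, e1, e2,
    e3, e4, Bool.not_false]

/-- the three outer paths -/
theorem Fin_path_x : IsPath3 (zig false [-10, 0, 20]) :=
  ⟨false, [-10, 0, 20], by simp, by simp, by norm_num [ZigNd], by simp [ZigSimple],
    fun _ _ _ => Iff.rfl⟩

theorem Fin_path_y : IsPath3 (zig false [-4, 0, -2, 1, 20]) :=
  ⟨false, [-4, 0, -2, 1, 20], by simp, by simp, by norm_num [ZigNd], by simp [ZigSimple],
    fun _ _ _ => Iff.rfl⟩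

theorem Fin_path_z : IsPath3 (zig false [-7/2, 0, -3, 10]) :=
  ⟨false, [-7/2, 0, -3, 10], by simp, by simp, by norm_num [ZigNd], by simp [ZigSimple],
    fun _ _ _ => Iff.rfl⟩

/-- if exactly the vertices of `S` cover, given by the three cases -/
theorem Fin_solo {W : Type*} [DecidableEq W] {x y z : W} (hyx : y ≠ x) (hzx : z ≠ x) (hzy : z ≠ y)
    {S : Set W} {o : Bool} {l a b : ℚ} (hS : ∀ w ∈ S, w = x ∨ w = y ∨ w = z)
    (h : ∀ t, a < t → t < b →
      (t ∈ zig false [-10, 0, 20] o l ↔ x ∈ S) ∧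
      (t ∈ zig false [-4, 0, -2, 1, 20] o l ↔ y ∈ S) ∧
      (t ∈ zig false [-7/2, 0, -3, 10] o l ↔ z ∈ S)) :
    Solo (Fin_dr x y z) S o l a b := by
  intro t h1 h2 v
  obtain ⟨hx, hy, hz⟩ := h t h1 h2
  by_cases e1 : v = x
  · subst e1
    rw [Fin_x]
    exact hx
  · by_cases e2 : v = y
    · subst e2
      rw [Fin_y z hyx]
      exact hy
    · by_cases e3 : v = z
      · subst e3
        rw [Fin_z hzx hzy]
        exact hz
      · constructor
        · intro h3
          exact absurd h3 (Fin_w e1 e2 e3 o l t)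
        · intro h3
          rcases hS v h3 with h4 | h4 | h4
          · exact absurd h4 e1
          · exact absurd h4 e2
          · exact absurd h4 e3

theorem Fin_lines {W : Type*} [DecidableEq W] {x y z : W} (hyx : y ≠ x) (hzx : z ≠ x)
    (hzy : z ≠ y) : LinesIn (Fin_dr x y z) Fin_U := by
  intro v o l t h
  by_cases e1 : v = x
  · subst e1
    rw [Fin_x, Fin_mem_x] at h
    obtain ⟨rfl, rfl, -⟩ := h
    simp [Fin_U]
  · by_cases e2 : v = y
    · subst e2
      rw [Fin_y z hyx, Fin_mem_y] at h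
      rcases h with ⟨rfl, rfl, -⟩ | ⟨rfl, rfl, -⟩ | ⟨rfl, rfl, -⟩ <;> simp [Fin_U]
    · by_cases e3 : v = z
      · subst e3
        rw [Fin_z hzx hzy, Fin_mem_z] at h
        rcases h with ⟨rfl, rfl, -⟩ | ⟨rfl, rfl, -⟩ <;> simp [Fin_U]
      · exact absurd h (Fin_w e1 e2 e3 o l t)

/-- overlaps of the outer paths -/
theorem Fin_ov {W : Type*} [DecidableEq W] {x y z : W} (hyx : y ≠ x) (hzx : z ≠ x)
    (hzy : z ≠ y) {u v : W} (hu : u = x ∨ u = y ∨ u = z) (hv : v = x ∨ v = y ∨ v = z) :
    Ov (Fin_dr x y z) u v := by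
  refine ⟨false, 0, -13/4, ?_, ?_⟩
  · rcases hu with rfl | rfl | rfl
    · rw [Fin_x, Fin_mem_x]; norm_num
    · rw [Fin_y z hyx, Fin_mem_y]; norm_num
    · rw [Fin_z hzx hzy, Fin_mem_z]; norm_num
  · rcases hv with rfl | rfl | rfl
    · rw [Fin_x, Fin_mem_x]; norm_num
    · rw [Fin_y z hyx, Fin_mem_y]; norm_num
    · rw [Fin_z hzx hzy, Fin_mem_z]; norm_num

/-- The outer triangle. Draw `x` with `zig false [-10, 0, 20]`, `y` with `zig false [-4, 0, -2, 1, 20]`
and `z` with `zig false [-7/2, 0, -3, 10]`: they overlap pairwise on the line `0`. The inside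
`J = inside x y z F (fun _ => ∅)` is drawn in the wk-socket (`FillT.wk`) with `o = false`, lines `0` (`x`)
and `1` (`y`), window `(0, 20)`, `z` on the line `-3` with window `(2, 10)`, zone of `x, y` on the line `0`:
`(-5/2, -2)`. All other vertices are in `J`; adjacent vertices overlap (`Filled`, for the outer ones by
the drawing), overlapping ones are adjacent (`Wd.sound`). `grid_of_drawing`. -/
theorem final_draw {W : Type*} [Fintype W] [DecidableEq W] {H : SimpleGraph W} {x y z : W}
    {F : Finset (Finset W)} (hd : Disc [x, y, z] F) (hv : ∀ w, w ∈ verts [x, y, z] F)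
    (hH : ∀ u v, H.Adj u v ↔ AdjF F u v)
    (hf : FillT H {x, y, z} (inside x y z F (fun _ => ∅))) : IsKBend H 3 := by
  have hnd := Disc.nodup hd
  simp only [List.nodup_cons, List.mem_cons, List.not_mem_nil, or_false, not_or,
    not_false_eq_true, List.nodup_nil, and_true] at hnd
  obtain ⟨⟨hxy, hxz⟩, hyz⟩ := hnd
  have hyx : y ≠ x := fun h => hxy h.symm
  have hzx : z ≠ x := fun h => hxz h.symm
  have hzy : z ≠ y := fun h => hyz h.symm
  -- the outer vertices are pairwise adjacent
  have a1 : H.Adj x y := (hH x y).2 (Disc.bd_adj (p := []) (s := [z]) hd (Or.inr (by simp)))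
  have a2 : H.Adj y z := (hH y z).2 (Disc.bd_adj (p := [x]) (s := []) hd (Or.inl (by simp)))
  have a3 : H.Adj x z := (hH x z).2 (Disc.root_adj (m := [y]) hd (by simp))
  have hout : ∀ u v, u ≠ v → (u = x ∨ u = y ∨ u = z) → (v = x ∨ v = y ∨ v = z) → H.Adj u v := by
    intro u v huv hu hv
    rcases hu with rfl | rfl | rfl <;> rcases hv with rfl | rfl | rfl
    · exact absurd rfl huv
    · exact a1
    · exact a3
    · exact a1.symm
    · exact absurd rfl huv
    · exact a2
    · exact a3.symm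
    · exact a2.symm
    · exact absurd rfl huv
  have hJ : ∀ v, v ∈ inside x y z F (fun _ => ∅) ↔ ¬ (v = x ∨ v = y ∨ v = z) := by
    intro v
    unfold inside
    simp only [Finset.mem_union, Finset.mem_sdiff, Finset.mem_biUnion, Finset.notMem_empty,
      and_false, exists_false, or_false, Finset.mem_insert, Finset.mem_singleton, hv v, true_and]
  have hwd : Wd H (Fin_dr x y z) Fin_U := by
    refine ⟨Fin_lines hyx hzx hzy, ?_⟩
    rintro u v huv ⟨o, l, t, h1, h2⟩
    apply hout u v huv
    · by_contra h3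
      push Not at h3
      exact Fin_w h3.1 h3.2.1 h3.2.2 o l t h1
    · by_contra h3
      push Not at h3
      exact Fin_w h3.1 h3.2.1 h3.2.2 o l t h2
  have hun : ∀ v ∈ inside x y z F (fun _ => ∅), Undrawn (Fin_dr x y z) v := by
    intro v hvJ o l t
    rw [hJ] at hvJ
    push Not at hvJ
    exact Fin_w hvJ.1 hvJ.2.1 hvJ.2.2 o l t
  have hS : SockR (Fin_dr x y z) x y z false 0 1 0 20 (-3) 2 10 := by
    refine ⟨by norm_num, by norm_num, ?_, ?_, ?_, by norm_num, Or.inl (by norm_num)⟩
    · apply Fin_solo hyx hzx hzy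
      · intro w hw
        exact Or.inl hw
      · intro t h1 h2
        rw [Fin_mem_x, Fin_mem_y, Fin_mem_z]
        simp only [Set.mem_singleton_iff, hyx, hzx, iff_false, iff_true, true_and]
        refine ⟨⟨by linarith, by linarith⟩, ?_, ?_⟩
        · rintro (⟨-, h3⟩ | ⟨h3, -⟩ | ⟨h3, -⟩)
          · linarith
          · exact absurd h3 (by decide)
          · exact absurd h3 (by norm_num)
        · rintro (⟨-, h3⟩ | ⟨h3, -⟩)
          · linarith
          · exact absurd h3 (by decide)
    · apply Fin_solo hyx hzx hzy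
      · intro w hw
        exact Or.inr (Or.inl hw)
      · intro t h1 h2
        rw [Fin_mem_x, Fin_mem_y, Fin_mem_z]
        simp only [Set.mem_singleton_iff, hxy, hzy, iff_false, iff_true, true_and]
        refine ⟨?_, ?_, ?_⟩
        · rintro ⟨h3, -⟩
          exact absurd h3 (by norm_num)
        · exact Or.inr (Or.inr ⟨by linarith, h2⟩)
        · rintro (⟨h3, -⟩ | ⟨h3, -⟩)
          · exact absurd h3 (by norm_num)
          · exact absurd h3 (by decide)
    · apply Fin_solo hyx hzx hzy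
      · intro w hw
        exact Or.inr (Or.inr hw)
      · intro t h1 h2
        rw [Fin_mem_x, Fin_mem_y, Fin_mem_z]
        simp only [Set.mem_singleton_iff, hxz, hyz, iff_false, iff_true, true_and, Bool.not_false]
        refine ⟨?_, ?_, ?_⟩
        · rintro ⟨h3, -⟩
          exact absurd h3 (by decide)
        · rintro (⟨h3, -⟩ | ⟨h3, -⟩ | ⟨h3, -⟩)
          · exact absurd h3 (by decide)
          · exact absurd h3 (by norm_num)
          · exact absurd h3 (by decide)
        · exact Or.inr ⟨by linarith, h2⟩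
  have hZ : ZoneW (Fin_dr x y z) x y false 0 1 2 10 0 (-5/2) (-2) := by
    refine ⟨by norm_num, ?_, Or.inl ⟨by norm_num, by norm_num, by norm_num⟩⟩
    apply Fin_solo hyx hzx hzy
    · rintro w (hw | hw)
      · exact Or.inl hw
      · exact Or.inr (Or.inl hw)
    · intro t h1 h2
      rw [Fin_mem_x, Fin_mem_y, Fin_mem_z]
      simp only [Set.mem_insert_iff, Set.mem_singleton_iff, hzx, hzy, true_or, or_true, or_self,
        iff_false, iff_true, true_and]
      refine ⟨⟨by linarith, by linarith⟩, Or.inl ⟨by linarith, h2⟩, ?_⟩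
      rintro (⟨-, h3⟩ | ⟨h3, -⟩)
      · linarith
      · exact absurd h3 (by decide)
  obtain ⟨Γ', U', hst, hfil⟩ := hf.wk (Fin_dr x y z) Fin_U x y z false 0 1 0 20 (-3) 2 10 0
    (-5/2) (-2) rfl hwd hun hS hZ
  -- outer vertices keep their coverage
  have hkeep : ∀ v, (v = x ∨ v = y ∨ v = z) → Γ' v = Fin_dr x y z v := by
    intro v hv
    funext o l
    ext t
    constructor
    · intro h1
      rcases hst.grow.new v o l t h1 with h2 | ⟨h2, -⟩
      · exact h2
      · exact absurd hv ((hJ v).1 (by simpa using h2))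
    · exact hst.grow.mono v o l t
  refine grid_of_drawing H Γ' ?_ ?_
  · intro v
    by_cases hv : v = x ∨ v = y ∨ v = z
    · rw [hkeep v hv]
      rcases hv with rfl | rfl | rfl
      · rw [Fin_x]; exact Fin_path_x
      · rw [Fin_y z hyx]; exact Fin_path_y
      · rw [Fin_z hzx hzy]; exact Fin_path_z
    · exact (hfil v ((hJ v).2 hv)).1
  · intro u v huv
    constructor
    · intro h
      by_cases hu : u = x ∨ u = y ∨ u = z
      · by_cases hv : v = x ∨ v = y ∨ v = z
        · obtain ⟨o, l, t, h1, h2⟩ := Fin_ov hyx hzx hzy hu hv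
          exact ⟨o, l, t, hst.grow.mono _ _ _ _ h1, hst.grow.mono _ _ _ _ h2⟩
        · obtain ⟨o, l, t, h1, h2⟩ := (hfil v ((hJ v).2 hv)).2 u h.symm
          exact ⟨o, l, t, h2, h1⟩
      · exact (hfil u ((hJ u).2 hu)).2 v h
    · exact hst.wd.sound u v huv

/-- The whole disc is a node with empty contents (`Fat.node`, `Fat.empty`, `Disc.card3`). -/
theorem fat_of_disc {W : Type*} [DecidableEq W] {H : SimpleGraph W} {x y z : W}
    {F : Finset (Finset W)} (hd : Disc [x, y, z] F) (hH : ∀ u v, H.Adj u v ↔ AdjF F u v) :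
    Fat H {x, y, z} (inside x y z F (fun _ => ∅)) := by
  refine Fat.node ⟨hd, ?_, ?_, ?_, ?_⟩ ?_
  · intro f _ g _ _
    exact Finset.disjoint_empty_left _
  · intro f _
    exact Finset.disjoint_empty_left _
  · intro f hf u hu v hv huv
    exact (hH u v).2 ⟨huv, f, hf, hu, hv⟩
  · intro v _ _ w hw
    exact Or.inl ((hH v w).1 hw)
  · intro f hf
    exact Fat.empty (Disc.card3 hd f hf)

/-- If all contents can be drawn then planar graphs are 3-bend graphs: `planar_disc`,
`fat_of_disc`, `final_draw`, `IsKBend.comap`. (The universe of `W` in `planar_disc` is the one of `V`.) -/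
theorem planar_of_fill {V : Type*} [Fintype V] {G : SimpleGraph V} (hG : Planar G)
    (hf : ∀ (W : Type _) (_ : DecidableEq W) (H : SimpleGraph W) (T J : Finset W),
      Fat H T J → FillT H T J) : IsKBend G 3 := by
  obtain ⟨W, hW1, hW2, H, φ, x, y, z, F, hφ, hadj, hd, hv, hH⟩ := planar_disc hG
  have h1 := hf W hW2 H {x, y, z} _ (fat_of_disc hd hH)
  exact IsKBend.comap φ hφ hadj (final_draw hd hv hH h1)

end EPG26
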