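import Pool.Agent.W_26e041_h61.BlkJ
import Pool.Agent.W_26e041_h61.Fin

/-!
The main theorem.
-/

namespace EPG26

variable {V : Type*} [DecidableEq V]

theorem BlkK_face {T : Finset V} {Fs : Finset (Finset V)} {o1 o2 q w e d : V}
    {al be fs : List V} {F : Finset (Finset V)} (h : Blk0 T Fs o1 o2 q w e d al be fs F) :
    ({o1, o2, w} : Finset V) ∈ Fs := by
  rw [h.hF]
  exact Finset.mem_union_left _ (Finset.mem_union_left _ (Finset.mem_insert_self _ _))

theorem BlkK_verts {T : Finset V} {Fs : Finset (Finset V)} {o1 o2 q w e d : V}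
    {al be fs : List V} {F : Finset (Finset V)} (h : Blk0 T Fs o1 o2 q w e d al be fs F)
    {f : Finset V} (hf : f ∈ Fs) {v : V} (hv : v ∈ f) :
    v ∈ T ∨ v ∈ verts (blkBd w e d al be fs) F := by
  rw [h.hF] at hf
  rcases Finset.mem_union.1 hf with hf | hf
  · have key : v = o1 ∨ v = o2 ∨ v = q ∨ v ∈ blkBd w e d al be fs := by
      unfold blkF at hf
      simp only [Finset.mem_union, Finset.mem_insert, Finset.mem_singleton] at hf
      unfold blkBd
      rcases hf with (rfl | rfl | rfl) | (hf | hf) | hf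
      · simp only [Finset.mem_insert, Finset.mem_singleton] at hv
        simp only [List.mem_append, List.mem_cons, List.mem_reverse, List.not_mem_nil, or_false]
        tauto
      · simp only [Finset.mem_insert, Finset.mem_singleton] at hv
        simp only [List.mem_append, List.mem_cons, List.mem_reverse, List.not_mem_nil, or_false]
        tauto
      · simp only [Finset.mem_insert, Finset.mem_singleton] at hv
        simp only [List.mem_append, List.mem_cons, List.mem_reverse, List.not_mem_nil, or_false]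
        tauto
      all_goals
        have h3 := StageC1_fan_vert hf hv
        simp only [List.mem_append, List.mem_cons, List.mem_reverse, List.not_mem_nil, or_false]
          at h3 ⊢
        tauto
    rw [h.hT]
    rcases key with h5 | h5 | h5 | h5
    · left
      rw [h5]
      simp
    · left
      rw [h5]
      simp
    · left
      rw [h5]
      simp
    · right
      exact DiscA_mem_verts_left h5
  · right
    exact DiscA_mem_verts_right hf hv

theorem BlkK_in {T : Finset V} {Fs : Finset (Finset V)} {o1 o2 q w e d : V}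
    {al be fs : List V} {F : Finset (Finset V)} (h : Blk0 T Fs o1 o2 q w e d al be fs F) {v : V}
    (hv : v ∈ verts (blkBd w e d al be fs) F) : ∃ f ∈ Fs, v ∈ f := by
  have h1 : v ∈ F.biUnion id := by
    unfold verts at hv
    rcases Finset.mem_union.1 hv with hv | hv
    · refine Disc.mem_biUnion h.reg.disc ?_ (List.mem_toFinset.1 hv)
      unfold blkBd
      simp only [List.length_append, List.length_cons, List.length_nil, List.length_reverse]
      omega
    · exact hv
  obtain ⟨f, hf, hvf⟩ := Finset.mem_biUnion.1 h1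
  exact ⟨f, h.reg.sub hf, hvf⟩

theorem BlkK_blk {G : SimpleGraph V} {x y z : V} {Fs : Finset (Finset V)}
    {J : Finset V → Finset V} (h : Node G x y z Fs J) (hc : Ctx G {x, y, z} Fs J)
    {o1 o2 q w e d : V} {al be fs : List V} {F : Finset (Finset V)}
    (hB : Blk {x, y, z} Fs o1 o2 q w e d al be fs F) {ol ou : V}
    (ho : (o1 = ol ∧ o2 = ou) ∨ (o1 = ou ∧ o2 = ol)) {Γ : Dr V} {U : Bool → Finset ℚ}
    {Ll Lu I0 I1 Xq J0 J1 : ℚ} (hw : Wd G Γ U) (hun : ∀ v ∈ inside x y z Fs J, Undrawn Γ v)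
    (hS : CanSock Γ ol ou q Ll Lu I0 I1 Xq J0 J1) (hL : Ll < Lu) :
    CanFill G Γ U (seg false Ll I0 I1 ⊔ seg false Lu I0 I1 ⊔ seg true Xq J0 J1)
      (inside x y z Fs J) := by
  have hface := BlkK_face hB.toBlk0
  have hE : ({ol, ou, w} : Finset V) = {o1, o2, w} := by
    rcases ho with ⟨rfl, rfl⟩ | ⟨rfl, rfl⟩
    · rfl
    · exact Finset.insert_comm _ _ _
  have hwbd : w ∈ blkBd w e d al be fs := by
    unfold blkBd
    simp
  have hnd := hB.nd
  simp only [List.nodup_cons, List.mem_cons, not_or] at hnd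
  obtain ⟨⟨n12, n1q, n1b⟩, ⟨n2q, n2b⟩, nqb, -⟩ := hnd
  have w1 : w ≠ o1 := fun h5 => n1b (h5 ▸ hwbd)
  have w2 : w ≠ o2 := fun h5 => n2b (h5 ▸ hwbd)
  have wq : w ≠ q := fun h5 => nqb (h5 ▸ hwbd)
  have hT1 : o1 ∈ ({x, y, z} : Finset V) := by rw [hB.hT]; simp
  have hT2 : o2 ∈ ({x, y, z} : Finset V) := by rw [hB.hT]; simp
  have hTq : q ∈ ({x, y, z} : Finset V) := by rw [hB.hT]; simp
  have hvs : ∀ f ∈ Fs, ∀ v ∈ f, v ∈ verts [x, y, z] Fs := fun f hf v hv =>
    DiscA_mem_verts_right hf hv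
  have hTv : ∀ v ∈ ({x, y, z} : Finset V), v ∈ verts [x, y, z] Fs := by
    intro v hv
    apply DiscA_mem_verts_left
    simpa using hv
  have hJv : ∀ f ∈ Fs, ∀ v ∈ J f, v ∉ verts [x, y, z] Fs := fun f hf v hv hv' =>
    Finset.disjoint_left.1 (h.sep f hf) hv hv'
  have hJin : ∀ f ∈ Fs, ∀ v ∈ J f, v ∈ inside x y z Fs J := fun f hf v hv =>
    Finset.mem_union_right _ (Finset.mem_biUnion.2 ⟨f, hf, hv⟩)
  have hbv : ∀ v ∈ verts (blkBd w e d al be fs) F, v ∈ verts [x, y, z] Fs := by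
    intro v hv
    obtain ⟨f, hf, hvf⟩ := BlkK_in hB.toBlk0 hv
    exact hvs f hf v hvf
  have hbT : ∀ v ∈ verts (blkBd w e d al be fs) F, v ∉ ({x, y, z} : Finset V) :=
    fun v hv hvT => hB.out v hvT hv
  have hbin : ∀ v ∈ verts (blkBd w e d al be fs) F, v ∈ inside x y z Fs J := fun v hv =>
    Finset.mem_union_left _ (Finset.mem_sdiff.2 ⟨hbv v hv, hbT v hv⟩)
  have hwv : w ∈ verts (blkBd w e d al be fs) F := DiscA_mem_verts_left hwbd
  have hou' : ol ≠ ou := by
    rcases ho with ⟨rfl, rfl⟩ | ⟨rfl, rfl⟩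
    · exact n12
    · exact Ne.symm n12
  have hol1 : w ≠ ol ∧ w ≠ ou := by
    rcases ho with ⟨rfl, rfl⟩ | ⟨rfl, rfl⟩
    · exact ⟨w1, w2⟩
    · exact ⟨w2, w1⟩
  have holT : ol ∈ ({x, y, z} : Finset V) ∧ ou ∈ ({x, y, z} : Finset V) := by
    rcases ho with ⟨rfl, rfl⟩ | ⟨rfl, rfl⟩
    · exact ⟨hT1, hT2⟩
    · exact ⟨hT2, hT1⟩
  have holf : ol ∈ ({o1, o2, w} : Finset V) ∧ ou ∈ ({o1, o2, w} : Finset V) := by
    rw [← hE]
    simp
  obtain ⟨Γ₁, U₁, Xw, S1, Top, hR, l1, l2, hl1, hl2, hst1, hBW, hpw, hfJ, hol, hou⟩ :=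
    blk_w (G := G) (w := w) (J := J {o1, o2, w}) hw hS hL hou' (hun w (hbin w hwv))
      (hc.adj _ hface w (by simp) ol holf.1 hol1.1) (hc.adj _ hface w (by simp) ou holf.2 hol1.2)
      (by
        intro v hv
        have h5 := hJv _ hface v hv
        refine ⟨hun v (hJin _ hface v hv), ?_, ?_, ?_, ?_⟩
        · rintro rfl
          exact h5 (hbv _ hwv)
        · rintro rfl
          exact h5 (hTv _ holT.1)
        · rintro rfl
          exact h5 (hTv _ holT.2)
        · rintro rfl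
          exact h5 (hTv _ hTq))
      wq (by
        rw [hE]
        exact hc.fill _ hface)
  obtain ⟨m1, m2, hm1, hm2, hBW'⟩ : ∃ m1 m2 : Ln V, m1.ow = o1 ∧ m2.ow = o2 ∧
      BW Γ₁ U₁ (blkD U Ll Lu I0 I1 Xq J0 J1) q w Xq I0 I1 Xw S1 Top hR m1 m2 := by
    rcases ho with ⟨rfl, rfl⟩ | ⟨rfl, rfl⟩
    · exact ⟨l1, l2, hl1, hl2, hBW⟩
    · exact ⟨l2, l1, hl2, hl1, hBW.symm⟩
  have hD₁ : Adm U₁ (blkD U Ll Lu I0 I1 Xq J0 J1) := by
    have h5 : Adm U (blkD U Ll Lu I0 I1 Xq J0 J1) := le_sup_left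
    exact h5.mono hst1.sub
  have hun' : ∀ v, ((v ∈ verts (blkBd w e d al be fs) F ∧ v ≠ w) ∨
      ∃ f ∈ Fs, f ≠ ({o1, o2, w} : Finset V) ∧ v ∈ J f) → Undrawn Γ₁ v := by
    rintro v (⟨h5, h6⟩ | ⟨f, hf, hne, hv⟩)
    · refine (hun v (hbin v h5)).grow hst1.grow ?_
      rintro (h7 | h7)
      · exact h6 h7
      · exact hJv _ hface v h7 (hbv v h5)
    · refine (hun v (hJin f hf v hv)).grow hst1.grow ?_
      rintro (h7 | h7)
      · exact hJv f hf v hv (h7 ▸ hbv _ hwv)
      · exact Finset.disjoint_left.1 (h.disj f hf _ hface hne) hv h7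
  have hdone : BDone G {x, y, z} Fs J o1 o2 w (blkBd w e d al be fs) F Γ₁ U₁
      (blkD U Ll Lu I0 I1 Xq J0 J1) := by
    rcases hB.toBlk0.split with h2 | ⟨b, L₁, y', L₂, x', F₁, F₂, e1, e2, e3, e4, e5, e6, e7, e8,
      e9, e10, e11, e12⟩
    · exact blk_done1 hc hB h2 hst1.wd hD₁ hBW' hm1 hm2 hun'
    · exact blk_done2 hc hB e1 e2 e3 e4 e5 e6 e7 e8 e9 e10 e11 e12 hst1.wd hD₁ hBW' hm1 hm2 hun'
  obtain ⟨Γ₂, U₂, hst2, hp2, hf2, hr2⟩ := hdone
  have hwK : w ∉ {v | (v ∈ verts (blkBd w e d al be fs) F ∧ v ≠ w) ∨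
      ∃ f ∈ Fs, f ≠ ({o1, o2, w} : Finset V) ∧ v ∈ J f} := by
    rintro (⟨-, h5⟩ | ⟨f, hf, -, h5⟩)
    · exact h5 rfl
    · exact hJv f hf w h5 (hbv w hwv)
  have hov1 : Ov Γ₂ w o1 ∧ Ov Γ₂ w o2 := by
    rcases ho with ⟨rfl, rfl⟩ | ⟨rfl, rfl⟩
    · exact ⟨hol.mono hst2.grow, hou.mono hst2.grow⟩
    · exact ⟨hou.mono hst2.grow, hol.mono hst2.grow⟩
  refine ⟨Γ₂, U₂, (hst1.weaken le_rfl ?_).trans (hst2.weaken le_rfl ?_), h.filled ?_ ?_ ?_⟩
  · rintro v (h5 | h5)
    · rw [h5]
      exact hbin w hwv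
    · exact hJin _ hface v h5
  · rintro v (⟨h5, -⟩ | ⟨f, hf, -, h5⟩)
    · exact hbin v h5
    · exact hJin f hf v h5
  · intro v hv hvT
    have h5 : v ∈ verts (blkBd w e d al be fs) F := by
      unfold verts at hv
      rcases Finset.mem_union.1 hv with hv | hv
      · exact absurd (by simpa using hv) hvT
      · obtain ⟨f, hf, hvf⟩ := Finset.mem_biUnion.1 hv
        rcases BlkK_verts hB.toBlk0 hf hvf with h6 | h6
        · exact absurd h6 hvT
        · exact h6
    by_cases h6 : v = w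
    · rw [h6, hst2.grow.eq hwK]
      exact hpw
    · exact hp2 v h5 h6
  · intro f hf
    by_cases h5 : f = {o1, o2, w}
    · rw [h5]
      refine hfJ.mono hst2.grow ?_
      rintro v hv (⟨h6, -⟩ | ⟨g, hg, hne, h6⟩)
      · exact hJv _ hface v hv (hbv v h6)
      · exact Finset.disjoint_left.1 (h.disj g hg _ hface hne) h6 hv
    · exact hf2 f hf h5
  · intro f hf p hp r hr hpr
    by_cases h5 : f = {o1, o2, w}
    · rw [h5] at hp hr
      simp only [Finset.mem_insert, Finset.mem_singleton] at hp hr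
      rcases hp with hp | hp | hp
      · rcases hr with hr | hr | hr
        · exact absurd (hp.trans hr.symm) hpr
        · rw [hp, hr]
          exact Or.inl ⟨hT1, hT2⟩
        · rw [hp, hr]
          exact Or.inr hov1.1.symm
      · rcases hr with hr | hr | hr
        · rw [hp, hr]
          exact Or.inl ⟨hT2, hT1⟩
        · exact absurd (hp.trans hr.symm) hpr
        · rw [hp, hr]
          exact Or.inr hov1.2.symm
      · rcases hr with hr | hr | hr
        · rw [hp, hr]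
          exact Or.inr hov1.1
        · rw [hp, hr]
          exact Or.inr hov1.2
        · exact absurd (hp.trans hr.symm) hpr
    · exact hr2 f hf h5 p hp r hr hpr

theorem BlkK_can {G : SimpleGraph V} {x y z : V} {F : Finset (Finset V)}
    {J : Finset V → Finset V} (h : Node G x y z F J) (hc : Ctx G {x, y, z} F J)
    (hT : ({x, y, z} : Finset V) ∉ F) (hk : ¬ IsK4 {x, y, z} F) {ol ou q : V}
    (hE : ({x, y, z} : Finset V) = {ol, ou, q}) {Γ : Dr V} {U : Bool → Finset ℚ}
    {Ll Lu I0 I1 Xq J0 J1 : ℚ} (hw : Wd G Γ U) (hun : ∀ v ∈ inside x y z F J, Undrawn Γ v)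
    (hS : CanSock Γ ol ou q Ll Lu I0 I1 Xq J0 J1) (hL : Ll < Lu) :
    CanFill G Γ U (seg false Ll I0 I1 ⊔ seg false Lu I0 I1 ⊔ seg true Xq J0 J1)
      (inside x y z F J) := by
  rcases blk_or_k4 h.disc hT hc.ns hE with h1 | ⟨w, e, d, al, be, fs, F', hB⟩ |
    ⟨w, e, d, al, be, fs, F', hB⟩
  · exact absurd h1 hk
  · exact BlkK_blk h hc hB (Or.inl ⟨rfl, rfl⟩) hw hun hS hL
  · exact BlkK_blk h hc hB (Or.inr ⟨rfl, rfl⟩) hw hun hS hL

/-- Let `T = {u, v, q}` and the canonical socket be given; let `ol, ou` be the owners of the lower and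
of the upper line. `blk_or_k4` for `ol, ou, q` gives a block with `(o1, o2) = (ol, ou)` or
`(ou, ol)`. `blk_w` (content of `{ol, ou, w}`), `BW.symm` in the second case, `Blk0.split` and `blk_done1`
or `blk_done2`, with `D = blkD U ...` and `Ex = ExT T`; `Node.filled`. (`w` is finished by `blk_w` and not
changed later; the vertices of faces are in `T` or in `verts bd F`.) -/
theorem Node.canR {G : SimpleGraph V} {x y z : V} {F : Finset (Finset V)}
    {J : Finset V → Finset V} (h : Node G x y z F J) (hc : Ctx G {x, y, z} F J)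
    (hT : ({x, y, z} : Finset V) ∉ F) (hk : ¬ IsK4 {x, y, z} F) :
    CanR G {x, y, z} (inside x y z F J) := by
  intro Γ U u v q Yu Yv I0 I1 X J0 J1 hE hw hun hS
  rcases lt_or_gt_of_ne hS.ne with h1 | h1
  · exact BlkK_can h hc hT hk hE hw hun hS h1
  · have hE' : ({x, y, z} : Finset V) = {v, u, q} := by
      rw [hE]
      exact Finset.insert_comm _ _ _
    have hS' : CanSock Γ v u q Yv Yu I0 I1 X J0 J1 :=
      ⟨hS.hI, hS.hJ, hS.hv, hS.hu, hS.hx, hS.ne.symm, hS.XI, hS.vJ, hS.uJ⟩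
    have h2 := BlkK_can h hc hT hk hE' hw hun hS' h1
    rw [sup_comm (seg false Yu I0 I1)]
    exact h2

/-- Strong induction on `J.card`: `FillT.empty`, `Fat.skeleton`, `Node.ctx`, `Node.canC`, `Node.canK4`,
`Node.canR`, `FillT.of_can`, `FillT.of_canR`. -/
theorem fat_fill {G : SimpleGraph V} {T J : Finset V} (h : Fat G T J) : FillT G T J := by
  obtain ⟨n, hn⟩ : ∃ n, n = J.card := ⟨_, rfl⟩
  induction n using Nat.strong_induction_on generalizing T J with
  | _ n ih =>
    rcases J.eq_empty_or_nonempty with h0 | h0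
    · rw [h0]
      exact FillT.empty G T
    · obtain ⟨x, y, z, F, J', e1, hN, hF, e2, hlt, hTF, hns⟩ := Fat.skeleton h h0
      rw [e1] at hTF hns ⊢
      have hfill : ∀ f ∈ F, FillT G f (J' f) := fun f hf =>
        ih (J' f).card (hn ▸ hlt f hf) (hF f hf) rfl
      have hc := hN.ctx hns hfill
      have hC := hN.canC hc
      rw [e2]
      by_cases hk : IsK4 {x, y, z} F
      · have h1 := hN.canK4 hc hk
        exact FillT.of_can hC h1.1 h1.2
      · exact FillT.of_canR hC (hN.canR hc hTF hk)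

/-- Every planar graph has an EPG representation with at most three bends per path. -/
theorem planar_bend3 {V : Type*} [Fintype V] (G : SimpleGraph V) (hG : Planar G) :
    IsKBend G 3 :=
  planar_of_fill hG fun (_ : Type) _ _ _ _ hf => fat_fill hf

end EPG26
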