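import Pool.Agent.W_26e041_h61.DiscD

namespace EPG26

variable {V : Type*} [DecidableEq V]

theorem DiscE_mem {l : List V} {F : Finset (Finset V)} {w : V} :
    w ∈ verts l F ↔ w ∈ l ∨ ∃ f ∈ F, w ∈ f := by
  simp [verts]

theorem DiscE_tri {x y z w : V} : w ∈ ({x, y, z} : Finset V) ↔ w = x ∨ w = y ∨ w = z := by
  simp

theorem DiscE_l1 {s : List V} {v t w : V} (h : w ∈ t :: v :: s) : w ∈ v :: (s ++ [t]) := by
  simp only [List.mem_cons, List.mem_append, List.not_mem_nil, or_false] at h ⊢
  tauto

theorem DiscE_l2 {p m : List V} {u v t w : V} (h : w ∈ p ++ [u, t]) :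
    w ∈ p ++ u :: (m ++ [v, t]) := by
  simp only [List.mem_cons, List.mem_append, List.not_mem_nil, or_false] at h ⊢
  tauto

theorem DiscE_l3 {p s : List V} {u v x t w : V} (h : w ∈ p ++ u :: x :: v :: s) :
    w ∈ p ++ u :: x :: v :: (s ++ [t]) := by
  simp only [List.mem_cons, List.mem_append] at h ⊢
  tauto

theorem DiscE_l4 {p m s r : List V} {u v w : V} (h : w ∈ p ++ u :: (m ++ v :: s)) :
    w ∈ p ++ u :: (m ++ v :: (s ++ r)) := by
  simp only [List.mem_cons, List.mem_append] at h ⊢
  tauto

theorem DiscE_l5 {p m s : List V} {u v x w : V} (h : w ∈ p ++ u :: x :: v :: s) (hx : w ≠ x) :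
    w ∈ p ++ u :: (m ++ v :: s) := by
  simp only [List.mem_cons, List.mem_append] at h ⊢
  tauto

theorem DiscE_l6 {p m s : List V} {u v x w : V} (h : w ∈ u :: (m ++ [v, x])) (hx : w ≠ x) :
    w ∈ p ++ u :: (m ++ v :: s) := by
  simp only [List.mem_cons, List.mem_append, List.not_mem_nil, or_false] at h ⊢
  tauto

theorem DiscE_l7 {m : List V} {a t w : V} (h : w ∈ a :: m) : w ∈ a :: (m ++ [t]) := by
  simp only [List.mem_cons, List.mem_append] at h ⊢
  tauto

theorem DiscE_l8 {p q m s : List V} {u v w : V} (h : w ∈ p ++ u :: (m ++ v :: s)) :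
    w ∈ (q ++ p) ++ u :: (m ++ v :: s) := by
  simp only [List.mem_cons, List.mem_append] at h ⊢
  tauto

theorem DiscE_s1 {f : Finset V} {A B C : Finset (Finset V)} :
    insert f (A ∪ (B ∪ C)) = B ∪ insert f (C ∪ A) := by
  ext g
  simp only [Finset.mem_insert, Finset.mem_union]
  tauto

theorem DiscE_s2 {f : Finset V} {A B : Finset (Finset V)} :
    insert f (A ∪ B) = A ∪ insert f B := by
  ext g
  simp only [Finset.mem_insert, Finset.mem_union]
  tauto

theorem DiscE_s3 {f : Finset V} {A B C : Finset (Finset V)} :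
    insert f ((A ∪ B) ∪ C) = A ∪ insert f (B ∪ C) := by
  ext g
  simp only [Finset.mem_insert, Finset.mem_union]
  tauto

theorem DiscE_s4 {f : Finset V} {A B C : Finset (Finset V)} :
    insert f (C ∪ (A ∪ B)) = A ∪ insert f (C ∪ B) := by
  ext g
  simp only [Finset.mem_insert, Finset.mem_union]
  tauto

theorem DiscE_main (n : ℕ) : ∀ {p m s : List V} {u v x : V} {F : Finset (Finset V)},
    F.card = n → Disc (p ++ u :: (m ++ v :: s)) F → x ∉ p ++ u :: (m ++ v :: s) →
    AdjF F u x → AdjF F v x →
    ∃ F₁ F₂ : Finset (Finset V), F = F₁ ∪ F₂ ∧ Disjoint F₁ F₂ ∧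
      Disc (u :: (m ++ [v, x])) F₁ ∧ Disc (p ++ u :: x :: v :: s) F₂ ∧
      ∀ w, w ∈ verts (u :: (m ++ [v, x])) F₁ → w ∈ verts (p ++ u :: x :: v :: s) F₂ →
        w = u ∨ w = v ∨ w = x := by
  induction n using Nat.strong_induction_on with
  | _ n ih =>
  intro p m s u v x F hn h hx hu hv
  have hnd := h.nodup
  obtain ⟨x0, p0, hA⟩ : ∃ x0 p0, p ++ [u] = x0 :: p0 := by
    cases p with
    | nil => exact ⟨u, [], rfl⟩
    | cons a p' => exact ⟨a, p' ++ [u], rfl⟩
  obtain ⟨xn, s0, hB⟩ : ∃ xn s0, v :: s = s0 ++ [xn] :=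
    ⟨(v :: s).getLast (by simp), (v :: s).dropLast, (List.dropLast_append_getLast _).symm⟩
  have E1 : ∀ r, p ++ u :: r = x0 :: (p0 ++ r) := fun r => by
    have := congrArg (· ++ r) hA
    simpa using this
  have E2 : ∀ r, v :: (s ++ r) = s0 ++ xn :: r := fun r => by
    have := congrArg (· ++ r) hB
    simpa using this
  have hl : p ++ u :: (m ++ v :: s) = x0 :: ((p0 ++ m ++ s0) ++ [xn]) := by
    rw [E1, hB]; simp
  have hm' : p0 ++ m ++ s0 ≠ [] := by
    intro h0
    rw [hl, h0] at h
    have h1 : F = ∅ := Disc.empty_of_two (by simpa using h)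
    obtain ⟨_, f, hf, _⟩ := hu
    rw [h1] at hf
    simp at hf
  -- nodup facts
  have hnd' := hnd
  rw [List.nodup_append] at hnd'
  obtain ⟨hndp, hnds, hdj⟩ := hnd'
  rw [List.nodup_cons, List.nodup_append, List.nodup_cons] at hnds
  obtain ⟨hu1, _, ⟨hv1, _⟩, hmv⟩ := hnds
  have huv : u ≠ v := fun h0 => hu1 (by rw [h0]; simp)
  have hus : u ∉ v :: s := fun h0 => hu1 (List.mem_append_right _ h0)
  have hup : u ∉ p := fun h0 => hdj u h0 u (by simp) rfl
  have hvp : v ∉ p := fun h0 => hdj v h0 v (by simp) rfl
  have hux : u ≠ x := hu.1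
  have hvx : v ≠ x := hv.1
  have hxnmem : xn ∈ v :: s := by rw [hB]; simp
  have hx0mem : x0 ∈ p ++ [u] := by rw [hA]; simp
  have huxn : u ≠ xn := fun h0 => hus (h0 ▸ hxnmem)
  have hvx0 : v ≠ x0 := fun h0 => by
    rw [← h0] at hx0mem
    rcases List.mem_append.1 hx0mem with h1 | h1
    · exact hvp h1
    · exact huv (List.mem_singleton.1 h1).symm
  have hx0l : x0 ∈ p ++ u :: (m ++ v :: s) := by rw [hl]; simp
  have hxnl : xn ∈ p ++ u :: (m ++ v :: s) := by rw [hl]; simp
  have hxx0 : x ≠ x0 := fun h0 => hx (h0 ▸ hx0l)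
  have hxxn : x ≠ xn := fun h0 => hx (h0 ▸ hxnl)
  have e2 : p ++ u :: x :: v :: s = x0 :: ((p0 ++ x :: s0) ++ [xn]) := by
    rw [E1, hB]; simp
  have h' := h
  rw [hl] at h'
  obtain ⟨t, F', hf0, hF, hcase⟩ := h'.peel hm'
  have hcard : F'.card < n := by
    rw [← hn, hF, Finset.card_insert_of_notMem hf0]
    exact Nat.lt_succ_self _
  rcases hcase with ⟨htl, hD, hnadj⟩ | ⟨m₁, m₂, F₁, F₂, hmm, hF', hdisj, hd1, hd2, hsh⟩
  · by_cases htx : t = x
    · -- the apex is `x`
      subst htx
      have hD2 : Disc (p ++ u :: (m ++ v :: (s ++ [t]))) F' := by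
        have e : p ++ u :: (m ++ v :: (s ++ [t])) = x0 :: ((p0 ++ m ++ s0) ++ [xn, t]) := by
          rw [E1, E2]; simp
        rw [e]; exact hD
      -- cut at `v, x`
      obtain ⟨G₁, G₂, hG, hGd, hG1, hG2, hGs⟩ : ∃ G₁ G₂ : Finset (Finset V), F' = G₁ ∪ G₂ ∧
          Disjoint G₁ G₂ ∧ Disc (t :: v :: s) G₁ ∧ Disc (p ++ u :: (m ++ [v, t])) G₂ ∧
          ∀ w, w ∈ verts (t :: v :: s) G₁ → w ∈ verts (p ++ u :: (m ++ [v, t])) G₂ →
            w = v ∨ w = t := by
        by_cases hs : s = []
        · subst hs
          refine ⟨∅, F', by simp, by simp, Disc.edge hvx.symm, by simpa using hD2, ?_⟩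
          intro w hw _
          rw [DiscE_mem] at hw
          rcases hw with hw | ⟨f, hf, _⟩
          · simp at hw
            rcases hw with hw | hw
            · exact Or.inr hw
            · exact Or.inl hw
          · simp at hf
        · have hvxn : v ≠ xn := by
            intro h0
            obtain ⟨s', b, hs'⟩ : ∃ s' b, s = s' ++ [b] :=
              ⟨s.dropLast, s.getLast hs, (List.dropLast_append_getLast hs).symm⟩
            have h1 : (v :: s') ++ [b] = s0 ++ [xn] := by rw [← hB, hs']; rfl
            have h2 := List.append_inj_right' h1 rfl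
            simp at h2
            apply hv1
            rw [hs', h0, ← h2]
            simp
          have hadj : AdjF F' v t := by
            obtain ⟨_, f, hf, h1, h2⟩ := hv
            rw [hF, Finset.mem_insert] at hf
            rcases hf with hf | hf
            · rw [hf, DiscE_tri] at h1
              rcases h1 with h1 | h1 | h1
              · exact absurd h1 hvx0
              · exact absurd h1 hvxn
              · exact absurd h1 hvx
            · exact ⟨hvx, f, hf, h1, h2⟩
          have hD3 : Disc ((p ++ u :: m) ++ v :: (s ++ t :: [])) F' := by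
            have e : (p ++ u :: m) ++ v :: (s ++ t :: []) = p ++ u :: (m ++ v :: (s ++ [t])) := by
              simp
            rw [e]; exact hD2
          obtain ⟨G₁, G₂, hG, hGd, hG1, hG2, hGs⟩ := hD3.chord hs (Or.inl (by simp)) hadj
          have e3 : (p ++ u :: m) ++ v :: t :: [] = p ++ u :: (m ++ [v, t]) := by simp
          rw [e3] at hG2 hGs
          refine ⟨G₁, G₂, hG, hGd, ?_, hG2, ?_⟩
          · have h3 : Disc ((v :: s) ++ [t]) G₁ := by simpa using hG1
            exact h3.append_comm
          · intro w hw hw2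
            refine hGs w ?_ hw2
            rw [DiscE_mem] at hw ⊢
            rcases hw with hw | hw
            · exact Or.inl (DiscE_l1 hw)
            · exact Or.inr hw
      -- cut at `u, x`
      obtain ⟨H₁, H₂, hH, hHd, hH1, hH2, hHs⟩ : ∃ H₁ H₂ : Finset (Finset V), G₂ = H₁ ∪ H₂ ∧
          Disjoint H₁ H₂ ∧ Disc (u :: (m ++ [v, t])) H₁ ∧ Disc (p ++ [u, t]) H₂ ∧
          ∀ w, w ∈ verts (u :: (m ++ [v, t])) H₁ → w ∈ verts (p ++ [u, t]) H₂ →
            w = u ∨ w = t := by
        by_cases hp : p = []
        · subst hp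
          refine ⟨G₂, ∅, by simp, by simp, by simpa using hG2, Disc.edge hux, ?_⟩
          intro w _ hw
          rw [DiscE_mem] at hw
          rcases hw with hw | ⟨f, hf, _⟩
          · simpa using hw
          · simp at hf
        · have hux0 : u ≠ x0 := by
            intro h0
            cases p with
            | nil => exact hp rfl
            | cons a p' =>
              have h1 : a = x0 := by
                have := hA
                simp only [List.cons_append, List.cons.injEq] at this
                exact this.1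
              apply hup
              rw [h0, ← h1]
              simp
          have hadj : AdjF G₂ u t := by
            obtain ⟨_, f, hf, h1, h2⟩ := hu
            rw [hF, Finset.mem_insert] at hf
            rcases hf with hf | hf
            · rw [hf, DiscE_tri] at h1
              rcases h1 with h1 | h1 | h1
              · exact absurd h1 hux0
              · exact absurd h1 huxn
              · exact absurd h1 hux
            · rw [hG, Finset.mem_union] at hf
              rcases hf with hf | hf
              · exfalso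
                rcases hGs u (DiscE_mem.2 (Or.inr ⟨f, hf, h1⟩)) (DiscE_mem.2 (Or.inl (by simp)))
                  with h3 | h3
                · exact huv h3
                · exact hux h3
              · exact ⟨hux, f, hf, h1, h2⟩
          have hD3 : Disc (p ++ u :: ((m ++ [v]) ++ t :: [])) G₂ := by
            have e : p ++ u :: ((m ++ [v]) ++ t :: []) = p ++ u :: (m ++ [v, t]) := by simp
            rw [e]; exact hG2
          obtain ⟨H₁, H₂, hH, hHd, hH1, hH2, hHs⟩ := hD3.chord (by simp) (Or.inl hp) hadj
          have e3 : u :: ((m ++ [v]) ++ [t]) = u :: (m ++ [v, t]) := by simp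
          rw [e3] at hH1 hHs
          exact ⟨H₁, H₂, hH, hHd, hH1, hH2, hHs⟩
      have eH2 : p ++ [u, t] = x0 :: (p0 ++ [t]) := E1 [t]
      have eG1 : t :: v :: s = t :: (s0 ++ [xn]) := by rw [hB]
      have hvH2 : v ∉ verts (p ++ [u, t]) H₂ := by
        intro h0
        rcases hHs v (DiscE_mem.2 (Or.inl (by simp))) h0 with h3 | h3
        · exact huv h3.symm
        · exact hvx h3
      -- the second part is contained in the disc before the cut at `u, x`
      have hsub2 : ∀ w, w ∈ verts (p ++ [u, t]) H₂ → w ∈ verts (p ++ u :: (m ++ [v, t])) G₂ := by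
        intro w hw
        rw [DiscE_mem] at hw ⊢
        rcases hw with hw | ⟨f, hf, hw⟩
        · exact Or.inl (DiscE_l2 hw)
        · exact Or.inr ⟨f, by rw [hH]; exact Finset.mem_union_right _ hf, hw⟩
      have hsub1 : ∀ w, w ∈ verts (u :: (m ++ [v, t])) H₁ →
          w ∈ verts (p ++ u :: (m ++ [v, t])) G₂ := by
        intro w hw
        rw [DiscE_mem] at hw ⊢
        rcases hw with hw | ⟨f, hf, hw⟩
        · left
          exact List.mem_append_right _ hw
        · exact Or.inr ⟨f, by rw [hH]; exact Finset.mem_union_left _ hf, hw⟩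
      have hdis : ∀ w, w ∈ verts (x0 :: (p0 ++ [t])) H₂ → w ∈ verts (t :: (s0 ++ [xn])) G₁ →
          w = t := by
        intro w hw hw2
        rw [← eH2] at hw
        rw [← eG1] at hw2
        rcases hGs w hw2 (hsub2 w hw) with h3 | h3
        · rw [h3] at hw
          exact absurd hw hvH2
        · exact h3
      have hS := Disc.split (eH2 ▸ hH2) (eG1 ▸ hG1) hdis
      refine ⟨H₁, insert {x0, xn, t} (H₂ ∪ G₁), ?_, ?_, hH1, ?_, ?_⟩
      · rw [hF, hG, hH]
        exact DiscE_s1
      · rw [Finset.disjoint_insert_right]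
        refine ⟨fun h0 => hf0 ?_, ?_⟩
        · rw [hG, hH]
          exact Finset.mem_union_right _ (Finset.mem_union_left _ h0)
        · rw [Finset.disjoint_union_right]
          refine ⟨hHd, ?_⟩
          rw [hH] at hGd
          exact (hGd.mono_right Finset.subset_union_left).symm
      · have e3 : p ++ u :: t :: v :: s = x0 :: (p0 ++ t :: (s0 ++ [xn])) := by
          rw [E1, hB]
        rw [e3]
        exact hS
      · intro w hw hw2
        have hw2' : w ∈ verts (p ++ [u, t]) H₂ ∨ w ∈ verts (t :: v :: s) G₁ := by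
          rw [DiscE_mem] at hw2
          rcases hw2 with hw2 | ⟨f, hf, hw2⟩
          · simp only [List.mem_cons, List.mem_append] at hw2
            rcases hw2 with hw2 | hw2 | hw2 | hw2 | hw2
            · exact Or.inl (DiscE_mem.2 (Or.inl (List.mem_append_left _ hw2)))
            · exact Or.inl (DiscE_mem.2 (Or.inl (by rw [hw2]; simp)))
            · exact Or.inl (DiscE_mem.2 (Or.inl (by rw [hw2]; simp)))
            · exact Or.inr (DiscE_mem.2 (Or.inl (by rw [hw2]; simp)))
            · exact Or.inr (DiscE_mem.2 (Or.inl (by simp [hw2])))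
          · rw [Finset.mem_insert, Finset.mem_union] at hf
            rcases hf with hf | hf | hf
            · rw [hf, DiscE_tri] at hw2
              rcases hw2 with hw2 | hw2 | hw2
              · left
                rw [DiscE_mem]
                left
                rw [hw2, eH2]
                simp
              · right
                rw [DiscE_mem]
                left
                rw [hw2, eG1]
                simp
              · left
                rw [DiscE_mem]
                left
                rw [hw2]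
                simp
            · exact Or.inl (DiscE_mem.2 (Or.inr ⟨f, hf, hw2⟩))
            · exact Or.inr (DiscE_mem.2 (Or.inr ⟨f, hf, hw2⟩))
        rcases hw2' with hw2 | hw2
        · rcases hHs w hw hw2 with h3 | h3
          · exact Or.inl h3
          · exact Or.inr (Or.inr h3)
        · exact Or.inr (hGs w hw2 (hsub1 w hw))
    · -- the apex is a new vertex different from `x`
      have hxf0 : x ∉ ({x0, xn, t} : Finset V) := by
        rw [DiscE_tri]
        rintro (h0 | h0 | h0)
        · exact hxx0 h0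
        · exact hxxn h0
        · exact htx h0.symm
      have hadj : ∀ y, AdjF F y x → AdjF F' y x := by
        rintro y ⟨hne, f, hf, h1, h2⟩
        rw [hF, Finset.mem_insert] at hf
        rcases hf with hf | hf
        · exact absurd (hf ▸ h2) hxf0
        · exact ⟨hne, f, hf, h1, h2⟩
      have e : p ++ u :: (m ++ v :: (s ++ [t])) = x0 :: ((p0 ++ m ++ s0) ++ [xn, t]) := by
        rw [E1, E2]; simp
      have e3 : p ++ u :: x :: v :: (s ++ [t]) = x0 :: ((p0 ++ x :: s0) ++ [xn, t]) := by
        rw [E1, E2]; simp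
      have hx' : x ∉ p ++ u :: (m ++ v :: (s ++ [t])) := by
        intro h0
        have h1 : p ++ u :: (m ++ v :: (s ++ [t])) = (p ++ u :: (m ++ v :: s)) ++ [t] := by simp
        rw [h1, List.mem_append] at h0
        rcases h0 with h0 | h0
        · exact hx h0
        · exact htx (List.mem_singleton.1 h0).symm
      obtain ⟨G₁, G₂, hG, hGd, hG1, hG2, hGs⟩ := ih F'.card hcard rfl (e ▸ hD) hx' (hadj u hu)
        (hadj v hv)
      have hI := Disc.inner (e3 ▸ hG2) (by simp) (fun h0 : AdjF G₂ x0 xn => hnadj (by
        obtain ⟨hne, f, hf, h1, h2⟩ := h0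
        exact ⟨hne, f, by rw [hG]; exact Finset.mem_union_right _ hf, h1, h2⟩))
      refine ⟨G₁, insert {x0, xn, t} G₂, ?_, ?_, hG1, e2 ▸ hI, ?_⟩
      · rw [hF, hG]
        exact DiscE_s2
      · rw [Finset.disjoint_insert_right]
        exact ⟨fun h0 => hf0 (by rw [hG]; exact Finset.mem_union_left _ h0), hGd⟩
      · intro w hw hw2
        refine hGs w hw ?_
        rw [DiscE_mem] at hw2 ⊢
        rcases hw2 with hw2 | ⟨f, hf, hw2⟩
        · exact Or.inl (DiscE_l3 hw2)
        · rw [Finset.mem_insert] at hf
          rcases hf with hf | hf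
          · left
            rw [hf, DiscE_tri] at hw2
            rw [e3]
            rcases hw2 with hw2 | hw2 | hw2
            · simp [hw2]
            · simp [hw2]
            · simp [hw2]
          · exact Or.inr ⟨f, hf, hw2⟩
  · -- the apex is a boundary vertex
    have hl2 : p ++ u :: (m ++ v :: s) = (x0 :: (m₁ ++ [t])) ++ (m₂ ++ [xn]) := by
      rw [hl, hmm]; simp
    have hl3 : p ++ u :: (m ++ v :: s) = (x0 :: m₁) ++ (t :: (m₂ ++ [xn])) := by
      rw [hl, hmm]; simp
    have htl : t ∈ p ++ u :: (m ++ v :: s) := by rw [hl2]; simp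
    have hxt : x ≠ t := fun h0 => hx (h0 ▸ htl)
    have hxf0 : x ∉ ({x0, xn, t} : Finset V) := by
      rw [DiscE_tri]
      rintro (h0 | h0 | h0)
      · exact hxx0 h0
      · exact hxxn h0
      · exact hxt h0
    have hface : ∀ y, AdjF F y x → ∃ f, (f ∈ F₁ ∨ f ∈ F₂) ∧ y ∈ f ∧ x ∈ f := by
      rintro y ⟨hne, f, hf, h1, h2⟩
      rw [hF, Finset.mem_insert] at hf
      rcases hf with hf | hf
      · exact absurd (hf ▸ h2) hxf0
      · rw [hF', Finset.mem_union] at hf
        exact ⟨f, hf, h1, h2⟩
    obtain ⟨fu, hfu, hfu1, hfu2⟩ := hface u hu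
    obtain ⟨fv, hfv, hfv1, hfv2⟩ := hface v hv
    have hF1F : F₁ ⊆ F' := by rw [hF']; exact Finset.subset_union_left
    have hF2F : F₂ ⊆ F' := by rw [hF']; exact Finset.subset_union_right
    by_cases hx1 : x ∈ verts (x0 :: (m₁ ++ [t])) F₁
    · -- `x` in the first part
      have hx2 : x ∉ verts (t :: (m₂ ++ [xn])) F₂ := fun h0 => hxt (hsh x hx1 h0)
      have hfu' : fu ∈ F₁ := by
        rcases hfu with h0 | h0
        · exact h0
        · exact absurd (DiscE_mem.2 (Or.inr ⟨fu, h0, hfu2⟩)) hx2
      have hfv' : fv ∈ F₁ := by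
        rcases hfv with h0 | h0
        · exact h0
        · exact absurd (DiscE_mem.2 (Or.inr ⟨fv, h0, hfv2⟩)) hx2
      have hv1' : v ∈ x0 :: (m₁ ++ [t]) := by
        have h0 : v ∈ p ++ u :: (m ++ v :: s) := by simp
        rw [hl2, List.mem_append] at h0
        rcases h0 with h0 | h0
        · exact h0
        · have h1 := hsh v (DiscE_mem.2 (Or.inr ⟨fv, hfv', hfv1⟩))
            (DiscE_mem.2 (Or.inl (List.mem_cons_of_mem _ h0)))
          rw [h1]; simp
      have hnd2 := hnd
      rw [hl2, List.nodup_append] at hnd2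
      have hv2' : v ∉ m₂ ++ [xn] := fun h0 => hnd2.2.2 v hv1' v h0 rfl
      obtain ⟨s₁, hs₁, hs₁'⟩ : ∃ s₁, x0 :: (m₁ ++ [t]) = p ++ u :: (m ++ v :: s₁) ∧
          s = s₁ ++ (m₂ ++ [xn]) := by
        have h0 : (x0 :: (m₁ ++ [t])) ++ (m₂ ++ [xn]) = (p ++ u :: m) ++ (v :: s) := by
          rw [← hl2]; simp
        rcases List.append_eq_append_iff.1 h0 with ⟨c, h1, h2⟩ | ⟨c, h1, h2⟩
        · exact absurd (by rw [h2]; simp) hv2'
        · cases c with
          | nil =>
            rw [List.nil_append] at h2
            exact absurd (by rw [← h2]; simp) hv2'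
          | cons a c' =>
            rw [List.cons_append, List.cons.injEq] at h2
            obtain ⟨h3, h4⟩ := h2
            subst h3
            refine ⟨c', ?_, h4⟩
            rw [h1]; simp
      have hd1' := hd1
      rw [hs₁] at hd1'
      have hx' : x ∉ p ++ u :: (m ++ v :: s₁) := by
        intro h0
        apply hx
        rw [hs₁']
        exact DiscE_l4 h0
      have hcard1 : F₁.card < n := lt_of_le_of_lt (Finset.card_le_card hF1F) hcard
      obtain ⟨G₁, G₂, hG, hGd, hG1, hG2, hGs⟩ := ih F₁.card hcard1 rfl hd1' hx'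
        ⟨hux, fu, hfu', hfu1, hfu2⟩ ⟨hvx, fv, hfv', hfv1, hfv2⟩
      -- ends of `v :: s₁`
      obtain ⟨s₂, hs₂⟩ : ∃ s₂, v :: s₁ = s₂ ++ [t] := by
        have h0 : (p ++ u :: m) ++ (v :: s₁) = (x0 :: m₁) ++ [t] := by
          have : (x0 :: m₁) ++ [t] = x0 :: (m₁ ++ [t]) := rfl
          rw [this, hs₁]; simp
        obtain ⟨z, s₂, hz⟩ : ∃ z s₂, v :: s₁ = s₂ ++ [z] :=
          ⟨(v :: s₁).getLast (by simp), (v :: s₁).dropLast,
            (List.dropLast_append_getLast _).symm⟩
        rw [hz, ← List.append_assoc] at h0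
        have h1 := List.append_inj_right' h0 rfl
        simp only [List.cons.injEq, and_true] at h1
        exact ⟨s₂, by rw [hz, h1]⟩
      have e4 : p ++ u :: x :: v :: s₁ = x0 :: ((p0 ++ x :: s₂) ++ [t]) := by
        rw [E1, hs₂]; simp
      have hsubG : ∀ w, w ∈ verts (p ++ u :: x :: v :: s₁) G₂ →
          w ∈ verts (x0 :: (m₁ ++ [t])) F₁ := by
        intro w hw
        rw [DiscE_mem] at hw
        rcases hw with hw | ⟨f, hf, hw⟩
        · by_cases hwx : w = x
          · rw [hwx]; exact hx1
          · rw [DiscE_mem, hs₁]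
            exact Or.inl (DiscE_l5 hw hwx)
        · exact DiscE_mem.2 (Or.inr ⟨f, by rw [hG]; exact Finset.mem_union_right _ hf, hw⟩)
      have hsubG1 : ∀ w, w ∈ verts (u :: (m ++ [v, x])) G₁ →
          w ∈ verts (x0 :: (m₁ ++ [t])) F₁ := by
        intro w hw
        rw [DiscE_mem] at hw
        rcases hw with hw | ⟨f, hf, hw⟩
        · by_cases hwx : w = x
          · rw [hwx]; exact hx1
          · rw [DiscE_mem, hs₁]
            exact Or.inl (DiscE_l6 hw hwx)
        · exact DiscE_mem.2 (Or.inr ⟨f, by rw [hG]; exact Finset.mem_union_left _ hf, hw⟩)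
      have hS := Disc.split (e4 ▸ hG2) hd2 (by
        intro w hw hw2
        rw [← e4] at hw
        exact hsh w (hsubG w hw) hw2)
      refine ⟨G₁, insert {x0, xn, t} (G₂ ∪ F₂), ?_, ?_, hG1, ?_, ?_⟩
      · rw [hF, hF', hG]
        exact DiscE_s3
      · rw [Finset.disjoint_insert_right]
        refine ⟨fun h0 => hf0 (hF1F (by rw [hG]; exact Finset.mem_union_left _ h0)), ?_⟩
        rw [Finset.disjoint_union_right]
        refine ⟨hGd, ?_⟩
        rw [hG] at hdisj
        exact hdisj.mono_left Finset.subset_union_left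
      · have e5 : p ++ u :: x :: v :: s =
            x0 :: ((p0 ++ x :: s₂) ++ t :: (m₂ ++ [xn])) := by
          have h0 : v :: s = s₂ ++ t :: (m₂ ++ [xn]) := by
            have := congrArg (· ++ (m₂ ++ [xn])) hs₂
            rw [hs₁']
            simpa using this
          rw [E1, h0]; simp
        rw [e5]
        exact hS
      · intro w hw hw2
        have hw2' : w ∈ verts (p ++ u :: x :: v :: s₁) G₂ ∨
            w ∈ verts (t :: (m₂ ++ [xn])) F₂ := by
          rw [DiscE_mem] at hw2
          rcases hw2 with hw2 | ⟨f, hf, hw2⟩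
          · rw [hs₁'] at hw2
            have h0 : w ∈ (p ++ u :: x :: v :: s₁) ++ (m₂ ++ [xn]) := by
              simpa using hw2
            rcases List.mem_append.1 h0 with h0 | h0
            · exact Or.inl (DiscE_mem.2 (Or.inl h0))
            · exact Or.inr (DiscE_mem.2 (Or.inl (List.mem_cons_of_mem _ h0)))
          · rw [Finset.mem_insert, Finset.mem_union] at hf
            rcases hf with hf | hf | hf
            · rw [hf, DiscE_tri] at hw2
              rcases hw2 with hw2 | hw2 | hw2
              · left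
                rw [DiscE_mem, e4, hw2]
                left
                simp
              · right
                rw [DiscE_mem, hw2]
                left
                simp
              · right
                rw [DiscE_mem, hw2]
                left
                simp
            · exact Or.inl (DiscE_mem.2 (Or.inr ⟨f, hf, hw2⟩))
            · exact Or.inr (DiscE_mem.2 (Or.inr ⟨f, hf, hw2⟩))
        rcases hw2' with hw2 | hw2
        · exact hGs w hw hw2
        · have h0 := hsh w (hsubG1 w hw) hw2
          refine hGs w hw ?_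
          rw [DiscE_mem, e4, h0]
          left
          simp
    · -- `x` in the second part
      have hfu' : fu ∈ F₂ := by
        rcases hfu with h0 | h0
        · exact absurd (DiscE_mem.2 (Or.inr ⟨fu, h0, hfu2⟩)) hx1
        · exact h0
      have hfv' : fv ∈ F₂ := by
        rcases hfv with h0 | h0
        · exact absurd (DiscE_mem.2 (Or.inr ⟨fv, h0, hfv2⟩)) hx1
        · exact h0
      have hx2 : x ∈ verts (t :: (m₂ ++ [xn])) F₂ := DiscE_mem.2 (Or.inr ⟨fu, hfu', hfu2⟩)
      have hu2' : u ∈ t :: (m₂ ++ [xn]) := by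
        have h0 : u ∈ p ++ u :: (m ++ v :: s) := by simp
        rw [hl3, List.mem_append] at h0
        rcases h0 with h0 | h0
        · have h1 := hsh u (DiscE_mem.2 (Or.inl (DiscE_l7 h0)))
            (DiscE_mem.2 (Or.inr ⟨fu, hfu', hfu1⟩))
          rw [h1]; simp
        · exact h0
      have hnd2 := hnd
      rw [hl3, List.nodup_append] at hnd2
      have hu1' : u ∉ x0 :: m₁ := fun h0 => hnd2.2.2 u h0 u hu2' rfl
      obtain ⟨p₁, hp₁, hp₁'⟩ : ∃ p₁, t :: (m₂ ++ [xn]) = p₁ ++ u :: (m ++ v :: s) ∧
          p = (x0 :: m₁) ++ p₁ := by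
        have h0 : (x0 :: m₁) ++ (t :: (m₂ ++ [xn])) = p ++ (u :: (m ++ v :: s)) := by
          rw [← hl3]
        rcases List.append_eq_append_iff.1 h0 with ⟨c, h1, h2⟩ | ⟨c, h1, h2⟩
        · exact ⟨c, h2, h1⟩
        · cases c with
          | nil =>
            rw [List.nil_append] at h2
            rw [List.append_nil] at h1
            exact ⟨[], by rw [← h2]; simp, by rw [List.append_nil, h1]⟩
          | cons a c' =>
            rw [List.cons_append, List.cons.injEq] at h2
            exact absurd (by rw [h1, h2.1]; simp) hu1'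
      have hd2' := hd2
      rw [hp₁] at hd2'
      have hx' : x ∉ p₁ ++ u :: (m ++ v :: s) := by
        intro h0
        apply hx
        rw [hp₁']
        exact DiscE_l8 h0
      have hcard2 : F₂.card < n := lt_of_le_of_lt (Finset.card_le_card hF2F) hcard
      obtain ⟨G₁, G₂, hG, hGd, hG1, hG2, hGs⟩ := ih F₂.card hcard2 rfl hd2' hx'
        ⟨hux, fu, hfu', hfu1, hfu2⟩ ⟨hvx, fv, hfv', hfv1, hfv2⟩
      obtain ⟨p₂, hp₂⟩ : ∃ p₂, p₁ ++ [u] = t :: p₂ := by
        cases p₁ with
        | nil =>
          have h1 := hp₁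
          simp only [List.nil_append, List.cons.injEq] at h1
          exact ⟨[], by rw [h1.1]; rfl⟩
        | cons a p' =>
          have h1 := hp₁
          simp only [List.cons_append, List.cons.injEq] at h1
          exact ⟨p' ++ [u], by rw [h1.1]; rfl⟩
      have E3 : ∀ r, p₁ ++ u :: r = t :: (p₂ ++ r) := fun r => by
        have := congrArg (· ++ r) hp₂
        simpa using this
      have e4 : p₁ ++ u :: x :: v :: s = t :: ((p₂ ++ x :: s0) ++ [xn]) := by
        rw [E3, hB]; simp
      have hsubG : ∀ w, w ∈ verts (p₁ ++ u :: x :: v :: s) G₂ →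
          w ∈ verts (t :: (m₂ ++ [xn])) F₂ := by
        intro w hw
        rw [DiscE_mem] at hw
        rcases hw with hw | ⟨f, hf, hw⟩
        · by_cases hwx : w = x
          · rw [hwx]; exact hx2
          · rw [DiscE_mem, hp₁]
            exact Or.inl (DiscE_l5 hw hwx)
        · exact DiscE_mem.2 (Or.inr ⟨f, by rw [hG]; exact Finset.mem_union_right _ hf, hw⟩)
      have hsubG1 : ∀ w, w ∈ verts (u :: (m ++ [v, x])) G₁ →
          w ∈ verts (t :: (m₂ ++ [xn])) F₂ := by
        intro w hw
        rw [DiscE_mem] at hw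
        rcases hw with hw | ⟨f, hf, hw⟩
        · by_cases hwx : w = x
          · rw [hwx]; exact hx2
          · rw [DiscE_mem, hp₁]
            exact Or.inl (DiscE_l6 hw hwx)
        · exact DiscE_mem.2 (Or.inr ⟨f, by rw [hG]; exact Finset.mem_union_left _ hf, hw⟩)
      have hS := Disc.split hd1 (e4 ▸ hG2) (by
        intro w hw hw2
        rw [← e4] at hw2
        exact hsh w hw (hsubG w hw2))
      refine ⟨G₁, insert {x0, xn, t} (F₁ ∪ G₂), ?_, ?_, hG1, ?_, ?_⟩
      · rw [hF, hF', hG]
        exact DiscE_s4
      · rw [Finset.disjoint_insert_right]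
        refine ⟨fun h0 => hf0 (hF2F (by rw [hG]; exact Finset.mem_union_left _ h0)), ?_⟩
        rw [Finset.disjoint_union_right]
        refine ⟨?_, hGd⟩
        rw [hG] at hdisj
        exact (hdisj.mono_right Finset.subset_union_left).symm
      · have e5 : p ++ u :: x :: v :: s =
            x0 :: (m₁ ++ t :: ((p₂ ++ x :: s0) ++ [xn])) := by
          rw [hp₁', List.append_assoc, e4]; rfl
        rw [e5]
        exact hS
      · intro w hw hw2
        have hw2' : w ∈ verts (x0 :: (m₁ ++ [t])) F₁ ∨
            w ∈ verts (p₁ ++ u :: x :: v :: s) G₂ := by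
          rw [DiscE_mem] at hw2
          rcases hw2 with hw2 | ⟨f, hf, hw2⟩
          · rw [hp₁', List.append_assoc] at hw2
            rcases List.mem_append.1 hw2 with h0 | h0
            · left
              rw [DiscE_mem]
              exact Or.inl (DiscE_l7 h0)
            · exact Or.inr (DiscE_mem.2 (Or.inl h0))
          · rw [Finset.mem_insert, Finset.mem_union] at hf
            rcases hf with hf | hf | hf
            · rw [hf, DiscE_tri] at hw2
              rcases hw2 with hw2 | hw2 | hw2
              · left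
                rw [DiscE_mem, hw2]
                left
                simp
              · right
                rw [DiscE_mem, e4, hw2]
                left
                simp
              · left
                rw [DiscE_mem, hw2]
                left
                simp
            · exact Or.inl (DiscE_mem.2 (Or.inr ⟨f, hf, hw2⟩))
            · exact Or.inr (DiscE_mem.2 (Or.inr ⟨f, hf, hw2⟩))
        rcases hw2' with hw2 | hw2
        · have h0 := hsh w hw2 (hsubG1 w hw)
          refine hGs w hw ?_
          rw [DiscE_mem, e4, h0]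
          left
          simp
        · exact hGs w hw hw2

/-- Splitting along a path with one inner vertex `x`. Strong induction on `F.card`, `Disc.peel` at
the root edge `(x0, xn)` of `l = p ++ u :: (m ++ v :: s)`, apex `t`, face `f0 = {x0, xn, t}`.
inner, `t ≠ x`: the faces with `u, x` and `v, x` are not `f0` (`x ∉ l`, `x ≠ t`), so induction applies to
`Disc (p ++ u :: (m ++ v :: (s ++ [t]))) F'`; close `t` in the second part with `Disc.inner`.
inner, `t = x`: `Disc (l ++ [x]) F'`.
 * `p = []` and `s = []`: `F₁ = F'`, `F₂ = {f0}`, `Disc [u, x, v] {f0}` by `Disc.single`.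
 * `s ≠ []`: `AdjF F' v x` (`f0` does not contain `v`), `Disc.chord` for the pair `v, x` in
   `(p ++ u :: m) ++ v :: (s ++ [x])` gives `Disc (v :: (s ++ [x])) G₁`,
   `Disc (p ++ u :: (m ++ [v, x])) G₂`. If `p ≠ []`: `AdjF G₂ u x` and `Disc.chord` for `u, x` in
   `p ++ u :: (m ++ [v] ++ [x])` gives `Disc (u :: (m ++ [v, x])) H₁` and `Disc (p ++ [u, x]) H₂`;
   `F₁ = H₁`, `F₂ = insert f0 (H₂ ∪ G₁)` by `Disc.split` of `p ++ [u, x]` and the rotation
   `x :: v :: s` of `v :: (s ++ [x])`. If `p = []` (then `u = x0`): `F₁ = G₂`,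
   `F₂ = insert f0 G₁` by `Disc.split` of the edge `[u, x]` and `x :: v :: s`.
 * `s = []`, `p ≠ []`: symmetric (chord `u, x`).
split (`t ∈ l`): `f0` does not contain `x`. `x` is in `verts` of exactly one part (otherwise
`x = t ∈ l`), all faces with `x` are in that part, so `u, v` are in `verts` of that part, hence (they
are in `l`) in its list; use induction for that part and `Disc.split` again. -/
theorem Disc.chord2 {p m s : List V} {u v x : V} {F : Finset (Finset V)}
    (h : Disc (p ++ u :: (m ++ v :: s)) F) (hx : x ∉ p ++ u :: (m ++ v :: s))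
    (hu : AdjF F u x) (hv : AdjF F v x) :
    ∃ F₁ F₂ : Finset (Finset V), F = F₁ ∪ F₂ ∧ Disjoint F₁ F₂ ∧
      Disc (u :: (m ++ [v, x])) F₁ ∧ Disc (p ++ u :: x :: v :: s) F₂ ∧
      ∀ w, w ∈ verts (u :: (m ++ [v, x])) F₁ → w ∈ verts (p ++ u :: x :: v :: s) F₂ →
        w = u ∨ w = v ∨ w = x :=
  DiscE_main F.card rfl h hx hu hv

end EPG26
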