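import Pool.Agent.W_26e041_h61.DiscC

namespace EPG26

variable {V : Type*} [DecidableEq V]

/-- the faces `{z, c i, c (i+1)}` of a fan around `z` -/
def fanF (z : V) : List V → Finset (Finset V)
  | a :: b :: t => insert {z, a, b} (fanF z (b :: t))
  | _ => ∅

theorem DiscH_mem_fanF {z : V} : ∀ {l : List V} {f : Finset V},
    f ∈ fanF z l ↔ ∃ p a b s, l = p ++ a :: b :: s ∧ f = {z, a, b} := by
  intro l
  induction l with
  | nil =>
    intro f
    constructor
    · intro h
      simp [fanF] at h
    · rintro ⟨p, a, b, s, h, -⟩
      have := congrArg List.length h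
      simp at this
  | cons x t ih =>
    intro f
    cases t with
    | nil =>
      constructor
      · intro h
        simp [fanF] at h
      · rintro ⟨p, a, b, s, h, -⟩
        have := congrArg List.length h
        simp at this
        omega
    | cons y t =>
      rw [fanF, Finset.mem_insert, ih]
      constructor
      · rintro (h | ⟨p, a, b, s, h, h'⟩)
        · exact ⟨[], x, y, t, rfl, h⟩
        · exact ⟨x :: p, a, b, s, by rw [h]; rfl, h'⟩
      · rintro ⟨p, a, b, s, h, h'⟩
        cases p with
        | nil =>
          left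
          simp only [List.nil_append, List.cons.injEq] at h
          obtain ⟨rfl, rfl, rfl⟩ := h
          exact h'
        | cons q p =>
          right
          simp only [List.cons_append, List.cons.injEq] at h
          exact ⟨p, a, b, s, h.2, h'⟩

theorem DiscH_aux1 (n : ℕ) : ∀ {a y z : V} {m : List V} {F : Finset (Finset V)},
    F.card = n → Disc (a :: (m ++ [y, z])) F → (∀ w ∈ m, ¬ AdjF F z w) →
    ∃ (fs : List V) (F' : Finset (Finset V)), F = fanF z (a :: (fs ++ [y])) ∪ F' ∧
      (∀ f ∈ F', z ∉ f) ∧ Disc (a :: (m ++ y :: fs.reverse)) F' ∧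
      ∀ f ∈ fs, f ∉ a :: (m ++ [y, z]) := by
  induction n using Nat.strong_induction_on with
  | _ n IH =>
  intro a y z m F hn h hz
  have hnd := h.nodup
  have e1 : a :: (m ++ [y, z]) = a :: ((m ++ [y]) ++ [z]) := by simp
  have h1 : Disc (a :: ((m ++ [y]) ++ [z])) F := by rw [← e1]; exact h
  obtain ⟨t, F1, hnot, hF, hc⟩ := h1.peel (by simp)
  have hza : z ≠ a := by
    rintro rfl
    simp at hnd
  have hzy : z ≠ y := by
    rintro rfl
    simp [List.nodup_append] at hnd
  have hzm : z ∉ m := by
    intro hzm
    rw [List.nodup_cons, List.nodup_append] at hnd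
    exact hnd.2.2.2 z hzm z (by simp) rfl
  rcases hc with ⟨htn, hd, hadj⟩ | ⟨m₁, m₂, F₁, F₂, hm, hF1, hdj, hd1, hd2, hsep⟩
  · have hd' : Disc (t :: ((a :: m) ++ [y, z])) F1 := by
      have e2 : a :: ((m ++ [y]) ++ [z, t]) = (a :: (m ++ [y, z])) ++ [t] := by simp
      rw [e2] at hd
      have := hd.append_comm
      simpa using this
    have hcard : F1.card < n := by
      rw [← hn, hF, Finset.card_insert_of_notMem hnot]
      omega
    obtain ⟨fs, F', hF', hz', hD', hfs⟩ := IH F1.card hcard rfl hd' (by
      intro w hw
      rcases List.mem_cons.1 hw with rfl | hw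
      · rintro ⟨hne, f, hf, h1, h2⟩
        exact hadj ⟨hne.symm, f, hf, h2, h1⟩
      · rintro ⟨hne, f, hf, h1, h2⟩
        exact hz w hw ⟨hne, f, by rw [hF]; exact Finset.mem_insert_of_mem hf, h1, h2⟩)
    refine ⟨t :: fs, F', ?_, hz', ?_, ?_⟩
    · have e3 : a :: (t :: fs ++ [y]) = a :: t :: (fs ++ [y]) := rfl
      rw [e3, fanF, hF, hF', Finset.insert_union]
      congr 1
      ext v
      simp only [Finset.mem_insert, Finset.mem_singleton]
      tauto
    · have e4 : t :: ((a :: m) ++ y :: fs.reverse) = [t] ++ (a :: (m ++ y :: fs.reverse)) := by simp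
      rw [e4] at hD'
      have := hD'.append_comm
      simpa using this
    · intro f hf
      rcases List.mem_cons.1 hf with rfl | hf
      · rw [e1]; exact htn
      · intro hmem
        refine hfs f hf ?_
        simp only [List.mem_cons, List.mem_append] at hmem ⊢
        tauto
  · rcases List.eq_nil_or_concat m₂ with rfl | ⟨m₂', q, rfl⟩
    · have hm' : m = m₁ ∧ y = t := by
        have := List.append_inj' hm (by simp)
        simpa using this
      obtain ⟨rfl, rfl⟩ := hm'
      have hd2' : Disc [y, z] F₂ := by simpa using hd2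
      have hF2 := hd2'.empty_of_two
      subst hF2
      refine ⟨[], F₁, ?_, ?_, ?_, ?_⟩
      · rw [hF, hF1]
        simp only [List.nil_append, fanF]
        rw [Finset.union_empty, Finset.insert_union, Finset.empty_union]
        congr 1
        ext v
        simp only [Finset.mem_insert, Finset.mem_singleton]
        tauto
      · intro f hf hzf
        refine hzy (hsep z ?_ ?_)
        · unfold verts
          refine Finset.mem_union_right _ ?_
          rw [Finset.mem_biUnion]
          exact ⟨f, hf, hzf⟩
        · unfold verts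
          refine Finset.mem_union_left _ ?_
          simp
      · simpa using hd1
      · intro f hf
        simp at hf
    · exfalso
      have htm : t ∈ m := by
        have e5 : m ++ [y] = (m₁ ++ t :: m₂') ++ [q] := by
          rw [hm]; simp
        have := List.append_inj' e5 rfl
        rw [this.1]
        simp
      have htz : z ≠ t := by
        rintro rfl
        exact hzm htm
      refine hz t htm ⟨htz, {a, z, t}, ?_, ?_, ?_⟩
      · rw [hF]
        exact Finset.mem_insert_self _ _
      · simp
      · simp

/-- Removing the boundary vertex `z` (which has no chord). Strong induction on `F.card` (for all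
`a, m`). `Disc.peel` at the root edge `(a, z)` (note `a :: (m ++ [y, z]) = a :: ((m ++ [y]) ++ [z])`), apex
`t`.
inner: `Disc (a :: (m ++ [y, z, t])) F'`, `¬ AdjF F' a z`; rotate to `Disc (t :: (a :: m ++ [y, z])) F'` and
use the induction hypothesis with `t` for `a` and `a :: m` for `m`: it gives `fs'`, `F''` and
`Disc (t :: (a :: m ++ y :: fs'.reverse)) F''`; take `fs = t :: fs'` and rotate back.
boundary: `t ∈ m` contradicts `hz` (the face `{a, z, t}`); so `t = y`, the second part is `[y, z]`
with no faces (`Disc.empty_of_two`), take `fs = []`; `z` is in no face of the first part by the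
separation statement of `Disc.peel`. -/
theorem Disc.fan {a y z : V} {m : List V} {F : Finset (Finset V)}
    (h : Disc (a :: (m ++ [y, z])) F) (hz : ∀ w ∈ m, ¬ AdjF F z w) :
    ∃ (fs : List V) (F' : Finset (Finset V)), F = fanF z (a :: (fs ++ [y])) ∪ F' ∧
      (∀ f ∈ F', z ∉ f) ∧ Disc (a :: (m ++ y :: fs.reverse)) F' ∧
      ∀ f ∈ fs, f ∉ a :: (m ++ [y, z]) :=
  DiscH_aux1 F.card rfl h hz

/-- membership in `fanF` -/
theorem mem_fanF {z : V} {l : List V} {f : Finset V} :
    f ∈ fanF z l ↔ ∃ p a b s, l = p ++ a :: b :: s ∧ f = {z, a, b} :=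
  DiscH_mem_fanF

end EPG26
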