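import Pool.Agent.W_26e041_h61.GeoA
import Pool.Agent.W_26e041_h61.DiscE
import Pool.Agent.W_26e041_h61.DiscH

/-!
Combinatorial states of the machine.
-/

namespace EPG26

variable {V : Type*} [DecidableEq V]

/-- a triangulated disc `Fs` inside the triangle `T` without separating triangles, with contents
`J f` of the faces which can be filled -/
structure Ctx (G : SimpleGraph V) (T : Finset V) (Fs : Finset (Finset V))
    (J : Finset V → Finset V) : Prop where
  adj : ∀ f ∈ Fs, ∀ u ∈ f, ∀ v ∈ f, u ≠ v → G.Adj u v
  disj : ∀ f ∈ Fs, ∀ g ∈ Fs, f ≠ g → Disjoint (J f) (J g)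
  sep : ∀ f ∈ Fs, ∀ g ∈ Fs, Disjoint (J f) g
  ns : ∀ u v w, AdjF Fs u v → AdjF Fs v w → AdjF Fs u w →
    ({u, v, w} : Finset V) = T ∨ ({u, v, w} : Finset V) ∈ Fs
  fill : ∀ f ∈ Fs, FillT G f (J f)

/-- a subdisc with boundary `l` and faces `F`: all faces at its inner vertices belong to it -/
structure Reg (T : Finset V) (Fs : Finset (Finset V)) (l : List V) (F : Finset (Finset V)) :
    Prop where
  disc : Disc l F
  sub : F ⊆ Fs
  star : ∀ v ∈ verts l F, v ∉ l → v ∉ T ∧ ∀ f ∈ Fs, v ∈ f → f ∈ F

/-- the inner vertices and the contents of the faces -/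
def Own (J : Finset V → Finset V) (l : List V) (F : Finset (Finset V)) : Set V :=
  {v | (v ∈ verts l F ∧ v ∉ l) ∨ ∃ f ∈ F, v ∈ J f}

/-- no two vertices of the list at distance at least two are adjacent in `F` -/
def Chless (F : Finset (Finset V)) (l : List V) : Prop :=
  ∀ p a b q c s, l = p ++ a :: b :: (q ++ c :: s) → ¬ AdjF F a c

/-- N-condition: black boundary `bl`, white boundary `wl` (both listed from the common end) and
the rest `be` -/
structure NC (T : Finset V) (Fs : Finset (Finset V)) (bl wl be : List V)
    (F : Finset (Finset V)) : Prop where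
  reg : Reg T Fs (bl ++ be ++ wl.reverse) F
  chB : Chless F bl
  chW : Chless F wl

/-- M-condition: `z` lies between the first black and the first white vertex; it has no chord, and
its inner neighbours are not adjacent to later black vertices and not to vertices of `Y` -/
structure MC (T : Finset V) (Fs : Finset (Finset V)) (bl wl be Y : List V) (z : V)
    (F : Finset (Finset V)) : Prop where
  reg : Reg T Fs (bl ++ be ++ wl.reverse ++ [z]) F
  chB : Chless F bl
  chW : Chless F wl
  z1 : ∀ v ∈ bl.tail ++ be ++ wl.tail, ¬ AdjF F z v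
  z2 : ∀ c ∈ verts (bl ++ be ++ wl.reverse ++ [z]) F, c ∉ bl ++ be ++ wl.reverse ++ [z] →
    AdjF F z c → ∀ v ∈ bl.tail ++ Y, ¬ AdjF F c v

theorem CombA_adj_mono {F F' : Finset (Finset V)} (h : F ⊆ F') {u v : V} (ha : AdjF F u v) :
    AdjF F' u v := by
  obtain ⟨h1, f, hf, h2⟩ := ha
  exact ⟨h1, f, h hf, h2⟩

theorem CombA_verts {l l' : List V} {F : Finset (Finset V)} (h : ∀ v, v ∈ l ↔ v ∈ l') :
    verts l F = verts l' F := by
  ext v
  simp only [verts, Finset.mem_union, List.mem_toFinset, h v]

theorem CombA_reg {T : Finset V} {Fs : Finset (Finset V)} {l l' : List V}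
    {F : Finset (Finset V)} (h : Reg T Fs l F) (hd : Disc l' F) (he : ∀ v, v ∈ l ↔ v ∈ l') :
    Reg T Fs l' F := by
  refine ⟨hd, h.sub, fun v hv hl => ?_⟩
  rw [← CombA_verts he] at hv
  exact h.star v hv (fun hl' => hl ((he v).1 hl'))

theorem CombA_chless_tail {F : Finset (Finset V)} {a : V} {l : List V} (h : Chless F (a :: l)) :
    Chless F l := by
  intro p a' b' q c s hl
  exact h (a :: p) a' b' q c s (by rw [hl]; rfl)

theorem CombA_chless_head {F : Finset (Finset V)} {a : V} {l : List V} (h : Chless F (a :: l))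
    {v : V} (hv : v ∈ l.tail) : ¬ AdjF F a v := by
  cases l with
  | nil => simp at hv
  | cons w t =>
    obtain ⟨q, s, hqs⟩ := List.append_of_mem (show v ∈ t from hv)
    exact h [] a w q v s (by rw [hqs]; rfl)

/-- no separating triangles at inner vertices: a triangle with an inner vertex `c` of the region is
a face of the region -/
theorem Reg.tri {G : SimpleGraph V} {T : Finset V} {Fs : Finset (Finset V)}
    {J : Finset V → Finset V} (hc : Ctx G T Fs J) {l : List V} {F : Finset (Finset V)}
    (h : Reg T Fs l F) {a b c : V} (hv : c ∈ verts l F) (hl : c ∉ l) (hab : AdjF F a b)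
    (hac : AdjF F a c) (hbc : AdjF F b c) : ({a, b, c} : Finset V) ∈ F := by
  obtain ⟨h1, h2⟩ := h.star c hv hl
  have hmem : c ∈ ({a, b, c} : Finset V) := by simp
  rcases hc.ns a b c (CombA_adj_mono h.sub hab) (CombA_adj_mono h.sub hbc)
    (CombA_adj_mono h.sub hac) with h3 | h3
  · exact absurd (h3 ▸ hmem) h1
  · exact h2 _ h3 hmem

/-- An `N`-region may be reversed (exchange of black and white): the boundary list
`wl ++ be.reverse ++ bl.reverse` is the reverse of `bl ++ be ++ wl.reverse`. -/
theorem NC.swap {T : Finset V} {Fs : Finset (Finset V)} {bl wl be : List V}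
    {F : Finset (Finset V)} (h : NC T Fs bl wl be F) : NC T Fs wl bl be.reverse F := by
  refine ⟨CombA_reg h.reg ?_ ?_, h.chW, h.chB⟩
  · have h1 := Disc.reverse h.reg.disc
    have h2 : (bl ++ be ++ wl.reverse).reverse = wl ++ be.reverse ++ bl.reverse := by simp
    rw [h2] at h1
    exact h1
  · intro v
    simp only [List.mem_append, List.mem_reverse]
    tauto

/-- Membership in `Own` only depends on the set of boundary vertices. -/
theorem Own.congr {J : Finset V → Finset V} {l l' : List V} {F : Finset (Finset V)}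
    (h : ∀ v, v ∈ l ↔ v ∈ l') : Own J l F = Own J l' F := by
  unfold Own
  rw [CombA_verts h]
  ext v
  simp only [Set.mem_setOf_eq, h v]

/-- The first white vertex may be paid if it has no neighbours among the later black vertices and
none of its inner neighbours has. (`z1` for the rest: `chW` and `hbe`.) -/
theorem NC.payA {T : Finset V} {Fs : Finset (Finset V)} {b a : V} {bl wl be : List V}
    {F : Finset (Finset V)} (h : NC T Fs (b :: bl) (a :: wl) be F)
    (hbe : ∀ v ∈ be, ¬ AdjF F a v) (h1 : ∀ v ∈ bl, ¬ AdjF F a v)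
    (h2 : ∀ c ∈ verts (b :: bl ++ be ++ (a :: wl).reverse) F,
      c ∉ b :: bl ++ be ++ (a :: wl).reverse → AdjF F a c → ∀ v ∈ bl, ¬ AdjF F c v) :
    MC T Fs (b :: bl) wl be [] a F := by
  have e : b :: bl ++ be ++ (a :: wl).reverse = b :: bl ++ be ++ wl.reverse ++ [a] := by simp
  have hreg := h.reg
  rw [e] at hreg h2
  refine ⟨hreg, h.chB, CombA_chless_tail h.chW, ?_, ?_⟩
  · intro v hv
    rw [List.mem_append, List.mem_append] at hv
    rcases hv with (hv | hv) | hv
    · exact h1 v hv
    · exact hbe v hv
    · exact CombA_chless_head h.chW hv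
  · intro c hc hcl hac v hv
    rw [List.append_nil] at hv
    exact h2 c hc hcl hac v hv

/-- The last white vertex: then the first black vertex may be paid (`be = []`, `z1` by `chB`). -/
theorem NC.payB0 {T : Finset V} {Fs : Finset (Finset V)} {b a : V} {bl : List V}
    {F : Finset (Finset V)} (h : NC T Fs (b :: bl) [a] [] F) (hbl : bl ≠ []) :
    MC T Fs [a] bl [] [] b F := by
  refine ⟨CombA_reg h.reg ?_ ?_, ?_, CombA_chless_tail h.chB, ?_, ?_⟩
  · have h1 := Disc.reverse h.reg.disc
    have h2 : (b :: bl ++ [] ++ [a].reverse).reverse = [a] ++ [] ++ bl.reverse ++ [b] := by simp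
    rw [h2] at h1
    exact h1
  · intro v
    simp only [List.mem_append, List.mem_reverse, List.mem_cons, List.not_mem_nil, or_false]
    tauto
  · intro p a' b' q c s hl
    have := congrArg List.length hl
    simp only [List.length_cons, List.length_append, List.length_nil] at this
    omega
  · intro v hv
    have hv' : v ∈ bl.tail := by simpa using hv
    exact CombA_chless_head h.chB hv'
  · intro c _ _ _ v hv
    simp at hv

end EPG26
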