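import Pool.Agent.W_26e041_h61.CombA

/-!
The combinatorial step of an M-state.
-/

namespace EPG26

variable {V : Type*} [DecidableEq V]

theorem CombB_chless {F F' : Finset (Finset V)} {l : List V} (h : F' ⊆ F) (hc : Chless F l) :
    Chless F' l := fun p a b q c s e ha => hc p a b q c s e (CombA_adj_mono h ha)

omit [DecidableEq V] in
theorem CombB_last {M m₁ m₂ : List V} {a : V} (hn : (M ++ [a]).Nodup)
    (h : M ++ [a] = m₁ ++ a :: m₂) : m₂ = [] ∧ m₁ = M := by
  rcases List.eq_nil_or_concat' m₂ with e | ⟨q, w, e⟩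
  · subst e
    have h1 := List.append_inj_left' h rfl
    exact ⟨rfl, h1.symm⟩
  · exfalso
    subst e
    have h2 : M ++ [a] = (m₁ ++ a :: q) ++ [w] := by
      rw [h]
      simp
    obtain ⟨h3, -⟩ := List.append_inj' h2 rfl
    have h4 : a ∈ M := by
      rw [h3]
      simp
    exact (List.nodup_append.1 hn).2.2 a h4 a (by simp) rfl

theorem CombB_verts_mono {l l' : List V} {F F' : Finset (Finset V)} {v : V} (hF : F' ⊆ F)
    (hv : v ∈ verts l' F') (hl : v ∉ l') : v ∈ verts l F := by
  rcases Finset.mem_union.1 hv with h | h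
  · exact absurd (List.mem_toFinset.1 h) hl
  · obtain ⟨f, hf, hvf⟩ := Finset.mem_biUnion.1 h
    exact Finset.mem_union_right _ (Finset.mem_biUnion.2 ⟨f, hF hf, hvf⟩)

/-- One step of an M-state. `Disc.peel` at the root edge `(b, z)` of
`b :: (bl ++ be ++ (a :: wl).reverse ++ [z])`, apex `t`.
If `t` is a boundary vertex then `AdjF F z t`, so by `z1` `t = a`, the vertex before `z`; then the
second part of the split is the edge `[a, z]` (`Disc.empty_of_two`) and the first one is the
N-region.
Otherwise `c = t` is inner; rotate (`Disc.append_comm`) to `c :: b :: ...`. `Reg.star` for the smaller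
region: its inner vertices are inner in the old one and different from `c`, `b`, `z`.
`Chless F' (c :: b :: bl)`: `c` is not adjacent to `bl` by `z2`, the rest by `chB` and `F' ⊆ F`.
`z1`: `¬ AdjF F' z b` from `Disc.peel` (symmetric), the rest from `z1`. `z2`: for a child `c'` of `z` in
the new region `¬ AdjF F' c' b` because otherwise `{b, z, c'} ∈ F` by `Reg.tri` and then `c' = c` by
`Disc.root_unique`, but `c` is on the new boundary. -/
theorem MC.step {G : SimpleGraph V} {T : Finset V} {Fs : Finset (Finset V)}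
    {J : Finset V → Finset V} (hc : Ctx G T Fs J) {b a z : V} {bl wl be Y : List V}
    {F : Finset (Finset V)} (h : MC T Fs (b :: bl) (a :: wl) be Y z F) :
    (∃ F', F = insert {b, z, a} F' ∧ ({b, z, a} : Finset V) ∉ F' ∧
      NC T Fs (b :: bl) (a :: wl) be F') ∨
    (∃ c F', F = insert {b, z, c} F' ∧ ({b, z, c} : Finset V) ∉ F' ∧
      c ∈ verts (b :: bl ++ be ++ (a :: wl).reverse ++ [z]) F ∧
      c ∉ b :: bl ++ be ++ (a :: wl).reverse ++ [z] ∧
      MC T Fs (c :: b :: bl) (a :: wl) be Y z F' ∧ ∀ v ∈ Y, ¬ AdjF F' c v) := by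
  have e : b :: bl ++ be ++ (a :: wl).reverse ++ [z] =
      b :: ((bl ++ be ++ wl.reverse ++ [a]) ++ [z]) := by simp
  have hd := h.reg.disc
  rw [e] at hd
  have hm : bl ++ be ++ wl.reverse ++ [a] ≠ [] := by simp
  have hnd := hd.nodup
  have hbz : b ≠ z := by
    rintro rfl
    simp at hnd
  obtain ⟨t, F', hn, hF, hcase⟩ := hd.peel hm
  have hFF' : F' ⊆ F := by
    rw [hF]
    exact Finset.subset_insert _ _
  have hface : ({b, z, t} : Finset V) ∈ F := by
    rw [hF]
    exact Finset.mem_insert_self _ _
  have hcard := hd.card3 _ hface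
  have hzt : z ≠ t := by
    rintro rfl
    have h1 : ({b, z, z} : Finset V) = {b, z} := by simp
    rw [h1] at hcard
    have h2 := Finset.card_le_two (a := b) (b := z)
    omega
  have hadj : AdjF F z t := ⟨hzt, _, hface, by simp, by simp⟩
  rcases hcase with ⟨htl, hd', hnadj⟩ | ⟨m₁, m₂, F₁, F₂, hmm, hF', -, hd₁, hd₂, hdis⟩
  · right
    have htl' : t ∉ b :: bl ++ be ++ (a :: wl).reverse ++ [z] := by
      rw [e]
      exact htl
    have htv : t ∈ verts (b :: bl ++ be ++ (a :: wl).reverse ++ [z]) F :=
      Finset.mem_union_right _ (Finset.mem_biUnion.2 ⟨_, hface, by simp⟩)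
    have hz2 := h.z2 t htv htl' hadj
    rw [List.tail_cons] at hz2
    have hd2 : Disc ((b :: ((bl ++ be ++ wl.reverse ++ [a]) ++ [z])) ++ [t]) F' := by
      have e2 : (b :: ((bl ++ be ++ wl.reverse ++ [a]) ++ [z])) ++ [t] =
          b :: ((bl ++ be ++ wl.reverse ++ [a]) ++ [z, t]) := by simp
      rw [e2]
      exact hd'
    have hd3 : Disc (t :: b :: bl ++ be ++ (a :: wl).reverse ++ [z]) F' := by
      have h3 := hd2.append_comm
      have e3 : [t] ++ (b :: ((bl ++ be ++ wl.reverse ++ [a]) ++ [z])) =
          t :: b :: bl ++ be ++ (a :: wl).reverse ++ [z] := by simp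
      rw [e3] at h3
      exact h3
    have hout : ∀ v, v ∉ t :: b :: bl ++ be ++ (a :: wl).reverse ++ [z] →
        v ∉ b :: bl ++ be ++ (a :: wl).reverse ++ [z] ∧ v ∉ ({b, z, t} : Finset V) := by
      intro v hv
      constructor
      · intro h1
        exact hv (List.mem_cons_of_mem t h1)
      · intro h1
        apply hv
        simp only [Finset.mem_insert, Finset.mem_singleton] at h1
        rcases h1 with rfl | rfl | rfl <;> simp
    refine ⟨t, F', hF, hn, htv, htl', ⟨⟨hd3, hFF'.trans h.reg.sub, ?_⟩, ?_,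
      CombB_chless hFF' h.chW, ?_, ?_⟩, ?_⟩
    · intro v hv hl
      obtain ⟨hl1, hl2⟩ := hout v hl
      obtain ⟨h1, h2⟩ := h.reg.star v (CombB_verts_mono hFF' hv hl) hl1
      refine ⟨h1, fun f hf hvf => ?_⟩
      have h3 := h2 f hf hvf
      rw [hF, Finset.mem_insert] at h3
      rcases h3 with h3 | h3
      · rw [h3] at hvf
        exact absurd hvf hl2
      · exact h3
    · intro p a' b' q c s hl ha
      rcases p with _ | ⟨x, p⟩
      · rw [List.nil_append, List.cons.injEq, List.cons.injEq] at hl
        obtain ⟨rfl, -, hl3⟩ := hl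
        refine hz2 c ?_ (CombA_adj_mono hFF' ha)
        rw [hl3]
        simp
      · rw [List.cons_append, List.cons.injEq] at hl
        exact h.chB p a' b' q c s hl.2 (CombA_adj_mono hFF' ha)
    · intro v hv ha
      rw [List.tail_cons, List.tail_cons] at hv
      rcases List.mem_cons.1 (show v ∈ b :: (bl ++ be ++ wl) from by simpa using hv) with rfl | hv
      · exact hnadj (DiscC_symm ha)
      · exact h.z1 v (by simpa using hv) (CombA_adj_mono hFF' ha)
    · intro c hc1 hcl hzc v hv hcv
      obtain ⟨hl1, hl2⟩ := hout c hcl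
      have hcF : c ∈ verts (b :: bl ++ be ++ (a :: wl).reverse ++ [z]) F :=
        CombB_verts_mono hFF' hc1 hcl
      rw [List.tail_cons] at hv
      rcases List.mem_cons.1 (show v ∈ b :: (bl ++ Y) from by simpa using hv) with rfl | hv
      · have h1 : ({v, z, c} : Finset V) ∈ F :=
          h.reg.tri hc hcF hl1 ⟨hbz, _, hface, by simp, by simp⟩
            (CombA_adj_mono hFF' (DiscC_symm hcv)) (CombA_adj_mono hFF' hzc)
        have h2 := hd.root_unique hm h1 hface (by simp) (by simp) (by simp) (by simp)
        apply hl2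
        rw [← h2]
        simp
      · exact h.z2 c hcF hl1 (CombA_adj_mono hFF' hzc) v (by simpa using hv)
          (CombA_adj_mono hFF' hcv)
    · intro v hv ha
      exact hz2 v (List.mem_append_right _ hv) (CombA_adj_mono hFF' ha)
  · left
    have hta : t = a := by
      by_contra hta
      have h1 : t ∈ bl ++ be ++ wl.reverse ++ [a] := by
        rw [hmm]
        simp
      refine h.z1 t ?_ hadj
      simp only [List.mem_append, List.mem_reverse, List.mem_singleton, List.tail_cons] at h1 ⊢
      tauto
    subst hta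
    have hnd2 : (bl ++ be ++ wl.reverse ++ [t]).Nodup :=
      (List.nodup_append.1 (List.nodup_cons.1 hnd).2).1
    obtain ⟨rfl, rfl⟩ := CombB_last hnd2 hmm
    have hF2 : F₂ = ∅ := Disc.empty_of_two hd₂
    subst hF2
    rw [Finset.union_empty] at hF'
    subst hF'
    have e4 : b :: (bl ++ be ++ wl.reverse ++ [t]) = b :: bl ++ be ++ (t :: wl).reverse := by simp
    have hd4 := hd₁
    rw [e4] at hd4
    refine ⟨F', hF, hn, ⟨hd4, hFF'.trans h.reg.sub, ?_⟩, CombB_chless hFF' h.chB,
      CombB_chless hFF' h.chW⟩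
    intro v hv hl
    have hvz : v ≠ z := by
      rintro rfl
      refine hzt (hdis v ?_ (DiscA_mem_verts_left (by simp)))
      rw [e4]
      exact hv
    have hl1 : v ∉ b :: bl ++ be ++ (t :: wl).reverse ++ [z] := by
      intro h1
      rcases List.mem_append.1 h1 with h1 | h1
      · exact hl h1
      · exact hvz (by simpa using h1)
    obtain ⟨h1, h2⟩ := h.reg.star v (CombB_verts_mono hFF' hv hl) hl1
    refine ⟨h1, fun f hf hvf => ?_⟩
    have h3 := h2 f hf hvf
    rw [hF, Finset.mem_insert] at h3
    rcases h3 with h3 | h3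
    · exfalso
      rw [h3] at hvf
      simp only [Finset.mem_insert, Finset.mem_singleton] at hvf
      rcases hvf with rfl | rfl | rfl
      · exact hl (by simp)
      · exact hvz rfl
      · exact hl (by simp)
    · exact h3

end EPG26
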