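import Pool.Agent.W_26e041_h61.CombA

/-!
Enclosure of the first black vertex.
-/

namespace EPG26

variable {V : Type*} [DecidableEq V]

theorem CombC_key {F F₁ F₂ : Finset (Finset V)} {L₁ L₂ : List V} (hF : F = F₁ ∪ F₂) {b v : V}
    (hb : b ∉ verts L₁ F₁) (hv : v ∉ verts L₂ F₂) : ¬ AdjF F b v := by
  rintro ⟨_, f, hf, h1, h2⟩
  rw [hF, Finset.mem_union] at hf
  rcases hf with hf | hf
  · exact hb (DiscA_mem_verts_right hf h1)
  · exact hv (DiscA_mem_verts_right hf h2)

theorem CombC_reg {T : Finset V} {Fs : Finset (Finset V)} {b a : V} {bl wl be : List V}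
    {F : Finset (Finset V)} (h : Reg T Fs (b :: bl ++ be ++ (a :: wl).reverse) F) :
    Reg T Fs (a :: wl ++ be.reverse ++ bl.reverse ++ [b]) F := by
  have e : a :: wl ++ be.reverse ++ bl.reverse ++ [b] =
      (b :: bl ++ be ++ (a :: wl).reverse).reverse := by simp
  rw [e]
  refine ⟨h.disc.reverse, h.sub, ?_⟩
  intro v hv hl
  refine h.star v ?_ ?_
  · rw [DiscB_mem_verts] at hv ⊢
    simp only [List.mem_reverse] at hv
    exact hv
  · intro h0
    exact hl (List.mem_reverse.2 h0)

/-- the common part of the two proofs -/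
theorem CombC_main {T : Finset V} {Fs : Finset (Finset V)} {b a y : V} {bl₁ bl₂ wl be : List V}
    {F F₁ F₂ : Finset (Finset V)} {L₁ L₂ : List V}
    (h : NC T Fs (b :: (bl₁ ++ y :: bl₂)) (a :: wl) be F) (hF : F = F₁ ∪ F₂)
    (hb : b ∉ verts L₁ F₁) (hv : ∀ v ∈ wl ++ be, v ∉ verts L₂ F₂)
    (hc : ∀ c, c ∉ b :: (bl₁ ++ y :: bl₂) ++ be ++ (a :: wl).reverse → AdjF F b c →
      c ∈ verts L₂ F₂ → c ∉ verts L₁ F₁) :
    MC T Fs (a :: wl) (bl₁ ++ y :: bl₂) be.reverse be b F := by
  refine ⟨CombC_reg h.reg, h.chW, ?_, ?_, ?_⟩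
  · intro p a' b' q c s he
    exact h.chB (b :: p) a' b' q c s (by rw [he]; rfl)
  · intro v hvm
    have hvm' : v ∈ wl ++ be ∨ v ∈ (bl₁ ++ y :: bl₂).tail := by
      simp only [List.tail_cons, List.mem_append, List.mem_reverse] at hvm ⊢
      tauto
    rcases hvm' with hvm' | hvm'
    · exact CombC_key hF hb (hv v hvm')
    · obtain ⟨x, t, ht⟩ : ∃ x t, bl₁ ++ y :: bl₂ = x :: t := by
        cases bl₁ with
        | nil => exact ⟨y, bl₂, rfl⟩
        | cons x t => exact ⟨x, t ++ y :: bl₂, rfl⟩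
      rw [ht, List.tail_cons] at hvm'
      obtain ⟨q, s, rfl⟩ := List.append_of_mem hvm'
      exact h.chB [] b x q v s (by rw [ht]; rfl)
  · intro c _ hcl hbc v hvm
    have hcl' : c ∉ b :: (bl₁ ++ y :: bl₂) ++ be ++ (a :: wl).reverse := by
      intro h0
      apply hcl
      simp only [List.mem_append, List.mem_cons, List.mem_reverse] at h0 ⊢
      tauto
    have hc2 : c ∈ verts L₂ F₂ := by
      obtain ⟨_, f, hf, h1, h2⟩ := hbc
      rw [hF, Finset.mem_union] at hf
      rcases hf with hf | hf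
      · exact absurd (DiscA_mem_verts_right hf h1) hb
      · exact DiscA_mem_verts_right hf h2
    exact CombC_key hF (hc c hcl' hbc hc2) (hv v (by simpa using hvm))

/-- A chord from the first white vertex `a` to a later black vertex `y` encloses the first black
vertex `b`. `Disc.chord` with `u = y`, `v = a` in `b :: (bl₁ ++ y :: (bl₂ ++ be ++ wl.reverse ++ [a]))`
(the middle part is not empty because `wl ≠ []`, the first part contains `b`) gives `F = F₁ ∪ F₂`; the
vertices `b` and all inner neighbours of `b` are not in `verts` of the part `F₁` (the common vertices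
are only `y` and `a`), so all faces containing them are in `F₂`, whose vertices do not contain
vertices of `wl` and `be`. -/
theorem NC.payB1 {T : Finset V} {Fs : Finset (Finset V)} {b a y : V} {bl wl be : List V}
    {F : Finset (Finset V)} (h : NC T Fs (b :: bl) (a :: wl) be F) (hwl : wl ≠ [])
    (hy : y ∈ bl) (hay : AdjF F a y) : MC T Fs (a :: wl) bl be.reverse be b F := by
  obtain ⟨bl₁, bl₂, rfl⟩ := List.append_of_mem hy
  have e : b :: (bl₁ ++ y :: bl₂) ++ be ++ (a :: wl).reverse =
      (b :: bl₁) ++ y :: ((bl₂ ++ be ++ wl.reverse) ++ a :: []) := by simp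
  have hd := h.reg.disc
  rw [e] at hd
  have hnd := hd.nodup
  have hne : bl₂ ++ be ++ wl.reverse ≠ [] := by simp [hwl]
  obtain ⟨F₁, F₂, hF, -, -, -, hw⟩ := hd.chord hne (Or.inl (by simp)) (DiscC_symm hay)
  have hmem : ∀ w, w ∈ bl₂ ++ be ++ wl.reverse → w ≠ y ∧ w ≠ a := by
    intro w hwm
    have hnd2 := hnd.of_append_right
    rw [List.nodup_cons, List.nodup_append] at hnd2
    obtain ⟨h1, -, -, h2⟩ := hnd2
    refine ⟨?_, h2 w hwm a (by simp)⟩
    rintro rfl
    exact h1 (List.mem_append_left _ hwm)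
  have hby : b ≠ y ∧ b ≠ a := by
    rw [List.nodup_append] at hnd
    exact ⟨hnd.2.2 b (by simp) y (by simp), hnd.2.2 b (by simp) a (by simp)⟩
  refine CombC_main h hF (L₁ := y :: ((bl₂ ++ be ++ wl.reverse) ++ [a]))
    (L₂ := (b :: bl₁) ++ y :: a :: []) ?_ ?_ ?_
  · intro h0
    rcases hw b h0 (DiscA_mem_verts_left (by simp)) with h1 | h1
    · exact hby.1 h1
    · exact hby.2 h1
  · intro v hv h0
    have hvm : v ∈ bl₂ ++ be ++ wl.reverse := by
      simp only [List.mem_append, List.mem_reverse] at hv ⊢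
      tauto
    rcases hw v (DiscA_mem_verts_left (List.mem_cons_of_mem _ (List.mem_append_left _ hvm))) h0
      with h1 | h1
    · exact (hmem v hvm).1 h1
    · exact (hmem v hvm).2 h1
  · intro c hcl _ hc2 hc1
    rcases hw c hc1 hc2 with h1 | h1
    · exact hcl (by rw [h1]; simp)
    · exact hcl (by rw [h1]; simp)

/-- A path `a, c, y` from the first white vertex `a` to a later black vertex `y` such that
`{a, b, c}` is not a face encloses the first black vertex `b`. `Disc.chord2` with `u = y`, `v = a`,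
`x = c` in `b :: (bl₁ ++ y :: (bl₂ ++ be ++ wl.reverse ++ [a]))` gives `F = F₁ ∪ F₂` with common vertices
`y, a, c`. `b` is not in `verts` of the first part. `¬ AdjF F b c`: otherwise `{a, b, c} ∈ F` by `Reg.tri`
(`AdjF F a b` by `Disc.root_adj`). So `b` and its inner neighbours are only in faces of `F₂`, whose
vertices do not contain vertices of `wl` and `be`. -/
theorem NC.payB2 {G : SimpleGraph V} {T : Finset V} {Fs : Finset (Finset V)}
    {J : Finset V → Finset V} (hc : Ctx G T Fs J) {b a c y : V} {bl wl be : List V}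
    {F : Finset (Finset V)} (h : NC T Fs (b :: bl) (a :: wl) be F) (hwl : wl ≠ [])
    (hcv : c ∈ verts (b :: bl ++ be ++ (a :: wl).reverse) F)
    (hcl : c ∉ b :: bl ++ be ++ (a :: wl).reverse) (hac : AdjF F a c) (hy : y ∈ bl)
    (hcy : AdjF F c y) (hf : ({a, b, c} : Finset V) ∉ F) :
    MC T Fs (a :: wl) bl be.reverse be b F := by
  obtain ⟨bl₁, bl₂, rfl⟩ := List.append_of_mem hy
  have e : b :: (bl₁ ++ y :: bl₂) ++ be ++ (a :: wl).reverse =
      (b :: bl₁) ++ y :: ((bl₂ ++ be ++ wl.reverse) ++ a :: []) := by simp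
  have hd := h.reg.disc
  have hab : AdjF F a b := by
    have e2 : b :: (bl₁ ++ y :: bl₂) ++ be ++ (a :: wl).reverse =
      b :: ((bl₁ ++ y :: bl₂ ++ be ++ wl.reverse) ++ [a]) := by simp
    rw [e2] at hd
    exact DiscC_symm (hd.root_adj (by simp))
  rw [e] at hd
  have hnd := hd.nodup
  have hcl' := hcl
  rw [e] at hcl'
  obtain ⟨F₁, F₂, hF, -, -, -, hw⟩ := hd.chord2 hcl' (DiscC_symm hcy) hac
  have hmem : ∀ w, w ∈ bl₂ ++ be ++ wl.reverse → w ≠ y ∧ w ≠ a := by
    intro w hwm
    have hnd2 := hnd.of_append_right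
    rw [List.nodup_cons, List.nodup_append] at hnd2
    obtain ⟨h1, -, -, h2⟩ := hnd2
    refine ⟨?_, h2 w hwm a (by simp)⟩
    rintro rfl
    exact h1 (List.mem_append_left _ hwm)
  have hby : b ≠ y ∧ b ≠ a := by
    rw [List.nodup_append] at hnd
    exact ⟨hnd.2.2 b (by simp) y (by simp), hnd.2.2 b (by simp) a (by simp)⟩
  refine CombC_main h hF (L₁ := y :: ((bl₂ ++ be ++ wl.reverse) ++ [a, c]))
    (L₂ := (b :: bl₁) ++ y :: c :: a :: []) ?_ ?_ ?_
  · intro h0
    rcases hw b h0 (DiscA_mem_verts_left (by simp)) with h1 | h1 | h1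
    · exact hby.1 h1
    · exact hby.2 h1
    · exact hcl (by rw [← h1]; simp)
  · intro v hv h0
    have hvm : v ∈ bl₂ ++ be ++ wl.reverse := by
      simp only [List.mem_append, List.mem_reverse] at hv ⊢
      tauto
    rcases hw v (DiscA_mem_verts_left (List.mem_cons_of_mem _ (List.mem_append_left _ hvm))) h0
      with h1 | h1 | h1
    · exact (hmem v hvm).1 h1
    · exact (hmem v hvm).2 h1
    · apply hcl'
      rw [← h1]
      simp only [List.mem_cons, List.mem_append] at hvm ⊢
      tauto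
  · intro c' hcl2 hbc hc2 hc1
    rcases hw c' hc1 hc2 with h1 | h1 | h1
    · exact hcl2 (by rw [h1]; simp)
    · exact hcl2 (by rw [h1]; simp)
    · rw [h1] at hbc
      exact hf (h.reg.tri hc hcv hcl hab hac hbc)

end EPG26
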