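import Pool.Agent.W_26e041_h61.CombA

/-!
The combinatorial step T.
-/

namespace EPG26

variable {V : Type*} [DecidableEq V]

/-- the last element of a list with a given property -/
theorem CombD_last {α : Type*} {P : α → Prop} : ∀ {l : List α} {y : α}, y ∈ l → P y →
    ∃ (L₁ : List α) (z : α) (L₂ : List α), l = L₁ ++ z :: L₂ ∧ P z ∧ ∀ v ∈ L₂, ¬ P v := by
  classical
  intro l
  induction l with
  | nil => intro y hy; simp at hy
  | cons a l ih =>
    intro y hy hP
    by_cases hex : ∃ y' ∈ l, P y'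
    · obtain ⟨y', hy', hP'⟩ := hex
      obtain ⟨L₁, z, L₂, h1, h2, h3⟩ := ih hy' hP'
      exact ⟨a :: L₁, z, L₂, by rw [h1]; rfl, h2, h3⟩
    · have hya : y = a := by
        rcases List.mem_cons.1 hy with h | h
        · exact h
        · exact absurd ⟨y, h, hP⟩ hex
      refine ⟨[], a, l, rfl, hya ▸ hP, fun v hv hPv => hex ⟨v, hv, hPv⟩⟩

theorem CombD_split {t v b a y : V} {L₁ L₂ be wl : List V}
    (h : v ∈ b :: (L₁ ++ y :: L₂) ++ be ++ (a :: wl).reverse) :
    v ∈ (t :: y :: L₂) ++ be ++ wl.reverse ++ [a] ∨ v ∈ [t] ++ (L₁ ++ [y]).reverse ++ [b] := by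
  simp only [List.mem_cons, List.mem_append, List.mem_reverse, List.not_mem_nil, or_false] at h
  rcases h with (((h | h | h | h) | h) | h | h) <;> simp [h]

theorem CombD_in1 {t v b a y : V} {L₁ L₂ be wl : List V} (hv : v ≠ t)
    (h : v ∈ (t :: y :: L₂) ++ be ++ wl.reverse ++ [a]) :
    v ∈ b :: ((L₁ ++ y :: L₂ ++ be ++ wl.reverse) ++ [a]) := by
  simp only [List.mem_cons, List.mem_append, List.mem_reverse, List.not_mem_nil, or_false] at h
  rcases h with ((((h | h | h) | h) | h) | h)
  · exact absurd h hv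
  all_goals simp [h]

theorem CombD_in2 {t v b a y : V} {L₁ L₂ be wl : List V} (hv : v ≠ t)
    (h : v ∈ [t] ++ (L₁ ++ [y]).reverse ++ [b]) :
    v ∈ b :: ((L₁ ++ y :: L₂ ++ be ++ wl.reverse) ++ [a]) := by
  simp only [List.mem_cons, List.mem_append, List.mem_reverse, List.not_mem_nil, or_false] at h
  rcases h with ((h | h | h) | h)
  · exact absurd h hv
  all_goals simp [h]

/-- Step T: `x` is the apex of the root edge `(b, a)`, an inner vertex adjacent to a black vertex
`y ∈ bl`; the other inner neighbours of `a` are not adjacent to `bl`. Choose the last `y` in `bl`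
adjacent to `x`: `bl = L₁ ++ y :: L₂`. `F = insert {b, a, x} F'` by `Disc.peel` and `Disc.root_unique`,
`Disc.chord` with `u = y`, `v = x` in `b :: (L₁ ++ y :: (L₂ ++ be ++ wl.reverse ++ [a] ++ [x]))`, rotate
the first part to `x :: y :: ...`, reverse the second part `b :: (L₁ ++ [y, x])`. All conditions are
inherited; `z2` of the main part: a child `c` of `a` adjacent to `y :: L₂` satisfies `{a, b, c} ∈ F`, so
`c = x`, which is on the boundary. -/
theorem NC.stepT {G : SimpleGraph V} {T : Finset V} {Fs : Finset (Finset V)}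
    {J : Finset V → Finset V} (hc : Ctx G T Fs J) {b a x y₀ : V} {bl wl be : List V}
    {F : Finset (Finset V)} (h : NC T Fs (b :: bl) (a :: wl) be F) (hwl : wl ≠ [])
    (hbe : ∀ v ∈ be, ¬ AdjF F a v) (h1 : ∀ v ∈ bl, ¬ AdjF F a v)
    (hx : ({a, b, x} : Finset V) ∈ F) (hxl : x ∉ b :: bl ++ be ++ (a :: wl).reverse)
    (hy : y₀ ∈ bl) (hxy : AdjF F x y₀)
    (h2 : ∀ c ∈ verts (b :: bl ++ be ++ (a :: wl).reverse) F,
      c ∉ b :: bl ++ be ++ (a :: wl).reverse → AdjF F a c → ({a, b, c} : Finset V) ∉ F →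
      ∀ v ∈ bl, ¬ AdjF F c v) :
    ∃ L₁ y L₂ F₁ F₂, bl = L₁ ++ y :: L₂ ∧ AdjF F x y ∧
      F = insert {b, a, x} (F₁ ∪ F₂) ∧ Disjoint F₁ F₂ ∧ ({b, a, x} : Finset V) ∉ F₁ ∪ F₂ ∧
      MC T Fs (x :: y :: L₂) wl be [] a F₁ ∧ MC T Fs [x] (L₁ ++ [y]) [] [] b F₂ ∧
      ∀ v, v ∈ verts (x :: y :: L₂ ++ be ++ wl.reverse ++ [a]) F₁ →
        v ∈ verts ([x] ++ (L₁ ++ [y]).reverse ++ [b]) F₂ → v = x ∨ v = y := by
  -- the boundary with root edge (b, a)
  have e0 : b :: bl ++ be ++ (a :: wl).reverse = b :: ((bl ++ be ++ wl.reverse) ++ [a]) := by simp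
  have hM : bl ++ be ++ wl.reverse ≠ [] := by
    intro e
    have := congrArg List.length e
    simp only [List.length_append, List.length_reverse, List.length_nil] at this
    have hw : wl.length = 0 := by omega
    exact hwl (List.length_eq_zero_iff.1 hw)
  have hdisc : Disc (b :: ((bl ++ be ++ wl.reverse) ++ [a])) F := e0 ▸ h.reg.disc
  have hnd := hdisc.nodup
  have hroot : ∀ f ∈ F, a ∈ f → b ∈ f → f = {a, b, x} := by
    intro f hf ha hb
    exact Disc.root_unique hdisc hM hf hx hb ha (by simp) (by simp)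
  have hxa : x ≠ a := by
    rintro rfl
    exact hxl (by simp)
  have hxb : x ≠ b := by
    rintro rfl
    exact hxl (by simp)
  obtain ⟨t, F', hf0, hF, hcase⟩ := Disc.peel hdisc hM
  have htx : t = x := by
    have h3 : ({b, a, t} : Finset V) = {a, b, x} :=
      hroot _ (by rw [hF]; exact Finset.mem_insert_self _ _) (by simp) (by simp)
    have h4 : x ∈ ({b, a, t} : Finset V) := by rw [h3]; simp
    simp only [Finset.mem_insert, Finset.mem_singleton] at h4
    rcases h4 with h4 | h4 | h4
    · exact absurd h4 hxb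
    · exact absurd h4 hxa
    · exact h4.symm
  subst htx
  rcases hcase with ⟨_, hd', hnadj⟩ | ⟨m₁, m₂, F₁, F₂, hmm, -, -, -, -, -⟩
  swap
  · exfalso
    apply hxl
    rw [e0, hmm]
    simp
  -- the last black vertex adjacent to x
  obtain ⟨L₁, y, L₂, hbl, hPy, hlast⟩ := CombD_last (P := fun v => AdjF F t v) hy hxy
  subst hbl
  have hya : y ≠ a := by
    intro e
    have e1 : b :: ((L₁ ++ y :: L₂ ++ be ++ wl.reverse) ++ [a]) =
        (b :: (L₁ ++ y :: L₂ ++ be ++ wl.reverse)) ++ [a] := by simp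
    rw [e1] at hnd
    exact (List.nodup_append.1 hnd).2.2 y (by simp) a (by simp) e
  have hyb : y ≠ b := by
    rintro rfl
    simp at hnd
  have hyt : AdjF F' y t := by
    obtain ⟨h3, f, hf, h4, h5⟩ := hPy
    rw [hF] at hf
    rcases Finset.mem_insert.1 hf with rfl | hf
    · exfalso
      simp only [Finset.mem_insert, Finset.mem_singleton] at h5
      rcases h5 with h5 | h5 | h5
      · exact hyb h5
      · exact hya h5
      · exact h3 h5.symm
    · exact ⟨h3.symm, f, hf, h5, h4⟩
  have hd2 : Disc ((b :: L₁) ++ y :: ((L₂ ++ be ++ wl.reverse ++ [a]) ++ t :: [])) F' := by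
    have e : (b :: L₁) ++ y :: ((L₂ ++ be ++ wl.reverse ++ [a]) ++ t :: []) =
        b :: ((L₁ ++ y :: L₂ ++ be ++ wl.reverse) ++ [a, t]) := by simp
    rw [e]
    exact hd'
  obtain ⟨G₁, G₂, hFG, hG, hg1, hg2, hw⟩ := Disc.chord hd2 (by simp) (Or.inl (by simp)) hyt
  have hg1' : Disc ((t :: y :: L₂) ++ be ++ wl.reverse ++ [a]) G₁ := by
    have h3 : Disc ((y :: (L₂ ++ be ++ wl.reverse ++ [a])) ++ [t]) G₁ := by simpa using hg1
    have h4 := Disc.append_comm h3
    simpa using h4
  have hg2' : Disc ([t] ++ (L₁ ++ [y]).reverse ++ [b]) G₂ := by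
    have h3 := Disc.reverse hg2
    simpa using h3
  -- the intersection
  have hw' : ∀ v, v ∈ verts ((t :: y :: L₂) ++ be ++ wl.reverse ++ [a]) G₁ →
      v ∈ verts ([t] ++ (L₁ ++ [y]).reverse ++ [b]) G₂ → v = t ∨ v = y := by
    intro v hv1 hv2
    have h3 : v ∈ verts (y :: ((L₂ ++ be ++ wl.reverse ++ [a]) ++ [t])) G₁ := by
      rw [DiscB_mem_verts] at hv1 ⊢
      rcases hv1 with hv1 | hv1
      · left
        simp only [List.mem_cons, List.mem_append, List.not_mem_nil, or_false] at hv1 ⊢
        tauto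
      · exact Or.inr hv1
    have h4 : v ∈ verts ((b :: L₁) ++ y :: t :: []) G₂ := by
      rw [DiscB_mem_verts] at hv2 ⊢
      rcases hv2 with hv2 | hv2
      · left
        simp only [List.mem_cons, List.mem_append, List.mem_reverse, List.not_mem_nil, or_false] at hv2 ⊢
        tauto
      · exact Or.inr hv2
    rcases hw v h3 h4 with h5 | h5
    · exact Or.inr h5
    · exact Or.inl h5
  -- subsets
  have hG1F : G₁ ⊆ F := by
    rw [hF, hFG]
    exact fun g hg => Finset.mem_insert_of_mem (Finset.mem_union_left _ hg)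
  have hG2F : G₂ ⊆ F := by
    rw [hF, hFG]
    exact fun g hg => Finset.mem_insert_of_mem (Finset.mem_union_right _ hg)
  have htv : t ∈ verts (b :: ((L₁ ++ y :: L₂ ++ be ++ wl.reverse) ++ [a])) F :=
    DiscA_mem_verts_right hx (by simp)
  have hin1 : ∀ v, v ∈ verts ((t :: y :: L₂) ++ be ++ wl.reverse ++ [a]) G₁ →
      v ∈ verts (b :: (L₁ ++ y :: L₂) ++ be ++ (a :: wl).reverse) F := by
    intro v hv
    rw [e0]
    rw [DiscB_mem_verts] at hv
    rcases hv with hv | ⟨f, hf, hvf⟩
    · by_cases hvt : v = t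
      · rw [hvt]; exact htv
      · exact DiscA_mem_verts_left (CombD_in1 hvt hv)
    · exact DiscA_mem_verts_right (hG1F hf) hvf
  have hin2 : ∀ v, v ∈ verts ([t] ++ (L₁ ++ [y]).reverse ++ [b]) G₂ →
      v ∈ verts (b :: (L₁ ++ y :: L₂) ++ be ++ (a :: wl).reverse) F := by
    intro v hv
    rw [e0]
    rw [DiscB_mem_verts] at hv
    rcases hv with hv | ⟨f, hf, hvf⟩
    · by_cases hvt : v = t
      · rw [hvt]; exact htv
      · exact DiscA_mem_verts_left (CombD_in2 hvt hv)
    · exact DiscA_mem_verts_right (hG2F hf) hvf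
  have hout1 : ∀ v, v ∈ verts ((t :: y :: L₂) ++ be ++ wl.reverse ++ [a]) G₁ →
      v ∉ (t :: y :: L₂) ++ be ++ wl.reverse ++ [a] →
      v ∉ b :: (L₁ ++ y :: L₂) ++ be ++ (a :: wl).reverse := by
    intro v hv hvl hmem
    have h3 : v ∉ verts ([t] ++ (L₁ ++ [y]).reverse ++ [b]) G₂ := by
      intro h4
      rcases hw' v hv h4 with rfl | rfl
      · exact hvl (by simp)
      · exact hvl (by simp)
    rcases CombD_split (t := t) hmem with h5 | h5
    · exact hvl h5
    · exact h3 (DiscA_mem_verts_left h5)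
  have hout2 : ∀ v, v ∈ verts ([t] ++ (L₁ ++ [y]).reverse ++ [b]) G₂ →
      v ∉ [t] ++ (L₁ ++ [y]).reverse ++ [b] →
      v ∉ b :: (L₁ ++ y :: L₂) ++ be ++ (a :: wl).reverse := by
    intro v hv hvl hmem
    have h3 : v ∉ verts ((t :: y :: L₂) ++ be ++ wl.reverse ++ [a]) G₁ := by
      intro h4
      rcases hw' v h4 hv with rfl | rfl
      · exact hvl (by simp)
      · exact hvl (by simp)
    rcases CombD_split (t := t) hmem with h5 | h5
    · exact h3 (DiscA_mem_verts_left h5)
    · exact hvl h5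
  have hreg1 : Reg T Fs ((t :: y :: L₂) ++ be ++ wl.reverse ++ [a]) G₁ := by
    refine ⟨hg1', hG1F.trans h.reg.sub, fun v hv hvl => ?_⟩
    obtain ⟨h3, h4⟩ := h.reg.star v (hin1 v hv) (hout1 v hv hvl)
    refine ⟨h3, fun f hf hvf => ?_⟩
    have h5 := h4 f hf hvf
    have h6 : v ∉ verts ([t] ++ (L₁ ++ [y]).reverse ++ [b]) G₂ := by
      intro h4
      rcases hw' v hv h4 with rfl | rfl
      · exact hvl (by simp)
      · exact hvl (by simp)
    rw [hF, hFG] at h5
    rcases Finset.mem_insert.1 h5 with rfl | h5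
    · exfalso
      simp only [Finset.mem_insert, Finset.mem_singleton] at hvf
      rcases hvf with rfl | rfl | rfl
      · exact h6 (DiscA_mem_verts_left (by simp))
      · exact hvl (by simp)
      · exact hvl (by simp)
    · rcases Finset.mem_union.1 h5 with h5 | h5
      · exact h5
      · exact absurd (DiscA_mem_verts_right h5 hvf) h6
  have hreg2 : Reg T Fs ([t] ++ [] ++ (L₁ ++ [y]).reverse ++ [b]) G₂ := by
    rw [List.append_nil]
    refine ⟨hg2', hG2F.trans h.reg.sub, fun v hv hvl => ?_⟩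
    obtain ⟨h3, h4⟩ := h.reg.star v (hin2 v hv) (hout2 v hv hvl)
    refine ⟨h3, fun f hf hvf => ?_⟩
    have h5 := h4 f hf hvf
    have h6 : v ∉ verts ((t :: y :: L₂) ++ be ++ wl.reverse ++ [a]) G₁ := by
      intro h4
      rcases hw' v h4 hv with rfl | rfl
      · exact hvl (by simp)
      · exact hvl (by simp)
    rw [hF, hFG] at h5
    rcases Finset.mem_insert.1 h5 with rfl | h5
    · exfalso
      simp only [Finset.mem_insert, Finset.mem_singleton] at hvf
      rcases hvf with rfl | rfl | rfl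
      · exact hvl (by simp)
      · exact h6 (DiscA_mem_verts_left (by simp))
      · exact hvl (by simp)
    · rcases Finset.mem_union.1 h5 with h5 | h5
      · exact absurd (DiscA_mem_verts_right h5 hvf) h6
      · exact h5
  refine ⟨L₁, y, L₂, G₁, G₂, rfl, hPy, by rw [hF, hFG], hG, hFG ▸ hf0, ?_, ?_, hw'⟩
  · -- the main part
    refine ⟨hreg1, ?_, ?_, ?_, ?_⟩
    · intro p a' b' q c s hl hadj
      rcases p with _ | ⟨p0, p⟩
      · rw [List.nil_append, List.cons.injEq, List.cons.injEq] at hl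
        obtain ⟨h3, -, h5⟩ := hl
        subst h3
        exact hlast c (by rw [h5]; simp) (CombA_adj_mono hG1F hadj)
      · rw [List.cons_append, List.cons.injEq] at hl
        refine h.chB (b :: (L₁ ++ p)) a' b' q c s ?_ (CombA_adj_mono hG1F hadj)
        rw [hl.2]
        simp
    · intro p a' b' q c s hl hadj
      exact CombA_chless_tail h.chW p a' b' q c s hl (CombA_adj_mono hG1F hadj)
    · intro v hv hadj
      have hadj' := CombA_adj_mono hG1F hadj
      rw [List.tail_cons, List.mem_append, List.mem_append] at hv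
      rcases hv with (hv | hv) | hv
      · exact h1 v (List.mem_append_right _ hv) hadj'
      · exact hbe v hv hadj'
      · exact CombA_chless_head h.chW hv hadj'
    · intro c hcv hcl hac v hv hadj
      rw [List.tail_cons, List.append_nil] at hv
      have hcout := hout1 c hcv hcl
      refine h2 c (hin1 c hcv) hcout (CombA_adj_mono hG1F hac) ?_ v
        (List.mem_append_right _ hv) (CombA_adj_mono hG1F hadj)
      intro hmem
      have h3 : ({a, b, c} : Finset V) = {a, b, t} := hroot _ hmem (by simp) (by simp)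
      have h4 : c ∈ ({a, b, t} : Finset V) := by rw [← h3]; simp
      simp only [Finset.mem_insert, Finset.mem_singleton] at h4
      rcases h4 with rfl | rfl | rfl
      · exact hcl (by simp)
      · exact hcout (by simp)
      · exact hcl (by simp)
  · -- the pocket
    refine ⟨hreg2, ?_, ?_, ?_, ?_⟩
    · intro p a' b' q c s hl
      have := congrArg List.length hl
      simp only [List.length_cons, List.length_append, List.length_nil] at this
      omega
    · intro p a' b' q c s hl hadj
      refine h.chB (b :: p) a' b' q c (s ++ L₂) ?_ (CombA_adj_mono hG2F hadj)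
      have e : L₁ ++ y :: L₂ = (L₁ ++ [y]) ++ L₂ := by simp
      rw [e, hl]
      simp
    · intro v hv hadj
      refine CombA_chless_head h.chB (v := v) ?_ (CombA_adj_mono hG2F hadj)
      rw [List.tail_cons, List.nil_append, List.nil_append] at hv
      have e : L₁ ++ y :: L₂ = (L₁ ++ [y]) ++ L₂ := by simp
      rw [e, List.tail_append_of_ne_nil (by simp)]
      exact List.mem_append_left _ hv
    · intro c _ _ _ v hv
      simp at hv

end EPG26
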