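import Pool.Agent.W_26e041_h61.CombC
import Pool.Agent.W_26e041_h61.CombD

/-!
The rules for N-states.
-/

namespace EPG26

variable {V : Type*} [DecidableEq V]

/-- The three rules. If `bl = []` use `NC.payA`. Otherwise, in this order: a later black neighbour of
`a` (`NC.payB1`), an inner neighbour `c` of `a` with `{a, b, c} ∉ F` adjacent to a later black vertex
(`NC.payB2`), an inner `x` with `{a, b, x} ∈ F` adjacent to a later black vertex (`NC.stepT`), and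
otherwise `NC.payA`. -/
theorem NC.rules {G : SimpleGraph V} {T : Finset V} {Fs : Finset (Finset V)}
    {J : Finset V → Finset V} (hc : Ctx G T Fs J) {b a : V} {bl wl be : List V}
    {F : Finset (Finset V)} (h : NC T Fs (b :: bl) (a :: wl) be F) (hwl : wl ≠ [])
    (hbe : ∀ v ∈ be, ¬ AdjF F a v) :
    MC T Fs (b :: bl) wl be [] a F ∨
    (bl ≠ [] ∧ MC T Fs (a :: wl) bl be.reverse be b F) ∨
    ∃ x L₁ y L₂ F₁ F₂, x ∈ verts (b :: bl ++ be ++ (a :: wl).reverse) F ∧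
      x ∉ b :: bl ++ be ++ (a :: wl).reverse ∧ bl = L₁ ++ y :: L₂ ∧ AdjF F x y ∧
      F = insert {b, a, x} (F₁ ∪ F₂) ∧ Disjoint F₁ F₂ ∧ ({b, a, x} : Finset V) ∉ F₁ ∪ F₂ ∧
      MC T Fs (x :: y :: L₂) wl be [] a F₁ ∧ MC T Fs [x] (L₁ ++ [y]) [] [] b F₂ ∧
      ∀ v, v ∈ verts (x :: y :: L₂ ++ be ++ wl.reverse ++ [a]) F₁ →
        v ∈ verts ([x] ++ (L₁ ++ [y]).reverse ++ [b]) F₂ → v = x ∨ v = y := by
  by_cases hbl : bl = []
  · left
    refine NC.payA h hbe ?_ ?_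
    · intro v hv
      rw [hbl] at hv
      exact absurd hv (by simp)
    · intro c _ _ _ v hv
      rw [hbl] at hv
      exact absurd hv (by simp)
  by_cases hB1 : ∃ y ∈ bl, AdjF F a y
  · obtain ⟨y, hy, hay⟩ := hB1
    exact Or.inr (Or.inl ⟨hbl, NC.payB1 h hwl hy hay⟩)
  have h1 : ∀ v ∈ bl, ¬ AdjF F a v := fun v hv hav => hB1 ⟨v, hv, hav⟩
  by_cases hB2 : ∃ c ∈ verts (b :: bl ++ be ++ (a :: wl).reverse) F,
      c ∉ b :: bl ++ be ++ (a :: wl).reverse ∧ AdjF F a c ∧ ({a, b, c} : Finset V) ∉ F ∧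
        ∃ y ∈ bl, AdjF F c y
  · obtain ⟨c, hcv, hcl, hac, hf, y, hy, hcy⟩ := hB2
    exact Or.inr (Or.inl ⟨hbl, NC.payB2 hc h hwl hcv hcl hac hy hcy hf⟩)
  by_cases hT : ∃ x, ({a, b, x} : Finset V) ∈ F ∧
      x ∉ b :: bl ++ be ++ (a :: wl).reverse ∧ ∃ y ∈ bl, AdjF F x y
  · obtain ⟨x, hx, hxl, y₀, hy, hxy⟩ := hT
    have hxv : x ∈ verts (b :: bl ++ be ++ (a :: wl).reverse) F := by
      refine Finset.mem_union_right _ (Finset.mem_biUnion.2 ⟨_, hx, ?_⟩)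
      simp
    obtain ⟨L₁, y, L₂, F₁, F₂, g1, g2, g3, g4, g5, g6, g7, g8⟩ :=
      NC.stepT hc h hwl hbe h1 hx hxl hy hxy
        (fun c hcv hcl hac hf v hv hcw => hB2 ⟨c, hcv, hcl, hac, hf, v, hv, hcw⟩)
    exact Or.inr (Or.inr ⟨x, L₁, y, L₂, F₁, F₂, hxv, hxl, g1, g2, g3, g4, g5, g6, g7, g8⟩)
  · left
    refine NC.payA h hbe h1 ?_
    intro c hcv hcl hac v hv hcw
    by_cases hf : ({a, b, c} : Finset V) ∈ F
    · exact hT ⟨c, hf, hcl, v, hv, hcw⟩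
    · exact hB2 ⟨c, hcv, hcl, hac, hf, v, hv, hcw⟩

end EPG26
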