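import Pool.Agent.W_26e041_h61.MachC
import Pool.Agent.W_26e041_h61.CoreG1
import Pool.Agent.W_26e041_h61.CoreG2
import Pool.Agent.W_26e041_h61.CoreC1
import Pool.Agent.W_26e041_h61.CoreC2
import Pool.Agent.W_26e041_h39.CD8

/-!
The core: a region whose boundary contains, between the black base `d` and the white base `a0`,
vertices `be` which have to be put on the line of `ow`.
-/

namespace EPG26

variable {V : Type*} [DecidableEq V]

/-- finishing property: a path -/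
def PI : V → Cov → Prop := fun _ C => IsPath3 C

/-- finishing property: a path, for `v` with an extendable stub -/
def PE (v : V) (Λ e : ℚ) : V → Cov → Prop :=
  fun w C => (w = v → Ext Λ e C) ∧ (w ≠ v → IsPath3 C)

/-- where the core may draw -/
def coreD (U : Bool → Finset ℚ) (D : Cov) (Λ Xd c0 X0 lo hi s0 s1 B T₁ : ℚ) : Cov :=
  D ⊓ (lineD U Λ Xd c0 X0 lo hi s0 s1 ⊔ band B T₁)

/-- The core.
If `be = []` apply `closedM1`; the line is not changed (`LineOK.grow`), `lv = d`.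
If `be ≠ []` apply `run` (third part): a state `NG` with `W = []`, blacks `L'` and faces `F'`. `L' ≠ []`:
otherwise the boundary list is `[d] ++ be ++ [a0]` and `AdjF F' d a0` by `Disc.root_adj`, against
`Side.base`. So `L' = N₁ :: L''`. The link zone (`Side.lk`), `CIn` (with `D`; `hac`, `hdc`, `hrow` survive
because the run does not draw in the line `Xd`, on `Y0` right of `Xd`, on `X0` above `Y0`).
Write `rv L' = nl ++ [m]`, `be = b₁ :: be'`.
Case `{d, m, b₁} ∈ F'` (`NC.flip0`): choose `B' < yl < N₁.g` (`s1 ≤ B ≤ yl`), `Y0 < y₁ < T₁`, `placeL` with all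
kinds `conn`, interval `(a, X0)` with `a = e > Xd`, then `flip0G` (with `P = PE lv Λ e'`, `Pend.mono_P`), and
`closedN` for the reflected drawing (`Ctx`, `Reg` do not depend on the drawing; use `Step.fl` etc. to
transfer the result back): `rW` is the chain `be ++ [a0]`, realized by `placeL` and `hEx`; `rL` the
reversed chain of `L'`; `rB` by `flip0G`.
Case `{d, m, b₁} ∉ F'` (`NC.flip1`): `be ++ [a0] = bt ++ c :: rest`; choose `y₁ < Yt` between all black lines
and `Y0`; kinds `tail` for `bt`, `conn` for the other vertices of `be`; `placeL`, `trickYG`, `closedM1` for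
part A, then `closedM2` for part B in the reflected drawing.
In both cases: `up` is the main column of the last placed vertex if it is `conn`, and its column `g` if it
is `tail`; it is clean between `T₁` and `T₂` since all runs draw below `T₁` or on new lines. The last
placed vertex `lv` is finished with `Ext Λ e'`. -/
theorem core {G : SimpleGraph V} {T : Finset V} {Fs : Finset (Finset V)}
    {J : Finset V → Finset V} {Ex : V → V → Prop} (hc : Ctx G T Fs J)
    (hE : ∀ u v, Ex u v → Ex v u) {Γ : Dr V} {U : Bool → Finset ℚ} {D D₁ : Cov}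
    {z : V} {Xz h A B : ℚ} {W : List (Rec V)} {a0 : V} {X0 Xd : ℚ} {L : List (Rec V)} {d : V}
    {Y0 : ℚ} {be : List V} {F : Finset (Finset V)} {ow : V} {Λ c0 e R lo hi s0 s1 T₁ T₂ : ℚ}
    (hM : MG1 G PI T Fs J Ex Γ U D₁ z Xz h A B W a0 X0 Xd L d Y0 Y0 be F)
    (hD : Adm U D) (hD₁ : D₁ ≤ D) (h1 : ∀ x, x ∉ D₁ true Xd)
    (h2 : ∀ x, x ∈ D₁ false Y0 → x < Xd) (h3 : ∀ x, x ∈ D₁ true X0 → x < Y0)
    (h4 : ∀ x, x ∉ D₁ false Λ) (h5 : ∀ o l x, x ∈ D₁ o l → x ∈ (nl U ⊔ band B T₁) o l)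
    (hYD : ∀ x, x ∈ D false Y0) (hrow : ∀ x, Xd ≤ x → x ≤ X0 → ∀ v, x ∉ Γ v false Y0)
    (hdc : SW Γ D {d} true Xd B Y0) (hac : SW Γ D {a0} true X0 B T₁) (hYT : Y0 < T₁)
    (hTT : T₁ < T₂) (hL : LineOK Γ D ow Λ d Xd c0 e R lo hi s0 s1) (hs : s1 ≤ B)
    (he : e < X0) (hR : X0 ≤ R) (hext : Ext Λ e (Γ d))
    (hch : Chless F (d :: be ++ [a0]))
    (hln : List.IsChain (fun p q => ({ow, p, q} : Finset V) ∈ Fs) (d :: be))
    (hlF : Disjoint F (fanF ow (d :: be)))
    (hnd : (ow :: (lN W a0 L d be ++ [z])).Nodup) (hdo : G.Adj d ow)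
    (how : ow ∉ verts (lN W a0 L d be ++ [z]) F)
    (hbe : ∀ p ∈ be, Undrawn Γ p)
    (hJ : ∀ f ∈ fanF ow (d :: be), ∀ q ∈ J f, Undrawn Γ q)
    (hEx : ∀ lv, (d :: be).getLast? = some lv → Ex lv a0) :
    ∃ Γ' U' lv lc' c0' e' lo' s0' up, (d :: be).getLast? = some lv ∧
      Step G Γ U (coreD U D Λ Xd c0 X0 lo hi s0 s1 B T₁)
        {v | v ∈ KSet J (lN W a0 L d be ++ [z]) F W L ∨ v ∈ d :: be ∨
          ∃ f ∈ fanF ow (d :: be), v ∈ J f} Γ' U' ∧
      LineOK Γ' D ow Λ lv lc' c0' e' R lo' hi s0' s1 ∧ e' < X0 ∧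
      (∀ v, v ∈ KSet J (lN W a0 L d be ++ [z]) F W L ∨ v ∈ d :: be ∨
          (∃ f ∈ fanF ow (d :: be), v ∈ J f) → v ≠ lv → IsPath3 (Γ' v)) ∧
      Ext Λ e' (Γ' lv) ∧ (∀ f ∈ F ∪ fanF ow (d :: be), Filled G Γ' (J f)) ∧
      (∀ f ∈ F ∪ fanF ow (d :: be), ∀ p ∈ f, ∀ q ∈ f, p ≠ q → Rz Ex Γ' p q) ∧
      (be ≠ [] → SW Γ' D {lv} true up T₁ T₂ ∧ Xd < up ∧ up < X0 ∧ up ∉ U true) := by
  have hr : Reg T Fs (lN W a0 L d be ++ [z]) F := hM.comb.reg
  have hFs : fanF ow (d :: be) ⊆ Fs := CD6_fan (G := G) hln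
  have hcoreD : D₁ ≤ coreD U D Λ Xd c0 X0 lo hi s0 s1 B T₁ := by
    intro o l x hx
    refine ⟨hD₁ o l hx, ?_⟩
    rcases h5 o l x hx with h | h
    · exact Or.inl (Or.inl (Or.inl (Or.inl h)))
    · exact Or.inr h
  cases be with
  | nil =>
    obtain ⟨Γ', U', g1, g2, g3, g4⟩ := closedM1 hc hE hM
    have hd : d ∉ KSet J (lN W a0 L d [] ++ [z]) F W L := CD7_K0 hc hr (Or.inl rfl)
    have hfan : fanF ow [d] = ∅ := rfl
    refine ⟨Γ', U', d, Xd, c0, e, lo, s0, 0, rfl, ?_, ?_, he, ?_, ?_, ?_, ?_,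
      fun h => absurd rfl h⟩
    · exact g1.weaken hcoreD fun v hv => Or.inl hv
    · exact hL.grow g1.grow (fun x _ _ => h4 x) (fun x _ _ => h4 x) (fun x _ _ => h1 x)
    · intro v hv hvd
      rcases hv with hv | hv | ⟨f, hf, -⟩
      · exact g2 v hv
      · exact absurd (List.mem_singleton.1 hv) hvd
      · rw [hfan] at hf
        exact absurd hf (Finset.notMem_empty f)
    · rw [g1.grow.eq hd]
      exact hext
    · rw [hfan, Finset.union_empty]
      exact g3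
    · rw [hfan, Finset.union_empty]
      exact g4
  | cons b₁ be =>
    have hXX : Xd < X0 := (hL.h3.trans_lt hL.h4).trans he
    have hBY : B < Y0 := hM.geo.n.ordB.lt
    obtain ⟨Γ₁, U₁, D₂, A₁, B₁, N₁, L₁, F₁, l₀, l₁, hp, hCR, hBB⟩ :=
      CD_run hc hE hM (List.cons_ne_nil _ _) hD hD₁ h1 h2 h3 h4 h5 hYD hrow hdc hac hYT hXX
    have hL1 : LineOK Γ₁ D ow Λ d Xd c0 e R lo hi s0 s1 :=
      hL.grow hp.step.grow (fun x _ _ => h4 x) (fun x _ _ => h4 x) (fun x _ _ => h1 x)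
    have hlF1 : Disjoint F₁ (fanF ow (d :: b₁ :: be)) :=
      Finset.disjoint_of_subset_left hp.hF hlF
    have hsub : (d :: b₁ :: be).Sublist (lN W a0 L d (b₁ :: be) ++ [z]) := by
      have e1 : lN W a0 L d (b₁ :: be) ++ [z] =
          rv L ++ ((d :: b₁ :: be) ++ ((rv W ++ [a0]).reverse ++ [z])) := by
        simp only [lN, List.append_assoc, List.cons_append, List.nil_append]
      rw [e1]
      exact (List.sublist_append_left _ _).trans (List.sublist_append_right _ _)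
    have hnd1 : (ow :: d :: b₁ :: be).Nodup := hnd.sublist (hsub.cons_cons ow)
    have hun1 : ∀ p ∈ b₁ :: be, Undrawn Γ₁ p := fun p hpb =>
      (hbe p hpb).grow hp.step.grow (CD7_K0 hc hr (Or.inr hpb))
    have hJ1 : ∀ f ∈ fanF ow (d :: b₁ :: be), ∀ q ∈ J f, Undrawn Γ₁ q := fun f hf q hq =>
      (hJ f hf q hq).grow hp.step.grow
        (CD7_fan hc hr (hFs hf) (fun h => Finset.disjoint_left.1 hlF h hf) hq)
    obtain ⟨Γ₂, U₂, qs, s, lv, lc', c0', e', lo', s0', Yt, yl, y₁, f1, f2, f3, f4, f5, f6, f7, f8,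
      f9, f10, f11, f12, f13, f14, f15, f16, f17⟩ := CD_case hc hE hCR hL1 (hs.trans hBB) he hR
        hTT hln hlF1 hnd1 hdo hun1 hJ1 (CombB_chless hp.hF hch) hEx
    exact CD_fin hc hE hr hD₁ h5 hYT hBY hL.zone hL.h4 hM.wd hs hext hln hlF
      (hL.h3.trans hL.h4.le) hp hBB hCR.reg f1 f2 f3 f4 f5 f6 f7 f8 f9 f10
      (CD8_mem f10 (List.cons_ne_nil _ _)) f11 f12 f13 f14 f15 f16 hTT f17

end EPG26
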