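import Pool.Agent.W_26e041_h61.LineC

/-!
Geometry at the end of the first phase: no pending white vertices are left, the vertices of `be` are
on their line, the drawing is reflected.
-/

namespace EPG26

variable {V : Type*} [DecidableEq V]

/-- second coordinate between `a` and `b` -/
def band (a b : ℚ) : Cov := fun o l => {x | if o then a ≤ x ∧ x ≤ b else a ≤ l ∧ l ≤ b}

/-- first coordinate at least `p` -/
def xge (p : ℚ) : Cov := fun o l => {x | if o then p ≤ l else p ≤ x}

/-- The state after the first phase: whites only the base `a0`; blacks `L` and base `d`, whose line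
`Y0` ends at its column `Xd`; right of `Xd` the line `Y0` is empty; the column of `a0` reaches
above `T₁`. -/
structure CIn (P : V → Cov → Prop) (Γ : Dr V) (U : Bool → Finset ℚ) (D : Cov) (A B : ℚ)
    (L : List (Rec V)) (d : V) (Xd Y0 : ℚ) (a0 : V) (X0 T₁ : ℚ) : Prop where
  n : NSt P Γ U D A B [] a0 X0 Xd L d Y0 Y0
  pl : ∀ r ∈ L, r.pl = true
  lt : Xd < X0
  YT : Y0 < T₁
  rowD : ∀ x, x ∈ D false Y0
  row : ∀ x, Xd ≤ x → x ≤ X0 → ∀ v, x ∉ Γ v false Y0
  dcol : SW Γ D {d} true Xd B Y0
  acol : SW Γ D {a0} true X0 B T₁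

end EPG26
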