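import Mathlib

/-!
MP_26e041_co, every planar graph has a 3-bend EPG representation.
Basic definitions: the statement, drawings, discs.
-/

namespace EPG26

/-! ### the statement -/

/-- two grid points are neighbours in the planar square grid -/
def UnitStep (p q : ℤ × ℤ) : Prop :=
  (p.2 = q.2 ∧ (q.1 = p.1 + 1 ∨ p.1 = q.1 + 1)) ∨
    (p.1 = q.1 ∧ (q.2 = p.2 + 1 ∨ p.2 = q.2 + 1))

/-- a grid path: a list of at least two distinct grid points, consecutive ones are neighbours -/
def IsGridPath (l : List (ℤ × ℤ)) : Prop := 2 ≤ l.length ∧ l.Nodup ∧ l.IsChain UnitStep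

/-- the grid edges of a path -/
def gridEdges : List (ℤ × ℤ) → Set (Sym2 (ℤ × ℤ))
  | a :: b :: t => {s(a, b)} ∪ gridEdges (b :: t)
  | _ => ∅

/-- the number of bends of a path: its interior points where it switches between horizontal and
vertical -/
def bends : List (ℤ × ℤ) → ℕ
  | a :: b :: c :: t =>
      (if (a.1 = b.1 ∧ b.1 = c.1) ∨ (a.2 = b.2 ∧ b.2 = c.2) then 0 else 1) + bends (b :: c :: t)
  | _ => 0

/-- `P` is an EPG representation of `G` in which every path has at most `k` bends -/
structure IsEPG {V : Type*} (G : SimpleGraph V) (k : ℕ) (P : V → List (ℤ × ℤ)) : Prop where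
  path : ∀ v, IsGridPath (P v)
  bend : ∀ v, bends (P v) ≤ k
  edge : ∀ u v, u ≠ v → (G.Adj u v ↔ ∃ e, e ∈ gridEdges (P u) ∧ e ∈ gridEdges (P v))

/-- `G` is a `k`-bend graph -/
def IsKBend {V : Type*} (G : SimpleGraph V) (k : ℕ) : Prop := ∃ P, IsEPG G k P

/-- `G` has a straight-line drawing in the plane without crossings: distinct vertices are distinct
points, no vertex lies on an edge not incident to it, and edges without a common end are disjoint -/
def Planar {V : Type*} (G : SimpleGraph V) : Prop :=
  ∃ p : V → ℝ × ℝ, Function.Injective p ∧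
    (∀ u v w, G.Adj u v → w ≠ u → w ≠ v → p w ∉ segment ℝ (p u) (p v)) ∧
    (∀ u v x y, G.Adj u v → G.Adj x y → u ≠ x → u ≠ y → v ≠ x → v ≠ y →
      Disjoint (segment ℝ (p u) (p v)) (segment ℝ (p x) (p y)))

/-! ### drawings with rational coordinates -/

/-- What one path covers: for an orientation (`false` horizontal, `true` vertical) and the
coordinate of a line, the set of covered positions on that line (a union of open intervals). -/
abbrev Cov := Bool → ℚ → Set ℚ

/-- a drawing: a coverage for every vertex (empty for vertices that are not drawn yet) -/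
abbrev Dr (V : Type*) := V → Cov

/-- the segment on the line with orientation `o` and coordinate `l` between positions `a`, `b` -/
def seg (o : Bool) (l a b : ℚ) : Cov :=
  fun o' l' => {x | o' = o ∧ l' = l ∧ min a b < x ∧ x < max a b}

/-- the coverage of an alternating path: its first segment lies on the line of orientation `o` with
coordinate `b` between positions `a` and `c`, the second one on the line of orientation `!o` with
coordinate `c` between `b` and `d`, and so on. -/
def zig : Bool → List ℚ → Cov
  | o, a :: b :: c :: t => fun o' l' => seg o b a c o' l' ∪ zig (!o) (b :: c :: t) o' l'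
  | _, _ => fun _ _ => ∅

/-- all segments of the alternating path have positive length -/
def ZigNd : List ℚ → Prop
  | a :: b :: c :: t => a ≠ c ∧ ZigNd (b :: c :: t)
  | _ => True

/-- a path with four segments does not meet itself: first and last segment are disjoint -/
def ZigSimple : List ℚ → Prop
  | [a0, a1, a2, a3, a4, a5] =>
      ¬ (min a0 a2 ≤ a4 ∧ a4 ≤ max a0 a2 ∧ min a3 a5 ≤ a1 ∧ a1 ≤ max a3 a5)
  | _ => True

/-- `C` is the coverage of a path with at most three bends -/
def IsPath3 (C : Cov) : Prop :=
  ∃ o : Bool, ∃ l : List ℚ, 3 ≤ l.length ∧ l.length ≤ 6 ∧ ZigNd l ∧ ZigSimple l ∧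
    ∀ o' l' x, x ∈ C o' l' ↔ x ∈ zig o l o' l'

/-- the paths of `u` and `v` overlap -/
def Ov {V : Type*} (Γ : Dr V) (u v : V) : Prop := ∃ o l x, x ∈ Γ u o l ∧ x ∈ Γ v o l

/-- overlapping paths belong to adjacent vertices -/
def Sound {V : Type*} (G : SimpleGraph V) (Γ : Dr V) : Prop :=
  ∀ u v, u ≠ v → Ov Γ u v → G.Adj u v

/-- exactly the vertices of `S` cover the positions between `a` and `b` of the line `(o, l)` -/
def Solo {V : Type*} (Γ : Dr V) (S : Set V) (o : Bool) (l a b : ℚ) : Prop :=
  ∀ x, a < x → x < b → ∀ v, x ∈ Γ v o l ↔ v ∈ S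

/-- all lines used by the drawing are in `U` -/
def LinesIn {V : Type*} (Γ : Dr V) (U : Bool → Finset ℚ) : Prop :=
  ∀ v o l x, x ∈ Γ v o l → l ∈ U o

/-- `v` is not drawn yet -/
def Undrawn {V : Type*} (Γ : Dr V) (v : V) : Prop := ∀ o l x, x ∉ Γ v o l

/-! ### discs -/

section disc

variable {V : Type*} [DecidableEq V]

/-- two different vertices lie in a common face of `F` -/
def AdjF (F : Finset (Finset V)) (u v : V) : Prop := u ≠ v ∧ ∃ f ∈ F, u ∈ f ∧ v ∈ f

/-- the vertices of a boundary list and of a set of faces -/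
def verts (l : List V) (F : Finset (Finset V)) : Finset V := l.toFinset ∪ F.biUnion id

/-- `Disc l F`: `F` is the set of faces (triangles) of a triangulated disc whose boundary cycle is
`l`. The root edge joins the first and the last vertex of `l`; a disc with two boundary vertices is
a single edge. Larger discs are described by the face at the root edge. -/
inductive Disc : List V → Finset (Finset V) → Prop
  | edge {a b : V} (h : a ≠ b) : Disc [a, b] ∅
  | inner {x : V} {m : List V} {y t : V} {F : Finset (Finset V)}
      (hd : Disc (x :: (m ++ [y, t])) F) (hm : m ≠ []) (hxy : ¬ AdjF F x y) :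
      Disc (x :: (m ++ [y])) (insert {x, y, t} F)
  | split {x : V} {m₁ : List V} {t : V} {m₂ : List V} {y : V} {F₁ F₂ : Finset (Finset V)}
      (h₁ : Disc (x :: (m₁ ++ [t])) F₁) (h₂ : Disc (t :: (m₂ ++ [y])) F₂)
      (hdis : ∀ v, v ∈ verts (x :: (m₁ ++ [t])) F₁ → v ∈ verts (t :: (m₂ ++ [y])) F₂ → v = t) :
      Disc (x :: (m₁ ++ t :: (m₂ ++ [y]))) (insert {x, y, t} (F₁ ∪ F₂))

end disc

end EPG26
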