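import Pool.Agent.W_26e041_h61.Defs

namespace EPG26

variable {V : Type*} [DecidableEq V]

theorem DiscA_mem_verts_left {l : List V} {F : Finset (Finset V)} {v : V} (h : v ∈ l) :
    v ∈ verts l F := Finset.mem_union_left _ (List.mem_toFinset.2 h)

theorem DiscA_mem_verts_right {l : List V} {F : Finset (Finset V)} {v : V} {f : Finset V}
    (hf : f ∈ F) (h : v ∈ f) : v ∈ verts l F :=
  Finset.mem_union_right _ (Finset.mem_biUnion.2 ⟨f, hf, h⟩)

/-- Induction on `Disc`. edge: clear. inner: the premise list `x :: (m ++ [y, t])` is nodup, so the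
sublist is. split: the two lists are nodup and by `hdis` they share only `t` (every list element is
in `verts`). -/
theorem Disc.nodup {l : List V} {F : Finset (Finset V)} (h : Disc l F) : l.Nodup := by
  induction h with
  | edge h => simp [h]
  | @inner x m y t F hd hm hxy ih =>
    have h1 : x :: (m ++ [y, t]) = (x :: (m ++ [y])) ++ [t] := by simp
    rw [h1] at ih
    exact ih.of_append_left
  | @split x m₁ t m₂ y F₁ F₂ h₁ h₂ hdis ih₁ ih₂ =>
    have h1 : x :: (m₁ ++ [t]) = (x :: m₁) ++ [t] := by simp
    have h2 : x :: (m₁ ++ t :: (m₂ ++ [y])) = (x :: m₁) ++ (t :: (m₂ ++ [y])) := by simp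
    have ih1 := ih₁
    rw [h1] at ih1
    rw [h2]
    refine List.Nodup.append ih1.of_append_left ih₂ ?_
    intro v hv hv'
    have h3 : v ∈ x :: (m₁ ++ [t]) := by
      rw [h1]
      exact List.mem_append_left _ hv
    have h4 : v = t := hdis v (DiscA_mem_verts_left h3) (DiscA_mem_verts_left hv')
    have h5 := (List.nodup_append.1 ih1).2.2 v hv t (by simp)
    exact h5 h4

/-- cases. -/
theorem Disc.two_le {l : List V} {F : Finset (Finset V)} (h : Disc l F) : 2 ≤ l.length := by
  cases h <;> simp <;> omega

/-- A disc with two boundary vertices is an edge: in `inner` the list has length at least three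
because `m ≠ []`, in `split` it has length at least three. -/
theorem Disc.empty_of_two {a b : V} {F : Finset (Finset V)} (h : Disc [a, b] F) : F = ∅ := by
  generalize hl : [a, b] = l at h
  cases h with
  | edge h => rfl
  | @inner x m y t F hd hm hxy =>
    exfalso
    have h1 := congrArg List.length hl
    simp only [List.length_cons, List.length_append, List.length_nil] at h1
    have h2 : m.length = 0 := by omega
    exact hm (List.length_eq_zero_iff.1 h2)
  | @split x m₁ t m₂ y F₁ F₂ h₁ h₂ hdis =>
    exfalso
    have h1 := congrArg List.length hl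
    simp only [List.length_cons, List.length_append, List.length_nil] at h1
    omega

/-- Induction: the new face `{x, y, t}` has three different vertices by `Disc.nodup` of the premise
(inner) resp. of the conclusion list (split). -/
theorem Disc.card3 {l : List V} {F : Finset (Finset V)} (h : Disc l F) :
    ∀ f ∈ F, f.card = 3 := by
  induction h with
  | edge h => simp
  | @inner x m y t F hd hm hxy ih =>
    intro f hf
    rcases Finset.mem_insert.1 hf with rfl | hf
    · have h1 := hd.nodup
      have hxy' : x ≠ y := by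
        rintro rfl
        simp at h1
      have hxt : x ≠ t := by
        rintro rfl
        simp at h1
      have hyt : y ≠ t := by
        rintro rfl
        have h2 : x :: (m ++ [y, y]) = (x :: m) ++ [y, y] := by simp
        rw [h2] at h1
        have h3 := h1.of_append_right
        simp at h3
      exact Finset.card_eq_three.2 ⟨x, y, t, hxy', hxt, hyt, rfl⟩
    · exact ih f hf
  | @split x m₁ t m₂ y F₁ F₂ h₁ h₂ hdis ih₁ ih₂ =>
    intro f hf
    rcases Finset.mem_insert.1 hf with rfl | hf
    · have h1 := h₁.nodup
      have h2 := h₂.nodup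
      have hxt : x ≠ t := by
        rintro rfl
        simp at h1
      have hyt : y ≠ t := by
        rintro rfl
        simp at h2
      have hxy' : x ≠ y := by
        intro hxy
        have h3 : x = t := hdis x (DiscA_mem_verts_left (by simp))
          (DiscA_mem_verts_left (by simp [hxy]))
        exact hxt h3
      exact Finset.card_eq_three.2 ⟨x, y, t, hxy', hxt, hyt, rfl⟩
    · rcases Finset.mem_union.1 hf with hf | hf
      · exact ih₁ f hf
      · exact ih₂ f hf

/-- The face at the root edge. Do `cases h` after generalising `x :: (m ++ [y])` (length at least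
three, so the constructor is `inner` or `split`; use `List.append_inj`-type lemmas on
`x :: (m ++ [y])`).
inner: `t ∉ l` by nodup of `x :: (m ++ [y, t])`, `{x,y,t} ∉ F'` because of `¬ AdjF F' x y`.
split: `{x,y,t} ∉ F₁` because `y ∉ verts (x :: (m₁ ++ [t])) F₁` (otherwise `y = t` by `hdis`,
contradicting nodup), `{x,y,t} ∉ F₂` because `x ∉ verts (t :: (m₂ ++ [y])) F₂`; `Disjoint F₁ F₂`
because a common face would have (card 3, `Disc.card3`) at least two vertices in both `verts`. -/
theorem Disc.peel {x y : V} {m : List V} {F : Finset (Finset V)}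
    (h : Disc (x :: (m ++ [y])) F) (hm : m ≠ []) :
    ∃ (t : V) (F' : Finset (Finset V)), ({x, y, t} : Finset V) ∉ F' ∧ F = insert {x, y, t} F' ∧
      ((t ∉ x :: (m ++ [y]) ∧ Disc (x :: (m ++ [y, t])) F' ∧ ¬ AdjF F' x y) ∨
        ∃ (m₁ m₂ : List V) (F₁ F₂ : Finset (Finset V)), m = m₁ ++ t :: m₂ ∧ F' = F₁ ∪ F₂ ∧
          Disjoint F₁ F₂ ∧ Disc (x :: (m₁ ++ [t])) F₁ ∧ Disc (t :: (m₂ ++ [y])) F₂ ∧
          ∀ v, v ∈ verts (x :: (m₁ ++ [t])) F₁ → v ∈ verts (t :: (m₂ ++ [y])) F₂ → v = t) := by
  generalize hl : x :: (m ++ [y]) = l at h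
  cases h with
  | edge hab =>
    exfalso
    have h1 := congrArg List.length hl
    simp only [List.length_cons, List.length_append, List.length_nil] at h1
    have h2 : m.length = 0 := by omega
    exact hm (List.length_eq_zero_iff.1 h2)
  | @inner x' m' y' t F' hd hm' hxy =>
    obtain ⟨rfl, h2⟩ := List.cons_eq_cons.1 hl
    obtain ⟨rfl, h3⟩ := List.append_inj' h2 rfl
    have h4 : y = y' := by simpa using h3
    subst h4
    have hnd := hd.nodup
    have hne : x ≠ y := by
      rintro rfl
      simp at hnd
    refine ⟨t, F', ?_, rfl, Or.inl ⟨?_, hd, hxy⟩⟩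
    · intro hmem
      exact hxy ⟨hne, _, hmem, by simp, by simp⟩
    · have h1 : x :: (m ++ [y, t]) = (x :: (m ++ [y])) ++ [t] := by simp
      rw [h1] at hnd
      intro hmem
      exact (List.nodup_append.1 hnd).2.2 t hmem t (by simp) rfl
  | @split x' m₁ t m₂ y' F₁ F₂ h₁ h₂ hdis =>
    obtain ⟨rfl, h2⟩ := List.cons_eq_cons.1 hl
    have h2' : m ++ [y] = (m₁ ++ t :: m₂) ++ [y'] := by
      rw [h2]
      simp
    obtain ⟨rfl, h3⟩ := List.append_inj' h2' rfl
    have h4 : y = y' := by simpa using h3
    subst h4
    have n1 := h₁.nodup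
    have n2 := h₂.nodup
    have hxt : x ≠ t := by
      rintro rfl
      simp at n1
    have hyt : y ≠ t := by
      rintro rfl
      simp at n2
    refine ⟨t, F₁ ∪ F₂, ?_, rfl, Or.inr ⟨m₁, m₂, F₁, F₂, rfl, rfl, ?_, h₁, h₂, hdis⟩⟩
    · intro hmem
      rcases Finset.mem_union.1 hmem with hmem | hmem
      · exact hyt (hdis y (DiscA_mem_verts_right hmem (by simp)) (DiscA_mem_verts_left (by simp)))
      · exact hxt (hdis x (DiscA_mem_verts_left (by simp)) (DiscA_mem_verts_right hmem (by simp)))
    · rw [Finset.disjoint_left]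
      intro f hf1 hf2
      have h5 : f ⊆ {t} := by
        intro v hv
        rw [Finset.mem_singleton]
        exact hdis v (DiscA_mem_verts_right hf1 hv) (DiscA_mem_verts_right hf2 hv)
      have h6 := Finset.card_le_card h5
      rw [h₁.card3 f hf1, Finset.card_singleton] at h6
      omega

/-- If the boundary has at least three vertices then the root edge lies in a face (from
`Disc.peel`). -/
theorem Disc.root_adj {x y : V} {m : List V} {F : Finset (Finset V)}
    (h : Disc (x :: (m ++ [y])) F) (hm : m ≠ []) : AdjF F x y := by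
  have hne : x ≠ y := by
    have hnd := h.nodup
    rintro rfl
    simp at hnd
  obtain ⟨t, F', _, rfl, _⟩ := h.peel hm
  exact ⟨hne, {x, y, t}, Finset.mem_insert_self _ _, by simp, by simp⟩

/-- The root edge lies in only one face. From `Disc.peel`: inner case by `¬ AdjF F' x y`; split
case: a face of `F₁` does not contain `y`, a face of `F₂` does not contain `x` (as in the proof of
`Disc.peel`). -/
theorem Disc.root_unique {x y : V} {m : List V} {F : Finset (Finset V)}
    (h : Disc (x :: (m ++ [y])) F) (hm : m ≠ []) {f g : Finset V} (hf : f ∈ F) (hg : g ∈ F)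
    (h1 : x ∈ f) (h2 : y ∈ f) (h3 : x ∈ g) (h4 : y ∈ g) : f = g := by
  have hne : x ≠ y := by
    have hnd := h.nodup
    rintro rfl
    simp at hnd
  obtain ⟨t, F', _, rfl, hc⟩ := h.peel hm
  have key : ∀ k ∈ insert {x, y, t} F', x ∈ k → y ∈ k → k = {x, y, t} := by
    intro k hk hx hy
    rcases Finset.mem_insert.1 hk with hk | hk
    · exact hk
    · exfalso
      rcases hc with ⟨_, _, hnadj⟩ | ⟨m₁, m₂, F₁, F₂, rfl, rfl, _, h₁, h₂, hdis⟩
      · exact hnadj ⟨hne, k, hk, hx, hy⟩
      · have n1 := h₁.nodup
        have n2 := h₂.nodup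
        have hxt : x ≠ t := by
          rintro rfl
          simp at n1
        have hyt : y ≠ t := by
          rintro rfl
          simp at n2
        rcases Finset.mem_union.1 hk with hk | hk
        · exact hyt (hdis y (DiscA_mem_verts_right hk hy) (DiscA_mem_verts_left (by simp)))
        · exact hxt (hdis x (DiscA_mem_verts_left (by simp)) (DiscA_mem_verts_right hk hx))
  rw [key f hf h1 h2, key g hg h3 h4]

end EPG26
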