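import Pool.Agent.W_26e041_h61.DiscA

namespace EPG26

variable {V : Type*} [DecidableEq V]

/-- rotation by one position gives all rotations -/
theorem DiscB_app {G : Finset (Finset V)}
    (hR : ∀ (a : V) (t : List V), Disc (a :: t) G → Disc (t ++ [a]) G) :
    ∀ (p q : List V), Disc (p ++ q) G → Disc (q ++ p) G
  | [], q, h => by simpa using h
  | a :: p, q, h => by
    have h1 := hR a (p ++ q) h
    rw [List.append_assoc] at h1
    have h2 := DiscB_app hR p (q ++ [a]) h1
    rwa [List.append_assoc, List.singleton_append] at h2

theorem DiscB_concat {m m₁ L : List V} {y s b : V}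
    (h : m ++ [s] = m₁ ++ y :: (L ++ [b])) : m = m₁ ++ y :: L ∧ s = b := by
  have h' : m ++ [s] = (m₁ ++ y :: L) ++ [b] := by simpa using h
  obtain ⟨h1, h2⟩ := List.append_inj' h' rfl
  exact ⟨h1, by simpa using h2⟩

theorem DiscB_concat0 {m m₁ : List V} {y s : V}
    (h : m ++ [s] = m₁ ++ [y]) : m = m₁ ∧ s = y := by
  obtain ⟨h1, h2⟩ := List.append_inj' h rfl
  exact ⟨h1, by simpa using h2⟩

theorem DiscB_mem_verts {l : List V} {F : Finset (Finset V)} {v : V} :
    v ∈ verts l F ↔ v ∈ l ∨ ∃ f ∈ F, v ∈ f := by
  simp [verts]

theorem DiscB_mono {F G : Finset (Finset V)} (h : F ⊆ G) {u v : V} (hn : ¬ AdjF G u v) :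
    ¬ AdjF F u v := by
  rintro ⟨h1, f, hf, h2⟩
  exact hn ⟨h1, f, h hf, h2⟩

theorem DiscB_main : ∀ (n : ℕ) (F : Finset (Finset V)), F.card = n → ∀ (a : V) (t : List V),
    Disc (a :: t) F → Disc (t ++ [a]) F := by
  intro n
  induction n using Nat.strong_induction_on with
  | _ n ih =>
    intro F hF a t h
    -- all rotations of smaller discs
    have IH : ∀ (G : Finset (Finset V)) (p q : List V), G.card < n → Disc (p ++ q) G →
        Disc (q ++ p) G := fun G p q hG hd =>
      DiscB_app (fun b u hb => ih G.card hG G rfl b u hb) p q hd
    rcases List.eq_nil_or_concat t with rfl | ⟨m, xn, rfl⟩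
    · have := h.two_le
      simp at this
    rw [List.concat_eq_append] at h ⊢
    rcases m with _ | ⟨x1, m'⟩
    · have hF0 := Disc.empty_of_two (a := a) (b := xn) h
      subst hF0
      have hnd := h.nodup
      simp only [List.nil_append, List.nodup_cons, List.mem_singleton] at hnd
      exact Disc.edge (fun e => hnd.1 e.symm)
    have hnd := h.nodup
    have hax1 : a ≠ x1 := by
      rintro rfl
      simp at hnd
    have haxn : a ≠ xn := by
      rintro rfl
      simp at hnd
    have hx1xn : x1 ≠ xn := by
      rintro rfl
      simp at hnd
    obtain ⟨s, F', hf0, rfl, hcase⟩ := Disc.peel h (by simp)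
    have hcF : F'.card < n := by
      rw [← hF, Finset.card_insert_of_notMem hf0]
      omega
    rcases hcase with ⟨hs, hd, hnadj⟩ | ⟨m₁, m₂, F₁, F₂, hm, rfl, hdisj, hd1, hd2, hdis⟩
    · -- the apex `s` of the root face is an inner vertex
      have hsx1 : x1 ≠ s := by
        rintro rfl
        simp at hs
      have hsa : a ≠ s := by
        rintro rfl
        simp at hs
      have hsxn : xn ≠ s := by
        rintro rfl
        simp at hs
      have D1 : Disc (x1 :: ((m' ++ [xn, s]) ++ [a])) F' := by
        have := IH F' [a] (x1 :: m' ++ [xn, s]) hcF (by simpa using hd)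
        simpa using this
      obtain ⟨y, F'', hf1, rfl, hcase⟩ := Disc.peel D1 (by simp)
      have hcF'' : F''.card + 1 < n := by
        rw [Finset.card_insert_of_notMem hf1] at hcF
        exact hcF
      have hsub : F'' ⊆ insert {x1, a, y} F'' := Finset.subset_insert _ _
      rcases hcase with ⟨hy, hd', hnadj'⟩ | ⟨n₁, n₂, G₁, G₂, hm', rfl, hdisj', hd1, hd2, hdis'⟩
      · -- `y` inner
        have e1 : Disc (a :: ((y :: x1 :: m') ++ [xn, s])) F'' := by
          have := IH F'' (x1 :: (m' ++ [xn, s])) [a, y] (by omega) (by simpa using hd')
          simpa using this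
        have e2 := Disc.inner e1 (by simp) (DiscB_mono hsub hnadj)
        have e3 : Disc (x1 :: ((m' ++ [xn]) ++ [a, y])) (insert {a, xn, s} F'') := by
          have := IH _ [a, y] (x1 :: (m' ++ [xn]))
            (lt_of_le_of_lt (Finset.card_insert_le _ _) hcF'') (by simpa using e2)
          simpa using this
        have e4 := Disc.inner e3 (by simp) (by
          rintro ⟨_, f, hf, h1, h2⟩
          rcases Finset.mem_insert.1 hf with rfl | hf
          · simp only [Finset.mem_insert, Finset.mem_singleton] at h1
            rcases h1 with h1 | h1 | h1
            · exact hax1 h1.symm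
            · exact hx1xn h1
            · exact hsx1 h1
          · exact hnadj' ⟨hax1.symm, f, hf, h1, h2⟩)
        rw [Finset.insert_comm]
        simpa using e4
      · rcases List.eq_nil_or_concat n₂ with rfl | ⟨n₂', b, rfl⟩
        · -- `y = s`
          have h1 : (m' ++ [xn]) ++ [s] = n₁ ++ [y] := by simpa using hm'
          obtain ⟨rfl, rfl⟩ := DiscB_concat0 h1
          have hG2 := Disc.empty_of_two (a := s) (b := a) hd2
          subst hG2
          have hcG : G₁.card + 1 < n := by simpa using hcF''
          have ha : a ∉ verts (x1 :: ((m' ++ [xn]) ++ [s])) G₁ := by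
            intro hv
            exact hsa (hdis' a hv (by rw [DiscB_mem_verts]; simp))
          have e1 : Disc (s :: ((x1 :: m') ++ [xn])) G₁ := by
            have := IH G₁ (x1 :: (m' ++ [xn])) [s] (by omega) (by simpa using hd1)
            simpa using this
          have e2 := Disc.split (m₂ := []) e1 (Disc.edge (a := xn) (b := a) haxn.symm) (by
            intro v hv hv'
            rw [DiscB_mem_verts] at hv hv'
            rcases hv' with hv' | ⟨f, hf, _⟩
            · simp only [List.nil_append, List.mem_cons, List.not_mem_nil, or_false] at hv'
              rcases hv' with rfl | rfl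
              · rfl
              · exfalso
                apply ha
                rw [DiscB_mem_verts]
                refine hv.imp (fun hv => ?_) id
                simp only [List.mem_cons, List.mem_append, List.not_mem_nil, or_false] at hv ⊢
                tauto
            · exact absurd hf (Finset.notMem_empty _))
          have e3 : Disc (x1 :: ((m' ++ [xn]) ++ [a, s])) (insert {s, a, xn} (G₁ ∪ ∅)) := by
            have := IH _ [s] (x1 :: m' ++ [xn, a])
              (lt_of_le_of_lt (Finset.card_insert_le _ _) (by simpa using hcG))
              (by simpa using e2)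
            simpa using this
          have e4 := Disc.inner e3 (by simp) (by
            rintro ⟨_, f, hf, h1, h2⟩
            rcases Finset.mem_insert.1 hf with rfl | hf
            · simp only [Finset.mem_insert, Finset.mem_singleton] at h1
              rcases h1 with h1 | h1 | h1
              · exact hsx1 h1
              · exact hax1 h1.symm
              · exact hx1xn h1
            · rw [Finset.union_empty] at hf
              exact ha (DiscB_mem_verts.2 (Or.inr ⟨f, hf, h2⟩)))
          have e5 : ({s, a, xn} : Finset V) = {a, xn, s} := by
            ext v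
            simp only [Finset.mem_insert, Finset.mem_singleton]
            tauto
          rw [e5] at e4
          rw [Finset.insert_comm]
          simpa using e4
        · have h1 : (m' ++ [xn]) ++ [s] = n₁ ++ y :: (n₂' ++ [b]) := by
            simpa [List.concat_eq_append] using hm'
          obtain ⟨h2, rfl⟩ := DiscB_concat h1
          rcases List.eq_nil_or_concat n₂' with rfl | ⟨n₃, c, rfl⟩
          · -- `y = xn` is impossible
            obtain ⟨rfl, rfl⟩ := DiscB_concat0 h2
            exact absurd ⟨haxn, {x1, a, xn}, Finset.mem_insert_self _ _, by simp, by simp⟩ hnadj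
          · rw [List.concat_eq_append] at h2
            obtain ⟨rfl, rfl⟩ := DiscB_concat h2
            have hcG := hcF''
            rw [Finset.card_union_of_disjoint hdisj'] at hcG
            have hsub2 : G₂ ⊆ insert {x1, a, y} (G₁ ∪ G₂) :=
              Finset.subset_union_right.trans hsub
            have e1 : Disc (a :: ((y :: n₃) ++ [xn, s])) G₂ := by
              have := IH G₂ (y :: (n₃ ++ [xn, s])) [a] (by omega)
                (by simpa [List.concat_eq_append] using hd2)
              simpa using this
            have e2 := Disc.inner e1 (by simp) (DiscB_mono hsub2 hnadj)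
            have e3 : Disc (y :: ((n₃ ++ [xn]) ++ [a])) (insert {a, xn, s} G₂) := by
              have := IH (insert {a, xn, s} G₂) [a] (y :: (n₃ ++ [xn]))
                (lt_of_le_of_lt (Finset.card_insert_le _ _) (by omega)) (by simpa using e2)
              simpa using this
            have e4 := Disc.split hd1 e3 (by
              intro v hv hv'
              apply hdis' v hv
              rw [DiscB_mem_verts] at hv' ⊢
              rcases hv' with hv' | ⟨f, hf, hvf⟩
              · left
                simp only [List.mem_cons, List.mem_append, List.not_mem_nil, or_false,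
                  List.concat_eq_append] at hv' ⊢
                tauto
              · rcases Finset.mem_insert.1 hf with rfl | hf
                · left
                  simp only [Finset.mem_insert, Finset.mem_singleton] at hvf
                  simp only [List.mem_cons, List.mem_append, List.not_mem_nil, or_false,
                    List.concat_eq_append]
                  tauto
                · exact Or.inr ⟨f, hf, hvf⟩)
            have e5 : insert ({x1, a, y} : Finset V) (G₁ ∪ insert {a, xn, s} G₂) =
                insert {a, xn, s} (insert {x1, a, y} (G₁ ∪ G₂)) := by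
              rw [Finset.union_insert, Finset.insert_comm]
            rw [e5] at e4
            simpa using e4
    · -- the apex `s` of the root face is on the boundary
      have hcF' : F₁.card + F₂.card < n := by
        rw [Finset.card_union_of_disjoint hdisj] at hcF
        exact hcF
      rcases m₁ with _ | ⟨x1', m₁'⟩
      · -- `s = x1`
        simp only [List.nil_append, List.cons.injEq] at hm
        obtain ⟨rfl, rfl⟩ := hm
        have hF1 := Disc.empty_of_two (a := a) (b := x1) hd1
        subst hF1
        have ha : a ∉ verts (x1 :: (m' ++ [xn])) F₂ := by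
          intro hv
          exact hax1 (hdis a (by rw [DiscB_mem_verts]; simp) hv)
        have e2 := Disc.split (m₂ := []) hd2 (Disc.edge (a := xn) (b := a) haxn.symm) (by
          intro v hv hv'
          rw [DiscB_mem_verts] at hv'
          rcases hv' with hv' | ⟨f, hf, _⟩
          · simp only [List.nil_append, List.mem_cons, List.not_mem_nil, or_false] at hv'
            rcases hv' with rfl | rfl
            · rfl
            · exact absurd hv ha
          · exact absurd hf (Finset.notMem_empty _))
        have e5 : ({x1, a, xn} : Finset V) = {a, xn, x1} := by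
          ext v
          simp only [Finset.mem_insert, Finset.mem_singleton]
          tauto
        rw [e5] at e2
        simpa using e2
      · simp only [List.cons_append, List.cons.injEq] at hm
        obtain ⟨rfl, rfl⟩ := hm
        have D1 : Disc (x1 :: ((m₁' ++ [s]) ++ [a])) F₁ := by
          have := IH F₁ [a] (x1 :: m₁' ++ [s]) (by omega) (by simpa using hd1)
          simpa using this
        have hnd1 := hd1.nodup
        have hsx1 : x1 ≠ s := by
          rintro rfl
          simp at hnd1
        have hsa : a ≠ s := by
          rintro rfl
          simp at hnd1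
        obtain ⟨y, F₁', hf1, rfl, hcase⟩ := Disc.peel D1 (by simp)
        have hcF'' : F₁'.card + F₂.card + 1 < n := by
          rw [Finset.card_insert_of_notMem hf1] at hcF'
          omega
        have hx1F2 : x1 ∉ verts (s :: (m₂ ++ [xn])) F₂ := by
          intro hv
          exact hsx1 (hdis x1 (by rw [DiscB_mem_verts]; simp) hv)
        rcases hcase with ⟨hy, hd', hnadj'⟩ | ⟨n₁, n₂, G₁, G₂, hm', rfl, hdisj', hd1', hd2', hdis'⟩
        · -- `y` inner
          have e1 : Disc (a :: ((y :: x1 :: m₁') ++ [s])) F₁' := by
            have := IH F₁' (x1 :: (m₁' ++ [s])) [a, y] (by omega) (by simpa using hd')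
            simpa using this
          have e2 := Disc.split e1 hd2 (by
            intro v hv hv'
            refine hdis v ?_ hv'
            rw [DiscB_mem_verts] at hv ⊢
            rcases hv with hv | ⟨f, hf, hvf⟩
            · simp only [List.mem_cons, List.mem_append, List.not_mem_nil, or_false] at hv
              by_cases hvy : v = y
              · subst hvy
                exact Or.inr ⟨{x1, a, v}, Finset.mem_insert_self _ _, by simp⟩
              · left
                simp only [List.mem_cons, List.mem_append, List.not_mem_nil, or_false]
                tauto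
            · exact Or.inr ⟨f, Finset.mem_insert_of_mem hf, hvf⟩)
          have hcu : (insert ({a, xn, s} : Finset V) (F₁' ∪ F₂)).card < n := by
            refine lt_of_le_of_lt (Finset.card_insert_le _ _) ?_
            have := Finset.card_union_le F₁' F₂
            omega
          have e3 : Disc (x1 :: ((m₁' ++ s :: (m₂ ++ [xn])) ++ [a, y]))
              (insert {a, xn, s} (F₁' ∪ F₂)) := by
            have := IH _ [a, y] (x1 :: (m₁' ++ s :: (m₂ ++ [xn]))) hcu (by simpa using e2)
            simpa using this
          have e4 := Disc.inner e3 (by simp) (by
            rintro ⟨_, f, hf, h1, h2⟩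
            rcases Finset.mem_insert.1 hf with rfl | hf
            · simp only [Finset.mem_insert, Finset.mem_singleton] at h1
              rcases h1 with h1 | h1 | h1
              · exact hax1 h1.symm
              · exact hx1xn h1
              · exact hsx1 h1
            · rcases Finset.mem_union.1 hf with hf | hf
              · exact hnadj' ⟨hax1.symm, f, hf, h1, h2⟩
              · exact hx1F2 (DiscB_mem_verts.2 (Or.inr ⟨f, hf, h1⟩)))
          rw [Finset.insert_union, Finset.insert_comm]
          simpa using e4
        · -- `y` on the boundary
          obtain ⟨q, r, hq, hqn, hr⟩ : ∃ q r : List V, y :: n₂ = q ++ [s] ∧ m₁' = n₁ ++ q ∧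
              q ++ s :: (m₂ ++ [xn]) = y :: r := by
            rcases List.eq_nil_or_concat n₂ with rfl | ⟨n₂', b, rfl⟩
            · obtain ⟨rfl, rfl⟩ := DiscB_concat0 hm'
              exact ⟨[], m₂ ++ [xn], rfl, by simp, rfl⟩
            · rw [List.concat_eq_append] at hm'
              obtain ⟨rfl, rfl⟩ := DiscB_concat hm'
              exact ⟨y :: n₂', n₂' ++ s :: (m₂ ++ [xn]), by simp, rfl, by simp⟩
          have hsn : s ∈ y :: n₂ := by
            rw [hq]
            simp
          have hcG : G₂.card + F₂.card + 1 < n := by
            rw [Finset.card_union_of_disjoint hdisj'] at hcF''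
            omega
          have e1 : Disc (a :: (q ++ [s])) G₂ := by
            have := IH G₂ (y :: n₂) [a] (by omega) (by simpa using hd2')
            rw [hq] at this
            simpa using this
          have e2 := Disc.split e1 hd2 (by
            intro v hv hv'
            refine hdis v ?_ hv'
            rw [DiscB_mem_verts] at hv ⊢
            rcases hv with hv | ⟨f, hf, hvf⟩
            · left
              rw [hqn]
              simp only [List.mem_cons, List.mem_append, List.not_mem_nil, or_false] at hv ⊢
              tauto
            · exact Or.inr ⟨f, Finset.mem_insert_of_mem (Finset.mem_union_right _ hf), hvf⟩)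
          have hcu : (insert ({a, xn, s} : Finset V) (G₂ ∪ F₂)).card < n := by
            refine lt_of_le_of_lt (Finset.card_insert_le _ _) ?_
            have := Finset.card_union_le G₂ F₂
            omega
          have e3 : Disc (y :: (r ++ [a])) (insert {a, xn, s} (G₂ ∪ F₂)) := by
            have := IH _ [a] (q ++ s :: (m₂ ++ [xn])) hcu (by simpa using e2)
            rw [hr] at this
            simpa using this
          have hyn : ∀ v, v ∈ y :: (r ++ [a]) → v ∈ y :: (n₂ ++ [a]) ∨ v ∈ s :: (m₂ ++ [xn]) := by
            intro v hv
            have hv2 : v ∈ (y :: r) ∨ v = a := by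
              simp only [List.mem_cons, List.mem_append, List.not_mem_nil, or_false] at hv ⊢
              tauto
            rcases hv2 with hv2 | hv2
            · rw [← hr, List.mem_append] at hv2
              rcases hv2 with hv2 | hv2
              · left
                have hv3 : v ∈ y :: n₂ := by
                  rw [hq]
                  exact List.mem_append_left _ hv2
                simp only [List.mem_cons, List.mem_append] at hv3 ⊢
                tauto
              · exact Or.inr hv2
            · left
              rw [hv2]
              simp
          have e4 := Disc.split hd1' e3 (by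
            intro v hv hv'
            have hF1v : v ∈ verts (a :: (x1 :: m₁' ++ [s])) (insert {x1, a, y} (G₁ ∪ G₂)) := by
              rw [DiscB_mem_verts] at hv ⊢
              rcases hv with hv | ⟨f, hf, hvf⟩
              · by_cases hvy : v = y
                · subst hvy
                  exact Or.inr ⟨{x1, a, v}, Finset.mem_insert_self _ _, by simp⟩
                · left
                  rw [hqn]
                  simp only [List.mem_cons, List.mem_append, List.not_mem_nil, or_false] at hv ⊢
                  tauto
              · exact Or.inr ⟨f, Finset.mem_insert_of_mem (Finset.mem_union_left _ hf), hvf⟩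
            have hs2 : v ∈ verts (s :: (m₂ ++ [xn])) F₂ → v = y := by
              intro hv2
              have hvs : v = s := hdis v (by simpa using hF1v) hv2
              subst hvs
              refine hdis' v hv ?_
              rw [DiscB_mem_verts]
              left
              simp only [List.mem_cons, List.mem_append] at hsn ⊢
              tauto
            rw [DiscB_mem_verts] at hv'
            rcases hv' with hv' | ⟨f, hf, hvf⟩
            · rcases hyn v hv' with hv2 | hv2
              · exact hdis' v hv (DiscB_mem_verts.2 (Or.inl hv2))
              · exact hs2 (DiscB_mem_verts.2 (Or.inl hv2))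
            · rcases Finset.mem_insert.1 hf with rfl | hf
              · simp only [Finset.mem_insert, Finset.mem_singleton] at hvf
                rcases hvf with rfl | rfl | rfl
                · exact hdis' v hv (DiscB_mem_verts.2 (Or.inl (by simp)))
                · exact hs2 (DiscB_mem_verts.2 (Or.inl (by simp)))
                · exact hs2 (DiscB_mem_verts.2 (Or.inl (by simp)))
              · rcases Finset.mem_union.1 hf with hf | hf
                · exact hdis' v hv (DiscB_mem_verts.2 (Or.inr ⟨f, hf, hvf⟩))
                · exact hs2 (DiscB_mem_verts.2 (Or.inr ⟨f, hf, hvf⟩)))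
          have e5 : insert ({x1, a, y} : Finset V) (G₁ ∪ insert {a, xn, s} (G₂ ∪ F₂)) =
              insert {a, xn, s} (insert {x1, a, y} (G₁ ∪ G₂) ∪ F₂) := by
            rw [Finset.union_insert, Finset.insert_comm, Finset.insert_union,
              Finset.union_assoc]
          rw [e5] at e4
          have e6 : x1 :: (n₁ ++ y :: (r ++ [a])) =
              (x1 :: (m₁' ++ s :: m₂) ++ [xn]) ++ [a] := by
            have : y :: (r ++ [a]) = (q ++ s :: (m₂ ++ [xn])) ++ [a] := by
              rw [hr]
              simp
            rw [this, hqn]
            simp
          rw [e6] at e4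
          simpa using e4

/-- The boundary cycle of a disc may be rotated.
Prove by strong induction on `n = F.card`, for all lists: `R n`: every `Disc (a :: t) F` with
`F.card = n` gives `Disc (t ++ [a]) F`. Since rotating `length` times is the identity, `R n` gives
all rotations (left and right) of a disc with `n` faces; use a helper lemma: from `R n` get
`Disc l F → Disc (l.rotate k) F` for all `k`, in particular `Disc (p ++ q) F → Disc (q ++ p) F`.
Write `l = [x0, ..., xn]`, wanted `Disc [x1, ..., xn, x0] F`. For `n = 1` (two vertices) the disc is
an edge (`Disc.empty_of_two`), use the constructor `edge`. Otherwise use `Disc.peel` at the root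
edge; all cards below are smaller because of the non-membership / disjointness statements there.

Case inner: `F = insert f0 F'`, `f0 = {x0, xn, t}`, `Disc [x0..xn, t] F'`, `¬ AdjF F' x0 xn`, `n ≥ 2`.
By `R (n-1)` `D1 := Disc [x1..xn, t, x0] F'`, root edge `(x1, x0)`. Apply `Disc.peel` to `D1`, apex `y`.
 * y inner: `F' = insert {x1,x0,y} F''`, `Disc [x1..xn,t,x0,y] F''`, `¬ AdjF F'' x1 x0`. Rotate to
   `Disc [x0,y,x1..xn,t] F''`, apply `Disc.inner` (root edge `(x0,xn)`, apex `t`; `¬ AdjF F'' x0 xn` since
   `F'' ⊆ F'`): `Disc [x0,y,x1..xn] (insert f0 F'')`, rotate (card `< n`) to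
   `Disc [x1..xn,x0,y] (insert f0 F'')`, apply `Disc.inner` (root `(x1,x0)`, apex `y`; `x1 ∉ f0`):
   `Disc [x1..xn,x0] (insert {x1,x0,y} (insert f0 F''))` and this set is `F`.
 * y on the boundary, `y = xi`, `2 ≤ i ≤ n`: parts `Disc [x1..xi] G1`, `Disc [xi..xn,t,x0] G2`.
   `i = n` is impossible: the face `{x1,x0,xn}` would contain `x0, xn`, against `¬ AdjF F' x0 xn`.
   Rotate the second part to `[x0,xi..xn,t]`, close `t` with `Disc.inner`, rotate to
   `Disc [xi..xn,x0] (insert f0 G2)` and apply `Disc.split` with `Disc [x1..xi] G1`.
 * y = t: parts `Disc [x1..xn,t] G1` and `Disc [t,x0] ∅` (`Disc.empty_of_two`), `x0` is not in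
   `verts [x1..xn,t] G1`. Rotate to `Disc [t,x1..xn] G1`, `Disc.split` with `Disc [xn,x0] ∅` gives
   `Disc [t,x1..xn,x0] (insert f0 G1)`, rotate to `[x1..xn,x0,t]`, `Disc.inner` (root `(x1,x0)`,
   apex `t`).
Case split: `F = insert f0 (F1 ∪ F2)`, `f0 = {x0,xn,xk}`, `Disc [x0..xk] F1`, `Disc [xk..xn] F2`.
 * k = 1: `F1 = ∅`. `Disc.split` of `Disc [x1..xn] F2` and `Disc [xn,x0] ∅`.
 * k ≥ 2: rotate the first part to `Disc [x1..xk,x0] F1` and peel it at `(x1,x0)`, apex `y`.
   - y inner: `F1 = insert {x1,x0,y} F1'`, `Disc [x1..xk,x0,y] F1'`. Rotate to `[x0,y,x1..xk]`,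
     `Disc.split` with `Disc [xk..xn] F2`: `Disc [x0,y,x1..xn] (insert f0 (F1' ∪ F2))`, rotate to
     `[x1..xn,x0,y]`, `Disc.inner` (`¬ AdjF (insert f0 (F1' ∪ F2)) x1 x0` because `x1` is not in
     `verts [xk..xn] F2` and not in `f0`).
   - y = xi, `2 ≤ i ≤ k`: parts `Disc [x1..xi] G1`, `Disc [xi..xk,x0] G2`. Rotate the second one to
     `[x0,xi..xk]`, `Disc.split` with `Disc [xk..xn] F2`, rotate to `[xi..xn,x0]`, `Disc.split` with
     `Disc [x1..xi] G1`. -/
theorem Disc.rotate {a : V} {t : List V} {F : Finset (Finset V)} (h : Disc (a :: t) F) :
    Disc (t ++ [a]) F :=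
  DiscB_main F.card F rfl a t h

/-- Iterate `Disc.rotate`. -/
theorem Disc.append_comm {p q : List V} {F : Finset (Finset V)} (h : Disc (p ++ q) F) :
    Disc (q ++ p) F :=
  DiscB_app (fun _ _ hb => Disc.rotate hb) p q h

end EPG26
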