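import Pool.Agent.W_26e041_h61.DiscB

namespace EPG26

variable {V : Type*} [DecidableEq V]

omit [DecidableEq V] in
theorem DiscC_symm {F : Finset (Finset V)} {a b : V} (h : AdjF F a b) : AdjF F b a := by
  obtain ⟨h1, f, hf, h2, h3⟩ := h
  exact ⟨h1.symm, f, hf, h3, h2⟩

theorem DiscC_swap (a b c : V) : ({a, b, c} : Finset V) = {b, a, c} := by
  ext z
  simp only [Finset.mem_insert, Finset.mem_singleton]
  tauto

/-- Induction on `Disc`. edge: clear. inner: the reversed premise is `t :: y :: (m.reverse ++ [x])`,
rotate it (`Disc.rotate`) to `y :: (m.reverse ++ [x, t])` and apply `Disc.inner` (the face `{y,x,t}` is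
`{x,y,t}`). split: apply `Disc.split` to the reversed parts in the opposite order. -/
theorem Disc.reverse {l : List V} {F : Finset (Finset V)} (h : Disc l F) : Disc l.reverse F := by
  induction h with
  | edge h => simpa using Disc.edge h.symm
  | @inner x m y t F hd hm hxy ih =>
    have e : (x :: (m ++ [y, t])).reverse = t :: (y :: (m.reverse ++ [x])) := by simp
    rw [e] at ih
    have h1 := Disc.rotate ih
    have h2 : Disc (y :: (m.reverse ++ [x, t])) F := by simpa using h1
    have h3 := Disc.inner h2 (by simpa using hm) (fun hh => hxy (DiscC_symm hh))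
    have e2 : (x :: (m ++ [y])).reverse = y :: (m.reverse ++ [x]) := by simp
    rw [e2, DiscC_swap x y t]
    exact h3
  | @split x m₁ t m₂ y F₁ F₂ h₁ h₂ hdis ih₁ ih₂ =>
    have e1 : (x :: (m₁ ++ [t])).reverse = t :: (m₁.reverse ++ [x]) := by simp
    have e2 : (t :: (m₂ ++ [y])).reverse = y :: (m₂.reverse ++ [t]) := by simp
    have e3 : (x :: (m₁ ++ t :: (m₂ ++ [y]))).reverse =
        y :: (m₂.reverse ++ t :: (m₁.reverse ++ [x])) := by simp
    rw [e3, DiscC_swap x y t, Finset.union_comm]
    rw [e1] at ih₁
    rw [e2] at ih₂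
    refine Disc.split ih₂ ih₁ ?_
    intro v hv2 hv1
    refine hdis v ?_ ?_
    · simp only [verts, Finset.mem_union, List.mem_toFinset, List.mem_cons, List.mem_append,
        List.mem_reverse] at hv1 ⊢
      tauto
    · simp only [verts, Finset.mem_union, List.mem_toFinset, List.mem_cons, List.mem_append,
        List.mem_reverse] at hv2 ⊢
      tauto

/-- Consecutive boundary vertices lie in a face: rotate (`Disc.append_comm`) so that they become
last and first vertex and use `Disc.root_adj` (and symmetry of `AdjF`). -/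
theorem Disc.bd_adj {p s : List V} {a b : V} {F : Finset (Finset V)}
    (h : Disc (p ++ a :: b :: s) F) (hl : p ≠ [] ∨ s ≠ []) : AdjF F a b := by
  have h1 : Disc ((b :: s) ++ (p ++ [a])) F := by
    apply Disc.append_comm
    simpa using h
  have h2 : Disc (b :: ((s ++ p) ++ [a])) F := by simpa using h1
  refine DiscC_symm (Disc.root_adj h2 ?_)
  intro e
  rcases List.append_eq_nil_iff.mp e with ⟨e1, e2⟩
  rcases hl with hl | hl
  · exact hl e2
  · exact hl e1

/-- A boundary edge lies in only one face (rotate and use `Disc.root_unique`). -/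
theorem Disc.bd_unique {p s : List V} {a b : V} {F : Finset (Finset V)}
    (h : Disc (p ++ a :: b :: s) F) (hl : p ≠ [] ∨ s ≠ []) {f g : Finset V} (hf : f ∈ F)
    (hg : g ∈ F) (h1 : a ∈ f) (h2 : b ∈ f) (h3 : a ∈ g) (h4 : b ∈ g) : f = g := by
  have h1' : Disc ((b :: s) ++ (p ++ [a])) F := by
    apply Disc.append_comm
    simpa using h
  have h2' : Disc (b :: ((s ++ p) ++ [a])) F := by simpa using h1'
  refine Disc.root_unique h2' ?_ hf hg h2 h1 h4 h3
  intro e
  rcases List.append_eq_nil_iff.mp e with ⟨e1, e2⟩
  rcases hl with hl | hl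
  · exact hl e2
  · exact hl e1

/-- Adding a face at a boundary edge with a new vertex. Rotate to `b :: (s ++ p ++ [a])` and apply
`Disc.split` with parts `b :: (s ++ p ++ [a])` and `[a, t]` (apex `a`), which gives
`Disc (b :: (s ++ p ++ [a, t])) (insert {b, t, a} F)`, and rotate back. -/
theorem Disc.ear {p s : List V} {a b t : V} {F : Finset (Finset V)}
    (h : Disc (p ++ a :: b :: s) F) (ht : t ∉ verts (p ++ a :: b :: s) F) :
    Disc (p ++ a :: t :: b :: s) (insert {a, b, t} F) := by
  have h1 : Disc ((b :: s) ++ (p ++ [a])) F := by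
    apply Disc.append_comm
    simpa using h
  have h2 : Disc (b :: ((s ++ p) ++ [a])) F := by simpa using h1
  have ht' : t ∉ p ∧ t ≠ a ∧ t ≠ b ∧ t ∉ s ∧ t ∉ F.biUnion id := by
    simp only [verts, Finset.mem_union, List.mem_toFinset, List.mem_cons, List.mem_append,
      not_or] at ht
    tauto
  have hat : a ≠ t := fun e => ht'.2.1 e.symm
  have h3 : Disc (b :: ((s ++ p) ++ a :: ([] ++ [t]))) (insert {b, t, a} (F ∪ ∅)) := by
    refine Disc.split h2 (Disc.edge hat) ?_
    intro v hv1 hv2
    simp only [verts, Finset.mem_union, List.mem_toFinset, List.mem_cons, List.mem_append,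
      Finset.biUnion_empty, Finset.notMem_empty, List.not_mem_nil, or_false, false_or] at hv1 hv2
    rcases hv2 with e | e
    · exact e
    · subst e
      tauto
  have h4 : Disc ((b :: s) ++ (p ++ [a, t])) (insert {b, t, a} (F ∪ ∅)) := by simpa using h3
  have h5 := Disc.append_comm h4
  have e : ({a, b, t} : Finset V) = {b, t, a} := by
    ext z
    simp only [Finset.mem_insert, Finset.mem_singleton]
    tauto
  rw [e]
  simpa using h5

/-- Adding a face at two consecutive boundary edges. Rotate to `b :: (s ++ p ++ [a, t])`, apply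
`Disc.inner`, rotate back. -/
theorem Disc.close {p s : List V} {a b t : V} {F : Finset (Finset V)}
    (h : Disc (p ++ a :: t :: b :: s) F) (hl : p ≠ [] ∨ s ≠ []) (hab : ¬ AdjF F a b) :
    Disc (p ++ a :: b :: s) (insert {a, b, t} F) := by
  have h1 : Disc ((b :: s) ++ (p ++ [a, t])) F := by
    apply Disc.append_comm
    simpa using h
  have h2 : Disc (b :: ((s ++ p) ++ [a, t])) F := by simpa using h1
  have hne : s ++ p ≠ [] := by
    intro e
    rcases List.append_eq_nil_iff.mp e with ⟨e1, e2⟩
    rcases hl with hl | hl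
    · exact hl e2
    · exact hl e1
  have h3 := Disc.inner h2 hne (fun hh => hab (DiscC_symm hh))
  have h4 : Disc ((b :: s) ++ (p ++ [a])) (insert {b, a, t} F) := by simpa using h3
  have h5 := Disc.append_comm h4
  rw [DiscC_swap a b t]
  simpa using h5

/-- The disc consisting of one face (`Disc.split` of two edges). -/
theorem Disc.single {a b c : V} (hab : a ≠ b) (hac : a ≠ c) (hbc : b ≠ c) :
    Disc [a, b, c] {{a, b, c}} := by
  have h : Disc (a :: ([] ++ b :: ([] ++ [c]))) (insert {a, c, b} (∅ ∪ ∅)) := by
    refine Disc.split (Disc.edge hab) (Disc.edge hbc) ?_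
    intro v hv1 hv2
    simp only [verts, Finset.mem_union, List.mem_toFinset, List.mem_cons, List.nil_append,
      Finset.biUnion_empty, Finset.notMem_empty, List.not_mem_nil, or_false] at hv1 hv2
    rcases hv2 with e | e
    · exact e
    · subst e
      rcases hv1 with e | e
      · exact absurd e.symm hac
      · exact e
  have e : ({a, b, c} : Finset V) = {a, c, b} := by
    ext z
    simp only [Finset.mem_insert, Finset.mem_singleton]
    tauto
  rw [e]
  simpa using h

/-- The only face of a disc with three boundary vertices and one face. (`Disc.bd_adj` twice.) -/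
theorem Disc.eq_single {a b c : V} {g : Finset V} (h : Disc [a, b, c] {g}) :
    g = {a, b, c} := by
  have hn := h.nodup
  have h1 : AdjF {g} a b := Disc.bd_adj (p := []) (s := [c]) h (by simp)
  have h2 : AdjF {g} b c := Disc.bd_adj (p := [a]) (s := []) h (by simp)
  have hab : a ∈ g ∧ b ∈ g := by
    obtain ⟨_, f, hf, h3, h4⟩ := h1
    rw [Finset.mem_singleton] at hf
    subst hf
    exact ⟨h3, h4⟩
  have hbc : b ∈ g ∧ c ∈ g := by
    obtain ⟨_, f, hf, h3, h4⟩ := h2
    rw [Finset.mem_singleton] at hf
    subst hf
    exact ⟨h3, h4⟩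
  have hc : g.card = 3 := h.card3 g (by simp)
  have hsub : ({a, b, c} : Finset V) ⊆ g := by
    intro z hz
    simp only [Finset.mem_insert, Finset.mem_singleton] at hz
    rcases hz with e | e | e
    · subst e; exact hab.1
    · subst e; exact hab.2
    · subst e; exact hbc.2
  have hc3 : ({a, b, c} : Finset V).card = 3 := by
    have hn' : (a ≠ b ∧ a ≠ c) ∧ b ≠ c := by
      simpa [List.nodup_cons] using hn
    exact Finset.card_eq_three.mpr ⟨a, b, c, hn'.1.1, hn'.1.2, hn'.2, rfl⟩
  exact (Finset.eq_of_subset_of_card_le hsub (by omega)).symm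

/-- Every boundary vertex lies in a face if the boundary has at least three vertices
(`Disc.bd_adj`, `Disc.root_adj`). -/
theorem Disc.mem_biUnion {l : List V} {F : Finset (Finset V)} (h : Disc l F) (hl : 3 ≤ l.length)
    {v : V} (hv : v ∈ l) : v ∈ F.biUnion id := by
  obtain ⟨p, s, rfl⟩ := List.append_of_mem hv
  have hh : ∀ w, AdjF F v w → v ∈ F.biUnion id := by
    intro w hw
    obtain ⟨_, f, hf, h3, h4⟩ := hw
    exact Finset.mem_biUnion.mpr ⟨f, hf, h3⟩
  rcases s with _ | ⟨b, s⟩
  · rcases List.eq_nil_or_concat' p with e | ⟨q, a, e⟩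
    · subst e
      simp at hl
    · subst e
      have h' : Disc (q ++ a :: v :: []) F := by simpa using h
      refine hh a (DiscC_symm (Disc.bd_adj h' ?_))
      left
      intro e
      subst e
      simp at hl
  · refine hh b (Disc.bd_adj h ?_)
    by_contra hcon
    rw [not_or, not_not, not_not] at hcon
    obtain ⟨e1, e2⟩ := hcon
    subst e1 e2
    simp at hl

end EPG26
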