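import Pool.Agent.W_26e041_h61.DiscC

namespace EPG26

variable {V : Type*} [DecidableEq V]

/-- Splitting along a chord which starts at the first boundary vertex. -/
theorem DiscD_main : ∀ (n : ℕ) (F : Finset (Finset V)), F.card = n →
    ∀ (u : V) (m : List V) (v : V) (s : List V), m ≠ [] → s ≠ [] →
    Disc (u :: (m ++ v :: s)) F → AdjF F u v →
    ∃ F₁ F₂ : Finset (Finset V), F = F₁ ∪ F₂ ∧ Disjoint F₁ F₂ ∧ Disc (u :: (m ++ [v])) F₁ ∧
      Disc (u :: v :: s) F₂ ∧
      ∀ w, w ∈ verts (u :: (m ++ [v])) F₁ → w ∈ verts (u :: v :: s) F₂ → w = u ∨ w = v := by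
  intro n
  induction n using Nat.strong_induction_on with
  | _ n ih =>
    intro F hF u m v s hm hs h ha
    rcases List.eq_nil_or_concat' s with rfl | ⟨s', y, rfl⟩
    · exact absurd rfl hs
    have h' : Disc (u :: ((m ++ v :: s') ++ [y])) F := by simpa using h
    have hnd := h'.nodup
    have huv : u ≠ v := by
      rintro rfl
      simp at hnd
    have huy : u ≠ y := by
      rintro rfl
      simp at hnd
    have hvy : v ≠ y := by
      rintro rfl
      have e : u :: ((m ++ v :: s') ++ [v]) = (u :: m) ++ (v :: (s' ++ [v])) := by simp
      rw [e] at hnd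
      have := hnd.of_append_right
      simp at this
    obtain ⟨t, F', hf0, rfl, hcase⟩ := Disc.peel h' (by simp)
    have hcard : F'.card < n := by
      rw [Finset.card_insert_of_notMem hf0] at hF
      omega
    rcases hcase with ⟨ht, hd, hnadj⟩ | ⟨m₁, m₂, F₁, F₂, hmm, rfl, hdisj, hd1, hd2, hdis⟩
    · -- the apex is an inner vertex
      have hvt : v ≠ t := by
        rintro rfl
        exact ht (by simp)
      have ha' : AdjF F' u v := by
        obtain ⟨h1, f, hf, h2, h3⟩ := ha
        rcases Finset.mem_insert.1 hf with rfl | hf
        · exfalso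
          simp only [Finset.mem_insert, Finset.mem_singleton] at h3
          rcases h3 with h3 | h3 | h3
          · exact huv h3.symm
          · exact hvy h3
          · exact hvt h3
        · exact ⟨h1, f, hf, h2, h3⟩
      obtain ⟨G₁, G₂, rfl, hG, hg1, hg2, hw⟩ := ih F'.card hcard F' rfl u m v (s' ++ [y, t]) hm
        (by simp) (by simpa using hd) ha'
      have e1 : Disc (u :: ((v :: s') ++ [y])) (insert {u, y, t} G₂) :=
        Disc.inner (by simpa using hg2) (by simp)
          (DiscB_mono Finset.subset_union_right hnadj)
      refine ⟨G₁, insert {u, y, t} G₂, ?_, ?_, hg1, by simpa using e1, ?_⟩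
      · rw [Finset.union_insert]
      · rw [Finset.disjoint_insert_right]
        exact ⟨fun hh => hf0 (Finset.mem_union_left _ hh), hG⟩
      · intro w hw1 hw2
        refine hw w hw1 ?_
        rw [DiscB_mem_verts] at hw2 ⊢
        rcases hw2 with hw2 | ⟨f, hf, hwf⟩
        · left
          simp only [List.mem_cons, List.mem_append, List.not_mem_nil, or_false] at hw2 ⊢
          tauto
        · rcases Finset.mem_insert.1 hf with rfl | hf
          · left
            simp only [Finset.mem_insert, Finset.mem_singleton] at hwf
            simp only [List.mem_cons, List.mem_append, List.not_mem_nil, or_false]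
            tauto
          · exact Or.inr ⟨f, hf, hwf⟩
    · -- the apex is on the boundary
      have hut : u ≠ t := by
        have := hd1.nodup
        rintro rfl
        simp at this
      have hyt : y ≠ t := by
        have := hd2.nodup
        rintro rfl
        simp at this
      have hu2 : u ∉ verts (t :: (m₂ ++ [y])) F₂ := fun hh =>
        hut (hdis u (DiscB_mem_verts.2 (Or.inl (by simp))) hh)
      -- the position of the apex
      have hpos : (∃ m' : List V, m = m₁ ++ t :: m' ∧ m₂ = m' ++ v :: s') ∨
          (v = t ∧ m = m₁ ∧ s' = m₂) ∨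
          (∃ s₁ : List V, m₁ = m ++ v :: s₁ ∧ s' = s₁ ++ t :: m₂) := by
        rcases List.append_eq_append_iff.1 hmm with ⟨a', h1, h2⟩ | ⟨c', h1, h2⟩
        · rcases a' with _ | ⟨b, a'⟩
          · rw [List.nil_append, List.cons.injEq] at h2
            rw [List.append_nil] at h1
            exact Or.inr (Or.inl ⟨h2.1, h1.symm, h2.2⟩)
          · rw [List.cons_append, List.cons.injEq] at h2
            obtain ⟨rfl, h2⟩ := h2
            exact Or.inr (Or.inr ⟨a', h1, h2⟩)
        · rcases c' with _ | ⟨b, c'⟩
          · rw [List.nil_append, List.cons.injEq] at h2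
            rw [List.append_nil] at h1
            exact Or.inr (Or.inl ⟨h2.1.symm, h1, h2.2.symm⟩)
          · rw [List.cons_append, List.cons.injEq] at h2
            obtain ⟨rfl, h2⟩ := h2
            exact Or.inl ⟨c', h1, h2⟩
      rcases hpos with ⟨m', rfl, rfl⟩ | ⟨rfl, rfl, rfl⟩ | ⟨s₁, rfl, rfl⟩
      · -- the apex is in `m`
        exfalso
        have hvt : v ≠ t := by
          rintro rfl
          have := hd2.nodup
          simp at this
        obtain ⟨h1, f, hf, h2, h3⟩ := ha
        rcases Finset.mem_insert.1 hf with rfl | hf
        · simp only [Finset.mem_insert, Finset.mem_singleton] at h3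
          rcases h3 with h3 | h3 | h3
          · exact huv h3.symm
          · exact hvy h3
          · exact hvt h3
        · rcases Finset.mem_union.1 hf with hf | hf
          · exact hvt (hdis v (DiscB_mem_verts.2 (Or.inr ⟨f, hf, h3⟩))
              (DiscB_mem_verts.2 (Or.inl (by simp))))
          · exact hu2 (DiscB_mem_verts.2 (Or.inr ⟨f, hf, h2⟩))
      · -- the apex is `v`
        have e1 : Disc (u :: ([] ++ v :: (s' ++ [y]))) (insert {u, y, v} (∅ ∪ F₂)) := by
          refine Disc.split (Disc.edge huv) hd2 ?_
          intro w hw1 hw2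
          rw [DiscB_mem_verts] at hw1
          rcases hw1 with hw1 | ⟨f, hf, -⟩
          · simp only [List.mem_cons, List.nil_append, List.not_mem_nil, or_false] at hw1
            rcases hw1 with rfl | rfl
            · exact absurd hw2 hu2
            · rfl
          · exact absurd hf (Finset.notMem_empty _)
        rw [Finset.empty_union] at e1
        refine ⟨F₁, insert {u, y, v} F₂, ?_, ?_, hd1, by simpa using e1, ?_⟩
        · rw [Finset.union_insert]
        · rw [Finset.disjoint_insert_right]
          exact ⟨fun hh => hf0 (Finset.mem_union_left _ hh), hdisj⟩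
        · intro w hw1 hw2
          by_cases hwu : w = u
          · exact Or.inl hwu
          right
          refine hdis w hw1 ?_
          rw [DiscB_mem_verts] at hw2 ⊢
          rcases hw2 with hw2 | ⟨f, hf, hwf⟩
          · left
            simp only [List.mem_cons, List.mem_append, List.not_mem_nil, or_false] at hw2 ⊢
            tauto
          · rcases Finset.mem_insert.1 hf with rfl | hf
            · left
              simp only [Finset.mem_insert, Finset.mem_singleton] at hwf
              simp only [List.mem_cons, List.mem_append, List.not_mem_nil, or_false]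
              tauto
            · exact Or.inr ⟨f, hf, hwf⟩
      · -- the apex is after `v`
        have hvt : v ≠ t := by
          rintro rfl
          have := hd1.nodup
          have e : u :: ((m ++ v :: s₁) ++ [v]) = (u :: m) ++ (v :: (s₁ ++ [v])) := by simp
          rw [e] at this
          have := this.of_append_right
          simp at this
        have ha' : AdjF F₁ u v := by
          obtain ⟨h1, f, hf, h2, h3⟩ := ha
          rcases Finset.mem_insert.1 hf with rfl | hf
          · exfalso
            simp only [Finset.mem_insert, Finset.mem_singleton] at h3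
            rcases h3 with h3 | h3 | h3
            · exact huv h3.symm
            · exact hvy h3
            · exact hvt h3
          · rcases Finset.mem_union.1 hf with hf | hf
            · exact ⟨h1, f, hf, h2, h3⟩
            · exact absurd (DiscB_mem_verts.2 (Or.inr ⟨f, hf, h2⟩)) hu2
        have hc1 : F₁.card < n := by
          have := Finset.card_le_card (Finset.subset_union_left (s₁ := F₁) (s₂ := F₂))
          omega
        obtain ⟨G₁, G₂, rfl, hG, hg1, hg2, hw⟩ := ih F₁.card hc1 F₁ rfl u m v (s₁ ++ [t]) hm
          (by simp) (by simpa using hd1) ha'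
        have hG2 : ∀ w, w ∈ verts (u :: v :: (s₁ ++ [t])) G₂ →
            w ∈ verts (u :: ((m ++ v :: s₁) ++ [t])) (G₁ ∪ G₂) := by
          intro w hw1
          rw [DiscB_mem_verts] at hw1 ⊢
          rcases hw1 with hw1 | ⟨f, hf, hwf⟩
          · left
            simp only [List.mem_cons, List.mem_append, List.not_mem_nil, or_false] at hw1 ⊢
            tauto
          · exact Or.inr ⟨f, Finset.mem_union_right _ hf, hwf⟩
        have hG1 : ∀ w, w ∈ verts (u :: (m ++ [v])) G₁ →
            w ∈ verts (u :: ((m ++ v :: s₁) ++ [t])) (G₁ ∪ G₂) := by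
          intro w hw1
          rw [DiscB_mem_verts] at hw1 ⊢
          rcases hw1 with hw1 | ⟨f, hf, hwf⟩
          · left
            simp only [List.mem_cons, List.mem_append, List.not_mem_nil, or_false] at hw1 ⊢
            tauto
          · exact Or.inr ⟨f, Finset.mem_union_left _ hf, hwf⟩
        have e1 : Disc (u :: ((v :: s₁) ++ t :: (m₂ ++ [y]))) (insert {u, y, t} (G₂ ∪ F₂)) :=
          Disc.split (by simpa using hg2) hd2 (fun w hw1 hw2 => hdis w (hG2 w (by simpa using hw1)) hw2)
        refine ⟨G₁, insert {u, y, t} (G₂ ∪ F₂), ?_, ?_, hg1, by simpa using e1, ?_⟩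
        · rw [Finset.union_insert, Finset.union_assoc]
        · rw [Finset.disjoint_insert_right]
          refine ⟨fun hh => hf0 (Finset.mem_union_left _ (Finset.mem_union_left _ hh)), ?_⟩
          rw [Finset.disjoint_union_right]
          exact ⟨hG, Finset.disjoint_of_subset_left Finset.subset_union_left hdisj⟩
        · intro w hw1 hw2
          have key : w ∈ verts (t :: (m₂ ++ [y])) F₂ → w = u ∨ w = v := by
            intro hh
            have hwt : w = t := hdis w (hG1 w hw1) hh
            refine hw w hw1 ?_
            rw [hwt, DiscB_mem_verts]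
            left
            simp
          rw [DiscB_mem_verts] at hw2
          rcases hw2 with hw2 | ⟨f, hf, hwf⟩
          · simp only [List.mem_cons, List.mem_append, List.not_mem_nil, or_false] at hw2
            rcases hw2 with rfl | rfl | (hw2 | rfl | hw2) | rfl
            · exact Or.inl rfl
            · exact Or.inr rfl
            · refine hw w hw1 (DiscB_mem_verts.2 (Or.inl ?_))
              simp [hw2]
            · exact key (DiscB_mem_verts.2 (Or.inl (by simp)))
            · exact key (DiscB_mem_verts.2 (Or.inl (by simp [hw2])))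
            · exact key (DiscB_mem_verts.2 (Or.inl (by simp)))
          · rcases Finset.mem_insert.1 hf with rfl | hf
            · simp only [Finset.mem_insert, Finset.mem_singleton] at hwf
              rcases hwf with rfl | rfl | rfl
              · exact Or.inl rfl
              · exact key (DiscB_mem_verts.2 (Or.inl (by simp)))
              · exact key (DiscB_mem_verts.2 (Or.inl (by simp)))
            · rcases Finset.mem_union.1 hf with hf | hf
              · exact hw w hw1 (DiscB_mem_verts.2 (Or.inr ⟨f, hf, hwf⟩))
              · exact key (DiscB_mem_verts.2 (Or.inr ⟨f, hf, hwf⟩))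

/-- Splitting along a chord. Strong induction on `F.card`, `Disc.peel` at the root edge
`(x0, xn)` of `l = p ++ u :: (m ++ v :: s)`, apex `t`, face `f0 = {x0, xn, t}`.
inner (`t ∉ l`): `AdjF F' u v` (if the face is `f0` then `{u, v} = {x0, xn}`, impossible since `p ≠ []`
or `s ≠ []`, by nodup). Induction for `Disc (p ++ u :: (m ++ v :: (s ++ [t]))) F'` gives `G₁, G₂`;
`F₁ = G₁`, `F₂ = insert f0 G₂` by `Disc.inner`.
split: `t ∈ m` is impossible (a face of the first part does not contain `v`, a face of the second
part does not contain `u`, and `f0` contains both only if `u = x0, v = xn`). If `t ∈ p`,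
`p = p₁ ++ t :: p₂`: the common face is in the second part (`u ≠ x0, t` so `f0` is excluded unless
`u = xn`, impossible; `u` is not in `verts` of the first part), induction for
`Disc (t :: p₂ ++ u :: (m ++ v :: s))`, then `Disc.split`. If `t = u`: if `s = []` take
`F₁ =` faces of the second part `u :: (m ++ [v])` and `F₂` from `Disc.split` of `p ++ [u]` and the
edge `[u, v]`; if `s ≠ []` the common face is in the second part, use induction. `t ∈ s` and `t = v`
are symmetric. -/
theorem Disc.chord {p m s : List V} {u v : V} {F : Finset (Finset V)}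
    (h : Disc (p ++ u :: (m ++ v :: s)) F) (hm : m ≠ []) (hps : p ≠ [] ∨ s ≠ [])
    (ha : AdjF F u v) :
    ∃ F₁ F₂ : Finset (Finset V), F = F₁ ∪ F₂ ∧ Disjoint F₁ F₂ ∧ Disc (u :: (m ++ [v])) F₁ ∧
      Disc (p ++ u :: v :: s) F₂ ∧
      ∀ w, w ∈ verts (u :: (m ++ [v])) F₁ → w ∈ verts (p ++ u :: v :: s) F₂ → w = u ∨ w = v := by
  have h1 : Disc (u :: (m ++ v :: (s ++ p))) F := by
    have := Disc.append_comm h
    simpa using this
  have hsp : s ++ p ≠ [] := by
    intro e
    rcases List.append_eq_nil_iff.mp e with ⟨e1, e2⟩
    rcases hps with hps | hps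
    · exact hps e2
    · exact hps e1
  obtain ⟨F₁, F₂, hF, hdisj, hd1, hd2, hw⟩ := DiscD_main F.card F rfl u m v (s ++ p) hm hsp h1 ha
  refine ⟨F₁, F₂, hF, hdisj, hd1, ?_, ?_⟩
  · have e : Disc ((u :: v :: s) ++ p) F₂ := by simpa using hd2
    exact Disc.append_comm e
  · intro w hw1 hw2
    refine hw w hw1 ?_
    rw [DiscB_mem_verts] at hw2 ⊢
    rcases hw2 with hw2 | hw2
    · left
      simp only [List.mem_cons, List.mem_append] at hw2 ⊢
      tauto
    · exact Or.inr hw2

end EPG26
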