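import Pool.Agent.W_26e041_h61.DiscC

namespace EPG26

variable {V : Type*} [DecidableEq V]

theorem DiscF_adj_symm {F : Finset (Finset V)} {a b : V} (h : AdjF F a b) : AdjF F b a :=
  ⟨h.1.symm, by obtain ⟨f, hf, h1, h2⟩ := h.2; exact ⟨f, hf, h2, h1⟩⟩

theorem DiscF_mem_verts {l : List V} {F : Finset (Finset V)} {a : V} :
    a ∈ verts l F ↔ a ∈ l ∨ ∃ f ∈ F, a ∈ f := by
  simp [verts]

theorem DiscF_perm {a b c u v w : V} {F : Finset (Finset V)} (h : Disc [a, b, c] F)
    (hu : u = a ∨ u = b ∨ u = c) (hv : v = a ∨ v = b ∨ v = c) (hw : w = a ∨ w = b ∨ w = c)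
    (huv : u ≠ v) (hvw : v ≠ w) (huw : u ≠ w) : Disc [u, v, w] F := by
  have h1 : Disc [b, c, a] F := Disc.rotate (a := a) (t := [b, c]) h
  have h2 : Disc [c, a, b] F := Disc.rotate (a := b) (t := [c, a]) h1
  have r1 : Disc [c, b, a] F := by simpa using h.reverse
  have r2 : Disc [a, c, b] F := by simpa using h1.reverse
  have r3 : Disc [b, a, c] F := by simpa using h2.reverse
  rcases hu with rfl | rfl | rfl <;> rcases hv with rfl | rfl | rfl <;>
    rcases hw with rfl | rfl | rfl <;> first
      | exact absurd rfl huv
      | exact absurd rfl hvw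
      | exact absurd rfl huw
      | assumption

theorem DiscF_aux (n : ℕ) : ∀ {l : List V} {u v w : V} {F : Finset (Finset V)}, F.card = n →
    Disc l F → AdjF F u v → AdjF F v w → AdjF F u w →
    ∃ F₁ F₂ : Finset (Finset V), F = F₁ ∪ F₂ ∧ Disjoint F₁ F₂ ∧ Disc [u, v, w] F₁ ∧
      Disc l (insert {u, v, w} F₂) ∧ ({u, v, w} : Finset V) ∉ F₂ ∧
      ∀ a, a ∈ verts [u, v, w] F₁ → a ∈ verts l F₂ → a = u ∨ a = v ∨ a = w := by
  induction n using Nat.strong_induction_on with
  | _ n ih =>
    intro l u v w F hcard h huv hvw huw
    by_cases hall : ∀ z ∈ l, z = u ∨ z = v ∨ z = w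
    · -- base case
      have hnd := h.nodup
      have h2 := h.two_le
      match l, h, hall, hnd, h2 with
      | [], _, _, _, h2 => simp at h2
      | [_], _, _, _, h2 => simp at h2
      | [a, b], h, _, _, _ =>
        have := h.empty_of_two
        subst this
        obtain ⟨f, hf, _⟩ := huv.2
        simp at hf
      | [a, b, c], h, hall, hnd, _ =>
        simp only [List.nodup_cons, List.mem_cons, List.not_mem_nil, or_false, not_or,
          List.nodup_nil, not_false_eq_true, and_true] at hnd
        obtain ⟨⟨hab, hac⟩, hbc⟩ := hnd
        have ha := hall a (by simp)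
        have hb := hall b (by simp)
        have hc := hall c (by simp)
        have huv' := huv.1
        have hvw' := hvw.1
        have huw' := huw.1
        have hu : u = a ∨ u = b ∨ u = c := by
          rcases ha with rfl | rfl | rfl <;> rcases hb with rfl | rfl | rfl <;>
            rcases hc with rfl | rfl | rfl <;> simp_all
        have hv : v = a ∨ v = b ∨ v = c := by
          rcases ha with rfl | rfl | rfl <;> rcases hb with rfl | rfl | rfl <;>
            rcases hc with rfl | rfl | rfl <;> simp_all
        have hw : w = a ∨ w = b ∨ w = c := by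
          rcases ha with rfl | rfl | rfl <;> rcases hb with rfl | rfl | rfl <;>
            rcases hc with rfl | rfl | rfl <;> simp_all
        have hset : ({u, v, w} : Finset V) = {a, b, c} := by
          ext z
          simp only [Finset.mem_insert, Finset.mem_singleton]
          constructor
          · rintro (rfl | rfl | rfl)
            · exact hu
            · exact hv
            · exact hw
          · rintro (rfl | rfl | rfl)
            · exact ha
            · exact hb
            · exact hc
        refine ⟨F, ∅, by simp, by simp, DiscF_perm h hu hv hw huv' hvw' huw', ?_, by simp, ?_⟩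
        · rw [hset]
          exact Disc.single hab hac hbc
        · intro z _ hz
          rw [DiscF_mem_verts] at hz
          rcases hz with hz | ⟨f, hf, _⟩
          · exact hall z hz
          · simp at hf
      | a :: b :: c :: d :: t, h, hall, hnd, _ =>
        exfalso
        have h4 : ({a, b, c, d} : Finset V) ⊆ {u, v, w} := by
          intro z hz
          simp only [Finset.mem_insert, Finset.mem_singleton] at hz ⊢
          rcases hz with rfl | rfl | rfl | rfl
          · exact hall _ (by simp)
          · exact hall _ (by simp)
          · exact hall _ (by simp)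
          · exact hall _ (by simp)
        have h5 := Finset.card_le_card h4
        have h6 : ({a, b, c, d} : Finset V).card = 4 := by
          simp only [List.nodup_cons, List.mem_cons, not_or] at hnd
          obtain ⟨⟨hab, hac, had, _⟩, ⟨hbc, hbd, _⟩, ⟨hcd, _⟩, _⟩ := hnd
          rw [Finset.card_insert_of_notMem (by simp [hab, hac, had]),
            Finset.card_insert_of_notMem (by simp [hbc, hbd]),
            Finset.card_insert_of_notMem (by simp [hcd]), Finset.card_singleton]
        have h7 : ({u, v, w} : Finset V).card ≤ 3 := Finset.card_le_three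
        omega
    · push Not at hall
      obtain ⟨x, hxl, hxu, hxv, hxw⟩ := hall
      obtain ⟨p, s, rfl⟩ := List.append_of_mem hxl
      -- rotate
      have hrot : Disc ((x :: s) ++ p) F := h.append_comm
      -- the statement for the rotated list suffices
      suffices hsuff : ∃ F₁ F₂ : Finset (Finset V), F = F₁ ∪ F₂ ∧ Disjoint F₁ F₂ ∧
          Disc [u, v, w] F₁ ∧
          Disc ((x :: s) ++ p) (insert {u, v, w} F₂) ∧ ({u, v, w} : Finset V) ∉ F₂ ∧
          ∀ a, a ∈ verts [u, v, w] F₁ → a ∈ verts ((x :: s) ++ p) F₂ →
            a = u ∨ a = v ∨ a = w by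
        obtain ⟨F₁, F₂, e1, e2, e3, e4, e5, e6⟩ := hsuff
        refine ⟨F₁, F₂, e1, e2, e3, e4.append_comm, e5, fun a ha1 ha2 => e6 a ha1 ?_⟩
        rw [DiscF_mem_verts] at ha2 ⊢
        rcases ha2 with ha2 | ha2
        · left
          rw [List.mem_append] at ha2 ⊢
          exact ha2.symm
        · right
          exact ha2
      -- shape of the list
      have hne : s ++ p ≠ [] := by
        intro h0
        have h2 := hrot.two_le
        rw [List.cons_append, h0] at h2
        simp at h2
      obtain ⟨m, y, hmy⟩ : ∃ m y, s ++ p = m ++ [y] := by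
        refine ⟨(s ++ p).dropLast, (s ++ p).getLast hne, ?_⟩
        rw [List.dropLast_append_getLast hne]
      rw [List.cons_append, hmy] at hrot ⊢
      have hm : m ≠ [] := by
        rintro rfl
        have := Disc.empty_of_two (by simpa using hrot)
        subst this
        obtain ⟨f, hf, _⟩ := huv.2
        simp at hf
      clear h hxl hmy hne
      obtain ⟨t, F', hf0, hF, hcase⟩ := hrot.peel hm
      have hτ0 : ({u, v, w} : Finset V) ≠ {x, y, t} := by
        intro h0
        have : x ∈ ({u, v, w} : Finset V) := by rw [h0]; simp
        simp only [Finset.mem_insert, Finset.mem_singleton] at this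
        rcases this with h1 | h1 | h1
        · exact hxu h1
        · exact hxv h1
        · exact hxw h1
      have hlt : F'.card < n := by
        rw [← hcard, hF, Finset.card_insert_of_notMem hf0]
        omega
      -- a pair of `τ` lies in a face of `F'` or it is `{y, t}`
      have hpair : ∀ a b, a ≠ x → b ≠ x → AdjF F a b →
          AdjF F' a b ∨ (a = y ∧ b = t) ∨ (a = t ∧ b = y) := by
        intro a b hax hbx hab
        obtain ⟨hne, f, hf, h1, h2⟩ := hab
        rw [hF, Finset.mem_insert] at hf
        rcases hf with rfl | hf
        · right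
          simp only [Finset.mem_insert, Finset.mem_singleton] at h1 h2
          rcases h1 with h1 | h1 | h1
          · exact absurd h1 hax
          · rcases h2 with h2 | h2 | h2
            · exact absurd h2 hbx
            · exact absurd (h1.trans h2.symm) hne
            · exact Or.inl ⟨h1, h2⟩
          · rcases h2 with h2 | h2 | h2
            · exact absurd h2 hbx
            · exact Or.inr ⟨h1, h2⟩
            · exact absurd (h1.trans h2.symm) hne
        · exact Or.inl ⟨hne, f, hf, h1, h2⟩
      rcases hcase with ⟨htl, hD, hxy⟩ | ⟨m₁, m₂, G₁, G₂, rfl, rfl, hdis, hD1, hD2, hsep⟩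
      · -- inner
        have hyt : AdjF F' y t := by
          have hD' : Disc ((x :: m) ++ y :: t :: []) F' := by simpa using hD
          exact hD'.bd_adj (Or.inl (by simp))
        have hp2 : ∀ a b, a ≠ x → b ≠ x → AdjF F a b → AdjF F' a b := by
          intro a b h1 h2 h3
          rcases hpair a b h1 h2 h3 with h4 | ⟨rfl, rfl⟩ | ⟨rfl, rfl⟩
          · exact h4
          · exact hyt
          · exact DiscF_adj_symm hyt
        obtain ⟨F₁, H, e1, e2, e3, e4, e5, e6⟩ := ih F'.card hlt rfl hD
          (hp2 u v (Ne.symm hxu) (Ne.symm hxv) huv) (hp2 v w (Ne.symm hxv) (Ne.symm hxw) hvw)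
          (hp2 u w (Ne.symm hxu) (Ne.symm hxw) huw)
        refine ⟨F₁, insert {x, y, t} H, ?_, ?_, e3, ?_, ?_, ?_⟩
        · rw [hF, e1, Finset.union_insert]
        · rw [Finset.disjoint_insert_right]
          refine ⟨fun h0 => hf0 ?_, e2⟩
          rw [e1]
          exact Finset.mem_union_left _ h0
        · rw [Finset.insert_comm]
          refine Disc.inner e4 hm ?_
          rintro ⟨hne, f, hf, h1, h2⟩
          rw [Finset.mem_insert] at hf
          rcases hf with rfl | hf
          · simp only [Finset.mem_insert, Finset.mem_singleton] at h1
            rcases h1 with h1 | h1 | h1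
            · exact hxu h1
            · exact hxv h1
            · exact hxw h1
          · apply hxy
            refine ⟨hne, f, ?_, h1, h2⟩
            rw [e1]
            exact Finset.mem_union_right _ hf
        · rw [Finset.mem_insert, not_or]
          exact ⟨hτ0, e5⟩
        · intro a ha1 ha2
          apply e6 a ha1
          rw [DiscF_mem_verts] at ha2 ⊢
          rcases ha2 with ha2 | ⟨f, hf, haf⟩
          · left
            simp only [List.mem_cons, List.mem_append, List.not_mem_nil, or_false] at ha2 ⊢
            tauto
          · rw [Finset.mem_insert] at hf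
            rcases hf with rfl | hf
            · left
              simp only [Finset.mem_insert, Finset.mem_singleton] at haf
              simp only [List.mem_cons, List.mem_append, List.not_mem_nil, or_false]
              tauto
            · exact Or.inr ⟨f, hf, haf⟩
      · -- split
        have hnd := hrot.nodup
        have hyt : y ≠ t := by
          rintro rfl
          have h1 : ((x :: (m₁ ++ y :: m₂)) ++ [y]).Nodup := by simpa using hnd
          have h2 := (List.nodup_append.1 h1).2.2
          exact h2 y (by simp) y (by simp) rfl
        have hu1 : ∀ {a b : V} {G : Finset (Finset V)}, AdjF G a b → ∀ l : List V,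
            a ∈ verts l G ∧ b ∈ verts l G := by
          intro a b G hab l
          obtain ⟨_, f, hf, h1, h2⟩ := hab
          exact ⟨DiscF_mem_verts.2 (Or.inr ⟨f, hf, h1⟩), DiscF_mem_verts.2 (Or.inr ⟨f, hf, h2⟩)⟩
        -- the pair `{y, t}` is in a face of `G₂` if it is contained in `τ`
        have hy1 : ∀ f ∈ G₁, y ∉ f := by
          intro f hf hyf
          have := hsep y (DiscF_mem_verts.2 (Or.inr ⟨f, hf, hyf⟩))
            (DiscF_mem_verts.2 (Or.inl (by simp)))
          exact hyt this
        have hkey : ∀ c, c ≠ x → c ≠ t → AdjF F y c → AdjF G₂ t y := by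
          intro c hcx hct hyc
          by_cases hm2 : m₂ = []
          · exfalso
            subst hm2
            have hG2 : G₂ = ∅ := Disc.empty_of_two (a := t) (b := y) (by simpa using hD2)
            obtain ⟨hne, f, hf, h1, h2⟩ := hyc
            rw [hF, hG2, Finset.union_empty, Finset.mem_insert] at hf
            rcases hf with rfl | hf
            · simp only [Finset.mem_insert, Finset.mem_singleton] at h2
              rcases h2 with h2 | h2 | h2
              · exact hcx h2
              · exact hne h2.symm
              · exact hct h2
            · exact hy1 f hf h1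
          · exact hD2.root_adj hm2
        -- every pair of `τ` is in a face of `G₁` or of `G₂`
        have hp3 : ∀ a b c, a ≠ x → b ≠ x → c ≠ x → AdjF F a b → AdjF F b c → AdjF F a c →
            AdjF G₁ a b ∨ AdjF G₂ a b := by
          intro a b c hax hbx hcx hab hbc hac
          rcases hpair a b hax hbx hab with h4 | ⟨rfl, rfl⟩ | ⟨rfl, rfl⟩
          · obtain ⟨hne, f, hf, h1, h2⟩ := h4
            rw [Finset.mem_union] at hf
            rcases hf with hf | hf
            · exact Or.inl ⟨hne, f, hf, h1, h2⟩
            · exact Or.inr ⟨hne, f, hf, h1, h2⟩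
          · exact Or.inr (DiscF_adj_symm (hkey c hcx hbc.1.symm hac))
          · exact Or.inr (hkey c hcx hac.1.symm hbc)
        have hux := Ne.symm hxu
        have hvx := Ne.symm hxv
        have hwx := Ne.symm hxw
        have q1 := hp3 u v w hux hvx hwx huv hvw huw
        have q2 := hp3 v w u hvx hwx hux hvw (DiscF_adj_symm huw) (DiscF_adj_symm huv)
        have q3 := hp3 u w v hux hwx hvx huw (DiscF_adj_symm hvw) huv
        have hmeet : ∀ {a b c : V}, AdjF G₁ a b → AdjF G₂ a c → a = t := by
          intro a b c h1 h2
          exact hsep a (hu1 h1 _).1 (hu1 h2 _).1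
        have hsame : (AdjF G₁ u v ∧ AdjF G₁ v w ∧ AdjF G₁ u w) ∨
            (AdjF G₂ u v ∧ AdjF G₂ v w ∧ AdjF G₂ u w) := by
          have huv' := huv.1
          have hvw' := hvw.1
          have huw' := huw.1
          rcases q1 with q1 | q1 <;> rcases q2 with q2 | q2 <;> rcases q3 with q3 | q3
          · exact Or.inl ⟨q1, q2, q3⟩
          · exact absurd ((hmeet q1 q3).trans (hmeet (DiscF_adj_symm q2) (DiscF_adj_symm q3)).symm)
              huw'
          · exact absurd ((hmeet (DiscF_adj_symm q1) q2).trans
              (hmeet (DiscF_adj_symm q3) (DiscF_adj_symm q2)).symm) hvw'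
          · exact absurd ((hmeet q1 q3).trans (hmeet (DiscF_adj_symm q1) q2).symm) huv'
          · exact absurd ((hmeet q3 q1).trans (hmeet q2 (DiscF_adj_symm q1)).symm) huv'
          · exact absurd ((hmeet q2 (DiscF_adj_symm q1)).trans
              (hmeet (DiscF_adj_symm q2) (DiscF_adj_symm q3)).symm) hvw'
          · exact absurd ((hmeet q3 q1).trans (hmeet (DiscF_adj_symm q3) (DiscF_adj_symm q2)).symm)
              huw'
          · exact Or.inr ⟨q1, q2, q3⟩
        have hG1lt : G₁.card < n :=
          lt_of_le_of_lt (Finset.card_le_card Finset.subset_union_left) hlt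
        have hG2lt : G₂.card < n :=
          lt_of_le_of_lt (Finset.card_le_card Finset.subset_union_right) hlt
        have hverts : ∀ {a : V} {A B : Finset (Finset V)},
            a ∈ verts (x :: (m₁ ++ t :: m₂ ++ [y])) (insert {x, y, t} (A ∪ B)) →
            a ∈ verts (x :: (m₁ ++ [t])) A ∨ a ∈ verts (t :: (m₂ ++ [y])) B := by
          intro a A B ha
          rw [DiscF_mem_verts] at ha
          rw [DiscF_mem_verts, DiscF_mem_verts]
          rcases ha with ha | ⟨f, hf, haf⟩
          · simp only [List.mem_cons, List.mem_append, List.not_mem_nil, or_false] at ha ⊢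
            tauto
          · rw [Finset.mem_insert, Finset.mem_union] at hf
            rcases hf with rfl | hf | hf
            · simp only [Finset.mem_insert, Finset.mem_singleton] at haf
              simp only [List.mem_cons, List.mem_append, List.not_mem_nil, or_false]
              tauto
            · exact Or.inl (Or.inr ⟨f, hf, haf⟩)
            · exact Or.inr (Or.inr ⟨f, hf, haf⟩)
        have hlist : x :: (m₁ ++ t :: m₂ ++ [y]) = x :: (m₁ ++ t :: (m₂ ++ [y])) := by simp
        rcases hsame with ⟨r1, r2, r3⟩ | ⟨r1, r2, r3⟩
        · -- everything in the first part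
          obtain ⟨A₁, A₂, e1, e2, e3, e4, e5, e6⟩ := ih G₁.card hG1lt rfl hD1 r1 r2 r3
          have hsub1 : A₁ ⊆ G₁ := by rw [e1]; exact Finset.subset_union_left
          have hsub2 : A₂ ⊆ G₁ := by rw [e1]; exact Finset.subset_union_right
          have hτG : ∀ {a : V}, (a = u ∨ a = v ∨ a = w) → ∃ f ∈ G₁, a ∈ f := by
            rintro a (rfl | rfl | rfl)
            · obtain ⟨_, f, hf, h1, h2⟩ := r1
              exact ⟨f, hf, h1⟩
            · obtain ⟨_, f, hf, h1, h2⟩ := r1
              exact ⟨f, hf, h2⟩
            · obtain ⟨_, f, hf, h1, h2⟩ := r2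
              exact ⟨f, hf, h2⟩
          refine ⟨A₁, insert {x, y, t} (A₂ ∪ G₂), ?_, ?_, e3, ?_, ?_, ?_⟩
          · rw [hF, e1, Finset.union_insert, Finset.union_assoc]
          · rw [Finset.disjoint_insert_right, Finset.disjoint_union_right]
            refine ⟨fun h0 => hf0 (Finset.mem_union_left _ (hsub1 h0)), e2, ?_⟩
            exact Finset.disjoint_of_subset_left hsub1 hdis
          · rw [Finset.insert_comm, ← Finset.insert_union, hlist]
            refine Disc.split e4 hD2 ?_
            intro a ha1 ha2
            refine hsep a ?_ ha2
            rw [DiscF_mem_verts] at ha1 ⊢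
            rcases ha1 with ha1 | ⟨f, hf, haf⟩
            · exact Or.inl ha1
            · right
              rw [Finset.mem_insert] at hf
              rcases hf with rfl | hf
              · simp only [Finset.mem_insert, Finset.mem_singleton] at haf
                exact hτG haf
              · exact ⟨f, hsub2 hf, haf⟩
          · rw [Finset.mem_insert, Finset.mem_union, not_or, not_or]
            refine ⟨hτ0, e5, fun h0 => ?_⟩
            have h1 : u = t := hsep u (hu1 r1 _).1
              (DiscF_mem_verts.2 (Or.inr ⟨_, h0, by simp⟩))
            have h2 : v = t := hsep v (hu1 r2 _).1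
              (DiscF_mem_verts.2 (Or.inr ⟨_, h0, by simp⟩))
            exact huv.1 (h1.trans h2.symm)
          · intro a ha1 ha2
            rcases hverts ha2 with ha3 | ha3
            · exact e6 a ha1 ha3
            · have hat : a = t := by
                refine hsep a ?_ ha3
                rw [DiscF_mem_verts] at ha1 ⊢
                right
                rcases ha1 with ha1 | ⟨f, hf, haf⟩
                · simp only [List.mem_cons, List.not_mem_nil, or_false] at ha1
                  exact hτG ha1
                · exact ⟨f, hsub1 hf, haf⟩
              refine e6 a ha1 ?_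
              rw [hat, DiscF_mem_verts]
              left
              simp
        · -- everything in the second part
          obtain ⟨A₁, A₂, e1, e2, e3, e4, e5, e6⟩ := ih G₂.card hG2lt rfl hD2 r1 r2 r3
          have hsub1 : A₁ ⊆ G₂ := by rw [e1]; exact Finset.subset_union_left
          have hsub2 : A₂ ⊆ G₂ := by rw [e1]; exact Finset.subset_union_right
          have hτG : ∀ {a : V}, (a = u ∨ a = v ∨ a = w) → ∃ f ∈ G₂, a ∈ f := by
            rintro a (rfl | rfl | rfl)
            · obtain ⟨_, f, hf, h1, h2⟩ := r1
              exact ⟨f, hf, h1⟩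
            · obtain ⟨_, f, hf, h1, h2⟩ := r1
              exact ⟨f, hf, h2⟩
            · obtain ⟨_, f, hf, h1, h2⟩ := r2
              exact ⟨f, hf, h2⟩
          refine ⟨A₁, insert {x, y, t} (G₁ ∪ A₂), ?_, ?_, e3, ?_, ?_, ?_⟩
          · rw [hF, e1, Finset.union_insert, Finset.union_left_comm]
          · rw [Finset.disjoint_insert_right, Finset.disjoint_union_right]
            refine ⟨fun h0 => hf0 (Finset.mem_union_right _ (hsub1 h0)), ?_, e2⟩
            exact Finset.disjoint_of_subset_left hsub1 hdis.symm
          · rw [Finset.insert_comm, ← Finset.union_insert, hlist]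
            refine Disc.split hD1 e4 ?_
            intro a ha1 ha2
            refine hsep a ha1 ?_
            rw [DiscF_mem_verts] at ha2 ⊢
            rcases ha2 with ha2 | ⟨f, hf, haf⟩
            · exact Or.inl ha2
            · right
              rw [Finset.mem_insert] at hf
              rcases hf with rfl | hf
              · simp only [Finset.mem_insert, Finset.mem_singleton] at haf
                exact hτG haf
              · exact ⟨f, hsub2 hf, haf⟩
          · rw [Finset.mem_insert, Finset.mem_union, not_or, not_or]
            refine ⟨hτ0, fun h0 => ?_, e5⟩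
            have h1 : u = t := hsep u (DiscF_mem_verts.2 (Or.inr ⟨_, h0, by simp⟩))
              (hu1 r1 _).1
            have h2 : v = t := hsep v (DiscF_mem_verts.2 (Or.inr ⟨_, h0, by simp⟩))
              (hu1 r2 _).1
            exact huv.1 (h1.trans h2.symm)
          · intro a ha1 ha2
            rcases hverts ha2 with ha3 | ha3
            · have hat : a = t := by
                refine hsep a ha3 ?_
                rw [DiscF_mem_verts] at ha1 ⊢
                right
                rcases ha1 with ha1 | ⟨f, hf, haf⟩
                · simp only [List.mem_cons, List.not_mem_nil, or_false] at ha1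
                  exact hτG ha1
                · exact ⟨f, hsub1 hf, haf⟩
              refine e6 a ha1 ?_
              rw [hat, DiscF_mem_verts]
              left
              simp
            · exact e6 a ha1 ha3

/-- Cutting out the inside of a 3-cycle. Strong induction on `F.card`. Let `τ = {u, v, w}`.
If every cyclic boundary edge of `l` has both ends in `τ` then (nodup) `l` has length three and is a
permutation of `[u, v, w]` (length two is impossible: then `F = ∅`); take `F₁ = F`, `F₂ = ∅`
(`Disc [u, v, w] F` by `Disc.rotate`/`Disc.reverse`, `Disc l {τ}` by `Disc.single`).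
Otherwise rotate so that the root edge `(x, y)` has not both ends in `τ`, peel, `f0 = {x, y, t}`.
inner: each of the three pairs is still in a face of `F'`: if a pair is contained in `f0` then it is
`{x, t}` or `{y, t}`, a boundary edge of `x :: (m ++ [y, t])`, use `Disc.bd_adj` / `Disc.root_adj`.
Induction gives `F' = F₁ ∪ G₂`; `F₂ = insert f0 G₂` by `Disc.inner` (`τ` does not contain both
`x` and `y`); `f0 ∉ F₁` because of `¬ AdjF F' x y`.
split, parts `P₁ = x :: (m₁ ++ [t])` with `G₁`, `P₂ = t :: (m₂ ++ [y])` with `G₂`: a pair inside `f0` is
`{x, t}` or `{y, t}`. If `m₁ ≠ []` the pair `{x, t}` is in a face of `G₁`. If `m₁ = []` and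
`{x, t} ⊆ τ`: the only face with `x` is `f0`, so the third vertex of `τ` is `y`, contradiction.
Likewise for `{y, t}`. So every pair is in a face of `G₁` or of `G₂`, and (the `verts` share only `t`)
all three in the same one. Use induction for that part and `Disc.split`. -/
theorem Disc.extract {l : List V} {u v w : V} {F : Finset (Finset V)} (h : Disc l F)
    (huv : AdjF F u v) (hvw : AdjF F v w) (huw : AdjF F u w) :
    ∃ F₁ F₂ : Finset (Finset V), F = F₁ ∪ F₂ ∧ Disjoint F₁ F₂ ∧ Disc [u, v, w] F₁ ∧
      Disc l (insert {u, v, w} F₂) ∧ ({u, v, w} : Finset V) ∉ F₂ ∧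
      ∀ a, a ∈ verts [u, v, w] F₁ → a ∈ verts l F₂ → a = u ∨ a = v ∨ a = w := by
  exact DiscF_aux F.card rfl h huv hvw huw

end EPG26
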