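import Pool.Agent.W_26e041_h61.Defs

/-!
Drawings in progress: growth, windows, pending vertices, fillable faces.
-/

namespace EPG26

variable {V : Type*} [DecidableEq V]

/-- positions on lines that are not in `U` -/
def nl (U : Bool → Finset ℚ) : Cov := fun o l => {x | l ∉ U o}

/-- the positions `a ≤ x < b` of the line `(o, l)` -/
def hseg (o : Bool) (l a b : ℚ) : Cov := fun o' l' => {x | o' = o ∧ l' = l ∧ a ≤ x ∧ x < b}

/-- the positions `a ≤ x ≤ b` of the line `(o, l)` -/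
def cseg (o : Bool) (l a b : ℚ) : Cov := fun o' l' => {x | o' = o ∧ l' = l ∧ a ≤ x ∧ x ≤ b}

/-- a sound drawing whose lines are in `U` -/
structure Wd (G : SimpleGraph V) (Γ : Dr V) (U : Bool → Finset ℚ) : Prop where
  lines : LinesIn Γ U
  sound : Sound G Γ

/-- `Γ'` is obtained from `Γ` by new coverage of vertices of `K` inside `D` -/
structure Grow (Γ Γ' : Dr V) (D : Cov) (K : Set V) : Prop where
  mono : ∀ v o l x, x ∈ Γ v o l → x ∈ Γ' v o l
  new : ∀ v o l x, x ∈ Γ' v o l → x ∈ Γ v o l ∨ (v ∈ K ∧ x ∈ D o l)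

/-- one or more drawing steps -/
structure Step (G : SimpleGraph V) (Γ : Dr V) (U : Bool → Finset ℚ) (D : Cov) (K : Set V)
    (Γ' : Dr V) (U' : Bool → Finset ℚ) : Prop where
  sub : ∀ o, U o ⊆ U' o
  wd : Wd G Γ' U'
  grow : Grow Γ Γ' D K

/-- everything outside the lines of `U` is allowed -/
def Adm (U : Bool → Finset ℚ) (D : Cov) : Prop := nl U ≤ D

/-- exactly the vertices of `S` cover the positions between `a` and `b`, and these are allowed -/
def SW (Γ : Dr V) (D : Cov) (S : Set V) (o : Bool) (l a b : ℚ) : Prop :=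
  ∀ x, a < x → x < b → x ∈ D o l ∧ ∀ v, x ∈ Γ v o l ↔ v ∈ S

/-- A pending vertex `v` with a last segment on the line of coordinate `c`. `g` is the coordinate
(smaller than `c`) where its foot ends, `e` the end of the part of the line `g` reserved for `v`,
if `pl = true` then the foot may end anywhere. (`t` is not used any more.) -/
structure Rec (V : Type*) where
  v : V
  c : ℚ
  g : ℚ
  e : ℚ
  t : ℚ
  pl : Bool

/-- A vertex with coverage `C` whose last segment on the line `(o, c)` is drawn up to position `s`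
can be finished (property `P`) at every `Y` in `(s, hi]` with a foot on the line `(!o, Y)` between `g`
and `c`, and possibly some coverage in `E Y`. -/
def Pay (P : Cov → Prop) (C : Cov) (o : Bool) (c g s hi : ℚ) (E : ℚ → Cov) : Prop :=
  ∀ Y, s < Y → Y ≤ hi → ∃ C' : Cov, P C' ∧ C ≤ C' ∧ hseg o c s Y ≤ C' ∧ seg (!o) Y g c ≤ C' ∧
    C' ≤ C ⊔ hseg o c s Y ⊔ seg (!o) Y g c ⊔ E Y

/-- the record `r` describes a pending vertex with a last segment of orientation `o` drawn up to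
`s` -/
structure Pend (P : V → Cov → Prop) (Γ : Dr V) (U : Bool → Finset ℚ) (D : Cov) (o : Bool)
    (s hi : ℚ) (r : Rec V) : Prop where
  hc : r.c ∈ U o
  hg : r.g ∈ U o
  gc : r.g < r.c
  line : ∀ x, s ≤ x → x < hi → x ∈ D o r.c ∧ ∀ w, x ∈ Γ w o r.c → w = r.v
  gap : ∀ x, s ≤ x → x ≤ r.e → x ∈ D o r.g ∧ ∀ w, x ∈ Γ w o r.g → w = r.v
  pay : Pay (P r.v) (Γ r.v) o r.c r.g s hi (fun Y => cseg o r.g Y r.e)
  plain : r.pl = true → r.c < r.t ∧ r.e < s ∧
    ∀ g', g' ≠ r.c → Pay (P r.v) (Γ r.v) o r.c g' s hi (fun _ => ⊥)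
  own : ∀ x, s ≤ x → x < hi → x ∉ Γ r.v o r.c

/-- `lo < g₁ < c₁ < g₂ < c₂ < ... < hi` for a list of records -/
def OrdL : ℚ → List (Rec V) → ℚ → Prop
  | lo, [], hi => lo < hi
  | lo, r :: t, hi => lo < r.g ∧ r.g < r.c ∧ OrdL r.c t hi

/-- the vertex of the first record, or `b` -/
def topv : List (Rec V) → V → V
  | [], b => b
  | r :: _, _ => r.v

/-- the line of the first record, or `Y` -/
def topc : List (Rec V) → ℚ → ℚ
  | [], Y => Y
  | r :: _, _ => r.c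

/-- the gap of the first record, or `Y` -/
def topg : List (Rec V) → ℚ → ℚ
  | [], Y => Y
  | r :: _, _ => r.g

/-- N-state: pending white vertices `W` (vertical lines) and the white base `a0` (line `X0`),
pending black vertices `L` (horizontal lines) and the black base `b0` (line `Y0`). -/
structure NSt (P : V → Cov → Prop) (Γ : Dr V) (U : Bool → Finset ℚ) (D : Cov) (A B : ℚ)
    (W : List (Rec V)) (a0 : V) (X0 u : ℚ) (L : List (Rec V)) (b0 : V) (Y0 yu : ℚ) : Prop where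
  ordW : OrdL A W u
  ordB : OrdL B L yu
  huX : u ≤ X0
  hyY : yu ≤ Y0
  white : ∀ r ∈ W, ∃ s ≤ B, Pend P Γ U D true s Y0 r
  black : ∀ r ∈ L, ∃ s ≤ A, Pend P Γ U D false s X0 r
  wbase : SW Γ D {a0} true X0 B yu
  bbase : SW Γ D {b0} false Y0 A u

/-- M-state: in addition a finished vertex `z` with a vertical line `Xz` left of everything, the
first black vertex covers its line from `Xz` to `h`. -/
structure MSt (P : V → Cov → Prop) (Γ : Dr V) (U : Bool → Finset ℚ) (D : Cov) (z : V) (Xz h A B : ℚ)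
    (W : List (Rec V)) (a0 : V) (X0 u : ℚ) (L : List (Rec V)) (b0 : V) (Y0 yu : ℚ) : Prop where
  n : NSt P Γ U D A B W a0 X0 u L b0 Y0 yu
  hz : Xz < h
  hA : h ≤ A
  zcol : SW Γ D {z} true Xz B (topc L Y0)
  top : SW Γ D {topv L b0} false (topc L Y0) Xz h

/-! ### fillable faces -/

/-- the face content `J` is completely drawn -/
def Filled (G : SimpleGraph V) (Γ : Dr V) (J : Finset V) : Prop :=
  ∀ v ∈ J, IsPath3 (Γ v) ∧ ∀ w, G.Adj v w → Ov Γ v w

/-- corner socket: the line of `s` from `B` to the line of `r`, the line of `r` from the line of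
`s` to `u`, the line of `t` from `B` to `yu` -/
structure SockC (Γ : Dr V) (s r t : V) (o : Bool) (Xs Yr Xt B u yu : ℚ) : Prop where
  hs : Solo Γ {s} o Xs (min B Yr) (max B Yr)
  hr : Solo Γ {r} (!o) Yr (min Xs u) (max Xs u)
  ht : Solo Γ {t} o Xt (min B yu) (max B yu)
  h1 : (B < yu ∧ yu ≤ Yr) ∨ (Yr ≤ yu ∧ yu < B)
  h2 : (Xs < u ∧ u ≤ Xt) ∨ (Xt ≤ u ∧ u < Xs)

/-- two parallel lines of `u`, `v` with a common window, and a perpendicular line of `x` -/
structure SockR (Γ : Dr V) (u v x : V) (o : Bool) (Yu Yv I0 I1 X J0 J1 : ℚ) : Prop where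
  hI : I0 < I1
  hJ : J0 < J1
  hu : Solo Γ {u} o Yu I0 I1
  hv : Solo Γ {v} o Yv I0 I1
  hx : Solo Γ {x} (!o) X J0 J1
  ne : Yu ≠ Yv
  side : X ≤ I0 ∨ I1 ≤ X

/-- common zone of the two parallel vertices -/
structure ZoneW (Γ : Dr V) (u v : V) (o : Bool) (Yu Yv J0 J1 R C0 C1 : ℚ) : Prop where
  hC : C0 < C1
  hz : Solo Γ {u, v} o R C0 C1
  beyond : (Yu ≤ J0 ∧ Yv ≤ J0 ∧ R ≤ J0) ∨ (J1 ≤ Yu ∧ J1 ≤ Yv ∧ J1 ≤ R)

/-- common zone of `u` and `x` -/
structure ZoneO (Γ : Dr V) (u x : V) (o : Bool) (Yu Yv J0 J1 X2 C0 C1 : ℚ) : Prop where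
  hC : C0 < C1
  hz : Solo Γ {u, x} (!o) X2 C0 C1
  beyond : (Yu ≤ J0 ∧ Yv ≤ J0 ∧ C1 ≤ J0) ∨ (J1 ≤ Yu ∧ J1 ≤ Yv ∧ J1 ≤ C0)
  same : (Yu < Yv ∧ C1 ≤ Yv) ∨ (Yv < Yu ∧ Yv ≤ C0)

/-- the drawing can be extended by the vertices of `J` inside `D` -/
def CanFill (G : SimpleGraph V) (Γ : Dr V) (U : Bool → Finset ℚ) (D : Cov) (J : Finset V) : Prop :=
  ∃ Γ' U', Step G Γ U (nl U ⊔ D) (↑J) Γ' U' ∧ Filled G Γ' J

/-- the content `J` of the triangle `T` can be drawn in every socket for `T` -/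
structure FillT (G : SimpleGraph V) (T J : Finset V) : Prop where
  corner : ∀ (Γ : Dr V) (U : Bool → Finset ℚ) (s r t : V) (o : Bool) (Xs Yr Xt B u yu : ℚ),
    T = {s, r, t} → Wd G Γ U → (∀ v ∈ J, Undrawn Γ v) → SockC Γ s r t o Xs Yr Xt B u yu →
    CanFill G Γ U (seg o Xs B Yr ⊔ seg (!o) Yr Xs u ⊔ seg o Xt B yu) J
  wk : ∀ (Γ : Dr V) (U : Bool → Finset ℚ) (u v x : V) (o : Bool)
    (Yu Yv I0 I1 X J0 J1 R C0 C1 : ℚ),
    T = {u, v, x} → Wd G Γ U → (∀ v ∈ J, Undrawn Γ v) → SockR Γ u v x o Yu Yv I0 I1 X J0 J1 →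
    ZoneW Γ u v o Yu Yv J0 J1 R C0 C1 →
    CanFill G Γ U (seg o Yu I0 I1 ⊔ seg o Yv I0 I1 ⊔ seg (!o) X J0 J1 ⊔ seg o R C0 C1) J
  om : ∀ (Γ : Dr V) (U : Bool → Finset ℚ) (u v x : V) (o : Bool)
    (Yu Yv I0 I1 X J0 J1 X2 C0 C1 : ℚ),
    T = {u, v, x} → Wd G Γ U → (∀ v ∈ J, Undrawn Γ v) → SockR Γ u v x o Yu Yv I0 I1 X J0 J1 →
    ZoneO Γ u x o Yu Yv J0 J1 X2 C0 C1 →
    CanFill G Γ U (seg o Yu I0 I1 ⊔ seg o Yv I0 I1 ⊔ seg (!o) X J0 J1 ⊔ seg (!o) X2 C0 C1) J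

end EPG26
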