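import Pool.Agent.W_26e041_h61.GeoA

/-!
Basic lemmas about growing drawings, windows and pending vertices. All of them are routine.
-/

namespace EPG26

variable {V : Type*} [DecidableEq V]

/-- add the line `(o, c)` -/
def addL (U : Bool → Finset ℚ) (o : Bool) (c : ℚ) : Bool → Finset ℚ :=
  fun o' => if o' = o then insert c (U o') else U o'

theorem mem_addL {U : Bool → Finset ℚ} {o o' : Bool} {c x : ℚ} :
    x ∈ addL U o c o' ↔ x ∈ U o' ∨ (o' = o ∧ x = c) := by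
  unfold addL
  split_ifs with h
  · rw [Finset.mem_insert]
    constructor
    · rintro (h1 | h1)
      · exact Or.inr ⟨h, h1⟩
      · exact Or.inl h1
    · rintro (h1 | h1)
      · exact Or.inr h1
      · exact Or.inl h1.2
  · exact ⟨Or.inl, fun h1 => h1.resolve_right fun h2 => h h2.1⟩

/-- An open interval of rationals is infinite. -/
theorem exists_fresh (U : Bool → Finset ℚ) (o : Bool) {a b : ℚ} (h : a < b) :
    ∃ c, a < c ∧ c < b ∧ c ∉ U o := by
  obtain ⟨c, hc, hn⟩ := (Set.Ioo_infinite h).exists_notMem_finset (U o)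
  exact ⟨c, hc.1, hc.2, hn⟩

theorem Adm.mono {U U' : Bool → Finset ℚ} {D : Cov} (h : Adm U D) (hU : ∀ o, U o ⊆ U' o) :
    Adm U' D := by
  exact le_trans (fun o l x hx hl => hx (hU o hl)) h

theorem Grow.refl (Γ : Dr V) (D : Cov) (K : Set V) : Grow Γ Γ D K := by
  exact ⟨fun _ _ _ _ h => h, fun _ _ _ _ h => Or.inl h⟩

theorem Grow.trans {Γ Γ₁ Γ₂ : Dr V} {D : Cov} {K : Set V} (h₁ : Grow Γ Γ₁ D K)
    (h₂ : Grow Γ₁ Γ₂ D K) : Grow Γ Γ₂ D K := by
  refine ⟨fun v o l x h => h₂.mono v o l x (h₁.mono v o l x h), fun v o l x h => ?_⟩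
  rcases h₂.new v o l x h with h3 | h3
  · exact h₁.new v o l x h3
  · exact Or.inr h3

theorem Grow.weaken {Γ Γ' : Dr V} {D D' : Cov} {K K' : Set V} (h : Grow Γ Γ' D K)
    (hD : D ≤ D') (hK : K ⊆ K') : Grow Γ Γ' D' K' := by
  refine ⟨h.mono, fun v o l x h1 => ?_⟩
  rcases h.new v o l x h1 with h3 | h3
  · exact Or.inl h3
  · exact Or.inr ⟨hK h3.1, hD o l h3.2⟩

theorem Grow.eq {Γ Γ' : Dr V} {D : Cov} {K : Set V} (h : Grow Γ Γ' D K) {v : V} (hv : v ∉ K) :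
    Γ' v = Γ v := by
  funext o l
  ext x
  constructor
  · intro h1
    rcases h.new v o l x h1 with h3 | h3
    · exact h3
    · exact absurd h3.1 hv
  · exact h.mono v o l x

theorem Step.refl {G : SimpleGraph V} {Γ : Dr V} {U : Bool → Finset ℚ} (h : Wd G Γ U) (D : Cov)
    (K : Set V) : Step G Γ U D K Γ U := by
  exact ⟨fun _ _ h1 => h1, h, Grow.refl Γ D K⟩

theorem Step.trans {G : SimpleGraph V} {Γ Γ₁ Γ₂ : Dr V} {U U₁ U₂ : Bool → Finset ℚ} {D : Cov}
    {K : Set V} (h₁ : Step G Γ U D K Γ₁ U₁) (h₂ : Step G Γ₁ U₁ D K Γ₂ U₂) :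
    Step G Γ U D K Γ₂ U₂ := by
  exact ⟨fun o x hx => h₂.sub o (h₁.sub o hx), h₂.wd, h₁.grow.trans h₂.grow⟩

theorem Step.weaken {G : SimpleGraph V} {Γ Γ' : Dr V} {U U' : Bool → Finset ℚ} {D D' : Cov}
    {K K' : Set V} (h : Step G Γ U D K Γ' U') (hD : D ≤ D') (hK : K ⊆ K') :
    Step G Γ U D' K' Γ' U' := by
  exact ⟨h.sub, h.wd, h.grow.weaken hD hK⟩

/-- Drawing more of one vertex. -/
theorem Step.draw {G : SimpleGraph V} {Γ : Dr V} {U U' : Bool → Finset ℚ} {D : Cov} {v : V}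
    {C : Cov} (hw : Wd G Γ U) (hU : ∀ o, U o ⊆ U' o) (hC : Γ v ≤ C)
    (hl : ∀ o l x, x ∈ C o l → l ∈ U' o)
    (hD : ∀ o l x, x ∈ C o l → x ∉ Γ v o l → x ∈ D o l)
    (hs : ∀ o l x, x ∈ C o l → x ∉ Γ v o l → ∀ w, w ≠ v → x ∈ Γ w o l → G.Adj v w) :
    Step G Γ U D {v} (Function.update Γ v C) U' := by
  refine ⟨hU, ⟨?_, ?_⟩, ⟨?_, ?_⟩⟩
  · intro w o l x hx
    by_cases hw' : w = v
    · subst hw'
      rw [Function.update_self] at hx
      exact hl o l x hx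
    · rw [Function.update_of_ne hw'] at hx
      exact hU o (hw.lines w o l x hx)
  · rintro u w huw ⟨o, l, x, hx, hx'⟩
    by_cases hu : u = v
    · subst hu
      have hw' : w ≠ u := fun h => huw h.symm
      rw [Function.update_self] at hx
      rw [Function.update_of_ne hw'] at hx'
      by_cases hxu : x ∈ Γ u o l
      · exact hw.sound u w huw ⟨o, l, x, hxu, hx'⟩
      · exact hs o l x hx hxu w hw' hx'
    · rw [Function.update_of_ne hu] at hx
      by_cases hw' : w = v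
      · subst hw'
        rw [Function.update_self] at hx'
        by_cases hxu : x ∈ Γ w o l
        · exact hw.sound u w huw ⟨o, l, x, hx, hxu⟩
        · exact (hs o l x hx' hxu u hu hx).symm
      · rw [Function.update_of_ne hw'] at hx'
        exact hw.sound u w huw ⟨o, l, x, hx, hx'⟩
  · intro w o l x hx
    by_cases hw' : w = v
    · subst hw'
      rw [Function.update_self]
      exact hC o l hx
    · rw [Function.update_of_ne hw']
      exact hx
  · intro w o l x hx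
    by_cases hw' : w = v
    · subst hw'
      rw [Function.update_self] at hx
      by_cases hxu : x ∈ Γ w o l
      · exact Or.inl hxu
      · exact Or.inr ⟨Set.mem_singleton _, hD o l x hx hxu⟩
    · rw [Function.update_of_ne hw'] at hx
      exact Or.inl hx

/-- Adding (in use: unused) lines to `U`. -/
theorem Step.addLine {G : SimpleGraph V} {Γ : Dr V} {U U' : Bool → Finset ℚ} {D : Cov}
    {K : Set V} (hw : Wd G Γ U) (hU : ∀ o, U o ⊆ U' o) : Step G Γ U D K Γ U' := by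
  exact ⟨hU, ⟨fun v o l x hx => hU o (hw.lines v o l x hx), hw.sound⟩, Grow.refl Γ D K⟩

theorem Ov.mono {Γ Γ' : Dr V} {D : Cov} {K : Set V} (h : Grow Γ Γ' D K) {u v : V}
    (ho : Ov Γ u v) : Ov Γ' u v := by
  obtain ⟨o, l, x, h1, h2⟩ := ho
  exact ⟨o, l, x, h.mono u o l x h1, h.mono v o l x h2⟩

theorem Ov.symm {Γ : Dr V} {u v : V} (h : Ov Γ u v) : Ov Γ v u := by
  obtain ⟨o, l, x, h1, h2⟩ := h
  exact ⟨o, l, x, h2, h1⟩

theorem Filled.mono {G : SimpleGraph V} {Γ Γ' : Dr V} {D : Cov} {K : Set V} {J : Finset V}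
    (h : Grow Γ Γ' D K) (hf : Filled G Γ J) (hK : ∀ v ∈ J, v ∉ K) : Filled G Γ' J := by
  intro v hv
  obtain ⟨h1, h2⟩ := hf v hv
  refine ⟨?_, fun w hw => (h2 w hw).mono h⟩
  rw [h.eq (hK v hv)]
  exact h1

theorem Undrawn.grow {Γ Γ' : Dr V} {D : Cov} {K : Set V} (h : Grow Γ Γ' D K) {v : V}
    (hv : Undrawn Γ v) (hK : v ∉ K) : Undrawn Γ' v := by
  intro o l x hx
  rw [h.eq hK] at hx
  exact hv o l x hx

/-! ### windows -/

theorem SW.solo {Γ : Dr V} {D : Cov} {S : Set V} {o : Bool} {l a b : ℚ}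
    (h : SW Γ D S o l a b) : Solo Γ S o l a b := by
  exact fun x h1 h2 => (h x h1 h2).2

theorem SW.sub {Γ : Dr V} {D : Cov} {S : Set V} {o : Bool} {l a b a' b' : ℚ}
    (h : SW Γ D S o l a b) (ha : a ≤ a') (hb : b' ≤ b) : SW Γ D S o l a' b' := by
  exact fun x h1 h2 => h x (lt_of_le_of_lt ha h1) (lt_of_lt_of_le h2 hb)

theorem SW.grow {Γ Γ' : Dr V} {D D₁ : Cov} {K : Set V} {S : Set V} {o : Bool} {l a b : ℚ}
    (h : SW Γ D S o l a b) (hg : Grow Γ Γ' D₁ K) (hd : ∀ x, a < x → x < b → x ∉ D₁ o l) :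
    SW Γ' D S o l a b := by
  refine fun x h1 h2 => ⟨(h x h1 h2).1, fun v => ⟨fun h3 => ?_, fun h3 => ?_⟩⟩
  · rcases hg.new v o l x h3 with h4 | h4
    · exact ((h x h1 h2).2 v).1 h4
    · exact absurd h4.2 (hd x h1 h2)
  · exact hg.mono v o l x (((h x h1 h2).2 v).2 h3)

theorem Solo.grow {Γ Γ' : Dr V} {D₁ : Cov} {K : Set V} {S : Set V} {o : Bool} {l a b : ℚ}
    (h : Solo Γ S o l a b) (hg : Grow Γ Γ' D₁ K) (hd : ∀ x, a < x → x < b → x ∉ D₁ o l) :
    Solo Γ' S o l a b := by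
  refine fun x h1 h2 v => ⟨fun h3 => ?_, fun h3 => ?_⟩
  · rcases hg.new v o l x h3 with h4 | h4
    · exact (h x h1 h2 v).1 h4
    · exact absurd h4.2 (hd x h1 h2)
  · exact hg.mono v o l x ((h x h1 h2 v).2 h3)

theorem SW.mem {Γ : Dr V} {D : Cov} {U : Bool → Finset ℚ} {v : V} {S : Set V} {o : Bool}
    {l a b : ℚ} (h : SW Γ D S o l a b) (hv : v ∈ S) (hl : LinesIn Γ U) (hab : a < b) :
    l ∈ U o := by
  obtain ⟨x, h1, h2⟩ := exists_between hab
  exact hl v o l x (((h x h1 h2).2 v).2 hv)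

theorem Solo.mem {Γ : Dr V} {U : Bool → Finset ℚ} {v : V} {S : Set V} {o : Bool}
    {l a b : ℚ} (h : Solo Γ S o l a b) (hv : v ∈ S) (hl : LinesIn Γ U) (hab : a < b) :
    l ∈ U o := by
  obtain ⟨x, h1, h2⟩ := exists_between hab
  exact hl v o l x ((h x h1 h2 v).2 hv)

/-! ### pending vertices -/

/-- growth elsewhere -/
theorem Pend.grow {P : V → Cov → Prop} {Γ Γ' : Dr V} {U U' : Bool → Finset ℚ} {D D₁ : Cov}
    {K : Set V} {o : Bool} {s hi : ℚ} {r : Rec V} (h : Pend P Γ U D o s hi r)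
    (hg : Grow Γ Γ' D₁ K) (hU : ∀ o, U o ⊆ U' o) (hv : r.v ∉ K)
    (h1 : ∀ x, s ≤ x → x < hi → x ∉ D₁ o r.c) (h2 : ∀ x, s ≤ x → x ≤ r.e → x ∉ D₁ o r.g) :
    Pend P Γ' U' D o s hi r := by
  refine ⟨hU _ h.hc, hU _ h.hg, h.gc, fun x hx hx' => ⟨(h.line x hx hx').1, fun w hw => ?_⟩,
    fun x hx hx' => ⟨(h.gap x hx hx').1, fun w hw => ?_⟩, ?_, ?_, ?_⟩
  · rcases hg.new w o r.c x hw with h4 | h4
    · exact (h.line x hx hx').2 w h4
    · exact absurd h4.2 (h1 x hx hx')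
  · rcases hg.new w o r.g x hw with h4 | h4
    · exact (h.gap x hx hx').2 w h4
    · exact absurd h4.2 (h2 x hx hx')
  · rw [hg.eq hv]
    exact h.pay
  · rw [hg.eq hv]
    exact h.plain
  · rw [hg.eq hv]
    exact h.own

theorem Pend.mono_hi {P : V → Cov → Prop} {Γ : Dr V} {U : Bool → Finset ℚ} {D : Cov}
    {o : Bool} {s hi hi' : ℚ} {r : Rec V} (h : Pend P Γ U D o s hi r) (hh : hi' ≤ hi) :
    Pend P Γ U D o s hi' r := by
  refine ⟨h.hc, h.hg, h.gc, fun x hx hx' => h.line x hx (lt_of_lt_of_le hx' hh), h.gap,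
    fun Y h1 h2 => h.pay Y h1 (h2.trans hh), fun hp => ?_,
    fun x hx hx' => h.own x hx (lt_of_lt_of_le hx' hh)⟩
  obtain ⟨h1, h2, h3⟩ := h.plain hp
  exact ⟨h1, h2, fun g' hg Y h4 h5 => h3 g' hg Y h4 (h5.trans hh)⟩

/-- another allowed set -/
theorem Pend.mono_D {P : V → Cov → Prop} {Γ : Dr V} {U : Bool → Finset ℚ} {D D' : Cov}
    {o : Bool} {s hi : ℚ} {r : Rec V} (h : Pend P Γ U D o s hi r)
    (h1 : ∀ x, s ≤ x → x < hi → x ∈ D o r.c → x ∈ D' o r.c)
    (h2 : ∀ x, s ≤ x → x ≤ r.e → x ∈ D o r.g → x ∈ D' o r.g) : Pend P Γ U D' o s hi r := by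
  exact ⟨h.hc, h.hg, h.gc, fun x hx hx' => ⟨h1 x hx hx' (h.line x hx hx').1, (h.line x hx hx').2⟩,
    fun x hx hx' => ⟨h2 x hx hx' (h.gap x hx hx').1, (h.gap x hx hx').2⟩, h.pay, h.plain, h.own⟩

/-- weaker finishing property -/
theorem Pend.mono_P {P P' : V → Cov → Prop} {Γ : Dr V} {U : Bool → Finset ℚ} {D : Cov}
    {o : Bool} {s hi : ℚ} {r : Rec V} (h : Pend P Γ U D o s hi r)
    (hP : ∀ C, P r.v C → P' r.v C) : Pend P' Γ U D o s hi r := by
  refine ⟨h.hc, h.hg, h.gc, h.line, h.gap, fun Y h1 h2 => ?_, fun hp => ?_, h.own⟩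
  · obtain ⟨C', h3, h4⟩ := h.pay Y h1 h2
    exact ⟨C', hP C' h3, h4⟩
  · obtain ⟨h1, h2, h3⟩ := h.plain hp
    refine ⟨h1, h2, fun g' hg Y h4 h5 => ?_⟩
    obtain ⟨C', h6, h7⟩ := h3 g' hg Y h4 h5
    exact ⟨C', hP C' h6, h7⟩

theorem GeoB_pay {P : Cov → Prop} {C : Cov} {o : Bool} {c g s s' hi : ℚ} {E : ℚ → Cov}
    (h : Pay P C o c g s hi E) (h1 : s ≤ s') :
    Pay P (C ⊔ hseg o c s s') o c g s' hi E := by
  intro Y hY hY'
  obtain ⟨C', h2, h3, h4, h5, h6⟩ := h Y (lt_of_le_of_lt h1 hY) hY'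
  refine ⟨C', h2, sup_le h3 ?_, ?_, h5, ?_⟩
  · rintro o' l x ⟨ho, hl, ha, hb⟩
    exact h4 o' l ⟨ho, hl, ha, hb.trans hY⟩
  · rintro o' l x ⟨ho, hl, ha, hb⟩
    exact h4 o' l ⟨ho, hl, h1.trans ha, hb⟩
  · intro o' l x hx
    rcases h6 o' l hx with ((h7 | ⟨ho, hl, ha, hb⟩) | h7) | h7
    · exact Or.inl (Or.inl (Or.inl (Or.inl h7)))
    · rcases lt_or_ge x s' with h8 | h8
      · exact Or.inl (Or.inl (Or.inl (Or.inr ⟨ho, hl, ha, h8⟩)))
      · exact Or.inl (Or.inl (Or.inr ⟨ho, hl, h8, hb⟩))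
    · exact Or.inl (Or.inr h7)
    · exact Or.inr h7

/-- Draw the last segment of a pending vertex up to `s'`: `Γ r.v` becomes
`Γ r.v ⊔ hseg o r.c s s'`. -/
theorem Pend.commit {G : SimpleGraph V} {P : V → Cov → Prop} {Γ : Dr V}
    {U : Bool → Finset ℚ} {D : Cov} {o : Bool} {s s' hi : ℚ} {r : Rec V} (hw : Wd G Γ U)
    (h : Pend P Γ U D o s hi r) (h1 : s ≤ s') (h2 : s' ≤ hi) :
    ∃ Γ', Step G Γ U (hseg o r.c s s') {r.v} Γ' U ∧ Pend P Γ' U D o s' hi r ∧
      hseg o r.c s s' ≤ D ∧ (∀ x, s ≤ x → x < s' → ∀ w, x ∈ Γ' w o r.c ↔ w = r.v) := by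
  have hne : ∀ w, w ≠ r.v → Function.update Γ r.v (Γ r.v ⊔ hseg o r.c s s') w = Γ w :=
    fun w hw => Function.update_of_ne hw _ _
  refine ⟨Function.update Γ r.v (Γ r.v ⊔ hseg o r.c s s'), ?_,
    ⟨h.hc, h.hg, h.gc, ?_, ?_, ?_, ?_, ?_⟩, ?_, ?_⟩
  · refine Step.draw hw (fun _ _ h3 => h3) le_sup_left ?_ ?_ ?_
    · rintro o' l x (hx | ⟨rfl, rfl, -, -⟩)
      · exact hw.lines _ _ _ _ hx
      · exact h.hc
    · rintro o' l x (hx | hx) hn
      · exact absurd hx hn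
      · exact hx
    · rintro o' l x (hx | ⟨rfl, rfl, ha, hb⟩) hn w hwv hxw
      · exact absurd hx hn
      · exact absurd ((h.line x ha (lt_of_lt_of_le hb h2)).2 w hxw) hwv
  · intro x hx hx'
    refine ⟨(h.line x (h1.trans hx) hx').1, fun w hxw => ?_⟩
    by_contra hwv
    rw [hne w hwv] at hxw
    exact hwv ((h.line x (h1.trans hx) hx').2 w hxw)
  · intro x hx hx'
    refine ⟨(h.gap x (h1.trans hx) hx').1, fun w hxw => ?_⟩
    by_contra hwv
    rw [hne w hwv] at hxw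
    exact hwv ((h.gap x (h1.trans hx) hx').2 w hxw)
  · rw [Function.update_self]
    exact GeoB_pay h.pay h1
  · rw [Function.update_self]
    intro hp
    obtain ⟨h3, h4, h5⟩ := h.plain hp
    exact ⟨h3, lt_of_lt_of_le h4 h1, fun g' hg => GeoB_pay (h5 g' hg) h1⟩
  · intro x hx hx'
    rw [Function.update_self]
    rintro (h3 | h3)
    · exact h.own x (h1.trans hx) hx' h3
    · exact absurd h3.2.2.2 (not_lt.2 hx)
  · rintro o' l x ⟨rfl, rfl, ha, hb⟩
    exact (h.line x ha (lt_of_lt_of_le hb h2)).1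
  · intro x ha hb w
    constructor
    · intro hxw
      by_contra hwv
      rw [hne w hwv] at hxw
      exact hwv ((h.line x ha (lt_of_lt_of_le hb h2)).2 w hxw)
    · rintro rfl
      rw [Function.update_self]
      exact Or.inr ⟨rfl, rfl, ha, hb⟩

/-- Finish a pending vertex at `Y` with the standard foot. -/
theorem Pend.finish {G : SimpleGraph V} {P : V → Cov → Prop} {Γ : Dr V}
    {U : Bool → Finset ℚ} {D : Cov} {o : Bool} {s hi Y : ℚ} {r : Rec V} (hw : Wd G Γ U)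
    (h : Pend P Γ U D o s hi r) (h1 : s < Y) (h2 : Y ≤ hi) (hY : Y ∈ U (!o))
    (hf : ∀ x, r.g < x → x < r.c → ∀ w, w ≠ r.v → x ∈ Γ w (!o) Y → G.Adj r.v w) :
    ∃ Γ', Step G Γ U (hseg o r.c s Y ⊔ seg (!o) Y r.g r.c ⊔ cseg o r.g Y r.e) {r.v} Γ' U ∧
      P r.v (Γ' r.v) ∧ (∀ x, s ≤ x → x < Y → ∀ w, x ∈ Γ' w o r.c ↔ w = r.v) ∧
      (∀ x, r.g < x → x < r.c → x ∈ Γ' r.v (!o) Y) ∧
      hseg o r.c s Y ⊔ cseg o r.g Y r.e ≤ D := by
  obtain ⟨C', hP, hC1, hC2, hC3, hC4⟩ := h.pay Y h1 h2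
  refine ⟨Function.update Γ r.v C', ?_, ?_, ?_, ?_, ?_⟩
  · refine Step.draw hw (fun _ _ h3 => h3) hC1 ?_ ?_ ?_
    · intro o' l x hx
      rcases hC4 o' l hx with ((hx | ⟨rfl, rfl, -, -⟩) | ⟨rfl, rfl, -, -⟩) | ⟨rfl, rfl, -, -⟩
      · exact hw.lines _ _ _ _ hx
      · exact h.hc
      · exact hY
      · exact h.hg
    · intro o' l x hx hn
      rcases hC4 o' l hx with ((hx | hx) | hx) | hx
      · exact absurd hx hn
      · exact Or.inl (Or.inl hx)
      · exact Or.inl (Or.inr hx)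
      · exact Or.inr hx
    · intro o' l x hx hn w hwv hxw
      rcases hC4 o' l hx with ((hx | ⟨rfl, rfl, ha, hb⟩) | ⟨rfl, rfl, ha, hb⟩) | ⟨rfl, rfl, ha, hb⟩
      · exact absurd hx hn
      · exact absurd ((h.line x ha (lt_of_lt_of_le hb h2)).2 w hxw) hwv
      · rw [min_eq_left h.gc.le] at ha
        rw [max_eq_right h.gc.le] at hb
        exact hf x ha hb w hwv hxw
      · exact absurd ((h.gap x (h1.le.trans ha) hb).2 w hxw) hwv
  · rw [Function.update_self]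
    exact hP
  · intro x ha hb w
    constructor
    · intro hxw
      by_contra hwv
      rw [Function.update_of_ne hwv] at hxw
      exact hwv ((h.line x ha (lt_of_lt_of_le hb h2)).2 w hxw)
    · rintro rfl
      rw [Function.update_self]
      exact hC2 _ _ ⟨rfl, rfl, ha, hb⟩
  · intro x ha hb
    rw [Function.update_self]
    refine hC3 _ _ ⟨rfl, rfl, ?_, ?_⟩
    · rw [min_eq_left h.gc.le]
      exact ha
    · rw [max_eq_right h.gc.le]
      exact hb
  · refine sup_le ?_ ?_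
    · rintro o' l x ⟨rfl, rfl, ha, hb⟩
      exact (h.line x ha (lt_of_lt_of_le hb h2)).1
    · rintro o' l x ⟨rfl, rfl, ha, hb⟩
      exact (h.gap x (h1.le.trans ha) hb).1

/-- Finish a plain pending vertex at `Y` with a foot ending at an arbitrary `g'`. -/
theorem Pend.finishPlain {G : SimpleGraph V} {P : V → Cov → Prop} {Γ : Dr V}
    {U : Bool → Finset ℚ} {D : Cov} {o : Bool} {s hi Y g' : ℚ} {r : Rec V} (hw : Wd G Γ U)
    (h : Pend P Γ U D o s hi r) (hp : r.pl = true) (h1 : s < Y) (h2 : Y ≤ hi)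
    (hg1 : g' ≠ r.c)
    (hf : ∀ x, min g' r.c < x → x < max g' r.c → ∀ w, w ≠ r.v → x ∈ Γ w (!o) Y → G.Adj r.v w) :
    ∃ Γ', Step G Γ U (hseg o r.c s Y ⊔ seg (!o) Y g' r.c) {r.v} Γ' (addL U (!o) Y) ∧
      P r.v (Γ' r.v) ∧ (∀ x, s ≤ x → x < Y → ∀ w, x ∈ Γ' w o r.c ↔ w = r.v) ∧
      (∀ x, min g' r.c < x → x < max g' r.c → x ∈ Γ' r.v (!o) Y) ∧
      hseg o r.c s Y ≤ D := by
  obtain ⟨C', hP, hC1, hC2, hC3, hC4⟩ := (h.plain hp).2.2 g' hg1 Y h1 h2
  have hsub : ∀ o', U o' ⊆ addL U (!o) Y o' := fun o' x hx => mem_addL.2 (Or.inl hx)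
  refine ⟨Function.update Γ r.v C', ?_, ?_, ?_, ?_, ?_⟩
  · refine Step.draw hw hsub hC1 ?_ ?_ ?_
    · intro o' l x hx
      rcases hC4 o' l hx with ((hx | ⟨rfl, rfl, -, -⟩) | ⟨rfl, rfl, -, -⟩) | hx
      · exact hsub _ (hw.lines _ _ _ _ hx)
      · exact hsub _ h.hc
      · exact mem_addL.2 (Or.inr ⟨rfl, rfl⟩)
      · exact absurd hx (Set.notMem_empty x)
    · intro o' l x hx hn
      rcases hC4 o' l hx with ((hx | hx) | hx) | hx
      · exact absurd hx hn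
      · exact Or.inl hx
      · exact Or.inr hx
      · exact absurd hx (Set.notMem_empty x)
    · intro o' l x hx hn w hwv hxw
      rcases hC4 o' l hx with ((hx | ⟨rfl, rfl, ha, hb⟩) | ⟨rfl, rfl, ha, hb⟩) | hx
      · exact absurd hx hn
      · exact absurd ((h.line x ha (lt_of_lt_of_le hb h2)).2 w hxw) hwv
      · exact hf x ha hb w hwv hxw
      · exact absurd hx (Set.notMem_empty x)
  · rw [Function.update_self]
    exact hP
  · intro x ha hb w
    constructor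
    · intro hxw
      by_contra hwv
      rw [Function.update_of_ne hwv] at hxw
      exact hwv ((h.line x ha (lt_of_lt_of_le hb h2)).2 w hxw)
    · rintro rfl
      rw [Function.update_self]
      exact hC2 _ _ ⟨rfl, rfl, ha, hb⟩
  · intro x ha hb
    rw [Function.update_self]
    exact hC3 _ _ ⟨rfl, rfl, ha, hb⟩
  · rintro o' l x ⟨rfl, rfl, ha, hb⟩
    exact (h.line x ha (lt_of_lt_of_le hb h2)).1

/-! ### lists of records -/

theorem OrdL.lt {lo hi : ℚ} {L : List (Rec V)} (h : OrdL lo L hi) : lo < hi := by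
  induction L generalizing lo with
  | nil => exact h
  | cons r t ih => exact h.1.trans (h.2.1.trans (ih h.2.2))

theorem OrdL.mem {lo hi : ℚ} {L : List (Rec V)} (h : OrdL lo L hi) {r : Rec V} (hr : r ∈ L) :
    lo < r.g ∧ r.g < r.c ∧ r.c < hi := by
  induction L generalizing lo with
  | nil => exact absurd hr (List.not_mem_nil)
  | cons r' t ih =>
    obtain ⟨h1, h2, h3⟩ := h
    rcases List.mem_cons.1 hr with rfl | hr
    · exact ⟨h1, h2, h3.lt⟩
    · obtain ⟨h4, h5, h6⟩ := ih h3 hr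
      exact ⟨h1.trans (h2.trans h4), h5, h6⟩

/-- Every record is before (all coordinates smaller) or after every other one. -/
theorem OrdL.sep {lo hi : ℚ} {L : List (Rec V)} (h : OrdL lo L hi) (hn : (L.map Rec.v).Nodup)
    {r r' : Rec V} (hr : r ∈ L) (hr' : r' ∈ L) (hne : r.v ≠ r'.v) : r.c < r'.g ∨ r'.c < r.g := by
  induction L generalizing lo with
  | nil => exact absurd hr (List.not_mem_nil)
  | cons q t ih =>
    obtain ⟨h1, h2, h3⟩ := h
    rcases List.mem_cons.1 hr with e | hr1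
    · rcases List.mem_cons.1 hr' with e' | hr1'
      · exact absurd (by rw [e, e']) hne
      · rw [e]
        exact Or.inl (h3.mem hr1').1
    · rcases List.mem_cons.1 hr' with e' | hr1'
      · rw [e']
        exact Or.inr (h3.mem hr1).1
      · exact ih h3 (List.nodup_cons.1 hn).2 hr1 hr1'

theorem OrdL.left {lo hi : ℚ} {L L' : List (Rec V)} (h : OrdL lo (L ++ L') hi) :
    OrdL lo L (topg L' hi) := by
  induction L generalizing lo with
  | nil =>
    cases L' with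
    | nil => exact h
    | cons r t => exact h.1
  | cons r t ih => exact ⟨h.1, h.2.1, ih h.2.2⟩

theorem OrdL.right {lo lo' hi : ℚ} {L L' : List (Rec V)} (h : OrdL lo (L ++ L') hi)
    (h1 : lo' < topg L' hi) : OrdL lo' L' hi := by
  induction L generalizing lo with
  | nil =>
    cases L' with
    | nil => exact h1
    | cons r t => exact ⟨h1, h.2.1, h.2.2⟩
  | cons r t ih => exact ih h.2.2

theorem OrdL.mono {lo lo' hi hi' : ℚ} {L : List (Rec V)} (h : OrdL lo L hi)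
    (h1 : lo' ≤ lo) (h2 : hi ≤ hi') : OrdL lo' L hi' := by
  induction L generalizing lo lo' with
  | nil => exact lt_of_le_of_lt h1 (lt_of_lt_of_le h h2)
  | cons r t ih => exact ⟨lt_of_le_of_lt h1 h.1, h.2.1, ih h.2.2 le_rfl⟩

/-- Raising the lower bound. -/
theorem OrdL.raise {lo lo' hi : ℚ} {L : List (Rec V)} (h : OrdL lo L hi)
    (h1 : lo' < topg L hi) : OrdL lo' L hi := by
  cases L with
  | nil => exact h1
  | cons r t => exact ⟨h1, h.2.1, h.2.2⟩

end EPG26
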