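import Pool.Agent.W_26e041_h61.GeoB

/-!
N-states under growth.
-/

namespace EPG26

variable {V : Type*} [DecidableEq V]

/-- the vertices of a list of records -/
def rv (L : List (Rec V)) : List V := L.map Rec.v

/-- Other growth does not disturb an N-state: the added coverage `D₁` avoids the reserved windows.
Use `Pend.grow` and `SW.grow`. -/
theorem NSt.grow {P : V → Cov → Prop} {Γ Γ' : Dr V} {U U' : Bool → Finset ℚ} {D D₁ : Cov}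
    {K : Set V} {A B : ℚ} {W : List (Rec V)} {a0 : V} {X0 u : ℚ} {L : List (Rec V)} {b0 : V}
    {Y0 yu : ℚ} (h : NSt P Γ U D A B W a0 X0 u L b0 Y0 yu) (hg : Grow Γ Γ' D₁ K)
    (hU : ∀ o, U o ⊆ U' o) (hKW : ∀ r ∈ W, r.v ∉ K) (hKL : ∀ r ∈ L, r.v ∉ K)
    (hW : ∀ r ∈ W, ∀ s ≤ B, Pend P Γ U D true s Y0 r → ∀ x, s ≤ x →
      (x < Y0 → x ∉ D₁ true r.c) ∧ (x ≤ r.e → x ∉ D₁ true r.g))
    (hL : ∀ r ∈ L, ∀ s ≤ A, Pend P Γ U D false s X0 r → ∀ x, s ≤ x →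
      (x < X0 → x ∉ D₁ false r.c) ∧ (x ≤ r.e → x ∉ D₁ false r.g))
    (ha : ∀ x, B < x → x < yu → x ∉ D₁ true X0) (hb : ∀ x, A < x → x < u → x ∉ D₁ false Y0) :
    NSt P Γ' U' D A B W a0 X0 u L b0 Y0 yu := by
  refine ⟨h.ordW, h.ordB, h.huX, h.hyY, ?_, ?_, h.wbase.grow hg ha, h.bbase.grow hg hb⟩
  · intro r hr
    obtain ⟨s, hs, hp⟩ := h.white r hr
    exact ⟨s, hs, hp.grow hg hU (hKW r hr) (fun x hx hx' => (hW r hr s hs hp x hx).1 hx')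
      (fun x hx hx' => (hW r hr s hs hp x hx).2 hx')⟩
  · intro r hr
    obtain ⟨s, hs, hp⟩ := h.black r hr
    exact ⟨s, hs, hp.grow hg hU (hKL r hr) (fun x hx hx' => (hL r hr s hs hp x hx).1 hx')
      (fun x hx hx' => (hL r hr s hs hp x hx).2 hx')⟩

/-- Raising `A` and `B` in an N-state. `OrdL.raise`, `SW.sub`. -/
theorem NSt.raise {P : V → Cov → Prop} {Γ : Dr V} {U : Bool → Finset ℚ} {D : Cov}
    {A B A' B' : ℚ} {W : List (Rec V)} {a0 : V} {X0 u : ℚ} {L : List (Rec V)} {b0 : V}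
    {Y0 yu : ℚ} (h : NSt P Γ U D A B W a0 X0 u L b0 Y0 yu) (hA : A ≤ A') (hA' : A' < topg W u)
    (hB : B ≤ B') (hB' : B' < topg L yu) : NSt P Γ U D A' B' W a0 X0 u L b0 Y0 yu := by
  refine ⟨h.ordW.raise hA', h.ordB.raise hB', h.huX, h.hyY, ?_, ?_, h.wbase.sub hB le_rfl,
    h.bbase.sub hA le_rfl⟩
  · intro r hr
    obtain ⟨s, hs, hp⟩ := h.white r hr
    exact ⟨s, hs.trans hB, hp⟩
  · intro r hr
    obtain ⟨s, hs, hp⟩ := h.black r hr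
    exact ⟨s, hs.trans hA, hp⟩

end EPG26
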