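import Pool.Agent.W_26e041_h61.GeoC1

/-!
The geometric step pay.
-/

namespace EPG26

variable {V : Type*} [DecidableEq V]

theorem GeoC2_nd {r : Rec V} {W : List (Rec V)} {a0 : V} {L : List (Rec V)} {b0 : V}
    (hnd : (rv (r :: W) ++ a0 :: (rv L ++ [b0])).Nodup) :
    (∀ r' ∈ W, r'.v ≠ r.v) ∧ (∀ v ∈ rv L, v ≠ r.v) ∧ (∀ r' ∈ W, r'.v ∉ rv L) ∧ (rv L).Nodup := by
  rw [List.nodup_append] at hnd
  obtain ⟨h1, h2, h3⟩ := hnd
  have h1' : (r.v :: rv W).Nodup := h1
  rw [List.nodup_cons] at h1' h2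
  obtain ⟨h4, h5⟩ := h1'
  obtain ⟨h6, h7⟩ := h2
  rw [List.nodup_append] at h7
  refine ⟨fun r' hr' he => h4 ?_, fun v hv he => ?_, fun r' hr' hr2 => ?_, h7.1⟩
  · rw [← he]
    exact List.mem_map_of_mem hr'
  · exact h3 r.v List.mem_cons_self v (List.mem_cons_of_mem _ (List.mem_append_left _ hv)) he.symm
  · exact h3 r'.v (List.mem_cons_of_mem _ (List.mem_map_of_mem hr')) r'.v
      (List.mem_cons_of_mem _ (List.mem_append_left _ hr2)) rfl

/-- the first black vertex covers its line up to `h` -/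
theorem GeoC2_prep {G : SimpleGraph V} {P : V → Cov → Prop} {Γ : Dr V} {U : Bool → Finset ℚ}
    {D : Cov} {A B : ℚ} {W : List (Rec V)} {a0 : V} {X0 u : ℚ} {L : List (Rec V)}
    {b0 : V} {Y0 yu : ℚ} {c h : ℚ} (hw : Wd G Γ U)
    (hN : NSt P Γ U D A B W a0 X0 u L b0 Y0 yu) (hL : (rv L).Nodup)
    (hAh : A < h) (hch : c ≤ h) (hhu : h < u) :
    ∃ (Γ₁ : Dr V) (D₁ : Cov) (K₁ : Set V), Step G Γ U D₁ K₁ Γ₁ U ∧ D₁ ≤ D ∧
      (∀ v ∈ K₁, v ∈ rv L) ∧ (∀ l x, x ∉ D₁ true l) ∧ (∀ x, x ∉ D₁ false Y0) ∧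
      (∀ x, A < x → x < h → x ∈ D false (topc L Y0) ∧
        ∀ w, x ∈ Γ₁ w false (topc L Y0) ↔ w = topv L b0) ∧
      (∀ r' ∈ L, ∃ s ≤ h, Pend P Γ₁ U D false s X0 r' ∧
        ((r'.c ≠ topc L Y0 ∧ r'.g ≠ topc L Y0) ∨ c ≤ s)) ∧
      topc L Y0 ∈ U false ∧ B < topc L Y0 ∧ topc L Y0 ≤ Y0 := by
  have hyu : B < yu := hN.ordB.lt
  cases L with
  | nil =>
    refine ⟨Γ, ⊥, ∅, Step.refl hw _ _, bot_le, fun v hv => absurd hv (Set.notMem_empty v),
      fun l x hx => hx, fun x hx => hx, fun x hx1 hx2 => ?_,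
      fun r' hr' => absurd hr' List.not_mem_nil, ?_, ?_, le_rfl⟩
    · exact hN.bbase x hx1 (hx2.trans hhu)
    · exact hN.bbase.mem (Set.mem_singleton _) hw.lines (hAh.trans hhu)
    · exact hyu.trans_le hN.hyY
  | cons r₁ L' =>
    obtain ⟨s₁, hs₁, hp⟩ := hN.black r₁ List.mem_cons_self
    have hB := hN.ordB
    obtain ⟨hB1, hB2, hB3⟩ := hB
    have hX : h ≤ X0 := hhu.le.trans hN.huX
    have hs₁h : s₁ ≤ h := hs₁.trans hAh.le
    obtain ⟨Γ₁, hst, hp1, hD1, hcov⟩ := Pend.commit hw hp hs₁h hX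
    have hLn : r₁.v ∉ rv L' := (List.nodup_cons.1 hL).1
    refine ⟨Γ₁, hseg false r₁.c s₁ h, {r₁.v}, hst, hD1, ?_, ?_, ?_, ?_, ?_, hp.hc, ?_, ?_⟩
    · intro v hv
      rw [Set.mem_singleton_iff] at hv
      rw [hv]
      exact List.mem_cons_self
    · intro l x hx
      exact absurd hx.1 (by decide)
    · intro x hx
      exact absurd hx.2.1 (hB3.lt.trans_le hN.hyY).ne'
    · intro x hx1 hx2
      exact ⟨(hp.line x (hs₁.trans hx1.le) (hx2.trans_le hX)).1,
        hcov x (hs₁.trans hx1.le) hx2⟩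
    · intro r' hr'
      rcases List.mem_cons.1 hr' with h1 | h1
      · subst h1
        exact ⟨h, le_rfl, hp1, Or.inr hch⟩
      · obtain ⟨s, hs, hps⟩ := hN.black r' hr'
        obtain ⟨h2, h3, h4⟩ := hB3.mem h1
        refine ⟨s, hs.trans hAh.le, ?_, Or.inl ⟨(h2.trans h3).ne', h2.ne'⟩⟩
        refine hps.grow hst.grow (fun _ => subset_rfl) ?_ ?_ ?_
        · intro h5
          rw [Set.mem_singleton_iff] at h5
          exact hLn (h5 ▸ List.mem_map_of_mem h1)
        · intro x _ _ hx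
          exact (h2.trans h3).ne' hx.2.1
        · intro x _ _ hx
          exact h2.ne' hx.2.1
    · exact hB1.trans hB2
    · exact hB3.lt.le.trans hN.hyY

/-- Pay. The first white vertex `r.v` of an N-state is finished at the line of the first black
vertex and becomes the vertex `z` of an M-state.

Let `Y₁ = topc L Y0`, `h` any number with `r.c < h < topg W u` (exists by `OrdL`).
If `L = r₁ :: _` first use `Pend.commit` for `r₁` up to `h` (its `s ≤ A < r.g < h ≤ X0`): then `r₁.v`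
covers its line on `[s, h)`, alone. If `L = []` the base `b0` covers its line on `(A, u)`, alone.
Then `Pend.finish` for `r` with `Y = Y₁` (`s ≤ B < Y₁ ≤ Y0`): the foot `(r.g, r.c)` lies in the part
of the line covered by `topv L b0` alone, and `G.Adj r.v (topv L b0)`.
The new state: `A' = h`, `z`-column: after the payment `r.v` covers `[s, Y₁)` of its line, alone;
top: `(r.c, h)` of the line `Y₁` is covered by `topv L b0` alone (the foot ends at `r.c`).
The N-part is preserved by `NSt.grow`-like arguments: the changes are on the vertical lines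
`r.c`, `r.g` (different from all lines of `W` and from `X0` by `OrdL`), on the line `Y₁` at positions
smaller than `h`, and the record `r₁` (when `L = r₁ :: _`) is pending from `h` on by
`Pend.commit`. -/
theorem payStep {G : SimpleGraph V} {P : V → Cov → Prop} {Γ : Dr V} {U : Bool → Finset ℚ}
    {D : Cov} {A B : ℚ} {r : Rec V} {W : List (Rec V)} {a0 : V} {X0 u : ℚ} {L : List (Rec V)}
    {b0 : V} {Y0 yu : ℚ} (hw : Wd G Γ U)
    (hN : NSt P Γ U D A B (r :: W) a0 X0 u L b0 Y0 yu)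
    (hnd : (rv (r :: W) ++ a0 :: (rv L ++ [b0])).Nodup) (hadj : G.Adj r.v (topv L b0)) :
    ∃ Γ' U' h, Step G Γ U D {v | v = r.v ∨ v ∈ rv L} Γ' U' ∧
      MSt P Γ' U' D r.v r.c h h B W a0 X0 u L b0 Y0 yu ∧ P r.v (Γ' r.v) ∧
      Ov Γ' r.v (topv L b0) := by
  obtain ⟨hnW, hnL, hnWL, hnn⟩ := GeoC2_nd hnd
  have hW0 := hN.ordW
  obtain ⟨hAg, hgc, hW⟩ := hW0
  have htop : r.c < topg W u := by
    cases W with
    | nil => exact hW
    | cons w W' => exact hW.1
  have htu : topg W u ≤ u := by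
    cases W with
    | nil => exact le_rfl
    | cons w W' => exact ((hW.2.1).trans hW.2.2.lt).le
  obtain ⟨h, hch, hht⟩ := exists_between htop
  have hhu : h < u := hht.trans_le htu
  have hAh : A < h := hAg.trans (hgc.trans hch)
  obtain ⟨Γ₁, D₁, K₁, hst1, hD1, hK1, hD1t, hD1Y, hline, hblack, hYU, hBY, hYY⟩ :=
    GeoC2_prep (c := r.c) hw hN hnn hAh hch.le hhu
  obtain ⟨s, hs, hp⟩ := hN.white r List.mem_cons_self
  have hp1 : Pend P Γ₁ U D true s Y0 r := hp.grow hst1.grow (fun _ => subset_rfl)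
    (fun h1 => hnL _ (hK1 _ h1) rfl) (fun x _ _ => hD1t _ x) (fun x _ _ => hD1t _ x)
  obtain ⟨Γ₂, hst2, hfin, hcol, hfoot, hD2⟩ := Pend.finish (Y := topc L Y0) hst1.wd hp1
    (hs.trans_lt hBY) hYY hYU (by
      intro x hx1 hx2 w _ hxw
      rw [((hline x (hAg.trans hx1) (hx2.trans hch)).2 w).1 hxw]
      exact hadj)
  have hXc : r.c < X0 := (hch.trans hhu).trans_le hN.huX
  have hD2' : hseg true r.c s (topc L Y0) ⊔ seg (!true) (topc L Y0) r.g r.c ⊔
      cseg true r.g (topc L Y0) r.e ≤ D := by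
    intro o l x hx
    rcases hx with (hx | hx) | hx
    · exact hD2 o l (Or.inl hx)
    · obtain ⟨h1, h2, h3, h4⟩ := hx
      rw [min_eq_left hgc.le] at h3
      rw [max_eq_right hgc.le] at h4
      rw [h1, h2]
      exact (hline x (hAg.trans h3) (h4.trans hch)).1
    · exact hD2 o l (Or.inr hx)
  have hnt : ∀ l x, r.c < l → x ∉ (hseg true r.c s (topc L Y0) ⊔
      seg (!true) (topc L Y0) r.g r.c ⊔ cseg true r.g (topc L Y0) r.e : Cov) true l := by
    intro l x hl hx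
    rcases hx with (hx | hx) | hx
    · exact hl.ne' hx.2.1
    · exact absurd hx.1 (by decide)
    · exact (hgc.trans hl).ne' hx.2.1
  have hnf : ∀ l x, (l ≠ topc L Y0 ∨ r.c ≤ x) → x ∉ (hseg true r.c s (topc L Y0) ⊔
      seg (!true) (topc L Y0) r.g r.c ⊔ cseg true r.g (topc L Y0) r.e : Cov) false l := by
    intro l x hl hx
    rcases hx with (hx | hx) | hx
    · exact absurd hx.1 (by decide)
    · rcases hl with h1 | h1
      · exact h1 hx.2.1
      · have h2 := hx.2.2.2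
        rw [max_eq_right hgc.le] at h2
        exact absurd h2 (not_lt.2 h1)
    · exact absurd hx.1 (by decide)
  refine ⟨Γ₂, U, h, ?_, ⟨⟨?_, ?_, hN.huX, hN.hyY, ?_, ?_, ?_, ?_⟩, hch, le_rfl, ?_, ?_⟩, hfin, ?_⟩
  · refine (hst1.weaken hD1 ?_).trans (hst2.weaken hD2' ?_)
    · intro v hv
      exact Or.inr (hK1 v hv)
    · intro v hv
      exact Or.inl hv
  · exact hW.raise hht
  · exact hN.ordB
  · intro r' hr'
    obtain ⟨s', hs', hp'⟩ := hN.white r' (List.mem_cons_of_mem _ hr')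
    obtain ⟨h1, h2, h3⟩ := hW.mem hr'
    refine ⟨s', hs', ?_⟩
    have hp2 : Pend P Γ₁ U D true s' Y0 r' := hp'.grow hst1.grow (fun _ => subset_rfl)
      (fun h1 => hnWL r' hr' (hK1 _ h1)) (fun x _ _ => hD1t _ x) (fun x _ _ => hD1t _ x)
    exact hp2.grow hst2.grow (fun _ => subset_rfl) (fun h4 => hnW r' hr' h4)
      (fun x _ _ => hnt _ x (h1.trans h2)) (fun x _ _ => hnt _ x h1)
  · intro r' hr'
    obtain ⟨s', hs', hp', h5⟩ := hblack r' hr'
    refine ⟨s', hs', ?_⟩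
    refine hp'.grow hst2.grow (fun _ => subset_rfl)
      (fun h4 => hnL r'.v (List.mem_map_of_mem hr') h4) (fun x hx _ => hnf _ x ?_)
      (fun x hx _ => hnf _ x ?_)
    · rcases h5 with h5 | h5
      · exact Or.inl h5.1
      · exact Or.inr (h5.trans hx)
    · rcases h5 with h5 | h5
      · exact Or.inl h5.2
      · exact Or.inr (h5.trans hx)
  · exact (hN.wbase.grow hst1.grow (fun x _ _ => hD1t _ x)).grow hst2.grow
      (fun x _ _ => hnt _ x hXc)
  · exact ((hN.bbase.sub hAh.le le_rfl).grow hst1.grow (fun x _ _ => hD1Y x)).grow hst2.grow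
      (fun x hx _ => hnf _ x (Or.inr (hch.trans hx).le))
  · intro x hx1 hx2
    exact ⟨(hp.line x (hs.trans hx1.le) (hx2.trans_le hYY)).1, hcol x (hs.trans hx1.le) hx2⟩
  · have h1 : SW Γ₁ D {topv L b0} false (topc L Y0) r.c h := fun x hx1 hx2 =>
      hline x (hAg.trans (hgc.trans hx1)) hx2
    exact h1.grow hst2.grow (fun x hx _ => hnf _ x (Or.inr hx.le))
  · obtain ⟨x, hx1, hx2⟩ := exists_between hgc
    exact ⟨false, topc L Y0, x, hfoot x hx1 hx2, hst2.grow.mono _ _ _ _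
      (((hline x (hAg.trans hx1) (hx2.trans hch)).2 _).2 rfl)⟩

end EPG26
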