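import Pool.Agent.W_26e041_h61.GeoC1

/-!
The geometric step pop.
-/

namespace EPG26

variable {V : Type*} [DecidableEq V]

/-- the vertices of the lists are different -/
theorem GeoC3_nd {z : V} {W : List (Rec V)} {a0 : V} {L : List (Rec V)} {b0 : V}
    (hnd : (z :: (rv W ++ a0 :: (rv L ++ [b0]))).Nodup) :
    (rv W).Nodup ∧ (rv L).Nodup ∧ (∀ v ∈ rv W, v ∉ rv L) := by
  have h1 := (List.nodup_cons.1 hnd).2
  rw [List.nodup_append] at h1
  obtain ⟨h2, h3, h4⟩ := h1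
  have h5 := (List.nodup_cons.1 h3).2
  rw [List.nodup_append] at h5
  exact ⟨h2, h5.1, fun v hv hv2 =>
    h4 v hv v (List.mem_cons_of_mem _ (List.mem_append_left _ hv2)) rfl⟩

/-- the first record is drawn up to `t` -/
theorem GeoC3_com {G : SimpleGraph V} {P : V → Cov → Prop} {Γ : Dr V} {U : Bool → Finset ℚ}
    {D : Cov} {o : Bool} {Q : List (Rec V)} (q0 : V) {Z0 zu lo hi M M' t : ℚ} (hw : Wd G Γ U)
    (ho : OrdL lo Q zu) (hz : zu ≤ Z0) (hp : ∀ r ∈ Q, ∃ s ≤ M, Pend P Γ U D o s hi r)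
    (hn : (rv Q).Nodup) (hM : M ≤ M') (htM : t ≤ M') (hth : t ≤ hi) :
    ∃ (Γ₁ : Dr V) (D₁ : Cov) (K₁ : Set V), Step G Γ U D₁ K₁ Γ₁ U ∧ D₁ ≤ D ∧
      (∀ v ∈ K₁, v ∈ rv Q ∧ v = topv Q q0) ∧ (∀ l x, x ∉ D₁ (!o) l) ∧
      (∀ l x, l ≠ topc Q Z0 → x ∉ D₁ o l) ∧ (∀ x, x ∉ D₁ o Z0) ∧
      (∀ r' ∈ Q, ∃ s ≤ M', Pend P Γ₁ U D o s hi r' ∧
        ((r'.c ≠ topc Q Z0 ∧ r'.g ≠ topc Q Z0) ∨ t ≤ s)) ∧
      (Q ≠ [] → ∀ x, M ≤ x → x < t → x ∈ D o (topc Q Z0) ∧
        ∀ w, x ∈ Γ₁ w o (topc Q Z0) ↔ w = topv Q q0) ∧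
      lo < topc Q Z0 ∧ topc Q Z0 ≤ Z0 := by
  cases Q with
  | nil =>
    refine ⟨Γ, ⊥, ∅, Step.refl hw _ _, bot_le, fun v hv => absurd hv (Set.notMem_empty v),
      fun l x hx => hx, fun l x _ hx => hx, fun x hx => hx,
      fun r' hr' => absurd hr' List.not_mem_nil, fun h1 => absurd rfl h1, ?_, le_rfl⟩
    exact ho.lt.trans_le hz
  | cons r₁ Q' =>
    obtain ⟨s₁, hs₁, hp₁⟩ := hp r₁ List.mem_cons_self
    obtain ⟨hB1, hB2, hB3⟩ := ho
    have hn1 : r₁.v ∉ rv Q' := (List.nodup_cons.1 hn).1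
    rcases le_or_gt s₁ t with h1 | h1
    · obtain ⟨Γ₁, hst, hp1, hD1, hcov⟩ := Pend.commit hw hp₁ h1 hth
      refine ⟨Γ₁, hseg o r₁.c s₁ t, {r₁.v}, hst, hD1, ?_, ?_, ?_, ?_, ?_, ?_, ?_, ?_⟩
      · intro v hv
        rw [Set.mem_singleton_iff] at hv
        rw [hv]
        exact ⟨List.mem_cons_self, rfl⟩
      · intro l x hx
        exact absurd hx.1 (by cases o <;> decide)
      · intro l x hl hx
        exact hl hx.2.1
      · intro x hx
        exact absurd hx.2.1 (hB3.lt.trans_le hz).ne'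
      · intro r' hr'
        rcases List.mem_cons.1 hr' with h2 | h2
        · subst h2
          exact ⟨t, htM, hp1, Or.inr le_rfl⟩
        · obtain ⟨s, hs, hps⟩ := hp r' hr'
          obtain ⟨h3, h4, h5⟩ := hB3.mem h2
          refine ⟨s, hs.trans hM, ?_, Or.inl ⟨(h3.trans h4).ne', h3.ne'⟩⟩
          refine hps.grow hst.grow (fun _ => subset_rfl) ?_ ?_ ?_
          · intro h6
            rw [Set.mem_singleton_iff] at h6
            exact hn1 (h6 ▸ List.mem_map_of_mem h2)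
          · intro x _ _ hx
            exact (h3.trans h4).ne' hx.2.1
          · intro x _ _ hx
            exact h3.ne' hx.2.1
      · intro _ x hx1 hx2
        exact ⟨(hp₁.line x (hs₁.trans hx1) (hx2.trans_le hth)).1, hcov x (hs₁.trans hx1) hx2⟩
      · exact hB1.trans hB2
      · exact hB3.lt.le.trans hz
    · refine ⟨Γ, ⊥, ∅, Step.refl hw _ _, bot_le, fun v hv => absurd hv (Set.notMem_empty v),
        fun l x hx => hx, fun l x _ hx => hx, fun x hx => hx, ?_, ?_, ?_, ?_⟩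
      · intro r' hr'
        rcases List.mem_cons.1 hr' with h2 | h2
        · subst h2
          exact ⟨s₁, hs₁.trans hM, hp₁, Or.inr h1.le⟩
        · obtain ⟨s, hs, hps⟩ := hp r' hr'
          obtain ⟨h3, h4, h5⟩ := hB3.mem h2
          exact ⟨s, hs.trans hM, hps, Or.inl ⟨(h3.trans h4).ne', h3.ne'⟩⟩
      · intro _ x hx1 hx2
        exact absurd (hx2.trans (h1.trans_le hs₁)) (not_lt.2 hx1)
      · exact hB1.trans hB2
      · exact hB3.lt.le.trans hz

/-- Pop. The face of `z`, the first black and the first white vertex is filled as a corner.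

Choose `y₂` with `B < y₂ < min (topg L yu) yu` (so `y₂ < topc L Y0`). If `W = r :: _` use
`Pend.commit` for `r` up to `y₂` (`y₂ < Y0`); then `topv W a0` covers `(B, y₂)` of the line
`topc W X0`, alone (for `W = []` by `wbase`, `y₂ < yu`). Fill the corner socket with `o = true`,
`s = z`, `r = topv L b0`, `t = topv W a0`, `Xs = Xz`, `Yr = topc L Y0`, `Xt = topc W X0`, `B`, `u = h`,
`yu = y₂` (`FillT.corner`; `h ≤ A < topc W X0`). The filling changes only vertices of `J`, on new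
lines, on the line `Xz`, on the line `topc L Y0` in `(Xz, h)` with `h ≤ A`, on the line `topc W X0` in
`(B, y₂)` (the first black record is committed up to `h` before, therefore `rv L` in the set of the
changed vertices). So the N-state with `B' = y₂` is preserved (`NSt.raise`, `NSt.grow`; for the first white
record its hidden start is `y₂` by `Pend.commit`). All changed positions are in `D`. -/
theorem popStep {G : SimpleGraph V} {P : V → Cov → Prop} {Γ : Dr V} {U : Bool → Finset ℚ}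
    {D : Cov} {z : V} {Xz h A B : ℚ} {W : List (Rec V)} {a0 : V} {X0 u : ℚ}
    {L : List (Rec V)} {b0 : V} {Y0 yu : ℚ} {J : Finset V} (hw : Wd G Γ U) (hD : Adm U D)
    (hM : MSt P Γ U D z Xz h A B W a0 X0 u L b0 Y0 yu)
    (hnd : (z :: (rv W ++ a0 :: (rv L ++ [b0]))).Nodup)
    (hJ : ∀ v ∈ J, Undrawn Γ v ∧ v ∉ z :: (rv W ++ a0 :: (rv L ++ [b0])))
    (hf : FillT G {z, topv L b0, topv W a0} J) :
    ∃ Γ' U' B', Step G Γ U D {v | v ∈ J ∨ v ∈ rv W ∨ v ∈ rv L} Γ' U' ∧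
      NSt P Γ' U' D A B' W a0 X0 u L b0 Y0 yu ∧ Filled G Γ' J := by
  have hN := hM.n
  obtain ⟨hnW, hnL, hnWL⟩ := GeoC3_nd hnd
  have hyg : B < topg L yu := by
    cases L with
    | nil => exact hN.ordB
    | cons r L' => exact hN.ordB.1
  have hgy : topg L yu ≤ yu := by
    cases L with
    | nil => exact le_rfl
    | cons r L' => exact (hN.ordB.2.1.trans hN.ordB.2.2.lt).le
  have hgc : topg L yu ≤ topc L Y0 := by
    cases L with
    | nil => exact hN.hyY
    | cons r L' => exact hN.ordB.2.1.le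
  obtain ⟨y, hBy, hyt⟩ := exists_between hyg
  have hAu : A < u := hN.ordW.lt
  have hAX : A < X0 := hAu.trans_le hN.huX
  have hhX : h ≤ X0 := hM.hA.trans hAX.le
  have hyy : y < yu := hyt.trans_le hgy
  have hyY : y ≤ Y0 := hyy.le.trans hN.hyY
  have hX0U : X0 ∈ U true := hN.wbase.mem (Set.mem_singleton _) hw.lines (hBy.trans hyy)
  have hY0U : Y0 ∈ U false := hN.bbase.mem (Set.mem_singleton _) hw.lines hAu
  -- the white side
  obtain ⟨Γ₁, D₁, K₁, hst1, hD1, hK1, hD1f, hD1l, hD1X, hW1, hcov1, hAW, hWX⟩ :=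
    GeoC3_com (o := true) (M' := y) (t := y) a0 hw hN.ordW hN.huX hN.white hnW hBy.le le_rfl hyY
  have hXzA : Xz < A := hM.hz.trans_le hM.hA
  have hXzW : Xz < topc W X0 := hXzA.trans hAW
  have hL1 : ∀ r ∈ L, ∃ s ≤ A, Pend P Γ₁ U D false s X0 r := by
    intro r hr
    obtain ⟨s, hs, hp⟩ := hN.black r hr
    refine ⟨s, hs, hp.grow hst1.grow (fun _ => subset_rfl) ?_ (fun x _ _ => hD1f _ x)
      (fun x _ _ => hD1f _ x)⟩
    intro h1
    exact hnWL _ (hK1 _ h1).1 (List.mem_map_of_mem hr)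
  have htop1 := hM.top.grow hst1.grow (fun x _ _ => hD1f _ x)
  have hz1 := hM.zcol.grow hst1.grow (fun x _ _ => hD1l _ x hXzW.ne)
  have hb1 := hN.bbase.grow hst1.grow (fun x _ _ => hD1f _ x)
  have ha1 := hN.wbase.grow hst1.grow (fun x _ _ => hD1X x)
  have hw1 : SW Γ₁ D {topv W a0} true (topc W X0) B y := by
    by_cases hWe : W = []
    · subst hWe
      exact ha1.sub le_rfl hyy.le
    · exact fun x hx1 hx2 => hcov1 hWe x hx1.le hx2
  -- the black side
  obtain ⟨Γ₂, D₂, K₂, hst2, hD2, hK2, hD2t, hD2l, hD2Y, hL2, -, hBL, hLY⟩ :=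
    GeoC3_com (o := false) (M' := A) (t := h) b0 hst1.wd hN.ordB hN.hyY hL1 hnL le_rfl hM.hA hhX
  have hW2 : ∀ r' ∈ W, ∃ s ≤ y, Pend P Γ₂ U D true s Y0 r' ∧
        ((r'.c ≠ topc W X0 ∧ r'.g ≠ topc W X0) ∨ y ≤ s) := by
    intro r hr
    obtain ⟨s, hs, hp, h1⟩ := hW1 r hr
    refine ⟨s, hs, hp.grow hst2.grow (fun _ => subset_rfl) ?_ (fun x _ _ => hD2t _ x)
      (fun x _ _ => hD2t _ x), h1⟩
    intro h2
    exact hnWL _ (List.mem_map_of_mem hr) (hK2 _ h2).1
  have htop2 : SW Γ₂ D {topv L b0} false (topc L Y0) Xz h := by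
    refine fun x hx1 hx2 => ⟨(htop1 x hx1 hx2).1, fun v => ⟨fun h3 => ?_, fun h3 => ?_⟩⟩
    · rcases hst2.grow.new v _ _ x h3 with h4 | h4
      · exact ((htop1 x hx1 hx2).2 v).1 h4
      · exact (hK2 v h4.1).2
    · exact hst2.grow.mono v _ _ x (((htop1 x hx1 hx2).2 v).2 h3)
  have hz2 := hz1.grow hst2.grow (fun x _ _ => hD2t _ x)
  have hw2 := hw1.grow hst2.grow (fun x _ _ => hD2t _ x)
  have ha2 := ha1.grow hst2.grow (fun x _ _ => hD2t _ x)
  have hb2 := hb1.grow hst2.grow (fun x _ _ => hD2Y x)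
  -- the filling
  have hsock : SockC Γ₂ z (topv L b0) (topv W a0) true Xz (topc L Y0) (topc W X0) B h y := by
    refine ⟨?_, ?_, ?_, Or.inl ⟨hBy, hyt.le.trans hgc⟩, Or.inl ⟨hM.hz, hM.hA.trans hAW.le⟩⟩
    · rw [min_eq_left hBL.le, max_eq_right hBL.le]
      exact hz2.solo
    · rw [min_eq_left hM.hz.le, max_eq_right hM.hz.le]
      exact htop2.solo
    · rw [min_eq_left hBy.le, max_eq_right hBy.le]
      exact hw2.solo
  have hund : ∀ v ∈ J, Undrawn Γ₂ v := by
    intro v hv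
    obtain ⟨h1, h2⟩ := hJ v hv
    have h3 : v ∉ rv W := fun h4 => h2 (List.mem_cons_of_mem _ (List.mem_append_left _ h4))
    have h4 : v ∉ rv L := fun h5 => h2 (List.mem_cons_of_mem _ (List.mem_append_right _
      (List.mem_cons_of_mem _ (List.mem_append_left _ h5))))
    exact (h1.grow hst1.grow fun h5 => h3 (hK1 v h5).1).grow hst2.grow fun h5 => h4 (hK2 v h5).1
  obtain ⟨Γ₃, U₃, hst3, hfill⟩ := hf.corner Γ₂ U z (topv L b0) (topv W a0) true Xz (topc L Y0)
    (topc W X0) B h y rfl hst2.wd hund hsock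
  have hD3 : nl U ⊔ (seg true Xz B (topc L Y0) ⊔ seg (!true) (topc L Y0) Xz h ⊔
      seg true (topc W X0) B y) ≤ D := by
    refine sup_le hD (sup_le (sup_le ?_ ?_) ?_)
    · rintro o l x ⟨h1, h2, h3, h4⟩
      rw [min_eq_left hBL.le] at h3
      rw [max_eq_right hBL.le] at h4
      rw [h1, h2]
      exact (hM.zcol x h3 h4).1
    · rintro o l x ⟨h1, h2, h3, h4⟩
      rw [min_eq_left hM.hz.le] at h3
      rw [max_eq_right hM.hz.le] at h4
      rw [h1, h2]
      exact (hM.top x h3 h4).1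
    · rintro o l x ⟨h1, h2, h3, h4⟩
      rw [min_eq_left hBy.le] at h3
      rw [max_eq_right hBy.le] at h4
      rw [h1, h2]
      exact (hw1 x h3 h4).1
  have hnt : ∀ l x, l ∈ U true → Xz < l → (l ≠ topc W X0 ∨ y ≤ x) →
      x ∉ (nl U ⊔ (seg true Xz B (topc L Y0) ⊔ seg (!true) (topc L Y0) Xz h ⊔
      seg true (topc W X0) B y) : Cov) true l := by
    intro l x hl hXl hor hx
    rcases hx with hx | (hx | hx) | hx
    · exact hx hl
    · exact hXl.ne' hx.2.1
    · exact absurd hx.1 (by decide)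
    · rcases hor with h1 | h1
      · exact h1 hx.2.1
      · have h2 := hx.2.2.2
        rw [max_eq_right hBy.le] at h2
        exact absurd h2 (not_lt.2 h1)
  have hnf : ∀ l x, l ∈ U false → (l ≠ topc L Y0 ∨ h ≤ x) →
      x ∉ (nl U ⊔ (seg true Xz B (topc L Y0) ⊔ seg (!true) (topc L Y0) Xz h ⊔
      seg true (topc W X0) B y) : Cov) false l := by
    intro l x hl hor hx
    rcases hx with hx | (hx | hx) | hx
    · exact hx hl
    · exact absurd hx.1 (by decide)
    · rcases hor with h1 | h1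
      · exact h1 hx.2.1
      · have h2 := hx.2.2.2
        rw [max_eq_right hM.hz.le] at h2
        exact absurd h2 (not_lt.2 h1)
    · exact absurd hx.1 (by decide)
  refine ⟨Γ₃, U₃, y, ?_, ⟨hN.ordW, hN.ordB.raise hyt, hN.huX, hN.hyY, ?_, ?_, ?_, ?_⟩, hfill⟩
  · refine ((hst1.weaken hD1 ?_).trans (hst2.weaken hD2 ?_)).trans (hst3.weaken hD3 ?_)
    · intro v hv
      exact Or.inr (Or.inl (hK1 v hv).1)
    · intro v hv
      exact Or.inr (Or.inr (hK2 v hv).1)
    · intro v hv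
      exact Or.inl hv
  · intro r hr
    obtain ⟨s, hs, hp, h1⟩ := hW2 r hr
    obtain ⟨h2, h3, h4⟩ := hN.ordW.mem hr
    refine ⟨s, hs, hp.grow hst3.grow hst3.sub ?_ ?_ ?_⟩
    · intro h5
      exact (hJ r.v h5).2 (List.mem_cons_of_mem _ (List.mem_append_left _ (List.mem_map_of_mem hr)))
    · intro x hx _
      refine hnt _ x hp.hc (hXzA.trans (h2.trans h3)) ?_
      rcases h1 with h1 | h1
      · exact Or.inl h1.1
      · exact Or.inr (h1.trans hx)
    · intro x hx _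
      refine hnt _ x hp.hg (hXzA.trans h2) ?_
      rcases h1 with h1 | h1
      · exact Or.inl h1.2
      · exact Or.inr (h1.trans hx)
  · intro r hr
    obtain ⟨s, hs, hp, h1⟩ := hL2 r hr
    refine ⟨s, hs, hp.grow hst3.grow hst3.sub ?_ ?_ ?_⟩
    · intro h5
      exact (hJ r.v h5).2 (List.mem_cons_of_mem _ (List.mem_append_right _
        (List.mem_cons_of_mem _ (List.mem_append_left _ (List.mem_map_of_mem hr)))))
    · intro x hx _
      refine hnf _ x hp.hc ?_
      rcases h1 with h1 | h1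
      · exact Or.inl h1.1
      · exact Or.inr (h1.trans hx)
    · intro x hx _
      refine hnf _ x hp.hg ?_
      rcases h1 with h1 | h1
      · exact Or.inl h1.2
      · exact Or.inr (h1.trans hx)
  · exact (ha2.sub hBy.le le_rfl).grow hst3.grow
      (fun x hx _ => hnt _ x hX0U (hXzA.trans hAX) (Or.inr hx.le))
  · exact hb2.grow hst3.grow (fun x hx _ => hnf _ x hY0U (Or.inr (hM.hA.trans hx.le)))

end EPG26
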