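import Pool.Agent.W_26e041_h61.GeoC1

/-!
The geometric step push.
-/

namespace EPG26

variable {V : Type*} [DecidableEq V]

theorem GeoC4_topg_le {lo hi : ℚ} {L : List (Rec V)} (h : OrdL lo L hi) : topg L hi ≤ hi := by
  cases L with
  | nil => exact le_rfl
  | cons r t =>
    have := h.mem (List.mem_cons_self)
    show r.g ≤ hi
    linarith [this.1, this.2.1, this.2.2]

theorem GeoC4_lt_topg {lo hi : ℚ} {L : List (Rec V)} (h : OrdL lo L hi) : lo < topg L hi := by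
  cases L with
  | nil => exact h
  | cons r t => exact h.1

theorem GeoC4_mem_seg {o o' : Bool} {l l' a b x : ℚ} :
    x ∈ seg o l a b o' l' ↔ o' = o ∧ l' = l ∧ min a b < x ∧ x < max a b := Iff.rfl

theorem GeoC4_mem_hseg {o o' : Bool} {l l' a b x : ℚ} :
    x ∈ hseg o l a b o' l' ↔ o' = o ∧ l' = l ∧ a ≤ x ∧ x < b := Iff.rfl

theorem GeoC4_mem_sup {C C' : Cov} {o : Bool} {l x : ℚ} :
    x ∈ (C ⊔ C') o l ↔ x ∈ C o l ∨ x ∈ C' o l := Iff.rfl

/-- first part: the first black vertex is drawn up to `xI` -/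
theorem GeoC4_commit {G : SimpleGraph V} {P : V → Cov → Prop} {Γ : Dr V} {U : Bool → Finset ℚ}
    {D : Cov} {z : V} {Xz h A B : ℚ} {W : List (Rec V)} {a0 : V} {X0 u : ℚ}
    {L : List (Rec V)} {b0 : V} {Y0 yu : ℚ} (hw : Wd G Γ U)
    (hM : MSt P Γ U D z Xz h A B W a0 X0 u L b0 Y0 yu)
    (hnd : (z :: (rv W ++ a0 :: (rv L ++ [b0]))).Nodup) {xI : ℚ} (h1 : A < xI)
    (h2 : xI < topg W u) :
    ∃ Γ₁ D₁, Step G Γ U D₁ {v | v ∈ rv L} Γ₁ U ∧ D₁ ≤ D ∧
      (∀ r ∈ L, ∃ s ≤ xI, Pend P Γ₁ U D false s X0 r ∧ (s = xI ∨ topc L Y0 < r.g)) ∧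
      (∀ r ∈ W, ∃ s ≤ B, Pend P Γ₁ U D true s Y0 r) ∧
      SW Γ₁ D {a0} true X0 B yu ∧ SW Γ₁ D {b0} false Y0 xI u ∧
      SW Γ₁ D {z} true Xz B (topc L Y0) ∧ SW Γ₁ D {topv L b0} false (topc L Y0) Xz h ∧
      SW Γ₁ D {topv L b0} false (topc L Y0) A xI := by
  have hxu : xI ≤ u := h2.le.trans (GeoC4_topg_le hM.n.ordW)
  cases L with
  | nil =>
    refine ⟨Γ, ⊥, Step.refl hw _ _, bot_le, ?_, hM.n.white, hM.n.wbase,
      hM.n.bbase.sub h1.le le_rfl, hM.zcol, hM.top, hM.n.bbase.sub le_rfl hxu⟩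
    intro r hr
    exact absurd hr (List.not_mem_nil)
  | cons r₁ t =>
    obtain ⟨s, hs, hp⟩ := hM.n.black r₁ List.mem_cons_self
    obtain ⟨Γ₁, st, hp1, hle, hcov⟩ := hp.commit hw (hs.trans h1.le) (hxu.trans hM.n.huX)
    have hord := hM.n.ordB
    have hy : yu ≤ Y0 := hM.n.hyY
    have hr1 := hord.mem (List.mem_cons_self)
    have hmem : ∀ r ∈ t, r₁.c < r.g ∧ r.g < r.c ∧ r.c < yu := fun r hr => hord.2.2.mem hr
    have hnd' := hnd
    simp only [rv, List.map_cons, List.cons_append, List.nodup_cons, List.mem_append,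
      List.mem_cons, List.mem_map, not_or, List.nodup_append] at hnd'
    have hv1 : ∀ r ∈ t, r.v ≠ r₁.v := by
      intro r hr e
      refine hnd'.2.2.1.2.1.1 ⟨r, hr, e⟩
    have hv2 : ∀ r ∈ W, r.v ≠ r₁.v := by
      intro r hr e
      exact hnd'.2.2.2 r.v ⟨r, hr, rfl⟩ r₁.v (Or.inr (Or.inl rfl)) e
    have hnt : ∀ l x, x ∉ (hseg false r₁.c s xI) true l := by
      intro l x hx
      have := hx.1
      simp at this
    have hnf : ∀ l x, l ≠ r₁.c → x ∉ (hseg false r₁.c s xI) false l := by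
      intro l x hl hx
      exact hl hx.2.1
    refine ⟨Γ₁, hseg false r₁.c s xI, st.weaken le_rfl ?_, hle, ?_, ?_, ?_, ?_, ?_, ?_, ?_⟩
    · intro v hv
      have hv' : v = r₁.v := hv
      show v ∈ rv (r₁ :: t)
      rw [hv']
      simp [rv]
    · intro r hr
      rcases List.mem_cons.1 hr with rfl | hr
      · exact ⟨xI, le_rfl, hp1, Or.inl rfl⟩
      · obtain ⟨s', hs', hp'⟩ := hM.n.black r (List.mem_cons_of_mem _ hr)
        have hm := hmem r hr
        refine ⟨s', hs'.trans h1.le, hp'.grow st.grow (fun o => subset_rfl) ?_ ?_ ?_,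
          Or.inr hm.1⟩
        · exact hv1 r hr
        · intro x _ _
          exact hnf _ _ (by linarith [hm.1, hm.2.1] : r₁.c < r.c).ne'
        · intro x _ _
          exact hnf _ _ hm.1.ne'
    · intro r hr
      obtain ⟨s', hs', hp'⟩ := hM.n.white r hr
      exact ⟨s', hs', hp'.grow st.grow (fun o => subset_rfl) (hv2 r hr)
        (fun x _ _ => hnt _ _) (fun x _ _ => hnt _ _)⟩
    · exact hM.n.wbase.grow st.grow (fun x _ _ => hnt _ _)
    · have h3 := hM.n.bbase.grow st.grow (fun x _ _ => hnf _ _ (by linarith [hr1.2.2] :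
        r₁.c < Y0).ne')
      exact h3.sub h1.le le_rfl
    · exact hM.zcol.grow st.grow (fun x _ _ => hnt _ _)
    · intro x hx1 hx2
      obtain ⟨h3, h4⟩ := hM.top x hx1 hx2
      refine ⟨h3, fun v => ?_⟩
      by_cases hv : v = r₁.v
      · subst hv
        constructor
        · intro _; rfl
        · intro _
          exact st.grow.mono _ _ _ _ ((h4 _).2 rfl)
      · have e : Γ₁ v = Γ v := st.grow.eq (by exact hv)
        rw [e]
        exact h4 v
    · intro x hx1 hx2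
      refine ⟨hle _ _ ?_, fun v => ?_⟩
      · exact ⟨rfl, rfl, by linarith, hx2⟩
      · exact hcov x (by linarith) hx2 v

theorem GeoC4_seg {o o' : Bool} {l l' a b x : ℚ} (h : a < b) :
    x ∈ seg o l a b o' l' ↔ o' = o ∧ l' = l ∧ a < x ∧ x < b := by
  rw [GeoC4_mem_seg, min_eq_left h.le, max_eq_right h.le]

/-- the coverage of the new vertex is extended by the last segment and a foot -/
theorem GeoC4_zig {Xz Yc Y₁ xI l₁ : ℚ} (h1 : Xz < l₁) (h2 : Yc < Y₁) (h3 : Xz < xI) {Y g' : ℚ}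
    (hY : xI < Y) (hg : g' ≠ Yc) (hl : l₁ < xI) :
    ∃ C' : Cov, IsPath3 C' ∧
      seg false Y₁ Xz l₁ ⊔ seg true Xz Yc Y₁ ⊔ seg false Yc Xz xI ≤ C' ∧
      hseg false Yc xI Y ≤ C' ∧ seg (!false) Y g' Yc ≤ C' ∧
      C' ≤ (seg false Y₁ Xz l₁ ⊔ seg true Xz Yc Y₁ ⊔ seg false Yc Xz xI) ⊔
        hseg false Yc xI Y ⊔ seg (!false) Y g' Yc := by
  have hz : ∀ o l x, x ∈ zig false [l₁, Y₁, Xz, Yc, Y, g'] o l ↔
      (o = false ∧ l = Y₁ ∧ Xz < x ∧ x < l₁) ∨ (o = true ∧ l = Xz ∧ Yc < x ∧ x < Y₁) ∨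
      (o = false ∧ l = Yc ∧ Xz < x ∧ x < Y) ∨
      (o = true ∧ l = Y ∧ min Yc g' < x ∧ x < max Yc g') := by
    intro o l x
    have e1 : min l₁ Xz = Xz := min_eq_right h1.le
    have e2 : max l₁ Xz = l₁ := max_eq_left h1.le
    have e3 : min Y₁ Yc = Yc := min_eq_right h2.le
    have e4 : max Y₁ Yc = Y₁ := max_eq_left h2.le
    have e5 : min Xz Y = Xz := min_eq_left (by linarith)
    have e6 : max Xz Y = Y := max_eq_right (by linarith)
    simp only [zig, seg, Set.mem_union, Set.mem_ofPred_eq, Set.mem_empty_iff_false, or_false,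
      Bool.not_false, Bool.not_true, e1, e2, e3, e4, e5, e6]
  refine ⟨zig false [l₁, Y₁, Xz, Yc, Y, g'], ⟨false, [l₁, Y₁, Xz, Yc, Y, g'], by simp, by simp,
    ?_, ?_, fun o' l' x => Iff.rfl⟩, ?_, ?_, ?_, ?_⟩
  · simp only [ZigNd]
    exact ⟨h1.ne', h2.ne', by linarith [h1, h3] |> fun (h : Xz < Y) => h.ne, hg.symm, trivial⟩
  · simp only [ZigSimple]
    rintro ⟨-, h4, -⟩
    rcases le_max_iff.1 h4 with h5 | h5 <;> linarith
  · intro o l x hx
    rw [hz]
    rcases hx with (hx | hx) | hx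
    · have := (GeoC4_seg h1).1 hx
      exact Or.inl this
    · have := (GeoC4_seg h2).1 hx
      exact Or.inr (Or.inl this)
    · have := (GeoC4_seg h3).1 hx
      exact Or.inr (Or.inr (Or.inl ⟨this.1, this.2.1, this.2.2.1, by linarith [this.2.2.2]⟩))
  · intro o l x hx
    rw [hz]
    obtain ⟨h4, h5, h6, h7⟩ := hx
    exact Or.inr (Or.inr (Or.inl ⟨h4, h5, by linarith, h7⟩))
  · intro o l x hx
    rw [hz]
    obtain ⟨h4, h5, h6, h7⟩ := hx
    refine Or.inr (Or.inr (Or.inr ⟨h4, h5, ?_, ?_⟩))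
    · rwa [min_comm]
    · rwa [max_comm]
  · intro o l x hx
    rw [hz] at hx
    rcases hx with hx | hx | hx | hx
    · exact Or.inl (Or.inl (Or.inl (Or.inl ((GeoC4_seg h1).2 hx))))
    · exact Or.inl (Or.inl (Or.inl (Or.inr ((GeoC4_seg h2).2 hx))))
    · by_cases h4 : x < xI
      · exact Or.inl (Or.inl (Or.inr ((GeoC4_seg h3).2 ⟨hx.1, hx.2.1, hx.2.2.1, h4⟩)))
      · exact Or.inl (Or.inr ⟨hx.1, hx.2.1, not_lt.1 h4, hx.2.2.2⟩)
    · refine Or.inr ⟨hx.1, hx.2.1, ?_, ?_⟩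
      · rw [min_comm]; exact hx.2.2.1
      · rw [max_comm]; exact hx.2.2.2

/-- Push. A child `c` of `z` becomes the first black vertex.

Let `Y₁ = topc L Y0`, `b = topv L b0`. Choose new coordinates (`exists_fresh`)
`B < J₁ < g < Y_c < topg L yu` not in `U false` and `A < xI < topg W u` not in `U true`,
`Xz < l₀ < l₁ < h` arbitrary (note `topg L yu ≤ Y₁`, `topg W u ≤ X0`, `h ≤ A`).
1. If `L = r₁ :: _` use `Pend.commit` for `r₁` up to `xI`.
2. Draw `c`: `Γ' c = seg false Y₁ Xz l₁ ⊔ seg true Xz Y_c Y₁ ⊔ seg false Y_c Xz xI` (`Step.draw`,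
   `U' = U` with the lines `(false, Y_c)`, `(false, g)`). New overlaps: with `b` on `Y₁` between `Xz` and
   `h`, with `z` on `Xz` between `B` and `Y₁`.
3. Fill the face `{b, c, z}` in the wk-socket with `o = false`, `u = b` (line `Y₁`), `v = c` (line
   `Y_c`), `x = z` (line `Xz`), `(I0, I1) = (A, xI)`, `(J0, J1) = (B, J₁)` (below both lines),
   `R = Y₁`, `(C0, C1) = (Xz, l₀)`.
New record `r`: `v = c`, line `Y_c`, gap `g`, `e = A - 1` (so the gap condition is empty), `t = Y₁`,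
`pl = true`. `A' = xI`, `B' = J₁`, `h' = A`.
Pending with `s = xI`: for `Y` in `(xI, X0]` and `g' ≠ Y_c` take
`C' = zig false [l₁, Y₁, Xz, Y_c, Y, g']`; it is `IsPath3` (the first and the last segment are
disjoint because `Xz < l₁ < xI < Y`), `hP` gives `P`.
Link zone: `(l₀, l₁)` of `Y₁`: covered by `c` and `b` only, not used by the filling and not in the
new allowed set.
All windows of the other records and bases are on other lines or at positions `≥ A'` resp. `≥ B'`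
which are not changed (`NSt.grow`, `NSt.raise`). -/
theorem pushStepX {G : SimpleGraph V} {P : V → Cov → Prop} {Γ : Dr V} {U : Bool → Finset ℚ}
    {D : Cov} {z : V} {Xz h A B : ℚ} {W : List (Rec V)} {a0 : V} {X0 u : ℚ}
    {L : List (Rec V)} {b0 : V} {Y0 yu : ℚ} {J : Finset V} {c : V} (hw : Wd G Γ U)
    (hD : Adm U D) (hM : MSt P Γ U D z Xz h A B W a0 X0 u L b0 Y0 yu)
    (hnd : (z :: (rv W ++ a0 :: (rv L ++ [b0]))).Nodup)
    (hc : Undrawn Γ c) (hcn : c ∉ z :: (rv W ++ a0 :: (rv L ++ [b0])))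
    (hP : ∀ C, IsPath3 C → P c C) (hcz : G.Adj c z) (hcb : G.Adj c (topv L b0))
    (hJ : ∀ v ∈ J, Undrawn Γ v ∧ v ∉ c :: z :: (rv W ++ a0 :: (rv L ++ [b0])))
    (hf : FillT G {topv L b0, c, z} J) :
    ∃ Γ' U' h' A' B' r l₀ l₁, r.v = c ∧ r.pl = true ∧ r.t = topc L Y0 ∧
      Step G Γ U D {v | v = c ∨ v ∈ J ∨ v ∈ rv L} Γ' U' ∧
      MSt P Γ' U' (D \ seg false (topc L Y0) l₀ l₁) z Xz h' A' B' W a0 X0 u (r :: L) b0 Y0 yu ∧
      Filled G Γ' J ∧ Ov Γ' c z ∧ Ov Γ' c (topv L b0) ∧ l₀ < l₁ ∧ l₁ ≤ A' ∧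
      Solo Γ' {c, topv L b0} false (topc L Y0) l₀ l₁ ∧ h' = A ∧ A ≤ A' ∧ B ≤ B' ∧
      Solo Γ' {c, z} true Xz r.c (topc L Y0) := by
  -- coordinates
  have hXh := hM.hz
  have hhA := hM.hA
  have hordW := hM.n.ordW
  have hordB := hM.n.ordB
  have hAu : A < u := hordW.lt
  have hByu : B < yu := hordB.lt
  have huX := hM.n.huX
  have hyY := hM.n.hyY
  obtain ⟨Yc, hBYc, hYct, hYcU⟩ := exists_fresh U false (GeoC4_lt_topg hordB)
  obtain ⟨g, hBg, hgYc, hgU'⟩ := exists_fresh (addL U false Yc) false hBYc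
  obtain ⟨J₁, hBJ, hJg⟩ := exists_between hBg
  obtain ⟨xI, hAxI, hxIt⟩ := exists_between (GeoC4_lt_topg hordW)
  obtain ⟨l₁, hXl, hlh⟩ := exists_between hXh
  obtain ⟨l₀, hXl₀, hll⟩ := exists_between hXl
  have hgU : g ∉ U false := fun h5 => hgU' (mem_addL.2 (Or.inl h5))
  have hY1 : topg L yu ≤ topc L Y0 := by
    cases L with
    | nil => exact hyY
    | cons r t => exact (hordB.mem List.mem_cons_self).2.1.le
  have hxu : xI < u := hxIt.trans_le (GeoC4_topg_le hordW)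
  obtain ⟨Γ₁, D₁, st1, hD1, hblack, hwhite, hwb, hbb, hzc, htop, hbA⟩ :=
    GeoC4_commit hw hM hnd hAxI hxIt
  obtain ⟨b, hb⟩ : ∃ b, b = topv L b0 := ⟨_, rfl⟩
  obtain ⟨Y₁, hY₁⟩ : ∃ Y, Y = topc L Y0 := ⟨_, rfl⟩
  rw [← hb] at hcb hf htop hbA ⊢
  rw [← hY₁] at hY1 hblack hzc htop hbA ⊢
  have hYcY : Yc < Y₁ := hYct.trans_le hY1
  have hbL : b ∈ rv L ++ [b0] := by
    rw [hb]
    cases L with
    | nil => exact List.mem_singleton_self _
    | cons r t => exact List.mem_cons_self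
  -- the new vertex is different from the others
  have hcz' : c ≠ z := fun e => hcn (by rw [e]; exact List.mem_cons_self)
  have hcW : ∀ r ∈ W, r.v ≠ c := by
    intro r hr e
    refine hcn (List.mem_cons_of_mem _ (List.mem_append_left _ ?_))
    rw [← e]
    exact List.mem_map_of_mem hr
  have hca : c ≠ a0 := fun e => hcn (by rw [e]; simp)
  have hcL : ∀ v ∈ rv L ++ [b0], c ≠ v := by
    intro v hv e
    refine hcn (List.mem_cons_of_mem _ (List.mem_append_right _ (List.mem_cons_of_mem _ ?_)))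
    rw [e]; exact hv
  have hcb' : c ≠ b := hcL b hbL
  have hJc : ∀ v ∈ J, v ≠ c := fun v hv e => (hJ v hv).2 (by rw [e]; exact List.mem_cons_self)
  have hJW : ∀ r ∈ W, r.v ∉ J := by
    intro r hr hv
    refine (hJ _ hv).2 (List.mem_cons_of_mem _ (List.mem_cons_of_mem _
      (List.mem_append_left _ (List.mem_map_of_mem hr))))
  have hJL : ∀ v ∈ rv L ++ [b0], v ∉ J := by
    intro v hv hvJ
    exact (hJ _ hvJ).2 (List.mem_cons_of_mem _ (List.mem_cons_of_mem _
      (List.mem_append_right _ (List.mem_cons_of_mem _ hv))))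
  have hUc1 : Undrawn Γ₁ c := hc.grow st1.grow
    (fun hv => hcL c (List.mem_append_left _ hv) rfl)
  -- the coverage of `c`
  obtain ⟨C, hCdef⟩ : ∃ C : Cov, C = seg false Y₁ Xz l₁ ⊔ seg true Xz Yc Y₁ ⊔
    seg false Yc Xz xI := ⟨_, rfl⟩
  have hXxI : Xz < xI := by linarith
  have hCf : ∀ l x, x ∈ C false l ↔ (l = Y₁ ∧ Xz < x ∧ x < l₁) ∨ (l = Yc ∧ Xz < x ∧ x < xI) := by
    intro l x
    rw [hCdef, GeoC4_mem_sup, GeoC4_mem_sup, GeoC4_seg hXl, GeoC4_seg hYcY, GeoC4_seg hXxI]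
    simp
  have hCt : ∀ l x, x ∈ C true l ↔ l = Xz ∧ Yc < x ∧ x < Y₁ := by
    intro l x
    rw [hCdef, GeoC4_mem_sup, GeoC4_mem_sup, GeoC4_seg hXl, GeoC4_seg hYcY, GeoC4_seg hXxI]
    simp
  obtain ⟨U₂, hU₂⟩ : ∃ U₂, U₂ = addL (addL U false Yc) false g := ⟨_, rfl⟩
  have hmU₂ : ∀ o x, x ∈ U₂ o ↔ x ∈ U o ∨ (o = false ∧ (x = Yc ∨ x = g)) := by
    intro o x
    rw [hU₂, mem_addL, mem_addL]
    tauto
  have hUU : ∀ o, U o ⊆ U₂ o := fun o x hx => (hmU₂ o x).2 (Or.inl hx)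
  have hYcU₂ : Yc ∈ U₂ false := (hmU₂ _ _).2 (Or.inr ⟨rfl, Or.inl rfl⟩)
  have hgU₂ : g ∈ U₂ false := (hmU₂ _ _).2 (Or.inr ⟨rfl, Or.inr rfl⟩)
  have hlin1 := st1.wd.lines
  have hY₁U : Y₁ ∈ U false := htop.mem (v := b) rfl hlin1 hXh
  have hXzU : Xz ∈ U true := hzc.mem (v := z) rfl hlin1 (by linarith)
  have hYcno : ∀ w x, x ∉ Γ₁ w false Yc := fun w x hx => hYcU (hlin1 _ _ _ _ hx)
  have hCD : C ≤ D := by
    intro o l x hx
    cases o with
    | false =>
      rcases (hCf l x).1 hx with ⟨rfl, h5, h6⟩ | ⟨rfl, h5, h6⟩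
      · exact (htop x h5 (by linarith)).1
      · exact hD false l hYcU
    | true =>
      obtain ⟨rfl, h5, h6⟩ := (hCt l x).1 hx
      exact (hzc x (by linarith) h6).1
  have st2 : Step G Γ₁ U C {c} (Function.update Γ₁ c C) U₂ := by
    refine Step.draw st1.wd hUU ?_ ?_ ?_ ?_
    · intro o l x hx
      exact absurd hx (hUc1 o l x)
    · intro o l x hx
      cases o with
      | false =>
        rcases (hCf l x).1 hx with ⟨rfl, h5, h6⟩ | ⟨rfl, h5, h6⟩
        · exact hUU _ hY₁U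
        · exact hYcU₂
      | true =>
        obtain ⟨rfl, h5, h6⟩ := (hCt l x).1 hx
        exact hUU _ hXzU
    · intro o l x hx _
      exact hx
    · intro o l x hx _ w hwc hxw
      cases o with
      | false =>
        rcases (hCf l x).1 hx with ⟨rfl, h5, h6⟩ | ⟨rfl, h5, h6⟩
        · have h7 : w = b := ((htop x h5 (by linarith)).2 w).1 hxw
          rw [h7]; exact hcb
        · exact absurd hxw (hYcno w x)
      | true =>
        obtain ⟨rfl, h5, h6⟩ := (hCt l x).1 hx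
        have h7 : w = z := ((hzc x (by linarith) h6).2 w).1 hxw
        rw [h7]; exact hcz
  obtain ⟨Γ₂, hΓ₂⟩ : ∃ Γ₂, Γ₂ = Function.update Γ₁ c C := ⟨_, rfl⟩
  rw [← hΓ₂] at st2
  have hΓc : Γ₂ c = C := by rw [hΓ₂]; exact Function.update_self _ _ _
  have hΓv : ∀ v, v ≠ c → Γ₂ v = Γ₁ v := fun v hv => by
    rw [hΓ₂]; exact Function.update_of_ne hv _ _
  -- filling
  have hJ2 : ∀ v ∈ J, Undrawn Γ₂ v := by
    intro v hv
    refine ((hJ v hv).1.grow st1.grow ?_).grow st2.grow (hJc v hv)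
    intro h5
    exact hJL v (List.mem_append_left _ h5) hv
  have hYne : Yc ≠ Y₁ := hYcY.ne
  have sock : SockR Γ₂ b c z false Y₁ Yc A xI Xz B J₁ := by
    refine ⟨hAxI, hBJ, ?_, ?_, ?_, hYne.symm, Or.inl (by linarith)⟩
    · intro x h5 h6 v
      by_cases hv : v = c
      · subst hv
        rw [hΓc, hCf]
        constructor
        · rintro (⟨-, -, h7⟩ | ⟨h7, -, -⟩)
          · exfalso; linarith
          · exact absurd h7.symm hYne
        · intro h7
          exact absurd h7 hcb'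
      · rw [hΓv v hv]
        exact (hbA x h5 h6).2 v
    · intro x h5 h6 v
      by_cases hv : v = c
      · subst hv
        rw [hΓc, hCf]
        exact ⟨fun _ => rfl, fun _ => Or.inr ⟨rfl, by linarith, h6⟩⟩
      · rw [hΓv v hv]
        exact ⟨fun h7 => absurd h7 (hYcno v x), fun h7 => absurd h7 hv⟩
    · intro x h5 h6 v
      show x ∈ Γ₂ v true Xz ↔ v ∈ ({z} : Set V)
      by_cases hv : v = c
      · subst hv
        rw [hΓc, hCt]
        constructor
        · rintro ⟨-, h7, -⟩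
          exfalso; linarith
        · intro h7
          exact absurd h7 hcz'
      · rw [hΓv v hv]
        exact (hzc x h5 (by linarith)).2 v
  have zone : ZoneW Γ₂ b c false Y₁ Yc B J₁ Y₁ Xz l₀ := by
    refine ⟨hXl₀, ?_, Or.inr ⟨by linarith, by linarith, by linarith⟩⟩
    intro x h5 h6 v
    by_cases hv : v = c
    · subst hv
      rw [hΓc, hCf]
      exact ⟨fun _ => Or.inr rfl, fun _ => Or.inl ⟨rfl, h5, by linarith⟩⟩
    · rw [hΓv v hv, (htop x h5 (by linarith)).2 v]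
      exact ⟨fun h7 => Or.inl h7, fun h7 => h7.resolve_right hv⟩
  obtain ⟨Γ₃, U₃, st3, hfill⟩ := hf.wk Γ₂ U₂ b c z false Y₁ Yc A xI Xz B J₁ Y₁ Xz l₀ rfl st2.wd
    hJ2 sock zone
  obtain ⟨E, hE⟩ : ∃ E : Cov, E = seg false Y₁ A xI ⊔ seg false Yc A xI ⊔ seg (!false) Xz B J₁ ⊔
    seg false Y₁ Xz l₀ := ⟨_, rfl⟩
  rw [← hE] at st3
  have hEf : ∀ l x, x ∈ E false l ↔ (l = Y₁ ∧ A < x ∧ x < xI) ∨ (l = Yc ∧ A < x ∧ x < xI) ∨
      (l = Y₁ ∧ Xz < x ∧ x < l₀) := by
    intro l x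
    rw [hE, GeoC4_mem_sup, GeoC4_mem_sup, GeoC4_mem_sup, GeoC4_seg hAxI, GeoC4_seg hAxI,
      GeoC4_seg hBJ, GeoC4_seg hXl₀]
    simp
    tauto
  have hEt : ∀ l x, x ∈ E true l ↔ l = Xz ∧ B < x ∧ x < J₁ := by
    intro l x
    rw [hE, GeoC4_mem_sup, GeoC4_mem_sup, GeoC4_mem_sup, GeoC4_seg hAxI, GeoC4_seg hAxI,
      GeoC4_seg hBJ, GeoC4_seg hXl₀]
    simp
  have hED : nl U₂ ⊔ E ≤ D := by
    refine sup_le (hD.mono hUU) ?_
    intro o l x hx
    cases o with
    | false =>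
      rcases (hEf l x).1 hx with ⟨rfl, h5, h6⟩ | ⟨rfl, h5, h6⟩ | ⟨rfl, h5, h6⟩
      · exact (hbA x h5 h6).1
      · exact hD false l hYcU
      · exact (htop x h5 (by linarith)).1
    | true =>
      obtain ⟨rfl, h5, h6⟩ := (hEt l x).1 hx
      exact (hzc x h5 (by linarith)).1
  have hcJ : c ∉ J := fun h5 => hJc c h5 rfl
  have hΓ₃c : Γ₃ c = C := by
    rw [← hΓc]
    exact st3.grow.eq hcJ
  -- transfer of windows
  have hSW : ∀ (S : Set V) (o : Bool) (l a d : ℚ), SW Γ₁ D S o l a d → l ∈ U₂ o →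
      (∀ x, a < x → x < d → x ∉ C o l ∧ x ∉ E o l) →
      SW Γ₃ (D \ seg false Y₁ l₀ l₁) S o l a d := by
    intro S o l a d h5 h6 h7
    have h8 := (h5.grow st2.grow (fun x h9 h10 => (h7 x h9 h10).1)).grow st3.grow
      (fun x h9 h10 h11 => by
        rcases h11 with h11 | h11
        · exact h11 h6
        · exact (h7 x h9 h10).2 h11)
    intro x h9 h10
    refine ⟨⟨(h8 x h9 h10).1, fun h11 => ?_⟩, (h8 x h9 h10).2⟩
    obtain ⟨rfl, rfl, h12, h13⟩ := (GeoC4_seg hll).1 h11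
    exact (h7 x h9 h10).1 ((hCf _ _).2 (Or.inl ⟨rfl, by linarith, h13⟩))
  have hPe : ∀ (o : Bool) (s hi : ℚ) (r : Rec V), Pend P Γ₁ U D o s hi r → r.v ≠ c → r.v ∉ J →
      (∀ x, s ≤ x → x < hi → x ∉ C o r.c ∧ x ∉ E o r.c) →
      (∀ x, s ≤ x → x ≤ r.e → x ∉ C o r.g ∧ x ∉ E o r.g) →
      Pend P Γ₃ U₃ (D \ seg false Y₁ l₀ l₁) o s hi r := by
    intro o s hi r h5 h6 h7 h8 h9
    have h10 := (h5.grow st2.grow hUU h6 (fun x h9 h10 => (h8 x h9 h10).1)
      (fun x h11 h12 => (h9 x h11 h12).1)).grow st3.grow st3.sub h7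
      (fun x h13 h14 h15 => by
        rcases h15 with h15 | h15
        · exact h15 (hUU _ h5.hc)
        · exact (h8 x h13 h14).2 h15)
      (fun x h13 h14 h15 => by
        rcases h15 with h15 | h15
        · exact h15 (hUU _ h5.hg)
        · exact (h9 x h13 h14).2 h15)
    refine h10.mono_D ?_ ?_
    · intro x h11 h12 h13
      refine ⟨h13, fun h14 => ?_⟩
      obtain ⟨rfl, h16, h17, h18⟩ := (GeoC4_seg hll).1 h14
      exact (h8 x h11 h12).1 ((hCf _ _).2 (Or.inl ⟨h16, by linarith, h18⟩))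
    · intro x h11 h12 h13
      refine ⟨h13, fun h14 => ?_⟩
      obtain ⟨rfl, h16, h17, h18⟩ := (GeoC4_seg hll).1 h14
      exact (h9 x h11 h12).1 ((hCf _ _).2 (Or.inl ⟨h16, by linarith, h18⟩))
  have hnt : ∀ l x, l ≠ Xz → x ∉ C true l ∧ x ∉ E true l := fun l x hl =>
    ⟨fun h5 => hl ((hCt _ _).1 h5).1, fun h5 => hl ((hEt _ _).1 h5).1⟩
  have hnf : ∀ l x, l ≠ Y₁ → l ≠ Yc → x ∉ C false l ∧ x ∉ E false l := by
    intro l x h5 h6
    constructor
    · intro h7
      rcases (hCf _ _).1 h7 with h8 | h8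
      · exact h5 h8.1
      · exact h6 h8.1
    · intro h7
      rcases (hEf _ _).1 h7 with h8 | h8 | h8
      · exact h5 h8.1
      · exact h6 h8.1
      · exact h5 h8.1
  have hnY : ∀ x, xI ≤ x → x ∉ C false Y₁ ∧ x ∉ E false Y₁ := by
    intro x h5
    constructor
    · intro h7
      rcases (hCf _ _).1 h7 with h8 | h8
      · linarith [h8.2.2]
      · exact hYne h8.1.symm
    · intro h7
      rcases (hEf _ _).1 h7 with h8 | h8 | h8
      · linarith [h8.2.2]
      · exact hYne h8.1.symm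
      · linarith [h8.2.2]
  -- coverage of the line `Yc`
  have hYcov : ∀ x w, x ∈ Γ₃ w false Yc → ¬ (A < x ∧ x < xI) → w = c ∧ Xz < x ∧ x < xI := by
    intro x w h5 h6
    rcases st3.grow.new _ _ _ _ h5 with h7 | ⟨-, h7⟩
    · by_cases hv : w = c
      · subst hv
        rw [hΓc] at h7
        rcases (hCf _ _).1 h7 with h8 | h8
        · exact absurd h8.1 hYne
        · exact ⟨rfl, h8.2⟩
      · rw [hΓv w hv] at h7
        exact absurd h7 (hYcno w x)
    · exfalso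
      rcases h7 with h7 | h7
      · exact h7 hYcU₂
      · rcases (hEf _ _).1 h7 with h8 | h8 | h8
        · exact hYne h8.1
        · exact h6 h8.2
        · exact hYne h8.1
  have hpay : ∀ g', g' ≠ Yc → ∀ E' : ℚ → Cov,
      Pay (P c) (Γ₃ c) false Yc g' xI X0 E' := by
    intro g' h5 E' Y h7 h8
    obtain ⟨C', hC1, hC2, hC3, hC4, hC5⟩ := GeoC4_zig hXl hYcY hXxI h7 h5 (by linarith)
    rw [hΓ₃c, hCdef]
    exact ⟨C', hP C' hC1, hC2, hC3, hC4, hC5.trans le_sup_left⟩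
  refine ⟨Γ₃, U₃, A, xI, J₁, ⟨c, Yc, g, A - 1, Y₁, true⟩, l₀, l₁, rfl, rfl, rfl, ?_, ?_, hfill,
    ?_, ?_, hll, by linarith, ?_, rfl, hAxI.le, hBJ.le, ?_⟩
  · refine (st1.weaken hD1 ?_).trans ((st2.weaken hCD ?_).trans (st3.weaken hED ?_))
    · intro v hv
      exact Or.inr (Or.inr hv)
    · intro v hv
      exact Or.inl hv
    · intro v hv
      exact Or.inr (Or.inl hv)
  · refine ⟨⟨hordW.raise hxIt, ⟨hJg, hgYc, hordB.raise hYct⟩, huX, hyY, ?_, ?_, ?_, ?_⟩, by linarith,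
      hAxI.le, ?_, ?_⟩
    · intro r hr
      obtain ⟨s, hs, hp⟩ := hwhite r hr
      have hm := hordW.mem hr
      refine ⟨s, hs.trans hBJ.le, hPe _ _ _ _ hp (hcW r hr) (hJW r hr) ?_ ?_⟩
      · intro x _ _
        exact hnt _ _ (by linarith [hm.1, hm.2.1] : Xz < r.c).ne'
      · intro x _ _
        exact hnt _ _ (by linarith [hm.1] : Xz < r.g).ne'
    · intro r hr
      rcases List.mem_cons.1 hr with rfl | hr
      · refine ⟨xI, le_rfl, st3.sub _ hYcU₂, st3.sub _ hgU₂, hgYc, ?_, ?_, ?_, ?_, ?_⟩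
        · intro x h5 h6
          refine ⟨⟨hD false Yc hYcU, fun h7 => hYne ((GeoC4_seg hll).1 h7).2.1⟩, fun w h7 => ?_⟩
          exact (hYcov x w h7 (fun h8 => by linarith [h8.2])).1
        · intro x h5 h6
          have h6' : x ≤ A - 1 := h6
          exfalso
          linarith
        · exact hpay g hgYc.ne _
        · intro _
          refine ⟨hYcY, ?_, fun g' h5 => hpay g' h5 _⟩
          show A - 1 < xI
          linarith
        · intro x h5 h6 h7
          rw [hΓ₃c, hCdef] at h7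
          rcases h7 with (h8 | h8) | h8
          · exact hYne h8.2.1
          · exact absurd h8.1 (by decide)
          · have h9 := h8.2.2.2
            rw [max_eq_right hXxI.le] at h9
            exact absurd h9 (not_lt.2 h5)
      · obtain ⟨s, hs, hp, hor⟩ := hblack r hr
        have hrL : r.v ∈ rv L ++ [b0] := List.mem_append_left _ (List.mem_map_of_mem hr)
        have hm := hordB.mem hr
        have hYcg : Yc < r.g := by
          have h5 : topg L yu ≤ r.g := by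
            cases L with
            | nil => exact absurd hr List.not_mem_nil
            | cons r₁ t =>
              rcases List.mem_cons.1 hr with rfl | hr
              · exact le_rfl
              · have h6 := hordB.2.2.mem hr
                have h7 := hordB.2.1
                show r₁.g ≤ r.g
                linarith [h6.1]
          linarith
        refine ⟨s, hs, hPe _ _ _ _ hp (hcL _ hrL).symm (hJL _ hrL) ?_ ?_⟩
        · intro x h5 h6
          by_cases h7 : r.c = Y₁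
          · rw [h7]
            refine hnY x ?_
            rcases hor with h8 | h8
            · rw [← h8]; exact h5
            · exfalso; linarith [hm.2.1]
          · exact hnf _ _ h7 (by linarith [hm.2.1] : Yc < r.c).ne'
        · intro x h5 h6
          by_cases h7 : r.g = Y₁
          · exfalso
            -- the gap line of a record is not `Y₁`
            cases L with
            | nil => exact absurd hr List.not_mem_nil
            | cons r₁ t =>
              have h9 : Y₁ = r₁.c := hY₁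
              rcases List.mem_cons.1 hr with rfl | hr
              · linarith [hm.2.1]
              · have h6 := hordB.2.2.mem hr
                linarith [h6.1]
          · exact hnf _ _ h7 hYcg.ne'
    · refine (hSW _ _ _ _ _ hwb ?_ ?_).sub hBJ.le le_rfl
      · exact hUU _ (hwb.mem (v := a0) rfl hlin1 hByu)
      · intro x _ _
        exact hnt _ _ (by linarith : Xz < X0).ne'
    · refine hSW _ _ _ _ _ hbb ?_ ?_
      · exact hUU _ (hbb.mem (v := b0) rfl hlin1 hxu)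
      · intro x h5 h6
        by_cases h7 : Y0 = Y₁
        · rw [h7]; exact hnY x h5.le
        · exact hnf _ _ h7 (by linarith [GeoC4_topg_le hordB] : Yc < Y0).ne'
    · have h5 : SW Γ₃ (D \ seg false Y₁ l₀ l₁) {z} true Xz J₁ Yc := by
        refine hSW _ _ _ _ _ (hzc.sub hBJ.le hYcY.le) (hUU _ hXzU) ?_
        intro x h6 h7
        refine ⟨fun h8 => ?_, fun h8 => ?_⟩
        · linarith [((hCt _ _).1 h8).2.1]
        · linarith [((hEt _ _).1 h8).2.2]
      exact h5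
    · intro x h5 h6
      refine ⟨⟨hD false Yc hYcU, fun h7 => hYne ((GeoC4_seg hll).1 h7).2.1⟩, fun v => ?_⟩
      constructor
      · intro h7
        exact (hYcov x v h7 (fun h8 => by linarith [h8.1])).1
      · intro h7
        have h8 : v = c := h7
        rw [h8, hΓ₃c]
        exact (hCf _ _).2 (Or.inr ⟨rfl, h5, by linarith⟩)
  · obtain ⟨x, h5, h6⟩ := exists_between hYcY
    refine ⟨true, Xz, x, ?_, ?_⟩
    · rw [hΓ₃c]
      exact (hCt _ _).2 ⟨rfl, h5, h6⟩
    · have h7 := ((hzc x (by linarith) h6).2 z).2 rfl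
      exact st3.grow.mono _ _ _ _ (st2.grow.mono _ _ _ _ h7)
  · obtain ⟨x, h5, h6⟩ := exists_between hXl
    refine ⟨false, Y₁, x, ?_, ?_⟩
    · rw [hΓ₃c]
      exact (hCf _ _).2 (Or.inl ⟨rfl, h5, h6⟩)
    · have h7 := ((htop x h5 (by linarith)).2 b).2 rfl
      exact st3.grow.mono _ _ _ _ (st2.grow.mono _ _ _ _ h7)
  · have h5 : Solo Γ₂ {c, b} false Y₁ l₀ l₁ := by
      intro x h6 h7 v
      by_cases hv : v = c
      · subst hv
        rw [hΓc, hCf]
        exact ⟨fun _ => Or.inl rfl, fun _ => Or.inl ⟨rfl, by linarith, h7⟩⟩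
      · rw [hΓv v hv, (htop x (by linarith) (by linarith)).2 v]
        exact ⟨fun h8 => Or.inr h8, fun h8 => h8.resolve_left hv⟩
    refine h5.grow st3.grow ?_
    intro x h6 h7 h8
    rcases h8 with h8 | h8
    · exact h8 (hUU _ hY₁U)
    · rcases (hEf _ _).1 h8 with h9 | h9 | h9
      · linarith [h9.2.1]
      · exact hYne h9.1.symm
      · linarith [h9.2.2]
  · have h5 : Solo Γ₂ {c, z} true Xz Yc Y₁ := by
      intro x h6 h7 v
      by_cases hv : v = c
      · subst hv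
        rw [hΓc, hCt]
        exact ⟨fun _ => Or.inl rfl, fun _ => ⟨rfl, h6, h7⟩⟩
      · rw [hΓv v hv, (hzc x (by linarith) h7).2 v]
        exact ⟨fun h8 => Or.inr h8, fun h8 => h8.resolve_left hv⟩
    refine h5.grow st3.grow ?_
    intro x h6 h7 h8
    rcases h8 with h8 | h8
    · exact h8 (hUU _ hXzU)
    · linarith [((hEt _ _).1 h8).2.2]

/-- `pushStepX` without the last statements. -/
theorem pushStep {G : SimpleGraph V} {P : V → Cov → Prop} {Γ : Dr V} {U : Bool → Finset ℚ}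
    {D : Cov} {z : V} {Xz h A B : ℚ} {W : List (Rec V)} {a0 : V} {X0 u : ℚ}
    {L : List (Rec V)} {b0 : V} {Y0 yu : ℚ} {J : Finset V} {c : V} (hw : Wd G Γ U)
    (hD : Adm U D) (hM : MSt P Γ U D z Xz h A B W a0 X0 u L b0 Y0 yu)
    (hnd : (z :: (rv W ++ a0 :: (rv L ++ [b0]))).Nodup)
    (hc : Undrawn Γ c) (hcn : c ∉ z :: (rv W ++ a0 :: (rv L ++ [b0])))
    (hP : ∀ C, IsPath3 C → P c C) (hcz : G.Adj c z) (hcb : G.Adj c (topv L b0))
    (hJ : ∀ v ∈ J, Undrawn Γ v ∧ v ∉ c :: z :: (rv W ++ a0 :: (rv L ++ [b0])))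
    (hf : FillT G {topv L b0, c, z} J) :
    ∃ Γ' U' h' A' B' r l₀ l₁, r.v = c ∧ r.pl = true ∧ r.t = topc L Y0 ∧
      Step G Γ U D {v | v = c ∨ v ∈ J ∨ v ∈ rv L} Γ' U' ∧
      MSt P Γ' U' (D \ seg false (topc L Y0) l₀ l₁) z Xz h' A' B' W a0 X0 u (r :: L) b0 Y0 yu ∧
      Filled G Γ' J ∧ Ov Γ' c z ∧ Ov Γ' c (topv L b0) ∧ l₀ < l₁ ∧ l₁ ≤ A' ∧
      Solo Γ' {c, topv L b0} false (topc L Y0) l₀ l₁ := by
  obtain ⟨Γ', U', h', A', B', r, l₀, l₁, h1, h2, h3, h4, h5, h6, h7, h8, h9, h10, h11, -⟩ :=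
    pushStepX hw hD hM hnd hc hcn hP hcz hcb hJ hf
  exact ⟨Γ', U', h', A', B', r, l₀, l₁, h1, h2, h3, h4, h5, h6, h7, h8, h9, h10, h11⟩

end EPG26
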