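import Pool.Agent.W_26e041_h61.GeoB

/-!
Symmetries of drawings: exchange of the two coordinates, reflection of the second coordinate.
-/

namespace EPG26

variable {V : Type*} [DecidableEq V]

/-- exchange of horizontal and vertical -/
def swp {α : Type*} (f : Bool → α) : Bool → α := fun o => f (!o)

/-- exchange of horizontal and vertical for a drawing -/
def swD (Γ : Dr V) : Dr V := fun v => swp (Γ v)

/-- exchange of horizontal and vertical for a finishing property -/
def swP (P : V → Cov → Prop) : V → Cov → Prop := fun v C => P v (swp C)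

/-- reflection of the second coordinate: positions on vertical lines and coordinates of horizontal
lines change their sign -/
def fly (C : Cov) : Cov := fun o l => if o then {x | -x ∈ C true l} else C false (-l)

/-- reflection for a drawing -/
def flD (Γ : Dr V) : Dr V := fun v => fly (Γ v)

/-- reflection for a finishing property -/
def flP (P : V → Cov → Prop) : V → Cov → Prop := fun v C => P v (fly C)

/-- reflection for sets of lines -/
def flU (U : Bool → Finset ℚ) : Bool → Finset ℚ :=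
  fun o => if o then U true else (U false).image (fun x => -x)

@[simp] theorem swp_swp {α : Type*} (f : Bool → α) : swp (swp f) = f := by
  funext o
  simp only [swp, Bool.not_not]

@[simp] theorem swD_swD (Γ : Dr V) : swD (swD Γ) = Γ := by
  funext v
  exact swp_swp (Γ v)

@[simp] theorem swP_swP (P : V → Cov → Prop) : swP (swP P) = P := by
  funext v C
  simp only [swP, swp_swp]

@[simp] theorem fly_fly (C : Cov) : fly (fly C) = C := by
  funext o l
  cases o
  · simp [fly]
  · simp [fly]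

@[simp] theorem flD_flD (Γ : Dr V) : flD (flD Γ) = Γ := by
  funext v
  exact fly_fly (Γ v)

@[simp] theorem flP_flP (P : V → Cov → Prop) : flP (flP P) = P := by
  funext v C
  simp only [flP, fly_fly]

@[simp] theorem flU_flU (U : Bool → Finset ℚ) : flU (flU U) = U := by
  funext o
  cases o
  · simp [flU, Finset.image_image, Function.comp_def]
  · simp [flU]

theorem GeoS_zig_not : ∀ (l : List ℚ) (o o' : Bool) (l' : ℚ),
    zig (!o) l o' l' = zig o l (!o') l'
  | a :: b :: c :: t, o, o', l' => by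
      have h := GeoS_zig_not (b :: c :: t) (!o) o' l'
      show seg (!o) b a c o' l' ∪ zig (!(!o)) (b :: c :: t) o' l' =
        seg o b a c (!o') l' ∪ zig (!o) (b :: c :: t) (!o') l'
      rw [h]
      congr 1
      ext x
      cases o <;> cases o' <;> simp [seg]
  | [], o, o', l' => rfl
  | [_], o, o', l' => rfl
  | [_, _], o, o', l' => rfl

theorem GeoS_path_swp {C : Cov} (h : IsPath3 C) : IsPath3 (swp C) := by
  obtain ⟨o, l, h1, h2, h3, h4, h5⟩ := h
  refine ⟨!o, l, h1, h2, h3, h4, ?_⟩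
  intro o' l' x
  rw [GeoS_zig_not]
  exact h5 (!o') l' x

/-- Use the same list with the other orientation. -/
theorem IsPath3.swp {C : Cov} : IsPath3 (swp C) ↔ IsPath3 C := by
  constructor
  · intro h
    have h2 := GeoS_path_swp h
    rwa [swp_swp] at h2
  · exact GeoS_path_swp

theorem GeoS_fly_seg_h (l a b : ℚ) : fly (seg false l a b) = seg false (-l) a b := by
  funext o l'
  ext x
  cases o
  · simp only [fly, seg, Set.mem_setOf_eq, Bool.false_eq_true, if_false, true_and]
    rw [neg_eq_iff_eq_neg]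
  · simp [fly, seg]

theorem GeoS_fly_seg_v (l a b : ℚ) : fly (seg true l a b) = seg true l (-a) (-b) := by
  funext o l'
  ext x
  cases o
  · simp [fly, seg]
  · simp only [fly, seg, Set.mem_setOf_eq, if_true, true_and, min_neg_neg, max_neg_neg]
    constructor
    · rintro ⟨h1, h2, h3⟩
      exact ⟨h1, by linarith, by linarith⟩
    · rintro ⟨h1, h2, h3⟩
      exact ⟨h1, by linarith, by linarith⟩

/-- the list of the reflected path -/
def GeoS_flz : Bool → List ℚ → List ℚ
  | _, [] => []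
  | o, a :: t => (if o then -a else a) :: GeoS_flz (!o) t

theorem GeoS_flz_length : ∀ (l : List ℚ) (o : Bool), (GeoS_flz o l).length = l.length
  | [], o => rfl
  | a :: t, o => by
      simp only [GeoS_flz, List.length_cons, GeoS_flz_length t (!o)]

theorem GeoS_fly_union (A B : Cov) : fly (fun o l => A o l ∪ B o l) =
    fun o l => fly A o l ∪ fly B o l := by
  funext o l
  cases o
  · simp [fly]
  · ext x
    simp [fly]

theorem GeoS_zig_flz : ∀ (l : List ℚ) (o : Bool), zig o (GeoS_flz o l) = fly (zig o l)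
  | a :: b :: c :: t, o => by
      have h := GeoS_zig_flz (b :: c :: t) (!o)
      have e1 : zig o (a :: b :: c :: t) =
        fun o' l' => seg o b a c o' l' ∪ zig (!o) (b :: c :: t) o' l' := rfl
      rw [e1, GeoS_fly_union, ← h]
      cases o
      · rw [GeoS_fly_seg_h]
        rfl
      · rw [GeoS_fly_seg_v]
        rfl
  | [], o => by
      funext o' l'
      cases o' <;> simp [GeoS_flz, zig, fly]
  | [_], o => by
      funext o' l'
      cases o' <;> simp [GeoS_flz, zig, fly]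
  | [_, _], o => by
      funext o' l'
      cases o' <;> simp [GeoS_flz, zig, fly]

theorem GeoS_flz_nd : ∀ (l : List ℚ) (o : Bool), ZigNd l → ZigNd (GeoS_flz o l)
  | a :: b :: c :: t, o, h => by
      have h2 := GeoS_flz_nd (b :: c :: t) (!o) h.2
      refine ⟨?_, h2⟩
      intro e
      apply h.1
      cases o
      · simpa using e
      · simpa using e
  | [], o, h => by simp [GeoS_flz, ZigNd]
  | [_], o, h => by simp [GeoS_flz, ZigNd]
  | [_, _], o, h => by simp [GeoS_flz, ZigNd]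

theorem GeoS_flz_simple (o : Bool) (l : List ℚ) (h : ZigSimple l) (hl : l.length ≤ 6) :
    ZigSimple (GeoS_flz o l) := by
  match l, h, hl with
  | [], _, _ => simp [GeoS_flz, ZigSimple]
  | [_], _, _ => simp [GeoS_flz, ZigSimple]
  | [_, _], _, _ => simp [GeoS_flz, ZigSimple]
  | [_, _, _], _, _ => simp [GeoS_flz, ZigSimple]
  | [_, _, _, _], _, _ => simp [GeoS_flz, ZigSimple]
  | [_, _, _, _, _], _, _ => simp [GeoS_flz, ZigSimple]
  | [a0, a1, a2, a3, a4, a5], h, _ =>
      have h' : ¬ (min a0 a2 ≤ a4 ∧ a4 ≤ max a0 a2 ∧ min a3 a5 ≤ a1 ∧ a1 ≤ max a3 a5) := h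
      cases o
      · show ¬ (min a0 a2 ≤ a4 ∧ a4 ≤ max a0 a2 ∧ min (-a3) (-a5) ≤ -a1 ∧ -a1 ≤ max (-a3) (-a5))
        rintro ⟨h1, h2, h3, h4⟩
        rw [min_neg_neg, neg_le_neg_iff] at h3
        rw [max_neg_neg, neg_le_neg_iff] at h4
        exact h' ⟨h1, h2, h4, h3⟩
      · show ¬ (min (-a0) (-a2) ≤ -a4 ∧ -a4 ≤ max (-a0) (-a2) ∧ min a3 a5 ≤ a1 ∧ a1 ≤ max a3 a5)
        rintro ⟨h1, h2, h3, h4⟩
        rw [min_neg_neg, neg_le_neg_iff] at h1
        rw [max_neg_neg, neg_le_neg_iff] at h2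
        exact h' ⟨h2, h1, h3, h4⟩
  | _ :: _ :: _ :: _ :: _ :: _ :: _ :: _, _, hl =>
      simp only [List.length_cons] at hl
      omega

theorem GeoS_path_fly {C : Cov} (h : IsPath3 C) : IsPath3 (fly C) := by
  obtain ⟨o, l, h1, h2, h3, h4, h5⟩ := h
  refine ⟨o, GeoS_flz o l, ?_, ?_, GeoS_flz_nd l o h3, GeoS_flz_simple o l h4 h2, ?_⟩
  · rw [GeoS_flz_length]; exact h1
  · rw [GeoS_flz_length]; exact h2
  · have hC : C = zig o l := by
      funext o' l'
      ext x
      exact h5 o' l' x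
    intro o' l' x
    rw [GeoS_zig_flz, hC]

/-- Change the signs of the entries of the list which are second coordinates (for `o = false` the
entries number 1, 3, 5, for `o = true` the entries number 0, 2, 4). -/
theorem IsPath3.fly {C : Cov} : IsPath3 (fly C) ↔ IsPath3 C := by
  constructor
  · intro h
    have h2 := GeoS_path_fly h
    rwa [fly_fly] at h2
  · exact GeoS_path_fly

theorem GeoS_ov_sw {Γ : Dr V} {u v : V} (h : Ov (swD Γ) u v) : Ov Γ u v := by
  obtain ⟨o, l, x, h1, h2⟩ := h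
  exact ⟨!o, l, x, h1, h2⟩

theorem GeoS_ov_fl {Γ : Dr V} {u v : V} (h : Ov (flD Γ) u v) : Ov Γ u v := by
  obtain ⟨o, l, x, h1, h2⟩ := h
  cases o
  · exact ⟨false, -l, x, h1, h2⟩
  · exact ⟨true, l, -x, h1, h2⟩

theorem Ov.sw {Γ : Dr V} {u v : V} : Ov (swD Γ) u v ↔ Ov Γ u v := by
  constructor
  · exact GeoS_ov_sw
  · intro h
    rw [← swD_swD Γ] at h
    exact GeoS_ov_sw h

theorem Ov.fl {Γ : Dr V} {u v : V} : Ov (flD Γ) u v ↔ Ov Γ u v := by
  constructor
  · exact GeoS_ov_fl
  · intro h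
    rw [← flD_flD Γ] at h
    exact GeoS_ov_fl h

theorem GeoS_un_sw {Γ : Dr V} {v : V} (h : Undrawn (swD Γ) v) : Undrawn Γ v := by
  intro o l x hx
  apply h (!o) l x
  show x ∈ Γ v (!(!o)) l
  rw [Bool.not_not]
  exact hx

theorem GeoS_un_fl {Γ : Dr V} {v : V} (h : Undrawn (flD Γ) v) : Undrawn Γ v := by
  intro o l x hx
  cases o
  · apply h false (-l) x
    show x ∈ Γ v false (- -l)
    rw [neg_neg]
    exact hx
  · apply h true l (-x)
    show - -x ∈ Γ v true l
    rw [neg_neg]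
    exact hx

theorem Undrawn.sw {Γ : Dr V} {v : V} : Undrawn (swD Γ) v ↔ Undrawn Γ v := by
  constructor
  · exact GeoS_un_sw
  · intro h
    rw [← swD_swD Γ] at h
    exact GeoS_un_sw h

theorem Undrawn.fl {Γ : Dr V} {v : V} : Undrawn (flD Γ) v ↔ Undrawn Γ v := by
  constructor
  · exact GeoS_un_fl
  · intro h
    rw [← flD_flD Γ] at h
    exact GeoS_un_fl h

theorem Filled.sw {G : SimpleGraph V} {Γ : Dr V} {J : Finset V} :
    Filled G (swD Γ) J ↔ Filled G Γ J := by
  show (∀ v ∈ J, IsPath3 (swp (Γ v)) ∧ ∀ w, G.Adj v w → Ov (swD Γ) v w) ↔ _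
  simp only [IsPath3.swp, Ov.sw]
  rfl

theorem Filled.fl {G : SimpleGraph V} {Γ : Dr V} {J : Finset V} :
    Filled G (flD Γ) J ↔ Filled G Γ J := by
  show (∀ v ∈ J, IsPath3 (fly (Γ v)) ∧ ∀ w, G.Adj v w → Ov (flD Γ) v w) ↔ _
  simp only [IsPath3.fly, Ov.fl]
  rfl

theorem GeoS_wd_sw {G : SimpleGraph V} {Γ : Dr V} {U : Bool → Finset ℚ}
    (h : Wd G (swD Γ) (swp U)) : Wd G Γ U := by
  refine ⟨?_, ?_⟩
  · intro v o l x hx
    have h1 := h.lines v (!o) l x (by
      show x ∈ Γ v (!(!o)) l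
      rw [Bool.not_not]
      exact hx)
    have h2 : l ∈ U (!(!o)) := h1
    rwa [Bool.not_not] at h2
  · intro u v huv hov
    exact h.sound u v huv (Ov.sw.2 hov)

theorem GeoS_mem_flU {U : Bool → Finset ℚ} {l : ℚ} : l ∈ flU U false ↔ -l ∈ U false := by
  show l ∈ (U false).image (fun x => -x) ↔ _
  rw [Finset.mem_image]
  constructor
  · rintro ⟨a, ha, rfl⟩
    rwa [neg_neg]
  · intro h
    exact ⟨-l, h, neg_neg l⟩

theorem GeoS_wd_fl {G : SimpleGraph V} {Γ : Dr V} {U : Bool → Finset ℚ}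
    (h : Wd G (flD Γ) (flU U)) : Wd G Γ U := by
  refine ⟨?_, ?_⟩
  · intro v o l x hx
    cases o
    · have h1 := h.lines v false (-l) x (by
        show x ∈ Γ v false (- -l)
        rw [neg_neg]
        exact hx)
      rw [GeoS_mem_flU, neg_neg] at h1
      exact h1
    · exact h.lines v true l (-x) (by
        show - -x ∈ Γ v true l
        rw [neg_neg]
        exact hx)
  · intro u v huv hov
    exact h.sound u v huv (Ov.fl.2 hov)

theorem Wd.sw {G : SimpleGraph V} {Γ : Dr V} {U : Bool → Finset ℚ} :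
    Wd G (swD Γ) (swp U) ↔ Wd G Γ U := by
  constructor
  · exact GeoS_wd_sw
  · intro h
    rw [← swD_swD Γ, ← swp_swp U] at h
    exact GeoS_wd_sw h

theorem Wd.fl {G : SimpleGraph V} {Γ : Dr V} {U : Bool → Finset ℚ} :
    Wd G (flD Γ) (flU U) ↔ Wd G Γ U := by
  constructor
  · exact GeoS_wd_fl
  · intro h
    rw [← flD_flD Γ, ← flU_flU U] at h
    exact GeoS_wd_fl h

theorem GeoS_adm_sw {U : Bool → Finset ℚ} {D : Cov} (h : Adm (swp U) (swp D)) : Adm U D := by
  intro o l x hx
  have h1 := h (!o) l (a := x) (by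
    show l ∉ U (!(!o))
    rw [Bool.not_not]
    exact hx)
  have h2 : x ∈ D (!(!o)) l := h1
  rwa [Bool.not_not] at h2

theorem GeoS_adm_fl {U : Bool → Finset ℚ} {D : Cov} (h : Adm (flU U) (fly D)) : Adm U D := by
  intro o l x hx
  cases o
  · have h1 := h false (-l) (a := x) (by
      show -l ∉ flU U false
      rw [GeoS_mem_flU, neg_neg]
      exact hx)
    have h2 : x ∈ D false (- -l) := h1
    rwa [neg_neg] at h2
  · have h1 := h true l (a := -x) hx
    have h2 : - -x ∈ D true l := h1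
    rwa [neg_neg] at h2

theorem Adm.sw {U : Bool → Finset ℚ} {D : Cov} : Adm (swp U) (swp D) ↔ Adm U D := by
  constructor
  · exact GeoS_adm_sw
  · intro h
    rw [← swp_swp U, ← swp_swp D] at h
    exact GeoS_adm_sw h

theorem Adm.fl {U : Bool → Finset ℚ} {D : Cov} : Adm (flU U) (fly D) ↔ Adm U D := by
  constructor
  · exact GeoS_adm_fl
  · intro h
    rw [← flU_flU U, ← fly_fly D] at h
    exact GeoS_adm_fl h

theorem GeoS_grow_sw {Γ Γ' : Dr V} {D : Cov} {K : Set V}
    (h : Grow (swD Γ) (swD Γ') (swp D) K) : Grow Γ Γ' D K := by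
  have key : ∀ (A : Cov) (o : Bool) (l : ℚ), swp A (!o) l = A o l := by
    intro A o l
    show A (!(!o)) l = A o l
    rw [Bool.not_not]
  refine ⟨?_, ?_⟩
  · intro v o l x hx
    have h1 := h.mono v (!o) l x (by
      show x ∈ swp (Γ v) (!o) l
      rw [key]
      exact hx)
    have h2 : x ∈ swp (Γ' v) (!o) l := h1
    rwa [key] at h2
  · intro v o l x hx
    have h1 := h.new v (!o) l x (by
      show x ∈ swp (Γ' v) (!o) l
      rw [key]
      exact hx)
    have h2 : x ∈ swp (Γ v) (!o) l ∨ (v ∈ K ∧ x ∈ swp D (!o) l) := h1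
    rwa [key, key] at h2

theorem GeoS_grow_fl {Γ Γ' : Dr V} {D : Cov} {K : Set V}
    (h : Grow (flD Γ) (flD Γ') (fly D) K) : Grow Γ Γ' D K := by
  refine ⟨?_, ?_⟩
  · intro v o l x hx
    cases o
    · have h1 := h.mono v false (-l) x (by
        show x ∈ Γ v false (- -l)
        rw [neg_neg]
        exact hx)
      have h2 : x ∈ Γ' v false (- -l) := h1
      rwa [neg_neg] at h2
    · have h1 := h.mono v true l (-x) (by
        show - -x ∈ Γ v true l
        rw [neg_neg]
        exact hx)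
      have h2 : - -x ∈ Γ' v true l := h1
      rwa [neg_neg] at h2
  · intro v o l x hx
    cases o
    · have h1 := h.new v false (-l) x (by
        show x ∈ Γ' v false (- -l)
        rw [neg_neg]
        exact hx)
      have h2 : x ∈ Γ v false (- -l) ∨ (v ∈ K ∧ x ∈ D false (- -l)) := h1
      rwa [neg_neg] at h2
    · have h1 := h.new v true l (-x) (by
        show - -x ∈ Γ' v true l
        rw [neg_neg]
        exact hx)
      have h2 : - -x ∈ Γ v true l ∨ (v ∈ K ∧ - -x ∈ D true l) := h1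
      rwa [neg_neg] at h2

theorem Grow.sw {Γ Γ' : Dr V} {D : Cov} {K : Set V} :
    Grow (swD Γ) (swD Γ') (swp D) K ↔ Grow Γ Γ' D K := by
  constructor
  · exact GeoS_grow_sw
  · intro h
    rw [← swD_swD Γ, ← swD_swD Γ', ← swp_swp D] at h
    exact GeoS_grow_sw h

theorem Grow.fl {Γ Γ' : Dr V} {D : Cov} {K : Set V} :
    Grow (flD Γ) (flD Γ') (fly D) K ↔ Grow Γ Γ' D K := by
  constructor
  · exact GeoS_grow_fl
  · intro h
    rw [← flD_flD Γ, ← flD_flD Γ', ← fly_fly D] at h
    exact GeoS_grow_fl h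

theorem GeoS_step_sw {G : SimpleGraph V} {Γ Γ' : Dr V} {U U' : Bool → Finset ℚ} {D : Cov}
    {K : Set V} (h : Step G (swD Γ) (swp U) (swp D) K (swD Γ') (swp U')) :
    Step G Γ U D K Γ' U' := by
  refine ⟨?_, Wd.sw.1 h.wd, Grow.sw.1 h.grow⟩
  intro o
  have h1 := h.sub (!o)
  have h2 : U (!(!o)) ⊆ U' (!(!o)) := h1
  rwa [Bool.not_not] at h2

theorem GeoS_step_fl {G : SimpleGraph V} {Γ Γ' : Dr V} {U U' : Bool → Finset ℚ} {D : Cov}
    {K : Set V} (h : Step G (flD Γ) (flU U) (fly D) K (flD Γ') (flU U')) :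
    Step G Γ U D K Γ' U' := by
  refine ⟨?_, Wd.fl.1 h.wd, Grow.fl.1 h.grow⟩
  intro o
  cases o
  · intro l hl
    have h0 : -l ∈ flU U false := by
      rw [GeoS_mem_flU, neg_neg]
      exact hl
    have h1 := h.sub false h0
    rwa [GeoS_mem_flU, neg_neg] at h1
  · exact h.sub true

theorem Step.sw {G : SimpleGraph V} {Γ Γ' : Dr V} {U U' : Bool → Finset ℚ} {D : Cov}
    {K : Set V} : Step G (swD Γ) (swp U) (swp D) K (swD Γ') (swp U') ↔ Step G Γ U D K Γ' U' := by
  constructor
  · exact GeoS_step_sw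
  · intro h
    rw [← swD_swD Γ, ← swD_swD Γ', ← swp_swp D, ← swp_swp U, ← swp_swp U'] at h
    exact GeoS_step_sw h

theorem Step.fl {G : SimpleGraph V} {Γ Γ' : Dr V} {U U' : Bool → Finset ℚ} {D : Cov}
    {K : Set V} : Step G (flD Γ) (flU U) (fly D) K (flD Γ') (flU U') ↔ Step G Γ U D K Γ' U' := by
  constructor
  · exact GeoS_step_fl
  · intro h
    rw [← flD_flD Γ, ← flD_flD Γ', ← fly_fly D, ← flU_flU U, ← flU_flU U'] at h
    exact GeoS_step_fl h

theorem Solo.sw {Γ : Dr V} {S : Set V} {o : Bool} {l a b : ℚ} :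
    Solo (swD Γ) S o l a b ↔ Solo Γ S (!o) l a b := by
  exact Iff.rfl

/-- vertical lines -/
theorem Solo.flv {Γ : Dr V} {S : Set V} {l a b : ℚ} :
    Solo (flD Γ) S true l a b ↔ Solo Γ S true l (-b) (-a) := by
  constructor
  · intro h x h1 h2 v
    have h3 := h (-x) (by linarith) (by linarith) v
    have h4 : - -x ∈ Γ v true l ↔ v ∈ S := h3
    rwa [neg_neg] at h4
  · intro h x h1 h2 v
    exact h (-x) (by linarith) (by linarith) v

/-- horizontal lines -/
theorem Solo.flh {Γ : Dr V} {S : Set V} {l a b : ℚ} :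
    Solo (flD Γ) S false l a b ↔ Solo Γ S false (-l) a b := by
  exact Iff.rfl

theorem SW.sw {Γ : Dr V} {D : Cov} {S : Set V} {o : Bool} {l a b : ℚ} :
    SW (swD Γ) (swp D) S o l a b ↔ SW Γ D S (!o) l a b := by
  exact Iff.rfl

theorem SW.flv {Γ : Dr V} {D : Cov} {S : Set V} {l a b : ℚ} :
    SW (flD Γ) (fly D) S true l a b ↔ SW Γ D S true l (-b) (-a) := by
  constructor
  · intro h x h1 h2
    have h3 := h (-x) (by linarith) (by linarith)
    have h4 : - -x ∈ D true l ∧ ∀ v, - -x ∈ Γ v true l ↔ v ∈ S := h3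
    rwa [neg_neg] at h4
  · intro h x h1 h2
    exact h (-x) (by linarith) (by linarith)

theorem SW.flh {Γ : Dr V} {D : Cov} {S : Set V} {l a b : ℚ} :
    SW (flD Γ) (fly D) S false l a b ↔ SW Γ D S false (-l) a b := by
  exact Iff.rfl

theorem GeoS_swp_seg (o : Bool) (l a b : ℚ) : swp (seg o l a b) = seg (!o) l a b := by
  funext o' l'
  ext x
  cases o <;> cases o' <;> simp [seg, swp]

theorem GeoS_swp_hseg (o : Bool) (l a b : ℚ) : swp (hseg o l a b) = hseg (!o) l a b := by
  funext o' l'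
  ext x
  cases o <;> cases o' <;> simp [hseg, swp]

theorem GeoS_swp_cseg (o : Bool) (l a b : ℚ) : swp (cseg o l a b) = cseg (!o) l a b := by
  funext o' l'
  ext x
  cases o <;> cases o' <;> simp [cseg, swp]

theorem GeoS_swp_mono {A B : Cov} (h : A ≤ B) : swp A ≤ swp B := fun o => h (!o)

theorem GeoS_pay_sw {P : Cov → Prop} {C : Cov} {o : Bool} {c g s hi : ℚ} {E : ℚ → Cov}
    (h : Pay (fun C => P (swp C)) (swp C) o c g s hi E) :
    Pay P C (!o) c g s hi (fun Y => swp (E Y)) := by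
  intro Y h1 h2
  obtain ⟨C', a1, a2, a3, a4, a5⟩ := h Y h1 h2
  refine ⟨swp C', a1, ?_, ?_, ?_, ?_⟩
  · have := GeoS_swp_mono a2
    rwa [swp_swp] at this
  · have := GeoS_swp_mono a3
    rwa [GeoS_swp_hseg] at this
  · have := GeoS_swp_mono a4
    rwa [GeoS_swp_seg] at this
  · have := GeoS_swp_mono a5
    have e : swp (swp C ⊔ hseg o c s Y ⊔ seg (!o) Y g c ⊔ E Y) =
        C ⊔ hseg (!o) c s Y ⊔ seg (!(!o)) Y g c ⊔ swp (E Y) := by
      rw [← GeoS_swp_hseg, ← GeoS_swp_seg (!o)]
      conv_rhs => rw [← swp_swp C]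
      rfl
    rwa [e] at this

theorem GeoS_pend_sw {P : V → Cov → Prop} {Γ : Dr V} {U : Bool → Finset ℚ} {D : Cov} {o : Bool}
    {s hi : ℚ} {r : Rec V} (h : Pend (swP P) (swD Γ) (swp U) (swp D) o s hi r) :
    Pend P Γ U D (!o) s hi r := by
  refine ⟨h.hc, h.hg, h.gc, h.line, h.gap, ?_, ?_, h.own⟩
  · have h1 := GeoS_pay_sw h.pay
    simp only [GeoS_swp_cseg] at h1
    exact h1
  · intro hp
    obtain ⟨h1, h2, h3⟩ := h.plain hp
    refine ⟨h1, h2, ?_⟩
    intro g' hg'
    exact GeoS_pay_sw (h3 g' hg')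

theorem GeoS_pend_sw' {P : V → Cov → Prop} {Γ : Dr V} {U : Bool → Finset ℚ} {D : Cov} {o : Bool}
    {s hi : ℚ} {r : Rec V} (h : Pend P Γ U D (!o) s hi r) :
    Pend (swP P) (swD Γ) (swp U) (swp D) o s hi r := by
  have h1 : Pend (swP (swP P)) (swD (swD Γ)) (swp (swp U)) (swp (swp D)) (!o) s hi r := by
    rw [swP_swP, swD_swD, swp_swp, swp_swp]
    exact h
  have h2 := GeoS_pend_sw h1
  rwa [Bool.not_not] at h2

theorem Pend.sw {P : V → Cov → Prop} {Γ : Dr V} {U : Bool → Finset ℚ} {D : Cov} {o : Bool}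
    {s hi : ℚ} {r : Rec V} :
    Pend (swP P) (swD Γ) (swp U) (swp D) o s hi r ↔ Pend P Γ U D (!o) s hi r := by
  constructor
  · exact GeoS_pend_sw
  · exact GeoS_pend_sw'

/-- Exchange of the roles of white and black. -/
theorem NSt.sw {P : V → Cov → Prop} {Γ : Dr V} {U : Bool → Finset ℚ} {D : Cov} {A B : ℚ}
    {W : List (Rec V)} {a0 : V} {X0 u : ℚ} {L : List (Rec V)} {b0 : V} {Y0 yu : ℚ} :
    NSt (swP P) (swD Γ) (swp U) (swp D) B A L b0 Y0 yu W a0 X0 u ↔
      NSt P Γ U D A B W a0 X0 u L b0 Y0 yu := by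
  constructor
  · intro h
    refine ⟨h.ordB, h.ordW, h.hyY, h.huX, ?_, ?_, h.bbase, h.wbase⟩
    · intro r hr
      obtain ⟨s, hs, hp⟩ := h.black r hr
      exact ⟨s, hs, Pend.sw.1 hp⟩
    · intro r hr
      obtain ⟨s, hs, hp⟩ := h.white r hr
      exact ⟨s, hs, Pend.sw.1 hp⟩
  · intro h
    refine ⟨h.ordB, h.ordW, h.hyY, h.huX, ?_, ?_, h.bbase, h.wbase⟩
    · intro r hr
      obtain ⟨s, hs, hp⟩ := h.black r hr
      exact ⟨s, hs, Pend.sw.2 hp⟩
    · intro r hr
      obtain ⟨s, hs, hp⟩ := h.white r hr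
      exact ⟨s, hs, Pend.sw.2 hp⟩

theorem swp_sup {C C' : Cov} : swp (C ⊔ C') = swp C ⊔ swp C' := by
  rfl

theorem swp_sdiff {C C' : Cov} : swp (C \ C') = swp C \ swp C' := by
  rfl

theorem swp_seg {o : Bool} {l a b : ℚ} : swp (seg o l a b) = seg (!o) l a b := by
  exact GeoS_swp_seg o l a b

theorem swp_nl {U : Bool → Finset ℚ} : swp (nl U) = nl (swp U) := by
  rfl

theorem swp_le {C C' : Cov} : swp C ≤ swp C' ↔ C ≤ C' := by
  constructor
  · intro h
    have h2 := GeoS_swp_mono h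
    rwa [swp_swp, swp_swp] at h2
  · exact GeoS_swp_mono

theorem GeoS_fly_mono {A B : Cov} (h : A ≤ B) : fly A ≤ fly B := by
  intro o l x hx
  cases o
  · exact h false (-l) hx
  · exact h true l hx

theorem fly_le {C C' : Cov} : fly C ≤ fly C' ↔ C ≤ C' := by
  constructor
  · intro h
    have h2 := GeoS_fly_mono h
    rwa [fly_fly, fly_fly] at h2
  · exact GeoS_fly_mono

theorem fly_nl {U : Bool → Finset ℚ} : fly (nl U) = nl (flU U) := by
  funext o l
  ext x
  cases o
  · show -l ∉ U false ↔ l ∉ flU U false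
    rw [GeoS_mem_flU]
  · exact Iff.rfl

/-- The reflection of a horizontal segment. -/
theorem fly_seg_h {l a b : ℚ} : fly (seg false l a b) = seg false (-l) a b := by
  exact GeoS_fly_seg_h l a b

/-- The reflection of a vertical segment. -/
theorem fly_seg_v {l a b : ℚ} : fly (seg true l a b) = seg true l (-a) (-b) := by
  exact GeoS_fly_seg_v l a b

end EPG26
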