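import Pool.Agent.W_26e041_h61.GeoC1
import Pool.Agent.W_26e041_h61.GeoS

/-!
The geometric step T: the apex `x` of the first white and the first black vertex is adjacent to a
later black vertex.
-/

namespace EPG26

variable {V : Type*} [DecidableEq V]

/-- the region of points with first coordinate at most `p` and second coordinate at most `q` -/
def reg (p q : ℚ) : Cov :=
  fun o l => {x | if o then l ≤ p ∧ x ≤ q else x ≤ p ∧ l ≤ q}

/-- growth elsewhere for a plain record -/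
theorem GeoT_pl {P : V → Cov → Prop} {Γ Γ' : Dr V} {U U' : Bool → Finset ℚ} {D D₁ : Cov}
    {K : Set V} {o : Bool} {s hi : ℚ} {r : Rec V} (h : Pend P Γ U D o s hi r) (hpl : r.pl = true)
    (hg : Grow Γ Γ' D₁ K) (hU : ∀ o, U o ⊆ U' o) (hv : r.v ∉ K)
    (h1 : ∀ x, s ≤ x → x < hi → x ∉ D₁ o r.c) : Pend P Γ' U' D o s hi r := by
  refine h.grow hg hU hv h1 fun x hx hx' => ?_
  exact absurd ((h.plain hpl).2.1) (not_lt.2 (hx.trans hx'))

/-- the first black vertex covers its line up to `h` -/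
theorem GeoT_prep {G : SimpleGraph V} {P : V → Cov → Prop} {Γ : Dr V} {U : Bool → Finset ℚ}
    {D : Cov} {A lo : ℚ} {X0 u : ℚ} {L : List (Rec V)} {b0 : V} {Y0 yu : ℚ} {h : ℚ}
    (hw : Wd G Γ U) (hord : OrdL lo L yu) (hyY : yu ≤ Y0) (huX : u ≤ X0)
    (hblack : ∀ r ∈ L, ∃ s ≤ A, Pend P Γ U D false s X0 r) (hpl : ∀ r ∈ L, r.pl = true)
    (hbb : SW Γ D {b0} false Y0 A u) (hL : (rv L).Nodup) (hAh : A < h) (hhu : h < u) :
    ∃ (Γ₁ : Dr V) (D₁ : Cov) (K₁ : Set V), Step G Γ U D₁ K₁ Γ₁ U ∧ D₁ ≤ D ∧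
      (∀ v ∈ K₁, v ∈ rv L) ∧ (∀ o l x, x ∈ D₁ o l → o = false ∧ l = topc L Y0 ∧ x < h) ∧
      (∀ x, A < x → x < h → x ∈ D false (topc L Y0) ∧
        ∀ w, x ∈ Γ₁ w false (topc L Y0) ↔ w = topv L b0) ∧
      (∀ r' ∈ L, ∃ s ≤ h, Pend P Γ₁ U D false s X0 r' ∧
        (topc L Y0 < r'.c ∨ (r'.c = topc L Y0 ∧ h ≤ s))) ∧
      topc L Y0 ∈ U false ∧ lo < topc L Y0 ∧ topc L Y0 ≤ Y0 := by
  cases L with
  | nil =>
    refine ⟨Γ, ⊥, ∅, Step.refl hw _ _, bot_le, fun v hv => absurd hv (Set.notMem_empty v),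
      fun o l x hx => absurd hx (Set.notMem_empty x), fun x hx1 hx2 => hbb x hx1 (hx2.trans hhu),
      fun r' hr' => absurd hr' List.not_mem_nil, ?_, ?_, le_rfl⟩
    · exact hbb.mem (Set.mem_singleton _) hw.lines (hAh.trans hhu)
    · exact hord.lt.trans_le hyY
  | cons r₁ L' =>
    obtain ⟨s₁, hs₁, hp⟩ := hblack r₁ List.mem_cons_self
    obtain ⟨hB1, hB2, hB3⟩ := hord
    have hX : h ≤ X0 := hhu.le.trans huX
    have hs₁h : s₁ ≤ h := hs₁.trans hAh.le
    obtain ⟨Γ₁, hst, hp1, hD1, hcov⟩ := Pend.commit hw hp hs₁h hX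
    have hLn : r₁.v ∉ rv L' := (List.nodup_cons.1 hL).1
    refine ⟨Γ₁, hseg false r₁.c s₁ h, {r₁.v}, hst, hD1, ?_, ?_, ?_, ?_, hp.hc, hB1.trans hB2,
      hB3.lt.le.trans hyY⟩
    · intro v hv
      rw [Set.mem_singleton_iff] at hv
      rw [hv]
      exact List.mem_cons_self
    · intro o l x hx
      exact ⟨hx.1, hx.2.1, hx.2.2.2⟩
    · intro x hx1 hx2
      exact ⟨(hp.line x (hs₁.trans hx1.le) (hx2.trans_le hX)).1,
        hcov x (hs₁.trans hx1.le) hx2⟩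
    · intro r' hr'
      rcases List.mem_cons.1 hr' with h1 | h1
      · subst h1
        exact ⟨h, le_rfl, hp1, Or.inr ⟨rfl, le_rfl⟩⟩
      · obtain ⟨s, hs, hps⟩ := hblack r' hr'
        obtain ⟨h2, h3, h4⟩ := hB3.mem h1
        refine ⟨s, hs.trans hAh.le, ?_, Or.inl (h2.trans h3)⟩
        refine GeoT_pl hps (hpl r' hr') hst.grow (fun _ => subset_rfl) ?_ ?_
        · intro h5
          rw [Set.mem_singleton_iff] at h5
          exact hLn (h5 ▸ List.mem_map_of_mem h1)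
        · intro x _ _ hx
          exact (h2.trans h3).ne' hx.2.1

/-- the drawn part of the apex -/
def GeoT_C (Yj Xx xh Y₁ xJ : ℚ) : Cov :=
  seg false Yj Xx xh ⊔ seg true Xx Y₁ Yj ⊔ seg false Y₁ Xx xJ

theorem GeoT_C_false {Yj Xx xh Y₁ xJ l p : ℚ} (h1 : Xx < xh) (h2 : Xx < xJ) :
    p ∈ GeoT_C Yj Xx xh Y₁ xJ false l ↔
      (l = Yj ∧ Xx < p ∧ p < xh) ∨ (l = Y₁ ∧ Xx < p ∧ p < xJ) := by
  constructor
  · rintro ((⟨-, hl, ha, hb⟩ | ⟨h, -⟩) | ⟨-, hl, ha, hb⟩)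
    · rw [min_eq_left h1.le] at ha
      rw [max_eq_right h1.le] at hb
      exact Or.inl ⟨hl, ha, hb⟩
    · exact absurd h (by decide)
    · rw [min_eq_left h2.le] at ha
      rw [max_eq_right h2.le] at hb
      exact Or.inr ⟨hl, ha, hb⟩
  · rintro (⟨hl, ha, hb⟩ | ⟨hl, ha, hb⟩)
    · refine Or.inl (Or.inl ⟨rfl, hl, ?_, ?_⟩)
      · rw [min_eq_left h1.le]; exact ha
      · rw [max_eq_right h1.le]; exact hb
    · refine Or.inr ⟨rfl, hl, ?_, ?_⟩
      · rw [min_eq_left h2.le]; exact ha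
      · rw [max_eq_right h2.le]; exact hb

theorem GeoT_C_true {Yj Xx xh Y₁ xJ l p : ℚ} (h1 : Y₁ < Yj) :
    p ∈ GeoT_C Yj Xx xh Y₁ xJ true l ↔ l = Xx ∧ Y₁ < p ∧ p < Yj := by
  constructor
  · rintro ((⟨h, -⟩ | ⟨-, hl, ha, hb⟩) | ⟨h, -⟩)
    · exact absurd h (by decide)
    · rw [min_eq_left h1.le] at ha
      rw [max_eq_right h1.le] at hb
      exact ⟨hl, ha, hb⟩
    · exact absurd h (by decide)
  · rintro ⟨hl, ha, hb⟩
    refine Or.inl (Or.inr ⟨rfl, hl, ?_, ?_⟩)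
    · rw [min_eq_left h1.le]; exact ha
    · rw [max_eq_right h1.le]; exact hb

theorem GeoT_seg {o : Bool} {l a b : ℚ} (h : a < b) {o' : Bool} {l' p : ℚ} :
    p ∈ seg o l a b o' l' ↔ o' = o ∧ l' = l ∧ a < p ∧ p < b := by
  constructor
  · rintro ⟨h1, h2, h3, h4⟩
    rw [min_eq_left h.le] at h3
    rw [max_eq_right h.le] at h4
    exact ⟨h1, h2, h3, h4⟩
  · rintro ⟨h1, h2, h3, h4⟩
    refine ⟨h1, h2, ?_, ?_⟩
    · rw [min_eq_left h.le]; exact h3
    · rw [max_eq_right h.le]; exact h4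

/-- where the drawing changes -/
def GeoT_R (U : Bool → Finset ℚ) (ac ag Y₁ Yj xJ : ℚ) : Cov :=
  fun o l => {p | l ∉ U o ∨ (o = true ∧ (l = ac ∨ l = ag)) ∨
    (o = false ∧ (l = Y₁ ∨ l = Yj) ∧ p < xJ)}

/-- Steps 2-5 of the drawing. -/
theorem GeoT_core {G : SimpleGraph V} {P : V → Cov → Prop} {Γ : Dr V} {U : Bool → Finset ℚ}
    {D : Cov} {A B X0 Y0 sa sb : ℚ} {ra rb : Rec V} {y x : V} {J : Finset V}
    {Yj Xx xh Xp h xJ yst I₁ sx : ℚ} (hw : Wd G Γ U) (hD : Adm U D)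
    (pa : Pend P Γ U D true sa Y0 ra) (pb : Pend P Γ U D false sb X0 rb) (hpl : rb.pl = true)
    (hsa : sa ≤ B) (hsb : sb ≤ A)
    (hy : ∀ p, A < p → p < xJ → p ∈ D false Yj ∧ ∀ w, p ∈ Γ w false Yj ↔ w = y)
    (hYjU : Yj ∈ U false)
    (h1 : A < Xx) (h2 : Xx < xh) (h3 : xh < ra.g) (h4 : ra.g < Xp) (h5 : Xp < ra.c)
    (h6 : ra.c < h) (h7 : h < xJ) (h8 : xJ < X0)
    (k1 : B < yst) (k2 : yst < I₁) (k3 : I₁ < sx) (k4 : sx < rb.c) (k5 : rb.c < Yj)
    (k6 : Yj ≤ Y0) (hXx : Xx ∉ U true) (hXp : Xp ∉ U true)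
    (hx : Undrawn Γ x) (hJ : ∀ v ∈ J, Undrawn Γ v) (hJx : x ∉ J) (hJa : ra.v ∉ J)
    (hJb : rb.v ∉ J) (hab : G.Adj ra.v rb.v) (hxa : G.Adj x ra.v)
    (hxb : G.Adj x rb.v) (hxy : G.Adj x y) (hf : FillT G {rb.v, ra.v, x} J) :
    ∃ Γ₁ U₁, Step G Γ U D {v | v = x ∨ v = ra.v ∨ v = rb.v ∨ v ∈ J} Γ₁ U₁ ∧
      Grow Γ Γ₁ (GeoT_R U ra.c ra.g rb.c Yj xJ) {v | v = x ∨ v = ra.v ∨ v = rb.v ∨ v ∈ J} ∧
      sx ∈ U₁ false ∧ Xx ∈ U₁ true ∧ Filled G Γ₁ J ∧ P ra.v (Γ₁ ra.v) ∧ P rb.v (Γ₁ rb.v) ∧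
      Γ₁ x = GeoT_C Yj Xx xh rb.c xJ ∧
      Ov Γ₁ ra.v rb.v ∧ Ov Γ₁ x ra.v ∧ Ov Γ₁ x rb.v ∧ Ov Γ₁ x y ∧
      Solo Γ₁ {x, y} false Yj Xx xh ∧ Solo Γ₁ {y} false Yj A Xx ∧
      Solo Γ₁ {rb.v} false rb.c A Xx ∧ Solo Γ₁ {x} false rb.c ra.c h ∧
      (∀ p, xJ ≤ p → p < X0 → ∀ w, p ∉ Γ₁ w false rb.c) ∧
      Solo Γ₁ {x} true Xx rb.c Yj ∧ Solo Γ₁ {ra.v} true ra.c I₁ rb.c := by
  have hab' : ra.v ≠ rb.v := hab.ne
  have hxa' : x ≠ ra.v := hxa.ne
  have hxb' : x ≠ rb.v := hxb.ne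
  have hxy' : x ≠ y := hxy.ne
  have hgc := pa.gc
  have hcU := pa.hc
  have hgU := pa.hg
  have hYU := pb.hc
  have hysY : yst < rb.c := by linarith
  have hxJ1 : Xx < xJ := by linarith
  -- step 2
  obtain ⟨Γ₂, st2', hPb, hb1, hb2', hDb⟩ := Pend.finishPlain (Y := Xp) (g' := yst) hw pb hpl
    (by linarith) (by linarith) hysY.ne
    (fun p _ _ w _ hp => absurd (hw.lines _ _ _ _ hp) hXp)
  have st2 : Step G Γ U (hseg false rb.c sb Xp ⊔ seg true Xp yst rb.c) {rb.v} Γ₂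
      (addL U true Xp) := st2'
  have hb2 : ∀ p, yst < p → p < rb.c → p ∈ Γ₂ rb.v true Xp := by
    intro p hp1 hp2
    refine hb2' p ?_ ?_
    · rw [min_eq_left hysY.le]; exact hp1
    · rw [max_eq_right hysY.le]; exact hp2
  have r2f : ∀ l p, p ∈ (hseg false rb.c sb Xp ⊔ seg true Xp yst rb.c : Cov) false l →
      l = rb.c ∧ sb ≤ p ∧ p < Xp := by
    rintro l p (hp | hp)
    · exact ⟨hp.2.1, hp.2.2.1, hp.2.2.2⟩
    · exact absurd hp.1 (by decide)
  have r2t : ∀ l p, p ∈ (hseg false rb.c sb Xp ⊔ seg true Xp yst rb.c : Cov) true l →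
      l = Xp := by
    rintro l p (hp | hp)
    · exact absurd hp.1 (by decide)
    · exact hp.2.1
  have pa2 : Pend P Γ₂ (addL U true Xp) D true sa Y0 ra := by
    refine pa.grow st2.grow st2.sub hab' (fun p _ _ hp => ?_) (fun p _ _ hp => ?_)
    · exact h5.ne' (r2t _ _ hp)
    · exact h4.ne (r2t _ _ hp)
  have hY2 : ∀ p, Xp ≤ p → p < X0 → ∀ w, p ∉ Γ₂ w false rb.c := by
    intro p hp1 hp2 w hp
    rcases st2.grow.new w false rb.c p hp with hp3 | hp3
    · have hp4 := (pb.line p (by linarith) hp2).2 w hp3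
      rw [hp4] at hp3
      exact pb.own p (by linarith) hp2 hp3
    · exact absurd (r2f _ _ hp3.2).2.2 (not_lt.2 hp1)
  have hXp2 : Solo Γ₂ {rb.v} true Xp yst rb.c := by
    intro p hp1 hp2 w
    constructor
    · intro hp
      rcases st2.grow.new w true Xp p hp with hp3 | hp3
      · exact absurd (hw.lines _ _ _ _ hp3) hXp
      · exact hp3.1
    · intro hp
      rw [Set.mem_singleton_iff.1 hp]
      exact hb2 p hp1 hp2
  -- step 3
  obtain ⟨Γ₃, st3', hPa, ha1, ha2', hDa⟩ := Pend.finish (Y := rb.c) st2.wd pa2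
    (by linarith) (by linarith) (mem_addL.2 (Or.inl hYU)) (by
      intro p hp1 hp2 w _ hp
      rcases lt_or_ge p Xp with hlt | hge
      · rw [(hb1 p (by linarith) hlt w).1 hp]
        exact hab
      · exact absurd hp (hY2 p hge (by linarith) w))
  have st3 : Step G Γ₂ (addL U true Xp) (hseg true ra.c sa rb.c ⊔ seg false rb.c ra.g ra.c ⊔
      cseg true ra.g rb.c ra.e) {ra.v} Γ₃ (addL U true Xp) := st3'
  have r3f : ∀ l p, p ∈ (hseg true ra.c sa rb.c ⊔ seg false rb.c ra.g ra.c ⊔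
      cseg true ra.g rb.c ra.e : Cov) false l → l = rb.c ∧ ra.g < p ∧ p < ra.c := by
    rintro l p ((hp | hp) | hp)
    · exact absurd hp.1 (by decide)
    · exact ((GeoT_seg hgc).1 hp).2
    · exact absurd hp.1 (by decide)
  have r3t : ∀ l p, p ∈ (hseg true ra.c sa rb.c ⊔ seg false rb.c ra.g ra.c ⊔
      cseg true ra.g rb.c ra.e : Cov) true l → l = ra.c ∨ l = ra.g := by
    rintro l p ((hp | hp) | hp)
    · exact Or.inl hp.2.1
    · exact absurd hp.1 (by decide)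
    · exact Or.inr hp.2.1
  have ha2 : ∀ p, ra.g < p → p < ra.c → p ∈ Γ₃ ra.v false rb.c := ha2'
  have hY3a : ∀ p, sb ≤ p → p ≤ ra.g → ∀ w, p ∈ Γ₃ w false rb.c ↔ w = rb.v := by
    intro p hp1 hp2 w
    rw [← hb1 p hp1 (by linarith) w]
    constructor
    · intro hp
      rcases st3.grow.new w false rb.c p hp with hp3 | hp3
      · exact hp3
      · exact absurd (r3f _ _ hp3.2).2.1 (not_lt.2 hp2)
    · exact st3.grow.mono w false rb.c p
  have hY3b : ∀ p, ra.c ≤ p → p < X0 → ∀ w, p ∉ Γ₃ w false rb.c := by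
    intro p hp1 hp2 w hp
    rcases st3.grow.new w false rb.c p hp with hp3 | hp3
    · exact hY2 p (by linarith) hp2 w hp3
    · exact absurd (r3f _ _ hp3.2).2.2 (not_lt.2 hp1)
  have hY3c : ∀ p, sb ≤ p → p < X0 → ∀ w, p ∈ Γ₃ w false rb.c → w = rb.v ∨ w = ra.v := by
    intro p hp1 hp2 w hp
    rcases st3.grow.new w false rb.c p hp with hp3 | hp3
    · rcases lt_or_ge p Xp with hlt | hge
      · exact Or.inl ((hb1 p hp1 hlt w).1 hp3)
      · exact absurd hp3 (hY2 p hge hp2 w)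
    · exact Or.inr hp3.1
  have hY3d : ∀ p, sb ≤ p → p < Xp → p ∈ Γ₃ rb.v false rb.c := fun p hp1 hp2 =>
    st3.grow.mono _ _ _ _ ((hb1 p hp1 hp2 rb.v).2 rfl)
  have hXp3 : Solo Γ₃ {rb.v} true Xp yst rb.c := by
    refine hXp2.grow st3.grow (fun p _ _ hp => ?_)
    rcases r3t _ _ hp with hp | hp
    · exact h5.ne hp
    · exact h4.ne' hp
  have hx3 : Undrawn Γ₃ x := (hx.grow st2.grow hxb').grow st3.grow hxa'
  have hy3 : ∀ p, A < p → p < xJ → ∀ w, p ∈ Γ₃ w false Yj ↔ w = y := by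
    intro p hp1 hp2 w
    rw [← (hy p hp1 hp2).2 w]
    constructor
    · intro hp
      rcases st3.grow.new w false Yj p hp with hp3 | hp3
      · rcases st2.grow.new w false Yj p hp3 with hp4 | hp4
        · exact hp4
        · exact absurd (r2f _ _ hp4.2).1 k5.ne'
      · exact absurd (r3f _ _ hp3.2).1 k5.ne'
    · intro hp
      exact st3.grow.mono _ _ _ _ (st2.grow.mono _ _ _ _ hp)
  have hXxn : ∀ w p, p ∉ Γ₃ w true Xx := by
    intro w p hp
    rcases mem_addL.1 (st3.wd.lines _ _ _ _ hp) with hp1 | hp1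
    · exact hXx hp1
    · linarith [hp1.2]
  -- step 4
  set U3 : Bool → Finset ℚ := addL (addL (addL U true Xp) true Xx) false sx with hU3
  have hU23 : ∀ o, addL U true Xp o ⊆ U3 o := fun o p hp =>
    mem_addL.2 (Or.inl (mem_addL.2 (Or.inl hp)))
  have hUU3 : ∀ o, U o ⊆ U3 o := fun o p hp => hU23 o (mem_addL.2 (Or.inl hp))
  have hXx3 : Xx ∈ U3 true := mem_addL.2 (Or.inl (mem_addL.2 (Or.inr ⟨rfl, rfl⟩)))
  have hXp3' : Xp ∈ U3 true := hU23 true (mem_addL.2 (Or.inr ⟨rfl, rfl⟩))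
  have hsx3 : sx ∈ U3 false := mem_addL.2 (Or.inr ⟨rfl, rfl⟩)
  set C : Cov := GeoT_C Yj Xx xh rb.c xJ with hC
  have hCf : ∀ l p, p ∈ C false l ↔
      (l = Yj ∧ Xx < p ∧ p < xh) ∨ (l = rb.c ∧ Xx < p ∧ p < xJ) := fun l p =>
    GeoT_C_false h2 hxJ1
  have hCt : ∀ l p, p ∈ C true l ↔ l = Xx ∧ rb.c < p ∧ p < Yj := fun l p => GeoT_C_true k5
  have st4 : Step G Γ₃ (addL U true Xp) C {x} (Function.update Γ₃ x C) U3 := by
    refine Step.draw st3.wd hU23 (fun o l p hp => absurd hp (hx3 o l p)) ?_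
      (fun o l p hp _ => hp) ?_
    · intro o l p hp
      cases o
      · rcases (hCf l p).1 hp with hp1 | hp1
        · rw [hp1.1]; exact hUU3 _ hYjU
        · rw [hp1.1]; exact hUU3 _ hYU
      · rw [((hCt l p).1 hp).1]; exact hXx3
    · intro o l p hp _ w hwx hpw
      cases o
      · rcases (hCf l p).1 hp with hp1 | hp1
        · rw [hp1.1] at hpw
          rw [(hy3 p (by linarith [hp1.2.1]) (by linarith [hp1.2.2]) w).1 hpw]
          exact hxy
        · rw [hp1.1] at hpw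
          rcases hY3c p (by linarith [hp1.2.1]) (by linarith [hp1.2.2]) w hpw with h9 | h9
          · rw [h9]; exact hxb
          · rw [h9]; exact hxa
      · rw [((hCt l p).1 hp).1] at hpw
        exact absurd hpw (hXxn w p)
  set Γ₄ : Dr V := Function.update Γ₃ x C with hΓ₄
  have hx4 : Γ₄ x = C := Function.update_self _ _ _
  have hne4 : ∀ w, w ≠ x → Γ₄ w = Γ₃ w := fun w hwx => Function.update_of_ne hwx _ _
  -- step 5
  have hsu : Solo Γ₄ {rb.v} true Xp yst rb.c := by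
    refine hXp3.grow st4.grow (fun p _ _ hp => ?_)
    linarith [((hCt _ _).1 hp).1]
  have hsv : Solo Γ₄ {ra.v} true ra.c yst rb.c := by
    have h9 : Solo Γ₃ {ra.v} true ra.c yst rb.c := fun p hp1 hp2 w =>
      ha1 p (by linarith) hp2 w
    refine h9.grow st4.grow (fun p _ _ hp => ?_)
    linarith [((hCt _ _).1 hp).1]
  have hsx : Solo Γ₄ {x} false rb.c ra.c xJ := by
    intro p hp1 hp2 w
    by_cases hwx : w = x
    · rw [hwx, hx4]
      exact ⟨fun _ => rfl, fun _ => (hCf _ _).2 (Or.inr ⟨rfl, by linarith, hp2⟩)⟩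
    · rw [hne4 w hwx]
      exact ⟨fun hp => absurd hp (hY3b p hp1.le (by linarith) w), fun hp => absurd hp hwx⟩
  have hsz : Solo Γ₄ {rb.v, x} false rb.c Xx ra.g := by
    intro p hp1 hp2 w
    by_cases hwx : w = x
    · rw [hwx, hx4]
      exact ⟨fun _ => Or.inr rfl, fun _ => (hCf _ _).2 (Or.inr ⟨rfl, hp1, by linarith⟩)⟩
    · rw [hne4 w hwx, hY3a p (by linarith) hp2.le w]
      constructor
      · intro hp; exact Or.inl hp
      · rintro (hp | hp)
        · exact hp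
        · exact absurd hp hwx
  have sock : SockR Γ₄ rb.v ra.v x true Xp ra.c yst I₁ rb.c h xJ :=
    ⟨k2, h7, fun p hp1 hp2 => hsu p hp1 (by linarith), fun p hp1 hp2 => hsv p hp1 (by linarith),
      fun p hp1 hp2 => hsx p (by linarith) hp2, h5.ne, Or.inr (by linarith)⟩
  have zone : ZoneO Γ₄ rb.v x true Xp ra.c h xJ rb.c Xx ra.g :=
    ⟨by linarith, hsz, Or.inl ⟨by linarith, by linarith, by linarith⟩,
      Or.inl ⟨h5, by linarith⟩⟩
  have hJ4 : ∀ v ∈ J, Undrawn Γ₄ v := by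
    intro v hv
    have v1 : v ≠ rb.v := fun h9 => hJb (h9 ▸ hv)
    have v2 : v ≠ ra.v := fun h9 => hJa (h9 ▸ hv)
    have v3 : v ≠ x := fun h9 => hJx (h9 ▸ hv)
    exact (((hJ v hv).grow st2.grow v1).grow st3.grow v2).grow st4.grow v3
  obtain ⟨Γ₅, U₅, st5', hfill⟩ := hf.om Γ₄ U3 rb.v ra.v x true Xp ra.c yst I₁ rb.c h xJ rb.c Xx
    ra.g rfl st4.wd hJ4 sock zone
  have st5 : Step G Γ₄ U3 (nl U3 ⊔ (seg true Xp yst I₁ ⊔ seg true ra.c yst I₁ ⊔
      seg false rb.c h xJ ⊔ seg false rb.c Xx ra.g)) (↑J) Γ₅ U₅ := st5'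
  have hXg : Xx < ra.g := by linarith
  have r5 : ∀ o l p, p ∈ (nl U3 ⊔ (seg true Xp yst I₁ ⊔ seg true ra.c yst I₁ ⊔
      seg false rb.c h xJ ⊔ seg false rb.c Xx ra.g) : Cov) o l → l ∉ U3 o ∨
      (o = true ∧ l = Xp) ∨ (o = true ∧ l = ra.c ∧ yst < p ∧ p < I₁) ∨
      (o = false ∧ l = rb.c ∧ h < p ∧ p < xJ) ∨ (o = false ∧ l = rb.c ∧ Xx < p ∧ p < ra.g) := by
    rintro o l p (hp | (((hp | hp) | hp) | hp))
    · exact Or.inl hp
    · exact Or.inr (Or.inl ⟨hp.1, hp.2.1⟩)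
    · exact Or.inr (Or.inr (Or.inl ((GeoT_seg k2).1 hp)))
    · exact Or.inr (Or.inr (Or.inr (Or.inl ((GeoT_seg h7).1 hp))))
    · exact Or.inr (Or.inr (Or.inr (Or.inr ((GeoT_seg hXg).1 hp))))
  have r5f : ∀ l p, l ∈ U3 false → l ≠ rb.c → p ∉ (nl U3 ⊔ (seg true Xp yst I₁ ⊔
      seg true ra.c yst I₁ ⊔ seg false rb.c h xJ ⊔ seg false rb.c Xx ra.g) : Cov) false l := by
    intro l p hl hl' hp
    rcases r5 _ _ _ hp with h9 | h9 | h9 | h9 | h9
    · exact h9 hl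
    · exact absurd h9.1 (by decide)
    · exact absurd h9.1 (by decide)
    · exact hl' h9.2.1
    · exact hl' h9.2.1
  have r5Y : ∀ p, (p ≤ Xx ∨ (ra.g ≤ p ∧ p ≤ h) ∨ xJ ≤ p) → p ∉ (nl U3 ⊔ (seg true Xp yst I₁ ⊔
      seg true ra.c yst I₁ ⊔ seg false rb.c h xJ ⊔ seg false rb.c Xx ra.g) : Cov) false
      rb.c := by
    intro p hp0 hp
    rcases r5 _ _ _ hp with h9 | h9 | h9 | h9 | h9
    · exact h9 (hUU3 _ hYU)
    · exact absurd h9.1 (by decide)
    · exact absurd h9.1 (by decide)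
    · obtain ⟨-, -, h10, h11⟩ := h9
      rcases hp0 with h12 | h12 | h12
      · linarith
      · linarith [h12.2]
      · linarith
    · obtain ⟨-, -, h10, h11⟩ := h9
      rcases hp0 with h12 | h12 | h12
      · linarith
      · linarith [h12.1]
      · linarith
  have K2 : ({rb.v} : Set V) ⊆ {v | v = x ∨ v = ra.v ∨ v = rb.v ∨ v ∈ J} := fun v hv =>
    Or.inr (Or.inr (Or.inl hv))
  have K3 : ({ra.v} : Set V) ⊆ {v | v = x ∨ v = ra.v ∨ v = rb.v ∨ v ∈ J} := fun v hv =>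
    Or.inr (Or.inl hv)
  have K4 : ({x} : Set V) ⊆ {v | v = x ∨ v = ra.v ∨ v = rb.v ∨ v ∈ J} := fun v hv => Or.inl hv
  have K5 : (↑J : Set V) ⊆ {v | v = x ∨ v = ra.v ∨ v = rb.v ∨ v ∈ J} := fun v hv =>
    Or.inr (Or.inr (Or.inr hv))
  have hYD : ∀ p, sb ≤ p → p < X0 → p ∈ D false rb.c := fun p hp1 hp2 => (pb.line p hp1 hp2).1
  refine ⟨Γ₅, U₅, ?_, ?_, st5.sub _ hsx3, st5.sub _ hXx3, hfill, ?_, ?_, ?_, ?_, ?_, ?_, ?_, ?_,
    ?_, ?_, ?_, ?_, ?_, ?_⟩
  · refine (st2.weaken ?_ K2).trans ((st3.weaken ?_ K3).trans ((st4.weaken ?_ K4).trans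
      (st5.weaken ?_ K5)))
    · refine sup_le hDb ?_
      intro o l p hp
      rw [((GeoT_seg hysY).1 hp).1, ((GeoT_seg hysY).1 hp).2.1]
      exact hD _ _ hXp
    · refine sup_le (sup_le ?_ ?_) ?_
      · exact le_trans le_sup_left hDa
      · intro o l p hp
        obtain ⟨q1, q2, q3, q4⟩ := (GeoT_seg hgc).1 hp
        rw [q1, q2]
        exact hYD p (by linarith) (by linarith)
      · exact le_trans le_sup_right hDa
    · intro o l p hp
      cases o
      · rcases (hCf l p).1 hp with hp1 | hp1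
        · rw [hp1.1]; exact (hy p (by linarith [hp1.2.1]) (by linarith [hp1.2.2])).1
        · rw [hp1.1]; exact hYD p (by linarith [hp1.2.1]) (by linarith [hp1.2.2])
      · rw [((hCt l p).1 hp).1]; exact hD _ _ hXx
    · intro o l p hp
      rcases r5 _ _ _ hp with h9 | h9 | h9 | h9 | h9
      · exact hD _ _ (fun h10 => h9 (hUU3 _ h10))
      · rw [h9.1, h9.2]; exact hD _ _ hXp
      · rw [h9.1, h9.2.1]
        exact (pa.line p (by linarith [h9.2.2.1]) (by linarith [h9.2.2.2])).1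
      · rw [h9.1, h9.2.1]
        exact hYD p (by linarith [h9.2.2.1]) (by linarith [h9.2.2.2])
      · rw [h9.1, h9.2.1]
        exact hYD p (by linarith [h9.2.2.1]) (by linarith [h9.2.2.2])
  · refine (st2.grow.weaken ?_ K2).trans ((st3.grow.weaken ?_ K3).trans ((st4.grow.weaken ?_
      K4).trans (st5.grow.weaken ?_ K5)))
    · intro o l p hp
      cases o
      · obtain ⟨q1, q2, q3⟩ := r2f l p hp
        exact Or.inr (Or.inr ⟨rfl, Or.inl q1, by linarith⟩)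
      · rw [r2t l p hp]
        exact Or.inl hXp
    · intro o l p hp
      cases o
      · obtain ⟨q1, q2, q3⟩ := r3f l p hp
        exact Or.inr (Or.inr ⟨rfl, Or.inl q1, by linarith⟩)
      · exact Or.inr (Or.inl ⟨rfl, r3t l p hp⟩)
    · intro o l p hp
      cases o
      · rcases (hCf l p).1 hp with hp1 | hp1
        · exact Or.inr (Or.inr ⟨rfl, Or.inr hp1.1, by linarith [hp1.2.2]⟩)
        · exact Or.inr (Or.inr ⟨rfl, Or.inl hp1.1, hp1.2.2⟩)
      · rw [((hCt l p).1 hp).1]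
        exact Or.inl hXx
    · intro o l p hp
      rcases r5 _ _ _ hp with h9 | h9 | h9 | h9 | h9
      · exact Or.inl (fun h10 => h9 (hUU3 _ h10))
      · rw [h9.1, h9.2]; exact Or.inl hXp
      · exact Or.inr (Or.inl ⟨h9.1, Or.inl h9.2.1⟩)
      · exact Or.inr (Or.inr ⟨h9.1, Or.inl h9.2.1, h9.2.2.2⟩)
      · exact Or.inr (Or.inr ⟨h9.1, Or.inl h9.2.1, by linarith [h9.2.2.2]⟩)
  · rw [st5.grow.eq (by exact_mod_cast hJa), hne4 _ hxa'.symm]
    exact hPa
  · rw [st5.grow.eq (by exact_mod_cast hJb), hne4 _ hxb'.symm, st3.grow.eq hab'.symm]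
    exact hPb
  · rw [st5.grow.eq (by exact_mod_cast hJx)]
    exact hx4
  · obtain ⟨p, hp1, hp2⟩ := exists_between h4
    refine ⟨false, rb.c, p, ?_, ?_⟩
    · refine st5.grow.mono _ _ _ _ ?_
      rw [hne4 _ hxa'.symm]
      exact ha2 p hp1 (by linarith)
    · refine st5.grow.mono _ _ _ _ ?_
      rw [hne4 _ hxb'.symm]
      exact hY3d p (by linarith) hp2
  · obtain ⟨p, hp1, hp2⟩ := exists_between h4
    refine ⟨false, rb.c, p, ?_, ?_⟩
    · refine st5.grow.mono _ _ _ _ ?_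
      rw [hx4]
      exact (hCf _ _).2 (Or.inr ⟨rfl, by linarith, by linarith⟩)
    · refine st5.grow.mono _ _ _ _ ?_
      rw [hne4 _ hxa'.symm]
      exact ha2 p hp1 (by linarith)
  · obtain ⟨p, hp1, hp2⟩ := exists_between h4
    refine ⟨false, rb.c, p, ?_, ?_⟩
    · refine st5.grow.mono _ _ _ _ ?_
      rw [hx4]
      exact (hCf _ _).2 (Or.inr ⟨rfl, by linarith, by linarith⟩)
    · refine st5.grow.mono _ _ _ _ ?_
      rw [hne4 _ hxb'.symm]
      exact hY3d p (by linarith) hp2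
  · obtain ⟨p, hp1, hp2⟩ := exists_between h2
    refine ⟨false, Yj, p, ?_, ?_⟩
    · refine st5.grow.mono _ _ _ _ ?_
      rw [hx4]
      exact (hCf _ _).2 (Or.inl ⟨rfl, hp1, hp2⟩)
    · refine st5.grow.mono _ _ _ _ ?_
      rw [hne4 _ hxy'.symm]
      exact (hy3 p (by linarith) (by linarith) y).2 rfl
  · have h9 : Solo Γ₄ {x, y} false Yj Xx xh := by
      intro p hp1 hp2 w
      by_cases hwx : w = x
      · rw [hwx, hx4]
        exact ⟨fun _ => Or.inl rfl, fun _ => (hCf _ _).2 (Or.inl ⟨rfl, hp1, hp2⟩)⟩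
      · rw [hne4 w hwx, hy3 p (by linarith) (by linarith) w]
        constructor
        · intro hp; exact Or.inr hp
        · rintro (hp | hp)
          · exact absurd hp hwx
          · exact hp
    exact h9.grow st5.grow (fun p _ _ => r5f _ _ (hUU3 _ hYjU) k5.ne')
  · have h9 : Solo Γ₄ {y} false Yj A Xx := by
      intro p hp1 hp2 w
      by_cases hwx : w = x
      · rw [hwx, hx4]
        constructor
        · intro hp
          rcases (hCf _ _).1 hp with hp3 | hp3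
          · linarith [hp3.2.1]
          · linarith [hp3.2.1]
        · intro hp
          exact absurd hp hxy'
      · rw [hne4 w hwx]
        exact hy3 p hp1 (by linarith) w
    exact h9.grow st5.grow (fun p _ _ => r5f _ _ (hUU3 _ hYjU) k5.ne')
  · have h9 : Solo Γ₄ {rb.v} false rb.c A Xx := by
      intro p hp1 hp2 w
      by_cases hwx : w = x
      · rw [hwx, hx4]
        constructor
        · intro hp
          rcases (hCf _ _).1 hp with hp3 | hp3
          · linarith [hp3.2.1]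
          · linarith [hp3.2.1]
        · intro hp
          exact absurd hp hxb'
      · rw [hne4 w hwx]
        exact hY3a p (by linarith) (by linarith) w
    exact h9.grow st5.grow (fun p _ hp2 => r5Y p (Or.inl hp2.le))
  · have h9 : Solo Γ₄ {x} false rb.c ra.c h := fun p hp1 hp2 => hsx p hp1 (by linarith)
    exact h9.grow st5.grow (fun p hp1 hp2 => r5Y p (Or.inr (Or.inl ⟨by linarith, hp2.le⟩)))
  · intro p hp1 hp2 w hp
    rcases st5.grow.new w false rb.c p hp with hp3 | hp3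
    · by_cases hwx : w = x
      · rw [hwx, hx4] at hp3
        rcases (hCf _ _).1 hp3 with hp4 | hp4
        · linarith [hp4.2.2]
        · linarith [hp4.2.2]
      · rw [hne4 w hwx] at hp3
        exact hY3b p (by linarith) hp2 w hp3
    · exact r5Y p (Or.inr (Or.inr hp1)) hp3.2
  · have h9 : Solo Γ₄ {x} true Xx rb.c Yj := by
      intro p hp1 hp2 w
      by_cases hwx : w = x
      · rw [hwx, hx4]
        exact ⟨fun _ => rfl, fun _ => (hCt _ _).2 ⟨rfl, hp1, hp2⟩⟩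
      · rw [hne4 w hwx]
        exact ⟨fun hp => absurd hp (hXxn w p), fun hp => absurd hp hwx⟩
    refine h9.grow st5.grow (fun p _ _ hp => ?_)
    rcases r5 _ _ _ hp with h9 | h9 | h9 | h9 | h9
    · exact h9 hXx3
    · linarith [h9.2]
    · linarith [h9.2.1]
    · exact absurd h9.1 (by decide)
    · exact absurd h9.1 (by decide)
  · have h9 : Solo Γ₄ {ra.v} true ra.c I₁ rb.c := fun p hp1 hp2 => hsv p (by linarith) hp2
    refine h9.grow st5.grow (fun p hp1 _ hp => ?_)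
    rcases r5 _ _ _ hp with h9 | h9 | h9 | h9 | h9
    · exact h9 (hUU3 _ hcU)
    · linarith [h9.2]
    · linarith [h9.2.2.2]
    · exact absurd h9.1 (by decide)
    · exact absurd h9.1 (by decide)

theorem GeoT_nd {va vb a0 b0 : V} {w l₁ l₂ : List V}
    (hnd : ((va :: w) ++ a0 :: ((vb :: (l₁ ++ l₂)) ++ [b0])).Nodup) :
    (∀ v ∈ w, v ≠ va ∧ v ≠ vb ∧ v ∉ l₂) ∧ (∀ v ∈ l₁, v ≠ va ∧ v ≠ vb ∧ v ∉ l₂) ∧
      (∀ v ∈ l₂, v ≠ va ∧ v ≠ vb) ∧ l₂.Nodup := by
  rw [List.nodup_append] at hnd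
  obtain ⟨n1, n2, n3⟩ := hnd
  rw [List.nodup_cons] at n1 n2
  obtain ⟨-, n4⟩ := n2
  rw [List.nodup_append] at n4
  obtain ⟨n5, -, -⟩ := n4
  rw [List.nodup_cons] at n5
  obtain ⟨n6, n7⟩ := n5
  rw [List.nodup_append] at n7
  obtain ⟨-, n8, n9⟩ := n7
  have e1 : ∀ v ∈ l₂, v ∈ a0 :: ((vb :: (l₁ ++ l₂)) ++ [b0]) := fun v hv =>
    List.mem_cons_of_mem _ (List.mem_append_left _ (List.mem_cons_of_mem _
      (List.mem_append_right _ hv)))
  have e2 : ∀ v ∈ l₁, v ∈ a0 :: ((vb :: (l₁ ++ l₂)) ++ [b0]) := fun v hv =>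
    List.mem_cons_of_mem _ (List.mem_append_left _ (List.mem_cons_of_mem _
      (List.mem_append_left _ hv)))
  have e3 : vb ∈ a0 :: ((vb :: (l₁ ++ l₂)) ++ [b0]) :=
    List.mem_cons_of_mem _ (List.mem_append_left _ List.mem_cons_self)
  refine ⟨fun v hv => ⟨?_, ?_, ?_⟩, fun v hv => ⟨?_, ?_, ?_⟩, fun v hv => ⟨?_, ?_⟩, n8⟩
  · rintro rfl
    exact n1.1 hv
  · exact n3 v (List.mem_cons_of_mem _ hv) vb e3
  · intro h
    exact n3 v (List.mem_cons_of_mem _ hv) v (e1 v h) rfl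
  · exact (n3 va List.mem_cons_self v (e2 v hv)).symm
  · rintro rfl
    exact n6 (List.mem_append_left _ hv)
  · intro h
    exact n9 v hv v h rfl
  · exact (n3 va List.mem_cons_self v (e1 v hv)).symm
  · rintro rfl
    exact n6 (List.mem_append_right _ hv)

/-- the final path of the apex -/
theorem GeoT_path {Yj Xx xh Y₁ xJ Y g : ℚ} (h1 : Xx < xh) (h2 : xh < xJ) (h3 : Y₁ < Yj)
    (hY : xJ < Y) (hg : g ≠ Y₁) : ∃ C' : Cov, IsPath3 C' ∧ GeoT_C Yj Xx xh Y₁ xJ ≤ C' ∧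
      hseg false Y₁ xJ Y ≤ C' ∧ seg true Y g Y₁ ≤ C' ∧
      C' ≤ GeoT_C Yj Xx xh Y₁ xJ ⊔ hseg false Y₁ xJ Y ⊔ seg true Y g Y₁ := by
  have hXY : Xx < Y := by linarith
  refine ⟨zig false [xh, Yj, Xx, Y₁, Y, g], ⟨false, [xh, Yj, Xx, Y₁, Y, g], by simp, by simp,
    ⟨h1.ne', h3.ne', hXY.ne, hg.symm, trivial⟩, ?_, fun _ _ _ => Iff.rfl⟩, ?_, ?_, ?_, ?_⟩
  · rintro ⟨-, h5, -, -⟩
    rw [max_eq_left h1.le] at h5
    linarith
  · rintro o l p ((hp | hp) | hp)
    · obtain ⟨q1, q2, q3, q4⟩ := (GeoT_seg h1).1 hp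
      refine Or.inl ⟨q1, q2, ?_, ?_⟩
      · rw [min_eq_right h1.le]; exact q3
      · rw [max_eq_left h1.le]; exact q4
    · obtain ⟨q1, q2, q3, q4⟩ := (GeoT_seg h3).1 hp
      refine Or.inr (Or.inl ⟨q1, q2, ?_, ?_⟩)
      · rw [min_eq_right h3.le]; exact q3
      · rw [max_eq_left h3.le]; exact q4
    · obtain ⟨q1, q2, q3, q4⟩ := (GeoT_seg (h1.trans h2)).1 hp
      refine Or.inr (Or.inr (Or.inl ⟨q1, q2, ?_, ?_⟩))
      · rw [min_eq_left hXY.le]; exact q3
      · rw [max_eq_right hXY.le]; exact q4.trans hY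
  · rintro o l p ⟨q1, q2, q3, q4⟩
    refine Or.inr (Or.inr (Or.inl ⟨q1, q2, ?_, ?_⟩))
    · rw [min_eq_left hXY.le]; linarith
    · rw [max_eq_right hXY.le]; exact q4
  · rintro o l p ⟨q1, q2, q3, q4⟩
    refine Or.inr (Or.inr (Or.inr (Or.inl ⟨q1, q2, ?_, ?_⟩)))
    · rw [min_comm]; exact q3
    · rw [max_comm]; exact q4
  · rintro o l p (hp | hp | hp | hp | hp)
    · obtain ⟨q1, q2, q3, q4⟩ := hp
      rw [min_eq_right h1.le] at q3
      rw [max_eq_left h1.le] at q4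
      exact Or.inl (Or.inl (Or.inl (Or.inl ((GeoT_seg h1).2 ⟨q1, q2, q3, q4⟩))))
    · obtain ⟨q1, q2, q3, q4⟩ := hp
      rw [min_eq_right h3.le] at q3
      rw [max_eq_left h3.le] at q4
      exact Or.inl (Or.inl (Or.inl (Or.inr ((GeoT_seg h3).2 ⟨q1, q2, q3, q4⟩))))
    · obtain ⟨q1, q2, q3, q4⟩ := hp
      rw [min_eq_left hXY.le] at q3
      rw [max_eq_right hXY.le] at q4
      rcases lt_or_ge p xJ with h5 | h5
      · exact Or.inl (Or.inl (Or.inr ((GeoT_seg (h1.trans h2)).2 ⟨q1, q2, q3, h5⟩)))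
      · exact Or.inl (Or.inr ⟨q1, q2, h5, q4⟩)
    · obtain ⟨q1, q2, q3, q4⟩ := hp
      rw [min_comm] at q3
      rw [max_comm] at q4
      exact Or.inr ⟨q1, q2, q3, q4⟩
    · exact absurd hp (Set.notMem_empty p)

/-- Step T. State: whites `ra :: W` (base `a0`), blacks `rb :: (L₁ ++ L₂)` (base `b0`), `rb.pl = true`.
Write `a = ra.v`, `b = rb.v`, `Y₁ = rb.c`, `y = topv L₂ b0` (a later black vertex, line
`Yj = topc L₂ Y0`). `x` is adjacent to `a, b, y`; `J` is the content of the face `{a, b, x}`.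

Coordinates (new ones by `exists_fresh`): `A < Xx < xh < ra.g < Xp < ra.c < h < xJ < topg W u`,
`B < yst < I₁ < sx < rb.g`, `Y₁ < Bp < topg (L₁ ++ L₂) yu` (so `Bp < Yj`, and `Bp <` the first gap of `L₁`).
Drawing:
1. if `L₂ = rj :: _`: `Pend.commit` for `rj` up to `xJ`.
2. `b`: `Pend.finishPlain` at `Xp` with `g' = yst` (the foot is on the new line `Xp`): `b` covers
   `[s, Xp)` of `Y₁` (`s ≤ A`) and `(yst, Y₁)` of `Xp`.
3. `a`: `Pend.finish` at `Y₁`: its foot `(ra.g, ra.c)` meets `b` on `(ra.g, Xp)`. `a` covers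
   `[s', Y₁)` of `ra.c`.
4. `x`: `Γ' x = seg false Yj Xx xh ⊔ seg true Xx Y₁ Yj ⊔ seg false Y₁ Xx xJ`; it meets `y` on `Yj`, `b` on
   `(Xx, Xp)` and `a` on `(ra.g, ra.c)` of `Y₁`, nothing else (line `Y₁` is private to `b` before).
5. Fill the face `{b, a, x}` in the om-socket with `o = true`, `u = b` (line `Xp`), `v = a` (line `ra.c`),
   window `(yst, I₁)`, `x` on the line `Y₁` with window `(h, xJ)` (beyond both columns), zone of `b`
   and `x`: `(C0, C1) = (Xx, ra.g)` on `X2 = Y₁`.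
New record `rx`: `v = x`, `c = Y₁`, `g = sx`, `e = A - 1`, `t = Yj`, `pl = true`, pending with
`s = xJ`: `C' = zig false [xh, Yj, Xx, Y₁, Y, g']`. Main state: `z = a`, `A' = xJ`, `B' = I₁`.
Link zone: `(Xx, xh)` of `Yj`, covered by `x` and `y` only.
Sub-state (exchange the coordinates): `z = b` with its line `Y₁`, whites of the exchanged state: `L₁`
and base `y` (line `Yj`), black base of the exchanged state: `x` (line `Xx`); `h = A = Bp`, `B = A`
(the old `A`), limits `Yj` and `Xx`. Check: `b` covers `(A, Xx)` of `Y₁` alone (`x` starts at `Xx`); `x`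
covers `(Y₁, Yj)` of `Xx` alone; `y` covers `(A, Xx)` of `Yj` alone; the records of `L₁` are pending
with `hi = Xx` (`Pend.mono_hi`).
The allowed set of the sub-state is `D ⊓ (nl U₁ ⊔ reg Xx Yj)`; growth there does not disturb the main
state: its white lines and `z`-column are at coordinates larger than `Xx`, the line of `x` and the
lines of `L₂` with coordinate `Yj` are used from `xJ > Xx` on, the other black lines have a
coordinate larger than `Yj`; all these lines are in `U₁`. The gap conditions of black records are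
empty because `r.e < s` for plain records. -/
theorem tStep {G : SimpleGraph V} {P : V → Cov → Prop} {Γ : Dr V} {U : Bool → Finset ℚ}
    {D : Cov} {A B : ℚ} {ra rb : Rec V} {W : List (Rec V)} {a0 : V} {X0 u : ℚ}
    {L₁ L₂ : List (Rec V)} {b0 : V} {Y0 yu : ℚ} {J : Finset V} {x : V} (hw : Wd G Γ U)
    (hD : Adm U D)
    (hN : NSt P Γ U D A B (ra :: W) a0 X0 u (rb :: (L₁ ++ L₂)) b0 Y0 yu)
    (hpl : ∀ r ∈ rb :: (L₁ ++ L₂), r.pl = true)
    (hnd : (rv (ra :: W) ++ a0 :: (rv (rb :: (L₁ ++ L₂)) ++ [b0])).Nodup)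
    (hx : Undrawn Γ x) (hxn : x ∉ rv (ra :: W) ++ a0 :: (rv (rb :: (L₁ ++ L₂)) ++ [b0]))
    (hP : ∀ C, IsPath3 C → P x C) (hab : G.Adj ra.v rb.v) (hxa : G.Adj x ra.v)
    (hxb : G.Adj x rb.v) (hxy : G.Adj x (topv L₂ b0))
    (hJ : ∀ v ∈ J, Undrawn Γ v ∧
      v ∉ x :: (rv (ra :: W) ++ a0 :: (rv (rb :: (L₁ ++ L₂)) ++ [b0])))
    (hf : FillT G {rb.v, ra.v, x} J) :
    ∃ Γ₁ U₁ rx A' B' h Bp Xx xh, rx.v = x ∧ rx.pl = true ∧ rx.t = topc L₂ Y0 ∧
      Step G Γ U D {v | v = x ∨ v = ra.v ∨ v = rb.v ∨ v ∈ J ∨ v ∈ rv L₂} Γ₁ U₁ ∧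
      Filled G Γ₁ J ∧ P ra.v (Γ₁ ra.v) ∧ P rb.v (Γ₁ rb.v) ∧
      Ov Γ₁ ra.v rb.v ∧ Ov Γ₁ x ra.v ∧ Ov Γ₁ x rb.v ∧ Ov Γ₁ x (topv L₂ b0) ∧
      Xx < xh ∧ xh ≤ A' ∧ Solo Γ₁ {x, topv L₂ b0} false (topc L₂ Y0) Xx xh ∧
      MSt (swP P) (swD Γ₁) (swp U₁) (swp (D ⊓ (nl U₁ ⊔ reg Xx (topc L₂ Y0)))) rb.v rb.c Bp Bp A
        L₁ (topv L₂ b0) (topc L₂ Y0) (topc L₂ Y0) [] x Xx Xx ∧
      ∀ Γ₂ U₂ K₂, Step G Γ₁ U₁ (D ⊓ (nl U₁ ⊔ reg Xx (topc L₂ Y0))) K₂ Γ₂ U₂ →
        (∀ v ∈ rv W, v ∉ K₂) → (∀ v ∈ rv L₂, v ∉ K₂) → x ∉ K₂ →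
        MSt P Γ₂ U₂ (D \ seg false (topc L₂ Y0) Xx xh) ra.v ra.c h A' B' W a0 X0 u (rx :: L₂)
          b0 Y0 yu := by
  obtain ⟨ndW, ndL₁, ndL₂, ndn⟩ := GeoT_nd (w := rv W) (l₁ := rv L₁) (l₂ := rv L₂) (by
    have h := hnd
    simp only [rv, List.map_cons, List.map_append] at h ⊢
    exact h)
  have memL : ∀ v, v ∈ rv L₂ → v ∈ rv (ra :: W) ++ a0 :: (rv (rb :: (L₁ ++ L₂)) ++ [b0]) := by
    intro v hv
    refine List.mem_append_right _ (List.mem_cons_of_mem _ (List.mem_append_left _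
      (List.mem_cons_of_mem _ ?_)))
    show v ∈ rv (L₁ ++ L₂)
    unfold rv
    rw [List.map_append]
    exact List.mem_append_right _ hv
  have memL₁ : ∀ v, v ∈ rv L₁ → v ∈ rv (ra :: W) ++ a0 :: (rv (rb :: (L₁ ++ L₂)) ++ [b0]) := by
    intro v hv
    refine List.mem_append_right _ (List.mem_cons_of_mem _ (List.mem_append_left _
      (List.mem_cons_of_mem _ ?_)))
    show v ∈ rv (L₁ ++ L₂)
    unfold rv
    rw [List.map_append]
    exact List.mem_append_left _ hv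
  have memW : ∀ v, v ∈ rv W → v ∈ rv (ra :: W) ++ a0 :: (rv (rb :: (L₁ ++ L₂)) ++ [b0]) :=
    fun v hv => List.mem_append_left _ (List.mem_cons_of_mem _ hv)
  have mema : ra.v ∈ rv (ra :: W) ++ a0 :: (rv (rb :: (L₁ ++ L₂)) ++ [b0]) :=
    List.mem_append_left _ List.mem_cons_self
  have memb : rb.v ∈ rv (ra :: W) ++ a0 :: (rv (rb :: (L₁ ++ L₂)) ++ [b0]) :=
    List.mem_append_right _ (List.mem_cons_of_mem _ (List.mem_append_left _
      List.mem_cons_self))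
  have hJn : ∀ v, v ∈ rv (ra :: W) ++ a0 :: (rv (rb :: (L₁ ++ L₂)) ++ [b0]) → v ∉ J :=
    fun v hv hvJ => (hJ v hvJ).2 (List.mem_cons_of_mem _ hv)
  have hJx : x ∉ J := fun h => (hJ x h).2 List.mem_cons_self
  have hxne : ∀ v, v ∈ rv (ra :: W) ++ a0 :: (rv (rb :: (L₁ ++ L₂)) ++ [b0]) → v ≠ x := by
    intro v hv h
    rw [h] at hv
    exact hxn hv
  -- coordinates
  have hW0 := hN.ordW
  obtain ⟨hAg, hgc, hWo⟩ := hW0
  have hB0 := hN.ordB
  obtain ⟨hBg, hgY, hLo⟩ := hB0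
  have htopW : ra.c < topg W u := by
    cases W with
    | nil => exact hWo
    | cons w W' => exact hWo.1
  have htu : topg W u ≤ u := by
    cases W with
    | nil => exact le_rfl
    | cons w W' => exact ((hWo.2.1).trans hWo.2.2.lt).le
  have htopL : rb.c < topg (L₁ ++ L₂) yu := by
    have h := hLo
    revert h
    cases L₁ ++ L₂ with
    | nil => exact fun h => h
    | cons w W' => exact fun h => h.1
  have hL₂ : rb.c < topg L₂ yu := hLo.left.lt
  have hL₂o : OrdL rb.c L₂ yu := hLo.right hL₂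
  have hgc₂ : topg L₂ yu ≤ topc L₂ Y0 := by
    cases L₂ with
    | nil => exact hN.hyY
    | cons r L' => exact hL₂o.2.1.le
  obtain ⟨Xx, x1, x2, hXx⟩ := exists_fresh U true hAg
  obtain ⟨xh, x3, x4⟩ := exists_between x2
  obtain ⟨Xp, x5, x6, hXp⟩ := exists_fresh U true hgc
  obtain ⟨h, x7, x8⟩ := exists_between htopW
  obtain ⟨xJ, x9, x10⟩ := exists_between x8
  obtain ⟨yst, y1, y2⟩ := exists_between hBg
  obtain ⟨I₁, y3, y4⟩ := exists_between y2
  obtain ⟨sx, y5, y6⟩ := exists_between y4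
  obtain ⟨Bp, z1, z2⟩ := exists_between htopL
  have huX := hN.huX
  have hyY := hN.hyY
  have hX0 : xJ < X0 := by linarith
  have hBpo : OrdL Bp (L₁ ++ L₂) yu := hLo.raise z2
  have hBp₁ : OrdL Bp L₁ (topc L₂ Y0) := hBpo.left.mono le_rfl hgc₂
  have hBpY : Bp < topc L₂ Y0 := hBp₁.lt
  -- step 1
  have hblack0 : ∀ r ∈ L₂, ∃ s ≤ A, Pend P Γ U D false s X0 r := fun r hr =>
    hN.black r (List.mem_cons_of_mem _ (List.mem_append_right _ hr))
  have hpl₂ : ∀ r ∈ L₂, r.pl = true := fun r hr =>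
    hpl r (List.mem_cons_of_mem _ (List.mem_append_right _ hr))
  have hpl₁ : ∀ r ∈ L₁, r.pl = true := fun r hr =>
    hpl r (List.mem_cons_of_mem _ (List.mem_append_left _ hr))
  obtain ⟨Γa, Da, Ka, sta, hDa, hKa, hDa', hline, hblk, hYjU, hYYj, hYj0⟩ :=
    GeoT_prep (h := xJ) hw hL₂o hyY huX hblack0 hpl₂ hN.bbase ndn (by linarith)
      (by linarith)
  obtain ⟨sa, hsa, pa⟩ := hN.white ra List.mem_cons_self
  obtain ⟨sb, hsb, pb⟩ := hN.black rb List.mem_cons_self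
  have hDat : ∀ l p, p ∉ Da true l := fun l p hp => absurd (hDa' _ _ _ hp).1 (by decide)
  have hDaf : ∀ l p, (l ≠ topc L₂ Y0 ∨ xJ ≤ p) → p ∉ Da false l := by
    intro l p h0 hp
    obtain ⟨-, q2, q3⟩ := hDa' _ _ _ hp
    rcases h0 with h0 | h0
    · exact h0 q2
    · exact absurd q3 (not_lt.2 h0)
  have haK : ra.v ∉ Ka := fun h0 => (ndL₂ _ (hKa _ h0)).1 rfl
  have hbK : rb.v ∉ Ka := fun h0 => (ndL₂ _ (hKa _ h0)).2 rfl
  have hxK : x ∉ Ka := fun h0 => hxne _ (memL _ (hKa _ h0)) rfl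
  have pa1 : Pend P Γa U D true sa Y0 ra := pa.grow sta.grow sta.sub haK
    (fun p _ _ => hDat _ p) (fun p _ _ => hDat _ p)
  have pb1 : Pend P Γa U D false sb X0 rb := GeoT_pl pb (hpl rb List.mem_cons_self) sta.grow
    sta.sub hbK (fun p _ _ => hDaf _ p (Or.inl hYYj.ne))
  have hJa' : ∀ v ∈ J, Undrawn Γa v := fun v hv =>
    (hJ v hv).1.grow sta.grow (fun h0 => hJn _ (memL _ (hKa _ h0)) hv)
  -- steps 2-5
  obtain ⟨Γe, Ue, stE, gE, hsxU, hXxU, hfill, hPa, hPb, hxE, o1, o2, o3, o4, S1, S2, S3, S4,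
    hfree, S5, S6⟩ := GeoT_core (A := A) (B := B) (Yj := topc L₂ Y0) (Xx := Xx) (xh := xh)
    (Xp := Xp) (h := h) (xJ := xJ) (yst := yst) (I₁ := I₁) (sx := sx) sta.wd hD pa1 pb1
    (hpl rb List.mem_cons_self) hsa hsb hline hYjU x1 x3 x4 x5 x6 x7 x9 hX0 y1 y3 y5
    (by linarith) hYYj hYj0 hXx hXp (hx.grow sta.grow hxK) hJa' hJx (hJn _ mema) (hJn _ memb)
    hab hxa hxb hxy hf
  have hUe : ∀ o, U o ⊆ Ue o := fun o p hp => stE.sub o (sta.sub o hp)
  have hR : ∀ o l p, p ∈ GeoT_R U ra.c ra.g rb.c (topc L₂ Y0) xJ o l → l ∉ U o ∨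
      (o = true ∧ (l = ra.c ∨ l = ra.g)) ∨
      (o = false ∧ (l = rb.c ∨ l = topc L₂ Y0) ∧ p < xJ) := fun o l p hp => hp
  refine ⟨Γe, Ue, ⟨x, rb.c, sx, A - 1, topc L₂ Y0, true⟩, xJ, I₁, h, Bp, Xx, xh, rfl, rfl, rfl,
    ?_, hfill, hPa, hPb, o1, o2, o3, o4, x3, by linarith, S1, ?_, ?_⟩
  · refine (sta.weaken hDa ?_).trans (stE.weaken le_rfl ?_)
    · intro v hv
      exact Or.inr (Or.inr (Or.inr (Or.inr (hKa v hv))))
    · rintro v (hv | hv | hv | hv)
      · exact Or.inl hv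
      · exact Or.inr (Or.inl hv)
      · exact Or.inr (Or.inr (Or.inl hv))
      · exact Or.inr (Or.inr (Or.inr (Or.inl hv)))
  · -- the sub-state
    have hreg_t : ∀ l p, l ≤ Xx → p ≤ topc L₂ Y0 → p ∈ reg Xx (topc L₂ Y0) true l :=
      fun l p q1 q2 => ⟨q1, q2⟩
    have hreg_f : ∀ l p, p ≤ Xx → l ≤ topc L₂ Y0 → p ∈ reg Xx (topc L₂ Y0) false l :=
      fun l p q1 q2 => ⟨q1, q2⟩
    have nst : NSt P Γe Ue (D ⊓ (nl Ue ⊔ reg Xx (topc L₂ Y0))) A Bp [] x Xx Xx L₁ (topv L₂ b0)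
        (topc L₂ Y0) (topc L₂ Y0) := by
      refine ⟨x1, hBp₁, le_rfl, le_rfl, fun r hr => absurd hr List.not_mem_nil, ?_, ?_, ?_⟩
      · intro r hr
        have hrv : r.v ∈ rv L₁ := List.mem_map_of_mem hr
        obtain ⟨s, hs, hp⟩ := hN.black r (List.mem_cons_of_mem _ (List.mem_append_left _ hr))
        have hm := hBp₁.mem hr
        have hp1 : Pend P Γa U D false s X0 r := GeoT_pl hp (hpl₁ r hr) sta.grow sta.sub
          (fun h0 => (ndL₁ _ hrv).2.2 (hKa _ h0)) (fun p _ _ => hDaf _ p (Or.inl hm.2.2.ne))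
        have hp2 : Pend P Γe Ue D false s X0 r := by
          refine GeoT_pl hp1 (hpl₁ r hr) gE stE.sub ?_ ?_
          · rintro (h0 | h0 | h0 | h0)
            · exact hxne _ (memL₁ _ hrv) h0
            · exact (ndL₁ _ hrv).1 h0
            · exact (ndL₁ _ hrv).2.1 h0
            · exact hJn _ (memL₁ _ hrv) h0
          · intro p _ _ h0
            rcases hR _ _ _ h0 with h0 | h0 | h0
            · exact h0 hp.hc
            · exact absurd h0.1 (by decide)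
            · rcases h0.2.1 with h0 | h0
              · linarith [hm.1, hm.2.1]
              · exact hm.2.2.ne h0
        refine ⟨s, hs, (hp2.mono_hi (by linarith)).mono_D ?_ ?_⟩
        · intro p _ q2 q3
          exact ⟨q3, Or.inr (hreg_f _ _ q2.le hm.2.2.le)⟩
        · intro p q1 q2 _
          exact absurd (hp.plain (hpl₁ r hr)).2.1 (not_lt.2 (q1.trans q2))
      · intro p q1 q2
        exact ⟨⟨hD _ _ hXx, Or.inr (hreg_t _ _ le_rfl q2.le)⟩, S5 p (by linarith) q2⟩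
      · intro p q1 q2
        exact ⟨⟨(hline p q1 (by linarith)).1, Or.inr (hreg_f _ _ q2.le le_rfl)⟩, S2 p q1 q2⟩
    refine ⟨NSt.sw.2 nst, z1, le_rfl, ?_, ?_⟩
    · refine SW.sw.2 ?_
      intro p q1 q2
      have q3 : p < Xx := q2
      exact ⟨⟨(pb.line p (by linarith) (by linarith)).1,
        Or.inr (hreg_f _ _ q3.le hYYj.le)⟩, S3 p q1 q3⟩
    · refine SW.sw.2 ?_
      intro p q1 q2
      exact ⟨⟨hD _ _ hXx, Or.inr (hreg_t _ _ le_rfl (by linarith))⟩, S5 p q1 (by linarith)⟩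
  · -- the main state
    intro Γ₂ U₂ K₂ st2 hW2 hL2 hx2
    have hU2 : ∀ o, U o ⊆ U₂ o := fun o p hp => st2.sub o (hUe o hp)
    have r2 : ∀ o l p, l ∈ Ue o →
        p ∈ (D ⊓ (nl Ue ⊔ reg Xx (topc L₂ Y0)) : Cov) o l → p ∈ reg Xx (topc L₂ Y0) o l := by
      rintro o l p hl ⟨-, hp | hp⟩
      · exact absurd hl hp
      · exact hp
    have r2t : ∀ l p, l ∈ Ue true → Xx < l →
        p ∉ (D ⊓ (nl Ue ⊔ reg Xx (topc L₂ Y0)) : Cov) true l := by
      intro l p hl hl' hp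
      have h0 : l ≤ Xx ∧ p ≤ topc L₂ Y0 := r2 _ _ _ hl hp
      linarith [h0.1]
    have r2f : ∀ l p, l ∈ Ue false → (Xx < p ∨ topc L₂ Y0 < l) →
        p ∉ (D ⊓ (nl Ue ⊔ reg Xx (topc L₂ Y0)) : Cov) false l := by
      intro l p hl hl' hp
      have h0 : p ≤ Xx ∧ l ≤ topc L₂ Y0 := r2 _ _ _ hl hp
      rcases hl' with h9 | h9
      · linarith [h0.1]
      · linarith [h0.2]
    have sgn : ∀ l p, (l ≠ topc L₂ Y0 ∨ xh ≤ p) → p ∉ seg false (topc L₂ Y0) Xx xh false l := by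
      intro l p h0 hp
      obtain ⟨-, q2, -, q4⟩ := (GeoT_seg x3).1 hp
      rcases h0 with h0 | h0
      · exact h0 q2
      · linarith
    have sgt : ∀ l p, p ∉ seg false (topc L₂ Y0) Xx xh true l := by
      intro l p hp
      exact absurd hp.1 (by decide)
    have hYUe : rb.c ∈ Ue false := hUe _ pb.hc
    refine ⟨⟨hWo.raise x10, ⟨y5, by show sx < rb.c; linarith, hL₂o⟩, huX, hyY, ?_, ?_, ?_, ?_⟩,
      x7, x9.le, ?_, ?_⟩
    · intro r hr
      have hrv : r.v ∈ rv W := List.mem_map_of_mem hr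
      obtain ⟨s, hs, hp⟩ := hN.white r (List.mem_cons_of_mem _ hr)
      have hm := hWo.mem hr
      have hp1 : Pend P Γa U D true s Y0 r := hp.grow sta.grow sta.sub
        (fun h0 => (ndW _ hrv).2.2 (hKa _ h0)) (fun p _ _ => hDat _ p) (fun p _ _ => hDat _ p)
      have hp2 : Pend P Γe Ue D true s Y0 r := by
        refine hp1.grow gE stE.sub ?_ ?_ ?_
        · rintro (h0 | h0 | h0 | h0)
          · exact hxne _ (memW _ hrv) h0
          · exact (ndW _ hrv).1 h0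
          · exact (ndW _ hrv).2.1 h0
          · exact hJn _ (memW _ hrv) h0
        · intro p _ _ h0
          rcases hR _ _ _ h0 with h0 | h0 | h0
          · exact h0 hp.hc
          · rcases h0.2 with h0 | h0
            · linarith [hm.1, hm.2.1]
            · linarith [hm.1, hm.2.1]
          · exact absurd h0.1 (by decide)
        · intro p _ _ h0
          rcases hR _ _ _ h0 with h0 | h0 | h0
          · exact h0 hp.hg
          · rcases h0.2 with h0 | h0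
            · linarith [hm.1, hm.2.1]
            · linarith [hm.1, hm.2.1]
          · exact absurd h0.1 (by decide)
      have hp3 : Pend P Γ₂ U₂ D true s Y0 r := by
        refine hp2.grow st2.grow st2.sub (hW2 _ hrv) ?_ ?_
        · intro p _ _
          exact r2t _ _ (hUe _ hp.hc) (by linarith [hm.1, hm.2.1])
        · intro p _ _
          exact r2t _ _ (hUe _ hp.hg) (by linarith [hm.1, hm.2.1])
      refine ⟨s, by linarith, hp3.mono_D ?_ ?_⟩
      · intro p _ _ q3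
        exact ⟨q3, sgt _ _⟩
      · intro p _ _ q3
        exact ⟨q3, sgt _ _⟩
    · intro r hr
      rcases List.mem_cons.1 hr with h0 | hr
      · subst h0
        have hxΓ : Γ₂ x = GeoT_C (topc L₂ Y0) Xx xh rb.c xJ := by
          rw [st2.grow.eq hx2]
          exact hxE
        have hpay : ∀ g', g' ≠ rb.c → ∀ E' : ℚ → Cov,
            Pay (P x) (Γ₂ x) false rb.c g' xJ X0 E' := by
          intro g' hg' E' Y q1 _
          obtain ⟨C', c1, c2, c3, c4, c5⟩ := GeoT_path x3 (by linarith) hYYj q1 hg'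
          rw [hxΓ]
          exact ⟨C', hP C' c1, c2, c3, c4, c5.trans le_sup_left⟩
        refine ⟨xJ, le_rfl, st2.sub _ hYUe, st2.sub _ hsxU, by show sx < rb.c; linarith, ?_, ?_,
          hpay sx (by linarith : sx < rb.c).ne _, ?_, ?_⟩
        · intro p q1 q2
          refine ⟨⟨(pb.line p (by linarith) q2).1, sgn _ _ (Or.inl hYYj.ne)⟩, fun w q3 => ?_⟩
          rcases st2.grow.new w false rb.c p q3 with q4 | q4
          · exact absurd q4 (hfree p q1 q2 w)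
          · exact absurd q4.2 (r2f _ _ hYUe (Or.inl (by linarith)))
        · intro p q1 q2
          have q3 : p ≤ A - 1 := q2
          exfalso
          linarith
        · intro _
          refine ⟨hYYj, ?_, fun g' hg' => hpay g' hg' _⟩
          show A - 1 < xJ
          linarith
        · intro p q1 q2 q3
          have q4 : p ∈ Γe x false rb.c := by
            rw [← st2.grow.eq hx2]
            exact q3
          exact hfree p q1 q2 x q4
      · have hrv : r.v ∈ rv L₂ := List.mem_map_of_mem hr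
        obtain ⟨s, hs, hp, hor⟩ := hblk r hr
        have hcY : topc L₂ Y0 ≤ r.c := by
          rcases hor with h0 | h0
          · exact h0.le
          · exact h0.1.ge
        have hp2 : Pend P Γe Ue D false s X0 r := by
          refine GeoT_pl hp (hpl₂ r hr) gE stE.sub ?_ ?_
          · rintro (h0 | h0 | h0 | h0)
            · exact hxne _ (memL _ hrv) h0
            · exact (ndL₂ _ hrv).1 h0
            · exact (ndL₂ _ hrv).2 h0
            · exact hJn _ (memL _ hrv) h0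
          · intro p q1 _ h0
            rcases hR _ _ _ h0 with h0 | h0 | h0
            · exact h0 hp.hc
            · exact absurd h0.1 (by decide)
            · rcases h0.2.1 with h9 | h9
              · linarith
              · rcases hor with h10 | h10
                · linarith
                · linarith [h0.2.2, h10.2]
        have hp3 : Pend P Γ₂ U₂ D false s X0 r := by
          refine GeoT_pl hp2 (hpl₂ r hr) st2.grow st2.sub (hL2 _ hrv) ?_
          intro p q1 _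
          refine r2f _ _ (hUe _ hp.hc) ?_
          rcases hor with h10 | h10
          · exact Or.inr h10
          · exact Or.inl (by linarith [h10.2])
        refine ⟨s, hs, hp3.mono_D ?_ ?_⟩
        · intro p q1 _ q3
          refine ⟨q3, sgn _ _ ?_⟩
          rcases hor with h10 | h10
          · exact Or.inl h10.ne'
          · exact Or.inr (by linarith [h10.2])
        · intro p q1 q2 _
          exact absurd (hp.plain (hpl₂ r hr)).2.1 (not_lt.2 (q1.trans q2))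
    · have hX0U : X0 ∈ U true := hN.wbase.mem (v := a0) rfl hw.lines hN.ordB.lt
      have w1 : SW Γ₂ D {a0} true X0 I₁ yu := by
        refine (((hN.wbase.sub (by linarith : B ≤ I₁) le_rfl).grow sta.grow
          (fun p _ _ => hDat _ p)).grow gE (fun p _ _ h0 => ?_)).grow st2.grow
          (fun p _ _ => r2t _ _ (hUe _ hX0U) (by linarith))
        rcases hR _ _ _ h0 with h0 | h0 | h0
        · exact h0 hX0U
        · rcases h0.2 with h0 | h0
          · linarith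
          · linarith
        · exact absurd h0.1 (by decide)
      exact fun p q1 q2 => ⟨⟨(w1 p q1 q2).1, sgt _ _⟩, (w1 p q1 q2).2⟩
    · have hY0U : Y0 ∈ U false := hN.bbase.mem (v := b0) rfl hw.lines hN.ordW.lt
      have w1 : SW Γ₂ D {b0} false Y0 xJ u := by
        refine (((hN.bbase.sub (by linarith : A ≤ xJ) le_rfl).grow sta.grow
          (fun p q1 _ => hDaf _ p (Or.inr q1.le))).grow gE (fun p q1 _ h0 => ?_)).grow st2.grow
          (fun p q1 _ => r2f _ _ (hUe _ hY0U) (Or.inl (by linarith)))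
        rcases hR _ _ _ h0 with h0 | h0 | h0
        · exact h0 hY0U
        · exact absurd h0.1 (by decide)
        · linarith [h0.2.2]
      exact fun p q1 q2 => ⟨⟨(w1 p q1 q2).1, sgn _ _ (Or.inr (by linarith))⟩, (w1 p q1 q2).2⟩
    · have w1 : Solo Γ₂ {ra.v} true ra.c I₁ rb.c :=
        S6.grow st2.grow (fun p _ _ => r2t _ _ (hUe _ pa.hc) (by linarith))
      intro p q1 q2
      have q2' : p < rb.c := q2
      exact ⟨⟨(pa.line p (by linarith) (by linarith)).1, sgt _ _⟩, w1 p q1 q2⟩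
    · have w1 : Solo Γ₂ {x} false rb.c ra.c h :=
        S4.grow st2.grow (fun p q1 _ => r2f _ _ hYUe (Or.inl (by linarith)))
      intro p q1 q2
      exact ⟨⟨(pb.line p (by linarith) (by linarith)).1, sgn _ _ (Or.inl hYYj.ne)⟩, w1 p q1 q2⟩

end EPG26
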