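import Pool.Agent.W_26e041_h61.Defs

/-!
Grid paths of alternating paths with integer data.
-/

namespace EPG26

/-- unit edges covered by an alternating path with integer data: `(o, l, x)` stands for the grid edge
on the line of orientation `o` (false horizontal) and coordinate `l` between positions `x` and
`x + 1` -/
def zigZ : Bool → List ℤ → Set (Bool × ℤ × ℤ)
  | o, a :: b :: c :: t =>
      {e | e.1 = o ∧ e.2.1 = b ∧ min a c ≤ e.2.2 ∧ e.2.2 < max a c} ∪ zigZ (!o) (b :: c :: t)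
  | _, _ => ∅

/-- the grid edge with code `(o, l, x)` -/
def code (e : Bool × ℤ × ℤ) : Sym2 (ℤ × ℤ) :=
  if e.1 then s((e.2.1, e.2.2), (e.2.1, e.2.2 + 1)) else s((e.2.2, e.2.1), (e.2.2 + 1, e.2.1))

/-- `code` is injective. -/
theorem code_injective : Function.Injective code := by
  rintro ⟨o, l, x⟩ ⟨o', l', x'⟩ h
  cases o <;> cases o' <;> simp [code] at h <;> simp [Prod.ext_iff] <;> omega

/-- Integer version of `ZigNd`. -/
def ZigNdZ : List ℤ → Prop
  | a :: b :: c :: t => a ≠ c ∧ ZigNdZ (b :: c :: t)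
  | _ => True

/-- Integer version of `ZigSimple`. -/
def ZigSimpleZ : List ℤ → Prop
  | [a0, a1, a2, a3, a4, a5] =>
      ¬ (min a0 a2 ≤ a4 ∧ a4 ≤ max a0 a2 ∧ min a3 a5 ≤ a1 ∧ a1 ≤ max a3 a5)
  | _ => True

/-- the point with coordinates `x` (position) and `y` (line) for the orientation `o` -/
def GridA_pt (o : Bool) (x y : ℤ) : ℤ × ℤ := if o then (y, x) else (x, y)

theorem GridA_pt_not (o : Bool) (x y : ℤ) : GridA_pt (!o) x y = GridA_pt o y x := by
  cases o <;> simp [GridA_pt]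

theorem GridA_pt_inj {o : Bool} {x y x' y' : ℤ} (h : GridA_pt o x y = GridA_pt o x' y') :
    x = x' ∧ y = y' := by
  cases o <;> simp [GridA_pt] at h <;> omega

/-- `n` steps of size `s` on the line `b` starting at `a`, without the last point -/
def GridA_w (o : Bool) (b s : ℤ) : ℕ → ℤ → List (ℤ × ℤ)
  | 0, _ => []
  | n + 1, a => GridA_pt o a b :: GridA_w o b s n (a + s)

theorem GridA_w_length (o : Bool) (b s : ℤ) : ∀ (n : ℕ) (a : ℤ), (GridA_w o b s n a).length = n
  | 0, _ => rfl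
  | n + 1, a => by simp [GridA_w, GridA_w_length o b s n (a + s)]

theorem GridA_w_mem (o : Bool) (b s : ℤ) (p : ℤ × ℤ) : ∀ (n : ℕ) (a : ℤ),
    p ∈ GridA_w o b s n a → ∃ i : ℕ, i < n ∧ p = GridA_pt o (a + i * s) b
  | 0, _, h => by simp [GridA_w] at h
  | n + 1, a, h => by
    rcases List.mem_cons.1 h with h | h
    · exact ⟨0, by omega, by simp [h]⟩
    · obtain ⟨i, hi, hp⟩ := GridA_w_mem o b s p n (a + s) h
      refine ⟨i + 1, by omega, ?_⟩
      rw [hp]
      congr 1
      push_cast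
      ring

theorem GridA_w_nodup (o : Bool) (b s : ℤ) (hs : s = 1 ∨ s = -1) : ∀ (n : ℕ) (a : ℤ),
    (GridA_w o b s n a).Nodup
  | 0, _ => by simp [GridA_w]
  | n + 1, a => by
    refine List.nodup_cons.2 ⟨fun h => ?_, GridA_w_nodup o b s hs n (a + s)⟩
    obtain ⟨i, hi, hp⟩ := GridA_w_mem o b s _ n (a + s) h
    have := (GridA_pt_inj hp).1
    rcases hs with rfl | rfl <;> omega

theorem GridA_w_head (o : Bool) (b s : ℤ) (R : List (ℤ × ℤ)) : ∀ (n : ℕ) (a c : ℤ),
    c = a + n * s → ∃ T, GridA_w o b s n a ++ GridA_pt o c b :: R = GridA_pt o a b :: T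
  | 0, a, c, h => ⟨R, by simp [GridA_w, h]⟩
  | n + 1, a, c, h => ⟨GridA_w o b s n (a + s) ++ GridA_pt o c b :: R, by simp [GridA_w]⟩

theorem GridA_step (o : Bool) (b s a : ℤ) (hs : s = 1 ∨ s = -1) :
    UnitStep (GridA_pt o a b) (GridA_pt o (a + s) b) := by
  cases o <;> rcases hs with rfl | rfl <;> simp [UnitStep, GridA_pt]

theorem GridA_w_chain (o : Bool) (b s : ℤ) (hs : s = 1 ∨ s = -1) (R : List (ℤ × ℤ)) :
    ∀ (n : ℕ) (a c : ℤ), c = a + n * s → (GridA_pt o c b :: R).IsChain UnitStep →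
      (GridA_w o b s n a ++ GridA_pt o c b :: R).IsChain UnitStep
  | 0, a, c, h, hR => by simpa [GridA_w] using hR
  | n + 1, a, c, h, hR => by
    have hc : c = (a + s) + n * s := by rw [h]; push_cast; ring
    have ih := GridA_w_chain o b s hs R n (a + s) c hc hR
    obtain ⟨T, hT⟩ := GridA_w_head o b s R n (a + s) c hc
    rw [hT] at ih
    simp only [GridA_w, List.cons_append, hT]
    exact List.IsChain.cons_cons (GridA_step o b s a hs) ih

theorem GridA_code (o : Bool) (b x : ℤ) :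
    code (o, b, x) = s(GridA_pt o x b, GridA_pt o (x + 1) b) := by
  cases o <;> simp [code, GridA_pt]

theorem GridA_arith (a s c : ℤ) (n : ℕ) (hs : s = 1 ∨ s = -1) (h : c = a + (n + 1 : ℕ) * s)
    (x : ℤ) : (min a c ≤ x ∧ x < max a c) ↔
      (x = min a (a + s) ∨ (min (a + s) c ≤ x ∧ x < max (a + s) c)) := by
  rcases hs with rfl | rfl <;> push_cast at h <;> omega

theorem GridA_w_edges (o : Bool) (b s : ℤ) (hs : s = 1 ∨ s = -1) (R : List (ℤ × ℤ))
    (e : Sym2 (ℤ × ℤ)) : ∀ (n : ℕ) (a c : ℤ), c = a + n * s →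
      (e ∈ gridEdges (GridA_w o b s n a ++ GridA_pt o c b :: R) ↔
        (∃ x, min a c ≤ x ∧ x < max a c ∧ e = code (o, b, x)) ∨
          e ∈ gridEdges (GridA_pt o c b :: R))
  | 0, a, c, h => by
    have : c = a := by simpa using h
    subst this
    simp only [GridA_w, List.nil_append, min_self, max_self]
    constructor
    · intro h; exact Or.inr h
    · rintro (⟨x, h1, h2, -⟩ | h)
      · omega
      · exact h
  | n + 1, a, c, h => by
    have hc : c = (a + s) + n * s := by rw [h]; push_cast; ring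
    have ih := GridA_w_edges o b s hs R e n (a + s) c hc
    obtain ⟨T, hT⟩ := GridA_w_head o b s R n (a + s) c hc
    rw [hT] at ih
    simp only [GridA_w, List.cons_append, hT]
    have h1 : e ∈ gridEdges (GridA_pt o a b :: GridA_pt o (a + s) b :: T) ↔
        e = s(GridA_pt o a b, GridA_pt o (a + s) b) ∨
          e ∈ gridEdges (GridA_pt o (a + s) b :: T) := by
      simp [gridEdges]
    rw [h1, ih]
    have h2 : e = s(GridA_pt o a b, GridA_pt o (a + s) b) ↔ e = code (o, b, min a (a + s)) := by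
      rw [GridA_code]
      rcases hs with rfl | rfl
      · rw [min_eq_left (by omega)]
      · rw [min_eq_right (by omega), Sym2.eq_swap]
        simp
    rw [h2, ← or_assoc]
    refine or_congr_left ?_
    have hA := GridA_arith a s c n hs h
    constructor
    · rintro (h | ⟨x, hx1, hx2, h⟩)
      · have := (hA (min a (a + s))).2 (Or.inl rfl)
        exact ⟨min a (a + s), this.1, this.2, h⟩
      · have := (hA x).2 (Or.inr ⟨hx1, hx2⟩)
        exact ⟨x, this.1, this.2, h⟩
    · rintro ⟨x, hx1, hx2, h⟩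
      rcases (hA x).1 ⟨hx1, hx2⟩ with hx | hx
      · left; rw [h, hx]
      · exact Or.inr ⟨x, hx.1, hx.2, h⟩

theorem GridA_bend_straight (o : Bool) (b x y z : ℤ) (T : List (ℤ × ℤ)) :
    bends (GridA_pt o x b :: GridA_pt o y b :: GridA_pt o z b :: T) =
      bends (GridA_pt o y b :: GridA_pt o z b :: T) := by
  cases o <;> simp [bends, GridA_pt]

theorem GridA_bend_cons (p : ℤ × ℤ) (T : List (ℤ × ℤ)) : bends (p :: T) ≤ 1 + bends T := by
  match T with
  | [] => simp [bends]
  | [q] => simp [bends]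
  | q :: r :: t =>
    simp only [bends]
    split_ifs <;> omega

theorem GridA_w_bends (o : Bool) (b s : ℤ) (R : List (ℤ × ℤ)) :
    ∀ (n : ℕ) (a c : ℤ), c = a + n * s →
      bends (GridA_w o b s n a ++ GridA_pt o c b :: R) ≤ 1 + bends (GridA_pt o c b :: R)
  | 0, a, c, h => by simp [GridA_w]
  | 1, a, c, h => by
    simp only [GridA_w, List.cons_append, List.nil_append]
    exact GridA_bend_cons _ _
  | n + 2, a, c, h => by
    have hc : c = (a + s) + (n + 1 : ℕ) * s := by rw [h]; push_cast; ring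
    have hc2 : c = (a + s + s) + n * s := by rw [h]; push_cast; ring
    have ih := GridA_w_bends o b s R (n + 1) (a + s) c hc
    obtain ⟨T, hT⟩ := GridA_w_head o b s R n (a + s + s) c hc2
    simp only [GridA_w, List.cons_append, hT] at ih ⊢
    rw [GridA_bend_straight]
    exact ih

theorem GridA_w_bends0 (o : Bool) (b s : ℤ) :
    ∀ (n : ℕ) (a c : ℤ), c = a + n * s →
      bends (GridA_w o b s n a ++ [GridA_pt o c b]) = 0
  | 0, a, c, h => by simp [GridA_w, bends]
  | 1, a, c, h => by simp [GridA_w, bends]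
  | n + 2, a, c, h => by
    have hc : c = (a + s) + (n + 1 : ℕ) * s := by rw [h]; push_cast; ring
    have hc2 : c = (a + s + s) + n * s := by rw [h]; push_cast; ring
    have ih := GridA_w_bends0 o b s (n + 1) (a + s) c hc
    obtain ⟨T, hT⟩ := GridA_w_head o b s [] n (a + s + s) c hc2
    simp only [GridA_w, List.cons_append, hT] at ih ⊢
    rw [GridA_bend_straight]
    exact ih

/-- sign of the direction from `a` to `c` -/
def GridA_sg (a c : ℤ) : ℤ := if a ≤ c then 1 else -1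

theorem GridA_sg_or (a c : ℤ) : GridA_sg a c = 1 ∨ GridA_sg a c = -1 := by
  unfold GridA_sg; split_ifs <;> simp

theorem GridA_sg_end (a c : ℤ) : c = a + (c - a).natAbs * GridA_sg a c := by
  unfold GridA_sg; split_ifs <;> omega

/-- straight piece from `a` to `c` on the line `b`, without its last point -/
def GridA_seg (o : Bool) (b a c : ℤ) : List (ℤ × ℤ) :=
  GridA_w o b (GridA_sg a c) (c - a).natAbs a

theorem GridA_seg_mem {o : Bool} {b a c : ℤ} {p : ℤ × ℤ} (h : p ∈ GridA_seg o b a c) :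
    ∃ x, p = GridA_pt o x b ∧ min a c ≤ x ∧ x ≤ max a c ∧ x ≠ c := by
  obtain ⟨i, hi, hp⟩ := GridA_w_mem o b _ p _ a h
  refine ⟨_, hp, ?_⟩
  unfold GridA_sg
  split_ifs <;> refine ⟨?_, ?_, ?_⟩ <;> omega

theorem GridA_seg_nodup (o : Bool) (b a c : ℤ) : (GridA_seg o b a c).Nodup :=
  GridA_w_nodup o b _ (GridA_sg_or a c) _ a

/-- the whole list of grid points -/
def GridA_gp : Bool → List ℤ → List (ℤ × ℤ)
  | o, a :: b :: c :: t => GridA_seg o b a c ++ GridA_gp (!o) (b :: c :: t)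
  | o, [a, b] => [GridA_pt o a b]
  | _, _ => []

theorem GridA_gp_head : ∀ (t : List ℤ) (o : Bool) (a b : ℤ),
    ∃ T, GridA_gp o (a :: b :: t) = GridA_pt o a b :: T
  | [], o, a, b => ⟨[], rfl⟩
  | c :: t, o, a, b => by
    obtain ⟨T, hT⟩ := GridA_gp_head t (!o) b c
    rw [GridA_pt_not] at hT
    obtain ⟨T', hT'⟩ := GridA_w_head o b (GridA_sg a c) T (c - a).natAbs a c (GridA_sg_end a c)
    exact ⟨T', by rw [GridA_gp, hT]; exact hT'⟩

theorem GridA_gp_chain : ∀ (t : List ℤ) (o : Bool) (a b : ℤ),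
    (GridA_gp o (a :: b :: t)).IsChain UnitStep
  | [], o, a, b => by simp [GridA_gp]
  | c :: t, o, a, b => by
    have ih := GridA_gp_chain t (!o) b c
    obtain ⟨T, hT⟩ := GridA_gp_head t (!o) b c
    rw [GridA_pt_not] at hT
    rw [hT] at ih
    rw [GridA_gp, hT]
    exact GridA_w_chain o b (GridA_sg a c) (GridA_sg_or a c) T (c - a).natAbs a c
      (GridA_sg_end a c) ih

theorem GridA_gp_edges (e : Sym2 (ℤ × ℤ)) : ∀ (t : List ℤ) (o : Bool) (a b : ℤ),
    (e ∈ gridEdges (GridA_gp o (a :: b :: t)) ↔ ∃ c ∈ zigZ o (a :: b :: t), e = code c)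
  | [], o, a, b => by simp [GridA_gp, gridEdges, zigZ]
  | c :: t, o, a, b => by
    have ih := GridA_gp_edges e t (!o) b c
    obtain ⟨T, hT⟩ := GridA_gp_head t (!o) b c
    rw [GridA_pt_not] at hT
    rw [hT] at ih
    rw [GridA_gp, hT]
    have h1 := GridA_w_edges o b (GridA_sg a c) (GridA_sg_or a c) T e (c - a).natAbs a c
      (GridA_sg_end a c)
    refine h1.trans ?_
    rw [ih, zigZ]
    constructor
    · rintro (⟨x, hx1, hx2, h⟩ | ⟨d, hd, h⟩)
      · exact ⟨(o, b, x), Or.inl ⟨rfl, rfl, hx1, hx2⟩, h⟩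
      · exact ⟨d, Or.inr hd, h⟩
    · rintro ⟨⟨o', l', x⟩, hd | hd, h⟩
      · obtain ⟨h1, h2, h3, h4⟩ := hd
        simp only at h1 h2 h3 h4
        subst h1 h2
        exact Or.inl ⟨x, h3, h4, h⟩
      · exact Or.inr ⟨_, hd, h⟩

theorem GridA_gp_bends : ∀ (t : List ℤ) (o : Bool) (a b : ℤ),
    bends (GridA_gp o (a :: b :: t)) ≤ t.length - 1
  | [], o, a, b => by simp [GridA_gp, bends]
  | [c], o, a, b => by
    have h := GridA_w_bends0 o b (GridA_sg a c) (c - a).natAbs a c (GridA_sg_end a c)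
    simp only [GridA_gp, GridA_pt_not, GridA_seg]
    exact le_of_eq (by simpa using h)
  | c :: d :: t, o, a, b => by
    have ih := GridA_gp_bends (d :: t) (!o) b c
    obtain ⟨T, hT⟩ := GridA_gp_head (d :: t) (!o) b c
    rw [GridA_pt_not] at hT
    rw [hT] at ih
    rw [GridA_gp, hT]
    have h := GridA_w_bends o b (GridA_sg a c) T (c - a).natAbs a c (GridA_sg_end a c)
    refine (h.trans (Nat.add_le_add_left ih 1)).trans ?_
    simp only [List.length_cons]
    omega

theorem GridA_nodup_append {L R : List (ℤ × ℤ)} (hL : L.Nodup) (hR : R.Nodup)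
    (h : ∀ p ∈ L, p ∉ R) : (L ++ R).Nodup := by
  rw [List.nodup_append]
  exact ⟨hL, hR, fun p hp q hq e => h p hp (e ▸ hq)⟩

theorem GridA_nodup1 (o : Bool) (a0 a1 a2 : ℤ) : (GridA_gp o [a0, a1, a2]).Nodup := by
  simp only [GridA_gp, GridA_pt_not]
  refine GridA_nodup_append (GridA_seg_nodup _ _ _ _) (by simp) fun p hp hq => ?_
  obtain ⟨x, rfl, h1, h2, h3⟩ := GridA_seg_mem hp
  have := GridA_pt_inj (List.mem_singleton.1 hq)
  omega

theorem GridA_nodup2 (o : Bool) (a0 a1 a2 a3 : ℤ) : (GridA_gp o [a0, a1, a2, a3]).Nodup := by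
  rw [GridA_gp]
  refine GridA_nodup_append (GridA_seg_nodup _ _ _ _) (GridA_nodup1 _ _ _ _) fun p hp hq => ?_
  obtain ⟨x, rfl, h1, h2, h3⟩ := GridA_seg_mem hp
  simp only [GridA_gp, GridA_pt_not, Bool.not_not, List.mem_append, List.mem_singleton] at hq
  rcases hq with hq | hq
  · obtain ⟨y, hy, h4, h5, h6⟩ := GridA_seg_mem hq
    rw [GridA_pt_not] at hy
    have := GridA_pt_inj hy
    omega
  · have := GridA_pt_inj hq
    omega

theorem GridA_nodup3 (o : Bool) (a0 a1 a2 a3 a4 : ℤ) (h13 : a1 ≠ a3) :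
    (GridA_gp o [a0, a1, a2, a3, a4]).Nodup := by
  rw [GridA_gp]
  refine GridA_nodup_append (GridA_seg_nodup _ _ _ _) (GridA_nodup2 _ _ _ _ _) fun p hp hq => ?_
  obtain ⟨x, rfl, h1, h2, h3⟩ := GridA_seg_mem hp
  simp only [GridA_gp, GridA_pt_not, Bool.not_not, List.mem_append, List.mem_singleton] at hq
  rcases hq with hq | hq | hq
  · obtain ⟨y, hy, h4, h5, h6⟩ := GridA_seg_mem hq
    rw [GridA_pt_not] at hy
    have := GridA_pt_inj hy
    omega
  · obtain ⟨y, hy, h4, h5, h6⟩ := GridA_seg_mem hq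
    have := GridA_pt_inj hy
    omega
  · have := GridA_pt_inj hq
    omega

theorem GridA_nodup4 (o : Bool) (a0 a1 a2 a3 a4 a5 : ℤ) (h13 : a1 ≠ a3) (h24 : a2 ≠ a4)
    (hs : ¬ (min a0 a2 ≤ a4 ∧ a4 ≤ max a0 a2 ∧ min a3 a5 ≤ a1 ∧ a1 ≤ max a3 a5)) :
    (GridA_gp o [a0, a1, a2, a3, a4, a5]).Nodup := by
  rw [GridA_gp]
  refine GridA_nodup_append (GridA_seg_nodup _ _ _ _) (GridA_nodup3 _ _ _ _ _ _ h24)
    fun p hp hq => ?_
  obtain ⟨x, rfl, h1, h2, h3⟩ := GridA_seg_mem hp
  simp only [GridA_gp, GridA_pt_not, Bool.not_not, List.mem_append, List.mem_singleton] at hq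
  rcases hq with hq | hq | hq | hq
  · obtain ⟨y, hy, h4, h5, h6⟩ := GridA_seg_mem hq
    rw [GridA_pt_not] at hy
    have := GridA_pt_inj hy
    omega
  · obtain ⟨y, hy, h4, h5, h6⟩ := GridA_seg_mem hq
    have := GridA_pt_inj hy
    omega
  · obtain ⟨y, hy, h4, h5, h6⟩ := GridA_seg_mem hq
    rw [GridA_pt_not] at hy
    have := GridA_pt_inj hy
    omega
  · have := GridA_pt_inj hq
    omega

theorem GridA_len (o : Bool) (a0 a1 a2 : ℤ) (t : List ℤ) (h : a0 ≠ a2) :
    2 ≤ (GridA_gp o (a0 :: a1 :: a2 :: t)).length := by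
  obtain ⟨T, hT⟩ := GridA_gp_head t (!o) a1 a2
  rw [GridA_gp, hT, List.length_append, GridA_seg, GridA_w_length]
  simp only [List.length_cons]
  omega

/-- The grid path of an alternating path with integer data. For `o = false` its corner points are
`(a0,a1), (a2,a1), (a2,a3), (a4,a3), (a4,a5)` (as many as the length allows), for `o = true` the
transposed points (use the symmetry exchanging the coordinates to reduce to `o = false`). Build the
list of grid points by concatenating the straight pieces (define the list of grid points from `p` to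
`q` on a common line with `List.range` and `natAbs`). Grid edges: the steps of each straight
piece. Bends: only at the (at most three) inner corner points. No repetition: consecutive pieces
meet only in their common corner; pieces 1 and 3 (2 and 4) lie on different parallel lines because
of `ZigNdZ`; pieces 1 and 4 are disjoint by `ZigSimpleZ`. -/
theorem exists_gridPath (o : Bool) (l : List ℤ) (h3 : 3 ≤ l.length) (h6 : l.length ≤ 6)
    (hnd : ZigNdZ l) (hs : ZigSimpleZ l) :
    ∃ P : List (ℤ × ℤ), IsGridPath P ∧ bends P ≤ 3 ∧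
      ∀ e, e ∈ gridEdges P ↔ ∃ c ∈ zigZ o l, e = code c := by
  match l, h3, h6, hnd, hs with
  | [a0, a1, a2], _, _, hnd, _ =>
    exact ⟨GridA_gp o [a0, a1, a2], ⟨GridA_len _ _ _ _ _ hnd.1, GridA_nodup1 _ _ _ _,
      GridA_gp_chain _ _ _ _⟩, (GridA_gp_bends _ _ _ _).trans (by simp),
      fun e => GridA_gp_edges e _ _ _ _⟩
  | [a0, a1, a2, a3], _, _, hnd, _ =>
    exact ⟨GridA_gp o [a0, a1, a2, a3], ⟨GridA_len _ _ _ _ _ hnd.1, GridA_nodup2 _ _ _ _ _,
      GridA_gp_chain _ _ _ _⟩, (GridA_gp_bends _ _ _ _).trans (by simp),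
      fun e => GridA_gp_edges e _ _ _ _⟩
  | [a0, a1, a2, a3, a4], _, _, hnd, _ =>
    exact ⟨GridA_gp o [a0, a1, a2, a3, a4], ⟨GridA_len _ _ _ _ _ hnd.1,
      GridA_nodup3 _ _ _ _ _ _ hnd.2.1, GridA_gp_chain _ _ _ _⟩,
      (GridA_gp_bends _ _ _ _).trans (by simp), fun e => GridA_gp_edges e _ _ _ _⟩
  | [a0, a1, a2, a3, a4, a5], _, _, hnd, hs =>
    exact ⟨GridA_gp o [a0, a1, a2, a3, a4, a5], ⟨GridA_len _ _ _ _ _ hnd.1,
      GridA_nodup4 _ _ _ _ _ _ _ hnd.2.1 hnd.2.2.1 hs, GridA_gp_chain _ _ _ _⟩,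
      (GridA_gp_bends _ _ _ _).trans (by simp), fun e => GridA_gp_edges e _ _ _ _⟩

end EPG26
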