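import Pool.Agent.W_26e041_h61.CanA

/-!
A single vertex inside a triangle: drawing.
-/

namespace EPG26

variable {V : Type*} [DecidableEq V]

/-- the data of a vertex `y` inside the triangle `u, v, x` -/
structure K4D (G : SimpleGraph V) (u v x y : V) (Ja Jb Jc : Finset V) : Prop where
  uv : u ≠ v
  ux : u ≠ x
  vx : v ≠ x
  au : G.Adj y u
  av : G.Adj y v
  ax : G.Adj y x
  fa : FillT G {u, v, y} Ja
  fb : FillT G {u, x, y} Jb
  fc : FillT G {v, x, y} Jc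
  ab : Disjoint Ja Jb
  ac : Disjoint Ja Jc
  bc : Disjoint Jb Jc
  ou : u ∉ Ja ∧ u ∉ Jb ∧ u ∉ Jc
  ov : v ∉ Ja ∧ v ∉ Jb ∧ v ∉ Jc
  ox : x ∉ Ja ∧ x ∉ Jb ∧ x ∉ Jc
  oy : y ∉ Ja ∧ y ∉ Jb ∧ y ∉ Jc

/-- the vertex `y` and the contents of the three faces are drawn -/
def K4Done (G : SimpleGraph V) (Γ : Dr V) (U : Bool → Finset ℚ) (D : Cov) (u v x y : V)
    (Ja Jb Jc : Finset V) : Prop :=
  ∃ Γ' U', Step G Γ U (nl U ⊔ D) {p | p = y ∨ p ∈ Ja ∨ p ∈ Jb ∨ p ∈ Jc} Γ' U' ∧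
    IsPath3 (Γ' y) ∧ Filled G Γ' Ja ∧ Filled G Γ' Jb ∧ Filled G Γ' Jc ∧ Ov Γ' y u ∧ Ov Γ' y v ∧
    Ov Γ' y x

/-- nothing changes on the set `D` -/
def K4A_Keep (Γ Γ' : Dr V) (D : Cov) : Prop :=
  ∀ o l x, x ∈ D o l → ∀ v, x ∈ Γ' v o l ↔ x ∈ Γ v o l

theorem K4A_Keep.refl (Γ : Dr V) (D : Cov) : K4A_Keep Γ Γ D := fun _ _ _ _ _ => Iff.rfl

theorem K4A_Keep.trans {Γ Γ₁ Γ₂ : Dr V} {D : Cov} (h₁ : K4A_Keep Γ Γ₁ D)
    (h₂ : K4A_Keep Γ₁ Γ₂ D) : K4A_Keep Γ Γ₂ D :=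
  fun o l x hx v => (h₂ o l x hx v).trans (h₁ o l x hx v)

theorem K4A_keep_of_step {G : SimpleGraph V} {Γ Γ' : Dr V} {U U' : Bool → Finset ℚ} {D E : Cov}
    {K : Set V} (h : Step G Γ U (nl U ⊔ E) K Γ' U') (hl : ∀ o l x, x ∈ D o l → l ∈ U o)
    (hd : ∀ o l x, x ∈ D o l → x ∉ E o l) : K4A_Keep Γ Γ' D := by
  intro o l x hx v
  constructor
  · intro h1
    rcases h.grow.new v o l x h1 with h2 | ⟨-, h2 | h2⟩
    · exact h2
    · exact absurd (hl o l x hx) h2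
    · exact absurd h2 (hd o l x hx)
  · exact h.grow.mono v o l x

theorem K4A_solo {Γ Γ' : Dr V} {D : Cov} {S : Set V} {o : Bool} {l a b : ℚ}
    (hk : K4A_Keep Γ Γ' D) (hab : a < b) (hD : seg o l a b ≤ D) (h : Solo Γ S o l a b) :
    Solo Γ' S o l a b := by
  intro x h1 h2 v
  have h3 : x ∈ D o l := by
    refine hD o l ⟨rfl, rfl, ?_, ?_⟩
    · rw [min_eq_left hab.le]
      exact h1
    · rw [max_eq_right hab.le]
      exact h2
  rw [hk o l x h3 v]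
  exact h x h1 h2 v

theorem K4A_wk {G : SimpleGraph V} {T J : Finset V} (hF : FillT G T J) {Γ : Dr V} {u v x : V}
    {o : Bool} {Yu Yv I0 I1 X J0 J1 R C0 C1 : ℚ} (hT : T = {u, v, x})
    (hs : SockR Γ u v x o Yu Yv I0 I1 X J0 J1) (hz : ZoneW Γ u v o Yu Yv J0 J1 R C0 C1) :
    ∀ Γ' U', Wd G Γ' U' → (∀ p ∈ J, Undrawn Γ' p) →
      K4A_Keep Γ Γ' (seg o Yu I0 I1 ⊔ seg o Yv I0 I1 ⊔ seg (!o) X J0 J1 ⊔ seg o R C0 C1) →
      CanFill G Γ' U' (seg o Yu I0 I1 ⊔ seg o Yv I0 I1 ⊔ seg (!o) X J0 J1 ⊔ seg o R C0 C1) J := by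
  intro Γ' U' hw hun hk
  refine hF.wk Γ' U' u v x o Yu Yv I0 I1 X J0 J1 R C0 C1 hT hw hun
    ⟨hs.hI, hs.hJ, ?_, ?_, ?_, hs.ne, hs.side⟩ ⟨hz.hC, ?_, hz.beyond⟩
  · exact K4A_solo hk hs.hI (le_sup_left.trans (le_sup_left.trans le_sup_left)) hs.hu
  · exact K4A_solo hk hs.hI (le_sup_right.trans (le_sup_left.trans le_sup_left)) hs.hv
  · exact K4A_solo hk hs.hJ (le_sup_right.trans le_sup_left) hs.hx
  · exact K4A_solo hk hz.hC le_sup_right hz.hz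

theorem K4A_om {G : SimpleGraph V} {T J : Finset V} (hF : FillT G T J) {Γ : Dr V} {u v x : V}
    {o : Bool} {Yu Yv I0 I1 X J0 J1 X2 C0 C1 : ℚ} (hT : T = {u, v, x})
    (hs : SockR Γ u v x o Yu Yv I0 I1 X J0 J1) (hz : ZoneO Γ u x o Yu Yv J0 J1 X2 C0 C1) :
    ∀ Γ' U', Wd G Γ' U' → (∀ p ∈ J, Undrawn Γ' p) →
      K4A_Keep Γ Γ' (seg o Yu I0 I1 ⊔ seg o Yv I0 I1 ⊔ seg (!o) X J0 J1 ⊔ seg (!o) X2 C0 C1) →
      CanFill G Γ' U'
        (seg o Yu I0 I1 ⊔ seg o Yv I0 I1 ⊔ seg (!o) X J0 J1 ⊔ seg (!o) X2 C0 C1) J := by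
  intro Γ' U' hw hun hk
  refine hF.om Γ' U' u v x o Yu Yv I0 I1 X J0 J1 X2 C0 C1 hT hw hun
    ⟨hs.hI, hs.hJ, ?_, ?_, ?_, hs.ne, hs.side⟩ ⟨hz.hC, ?_, hz.beyond, hz.same⟩
  · exact K4A_solo hk hs.hI (le_sup_left.trans (le_sup_left.trans le_sup_left)) hs.hu
  · exact K4A_solo hk hs.hI (le_sup_right.trans (le_sup_left.trans le_sup_left)) hs.hv
  · exact K4A_solo hk hs.hJ (le_sup_right.trans le_sup_left) hs.hx
  · exact K4A_solo hk hz.hC le_sup_right hz.hz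

/-- three faces are filled one after the other -/
theorem K4A_three {G : SimpleGraph V} {Γ : Dr V} {U : Bool → Finset ℚ} (hw : Wd G Γ U)
    {Ja Jb Jc : Finset V} {Da Db Dc : Cov} (hab : Disjoint Ja Jb) (hac : Disjoint Ja Jc)
    (hbc : Disjoint Jb Jc) (hun : ∀ p, p ∈ Ja ∨ p ∈ Jb ∨ p ∈ Jc → Undrawn Γ p)
    (ha : ∀ Γ' U', Wd G Γ' U' → (∀ p ∈ Ja, Undrawn Γ' p) → K4A_Keep Γ Γ' Da →
      CanFill G Γ' U' Da Ja)
    (hb : ∀ Γ' U', Wd G Γ' U' → (∀ p ∈ Jb, Undrawn Γ' p) → K4A_Keep Γ Γ' Db →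
      CanFill G Γ' U' Db Jb)
    (hc : ∀ Γ' U', Wd G Γ' U' → (∀ p ∈ Jc, Undrawn Γ' p) → K4A_Keep Γ Γ' Dc →
      CanFill G Γ' U' Dc Jc)
    (hlb : ∀ o l x, x ∈ Db o l → l ∈ U o)
    (hlc : ∀ o l x, x ∈ Dc o l → l ∈ U o) (dba : ∀ o l x, x ∈ Db o l → x ∉ Da o l)
    (dca : ∀ o l x, x ∈ Dc o l → x ∉ Da o l) (dcb : ∀ o l x, x ∈ Dc o l → x ∉ Db o l) :
    ∃ Γ' U', Step G Γ U (nl U ⊔ (Da ⊔ Db ⊔ Dc)) {p | p ∈ Ja ∨ p ∈ Jb ∨ p ∈ Jc} Γ' U' ∧
      Filled G Γ' Ja ∧ Filled G Γ' Jb ∧ Filled G Γ' Jc := by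
  obtain ⟨Γ₁, U₁, s1, f1⟩ := ha Γ U hw (fun p hp => hun p (Or.inl hp)) (K4A_Keep.refl _ _)
  have hnot : ∀ {A B : Finset V}, Disjoint A B → ∀ p ∈ B, p ∉ (↑A : Set V) :=
    fun h p hp hpA => Finset.disjoint_left.1 h (Finset.mem_coe.1 hpA) hp
  have hnot' : ∀ {A B : Finset V}, Disjoint A B → ∀ p ∈ A, p ∉ (↑B : Set V) :=
    fun h p hp hpB => Finset.disjoint_left.1 h hp (Finset.mem_coe.1 hpB)
  have kb : K4A_Keep Γ Γ₁ Db := K4A_keep_of_step s1 hlb dba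
  have kc : K4A_Keep Γ Γ₁ Dc := K4A_keep_of_step s1 hlc dca
  obtain ⟨Γ₂, U₂, s2, f2⟩ := hb Γ₁ U₁ s1.wd
    (fun p hp => (hun p (Or.inr (Or.inl hp))).grow s1.grow (hnot hab p hp)) kb
  have kc' : K4A_Keep Γ₁ Γ₂ Dc :=
    K4A_keep_of_step s2 (fun o l x hx => s1.sub o (hlc o l x hx)) dcb
  obtain ⟨Γ₃, U₃, s3, f3⟩ := hc Γ₂ U₂ s2.wd
    (fun p hp => ((hun p (Or.inr (Or.inr hp))).grow s1.grow (hnot hac p hp)).grow s2.grow
      (hnot hbc p hp)) (kc.trans kc')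
  have n1 : nl U₁ ≤ nl U := fun o l x hx hl => hx (s1.sub o hl)
  have n2 : nl U₂ ≤ nl U := fun o l x hx hl => hx (s2.sub o (s1.sub o hl))
  have t1 : Step G Γ U (nl U ⊔ (Da ⊔ Db ⊔ Dc)) {p | p ∈ Ja ∨ p ∈ Jb ∨ p ∈ Jc} Γ₁ U₁ :=
    s1.weaken (sup_le_sup le_rfl (le_sup_left.trans le_sup_left)) (fun p hp => Or.inl hp)
  have t2 : Step G Γ₁ U₁ (nl U ⊔ (Da ⊔ Db ⊔ Dc)) {p | p ∈ Ja ∨ p ∈ Jb ∨ p ∈ Jc} Γ₂ U₂ :=
    s2.weaken (sup_le_sup n1 (le_sup_right.trans le_sup_left)) (fun p hp => Or.inr (Or.inl hp))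
  have t3 : Step G Γ₂ U₂ (nl U ⊔ (Da ⊔ Db ⊔ Dc)) {p | p ∈ Ja ∨ p ∈ Jb ∨ p ∈ Jc} Γ₃ U₃ :=
    s3.weaken (sup_le_sup n2 le_sup_right) (fun p hp => Or.inr (Or.inr hp))
  refine ⟨Γ₃, U₃, (t1.trans t2).trans t3, ?_, ?_, f3⟩
  · exact (f1.mono s2.grow (hnot' hab)).mono s3.grow (hnot' hac)
  · exact f2.mono s3.grow (hnot' hbc)

theorem K4A_mem_zig {a0 a1 a2 a3 a4 a5 x l : ℚ} {o : Bool} :
    x ∈ zig false [a0, a1, a2, a3, a4, a5] o l ↔
      x ∈ seg false a1 a0 a2 o l ∨ x ∈ seg true a2 a1 a3 o l ∨ x ∈ seg false a3 a2 a4 o l ∨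
        x ∈ seg true a4 a3 a5 o l := by
  simp [zig, or_assoc]

theorem K4A_seg {o o' : Bool} {l l' a b x : ℚ} (h : a < b) :
    x ∈ seg o l a b o' l' ↔ o' = o ∧ l' = l ∧ a < x ∧ x < b := by
  unfold seg
  rw [min_eq_left h.le, max_eq_right h.le]
  exact Iff.rfl

theorem K4A_seg' {o o' : Bool} {l l' a b x : ℚ} (h : b < a) :
    x ∈ seg o l a b o' l' ↔ o' = o ∧ l' = l ∧ b < x ∧ x < a := by
  unfold seg
  rw [min_eq_right h.le, max_eq_left h.le]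
  exact Iff.rfl

/-- The common part of all cases: `y` is drawn with a path meeting `u, v` on `R` between `x₁` and `c'`
and `x` on `X` between `y₃` and `y₄`. -/
structure K4A_Out (G : SimpleGraph V) (Γ : Dr V) (U : Bool → Finset ℚ) (D : Cov) (u v x y : V)
    (R x₁ c' X y₃ y₄ : ℚ) (Γ₁ : Dr V) (U₁ : Bool → Finset ℚ) : Prop where
  step : Step G Γ U (nl U ⊔ D) {y} Γ₁ U₁
  path : IsPath3 (Γ₁ y)
  mem : ∀ o l z, z ∈ Γ₁ y o l ↔ z ∈ seg false R x₁ c' o l ∨ z ∈ seg true x₁ R y₃ o l ∨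
    z ∈ seg false y₃ x₁ X o l ∨ z ∈ seg true X y₃ y₄ o l
  other : ∀ w, w ≠ y → Γ₁ w = Γ w
  lx : x₁ ∈ U₁ true
  ly : y₃ ∈ U₁ false

theorem K4A_draw {G : SimpleGraph V} {Γ : Dr V} {U : Bool → Finset ℚ} {D : Cov} {u v x y : V}
    {R x₁ c' X y₃ y₄ : ℚ} (hw : Wd G Γ U) (hy : Undrawn Γ y) (au : G.Adj y u) (av : G.Adj y v)
    (ax : G.Adj y x) (h1 : x₁ < c') (h2 : R < y₃) (h3 : y₃ < y₄) (hx1 : x₁ ∉ U true)
    (hy3 : y₃ ∉ U false) (hz : Solo Γ {u, v} false R x₁ c') (hX : Solo Γ {x} true X y₃ y₄)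
    (hD1 : seg false R x₁ c' ≤ D) (hD2 : seg true X y₃ y₄ ≤ D) :
    ∃ Γ₁ U₁, K4A_Out G Γ U D u v x y R x₁ c' X y₃ y₄ Γ₁ U₁ := by
  have hRU : R ∈ U false := hz.mem (v := u) (Or.inl rfl) hw.lines h1
  have hXU : X ∈ U true := hX.mem (v := x) rfl hw.lines h3
  have hxX : x₁ ≠ X := fun h => hx1 (h ▸ hXU)
  let C : Cov := zig false [c', R, x₁, y₃, X, y₄]
  have hCmem : ∀ o l z, z ∈ C o l ↔ z ∈ seg false R x₁ c' o l ∨ z ∈ seg true x₁ R y₃ o l ∨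
      z ∈ seg false y₃ x₁ X o l ∨ z ∈ seg true X y₃ y₄ o l := by
    intro o l z
    rw [K4A_mem_zig]
    have e : z ∈ seg false R c' x₁ o l ↔ z ∈ seg false R x₁ c' o l := by
      rw [K4A_seg' h1, K4A_seg h1]
    rw [e]
  let U₁ : Bool → Finset ℚ := addL (addL U true x₁) false y₃
  have hsub : ∀ o, U o ⊆ U₁ o := fun o z hz => mem_addL.2 (Or.inl (mem_addL.2 (Or.inl hz)))
  refine ⟨Function.update Γ y C, U₁, ?_, ?_, ?_, fun w hwy => Function.update_of_ne hwy _ _,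
    mem_addL.2 (Or.inl (mem_addL.2 (Or.inr ⟨rfl, rfl⟩))), mem_addL.2 (Or.inr ⟨rfl, rfl⟩)⟩
  · refine Step.draw hw hsub ?_ ?_ ?_ ?_
    · intro o l z hzy
      exact absurd hzy (hy o l z)
    · intro o l z hzC
      rcases (hCmem o l z).1 hzC with ⟨rfl, rfl, -⟩ | ⟨rfl, rfl, -⟩ | ⟨rfl, rfl, -⟩ | ⟨rfl, rfl, -⟩
      · exact hsub _ hRU
      · exact mem_addL.2 (Or.inl (mem_addL.2 (Or.inr ⟨rfl, rfl⟩)))
      · exact mem_addL.2 (Or.inr ⟨rfl, rfl⟩)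
      · exact hsub _ hXU
    · intro o l z hzC _
      rcases (hCmem o l z).1 hzC with hh | ⟨rfl, rfl, -⟩ | ⟨rfl, rfl, -⟩ | hh
      · exact Or.inr (hD1 o l hh)
      · exact Or.inl hx1
      · exact Or.inl hy3
      · exact Or.inr (hD2 o l hh)
    · intro o l z hzC _ w _ hzw
      rcases (hCmem o l z).1 hzC with hh | ⟨rfl, rfl, -⟩ | ⟨rfl, rfl, -⟩ | hh
      · rw [K4A_seg h1] at hh
        obtain ⟨rfl, rfl, h5, h6⟩ := hh
        rcases (hz z h5 h6 w).1 hzw with rfl | h7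
        · exact au
        · rw [Set.mem_singleton_iff.1 h7]
          exact av
      · exact absurd (hw.lines _ _ _ _ hzw) hx1
      · exact absurd (hw.lines _ _ _ _ hzw) hy3
      · rw [K4A_seg h3] at hh
        obtain ⟨rfl, rfl, h5, h6⟩ := hh
        rw [Set.mem_singleton_iff.1 ((hX z h5 h6 w).1 hzw)]
        exact ax
  · rw [Function.update_self]
    refine ⟨false, [c', R, x₁, y₃, X, y₄], by simp, by simp, ?_, ?_, fun _ _ _ => Iff.rfl⟩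
    · exact ⟨h1.ne', h2.ne, hxX, h3.ne, trivial⟩
    · rintro ⟨-, -, h5, -⟩
      rw [min_eq_left h3.le] at h5
      exact absurd h2 (not_lt.2 h5)
  · intro o l z
    rw [Function.update_self]
    exact hCmem o l z

theorem K4A_fin {G : SimpleGraph V} {Γ Γ₁ : Dr V} {U U₁ : Bool → Finset ℚ} {D : Cov}
    {u v x y : V} {Ja Jb Jc : Finset V} (hK : K4D G u v x y Ja Jb Jc)
    (hun : ∀ p, p = y ∨ p ∈ Ja ∨ p ∈ Jb ∨ p ∈ Jc → Undrawn Γ p) {R x₁ c' X y₃ y₄ : ℚ}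
    (hO : K4A_Out G Γ U D u v x y R x₁ c' X y₃ y₄ Γ₁ U₁) (h1 : x₁ < c') (h3 : y₃ < y₄)
    (hz : Solo Γ {u, v} false R x₁ c') (hX : Solo Γ {x} true X y₃ y₄) {Da Db Dc : Cov}
    (ha : ∀ Γ' U', Wd G Γ' U' → (∀ p ∈ Ja, Undrawn Γ' p) → K4A_Keep Γ₁ Γ' Da →
      CanFill G Γ' U' Da Ja)
    (hb : ∀ Γ' U', Wd G Γ' U' → (∀ p ∈ Jb, Undrawn Γ' p) → K4A_Keep Γ₁ Γ' Db →
      CanFill G Γ' U' Db Jb)
    (hc : ∀ Γ' U', Wd G Γ' U' → (∀ p ∈ Jc, Undrawn Γ' p) → K4A_Keep Γ₁ Γ' Dc →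
      CanFill G Γ' U' Dc Jc)
    (hlb : ∀ o l x, x ∈ Db o l → l ∈ U₁ o)
    (hlc : ∀ o l x, x ∈ Dc o l → l ∈ U₁ o) (dba : ∀ o l x, x ∈ Db o l → x ∉ Da o l)
    (dca : ∀ o l x, x ∈ Dc o l → x ∉ Da o l) (dcb : ∀ o l x, x ∈ Dc o l → x ∉ Db o l)
    (hta : Da ≤ nl U ⊔ D) (htb : Db ≤ nl U ⊔ D) (htc : Dc ≤ nl U ⊔ D) :
    K4Done G Γ U D u v x y Ja Jb Jc := by
  have hne : ∀ p, p ∈ Ja ∨ p ∈ Jb ∨ p ∈ Jc → p ≠ y := by
    rintro p hp rfl
    rcases hp with hp | hp | hp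
    · exact hK.oy.1 hp
    · exact hK.oy.2.1 hp
    · exact hK.oy.2.2 hp
  have hyK : y ∉ {p | p ∈ Ja ∨ p ∈ Jb ∨ p ∈ Jc} := fun h => hne y h rfl
  obtain ⟨Γ₂, U₂, s2, f1, f2, f3⟩ := K4A_three hO.step.wd hK.ab hK.ac hK.bc
    (fun p hp => by
      intro o l z hz
      rw [hO.other p (hne p hp)] at hz
      exact hun p (Or.inr hp) o l z hz) ha hb hc hlb hlc dba dca dcb
  have n1 : nl U₁ ≤ nl U := fun o l x hx hl => hx (hO.step.sub o hl)
  have t1 : Step G Γ U (nl U ⊔ D) {p | p = y ∨ p ∈ Ja ∨ p ∈ Jb ∨ p ∈ Jc} Γ₁ U₁ :=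
    hO.step.weaken le_rfl (fun p hp => Or.inl hp)
  have t2 : Step G Γ₁ U₁ (nl U ⊔ D) {p | p = y ∨ p ∈ Ja ∨ p ∈ Jb ∨ p ∈ Jc} Γ₂ U₂ :=
    s2.weaken (sup_le (n1.trans le_sup_left) (sup_le (sup_le hta htb) htc))
      (fun p hp => Or.inr hp)
  refine ⟨Γ₂, U₂, t1.trans t2, ?_, f1, f2, f3, ?_, ?_, ?_⟩
  · rw [s2.grow.eq hyK]
    exact hO.path
  · obtain ⟨z, hz1, hz2⟩ := exists_between h1
    refine Ov.mono s2.grow ⟨false, R, z, (hO.mem _ _ _).2 (Or.inl ((K4A_seg h1).2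
      ⟨rfl, rfl, hz1, hz2⟩)), ?_⟩
    rw [hO.other u hK.au.ne']
    exact (hz z hz1 hz2 u).2 (Or.inl rfl)
  · obtain ⟨z, hz1, hz2⟩ := exists_between h1
    refine Ov.mono s2.grow ⟨false, R, z, (hO.mem _ _ _).2 (Or.inl ((K4A_seg h1).2
      ⟨rfl, rfl, hz1, hz2⟩)), ?_⟩
    rw [hO.other v hK.av.ne']
    exact (hz z hz1 hz2 v).2 (Or.inr rfl)
  · obtain ⟨z, hz1, hz2⟩ := exists_between h3
    refine Ov.mono s2.grow ⟨true, X, z, (hO.mem _ _ _).2 (Or.inr (Or.inr (Or.inr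
      ((K4A_seg h3).2 ⟨rfl, rfl, hz1, hz2⟩)))), ?_⟩
    rw [hO.other x hK.ax.ne']
    exact (hX z hz1 hz2 x).2 rfl

theorem K4A_Out.win {G : SimpleGraph V} {Γ Γ₁ : Dr V} {U U₁ : Bool → Finset ℚ} {D : Cov}
    {u v x y : V} {R x₁ c' X y₃ y₄ : ℚ}
    (hO : K4A_Out G Γ U D u v x y R x₁ c' X y₃ y₄ Γ₁ U₁) {S : Set V} {o : Bool} {l a b : ℚ}
    (h : Solo Γ S o l a b) (hyS : y ∉ S) (hn : ∀ z, a < z → z < b → z ∉ Γ₁ y o l) :
    Solo Γ₁ S o l a b := by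
  intro z h1 h2 w
  by_cases hwy : w = y
  · rw [hwy]
    exact ⟨fun h3 => absurd h3 (hn z h1 h2), fun h3 => absurd h3 hyS⟩
  · rw [hO.other w hwy]
    exact h z h1 h2 w

theorem K4A_Out.winy {G : SimpleGraph V} {Γ Γ₁ : Dr V} {U U₁ : Bool → Finset ℚ} {D : Cov}
    {u v x y : V} {R x₁ c' X y₃ y₄ : ℚ}
    (hO : K4A_Out G Γ U D u v x y R x₁ c' X y₃ y₄ Γ₁ U₁) {S S' : Set V} {o : Bool} {l a b : ℚ}
    (h : Solo Γ S o l a b) (hS : ∀ w, w ∈ S' ↔ w = y ∨ w ∈ S)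
    (hn : ∀ z, a < z → z < b → z ∈ Γ₁ y o l) : Solo Γ₁ S' o l a b := by
  intro z h1 h2 w
  rw [hS w]
  by_cases hwy : w = y
  · rw [hwy]
    exact ⟨fun _ => Or.inl rfl, fun _ => hn z h1 h2⟩
  · rw [hO.other w hwy, h z h1 h2 w]
    exact ⟨fun h3 => Or.inr h3, fun h3 => h3.resolve_left hwy⟩

theorem K4A_none {G : SimpleGraph V} {Γ : Dr V} {U : Bool → Finset ℚ} (hw : Wd G Γ U) {o : Bool}
    {l : ℚ} (hl : l ∉ U o) (a b : ℚ) : Solo Γ ∅ o l a b :=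
  fun z _ _ w => ⟨fun h => absurd (hw.lines w o l z h) hl, fun h => absurd h (Set.notMem_empty w)⟩

theorem K4A_sub {Γ : Dr V} {S : Set V} {o : Bool} {l a b a' b' : ℚ} (h : Solo Γ S o l a b)
    (h1 : a ≤ a') (h2 : b' ≤ b) : Solo Γ S o l a' b' :=
  fun z h3 h4 w => h z (lt_of_le_of_lt h1 h3) (lt_of_lt_of_le h4 h2) w

theorem K4A_seg_le {o : Bool} {l a b a' b' : ℚ} (h1 : a ≤ a') (h2 : b' ≤ b) (h : a' < b') :
    seg o l a' b' ≤ seg o l a b := by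
  intro o' l' z hz
  rw [K4A_seg h] at hz
  rw [K4A_seg (lt_of_le_of_lt h1 (lt_of_lt_of_le h h2))]
  exact ⟨hz.1, hz.2.1, lt_of_le_of_lt h1 hz.2.2.1, lt_of_lt_of_le hz.2.2.2 h2⟩

theorem K4A_seg_nl {U : Bool → Finset ℚ} {o : Bool} {l a b : ℚ} (h : l ∉ U o) :
    seg o l a b ≤ nl U := by
  rintro o' l' z ⟨rfl, rfl, -⟩
  exact h

/-- four windows before/after four windows -/
theorem K4A_mem4 {A B C E : Cov} {o : Bool} {l z : ℚ} :
    z ∈ (A ⊔ B ⊔ C ⊔ E) o l ↔ z ∈ A o l ∨ z ∈ B o l ∨ z ∈ C o l ∨ z ∈ E o l := by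
  constructor
  · rintro (((h | h) | h) | h)
    · exact Or.inl h
    · exact Or.inr (Or.inl h)
    · exact Or.inr (Or.inr (Or.inl h))
    · exact Or.inr (Or.inr (Or.inr h))
  · rintro (h | h | h | h)
    · exact Or.inl (Or.inl (Or.inl h))
    · exact Or.inl (Or.inl (Or.inr h))
    · exact Or.inl (Or.inr h)
    · exact Or.inr h

/-- Zone of `u` and `v`. Write `(C0, C1)` for the zone on the row `R`.
Case 1, `C0 < I1`: choose `C0 < x₁ < c' < min C1 I1`, `x₁` new (not in `U true`),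
`J0 < j₁ < j₂ < y₃ < ym < y₄ < J1` with `y₃` new, and `max I0 x₁ < m₁ < m₂ < I1`. Draw
`Γ y = zig false [c', R, x₁, y₃, X, y₄]` (it meets `u, v` on `R` between `x₁` and `c'` and `x` on `X` between
`y₃` and `y₄`). Faces:
 `{u, v, y}`: wk-socket, `o = false`, lines `Yu, Yv`, window `(max I0 x₁, m₁)`, `y` on the line `x₁` with
   window `(J0, j₁)`, zone of `u, v` on `R`: `(C0, x₁)`.
 `{u, x, y}`: wk-socket, `o = true`, lines `X` (`x`) and `x₁` (`y`), window `(j₁, j₂)`, `u` on the line `Yu`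
   with window `(m₁, m₂)`, zone of `x, y` on `X`: `(y₃, ym)`.
 `{v, x, y}`: wk-socket, `o = true`, window `(j₂, y₃)`, `v` on `Yv` with window `(m₂, I1)`, zone
   `(ym, y₄)`.
Case 2, `I1 ≤ C0`: choose `C0 < x₁ < c' < C1`, `x₁` new, `J0 < j₁ < y₃ < ym < y₄ < yn < J1`, `y₃` new,
`I0 < m₁ < m₂ < I1`; the same path. Faces:
 `{u, v, y}`: wk-socket with window `(I0, m₁)`, `y` on `x₁` (on the right) with window `(J0, j₁)`, zone
   `(C0, x₁)`.
 `{u, x, y}`: om-socket, `o = false`, in the roles `u := y` (line `y₃`), `v := u` (line `Yu`), window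
   `(m₁, m₂)`, `x` on `X` with window `(y₄, yn)`, zone of `y` and `x`: `X2 = X`, `(y₃, ym)`.
 `{v, x, y}`: om-socket with `v` instead of `u`, window `(m₂, I1)`, `(yn, J1)`, zone `(ym, y₄)`.
(`FillT` has the triangle as a set, use equality of sets for the order.) Fill the three faces one
after the other; the windows are disjoint and persist (`Solo.grow`). -/
theorem k4W {G : SimpleGraph V} {Γ : Dr V} {U : Bool → Finset ℚ} {u v x y : V}
    {Ja Jb Jc : Finset V} (hK : K4D G u v x y Ja Jb Jc) {Yu Yv I0 I1 X J0 J1 R C0 C1 : ℚ}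
    (hw : Wd G Γ U) (hun : ∀ p, p = y ∨ p ∈ Ja ∨ p ∈ Jb ∨ p ∈ Jc → Undrawn Γ p)
    (hS : CanSock Γ u v x Yu Yv I0 I1 X J0 J1) (hC : C0 < C1)
    (hz : Solo Γ {u, v} false R C0 C1) (hR : R ≤ J0) :
    K4Done G Γ U
      (seg false Yu I0 I1 ⊔ seg false Yv I0 I1 ⊔ seg true X J0 J1 ⊔ seg false R C0 C1)
      u v x y Ja Jb Jc := by
  obtain ⟨hI, hJ, hu, hv, hx, hne, hXI, huJ, hvJ⟩ := hS
  have hYuU : Yu ∈ U false := hu.mem (v := u) rfl hw.lines hI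
  have hYvU : Yv ∈ U false := hv.mem (v := v) rfl hw.lines hI
  have hXU : X ∈ U true := hx.mem (v := x) rfl hw.lines hJ
  have hRU : R ∈ U false := hz.mem (v := u) (Or.inl rfl) hw.lines hC
  have hyu : y ≠ u := hK.au.ne
  have hyv : y ≠ v := hK.av.ne
  have hyx : y ≠ x := hK.ax.ne
  obtain ⟨y₃, hy3a, hy3b, hy3n⟩ := exists_fresh U false hJ
  obtain ⟨j₂, hj2a, hj2b⟩ := exists_between hy3a
  obtain ⟨j₁, hj1a, hj1b⟩ := exists_between hj2a
  obtain ⟨yn, hyna, hynb⟩ := exists_between hy3b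
  obtain ⟨y₄, hy4a, hy4b⟩ := exists_between hyna
  obtain ⟨ym, hyma, hymb⟩ := exists_between hy4a
  have hYuy : Yu ≠ y₃ := fun h => hy3n (h ▸ hYuU)
  have hYvy : Yv ≠ y₃ := fun h => hy3n (h ▸ hYvU)
  have hRy : R ≠ y₃ := fun h => hy3n (h ▸ hRU)
  have hXwin : Solo Γ {x} true X y₃ y₄ := K4A_sub hx (by linarith) (by linarith)
  -- the allowed sets
  have d1 : seg false Yu I0 I1 ≤ nl U ⊔ (seg false Yu I0 I1 ⊔ seg false Yv I0 I1 ⊔
      seg true X J0 J1 ⊔ seg false R C0 C1) :=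
    le_trans (le_sup_left.trans (le_sup_left.trans le_sup_left)) le_sup_right
  have d2 : seg false Yv I0 I1 ≤ nl U ⊔ (seg false Yu I0 I1 ⊔ seg false Yv I0 I1 ⊔
      seg true X J0 J1 ⊔ seg false R C0 C1) :=
    le_trans (le_sup_right.trans (le_sup_left.trans le_sup_left)) le_sup_right
  have d3 : seg true X J0 J1 ≤ nl U ⊔ (seg false Yu I0 I1 ⊔ seg false Yv I0 I1 ⊔
      seg true X J0 J1 ⊔ seg false R C0 C1) :=
    le_trans (le_sup_right.trans le_sup_left) le_sup_right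
  have d4 : seg false R C0 C1 ≤ nl U ⊔ (seg false Yu I0 I1 ⊔ seg false Yv I0 I1 ⊔
      seg true X J0 J1 ⊔ seg false R C0 C1) :=
    le_trans le_sup_right le_sup_right
  rcases lt_or_ge C0 I1 with hcase | hcase
  · -- the zone begins on the left of `I1`
    obtain ⟨x₁, hx1a, hx1b, hx1n⟩ := exists_fresh U true (lt_min hC hcase)
    obtain ⟨c', hc1, hc2⟩ := exists_between hx1b
    have hc2a : c' < C1 := lt_of_lt_of_le hc2 (min_le_left _ _)
    have hc2b : c' < I1 := lt_of_lt_of_le hc2 (min_le_right _ _)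
    have hxX : x₁ ≠ X := fun h => hx1n (h ▸ hXU)
    obtain ⟨M, hM0, hMx, hMI⟩ : ∃ M, I0 ≤ M ∧ x₁ ≤ M ∧ M < I1 :=
      ⟨max I0 x₁, le_max_left _ _, le_max_right _ _, max_lt hI (hc1.trans hc2b)⟩
    obtain ⟨m₁, hm1a, hm1b⟩ := exists_between hMI
    obtain ⟨m₂, hm2a, hm2b⟩ := exists_between hm1b
    have hzwin : Solo Γ {u, v} false R x₁ c' := K4A_sub hz hx1a.le hc2a.le
    obtain ⟨Γ₁, U₁, hO⟩ := K4A_draw (D := seg false Yu I0 I1 ⊔ seg false Yv I0 I1 ⊔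
      seg true X J0 J1 ⊔ seg false R C0 C1) hw (hun y (Or.inl rfl)) hK.au hK.av hK.ax hc1
      (lt_of_le_of_lt hR hy3a) hy4a hx1n hy3n hzwin hXwin
      ((K4A_seg_le hx1a.le hc2a.le hc1).trans le_sup_right)
      ((K4A_seg_le (by linarith) (by linarith) hy4a).trans (le_sup_right.trans le_sup_left))
    have hRy3 : R < y₃ := lt_of_le_of_lt hR hy3a
    -- coverage of `y`
    have cy : ∀ o l z, z ∈ Γ₁ y o l ↔ (o = false ∧ l = R ∧ x₁ < z ∧ z < c') ∨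
        (o = true ∧ l = x₁ ∧ R < z ∧ z < y₃) ∨ z ∈ seg false y₃ x₁ X o l ∨
        (o = true ∧ l = X ∧ y₃ < z ∧ z < y₄) := by
      intro o l z
      rw [hO.mem, K4A_seg hc1, K4A_seg hRy3, K4A_seg hy4a]
    -- `y` does not cover the windows of `u` and `v`
    have nyu : ∀ z, I0 < z → z < I1 → z ∉ Γ₁ y false Yu := by
      intro z h1 h2 h3
      rcases (cy _ _ _).1 h3 with ⟨-, h4, h5, h6⟩ | ⟨h4, -⟩ | ⟨-, h4, -⟩ | ⟨h4, -⟩
      · have h7 : z ∈ Γ v false Yu := by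
          rw [h4]
          exact (hz z (hx1a.trans h5) (h6.trans hc2a) v).2 (Or.inr rfl)
        exact hK.uv ((hu z h1 h2 v).1 h7).symm
      · cases h4
      · exact hYuy h4
      · cases h4
    have nyv : ∀ z, I0 < z → z < I1 → z ∉ Γ₁ y false Yv := by
      intro z h1 h2 h3
      rcases (cy _ _ _).1 h3 with ⟨-, h4, h5, h6⟩ | ⟨h4, -⟩ | ⟨-, h4, -⟩ | ⟨h4, -⟩
      · have h7 : z ∈ Γ u false Yv := by
          rw [h4]
          exact (hz z (hx1a.trans h5) (h6.trans hc2a) u).2 (Or.inl rfl)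
        exact hK.uv ((hv z h1 h2 u).1 h7)
      · cases h4
      · exact hYvy h4
      · cases h4
    have wu : Solo Γ₁ {u} false Yu I0 I1 := hO.win hu hyu nyu
    have wv : Solo Γ₁ {v} false Yv I0 I1 := hO.win hv hyv nyv
    have wz : Solo Γ₁ {u, v} false R C0 x₁ := by
      refine hO.win (K4A_sub hz le_rfl (hc1.trans hc2a).le) ?_ ?_
      · rintro (h | h)
        · exact hyu h
        · exact hyv h
      · intro z h1 h2 h3
        rcases (cy _ _ _).1 h3 with ⟨-, -, h5, -⟩ | ⟨h4, -⟩ | ⟨-, h4, -⟩ | ⟨h4, -⟩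
        · linarith
        · cases h4
        · exact hRy h4
        · cases h4
    have wy : Solo Γ₁ {y} true x₁ R y₃ := by
      refine hO.winy (K4A_none hw hx1n R y₃) (fun w => by simp) ?_
      intro z h1 h2
      exact (cy _ _ _).2 (Or.inr (Or.inl ⟨rfl, rfl, h1, h2⟩))
    have wx1 : Solo Γ₁ {x} true X J0 y₃ := by
      refine hO.win (K4A_sub hx le_rfl hy3b.le) hyx ?_
      intro z h1 h2 h3
      rcases (cy _ _ _).1 h3 with ⟨h4, -⟩ | ⟨-, h4, -⟩ | ⟨h4, -⟩ | ⟨-, -, h4, -⟩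
      · cases h4
      · exact hxX h4.symm
      · cases h4
      · linarith
    have wx2 : Solo Γ₁ {x, y} true X y₃ y₄ := by
      refine hO.winy hXwin (fun w => ?_) ?_
      · simp only [Set.mem_insert_iff, Set.mem_singleton_iff]
        exact or_comm
      · intro z h1 h2
        exact (cy _ _ _).2 (Or.inr (Or.inr (Or.inr ⟨rfl, rfl, h1, h2⟩)))
    have hsub := hO.step.sub
    refine K4A_fin hK hun hO hc1 hy4a hzwin hXwin
      (K4A_wk (o := false) (u := u) (v := v) (x := y) (Yu := Yu) (Yv := Yv) (I0 := M) (I1 := m₁)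
        (X := x₁) (J0 := J0) (J1 := j₁) (R := R) (C0 := C0) (C1 := x₁) hK.fa rfl
        ⟨hm1a, hj1a, K4A_sub wu hM0 hm1b.le, K4A_sub wv hM0 hm1b.le,
          K4A_sub wy hR (by linarith), hne, Or.inl hMx⟩
        ⟨hx1a, wz, Or.inl ⟨huJ, hvJ, hR⟩⟩)
      (K4A_wk (o := true) (u := x) (v := y) (x := u) (Yu := X) (Yv := x₁) (I0 := j₁) (I1 := j₂)
        (X := Yu) (J0 := m₁) (J1 := m₂) (R := X) (C0 := y₃) (C1 := ym) hK.fb
        (by ext p; simp only [Finset.mem_insert, Finset.mem_singleton]; tauto)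
        ⟨hj1b, hm2a, K4A_sub wx1 hj1a.le hj2b.le, K4A_sub wy (by linarith) hj2b.le,
          K4A_sub wu (by linarith) (by linarith), hxX.symm, Or.inl (by linarith)⟩
        ⟨hyma, K4A_sub wx2 le_rfl hymb.le, Or.inl ⟨by linarith, by linarith, by linarith⟩⟩)
      (K4A_wk (o := true) (u := x) (v := y) (x := v) (Yu := X) (Yv := x₁) (I0 := j₂) (I1 := y₃)
        (X := Yv) (J0 := m₂) (J1 := I1) (R := X) (C0 := ym) (C1 := y₄) hK.fc
        (by ext p; simp only [Finset.mem_insert, Finset.mem_singleton]; tauto)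
        ⟨hj2b, hm2b, K4A_sub wx1 hj2a.le le_rfl, K4A_sub wy (by linarith) le_rfl,
          K4A_sub wv (by linarith) le_rfl, hxX.symm, Or.inl (by linarith)⟩
        ⟨hymb, K4A_sub wx2 hyma.le le_rfl, Or.inl ⟨by linarith, by linarith, by linarith⟩⟩)
      ?_ ?_ ?_ ?_ ?_ ?_ ?_ ?_
    · intro o l z h
      rcases K4A_mem4.1 h with ⟨rfl, rfl, -⟩ | ⟨rfl, rfl, -⟩ | ⟨rfl, rfl, -⟩ | ⟨rfl, rfl, -⟩
      · exact hsub _ hXU
      · exact hO.lx
      · exact hsub _ hYuU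
      · exact hsub _ hXU
    · intro o l z h
      rcases K4A_mem4.1 h with ⟨rfl, rfl, -⟩ | ⟨rfl, rfl, -⟩ | ⟨rfl, rfl, -⟩ | ⟨rfl, rfl, -⟩
      · exact hsub _ hXU
      · exact hO.lx
      · exact hsub _ hYvU
      · exact hsub _ hXU
    · intro o l z h h'
      simp only [K4A_mem4, K4A_seg hm1a, K4A_seg hj1a, K4A_seg hx1a, K4A_seg hj1b, K4A_seg hm2a,
        K4A_seg hyma, Bool.not_true, Bool.not_false] at h h'
      rcases h with h | h | h | h <;> rcases h' with h' | h' | h' | h' <;>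
        obtain ⟨r1, r2, r3, r4⟩ := h <;> obtain ⟨r5, r6, r7, r8⟩ := h' <;>
        first
        | linarith
        | exact absurd (r1.symm.trans r5) (by decide)
    · intro o l z h h'
      simp only [K4A_mem4, K4A_seg hm1a, K4A_seg hj1a, K4A_seg hx1a, K4A_seg hj2b, K4A_seg hm2b,
        K4A_seg hymb, Bool.not_true, Bool.not_false] at h h'
      rcases h with h | h | h | h <;> rcases h' with h' | h' | h' | h' <;>
        obtain ⟨r1, r2, r3, r4⟩ := h <;> obtain ⟨r5, r6, r7, r8⟩ := h' <;>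
        first
        | linarith
        | exact absurd (r1.symm.trans r5) (by decide)
    · intro o l z h h'
      simp only [K4A_mem4, K4A_seg hj2b, K4A_seg hm2b, K4A_seg hymb, K4A_seg hj1b, K4A_seg hm2a,
        K4A_seg hyma, Bool.not_true, Bool.not_false] at h h'
      rcases h with h | h | h | h <;> rcases h' with h' | h' | h' | h' <;>
        obtain ⟨r1, r2, r3, r4⟩ := h <;> obtain ⟨r5, r6, r7, r8⟩ := h' <;>
        first
        | linarith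
        | exact absurd (r1.symm.trans r5) (by decide)
    · refine sup_le (sup_le (sup_le ?_ ?_) ?_) ?_
      · exact (K4A_seg_le hM0 hm1b.le hm1a).trans d1
      · exact (K4A_seg_le hM0 hm1b.le hm1a).trans d2
      · exact (K4A_seg_nl hx1n).trans le_sup_left
      · exact (K4A_seg_le le_rfl (hc1.trans hc2a).le hx1a).trans d4
    · refine sup_le (sup_le (sup_le ?_ ?_) ?_) ?_
      · exact (K4A_seg_le hj1a.le (by linarith) hj1b).trans d3
      · exact (K4A_seg_nl hx1n).trans le_sup_left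
      · exact (K4A_seg_le (by linarith) (by linarith) hm2a).trans d1
      · exact (K4A_seg_le (by linarith) (by linarith) hyma).trans d3
    · refine sup_le (sup_le (sup_le ?_ ?_) ?_) ?_
      · exact (K4A_seg_le hj2a.le (by linarith) hj2b).trans d3
      · exact (K4A_seg_nl hx1n).trans le_sup_left
      · exact (K4A_seg_le (by linarith) le_rfl hm2b).trans d2
      · exact (K4A_seg_le (by linarith) (by linarith) hymb).trans d3
  · -- the zone is on the right of `I1`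
    obtain ⟨x₁, hx1a, hx1b, hx1n⟩ := exists_fresh U true hC
    obtain ⟨c', hc1, hc2a⟩ := exists_between hx1b
    have hxX : x₁ ≠ X := fun h => hx1n (h ▸ hXU)
    obtain ⟨m₁, hm1a, hm1b⟩ := exists_between hI
    obtain ⟨m₂, hm2a, hm2b⟩ := exists_between hm1b
    have hzwin : Solo Γ {u, v} false R x₁ c' := K4A_sub hz hx1a.le hc2a.le
    obtain ⟨Γ₁, U₁, hO⟩ := K4A_draw (D := seg false Yu I0 I1 ⊔ seg false Yv I0 I1 ⊔
      seg true X J0 J1 ⊔ seg false R C0 C1) hw (hun y (Or.inl rfl)) hK.au hK.av hK.ax hc1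
      (lt_of_le_of_lt hR hy3a) hy4a hx1n hy3n hzwin hXwin
      ((K4A_seg_le hx1a.le hc2a.le hc1).trans le_sup_right)
      ((K4A_seg_le (by linarith) (by linarith) hy4a).trans (le_sup_right.trans le_sup_left))
    have hRy3 : R < y₃ := lt_of_le_of_lt hR hy3a
    have hXx1 : X < x₁ := by linarith
    -- coverage of `y`
    have cy : ∀ o l z, z ∈ Γ₁ y o l ↔ (o = false ∧ l = R ∧ x₁ < z ∧ z < c') ∨
        (o = true ∧ l = x₁ ∧ R < z ∧ z < y₃) ∨ (o = false ∧ l = y₃ ∧ X < z ∧ z < x₁) ∨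
        (o = true ∧ l = X ∧ y₃ < z ∧ z < y₄) := by
      intro o l z
      rw [hO.mem, K4A_seg hc1, K4A_seg hRy3, K4A_seg hy4a, K4A_seg' hXx1]
    have wu : Solo Γ₁ {u} false Yu I0 I1 := by
      refine hO.win hu hyu ?_
      intro z h1 h2 h3
      rcases (cy _ _ _).1 h3 with ⟨-, -, h5, -⟩ | ⟨h4, -⟩ | ⟨-, h4, -⟩ | ⟨h4, -⟩
      · linarith
      · cases h4
      · exact hYuy h4
      · cases h4
    have wv : Solo Γ₁ {v} false Yv I0 I1 := by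
      refine hO.win hv hyv ?_
      intro z h1 h2 h3
      rcases (cy _ _ _).1 h3 with ⟨-, -, h5, -⟩ | ⟨h4, -⟩ | ⟨-, h4, -⟩ | ⟨h4, -⟩
      · linarith
      · cases h4
      · exact hYvy h4
      · cases h4
    have wz : Solo Γ₁ {u, v} false R C0 x₁ := by
      refine hO.win (K4A_sub hz le_rfl (hc1.trans hc2a).le) ?_ ?_
      · rintro (h | h)
        · exact hyu h
        · exact hyv h
      · intro z h1 h2 h3
        rcases (cy _ _ _).1 h3 with ⟨-, -, h5, -⟩ | ⟨h4, -⟩ | ⟨-, h4, -⟩ | ⟨h4, -⟩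
        · linarith
        · cases h4
        · exact hRy h4
        · cases h4
    have wy : Solo Γ₁ {y} true x₁ R y₃ := by
      refine hO.winy (K4A_none hw hx1n R y₃) (fun w => by simp) ?_
      intro z h1 h2
      exact (cy _ _ _).2 (Or.inr (Or.inl ⟨rfl, rfl, h1, h2⟩))
    have wy3 : Solo Γ₁ {y} false y₃ X x₁ := by
      refine hO.winy (K4A_none hw hy3n X x₁) (fun w => by simp) ?_
      intro z h1 h2
      exact (cy _ _ _).2 (Or.inr (Or.inr (Or.inl ⟨rfl, rfl, h1, h2⟩)))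
    have wx1 : Solo Γ₁ {x} true X y₄ J1 := by
      refine hO.win (K4A_sub hx (by linarith) le_rfl) hyx ?_
      intro z h1 h2 h3
      rcases (cy _ _ _).1 h3 with ⟨h4, -⟩ | ⟨-, h4, -⟩ | ⟨h4, -⟩ | ⟨-, -, -, h4⟩
      · cases h4
      · exact hxX h4.symm
      · cases h4
      · linarith
    have wx2 : Solo Γ₁ {y, x} true X y₃ y₄ := by
      refine hO.winy hXwin (fun w => ?_) ?_
      · simp only [Set.mem_insert_iff, Set.mem_singleton_iff]
      · intro z h1 h2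
        exact (cy _ _ _).2 (Or.inr (Or.inr (Or.inr ⟨rfl, rfl, h1, h2⟩)))
    have hsub := hO.step.sub
    refine K4A_fin hK hun hO hc1 hy4a hzwin hXwin
      (K4A_wk (o := false) (u := u) (v := v) (x := y) (Yu := Yu) (Yv := Yv) (I0 := I0) (I1 := m₁)
        (X := x₁) (J0 := J0) (J1 := j₁) (R := R) (C0 := C0) (C1 := x₁) hK.fa rfl
        ⟨hm1a, hj1a, K4A_sub wu le_rfl hm1b.le, K4A_sub wv le_rfl hm1b.le,
          K4A_sub wy hR (by linarith), hne, Or.inr (by linarith)⟩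
        ⟨hx1a, wz, Or.inl ⟨huJ, hvJ, hR⟩⟩)
      (K4A_om (o := false) (u := y) (v := u) (x := x) (Yu := y₃) (Yv := Yu) (I0 := m₁) (I1 := m₂)
        (X := X) (J0 := y₄) (J1 := yn) (X2 := X) (C0 := y₃) (C1 := ym) hK.fb
        (by ext p; simp only [Finset.mem_insert, Finset.mem_singleton]; tauto)
        ⟨hm2a, hy4b, K4A_sub wy3 (by linarith) (by linarith),
          K4A_sub wu (by linarith) (by linarith), K4A_sub wx1 le_rfl hynb.le, hYuy.symm,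
          Or.inl (by linarith)⟩
        ⟨hyma, K4A_sub wx2 le_rfl hymb.le, Or.inl ⟨by linarith, by linarith, by linarith⟩,
          Or.inr ⟨by linarith, by linarith⟩⟩)
      (K4A_om (o := false) (u := y) (v := v) (x := x) (Yu := y₃) (Yv := Yv) (I0 := m₂) (I1 := I1)
        (X := X) (J0 := yn) (J1 := J1) (X2 := X) (C0 := ym) (C1 := y₄) hK.fc
        (by ext p; simp only [Finset.mem_insert, Finset.mem_singleton]; tauto)
        ⟨hm2b, hynb, K4A_sub wy3 (by linarith) (by linarith),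
          K4A_sub wv (by linarith) le_rfl, K4A_sub wx1 hy4b.le le_rfl, hYvy.symm,
          Or.inl (by linarith)⟩
        ⟨hymb, K4A_sub wx2 hyma.le le_rfl, Or.inl ⟨by linarith, by linarith, by linarith⟩,
          Or.inr ⟨by linarith, by linarith⟩⟩)
      ?_ ?_ ?_ ?_ ?_ ?_ ?_ ?_
    · intro o l z h
      rcases K4A_mem4.1 h with ⟨rfl, rfl, -⟩ | ⟨rfl, rfl, -⟩ | ⟨rfl, rfl, -⟩ | ⟨rfl, rfl, -⟩
      · exact hO.ly
      · exact hsub _ hYuU
      · exact hsub _ hXU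
      · exact hsub _ hXU
    · intro o l z h
      rcases K4A_mem4.1 h with ⟨rfl, rfl, -⟩ | ⟨rfl, rfl, -⟩ | ⟨rfl, rfl, -⟩ | ⟨rfl, rfl, -⟩
      · exact hO.ly
      · exact hsub _ hYvU
      · exact hsub _ hXU
      · exact hsub _ hXU
    · intro o l z h h'
      simp only [K4A_mem4, K4A_seg hm1a, K4A_seg hj1a, K4A_seg hx1a, K4A_seg hy4b, K4A_seg hm2a,
        K4A_seg hyma, Bool.not_true, Bool.not_false] at h h'
      rcases h with h | h | h | h <;> rcases h' with h' | h' | h' | h' <;>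
        obtain ⟨r1, r2, r3, r4⟩ := h <;> obtain ⟨r5, r6, r7, r8⟩ := h' <;>
        first
        | linarith
        | exact absurd (r1.symm.trans r5) (by decide)
    · intro o l z h h'
      simp only [K4A_mem4, K4A_seg hm1a, K4A_seg hj1a, K4A_seg hx1a, K4A_seg hynb, K4A_seg hm2b,
        K4A_seg hymb, Bool.not_true, Bool.not_false] at h h'
      rcases h with h | h | h | h <;> rcases h' with h' | h' | h' | h' <;>
        obtain ⟨r1, r2, r3, r4⟩ := h <;> obtain ⟨r5, r6, r7, r8⟩ := h' <;>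
        first
        | linarith
        | exact absurd (r1.symm.trans r5) (by decide)
    · intro o l z h h'
      simp only [K4A_mem4, K4A_seg hynb, K4A_seg hm2b, K4A_seg hymb, K4A_seg hy4b, K4A_seg hm2a,
        K4A_seg hyma, Bool.not_true, Bool.not_false] at h h'
      rcases h with h | h | h | h <;> rcases h' with h' | h' | h' | h' <;>
        obtain ⟨r1, r2, r3, r4⟩ := h <;> obtain ⟨r5, r6, r7, r8⟩ := h' <;>
        first
        | linarith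
        | exact absurd (r1.symm.trans r5) (by decide)
    · refine sup_le (sup_le (sup_le ?_ ?_) ?_) ?_
      · exact (K4A_seg_le le_rfl hm1b.le hm1a).trans d1
      · exact (K4A_seg_le le_rfl hm1b.le hm1a).trans d2
      · exact (K4A_seg_nl hx1n).trans le_sup_left
      · exact (K4A_seg_le le_rfl (hc1.trans hc2a).le hx1a).trans d4
    · refine sup_le (sup_le (sup_le ?_ ?_) ?_) ?_
      · exact (K4A_seg_nl hy3n).trans le_sup_left
      · exact (K4A_seg_le hm1a.le hm2b.le hm2a).trans d1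
      · exact (K4A_seg_le (by linarith) (by linarith) hy4b).trans d3
      · exact (K4A_seg_le (by linarith) (by linarith) hyma).trans d3
    · refine sup_le (sup_le (sup_le ?_ ?_) ?_) ?_
      · exact (K4A_seg_nl hy3n).trans le_sup_left
      · exact (K4A_seg_le (by linarith) le_rfl hm2b).trans d2
      · exact (K4A_seg_le (by linarith) le_rfl hynb).trans d3
      · exact (K4A_seg_le (by linarith) (by linarith) hymb).trans d3

end EPG26
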