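import Pool.Agent.W_26e041_h61.K4A

/-!
A single vertex inside a triangle: drawing with a zone of `u` and `x`.
-/

namespace EPG26

variable {V : Type*} [DecidableEq V]

omit [DecidableEq V] in
theorem K4B_sub {Γ : Dr V} {S : Set V} {o : Bool} {l a b a' b' : ℚ} (h : Solo Γ S o l a b)
    (ha : a ≤ a') (hb : b' ≤ b) : Solo Γ S o l a' b' :=
  fun p h1 h2 => h p (lt_of_le_of_lt ha h1) (lt_of_lt_of_le h2 hb)

omit [DecidableEq V] in
theorem K4B_sub' {Γ : Dr V} {S : Set V} {o : Bool} {l a b a' b' : ℚ} (h : Solo Γ S o l a b)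
    (hs : ∀ p, a' < p → p < b' → a < p ∧ p < b) : Solo Γ S o l a' b' :=
  fun p h1 h2 => h p (hs p h1 h2).1 (hs p h1 h2).2

theorem K4B_old {Γ : Dr V} {S : Set V} {o : Bool} {l a b : ℚ} {y : V} {C : Cov}
    (h : Solo Γ S o l a b) (hy : y ∉ S) (hC : ∀ p, a < p → p < b → p ∉ C o l) :
    Solo (Function.update Γ y C) S o l a b := by
  intro p h1 h2 w
  by_cases hw : w = y
  · subst hw
    rw [Function.update_self]
    exact ⟨fun h3 => absurd h3 (hC p h1 h2), fun h3 => absurd h3 hy⟩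
  · rw [Function.update_of_ne hw]
    exact h p h1 h2 w

theorem K4B_new {Γ : Dr V} {S S' : Set V} {o : Bool} {l a b : ℚ} {y : V} {C : Cov}
    (h : Solo Γ S o l a b) (hC : ∀ p, a < p → p < b → p ∈ C o l)
    (hS : ∀ w, w ∈ S' ↔ w ∈ S ∨ w = y) :
    Solo (Function.update Γ y C) S' o l a b := by
  intro p h1 h2 w
  by_cases hw : w = y
  · subst hw
    rw [Function.update_self]
    exact ⟨fun _ => (hS w).2 (Or.inr rfl), fun _ => hC p h1 h2⟩
  · rw [Function.update_of_ne hw, h p h1 h2 w, hS w]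
    exact ⟨Or.inl, fun h3 => h3.resolve_right hw⟩

omit [DecidableEq V] in
theorem K4B_empty {Γ : Dr V} {U : Bool → Finset ℚ} (hl : LinesIn Γ U) {o : Bool} {l : ℚ}
    (h : l ∉ U o) (a b : ℚ) : Solo Γ ∅ o l a b :=
  fun p _ _ w => ⟨fun h3 => absurd (hl w o l p h3) h, fun h3 => absurd h3 (Set.notMem_empty w)⟩

theorem K4B_keep {G : SimpleGraph V} {Γ Γ' : Dr V} {U U' : Bool → Finset ℚ} {D : Cov}
    {K : Set V} {S : Set V} {o : Bool} {l a b : ℚ} (h : Step G Γ U (nl U ⊔ D) K Γ' U')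
    (hl : l ∈ U o) (hd : ∀ p, a < p → p < b → p ∉ D o l) (hs : Solo Γ S o l a b) :
    Solo Γ' S o l a b :=
  hs.grow h.grow fun p h1 h2 h3 => h3.elim (fun h4 => h4 hl) (hd p h1 h2)

theorem K4B_nl {U U' : Bool → Finset ℚ} (h : ∀ o, U o ⊆ U' o) : nl U' ≤ nl U :=
  fun _ _ _ h1 h2 => h1 (h _ h2)

theorem K4B_set1 (a b c : V) : ({a, b, c} : Finset V) = {a, c, b} := by
  ext w
  simp only [Finset.mem_insert, Finset.mem_singleton]
  tauto

theorem K4B_set2 (a b c : V) : ({a, b, c} : Finset V) = {b, c, a} := by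
  ext w
  simp only [Finset.mem_insert, Finset.mem_singleton]
  tauto

/-- Fill the three faces one after the other. -/
theorem K4B_three {G : SimpleGraph V} {Γ Γ₁ : Dr V} {U U₁ : Bool → Finset ℚ}
    {D Da Db Dc : Cov} {u v x y : V} {Ja Jb Jc : Finset V} (hK : K4D G u v x y Ja Jb Jc)
    (h1 : Step G Γ U (nl U ⊔ D) {y} Γ₁ U₁) (hp : IsPath3 (Γ₁ y)) (hou : Ov Γ₁ y u)
    (hov : Ov Γ₁ y v) (hox : Ov Γ₁ y x) (hDa : Da ≤ nl U ⊔ D) (hDb : Db ≤ nl U ⊔ D)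
    (hDc : Dc ≤ nl U ⊔ D) (hc : CanFill G Γ₁ U₁ Dc Jc)
    (hb : ∀ Γ₂ U₂, Step G Γ₁ U₁ (nl U₁ ⊔ Dc) ↑Jc Γ₂ U₂ → CanFill G Γ₂ U₂ Db Jb)
    (ha : ∀ Γ₃ U₃, Step G Γ₁ U₁ (nl U₁ ⊔ (Dc ⊔ Db)) (↑Jc ∪ ↑Jb) Γ₃ U₃ →
      CanFill G Γ₃ U₃ Da Ja) :
    K4Done G Γ U D u v x y Ja Jb Jc := by
  obtain ⟨Γ₂, U₂, s2, f2⟩ := hc
  obtain ⟨Γ₃, U₃, s3, f3⟩ := hb Γ₂ U₂ s2
  have n1 : nl U₁ ≤ nl U := K4B_nl h1.sub
  have n2 : nl U₂ ≤ nl U₁ := K4B_nl s2.sub
  have s13 : Step G Γ₁ U₁ (nl U₁ ⊔ (Dc ⊔ Db)) (↑Jc ∪ ↑Jb) Γ₃ U₃ := by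
    refine Step.trans (s2.weaken ?_ Set.subset_union_left) (s3.weaken ?_ Set.subset_union_right)
    · exact sup_le_sup le_rfl le_sup_left
    · exact sup_le (n2.trans le_sup_left) (le_sup_right.trans le_sup_right)
  obtain ⟨Γ₄, U₄, s4, f4⟩ := ha Γ₃ U₃ s13
  have n3 : nl U₃ ≤ nl U₁ := K4B_nl s13.sub
  have s14 : Step G Γ₁ U₁ (nl U ⊔ D) {p | p = y ∨ p ∈ Ja ∨ p ∈ Jb ∨ p ∈ Jc} Γ₄ U₄ := by
    refine Step.trans (s13.weaken ?_ ?_) (s4.weaken ?_ ?_)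
    · exact sup_le (n1.trans le_sup_left) (sup_le hDc hDb)
    · rintro p (h | h)
      · exact Or.inr (Or.inr (Or.inr h))
      · exact Or.inr (Or.inr (Or.inl h))
    · exact sup_le (n3.trans (n1.trans le_sup_left)) hDa
    · intro p h
      exact Or.inr (Or.inl h)
  have sall : Step G Γ U (nl U ⊔ D) {p | p = y ∨ p ∈ Ja ∨ p ∈ Jb ∨ p ∈ Jc} Γ₄ U₄ :=
    Step.trans (h1.weaken le_rfl fun p h => Or.inl h) s14
  have e1 : Γ₂ y = Γ₁ y := s2.grow.eq (fun h => hK.oy.2.2 h)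
  have e2 : Γ₃ y = Γ₂ y := s3.grow.eq (fun h => hK.oy.2.1 h)
  have e3 : Γ₄ y = Γ₃ y := s4.grow.eq (fun h => hK.oy.1 h)
  refine ⟨Γ₄, U₄, sall, ?_, f4, ?_, ?_, hou.mono s14.grow, hov.mono s14.grow,
    hox.mono s14.grow⟩
  · rw [e3, e2, e1]
    exact hp
  · exact f3.mono s4.grow fun w hw h => (Finset.disjoint_left.1 hK.ab) h hw
  · refine (f2.mono s3.grow fun w hw h => (Finset.disjoint_left.1 hK.bc) h hw).mono s4.grow
      fun w hw h => (Finset.disjoint_left.1 hK.ac) h hw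

theorem K4B_zig {c X2 y₃ x₁ Yv x₁' : ℚ} {o : Bool} {l a : ℚ} :
    a ∈ zig true [c, X2, y₃, x₁, Yv, x₁'] o l ↔
      (o = true ∧ l = X2 ∧ min c y₃ < a ∧ a < max c y₃) ∨
      (o = false ∧ l = y₃ ∧ min X2 x₁ < a ∧ a < max X2 x₁) ∨
      (o = true ∧ l = x₁ ∧ min y₃ Yv < a ∧ a < max y₃ Yv) ∨
      (o = false ∧ l = Yv ∧ min x₁ x₁' < a ∧ a < max x₁ x₁') := by
  constructor
  · rintro (h | h | h | h | h)
    · exact Or.inl h
    · exact Or.inr (Or.inl h)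
    · exact Or.inr (Or.inr (Or.inl h))
    · exact Or.inr (Or.inr (Or.inr h))
    · exact absurd h (Set.notMem_empty a)
  · rintro (h | h | h | h)
    · exact Or.inl h
    · exact Or.inr (Or.inl h)
    · exact Or.inr (Or.inr (Or.inl h))
    · exact Or.inr (Or.inr (Or.inr (Or.inl h)))

theorem K4B_seg {o : Bool} {l a b : ℚ} {o' : Bool} {l' p : ℚ} :
    p ∈ seg o l a b o' l' ↔ o' = o ∧ l' = l ∧ min a b < p ∧ p < max a b := Iff.rfl

theorem K4B_segle {o : Bool} {l a b a' b' : ℚ} (h : ∀ p, min a b < p → p < max a b →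
    min a' b' < p ∧ p < max a' b') : seg o l a b ≤ seg o l a' b' :=
  fun _ _ p hp => ⟨hp.1, hp.2.1, h p hp.2.2.1 hp.2.2.2⟩

/-- the drawing with abstract windows -/
theorem K4B_core {G : SimpleGraph V} {Γ : Dr V} {U : Bool → Finset ℚ} {u v x y : V}
    {Ja Jb Jc : Finset V} (hK : K4D G u v x y Ja Jb Jc) {Yu Yv I0 I1 X J0 J1 X2 C0 C1 : ℚ}
    (hw : Wd G Γ U) (hun : ∀ p, p = y ∨ p ∈ Ja ∨ p ∈ Jb ∨ p ∈ Jc → Undrawn Γ p)
    (hS : CanSock Γ u v x Yu Yv I0 I1 X J0 J1) (hC : C0 < C1)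
    (hz : Solo Γ {u, x} true X2 C0 C1) (hR : C1 ≤ J0)
    {c y₃ r₀ r₁ ul p₀ p₁ q₀ q₁ x₁ x₁' B yu : ℚ}
    (hc0 : C0 < c) (hc1 : c < C1) (h30 : C0 < y₃) (h31 : y₃ < C1) (hc3 : c ≠ y₃)
    (h3 : y₃ ∉ U false) (hr0 : C0 ≤ r₀) (hr : r₀ < r₁) (hr1 : r₁ ≤ C1)
    (dr : ∀ a, r₀ < a → a < r₁ → ¬ (min c y₃ < a ∧ a < max c y₃))
    (hsame : (Yu < y₃ ∧ r₁ ≤ y₃) ∨ (y₃ < Yu ∧ y₃ ≤ r₀))
    (hvz : C1 ≤ Yv ∨ Yv ≤ C0)
    (hul : (Yv < ul ∧ ul ≤ Yu ∧ ul ≤ y₃) ∨ (Yu ≤ ul ∧ y₃ ≤ ul ∧ ul < Yv))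
    (hp : p₀ < p₁) (hq : q₀ < q₁) (hp0 : I0 ≤ p₀) (hp1 : p₁ ≤ I1) (hq0 : I0 ≤ q₀)
    (hq1 : q₁ ≤ I1)
    (hzI : ∀ a, min x₁ x₁' < a → a < max x₁ x₁' → I0 < a ∧ a < I1)
    (hkI : ∀ a, min B x₁ < a → a < max B x₁ → I0 < a ∧ a < I1)
    (hpt : ∀ a, p₀ < a → a < p₁ → min X2 x₁ < a ∧ a < max X2 x₁)
    (hqt : ∀ a, q₀ < a → a < q₁ → min X2 x₁ < a ∧ a < max X2 x₁)
    (d1 : ∀ a, p₀ < a → a < p₁ → ¬ (min x₁ x₁' < a ∧ a < max x₁ x₁'))
    (d2 : ∀ a, q₀ < a → a < q₁ → ¬ (p₀ < a ∧ a < p₁))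
    (d3 : ∀ a, min B x₁ < a → a < max B x₁ → ¬ (p₀ < a ∧ a < p₁))
    (d4 : ∀ a, min B x₁ < a → a < max B x₁ → ¬ (q₀ < a ∧ a < q₁))
    (d5 : ∀ a, min B x₁ < a → a < max B x₁ → ¬ (min x₁ x₁' < a ∧ a < max x₁ x₁'))
    (hB : (B < yu ∧ yu ≤ x₁) ∨ (x₁ ≤ yu ∧ yu < B)) (hxx : x₁ ≠ x₁') (hx₁ : x₁ ∉ U true) :
    K4Done G Γ U
      (seg false Yu I0 I1 ⊔ seg false Yv I0 I1 ⊔ seg true X J0 J1 ⊔ seg true X2 C0 C1)
      u v x y Ja Jb Jc := by
  have hyu : y ≠ u := hK.au.ne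
  have hyv : y ≠ v := hK.av.ne
  have hyx : y ≠ x := hK.ax.ne
  have hX2 : X2 ∈ U true := hz.mem (v := u) (by simp) hw.lines hC
  have hXU : X ∈ U true := hS.hx.mem (v := x) (by simp) hw.lines hS.hJ
  have hYuU : Yu ∈ U false := hS.hu.mem (v := u) (by simp) hw.lines hS.hI
  have hYvU : Yv ∈ U false := hS.hv.mem (v := v) (by simp) hw.lines hS.hI
  have nx2 : X2 ≠ x₁ := fun h => hx₁ (h ▸ hX2)
  have nxX : X ≠ x₁ := fun h => hx₁ (h ▸ hXU)
  have n3u : Yu ≠ y₃ := fun h => h3 (h ▸ hYuU)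
  have n3v : Yv ≠ y₃ := fun h => h3 (h ▸ hYvU)
  have nyd : Undrawn Γ y := hun y (Or.inl rfl)
  obtain ⟨Jm, hJ0, hJ1⟩ := exists_between hS.hJ
  have hcy0 : C0 < min c y₃ := lt_min hc0 h30
  have hcy1 : max c y₃ < C1 := max_lt hc1 h31
  have hcym : min c y₃ < max c y₃ := min_lt_max.2 hc3
  have hxm : min x₁ x₁' < max x₁ x₁' := min_lt_max.2 hxx
  have hBx : B ≠ x₁ := by
    rintro rfl
    rcases hB with ⟨h1, h2⟩ | ⟨h1, h2⟩ <;> linarith
  have hkm : min B x₁ < max B x₁ := min_lt_max.2 hBx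
  -- the path of `y`
  have hstep : Step G Γ U
      (nl U ⊔ (seg false Yu I0 I1 ⊔ seg false Yv I0 I1 ⊔ seg true X J0 J1 ⊔ seg true X2 C0 C1)) {y}
      (Function.update Γ y (zig true [c, X2, y₃, x₁, Yv, x₁']))
      (addL (addL U false y₃) true x₁) := by
    refine Step.draw hw ?_ ?_ ?_ ?_ ?_
    · intro o l hl
      exact mem_addL.2 (Or.inl (mem_addL.2 (Or.inl hl)))
    · intro o l a ha
      exact absurd ha (nyd o l a)
    · intro o l a ha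
      rcases K4B_zig.1 ha with ⟨rfl, rfl, h⟩ | ⟨rfl, rfl, h⟩ | ⟨rfl, rfl, h⟩ | ⟨rfl, rfl, h⟩
      · exact mem_addL.2 (Or.inl (mem_addL.2 (Or.inl hX2)))
      · exact mem_addL.2 (Or.inl (mem_addL.2 (Or.inr ⟨rfl, rfl⟩)))
      · exact mem_addL.2 (Or.inr ⟨rfl, rfl⟩)
      · exact mem_addL.2 (Or.inl (mem_addL.2 (Or.inl hYvU)))
    · intro o l a ha _
      rcases K4B_zig.1 ha with ⟨rfl, rfl, h⟩ | ⟨rfl, rfl, h⟩ | ⟨rfl, rfl, h⟩ | ⟨rfl, rfl, h⟩
      · refine Or.inr (Or.inr ⟨rfl, rfl, ?_, ?_⟩)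
        · rw [min_eq_left hC.le]
          exact hcy0.trans h.1
        · rw [max_eq_right hC.le]
          exact h.2.trans hcy1
      · exact Or.inl h3
      · exact Or.inl hx₁
      · refine Or.inr (Or.inl (Or.inl (Or.inr ⟨rfl, rfl, ?_, ?_⟩)))
        · rw [min_eq_left hS.hI.le]
          exact (hzI a h.1 h.2).1
        · rw [max_eq_right hS.hI.le]
          exact (hzI a h.1 h.2).2
    · intro o l a ha _ w hwy hwa
      rcases K4B_zig.1 ha with ⟨rfl, rfl, h⟩ | ⟨rfl, rfl, h⟩ | ⟨rfl, rfl, h⟩ | ⟨rfl, rfl, h⟩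
      · have h4 := (hz a (hcy0.trans h.1) (h.2.trans hcy1) w).1 hwa
        rcases h4 with rfl | h4
        · exact hK.au
        · rw [Set.mem_singleton_iff] at h4
          rw [h4]
          exact hK.ax
      · exact absurd (hw.lines w _ _ _ hwa) h3
      · exact absurd (hw.lines w _ _ _ hwa) hx₁
      · have h4 := (hS.hv a (hzI a h.1 h.2).1 (hzI a h.1 h.2).2 w).1 hwa
        rw [Set.mem_singleton_iff] at h4
        rw [h4]
        exact hK.av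
  have hU1 : ∀ o l, l ∈ U o → l ∈ addL (addL U false y₃) true x₁ o :=
    fun o l hl => mem_addL.2 (Or.inl (mem_addL.2 (Or.inl hl)))
  have h3U : y₃ ∈ addL (addL U false y₃) true x₁ false :=
    mem_addL.2 (Or.inl (mem_addL.2 (Or.inr ⟨rfl, rfl⟩)))
  have h1U : x₁ ∈ addL (addL U false y₃) true x₁ true := mem_addL.2 (Or.inr ⟨rfl, rfl⟩)
  -- windows
  have w1 : Solo (Function.update Γ y (zig true [c, X2, y₃, x₁, Yv, x₁'])) {v} false Yv p₀ p₁ := by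
    refine K4B_old (K4B_sub hS.hv hp0 hp1) (fun h => hyv h) fun a h1 h2 h4 => ?_
    rcases K4B_zig.1 h4 with ⟨h5, _⟩ | ⟨_, h5, _⟩ | ⟨h5, _⟩ | ⟨_, _, h5⟩
    · cases h5
    · exact n3v h5
    · cases h5
    · exact d1 a h1 h2 h5
  have w2 : Solo (Function.update Γ y (zig true [c, X2, y₃, x₁, Yv, x₁'])) {y} false y₃ p₀ p₁ := by
    refine K4B_new (K4B_empty hw.lines h3 _ _) (fun a h1 h2 => ?_) (fun w => by simp)
    exact K4B_zig.2 (Or.inr (Or.inl ⟨rfl, rfl, hpt a h1 h2⟩))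
  have w3 : Solo (Function.update Γ y (zig true [c, X2, y₃, x₁, Yv, x₁'])) {x} true X J0 J1 := by
    refine K4B_old hS.hx (fun h => hyx h) fun a h1 h2 h4 => ?_
    rcases K4B_zig.1 h4 with ⟨_, _, _, h5⟩ | ⟨h5, _⟩ | ⟨_, h5, _⟩ | ⟨h5, _⟩
    · linarith
    · cases h5
    · exact nxX h5
    · cases h5
  have w4 : Solo (Function.update Γ y (zig true [c, X2, y₃, x₁, Yv, x₁'])) {v, y} false Yv
      (min x₁ x₁') (max x₁ x₁') := by
    refine K4B_new (K4B_sub' hS.hv hzI) (fun a h1 h2 => ?_) (fun w => by simp)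
    exact K4B_zig.2 (Or.inr (Or.inr (Or.inr ⟨rfl, rfl, h1, h2⟩)))
  have w5 : Solo (Function.update Γ y (zig true [c, X2, y₃, x₁, Yv, x₁'])) {u} false Yu I0 I1 := by
    refine K4B_old hS.hu (fun h => hyu h) fun a h1 h2 h4 => ?_
    rcases K4B_zig.1 h4 with ⟨h5, _⟩ | ⟨_, h5, _⟩ | ⟨h5, _⟩ | ⟨_, h5, _⟩
    · cases h5
    · exact n3u h5
    · cases h5
    · exact hS.ne h5
  have w6 : Solo (Function.update Γ y (zig true [c, X2, y₃, x₁, Yv, x₁'])) {y} false y₃ q₀ q₁ := by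
    refine K4B_new (K4B_empty hw.lines h3 _ _) (fun a h1 h2 => ?_) (fun w => by simp)
    exact K4B_zig.2 (Or.inr (Or.inl ⟨rfl, rfl, hqt a h1 h2⟩))
  have w7 : Solo (Function.update Γ y (zig true [c, X2, y₃, x₁, Yv, x₁'])) {u, x} true X2
      r₀ r₁ := by
    refine K4B_old (K4B_sub hz hr0 hr1) ?_ fun a h1 h2 h4 => ?_
    · rintro (h | h)
      · exact hyu h
      · exact hyx h
    · rcases K4B_zig.1 h4 with ⟨_, _, h5⟩ | ⟨h5, _⟩ | ⟨_, h5, _⟩ | ⟨h5, _⟩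
      · exact dr a h1 h2 h5
      · cases h5
      · exact nx2 h5
      · cases h5
  have w8 : Solo (Function.update Γ y (zig true [c, X2, y₃, x₁, Yv, x₁'])) {v} false Yv
      (min B x₁) (max B x₁) := by
    refine K4B_old (K4B_sub' hS.hv hkI) (fun h => hyv h) fun a h1 h2 h4 => ?_
    rcases K4B_zig.1 h4 with ⟨h5, _⟩ | ⟨_, h5, _⟩ | ⟨h5, _⟩ | ⟨_, _, h5⟩
    · cases h5
    · exact n3v h5
    · cases h5
    · exact d5 a h1 h2 h5
  have hulm : ∀ a, min Yv ul < a → a < max Yv ul → min y₃ Yv < a ∧ a < max y₃ Yv := by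
    intro a h1 h2
    rcases hul with ⟨h4, h5, h6⟩ | ⟨h4, h5, h6⟩
    · rw [min_eq_left h4.le] at h1
      rw [max_eq_right h4.le] at h2
      have h7 : Yv ≤ y₃ := h4.le.trans h6
      rw [min_eq_right h7, max_eq_left h7]
      exact ⟨h1, h2.trans_le h6⟩
    · rw [min_eq_right h6.le] at h1
      rw [max_eq_left h6.le] at h2
      have h7 : y₃ ≤ Yv := h5.trans h6.le
      rw [min_eq_left h7, max_eq_right h7]
      exact ⟨lt_of_le_of_lt h5 h1, h2⟩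
  have w9 : Solo (Function.update Γ y (zig true [c, X2, y₃, x₁, Yv, x₁'])) {y} true x₁
      (min Yv ul) (max Yv ul) := by
    refine K4B_new (K4B_empty hw.lines hx₁ _ _) (fun a h1 h2 => ?_) (fun w => by simp)
    exact K4B_zig.2 (Or.inr (Or.inr (Or.inl ⟨rfl, rfl, hulm a h1 h2⟩)))
  have hYuJ := hS.uJ
  have hYvJ := hS.vJ
  have hyuk : ∀ a, min B yu < a → a < max B yu → min B x₁ < a ∧ a < max B x₁ := by
    intro a h1 h2
    rcases hB with ⟨h4, h5⟩ | ⟨h4, h5⟩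
    · rw [min_eq_left h4.le] at h1
      rw [max_eq_right h4.le] at h2
      have h7 : B ≤ x₁ := h4.le.trans h5
      rw [min_eq_left h7, max_eq_right h7]
      exact ⟨h1, h2.trans_le h5⟩
    · rw [min_eq_right h5.le] at h1
      rw [max_eq_left h5.le] at h2
      have h7 : x₁ ≤ B := h4.trans h5.le
      rw [min_eq_right h7, max_eq_left h7]
      exact ⟨lt_of_le_of_lt h4 h1, h2⟩
  -- membership in segments
  have mm : ∀ {a b p : ℚ}, a < b → (min a b < p ∧ p < max a b ↔ a < p ∧ p < b) := by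
    intro a b p hab
    rw [min_eq_left hab.le, max_eq_right hab.le]
  have mk : ∀ {b b' p : ℚ}, (min (min b b') (max b b') < p ∧ p < max (min b b') (max b b')) ↔
      (min b b' < p ∧ p < max b b') := by
    intro b b' p
    rw [min_eq_left min_le_max, max_eq_right min_le_max]
  have hpath : IsPath3 (Function.update Γ y (zig true [c, X2, y₃, x₁, Yv, x₁']) y) := by
    rw [Function.update_self]
    refine ⟨true, [c, X2, y₃, x₁, Yv, x₁'], by simp, by simp, ?_, ?_, fun _ _ _ => Iff.rfl⟩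
    · exact ⟨hc3, nx2, n3v.symm, hxx, trivial⟩
    · rintro ⟨h1, h2, _, _⟩
      rcases hvz with h4 | h4 <;> linarith
  have hou : Ov (Function.update Γ y (zig true [c, X2, y₃, x₁, Yv, x₁'])) y u := by
    obtain ⟨a, h1, h2⟩ := exists_between hcym
    refine ⟨true, X2, a, ?_, ?_⟩
    · rw [Function.update_self]
      exact K4B_zig.2 (Or.inl ⟨rfl, rfl, h1, h2⟩)
    · rw [Function.update_of_ne hyu.symm]
      exact (hz a (hcy0.trans h1) (h2.trans hcy1) u).2 (by simp)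
  have hov : Ov (Function.update Γ y (zig true [c, X2, y₃, x₁, Yv, x₁'])) y v := by
    obtain ⟨a, h1, h2⟩ := exists_between hxm
    refine ⟨false, Yv, a, ?_, ?_⟩
    · rw [Function.update_self]
      exact K4B_zig.2 (Or.inr (Or.inr (Or.inr ⟨rfl, rfl, h1, h2⟩)))
    · rw [Function.update_of_ne hyv.symm]
      exact (hS.hv a (hzI a h1 h2).1 (hzI a h1 h2).2 v).2 (by simp)
  have hox : Ov (Function.update Γ y (zig true [c, X2, y₃, x₁, Yv, x₁'])) y x := by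
    obtain ⟨a, h1, h2⟩ := exists_between hcym
    refine ⟨true, X2, a, ?_, ?_⟩
    · rw [Function.update_self]
      exact K4B_zig.2 (Or.inl ⟨rfl, rfl, h1, h2⟩)
    · rw [Function.update_of_ne hyx.symm]
      exact (hz a (hcy0.trans h1) (h2.trans hcy1) x).2 (by simp)
  generalize Function.update Γ y (zig true [c, X2, y₃, x₁, Yv, x₁']) = Γ₁ at *
  generalize addL (addL U false y₃) true x₁ = U₁ at *
  refine K4B_three hK hstep hpath hou hov hox (Da := seg false Yv B x₁ ⊔ seg true x₁ Yv ul ⊔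
      seg false Yu B yu)
    (Db := seg false Yu q₀ q₁ ⊔ seg false y₃ q₀ q₁ ⊔ seg true X Jm J1 ⊔ seg true X2 r₀ r₁)
    (Dc := seg false Yv p₀ p₁ ⊔ seg false y₃ p₀ p₁ ⊔ seg true X J0 Jm ⊔
      seg false Yv (min x₁ x₁') (max x₁ x₁')) ?_ ?_ ?_ ?_ ?_ ?_
  · -- Da
    refine sup_le (sup_le ?_ ?_) ?_
    · refine le_trans (K4B_segle fun a h1 h2 => ?_)
        (le_trans (le_trans (le_trans le_sup_right le_sup_left) le_sup_left) le_sup_right)
      exact (mm hS.hI).2 (hkI a h1 h2)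
    · intro o l a h
      obtain ⟨rfl, rfl, _⟩ := K4B_seg.1 h
      exact Or.inl hx₁
    · refine le_trans (K4B_segle fun a h1 h2 => ?_)
        (le_trans (le_trans (le_trans le_sup_left le_sup_left) le_sup_left) le_sup_right)
      exact (mm hS.hI).2 (hkI a (hyuk a h1 h2).1 (hyuk a h1 h2).2)
  · -- Db
    refine sup_le (sup_le (sup_le ?_ ?_) ?_) ?_
    · refine le_trans (K4B_segle fun a h1 h2 => ?_)
        (le_trans (le_trans (le_trans le_sup_left le_sup_left) le_sup_left) le_sup_right)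
      have h5 := (mm hq).1 ⟨h1, h2⟩
      exact (mm hS.hI).2 ⟨lt_of_le_of_lt hq0 h5.1, lt_of_lt_of_le h5.2 hq1⟩
    · intro o l a h
      obtain ⟨rfl, rfl, _⟩ := K4B_seg.1 h
      exact Or.inl h3
    · refine le_trans (K4B_segle fun a h1 h2 => ?_)
        (le_trans (le_trans le_sup_right le_sup_left) le_sup_right)
      have h5 := (mm hJ1).1 ⟨h1, h2⟩
      exact (mm hS.hJ).2 ⟨hJ0.trans h5.1, h5.2⟩
    · refine le_trans (K4B_segle fun a h1 h2 => ?_) (le_trans le_sup_right le_sup_right)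
      have h5 := (mm hr).1 ⟨h1, h2⟩
      exact (mm hC).2 ⟨lt_of_le_of_lt hr0 h5.1, lt_of_lt_of_le h5.2 hr1⟩
  · -- Dc
    refine sup_le (sup_le (sup_le ?_ ?_) ?_) ?_
    · refine le_trans (K4B_segle fun a h1 h2 => ?_)
        (le_trans (le_trans (le_trans le_sup_right le_sup_left) le_sup_left) le_sup_right)
      have h5 := (mm hp).1 ⟨h1, h2⟩
      exact (mm hS.hI).2 ⟨lt_of_le_of_lt hp0 h5.1, lt_of_lt_of_le h5.2 hp1⟩
    · intro o l a h
      obtain ⟨rfl, rfl, _⟩ := K4B_seg.1 h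
      exact Or.inl h3
    · refine le_trans (K4B_segle fun a h1 h2 => ?_)
        (le_trans (le_trans le_sup_right le_sup_left) le_sup_right)
      have h5 := (mm hJ0).1 ⟨h1, h2⟩
      exact (mm hS.hJ).2 ⟨h5.1, h5.2.trans hJ1⟩
    · refine le_trans (K4B_segle fun a h1 h2 => ?_)
        (le_trans (le_trans (le_trans le_sup_right le_sup_left) le_sup_left) le_sup_right)
      have h5 := mk.1 ⟨h1, h2⟩
      exact (mm hS.hI).2 (hzI a h5.1 h5.2)
  · -- fill the face `v, x, y`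
    refine hK.fc.wk _ _ v y x false Yv y₃ p₀ p₁ X J0 Jm Yv (min x₁ x₁') (max x₁ x₁') ?_ hstep.wd
      ?_ ⟨hp, hJ0, w1, w2, K4B_sub w3 le_rfl hJ1.le, n3v, Or.inl (hS.XI.trans hp0)⟩
      ⟨hxm, w4, Or.inl ⟨hYvJ, by linarith, hYvJ⟩⟩
    · exact K4B_set1 v x y
    · intro w hw'
      refine (hun w (Or.inr (Or.inr (Or.inr hw')))).grow hstep.grow fun h => ?_
      exact hK.oy.2.2 (Set.mem_singleton_iff.1 h ▸ hw')
  · -- fill the face `u, x, y`
    intro Γ₂ U₂ s2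
    refine hK.fb.om _ _ u y x false Yu y₃ q₀ q₁ X Jm J1 X2 r₀ r₁ ?_ s2.wd ?_
      ⟨hq, hJ1, K4B_keep s2 (hU1 _ _ hYuU) ?_ (K4B_sub w5 hq0 hq1), K4B_keep s2 h3U ?_ w6,
        K4B_keep s2 (hU1 _ _ hXU) ?_ (K4B_sub w3 hJ0.le le_rfl), n3u,
        Or.inl (hS.XI.trans hq0)⟩
      ⟨hr, K4B_keep s2 (hU1 _ _ hX2) ?_ w7, Or.inl ⟨by linarith, by linarith, by linarith⟩,
        hsame⟩
    · exact K4B_set1 u x y
    · intro w hw'
      refine ((hun w (Or.inr (Or.inr (Or.inl hw')))).grow hstep.grow fun h => ?_).grow s2.grow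
        fun h => ?_
      · exact hK.oy.2.1 (Set.mem_singleton_iff.1 h ▸ hw')
      · exact (Finset.disjoint_left.1 hK.bc) hw' h
    · rintro a h1 h2 (((h | h) | h) | h)
      · exact hS.ne h.2.1
      · exact n3u h.2.1
      · cases h.1
      · exact hS.ne h.2.1
    · rintro a h1 h2 (((h | h) | h) | h)
      · exact n3v h.2.1.symm
      · exact d2 a h1 h2 ((mm hp).1 h.2.2)
      · cases h.1
      · exact n3v h.2.1.symm
    · rintro a h1 h2 (((h | h) | h) | h)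
      · cases h.1
      · cases h.1
      · have h5 := (mm hJ0).1 h.2.2
        linarith [h5.2]
      · cases h.1
    · rintro a h1 h2 (((h | h) | h) | h)
      · cases h.1
      · cases h.1
      · have h5 := (mm hJ0).1 h.2.2
        linarith [h5.1]
      · cases h.1
  · -- fill the face `u, v, y`
    intro Γ₃ U₃ s3
    refine hK.fa.corner _ _ v y u false Yv x₁ Yu B ul yu ?_ s3.wd ?_
      ⟨K4B_keep s3 (hU1 _ _ hYvU) ?_ w8, K4B_keep s3 h1U ?_ w9,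
        K4B_keep s3 (hU1 _ _ hYuU) ?_ (K4B_sub' w5 fun a h1 h2 => hkI a (hyuk a h1 h2).1
          (hyuk a h1 h2).2), hB, ?_⟩
    · exact K4B_set2 u v y
    · intro w hw'
      refine ((hun w (Or.inr (Or.inl hw'))).grow hstep.grow fun h => ?_).grow s3.grow
        fun h => ?_
      · exact hK.oy.1 (Set.mem_singleton_iff.1 h ▸ hw')
      · rcases h with h | h
        · exact (Finset.disjoint_left.1 hK.ac) hw' h
        · exact (Finset.disjoint_left.1 hK.ab) hw' h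
    · rintro a h1 h2 ((((h | h) | h) | h) | (((h | h) | h) | h))
      · exact d3 a h1 h2 ((mm hp).1 h.2.2)
      · exact n3v h.2.1
      · cases h.1
      · exact d5 a h1 h2 (mk.1 h.2.2)
      · exact hS.ne h.2.1.symm
      · exact n3v h.2.1
      · cases h.1
      · cases h.1
    · rintro a h1 h2 ((((h | h) | h) | h) | (((h | h) | h) | h))
      · cases h.1
      · cases h.1
      · exact nxX h.2.1.symm
      · cases h.1
      · cases h.1
      · cases h.1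
      · exact nxX h.2.1.symm
      · exact nx2 h.2.1.symm
    · rintro a h1 h2 ((((h | h) | h) | h) | (((h | h) | h) | h))
      · exact hS.ne h.2.1
      · exact n3u h.2.1
      · cases h.1
      · exact hS.ne h.2.1
      · exact d4 a (hyuk a h1 h2).1 (hyuk a h1 h2).2 ((mm hq).1 h.2.2)
      · exact n3u h.2.1
      · cases h.1
      · cases h.1
    · rcases hul with ⟨h4, h5, _⟩ | ⟨h4, _, h6⟩
      · exact Or.inl ⟨h4, h5⟩
      · exact Or.inr ⟨h4, h6⟩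

/-- Zone of `u` and `x` on the column `X2` between `C0` and `C1 ≤ J0`.
Choice of `y₃` (new, not in `U false`), `c` and the rest zone `(r₀, r₁)`: if `Yu < C1` choose
`max Yu C0 < y₃ < c < C1` and `(r₀, r₁) = (C0, y₃)`; otherwise (`C1 ≤ Yu`) choose `C0 < c < y₃ < C1` and
`(r₀, r₁) = (y₃, C1)`. In both cases `y₃` and `Yu` are on the same side of `Yv` (by `hs`), `c ≠ y₃`, and
`Yv` is not between `c` and `y₃`; `(Yu < y₃ ∧ r₁ ≤ y₃) ∨ (y₃ < Yu ∧ y₃ ≤ r₀)`.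
Case 1, `X2 < I1`: `max I0 X2 < e₁ < e₂ < x₁ < x₁' < I1`, `x₁` new. Draw
`Γ y = zig true [c, X2, y₃, x₁, Yv, x₁']`: it meets `u, x` on `X2` and `v` on `Yv` between `x₁` and `x₁'`. Let
`J0 < Jm < J1`, `yu` between `e₂` and `x₁`, and `ul` strictly between `Yv` and both of `y₃`, `Yu`. Faces:
 `{v, x, y}`: wk-socket, `o = false`, lines `Yv` (`v`), `y₃` (`y`), window `(max I0 X2, e₁)`, `x` on `X`
   with window `(J0, Jm)`, zone of `v` and `y` on `Yv`: `(x₁, x₁')`.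
 `{u, x, y}`: om-socket, `o = false`, lines `Yu` (`u`), `y₃` (`y`), window `(e₁, e₂)`, `x` on `X` with
   window `(Jm, J1)`, zone of `u` and `x`: `X2`, `(r₀, r₁)`.
 `{u, v, y}`: corner socket with `o = false`: `s = v` on `Xs = Yv`, `r = y` on `Yr = x₁`, `t = u` on `Xt = Yu`,
   `B = e₂`, `u = ul`, `yu` (in the window `(e₂, x₁)`).
Case 2, `I1 ≤ X2`: `I0 < x₁' < x₁ < e₁ < e₂ < I1`, the same path; the wk-socket has the window
`(e₁, e₂)` and the zone `(x₁', x₁)`, the om-socket the window `(e₂, I1)`, and the corner the window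
`(x₁, e₁)`: `B = e₁`, `x₁ < yu < e₁`. -/
theorem k4O {G : SimpleGraph V} {Γ : Dr V} {U : Bool → Finset ℚ} {u v x y : V}
    {Ja Jb Jc : Finset V} (hK : K4D G u v x y Ja Jb Jc) {Yu Yv I0 I1 X J0 J1 X2 C0 C1 : ℚ}
    (hw : Wd G Γ U) (hun : ∀ p, p = y ∨ p ∈ Ja ∨ p ∈ Jb ∨ p ∈ Jc → Undrawn Γ p)
    (hS : CanSock Γ u v x Yu Yv I0 I1 X J0 J1) (hC : C0 < C1)
    (hz : Solo Γ {u, x} true X2 C0 C1) (hR : C1 ≤ J0)
    (hs : (Yu < Yv ∧ C1 ≤ Yv) ∨ (Yv < Yu ∧ Yv ≤ C0)) :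
    K4Done G Γ U
      (seg false Yu I0 I1 ⊔ seg false Yv I0 I1 ⊔ seg true X J0 J1 ⊔ seg true X2 C0 C1)
      u v x y Ja Jb Jc := by
  -- the vertical data
  have hvert : ∃ c y₃ r₀ r₁ : ℚ, C0 < c ∧ c < C1 ∧ C0 < y₃ ∧ y₃ < C1 ∧ c ≠ y₃ ∧ y₃ ∉ U false ∧
      C0 ≤ r₀ ∧ r₀ < r₁ ∧ r₁ ≤ C1 ∧
      (∀ a, r₀ < a → a < r₁ → ¬ (min c y₃ < a ∧ a < max c y₃)) ∧
      ((Yu < y₃ ∧ r₁ ≤ y₃) ∨ (y₃ < Yu ∧ y₃ ≤ r₀)) := by
    rcases lt_or_ge Yu C1 with h | h
    · obtain ⟨y₃, h1, h2, h4⟩ := exists_fresh U false (max_lt h hC : max Yu C0 < C1)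
      obtain ⟨c, h5, h6⟩ := exists_between h2
      have h7 : Yu < y₃ := lt_of_le_of_lt (le_max_left _ _) h1
      have h8 : C0 < y₃ := lt_of_le_of_lt (le_max_right _ _) h1
      refine ⟨c, y₃, C0, y₃, h8.trans h5, h6, h8, h2, h5.ne', h4, le_rfl, h8, h2.le, ?_,
        Or.inl ⟨h7, le_rfl⟩⟩
      rintro a _ h9 ⟨h10, _⟩
      rw [min_eq_right h5.le] at h10
      linarith
    · obtain ⟨y₃, h1, h2, h4⟩ := exists_fresh U false hC
      obtain ⟨c, h5, h6⟩ := exists_between h1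
      have h7 : y₃ < Yu := lt_of_lt_of_le h2 h
      refine ⟨c, y₃, y₃, C1, h5, h6.trans h2, h1, h2, h6.ne, h4, h1.le, h2, le_rfl, ?_,
        Or.inr ⟨h7, le_rfl⟩⟩
      rintro a h9 _ ⟨_, h10⟩
      rw [max_eq_right h6.le] at h10
      linarith
  obtain ⟨c, y₃, r₀, r₁, hc0, hc1, h30, h31, hc3, h3, hr0, hr, hr1, dr, hsame⟩ := hvert
  have hvz : C1 ≤ Yv ∨ Yv ≤ C0 := by
    rcases hs with h | h
    · exact Or.inl h.2
    · exact Or.inr h.2
  have hul : ∃ ul : ℚ, (Yv < ul ∧ ul ≤ Yu ∧ ul ≤ y₃) ∨ (Yu ≤ ul ∧ y₃ ≤ ul ∧ ul < Yv) := by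
    rcases hs with ⟨h1, h2⟩ | ⟨h1, h2⟩
    · obtain ⟨ul, h4, h5⟩ := exists_between (max_lt h1 (lt_of_lt_of_le h31 h2) :
        max Yu y₃ < Yv)
      exact ⟨ul, Or.inr ⟨(le_max_left _ _).trans h4.le, (le_max_right _ _).trans h4.le, h5⟩⟩
    · obtain ⟨ul, h4, h5⟩ := exists_between (lt_min h1 (lt_of_le_of_lt h2 h30) :
        Yv < min Yu y₃)
      exact ⟨ul, Or.inl ⟨h4, h5.le.trans (min_le_left _ _), h5.le.trans (min_le_right _ _)⟩⟩
  obtain ⟨ul, hul⟩ := hul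
  rcases lt_or_ge X2 I1 with h | h
  · -- case 1
    obtain ⟨x₁, g1, g2, hx₁⟩ := exists_fresh U true (max_lt hS.hI h : max I0 X2 < I1)
    obtain ⟨x₁', g3, g4⟩ := exists_between g2
    obtain ⟨e₂, g5, g6⟩ := exists_between g1
    obtain ⟨e₁, g7, g8⟩ := exists_between g5
    obtain ⟨yu, g9, g10⟩ := exists_between g6
    have hI0 : I0 ≤ max I0 X2 := le_max_left _ _
    have hX2' : X2 ≤ max I0 X2 := le_max_right _ _
    have hx2 : X2 < x₁ := lt_of_le_of_lt hX2' g1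
    refine K4B_core hK hw hun hS hC hz hR (c := c) (y₃ := y₃) (r₀ := r₀) (r₁ := r₁) (ul := ul)
      (p₀ := max I0 X2) (p₁ := e₁) (q₀ := e₁) (q₁ := e₂) (x₁ := x₁) (x₁' := x₁') (B := e₂)
      (yu := yu) hc0 hc1 h30 h31 hc3 h3 hr0 hr hr1 dr hsame hvz hul g7 g8 hI0 (by linarith)
      (by linarith) (by linarith) ?_ ?_ ?_ ?_ ?_ ?_ ?_ ?_ ?_ (Or.inl ⟨g9, g10.le⟩) g3.ne hx₁
    · intro a h1 h2
      rw [min_eq_left g3.le] at h1
      rw [max_eq_right g3.le] at h2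
      constructor <;> linarith
    · intro a h1 h2
      rw [min_eq_left g6.le] at h1
      rw [max_eq_right g6.le] at h2
      constructor <;> linarith
    · intro a h1 h2
      rw [min_eq_left hx2.le, max_eq_right hx2.le]
      constructor <;> linarith
    · intro a h1 h2
      rw [min_eq_left hx2.le, max_eq_right hx2.le]
      constructor <;> linarith
    · rintro a h1 h2 ⟨h4, h5⟩
      rw [min_eq_left g3.le] at h4
      linarith
    · rintro a h1 h2 ⟨h4, h5⟩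
      linarith
    · rintro a h1 h2 ⟨h4, h5⟩
      rw [min_eq_left g6.le] at h1
      linarith
    · rintro a h1 h2 ⟨h4, h5⟩
      rw [min_eq_left g6.le] at h1
      linarith
    · rintro a h1 h2 ⟨h4, h5⟩
      rw [max_eq_right g6.le] at h2
      rw [min_eq_left g3.le] at h4
      linarith
  · -- case 2
    obtain ⟨x₁, g1, g2, hx₁⟩ := exists_fresh U true hS.hI
    obtain ⟨x₁', g3, g4⟩ := exists_between g1
    obtain ⟨e₁, g5, g6⟩ := exists_between g2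
    obtain ⟨e₂, g7, g8⟩ := exists_between g6
    obtain ⟨yu, g9, g10⟩ := exists_between g5
    have hx2 : x₁ < X2 := lt_of_lt_of_le g2 h
    refine K4B_core hK hw hun hS hC hz hR (c := c) (y₃ := y₃) (r₀ := r₀) (r₁ := r₁) (ul := ul)
      (p₀ := e₁) (p₁ := e₂) (q₀ := e₂) (q₁ := I1) (x₁ := x₁) (x₁' := x₁') (B := e₁)
      (yu := yu) hc0 hc1 h30 h31 hc3 h3 hr0 hr hr1 dr hsame hvz hul g7 g8 (by linarith) g8.le
      (by linarith) le_rfl ?_ ?_ ?_ ?_ ?_ ?_ ?_ ?_ ?_ (Or.inr ⟨g9.le, g10⟩) g4.ne' hx₁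
    · intro a h1 h2
      rw [min_eq_right g4.le] at h1
      rw [max_eq_left g4.le] at h2
      constructor <;> linarith
    · intro a h1 h2
      rw [min_eq_right g5.le] at h1
      rw [max_eq_left g5.le] at h2
      constructor <;> linarith
    · intro a h1 h2
      rw [min_eq_right hx2.le, max_eq_left hx2.le]
      constructor <;> linarith
    · intro a h1 h2
      rw [min_eq_right hx2.le, max_eq_left hx2.le]
      constructor <;> linarith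
    · rintro a h1 h2 ⟨h4, h5⟩
      rw [max_eq_left g4.le] at h5
      linarith
    · rintro a h1 h2 ⟨h4, h5⟩
      linarith
    · rintro a h1 h2 ⟨h4, h5⟩
      rw [max_eq_left g5.le] at h2
      linarith
    · rintro a h1 h2 ⟨h4, h5⟩
      rw [max_eq_left g5.le] at h2
      linarith
    · rintro a h1 h2 ⟨h4, h5⟩
      rw [min_eq_right g5.le] at h1
      rw [max_eq_left g4.le] at h5
      linarith

end EPG26
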