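import Pool.Agent.W_26e041_h61.GeoS

/-!
Lines: a horizontal line `Λ` covered by its owner `ow`, on which neighbours of `ow` start one after
the other with vertical columns and short stubs to the right.
-/

namespace EPG26

variable {V : Type*} [DecidableEq V]

/-- The line `Λ` of the owner `ow`; `v` is the last vertex on it, with column `lc` and a stub which
ends at `e` (and may be extended). `(c0, e)` is a zone of `ow` and `v`, from `e` to `R` only `ow` covers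
the line. `(lo, hi)` is a reserve of `ow` to the left of all columns. The column of `v` is clean between
`s0` and `s1`. -/
structure LineOK (Γ : Dr V) (D : Cov) (ow : V) (Λ : ℚ) (v : V) (lc c0 e R lo hi s0 s1 : ℚ) :
    Prop where
  h1 : lo < hi
  h2 : hi ≤ lc
  h3 : lc ≤ c0
  h4 : c0 < e
  h5 : e < R
  h6 : Λ ≤ s0
  h7 : s0 < s1
  zone : SW Γ D {ow, v} false Λ c0 e
  free : ∀ x, e ≤ x → x ≤ R → x ∈ D false Λ ∧ ∀ w, x ∈ Γ w false Λ ↔ w = ow
  res : SW Γ D {ow} false Λ lo hi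
  strip : SW Γ D {v} true lc s0 s1

/-- the coverage `C` is a path with a stub on the line `Λ` ending at `e` that may be extended -/
def Ext (Λ e : ℚ) (C : Cov) : Prop := ∀ e', e ≤ e' → IsPath3 (C ⊔ hseg false Λ e e')

/-- where a step on the line may draw -/
def lineD (U : Bool → Finset ℚ) (Λ lc c0 b lo hi s0 s1 : ℚ) : Cov :=
  nl U ⊔ seg false Λ lo hi ⊔ seg false Λ c0 b ⊔ seg true lc s0 s1

theorem LineA_mem {o o' : Bool} {l l' a b x : ℚ} (h : a ≤ b) :
    x ∈ seg o l a b o' l' ↔ o' = o ∧ l' = l ∧ a < x ∧ x < b := by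
  show (o' = o ∧ l' = l ∧ min a b < x ∧ x < max a b) ↔ _
  rw [min_eq_left h, max_eq_right h]

/-- everything `lineD` allows is in `D` -/
theorem lineD_le {Γ : Dr V} {U : Bool → Finset ℚ} {D : Cov} {ow v : V}
    {Λ lc c0 e R lo hi s0 s1 b : ℚ} (hD : Adm U D) (h : LineOK Γ D ow Λ v lc c0 e R lo hi s0 s1)
    (hc : c0 ≤ b) (hb : b ≤ R) : lineD U Λ lc c0 b lo hi s0 s1 ≤ D := by
  rintro o l x (((h1 | h1) | h1) | h1)
  · exact hD o l h1
  · obtain ⟨rfl, rfl, h2, h3⟩ := (LineA_mem h.h1.le).1 h1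
    exact (h.res x h2 h3).1
  · obtain ⟨rfl, rfl, h2, h3⟩ := (LineA_mem hc).1 h1
    rcases lt_or_ge x e with h4 | h4
    · exact (h.zone x h2 h4).1
    · exact (h.free x h4 (h3.le.trans hb)).1
  · obtain ⟨rfl, rfl, h2, h3⟩ := (LineA_mem h.h7.le).1 h1
    exact (h.strip x h2 h3).1

/-- `e' = e`. -/
theorem Ext.path {Λ e : ℚ} {C : Cov} (h : Ext Λ e C) : IsPath3 C := by
  have h1 := h e le_rfl
  have h2 : C ⊔ hseg false Λ e e = C := by
    refine le_antisymm (sup_le le_rfl ?_) le_sup_left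
    rintro o l x ⟨-, -, ha, hb⟩
    exact absurd (lt_of_le_of_lt ha hb) (lt_irrefl _)
  rwa [h2] at h1

/-- `(C ⊔ [e, s)) ⊔ [s, e') = C ⊔ [e, e')`. -/
theorem Ext.extend {Λ e s : ℚ} {C : Cov} (h : Ext Λ e C) (hs : e ≤ s) :
    Ext Λ s (C ⊔ hseg false Λ e s) := by
  intro e' he'
  have h1 := h e' (hs.trans he')
  have h2 : C ⊔ hseg false Λ e s ⊔ hseg false Λ s e' = C ⊔ hseg false Λ e e' := by
    refine le_antisymm (sup_le (sup_le le_sup_left ?_) ?_) (sup_le ?_ ?_)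
    · rintro o l x ⟨ho, hl, ha, hb⟩
      exact Or.inr ⟨ho, hl, ha, lt_of_lt_of_le hb he'⟩
    · rintro o l x ⟨ho, hl, ha, hb⟩
      exact Or.inr ⟨ho, hl, hs.trans ha, hb⟩
    · exact le_trans le_sup_left le_sup_left
    · rintro o l x ⟨ho, hl, ha, hb⟩
      rcases lt_or_ge x s with h3 | h3
      · exact Or.inl (Or.inr ⟨ho, hl, ha, h3⟩)
      · exact Or.inr ⟨ho, hl, h3, hb⟩
  rwa [h2]

/-- Growth elsewhere. -/
theorem LineOK.grow {Γ Γ' : Dr V} {D D₁ : Cov} {K : Set V} {ow v : V}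
    {Λ lc c0 e R lo hi s0 s1 : ℚ} (h : LineOK Γ D ow Λ v lc c0 e R lo hi s0 s1)
    (hg : Grow Γ Γ' D₁ K) (hd1 : ∀ x, lo < x → x < hi → x ∉ D₁ false Λ)
    (hd2 : ∀ x, c0 < x → x ≤ R → x ∉ D₁ false Λ)
    (hd3 : ∀ x, s0 < x → x < s1 → x ∉ D₁ true lc) :
    LineOK Γ' D ow Λ v lc c0 e R lo hi s0 s1 := by
  refine ⟨h.h1, h.h2, h.h3, h.h4, h.h5, h.h6, h.h7, ?_, ?_, ?_, ?_⟩
  · exact h.zone.grow hg fun x hx hx' => hd2 x hx (hx'.le.trans h.h5.le)
  · intro x hx hx'
    refine ⟨(h.free x hx hx').1, fun w => ⟨fun hw => ?_, fun hw => ?_⟩⟩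
    · rcases hg.new w false Λ x hw with h4 | h4
      · exact ((h.free x hx hx').2 w).1 h4
      · exact absurd h4.2 (hd2 x (lt_of_lt_of_le h.h4 hx) hx')
    · exact hg.mono w false Λ x (((h.free x hx hx').2 w).2 hw)
  · exact h.res.grow hg hd1
  · exact h.strip.grow hg hd3

/-- Extend the stub of `v` over the start of the next vertex `w` and fill the face of `ow, v, w`.
`w` has its column at `Rw` (clean on `(s0, s1)`) and covers `(Rw, nr)` of the line, together with `ow`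
only; at `Rw` itself only `ow` covers the line.
Choose `s` with `m < s < nr`, `x₁ ∈ (lo, hi)`, `y₁ ∈ (s0, s1)`. First draw `hseg false Λ e s` for `v`
(`Step.draw`; it meets only `ow` and `w`). Then fill the face in the om-socket with `o = true`,
`u = v` (column `lc`), `v = w` (column `Rw`), window `(s0, y₁)`, `x = ow` on the line `Λ ≤ s0`, its window
`(J0, J1) = (lo, x₁)` left of both columns, zone of `v` and `ow`: `(c0, Rw)` of the line `Λ`. -/
theorem LineOK.join {G : SimpleGraph V} {Γ : Dr V} {U : Bool → Finset ℚ} {D : Cov}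
    {ow v w : V} {Λ lc c0 e R lo hi s0 s1 Rw m nr : ℚ} {J : Finset V} (hw : Wd G Γ U)
    (h : LineOK Γ D ow Λ v lc c0 e R lo hi s0 s1) (hvw : G.Adj v w) (hvo : G.Adj v ow)
    (hRw : e < Rw) (hRR : Rw ≤ R) (hm : Rw ≤ m) (hnr : m < nr)
    (hcol : Solo Γ {w} true Rw s0 s1) (hrow : Solo Γ {ow, w} false Λ Rw nr)
    (hJ : ∀ p ∈ J, Undrawn Γ p ∧ p ≠ v ∧ p ≠ w ∧ p ≠ ow) (hf : FillT G {v, w, ow} J) :
    ∃ Γ' U' s x₁ y₁, m < s ∧ s < nr ∧ lo < x₁ ∧ x₁ < hi ∧ s0 < y₁ ∧ y₁ < s1 ∧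
      Step G Γ U (lineD U Λ lc c0 s lo x₁ s0 y₁ ⊔ seg true Rw s0 y₁) {p | p = v ∨ p ∈ J} Γ' U' ∧
      Γ' v = Γ v ⊔ hseg false Λ e s ∧ Filled G Γ' J ∧ Ov Γ' v w ∧
      Solo Γ' {ow, w} false Λ s nr := by
  obtain ⟨s, hs1, hs2⟩ := exists_between hnr
  obtain ⟨x₁, hx1, hx2⟩ := exists_between h.h1
  obtain ⟨y₁, hy1, hy2⟩ := exists_between h.h7
  have hΛ : Λ ∈ U false := h.zone.mem (v := ow) (Or.inl rfl) hw.lines h.h4
  have hRs : Rw < s := lt_of_le_of_lt hm hs1
  have hes : e < s := hRw.trans hRs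
  have hlcR : lc < Rw := lt_of_le_of_lt h.h3 (h.h4.trans hRw)
  have hx1lc : x₁ < lc := lt_of_lt_of_le hx2 h.h2
  have hx1c0 : x₁ < c0 := lt_of_lt_of_le hx1lc h.h3
  have hstep : Step G Γ U (hseg false Λ e s) {v} (Function.update Γ v (Γ v ⊔ hseg false Λ e s)) U := by
    refine Step.draw hw (fun _ _ h3 => h3) le_sup_left ?_ ?_ ?_
    · rintro o' l x (hx | ⟨rfl, rfl, -, -⟩)
      · exact hw.lines _ _ _ _ hx
      · exact hΛ
    · rintro o' l x (hx | hx) hn
      · exact absurd hx hn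
      · exact hx
    · rintro o' l x (hx | ⟨rfl, rfl, ha, hb⟩) hn w' hwv hxw
      · exact absurd hx hn
      · rcases le_or_gt x Rw with hxR | hxR
        · rw [((h.free x ha (hxR.trans hRR)).2 w').1 hxw]
          exact hvo
        · rcases (hrow x hxR (hb.trans hs2) w').1 hxw with h5 | h5
          · rw [h5]
            exact hvo
          · rw [Set.mem_singleton_iff.1 h5]
            exact hvw
  have hne : ∀ q, q ≠ v → Function.update Γ v (Γ v ⊔ hseg false Λ e s) q = Γ q :=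
    fun q hq => Function.update_of_ne hq _ _
  have hvv : Function.update Γ v (Γ v ⊔ hseg false Λ e s) v = Γ v ⊔ hseg false Λ e s :=
    Function.update_self _ _ _
  have hov : Ov (Function.update Γ v (Γ v ⊔ hseg false Λ e s)) v w := by
    obtain ⟨x, hxa, hxb⟩ := exists_between hRs
    refine ⟨false, Λ, x, ?_, ?_⟩
    · rw [hvv]
      exact Or.inr ⟨rfl, rfl, (hRw.trans hxa).le, hxb⟩
    · exact hstep.grow.mono w false Λ x ((hrow x hxa (hxb.trans hs2) w).2 (Or.inr rfl))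
  have hns : Solo (Function.update Γ v (Γ v ⊔ hseg false Λ e s)) {ow, w} false Λ s nr := by
    refine Solo.grow (fun x ha hb => hrow x (hRs.trans ha) hb) hstep.grow ?_
    rintro x ha hb ⟨-, -, -, hc⟩
    exact absurd (ha.trans hc) (lt_irrefl _)
  have hsock : SockR (Function.update Γ v (Γ v ⊔ hseg false Λ e s)) v w ow true lc Rw s0 y₁ Λ lo x₁ := by
    refine ⟨hy1, hx1, ?_, ?_, ?_, hlcR.ne, Or.inl h.h6⟩
    · refine Solo.grow (fun x ha hb => h.strip.solo x ha (hb.trans hy2)) hstep.grow ?_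
      rintro x - - ⟨ho, -⟩
      exact absurd ho (by simp)
    · refine Solo.grow (fun x ha hb => hcol x ha (hb.trans hy2)) hstep.grow ?_
      rintro x - - ⟨ho, -⟩
      exact absurd ho (by simp)
    · refine Solo.grow (fun x ha hb => h.res.solo x ha (hb.trans hx2)) hstep.grow ?_
      rintro x ha hb ⟨-, -, hc, -⟩
      exact absurd (lt_of_le_of_lt hc (hb.trans (hx1c0.trans h.h4))) (lt_irrefl _)
  have hzone : ZoneO (Function.update Γ v (Γ v ⊔ hseg false Λ e s)) v ow true lc Rw lo x₁ Λ c0 Rw := by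
    refine ⟨h.h4.trans hRw, ?_, Or.inr ⟨hx1lc.le, (hx1lc.trans hlcR).le, hx1c0.le⟩,
      Or.inl ⟨hlcR, le_rfl⟩⟩
    intro x ha hb q
    rcases lt_or_ge x e with hxe | hxe
    · constructor
      · intro hq
        rcases hstep.grow.new q false Λ x hq with h4 | h4
        · rcases ((h.zone x ha hxe).2 q).1 h4 with h5 | h5
          · exact Or.inr h5
          · exact Or.inl h5
        · exact Or.inl h4.1
      · rintro (hq | hq)
        · exact hstep.grow.mono q false Λ x (((h.zone x ha hxe).2 q).2 (Or.inr hq))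
        · exact hstep.grow.mono q false Λ x (((h.zone x ha hxe).2 q).2 (Or.inl hq))
    · constructor
      · intro hq
        rcases hstep.grow.new q false Λ x hq with h4 | h4
        · exact Or.inr (((h.free x hxe (hb.le.trans hRR)).2 q).1 h4)
        · exact Or.inl h4.1
      · rintro (hq | hq)
        · rw [hq, hvv]
          exact Or.inr ⟨rfl, rfl, hxe, hb.trans hRs⟩
        · exact hstep.grow.mono q false Λ x (((h.free x hxe (hb.le.trans hRR)).2 q).2 hq)
  have hund : ∀ p ∈ J, Undrawn (Function.update Γ v (Γ v ⊔ hseg false Λ e s)) p := fun p hp =>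
    (hJ p hp).1.grow hstep.grow (fun hc => (hJ p hp).2.1 hc)
  obtain ⟨Γ', U', hst', hfill⟩ := hf.om _ U v w ow true lc Rw s0 y₁ Λ lo x₁ Λ c0 Rw rfl hstep.wd
    hund hsock hzone
  have hst1 : Step G Γ U (lineD U Λ lc c0 s lo x₁ s0 y₁ ⊔ seg true Rw s0 y₁)
      {p | p = v ∨ p ∈ J} (Function.update Γ v (Γ v ⊔ hseg false Λ e s)) U := by
    refine hstep.weaken ?_ ?_
    · rintro o l x ⟨ho, hl, ha, hb⟩
      exact Or.inl (Or.inl (Or.inr ((LineA_mem (h.h4.trans hes).le).2 ⟨ho, hl, h.h4.trans_le ha, hb⟩)))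
    · intro q hq
      exact Or.inl hq
  have hst2 : Step G (Function.update Γ v (Γ v ⊔ hseg false Λ e s)) U
      (lineD U Λ lc c0 s lo x₁ s0 y₁ ⊔ seg true Rw s0 y₁) {p | p = v ∨ p ∈ J} Γ' U' := by
    refine hst'.weaken ?_ ?_
    · rintro o l x (hx | ((hx | hx) | hx) | ⟨ho, hl, ha, hb⟩)
      · exact Or.inl (Or.inl (Or.inl (Or.inl hx)))
      · exact Or.inl (Or.inr hx)
      · exact Or.inr hx
      · exact Or.inl (Or.inl (Or.inl (Or.inr hx)))
      · rw [min_eq_left (h.h4.trans hRw).le] at ha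
        rw [max_eq_right (h.h4.trans hRw).le] at hb
        exact Or.inl (Or.inl (Or.inr ((LineA_mem (h.h4.trans hes).le).2 ⟨ho, hl, ha, hb.trans hRs⟩)))
    · intro q hq
      exact Or.inr hq
  refine ⟨Γ', U', s, x₁, y₁, hs1, hs2, hx1, hx2, hy1, hy2, hst1.trans hst2, ?_, hfill,
    hov.mono hst'.grow, ?_⟩
  · rw [hst'.grow.eq (v := v) (fun hc => (hJ v hc).2.1 rfl), hvv]
  · refine hns.grow hst'.grow ?_
    rintro x ha hb (hx | ((⟨ho, -⟩ | ⟨ho, -⟩) | ⟨ho, hl, hc, hd⟩) | ⟨ho, hl, hc, hd⟩)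
    · exact hx hΛ
    · exact absurd ho (by simp)
    · exact absurd ho (by simp)
    · rw [max_eq_right hx1.le] at hd
      exact absurd (ha.trans (hd.trans (hx1c0.trans (h.h4.trans hes)))) (lt_irrefl _)
    · rw [max_eq_right (h.h4.trans hRw).le] at hd
      exact absurd (ha.trans (hd.trans hRs)) (lt_irrefl _)

/-- Put a new vertex `p` on the line: it gets the column `lc'` from `Λ` up to `Yt`, a stub to the
right and the additional coverage `E` on new lines. Choose `e'` with `m < e' < b`, draw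
`Γ' p = seg false Λ lc' e' ⊔ seg true lc' Λ Yt ⊔ E` (`Step.draw`; it meets only `ow`) and apply
`LineOK.join` with `w = p`, `Rw = lc'`, `nr = e'`. The set `U'` contains `U`, `lc'` and the lines of `UE`
before the filling, so the filling does not use these lines except `lc'` between `s0` and `y₁`. -/
theorem LineOK.place {G : SimpleGraph V} {Γ : Dr V} {U : Bool → Finset ℚ} {D : Cov}
    {ow v p : V} {Λ lc c0 e R lo hi s0 s1 lc' m b Yt : ℚ} {J : Finset V} {E : Cov}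
    {UE : Bool → Finset ℚ} (hw : Wd G Γ U) (hD : Adm U D)
    (h : LineOK Γ D ow Λ v lc c0 e R lo hi s0 s1) (hp : Undrawn Γ p)
    (hpv : G.Adj v p) (hvo : G.Adj v ow) (hpo : G.Adj p ow)
    (hlc : lc' ∉ U true) (he : e < lc') (hm : lc' ≤ m) (hb : m < b) (hbR : b ≤ R)
    (hYt : s1 ≤ Yt) (hE : ∀ o l x, x ∈ E o l → l ∉ U o ∧ l ∈ UE o)
    (hE' : ∀ x, x ∉ E true lc')
    (hJ : ∀ q ∈ J, Undrawn Γ q ∧ q ≠ v ∧ q ≠ p ∧ q ≠ ow) (hf : FillT G {v, p, ow} J) :
    ∃ Γ' U' s e' x₁ y₁, m < s ∧ s < e' ∧ e' < b ∧ lo < x₁ ∧ x₁ < hi ∧ s0 < y₁ ∧ y₁ < s1 ∧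
      Step G Γ U (lineD U Λ lc c0 b lo x₁ s0 y₁) {q | q = v ∨ q = p ∨ q ∈ J} Γ' U' ∧
      lc' ∈ U' true ∧ (∀ o, UE o ⊆ U' o) ∧
      Γ' v = Γ v ⊔ hseg false Λ e s ∧
      Γ' p = seg false Λ lc' e' ⊔ seg true lc' Λ Yt ⊔ E ∧ Filled G Γ' J ∧ Ov Γ' v p ∧
      Ov Γ' p ow ∧ (∀ x q, y₁ ≤ x → x ∈ Γ' q true lc' → q = p) ∧
      (∀ o l x q, l ∉ U o → l ∈ UE o → l ≠ lc' → x ∈ Γ' q o l → q = p) ∧
      LineOK Γ' D ow Λ p lc' s e' R x₁ hi y₁ s1 := by
  obtain ⟨e', he1, he2⟩ := exists_between hb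
  have hΛ : Λ ∈ U false := h.zone.mem (v := ow) (Or.inl rfl) hw.lines h.h4
  have hlcU : lc ∈ U true := h.strip.mem (v := v) rfl hw.lines h.h7
  have hvp : v ≠ p := hpv.ne
  have hpow : p ≠ ow := hpo.ne
  have hle : lc' < e' := lt_of_le_of_lt hm he1
  have hΛY : Λ ≤ Yt := h.h6.trans (h.h7.le.trans hYt)
  have hlR : lc' ≤ R := hm.trans (hb.le.trans hbR)
  have hlclc : lc < lc' := lt_of_le_of_lt h.h3 (h.h4.trans he)
  have hc0b : c0 < b := h.h4.trans (he.trans (lt_of_le_of_lt hm hb))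
  obtain ⟨C, hC⟩ : ∃ C : Cov, C = seg false Λ lc' e' ⊔ seg true lc' Λ Yt ⊔ E := ⟨_, rfl⟩
  obtain ⟨U₁, hU₁⟩ : ∃ U₁ : Bool → Finset ℚ, ∀ o x, x ∈ U₁ o ↔ x ∈ U o ∨ x ∈ UE o ∨
      (o = true ∧ x = lc') := by
    refine ⟨addL (fun o => U o ∪ UE o) true lc', fun o x => ?_⟩
    rw [mem_addL, Finset.mem_union, or_assoc]
  have hUU₁ : ∀ o, U o ⊆ U₁ o := fun o x hx => (hU₁ o x).2 (Or.inl hx)
  have hno : ∀ o l x q, l ∉ U o → x ∉ Γ q o l := fun o l x q hl hx => hl (hw.lines q o l x hx)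
  have hstep : Step G Γ U (nl U ⊔ seg false Λ lc' e') {p} (Function.update Γ p C) U₁ := by
    refine Step.draw hw hUU₁ (fun o l x hx => absurd hx (hp o l x)) ?_ ?_ ?_
    · rw [hC]
      rintro o' l x ((⟨rfl, rfl, -, -⟩ | ⟨rfl, rfl, -, -⟩) | hx)
      · exact hUU₁ _ hΛ
      · exact (hU₁ _ _).2 (Or.inr (Or.inr ⟨rfl, rfl⟩))
      · exact (hU₁ _ _).2 (Or.inr (Or.inl (hE _ _ _ hx).2))
    · rw [hC]
      rintro o' l x ((hx | ⟨rfl, rfl, -, -⟩) | hx) -
      · exact Or.inr hx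
      · exact Or.inl hlc
      · exact Or.inl (hE _ _ _ hx).1
    · rw [hC]
      rintro o' l x ((⟨rfl, rfl, ha, hb'⟩ | ⟨rfl, rfl, -, -⟩) | hx) - q hq hxq
      · rw [min_eq_left hle.le] at ha
        rw [max_eq_right hle.le] at hb'
        rw [((h.free x (he.trans ha).le ((hb'.trans he2).le.trans hbR)).2 q).1 hxq]
        exact hpo
      · exact absurd hxq (hno _ _ _ _ hlc)
      · exact absurd hxq (hno _ _ _ _ (hE _ _ _ hx).1)
  have hne : ∀ q, q ≠ p → Function.update Γ p C q = Γ q :=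
    fun q hq => Function.update_of_ne hq _ _
  have hpp : Function.update Γ p C p = C := Function.update_self _ _ _
  have h' : LineOK Γ D ow Λ v lc c0 e lc' lo hi s0 s1 :=
    ⟨h.h1, h.h2, h.h3, h.h4, he, h.h6, h.h7, h.zone, fun x hx hx' => h.free x hx (hx'.trans hlR),
      h.res, h.strip⟩
  have hOK : LineOK (Function.update Γ p C) D ow Λ v lc c0 e lc' lo hi s0 s1 := by
    refine h'.grow hstep.grow ?_ ?_ ?_
    · rintro x ha hb' (hx | ⟨-, -, hc, hd⟩)
      · exact hx hΛ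
      · rw [min_eq_left hle.le] at hc
        exact absurd (hc.trans (hb'.trans_le (h.h2.trans hlclc.le))) (lt_irrefl _)
    · rintro x ha hb' (hx | ⟨-, -, hc, hd⟩)
      · exact hx hΛ
      · rw [min_eq_left hle.le] at hc
        exact absurd (hc.trans_le hb') (lt_irrefl _)
    · rintro x ha hb' (hx | ⟨ho, -⟩)
      · exact hx hlcU
      · exact absurd ho (by simp)
  have hcol : Solo (Function.update Γ p C) {p} true lc' s0 s1 := by
    intro x ha hb' q
    constructor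
    · intro hq
      by_contra hqp
      rw [hne q hqp] at hq
      exact hno _ _ _ _ hlc hq
    · intro hq
      rw [Set.mem_singleton_iff.1 hq, hpp, hC]
      refine Or.inl (Or.inr ⟨rfl, rfl, ?_, ?_⟩)
      · rw [min_eq_left hΛY]
        exact lt_of_le_of_lt h.h6 ha
      · rw [max_eq_right hΛY]
        exact lt_of_lt_of_le hb' hYt
  have hrow : Solo (Function.update Γ p C) {ow, p} false Λ lc' e' := by
    intro x ha hb' q
    have hfr := (h.free x (he.trans ha).le ((hb'.trans he2).le.trans hbR)).2 q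
    constructor
    · intro hq
      by_cases hqp : q = p
      · exact Or.inr hqp
      · rw [hne q hqp] at hq
        exact Or.inl (hfr.1 hq)
    · rintro (hq | hq)
      · exact hstep.grow.mono q false Λ x (hfr.2 hq)
      · rw [Set.mem_singleton_iff.1 hq, hpp, hC]
        refine Or.inl (Or.inl ⟨rfl, rfl, ?_, ?_⟩)
        · rw [min_eq_left hle.le]
          exact ha
        · rw [max_eq_right hle.le]
          exact hb'
  obtain ⟨Γ', U', s, x₁, y₁, hs1, hs2, hx1, hx2, hy1, hy2, hst, hv', hfill, hov, hsol⟩ :=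
    LineOK.join (m := m) (nr := e') (J := J) hstep.wd hOK hpv hvo he le_rfl hm he1 hcol hrow
      (fun q hq => ⟨(hJ q hq).1.grow hstep.grow (fun hc => (hJ q hq).2.2.1 hc), (hJ q hq).2.1,
        (hJ q hq).2.2.1, (hJ q hq).2.2.2⟩) hf
  have hp' : Γ' p = C := by
    rw [hst.grow.eq (v := p), hpp]
    rintro (hc | hc)
    · exact hvp hc.symm
    · exact (hJ p hc).2.2.1 rfl
  have hcl : ∀ x q, y₁ ≤ x → x ∈ Γ' q true lc' → q = p := by
    intro x q hx hq
    rcases hst.grow.new q true lc' x hq with h4 | ⟨-, ((((h5 | ⟨ho, -⟩) | ⟨ho, -⟩) | ⟨-, hl, -⟩) |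
      ⟨-, -, -, hd⟩)⟩
    · by_contra hqp
      rw [hne q hqp] at h4
      exact hno _ _ _ _ hlc h4
    · exact absurd ((hU₁ true lc').2 (Or.inr (Or.inr ⟨rfl, rfl⟩))) h5
    · exact absurd ho (by simp)
    · exact absurd ho (by simp)
    · exact absurd hl hlclc.ne'
    · rw [max_eq_right hy1.le] at hd
      exact absurd (lt_of_le_of_lt hx hd) (lt_irrefl _)
  have hnl : nl U₁ ≤ nl U := fun o l x hx hl => hx (hUU₁ o hl)
  have hc0s : c0 < s := h.h4.trans (he.trans (lt_of_le_of_lt hm hs1))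
  have hle2 : ∀ x, x₁ ≤ x → x < hi ∨ e' ≤ x →
      x ∉ (lineD U₁ Λ lc c0 s lo x₁ s0 y₁ ⊔ seg true lc' s0 y₁ : Cov) false Λ := by
    rintro x hx hxx ((((h5 | ⟨-, -, -, hd⟩) | ⟨-, -, hc, hd⟩) | ⟨ho, -⟩) | ⟨ho, -⟩)
    · exact h5 (hUU₁ _ hΛ)
    · rw [max_eq_right hx1.le] at hd
      exact absurd (lt_of_le_of_lt hx hd) (lt_irrefl _)
    · rw [min_eq_left hc0s.le] at hc
      rw [max_eq_right hc0s.le] at hd
      rcases hxx with hxx | hxx
      · exact absurd (hc.trans (lt_of_lt_of_le hxx (h.h2.trans h.h3))) (lt_irrefl _)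
      · exact absurd (lt_of_le_of_lt hxx (hd.trans hs2)) (lt_irrefl _)
    · exact absurd ho (by simp)
    · exact absurd ho (by simp)
  have hle1 : ∀ x, x < hi ∨ e' ≤ x → x ∉ (nl U ⊔ seg false Λ lc' e' : Cov) false Λ := by
    rintro x hxx (h5 | ⟨-, -, hc, hd⟩)
    · exact h5 hΛ
    · rw [min_eq_left hle.le] at hc
      rw [max_eq_right hle.le] at hd
      rcases hxx with hxx | hxx
      · exact absurd (hc.trans (hxx.trans_le (h.h2.trans hlclc.le))) (lt_irrefl _)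
      · exact absurd (lt_of_le_of_lt hxx hd) (lt_irrefl _)
  refine ⟨Γ', U', s, e', x₁, y₁, hs1, hs2, he2, hx1, hx2, hy1, hy2, ?_, ?_, ?_, ?_, ?_, hfill,
    hov, ?_, hcl, ?_, ?_⟩
  · refine Step.trans (Γ₁ := Function.update Γ p C) (U₁ := U₁) (hstep.weaken ?_ ?_)
      (hst.weaken ?_ ?_)
    · rintro o l x (hx | ⟨ho, hl, ha, hb'⟩)
      · exact Or.inl (Or.inl (Or.inl hx))
      · rw [min_eq_left hle.le] at ha
        rw [max_eq_right hle.le] at hb'
        exact Or.inl (Or.inr ((LineA_mem hc0b.le).2 ⟨ho, hl, h.h4.trans (he.trans ha), hb'.trans he2⟩))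
    · intro q hq
      exact Or.inr (Or.inl hq)
    · rintro o l x ((((h5 | h5) | ⟨ho, hl, ha, hb'⟩) | h5) | ⟨ho, hl, -, -⟩)
      · exact Or.inl (Or.inl (Or.inl (hnl _ _ h5)))
      · exact Or.inl (Or.inl (Or.inr h5))
      · rw [min_eq_left hc0s.le] at ha
        rw [max_eq_right hc0s.le] at hb'
        exact Or.inl (Or.inr ((LineA_mem hc0b.le).2 ⟨ho, hl, ha, hb'.trans (hs2.trans he2)⟩))
      · exact Or.inr h5
      · rw [ho, hl]
        exact Or.inl (Or.inl (Or.inl hlc))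
    · rintro q (hq | hq)
      · exact Or.inl hq
      · exact Or.inr (Or.inr hq)
  · exact hst.sub _ ((hU₁ true lc').2 (Or.inr (Or.inr ⟨rfl, rfl⟩)))
  · exact fun o x hx => hst.sub _ ((hU₁ o x).2 (Or.inr (Or.inl hx)))
  · rw [hv', hne v hvp]
  · rw [hp', hC]
  · obtain ⟨x, hxa, hxb⟩ := exists_between hle
    exact Ov.mono hst.grow ⟨false, Λ, x, (hrow x hxa hxb p).2 (Or.inr rfl),
      (hrow x hxa hxb ow).2 (Or.inl rfl)⟩
  · intro o l x q hlU hlE hll hq
    rcases hst.grow.new q o l x hq with h4 | ⟨-, ((((h5 | ⟨ho, hl, -⟩) | ⟨ho, hl, -⟩) | ⟨ho, hl, -⟩) |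
      ⟨ho, hl, -⟩)⟩
    · by_contra hqp
      rw [hne q hqp] at h4
      exact hno _ _ _ _ hlU h4
    · exact absurd ((hU₁ o l).2 (Or.inr (Or.inl hlE))) h5
    · rw [ho, hl] at hlU
      exact absurd hΛ hlU
    · rw [ho, hl] at hlU
      exact absurd hΛ hlU
    · rw [ho, hl] at hlU
      exact absurd hlcU hlU
    · exact absurd hl hll
  · refine ⟨hx2, h.h2.trans hlclc.le, (lt_of_le_of_lt hm hs1).le, hs2, lt_of_lt_of_le he2 hbR,
      h.h6.trans hy1.le, hy2, ?_, ?_, ?_, ?_⟩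
    · intro x ha hb'
      refine ⟨(h.free x ?_ ((hb'.trans he2).le.trans hbR)).1, hsol x ha hb'⟩
      exact (he.trans (lt_of_le_of_lt hm (hs1.trans ha))).le
    · intro x ha hb'
      have hex : e ≤ x := (he.trans hle).le.trans ha
      have hx1x : x₁ ≤ x := (hx2.trans_le (h.h2.trans (hlclc.le.trans hle.le))).le.trans ha
      refine ⟨(h.free x hex hb').1, fun q => ⟨fun hq => ?_, fun hq => ?_⟩⟩
      · rcases hst.grow.new q false Λ x hq with h4 | h4
        · rcases hstep.grow.new q false Λ x h4 with h5 | h5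
          · exact ((h.free x hex hb').2 q).1 h5
          · exact absurd h5.2 (hle1 x (Or.inr ha))
        · exact absurd h4.2 (hle2 x hx1x (Or.inr ha))
      · exact hst.grow.mono q false Λ x (hstep.grow.mono q false Λ x
          (((h.free x hex hb').2 q).2 hq))
    · refine ((h.res.sub hx1.le le_rfl).grow hstep.grow ?_).grow hst.grow ?_
      · exact fun x ha hb' => hle1 x (Or.inl hb')
      · exact fun x ha hb' => hle2 x ha.le (Or.inl hb')
    · intro x ha hb'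
      refine ⟨hD _ _ hlc, fun q => ⟨fun hq => hcl x q ha.le hq, fun hq => ?_⟩⟩
      rw [Set.mem_singleton_iff.1 hq, hp', hC]
      refine Or.inl (Or.inr ⟨rfl, rfl, ?_, ?_⟩)
      · rw [min_eq_left hΛY]
        exact lt_of_le_of_lt (h.h6.trans hy1.le) ha
      · rw [max_eq_right hΛY]
        exact lt_of_lt_of_le hb' hYt

end EPG26
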