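import Pool.Agent.W_26e041_h61.LineA

/-!
Pending vertices that start on a line.
-/

namespace EPG26

variable {V : Type*} [DecidableEq V]

theorem LineB_comm (o : Bool) (l a b : ℚ) : seg o l a b = seg o l b a := by
  funext o' l'
  unfold seg
  rw [min_comm, max_comm]

theorem LineB_mem {o o' : Bool} {l l' a b x : ℚ} (h : a ≤ b) :
    x ∈ seg o l a b o' l' ↔ o' = o ∧ l' = l ∧ a < x ∧ x < b := by
  show (o' = o ∧ l' = l ∧ min a b < x ∧ x < max a b) ↔ _
  rw [min_eq_left h, max_eq_right h]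

theorem LineB_join {o : Bool} {l a m b : ℚ} (h1 : a < m) (h2 : m ≤ b) :
    seg o l a m ⊔ hseg o l m b = seg o l a b := by
  refine le_antisymm (sup_le ?_ ?_) ?_
  · intro o' l' x hx
    obtain ⟨e1, e2, h3, h4⟩ := (LineB_mem h1.le).1 hx
    exact (LineB_mem (h1.le.trans h2)).2 ⟨e1, e2, h3, h4.trans_le h2⟩
  · intro o' l' x hx
    obtain ⟨e1, e2, h3, h4⟩ := hx
    exact (LineB_mem (h1.le.trans h2)).2 ⟨e1, e2, h1.trans_le h3, h4⟩
  · intro o' l' x hx
    obtain ⟨e1, e2, h3, h4⟩ := (LineB_mem (h1.le.trans h2)).1 hx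
    rcases lt_or_ge x m with h5 | h5
    · exact Or.inl ((LineB_mem h1.le).2 ⟨e1, e2, h3, h5⟩)
    · exact Or.inr ⟨e1, e2, h5, h4⟩

theorem LineB_mono {o : Bool} {l a a' b : ℚ} (h1 : a' ≤ a) (h2 : a ≤ b) :
    seg o l a b ≤ seg o l a' b := by
  intro o' l' x hx
  obtain ⟨e1, e2, h3, h4⟩ := (LineB_mem h2).1 hx
  exact (LineB_mem (h1.trans h2)).2 ⟨e1, e2, h1.trans_lt h3, h4⟩

theorem LineB_split {o : Bool} {l a m b : ℚ} (h1 : a ≤ m) (h2 : m ≤ b) :
    seg o l a b ≤ seg o l m b ⊔ cseg o l a m := by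
  intro o' l' x hx
  obtain ⟨e1, e2, h3, h4⟩ := (LineB_mem (h1.trans h2)).1 hx
  rcases lt_or_ge m x with h5 | h5
  · exact Or.inl ((LineB_mem h2).2 ⟨e1, e2, h5, h4⟩)
  · exact Or.inr ⟨e1, e2, h3.le, h5⟩

theorem LineB_path5 {a b c d e : ℚ} (h1 : a ≠ c) (h2 : b ≠ d) (h3 : c ≠ e) :
    IsPath3 (seg false b a c ⊔ seg true c b d ⊔ seg false d c e) := by
  refine ⟨false, [a, b, c, d, e], by simp, by simp, ⟨h1, h2, h3, trivial⟩, trivial,
    fun o' l' x => ?_⟩
  show ((x ∈ seg false b a c o' l' ∨ x ∈ seg true c b d o' l') ∨ x ∈ seg false d c e o' l') ↔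
    (x ∈ seg false b a c o' l' ∨ x ∈ seg true c b d o' l' ∨ x ∈ seg false d c e o' l' ∨
      x ∈ (∅ : Set ℚ))
  simp only [Set.mem_empty_iff_false, or_false, or_assoc]

theorem LineB_path6 {a b c d e f : ℚ} (h1 : a ≠ c) (h2 : b ≠ d) (h3 : c ≠ e) (h4 : d ≠ f)
    (h5 : ¬ (min a c ≤ e ∧ e ≤ max a c ∧ min d f ≤ b ∧ b ≤ max d f)) :
    IsPath3 (seg false b a c ⊔ seg true c b d ⊔ seg false d c e ⊔ seg true e d f) := by
  refine ⟨false, [a, b, c, d, e, f], by simp, by simp, ⟨h1, h2, h3, h4, trivial⟩, h5,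
    fun o' l' x => ?_⟩
  show (((x ∈ seg false b a c o' l' ∨ x ∈ seg true c b d o' l') ∨ x ∈ seg false d c e o' l') ∨
      x ∈ seg true e d f o' l') ↔
    (x ∈ seg false b a c o' l' ∨ x ∈ seg true c b d o' l' ∨ x ∈ seg false d c e o' l' ∨
      x ∈ seg true e d f o' l' ∨ x ∈ (∅ : Set ℚ))
  simp only [Set.mem_empty_iff_false, or_false, or_assoc]

theorem LineB_ext5 {Λ e' X Y g : ℚ} (h1 : X < e') (h2 : Λ ≠ Y) (h3 : X ≠ g) :
    Ext Λ e' (seg false Λ X e' ⊔ seg true X Λ Y ⊔ seg false Y g X) := by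
  intro e'' he
  have h4 : seg false Λ X e' ⊔ seg true X Λ Y ⊔ seg false Y g X ⊔ hseg false Λ e' e'' =
      seg false Λ e'' X ⊔ seg true X Λ Y ⊔ seg false Y X g := by
    rw [LineB_comm false Λ e'' X, ← LineB_join h1 he, LineB_comm false Y g X]
    ac_rfl
  rw [h4]
  exact LineB_path5 (h1.trans_le he).ne' h2 h3

theorem LineB_ext6 {Λ e' X Y g T : ℚ} (h1 : X < e') (h2 : Λ ≠ Y) (h3 : X ≠ g) (h4 : Y ≠ T)
    (h5 : g < X ∨ (Λ < Y ∧ Λ < T)) :
    Ext Λ e' (seg false Λ X e' ⊔ seg true X Λ Y ⊔ seg false Y g X ⊔ seg true g Y T) := by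
  intro e'' he
  have h6 : seg false Λ X e' ⊔ seg true X Λ Y ⊔ seg false Y g X ⊔ seg true g Y T ⊔
      hseg false Λ e' e'' =
      seg false Λ e'' X ⊔ seg true X Λ Y ⊔ seg false Y X g ⊔ seg true g Y T := by
    rw [LineB_comm false Λ e'' X, ← LineB_join h1 he, LineB_comm false Y g X]
    ac_rfl
  rw [h6]
  refine LineB_path6 (h1.trans_le he).ne' h2 h3 h4 ?_
  rintro ⟨h7, -, h8, -⟩
  rcases h5 with h5 | h5
  · rw [min_eq_right (h1.trans_le he).le] at h7
    exact absurd h5 (not_lt.2 h7)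
  · exact absurd (lt_min h5.1 h5.2) (not_lt.2 h8)

theorem LineB_Pay {P P' : Cov → Prop} {C : Cov} {o : Bool} {c g s hi : ℚ} {E E' : ℚ → Cov}
    (h : Pay P C o c g s hi E) (hP : ∀ C', P C' → P' C') (hE : ∀ Y, E Y ≤ E' Y) :
    Pay P' C o c g s hi E' := by
  intro Y hY1 hY2
  obtain ⟨C', h1, h2, h3, h4, h5⟩ := h Y hY1 hY2
  exact ⟨C', hP _ h1, h2, h3, h4, h5.trans (sup_le_sup_left (hE Y) _)⟩

theorem LineB_fly_sup (C C' : Cov) : fly (C ⊔ C') = fly C ⊔ fly C' := by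
  funext o l
  cases o <;> rfl

theorem LineB_fly_hseg (l a b : ℚ) : fly (hseg false l a b) = hseg false (-l) a b := by
  funext o l'
  cases o
  · ext x
    show (false = false ∧ -l' = l ∧ a ≤ x ∧ x < b) ↔ (false = false ∧ l' = -l ∧ a ≤ x ∧ x < b)
    rw [neg_eq_iff_eq_neg]
  · ext x
    show (true = false ∧ l' = l ∧ a ≤ -x ∧ -x < b) ↔ (true = false ∧ l' = -l ∧ a ≤ x ∧ x < b)
    simp

/-- A vertex with coverage `seg false Λ X e' ⊔ seg true X Λ s`. Final path at `Y` with foot `g`: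
`zig false [e'', Λ, X, Y, g]`. -/
theorem direct_pay {Λ X e' s hi g : ℚ} (h1 : X < e') (h2 : Λ < s) (hg : g ≠ X) :
    Pay (Ext Λ e') (seg false Λ X e' ⊔ seg true X Λ s) true X g s hi (fun _ => ⊥) := by
  intro Y hY1 hY2
  have hj : seg true X Λ s ⊔ hseg true X s Y = seg true X Λ Y := LineB_join h2 hY1.le
  refine ⟨seg false Λ X e' ⊔ (seg true X Λ s ⊔ hseg true X s Y) ⊔ seg false Y g X,
    ?_, ?_, ?_, ?_, ?_⟩
  · rw [hj]
    exact LineB_ext5 h1 (h2.trans hY1).ne hg.symm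
  · exact sup_le (le_sup_left.trans le_sup_left) ((le_sup_left.trans le_sup_right).trans
      le_sup_left)
  · exact (le_sup_right.trans le_sup_right).trans le_sup_left
  · exact le_sup_right
  · refine le_sup_of_le_left (sup_le_sup_right (le_of_eq ?_) _)
    ac_rfl

/-- The pending record of such a vertex (with `pl = true`). -/
theorem direct_pend {Γ : Dr V} {U : Bool → Finset ℚ} {D : Cov} {P : V → Cov → Prop}
    {Λ X e' s hi g t e : ℚ} {p : V} (h1 : X < e') (h2 : Λ < s) (hg : g < X) (ht : X < t)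
    (he : e < s) (hP : ∀ C, Ext Λ e' C → P p C)
    (hc : Γ p = seg false Λ X e' ⊔ seg true X Λ s) (hX : X ∈ U true) (hgU : g ∈ U true)
    (hl : ∀ x, s ≤ x → x < hi → x ∈ D true X ∧ ∀ w, x ∈ Γ w true X → w = p) :
    Pend P Γ U D true s hi ⟨p, X, g, e, t, true⟩ := by
  have hpay : ∀ (g' : ℚ) (E : ℚ → Cov), g' ≠ X → Pay (P p) (Γ p) true X g' s hi E := by
    intro g' E hg'
    rw [hc]
    exact LineB_Pay (direct_pay h1 h2 hg') hP (fun _ => bot_le)
  exact ⟨hX, hgU, hg, hl, fun x hx1 hx2 => absurd (hx1.trans hx2) (not_le.2 he),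
    hpay g _ hg.ne, fun _ => ⟨ht, he, fun g' h3 => hpay g' _ h3⟩, fun x hx1 _ h3 => by
      have h4 : x ∈ Γ p true X := h3
      rw [hc] at h4
      rcases h4 with h4 | h4
      · exact absurd h4.1 (by decide)
      · have h5 := h4.2.2.2
        rw [max_eq_right h2.le] at h5
        exact absurd h5 (not_lt.2 hx1)⟩

/-- A vertex with coverage `seg false Λ X e' ⊔ seg true X Λ s ⊔ seg true t T₁ T₂` (`t < X`,
`hi ≤ T₁ < T₂`). Final path at `Y`: `zig false [e'', Λ, X, Y, t, T₂]`; reserved part of the line `t`: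
up to `T₁`. -/
theorem tail_pend {Γ : Dr V} {U : Bool → Finset ℚ} {D : Cov} {P : V → Cov → Prop}
    {Λ X e' s hi g T₁ T₂ t : ℚ} {p : V} (h1 : X < e') (h2 : Λ < s) (hg : g < X)
    (h3 : hi ≤ T₁) (h4 : T₁ < T₂) (hP : ∀ C, Ext Λ e' C → P p C)
    (hc : Γ p = seg false Λ X e' ⊔ seg true X Λ s ⊔ seg true g T₁ T₂)
    (hX : X ∈ U true) (hgU : g ∈ U true)
    (hl : ∀ x, s ≤ x → x < hi → x ∈ D true X ∧ ∀ w, x ∈ Γ w true X → w = p)
    (hgl : ∀ x, s ≤ x → x ≤ T₁ → x ∈ D true g ∧ ∀ w, x ∈ Γ w true g → w = p) :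
    Pend P Γ U D true s hi ⟨p, X, g, T₁, t, false⟩ := by
  refine ⟨hX, hgU, hg, hl, hgl, ?_, fun h => absurd h Bool.false_ne_true, fun x hx1 _ h5 => by
    have h6 : x ∈ Γ p true X := h5
    rw [hc] at h6
    rcases h6 with (h6 | h6) | h6
    · exact absurd h6.1 (by decide)
    · have h7 := h6.2.2.2
      rw [max_eq_right h2.le] at h7
      exact absurd h7 (not_lt.2 hx1)
    · exact hg.ne' h6.2.1⟩
  intro Y hY1 hY2
  have hYT : Y ≤ T₁ := hY2.trans h3
  have hj : seg true X Λ s ⊔ hseg true X s Y = seg true X Λ Y := LineB_join h2 hY1.le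
  refine ⟨seg false Λ X e' ⊔ (seg true X Λ s ⊔ hseg true X s Y) ⊔ seg false Y g X ⊔
    seg true g Y T₂, hP _ ?_, ?_, ?_, ?_, ?_⟩
  · rw [hj]
    exact LineB_ext6 h1 (h2.trans hY1).ne hg.ne' (hYT.trans_lt h4).ne (Or.inl hg)
  · show Γ p ≤ _
    rw [hc]
    refine sup_le (le_sup_of_le_left (le_sup_of_le_left ?_)) (le_sup_of_le_right ?_)
    · exact sup_le le_sup_left (le_sup_left.trans le_sup_right)
    · exact LineB_mono hYT h4.le
  · exact ((le_sup_right.trans le_sup_right).trans le_sup_left).trans le_sup_left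
  · exact le_sup_right.trans le_sup_left
  · show _ ≤ Γ p ⊔ hseg true X s Y ⊔ seg false Y g X ⊔ cseg true g Y T₁
    rw [hc]
    refine (sup_le_sup_left (LineB_split hYT h4.le) _).trans (le_of_eq ?_)
    ac_rfl

/-- A vertex with coverage `seg false Λ g e' ⊔ seg true g Λ yl ⊔ seg true X y₁ T₂` (`g < X`,
`Λ < yl`), in the reflected drawing. Final path at the (real) height `Y` with `yl < Y < y₁`:
`zig false [e'', Λ, g, Y, X, T₂]`. In the reflected frame: `s = -y₁`, `hi < -yl`, reserved part of the line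
`g` up to `-yl`. -/
theorem conn_pend {Γ : Dr V} {U : Bool → Finset ℚ} {D : Cov} {P : V → Cov → Prop}
    {Λ X e' y₁ hi g yl T₂ t : ℚ} {p : V} (h1 : g < e') (h2 : Λ < yl) (hg : g < X)
    (h3 : hi < -yl) (h4 : y₁ < T₂) (hP : ∀ C, Ext Λ e' C → P p C)
    (hc : Γ p = seg false Λ g e' ⊔ seg true g Λ yl ⊔ seg true X y₁ T₂)
    (hX : X ∈ U true) (hgU : g ∈ U true)
    (hl : ∀ x, -hi < x → x ≤ y₁ → x ∈ D true X ∧ ∀ w, x ∈ Γ w true X → w = p)
    (hgl : ∀ x, yl ≤ x → x ≤ y₁ → x ∈ D true g ∧ ∀ w, x ∈ Γ w true g → w = p) :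
    Pend (flP P) (flD Γ) (flU U) (fly D) true (-y₁) hi ⟨p, X, g, -yl, t, false⟩ := by
  refine ⟨hX, hgU, hg, fun x hx1 hx2 => ?_, fun x hx1 hx2 => ?_, ?_,
    fun h => absurd h Bool.false_ne_true, fun x hx1 _ h5 => by
      have h6 : -x ∈ Γ p true X := h5
      rw [hc] at h6
      rcases h6 with (h6 | h6) | h6
      · exact absurd h6.1 (by decide)
      · exact hg.ne' h6.2.1
      · have h7 := h6.2.2.1
        rw [min_eq_left h4.le] at h7
        linarith⟩
  · exact hl (-x) (by linarith) (by linarith)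
  · have hx1' : -y₁ ≤ x := hx1
    have hx2' : x ≤ -yl := hx2
    exact hgl (-x) (by linarith) (by linarith)
  · intro Y' hY1 hY2
    have hY1' : -y₁ < Y' := hY1
    have hY2' : Y' ≤ hi := hY2
    have hΓ : flD Γ p = seg false (-Λ) g e' ⊔ seg true g (-yl) (-Λ) ⊔
        seg true X (-T₂) (-y₁) := by
      show fly (Γ p) = _
      rw [hc, LineB_fly_sup, LineB_fly_sup, fly_seg_h, fly_seg_v, fly_seg_v,
        LineB_comm true g (-Λ), LineB_comm true X (-y₁)]
    have hj : seg true X (-T₂) (-y₁) ⊔ hseg true X (-y₁) Y' = seg true X (-T₂) Y' :=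
      LineB_join (by linarith) hY1'.le
    have hC : fly (seg false Λ g e' ⊔ seg true g Λ (-Y') ⊔ seg false (-Y') X g ⊔
        seg true X (-Y') T₂) = seg false (-Λ) g e' ⊔ seg true g Y' (-Λ) ⊔ seg false Y' g X ⊔
        seg true X (-T₂) Y' := by
      rw [LineB_fly_sup, LineB_fly_sup, LineB_fly_sup, fly_seg_h, fly_seg_v, fly_seg_h,
        fly_seg_v, neg_neg, LineB_comm true g (-Λ), LineB_comm true X Y', LineB_comm false Y' X]
    refine ⟨fly (seg false Λ g e' ⊔ seg true g Λ (-Y') ⊔ seg false (-Y') X g ⊔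
        seg true X (-Y') T₂), ?_, ?_, ?_, ?_, ?_⟩
    · show P p (fly (fly _))
      rw [fly_fly]
      exact hP _ (LineB_ext6 h1 (by linarith : Λ < -Y').ne hg.ne
        (by linarith : -Y' < T₂).ne (Or.inr ⟨by linarith, by linarith⟩))
    · show flD Γ p ≤ _
      rw [hC, hΓ]
      refine sup_le (sup_le ?_ ?_) ?_
      · exact (le_sup_left.trans le_sup_left).trans le_sup_left
      · exact (((LineB_mono (by linarith) (by linarith)).trans le_sup_right).trans
          le_sup_left).trans le_sup_left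
      · rw [← hj]
        exact le_sup_left.trans le_sup_right
    · show hseg true X (-y₁) Y' ≤ _
      rw [hC, ← hj]
      exact le_sup_right.trans le_sup_right
    · show seg false Y' g X ≤ _
      rw [hC]
      exact le_sup_right.trans le_sup_left
    · show _ ≤ flD Γ p ⊔ hseg true X (-y₁) Y' ⊔ seg false Y' g X ⊔ cseg true g Y' (-yl)
      rw [hC, hΓ, ← hj]
      have h5 : seg true g Y' (-Λ) ≤ seg true g (-yl) (-Λ) ⊔ cseg true g Y' (-yl) :=
        LineB_split (by linarith) (by linarith)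
      refine (sup_le_sup_right (sup_le_sup_right (sup_le_sup_left h5 _) _) _).trans
        (le_of_eq ?_)
      ac_rfl

/-- A plain pending black vertex in the reflected drawing with its foot on the other side: new
gap `g'` with `r.c < g'`. The reflection of the final path with foot `g''` is the final path with foot
`-g''`. -/
theorem Pend.flip {Γ : Dr V} {U : Bool → Finset ℚ} {D : Cov} {P : V → Cov → Prop}
    {s hi g' : ℚ} {r : Rec V} (h : Pend P Γ U D false s hi r) (hp : r.pl = true)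
    (h1 : r.c < g') (hg : g' ∈ U false) :
    Pend (flP P) (flD Γ) (flU U) (fly D) false s hi ⟨r.v, -r.c, -g', r.e, -r.c + 1, true⟩ := by
  obtain ⟨h3, h4, h5⟩ := h.plain hp
  have key : ∀ g'' : ℚ, g'' ≠ -r.c → ∀ E : ℚ → Cov,
      Pay (flP P r.v) (flD Γ r.v) false (-r.c) g'' s hi E := by
    intro g'' hg'' E Y hY1 hY2
    obtain ⟨C', h6, h7, h8, h9, h10⟩ := h5 (-g'') (fun h => hg'' (by rw [← h, neg_neg])) Y hY1 hY2
    refine ⟨fly C', ?_, fly_le.2 h7, ?_, ?_, ?_⟩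
    · show P r.v (fly (fly C'))
      rw [fly_fly]
      exact h6
    · show hseg false (-r.c) s Y ≤ fly C'
      rw [← LineB_fly_hseg]
      exact fly_le.2 h8
    · have h11 : fly (seg true Y (-g'') r.c) ≤ fly C' := fly_le.2 h9
      rw [fly_seg_v, neg_neg] at h11
      exact h11
    · refine le_sup_of_le_left ?_
      have h11 : fly C' ≤ fly (Γ r.v ⊔ hseg false r.c s Y ⊔ seg true Y (-g'') r.c) := by
        rw [fly_le]
        rw [sup_bot_eq] at h10
        exact h10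
      rw [LineB_fly_sup, LineB_fly_sup, LineB_fly_hseg, fly_seg_v, neg_neg] at h11
      exact h11
  refine ⟨Finset.mem_image_of_mem _ h.hc, Finset.mem_image_of_mem _ hg, neg_lt_neg h1,
    fun x hx1 hx2 => ?_, fun x hx1 hx2 => absurd (le_trans hx1 hx2) (not_le.2 h4), ?_,
    fun _ => ⟨by show -r.c < -r.c + 1; linarith, h4, fun g'' hg'' => key g'' hg'' _⟩,
    fun x hx1 hx2 hx3 => ?_⟩
  · have h6 := h.line x hx1 hx2
    rw [← neg_neg r.c] at h6
    exact h6
  · exact key (-g') (fun h => h1.ne' (by simpa using h)) _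
  · refine h.own x hx1 hx2 ?_
    have h6 : x ∈ Γ r.v false (- -r.c) := hx3
    rw [neg_neg] at h6
    exact h6

end EPG26
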