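import Pool.Agent.W_26e041_h61.GeoT
import Pool.Agent.W_26e041_h61.GeoC2
import Pool.Agent.W_26e041_h61.GeoC3
import Pool.Agent.W_26e041_h61.GeoC4
import Pool.Agent.W_26e041_h61.CombB
import Pool.Agent.W_26e041_h61.CombE

/-!
States of the machine (geometry and combinatorics together) and progress.
-/

namespace EPG26

variable {V : Type*} [DecidableEq V]

/-- realized or exempt -/
def Rz (Ex : V → V → Prop) (Γ : Dr V) (u v : V) : Prop := Ex u v ∨ Ov Γ u v

/-- the boundary list of an N-state -/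
def lN (W : List (Rec V)) (a0 : V) (L : List (Rec V)) (b0 : V) (be : List V) : List V :=
  rv L ++ [b0] ++ be ++ (rv W ++ [a0]).reverse

/-- vertices which may be drawn: inner vertices, contents, pending vertices -/
def KSet (J : Finset V → Finset V) (l : List V) (F : Finset (Finset V)) (W L : List (Rec V)) :
    Set V :=
  {v | v ∈ Own J l F ∨ v ∈ rv W ∨ v ∈ rv L}

/-- feet of the black vertices may go up to the next black line -/
def TCh : List (Rec V) → ℚ → Prop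
  | [], _ => True
  | r :: L, Y => topc L Y ≤ r.t ∧ TCh L Y

/-- the vertex of the last record, or `b` -/
def lastv : List (Rec V) → V → V
  | [], b => b
  | r :: L, _ => lastv L r.v

/-- conditions kept for the flip: the last pending black vertex and the base `b0` share a zone
which is not used any more -/
structure Link (Γ : Dr V) (D : Cov) (A : ℚ) (L : List (Rec V)) (b0 : V) (Y0 : ℚ) : Prop where
  tch : TCh L Y0
  zone : ∃ l₀ l₁, l₀ < l₁ ∧ l₁ ≤ A ∧ Solo Γ {lastv L b0, b0} false Y0 l₀ l₁ ∧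
    ∀ x, l₀ < x → x < l₁ → x ∉ D false Y0

/-- the conditions of the states which do not depend on the phase -/
structure Side (P : V → Cov → Prop) (J : Finset V → Finset V) (Ex : V → V → Prop) (Γ : Dr V)
    (D : Cov) (A : ℚ) (W : List (Rec V)) (a0 : V) (L : List (Rec V)) (b0 : V) (Y0 : ℚ)
    (be l : List V) (F : Finset (Finset V)) : Prop where
  av : ∀ v ∈ rv W, ∀ x ∈ be, ¬ AdjF F v x
  base : be ≠ [] → ¬ AdjF F a0 b0
  und : ∀ v ∈ Own J l F, Undrawn Γ v
  hP : ∀ v ∈ Own J l F, ∀ C, IsPath3 C → P v C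
  pl : ∀ r ∈ L, r.pl = true
  rW : List.IsChain (Rz Ex Γ) (rv W ++ [a0])
  rL : List.IsChain (Rz Ex Γ) (rv L ++ [b0])
  rB : be = [] → Rz Ex Γ a0 b0
  lk : be ≠ [] → L ≠ [] → Link Γ D A L b0 Y0

/-- N-state -/
structure NG (G : SimpleGraph V) (P : V → Cov → Prop) (T : Finset V) (Fs : Finset (Finset V))
    (J : Finset V → Finset V) (Ex : V → V → Prop) (Γ : Dr V) (U : Bool → Finset ℚ) (D : Cov)
    (A B : ℚ) (W : List (Rec V)) (a0 : V) (X0 u : ℚ) (L : List (Rec V)) (b0 : V) (Y0 yu : ℚ)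
    (be : List V) (F : Finset (Finset V)) : Prop where
  adm : Adm U D
  wd : Wd G Γ U
  geo : NSt P Γ U D A B W a0 X0 u L b0 Y0 yu
  comb : NC T Fs (rv L ++ [b0]) (rv W ++ [a0]) be F
  side : Side P J Ex Γ D A W a0 L b0 Y0 be (lN W a0 L b0 be) F

/-- M-state with a white vertex `z` -/
structure MG1 (G : SimpleGraph V) (P : V → Cov → Prop) (T : Finset V) (Fs : Finset (Finset V))
    (J : Finset V → Finset V) (Ex : V → V → Prop) (Γ : Dr V) (U : Bool → Finset ℚ) (D : Cov)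
    (z : V) (Xz h A B : ℚ) (W : List (Rec V)) (a0 : V) (X0 u : ℚ) (L : List (Rec V)) (b0 : V)
    (Y0 yu : ℚ) (be : List V) (F : Finset (Finset V)) : Prop where
  adm : Adm U D
  wd : Wd G Γ U
  geo : MSt P Γ U D z Xz h A B W a0 X0 u L b0 Y0 yu
  comb : MC T Fs (rv L ++ [b0]) (rv W ++ [a0]) be [] z F
  side : Side P J Ex Γ D A W a0 L b0 Y0 be (lN W a0 L b0 be ++ [z]) F
  rz1 : Rz Ex Γ z (topv W a0)
  rz2 : Rz Ex Γ z (topv L b0)

/-- M-state with a black vertex `z` -/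
structure MG2 (G : SimpleGraph V) (P : V → Cov → Prop) (T : Finset V) (Fs : Finset (Finset V))
    (J : Finset V → Finset V) (Ex : V → V → Prop) (Γ : Dr V) (U : Bool → Finset ℚ) (D : Cov)
    (z : V) (Yz h A B : ℚ) (W : List (Rec V)) (a0 : V) (X0 u : ℚ) (L : List (Rec V)) (b0 : V)
    (Y0 yu : ℚ) (be : List V) (F : Finset (Finset V)) : Prop where
  adm : Adm U D
  wd : Wd G Γ U
  geo : MSt (swP P) (swD Γ) (swp U) (swp D) z Yz h B A L b0 Y0 yu W a0 X0 u
  comb : MC T Fs (rv W ++ [a0]) (rv L ++ [b0]) be.reverse be z F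
  side : Side P J Ex Γ D A W a0 L b0 Y0 be (lN W a0 L b0 be ++ [z]) F
  rz1 : Rz Ex Γ z (topv W a0)
  rz2 : Rz Ex Γ z (topv L b0)

/-- Progress: the faces of `F` outside `F'` are finished, the vertices of `K` outside `K'` are
finished; the pair `p, q` (if `p ≠ q`) may be still missing. -/
structure Prog (G : SimpleGraph V) (P : V → Cov → Prop) (J : Finset V → Finset V)
    (Ex : V → V → Prop) (Γ : Dr V) (U : Bool → Finset ℚ) (D : Cov) (F : Finset (Finset V))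
    (K : Set V) (Γ' : Dr V) (U' : Bool → Finset ℚ) (D' : Cov) (F' : Finset (Finset V))
    (K' : Set V) (p q : V) : Prop where
  step : Step G Γ U D K Γ' U'
  hD : D' ≤ D
  adm : Adm U' D'
  hF : F' ⊆ F
  hK : K' ⊆ K
  fin : ∀ v ∈ K, v ∉ K' → P v (Γ' v)
  filled : ∀ f ∈ F, f ∉ F' → Filled G Γ' (J f)
  sepf : ∀ f ∈ F, f ∉ F' → ∀ v ∈ J f, v ∉ K'
  real : ∀ f ∈ F, f ∉ F' → ∀ u ∈ f, ∀ v ∈ f, u ≠ v →
    Rz Ex Γ' u v ∨ (u = p ∧ v = q) ∨ (u = q ∧ v = p)

theorem Rz.symm {Ex : V → V → Prop} (hE : ∀ u v, Ex u v → Ex v u) {Γ : Dr V} {u v : V}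
    (h : Rz Ex Γ u v) : Rz Ex Γ v u := by
  exact h.imp (hE u v) Ov.symm

theorem Rz.mono {Ex : V → V → Prop} {Γ Γ' : Dr V} {D : Cov} {K : Set V}
    (hg : Grow Γ Γ' D K) {u v : V} (h : Rz Ex Γ u v) : Rz Ex Γ' u v := by
  exact h.imp id (fun h1 => Ov.mono hg h1)

/-- `Step.trans` after weakening, `Step.grow` for the persistence of finished vertices and
contents; `hpq` for the missing pair of the first part. -/
theorem Prog.trans {G : SimpleGraph V} {P : V → Cov → Prop} {J : Finset V → Finset V}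
    {Ex : V → V → Prop} (hE : ∀ u v, Ex u v → Ex v u) {Γ Γ₁ Γ₂ : Dr V}
    {U U₁ U₂ : Bool → Finset ℚ} {D D₁ D₂ : Cov} {F F₁ F₂ : Finset (Finset V)}
    {K K₁ K₂ : Set V} {p q p' q' : V}
    (h₁ : Prog G P J Ex Γ U D F K Γ₁ U₁ D₁ F₁ K₁ p q)
    (h₂ : Prog G P J Ex Γ₁ U₁ D₁ F₁ K₁ Γ₂ U₂ D₂ F₂ K₂ p' q')
    (hpq : p = q ∨ Rz Ex Γ₂ p q ∨ (p = p' ∧ q = q')) :
    Prog G P J Ex Γ U D F K Γ₂ U₂ D₂ F₂ K₂ p' q' := by
  refine ⟨h₁.step.trans (h₂.step.weaken h₁.hD h₁.hK), le_trans h₂.hD h₁.hD, h₂.adm,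
    fun f hf => h₁.hF (h₂.hF hf), fun v hv => h₁.hK (h₂.hK hv), ?_, ?_, ?_, ?_⟩
  · intro v hv hv2
    by_cases hv1 : v ∈ K₁
    · exact h₂.fin v hv1 hv2
    · rw [h₂.step.grow.eq hv1]
      exact h₁.fin v hv hv1
  · intro f hf hf2
    by_cases hf1 : f ∈ F₁
    · exact h₂.filled f hf1 hf2
    · exact Filled.mono h₂.step.grow (h₁.filled f hf hf1) (h₁.sepf f hf hf1)
  · intro f hf hf2 v hv hv2
    by_cases hf1 : f ∈ F₁
    · exact h₂.sepf f hf1 hf2 v hv hv2
    · exact h₁.sepf f hf hf1 v hv (h₂.hK hv2)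
  · intro f hf hf2 u hu v hv huv
    by_cases hf1 : f ∈ F₁
    · exact h₂.real f hf1 hf2 u hu v hv huv
    · rcases h₁.real f hf hf1 u hu v hv huv with h3 | ⟨h3, h4⟩ | ⟨h3, h4⟩
      · exact Or.inl (Rz.mono h₂.step.grow h3)
      · rcases hpq with h5 | h5 | ⟨h5, h6⟩
        · exact absurd (h3.trans (h5.trans h4.symm)) huv
        · rw [h3, h4]
          exact Or.inl h5
        · exact Or.inr (Or.inl ⟨h3.trans h5, h4.trans h6⟩)
      · rcases hpq with h5 | h5 | ⟨h5, h6⟩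
        · exact absurd (h3.trans (h5.symm.trans h4.symm)) huv
        · rw [h3, h4]
          exact Or.inl (Rz.symm hE h5)
        · exact Or.inr (Or.inr ⟨h3.trans h6, h4.trans h5⟩)

theorem Prog.sw {G : SimpleGraph V} {P : V → Cov → Prop} {J : Finset V → Finset V}
    {Ex : V → V → Prop} {Γ Γ' : Dr V} {U U' : Bool → Finset ℚ} {D D' : Cov}
    {F F' : Finset (Finset V)} {K K' : Set V} {p q : V} :
    Prog G (swP P) J Ex (swD Γ) (swp U) (swp D) F K (swD Γ') (swp U') (swp D') F' K' p q ↔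
      Prog G P J Ex Γ U D F K Γ' U' D' F' K' p q := by
  have hP : ∀ v, swP P v (swD Γ' v) ↔ P v (Γ' v) := by
    intro v
    show P v (swp (swp (Γ' v))) ↔ P v (Γ' v)
    rw [swp_swp]
  have hR : ∀ u v, Rz Ex (swD Γ') u v ↔ Rz Ex Γ' u v := fun u v => or_congr Iff.rfl Ov.sw
  constructor
  · rintro ⟨h1, h2, h3, h4, h5, h6, h7, h8, h9⟩
    exact ⟨Step.sw.1 h1, swp_le.1 h2, Adm.sw.1 h3, h4, h5, fun v hv hv' => (hP v).1 (h6 v hv hv'),
      fun f hf hf' => Filled.sw.1 (h7 f hf hf'), h8, fun f hf hf' u hu v hv huv =>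
      (h9 f hf hf' u hu v hv huv).imp (hR u v).1 id⟩
  · rintro ⟨h1, h2, h3, h4, h5, h6, h7, h8, h9⟩
    exact ⟨Step.sw.2 h1, swp_le.2 h2, Adm.sw.2 h3, h4, h5, fun v hv hv' => (hP v).2 (h6 v hv hv'),
      fun f hf hf' => Filled.sw.2 (h7 f hf hf'), h8, fun f hf hf' u hu v hv huv =>
      (h9 f hf hf' u hu v hv huv).imp (hR u v).2 id⟩

/-- A disc with a face has at least three boundary vertices, each of them lies in a face
(`Disc.mem_biUnion`), so boundary vertices are not in contents (`Ctx.sep`). -/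
theorem Reg.notMem_Own {G : SimpleGraph V} {T : Finset V} {Fs : Finset (Finset V)}
    {J : Finset V → Finset V} (hc : Ctx G T Fs J) {l : List V} {F : Finset (Finset V)}
    (h : Reg T Fs l F) {v : V} (hv : v ∈ l) : v ∉ Own J l F := by
  rintro (⟨-, h1⟩ | ⟨f, hf, hvf⟩)
  · exact h1 hv
  · have hlen : 3 ≤ l.length := by
      have h2 := h.disc.two_le
      by_contra h3
      have h4 : l.length = 2 := by omega
      obtain ⟨a, b, rfl⟩ := List.length_eq_two.1 h4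
      have h5 := h.disc.empty_of_two
      rw [h5] at hf
      exact absurd hf (Finset.notMem_empty f)
    obtain ⟨g, hg, hvg⟩ := Finset.mem_biUnion.1 (h.disc.mem_biUnion hlen hv)
    exact Finset.disjoint_left.1 (hc.sep f (h.sub hf) g (h.sub hg)) hvf hvg

/-- Inner vertices and contents of two parts of a region that share only boundary vertices are
disjoint. -/
theorem Own.disj {G : SimpleGraph V} {T : Finset V} {Fs : Finset (Finset V)}
    {J : Finset V → Finset V} (hc : Ctx G T Fs J) {l₁ l₂ : List V} {F₁ F₂ : Finset (Finset V)}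
    (h₁ : F₁ ⊆ Fs) (h₂ : F₂ ⊆ Fs) (hd : Disjoint F₁ F₂)
    (hv : ∀ v, v ∈ verts l₁ F₁ → v ∈ verts l₂ F₂ → v ∈ l₁ ∧ v ∈ l₂) {v : V}
    (hv1 : v ∈ Own J l₁ F₁) : v ∉ Own J l₂ F₂ := by
  have key : ∀ {l : List V} {F : Finset (Finset V)}, F ⊆ Fs → v ∈ verts l F → v ∉ l →
      ∀ f ∈ Fs, v ∉ J f := by
    intro l F hF hv3 hl f hf hvf
    rcases Finset.mem_union.1 hv3 with h3 | h3
    · exact hl (List.mem_toFinset.1 h3)
    · obtain ⟨g, hg, hvg⟩ := Finset.mem_biUnion.1 h3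
      exact Finset.disjoint_left.1 (hc.sep f hf g (hF hg)) hvf hvg
  intro hv2
  rcases hv1 with ⟨h3, h4⟩ | ⟨f, hf, hvf⟩
  · rcases hv2 with ⟨h5, h6⟩ | ⟨g, hg, hvg⟩
    · exact h4 (hv v h3 h5).1
    · exact key h₁ h3 h4 g (h₂ hg) hvg
  · rcases hv2 with ⟨h5, h6⟩ | ⟨g, hg, hvg⟩
    · exact key h₂ h5 h6 f (h₁ hf) hvf
    · have hfg : f ≠ g := by
        rintro rfl
        exact Finset.disjoint_left.1 hd hf hg
      exact Finset.disjoint_left.1 (hc.disj f (h₁ hf) g (h₂ hg) hfg) hvf hvg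

/-- A chain of realized pairs stays realized. -/
theorem Rz.chain_mono {Ex : V → V → Prop} {Γ Γ' : Dr V} {D : Cov} {K : Set V}
    (hg : Grow Γ Γ' D K) {l : List V} (h : List.IsChain (Rz Ex Γ) l) :
    List.IsChain (Rz Ex Γ') l := by
  exact h.imp fun _ _ h1 => Rz.mono hg h1

/-- The link survives growth in `D` and a smaller allowed set, and `A` may be raised. The zone lies
outside `D`. -/
theorem Link.grow {Γ Γ' : Dr V} {D D' : Cov} {K : Set V} {A A' : ℚ} {L : List (Rec V)} {b0 : V}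
    {Y0 : ℚ} (h : Link Γ D A L b0 Y0) (hg : Grow Γ Γ' D K) (hD : D' ≤ D) (hA : A ≤ A') :
    Link Γ' D' A' L b0 Y0 := by
  obtain ⟨l₀, l₁, h1, h2, h3, h4⟩ := h.zone
  exact ⟨h.tch, l₀, l₁, h1, h2.trans hA, h3.grow hg h4,
    fun x hx hx' hx2 => h4 x hx hx' (hD false Y0 hx2)⟩

end EPG26
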