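import Pool.Agent.W_26e041_h61.LineB
import Pool.Agent.W_26e041_h61.MachA

/-!
Placing several vertices on a line.
-/

namespace EPG26

variable {V : Type*} [DecidableEq V]

/-- the three kinds of placed vertices -/
inductive Kind
  | dir
  | tail
  | conn

/-- a placed vertex: its two vertical lines `g < X` and the end `es` of its stub -/
structure Pl (V : Type*) where
  v : V
  k : Kind
  g : ℚ
  X : ℚ
  es : ℚ

/-- the coverage of a placed vertex -/
def Pl.cov (Λ Yt T₁ T₂ yl y₁ : ℚ) (p : Pl V) : Cov :=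
  match p.k with
  | Kind.dir => seg false Λ p.X p.es ⊔ seg true p.X Λ Yt
  | Kind.tail => seg false Λ p.X p.es ⊔ seg true p.X Λ Yt ⊔ seg true p.g T₁ T₂
  | Kind.conn => seg false Λ p.g p.es ⊔ seg true p.g Λ yl ⊔ seg true p.X y₁ T₂

/-- `lo < g₁ < X₁ < g₂ < X₂ < ... < hi` -/
def OrdP : ℚ → List (Pl V) → ℚ → Prop
  | lo, [], hi => lo < hi
  | lo, p :: t, hi => lo < p.g ∧ p.g < p.X ∧ OrdP p.X t hi

/-- The vertices of `qs` are drawn on the line `Λ` with the given parameters; above the height `sh`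
their vertical lines are private and allowed. -/
structure Placed (Γ : Dr V) (U : Bool → Finset ℚ) (D : Cov) (Λ Yt T₁ T₂ yl y₁ sh : ℚ)
    (p : Pl V) : Prop where
  cov : Γ p.v = p.cov Λ Yt T₁ T₂ yl y₁
  es : p.X < p.es
  hX : p.X ∈ U true
  hg : p.g ∈ U true
  lX : ∀ x, sh ≤ x → x ∈ D true p.X ∧ ∀ w, x ∈ Γ w true p.X → w = p.v
  lg : ∀ x, sh ≤ x → x ∈ D true p.g ∧ ∀ w, x ∈ Γ w true p.g → w = p.v

/-- growth elsewhere -/
theorem Placed.grow {Γ Γ' : Dr V} {U U' : Bool → Finset ℚ} {D D₁ : Cov} {K : Set V}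
    {Λ Yt T₁ T₂ yl y₁ sh : ℚ} {p : Pl V} (h : Placed Γ U D Λ Yt T₁ T₂ yl y₁ sh p)
    (hg : Grow Γ Γ' D₁ K) (hU : ∀ o, U o ⊆ U' o) (hv : p.v ∉ K)
    (h1 : ∀ x, sh ≤ x → x ∉ D₁ true p.X) (h2 : ∀ x, sh ≤ x → x ∉ D₁ true p.g) :
    Placed Γ' U' D Λ Yt T₁ T₂ yl y₁ sh p := by
  refine ⟨?_, h.es, hU _ h.hX, hU _ h.hg, fun x hx => ⟨(h.lX x hx).1, fun w hw => ?_⟩,
    fun x hx => ⟨(h.lg x hx).1, fun w hw => ?_⟩⟩
  · rw [hg.eq hv]
    exact h.cov
  · rcases hg.new w true p.X x hw with h3 | h3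
    · exact (h.lX x hx).2 w h3
    · exact absurd h3.2 (h1 x hx)
  · rcases hg.new w true p.g x hw with h3 | h3
    · exact (h.lg x hx).2 w h3
    · exact absurd h3.2 (h2 x hx)

theorem LineC_mem {Fs : Finset (Finset V)} {ow : V} : ∀ {l : List V} {v : V},
    List.IsChain (fun p q => ({ow, p, q} : Finset V) ∈ Fs) (v :: l) → ∀ q ∈ l, ∃ f ∈ Fs, q ∈ f := by
  intro l
  induction l with
  | nil =>
    intro v _ q hq
    exact absurd hq (List.not_mem_nil)
  | cons p t ih =>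
    intro v h q hq
    rw [List.isChain_cons_cons] at h
    rcases List.mem_cons.1 hq with hq | hq
    · exact ⟨_, h.1, by rw [hq]; simp⟩
    · exact ih h.2 q hq

theorem LineC_fan {Fs : Finset (Finset V)} {ow : V} : ∀ {l : List V},
    List.IsChain (fun p q => ({ow, p, q} : Finset V) ∈ Fs) l → ∀ f ∈ fanF ow l, f ∈ Fs := by
  intro l
  induction l with
  | nil =>
    intro _ f hf
    exact absurd hf (Finset.notMem_empty f)
  | cons p t ih =>
    intro h f hf
    cases t with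
    | nil => exact absurd hf (Finset.notMem_empty f)
    | cons q t =>
      rw [List.isChain_cons_cons] at h
      rcases Finset.mem_insert.1 hf with hf | hf
      · rw [hf]
        exact h.1
      · exact ih h.2 f hf

theorem LineC_notMem {ow v : V} (hv : v ≠ ow) : ∀ {l : List V}, v ∉ l → ∀ f ∈ fanF ow l, v ∉ f := by
  intro l
  induction l with
  | nil =>
    intro _ f hf
    exact absurd hf (Finset.notMem_empty f)
  | cons p t ih =>
    intro h f hf
    cases t with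
    | nil => exact absurd hf (Finset.notMem_empty f)
    | cons q t =>
      rw [List.mem_cons, List.mem_cons, not_or, not_or] at h
      rcases Finset.mem_insert.1 hf with hf | hf
      · rw [hf]
        simp only [Finset.mem_insert, Finset.mem_singleton, not_or]
        exact ⟨hv, h.1, h.2.1⟩
      · exact ih (by rw [List.mem_cons, not_or]; exact h.2) f hf

theorem LineC_ord {V : Type*} {lo lo' hi : ℚ} {l : List (Pl V)} (h : OrdP lo l hi) (h1 : lo' ≤ lo) :
    OrdP lo' l hi := by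
  cases l with
  | nil => exact lt_of_le_of_lt h1 h
  | cons p t => exact ⟨lt_of_le_of_lt h1 h.1, h.2⟩

/-- one step of `placeL` -/
theorem LineC_one {G : SimpleGraph V} {Γ : Dr V} {U : Bool → Finset ℚ} {D : Cov}
    {ow v p : V} {k : Kind} {Λ lc c0 e R lo hi s0 s1 a b Yt T₁ T₂ yl y₁ : ℚ} {J : Finset V}
    (hw : Wd G Γ U) (hD : Adm U D) (h : LineOK Γ D ow Λ v lc c0 e R lo hi s0 s1) (hp : Undrawn Γ p)
    (hpv : G.Adj v p) (hvo : G.Adj v ow) (hpo : G.Adj p ow)
    (ha : e ≤ a) (hab : a < b) (hb : b ≤ R) (hYt : s1 ≤ Yt) (hyl : s1 ≤ yl)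
    (hJ : ∀ q ∈ J, Undrawn Γ q ∧ q ≠ v ∧ q ≠ p ∧ q ≠ ow) (hf : FillT G {v, p, ow} J) :
    ∃ (g X lc' : ℚ) (Γ' : Dr V) (U' : Bool → Finset ℚ) (s e' x₁ y₁' : ℚ), a < g ∧ g < X ∧ X < s ∧
      s < e' ∧ e' < b ∧ lo < x₁ ∧ x₁ < hi ∧ s0 < y₁' ∧ y₁' < s1 ∧ lc' ∉ U true ∧
      X ∉ U true ∧ g ∉ U true ∧
      Step G Γ U (lineD U Λ lc c0 b lo x₁ s0 y₁') {q | q = v ∨ q = p ∨ q ∈ J} Γ' U' ∧
      X ∈ U' true ∧ g ∈ U' true ∧
      Γ' v = Γ v ⊔ hseg false Λ e s ∧
      (∀ s', e' ≤ s' → Γ' p ⊔ hseg false Λ e' s' =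
        Pl.cov Λ Yt T₁ T₂ yl y₁ ⟨p, k, g, X, s'⟩) ∧ Filled G Γ' J ∧ Ov Γ' v p ∧
      Ov Γ' p ow ∧ (∀ x q, s1 ≤ x → x ∈ Γ' q true X → q = p) ∧
      (∀ x q, s1 ≤ x → x ∈ Γ' q true g → q = p) ∧
      LineOK Γ' D ow Λ p lc' s e' R x₁ hi y₁' s1 := by
  obtain ⟨g, hg1, hg2, hgU⟩ := exists_fresh U true hab
  obtain ⟨X, hX1, hX2, hXU⟩ := exists_fresh U true hg2
  have heX : e < X := lt_of_le_of_lt ha (hg1.trans hX1)
  have heg : e < g := lt_of_le_of_lt ha hg1
  cases k with
  | dir =>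
    obtain ⟨Γ', U', s, e', x₁, y₁', h1, h2, h3, h4, h5, h6, h7, h8, h9, h10, h11, h12, h13, h14, h15,
      h16, h17, h18⟩ := LineOK.place (p := p) (lc' := X) (m := X) (b := b) (Yt := Yt) (J := J)
        (E := fun _ _ => ∅) (UE := fun o => if o then {g} else ∅) hw hD h hp hpv hvo hpo hXU heX le_rfl
        hX2 hb hYt (fun o l x hx => absurd hx (Set.notMem_empty x))
        (fun x hx => absurd hx (Set.notMem_empty x)) hJ hf
    refine ⟨g, X, X, Γ', U', s, e', x₁, y₁', hg1, hX1, h1, h2, h3, h4, h5, h6, h7, hXU, hXU, hgU, h8, h9,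
      h10 true (by simp), h11, ?_, h13, h14, h15, fun x q hx hq => h16 x q (h7.le.trans hx) hq,
      fun x q hx hq => h17 true g x q hgU (by simp) hX1.ne hq, h18⟩
    intro s' hs'
    rw [h12]
    show _ = seg false Λ X s' ⊔ seg true X Λ Yt
    rw [← LineB_join (h1.trans h2) hs']
    have h19 : ((fun _ _ => ∅ : Cov)) = ⊥ := rfl
    rw [h19, sup_bot_eq]
    ac_rfl
  | tail =>
    obtain ⟨Γ', U', s, e', x₁, y₁', h1, h2, h3, h4, h5, h6, h7, h8, h9, h10, h11, h12, h13, h14, h15,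
      h16, h17, h18⟩ := LineOK.place (p := p) (lc' := X) (m := X) (b := b) (Yt := Yt) (J := J)
        (E := seg true g T₁ T₂) (UE := fun o => if o then {g} else ∅) hw hD h hp hpv hvo hpo hXU heX
        le_rfl hX2 hb hYt (by
          rintro o l x ⟨rfl, rfl, -, -⟩
          exact ⟨hgU, by simp⟩) (by
          rintro x ⟨-, hx, -, -⟩
          exact hX1.ne' hx) hJ hf
    refine ⟨g, X, X, Γ', U', s, e', x₁, y₁', hg1, hX1, h1, h2, h3, h4, h5, h6, h7, hXU, hXU, hgU, h8, h9,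
      h10 true (by simp), h11, ?_, h13, h14, h15, fun x q hx hq => h16 x q (h7.le.trans hx) hq,
      fun x q hx hq => h17 true g x q hgU (by simp) hX1.ne hq, h18⟩
    intro s' hs'
    rw [h12]
    show _ = seg false Λ X s' ⊔ seg true X Λ Yt ⊔ seg true g T₁ T₂
    rw [← LineB_join (h1.trans h2) hs']
    ac_rfl
  | conn =>
    obtain ⟨Γ', U', s, e', x₁, y₁', h1, h2, h3, h4, h5, h6, h7, h8, h9, h10, h11, h12, h13, h14, h15,
      h16, h17, h18⟩ := LineOK.place (p := p) (lc' := g) (m := X) (b := b) (Yt := yl) (J := J)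
        (E := seg true X y₁ T₂) (UE := fun o => if o then {X} else ∅) hw hD h hp hpv hvo hpo hgU heg
        hX1.le hX2 hb hyl (by
          rintro o l x ⟨rfl, rfl, -, -⟩
          exact ⟨hXU, by simp⟩) (by
          rintro x ⟨-, hx, -, -⟩
          exact hX1.ne hx) hJ hf
    refine ⟨g, X, g, Γ', U', s, e', x₁, y₁', hg1, hX1, h1, h2, h3, h4, h5, h6, h7, hgU, hXU, hgU, h8,
      h10 true (by simp), h9, h11, ?_, h13, h14, h15,
      fun x q hx hq => h17 true X x q hXU (by simp) hX1.ne' hq,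
      fun x q hx hq => h16 x q (h7.le.trans hx) hq, h18⟩
    intro s' hs'
    rw [h12]
    show _ = seg false Λ g s' ⊔ seg true g Λ yl ⊔ seg true X y₁ T₂
    rw [← LineB_join (hX1.trans (h1.trans h2)) hs']
    ac_rfl

/-- Place the vertices `ps` (with their kinds) one after the other on the line, between `a` and `b`.
Induction on `ps` with `LineOK.place`. For a new vertex `p` choose new coordinates `g < X` in
`(max a e, b)`, larger than the end `e` of the last stub: for the kinds `dir` and `tail`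
`lc' = m = X`, `Yt`, and `E = ⊥` resp. `E = seg true g T₁ T₂`; for `conn` `lc' = g`, `m = X`,
`yl` in the role of `Yt` and `E = seg true X y₁ T₂`; `UE` contains the other line. After the
step the stub end `e'` satisfies `m < e' < b`; the following step extends it (`es := s`), so the coverage
formula stays true with the new `es`. -/
theorem placeL {G : SimpleGraph V} {T : Finset V} {Fs : Finset (Finset V)}
    {J : Finset V → Finset V} (hc : Ctx G T Fs J) {Γ : Dr V} {U : Bool → Finset ℚ} {D : Cov}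
    {ow v : V} {Λ lc c0 e R lo hi s0 s1 a b Yt T₁ T₂ yl y₁ : ℚ} {ps : List (V × Kind)}
    (hw : Wd G Γ U) (hD : Adm U D) (h : LineOK Γ D ow Λ v lc c0 e R lo hi s0 s1)
    (ha : e ≤ a) (hab : a < b) (hb : b ≤ R) (hYt : s1 ≤ Yt) (hyl : s1 ≤ yl)
    (hT : T₁ < T₂) (hy : y₁ < T₂)
    (hch : List.IsChain (fun p q => ({ow, p, q} : Finset V) ∈ Fs) (v :: ps.map Prod.fst))
    (hnd : (ow :: v :: ps.map Prod.fst).Nodup) (hvo : G.Adj v ow)
    (hun : ∀ p ∈ ps.map Prod.fst, Undrawn Γ p)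
    (hJ : ∀ f ∈ fanF ow (v :: ps.map Prod.fst), ∀ q ∈ J f, Undrawn Γ q) :
    ∃ (Γ' : Dr V) (U' : Bool → Finset ℚ) (qs : List (Pl V)) (s lv lc' c0' e' lo' s0' : _),
      qs.map (fun q => (q.v, q.k)) = ps ∧ OrdP a qs b ∧
      Step G Γ U (lineD U Λ lc c0 b lo hi s0 s1) {q | q = v ∨ q ∈ ps.map Prod.fst ∨
        ∃ f ∈ fanF ow (v :: ps.map Prod.fst), q ∈ J f} Γ' U' ∧
      e ≤ s ∧ s ≤ b ∧ Γ' v = Γ v ⊔ hseg false Λ e s ∧
      (∀ q ∈ qs, Placed Γ' U' D Λ Yt T₁ T₂ yl y₁ s1 q) ∧ (∀ q ∈ qs, q.X ∉ U true ∧ q.g ∉ U true) ∧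
      (∀ f ∈ fanF ow (v :: ps.map Prod.fst), Filled G Γ' (J f)) ∧
      List.IsChain (Ov Γ') (v :: ps.map Prod.fst) ∧ (∀ q ∈ qs, Ov Γ' q.v ow) ∧
      (v :: ps.map Prod.fst).getLast? = some lv ∧
      (ps = [] → lc' = lc ∧ c0' = c0 ∧ e' = e ∧ s = e) ∧
      (∀ q, qs.getLast? = some q → q.es = e') ∧ (e' < b ∨ ps = []) ∧
      LineOK Γ' D ow Λ lv lc' c0' e' R lo' hi s0' s1 := by
  induction ps generalizing Γ U v lc c0 e lo s0 a with
  | nil =>
    have h1 : hseg false Λ e e = ⊥ := by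
      refine le_bot_iff.1 ?_
      rintro o l x ⟨-, -, h2, h3⟩
      exact absurd (lt_of_le_of_lt h2 h3) (lt_irrefl _)
    refine ⟨Γ, U, [], e, v, lc, c0, e, lo, s0, rfl, hab, Step.refl hw _ _, le_rfl, ha.trans hab.le,
      ?_, ?_, ?_, ?_, ?_, ?_, rfl, fun _ => ⟨rfl, rfl, rfl, rfl⟩, ?_, Or.inr rfl, h⟩
    · rw [h1, sup_bot_eq]
    · exact fun q hq => absurd hq (List.not_mem_nil)
    · exact fun q hq => absurd hq (List.not_mem_nil)
    · exact fun f hf => absurd hf (Finset.notMem_empty f)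
    · exact List.isChain_singleton v
    · exact fun q hq => absurd hq (List.not_mem_nil)
    · exact fun q hq => absurd hq (by simp)
  | cons pk ps ih =>
    obtain ⟨p, k⟩ := pk
    simp only [List.map_cons] at hch hnd hun hJ ⊢
    obtain ⟨l, hl⟩ : ∃ l, l = ps.map Prod.fst := ⟨_, rfl⟩
    rw [← hl] at hch hnd hun hJ ih ⊢
    rw [List.isChain_cons_cons] at hch
    obtain ⟨hf, hch⟩ := hch
    have hnd1 := hnd
    simp only [List.nodup_cons, List.mem_cons, not_or] at hnd1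
    obtain ⟨⟨hov, hop, hol⟩, ⟨hvp, hvl⟩, hpl, hln⟩ := hnd1
    have hvf : v ∈ ({ow, v, p} : Finset V) := by simp
    have hpf : p ∈ ({ow, v, p} : Finset V) := by simp
    have hof : ow ∈ ({ow, v, p} : Finset V) := by simp
    have hfan1 : ({ow, v, p} : Finset V) ∈ fanF ow (v :: p :: l) := Finset.mem_insert_self _ _
    have hfan2 : ∀ f ∈ fanF ow (p :: l), f ∈ fanF ow (v :: p :: l) := fun f hf =>
      Finset.mem_insert_of_mem hf
    have hfs : ∀ f ∈ fanF ow (p :: l), f ∈ Fs := LineC_fan hch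
    have hne : ∀ f ∈ fanF ow (p :: l), ({ow, v, p} : Finset V) ≠ f := by
      intro f hf' heq
      refine LineC_notMem (ow := ow) (v := v) (fun h => hov h.symm) (l := p :: l) ?_ f hf' (heq ▸ hvf)
      rw [List.mem_cons, not_or]
      exact ⟨hvp, hvl⟩
    have hmemF : ∀ q ∈ l, ∃ f ∈ Fs, q ∈ f := LineC_mem hch
    have hsepJ : ∀ q ∈ J {ow, v, p}, ∀ f ∈ Fs, q ∉ f := fun q hq f hf' hqf =>
      Finset.disjoint_left.1 (hc.sep _ hf f hf') hq hqf
    have hpv : G.Adj v p := hc.adj _ hf v hvf p hpf hvp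
    have hpo : G.Adj p ow := hc.adj _ hf p hpf ow hof (fun h => hop h.symm)
    have hfe : ({v, p, ow} : Finset V) = {ow, v, p} := by
      ext q
      simp only [Finset.mem_insert, Finset.mem_singleton]
      tauto
    obtain ⟨g, X, lc', Γ₁, U₁, s, e', x₁, y₁', hag, hgX, hXs, hse, heb, hx1, hx2, hy1, hy2, hlcU, hXU,
      hgU, hst, hXU₁, hgU₁, hv₁, hcov, hfill, hovp, hovo, hlX, hlg, hOK⟩ :=
      LineC_one (k := k) (J := J {ow, v, p}) (T₁ := T₁) (T₂ := T₂) (y₁ := y₁) hw hD h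
        (hun p (List.mem_cons_self)) hpv hvo hpo ha hab hb hYt hyl
        (fun q hq => ⟨hJ _ hfan1 q hq, fun hq' => hsepJ q hq _ hf (hq' ▸ hvf),
          fun hq' => hsepJ q hq _ hf (hq' ▸ hpf), fun hq' => hsepJ q hq _ hf (hq' ▸ hof)⟩)
        (by rw [hfe]; exact hc.fill _ hf)
    obtain ⟨Γ', U', qs, s', lv, lc'', c0'', e'', lo'', s0'', i1, i2, i3, i4, i5, i6, i7, i8, i9, i10,
      i11, i12, i13, i14, i15, i16⟩ := ih (a := e') hst.wd (hD.mono hst.sub) hOK le_rfl heb hch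
        (by
          simp only [List.nodup_cons, List.mem_cons, not_or]
          exact ⟨⟨hop, hol⟩, hpl, hln⟩) hpo
        (fun q hq => (hun q (List.mem_cons_of_mem _ hq)).grow hst.grow (by
          rintro (hc' | hc' | hc')
          · exact hvl (hc' ▸ hq)
          · exact hpl (hc' ▸ hq)
          · obtain ⟨f, hf1, hf2⟩ := hmemF q hq
            exact hsepJ q hc' f hf1 hf2))
        (fun f hf' q hq => (hJ f (hfan2 f hf') q hq).grow hst.grow (by
          rintro (hc' | hc' | hc')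
          · exact Finset.disjoint_left.1 (hc.sep f (hfs f hf') _ hf) hq (hc' ▸ hvf)
          · exact Finset.disjoint_left.1 (hc.sep f (hfs f hf') _ hf) hq (hc' ▸ hpf)
          · exact Finset.disjoint_left.1 (hc.disj _ hf f (hfs f hf') (hne f hf')) hc' hq))
    have hc0s : c0 < s := (h.h4.trans_le ha).trans (hag.trans (hgX.trans hXs))
    have hsb : s < b := hse.trans heb
    have hv2 : v ∉ {q | q = p ∨ q ∈ l ∨ ∃ f ∈ fanF ow (p :: l), q ∈ J f} := by
      rintro (hc' | hc' | ⟨f, hf', hc'⟩)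
      · exact hvp hc'
      · exact hvl hc'
      · exact Finset.disjoint_left.1 (hc.sep f (hfs f hf') _ hf) hc' hvf
    have hnl : nl U₁ ≤ nl U := fun o l' x hx hl' => hx (hst.sub o hl')
    have hD2 : ∀ x l', s1 ≤ x → l' ∈ U₁ true → x ∉ lineD U₁ Λ lc' s b x₁ hi y₁' s1 true l' := by
      rintro x l' hx hl' (((h5 | ⟨ho, -⟩) | ⟨ho, -⟩) | ⟨-, -, -, hd⟩)
      · exact h5 hl'
      · exact absurd ho (by simp)
      · exact absurd ho (by simp)
      · rw [max_eq_right hy2.le] at hd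
        exact absurd (lt_of_le_of_lt hx hd) (lt_irrefl _)
    refine ⟨Γ', U', ⟨p, k, g, X, s'⟩ :: qs, s, lv, lc'', c0'', e'', lo'', s0'', ?_, ?_, ?_, ?_, ?_, ?_,
      ?_, ?_, ?_, ?_, ?_, ?_, ?_, ?_, ?_, i16⟩
    · rw [List.map_cons, i1]
    · exact ⟨hag, hgX, LineC_ord i2 (hXs.trans hse).le⟩
    · refine Step.trans (Γ₁ := Γ₁) (U₁ := U₁) (hst.weaken ?_ ?_) (i3.weaken ?_ ?_)
      · rintro o l' x (((h5 | ⟨ho, hl', hc', hd⟩) | h5) | ⟨ho, hl', hc', hd⟩)
        · exact Or.inl (Or.inl (Or.inl h5))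
        · rw [min_eq_left hx1.le] at hc'
          rw [max_eq_right hx1.le] at hd
          exact Or.inl (Or.inl (Or.inr ((LineB_mem (hx1.trans hx2).le).2 ⟨ho, hl', hc', hd.trans hx2⟩)))
        · exact Or.inl (Or.inr h5)
        · rw [min_eq_left hy1.le] at hc'
          rw [max_eq_right hy1.le] at hd
          exact Or.inr ((LineB_mem (hy1.trans hy2).le).2 ⟨ho, hl', hc', hd.trans hy2⟩)
      · rintro q (hq | hq | hq)
        · exact Or.inl hq
        · exact Or.inr (Or.inl (hq ▸ List.mem_cons_self))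
        · exact Or.inr (Or.inr ⟨_, hfan1, hq⟩)
      · rintro o l' x (((h5 | ⟨ho, hl', hc', hd⟩) | ⟨ho, hl', hc', hd⟩) | ⟨ho, hl', hc', hd⟩)
        · exact Or.inl (Or.inl (Or.inl (hnl o l' h5)))
        · rw [min_eq_left hx2.le] at hc'
          rw [max_eq_right hx2.le] at hd
          exact Or.inl (Or.inl (Or.inr ((LineB_mem (hx1.trans hx2).le).2 ⟨ho, hl', hx1.trans hc', hd⟩)))
        · rw [min_eq_left hsb.le] at hc'
          rw [max_eq_right hsb.le] at hd
          exact Or.inl (Or.inr ((LineB_mem (hc0s.trans hsb).le).2 ⟨ho, hl', hc0s.trans hc', hd⟩))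
        · rw [ho, hl']
          exact Or.inl (Or.inl (Or.inl hlcU))
      · rintro q (hq | hq | ⟨f, hf', hq⟩)
        · exact Or.inr (Or.inl (hq ▸ List.mem_cons_self))
        · exact Or.inr (Or.inl (List.mem_cons_of_mem _ hq))
        · exact Or.inr (Or.inr ⟨f, hfan2 f hf', hq⟩)
    · exact ha.trans (hag.trans (hgX.trans hXs)).le
    · exact (hse.trans heb).le
    · rw [i3.grow.eq hv2, hv₁]
    · intro q hq
      rcases List.mem_cons.1 hq with hq | hq
      · rw [hq]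
        refine ⟨?_, (hXs.trans hse).trans_le i4, i3.sub _ hXU₁, i3.sub _ hgU₁, ?_, ?_⟩
        · show Γ' p = _
          rw [i6]
          exact hcov s' i4
        · refine fun x hx => ⟨hD _ _ hXU, fun w hw' => ?_⟩
          rcases i3.grow.new w true X x hw' with h5 | h5
          · exact hlX x w hx h5
          · exact absurd h5.2 (hD2 x X hx hXU₁)
        · refine fun x hx => ⟨hD _ _ hgU, fun w hw' => ?_⟩
          rcases i3.grow.new w true g x hw' with h5 | h5
          · exact hlg x w hx h5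
          · exact absurd h5.2 (hD2 x g hx hgU₁)
      · exact i7 q hq
    · intro q hq
      rcases List.mem_cons.1 hq with hq | hq
      · rw [hq]
        exact ⟨hXU, hgU⟩
      · exact ⟨fun h5 => (i8 q hq).1 (hst.sub _ h5), fun h5 => (i8 q hq).2 (hst.sub _ h5)⟩
    · intro f hf'
      rcases Finset.mem_insert.1 hf' with hf' | hf'
      · rw [hf']
        refine hfill.mono i3.grow ?_
        rintro q hq (hc' | hc' | ⟨f', hf'', hc'⟩)
        · exact hsepJ q hq _ hf (hc' ▸ hpf)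
        · obtain ⟨f', hf1, hf2⟩ := hmemF q hc'
          exact hsepJ q hq f' hf1 hf2
        · exact Finset.disjoint_left.1 (hc.disj _ hf f' (hfs f' hf'') (hne f' hf'')) hq hc'
      · exact i9 f hf'
    · exact List.isChain_cons_cons.2 ⟨hovp.mono i3.grow, i10⟩
    · intro q hq
      rcases List.mem_cons.1 hq with hq | hq
      · rw [hq]
        exact hovo.mono i3.grow
      · exact i11 q hq
    · rw [List.getLast?_cons_cons]
      exact i12
    · exact fun h5 => absurd h5 (by simp)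
    · intro q hq
      cases qs with
      | nil =>
        have h5 : ps = [] := by
          rw [← i1]
          rfl
        obtain ⟨-, -, h6, h7⟩ := i13 h5
        rw [List.getLast?_singleton] at hq
        rw [← Option.some.inj hq]
        show s' = e''
        rw [h6, h7]
      | cons q' qs =>
        rw [List.getLast?_cons_cons] at hq
        exact i14 q hq
    · left
      rcases i15 with h5 | h5
      · exact h5
      · obtain ⟨-, -, h6, -⟩ := i13 h5
        rw [h6]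
        exact heb

end EPG26
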