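import Pool.Agent.W_26e041_h61.MachA
import Pool.Agent.W_26e041_h61.MachB2

/-!
One step of an M-state with a white vertex `z`.
-/

namespace EPG26

variable {V : Type*} [DecidableEq V]

theorem MachB1_nodup {W L : List (Rec V)} {a0 b0 z : V} {be : List V}
    (h : (lN W a0 L b0 be ++ [z]).Nodup) : (z :: (rv W ++ a0 :: (rv L ++ [b0]))).Nodup := by
  have hp : List.Perm (lN W a0 L b0 be ++ [z])
      ((z :: (rv W ++ a0 :: (rv L ++ [b0]))) ++ be) := by
    rw [List.perm_iff_count]
    intro x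
    simp only [lN, List.count_append, List.count_cons, List.count_nil, List.count_reverse,
      List.cons_append]
    omega
  exact (hp.nodup_iff.1 h).of_append_left

theorem MachB1_sub {W L : List (Rec V)} {a0 b0 z v : V} {be : List V}
    (h : v ∈ z :: (rv W ++ a0 :: (rv L ++ [b0]))) : v ∈ lN W a0 L b0 be ++ [z] := by
  simp only [lN, List.mem_append, List.mem_reverse, List.mem_cons] at h ⊢
  tauto

theorem MachB1_pop {G : SimpleGraph V} {P : V → Cov → Prop} {T : Finset V}
    {Fs : Finset (Finset V)} {J : Finset V → Finset V} {Ex : V → V → Prop}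
    (hc : Ctx G T Fs J) (hE : ∀ u v, Ex u v → Ex v u) {Γ : Dr V} {U : Bool → Finset ℚ}
    {D : Cov} {z : V} {Xz h A B : ℚ} {W : List (Rec V)} {a0 : V} {X0 u : ℚ}
    {L : List (Rec V)} {b0 : V} {Y0 yu : ℚ} {be : List V} {F : Finset (Finset V)}
    (hM : MG1 G P T Fs J Ex Γ U D z Xz h A B W a0 X0 u L b0 Y0 yu be F)
    {F' : Finset (Finset V)} (hF : F = insert {topv L b0, z, topv W a0} F')
    (hf : ({topv L b0, z, topv W a0} : Finset V) ∉ F')
    (hN : NC T Fs (rv L ++ [b0]) (rv W ++ [a0]) be F') :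
    ∃ Γ' U' B', Prog G P J Ex Γ U D F (KSet J (lN W a0 L b0 be ++ [z]) F W L) Γ' U' D F'
            (KSet J (lN W a0 L b0 be) F' W L) (topv W a0) (topv L b0) ∧
          NG G P T Fs J Ex Γ' U' D A B' W a0 X0 u L b0 Y0 yu be F' := by
  set f : Finset V := {topv L b0, z, topv W a0} with hfdef
  have hreg : Reg T Fs (lN W a0 L b0 be ++ [z]) F := hM.comb.reg
  have hregN : Reg T Fs (lN W a0 L b0 be) F' := hN.reg
  set l : List V := lN W a0 L b0 be ++ [z] with hl
  set l' : List V := lN W a0 L b0 be with hl'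
  have hFs : insert f F' ⊆ Fs := hF ▸ hM.comb.reg.sub
  have hfs : f ∈ Fs := hFs (Finset.mem_insert_self _ _)
  have hnd0 : l.Nodup := hreg.disc.nodup
  have hnd : (z :: (rv W ++ a0 :: (rv L ++ [b0]))).Nodup := MachB1_nodup hnd0
  -- boundary vertices are not own
  have hbd : ∀ v ∈ l, v ∉ Own J l F := fun v hv => Reg.notMem_Own hc hreg hv
  have hzl' : z ∉ l' := by
    intro hz
    rw [hl, List.nodup_append] at hnd0
    exact hnd0.2.2 z hz z (List.mem_singleton_self _) rfl
  have hsub : ∀ v, v ∈ Own J l' F' → v ∈ Own J l F := by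
    intro v hv
    rw [hF]
    refine MachB2_own ?_ hv
    rintro w ⟨g, hg, hwg⟩ hw
    rw [hl, List.mem_append, List.mem_singleton]
    rintro (h1 | rfl)
    · exact hw h1
    · have h2 : w ∈ verts l' F' :=
        Finset.mem_union_right _ (Finset.mem_biUnion.2 ⟨g, hg, hwg⟩)
      exact hf ((hregN.star w h2 hw).2 f hfs MachB2_in3.2.1)
  have hJl : ∀ v ∈ J f, v ∈ Own J l F := fun v hv =>
    Or.inr ⟨f, hF ▸ Finset.mem_insert_self _ _, hv⟩
  have hJu : ∀ v ∈ J f, Undrawn Γ v ∧ v ∉ z :: (rv W ++ a0 :: (rv L ++ [b0])) :=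
    fun v hv => ⟨hM.side.und v (hJl v hv), fun h1 => hbd v (MachB1_sub h1) (hJl v hv)⟩
  have hfill : FillT G {z, topv L b0, topv W a0} (J f) := by
    have h1 := hc.fill f hfs
    have h2 : ({z, topv L b0, topv W a0} : Finset V) = f := by
      rw [hfdef]
      exact DiscC_swap _ _ _
    rw [h2]
    exact h1
  obtain ⟨Γ', U', B', hst, hgeo, hfl⟩ := popStep hM.wd hM.adm hM.geo hnd hJu hfill
  have hadm : Adm U' D := hM.adm.mono hst.sub
  have hF'F : F' ⊆ F := hF ▸ Finset.subset_insert _ _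
  have hKs : {v | v ∈ J f ∨ v ∈ rv W ∨ v ∈ rv L} ⊆ KSet J l F W L := by
    rintro v (hv | hv | hv)
    · exact Or.inl (hJl v hv)
    · exact Or.inr (Or.inl hv)
    · exact Or.inr (Or.inr hv)
  have hg := hst.grow
  have hund : ∀ v ∈ Own J l' F', v ∉ {v | v ∈ J f ∨ v ∈ rv W ∨ v ∈ rv L} := by
    rintro v hv (h1 | h1 | h1)
    · exact MachB2_notJ hc hFs hf hv h1
    · exact hbd v (MachB2_vW h1) (hsub v hv)
    · exact hbd v (MachB2_vL h1) (hsub v hv)
  refine ⟨Γ', U', B', ⟨hst.weaken le_rfl hKs, le_rfl, hadm, hF'F, ?_, ?_, ?_, ?_, ?_⟩,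
    ⟨hadm, hst.wd, hgeo, hN, ?_⟩⟩
  · rintro v (hv | hv)
    · exact Or.inl (hsub v hv)
    · exact Or.inr hv
  · rintro v (hv | hv) hv'
    · have hv2 : v ∉ Own J l' F' := fun h1 => hv' (Or.inl h1)
      have hv3 := hv
      rw [hF] at hv3
      rcases MachB2_lost hv3 hv2 with h1 | ⟨h1, h2 | h2⟩
      · exact hM.side.hP v hv _ (hfl v h1).1
      · exfalso
        apply h1
        rw [hfdef, Finset.mem_insert, Finset.mem_insert, Finset.mem_singleton] at h2
        rcases h2 with rfl | rfl | rfl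
        · exact MachB2_tL
        · rw [hl]
          simp
        · exact MachB2_tW
      · exact absurd (List.mem_append_left _ h2) h1
    · exact absurd (Or.inr hv) hv'
  · intro g hg1 hg2
    rw [hF] at hg1
    rcases Finset.mem_insert.1 hg1 with rfl | h1
    · exact hfl
    · exact absurd h1 hg2
  · intro g hg1 hg2 v hv
    rw [hF] at hg1
    rcases Finset.mem_insert.1 hg1 with rfl | h1
    · rintro (h1 | h1 | h1)
      · exact MachB2_notJ hc hFs hf h1 hv
      · exact hbd v (MachB2_vW h1) (hJl v hv)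
      · exact hbd v (MachB2_vL h1) (hJl v hv)
    · exact absurd h1 hg2
  · intro g hg1 hg2 v1 hv1 v2 hv2 hne
    rw [hF] at hg1
    rcases Finset.mem_insert.1 hg1 with rfl | h1
    · rw [hfdef, Finset.mem_insert, Finset.mem_insert, Finset.mem_singleton] at hv1 hv2
      have r1 := Rz.mono hg hM.rz1
      have r2 := Rz.mono hg hM.rz2
      rcases hv1 with rfl | rfl | rfl <;> rcases hv2 with rfl | rfl | rfl
      · exact absurd rfl hne
      · exact Or.inl (Rz.symm hE r2)
      · exact Or.inr (Or.inr ⟨rfl, rfl⟩)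
      · exact Or.inl r2
      · exact absurd rfl hne
      · exact Or.inl r1
      · exact Or.inr (Or.inl ⟨rfl, rfl⟩)
      · exact Or.inl (Rz.symm hE r1)
      · exact absurd rfl hne
    · exact absurd h1 hg2
  · refine ⟨?_, ?_, ?_, ?_, hM.side.pl, Rz.chain_mono hg hM.side.rW,
      Rz.chain_mono hg hM.side.rL, ?_, ?_⟩
    · intro v hv x hx h1
      exact hM.side.av v hv x hx (CombA_adj_mono hF'F h1)
    · intro hb h1
      exact hM.side.base hb (CombA_adj_mono hF'F h1)
    · intro v hv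
      exact (hM.side.und v (hsub v hv)).grow hg (hund v hv)
    · intro v hv
      exact hM.side.hP v (hsub v hv)
    · intro hb
      exact Rz.mono hg (hM.side.rB hb)
    · intro hb hL
      exact Link.grow (hM.side.lk hb hL) hg le_rfl le_rfl

theorem MachB1_lNcons {W L : List (Rec V)} {r : Rec V} {a0 b0 z v : V} {be : List V} :
    v ∈ lN W a0 (r :: L) b0 be ++ [z] ↔ v = r.v ∨ v ∈ lN W a0 L b0 be ++ [z] := by
  have h1 : rv (r :: L) = r.v :: rv L := rfl
  simp only [lN, h1, List.mem_append, List.mem_reverse, List.mem_cons]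
  tauto

theorem MachB1_push {G : SimpleGraph V} {P : V → Cov → Prop} {T : Finset V}
    {Fs : Finset (Finset V)} {J : Finset V → Finset V} {Ex : V → V → Prop}
    (hc : Ctx G T Fs J) (hE : ∀ u v, Ex u v → Ex v u) {Γ : Dr V} {U : Bool → Finset ℚ}
    {D : Cov} {z : V} {Xz h A B : ℚ} {W : List (Rec V)} {a0 : V} {X0 u : ℚ}
    {L : List (Rec V)} {b0 : V} {Y0 yu : ℚ} {be : List V} {F : Finset (Finset V)}
    (hM : MG1 G P T Fs J Ex Γ U D z Xz h A B W a0 X0 u L b0 Y0 yu be F)
    {c : V} {F' : Finset (Finset V)} (hF : F = insert {topv L b0, z, c} F')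
    (hf : ({topv L b0, z, c} : Finset V) ∉ F')
    (hcv : c ∈ verts (rv L ++ [b0] ++ be ++ (rv W ++ [a0]).reverse ++ [z]) F)
    (hcl : c ∉ rv L ++ [b0] ++ be ++ (rv W ++ [a0]).reverse ++ [z])
    (hN : MC T Fs (c :: (rv L ++ [b0])) (rv W ++ [a0]) be [] z F') :
    ∃ Γ' U' D' r h' A' B', Prog G P J Ex Γ U D F (KSet J (lN W a0 L b0 be ++ [z]) F W L)
            Γ' U' D' F' (KSet J (lN W a0 (r :: L) b0 be ++ [z]) F' W (r :: L)) z z ∧
          MG1 G P T Fs J Ex Γ' U' D' z Xz h' A' B' W a0 X0 u (r :: L) b0 Y0 yu be F' := by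
  set f : Finset V := {topv L b0, z, c} with hfdef
  have hreg : Reg T Fs (lN W a0 L b0 be ++ [z]) F := hM.comb.reg
  set l : List V := lN W a0 L b0 be ++ [z] with hl
  have hFs : insert f F' ⊆ Fs := hF ▸ hM.comb.reg.sub
  have hfs : f ∈ Fs := hFs (Finset.mem_insert_self _ _)
  have hnd0 : l.Nodup := hreg.disc.nodup
  have hnd : (z :: (rv W ++ a0 :: (rv L ++ [b0]))).Nodup := MachB1_nodup hnd0
  have hbd : ∀ v ∈ l, v ∉ Own J l F := fun v hv => Reg.notMem_Own hc hreg hv
  have hcl' : c ∉ l := hcl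
  have hcO : c ∈ Own J l F := Or.inl ⟨hcv, hcl⟩
  have hJl : ∀ v ∈ J f, v ∈ Own J l F := fun v hv =>
    Or.inr ⟨f, hF ▸ Finset.mem_insert_self _ _, hv⟩
  have hcz : c ≠ z := by
    rintro rfl
    exact hcl' (List.mem_append_right _ (List.mem_singleton_self _))
  have hcb : c ≠ topv L b0 := by
    intro h1
    exact hcl' (h1 ▸ MachB2_tL)
  have hJu : ∀ v ∈ J f, Undrawn Γ v ∧ v ∉ c :: z :: (rv W ++ a0 :: (rv L ++ [b0])) := by
    intro v hv
    refine ⟨hM.side.und v (hJl v hv), fun h1 => ?_⟩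
    rcases List.mem_cons.1 h1 with h1 | h1
    · rw [h1] at hv
      exact Finset.disjoint_left.1 (hc.sep f hfs f hfs) hv MachB2_in3.2.2
    · exact hbd v (MachB1_sub h1) (hJl v hv)
  have hfill : FillT G {topv L b0, c, z} (J f) := by
    have h1 := hc.fill f hfs
    have h2 : ({topv L b0, c, z} : Finset V) = f := by
      rw [hfdef]
      exact congrArg (insert (topv L b0)) (Finset.pair_comm c z)
    rw [h2]
    exact h1
  obtain ⟨Γ', U', h', A', B', r, l₀, l₁, hr, hrpl, hrt, hst, hgeo, hfl, hov1, hov2, hl01, hlA,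
      hsolo, -, hAA, -, -⟩ :=
    pushStepX (c := c) hM.wd hM.adm hM.geo hnd
      (hM.side.und c hcO) (fun h1 => hcl' (MachB1_sub h1))
      (fun C hC => hM.side.hP c hcO _ hC)
      (hc.adj f hfs c MachB2_in3.2.2 z MachB2_in3.2.1 hcz)
      (hc.adj f hfs c MachB2_in3.2.2 _ MachB2_in3.1 hcb) hJu hfill
  set D' : Cov := D \ seg false (topc L Y0) l₀ l₁ with hD'
  have hDD : D' ≤ D := sdiff_le
  have hXW : topc L Y0 ∈ U false :=
    hM.geo.top.mem (v := topv L b0) (Set.mem_singleton _) hM.wd.lines hM.geo.hz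
  have hadm : Adm U' D' := by
    intro o x y hy
    refine ⟨hM.adm.mono hst.sub o x hy, ?_⟩
    rintro ⟨ho, hx, -⟩
    subst ho
    subst hx
    exact hy (hst.sub false hXW)
  have hF'F : F' ⊆ F := hF ▸ Finset.subset_insert _ _
  have hg := hst.grow
  have hrv : rv (r :: L) = c :: rv L := by
    rw [← hr]
    rfl
  have hN' : MC T Fs (rv (r :: L) ++ [b0]) (rv W ++ [a0]) be [] z F' := by
    rw [hrv]
    exact hN
  have hreg' : Reg T Fs (lN W a0 (r :: L) b0 be ++ [z]) F' := hN'.reg
  set l' : List V := lN W a0 (r :: L) b0 be ++ [z] with hl'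
  have hbd' : ∀ v ∈ l', v ∉ Own J l' F' := fun v hv => Reg.notMem_Own hc hreg' hv
  have hll' : ∀ v, v ∈ l' ↔ v = c ∨ v ∈ l := by
    intro v
    rw [hl', MachB1_lNcons, hr]
  have hsub : ∀ v, v ∈ Own J l' F' → v ∈ Own J l F := by
    intro v hv
    rw [hF]
    refine MachB2_own ?_ hv
    rintro w - hw hw'
    exact hw ((hll' w).2 (Or.inr hw'))
  have hund : ∀ v ∈ Own J l' F', v ∉ {v | v = c ∨ v ∈ J f ∨ v ∈ rv L} := by
    rintro v hv (h1 | h1 | h1)
    · exact hbd' v ((hll' v).2 (Or.inl h1)) hv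
    · exact MachB2_notJ hc hFs hf hv h1
    · exact hbd v (MachB2_vL h1) (hsub v hv)
  have hKs : {v | v = c ∨ v ∈ J f ∨ v ∈ rv L} ⊆ KSet J l F W L := by
    rintro v (hv | hv | hv)
    · exact Or.inl (hv ▸ hcO)
    · exact Or.inl (hJl v hv)
    · exact Or.inr (Or.inr hv)
  refine ⟨Γ', U', D', r, h', A', B', ⟨hst.weaken le_rfl hKs, hDD, hadm, hF'F, ?_, ?_, ?_, ?_, ?_⟩,
    ⟨hadm, hst.wd, hgeo, hN', ?_, ?_, ?_⟩⟩
  · rintro v (hv | hv | hv)
    · exact Or.inl (hsub v hv)
    · exact Or.inr (Or.inl hv)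
    · rw [hrv] at hv
      rcases List.mem_cons.1 hv with rfl | hv
      · exact Or.inl hcO
      · exact Or.inr (Or.inr hv)
  · rintro v (hv | hv | hv) hv'
    · have hv2 : v ∉ Own J l' F' := fun h1 => hv' (Or.inl h1)
      have hv3 := hv
      rw [hF] at hv3
      have hvc : v ≠ c := by
        rintro rfl
        apply hv'
        right
        right
        rw [hrv]
        exact List.mem_cons_self
      rcases MachB2_lost hv3 hv2 with h1 | ⟨h1, h2 | h2⟩
      · exact hM.side.hP v hv _ (hfl v h1).1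
      · exfalso
        apply h1
        rw [hfdef, Finset.mem_insert, Finset.mem_insert, Finset.mem_singleton] at h2
        rcases h2 with rfl | rfl | rfl
        · exact MachB2_tL
        · rw [hl]
          simp
        · exact absurd rfl hvc
      · rcases (hll' v).1 h2 with h3 | h3
        · exact absurd h3 hvc
        · exact absurd h3 h1
    · exact absurd (Or.inr (Or.inl hv)) hv'
    · refine absurd (Or.inr (Or.inr ?_)) hv'
      rw [hrv]
      exact List.mem_cons_of_mem _ hv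
  · intro g hg1 hg2
    rw [hF] at hg1
    rcases Finset.mem_insert.1 hg1 with rfl | h1
    · exact hfl
    · exact absurd h1 hg2
  · intro g hg1 hg2 v hv
    rw [hF] at hg1
    rcases Finset.mem_insert.1 hg1 with rfl | h1
    · rintro (h1 | h1 | h1)
      · exact MachB2_notJ hc hFs hf h1 hv
      · exact hbd v (MachB2_vW h1) (hJl v hv)
      · rw [hrv] at h1
        rcases List.mem_cons.1 h1 with h1 | h1
        · exact (hJu v hv).2 (h1 ▸ List.mem_cons_self)
        · exact hbd v (MachB2_vL h1) (hJl v hv)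
    · exact absurd h1 hg2
  · intro g hg1 hg2 v1 hv1 v2 hv2 hne
    rw [hF] at hg1
    rcases Finset.mem_insert.1 hg1 with rfl | h1
    · rw [hfdef, Finset.mem_insert, Finset.mem_insert, Finset.mem_singleton] at hv1 hv2
      have r1 := Rz.mono hg hM.rz2
      have r2 : Rz Ex Γ' c z := Or.inr hov1
      have r3 : Rz Ex Γ' c (topv L b0) := Or.inr hov2
      rcases hv1 with rfl | rfl | rfl <;> rcases hv2 with rfl | rfl | rfl
      · exact absurd rfl hne
      · exact Or.inl (Rz.symm hE r1)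
      · exact Or.inl (Rz.symm hE r3)
      · exact Or.inl r1
      · exact absurd rfl hne
      · exact Or.inl (Rz.symm hE r2)
      · exact Or.inl r3
      · exact Or.inl r2
      · exact absurd rfl hne
    · exact absurd h1 hg2
  · refine ⟨?_, ?_, ?_, ?_, ?_, Rz.chain_mono hg hM.side.rW, ?_, ?_, ?_⟩
    · intro v hv x hx h1
      exact hM.side.av v hv x hx (CombA_adj_mono hF'F h1)
    · intro hb h1
      exact hM.side.base hb (CombA_adj_mono hF'F h1)
    · intro v hv
      exact (hM.side.und v (hsub v hv)).grow hg (hund v hv)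
    · intro v hv
      exact hM.side.hP v (hsub v hv)
    · intro r' hr'
      rcases List.mem_cons.1 hr' with rfl | hr'
      · exact hrpl
      · exact hM.side.pl r' hr'
    · obtain ⟨t, ht⟩ := MachB2_top L b0
      have h1 := Rz.chain_mono hg hM.side.rL
      rw [hrv, List.cons_append]
      rw [ht] at h1 ⊢
      exact List.isChain_cons_cons.2 ⟨Or.inr hov2, h1⟩
    · intro hb
      exact Rz.mono hg (hM.side.rB hb)
    · intro hb _
      cases L with
      | nil =>
        refine ⟨⟨hrt.ge, trivial⟩, l₀, l₁, hl01, hlA, ?_, ?_⟩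
        · have h2 : lastv [r] b0 = c := hr
          rw [h2]
          exact hsolo
        · intro x hx1 hx2 hx
          refine hx.2 ⟨rfl, rfl, ?_, ?_⟩
          · rw [min_eq_left hl01.le]
            exact hx1
          · rw [max_eq_right hl01.le]
            exact hx2
      | cons r₁ L₁ =>
        obtain ⟨h2, h3⟩ := Link.grow (hM.side.lk hb (List.cons_ne_nil _ _)) hg hDD hAA
        exact ⟨⟨hrt.ge, h2⟩, h3⟩
  · exact Rz.mono hg hM.rz1
  · exact Rz.symm hE (show Rz Ex Γ' r.v z from hr ▸ Or.inr hov1)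

/-- One step of an M-state with a white vertex `z`. Write `b = topv L b0`, `a = topv W a0`, so
`rv L ++ [b0] = b :: _`, `rv W ++ [a0] = a :: _`, and apply `MC.step` to `comb`.
First case, face `{b, z, a}`: `popStep` with `J {b, z, a}` (its vertices are undrawn by `Side.und` and
not in the list by `Ctx.sep`, `Reg.notMem_Own`; nodup from `Disc.nodup`). Result N-state, `D' = D`.
The pair `a, b` may be missing, the other pairs of the face are realized by `rz1`, `rz2`.
Second case, face `{b, z, c}`: `pushStep` with `J {b, z, c}`; `G.Adj` from `Ctx.adj`. Result M-state,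
`D' = D \ seg ..` with the zone of `pushStep`. All pairs of the face are realized (`rz2` and the new
overlaps).
`Side` of the new state: `av`, `base`: `F' ⊆ F`. `und`, `hP`: `Own` of the new state is contained in
`Own` of the old one and disjoint from the set of vertices drawn in the step. `rW`, `rL`, `rB`:
`Rz.chain_mono`, `Rz.mono`, and `Ov c b` for the new element of `rL`. `lk`: `Link.grow` for `L ≠ []`
(`lastv (r :: L) _ = lastv L _`, `TCh` since `r.t = topc L Y0`), for `L = []` from the zone of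
`pushStep`.
`Prog`: `K'` is contained in `K`; a vertex of `K` outside `K'` is in the content of the finished face
(finished by `Filled` and `hP`). `sepf` from `Ctx.disj`, `Ctx.sep`. -/
theorem MG1.next {G : SimpleGraph V} {P : V → Cov → Prop} {T : Finset V}
    {Fs : Finset (Finset V)} {J : Finset V → Finset V} {Ex : V → V → Prop}
    (hc : Ctx G T Fs J) (hE : ∀ u v, Ex u v → Ex v u) {Γ : Dr V} {U : Bool → Finset ℚ}
    {D : Cov} {z : V} {Xz h A B : ℚ} {W : List (Rec V)} {a0 : V} {X0 u : ℚ}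
    {L : List (Rec V)} {b0 : V} {Y0 yu : ℚ} {be : List V} {F : Finset (Finset V)}
    (hM : MG1 G P T Fs J Ex Γ U D z Xz h A B W a0 X0 u L b0 Y0 yu be F) :
    ∃ Γ' U' D' F', F'.card < F.card ∧
      ((∃ B', Prog G P J Ex Γ U D F (KSet J (lN W a0 L b0 be ++ [z]) F W L) Γ' U' D' F'
            (KSet J (lN W a0 L b0 be) F' W L) (topv W a0) (topv L b0) ∧
          NG G P T Fs J Ex Γ' U' D' A B' W a0 X0 u L b0 Y0 yu be F') ∨
        ∃ r h' A' B', Prog G P J Ex Γ U D F (KSet J (lN W a0 L b0 be ++ [z]) F W L) Γ' U' D' F'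
            (KSet J (lN W a0 (r :: L) b0 be ++ [z]) F' W (r :: L)) z z ∧
          MG1 G P T Fs J Ex Γ' U' D' z Xz h' A' B' W a0 X0 u (r :: L) b0 Y0 yu be F') := by
  rcases MachB2_comb hc hM.comb with ⟨F', hF, hf, hN⟩ | ⟨c, F', hF, hf, hcv, hcl, hN, -⟩
  · obtain ⟨Γ', U', B', h1, h2⟩ := MachB1_pop hc hE hM hF hf hN
    refine ⟨Γ', U', D, F', ?_, Or.inl ⟨B', h1, h2⟩⟩
    rw [hF, Finset.card_insert_of_notMem hf]
    exact Nat.lt_succ_self _
  · obtain ⟨Γ', U', D', r, h', A', B', h1, h2⟩ := MachB1_push hc hE hM hF hf hcv hcl hN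
    refine ⟨Γ', U', D', F', ?_, Or.inr ⟨r, h', A', B', h1, h2⟩⟩
    rw [hF, Finset.card_insert_of_notMem hf]
    exact Nat.lt_succ_self _

end EPG26
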