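import Pool.Agent.W_26e041_h61.Defs

/-!
Straight-line drawings: maximal families of non-crossing segments.
-/

namespace EPG26

open Set

/-- orientation determinant: positive iff `c` is strictly to the left of the ray from `a` to `b` -/
def cr (a b c : ℝ × ℝ) : ℝ := (b.1 - a.1) * (c.2 - a.2) - (b.2 - a.2) * (c.1 - a.1)

/-- closed triangle with counterclockwise corners `a, b, c` -/
def inTri (a b c z : ℝ × ℝ) : Prop := 0 ≤ cr a b z ∧ 0 ≤ cr b c z ∧ 0 ≤ cr c a z

/-- `p` is a straight-line drawing of `G` without crossings -/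
structure Drawn {V : Type*} (G : SimpleGraph V) (p : V → ℝ × ℝ) : Prop where
  inj : Function.Injective p
  pt : ∀ u v w, G.Adj u v → w ≠ u → w ≠ v → p w ∉ segment ℝ (p u) (p v)
  cross : ∀ u v x y, G.Adj u v → G.Adj x y → u ≠ x → u ≠ y → v ≠ x → v ≠ y →
    Disjoint (segment ℝ (p u) (p v)) (segment ℝ (p x) (p y))

/-- no edge can be added -/
def MaxDrawn {V : Type*} (G : SimpleGraph V) (p : V → ℝ × ℝ) : Prop :=
  Drawn G p ∧ ∀ H : SimpleGraph V, G ≤ H → Drawn H p → H = G

/-- by definition -/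
theorem planar_iff {V : Type*} {G : SimpleGraph V} : Planar G ↔ ∃ p, Drawn G p := by
  constructor
  · rintro ⟨p, h1, h2, h3⟩
    exact ⟨p, ⟨h1, h2, h3⟩⟩
  · rintro ⟨p, h⟩
    exact ⟨p, h.inj, h.pt, h.cross⟩

/-- `V` finite, so there are finitely many graphs on `V`: take a maximal one (`Set.Finite` /
`Finite.exists_le_maximal`). -/
theorem Drawn.exists_max {V : Type*} [Finite V] {G : SimpleGraph V} {p : V → ℝ × ℝ}
    (h : Drawn G p) : ∃ H, G ≤ H ∧ MaxDrawn H p := by
  obtain ⟨H, hGH, hH⟩ := Finite.exists_le_maximal (p := fun H : SimpleGraph V => Drawn H p) h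
  exact ⟨H, hGH, hH.prop, fun H' hle hd => (hH.eq_of_le hd hle).symm⟩

/-- Maximality: the graph `G ⊔ SimpleGraph.edge a b` is drawn by `p`, so `a, b` are adjacent. -/
theorem MaxDrawn.adj {V : Type*} {G : SimpleGraph V} {p : V → ℝ × ℝ} (h : MaxDrawn G p) {a b : V}
    (hab : a ≠ b) (hpt : ∀ w, w ≠ a → w ≠ b → p w ∉ segment ℝ (p a) (p b))
    (hcr : ∀ x y, G.Adj x y → a ≠ x → a ≠ y → b ≠ x → b ≠ y →
      Disjoint (segment ℝ (p a) (p b)) (segment ℝ (p x) (p y))) : G.Adj a b := by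
  have hD : Drawn (G ⊔ SimpleGraph.edge a b) p := by
    refine ⟨h.1.inj, ?_, ?_⟩
    · intro u v w huv hwu hwv
      rw [SimpleGraph.sup_adj, SimpleGraph.edge_adj] at huv
      rcases huv with huv | ⟨⟨rfl, rfl⟩ | ⟨rfl, rfl⟩, -⟩
      · exact h.1.pt u v w huv hwu hwv
      · exact hpt w hwu hwv
      · rw [segment_symm]
        exact hpt w hwv hwu
    · intro u v x y huv hxy hux huy hvx hvy
      rw [SimpleGraph.sup_adj, SimpleGraph.edge_adj] at huv hxy
      rcases huv with huv | ⟨⟨rfl, rfl⟩ | ⟨rfl, rfl⟩, -⟩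
      · rcases hxy with hxy | ⟨⟨rfl, rfl⟩ | ⟨rfl, rfl⟩, -⟩
        · exact h.1.cross u v x y huv hxy hux huy hvx hvy
        · exact (hcr u v huv hux.symm hvx.symm huy.symm hvy.symm).symm
        · rw [segment_symm ℝ (p x) (p y)]
          exact (hcr u v huv huy.symm hvy.symm hux.symm hvx.symm).symm
      · rcases hxy with hxy | ⟨⟨h1, -⟩ | ⟨-, h1⟩, -⟩
        · exact hcr x y hxy hux huy hvx hvy
        · exact absurd h1.symm hux
        · exact absurd h1.symm huy
      · rcases hxy with hxy | ⟨⟨h1, -⟩ | ⟨-, h1⟩, -⟩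
        · rw [segment_symm ℝ (p u) (p v)]
          exact hcr x y hxy hvx hvy hux huy
        · exact absurd h1.symm hvx
        · exact absurd h1.symm hvy
  have h2 := h.2 _ le_sup_left hD
  rw [← h2, SimpleGraph.sup_adj, SimpleGraph.edge_adj]
  exact Or.inr ⟨Or.inl ⟨rfl, rfl⟩, hab⟩

/-- Two edges with one common end meet only there: otherwise the four points are collinear and one
of the other ends lies on the other segment. -/
theorem Drawn.inter {V : Type*} {G : SimpleGraph V} {p : V → ℝ × ℝ} (h : Drawn G p) {a b c : V}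
    (hab : G.Adj a b) (hac : G.Adj a c) (hbc : b ≠ c) {z : ℝ × ℝ}
    (h1 : z ∈ segment ℝ (p a) (p b)) (h2 : z ∈ segment ℝ (p a) (p c)) : z = p a := by
  rw [segment_eq_image'] at h1 h2
  obtain ⟨s, ⟨hs0, hs1⟩, hs⟩ := h1
  obtain ⟨t, ⟨ht0, ht1⟩, ht⟩ := h2
  rcases hs0.eq_or_lt with hs0 | hs0
  · rw [← hs, ← hs0]
    simp
  rcases ht0.eq_or_lt with ht0 | ht0
  · rw [← ht, ← ht0]
    simp
  exfalso
  have hst : s • (p b - p a) = t • (p c - p a) := by
    have h3 := hs.trans ht.symm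
    simpa using h3
  rcases le_total s t with hle | hle
  · refine h.pt a b c hab hac.ne' hbc.symm ?_
    rw [segment_eq_image']
    refine ⟨s / t, ⟨by positivity, (div_le_one ht0).2 hle⟩, ?_⟩
    show p a + (s / t) • (p b - p a) = p c
    have h3 : (s / t) • (p b - p a) = p c - p a := by
      rw [div_eq_inv_mul, mul_smul, hst, smul_smul, inv_mul_cancel₀ ht0.ne', one_smul]
    rw [h3]
    abel
  · refine h.pt a c b hac hab.ne' hbc ?_
    rw [segment_eq_image']
    refine ⟨t / s, ⟨by positivity, (div_le_one hs0).2 hle⟩, ?_⟩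
    show p a + (t / s) • (p c - p a) = p b
    have h3 : (t / s) • (p c - p a) = p b - p a := by
      rw [div_eq_inv_mul, mul_smul, ← hst, smul_smul, inv_mul_cancel₀ hs0.ne', one_smul]
    rw [h3]
    abel

/-- `Drawn` is invariant under linear isomorphisms of the plane (segments go to segments:
`image_segment`, injectivity). -/
theorem Drawn.map {V : Type*} {G : SimpleGraph V} {p : V → ℝ × ℝ} (h : Drawn G p)
    (e : (ℝ × ℝ) ≃ₗ[ℝ] (ℝ × ℝ)) : Drawn G (fun v => e (p v)) := by
  have hseg : ∀ x y : ℝ × ℝ, segment ℝ (e x) (e y) = e '' segment ℝ x y := fun x y =>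
    (image_segment ℝ (e : (ℝ × ℝ) →ₗ[ℝ] (ℝ × ℝ)).toAffineMap x y).symm
  refine ⟨fun u v huv => h.inj (e.injective huv), ?_, ?_⟩
  · intro u v w huv hwu hwv
    rw [hseg, e.injective.mem_set_image]
    exact h.pt u v w huv hwu hwv
  · intro u v x y huv hxy hux huy hvx hvy
    rw [hseg, hseg, Set.disjoint_image_iff e.injective]
    exact h.cross u v x y huv hxy hux huy hvx hvy

/-- from `Drawn.map` for `e` and `e.symm` -/
theorem MaxDrawn.map {V : Type*} {G : SimpleGraph V} {p : V → ℝ × ℝ} (h : MaxDrawn G p)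
    (e : (ℝ × ℝ) ≃ₗ[ℝ] (ℝ × ℝ)) : MaxDrawn G (fun v => e (p v)) := by
  refine ⟨h.1.map e, fun H hle hd => h.2 H hle ?_⟩
  have h1 := hd.map e.symm
  simpa using h1

end EPG26
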