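import Pool.Agent.W_26e041_h61.PlA

namespace EPG26

open Set

theorem PlB_sum (A B R z : ℝ × ℝ) : cr A B z + cr R A z + cr B R z = cr A B R := by
  unfold cr
  ring

theorem PlB_rot (A B R : ℝ × ℝ) : cr B R A = cr A B R := by
  unfold cr
  ring

theorem PlB_rot2 (A B R : ℝ × ℝ) : cr R A B = cr A B R := by
  unfold cr
  ring

theorem PlB_zero1 (A B : ℝ × ℝ) : cr A B A = 0 := by
  unfold cr
  ring

theorem PlB_zero2 (A B : ℝ × ℝ) : cr A B B = 0 := by
  unfold cr
  ring

theorem PlB_flip (A R z : ℝ × ℝ) : cr A z R = cr R A z := by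
  unfold cr
  ring

theorem PlB_aff (A B x y : ℝ × ℝ) {s t : ℝ} (hst : s + t = 1) :
    cr A B (s • x + t • y) = s * cr A B x + t * cr A B y := by
  have h : s = 1 - t := by linarith
  subst h
  unfold cr
  simp only [Prod.fst_add, Prod.snd_add, Prod.smul_fst, Prod.smul_snd, smul_eq_mul]
  ring

theorem PlB_mem1 {A B R z : ℝ × ℝ} (hD : 0 < cr A B R) (h1 : cr A B z = 0) (h2 : 0 ≤ cr R A z)
    (h3 : 0 ≤ cr B R z) : z ∈ segment ℝ A B := by
  have hs := PlB_sum A B R z
  have h4 : cr B R z + cr R A z = cr A B R := by linarith
  refine ⟨cr B R z / cr A B R, cr R A z / cr A B R, by positivity, by positivity, ?_, ?_⟩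
  · rw [← add_div, h4, div_self hD.ne']
  · have e1 : cr B R z * A.1 + cr R A z * B.1 + cr A B z * R.1 = cr A B R * z.1 := by
      unfold cr
      ring
    have e2 : cr B R z * A.2 + cr R A z * B.2 + cr A B z * R.2 = cr A B R * z.2 := by
      unfold cr
      ring
    rw [h1] at e1 e2
    refine Prod.ext ?_ ?_
    · show cr B R z / cr A B R * A.1 + cr R A z / cr A B R * B.1 = z.1
      field_simp
      linarith
    · show cr B R z / cr A B R * A.2 + cr R A z / cr A B R * B.2 = z.2
      field_simp
      linarith

theorem PlB_mem2 {A B R z : ℝ × ℝ} (hD : 0 < cr A B R) (h1 : cr R A z = 0) (h2 : 0 ≤ cr A B z)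
    (h3 : 0 ≤ cr B R z) : z ∈ segment ℝ A R := by
  rw [segment_symm]
  refine PlB_mem1 (A := R) (B := A) (R := B) ?_ h1 h3 h2
  rwa [PlB_rot2]

/-- leaving the triangle through one of the sides at `A` -/
theorem PlB_exit {A B R C X : ℝ × ℝ} (hD : 0 < cr A B R) (h1 : 0 < cr A B C) (h2 : 0 < cr R A C)
    (h3 : 0 ≤ cr B R C) (h4 : 0 ≤ cr B R X) (hX : ¬ inTri A B R X) :
    ∃ z ∈ segment ℝ C X, (z ∈ segment ℝ A B ∨ z ∈ segment ℝ A R) ∧
      (0 < cr B R C → 0 < cr B R X → 0 < cr B R z) := by
  have key : ∀ u : ℝ, 0 ≤ u → u ≤ 1 → (1 - u) • C + u • X ∈ segment ℝ C X := fun u h0 h1 =>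
    ⟨1 - u, u, by linarith, h0, by ring, rfl⟩
  have haff : ∀ (u : ℝ) (P Q : ℝ × ℝ), cr P Q ((1 - u) • C + u • X) =
      (1 - u) * cr P Q C + u * cr P Q X := fun u P Q => PlB_aff P Q C X (by ring)
  have hg : ∀ u : ℝ, 0 ≤ u → u ≤ 1 → 0 ≤ cr B R ((1 - u) • C + u • X) := by
    intro u hu0 hu1
    rw [haff]
    have := mul_nonneg (sub_nonneg.2 hu1) h3
    have := mul_nonneg hu0 h4
    linarith
  have hg' : ∀ u : ℝ, 0 ≤ u → u ≤ 1 → (0 < cr B R C → 0 < cr B R X →
      0 < cr B R ((1 - u) • C + u • X)) := by
    intro u hu0 hu1 ha hb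
    rw [haff]
    rcases hu0.eq_or_lt with h | h
    · rw [← h]
      linarith
    · have := mul_nonneg (sub_nonneg.2 hu1) h3
      have := mul_pos h hb
      linarith
  -- the crossing parameter for a coordinate with values `s > 0` at `C` and `t < 0` at `X`
  have hcross : ∀ s t : ℝ, 0 < s → t < 0 → 0 ≤ s / (s - t) ∧ s / (s - t) ≤ 1 ∧
      (1 - s / (s - t)) * s + s / (s - t) * t = 0 := by
    intro s t hs ht
    have h5 : 0 < s - t := by linarith
    refine ⟨by positivity, (div_le_one h5).2 (by linarith), ?_⟩
    field_simp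
    ring
  by_cases ha : cr A B X < 0
  · obtain ⟨e1, e2, e3⟩ := hcross _ _ h1 ha
    set u := cr A B C / (cr A B C - cr A B X) with hu
    by_cases hb : 0 ≤ cr R A ((1 - u) • C + u • X)
    · exact ⟨_, key u e1 e2, Or.inl (PlB_mem1 hD (by rw [haff]; exact e3) hb (hg u e1 e2)),
        hg' u e1 e2⟩
    · push Not at hb
      rw [haff] at hb
      have hb' : cr R A X < 0 := by
        by_contra hcon
        push Not at hcon
        have := mul_nonneg (sub_nonneg.2 e2) h2.le
        have := mul_nonneg e1 hcon
        linarith
      obtain ⟨f1, f2, f3⟩ := hcross _ _ h2 hb'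
      set v := cr R A C / (cr R A C - cr R A X) with hv
      refine ⟨_, key v f1 f2, Or.inr (PlB_mem2 hD (by rw [haff]; exact f3) ?_ (hg v f1 f2)),
        hg' v f1 f2⟩
      rw [haff]
      have hvu : v ≤ u := by
        by_contra hcon
        push Not at hcon
        have h6 : 0 < (v - u) * (cr R A C - cr R A X) := mul_pos (by linarith) (by linarith)
        nlinarith
      have h7 : 0 ≤ (u - v) * (cr A B C - cr A B X) := mul_nonneg (by linarith) (by linarith)
      nlinarith
  · push Not at ha
    have hb' : cr R A X < 0 := by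
      by_contra hcon
      push Not at hcon
      exact hX ⟨ha, h4, hcon⟩
    obtain ⟨f1, f2, f3⟩ := hcross _ _ h2 hb'
    set v := cr R A C / (cr R A C - cr R A X) with hv
    refine ⟨_, key v f1 f2, Or.inr (PlB_mem2 hD (by rw [haff]; exact f3) ?_ (hg v f1 f2)),
      hg' v f1 f2⟩
    rw [haff]
    have := mul_nonneg (sub_nonneg.2 f2) h1.le
    have := mul_nonneg f1 ha
    linarith

/-- an edge `x y` avoiding `a` and meeting the edge `a b` meets it in `b` -/
theorem PlB_meet {V : Type*} {G : SimpleGraph V} {p : V → ℝ × ℝ} (h : Drawn G p) {a b x y : V}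
    (hab : G.Adj a b) (hxy : G.Adj x y) (hax : a ≠ x) (hay : a ≠ y) {z : ℝ × ℝ}
    (h1 : z ∈ segment ℝ (p x) (p y)) (h2 : z ∈ segment ℝ (p a) (p b)) :
    z = p b ∧ (b = x ∨ b = y) := by
  by_cases hbx : b = x
  · subst hbx
    rw [segment_symm] at h2
    exact ⟨h.inter hxy hab.symm hay.symm h1 h2, Or.inl rfl⟩
  by_cases hby : b = y
  · subst hby
    rw [segment_symm] at h2 h1
    exact ⟨h.inter hxy.symm hab.symm hax.symm h1 h2, Or.inr rfl⟩
  · exact absurd h1 (Set.disjoint_left.1 (h.cross a b x y hab hxy hax hay hbx hby) h2)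

/-- Consecutive neighbours `b, r` of `a` (no neighbour strictly inside the angle from `b` to `r`,
which is smaller than `π`) form an empty triangle with `a`, and `b, r` are adjacent.
Proof. Let `f` be the affine function with `f (p a) = 0` and `f = 1` on the line through `p b, p r`
(up to a positive factor `f z = cr (p b) (p r) (p a) - cr (p b) (p r) z`; on the triangle `0 ≤ f ≤ 1`).
(1) Suppose the closed triangle contains another vertex. Among the vertices `w ≠ a, b, r` in the
closed triangle take `h` with `f (p h)` minimal. `h` is strictly inside the angle at `a` (it is not on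
the edges `ab`, `ar` by `Drawn.pt`). Claim: `MaxDrawn.adj` applies to `a, h`, which contradicts
`hcons`. A vertex `w` on the open segment `a h` would be in the triangle with smaller `f`. Suppose an
edge `x y` (`x, y ≠ a, h`) meets `segment (p a) (p h)` in a point `c`; `c ≠ p a, p h` by `Drawn.pt`, so
`0 < f c < f (p h) ≤ 1` and `c` is strictly inside the angle. Of the two ends let `x` be one with
`f (p x) ≤ f c` (`f` is affine on the segment `x y`). The segment from `c` to `p x` lies in `f ≤ f c < 1`.
`p x` is not in the closed triangle: there the only vertices with `f < f (p h)` is `a`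
(`f (p b) = f (p r) = 1`), and `x ≠ a`. So the segment from `c` to `p x` leaves the closed triangle; as
`f ≤ f c < 1` on it, it leaves through the side `a b` or the side `a r`, i.e. it meets
`segment (p a) (p b)` or `segment (p a) (p r)`. If `x` or `y` is `b` (resp. `r`) then this meeting point
would be `p b` by `Drawn.inter`, impossible because of `f < 1`; otherwise it contradicts `Drawn.cross`.
(2) So the triangle is empty. `MaxDrawn.adj` applies to `b, r`: a vertex on the open segment `b r` is
in the closed triangle. An edge `x y` (`x, y ≠ b, r`) meeting `segment (p b) (p r)` in `c` (`c` is not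
`p b, p r` by `Drawn.pt`): if both `x, y ≠ a`: let `x` be an end with `f (p x) ≤ 1`; if `f (p x) = 1` then
`f = 1` on the whole segment, the segment `x y` is on the line `b r`, contains the point `c` strictly
between `p b, p r`, so it contains `p b` or `p r` or has an end strictly between: impossible. If
`f (p x) < 1` then the segment from `c` to `p x` starts into the open triangle, `p x` is not in the
closed triangle, so it meets `segment (p a) (p b)` or `segment (p a) (p r)`, contradiction to
`Drawn.cross`. If `x = a` then `y` is a neighbour of `a` strictly inside the angle, contradiction to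
`hcons`. -/
theorem local_face {V : Type*} [Finite V] {G : SimpleGraph V} {p : V → ℝ × ℝ}
    (h : MaxDrawn G p) {a b r : V} (hab : G.Adj a b) (har : G.Adj a r)
    (hcr : 0 < cr (p a) (p b) (p r))
    (hcons : ∀ s, G.Adj a s → ¬ (0 < cr (p a) (p b) (p s) ∧ 0 < cr (p a) (p s) (p r))) :
    G.Adj b r ∧ ∀ w, w ≠ a → w ≠ b → w ≠ r → ¬ inTri (p a) (p b) (p r) (p w) := by
  obtain ⟨hd, -⟩ := id h
  have hR : ∀ w, cr (p a) (p b) (p w) + cr (p r) (p a) (p w) + cr (p b) (p r) (p w) =
      cr (p a) (p b) (p r) := fun w => PlB_sum _ _ _ _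
  -- no vertex in the triangle
  have hempty : ∀ w, w ≠ a → w ≠ b → w ≠ r → ¬ inTri (p a) (p b) (p r) (p w) := by
    by_contra hcon
    push Not at hcon
    obtain ⟨w0, hw0⟩ := hcon
    set S : Set V := {w | w ≠ a ∧ w ≠ b ∧ w ≠ r ∧ inTri (p a) (p b) (p r) (p w)} with hS
    obtain ⟨q, hq, hmax⟩ := Set.exists_max_image S (fun w => cr (p b) (p r) (p w))
      (Set.toFinite S) ⟨w0, hw0⟩
    obtain ⟨hqa, hqb, hqr, hq1, hq2, hq3⟩ := hq
    have hq1' : 0 < cr (p a) (p b) (p q) := by
      refine lt_of_le_of_ne hq1 fun h0 => ?_
      exact hd.pt a b q hab hqa hqb (PlB_mem1 hcr h0.symm hq3 hq2)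
    have hq3' : 0 < cr (p r) (p a) (p q) := by
      refine lt_of_le_of_ne hq3 fun h0 => ?_
      exact hd.pt a r q har hqa hqr (PlB_mem2 hcr h0.symm hq1 hq2)
    have haq : G.Adj a q := by
      refine h.adj hqa.symm ?_ ?_
      · rintro w hwa hwq ⟨s, t, hs, ht, hst, hw⟩
        have ht0 : 0 < t := by
          refine lt_of_le_of_ne ht fun h0 => ?_
          have hs1 : s = 1 := by linarith
          rw [← h0, hs1, one_smul, zero_smul, add_zero] at hw
          exact hwa (hd.inj hw).symm
        have hs0 : 0 < s := by
          refine lt_of_le_of_ne hs fun h0 => ?_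
          have ht1 : t = 1 := by linarith
          rw [← h0, ht1, one_smul, zero_smul, zero_add] at hw
          exact hwq (hd.inj hw).symm
        have e1 : cr (p a) (p b) (p w) = t * cr (p a) (p b) (p q) := by
          rw [← hw, PlB_aff _ _ _ _ hst, PlB_zero1]
          ring
        have e2 : cr (p r) (p a) (p w) = t * cr (p r) (p a) (p q) := by
          rw [← hw, PlB_aff _ _ _ _ hst, PlB_zero2]
          ring
        have e3 : cr (p b) (p r) (p w) = s * cr (p a) (p b) (p r) + t * cr (p b) (p r) (p q) := by
          rw [← hw, PlB_aff _ _ _ _ hst, PlB_rot]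
        have g1 : 0 < cr (p a) (p b) (p w) := by rw [e1]; positivity
        have g2 : 0 < cr (p r) (p a) (p w) := by rw [e2]; positivity
        have g3 : 0 ≤ cr (p b) (p r) (p w) := by rw [e3]; positivity
        have hwb : w ≠ b := by
          rintro rfl
          rw [PlB_zero2] at g1
          exact lt_irrefl _ g1
        have hwr : w ≠ r := by
          rintro rfl
          rw [PlB_zero1] at g2
          exact lt_irrefl _ g2
        have g4 := hmax w ⟨hwa, hwb, hwr, g1.le, g3, g2.le⟩
        have g5 := hR q
        have g6 : cr (p b) (p r) (p w) - cr (p b) (p r) (p q) =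
            s * (cr (p a) (p b) (p r) - cr (p b) (p r) (p q)) := by
          rw [e3]
          have : s = 1 - t := by linarith
          subst this
          ring
        have g7 : 0 < s * (cr (p a) (p b) (p r) - cr (p b) (p r) (p q)) :=
          mul_pos hs0 (by linarith)
        linarith
      · intro x y hxy hax hay hqx hqy
        rw [Set.disjoint_left]
        rintro c ⟨s, t, hs, ht, hst, hc⟩ hc'
        have ht0 : 0 < t := by
          refine lt_of_le_of_ne ht fun h0 => ?_
          have hs1 : s = 1 := by linarith
          rw [← h0, hs1, one_smul, zero_smul, add_zero] at hc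
          rw [← hc] at hc'
          exact hd.pt x y a hxy hax hay hc'
        have hs0 : 0 < s := by
          refine lt_of_le_of_ne hs fun h0 => ?_
          have ht1 : t = 1 := by linarith
          rw [← h0, ht1, one_smul, zero_smul, zero_add] at hc
          rw [← hc] at hc'
          exact hd.pt x y q hxy hqx hqy hc'
        have e1 : cr (p a) (p b) c = t * cr (p a) (p b) (p q) := by
          rw [← hc, PlB_aff _ _ _ _ hst, PlB_zero1]
          ring
        have e2 : cr (p r) (p a) c = t * cr (p r) (p a) (p q) := by
          rw [← hc, PlB_aff _ _ _ _ hst, PlB_zero2]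
          ring
        have e3 : cr (p b) (p r) c = s * cr (p a) (p b) (p r) + t * cr (p b) (p r) (p q) := by
          rw [← hc, PlB_aff _ _ _ _ hst, PlB_rot]
        have g1 : 0 < cr (p a) (p b) c := by rw [e1]; positivity
        have g2 : 0 < cr (p r) (p a) c := by rw [e2]; positivity
        have g5 := hR q
        have g6 : cr (p b) (p r) c - cr (p b) (p r) (p q) =
            s * (cr (p a) (p b) (p r) - cr (p b) (p r) (p q)) := by
          rw [e3]
          have : s = 1 - t := by linarith
          subst this
          ring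
        have g7 : 0 < s * (cr (p a) (p b) (p r) - cr (p b) (p r) (p q)) :=
          mul_pos hs0 (by linarith)
        have g3 : 0 < cr (p b) (p r) c := by linarith
        -- an end on the near side gives a contradiction
        have main : ∀ x y, G.Adj x y → a ≠ x → a ≠ y → c ∈ segment ℝ (p x) (p y) →
            cr (p b) (p r) c ≤ cr (p b) (p r) (p x) → False := by
          intro x y hxy hax hay hc' hx
          have hxb : x ≠ b := by
            rintro rfl
            rw [PlB_zero1] at hx
            linarith
          have hxr : x ≠ r := by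
            rintro rfl
            rw [PlB_zero2] at hx
            linarith
          have hXn : ¬ inTri (p a) (p b) (p r) (p x) := by
            intro hin
            have := hmax x ⟨hax.symm, hxb, hxr, hin⟩
            linarith
          obtain ⟨z, hz, hz', hz3⟩ := PlB_exit hcr g1 g2 g3.le (g3.le.trans hx) hXn
          have hz4 := hz3 g3 (g3.trans_le hx)
          have hz5 : z ∈ segment ℝ (p x) (p y) :=
            (convex_segment (𝕜 := ℝ) (p x) (p y)).segment_subset hc'
              (left_mem_segment ℝ (p x) (p y)) hz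
          rcases hz' with hz' | hz'
          · have := (PlB_meet hd hab hxy hax hay hz5 hz').1
            rw [this, PlB_zero1] at hz4
            exact lt_irrefl _ hz4
          · have := (PlB_meet hd har hxy hax hay hz5 hz').1
            rw [this, PlB_zero2] at hz4
            exact lt_irrefl _ hz4
        by_cases hx : cr (p b) (p r) c ≤ cr (p b) (p r) (p x)
        · exact main x y hxy hax hay hc' hx
        · push Not at hx
          refine main y x hxy.symm hay hax (by rwa [segment_symm]) ?_
          obtain ⟨s', t', hs', ht', hst', hc2⟩ := hc'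
          have e4 : cr (p b) (p r) c = s' * cr (p b) (p r) (p x) + t' * cr (p b) (p r) (p y) := by
            rw [← hc2, PlB_aff _ _ _ _ hst']
          by_contra hy
          push Not at hy
          have h8 : s' * cr (p b) (p r) (p x) ≤ s' * cr (p b) (p r) c :=
            mul_le_mul_of_nonneg_left hx.le hs'
          have h9 : t' * cr (p b) (p r) (p y) ≤ t' * cr (p b) (p r) c :=
            mul_le_mul_of_nonneg_left hy.le ht'
          have h10 : s' * cr (p b) (p r) c + t' * cr (p b) (p r) c = cr (p b) (p r) c := by
            rw [← add_mul, hst', one_mul]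
          rcases hs'.eq_or_lt with h0 | h0
          · have ht1 : t' = 1 := by linarith
            rw [← h0, ht1] at e4
            linarith
          · have h11 : s' * cr (p b) (p r) (p x) < s' * cr (p b) (p r) c :=
              mul_lt_mul_of_pos_left hx h0
            linarith
    exact hcons q haq ⟨hq1', by rw [PlB_flip]; exact hq3'⟩
  refine ⟨?_, hempty⟩
  have hbr : b ≠ r := by
    rintro rfl
    rw [PlB_zero2] at hcr
    exact lt_irrefl _ hcr
  refine h.adj hbr ?_ ?_
  · rintro w hwb hwr ⟨s, t, hs, ht, hst, hw⟩
    have e1 : cr (p a) (p b) (p w) = t * cr (p a) (p b) (p r) := by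
      rw [← hw, PlB_aff _ _ _ _ hst, PlB_zero2]
      ring
    have e2 : cr (p r) (p a) (p w) = s * cr (p a) (p b) (p r) := by
      rw [← hw, PlB_aff _ _ _ _ hst, PlB_zero1, PlB_rot2]
      ring
    have e3 : cr (p b) (p r) (p w) = 0 := by
      rw [← hw, PlB_aff _ _ _ _ hst, PlB_zero1, PlB_zero2]
      ring
    have hwa : w ≠ a := by
      rintro rfl
      rw [PlB_rot] at e3
      linarith
    refine hempty w hwa hwb hwr ⟨?_, e3.ge, ?_⟩
    · rw [e1]
      positivity
    · rw [e2]
      positivity
  · intro x y hxy hbx hby hrx hry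
    rw [Set.disjoint_left]
    rintro c ⟨s, t, hs, ht, hst, hc⟩ hc'
    have ht0 : 0 < t := by
      refine lt_of_le_of_ne ht fun h0 => ?_
      have hs1 : s = 1 := by linarith
      rw [← h0, hs1, one_smul, zero_smul, add_zero] at hc
      rw [← hc] at hc'
      exact hd.pt x y b hxy hbx hby hc'
    have hs0 : 0 < s := by
      refine lt_of_le_of_ne hs fun h0 => ?_
      have ht1 : t = 1 := by linarith
      rw [← h0, ht1, one_smul, zero_smul, zero_add] at hc
      rw [← hc] at hc'
      exact hd.pt x y r hxy hrx hry hc'
    have e1 : cr (p a) (p b) c = t * cr (p a) (p b) (p r) := by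
      rw [← hc, PlB_aff _ _ _ _ hst, PlB_zero2]
      ring
    have e2 : cr (p r) (p a) c = s * cr (p a) (p b) (p r) := by
      rw [← hc, PlB_aff _ _ _ _ hst, PlB_zero1, PlB_rot2]
      ring
    have e3 : cr (p b) (p r) c = 0 := by
      rw [← hc, PlB_aff _ _ _ _ hst, PlB_zero1, PlB_zero2]
      ring
    have g1 : 0 < cr (p a) (p b) c := by rw [e1]; positivity
    have g2 : 0 < cr (p r) (p a) c := by rw [e2]; positivity
    -- an edge at `a`
    have hA : ∀ y, G.Adj a y → c ∈ segment ℝ (p a) (p y) → False := by
      rintro y hay ⟨s', t', hs', ht', hst', hc2⟩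
      have e4 : cr (p a) (p b) c = t' * cr (p a) (p b) (p y) := by
        rw [← hc2, PlB_aff _ _ _ _ hst', PlB_zero1]
        ring
      have e5 : cr (p r) (p a) c = t' * cr (p r) (p a) (p y) := by
        rw [← hc2, PlB_aff _ _ _ _ hst', PlB_zero2]
        ring
      refine hcons y hay ⟨?_, ?_⟩
      · rw [e4] at g1
        by_contra hcon
        push Not at hcon
        have := mul_nonpos_of_nonneg_of_nonpos ht' hcon
        linarith
      · rw [PlB_flip]
        rw [e5] at g2
        by_contra hcon
        push Not at hcon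
        have := mul_nonpos_of_nonneg_of_nonpos ht' hcon
        linarith
    have main : ∀ x y, G.Adj x y → b ≠ x → b ≠ y → r ≠ x → r ≠ y → a ≠ x → a ≠ y →
        c ∈ segment ℝ (p x) (p y) → 0 ≤ cr (p b) (p r) (p x) → False := by
      intro x y hxy hbx hby hrx hry hax hay hc' hx
      obtain ⟨z, hz, hz', -⟩ := PlB_exit hcr g1 g2 e3.ge hx (hempty x hax.symm hbx.symm hrx.symm)
      have hz5 : z ∈ segment ℝ (p x) (p y) :=
        (convex_segment (𝕜 := ℝ) (p x) (p y)).segment_subset hc'
          (left_mem_segment ℝ (p x) (p y)) hz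
      rcases hz' with hz' | hz'
      · rcases (PlB_meet hd hab hxy hax hay hz5 hz').2 with h1 | h1
        · exact hbx h1
        · exact hby h1
      · rcases (PlB_meet hd har hxy hax hay hz5 hz').2 with h1 | h1
        · exact hrx h1
        · exact hry h1
    by_cases hax : a = x
    · subst hax
      exact hA y hxy hc'
    by_cases hay : a = y
    · subst hay
      rw [segment_symm] at hc'
      exact hA x hxy.symm hc'
    by_cases hx : 0 ≤ cr (p b) (p r) (p x)
    · exact main x y hxy hbx hby hrx hry hax hay hc' hx
    · push Not at hx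
      refine main y x hxy.symm hby hbx hry hrx hay hax (by rwa [segment_symm]) ?_
      obtain ⟨s', t', hs', ht', hst', hc2⟩ := hc'
      have e4 : cr (p b) (p r) c = s' * cr (p b) (p r) (p x) + t' * cr (p b) (p r) (p y) := by
        rw [← hc2, PlB_aff _ _ _ _ hst']
      by_contra hy
      push Not at hy
      have h8 : s' * cr (p b) (p r) (p x) ≤ 0 := mul_nonpos_of_nonneg_of_nonpos hs' hx.le
      have h9 : t' * cr (p b) (p r) (p y) ≤ 0 := mul_nonpos_of_nonneg_of_nonpos ht' hy.le
      rcases hs'.eq_or_lt with h0 | h0
      · have ht1 : t' = 1 := by linarith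
        rw [← h0, ht1] at e4
        linarith
      · have h11 : s' * cr (p b) (p r) (p x) < 0 := mul_neg_of_pos_of_neg h0 hx
        linarith

end EPG26
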