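import Pool.Agent.W_26e041_h61.PlA

namespace EPG26

open Set

theorem PlC_lin {x y z : ℝ × ℝ} (h : z ∈ segment ℝ x y) :
    ∃ l : ℝ, 0 ≤ l ∧ l ≤ 1 ∧ z.1 = (1 - l) * x.1 + l * y.1 ∧ z.2 = (1 - l) * x.2 + l * y.2 := by
  obtain ⟨u, v, hu, hv, huv, rfl⟩ := h
  refine ⟨v, hv, by linarith, ?_, ?_⟩
  · have : u = 1 - v := by linarith
    simp [this]
  · have : u = 1 - v := by linarith
    simp [this]

theorem PlC_mk {x y z : ℝ × ℝ} (l : ℝ) (h0 : 0 ≤ l) (h1 : l ≤ 1)
    (hz1 : z.1 = (1 - l) * x.1 + l * y.1) (hz2 : z.2 = (1 - l) * x.2 + l * y.2) :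
    z ∈ segment ℝ x y := by
  refine ⟨1 - l, l, by linarith, h0, by ring, ?_⟩
  refine Prod.ext ?_ ?_
  · simp [hz1]
  · simp [hz2]

/-- a point of the edge `s t` which is not a vertex lies on no other edge -/
theorem PlC_other {V : Type*} {G : SimpleGraph V} {q : V → ℝ × ℝ} (h : Drawn G q) {s t : V}
    (hst : G.Adj s t) {d : ℝ × ℝ} (hd : d ∈ segment ℝ (q s) (q t)) (hds : d ≠ q s) (hdt : d ≠ q t)
    {x y : V} (hxy : G.Adj x y) (hd' : d ∈ segment ℝ (q x) (q y)) :
    (x = s ∧ y = t) ∨ (x = t ∧ y = s) := by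
  by_cases h1 : x = s
  · subst h1
    by_cases h2 : y = t
    · exact Or.inl ⟨rfl, h2⟩
    · exact absurd (h.inter hst hxy (Ne.symm h2) hd hd') hds
  by_cases h2 : x = t
  · subst h2
    by_cases h3 : y = s
    · exact Or.inr ⟨rfl, h3⟩
    · rw [segment_symm] at hd
      exact absurd (h.inter hst.symm hxy (Ne.symm h3) hd hd') hdt
  by_cases h3 : y = s
  · subst h3
    rw [segment_symm] at hd'
    exact absurd (h.inter hst hxy.symm (Ne.symm h2) hd hd') hds
  by_cases h4 : y = t
  · subst h4
    rw [segment_symm] at hd hd'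
    exact absurd (h.inter hst.symm hxy.symm (Ne.symm h1) hd hd') hdt
  exact absurd hd' (Set.disjoint_left.1
    (h.cross s t x y hst hxy (Ne.symm h1) (Ne.symm h3) (Ne.symm h2) (Ne.symm h4)) hd)

/-- the crucial step, in normalised coordinates -/
theorem PlC_core {V : Type*} [Finite V] {G : SimpleGraph V} {q : V → ℝ × ℝ} (h : MaxDrawn G q)
    {a s t : V} (ha : q a = (0, 0)) (hs : q s = (0, 1)) {τ : ℝ} (hτ : 0 < τ)
    (ht : q t = (1 + τ, -τ)) (hst : G.Adj s t) (hsa : s ≠ a) (hta : t ≠ a)
    (hv : ∀ w, w ≠ a → ∀ m : ℝ, 0 ≤ m → m < 1 → q w ≠ (m, 0))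
    (he : ∀ x y, G.Adj x y → x ≠ a → y ≠ a → ∀ m : ℝ, 0 ≤ m → m < 1 →
      ((m, 0) : ℝ × ℝ) ∉ segment ℝ (q x) (q y)) :
    ∃ w, G.Adj a w ∧ 0 ≤ (q w).1 ∧ 0 ≤ (q w).2 := by
  -- points of the edge `s t`
  have hmem : ∀ d : ℝ × ℝ, d.1 + d.2 = 1 → 0 ≤ d.2 → d.2 < 1 → d ∈ segment ℝ (q s) (q t) := by
    intro d h1 h2 h3
    have h4 : 0 < 1 + τ := by linarith
    refine PlC_mk ((1 - d.2) / (1 + τ)) (by apply div_nonneg <;> linarith)
      (by rw [div_le_one h4]; linarith) ?_ ?_
    · rw [hs, ht]
      show d.1 = (1 - (1 - d.2) / (1 + τ)) * 0 + (1 - d.2) / (1 + τ) * (1 + τ)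
      rw [div_mul_cancel₀ _ h4.ne']
      linarith
    · rw [hs, ht]
      show d.2 = (1 - (1 - d.2) / (1 + τ)) * 1 + (1 - d.2) / (1 + τ) * (-τ)
      field_simp
      ring
  have hK1 : ∀ d : ℝ × ℝ, d.1 + d.2 = 1 → 0 ≤ d.2 → d.2 < 1 → ∀ x y, G.Adj x y →
      d ∈ segment ℝ (q x) (q y) → (x = s ∧ y = t) ∨ (x = t ∧ y = s) := by
    intro d h1 h2 h3 x y hxy hd
    refine PlC_other h.1 hst (hmem d h1 h2 h3) ?_ ?_ hxy hd
    · intro hh
      rw [hh, hs] at h3
      exact lt_irrefl _ h3
    · intro hh
      rw [hh, ht] at h2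
      have : (0 : ℝ) ≤ -τ := h2
      linarith
  -- the vertices of the triangle
  set N : Set V := {w | w ≠ a ∧ 0 ≤ (q w).1 ∧ 0 ≤ (q w).2 ∧ (q w).1 + (q w).2 ≤ 1} with hN
  have hsN : s ∈ N := by
    refine ⟨hsa, ?_, ?_, ?_⟩ <;> rw [hs] <;> norm_num
  have hpos : ∀ w ∈ N, 0 < (q w).2 := by
    rintro w ⟨h1, h2, h3, h4⟩
    rcases h3.eq_or_lt with h5 | h5
    · exfalso
      rcases lt_or_ge (q w).1 1 with h6 | h6
      · exact hv w h1 _ h2 h6 (Prod.ext rfl h5.symm)
      · have h7 : (q w).1 = 1 := by linarith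
        have h8 : q w = (1, 0) := Prod.ext h7 h5.symm
        refine h.1.pt s t w hst ?_ ?_ ?_
        · rintro rfl
          rw [hs] at h7
          norm_num at h7
        · rintro rfl
          rw [ht] at h7
          have : 1 + τ = 1 := h7
          linarith
        · rw [h8]
          exact hmem (1, 0) (by norm_num) (by norm_num) (by norm_num)
    · exact h5
  obtain ⟨h0, hh0, hmax⟩ := Set.exists_max_image N (fun w => (q w).1 / (q w).2)
    (Set.toFinite _) ⟨s, hsN⟩
  set M : ℝ := (q h0).1 / (q h0).2 with hM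
  have hM0 : 0 ≤ M := div_nonneg hh0.2.1 hh0.2.2.1
  obtain ⟨r, ⟨hrN, hrM⟩, hmin⟩ := Set.exists_min_image {w | w ∈ N ∧ (q w).1 = M * (q w).2}
    (fun w => (q w).2) (Set.toFinite _)
    ⟨h0, hh0, by rw [hM, div_mul_cancel₀ _ (hpos h0 hh0).ne']⟩
  have hrpos := hpos r hrN
  have hray : ∀ w, w ≠ a → w ≠ r → ∀ k : ℝ, 0 ≤ k → k ≤ 1 → (q w).1 = k * (q r).1 →
      (q w).2 = k * (q r).2 → False := by
    intro w hwa hwr k hk0 hk1 hk2 hk3
    obtain ⟨hr1, hr2, hr3, hr4⟩ := hrN
    have hwN : w ∈ N := by
      refine ⟨hwa, by rw [hk2]; positivity, by rw [hk3]; positivity, ?_⟩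
      rw [hk2, hk3, ← mul_add]
      calc k * ((q r).1 + (q r).2) ≤ 1 * 1 := by
            apply mul_le_mul hk1 hr4 (by linarith) (by norm_num)
        _ = 1 := by norm_num
    have h1 := hmin w ⟨hwN, by rw [hk2, hk3, hrM]; ring⟩
    have h2 : (q r).2 ≤ (q w).2 := h1
    rw [hk3] at h2
    have h3 : k = 1 := by
      by_contra hne
      have h4 : k < 1 := lt_of_le_of_ne hk1 hne
      nlinarith
    rw [h3, one_mul] at hk2 hk3
    exact hwr (h.1.inj (Prod.ext hk2 hk3))
  have hfle : ∀ w ∈ N, (q w).1 - M * (q w).2 ≤ 0 := by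
    intro w hw
    have h1 := hmax w hw
    have h2 : (q w).1 / (q w).2 ≤ M := h1
    rw [div_le_iff₀ (hpos w hw)] at h2
    linarith
  have har : a ≠ r := fun hh => hrN.1 hh.symm
  -- no edge crosses, main case
  have hmain : ∀ x y, G.Adj x y → x ≠ a → y ≠ a → ∀ z ∈ segment ℝ (q x) (q y),
      z.1 = M * z.2 → 0 < z.2 → z.1 + z.2 < 1 → 0 < (q x).1 - M * (q x).2 → False := by
    intro x y hxy hxa hya z hz hz1 hz2 hz3 hfx
    have hnot : ¬ ((x = s ∧ y = t) ∨ (x = t ∧ y = s)) := by
      obtain ⟨l, hl0, hl1, hl2, hl3⟩ := PlC_lin hz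
      rintro (⟨rfl, rfl⟩ | ⟨rfl, rfl⟩)
      · rw [hs, ht] at hl2 hl3
        simp only at hl2 hl3
        nlinarith
      · rw [hs, ht] at hl2 hl3
        simp only at hl2 hl3
        nlinarith
    have hsub : segment ℝ z (q x) ⊆ segment ℝ (q x) (q y) :=
      (convex_segment _ _).segment_subset hz (left_mem_segment ℝ _ _)
    have hK3 : ∀ d ∈ segment ℝ z (q x), 0 < d.1 - M * d.2 → 0 ≤ d.2 → 1 ≤ d.1 + d.2 → False := by
      intro d hd hfd hd2 hds
      set k : ℝ := (1 - (z.1 + z.2)) / ((d.1 + d.2) - (z.1 + z.2)) with hk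
      have hden : 0 < (d.1 + d.2) - (z.1 + z.2) := by linarith
      have hk0 : 0 < k := div_pos (by linarith) hden
      have hk1 : k ≤ 1 := by rw [hk, div_le_one hden]; linarith
      have hk2 : k * ((d.1 + d.2) - (z.1 + z.2)) = 1 - (z.1 + z.2) := by
        rw [hk, div_mul_cancel₀ _ hden.ne']
      set d' : ℝ × ℝ := ((1 - k) * z.1 + k * d.1, (1 - k) * z.2 + k * d.2) with hd'
      have hd'1 : d' ∈ segment ℝ z d := PlC_mk k hk0.le hk1 rfl rfl
      have hd'2 : d' ∈ segment ℝ z (q x) :=
        (convex_segment _ _).segment_subset (left_mem_segment ℝ _ _) hd hd'1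
      have e1 : d'.1 + d'.2 = 1 := by
        simp only [hd']
        linarith
      have e2 : 0 ≤ d'.2 := by
        simp only [hd']
        have : 0 ≤ 1 - k := by linarith
        positivity
      have e3 : 0 < d'.1 - M * d'.2 := by
        have : d'.1 - M * d'.2 = (1 - k) * (z.1 - M * z.2) + k * (d.1 - M * d.2) := by
          simp only [hd']
          ring
        rw [this, hz1, sub_self, mul_zero, zero_add]
        exact mul_pos hk0 hfd
      have e4 : d'.2 < 1 := by
        have : 0 ≤ M * d'.2 := mul_nonneg hM0 e2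
        linarith
      exact hnot (hK1 d' e1 e2 e4 x y hxy (hsub hd'2))
    rcases lt_or_ge (q x).2 0 with hx2 | hx2
    · -- leaves through the line `ν = 0`
      set k : ℝ := z.2 / (z.2 - (q x).2) with hk
      have hden : 0 < z.2 - (q x).2 := by linarith
      have hk0 : 0 < k := div_pos hz2 hden
      have hk1 : k ≤ 1 := by rw [hk, div_le_one hden]; linarith
      have hk2 : k * (z.2 - (q x).2) = z.2 := by rw [hk, div_mul_cancel₀ _ hden.ne']
      set d : ℝ × ℝ := ((1 - k) * z.1 + k * (q x).1, 0) with hd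
      have hd1 : d ∈ segment ℝ z (q x) := PlC_mk k hk0.le hk1 rfl (by simp only [hd]; linarith)
      have e3 : 0 < d.1 := by
        have : d.1 = (1 - k) * (z.1 - M * z.2) + k * ((q x).1 - M * (q x).2) := by
          simp only [hd]
          have : M * (k * (z.2 - (q x).2)) = M * z.2 := by rw [hk2]
          linarith
        rw [this, hz1, sub_self, mul_zero, zero_add]
        exact mul_pos hk0 hfx
      rcases lt_or_ge d.1 1 with h1 | h1
      · exact he x y hxy hxa hya d.1 e3.le h1 (hsub hd1)
      · refine hK3 d hd1 ?_ le_rfl ?_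
        · show 0 < d.1 - M * 0
          linarith
        · show 1 ≤ d.1 + 0
          linarith
    · have hx1 : 0 < (q x).1 := by
        have : 0 ≤ M * (q x).2 := mul_nonneg hM0 hx2
        linarith
      rcases lt_or_ge ((q x).1 + (q x).2) 1 with h1 | h1
      · have := hfle x ⟨hxa, hx1.le, hx2, h1.le⟩
        linarith
      · exact hK3 (q x) (right_mem_segment ℝ _ _) hfx hx2 h1
  refine ⟨r, h.adj har ?_ ?_, hrN.2.1, hrN.2.2.1⟩
  · intro w hwa hwr hw
    obtain ⟨l, hl0, hl1, hl2, hl3⟩ := PlC_lin hw
    rw [ha] at hl2 hl3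
    exact hray w hwa hwr l hl0 hl1 (by rw [hl2]; ring) (by rw [hl3]; ring)
  · intro x y hxy hax hay hrx hry
    rw [Set.disjoint_left]
    intro z hz hz'
    obtain ⟨k, hk0, hk1, hk2, hk3⟩ := PlC_lin hz
    rw [ha] at hk2 hk3
    simp only [mul_zero, zero_add] at hk2 hk3
    have hk0' : 0 < k := by
      rcases hk0.eq_or_lt with h1 | h1
      · exfalso
        refine h.1.pt x y a hxy hax hay ?_
        have : z = q a := by
          rw [ha]
          exact Prod.ext (by rw [hk2, ← h1, zero_mul]) (by rw [hk3, ← h1, zero_mul])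
        rw [← this]
        exact hz'
      · exact h1
    have hk1' : k < 1 := by
      rcases hk1.eq_or_lt with h1 | h1
      · exfalso
        refine h.1.pt x y r hxy hrx hry ?_
        have : z = q r := Prod.ext (by rw [hk2, h1, one_mul]) (by rw [hk3, h1, one_mul])
        rw [← this]
        exact hz'
      · exact h1
    have hz1 : z.1 = M * z.2 := by
      rw [hk2, hk3, hrM]
      ring
    have hz2 : 0 < z.2 := by
      rw [hk3]
      positivity
    have hz3 : z.1 + z.2 < 1 := by
      rw [hk2, hk3, ← mul_add]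
      have h1 := hrN.2.2.2
      have h2 := hrN.2.1
      nlinarith
    obtain ⟨l, hl0, hl1, hl2, hl3⟩ := PlC_lin hz'
    have hfz : (1 - l) * ((q x).1 - M * (q x).2) + l * ((q y).1 - M * (q y).2) = 0 := by
      have : z.1 - M * z.2 = (1 - l) * ((q x).1 - M * (q x).2) + l * ((q y).1 - M * (q y).2) := by
        rw [hl2, hl3]
        ring
      rw [← this, hz1]
      ring
    rcases lt_trichotomy ((q x).1 - M * (q x).2) 0 with hfx | hfx | hfx
    · -- then `y` is on the positive side, or `l = 1`
      have hyx : z ∈ segment ℝ (q y) (q x) := by rw [segment_symm]; exact hz'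
      rcases lt_trichotomy ((q y).1 - M * (q y).2) 0 with hfy | hfy | hfy
      · exfalso
        have h1 : (1 - l) * ((q x).1 - M * (q x).2) ≤ 0 :=
          mul_nonpos_of_nonneg_of_nonpos (by linarith) hfx.le
        have h2 : l * ((q y).1 - M * (q y).2) ≤ 0 := mul_nonpos_of_nonneg_of_nonpos hl0 hfy.le
        have h3 : l = 0 := by
          by_contra hne
          have : 0 < l := lt_of_le_of_ne hl0 (Ne.symm hne)
          have := mul_neg_of_pos_of_neg this hfy
          linarith
        rw [h3] at hfz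
        linarith
      · -- `y` on the line, so `z = y`
        have h3 : l = 1 := by
          rw [hfy, mul_zero, add_zero] at hfz
          rcases mul_eq_zero.1 hfz with h4 | h4
          · linarith
          · linarith
        rw [h3] at hl2 hl3
        refine hray y (Ne.symm hay) (Ne.symm hry) k hk0 hk1 ?_ ?_
        · rw [← hk2, hl2]; ring
        · rw [← hk3, hl3]; ring
      · exact hmain y x hxy.symm (Ne.symm hay) (Ne.symm hax) z hyx hz1 hz2 hz3 hfy
    · -- `x` on the line
      rw [hfx, mul_zero, zero_add] at hfz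
      rcases mul_eq_zero.1 hfz with h4 | h4
      · rw [h4] at hl2 hl3
        refine hray x (Ne.symm hax) (Ne.symm hrx) k hk0 hk1 ?_ ?_
        · rw [← hk2, hl2]; ring
        · rw [← hk3, hl3]; ring
      · -- both ends on the line
        have hx2 : (q x).1 = M * (q x).2 := by linarith
        have hy2 : (q y).1 = M * (q y).2 := by linarith
        have hneg : ¬ ((q x).2 ≤ 0 ∧ 0 ≤ (q y).2) ∧ ¬ ((q y).2 ≤ 0 ∧ 0 ≤ (q x).2) := by
          constructor
          · rintro ⟨h5, h6⟩
            refine h.1.pt x y a hxy hax hay ?_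
            rcases h5.eq_or_lt with h7 | h7
            · exfalso
              exact hax (h.1.inj (by rw [ha]; exact (Prod.ext (by rw [hx2, h7]; simp) h7).symm))
            · have hden : 0 < (q y).2 - (q x).2 := by linarith
              refine PlC_mk (-(q x).2 / ((q y).2 - (q x).2)) (div_nonneg (by linarith) hden.le)
                (by rw [div_le_one hden]; linarith) ?_ ?_
              · rw [ha, hx2, hy2]
                show (0 : ℝ) = _
                field_simp
                ring
              · rw [ha]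
                show (0 : ℝ) = _
                field_simp
                ring
          · rintro ⟨h5, h6⟩
            refine h.1.pt y x a hxy.symm hay hax ?_
            rcases h5.eq_or_lt with h7 | h7
            · exfalso
              exact hay (h.1.inj (by rw [ha]; exact (Prod.ext (by rw [hy2, h7]; simp) h7).symm))
            · have hden : 0 < (q x).2 - (q y).2 := by linarith
              refine PlC_mk (-(q y).2 / ((q x).2 - (q y).2)) (div_nonneg (by linarith) hden.le)
                (by rw [div_le_one hden]; linarith) ?_ ?_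
              · rw [ha, hx2, hy2]
                show (0 : ℝ) = _
                field_simp
                ring
              · rw [ha]
                show (0 : ℝ) = _
                field_simp
                ring
        -- one of the ends is between `0` and `z`
        rcases le_total (q x).2 z.2 with h5 | h5
        · rcases le_total 0 (q x).2 with h6 | h6
          · refine hray x (Ne.symm hax) (Ne.symm hrx) ((q x).2 / (q r).2)
              (div_nonneg h6 hrpos.le) ?_ ?_ ?_
            · rw [div_le_one hrpos]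
              rw [hk3] at h5
              nlinarith
            · rw [hrM, hx2]
              field_simp
            · field_simp
          · -- `x` below zero, then `y` too
            have h7 : (q y).2 < 0 := by
              by_contra hcon
              exact hneg.1 ⟨h6, by linarith⟩
            have h8 : z.2 ≤ 0 := by
              rw [hl3]
              have h9 : (1 - l) * (q x).2 ≤ 0 := mul_nonpos_of_nonneg_of_nonpos (by linarith) h6
              have h10 : l * (q y).2 ≤ 0 := mul_nonpos_of_nonneg_of_nonpos hl0 h7.le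
              linarith
            linarith
        · -- then `y` is at or below `z`, or `z = x`
          rcases le_total (q y).2 z.2 with h6 | h6
          · rcases le_total 0 (q y).2 with h7 | h7
            · refine hray y (Ne.symm hay) (Ne.symm hry) ((q y).2 / (q r).2)
                (div_nonneg h7 hrpos.le) ?_ ?_ ?_
              · rw [div_le_one hrpos]
                rw [hk3] at h6
                nlinarith
              · rw [hrM, hy2]
                field_simp
              · field_simp
            · exact hneg.2 ⟨h7, by linarith⟩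
          · -- both above `z`: `z` is one of them
            rcases h5.eq_or_lt with h7 | h7
            · refine hray x (Ne.symm hax) (Ne.symm hrx) k hk0 hk1 ?_ ?_
              · rw [← hk2, hz1, hx2, h7]
              · rw [← hk3, h7]
            · have h8 : (1 - l) * ((q x).2 - z.2) + l * ((q y).2 - z.2) = 0 := by
                rw [hl3]
                ring
              have h9 : 0 ≤ l * ((q y).2 - z.2) := mul_nonneg hl0 (by linarith)
              have h10 : 0 ≤ (1 - l) * ((q x).2 - z.2) := mul_nonneg (by linarith) (by linarith)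
              have h11 : (1 - l) * ((q x).2 - z.2) = 0 := by linarith
              have h12 : l = 1 := by
                rcases mul_eq_zero.1 h11 with h13 | h13
                · linarith
                · linarith
              refine hray y (Ne.symm hay) (Ne.symm hry) k hk0 hk1 ?_ ?_
              · rw [← hk2, hl2, h12]; ring
              · rw [← hk3, hl3, h12]; ring
    · exact hmain x y hxy (Ne.symm hax) (Ne.symm hay) z hz' hz1 hz2 hz3 hfx

theorem PlC_translate {V : Type*} {G : SimpleGraph V} {p : V → ℝ × ℝ} (h : Drawn G p)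
    (c : ℝ × ℝ) : Drawn G (fun v => c + p v) := by
  refine ⟨fun u v huv => h.inj (add_left_cancel huv), ?_, ?_⟩
  · intro u v w huv hwu hwv
    rw [mem_segment_translate]
    exact h.pt u v w huv hwu hwv
  · intro u v x y huv hxy hux huy hvx hvy
    have h1 := h.cross u v x y huv hxy hux huy hvx hvy
    rw [Set.disjoint_left] at h1 ⊢
    intro z hz hz'
    have hzc : z = c + (-c + z) := by abel
    rw [hzc, mem_segment_translate] at hz hz'
    exact h1 hz hz'

theorem PlC_translate_max {V : Type*} {G : SimpleGraph V} {p : V → ℝ × ℝ} (h : MaxDrawn G p)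
    (c : ℝ × ℝ) : MaxDrawn G (fun v => c + p v) := by
  refine ⟨PlC_translate h.1 c, fun H hle hd => h.2 H hle ?_⟩
  have h1 := PlC_translate hd (-c)
  simpa using h1

/-- the linear map which sends `c` to `(1, 0)` and `s` to `(0, 1)` -/
noncomputable def PlC_equiv (c s : ℝ × ℝ) (hD : c.1 * s.2 - c.2 * s.1 ≠ 0) :
    (ℝ × ℝ) ≃ₗ[ℝ] (ℝ × ℝ) where
  toFun z := ((z.1 * s.2 - z.2 * s.1) / (c.1 * s.2 - c.2 * s.1),
    (c.1 * z.2 - c.2 * z.1) / (c.1 * s.2 - c.2 * s.1))
  invFun z := (z.1 * c.1 + z.2 * s.1, z.1 * c.2 + z.2 * s.2)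
  map_add' x y := by
    refine Prod.ext ?_ ?_
    · simp only [Prod.fst_add, Prod.snd_add]
      ring
    · simp only [Prod.fst_add, Prod.snd_add]
      ring
  map_smul' k x := by
    refine Prod.ext ?_ ?_
    · simp only [Prod.smul_fst, Prod.smul_snd, smul_eq_mul, RingHom.id_apply]
      ring
    · simp only [Prod.smul_fst, Prod.smul_snd, smul_eq_mul, RingHom.id_apply]
      ring
  left_inv z := by
    refine Prod.ext ?_ ?_
    · simp only
      rw [div_mul_eq_mul_div, div_mul_eq_mul_div, ← add_div, div_eq_iff hD]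
      ring
    · simp only
      rw [div_mul_eq_mul_div, div_mul_eq_mul_div, ← add_div, div_eq_iff hD]
      ring
  right_inv z := by
    refine Prod.ext ?_ ?_
    · simp only
      rw [div_eq_iff hD]
      ring
    · simp only
      rw [div_eq_iff hD]
      ring

theorem PlC_equiv_symm (c s : ℝ × ℝ) (hD : c.1 * s.2 - c.2 * s.1 ≠ 0) (z : ℝ × ℝ) :
    (PlC_equiv c s hD).symm z = (z.1 * c.1 + z.2 * s.1, z.1 * c.2 + z.2 * s.2) := rfl

theorem PlC_isCompact_segment (x y : ℝ × ℝ) : IsCompact (segment ℝ x y) := by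
  rw [segment_eq_image]
  exact isCompact_Icc.image (by fun_prop)

/-- the nearest obstacle is an inner point of an edge -/
theorem PlC_edge {V : Type*} [Finite V] {G : SimpleGraph V} {p : V → ℝ × ℝ} (h : MaxDrawn G p)
    {a : V} (ha : p a = (0, 0)) (α β : ℝ) {c : ℝ × ℝ} (hc : 0 < α * c.1 + β * c.2)
    (hv : ∀ w, w ≠ a → ∀ m : ℝ, 0 ≤ m → m ≤ 1 → p w ≠ m • c)
    (he : ∀ x y, G.Adj x y → x ≠ a → y ≠ a → ∀ m : ℝ, 0 ≤ m → m < 1 →
      m • c ∉ segment ℝ (p x) (p y))
    {s t : V} (hst : G.Adj s t) (hsa : s ≠ a) (hta : t ≠ a) (hmem : c ∈ segment ℝ (p s) (p t))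
    (hs : α * c.1 + β * c.2 ≤ α * (p s).1 + β * (p s).2) :
    ∃ r, G.Adj a r ∧ 0 < α * (p r).1 + β * (p r).2 := by
  obtain ⟨l, hl0, hl1, hl2, hl3⟩ := PlC_lin hmem
  have hl0' : 0 < l := by
    rcases hl0.eq_or_lt with h1 | h1
    · exfalso
      refine hv s hsa 1 (by norm_num) le_rfl ?_
      rw [one_smul]
      exact Prod.ext (by rw [hl2, ← h1]; ring) (by rw [hl3, ← h1]; ring)
    · exact h1
  have hl1' : l < 1 := by
    rcases hl1.eq_or_lt with h1 | h1
    · exfalso
      refine hv t hta 1 (by norm_num) le_rfl ?_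
      rw [one_smul]
      exact Prod.ext (by rw [hl2, h1]; ring) (by rw [hl3, h1]; ring)
    · exact h1
  have hD : c.1 * (p s).2 - c.2 * (p s).1 ≠ 0 := by
    intro hD
    set ρ : ℝ := (α * (p s).1 + β * (p s).2) / (α * c.1 + β * c.2) with hρ
    have hs1 : (p s).1 = ρ * c.1 := by
      rw [hρ, div_mul_eq_mul_div, eq_div_iff hc.ne']
      linear_combination (-β) * hD
    have hs2 : (p s).2 = ρ * c.2 := by
      rw [hρ, div_mul_eq_mul_div, eq_div_iff hc.ne']
      linear_combination α * hD
    have hρ1 : 1 ≤ ρ := by rw [hρ, one_le_div hc]; exact hs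
    have hρ2 : 1 < ρ := by
      rcases hρ1.eq_or_lt with h1 | h1
      · exfalso
        refine hv s hsa 1 (by norm_num) le_rfl ?_
        rw [one_smul]
        exact Prod.ext (by rw [hs1, ← h1, one_mul]) (by rw [hs2, ← h1, one_mul])
      · exact h1
    set ρ' : ℝ := (1 - (1 - l) * ρ) / l with hρ'
    have ht1 : (p t).1 = ρ' * c.1 := by
      rw [hρ', div_mul_eq_mul_div, eq_div_iff hl0'.ne']
      rw [hs1] at hl2
      linear_combination (-1 : ℝ) * hl2
    have ht2 : (p t).2 = ρ' * c.2 := by
      rw [hρ', div_mul_eq_mul_div, eq_div_iff hl0'.ne']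
      rw [hs2] at hl3
      linear_combination (-1 : ℝ) * hl3
    have hρ'1 : ρ' < 1 := by
      rw [hρ', div_lt_one hl0']
      nlinarith
    rcases le_or_gt 0 ρ' with h1 | h1
    · exact hv t hta ρ' h1 hρ'1.le (Prod.ext ht1 ht2)
    · refine h.1.pt s t a hst (Ne.symm hsa) (Ne.symm hta) ?_
      have hden : 0 < ρ - ρ' := by linarith
      refine PlC_mk (ρ / (ρ - ρ')) (div_nonneg (by linarith) hden.le)
        (by rw [div_le_one hden]; linarith) ?_ ?_
      · rw [ha, hs1, ht1]
        show (0 : ℝ) = _
        field_simp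
        ring
      · rw [ha, hs2, ht2]
        show (0 : ℝ) = _
        field_simp
        ring
  set e := PlC_equiv c (p s) hD with he'
  have hmax := h.map e
  have hseg : ∀ x y : ℝ × ℝ, segment ℝ (e x) (e y) = e '' segment ℝ x y := fun x y =>
    (image_segment ℝ (e : (ℝ × ℝ) →ₗ[ℝ] (ℝ × ℝ)).toAffineMap x y).symm
  have hsymm : ∀ m : ℝ, e.symm (m, 0) = m • c := by
    intro m
    rw [he', PlC_equiv_symm]
    refine Prod.ext ?_ ?_
    · simp
    · simp
  obtain ⟨r, har, hr1, hr2⟩ := PlC_core (q := fun v => e (p v)) (a := a) (s := s) (t := t)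
    (τ := (1 - l) / l) hmax
    (by
      show e (p a) = (0, 0)
      rw [ha]
      exact map_zero e)
    (by
      show e (p s) = (0, 1)
      rw [← LinearEquiv.eq_symm_apply, he', PlC_equiv_symm]
      refine Prod.ext ?_ ?_
      · simp
      · simp)
    (div_pos (by linarith) hl0')
    (by
      show e (p t) = _
      rw [← LinearEquiv.eq_symm_apply, he', PlC_equiv_symm]
      refine Prod.ext ?_ ?_
      · show (p t).1 = (1 + (1 - l) / l) * c.1 + (-((1 - l) / l)) * (p s).1
        rw [hl2]
        field_simp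
        ring
      · show (p t).2 = (1 + (1 - l) / l) * c.2 + (-((1 - l) / l)) * (p s).2
        rw [hl3]
        field_simp
        ring)
    hst hsa hta
    (by
      intro w hwa m hm0 hm1 hw
      have h1 : e (p w) = (m, 0) := hw
      rw [← LinearEquiv.eq_symm_apply, hsymm] at h1
      exact hv w hwa m hm0 hm1.le h1)
    (by
      intro x y hxy hxa hya m hm0 hm1 hm
      have h1 : ((m, 0) : ℝ × ℝ) ∈ segment ℝ (e (p x)) (e (p y)) := hm
      rw [hseg] at h1
      obtain ⟨z, hz, hz'⟩ := h1
      rw [← LinearEquiv.eq_symm_apply, hsymm] at hz'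
      rw [hz'] at hz
      exact he x y hxy hxa hya m hm0 hm1 hz)
  refine ⟨r, har, ?_⟩
  have hr3 : p r = e.symm (e (p r)) := (e.symm_apply_apply _).symm
  rw [he', PlC_equiv_symm, ← he'] at hr3
  set m := (e (p r)).1 with hm
  set n := (e (p r)).2 with hn
  have h1 : (p r).1 = m * c.1 + n * (p s).1 := by rw [hr3]
  have h2 : (p r).2 = m * c.2 + n * (p s).2 := by rw [hr3]
  have h3 : α * (p r).1 + β * (p r).2 =
      m * (α * c.1 + β * c.2) + n * (α * (p s).1 + β * (p s).2) := by
    rw [h1, h2]
    ring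
  rw [h3]
  have hr1' : 0 ≤ m := hr1
  have hr2' : 0 ≤ n := hr2
  have h4 : 0 < α * (p s).1 + β * (p s).2 := lt_of_lt_of_le hc hs
  rcases hr1'.eq_or_lt with h5 | h5
  · rcases hr2'.eq_or_lt with h6 | h6
    · exfalso
      refine har.ne' (h.1.inj ?_)
      rw [ha]
      exact Prod.ext (by rw [h1, ← h5, ← h6]; simp) (by rw [h2, ← h5, ← h6]; simp)
    · rw [← h5, zero_mul, zero_add]
      exact mul_pos h6 h4
  · have := mul_pos h5 hc
    have := mul_nonneg hr2' h4.le
    linarith

theorem PlC_gap0 {V : Type*} [Finite V] {G : SimpleGraph V} {p : V → ℝ × ℝ} (h : MaxDrawn G p)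
    {a : V} (ha : p a = (0, 0)) (α β : ℝ) {s0 : V} (hs0 : 0 < α * (p s0).1 + β * (p s0).2) :
    ∃ r, G.Adj a r ∧ 0 < α * (p r).1 + β * (p r).2 := by
  have hs0a : s0 ≠ a := by
    rintro rfl
    rw [ha] at hs0
    simp at hs0
  set O : Set (ℝ × ℝ) := (⋃ w : {w : V // w ≠ a}, {p w.1}) ∪
    ⋃ e : {e : V × V // G.Adj e.1 e.2 ∧ e.1 ≠ a ∧ e.2 ≠ a}, segment ℝ (p e.1.1) (p e.1.2) with hO
  have hOv : ∀ w, w ≠ a → p w ∈ O := fun w hw =>
    Or.inl (Set.mem_iUnion.2 ⟨⟨w, hw⟩, rfl⟩)
  have hOe : ∀ x y, G.Adj x y → x ≠ a → y ≠ a → ∀ z ∈ segment ℝ (p x) (p y), z ∈ O :=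
    fun x y hxy hxa hya z hz => Or.inr (Set.mem_iUnion.2 ⟨⟨(x, y), hxy, hxa, hya⟩, hz⟩)
  have hOclosed : IsClosed O := by
    refine IsClosed.union (isClosed_iUnion_of_finite fun w => isClosed_singleton)
      (isClosed_iUnion_of_finite fun e => (PlC_isCompact_segment _ _).isClosed)
  set K : Set ℝ := Set.Icc 0 1 ∩ (fun k : ℝ => k • p s0) ⁻¹' O with hK
  have hKc : IsCompact K := isCompact_Icc.inter_right (hOclosed.preimage (by fun_prop))
  have hKne : K.Nonempty := ⟨1, ⟨by norm_num, le_rfl⟩, by
    show (1 : ℝ) • p s0 ∈ O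
    rw [one_smul]
    exact hOv s0 hs0a⟩
  obtain ⟨k0, ⟨⟨hk00, hk01⟩, hk02⟩, hk03⟩ := hKc.exists_isLeast hKne
  have hk0 : 0 < k0 := by
    rcases hk00.eq_or_lt with h1 | h1
    · exfalso
      have h2 : k0 • p s0 ∈ O := hk02
      rw [← h1, zero_smul] at h2
      rcases h2 with h2 | h2
      · obtain ⟨⟨w, hw⟩, h3⟩ := Set.mem_iUnion.1 h2
        have h4 : (0 : ℝ × ℝ) = p w := h3
        exact hw (h.1.inj (by rw [← h4, ha]; rfl))
      · obtain ⟨⟨⟨x, y⟩, hxy, hxa, hya⟩, h3⟩ := Set.mem_iUnion.1 h2
        refine h.1.pt x y a hxy (Ne.symm hxa) (Ne.symm hya) ?_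
        rw [ha]
        exact h3
    · exact h1
  set c : ℝ × ℝ := k0 • p s0 with hcdef
  have hcO : c ∈ O := hk02
  have hfree : ∀ m : ℝ, 0 ≤ m → m < 1 → m • c ∉ O := by
    intro m hm0 hm1 hm
    have h1 : m * k0 ∈ K := by
      refine ⟨⟨by positivity, ?_⟩, ?_⟩
      · nlinarith
      · show (m * k0) • p s0 ∈ O
        rw [mul_smul]
        exact hm
    have h2 := hk03 h1
    nlinarith
  have hc : 0 < α * c.1 + β * c.2 := by
    have : α * c.1 + β * c.2 = k0 * (α * (p s0).1 + β * (p s0).2) := by
      rw [hcdef]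
      simp only [Prod.smul_fst, Prod.smul_snd, smul_eq_mul]
      ring
    rw [this]
    exact mul_pos hk0 hs0
  by_cases hcv : ∃ w, w ≠ a ∧ c = p w
  · obtain ⟨w, hwa, hcw⟩ := hcv
    refine ⟨w, h.adj (Ne.symm hwa) ?_ ?_, by rw [← hcw]; exact hc⟩
    · intro w' hw'a hw'w hw'
      obtain ⟨l, hl0, hl1, hl2, hl3⟩ := PlC_lin hw'
      have h1 : p w' = l • c := by
        rw [hcw]
        refine Prod.ext ?_ ?_
        · rw [hl2, ha]
          simp
        · rw [hl3, ha]
          simp
      rcases hl1.eq_or_lt with h2 | h2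
      · rw [h2, one_smul, hcw] at h1
        exact hw'w (h.1.inj h1)
      · exact hfree l hl0 h2 (h1 ▸ hOv w' hw'a)
    · intro x y hxy hax hay hwx hwy
      rw [Set.disjoint_left]
      intro z hz hz'
      obtain ⟨l, hl0, hl1, hl2, hl3⟩ := PlC_lin hz
      have h1 : z = l • c := by
        rw [hcw]
        refine Prod.ext ?_ ?_
        · rw [hl2, ha]
          simp
        · rw [hl3, ha]
          simp
      rcases hl1.eq_or_lt with h2 | h2
      · rw [h2, one_smul, hcw] at h1
        rw [h1] at hz'
        exact h.1.pt x y w hxy hwx hwy hz'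
      · exact hfree l hl0 h2 (h1 ▸ hOe x y hxy (Ne.symm hax) (Ne.symm hay) z hz')
  · have hv : ∀ w, w ≠ a → ∀ m : ℝ, 0 ≤ m → m ≤ 1 → p w ≠ m • c := by
      intro w hwa m hm0 hm1 hm
      rcases hm1.eq_or_lt with h2 | h2
      · rw [h2, one_smul] at hm
        exact hcv ⟨w, hwa, hm.symm⟩
      · exact hfree m hm0 h2 (hm ▸ hOv w hwa)
    have he : ∀ x y, G.Adj x y → x ≠ a → y ≠ a → ∀ m : ℝ, 0 ≤ m → m < 1 →
        m • c ∉ segment ℝ (p x) (p y) := fun x y hxy hxa hya m hm0 hm1 hm =>
      hfree m hm0 hm1 (hOe x y hxy hxa hya _ hm)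
    rcases hcO with h2 | h2
    · obtain ⟨⟨w, hw⟩, h3⟩ := Set.mem_iUnion.1 h2
      exact absurd ⟨w, hw, h3⟩ hcv
    · obtain ⟨⟨⟨x, y⟩, hxy, hxa, hya⟩, h3⟩ := Set.mem_iUnion.1 h2
      have h3' : c ∈ segment ℝ (p x) (p y) := h3
      obtain ⟨l, hl0, hl1, hl2, hl3⟩ := PlC_lin h3'
      rcases le_or_gt (α * c.1 + β * c.2) (α * (p x).1 + β * (p x).2) with h4 | h4
      · exact PlC_edge h ha α β hc hv he hxy hxa hya h3' h4
      · refine PlC_edge h ha α β hc hv he hxy.symm hya hxa (by rw [segment_symm]; exact h3') ?_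
        by_contra h5
        push Not at h5
        have h6 : α * c.1 + β * c.2 = (1 - l) * (α * (p x).1 + β * (p x).2) +
            l * (α * (p y).1 + β * (p y).2) := by
          rw [hl2, hl3]
          ring
        rcases hl1.eq_or_lt with h7 | h7
        · rw [h7] at h6
          linarith
        · have h8 : (1 - l) * (α * (p x).1 + β * (p x).2) < (1 - l) * (α * c.1 + β * c.2) :=
            mul_lt_mul_of_pos_left h4 (by linarith)
          have h9 : l * (α * (p y).1 + β * (p y).2) ≤ l * (α * c.1 + β * c.2) :=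
            mul_le_mul_of_nonneg_left h5.le hl0
          linarith

/-- In a maximal drawing a vertex `a` has a neighbour in every open half plane (with `p a` on its
boundary, `g z = α z.1 + β z.2`) which contains a vertex.
Proof. Let `r0` be a vertex with `g (p a) < g (p r0)`. Among the vertices on the closed segment from
`p a` to `p r0` other than `a` let `r` be the one nearest to `p a`; `g (p a) < g (p r)` and no vertex is
on the open segment `a r`. If no edge without end `a, r` meets `segment (p a) (p r)` then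
`MaxDrawn.adj` gives `G.Adj a r`. Otherwise consider the (finitely many) edges `x y`,
`x, y ≠ a, r`, meeting the segment; each meets it in a point strictly between (`Drawn.pt`), and exactly
one point: it is not collinear with it (otherwise a vertex would be on the open segment or `a` or `r`
on the edge). Let `c` be such a point nearest to `p a`, on the edge `s t`, named so that
`g (p s) ≥ g c > g (p a)`. All points `≠ p a` of the closed triangle `p a, c, p s` have `g > g (p a)`. By
symmetry (reflect the plane) assume it is counterclockwise: `0 < cr (p a) c (p s)`. Let `N` be the set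
of vertices `≠ a` in this closed triangle, `s ∈ N`, no vertex is on the side from `p a` to `c`
(`c` included, it is an inner point of the edge `s t`). Let `h ∈ N` have minimal angle with the ray
from `p a` to `c` (i.e. `¬ 0 < cr (p a) (p w) (p h)` for all `w ∈ N`) and be nearest to `p a` among those
on the same ray. Claim: `G.Adj a h` or some neighbour of `a` has larger `g`. No vertex is on the open
segment `a h`. Let an edge `x y`, `x, y ≠ a, h`, meet it in a point `c'` strictly between. It is not
collinear with it. Let `x` be the end with `0 < cr (p a) (p x) (p h)` (strictly on the side of `c` of the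
line `a h`; `x` and `y` are on different sides). Let `q` be the point where the ray from `p a` through
`p h` meets the segment from `c` to `p s`. The closed triangle `p a, c, q` contains no vertex strictly on
the side of `c` of the line `a h` (minimal angle), so the segment from `c'` to `p x` leaves it, through the
side `[p a, c]` or the side `[c, q]` (it cannot leave through the line `a h`). Side `[c, q]` is part of the
edge `s t`: the edges `x y` and `s t` are different (one end of `s t` would be `x`; `x = s` is not on that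
side as `s ∈ N`; if `x = t` then the edge is `t y` with `y ≠ s`, use `Drawn.inter`: the common point
would be `p t`, but `p t` is not in the triangle) and cannot meet. Side `[p a, c]`: a point of the edge
`x y` on the open segment `a r` at distance at most that of `c`: it must be `c` (by the choice of `c`;
`x y` has no end `a`, and if it has the end `r` then the edge `r y` meets the segment `a r` only in `p r`,
impossible), which is on the edge `s t` again. If the edge has the end `a`: excluded by assumption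
`x, y ≠ a`. So `MaxDrawn.adj` applies to `a, h`. -/
theorem gap {V : Type*} [Finite V] {G : SimpleGraph V} {p : V → ℝ × ℝ} (h : MaxDrawn G p)
    (α β : ℝ) (a : V)
    (hex : ∃ s, α * (p a).1 + β * (p a).2 < α * (p s).1 + β * (p s).2) :
    ∃ r, G.Adj a r ∧ α * (p a).1 + β * (p a).2 < α * (p r).1 + β * (p r).2 := by
  obtain ⟨s, hs⟩ := hex
  have h1 := PlC_translate_max h (-p a)
  obtain ⟨r, hr, hr'⟩ := PlC_gap0 (p := fun v => -p a + p v) (a := a) h1
    (by
      show -p a + p a = (0, 0)
      rw [neg_add_cancel]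
      rfl) α β (s0 := s)
    (by
      simp only [Prod.fst_add, Prod.snd_add, Prod.fst_neg, Prod.snd_neg]
      linarith)
  refine ⟨r, hr, ?_⟩
  simp only [Prod.fst_add, Prod.snd_add, Prod.fst_neg, Prod.snd_neg] at hr'
  linarith

end EPG26
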