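import Pool.Agent.W_26e041_h61.PlB
import Pool.Agent.W_26e041_h61.PlC

namespace EPG26

open Set

/-- height of the line through `P`, `Q` at `x` -/
noncomputable def PlD1_ht (P Q : ℝ × ℝ) (x : ℝ) : ℝ :=
  P.2 + (Q.2 - P.2) * ((x - P.1) / (Q.1 - P.1))

theorem PlD1_ht_left (P Q : ℝ × ℝ) : PlD1_ht P Q P.1 = P.2 := by
  unfold PlD1_ht
  rw [sub_self, zero_div, mul_zero, add_zero]

theorem PlD1_ht_right {P Q : ℝ × ℝ} (h : P.1 < Q.1) : PlD1_ht P Q Q.1 = Q.2 := by
  unfold PlD1_ht
  rw [div_self (by linarith), mul_one]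
  ring

theorem PlD1_cr {P Q : ℝ × ℝ} (h : P.1 < Q.1) (z : ℝ × ℝ) :
    cr P Q z = (Q.1 - P.1) * (z.2 - PlD1_ht P Q z.1) := by
  unfold PlD1_ht cr
  have h1 : Q.1 - P.1 ≠ 0 := by linarith
  field_simp
  ring

theorem PlD1_above {P Q z : ℝ × ℝ} (h : P.1 < Q.1) : 0 ≤ cr P Q z ↔ PlD1_ht P Q z.1 ≤ z.2 := by
  rw [PlD1_cr h]
  have h1 : 0 < Q.1 - P.1 := by linarith
  rw [mul_nonneg_iff_of_pos_left h1]
  constructor <;> intro h2 <;> linarith

theorem PlD1_below {P Q z : ℝ × ℝ} (h : P.1 < Q.1) : cr P Q z ≤ 0 ↔ z.2 ≤ PlD1_ht P Q z.1 := by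
  rw [PlD1_cr h]
  have h1 : 0 < Q.1 - P.1 := by linarith
  constructor
  · intro h2
    by_contra h3
    have h4 : 0 < (Q.1 - P.1) * (z.2 - PlD1_ht P Q z.1) := mul_pos h1 (by linarith)
    linarith
  · intro h2
    exact mul_nonpos_of_nonneg_of_nonpos h1.le (by linarith)

theorem PlD1_mem {P Q : ℝ × ℝ} (h : P.1 < Q.1) {x : ℝ} (h1 : P.1 ≤ x) (h2 : x ≤ Q.1) :
    ((x, PlD1_ht P Q x) : ℝ × ℝ) ∈ segment ℝ P Q := by
  have h3 : 0 < Q.1 - P.1 := by linarith
  refine ⟨1 - (x - P.1) / (Q.1 - P.1), (x - P.1) / (Q.1 - P.1), ?_, ?_, by ring, ?_⟩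
  · rw [sub_nonneg, div_le_one h3]
    linarith
  · exact div_nonneg (by linarith) h3.le
  · refine Prod.ext ?_ ?_
    · have h4 : Q.1 - P.1 ≠ 0 := h3.ne'
      simp only [Prod.fst_add, Prod.smul_fst, smul_eq_mul]
      field_simp
      ring
    · simp only [Prod.snd_add, Prod.smul_snd, smul_eq_mul]
      unfold PlD1_ht
      ring

/-- two segments, of which the first one is above the second one at `x0` and below it at `x1`,
meet -/
theorem PlD1_meet {P Q R S : ℝ × ℝ} {x0 x1 : ℝ} (hPQ : P.1 < Q.1) (hRS : R.1 < S.1)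
    (h01 : x0 ≤ x1) (hP : P.1 ≤ x0) (hQ : x1 ≤ Q.1) (hR : R.1 ≤ x0) (hS : x1 ≤ S.1)
    (h0 : PlD1_ht R S x0 ≤ PlD1_ht P Q x0) (h1 : PlD1_ht P Q x1 ≤ PlD1_ht R S x1) :
    ¬ Disjoint (segment ℝ P Q) (segment ℝ R S) := by
  have hc : ContinuousOn (fun x => PlD1_ht P Q x - PlD1_ht R S x) (Set.Icc x0 x1) := by
    unfold PlD1_ht
    fun_prop
  have hz := intermediate_value_Icc' h01 hc
  obtain ⟨x, ⟨hx0, hx1⟩, hx⟩ := hz (show (0 : ℝ) ∈ Set.Icc _ _ from ⟨by linarith, by linarith⟩)
  have hx' : PlD1_ht P Q x = PlD1_ht R S x := by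
    have h5 : PlD1_ht P Q x - PlD1_ht R S x = 0 := hx
    linarith
  rw [Set.not_disjoint_iff]
  refine ⟨(x, PlD1_ht P Q x), PlD1_mem hPQ (by linarith) (by linarith), ?_⟩
  rw [hx']
  exact PlD1_mem hRS (by linarith) (by linarith)

/-- The face at the left side of an edge. `gap` for the linear form of `cr (p a) (p b) ·` gives a
neighbour of `a` strictly to the left of `a b`. Among these neighbours `s` choose `r` with minimal angle:
`¬ 0 < cr (p a) (p s) (p r)` for all of them (finite set; the relation `0 < cr (p a) (p s) (p s')` is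
transitive and irreflexive on the open half plane left of `a b`). Then `local_face`. -/
theorem apex {V : Type*} [Finite V] {G : SimpleGraph V} {p : V → ℝ × ℝ} (h : MaxDrawn G p)
    {a b : V} (hab : G.Adj a b) (hex : ∃ s, 0 < cr (p a) (p b) (p s)) :
    ∃ r, 0 < cr (p a) (p b) (p r) ∧ G.Adj a r ∧ G.Adj b r ∧
      ∀ w, w ≠ a → w ≠ b → w ≠ r → ¬ inTri (p a) (p b) (p r) (p w) := by
  obtain ⟨s0, hs0⟩ := hex
  have hgap := gap h (-((p b).2 - (p a).2)) ((p b).1 - (p a).1) a
    ⟨s0, by unfold cr at hs0; nlinarith⟩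
  obtain ⟨r0, hr0, hr0'⟩ := hgap
  have hr0'' : 0 < cr (p a) (p b) (p r0) := by
    unfold cr
    nlinarith
  let f : V → ℝ := fun s => (((p b).1 - (p a).1) * ((p s).1 - (p a).1) +
    ((p b).2 - (p a).2) * ((p s).2 - (p a).2)) / cr (p a) (p b) (p s)
  obtain ⟨r, hr, hmax⟩ := Set.exists_max_image {s | G.Adj a s ∧ 0 < cr (p a) (p b) (p s)} f
    (Set.toFinite _) ⟨r0, hr0, hr0''⟩
  have hface := local_face h hab hr.1 hr.2 ?_
  · exact ⟨r, hr.2, hr.1, hface.1, hface.2⟩
  · rintro s has ⟨h1, h2⟩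
    have h3 := hmax s ⟨has, h1⟩
    have hr2 : 0 < cr (p a) (p b) (p r) := hr.2
    have h4 : (((p b).1 - (p a).1) * ((p s).1 - (p a).1) +
        ((p b).2 - (p a).2) * ((p s).2 - (p a).2)) * cr (p a) (p b) (p r) ≤
        (((p b).1 - (p a).1) * ((p r).1 - (p a).1) +
        ((p b).2 - (p a).2) * ((p r).2 - (p a).2)) * cr (p a) (p b) (p s) :=
      (div_le_div_iff₀ h1 hr2).1 h3
    have h5 : 0 < ((p b).1 - (p a).1) ^ 2 + ((p b).2 - (p a).2) ^ 2 := by
      by_contra hcon
      have h60 := sq_nonneg ((p b).1 - (p a).1)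
      have h61 := sq_nonneg ((p b).2 - (p a).2)
      have h6 : ((p b).1 - (p a).1) = 0 := by
        refine pow_eq_zero_iff (n := 2) (by norm_num) |>.1 ?_
        linarith
      have h7 : ((p b).2 - (p a).2) = 0 := by
        refine pow_eq_zero_iff (n := 2) (by norm_num) |>.1 ?_
        linarith
      unfold cr at h1
      rw [h6, h7] at h1
      linarith
    have h6 := mul_pos h5 h2
    have h7 : (((p b).1 - (p a).1) ^ 2 + ((p b).2 - (p a).2) ^ 2) * cr (p a) (p s) (p r) =
        (((p b).1 - (p a).1) * ((p s).1 - (p a).1) +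
        ((p b).2 - (p a).2) * ((p s).2 - (p a).2)) * cr (p a) (p b) (p r) -
        (((p b).1 - (p a).1) * ((p r).1 - (p a).1) +
        ((p b).2 - (p a).2) * ((p r).2 - (p a).2)) * cr (p a) (p b) (p s) := by
      unfold cr
      ring
    linarith

theorem PlD1_left {V : Type*} {G : SimpleGraph V} {p : V → ℝ × ℝ} (h : Drawn G p)
    (hx : Function.Injective fun v => (p v).1) {a t b r r' : V}
    (hat : G.Adj a t) (htb : G.Adj t b) (h1 : (p a).1 < (p t).1) (h2 : (p t).1 < (p b).1)
    (hr : 0 < cr (p a) (p t) (p r)) (har : G.Adj a r) (htr : G.Adj t r) (hr1 : (p t).1 < (p r).1)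
    (he : ∀ w, w ≠ a → w ≠ t → w ≠ r → ¬ inTri (p a) (p t) (p r) (p w))
    (hr' : 0 < cr (p t) (p b) (p r')) (htr' : G.Adj t r') (hbr' : G.Adj b r')
    (hr1' : (p r').1 < (p t).1)
    (he' : ∀ w, w ≠ t → w ≠ b → w ≠ r' → ¬ inTri (p t) (p b) (p r') (p w)) :
    r' = a := by
  by_contra hne
  have hab : a ≠ b := fun hh => by rw [hh] at h1; linarith
  have hrr' : r ≠ r' := fun hh => by rw [hh] at hr1; linarith
  have hrt : r ≠ t := fun hh => by rw [hh] at hr1; linarith
  have hr't : r' ≠ t := fun hh => by rw [hh] at hr1'; linarith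
  have hr'b : r' ≠ b := fun hh => by rw [hh] at hr1'; linarith
  -- `t` is below `a r` and below `r' b`
  have ht1 : (p t).2 ≤ PlD1_ht (p a) (p r) (p t).1 := by
    rw [← PlD1_below (by linarith)]
    unfold cr at hr ⊢
    nlinarith
  have ht2 : (p t).2 ≤ PlD1_ht (p r') (p b) (p t).1 := by
    rw [← PlD1_below (by linarith)]
    unfold cr at hr' ⊢
    nlinarith
  have hmeet1 : Disjoint (segment ℝ (p r') (p t)) (segment ℝ (p a) (p r)) :=
    h.cross r' t a r htr'.symm har hne (Ne.symm hrr') hat.ne.symm (Ne.symm hrt)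
  have hmeet2 : Disjoint (segment ℝ (p a) (p t)) (segment ℝ (p r') (p b)) :=
    h.cross a t r' b hat hbr'.symm (Ne.symm hne) hab (Ne.symm hr't) htb.ne
  rcases lt_trichotomy (p a).1 (p r').1 with hlt | heq | hgt
  · -- `r'` is below `a r`
    have h3 : (p r').2 < PlD1_ht (p a) (p r) (p r').1 := by
      by_contra hcon
      refine PlD1_meet (x0 := (p r').1) (x1 := (p t).1) hr1' (by linarith) hr1'.le le_rfl le_rfl
        hlt.le hr1.le ?_ ?_ hmeet1
      · rw [PlD1_ht_left]
        exact not_lt.1 hcon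
      · rw [PlD1_ht_right hr1']
        exact ht1
    have h4 : cr (p a) (p t) (p r') < 0 := by
      by_contra hcon
      have hcon' : 0 ≤ cr (p a) (p t) (p r') := not_lt.1 hcon
      refine he r' hne hr't (Ne.symm hrr') ⟨hcon', ?_, ?_⟩
      · have h5 : ((p t).1 - (p a).1) * cr (p t) (p r) (p r') =
            ((p t).1 - (p r').1) * cr (p a) (p t) (p r) +
              ((p r).1 - (p t).1) * cr (p a) (p t) (p r') := by
          unfold cr
          ring
        have h6 : 0 ≤ ((p t).1 - (p a).1) * cr (p t) (p r) (p r') := by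
          rw [h5]
          have h7 : 0 ≤ ((p t).1 - (p r').1) * cr (p a) (p t) (p r) :=
            mul_nonneg (by linarith) hr.le
          have h8 : 0 ≤ ((p r).1 - (p t).1) * cr (p a) (p t) (p r') :=
            mul_nonneg (by linarith) hcon'
          linarith
        exact (mul_nonneg_iff_of_pos_left (by linarith)).1 h6
      · have h5 : cr (p a) (p r) (p r') ≤ 0 := (PlD1_below (by linarith)).2 h3.le
        have h6 : cr (p r) (p a) (p r') = - cr (p a) (p r) (p r') := by
          unfold cr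
          ring
        rw [h6]
        linarith
    refine PlD1_meet (x0 := (p r').1) (x1 := (p t).1) h1 (by linarith) hr1'.le hlt.le le_rfl
      le_rfl h2.le ?_ ?_ hmeet2
    · rw [PlD1_ht_left]
      exact (PlD1_below h1).1 h4.le
    · rw [PlD1_ht_right h1]
      exact ht2
  · exact hne (hx heq.symm)
  · rcases le_or_gt 0 (cr (p r') (p t) (p a)) with h3 | h3
    · -- `a` is below `r' b`
      have h4 : (p a).2 < PlD1_ht (p r') (p b) (p a).1 := by
        by_contra hcon
        refine PlD1_meet (x0 := (p a).1) (x1 := (p t).1) h1 (by linarith) h1.le le_rfl le_rfl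
          hgt.le h2.le ?_ ?_ hmeet2
        · rw [PlD1_ht_left]
          exact not_lt.1 hcon
        · rw [PlD1_ht_right h1]
          exact ht2
      refine he' a hat.ne hab (Ne.symm hne) ⟨?_, ?_, h3⟩
      · have h5 : ((p t).1 - (p r').1) * cr (p t) (p b) (p a) =
            ((p t).1 - (p a).1) * cr (p t) (p b) (p r') +
              ((p b).1 - (p t).1) * cr (p r') (p t) (p a) := by
          unfold cr
          ring
        have h6 : 0 ≤ ((p t).1 - (p r').1) * cr (p t) (p b) (p a) := by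
          rw [h5]
          have h7 : 0 ≤ ((p t).1 - (p a).1) * cr (p t) (p b) (p r') :=
            mul_nonneg (by linarith) hr'.le
          have h8 : 0 ≤ ((p b).1 - (p t).1) * cr (p r') (p t) (p a) :=
            mul_nonneg (by linarith) h3
          linarith
        exact (mul_nonneg_iff_of_pos_left (by linarith)).1 h6
      · have h5 : cr (p r') (p b) (p a) ≤ 0 := (PlD1_below (by linarith)).2 h4.le
        have h6 : cr (p b) (p r') (p a) = - cr (p r') (p b) (p a) := by
          unfold cr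
          ring
        rw [h6]
        linarith
    · refine PlD1_meet (x0 := (p a).1) (x1 := (p t).1) hr1' (by linarith) h1.le hgt.le le_rfl
        le_rfl hr1.le ?_ ?_ hmeet1
      · rw [PlD1_ht_left]
        exact (PlD1_below hr1').1 h3.le
      · rw [PlD1_ht_right hr1']
        exact ht1

/-- reflection of the plane -/
noncomputable def PlD1_refl : (ℝ × ℝ) ≃ₗ[ℝ] (ℝ × ℝ) :=
  LinearEquiv.prodCongr (LinearEquiv.neg ℝ) (LinearEquiv.refl ℝ ℝ)

theorem PlD1_refl_cr (u v w : ℝ × ℝ) :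
    cr (PlD1_refl u) (PlD1_refl v) (PlD1_refl w) = - cr u v w := by
  have h1 : ∀ z : ℝ × ℝ, PlD1_refl z = (-z.1, z.2) := fun z => rfl
  rw [h1, h1, h1]
  unfold cr
  ring

/-- Let `a, t, b` be vertices with increasing first coordinates, `a t` and `t b` edges, `r` to the
right of `t` the apex over `a t` and `r'` to the left of `t` the apex over `t b`. Then `r = b`
and `r' = a`.
Proof of `r' = a` (the other one is symmetric). `t` is strictly below the segment `a r` and strictly
below the segment `r' b` (at its first coordinate). Suppose `r' ≠ a`.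
Case `x a < x r'`: the edges `t r'` and `a r` are disjoint (`Drawn.cross`), so `r'` is strictly below the
segment `a r` (it is not on it, `Drawn.pt`). If `r'` is on or above the line `a t` then it is in the
closed triangle `a, t, r` (emptiness hypothesis `he`), so it is strictly below `a t`. But `t` is strictly
below `r' b`, so the segments `a t` and `r' b` meet (compare the two linear functions on
`[x r', x t]`), contradiction to `Drawn.cross` (`a ≠ b`, `t ≠ b`).
Case `x r' < x a`: `a` is not on the edge `r' t`. If `a` is above it: the edges `a t` and `r' b` are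
disjoint and `t` is below `r' b`, so `a` is below `r' b`, hence in the closed triangle `t, b, r'`,
contradiction to `he'`. If `a` is below it: `t` is strictly below `a r`, so the segments `a r` and `r' t`
meet, contradiction to `Drawn.cross`. (`x r' = x a` implies `r' = a` by `hx`.) -/
theorem wedge {V : Type*} {G : SimpleGraph V} {p : V → ℝ × ℝ} (h : Drawn G p)
    (hx : Function.Injective fun v => (p v).1) {a t b r r' : V}
    (hat : G.Adj a t) (htb : G.Adj t b) (h1 : (p a).1 < (p t).1) (h2 : (p t).1 < (p b).1)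
    (hr : 0 < cr (p a) (p t) (p r)) (har : G.Adj a r) (htr : G.Adj t r) (hr1 : (p t).1 < (p r).1)
    (he : ∀ w, w ≠ a → w ≠ t → w ≠ r → ¬ inTri (p a) (p t) (p r) (p w))
    (hr' : 0 < cr (p t) (p b) (p r')) (htr' : G.Adj t r') (hbr' : G.Adj b r')
    (hr1' : (p r').1 < (p t).1)
    (he' : ∀ w, w ≠ t → w ≠ b → w ≠ r' → ¬ inTri (p t) (p b) (p r') (p w)) :
    r = b ∧ r' = a := by
  refine ⟨?_, PlD1_left h hx hat htb h1 h2 hr har htr hr1 he hr' htr' hbr' hr1' he'⟩
  have hf : ∀ v, (PlD1_refl (p v)).1 = -(p v).1 := fun v => rfl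
  have hsw : ∀ u v w : ℝ × ℝ, cr v u w = - cr u v w := by
    intro u v w
    unfold cr
    ring
  refine PlD1_left (h.map PlD1_refl) (a := b) (t := t) (b := a) (r := r') (r' := r) ?_ htb.symm
    hat.symm ?_ ?_ ?_ hbr' htr' ?_ ?_ ?_ htr har ?_ ?_
  · intro u v huv
    have h3 : (PlD1_refl (p u)).1 = (PlD1_refl (p v)).1 := huv
    rw [hf, hf] at h3
    exact hx (neg_injective h3)
  · rw [hf, hf]; linarith
  · rw [hf, hf]; linarith
  · rw [PlD1_refl_cr, hsw, neg_neg]; exact hr'
  · rw [hf, hf]; linarith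
  · rintro w hw1 hw2 hw3 ⟨h3, h4, h5⟩
    rw [PlD1_refl_cr, hsw, neg_neg] at h3 h4 h5
    exact he' w hw2 hw1 hw3 ⟨h3, h5, h4⟩
  · rw [PlD1_refl_cr, hsw, neg_neg]; exact hr
  · rw [hf, hf]; linarith
  · rintro w hw1 hw2 hw3 ⟨h3, h4, h5⟩
    rw [PlD1_refl_cr, hsw, neg_neg] at h3 h4 h5
    exact he w hw2 hw1 hw3 ⟨h3, h5, h4⟩

/-- the situation for the sweep -/
structure Setup {V : Type*} (G : SimpleGraph V) (p : V → ℝ × ℝ) (A B C : V) : Prop where
  max : MaxDrawn G p
  xinj : Function.Injective fun v => (p v).1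
  left : ∀ v, (p A).1 ≤ (p v).1
  right : ∀ v, (p v).1 ≤ (p B).1
  top : 0 < cr (p A) (p B) (p C)
  AB : G.Adj A B
  BC : G.Adj B C
  CA : G.Adj C A
  ins : ∀ v, v ≠ A → v ≠ B → v ≠ C →
    0 < cr (p A) (p B) (p v) ∧ 0 < cr (p B) (p C) (p v) ∧ 0 < cr (p C) (p A) (p v)

end EPG26
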