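import Pool.Agent.W_26e041_h61.PlD1

namespace EPG26

open Set

/-- consecutive edges of types `R`, `L` -/
theorem PlD2_consec {V : Type*} (R L : V → V → Prop) (l : List V) : ∀ (x y : V),
    (∀ s a b t, x :: y :: l = s ++ a :: b :: t → R a b ∨ L a b) → R x y →
    (∀ s a b, x :: y :: l = s ++ [a, b] → ¬ R a b) →
    ∃ s a t b u, x :: y :: l = s ++ a :: t :: b :: u ∧ R a t ∧ L t b := by
  induction l with
  | nil => intro x y _ h h'; exact absurd h (h' [] x y rfl)
  | cons z l ih =>
    intro x y hc h h'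
    rcases hc [x] y z l rfl with h1 | h1
    · obtain ⟨s, a, t, b, u, h2, h3, h4⟩ := ih y z
        (fun s a b t hs => hc (x :: s) a b t (by rw [hs]; rfl)) h1
        (fun s a b hs => h' (x :: s) a b (by rw [hs]; rfl))
      exact ⟨x :: s, a, t, b, u, by rw [h2]; rfl, h3, h4⟩
    · exact ⟨[], x, y, z, l, rfl, h, h1⟩

theorem PlD2_cyc (a b c : ℝ × ℝ) : cr b c a = cr a b c := by
  unfold cr
  ring

theorem PlD2_self (a b : ℝ × ℝ) : cr a b a = 0 := by
  unfold cr
  ring

theorem PlD2_self' (a b : ℝ × ℝ) : cr a b b = 0 := by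
  unfold cr
  ring

/-- all vertices are in the closed triangle -/
theorem PlD2_weak {V : Type*} {G : SimpleGraph V} {p : V → ℝ × ℝ} {A B C : V}
    (h : Setup G p A B C) (v : V) :
    0 ≤ cr (p A) (p B) (p v) ∧ 0 ≤ cr (p B) (p C) (p v) ∧ 0 ≤ cr (p C) (p A) (p v) := by
  by_cases h1 : v = A
  · subst h1
    refine ⟨(PlD2_self _ _).ge, ?_, (PlD2_self' _ _).ge⟩
    rw [PlD2_cyc]
    exact h.top.le
  by_cases h2 : v = B
  · subst h2
    refine ⟨(PlD2_self' _ _).ge, (PlD2_self _ _).ge, ?_⟩
    rw [PlD2_cyc, PlD2_cyc]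
    exact h.top.le
  by_cases h3 : v = C
  · subst h3
    exact ⟨h.top.le, (PlD2_self' _ _).ge, (PlD2_self _ _).ge⟩
  obtain ⟨h4, h5, h6⟩ := h.ins v h1 h2 h3
  exact ⟨h4.le, h5.le, h6.le⟩

/-- barycentric coordinates -/
theorem PlD2_bary (A B C a b z : ℝ × ℝ) :
    cr A B C * cr a b z = cr B C z * cr a b A + cr C A z * cr a b B + cr A B z * cr a b C := by
  unfold cr
  ring

theorem PlD2_col (A B C a b : ℝ × ℝ) (h : a.1 < b.1) (hA : cr a b A = 0) (hB : cr a b B = 0)
    (hC : cr a b C = 0) : cr A B C = 0 := by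
  have h1 : (b.1 - a.1) * cr A B C =
      (B.1 - A.1) * (cr a b C - cr a b A) - (C.1 - A.1) * (cr a b B - cr a b A) := by
    unfold cr
    ring
  rw [hA, hB, hC] at h1
  have h2 : (b.1 - a.1) * cr A B C = 0 := by rw [h1]; ring
  rcases mul_eq_zero.1 h2 with h3 | h3
  · linarith
  · exact h3

/-- an end of an edge with nothing above it is a corner -/
theorem PlD2_corner {V : Type*} {G : SimpleGraph V} {p : V → ℝ × ℝ} {A B C : V}
    (h : Setup G p A B C) {a b z : V} (hab : (p a).1 < (p b).1) (hz : cr (p a) (p b) (p z) = 0)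
    (hs : ∀ s, cr (p a) (p b) (p s) ≤ 0) : z = A ∨ z = B ∨ z = C := by
  by_contra hcon
  push Not at hcon
  obtain ⟨h1, h2, h3⟩ := hcon
  obtain ⟨h4, h5, h6⟩ := h.ins z h1 h2 h3
  have h7 := PlD2_bary (p A) (p B) (p C) (p a) (p b) (p z)
  rw [hz, mul_zero] at h7
  have hA := hs A
  have hB := hs B
  have hC := hs C
  have h8 : cr (p B) (p C) (p z) * cr (p a) (p b) (p A) ≤ 0 :=
    mul_nonpos_of_nonneg_of_nonpos h5.le hA
  have h9 : cr (p C) (p A) (p z) * cr (p a) (p b) (p B) ≤ 0 :=
    mul_nonpos_of_nonneg_of_nonpos h6.le hB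
  have h10 : cr (p A) (p B) (p z) * cr (p a) (p b) (p C) ≤ 0 :=
    mul_nonpos_of_nonneg_of_nonpos h4.le hC
  have h11 : cr (p B) (p C) (p z) * cr (p a) (p b) (p A) = 0 := by linarith
  have h12 : cr (p C) (p A) (p z) * cr (p a) (p b) (p B) = 0 := by linarith
  have h13 : cr (p A) (p B) (p z) * cr (p a) (p b) (p C) = 0 := by linarith
  have h14 := PlD2_col (p A) (p B) (p C) (p a) (p b) hab
    ((mul_eq_zero.1 h11).resolve_left h5.ne') ((mul_eq_zero.1 h12).resolve_left h6.ne')
    ((mul_eq_zero.1 h13).resolve_left h4.ne')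
  exact h.top.ne' h14

/-- the corners are distinct -/
theorem PlD2_ne {V : Type*} {G : SimpleGraph V} {p : V → ℝ × ℝ} {A B C : V}
    (h : Setup G p A B C) : A ≠ B ∧ A ≠ C ∧ B ≠ C := by
  have h0 := h.top
  refine ⟨?_, ?_, ?_⟩
  · rintro rfl
    rw [PlD2_cyc, PlD2_self'] at h0
    exact lt_irrefl _ h0
  · rintro rfl
    rw [PlD2_self] at h0
    exact lt_irrefl _ h0
  · rintro rfl
    rw [PlD2_self'] at h0
    exact lt_irrefl _ h0

theorem PlD2_lt {V : Type*} {G : SimpleGraph V} {p : V → ℝ × ℝ} {A B C : V}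
    (h : Setup G p A B C) {u v : V} (hne : u ≠ v) (hle : (p u).1 ≤ (p v).1) :
    (p u).1 < (p v).1 :=
  lt_of_le_of_ne hle fun he => hne (h.xinj he)

/-- there is a vertex above every edge other than `A C`, `C B` -/
theorem PlD2_above {V : Type*} {G : SimpleGraph V} {p : V → ℝ × ℝ} {A B C : V}
    (h : Setup G p A B C) {a b : V} (hab : (p a).1 < (p b).1) (h1 : ¬ (a = A ∧ b = C))
    (h2 : ¬ (a = C ∧ b = B)) : ∃ s, 0 < cr (p a) (p b) (p s) := by
  by_contra hcon
  push Not at hcon
  obtain ⟨n1, n2, n3⟩ := PlD2_ne h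
  have hA := PlD2_corner h hab (PlD2_self (p a) (p b)) hcon
  have hB := PlD2_corner h hab (PlD2_self' (p a) (p b)) hcon
  have hAB : ∀ v, (p A).1 ≤ (p v).1 := h.left
  have hBB : ∀ v, (p v).1 ≤ (p B).1 := h.right
  rcases hA with rfl | rfl | rfl
  · rcases hB with rfl | rfl | rfl
    · exact lt_irrefl _ hab
    · exact absurd (hcon C) (not_le.2 h.top)
    · exact h1 ⟨rfl, rfl⟩
  · have := hBB b
    linarith
  · rcases hB with rfl | rfl | rfl
    · have := hAB a
      linarith
    · exact h2 ⟨rfl, rfl⟩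
    · exact lt_irrefl _ hab

theorem PlD2_arith {b1 b2 s1 s2 α1 α2 β1 β2 : ℝ} (hb : 0 < b1) (hs : s1 < 0) (hα : α1 < 0)
    (hβ : 0 < β1) (h1 : β1 * b2 ≤ β2 * b1) (h2 : α2 * s1 ≤ α1 * s2) (h3 : b2 * s1 < b1 * s2)
    (h4 : α2 * β1 < α1 * β2) : False := by
  -- `α2 / α1 ≤ s2 / s1 < b2 / b1 ≤ β2 / β1 < α2 / α1`
  have e1 : b2 / b1 ≤ β2 / β1 := by
    rw [div_le_div_iff₀ hb hβ]
    linarith
  have e2 : α2 / α1 ≤ s2 / s1 := by
    rw [← neg_div_neg_eq α2 α1, ← neg_div_neg_eq s2 s1,
      div_le_div_iff₀ (by linarith) (by linarith)]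
    linarith
  have e3 : s2 / s1 < b2 / b1 := by
    rw [← neg_div_neg_eq s2 s1, div_lt_div_iff₀ (by linarith) hb]
    linarith
  have e4 : β2 / β1 < α2 / α1 := by
    rw [← neg_div_neg_eq α2 α1, div_lt_div_iff₀ hβ (by linarith)]
    linarith
  linarith

/-- a vertex to the left of `C` is not above a line from `C` to a vertex to the right of `C` -/
theorem PlD2_top {V : Type*} {G : SimpleGraph V} {p : V → ℝ × ℝ} {A B C : V}
    (h : Setup G p A B C) {u v : V} (hu : (p C).1 < (p u).1) (hv : (p v).1 < (p C).1)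
    (huv : 0 < cr (p C) (p u) (p v)) : False := by
  obtain ⟨n1, n2, n3⟩ := PlD2_ne h
  have hAC := PlD2_lt h n2 (h.left C)
  have hCB := PlD2_lt h n3.symm (h.right C)
  have h1 := (PlD2_weak h u).2.1
  have h2 := (PlD2_weak h v).2.2
  have h3 := h.top
  unfold cr at h1 h2 h3 huv
  refine PlD2_arith (b1 := (p u).1 - (p C).1) (b2 := (p u).2 - (p C).2)
    (s1 := (p v).1 - (p C).1) (s2 := (p v).2 - (p C).2) (α1 := (p A).1 - (p C).1)
    (α2 := (p A).2 - (p C).2) (β1 := (p B).1 - (p C).1) (β2 := (p B).2 - (p C).2)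
    (by linarith) (by linarith) (by linarith) (by linarith) ?_ ?_ ?_ ?_
  · nlinarith
  · nlinarith
  · nlinarith
  · nlinarith

/-- A chain other than the top chain `A, C, B` can be pushed up over one face.
Over an edge `a b` (`x a < x b`) of the chain which is not `A C` or `C B` there is a vertex: otherwise
`A, B, C` are weakly below the line `a b`, and `a, b`, lying in the triangle `A B C`, would be on its
boundary (for `v ≠ A, B, C` the strict inequalities `ins` exclude that a line through `v` has the whole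
triangle on one side, write `v` as a convex combination with positive coefficients), so
`{a, b} ⊆ {A, B, C}`, and `C` is above `A B`. So `apex` gives an apex `r`, different first coordinate from
`a, b`. If for some such edge `x a < x r < x b`: first alternative. Otherwise call the edge of type L
(`x r < x a`) or R (`x b < x r`); count `A C` as type R and `C B` as type L. The first edge of the chain is
not L (`left`), the last one is not R (`right`), and the chain has at least two edges (the apex over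
`A B` is between). So there are consecutive edges `a t`, `t b` of types R, L. If `a t` is `A C`: then
`t b = C b` with `b ≠ B`, its apex `r'` is to the left of `C` and above the line `C b`: impossible, since `b`
is strictly below the line `C B` and `r'` is weakly below the lines `A C` and `C B` (linear arithmetic
with the determinants). Symmetric if `t b` is `C B`. Otherwise `wedge` gives the second alternative
(`r = b`: `a b` is an edge and the triangle `a, t, b` is empty). -/
theorem exists_move {V : Type*} [Finite V] {G : SimpleGraph V} {p : V → ℝ × ℝ} {A B C : V}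
    (h : Setup G p A B C) (m : List V)
    (hK : (A :: (m ++ [B])).IsChain fun u v => G.Adj u v ∧ (p u).1 < (p v).1)
    (hne : m ≠ [C]) :
    (∃ s a b t r, A :: (m ++ [B]) = s ++ a :: b :: t ∧ 0 < cr (p a) (p b) (p r) ∧
      (p a).1 < (p r).1 ∧ (p r).1 < (p b).1 ∧ G.Adj a r ∧ G.Adj r b ∧
      ∀ w, w ≠ a → w ≠ b → w ≠ r → ¬ inTri (p a) (p b) (p r) (p w)) ∨
    (∃ s a c b t, A :: (m ++ [B]) = s ++ a :: c :: b :: t ∧ 0 < cr (p a) (p c) (p b) ∧
      G.Adj a b ∧ ∀ w, w ≠ a → w ≠ c → w ≠ b → ¬ inTri (p a) (p c) (p b) (p w)) := by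
  by_contra hcon
  rw [not_or] at hcon
  obtain ⟨hcon1, hcon2⟩ := hcon
  obtain ⟨n1, n2, n3⟩ := PlD2_ne h
  have hstep : ∀ s a b t, A :: (m ++ [B]) = s ++ a :: b :: t → G.Adj a b ∧ (p a).1 < (p b).1 := by
    intro s a b t hs
    rw [hs, List.isChain_append_cons_cons] at hK
    exact hK.2.1
  let Ap : V → V → V → Prop := fun a b r => 0 < cr (p a) (p b) (p r) ∧ G.Adj a r ∧ G.Adj b r ∧
      ∀ w, w ≠ a → w ≠ b → w ≠ r → ¬ inTri (p a) (p b) (p r) (p w)
  let R : V → V → Prop := fun a b => (a = A ∧ b = C) ∨ ∃ r, Ap a b r ∧ (p b).1 < (p r).1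
  let L : V → V → Prop := fun a b => (a = C ∧ b = B) ∨ ∃ r, Ap a b r ∧ (p r).1 < (p a).1
  have hRL : ∀ s a b t, A :: (m ++ [B]) = s ++ a :: b :: t → R a b ∨ L a b := by
    intro s a b t hs
    obtain ⟨hadj, hlt⟩ := hstep s a b t hs
    by_cases h1 : a = A ∧ b = C
    · exact Or.inl (Or.inl h1)
    by_cases h2 : a = C ∧ b = B
    · exact Or.inr (Or.inl h2)
    obtain ⟨r, hr1, hr2, hr3, hr4⟩ := apex h.max hadj (PlD2_above h hlt h1 h2)
    rcases lt_trichotomy (p b).1 (p r).1 with h3 | h3 | h3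
    · exact Or.inl (Or.inr ⟨r, ⟨hr1, hr2, hr3, hr4⟩, h3⟩)
    · exact absurd (h.xinj h3) hr3.ne
    rcases lt_trichotomy (p r).1 (p a).1 with h5 | h5 | h5
    · exact Or.inr (Or.inr ⟨r, ⟨hr1, hr2, hr3, hr4⟩, h5⟩)
    · exact absurd (h.xinj h5.symm) hr2.ne
    · exact absurd ⟨s, a, b, t, r, hs, hr1, h5, h3, hr2, hr3.symm, hr4⟩ hcon1
  have hlast : ∀ s a b, A :: (m ++ [B]) = s ++ [a, b] → ¬ R a b := by
    intro s a b hs
    have hb : b = B := by
      have h1 : (A :: (m ++ [B])).getLast? = (s ++ [a, b]).getLast? := by rw [hs]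
      rw [← List.cons_append, List.getLast?_append, List.getLast?_append] at h1
      simpa using h1.symm
    rintro (⟨-, h2⟩ | ⟨r, -, h3⟩)
    · exact n3 (hb.symm.trans h2)
    · rw [hb] at h3
      exact absurd (h.right r) (not_le.2 h3)
  obtain ⟨y, l, hyl⟩ : ∃ y l, m ++ [B] = y :: l := by
    cases m with
    | nil => exact ⟨B, [], rfl⟩
    | cons y m => exact ⟨y, m ++ [B], rfl⟩
  have hfirst : R A y := by
    rcases hRL [] A y l (by rw [hyl]; rfl) with h1 | h1
    · exact h1
    · rcases h1 with ⟨h2, -⟩ | ⟨r, -, h3⟩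
      · exact absurd h2 n2
      · exact absurd (h.left r) (not_le.2 h3)
  rw [hyl] at hRL hlast hstep hcon2
  obtain ⟨s, a, t, b, u, hs, h1, h2⟩ := PlD2_consec R L l A y hRL hfirst hlast
  obtain ⟨hat, hat'⟩ := hstep s a t (b :: u) hs
  obtain ⟨htb, htb'⟩ := hstep (s ++ [a]) t b u (by rw [hs]; simp)
  rcases h1 with ⟨rfl, rfl⟩ | ⟨r, ⟨hr1, hr2, hr3, hr4⟩, hr5⟩
  · rcases h2 with ⟨-, rfl⟩ | ⟨r', ⟨hr1', -, -, -⟩, hr5'⟩
    · -- the chain is `A, C, B`
      have hmono : (a :: (m ++ [b])).Pairwise fun u v => (p u).1 < (p v).1 := by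
        have h3 : (a :: (m ++ [b])).IsChain fun u v => (p u).1 < (p v).1 :=
          hK.imp fun _ _ h => h.2
        have : IsTrans V (fun u v => (p u).1 < (p v).1) := ⟨fun _ _ _ => lt_trans⟩
        exact h3.pairwise
      have hnd : (a :: (m ++ [b])).Nodup := hmono.imp fun h3 h4 => by rw [h4] at h3; exact lt_irrefl _ h3
      rw [hyl, hs] at hnd
      cases s with
      | cons x s =>
        have hx : a = x := by
          have := congrArg List.head? hs
          simpa using this
        subst hx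
        simp at hnd
      | nil =>
        rcases List.eq_nil_or_concat u with hu | ⟨u', z, hu⟩
        · subst hu
          rw [List.nil_append] at hs
          rw [← hyl] at hs
          have h3 : m ++ [b] = [t] ++ [b] := by
            have := (List.cons.inj hs).2
            exact this
          exact hne (List.append_left_injective _ h3)
        · subst hu
          have hz : z = b := by
            have h1 : (a :: m) ++ [b] = (a :: t :: b :: u') ++ [z] := by
              rw [List.cons_append, hyl, hs]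
              simp
            have h3 := (List.append_inj' h1 rfl).2
            simpa using h3.symm
          subst hz
          simp at hnd
    · exact PlD2_top h htb' hr5' hr1'
  · rcases h2 with ⟨rfl, rfl⟩ | ⟨r', ⟨hr1', hr2', hr3', hr4'⟩, hr5'⟩
    · rw [← PlD2_cyc] at hr1
      exact PlD2_top h hr5 hat' hr1
    · obtain ⟨rfl, rfl⟩ := wedge h.max.1 h.xinj hat htb hat' htb' hr1 hr2 hr3 hr5 hr4 hr1' hr2' hr3'
        hr5' hr4'
      exact hcon2 ⟨s, r', t, r, u, hs, hr1, hr2, hr4⟩

end EPG26
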