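import Pool.Agent.W_26e041_h61.PlD2
import Pool.Agent.W_26e041_h61.DiscC

namespace EPG26

open Set

/-- height of the chain -/
noncomputable def PlE_H {V : Type*} (p : V → ℝ × ℝ) : List V → ℝ → ℝ
  | [], _ => 0
  | [_], _ => 0
  | [a, b], x => PlD1_ht (p a) (p b) x
  | a :: b :: c :: t, x => if x ≤ (p b).1 then PlD1_ht (p a) (p b) x else PlE_H p (b :: c :: t) x

/-- increasing first coordinates -/
def PlE_S {V : Type*} (p : V → ℝ × ℝ) (K : List V) : Prop :=
  K.IsChain fun u v => (p u).1 < (p v).1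

section

variable {V : Type*} {p : V → ℝ × ℝ}

theorem PlE_S_tail {a : V} {t : List V} (h : PlE_S p (a :: t)) : PlE_S p t :=
  h.tail

theorem PlE_lt {K s t u : List V} {a b : V} (h : PlE_S p K)
    (hK : K = s ++ a :: (t ++ b :: u)) : (p a).1 < (p b).1 := by
  subst hK
  have h1 : List.Pairwise (fun u v => (p u).1 < (p v).1) (s ++ a :: (t ++ b :: u)) := by
    have : IsTrans V (fun u v => (p u).1 < (p v).1) := ⟨fun x y z => lt_trans⟩
    exact List.isChain_iff_pairwise.1 h
  have h2 := (List.pairwise_append.1 h1).2.1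
  exact (List.pairwise_cons.1 h2).1 b (by simp)

theorem PlE_head {a b : V} {t : List V} (h : PlE_S p (a :: b :: t)) :
    PlE_H p (a :: b :: t) (p a).1 = (p a).2 := by
  have h1 : (p a).1 < (p b).1 := PlE_lt (s := []) (t := []) h rfl
  cases t with
  | nil => simp [PlE_H, PlD1_ht_left]
  | cons c t => simp [PlE_H, PlD1_ht_left, h1.le]

theorem PlE_tail {c d : V} {t : List V} (ht : t ≠ []) (h : PlE_S p (c :: d :: t)) {x : ℝ}
    (hx : (p d).1 ≤ x) : PlE_H p (c :: d :: t) x = PlE_H p (d :: t) x := by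
  cases t with
  | nil => exact absurd rfl ht
  | cons e t =>
    have h1 : (p c).1 < (p d).1 := PlE_lt (s := []) (t := []) h rfl
    by_cases h2 : x ≤ (p d).1
    · have h3 : x = (p d).1 := le_antisymm h2 hx
      subst h3
      rw [PlE_head (PlE_S_tail h)]
      simp [PlE_H, PlD1_ht_right h1]
    · simp [PlE_H, h2]

theorem PlE_pair {K : List V} (h : PlE_S p K) {s t : List V} {c d : V} (hK : K = s ++ c :: d :: t)
    {x : ℝ} (h1 : (p c).1 ≤ x) (h2 : x ≤ (p d).1) : PlE_H p K x = PlD1_ht (p c) (p d) x := by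
  subst hK
  induction s with
  | nil =>
    cases t with
    | nil => simp [PlE_H]
    | cons e t => simp [PlE_H, h2]
  | cons e s ih =>
    have hS : PlE_S p (s ++ c :: d :: t) := PlE_S_tail h
    rw [← ih hS]
    cases s with
    | nil =>
      exact PlE_tail (by simp) h h1
    | cons f s =>
      refine PlE_tail (by simp) h ?_
      have h3 : (p f).1 < (p c).1 := PlE_lt (s := []) (t := s) (u := d :: t) hS (by simp)
      linarith

theorem PlE_vertex {K : List V} (h : PlE_S p K) {s t : List V} {v : V} (hK : K = s ++ v :: t)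
    (hst : s ≠ [] ∨ t ≠ []) : PlE_H p K (p v).1 = (p v).2 := by
  cases t with
  | cons d t =>
    have h1 : (p v).1 < (p d).1 := PlE_lt (s := s) (t := []) (u := t) h hK
    rw [PlE_pair h hK le_rfl h1.le, PlD1_ht_left]
  | nil =>
    rcases List.eq_nil_or_concat' s with e | ⟨q, a, e⟩
    · subst e
      simp at hst
    · subst e
      have hK' : K = q ++ a :: v :: [] := by simpa using hK
      have h1 : (p a).1 < (p v).1 := PlE_lt (s := q) (t := []) (u := []) h hK'
      rw [PlE_pair h hK' h1.le le_rfl, PlD1_ht_right h1]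

theorem PlE_cover : ∀ (K : List V) (c e : V) (m : List V), K = c :: (m ++ [e]) → ∀ x : ℝ,
    (p c).1 ≤ x → x ≤ (p e).1 → ∃ s a b t, K = s ++ a :: b :: t ∧ (p a).1 ≤ x ∧ x ≤ (p b).1 := by
  intro K c e m
  induction m generalizing K c with
  | nil =>
    intro hK x h1 h2
    exact ⟨[], c, e, [], by simpa using hK, h1, h2⟩
  | cons d m ih =>
    intro hK x h1 h2
    by_cases h3 : x ≤ (p d).1
    · exact ⟨[], c, d, m ++ [e], by simpa using hK, h1, h3⟩
    · obtain ⟨s, a, b, t, hs, h4, h5⟩ := ih (d :: (m ++ [e])) d rfl x (le_of_not_ge h3) h2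
      refine ⟨c :: s, a, b, t, ?_, h4, h5⟩
      rw [hK, List.cons_append, hs, List.cons_append]

theorem PlE_ht_cont (P Q : ℝ × ℝ) : Continuous (PlD1_ht P Q) := by
  unfold PlD1_ht
  fun_prop

theorem PlE_cont : ∀ K : List V, PlE_S p K → Continuous (PlE_H p K)
  | [], _ => by
    have : PlE_H p ([] : List V) = fun _ => 0 := by funext x; simp [PlE_H]
    rw [this]; exact continuous_const
  | [a], _ => by
    have : PlE_H p [a] = fun _ => 0 := by funext x; simp [PlE_H]
    rw [this]; exact continuous_const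
  | [a, b], _ => by
    have : PlE_H p [a, b] = PlD1_ht (p a) (p b) := by funext x; simp [PlE_H]
    rw [this]; exact PlE_ht_cont _ _
  | a :: b :: c :: t, h => by
    have ih := PlE_cont (b :: c :: t) (PlE_S_tail h)
    have h1 : (p a).1 < (p b).1 := PlE_lt (s := []) (t := []) h rfl
    have e : PlE_H p (a :: b :: c :: t) =
        fun x => if x ≤ (p b).1 then PlD1_ht (p a) (p b) x else PlE_H p (b :: c :: t) x := by
      funext x; simp [PlE_H]
    rw [e]
    refine Continuous.if_le (PlE_ht_cont _ _) ih continuous_id continuous_const ?_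
    intro x hx
    have hx' : x = (p b).1 := hx
    rw [hx', PlD1_ht_right h1, PlE_head (PlE_S_tail h)]

/-- two chains which differ only between `a` and `b` -/
theorem PlE_same {K₁ K₂ s m₁ m₂ t : List V} {a b A B : V} {k : List V}
    (h₁ : PlE_S p K₁) (h₂ : PlE_S p K₂)
    (e₁ : K₁ = s ++ a :: (m₁ ++ b :: t)) (e₂ : K₂ = s ++ a :: (m₂ ++ b :: t))
    (hk : K₁ = A :: (k ++ [B])) {x : ℝ} (hA : (p A).1 ≤ x) (hB : x ≤ (p B).1)
    (hx : x ≤ (p a).1 ∨ (p b).1 ≤ x) : PlE_H p K₁ x = PlE_H p K₂ x := by
  rcases hx with hx | hx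
  · cases s with
    | nil =>
      have hAa : A = a := by
        have h3 : A :: (k ++ [B]) = [] ++ a :: (m₁ ++ b :: t) := by rw [← hk, e₁]
        simpa using (List.cons_eq_cons.1 h3).1
      subst hAa
      have h4 : x = (p A).1 := le_antisymm hx hA
      rw [h4, PlE_vertex h₁ e₁ (Or.inr (by simp)), PlE_vertex h₂ e₂ (Or.inr (by simp))]
    | cons c s =>
      have hAc : A = c := by
        have h3 : A :: (k ++ [B]) = (c :: s) ++ a :: (m₁ ++ b :: t) := by rw [← hk, e₁]
        exact (List.cons_eq_cons.1 h3).1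
      subst hAc
      obtain ⟨s₁, u, v, t₁, hs, h4, h5⟩ := PlE_cover (p := p) (A :: (s ++ [a])) A a s rfl x hA hx
      have f₁ : K₁ = s₁ ++ u :: v :: (t₁ ++ (m₁ ++ b :: t)) := by
        have h6 : K₁ = (A :: (s ++ [a])) ++ (m₁ ++ b :: t) := by rw [e₁]; simp
        rw [h6, hs]; simp
      have f₂ : K₂ = s₁ ++ u :: v :: (t₁ ++ (m₂ ++ b :: t)) := by
        have h6 : K₂ = (A :: (s ++ [a])) ++ (m₂ ++ b :: t) := by rw [e₂]; simp
        rw [h6, hs]; simp
      rw [PlE_pair h₁ f₁ h4 h5, PlE_pair h₂ f₂ h4 h5]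
  · rcases List.eq_nil_or_concat' t with e | ⟨q, B', e⟩
    · subst e
      have hBb : B = b := by
        have h3 : (A :: k) ++ [B] = (s ++ a :: m₁) ++ [b] := by
          have : K₁ = (s ++ a :: m₁) ++ [b] := by rw [e₁]; simp
          rw [← this, hk]; simp
        have h4 := (List.append_inj' h3 rfl).2
        simpa using h4
      subst hBb
      have h4 : x = (p B).1 := le_antisymm hB hx
      have f₁ : K₁ = (s ++ a :: m₁) ++ B :: [] := by rw [e₁]; simp
      have f₂ : K₂ = (s ++ a :: m₂) ++ B :: [] := by rw [e₂]; simp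
      rw [h4, PlE_vertex h₁ f₁ (Or.inl (by simp)), PlE_vertex h₂ f₂ (Or.inl (by simp))]
    · subst e
      have hBb : B = B' := by
        have h3 : (A :: k) ++ [B] = (s ++ a :: (m₁ ++ b :: q)) ++ [B'] := by
          have : K₁ = (s ++ a :: (m₁ ++ b :: q)) ++ [B'] := by rw [e₁]; simp
          rw [← this, hk]; simp
        have h4 := (List.append_inj' h3 rfl).2
        simpa using h4
      subst hBb
      obtain ⟨s₁, u, v, t₁, hs, h4, h5⟩ := PlE_cover (p := p) (b :: (q ++ [B])) b B q rfl x hx hB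
      have f₁ : K₁ = (s ++ a :: (m₁ ++ s₁)) ++ u :: v :: t₁ := by
        rw [e₁, hs]; simp
      have f₂ : K₂ = (s ++ a :: (m₂ ++ s₁)) ++ u :: v :: t₁ := by
        rw [e₂, hs]; simp
      rw [PlE_pair h₁ f₁ h4 h5, PlE_pair h₂ f₂ h4 h5]

end


section

variable {V : Type*} {G : SimpleGraph V} {p : V → ℝ × ℝ}

/-- a chain of edges -/
def PlE_C (G : SimpleGraph V) (p : V → ℝ × ℝ) (K : List V) : Prop :=
  K.IsChain fun u v => G.Adj u v ∧ (p u).1 < (p v).1

theorem PlE_C_S {K : List V} (h : PlE_C G p K) : PlE_S p K :=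
  List.IsChain.imp (fun _ _ h => h.2) h

theorem PlE_C_adj {K s t : List V} {a b : V} (h : PlE_C G p K) (hK : K = s ++ a :: b :: t) :
    G.Adj a b := by
  subst hK
  have h2 := (List.isChain_append.1 h).2.1
  exact (List.isChain_cons_cons.1 h2).1.1

/-- an edge which meets the chain above an inner point of its interval is an edge of the chain -/
theorem PlE_nocross {K k : List V} {A B : V} (hd : Drawn G p) (h : PlE_C G p K)
    (hk : K = A :: (k ++ [B])) {u v : V} (huv : G.Adj u v) (hlt : (p u).1 < (p v).1) {x : ℝ}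
    (h1 : (p u).1 < x) (h2 : x < (p v).1) (hA : (p A).1 ≤ x) (hB : x ≤ (p B).1)
    (hx : PlD1_ht (p u) (p v) x = PlE_H p K x) : ∃ s t, K = s ++ u :: v :: t := by
  obtain ⟨s, c, d, t, hs, h3, h4⟩ := PlE_cover (p := p) K A B k hk x hA hB
  have hS := PlE_C_S h
  have hcd : (p c).1 < (p d).1 := PlE_lt (s := s) (t := []) (u := t) hS hs
  have hadj := PlE_C_adj h hs
  rw [PlE_pair hS hs h3 h4] at hx
  have m1 : ((x, PlD1_ht (p u) (p v) x) : ℝ × ℝ) ∈ segment ℝ (p u) (p v) :=
    PlD1_mem hlt h1.le h2.le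
  have m2 : ((x, PlD1_ht (p u) (p v) x) : ℝ × ℝ) ∈ segment ℝ (p c) (p d) := by
    rw [hx]; exact PlD1_mem hcd h3 h4
  by_cases e1 : u = c
  · subst e1
    by_cases e2 : v = d
    · subst e2; exact ⟨s, t, hs⟩
    · exfalso
      have := hd.inter huv hadj e2 m1 m2
      have h5 : x = (p u).1 := congrArg Prod.fst this
      linarith
  · by_cases e2 : v = d
    · subst e2
      exfalso
      rw [segment_symm] at m1 m2
      have := hd.inter huv.symm hadj.symm e1 m1 m2
      have h5 : x = (p v).1 := congrArg Prod.fst this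
      linarith
    · exfalso
      have e3 : u ≠ d := by
        rintro rfl
        linarith
      have e4 : v ≠ c := by
        rintro rfl
        linarith
      exact Set.disjoint_left.1 (hd.cross u v c d huv hadj e1 e3 e4 e2) m1 m2

/-- an edge which is below the chain somewhere is below it everywhere -/
theorem PlE_below {K k : List V} {A B : V} (hd : Drawn G p) (h : PlE_C G p K)
    (hk : K = A :: (k ++ [B])) {u v : V} (huv : G.Adj u v) (hlt : (p u).1 < (p v).1)
    (hA : (p A).1 ≤ (p u).1) (hB : (p v).1 ≤ (p B).1) {x₀ : ℝ}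
    (h1 : (p u).1 ≤ x₀) (h2 : x₀ ≤ (p v).1) (hx : PlD1_ht (p u) (p v) x₀ < PlE_H p K x₀)
    {x : ℝ} (h3 : (p u).1 < x) (h4 : x < (p v).1) : PlD1_ht (p u) (p v) x < PlE_H p K x := by
  by_contra hcon
  have hS := PlE_C_S h
  have hc : ContinuousOn (fun y => PlD1_ht (p u) (p v) y - PlE_H p K y) (Set.uIcc x₀ x) :=
    ((PlE_ht_cont _ _).sub (PlE_cont K hS)).continuousOn
  obtain ⟨y, hy, hy0⟩ := intermediate_value_uIcc hc (show (0 : ℝ) ∈ Set.uIcc _ _ from by
    rw [Set.mem_uIcc]
    left
    constructor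
    · linarith
    · linarith)
  have hy0' : PlD1_ht (p u) (p v) y = PlE_H p K y := by
    have : PlD1_ht (p u) (p v) y - PlE_H p K y = 0 := hy0
    linarith
  have hyne : y ≠ x₀ := by
    rintro rfl
    linarith
  have hyb : (p u).1 < y ∧ y < (p v).1 := by
    rcases Set.mem_uIcc.1 hy with ⟨h5, h6⟩ | ⟨h5, h6⟩
    · have := lt_of_le_of_ne h5 (Ne.symm hyne)
      constructor <;> linarith
    · have := lt_of_le_of_ne h6 hyne
      constructor <;> linarith
  obtain ⟨s, t, hs⟩ := PlE_nocross hd h hk huv hlt hyb.1 hyb.2 (by linarith) (by linarith) hy0'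
  have := PlE_pair hS hs h1 h2
  linarith

/-- invariant of the sweep -/
structure PlE_Inv [DecidableEq V] (G : SimpleGraph V) (p : V → ℝ × ℝ) (K : List V)
    (F : Finset (Finset V)) : Prop where
  chain : PlE_C G p K
  disc : Disc K F
  face : ∀ u v, AdjF F u v → (p u).1 < (p v).1 → G.Adj u v ∧
    ∀ x, (p u).1 ≤ x → x ≤ (p v).1 → PlD1_ht (p u) (p v) x ≤ PlE_H p K x
  inside : ∀ v, v ∈ verts K F → (p v).2 ≤ PlE_H p K (p v).1
  outside : ∀ v, v ∉ verts K F → PlE_H p K (p v).1 < (p v).2
  edge : ∀ u v, G.Adj u v → (p u).1 < (p v).1 → AdjF F u v ∨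
    ∀ x, (p u).1 ≤ x → x ≤ (p v).1 → PlE_H p K x ≤ PlD1_ht (p u) (p v) x

/-- the general step -/
theorem PlE_step [DecidableEq V] {K₁ K₂ s m₁ m₂ t k : List V} {a b r A B : V}
    {F : Finset (Finset V)} (hd : Drawn G p) (hl : ∀ v, (p A).1 ≤ (p v).1)
    (hr : ∀ v, (p v).1 ≤ (p B).1) (hI : PlE_Inv G p K₁ F)
    (e₁ : K₁ = s ++ a :: (m₁ ++ b :: t)) (e₂ : K₂ = s ++ a :: (m₂ ++ b :: t))
    (hk : K₁ = A :: (k ++ [B])) (hC : PlE_C G p K₂) (hD : Disc K₂ (insert {a, b, r} F))
    (hle : ∀ x, (p a).1 ≤ x → x ≤ (p b).1 → PlE_H p K₁ x ≤ PlE_H p K₂ x)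
    (htri : ∀ v, (p a).1 ≤ (p v).1 → (p v).1 ≤ (p b).1 → PlE_H p K₁ (p v).1 ≤ (p v).2 →
      (p v).2 ≤ PlE_H p K₂ (p v).1 → v = a ∨ v = b ∨ v = r)
    (hv : ∀ v, v ∈ verts K₂ (insert {a, b, r} F) ↔ v ∈ verts K₁ F ∨ v = r)
    (hrr : (p r).2 ≤ PlE_H p K₂ (p r).1)
    (hface : ∀ u v, u ∈ ({a, b, r} : Finset V) → v ∈ ({a, b, r} : Finset V) →
      (p u).1 < (p v).1 → G.Adj u v ∧
        ∀ x, (p u).1 ≤ x → x ≤ (p v).1 → PlD1_ht (p u) (p v) x ≤ PlE_H p K₂ x) :
    PlE_Inv G p K₂ (insert {a, b, r} F) := by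
  have hS₁ := PlE_C_S hI.chain
  have hS₂ := PlE_C_S hC
  have hab : (p a).1 < (p b).1 := PlE_lt (s := s) (t := m₁) (u := t) hS₁ e₁
  have hsame : ∀ x, (p A).1 ≤ x → x ≤ (p B).1 → (x ≤ (p a).1 ∨ (p b).1 ≤ x) →
      PlE_H p K₁ x = PlE_H p K₂ x := fun x h1 h2 h3 => PlE_same hS₁ hS₂ e₁ e₂ hk h1 h2 h3
  have hall : ∀ x, (p A).1 ≤ x → x ≤ (p B).1 → PlE_H p K₁ x ≤ PlE_H p K₂ x := by
    intro x h1 h2
    by_cases h3 : x ≤ (p a).1 ∨ (p b).1 ≤ x
    · exact (hsame x h1 h2 h3).le
    · rw [not_or, not_le, not_le] at h3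
      exact hle x h3.1.le h3.2.le
  -- the ends of the second chain
  have hkk : ∃ k', K₂ = A :: (k' ++ [B]) := by
    have h1 : ∃ q, K₂ = A :: q := by
      cases s with
      | nil =>
        have h3 : A :: (k ++ [B]) = [] ++ a :: (m₁ ++ b :: t) := by rw [← hk, e₁]
        have h4 : A = a := by simpa using (List.cons_eq_cons.1 h3).1
        exact ⟨m₂ ++ b :: t, by rw [e₂, h4]; simp⟩
      | cons c s =>
        have h3 : A :: (k ++ [B]) = (c :: s) ++ a :: (m₁ ++ b :: t) := by rw [← hk, e₁]
        have h4 : A = c := (List.cons_eq_cons.1 h3).1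
        exact ⟨s ++ a :: (m₂ ++ b :: t), by rw [e₂, h4]; simp⟩
    have h2 : ∃ q, K₂ = q ++ [B] := by
      rcases List.eq_nil_or_concat' t with e | ⟨q, B', e⟩
      · subst e
        have h3 : (A :: k) ++ [B] = (s ++ a :: m₁) ++ [b] := by
          have : K₁ = (s ++ a :: m₁) ++ [b] := by rw [e₁]; simp
          rw [← this, hk]; simp
        have h4 : B = b := by simpa using (List.append_inj' h3 rfl).2
        exact ⟨s ++ a :: m₂, by rw [e₂, h4]; simp⟩
      · subst e
        have h3 : (A :: k) ++ [B] = (s ++ a :: (m₁ ++ b :: q)) ++ [B'] := by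
          have : K₁ = (s ++ a :: (m₁ ++ b :: q)) ++ [B'] := by rw [e₁]; simp
          rw [← this, hk]; simp
        have h4 : B = B' := by simpa using (List.append_inj' h3 rfl).2
        exact ⟨s ++ a :: (m₂ ++ b :: q), by rw [e₂, h4]; simp⟩
    obtain ⟨q, hq⟩ := h1
    obtain ⟨q', hq'⟩ := h2
    cases q' with
    | nil =>
      exfalso
      have h5 := congrArg List.length e₂
      rw [hq'] at h5
      simp at h5
      omega
    | cons c q' =>
      have h6 : A :: q = c :: (q' ++ [B]) := by rw [← hq, hq']; simp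
      have h7 : A = c := (List.cons_eq_cons.1 h6).1
      exact ⟨q', by rw [hq', h7]; simp⟩
  obtain ⟨k', hk'⟩ := hkk
  refine ⟨hC, hD, ?_, ?_, ?_, ?_⟩
  · intro u v huv hlt
    obtain ⟨hne, f, hf, hu, hv'⟩ := huv
    rcases Finset.mem_insert.1 hf with rfl | hf
    · exact hface u v hu hv' hlt
    · have h1 := hI.face u v ⟨hne, f, hf, hu, hv'⟩ hlt
      refine ⟨h1.1, fun x h2 h3 => (h1.2 x h2 h3).trans (hall x ?_ ?_)⟩
      · have := hl u; linarith
      · have := hr v; linarith
  · intro v hv'
    rcases (hv v).1 hv' with h1 | h1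
    · exact (hI.inside v h1).trans (hall _ (hl v) (hr v))
    · rw [h1]; exact hrr
  · intro v hv'
    rw [hv, not_or] at hv'
    have h1 := hI.outside v hv'.1
    by_contra hcon
    have hcon' := not_lt.1 hcon
    have h2 : (p a).1 < (p v).1 ∧ (p v).1 < (p b).1 := by
      by_contra h3
      have h4 := hsame _ (hl v) (hr v) (by
        rw [not_and_or, not_lt, not_lt] at h3; exact h3)
      linarith
    rcases htri v h2.1.le h2.2.le h1.le hcon' with h3 | h3 | h3
    · rw [h3] at h2; exact lt_irrefl _ h2.1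
    · rw [h3] at h2; exact lt_irrefl _ h2.2
    · exact hv'.2 h3
  · intro u v huv hlt
    rcases hI.edge u v huv hlt with h1 | h1
    · left
      obtain ⟨hne, f, hf, hu, hv'⟩ := h1
      exact ⟨hne, f, Finset.mem_insert_of_mem hf, hu, hv'⟩
    · by_contra hcon
      rw [not_or] at hcon
      obtain ⟨hc1, hc2⟩ := hcon
      push Not at hc2
      obtain ⟨x₀, h2, h3, h4⟩ := hc2
      have hb : ∀ x, (p u).1 < x → x < (p v).1 → PlD1_ht (p u) (p v) x < PlE_H p K₂ x :=
        fun x h5 h6 => PlE_below hd hC hk' huv hlt (hl u) (hr v) h2 h3 h4 h5 h6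
      have hin : ∀ x, (p u).1 < x → x < (p v).1 → (p a).1 < x ∧ x < (p b).1 := by
        intro x h5 h6
        by_contra h7
        have h8 := hsame x (by have := hl u; linarith) (by have := hr v; linarith) (by
          rw [not_and_or, not_lt, not_lt] at h7; exact h7)
        have h9 := hb x h5 h6
        have h10 := h1 x h5.le h6.le
        linarith
      have hua : (p a).1 ≤ (p u).1 := by
        by_contra h5
        have h6 : (p u).1 < min (p a).1 (p v).1 := lt_min (not_le.1 h5) hlt
        obtain ⟨y, h7, h8⟩ := exists_between h6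
        have := (hin y h7 (h8.trans_le (min_le_right _ _))).1
        have h9 := h8.trans_le (min_le_left _ _)
        linarith
      have hvb : (p v).1 ≤ (p b).1 := by
        by_contra h5
        have h6 : max (p b).1 (p u).1 < (p v).1 := max_lt (not_le.1 h5) hlt
        obtain ⟨y, h7, h8⟩ := exists_between h6
        have := (hin y ((le_max_right _ _).trans_lt h7) h8).2
        have h9 := (le_max_left (p b).1 (p u).1).trans_lt h7
        linarith
      -- the ends are weakly below the second chain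
      have hcont : Continuous fun x => PlE_H p K₂ x - PlD1_ht (p u) (p v) x :=
        (PlE_cont K₂ hS₂).sub (PlE_ht_cont _ _)
      have hcl : ∀ x, (p u).1 ≤ x → x ≤ (p v).1 → PlD1_ht (p u) (p v) x ≤ PlE_H p K₂ x := by
        intro x h5 h6
        have h7 : closure (Set.Ioo (p u).1 (p v).1) ⊆
            {x | 0 ≤ PlE_H p K₂ x - PlD1_ht (p u) (p v) x} := by
          refine closure_minimal ?_ (isClosed_le continuous_const hcont)
          intro y hy
          have := hb y hy.1 hy.2
          show 0 ≤ PlE_H p K₂ y - PlD1_ht (p u) (p v) y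
          linarith
        rw [closure_Ioo hlt.ne] at h7
        have h8 : 0 ≤ PlE_H p K₂ x - PlD1_ht (p u) (p v) x := h7 ⟨h5, h6⟩
        linarith
      have hu : u = a ∨ u = b ∨ u = r := by
        refine htri u hua (by linarith) ?_ ?_
        · have := h1 (p u).1 le_rfl hlt.le
          rwa [PlD1_ht_left] at this
        · have := hcl (p u).1 le_rfl hlt.le
          rwa [PlD1_ht_left] at this
      have hv' : v = a ∨ v = b ∨ v = r := by
        refine htri v (by linarith) hvb ?_ ?_
        · have := h1 (p v).1 hlt.le le_rfl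
          rwa [PlD1_ht_right hlt] at this
        · have := hcl (p v).1 hlt.le le_rfl
          rwa [PlD1_ht_right hlt] at this
      refine hc1 ⟨?_, {a, b, r}, Finset.mem_insert_self _ _, ?_, ?_⟩
      · rintro rfl
        exact lt_irrefl _ hlt
      · simp only [Finset.mem_insert, Finset.mem_singleton]; exact hu
      · simp only [Finset.mem_insert, Finset.mem_singleton]; exact hv'

end

section

variable {V : Type*} {G : SimpleGraph V} {p : V → ℝ × ℝ}

theorem PlE_lin {P Q R S : ℝ × ℝ} (h : P.1 < Q.1) {x : ℝ} (h1 : P.1 ≤ x) (h2 : x ≤ Q.1)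
    (h3 : PlD1_ht R S P.1 ≤ P.2) (h4 : PlD1_ht R S Q.1 ≤ Q.2) :
    PlD1_ht R S x ≤ PlD1_ht P Q x := by
  have hpos : 0 < Q.1 - P.1 := by linarith
  set θ := (x - P.1) / (Q.1 - P.1) with hθ
  have hθ0 : 0 ≤ θ := div_nonneg (by linarith) hpos.le
  have hθ1 : θ ≤ 1 := by rw [hθ, div_le_one hpos]; linarith
  have hx : x = P.1 + θ * (Q.1 - P.1) := by rw [hθ]; field_simp; ring
  have e1 : PlD1_ht R S x = (1 - θ) * PlD1_ht R S P.1 + θ * PlD1_ht R S Q.1 := by
    rw [hx]
    unfold PlD1_ht
    ring
  have e2 : PlD1_ht P Q x = (1 - θ) * P.2 + θ * Q.2 := by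
    unfold PlD1_ht
    rw [← hθ]
    ring
  rw [e1, e2]
  have h5 := mul_le_mul_of_nonneg_left h3 (sub_nonneg.2 hθ1)
  have h6 := mul_le_mul_of_nonneg_left h4 hθ0
  linarith

/-- lines through the same left end -/
theorem PlE_htl {P Q R : ℝ × ℝ} (h1 : P.1 < Q.1) (h2 : P.1 < R.1) (h : 0 ≤ cr P Q R) {x : ℝ}
    (hx : P.1 ≤ x) : PlD1_ht P Q x ≤ PlD1_ht P R x := by
  have e : PlD1_ht P R x - PlD1_ht P Q x =
      (x - P.1) * cr P Q R / ((R.1 - P.1) * (Q.1 - P.1)) := by
    have h3 : R.1 - P.1 ≠ 0 := by linarith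
    have h4 : Q.1 - P.1 ≠ 0 := by linarith
    unfold PlD1_ht cr
    field_simp
    ring
  have h5 : 0 ≤ (x - P.1) * cr P Q R / ((R.1 - P.1) * (Q.1 - P.1)) :=
    div_nonneg (mul_nonneg (by linarith) h) (mul_nonneg (by linarith) (by linarith))
  linarith

/-- lines through the same right end -/
theorem PlE_htr {P Q R : ℝ × ℝ} (h1 : P.1 < Q.1) (h2 : R.1 < Q.1) (h : 0 ≤ cr P Q R) {x : ℝ}
    (hx : x ≤ Q.1) : PlD1_ht P Q x ≤ PlD1_ht R Q x := by
  have e : PlD1_ht R Q x - PlD1_ht P Q x =
      (Q.1 - x) * cr P Q R / ((Q.1 - R.1) * (Q.1 - P.1)) := by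
    have h3 : Q.1 - R.1 ≠ 0 := by linarith
    have h4 : Q.1 - P.1 ≠ 0 := by linarith
    unfold PlD1_ht cr
    field_simp
    ring
  have h5 : 0 ≤ (Q.1 - x) * cr P Q R / ((Q.1 - R.1) * (Q.1 - P.1)) :=
    div_nonneg (mul_nonneg (by linarith) h) (mul_nonneg (by linarith) (by linarith))
  linarith

/-- first kind of step -/
theorem PlE_step1 [DecidableEq V] {s t k : List V} {a b r A B : V}
    {F : Finset (Finset V)} (hd : Drawn G p) (hl : ∀ v, (p A).1 ≤ (p v).1)
    (hr : ∀ v, (p v).1 ≤ (p B).1) {K : List V} (hI : PlE_Inv G p K F)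
    (hK : K = s ++ a :: b :: t) (hk : K = A :: (k ++ [B]))
    (hcr : 0 < cr (p a) (p b) (p r)) (h1 : (p a).1 < (p r).1) (h2 : (p r).1 < (p b).1)
    (har : G.Adj a r) (hrb : G.Adj r b)
    (he : ∀ w, w ≠ a → w ≠ b → w ≠ r → ¬ inTri (p a) (p b) (p r) (p w)) :
    PlE_Inv G p (s ++ a :: r :: b :: t) (insert {a, b, r} F) ∧ ({a, b, r} : Finset V) ∉ F := by
  have hS := PlE_C_S hI.chain
  have hab : (p a).1 < (p b).1 := by linarith
  have habadj : G.Adj a b := PlE_C_adj hI.chain hK
  have hrv : r ∉ verts K F := by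
    intro hcon
    have h3 := hI.inside r hcon
    rw [PlE_pair hS hK h1.le h2.le] at h3
    have h4 := (PlD1_below hab).2 h3
    linarith
  have hC : PlE_C G p (s ++ a :: r :: b :: t) := by
    have h3 := hI.chain
    rw [hK] at h3
    unfold PlE_C at h3 ⊢
    rw [List.isChain_append] at h3 ⊢
    obtain ⟨c1, c2, c3⟩ := h3
    rw [List.isChain_cons_cons] at c2
    refine ⟨c1, ?_, ?_⟩
    · rw [List.isChain_cons_cons, List.isChain_cons_cons]
      exact ⟨⟨har, h1⟩, ⟨hrb, h2⟩, c2.2⟩
    · intro x hx y hy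
      exact c3 x hx y (by simpa using hy)
  have hS' := PlE_C_S hC
  have v1 : ∀ x, (p a).1 ≤ x → x ≤ (p b).1 → PlE_H p K x = PlD1_ht (p a) (p b) x :=
    fun x h3 h4 => PlE_pair hS hK h3 h4
  have v2 : ∀ x, (p a).1 ≤ x → x ≤ (p r).1 →
      PlE_H p (s ++ a :: r :: b :: t) x = PlD1_ht (p a) (p r) x :=
    fun x h3 h4 => PlE_pair hS' rfl h3 h4
  have v3 : ∀ x, (p r).1 ≤ x → x ≤ (p b).1 →
      PlE_H p (s ++ a :: r :: b :: t) x = PlD1_ht (p r) (p b) x :=
    fun x h3 h4 => PlE_pair hS' (s := s ++ [a]) (t := t) (by simp) h3 h4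
  have hle : ∀ x, (p a).1 ≤ x → x ≤ (p b).1 →
      PlD1_ht (p a) (p b) x ≤ PlE_H p (s ++ a :: r :: b :: t) x := by
    intro x h3 h4
    rcases le_total x (p r).1 with h5 | h5
    · rw [v2 x h3 h5]
      exact PlE_htl hab h1 hcr.le h3
    · rw [v3 x h5 h4]
      exact PlE_htr hab h2 hcr.le h4
  refine ⟨?_, ?_⟩
  · refine PlE_step (m₁ := []) (m₂ := [r]) (s := s) (t := t) (k := k) hd hl hr hI hK rfl hk hC ?_ ?_
      ?_ ?_ ?_ ?_
    · rw [hK] at hrv
      have h3 := hI.disc
      rw [hK] at h3
      exact Disc.ear h3 hrv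
    · intro x h3 h4
      rw [v1 x h3 h4]
      exact hle x h3 h4
    · intro v h3 h4 h5 h6
      by_contra hcon
      rw [not_or, not_or] at hcon
      refine he v hcon.1 hcon.2.1 hcon.2.2 ?_
      rw [v1 _ h3 h4] at h5
      have c1 : 0 ≤ cr (p a) (p b) (p v) := (PlD1_above hab).2 h5
      rcases le_total (p v).1 (p r).1 with h7 | h7
      · rw [v2 _ h3 h7] at h6
        have c2 : cr (p a) (p r) (p v) ≤ 0 := (PlD1_below h1).2 h6
        have c3 : cr (p r) (p a) (p v) = - cr (p a) (p r) (p v) := by unfold cr; ring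
        refine ⟨c1, ?_, by rw [c3]; linarith⟩
        have c4 : ((p r).1 - (p a).1) * cr (p b) (p r) (p v) =
            ((p b).1 - (p r).1) * cr (p r) (p a) (p v) +
              ((p r).1 - (p v).1) * cr (p a) (p b) (p r) := by unfold cr; ring
        have c5 : 0 ≤ ((p r).1 - (p a).1) * cr (p b) (p r) (p v) := by
          rw [c4]
          have c6 : 0 ≤ ((p b).1 - (p r).1) * cr (p r) (p a) (p v) :=
            mul_nonneg (by linarith) (by rw [c3]; linarith)
          have c7 : 0 ≤ ((p r).1 - (p v).1) * cr (p a) (p b) (p r) :=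
            mul_nonneg (by linarith) hcr.le
          linarith
        exact (mul_nonneg_iff_of_pos_left (by linarith)).1 c5
      · rw [v3 _ h7 h4] at h6
        have c2 : cr (p r) (p b) (p v) ≤ 0 := (PlD1_below h2).2 h6
        have c3 : cr (p b) (p r) (p v) = - cr (p r) (p b) (p v) := by unfold cr; ring
        refine ⟨c1, by rw [c3]; linarith, ?_⟩
        have c4 : ((p b).1 - (p r).1) * cr (p r) (p a) (p v) =
            ((p r).1 - (p a).1) * cr (p b) (p r) (p v) +
              ((p v).1 - (p r).1) * cr (p a) (p b) (p r) := by unfold cr; ring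
        have c5 : 0 ≤ ((p b).1 - (p r).1) * cr (p r) (p a) (p v) := by
          rw [c4]
          have c6 : 0 ≤ ((p r).1 - (p a).1) * cr (p b) (p r) (p v) :=
            mul_nonneg (by linarith) (by rw [c3]; linarith)
          have c7 : 0 ≤ ((p v).1 - (p r).1) * cr (p a) (p b) (p r) :=
            mul_nonneg (by linarith) hcr.le
          linarith
        exact (mul_nonneg_iff_of_pos_left (by linarith)).1 c5
    · intro v
      rw [hK]
      simp only [verts, Finset.mem_union, List.mem_toFinset, List.mem_append, List.mem_cons,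
        Finset.biUnion_insert, id_eq, Finset.mem_insert, Finset.mem_singleton, List.nil_append,
        List.cons_append]
      tauto
    · rw [PlE_vertex hS' (s := s ++ [a]) (t := b :: t) (by simp) (Or.inr (by simp))]
    · have hc : ∀ u v, (u = a ∨ u = b ∨ u = r) → (v = a ∨ v = b ∨ v = r) →
          (p u).1 < (p v).1 → G.Adj u v ∧ ∀ x, (p u).1 ≤ x → x ≤ (p v).1 →
            PlD1_ht (p u) (p v) x ≤ PlE_H p (s ++ a :: r :: b :: t) x := by
        rintro u v (rfl | rfl | rfl) (rfl | rfl | rfl) h3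
        · exact absurd h3 (lt_irrefl _)
        · exact ⟨habadj, hle⟩
        · exact ⟨har, fun x h4 h5 => (v2 x h4 h5).ge⟩
        · exact absurd h3 (not_lt.2 hab.le)
        · exact absurd h3 (lt_irrefl _)
        · exact absurd h3 (not_lt.2 h2.le)
        · exact absurd h3 (not_lt.2 h1.le)
        · exact ⟨hrb, fun x h4 h5 => (v3 x h4 h5).ge⟩
        · exact absurd h3 (lt_irrefl _)
      intro u v hu hv h3
      simp only [Finset.mem_insert, Finset.mem_singleton] at hu hv
      exact hc u v hu hv h3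
  · intro hcon
    exact hrv (Finset.mem_union_right _ (Finset.mem_biUnion.2 ⟨_, hcon, by simp⟩))

/-- second kind of step -/
theorem PlE_step2 [DecidableEq V] {s t k : List V} {a b c A B : V}
    {F : Finset (Finset V)} (hd : Drawn G p) (hl : ∀ v, (p A).1 ≤ (p v).1)
    (hr : ∀ v, (p v).1 ≤ (p B).1) {K : List V} (hI : PlE_Inv G p K F)
    (hK : K = s ++ a :: c :: b :: t) (hk : K = A :: (k ++ [B]))
    (hcr : 0 < cr (p a) (p c) (p b)) (habadj : G.Adj a b) (hst : s ≠ [] ∨ t ≠ [])
    (he : ∀ w, w ≠ a → w ≠ c → w ≠ b → ¬ inTri (p a) (p c) (p b) (p w)) :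
    PlE_Inv G p (s ++ a :: b :: t) (insert {a, b, c} F) ∧ ({a, b, c} : Finset V) ∉ F := by
  have hS := PlE_C_S hI.chain
  have h1 : (p a).1 < (p c).1 := PlE_lt (s := s) (t := []) (u := b :: t) hS hK
  have h2 : (p c).1 < (p b).1 := PlE_lt (s := s ++ [a]) (t := []) (u := t) hS (by rw [hK]; simp)
  have hab : (p a).1 < (p b).1 := by linarith
  have hac : G.Adj a c := PlE_C_adj hI.chain hK
  have hcb : G.Adj c b := PlE_C_adj (s := s ++ [a]) (t := t) hI.chain (by rw [hK]; simp)
  have hneg : cr (p a) (p b) (p c) = - cr (p a) (p c) (p b) := by unfold cr; ring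
  have v1 : ∀ x, (p a).1 ≤ x → x ≤ (p c).1 → PlE_H p K x = PlD1_ht (p a) (p c) x :=
    fun x h3 h4 => PlE_pair hS hK h3 h4
  have v2 : ∀ x, (p c).1 ≤ x → x ≤ (p b).1 → PlE_H p K x = PlD1_ht (p c) (p b) x :=
    fun x h3 h4 => PlE_pair hS (s := s ++ [a]) (t := t) (by rw [hK]; simp) h3 h4
  have hnadj : ¬ AdjF F a b := by
    intro hcon
    have h3 := (hI.face a b hcon hab).2 (p c).1 h1.le h2.le
    rw [v1 _ h1.le le_rfl, PlD1_ht_right h1] at h3
    have h4 := (PlD1_above hab).2 h3
    linarith
  have hC : PlE_C G p (s ++ a :: b :: t) := by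
    have h3 := hI.chain
    rw [hK] at h3
    unfold PlE_C at h3 ⊢
    rw [List.isChain_append] at h3 ⊢
    obtain ⟨c1, c2, c3⟩ := h3
    rw [List.isChain_cons_cons, List.isChain_cons_cons] at c2
    refine ⟨c1, ?_, ?_⟩
    · rw [List.isChain_cons_cons]
      exact ⟨⟨habadj, hab⟩, c2.2.2⟩
    · intro x hx y hy
      exact c3 x hx y (by simpa using hy)
  have hS' := PlE_C_S hC
  have v3 : ∀ x, (p a).1 ≤ x → x ≤ (p b).1 →
      PlE_H p (s ++ a :: b :: t) x = PlD1_ht (p a) (p b) x :=
    fun x h3 h4 => PlE_pair hS' rfl h3 h4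
  have w1 : ∀ x, (p a).1 ≤ x → PlD1_ht (p a) (p c) x ≤ PlD1_ht (p a) (p b) x :=
    fun x h3 => PlE_htl h1 hab hcr.le h3
  have w2 : ∀ x, x ≤ (p b).1 → PlD1_ht (p c) (p b) x ≤ PlD1_ht (p a) (p b) x := by
    intro x h3
    refine PlE_htr h2 hab ?_ h3
    have : cr (p c) (p b) (p a) = cr (p a) (p c) (p b) := by unfold cr; ring
    rw [this]; exact hcr.le
  refine ⟨?_, ?_⟩
  · refine PlE_step (m₁ := [c]) (m₂ := []) (s := s) (t := t) (k := k) hd hl hr hI hK rfl hk hC ?_ ?_
      ?_ ?_ ?_ ?_
    · have h3 := hI.disc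
      rw [hK] at h3
      exact Disc.close h3 hst hnadj
    · intro x h3 h4
      rw [v3 x h3 h4]
      rcases le_total x (p c).1 with h5 | h5
      · rw [v1 x h3 h5]; exact w1 x h3
      · rw [v2 x h5 h4]; exact w2 x h4
    · intro v h3 h4 h5 h6
      by_contra hcon
      rw [not_or, not_or] at hcon
      refine he v hcon.1 hcon.2.2 hcon.2.1 ?_
      rw [v3 _ h3 h4] at h6
      have c0 : cr (p a) (p b) (p v) ≤ 0 := (PlD1_below hab).2 h6
      have c1 : cr (p b) (p a) (p v) = - cr (p a) (p b) (p v) := by unfold cr; ring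
      have c2 : 0 ≤ cr (p b) (p a) (p v) := by rw [c1]; linarith
      rcases le_total (p v).1 (p c).1 with h7 | h7
      · rw [v1 _ h3 h7] at h5
        have c3 : 0 ≤ cr (p a) (p c) (p v) := (PlD1_above h1).2 h5
        refine ⟨c3, ?_, c2⟩
        have c4 : ((p c).1 - (p a).1) * cr (p c) (p b) (p v) =
            ((p b).1 - (p c).1) * cr (p a) (p c) (p v) +
              ((p c).1 - (p v).1) * cr (p a) (p c) (p b) := by unfold cr; ring
        have c5 : 0 ≤ ((p c).1 - (p a).1) * cr (p c) (p b) (p v) := by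
          rw [c4]
          have c6 : 0 ≤ ((p b).1 - (p c).1) * cr (p a) (p c) (p v) :=
            mul_nonneg (by linarith) c3
          have c7 : 0 ≤ ((p c).1 - (p v).1) * cr (p a) (p c) (p b) :=
            mul_nonneg (by linarith) hcr.le
          linarith
        exact (mul_nonneg_iff_of_pos_left (by linarith)).1 c5
      · rw [v2 _ h7 h4] at h5
        have c3 : 0 ≤ cr (p c) (p b) (p v) := (PlD1_above h2).2 h5
        refine ⟨?_, c3, c2⟩
        have c4 : ((p b).1 - (p c).1) * cr (p a) (p c) (p v) =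
            ((p c).1 - (p a).1) * cr (p c) (p b) (p v) +
              ((p v).1 - (p c).1) * cr (p a) (p c) (p b) := by unfold cr; ring
        have c5 : 0 ≤ ((p b).1 - (p c).1) * cr (p a) (p c) (p v) := by
          rw [c4]
          have c6 : 0 ≤ ((p c).1 - (p a).1) * cr (p c) (p b) (p v) :=
            mul_nonneg (by linarith) c3
          have c7 : 0 ≤ ((p v).1 - (p c).1) * cr (p a) (p c) (p b) :=
            mul_nonneg (by linarith) hcr.le
          linarith
        exact (mul_nonneg_iff_of_pos_left (by linarith)).1 c5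
    · intro v
      rw [hK]
      simp only [verts, Finset.mem_union, List.mem_toFinset, List.mem_append, List.mem_cons,
        Finset.biUnion_insert, id_eq, Finset.mem_insert, Finset.mem_singleton, List.nil_append,
        List.cons_append]
      tauto
    · rw [v3 _ h1.le h2.le]
      have := w1 (p c).1 h1.le
      rwa [PlD1_ht_right h1] at this
    · have hc : ∀ u v, (u = a ∨ u = b ∨ u = c) → (v = a ∨ v = b ∨ v = c) →
          (p u).1 < (p v).1 → G.Adj u v ∧ ∀ x, (p u).1 ≤ x → x ≤ (p v).1 →
            PlD1_ht (p u) (p v) x ≤ PlE_H p (s ++ a :: b :: t) x := by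
        rintro u v (rfl | rfl | rfl) (rfl | rfl | rfl) h3
        · exact absurd h3 (lt_irrefl _)
        · exact ⟨habadj, fun x h4 h5 => (v3 x h4 h5).ge⟩
        · refine ⟨hac, fun x h4 h5 => ?_⟩
          rw [v3 x h4 (by linarith)]
          exact w1 x h4
        · exact absurd h3 (not_lt.2 hab.le)
        · exact absurd h3 (lt_irrefl _)
        · exact absurd h3 (not_lt.2 h2.le)
        · exact absurd h3 (not_lt.2 h1.le)
        · refine ⟨hcb, fun x h4 h5 => ?_⟩
          rw [v3 x (by linarith) h5]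
          exact w2 x h5
        · exact absurd h3 (lt_irrefl _)
      intro u v hu hv h3
      simp only [Finset.mem_insert, Finset.mem_singleton] at hu hv
      exact hc u v hu hv h3
  · intro hcon
    refine hnadj ⟨?_, _, hcon, by simp, by simp⟩
    rintro rfl
    exact lt_irrefl _ hab

theorem PlE_main [Fintype V] [DecidableEq V] {A B C : V} (h : Setup G p A B C) :
    ∀ (n : ℕ) (K : List V) (F : Finset (Finset V)), PlE_Inv G p K F →
      (∃ k, K = A :: (k ++ [B])) → Fintype.card (Finset V) - F.card < n →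
      ∃ F', PlE_Inv G p [A, C, B] F' := by
  intro n
  induction n with
  | zero =>
    intro K F _ _ hn
    omega
  | succ n ih =>
    intro K F hI hk hn
    obtain ⟨k, hk⟩ := hk
    have hd := h.max.1
    have hcard : ∀ f : Finset V, f ∉ F → Fintype.card (Finset V) - (insert f F).card < n := by
      intro f hf
      have h1 : (insert f F).card ≤ Fintype.card (Finset V) := Finset.card_le_univ _
      have h2 : (insert f F).card = F.card + 1 := Finset.card_insert_of_notMem hf
      omega
    have hform : ∀ (s t : List V) (m₁ m₂ : List V) (a b : V),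
        K = s ++ a :: (m₁ ++ b :: t) → ∃ k', s ++ a :: (m₂ ++ b :: t) = A :: (k' ++ [B]) := by
      intro s t m₁ m₂ a b e₁
      have h1 : ∃ q, s ++ a :: m₂ = A :: q := by
        cases s with
        | nil =>
          have h3 : A :: (k ++ [B]) = [] ++ a :: (m₁ ++ b :: t) := by rw [← hk, e₁]
          have h4 : A = a := by simpa using (List.cons_eq_cons.1 h3).1
          exact ⟨m₂, by rw [h4]; simp⟩
        | cons c s =>
          have h3 : A :: (k ++ [B]) = (c :: s) ++ a :: (m₁ ++ b :: t) := by rw [← hk, e₁]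
          have h4 : A = c := (List.cons_eq_cons.1 h3).1
          exact ⟨s ++ a :: m₂, by rw [h4]; simp⟩
      have h2 : ∃ q, b :: t = q ++ [B] := by
        rcases List.eq_nil_or_concat' t with e | ⟨q, B', e⟩
        · subst e
          have h3 : (A :: k) ++ [B] = (s ++ a :: m₁) ++ [b] := by
            have : K = (s ++ a :: m₁) ++ [b] := by rw [e₁]; simp
            rw [← this, hk]; simp
          have h4 : B = b := by simpa using (List.append_inj' h3 rfl).2
          exact ⟨[], by rw [h4]; simp⟩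
        · subst e
          have h3 : (A :: k) ++ [B] = (s ++ a :: (m₁ ++ b :: q)) ++ [B'] := by
            have : K = (s ++ a :: (m₁ ++ b :: q)) ++ [B'] := by rw [e₁]; simp
            rw [← this, hk]; simp
          have h4 : B = B' := by simpa using (List.append_inj' h3 rfl).2
          exact ⟨b :: q, by rw [h4]; simp⟩
      obtain ⟨q, hq⟩ := h1
      obtain ⟨q', hq'⟩ := h2
      refine ⟨q ++ q', ?_⟩
      have h3 : s ++ a :: (m₂ ++ b :: t) = (s ++ a :: m₂) ++ (b :: t) := by simp
      rw [h3, hq, hq']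
      simp
    by_cases hkC : k = [C]
    · subst hkC
      rw [hk] at hI
      exact ⟨F, by simpa using hI⟩
    · have hchain : (A :: (k ++ [B])).IsChain fun u v => G.Adj u v ∧ (p u).1 < (p v).1 := by
        rw [← hk]; exact hI.chain
      rcases exists_move h k hchain hkC with
        ⟨s, a, b, t, r, e, h1, h2, h3, h4, h5, h6⟩ | ⟨s, a, c, b, t, e, h1, h2, h3⟩
      · have hK : K = s ++ a :: b :: t := hk.trans e
        obtain ⟨h7, h8⟩ := PlE_step1 hd h.left h.right hI hK hk h1 h2 h3 h4 h5 h6
        exact ih _ _ h7 (hform s t [] [r] a b hK) (hcard _ h8)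
      · have hK : K = s ++ a :: c :: b :: t := hk.trans e
        have hst : s ≠ [] ∨ t ≠ [] := by
          by_contra hcon
          rw [not_or, not_not, not_not] at hcon
          obtain ⟨rfl, rfl⟩ := hcon
          have e' : A :: (k ++ [B]) = a :: ([c] ++ [b]) := by rw [e]; simp
          obtain ⟨e1, e2⟩ := List.cons_eq_cons.1 e'
          have e3 := (List.append_inj' e2 rfl).2
          have e4 : B = b := by simpa using e3
          subst e1 e4
          have hS := PlE_C_S hI.chain
          have h4 : (p A).1 < (p c).1 := PlE_lt (s := []) (t := []) (u := [B]) hS (by rw [hK]; simp)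
          have h5 : (p c).1 < (p B).1 := PlE_lt (s := [A]) (t := []) (u := []) hS (by rw [hK]; simp)
          have h6 : 0 < cr (p A) (p B) (p c) := by
            by_cases h7 : c = C
            · rw [h7]; exact h.top
            · refine (h.ins c ?_ ?_ h7).1
              · rintro rfl; exact lt_irrefl _ h4
              · rintro rfl; exact lt_irrefl _ h5
          have h7 : cr (p A) (p B) (p c) = - cr (p A) (p c) (p B) := by unfold cr; ring
          linarith
        obtain ⟨h7, h8⟩ := PlE_step2 hd h.left h.right hI hK hk h1 h2 hst h3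
        exact ih _ _ h7 (hform s t [c] [] a b hK) (hcard _ h8)

end

section

variable {V : Type*} {G : SimpleGraph V} {p : V → ℝ × ℝ}

/-- the start of the sweep -/
theorem PlE_start [DecidableEq V] {A B C : V} (h : Setup G p A B C) : PlE_Inv G p [A, B] ∅ := by
  have hne : A ≠ B := h.AB.ne
  have hlt : (p A).1 < (p B).1 := lt_of_le_of_ne (h.left B) fun e => hne (h.xinj e)
  have hC : PlE_C G p [A, B] := by
    unfold PlE_C
    rw [List.isChain_cons_cons]
    exact ⟨⟨h.AB, hlt⟩, List.isChain_singleton _⟩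
  have hS := PlE_C_S hC
  have hv : ∀ v, v ∈ verts [A, B] (∅ : Finset (Finset V)) ↔ v = A ∨ v = B := by
    intro v
    simp [verts]
  have hH : ∀ x, PlE_H p [A, B] x = PlD1_ht (p A) (p B) x := fun x => by simp [PlE_H]
  have habove : ∀ v, PlD1_ht (p A) (p B) (p v).1 ≤ (p v).2 := by
    intro v
    by_cases h1 : v = A
    · rw [h1, PlD1_ht_left]
    by_cases h2 : v = B
    · rw [h2, PlD1_ht_right hlt]
    rw [← PlD1_above hlt]
    by_cases h3 : v = C
    · rw [h3]; exact h.top.le
    · exact (h.ins v h1 h2 h3).1.le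
  refine ⟨hC, Disc.edge hne, ?_, ?_, ?_, ?_⟩
  · rintro u v ⟨_, f, hf, _⟩ _
    exact absurd hf (Finset.notMem_empty f)
  · intro v hv'
    rcases (hv v).1 hv' with rfl | rfl
    · rw [PlE_vertex hS (s := []) (t := [B]) rfl (Or.inr (by simp))]
    · rw [PlE_vertex hS (s := [A]) (t := []) rfl (Or.inl (by simp))]
  · intro v hv'
    rw [hv, not_or] at hv'
    rw [hH]
    by_contra hcon
    have h1 := (PlD1_below hlt).2 (not_lt.1 hcon)
    have h2 : 0 < cr (p A) (p B) (p v) := by
      by_cases h3 : v = C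
      · rw [h3]; exact h.top
      · exact (h.ins v hv'.1 hv'.2 h3).1
    linarith
  · intro u v huv h1
    right
    intro x h2 h3
    rw [hH]
    exact PlE_lin h1 h2 h3 (habove u) (habove v)

end

/-- The sweep. Invariant for a chain `K = A :: (m ++ [B])` (as in `exists_move`) and a set `F` of faces:
(0) `m = [] ∧ F = ∅` or `Disc K F`; in fact `Disc K F` in both cases (`Disc.edge` for `[A, B]`);
(1) every pair in a face of `F` is an edge and the closed segment is weakly below the chain;
(2) every vertex of `verts K F` is weakly below the chain; every other vertex is strictly above it;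
(3) every edge is `AdjF F`, or joins consecutive vertices of `K`, or is `A B`, or is strictly above the
chain over its open interval of first coordinates.
Here below/above refer to the piecewise linear function of the chain: a point `z` is strictly above
(weakly below) if `0 < cr (p a) (p b) z` (`≤ 0`) for consecutive `a, b` with `(p a).1 ≤ z.1 ≤ (p b).1`.
Start: `K = [A, B]`, `F = ∅`. Step by `exists_move`:
first alternative (`r` strictly above): new chain with `r` inserted, new set `insert {a, b, r} F`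
(`Disc.ear`); second alternative: `c` removed, `insert {a, b, c} F` (`Disc.close`; not `AdjF F a b` by
(1) since the segment `a b` is strictly above the chain at `c`; the chain has another vertex: if
`K = [A, c, B]` then `a b = A B` and `c` would be below `A B`, impossible by `ins`, `top`). (3): an edge
`u v` strictly above the old chain and not strictly above the new one and not an edge of the new chain
is strictly below the new chain on its open interval (it cannot meet edges of the new chain nor pass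
through its vertices), so its interval is inside the interval of the changed part and both ends are in
the closed triangle `a, b, r` (resp. `a, c, b`), hence in `{a, b, r}`, so it is an edge of the new or old
chain. (2) is similar for vertices. Measure: number of vertices plus edges strictly above the
chain. End: `m = [C]`. Nothing is strictly above `A, C, B` by `ins`; all edges are `AdjF F` by (3) and
`Disc.bd_adj`, `Disc.root_adj`. -/
theorem sweep {V : Type*} [Fintype V] [DecidableEq V] {G : SimpleGraph V} {p : V → ℝ × ℝ}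
    {A B C : V} (h : Setup G p A B C) :
    ∃ F : Finset (Finset V), Disc [A, C, B] F ∧ (∀ v, v ∈ verts [A, C, B] F) ∧
      ∀ u v, G.Adj u v ↔ AdjF F u v := by
  obtain ⟨F, hI⟩ := PlE_main h _ [A, B] ∅ (PlE_start h) ⟨[], by simp⟩ (Nat.lt_succ_self _)
  have hS := PlE_C_S hI.chain
  have h1 : (p A).1 < (p C).1 := PlE_lt (s := []) (t := []) (u := [B]) hS rfl
  have h2 : (p C).1 < (p B).1 := PlE_lt (s := [A]) (t := []) (u := []) hS rfl
  have hbel : ∀ v, v ≠ A → v ≠ B → v ≠ C → (p v).2 < PlE_H p [A, C, B] (p v).1 := by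
    intro v ha hb hc
    obtain ⟨_, c1, c2⟩ := h.ins v ha hb hc
    rcases le_total (p v).1 (p C).1 with h3 | h3
    · rw [PlE_pair hS (s := []) (t := [B]) rfl (h.left v) h3]
      by_contra hcon
      have c3 := (PlD1_above h1).2 (not_lt.1 hcon)
      have c4 : cr (p C) (p A) (p v) = - cr (p A) (p C) (p v) := by unfold cr; ring
      linarith
    · rw [PlE_pair hS (s := [A]) (t := []) rfl h3 (h.right v)]
      by_contra hcon
      have c3 := (PlD1_above h2).2 (not_lt.1 hcon)
      have c4 : cr (p B) (p C) (p v) = - cr (p C) (p B) (p v) := by unfold cr; ring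
      linarith
  have hAC : AdjF F A C := Disc.bd_adj (p := []) (s := [B]) (by simpa using hI.disc) (by simp)
  have hCB : AdjF F C B := Disc.bd_adj (p := [A]) (s := []) (by simpa using hI.disc) (by simp)
  have hAB : AdjF F A B := Disc.root_adj (m := [C]) (by simpa using hI.disc) (by simp)
  have hmain : ∀ u v, G.Adj u v → (p u).1 < (p v).1 → AdjF F u v := by
    intro u v huv hlt
    rcases hI.edge u v huv hlt with h3 | h3
    · exact h3
    · have hu : u = A ∨ u = B ∨ u = C := by
        by_contra hcon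
        rw [not_or, not_or] at hcon
        have h4 := hbel u hcon.1 hcon.2.1 hcon.2.2
        have h5 := h3 (p u).1 le_rfl hlt.le
        rw [PlD1_ht_left] at h5
        linarith
      have hv : v = A ∨ v = B ∨ v = C := by
        by_contra hcon
        rw [not_or, not_or] at hcon
        have h4 := hbel v hcon.1 hcon.2.1 hcon.2.2
        have h5 := h3 (p v).1 hlt.le le_rfl
        rw [PlD1_ht_right hlt] at h5
        linarith
      rcases hu with rfl | rfl | rfl <;> rcases hv with rfl | rfl | rfl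
      · exact absurd hlt (lt_irrefl _)
      · exact hAB
      · exact hAC
      · exact absurd hlt (by linarith)
      · exact absurd hlt (lt_irrefl _)
      · exact absurd hlt (by linarith)
      · exact absurd hlt (by linarith)
      · exact hCB
      · exact absurd hlt (lt_irrefl _)
  refine ⟨F, hI.disc, ?_, ?_⟩
  · intro v
    by_contra hcon
    have h3 := hI.outside v hcon
    have h4 : v ≠ A ∧ v ≠ B ∧ v ≠ C := by
      refine ⟨?_, ?_, ?_⟩ <;>
      · rintro rfl
        exact hcon (Finset.mem_union_left _ (by simp))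
    have h5 := hbel v h4.1 h4.2.1 h4.2.2
    linarith
  · intro u v
    constructor
    · intro huv
      rcases lt_trichotomy (p u).1 (p v).1 with h3 | h3 | h3
      · exact hmain u v huv h3
      · exact absurd (h.xinj h3) huv.ne
      · exact DiscC_symm (hmain v u huv.symm h3)
    · intro huv
      rcases lt_trichotomy (p u).1 (p v).1 with h3 | h3 | h3
      · exact (hI.face u v huv h3).1
      · exact absurd (h.xinj h3) huv.1
      · exact (hI.face v u (DiscC_symm huv) h3).1.symm

end EPG26
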