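import Pool.Agent.W_26e041_h61.PlE

namespace EPG26

open Set

/-- `A, B, C` are the corners of the outer triangle of a drawing -/
structure Outer {V : Type*} (G : SimpleGraph V) (p : V → ℝ × ℝ) (A B C : V) : Prop where
  ccw : 0 < cr (p A) (p B) (p C)
  AB : G.Adj A B
  BC : G.Adj B C
  CA : G.Adj C A
  ins : ∀ v, v ≠ A → v ≠ B → v ≠ C →
    0 < cr (p A) (p B) (p v) ∧ 0 < cr (p B) (p C) (p v) ∧ 0 < cr (p C) (p A) (p v)

theorem PlF1_cr_rot (a b c : ℝ × ℝ) : cr b c a = cr a b c := by unfold cr; ring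

theorem PlF1_cr_swap (a b c : ℝ × ℝ) : cr b a c = - cr a b c := by unfold cr; ring

theorem PlF1_outer_rot {V : Type*} {G : SimpleGraph V} {p : V → ℝ × ℝ} {A B C : V}
    (h : Outer G p A B C) : Outer G p B C A where
  ccw := by rw [PlF1_cr_rot]; exact h.ccw
  AB := h.BC
  BC := h.CA
  CA := h.AB
  ins := fun v h1 h2 h3 =>
    ⟨(h.ins v h3 h1 h2).2.1, (h.ins v h3 h1 h2).2.2, (h.ins v h3 h1 h2).1⟩

/-- the first coordinate of an inner vertex is between those of the corners -/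
theorem PlF1_conv (a b c v : ℝ × ℝ) (h1 : 0 < cr a b v) (h2 : 0 < cr b c v) (h3 : 0 < cr c a v)
    (m : ℝ) (ha : m ≤ a.1) (hb : m ≤ b.1) (hc : m ≤ c.1) : m ≤ v.1 := by
  have hs : cr a b v + cr b c v + cr c a v = cr a b c := by unfold cr; ring
  have hv : cr b c v * a.1 + cr c a v * b.1 + cr a b v * c.1 = cr a b c * v.1 := by
    unfold cr; ring
  have hp : 0 < cr a b c := by rw [← hs]; positivity
  have h4 : cr a b c * m ≤ cr a b c * v.1 := by
    rw [← hv, ← hs]
    nlinarith [mul_le_mul_of_nonneg_left ha h2.le, mul_le_mul_of_nonneg_left hb h3.le,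
      mul_le_mul_of_nonneg_left hc h1.le]
  exact le_of_mul_le_mul_left h4 hp

theorem PlF1_conv' (a b c v : ℝ × ℝ) (h1 : 0 < cr a b v) (h2 : 0 < cr b c v) (h3 : 0 < cr c a v)
    (m : ℝ) (ha : a.1 ≤ m) (hb : b.1 ≤ m) (hc : c.1 ≤ m) : v.1 ≤ m := by
  have hs : cr a b v + cr b c v + cr c a v = cr a b c := by unfold cr; ring
  have hv : cr b c v * a.1 + cr c a v * b.1 + cr a b v * c.1 = cr a b c * v.1 := by
    unfold cr; ring
  have hp : 0 < cr a b c := by rw [← hs]; positivity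
  have h4 : cr a b c * v.1 ≤ cr a b c * m := by
    rw [← hv, ← hs]
    nlinarith [mul_le_mul_of_nonneg_left ha h2.le, mul_le_mul_of_nonneg_left hb h3.le,
      mul_le_mul_of_nonneg_left hc h1.le]
  exact le_of_mul_le_mul_left h4 hp

theorem PlF1_left {V : Type*} {G : SimpleGraph V} {p : V → ℝ × ℝ} {A B C : V}
    (h : Outer G p A B C) (m : ℝ) (ha : m ≤ (p A).1) (hb : m ≤ (p B).1) (hc : m ≤ (p C).1)
    (v : V) : m ≤ (p v).1 := by
  by_cases h1 : v = A
  · rw [h1]; exact ha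
  by_cases h2 : v = B
  · rw [h2]; exact hb
  by_cases h3 : v = C
  · rw [h3]; exact hc
  obtain ⟨i1, i2, i3⟩ := h.ins v h1 h2 h3
  exact PlF1_conv _ _ _ _ i1 i2 i3 m ha hb hc

theorem PlF1_right {V : Type*} {G : SimpleGraph V} {p : V → ℝ × ℝ} {A B C : V}
    (h : Outer G p A B C) (m : ℝ) (ha : (p A).1 ≤ m) (hb : (p B).1 ≤ m) (hc : (p C).1 ≤ m)
    (v : V) : (p v).1 ≤ m := by
  by_cases h1 : v = A
  · rw [h1]; exact ha
  by_cases h2 : v = B
  · rw [h2]; exact hb
  by_cases h3 : v = C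
  · rw [h3]; exact hc
  obtain ⟨i1, i2, i3⟩ := h.ins v h1 h2 h3
  exact PlF1_conv' _ _ _ _ i1 i2 i3 m ha hb hc

/-- the reflection -/
def PlF1_refl : (ℝ × ℝ) ≃ₗ[ℝ] (ℝ × ℝ) where
  toFun z := (z.1, -z.2)
  invFun z := (z.1, -z.2)
  left_inv z := by simp
  right_inv z := by simp
  map_add' z w := by
    ext
    · simp
    · simp; ring
  map_smul' c z := by ext <;> simp

/-- the shear -/
def PlF1_shear (ε : ℝ) : (ℝ × ℝ) ≃ₗ[ℝ] (ℝ × ℝ) where
  toFun z := (z.1 + ε * z.2, z.2)
  invFun z := (z.1 - ε * z.2, z.2)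
  left_inv z := by simp
  right_inv z := by simp
  map_add' z w := by ext <;> simp <;> ring
  map_smul' c z := by ext <;> simp <;> ring

theorem PlF1_cr_refl (a b c : ℝ × ℝ) :
    cr (PlF1_refl a) (PlF1_refl b) (PlF1_refl c) = - cr a b c := by
  simp only [PlF1_refl, LinearEquiv.coe_mk, LinearMap.coe_mk, AddHom.coe_mk, cr]
  ring

theorem PlF1_cr_shear (ε : ℝ) (a b c : ℝ × ℝ) :
    cr (PlF1_shear ε a) (PlF1_shear ε b) (PlF1_shear ε c) = cr a b c := by
  simp only [PlF1_shear, LinearEquiv.coe_mk, LinearMap.coe_mk, AddHom.coe_mk, cr]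
  ring

theorem PlF1_main {V : Type*} [Fintype V] [DecidableEq V] {G : SimpleGraph V}
    {p : V → ℝ × ℝ} {A B C : V} (hm : MaxDrawn G p) (h : Outer G p A B C)
    (hx : Function.Injective fun v => (p v).1) (h1 : (p A).1 ≤ (p B).1)
    (h2 : (p A).1 ≤ (p C).1) :
    ∃ F : Finset (Finset V), Disc [A, B, C] F ∧ (∀ v, v ∈ verts [A, B, C] F) ∧
      ∀ u v, G.Adj u v ↔ AdjF F u v := by
  rcases le_total (p C).1 (p B).1 with h3 | h3
  · have hS : Setup G p A B C :=
      { max := hm, xinj := hx, left := PlF1_left h _ le_rfl h1 h2,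
        right := PlF1_right h _ h1 le_rfl h3, top := h.ccw, AB := h.AB, BC := h.BC, CA := h.CA,
        ins := h.ins }
    obtain ⟨F, hF, hv, ha⟩ := sweep hS
    refine ⟨F, ?_, fun v => ?_, ha⟩
    · have h4 : Disc ([A, C, B] : List V).reverse F := hF.reverse
      have h5 : Disc [B, C, A] F := h4
      have h6 : Disc [C, A, B] F := h5.rotate
      exact h6.rotate
    · have := hv v
      simp only [verts, List.toFinset_cons, List.toFinset_nil, Finset.mem_union,
        Finset.mem_insert] at this ⊢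
      tauto
  · have hS : Setup G (fun v => PlF1_refl (p v)) A C B :=
      { max := hm.map PlF1_refl
        xinj := hx
        left := PlF1_left h _ le_rfl h1 h2
        right := PlF1_right h _ h2 h3 le_rfl
        top := by
          show 0 < cr (PlF1_refl (p A)) (PlF1_refl (p C)) (PlF1_refl (p B))
          rw [PlF1_cr_refl, ← PlF1_cr_swap, PlF1_cr_rot, PlF1_cr_rot]
          have := h.ccw
          unfold cr at this ⊢
          linarith
        AB := h.CA.symm
        BC := h.BC.symm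
        CA := h.AB.symm
        ins := by
          intro v h4 h5 h6
          obtain ⟨i1, i2, i3⟩ := h.ins v h4 h6 h5
          refine ⟨?_, ?_, ?_⟩
          · show 0 < cr (PlF1_refl (p A)) (PlF1_refl (p C)) (PlF1_refl (p v))
            rw [PlF1_cr_refl, ← PlF1_cr_swap]; exact i3
          · show 0 < cr (PlF1_refl (p C)) (PlF1_refl (p B)) (PlF1_refl (p v))
            rw [PlF1_cr_refl, ← PlF1_cr_swap]; exact i2
          · show 0 < cr (PlF1_refl (p B)) (PlF1_refl (p A)) (PlF1_refl (p v))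
            rw [PlF1_cr_refl, ← PlF1_cr_swap]; exact i1 }
    exact sweep hS

theorem PlF1_rotate_concl {V : Type*} [DecidableEq V] {G : SimpleGraph V} {A B C : V}
    (h : ∃ F : Finset (Finset V), Disc [B, C, A] F ∧ (∀ v, v ∈ verts [B, C, A] F) ∧
      ∀ u v, G.Adj u v ↔ AdjF F u v) :
    ∃ F : Finset (Finset V), Disc [A, B, C] F ∧ (∀ v, v ∈ verts [A, B, C] F) ∧
      ∀ u v, G.Adj u v ↔ AdjF F u v := by
  obtain ⟨F, hF, hv, ha⟩ := h
  refine ⟨F, ?_, fun v => ?_, ha⟩
  · have h6 : Disc [C, A, B] F := hF.rotate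
    exact h6.rotate
  · have := hv v
    simp only [verts, List.toFinset_cons, List.toFinset_nil, Finset.mem_union,
      Finset.mem_insert] at this ⊢
    tauto

theorem PlF1_allx {V : Type*} [Fintype V] [DecidableEq V] {G : SimpleGraph V}
    {p : V → ℝ × ℝ} {A B C : V} (hm : MaxDrawn G p) (h : Outer G p A B C)
    (hx : Function.Injective fun v => (p v).1) :
    ∃ F : Finset (Finset V), Disc [A, B, C] F ∧ (∀ v, v ∈ verts [A, B, C] F) ∧
      ∀ u v, G.Adj u v ↔ AdjF F u v := by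
  by_cases h1 : (p A).1 ≤ (p B).1 ∧ (p A).1 ≤ (p C).1
  · exact PlF1_main hm h hx h1.1 h1.2
  by_cases h2 : (p B).1 ≤ (p C).1 ∧ (p B).1 ≤ (p A).1
  · exact PlF1_rotate_concl (PlF1_main hm (PlF1_outer_rot h) hx h2.1 h2.2)
  have h3 : (p C).1 ≤ (p A).1 ∧ (p C).1 ≤ (p B).1 := by
    rw [not_and_or, not_le, not_le] at h1 h2
    constructor
    · rcases h1 with h1 | h1
      · rcases h2 with h2 | h2 <;> linarith
      · exact h1.le
    · rcases h2 with h2 | h2
      · exact h2.le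
      · rcases h1 with h1 | h1 <;> linarith
  exact PlF1_rotate_concl (PlF1_rotate_concl
    (PlF1_main hm (PlF1_outer_rot (PlF1_outer_rot h)) hx h3.1 h3.2))

/-- Reduction to `Setup` by a linear map: for all but finitely many `ε` the map
`(x, y) ↦ (x + ε y, y)` (determinant 1) makes the first coordinates of the `p v` different. The vertex
with smallest and the vertex with largest first coordinate are corners (a vertex `v` strictly inside the
triangle is a convex combination of the corners with positive coefficients). Rename the corners (the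
hypotheses are invariant under cyclic rotation; `A` leftmost): if `B` is rightmost then `Setup` holds for
`A, B, C`. If `C` is rightmost, then compose with the reflection `(x, y) ↦ (x, -y)`, which changes the
sign of `cr`: `Setup` holds for `A, C, B` (`cr` of the reflected points: `0 < cr A C B`). Then `sweep`, and
`Disc.rotate`, `Disc.reverse` for the order of the three corners. -/
theorem disc_of_outer {V : Type*} [Fintype V] [DecidableEq V] {G : SimpleGraph V}
    {p : V → ℝ × ℝ} {A B C : V} (hm : MaxDrawn G p) (h : Outer G p A B C) :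
    ∃ F : Finset (Finset V), Disc [A, B, C] F ∧ (∀ v, v ∈ verts [A, B, C] F) ∧
      ∀ u v, G.Adj u v ↔ AdjF F u v := by
  obtain ⟨ε, hε⟩ := (Set.Finite.infinite_compl (α := ℝ)
    (s := Set.range fun z : V × V => ((p z.2).1 - (p z.1).1) / ((p z.1).2 - (p z.2).2))
    (Set.finite_range _)).nonempty
  have hx : Function.Injective fun v => (PlF1_shear ε (p v)).1 := by
    intro u v huv
    by_contra hne
    have h1 : (p u).1 + ε * (p u).2 = (p v).1 + ε * (p v).2 := huv
    by_cases h2 : (p u).2 = (p v).2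
    · apply hne
      apply hm.1.inj
      rw [h2] at h1
      exact Prod.ext (by linarith) h2
    · apply hε
      refine ⟨(u, v), ?_⟩
      have h3 : (p u).2 - (p v).2 ≠ 0 := sub_ne_zero.2 h2
      show ((p v).1 - (p u).1) / ((p u).2 - (p v).2) = ε
      rw [div_eq_iff h3]
      linarith
  have hO : Outer G (fun v => PlF1_shear ε (p v)) A B C :=
    { ccw := by
        show 0 < cr (PlF1_shear ε (p A)) (PlF1_shear ε (p B)) (PlF1_shear ε (p C))
        rw [PlF1_cr_shear]; exact h.ccw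
      AB := h.AB
      BC := h.BC
      CA := h.CA
      ins := by
        intro v h1 h2 h3
        have h4 := h.ins v h1 h2 h3
        refine ⟨?_, ?_, ?_⟩
        · show 0 < cr (PlF1_shear ε (p A)) (PlF1_shear ε (p B)) (PlF1_shear ε (p v))
          rw [PlF1_cr_shear]; exact h4.1
        · show 0 < cr (PlF1_shear ε (p B)) (PlF1_shear ε (p C)) (PlF1_shear ε (p v))
          rw [PlF1_cr_shear]; exact h4.2.1
        · show 0 < cr (PlF1_shear ε (p C)) (PlF1_shear ε (p A)) (PlF1_shear ε (p v))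
          rw [PlF1_cr_shear]; exact h4.2.2 }
  exact PlF1_allx (hm.map (PlF1_shear ε)) hO hx

/-- the corners of a big triangle -/
def PlF1_P (K : ℝ) (i : Fin 3) : ℝ × ℝ :=
  if i = 0 then (-(8 * K), -(4 * K)) else if i = 1 then (8 * K, -(4 * K)) else (0, 8 * K)

theorem PlF1_P0 (K : ℝ) : PlF1_P K 0 = (-(8 * K), -(4 * K)) := by simp [PlF1_P]
theorem PlF1_P1 (K : ℝ) : PlF1_P K 1 = (8 * K, -(4 * K)) := by simp [PlF1_P]
theorem PlF1_P2 (K : ℝ) : PlF1_P K 2 = (0, 8 * K) := by simp [PlF1_P]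

/-- the box -/
def PlF1_box (K : ℝ) (z : ℝ × ℝ) : Prop := |z.1| < K ∧ |z.2| < K

theorem PlF1_box_cr {K : ℝ} {z : ℝ × ℝ} (hz : PlF1_box K z) :
    0 < cr (PlF1_P K 0) (PlF1_P K 1) z ∧ 0 < cr (PlF1_P K 1) (PlF1_P K 2) z ∧
      0 < cr (PlF1_P K 2) (PlF1_P K 0) z := by
  obtain ⟨h1, h2⟩ := hz
  rw [abs_lt] at h1 h2
  have hK : 0 < K := by linarith
  rw [PlF1_P0, PlF1_P1, PlF1_P2]
  unfold cr
  refine ⟨?_, ?_, ?_⟩
  · have : (8 * K - -(8 * K)) * (z.2 - -(4 * K)) - (-(4 * K) - -(4 * K)) * (z.1 - -(8 * K))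
        = 16 * K * (z.2 + 4 * K) := by ring
    show 0 < (8 * K - -(8 * K)) * (z.2 - -(4 * K)) - (-(4 * K) - -(4 * K)) * (z.1 - -(8 * K))
    rw [this]
    have : 0 < z.2 + 4 * K := by linarith
    positivity
  · have : (0 - 8 * K) * (z.2 - -(4 * K)) - (8 * K - -(4 * K)) * (z.1 - 8 * K)
        = K * (64 * K - 8 * z.2 - 12 * z.1) := by ring
    show 0 < (0 - 8 * K) * (z.2 - -(4 * K)) - (8 * K - -(4 * K)) * (z.1 - 8 * K)
    rw [this]
    have : 0 < 64 * K - 8 * z.2 - 12 * z.1 := by linarith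
    positivity
  · have : (-(8 * K) - 0) * (z.2 - 8 * K) - (-(4 * K) - 8 * K) * (z.1 - 0)
        = K * (64 * K - 8 * z.2 + 12 * z.1) := by ring
    show 0 < (-(8 * K) - 0) * (z.2 - 8 * K) - (-(4 * K) - 8 * K) * (z.1 - 0)
    rw [this]
    have : 0 < 64 * K - 8 * z.2 + 12 * z.1 := by linarith
    positivity

theorem PlF1_tri_cr {K : ℝ} (hK : 0 < K) :
    0 < cr (PlF1_P K 0) (PlF1_P K 1) (PlF1_P K 2) := by
  rw [PlF1_P0, PlF1_P1, PlF1_P2]
  unfold cr
  have : (8 * K - -(8 * K)) * (8 * K - -(4 * K)) - (-(4 * K) - -(4 * K)) * (0 - -(8 * K))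
      = 192 * K * K := by ring
  show 0 < (8 * K - -(8 * K)) * (8 * K - -(4 * K)) - (-(4 * K) - -(4 * K)) * (0 - -(8 * K))
  rw [this]
  positivity

theorem PlF1_seg_cr {a b z : ℝ × ℝ} (h : z ∈ segment ℝ a b) : cr a b z = 0 := by
  obtain ⟨s, t, hs, ht, hst, rfl⟩ := h
  have : s = 1 - t := by linarith
  subst this
  unfold cr
  simp only [Prod.fst_add, Prod.snd_add, Prod.smul_fst, Prod.smul_snd, smul_eq_mul]
  ring

theorem PlF1_seg_box {K : ℝ} {a b z : ℝ × ℝ} (ha : PlF1_box K a) (hb : PlF1_box K b)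
    (h : z ∈ segment ℝ a b) : PlF1_box K z := by
  obtain ⟨s, t, hs, ht, hst, rfl⟩ := h
  obtain ⟨a1, a2⟩ := ha
  obtain ⟨b1, b2⟩ := hb
  rw [abs_lt] at a1 a2 b1 b2
  have hs' : s = 1 - t := by linarith
  subst hs'
  unfold PlF1_box
  simp only [Prod.fst_add, Prod.snd_add, Prod.smul_fst, Prod.smul_snd, smul_eq_mul]
  rw [abs_lt, abs_lt]
  have key : ∀ x y : ℝ, -K < x → x < K → -K < y → y < K →
      -K < (1 - t) * x + t * y ∧ (1 - t) * x + t * y < K := by
    intro x y hx1 hx2 hy1 hy2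
    rcases lt_or_eq_of_le ht with h0 | h0
    · constructor
      · nlinarith [mul_lt_mul_of_pos_left hy1 h0, mul_le_mul_of_nonneg_left hx1.le hs]
      · nlinarith [mul_lt_mul_of_pos_left hy2 h0, mul_le_mul_of_nonneg_left hx2.le hs]
    · rw [← h0]
      constructor <;> linarith
  exact ⟨key _ _ a1.1 a1.2 b1.1 b1.2, key _ _ a2.1 a2.2 b2.1 b2.2⟩

/-- a side of the triangle contains no point of the box and not the third corner -/
theorem PlF1_side {K : ℝ} (hK : 0 < K) {i j : Fin 3} (hij : i ≠ j) {z : ℝ × ℝ}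
    (h : z ∈ segment ℝ (PlF1_P K i) (PlF1_P K j)) :
    ¬ PlF1_box K z ∧ ∀ k, k ≠ i → k ≠ j → z ≠ PlF1_P K k := by
  have h0 := PlF1_seg_cr h
  have ht := PlF1_tri_cr hK
  constructor
  · intro hb
    obtain ⟨b1, b2, b3⟩ := PlF1_box_cr hb
    have s1 := PlF1_cr_swap (PlF1_P K 0) (PlF1_P K 1) z
    have s2 := PlF1_cr_swap (PlF1_P K 1) (PlF1_P K 2) z
    have s3 := PlF1_cr_swap (PlF1_P K 2) (PlF1_P K 0) z
    fin_cases i <;> fin_cases j <;> simp at hij h0 <;> linarith
  · rintro k hki hkj rfl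
    have r1 := PlF1_cr_rot (PlF1_P K 0) (PlF1_P K 1) (PlF1_P K 2)
    have r2 := PlF1_cr_rot (PlF1_P K 1) (PlF1_P K 2) (PlF1_P K 0)
    have s1 := PlF1_cr_swap (PlF1_P K 0) (PlF1_P K 1) (PlF1_P K 2)
    have s2 := PlF1_cr_swap (PlF1_P K 1) (PlF1_P K 2) (PlF1_P K 0)
    have s3 := PlF1_cr_swap (PlF1_P K 2) (PlF1_P K 0) (PlF1_P K 1)
    fin_cases i <;> fin_cases j <;> fin_cases k <;> simp at hij hki hkj h0 <;> linarith

theorem PlF1_P_not_box {K : ℝ} (hK : 0 < K) (i : Fin 3) : ¬ PlF1_box K (PlF1_P K i) := by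
  rintro ⟨-, h2⟩
  rw [abs_lt] at h2
  fin_cases i
  · have h3 : (PlF1_P K 0).2 = -(4 * K) := by rw [PlF1_P0]
    simp [h3] at h2
    linarith [h2.1]
  · have h3 : (PlF1_P K 1).2 = -(4 * K) := by rw [PlF1_P1]
    simp [h3] at h2
    linarith [h2.1]
  · have h3 : (PlF1_P K 2).2 = 8 * K := by rw [PlF1_P2]
    simp [h3] at h2
    linarith [h2.2]

theorem PlF1_P_inj {K : ℝ} (hK : 0 < K) {i j : Fin 3} (h : PlF1_P K i = PlF1_P K j) : i = j := by
  by_contra hij
  have key : ∀ i j : Fin 3, ∃ k : Fin 3, k ≠ i ∧ k ≠ j := by decide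
  obtain ⟨k, hki, hkj⟩ := key i j
  have h1 := (PlF1_side hK hki (z := PlF1_P K i) (right_mem_segment ℝ _ _)).2 j hkj.symm
    (fun e => hij e.symm)
  exact h1 h

/-- Adding a big outer triangle: choose `M` larger than all absolute values of coordinates of the
`p v` and the corners `(-8M-8, -4M-4)`, `(8M+8, -4M-4)`, `(0, 8M+8)` (or similar). The graph on
`V ⊕ Fin 3` has the edges of `G` (between `inl`'s) and the three edges between the `inr`'s; the
edges of `G` lie in the box of radius `M`, strictly inside the triangle. -/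
theorem exists_outer {V : Type*} [Fintype V] {G : SimpleGraph V} {p : V → ℝ × ℝ}
    (h : Drawn G p) : ∃ (H : SimpleGraph (V ⊕ Fin 3)) (q : V ⊕ Fin 3 → ℝ × ℝ), Drawn H q ∧
      Outer H q (Sum.inr 0) (Sum.inr 1) (Sum.inr 2) ∧ (∀ v, q (Sum.inl v) = p v) ∧
      ∀ u v, H.Adj (Sum.inl u) (Sum.inl v) ↔ G.Adj u v := by
  classical
  obtain ⟨K, hK⟩ : ∃ K : ℝ, 0 < K ∧ ∀ v, PlF1_box K (p v) := by
    refine ⟨1 + ∑ v, (|(p v).1| + |(p v).2|), ?_, fun v => ?_⟩
    · have : 0 ≤ ∑ v, (|(p v).1| + |(p v).2|) := Finset.sum_nonneg fun v _ => by positivity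
      linarith
    · have h1 : |(p v).1| + |(p v).2| ≤ ∑ v, (|(p v).1| + |(p v).2|) :=
        Finset.single_le_sum (f := fun v => |(p v).1| + |(p v).2|) (fun v _ => by positivity)
          (Finset.mem_univ v)
      have h2 := abs_nonneg (p v).1
      have h3 := abs_nonneg (p v).2
      exact ⟨by linarith, by linarith⟩
  obtain ⟨hK0, hbox⟩ := hK
  let H : SimpleGraph (V ⊕ Fin 3) :=
    { Adj := fun x y => (∃ u v, x = Sum.inl u ∧ y = Sum.inl v ∧ G.Adj u v) ∨
        ∃ i j, x = Sum.inr i ∧ y = Sum.inr j ∧ i ≠ j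
      symm := ⟨by
        rintro x y (⟨u, v, rfl, rfl, huv⟩ | ⟨i, j, rfl, rfl, hij⟩)
        · exact Or.inl ⟨v, u, rfl, rfl, huv.symm⟩
        · exact Or.inr ⟨j, i, rfl, rfl, hij.symm⟩⟩
      loopless := ⟨by
        rintro x (⟨u, v, rfl, h1, huv⟩ | ⟨i, j, rfl, h1, hij⟩)
        · obtain rfl := Sum.inl_injective h1
          exact huv.ne rfl
        · exact hij (Sum.inr_injective h1)⟩ }
  let q : V ⊕ Fin 3 → ℝ × ℝ := Sum.elim p (PlF1_P K)
  have hq1 : ∀ v, q (Sum.inl v) = p v := fun v => rfl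
  have hq2 : ∀ i, q (Sum.inr i) = PlF1_P K i := fun i => rfl
  have hadj : ∀ i j : Fin 3, i ≠ j → H.Adj (Sum.inr i) (Sum.inr j) :=
    fun i j hij => Or.inr ⟨i, j, rfl, rfl, hij⟩
  refine ⟨H, q, ⟨?_, ?_, ?_⟩, ⟨?_, hadj 0 1 (by decide), hadj 1 2 (by decide),
    hadj 2 0 (by decide), ?_⟩, hq1, fun u v => ?_⟩
  · rintro (u | i) (v | j) huv
    · rw [hq1, hq1] at huv
      rw [h.inj huv]
    · rw [hq1, hq2] at huv
      exact (PlF1_P_not_box hK0 j (huv ▸ hbox u)).elim
    · rw [hq1, hq2] at huv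
      exact (PlF1_P_not_box hK0 i (huv ▸ hbox v)).elim
    · rw [hq2, hq2] at huv
      rw [PlF1_P_inj hK0 huv]
  · rintro x y w (⟨u, v, rfl, rfl, huv⟩ | ⟨i, j, rfl, rfl, hij⟩) hwx hwy hw
    · rw [hq1, hq1] at hw
      rcases w with w | k
      · rw [hq1] at hw
        exact h.pt u v w huv (fun e => hwx (by rw [e])) (fun e => hwy (by rw [e])) hw
      · rw [hq2] at hw
        exact PlF1_P_not_box hK0 k (PlF1_seg_box (hbox u) (hbox v) hw)
    · rw [hq2, hq2] at hw
      have h1 := PlF1_side hK0 hij hw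
      rcases w with w | k
      · exact h1.1 (hbox w)
      · exact h1.2 k (fun e => hwx (by rw [e])) (fun e => hwy (by rw [e])) rfl
  · rintro x y x' y' (⟨u, v, rfl, rfl, huv⟩ | ⟨i, j, rfl, rfl, hij⟩)
      (⟨u', v', rfl, rfl, huv'⟩ | ⟨i', j', rfl, rfl, hij'⟩) n1 n2 n3 n4
    · exact h.cross u v u' v' huv huv' (fun e => n1 (by rw [e])) (fun e => n2 (by rw [e]))
        (fun e => n3 (by rw [e])) (fun e => n4 (by rw [e]))
    · rw [Set.disjoint_left]
      intro z hz1 hz2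
      exact (PlF1_side hK0 hij' hz2).1 (PlF1_seg_box (hbox u) (hbox v) hz1)
    · rw [Set.disjoint_left]
      intro z hz1 hz2
      exact (PlF1_side hK0 hij hz1).1 (PlF1_seg_box (hbox u') (hbox v') hz2)
    · exfalso
      have m1 : i ≠ i' := fun e => n1 (by rw [e])
      have m2 : i ≠ j' := fun e => n2 (by rw [e])
      have m3 : j ≠ i' := fun e => n3 (by rw [e])
      have m4 : j ≠ j' := fun e => n4 (by rw [e])
      omega
  · exact PlF1_tri_cr hK0
  · rintro (v | k) h0 h1 h2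
    · exact PlF1_box_cr (hbox v)
    · exfalso
      have m1 : k ≠ 0 := fun e => h0 (by rw [e])
      have m2 : k ≠ 1 := fun e => h1 (by rw [e])
      have m3 : k ≠ 2 := fun e => h2 (by rw [e])
      omega
  · constructor
    · rintro (⟨u', v', h1, h2, huv⟩ | ⟨i, j, h1, h2, hij⟩)
      · obtain rfl := Sum.inl_injective h1
        obtain rfl := Sum.inl_injective h2
        exact huv
      · exact (Sum.inl_ne_inr h1).elim
    · intro huv
      exact Or.inl ⟨u, v, rfl, rfl, huv⟩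

end EPG26
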