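import Mathlib

/-!
Planar graphs: drawings in the plane with arbitrary simple arcs.
-/

namespace EPG26

/-- `A` is a simple arc in the plane with the ends `a` and `b` -/
def IsArc (A : Set (ℝ × ℝ)) (a b : ℝ × ℝ) : Prop :=
  ∃ f : ℝ → ℝ × ℝ, ContinuousOn f (Set.Icc 0 1) ∧ Set.InjOn f (Set.Icc 0 1) ∧ f 0 = a ∧
    f 1 = b ∧ A = f '' Set.Icc 0 1

/-- `G` is planar: it has a drawing in the plane with distinct points for the vertices and simple arcs
for the edges, such that the arcs pass through no other vertices and different arcs meet only in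
vertices. -/
def PlanarTop {V : Type*} (G : SimpleGraph V) : Prop :=
  ∃ (p : V → ℝ × ℝ) (γ : Sym2 V → Set (ℝ × ℝ)), Function.Injective p ∧
    (∀ u v, G.Adj u v → IsArc (γ s(u, v)) (p u) (p v)) ∧
    (∀ u v w, G.Adj u v → p w ∈ γ s(u, v) → w = u ∨ w = v) ∧
    ∀ u v x y, G.Adj u v → G.Adj x y → s(u, v) ≠ s(x, y) →
      ∀ z ∈ γ s(u, v), z ∈ γ s(x, y) → ∃ w, z = p w

end EPG26
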