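import Pool.Agent.W_26e041_h61.CoreD

/-!
Stages: the region between the two lines.
-/

namespace EPG26

variable {V : Type*} [DecidableEq V]

/-- the data of a line, `nr` is the end of the part of the line covered by `ow` and `w` which starts
at `R` -/
structure Ln (V : Type*) where
  ow : V
  Λ : ℚ
  lc : ℚ
  c0 : ℚ
  e : ℚ
  R : ℚ
  lo : ℚ
  hi : ℚ
  s0 : ℚ
  s1 : ℚ
  nr : ℚ

/-- the data of a stage: `z` with a column `Xz`, `d` with a row `Y0` from (left of) `h` to its column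
`Xd`, between them the pending black vertices `L`; `w` with its column `Xw` up to `Top`; `al` are the
vertices between `z` and `w` on the line `l1`, `be` the vertices between `d` and `w` on the line
`l2`; the column of `z` is clean between `t0` and `t1` if `zt = true`. -/
structure SD (V : Type*) where
  z : V
  d : V
  w : V
  Xz : ℚ
  h : ℚ
  A : ℚ
  B : ℚ
  Y0 : ℚ
  Xd : ℚ
  Xw : ℚ
  Top : ℚ
  t0 : ℚ
  t1 : ℚ
  zt : Bool
  L : List (Rec V)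
  al : List V
  be : List V
  l1 : Ln V
  l2 : Ln V

/-- the boundary of the region of a stage -/
def SD.bd (s : SD V) : List V := rv s.L ++ [s.d] ++ s.be ++ [s.w] ++ s.al.reverse ++ [s.z]

/-- the faces to be filled in a stage -/
def SD.fc (s : SD V) (F : Finset (Finset V)) : Finset (Finset V) :=
  F ∪ (fanF s.l1.ow (s.z :: s.al ++ [s.w]) ∪ fanF s.l2.ow (s.d :: s.be ++ [s.w]))

/-- the vertices that may be drawn in a stage -/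
def SD.K (J : Finset V → Finset V) (s : SD V) (F : Finset (Finset V)) : Set V :=
  {v | v ∈ verts s.bd F ∧ v ∉ s.bd ∨ v ∈ rv s.L ∨ v = s.z ∨ v = s.d ∨ v ∈ s.al ∨ v ∈ s.be ∨
    ∃ f ∈ s.fc F, v ∈ J f}

/-- a line of a stage, with last vertex `v`: `LineOK` and the windows of `w` at `R` -/
structure LG (Γ : Dr V) (D : Cov) (v w : V) (Xw B : ℚ) (l : Ln V) : Prop where
  ok : LineOK Γ D l.ow l.Λ v l.lc l.c0 l.e l.R l.lo l.hi l.s0 l.s1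
  eX : l.e < Xw
  XR : Xw ≤ l.R
  sB : l.s1 ≤ B
  nr : l.R < l.nr
  row : SW Γ D {l.ow, w} false l.Λ l.R l.nr
  col : SW Γ D {w} true l.R l.Λ l.s1
  ext : Ext l.Λ l.e (Γ v)

/-- geometric conditions of a stage -/
structure SG (Γ : Dr V) (U : Bool → Finset ℚ) (D : Cov) (s : SD V) : Prop where
  o1 : s.Xz < s.h
  o2 : s.h ≤ s.A
  o3 : s.A < s.Xd
  o4 : s.Xd < s.Xw
  o5 : s.Y0 < s.Top
  ordL : OrdL s.B s.L s.Y0
  zcol : SW Γ D {s.z} true s.Xz s.B (topc s.L s.Y0)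
  top : SW Γ D {topv s.L s.d} false (topc s.L s.Y0) s.Xz s.h
  black : ∀ r ∈ s.L, ∃ q ≤ s.A, Pend PI Γ U D false q s.Xw r
  pl : ∀ r ∈ s.L, r.pl = true
  bbase : SW Γ D {s.d} false s.Y0 s.A s.Xd
  YD : ∀ x, x ∈ D false s.Y0
  row : ∀ x, s.Xd ≤ x → x ≤ s.Xw → ∀ v, x ∉ Γ v false s.Y0
  dcol : SW Γ D {s.d} true s.Xd s.B s.Y0
  wcol : SW Γ D {s.w} true s.Xw s.B s.Top
  line1 : LG Γ D s.z s.w s.Xw s.B s.l1
  line2 : LG Γ D s.d s.w s.Xw s.B s.l2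
  e1 : s.l1.e < s.Xd
  lc2 : s.l2.lc = s.Xd
  ne : s.l1.Λ ≠ s.l2.Λ
  ztop : s.zt = true → s.Y0 ≤ s.t0 ∧ s.t0 < s.t1 ∧ s.t1 ≤ s.Top ∧ SW Γ D {s.z} true s.Xz s.t0 s.t1

/-- combinatorial conditions of a stage -/
structure SC (G : SimpleGraph V) (T : Finset V) (Fs : Finset (Finset V))
    (J : Finset V → Finset V) (Ex : V → V → Prop) (Γ : Dr V) (s : SD V)
    (F : Finset (Finset V)) : Prop where
  reg : Reg T Fs s.bd F
  chB : Chless F (rv s.L ++ [s.d])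
  chA : Chless F (s.z :: s.al ++ [s.w])
  chD : Chless F (s.d :: s.be ++ [s.w])
  z1 : ∀ v ∈ (rv s.L ++ [s.d]).tail, ¬ AdjF F s.z v
  z2 : ∀ c ∈ verts s.bd F, c ∉ s.bd → AdjF F s.z c → ∀ v ∈ (rv s.L ++ [s.d]).tail, ¬ AdjF F c v
  zb : s.zt = false → ∀ v ∈ s.be, ¬ AdjF F s.z v
  ln1 : List.IsChain (fun p q => ({s.l1.ow, p, q} : Finset V) ∈ Fs) (s.z :: s.al ++ [s.w])
  ln2 : List.IsChain (fun p q => ({s.l2.ow, p, q} : Finset V) ∈ Fs) (s.d :: s.be ++ [s.w])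
  dj1 : Disjoint F (fanF s.l1.ow (s.z :: s.al ++ [s.w]))
  dj2 : Disjoint F (fanF s.l2.ow (s.d :: s.be ++ [s.w]))
  dj3 : Disjoint (fanF s.l1.ow (s.z :: s.al ++ [s.w])) (fanF s.l2.ow (s.d :: s.be ++ [s.w]))
  nd : (s.l1.ow :: s.l2.ow :: s.bd).Nodup
  ow1 : s.l1.ow ∉ verts s.bd F
  ow2 : s.l2.ow ∉ verts s.bd F
  und : ∀ v, v ∈ verts s.bd F ∧ v ∉ s.bd ∨ v ∈ s.al ∨ v ∈ s.be ∨ (∃ f ∈ s.fc F, v ∈ J f) →
    Undrawn Γ v
  rL : List.IsChain (Rz Ex Γ) (rv s.L ++ [s.d])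
  rz2 : Rz Ex Γ s.z (topv s.L s.d)
  lk : s.be ≠ [] → s.L ≠ [] → TCh s.L s.Y0 ∧ ∃ l₀ l₁, l₀ < l₁ ∧ l₁ ≤ s.A ∧
    Solo Γ {lastv s.L s.d, s.d} false s.Y0 l₀ l₁

/-- everything of the stage can be finished -/
def SDone (G : SimpleGraph V) (J : Finset V → Finset V) (Ex : V → V → Prop) (Γ : Dr V)
    (U : Bool → Finset ℚ) (D : Cov) (s : SD V) (F : Finset (Finset V)) : Prop :=
  ∃ Γ' U', Step G Γ U D (s.K J F) Γ' U' ∧ (∀ v ∈ s.K J F, IsPath3 (Γ' v)) ∧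
    (∀ f ∈ s.fc F, Filled G Γ' (J f)) ∧
    ∀ f ∈ s.fc F, ∀ p ∈ f, ∀ q ∈ f, p ≠ q → Rz Ex Γ' p q

end EPG26
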