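import Pool.Agent.W_26e041_h22.StageK

/-!
The last stage: no edges between the two lines are left.
-/

namespace EPG26

variable {V : Type*} [DecidableEq V]

/-- all positions of the row `Λ` -/
def StageB_row (Λ : ℚ) : Cov := fun o l => {_x | o = false ∧ l = Λ}

/-- `LineOK.join` at the end of the line, inside the allowed set. -/
theorem StageB_join {G : SimpleGraph V} {Γ : Dr V} {U : Bool → Finset ℚ} {D : Cov}
    {ow v w : V} {Λ lc c0 e R lo hi s0 s1 nr : ℚ} {J : Finset V} (hw : Wd G Γ U) (hD : Adm U D)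
    (h : LineOK Γ D ow Λ v lc c0 e R lo hi s0 s1) (hvw : G.Adj v w) (hvo : G.Adj v ow)
    (hnr : R < nr) (hrow : SW Γ D {ow, w} false Λ R nr) (hcol : SW Γ D {w} true R s0 s1)
    (hJ : ∀ p ∈ J, Undrawn Γ p ∧ p ≠ v ∧ p ≠ w ∧ p ≠ ow) (hf : FillT G {v, w, ow} J) :
    ∃ Γ' U' s y₁, e ≤ s ∧ s0 < y₁ ∧ y₁ < s1 ∧
      Step G Γ U (D ⊓ (nl U ⊔ StageB_row Λ ⊔ seg true lc s0 y₁ ⊔ seg true R s0 y₁))
        {p | p = v ∨ p ∈ J} Γ' U' ∧
      Γ' v = Γ v ⊔ hseg false Λ e s ∧ Filled G Γ' J ∧ Ov Γ' v w := by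
  obtain ⟨Γ', U', s, x₁, y₁, h1, h2, h3, h4, h5, h6, h7, h8, h9, h10, -⟩ :=
    LineOK.join (m := R) (nr := nr) (J := J) hw h hvw hvo h.h5 le_rfl le_rfl hnr hcol.solo
      hrow.solo hJ hf
  have hc0s : c0 ≤ s := (h.h4.trans (h.h5.trans h1)).le
  refine ⟨Γ', U', s, y₁, (h.h5.trans h1).le, h5, h6, h7.weaken ?_ (fun _ hq => hq), h8, h9, h10⟩
  rintro o l x ((((h11 | h11) | h11) | h11) | h11)
  · exact ⟨hD o l h11, Or.inl (Or.inl (Or.inl h11))⟩
  · obtain ⟨rfl, rfl, h12, h13⟩ := (LineA_mem h3.le).1 h11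
    exact ⟨(h.res x h12 (h13.trans h4)).1, Or.inl (Or.inl (Or.inr ⟨rfl, rfl⟩))⟩
  · obtain ⟨rfl, rfl, h12, h13⟩ := (LineA_mem hc0s).1 h11
    refine ⟨?_, Or.inl (Or.inl (Or.inr ⟨rfl, rfl⟩))⟩
    rcases lt_or_ge x e with h14 | h14
    · exact (h.zone x h12 h14).1
    · rcases le_or_gt x R with h15 | h15
      · exact (h.free x h14 h15).1
      · exact (hrow x h15 (h13.trans h2)).1
  · refine ⟨?_, Or.inl (Or.inr h11)⟩
    obtain ⟨rfl, rfl, h12, h13⟩ := (LineA_mem h5.le).1 h11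
    exact (h.strip x h12 (h13.trans h6)).1
  · refine ⟨?_, Or.inr h11⟩
    obtain ⟨rfl, rfl, h12, h13⟩ := (LineA_mem h5.le).1 h11
    exact (hcol x h12 (h13.trans h6)).1

/-- a smaller strip -/
theorem StageB_strip {Γ : Dr V} {D : Cov} {ow v : V} {Λ lc c0 e R lo hi s0 s1 t0 t1 : ℚ}
    (h : LineOK Γ D ow Λ v lc c0 e R lo hi s0 s1) (h0 : s0 ≤ t0) (h1 : t0 < t1) (h2 : t1 ≤ s1) :
    LineOK Γ D ow Λ v lc c0 e R lo hi t0 t1 :=
  ⟨h.h1, h.h2, h.h3, h.h4, h.h5, h.h6.trans h0, h1, h.zone, h.free, h.res, h.strip.sub h0 h2⟩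

/-- a disjoint pair of strips -/
theorem StageB_cut {s0 s1 t : ℚ} (h : s0 < s1) : ∃ t1, s0 < t1 ∧ t1 ≤ s1 ∧ (t1 ≤ t ∨ t ≤ s0) := by
  rcases le_or_gt t s0 with h1 | h1
  · exact ⟨s1, h, le_rfl, Or.inr h1⟩
  · exact ⟨min s1 t, lt_min h h1, min_le_left _ _, Or.inl (min_le_right _ _)⟩

omit [DecidableEq V] in
theorem StageB_rev (s : SD V) : s.bd.reverse =
    (s.z :: s.al ++ [s.w]) ++ (s.be.reverse ++ s.d :: (rv s.L).reverse) := by
  simp [SD.bd]

theorem StageB_nd {G : SimpleGraph V} {T : Finset V} {Fs : Finset (Finset V)}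
    {J : Finset V → Finset V} {Ex : V → V → Prop} {Γ : Dr V} {s : SD V} {F : Finset (Finset V)}
    (hS : SC G T Fs J Ex Γ s F) : s.l1.ow ≠ s.l2.ow ∧ s.l1.ow ∉ s.bd ∧ s.l2.ow ∉ s.bd ∧
      s.bd.Nodup ∧ (s.z :: s.al ++ [s.w]).Nodup := by
  have h := hS.nd
  rw [List.nodup_cons, List.nodup_cons, List.mem_cons, not_or] at h
  refine ⟨h.1.1, h.1.2, h.2.1, h.2.2, ?_⟩
  have h1 := List.nodup_reverse.2 h.2.2
  rw [StageB_rev] at h1
  exact h1.of_append_left

/-- Line 1 of the last stage: place `al`, join the last vertex with `w`. -/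
theorem StageB_one {G : SimpleGraph V} {T : Finset V} {Fs : Finset (Finset V)}
    {J : Finset V → Finset V} {Ex : V → V → Prop} (hc : Ctx G T Fs J)
    {Γ : Dr V} {U : Bool → Finset ℚ} {D : Cov} {s : SD V}
    {F : Finset (Finset V)} (hw : Wd G Γ U) (hD : Adm U D) (hG : SG Γ U D s)
    (hS : SC G T Fs J Ex Γ s F) :
    ∃ Γ' U' qs y1 y2, qs.map Pl.v = s.al ∧ OrdP (max s.A s.l1.e) qs s.Xd ∧
      Step G Γ U (D ⊓ (nl U ⊔ StageB_row s.l1.Λ ⊔ seg true s.l1.lc s.l1.Λ s.l1.s1 ⊔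
        seg true s.l1.R y1 y2)) {q | q = s.z ∨ q ∈ s.al ∨
          ∃ f ∈ fanF s.l1.ow (s.z :: s.al ++ [s.w]), q ∈ J f} Γ' U' ∧
      s.l1.Λ ≤ y1 ∧ y1 < y2 ∧ y2 < s.l1.s1 ∧ (y2 < s.l2.s1 ∨ s.l2.s1 ≤ y1) ∧
      IsPath3 (Γ' s.z) ∧ (∀ q ∈ qs, PlD Γ' U' D s.l1.Λ s.B q) ∧
      (∀ f ∈ fanF s.l1.ow (s.z :: s.al ++ [s.w]), Filled G Γ' (J f)) ∧
      List.IsChain (Ov Γ') (s.z :: s.al ++ [s.w]) ∧ ∀ v ∈ s.z :: s.al, Ov Γ' v s.l1.ow := by
  obtain ⟨hoo, ho1, ho2, hndb, hnd⟩ := StageB_nd hS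
  have hpf : ∀ {v : V}, v ∈ s.z :: s.al ++ [s.w] → v ∈ s.bd := by
    intro v hv
    unfold SD.bd
    simp only [List.mem_append, List.mem_cons, List.not_mem_nil, or_false, List.mem_reverse] at hv ⊢
    (clear * - hv; tauto)
  have hnd1 : (s.l1.ow :: (s.z :: s.al ++ [s.w])).Nodup := List.nodup_cons.2 ⟨fun h => ho1 (hpf h), hnd⟩
  have hfst : (s.al.map (fun p => (p, Kind.dir))).map Prod.fst = s.al := by
    rw [List.map_map]
    exact List.map_id _
  have hcont : ∀ f ∈ fanF s.l1.ow (s.z :: s.al ++ [s.w]), ∀ q ∈ J f, Undrawn Γ q ∧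
      q ∉ s.bd ∧ q ≠ s.l1.ow := by
    intro f hf q hq
    have hf' : f ∈ Fs := hS.fan1_sub hf
    refine ⟨hS.und q (Or.inr (Or.inr (Or.inr ⟨f, ?_, hq⟩))), hS.cont_bd hc hf' hq,
      (hS.cont hc hf' hq).2.1⟩
    exact Finset.mem_union_right _ (Finset.mem_union_left _ hf)
  have hfanl : fanF s.l1.ow (s.z :: s.al) ⊆ fanF s.l1.ow (s.z :: s.al ++ [s.w]) := by
    intro f hf
    obtain ⟨p, a, b, t, h1, h2⟩ := DiscH_mem_fanF.1 hf
    refine DiscH_mem_fanF.2 ⟨p, a, b, t ++ [s.w], ?_, h2⟩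
    rw [h1]
    simp
  have hLn := hG.line1
  have hBs := hLn.sB
  have hXdR : s.Xd ≤ s.l1.R := hG.o4.le.trans hLn.XR
  obtain ⟨Γ₁, U₁, qs, s', lv, lc', c0', e', lo', s0', i1, i2, i3, i4, i5, i6, i7, i8, i9, i10, i11,
    i12, i13, i14, i15, i16⟩ := placeL hc (ps := s.al.map (fun p => (p, Kind.dir)))
      (a := max s.A s.l1.e) (b := s.Xd) (Yt := s.B) (T₁ := 0) (T₂ := 1) (yl := s.l1.s1) (y₁ := 0)
      hw hD hLn.ok (le_max_right _ _) (max_lt hG.o3 hG.e1) hXdR hBs le_rfl one_pos one_pos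
      (by
        rw [hfst]
        exact (List.isChain_append.1 hS.ln1).1)
      (by
        rw [hfst]
        exact hnd1.sublist ((List.sublist_append_left _ _).cons_cons _)) (hS.adj1 hc (by simp))
      (by
        rw [hfst]
        exact fun p hp => hS.und p (Or.inr (Or.inl hp)))
      (by
        rw [hfst]
        exact fun f hf q hq => (hcont f (hfanl hf) q hq).1)
  rw [hfst] at i3 i9 i10 i12
  have hqv : qs.map Pl.v = s.al := by
    have h1 := congrArg (List.map Prod.fst) i1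
    rw [hfst, List.map_map] at h1
    exact h1
  have hqk : ∀ q ∈ qs, q.k = Kind.dir := by
    intro q hq
    have h1 : (q.v, q.k) ∈ qs.map (fun q => (q.v, q.k)) := List.mem_map_of_mem hq
    rw [i1] at h1
    obtain ⟨p, -, hp⟩ := List.mem_map.1 h1
    exact (congrArg Prod.snd hp).symm
  have hqcov : ∀ q ∈ qs, Γ₁ q.v = seg false s.l1.Λ q.X q.es ⊔ seg true q.X s.l1.Λ s.B := by
    intro q hq
    rw [(i7 q hq).cov]
    unfold Pl.cov
    rw [hqk q hq]
  obtain ⟨l', hl'⟩ := List.getLast?_eq_some_iff.1 i12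
  have hlist : s.z :: s.al ++ [s.w] = l' ++ lv :: [s.w] := by rw [hl']; simp
  have hlvm : lv ∈ s.z :: s.al := by rw [hl']; simp
  have hlvb : lv ∈ s.bd := hpf (List.mem_append_left _ hlvm)
  have hfanw : fanF s.l1.ow (s.z :: s.al ++ [s.w]) =
      fanF s.l1.ow (s.z :: s.al) ∪ {{s.l1.ow, lv, s.w}} := by
    rw [hlist, fanF_append, hl']
    rfl
  have hfw : ({s.l1.ow, lv, s.w} : Finset V) ∈ fanF s.l1.ow (s.z :: s.al ++ [s.w]) := by
    rw [hfanw]
    exact Finset.mem_union_right _ (Finset.mem_singleton_self _)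
  have hfwFs := hS.fan1_sub hfw
  have hdisj : Disjoint (fanF s.l1.ow (s.z :: s.al)) {({s.l1.ow, lv, s.w} : Finset V)} := by
    have h1 := fanF_disj (ow := s.l1.ow) (a := lv) (l := l') (m := [s.w]) (by
      rw [← hlist]
      exact hnd1)
    rw [← hl'] at h1
    exact h1
  have hfanlFs : fanF s.l1.ow (s.z :: s.al) ⊆ Fs := hfanl.trans hS.fan1_sub
  -- the position of the last column
  have hcol' : (s.al = [] ∧ lc' = s.l1.lc) ∨ lc' ∉ U true := by
    rcases List.eq_nil_or_concat qs with h1 | ⟨q0, ql, h1⟩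
    · have h2 : s.al = [] := by rw [← hqv, h1]; rfl
      exact Or.inl ⟨h2, (i13 (by rw [h2]; rfl)).1⟩
    · right
      have hql : ql ∈ qs := by rw [h1]; simp
      have hlv : lv = ql.v := by
        have h2 : s.z :: s.al = (s.z :: q0.map Pl.v) ++ [ql.v] := by
          rw [← hqv, h1]
          simp
        rw [h2] at hl'
        exact ((List.append_inj' hl' rfl).2 |> fun h3 => (List.cons.inj h3).1).symm
      obtain ⟨x, hx1, hx2⟩ := exists_between i16.h7
      have h3 := ((i16.strip x hx1 hx2).2 lv).2 rfl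
      rw [hlv, hqcov ql hql] at h3
      rcases h3 with h3 | h3
      · exact absurd h3.1 (by simp)
      · rw [h3.2.1]
        exact (i8 ql hql).1
  have hΛU := hG.Λ1U hw
  have hRU : s.l1.R ∈ U true := hLn.col.mem (v := s.w) rfl hw.lines (hLn.ok.h6.trans_lt hLn.ok.h7)
  have hlc1 := hG.lc1
  have hcolw : SW Γ₁ D {s.w} true s.l1.R s.l1.Λ s.l1.s1 := by
    refine hLn.col.grow i3.grow ?_
    rintro x - - (((h | ⟨h, -⟩) | ⟨h, -⟩) | ⟨-, h, -⟩)
    · exact h hRU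
    · exact absurd h (by simp)
    · exact absurd h (by simp)
    · exact absurd h (hlc1.trans_le hXdR).ne'
  have hroww : SW Γ₁ D {s.l1.ow, s.w} false s.l1.Λ s.l1.R s.l1.nr := by
    refine hLn.row.grow i3.grow ?_
    rintro x hx - (((h | h) | h) | ⟨h, -⟩)
    · exact h hΛU
    · obtain ⟨-, -, -, h⟩ := (LineB_mem hLn.ok.h1.le).1 h
      have := hLn.ok.h2
      linarith
    · obtain ⟨-, -, -, h⟩ := (LineB_mem (hLn.ok.h4.trans hG.e1).le).1 h
      linarith
    · exact absurd h (by simp)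
  obtain ⟨t1, ht1, ht2, ht3⟩ := StageB_cut (t := s.l2.s1) i16.h7
  have hOK := StageB_strip i16 le_rfl ht1 ht2
  have hdw := hc.disj
  have hlvw : lv ≠ s.w := by
    intro h
    rw [hlist, h] at hnd
    have := (List.nodup_append.1 hnd).2.1
    simp at this
  obtain ⟨Γ₂, U₂, s2, y₁, j1, j2, j3, j4, j5, j6, j7⟩ := StageB_join (nr := s.l1.nr) (w := s.w)
    (J := J {s.l1.ow, lv, s.w}) i3.wd (hD.mono i3.sub) hOK
    (hc.adj _ hfwFs lv (by simp) s.w (by simp) hlvw) (hS.adj1 hc (List.mem_append_left _ hlvm))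
    hLn.nr hroww (hcolw.sub i16.h6 ht2)
    (by
      intro q hq
      obtain ⟨h1, h2, h3⟩ := hcont _ hfw q hq
      refine ⟨h1.grow i3.grow ?_, fun h => h2 (h ▸ hlvb), fun h => h2 (h ▸ hpf (by simp)), h3⟩
      rintro (h | h | ⟨f, hf, h⟩)
      · exact h2 (h ▸ hpf (by simp))
      · exact h2 (hpf (by simp [h]))
      · exact StageK_cc hc hfanlFs (Finset.singleton_subset_iff.2 hfwFs) hdisj ⟨f, hf, h⟩
          ⟨_, Finset.mem_singleton_self _, hq⟩)
    (by
      have h1 : ({lv, s.w, s.l1.ow} : Finset V) = {s.l1.ow, lv, s.w} := by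
        ext q
        simp only [Finset.mem_insert, Finset.mem_singleton]
        (clear * -; tauto)
      rw [h1]
      exact hc.fill _ hfwFs)
  have hy1 : y₁ < s.l1.s1 := j3.trans_le ht2
  have hbad : ∀ q ∈ qs, ∀ x, s.B ≤ x → x ∉ (D ⊓ (nl U₁ ⊔ StageB_row s.l1.Λ ⊔ seg true lc' s0' y₁ ⊔
      seg true s.l1.R s0' y₁) : Cov) true q.X := by
    rintro q hq x hx ⟨-, (((h | ⟨h, -⟩) | ⟨-, -, -, h⟩) | ⟨-, -, -, h⟩)⟩
    · exact h (i7 q hq).hX
    · exact absurd h (by simp)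
    · rw [max_eq_right j2.le] at h
      linarith
    · rw [max_eq_right j2.le] at h
      linarith
  have hJw : ∀ q ∈ J {s.l1.ow, lv, s.w}, q ∉ s.bd := fun q hq => (hcont _ hfw q hq).2.1
  refine ⟨Γ₂, U₂, qs, s0', y₁, hqv, i2, ?_, i16.h6, j2, hy1, ?_, ?_, ?_, ?_, ?_, ?_⟩
  · refine Step.trans (Γ₁ := Γ₁) (U₁ := U₁) (i3.weaken ?_ ?_) (j4.weaken ?_ ?_)
    · intro o l x hx
      refine ⟨lineD_le hD hLn.ok (hLn.ok.h4.trans hG.e1).le hXdR o l hx, ?_⟩
      rcases hx with (((h | h) | h) | h)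
      · exact Or.inl (Or.inl (Or.inl h))
      · exact Or.inl (Or.inl (Or.inr ⟨h.1, h.2.1⟩))
      · exact Or.inl (Or.inl (Or.inr ⟨h.1, h.2.1⟩))
      · exact Or.inl (Or.inr (LineB_mono hLn.ok.h6 hLn.ok.h7.le o l h))
    · rintro q (h | h | ⟨f, hf, h⟩)
      · exact Or.inl h
      · exact Or.inr (Or.inl h)
      · exact Or.inr (Or.inr ⟨f, hfanl hf, h⟩)
    · rintro o l x ⟨h0, (((h | h) | h) | h)⟩
      · exact ⟨h0, Or.inl (Or.inl (Or.inl (fun h1 => h (i3.sub o h1))))⟩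
      · exact ⟨h0, Or.inl (Or.inl (Or.inr h))⟩
      · obtain ⟨rfl, rfl, h2, h3⟩ := (LineB_mem j2.le).1 h
        rcases hcol' with ⟨-, h4⟩ | h4
        · refine ⟨h0, Or.inl (Or.inr ((LineB_mem (hLn.ok.h6.trans hLn.ok.h7.le)).2 ⟨rfl, h4, ?_, ?_⟩))⟩
          · exact i16.h6.trans_lt h2
          · exact h3.trans hy1
        · exact ⟨h0, Or.inl (Or.inl (Or.inl h4))⟩
      · exact ⟨h0, Or.inr h⟩
    · rintro q (h | h)
      · rw [h]
        rcases List.mem_cons.1 hlvm with h1 | h1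
        · exact Or.inl h1
        · exact Or.inr (Or.inl h1)
      · exact Or.inr (Or.inr ⟨_, hfw, h⟩)
  · rcases ht3 with h | h
    · exact Or.inl (j3.trans_le h)
    · exact Or.inr h
  · by_cases hz : lv = s.z
    · have hal : s.al = [] := by
        cases l' with
        | nil => exact (List.cons.inj hl').2
        | cons a t =>
          have h1 := (List.cons.inj hl').2
          have h2 : s.z ∈ s.al := by
            rw [h1, ← hz]
            simp
          have h3 : s.z ∉ s.al := by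
            intro h4
            have h5 := (List.nodup_cons.1 (show (s.z :: (s.al ++ [s.w])).Nodup from hnd)).1
            exact h5 (List.mem_append_left _ h4)
          exact absurd h2 h3
      obtain ⟨-, -, k1, k2⟩ := i13 (by rw [hal]; rfl)
      rw [hz, k1] at j5
      rw [j5, i6]
      have h1 := hLn.ext.extend i4 s2 (by rw [k2, ← k1]; exact j1)
      rw [k2] at h1 ⊢
      exact h1
    · rw [j4.grow.eq (v := s.z) (by
        rintro (h | h)
        · exact hz h.symm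
        · exact hJw _ h (hpf (by simp))), i6]
      exact hLn.ext s' i4
  · intro q hq
    have hP := (i7 q hq).plD (hqk q hq) hBs
    by_cases hqlv : q.v = lv
    · have hes : q.es = e' := by
        rcases List.eq_nil_or_concat qs with h1 | ⟨q0, ql, h1⟩
        · rw [h1] at hq
          exact absurd hq (List.not_mem_nil)
        · have hql : ql ∈ qs := by rw [h1]; simp
          have hlv : lv = ql.v := by
            have h2 : s.z :: s.al = (s.z :: q0.map Pl.v) ++ [ql.v] := by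
              rw [← hqv, h1]
              simp
            rw [h2] at hl'
            exact ((List.append_inj' hl' rfl).2 |> fun h3 => (List.cons.inj h3).1).symm
          have hnq : (qs.map Pl.v).Nodup := by
            rw [hqv]
            have h5 := (List.nodup_cons.1 (show (s.z :: (s.al ++ [s.w])).Nodup from hnd)).2
            exact h5.of_append_left
          have h6 : q = ql := List.inj_on_of_nodup_map hnq hq hql (hqlv.trans hlv)
          rw [h6]
          exact i14 ql (by rw [h1]; simp)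
      refine hP.stub (s := s2) j4.grow j4.sub (i7 q hq).es (hqcov q hq) (hes.le.trans j1) ?_
        (fun x hx => hbad q hq x hx)
      rw [hqlv, hes]
      exact j5
    · refine hP.grow j4.grow j4.sub ?_ (fun x hx => hbad q hq x hx)
      rintro (h | h)
      · exact hqlv h
      · refine hJw _ h (hpf ?_)
        have : q.v ∈ s.al := by
          rw [← hqv]
          exact List.mem_map_of_mem hq
        simp [this]
  · intro f hf
    rw [hfanw] at hf
    rcases Finset.mem_union.1 hf with h | h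
    · refine (i9 f h).mono j4.grow ?_
      rintro v hv (h1 | h1)
      · exact (hcont f (hfanl h) v hv).2.1 (h1 ▸ hlvb)
      · exact StageK_cc hc hfanlFs (Finset.singleton_subset_iff.2 hfwFs) hdisj ⟨f, h, hv⟩
          ⟨_, Finset.mem_singleton_self _, h1⟩
    · rw [Finset.mem_singleton.1 h]
      exact j6
  · refine List.isChain_append.2 ⟨i10.imp fun _ _ h => h.mono j4.grow, List.isChain_singleton _, ?_⟩
    intro x hx y hy
    have h1 : x = lv := by
      have h2 : (s.z :: s.al).getLast? = some x := hx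
      rw [i12] at h2
      exact (Option.some.inj h2).symm
    have h3 : y = s.w := by
      have h4 : [s.w].head? = some y := hy
      exact (Option.some.inj h4).symm
    rw [h1, h3]
    exact j7
  · intro v hv
    rcases List.mem_cons.1 hv with h | h
    · rw [h]
      obtain ⟨x, hx1, hx2⟩ := exists_between hLn.ok.h4
      have h1 := (hLn.ok.zone x hx1 hx2).2
      exact Ov.mono j4.grow (Ov.mono i3.grow ⟨false, s.l1.Λ, x, (h1 s.z).2 (Or.inr rfl),
        (h1 s.l1.ow).2 (Or.inl rfl)⟩)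
    · rw [← hqv] at h
      obtain ⟨q, hq, rfl⟩ := List.mem_map.1 h
      exact (i11 q hq).mono j4.grow

theorem StageB_fan_rz {Γ : Dr V} {ow : V} {l : List V} (h : List.IsChain (Ov Γ) l)
    (ho : ∀ v ∈ l, Ov Γ v ow) {f : Finset V} (hf : f ∈ fanF ow l) {p q : V} (hp : p ∈ f)
    (hq : q ∈ f) (hpq : p ≠ q) : Ov Γ p q := by
  obtain ⟨l1, a, b, l2, rfl, rfl⟩ := DiscH_mem_fanF.1 hf
  have hab : Ov Γ a b := (List.isChain_cons_cons.1 (List.isChain_append.1 h).2.1).1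
  have ha : Ov Γ a ow := ho a (by simp)
  have hb : Ov Γ b ow := ho b (by simp)
  simp only [Finset.mem_insert, Finset.mem_singleton] at hp hq
  rcases hp with rfl | rfl | rfl <;> rcases hq with rfl | rfl | rfl
  · exact absurd rfl hpq
  · exact ha.symm
  · exact hb.symm
  · exact ha
  · exact absurd rfl hpq
  · exact hab
  · exact hb
  · exact hab.symm
  · exact absurd rfl hpq

omit [DecidableEq V] in
theorem StageB_distinct (s : SD V) (hn : s.bd.Nodup) :
    (s.z ∉ rv s.L ∧ s.z ≠ s.d ∧ s.z ∉ s.be ∧ s.z ≠ s.w ∧ s.z ∉ s.al) ∧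
    (s.d ∉ rv s.L ∧ s.d ∉ s.be ∧ s.d ≠ s.w ∧ s.d ∉ s.al) ∧
    (∀ v ∈ s.be, v ∉ rv s.L ∧ v ≠ s.w ∧ v ∉ s.al) ∧ (s.w ∉ rv s.L ∧ s.w ∉ s.al) ∧
    ∀ v ∈ rv s.L, v ∉ s.al := by
  unfold SD.bd at hn
  simp only [List.append_assoc, List.nodup_append, List.mem_append, List.mem_cons, List.not_mem_nil,
    or_false, List.mem_reverse, List.nodup_cons, List.cons_append, List.nil_append, not_or] at hn
  obtain ⟨-, ⟨⟨h1, h2, h3, h4⟩, -, ⟨⟨h5, h6⟩, -, -, h7⟩, h8⟩, h9⟩ := hn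
  refine ⟨⟨fun h => ?_, fun h => h4 h.symm, fun h => ?_, fun h => h6 h.symm, fun h => ?_⟩,
    ⟨fun h => ?_, h1, h2, h3⟩, fun v hv => ⟨fun h => ?_, fun h => ?_, fun h => ?_⟩, ⟨fun h => ?_, h5⟩,
    fun v hv h => ?_⟩
  · exact h9 s.z h s.z (by simp) rfl
  · exact h8 s.z h s.z (by simp) rfl
  · exact h7 s.z h s.z (by simp) rfl
  · exact h9 s.d h s.d (by simp) rfl
  · exact h9 v h v (by simp [hv]) rfl
  · exact h8 v hv s.w (by simp) h
  · exact h8 v hv v (by simp [h]) rfl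
  · exact h9 s.w h s.w (by simp) rfl
  · exact h9 v hv v (by simp [h]) rfl
/-- The last stage. (Data `s`; write `z, d, w, L, al, be, ...` for its fields.)
1. `placeL` on line 1 for `al.map (·, Kind.dir)`, interval `(a, Xd)` with `a = max A e1`, `Yt = B`
   (other parameters arbitrary, for instance `yl = s1 of the line`, `T₁ = 0, T₂ = 1`, `y₁ = 0`).
2. `LineOK.join` on line 1 with `w` (`Rw = R`, `m = R`, `nr`): the last vertex of `z :: al` and `w` overlap.
   `z` gets a longer stub, `ext` keeps it a path; the other placed vertices have exact coverage.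
3. M-state `MG1` with `z`, `W` = records of the placed vertices (`direct_pend`, `s = B`, `hi = Y0`,
   `Λ < B`), base `a0 = w`, `X0 = Xw`, `u = Xd`, `yu = Y0`, blacks `L`, base `d`, the list `be`. Exemptions:
   `Ex'` = `Ex` or the pair (last vertex of `d :: be`, `w`) in both orders. Allowed set `D₁`: the
   positions of `D` on lines not in the current `U`, and in the band `B ≤ Y` : on the vertical lines
   `Xz`, the two lines of each placed vertex, `Xw` the positions `B ≤ x < Y0`; on the horizontal lines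
   `r.c` (`r ∈ L`) all positions; on `Y0` the positions `x < Xd` outside the link zone. (Then (h1)-(h5) of
   `core` hold and the link zone is not in `D₁`.) `Side.av` by `h2`, `Side.base` by `chD`, `MC.z1` by
   `h1`, `z1`, `chA`, `MC.z2` by `z2`.
4. `core` with `ow = l2.ow`, `T₁ < T₂` in `(Y0, Top)`; `acol` from `wcol`.
5. `LineOK.join` on line 2 with `w`: now the last vertex of `d :: be` and `w` overlap, and its stub is
   final (`Ext.extend`, `Ext.path`).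
The faces of `fanF ow1 (z :: al ++ [w])` are filled in 1 and 2, those of `fanF ow2 (d :: be ++ [w])`
in 4 and 5, those of `F` in 4. Pairs with `ow1`, `ow2` are realized by the stubs (`LineOK.zone`,
`LG.row`). -/
theorem stage_last {G : SimpleGraph V} {T : Finset V} {Fs : Finset (Finset V)}
    {J : Finset V → Finset V} {Ex : V → V → Prop} (hc : Ctx G T Fs J)
    (hE : ∀ u v, Ex u v → Ex v u) {Γ : Dr V} {U : Bool → Finset ℚ} {D : Cov} {s : SD V}
    {F : Finset (Finset V)} (hw : Wd G Γ U) (hD : Adm U D) (hG : SG Γ U D s)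
    (hS : SC G T Fs J Ex Γ s F) (h1 : ∀ v ∈ s.be, ¬ AdjF F s.z v)
    (h2 : ∀ a ∈ s.al, ∀ v ∈ s.be, ¬ AdjF F a v) : SDone G J Ex Γ U D s F := by
  obtain ⟨Γ₂, U₂, qs, y1, y2, a1, a2, a3, a4, a5, a6, a7, a8, a9, a10, a11, a12⟩ :=
    StageB_one hc hw hD hG hS
  obtain ⟨hoo, ho1, ho2, hndb, hnd⟩ := StageB_nd hS
  have hLn := hG.line1
  have hL2 := hG.line2
  have hBY := hG.BY
  have hXdU := hG.XdU hw
  have hXwU := hG.XwU hw
  have hXzU := hG.XzU hw
  have hY0U := hG.Y0U hw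
  have hΛ1U := hG.Λ1U hw
  have hΛ2U := hG.Λ2U hw
  have hΛ1B := hG.Λ1B
  have hΛ2B := hG.Λ2B
  have hR2U : s.l2.R ∈ U true := hL2.col.mem (v := s.w) rfl hw.lines (hL2.ok.h6.trans_lt hL2.ok.h7)
  -- the growth of the first part
  have d1 : ∀ l ∈ U false, l ≠ s.l1.Λ → ∀ x, x ∉ (D ⊓ (nl U ⊔ StageB_row s.l1.Λ ⊔
      seg true s.l1.lc s.l1.Λ s.l1.s1 ⊔ seg true s.l1.R y1 y2) : Cov) false l := by
    rintro l hl hne x ⟨-, (((h | ⟨-, h⟩) | ⟨h, -⟩) | ⟨h, -⟩)⟩
    · exact h hl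
    · exact hne h
    · exact absurd h (by simp)
    · exact absurd h (by simp)
  have d2 : ∀ l ∈ U true, ∀ x, s.B ≤ x → x ∉ (D ⊓ (nl U ⊔ StageB_row s.l1.Λ ⊔
      seg true s.l1.lc s.l1.Λ s.l1.s1 ⊔ seg true s.l1.R y1 y2) : Cov) true l := by
    rintro l hl x hx ⟨-, (((h | ⟨h, -⟩) | h) | h)⟩
    · exact h hl
    · exact absurd h (by simp)
    · obtain ⟨-, -, -, h⟩ := (LineB_mem (hLn.ok.h6.trans hLn.ok.h7.le)).1 h
      linarith [hLn.sB]
    · obtain ⟨-, -, -, h⟩ := (LineB_mem a5.le).1 h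
      linarith [hLn.sB]
  have d3 : ∀ l ∈ U true, l ≠ s.l1.lc → ∀ x, (l = s.l1.R → x ≤ y1 ∨ y2 ≤ x) →
      x ∉ (D ⊓ (nl U ⊔ StageB_row s.l1.Λ ⊔
      seg true s.l1.lc s.l1.Λ s.l1.s1 ⊔ seg true s.l1.R y1 y2) : Cov) true l := by
    rintro l hl hne x hx ⟨-, (((h | ⟨h, -⟩) | h) | h)⟩
    · exact h hl
    · exact absurd h (by simp)
    · exact hne h.2.1
    · obtain ⟨-, h3, h4, h5⟩ := (LineB_mem a5.le).1 h
      rcases hx h3 with h6 | h6
      · linarith
      · linarith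
  -- vertices
  have hbdz : s.z ∈ s.bd := by unfold SD.bd; simp
  have hbdd : s.d ∈ s.bd := by unfold SD.bd; simp
  have hbdw : s.w ∈ s.bd := by unfold SD.bd; simp
  have hbdal : ∀ v ∈ s.al, v ∈ s.bd := by unfold SD.bd; intro v hv; simp [hv]
  have hbdbe : ∀ v ∈ s.be, v ∈ s.bd := by unfold SD.bd; intro v hv; simp [hv]
  have hbdL : ∀ v ∈ rv s.L, v ∈ s.bd := by unfold SD.bd; intro v hv; simp [hv]
  obtain ⟨⟨nzL, nzd, nzb, nzw, nza⟩, ⟨ndL, ndb, ndw, nda⟩, nbe, ⟨nwL, nwa⟩, nL⟩ :=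
    StageB_distinct s hndb
  obtain ⟨K₁, hK₁⟩ : ∃ K₁ : Set V, K₁ = {q | q = s.z ∨ q ∈ s.al ∨
    ∃ f ∈ fanF s.l1.ow (s.z :: s.al ++ [s.w]), q ∈ J f} := ⟨_, rfl⟩
  rw [← hK₁] at a3
  have hF1 : fanF s.l1.ow (s.z :: s.al ++ [s.w]) ⊆ Fs := hS.fan1_sub
  have hF2 : fanF s.l2.ow (s.d :: s.be ++ [s.w]) ⊆ Fs := hS.fan2_sub
  have hF0 : F ⊆ Fs := hS.reg.sub
  have k1 : ∀ v ∈ s.bd, v ≠ s.z → v ∉ s.al → v ∉ K₁ := by
    intro v hv hvz hva
    rw [hK₁]
    rintro (h | h | ⟨f, hf, h⟩)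
    · exact hvz h
    · exact hva h
    · exact hS.cont_bd hc (hF1 hf) h hv
  have k2 : ∀ v ∈ verts s.bd F, v ∉ s.bd → v ∉ K₁ := by
    intro v hv hvb
    rw [hK₁]
    rintro (h | h | ⟨f, hf, h⟩)
    · exact hvb (h ▸ hbdz)
    · exact hvb (hbdal v h)
    · exact (hS.cont hc (hF1 hf) h).1 hv
  have k3 : ∀ v, (∃ f ∈ F ∪ fanF s.l2.ow (s.d :: s.be ++ [s.w]), v ∈ J f) → v ∉ K₁ := by
    rintro v ⟨f, hf, hv⟩
    have hfFs : f ∈ Fs := by
      rcases Finset.mem_union.1 hf with h | h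
      · exact hF0 h
      · exact hF2 h
    rw [hK₁]
    rintro (h | h | h)
    · exact hS.cont_bd hc hfFs hv (h ▸ hbdz)
    · exact hS.cont_bd hc hfFs hv (hbdal v h)
    · refine StageK_cc hc (Finset.union_subset hF0 hF2) hF1 ?_ ⟨f, hf, hv⟩ h
      exact Finset.disjoint_union_left.2 ⟨hS.dj1, hS.dj3.symm⟩
  -- the exemptions
  obtain ⟨ld, hld⟩ : ∃ ld, (s.d :: s.be).getLast? = some ld :=
    ⟨_, List.getLast?_eq_some_getLast (List.cons_ne_nil _ _)⟩
  obtain ⟨Ex', hEx'⟩ : ∃ Ex' : V → V → Prop, Ex' = fun u v => Ex u v ∨ (u = ld ∧ v = s.w) ∨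
    (u = s.w ∧ v = ld) := ⟨_, rfl⟩
  have hE' : ∀ u v, Ex' u v → Ex' v u := by
    intro u v
    rw [hEx']
    rintro (h | ⟨h, h'⟩ | ⟨h, h'⟩)
    · exact Or.inl (hE u v h)
    · exact Or.inr (Or.inr ⟨h', h⟩)
    · exact Or.inr (Or.inl ⟨h', h⟩)
  have hEx1 : ∀ u v, Ex u v → Ex' u v := by
    intro u v h
    rw [hEx']
    exact Or.inl h
  -- the link zone
  obtain ⟨l₀, l₁, hl1, hl0, hlk⟩ : ∃ l₀ l₁, l₁ ≤ s.A ∧ (s.L = [] → l₁ ≤ l₀) ∧
      (s.be ≠ [] → s.L ≠ [] → TCh s.L s.Y0 ∧ l₀ < l₁ ∧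
        Solo Γ {lastv s.L s.d, s.d} false s.Y0 l₀ l₁) := by
    by_cases h : s.be ≠ [] ∧ s.L ≠ []
    · obtain ⟨h3, l₀, l₁, h4, h5, h6⟩ := hS.lk h.1 h.2
      exact ⟨l₀, l₁, h5, fun h7 => absurd h7 h.2, fun _ _ => ⟨h3, h4, h6⟩⟩
    · exact ⟨s.A, s.A, le_rfl, fun _ => le_rfl, fun h3 h4 => absurd ⟨h3, h4⟩ h⟩
  have hwb : SW Γ₂ D {s.w} true s.Xw s.B s.Top :=
    hG.wcol.grow a3.grow fun x hx _ => d2 _ hXwU x hx.le
  have hmst : MSt PI Γ₂ U₂ (stD U₂ D (colsQ s.Xz qs) (rowsL s.L) s.B s.Y0 s.Xw s.Y0 s.Xd l₀ l₁) s.z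
      s.Xz s.h s.A s.B (qs.map (wrec s.B)) s.w s.Xw s.Xd s.L s.d s.Y0 s.Y0 := by
    refine stage_mst hw hG a3.sub a3.grow ?_ ?_ d1 a9 a2 (le_max_left _ _) hG.o4.le le_rfl hG.ordL
      le_rfl (hwb.sub le_rfl hG.o5.le) hl1 hl0
    · intro r hr
      have hrv : r.v ∈ rv s.L := List.mem_map_of_mem hr
      exact k1 _ (hbdL _ hrv) (fun h => nzL (h ▸ hrv)) (nL _ hrv)
    · exact fun x hx _ => d2 _ hXzU x hx.le
  have hbdl : rv s.L ++ [s.d] ++ s.be ++ (qs.map Pl.v ++ [s.w]).reverse ++ [s.z] = s.bd := by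
    rw [a1]
    simp [SD.bd]
  have hMG : MG1 G PI T Fs J Ex' Γ₂ U₂ (stD U₂ D (colsQ s.Xz qs) (rowsL s.L) s.B s.Y0 s.Xw s.Y0
      s.Xd l₀ l₁) s.z s.Xz s.h s.A s.B (qs.map (wrec s.B)) s.w s.Xw s.Xd s.L s.d s.Y0 s.Y0 s.be F := by
    refine stage_MG1 (D := D) (F := F) (Ex := Ex) (Γ₀ := Γ) (K := K₁) hG.pl hS a3.wd a3.grow
      (stD_adm (hD.mono a3.sub)) hEx1 (le_refl F) ?_ ?_ ?_ ?_ ?_ ?_ hmst ?_ ?_ ?_ ?_
    · rw [hbdl]
      exact hS.reg
    · rw [hbdl]
      exact fun v hv hv' => ⟨hv, hv'⟩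
    · intro v hv
      rcases List.mem_append.1 hv with h | h
      · exact h1 v h
      · rw [a1] at h
        exact CombA_chless_head hS.chA h
    · rw [a1]
      exact h2
    · rw [a1]
      exact CombA_chless_tail hS.chA
    · intro hbe h
      obtain ⟨b, t, hb⟩ := List.exists_cons_of_ne_nil hbe
      have h3 := hS.chD
      rw [hb] at h3
      have h4 : ¬ AdjF F s.d s.w := CombA_chless_head h3 (by simp)
      exact h4 ⟨h.1.symm, h.2.imp fun f hf => ⟨hf.1, hf.2.2, hf.2.1⟩⟩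
    · rw [a1]
      exact a11.imp fun _ _ h => Or.inr h
    · intro hbe
      left
      rw [hbe] at hld
      rw [hEx']
      exact Or.inr (Or.inr ⟨rfl, by simpa using hld⟩)
    · intro hbe hL
      obtain ⟨h3, h4, h5⟩ := hlk hbe hL
      exact stage_link hw hG a3.sub a3.grow d1 h3 h4 hl1 h5
    · rw [hbdl]
      rintro v (⟨h, h'⟩ | ⟨f, hf, h⟩)
      · exact k2 v h h'
      · exact k3 v ⟨f, Finset.mem_union_left _ hf, h⟩
  have hlN : lN (qs.map (wrec s.B)) s.w s.L s.d s.be ++ [s.z] = s.bd := by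
    rw [lN_wrec]
    exact hbdl
  obtain ⟨T₁, hT1, hT1'⟩ := exists_between hG.o5
  obtain ⟨T₂, hT2, hT2'⟩ := exists_between hT1'
  have hfan2 : fanF s.l2.ow (s.d :: s.be) ⊆ fanF s.l2.ow (s.d :: s.be ++ [s.w]) := by
    intro f hf
    obtain ⟨p, a, b, t, h3, h4⟩ := DiscH_mem_fanF.1 hf
    refine DiscH_mem_fanF.2 ⟨p, a, b, t ++ [s.w], ?_, h4⟩
    rw [h3]
    simp
  have hXdR1 : s.Xd < s.l1.R := hG.o4.trans_le hLn.XR
  have hXdR2 : s.Xd < s.l2.R := hG.o4.trans_le hL2.XR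
  have hLOK : LineOK Γ₂ D s.l2.ow s.l2.Λ s.d s.Xd s.l2.c0 s.l2.e s.l2.R s.l2.lo s.l2.hi s.l2.s0
      s.l2.s1 := by
    have h3 := hL2.ok
    rw [hG.lc2] at h3
    refine h3.grow a3.grow (fun x _ _ => d1 _ hΛ2U hG.ne.symm x) (fun x _ _ => d1 _ hΛ2U hG.ne.symm x)
      (fun x _ _ => d3 _ hXdU hG.lc1.ne' x fun h => absurd h hXdR1.ne)
  have hund2 : ∀ f ∈ fanF s.l2.ow (s.d :: s.be ++ [s.w]), ∀ q ∈ J f, Undrawn Γ₂ q := by
    intro f hf q hq
    refine (hS.und q (Or.inr (Or.inr (Or.inr ⟨f, ?_, hq⟩)))).grow a3.grow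
      (k3 q ⟨f, Finset.mem_union_right _ hf, hq⟩)
    exact Finset.mem_union_right _ (Finset.mem_union_right _ hf)
  obtain ⟨Γ₃, U₃, lv, lc', c0', e', lo', s0', up, c1, c2, c3, c4, c5, c6, c7, c8, -⟩ :=
    core hc hE' hMG (hD.mono a3.sub) stD_le
      (stD_Xd (a3.sub _ hXdU) (by
        intro h
        rcases mem_colsQ.1 h with h | ⟨q, hq, h⟩
        · exact absurd h hG.hzd.ne'
        · exact absurd h (CoreG2_ordP_mem a2 hq).2.2.ne) hG.o4.ne)
      (stD_Y0 (a3.sub _ hY0U) (fun h => absurd (rowsL_bd hG.ordL h).2 (lt_irrefl _)))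
      (stD_X0 (a3.sub _ hXwU) le_rfl)
      (stD_line (a3.sub _ hΛ2U) (fun h => absurd (rowsL_bd hG.ordL h).1 (not_lt.2 hΛ2B.le))
        (hΛ2B.trans hBY).ne)
      (stD_band le_rfl hT1 hBY fun l hl => ⟨(rowsL_bd hG.ordL hl).1.le, (rowsL_bd hG.ordL hl).2.le⟩)
      hG.YD
      (fun x hx hx' v h => by
        rcases a3.grow.new v _ _ x h with h | h
        · exact hG.row x hx hx' v h
        · exact d1 _ hY0U (hΛ1B.trans hBY).ne' x h.2)
      (hG.dcol.grow a3.grow fun x hx _ => d2 _ hXdU x hx.le) (hwb.sub le_rfl hT1'.le) hT1 hT2 hLOK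
      hL2.sB hL2.eX hL2.XR (by
        rw [a3.grow.eq (k1 _ hbdd (Ne.symm nzd) nda)]
        exact hL2.ext) hS.chD (List.isChain_append.1 hS.ln2).1
      (hS.dj2.mono_right hfan2) (by
        rw [hlN]
        exact List.nodup_cons.2 ⟨ho2, hndb⟩) (hS.adj2 hc (by simp)) (by
        rw [hlN]
        exact hS.ow2)
      (fun p hp => (hS.und p (Or.inr (Or.inr (Or.inl hp)))).grow a3.grow
        (k1 p (hbdbe p hp) (fun h => nzb (h ▸ hp)) (nbe p hp).2.2))
      (fun f hf q hq => hund2 f (hfan2 hf) q hq)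
      (fun lv hlv => by
        rw [hEx']
        exact Or.inr (Or.inl ⟨Option.some.inj (hlv.symm.trans hld), rfl⟩))
  rw [hlN] at c2 c5
  have hlv : lv = ld := Option.some.inj (c1.symm.trans hld)
  obtain ⟨l', hl'⟩ := List.getLast?_eq_some_iff.1 c1
  have hlist : s.d :: s.be ++ [s.w] = l' ++ lv :: [s.w] := by rw [hl']; simp
  have hlvm : lv ∈ s.d :: s.be := by rw [hl']; simp
  have hlvb : lv ∈ s.bd := by
    rcases List.mem_cons.1 hlvm with h | h
    · exact h ▸ hbdd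
    · exact hbdbe _ h
  have hfanw : fanF s.l2.ow (s.d :: s.be ++ [s.w]) =
      fanF s.l2.ow (s.d :: s.be) ∪ {{s.l2.ow, lv, s.w}} := by
    rw [hlist, fanF_append, hl']
    rfl
  have hfw : ({s.l2.ow, lv, s.w} : Finset V) ∈ fanF s.l2.ow (s.d :: s.be ++ [s.w]) := by
    rw [hfanw]
    exact Finset.mem_union_right _ (Finset.mem_singleton_self _)
  have hfwFs := hF2 hfw
  have hnd2 : (s.l2.ow :: (s.d :: s.be ++ [s.w])).Nodup := by
    refine List.nodup_cons.2 ⟨fun h => ho2 ?_, ?_⟩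
    · unfold SD.bd
      simp only [List.mem_append, List.mem_cons, List.not_mem_nil, or_false, List.mem_reverse] at h ⊢
      (clear * - h; tauto)
    · refine List.Sublist.nodup ?_ hndb
      unfold SD.bd
      have h3 : rv s.L ++ [s.d] ++ s.be ++ [s.w] ++ s.al.reverse ++ [s.z] =
          rv s.L ++ ((s.d :: s.be ++ [s.w]) ++ (s.al.reverse ++ [s.z])) := by simp
      rw [h3]
      exact (List.sublist_append_left _ _).trans (List.sublist_append_right _ _)
  have hfwn : ({s.l2.ow, lv, s.w} : Finset V) ∉ fanF s.l2.ow (s.d :: s.be) := by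
    intro h
    have h3 := fanF_disj (ow := s.l2.ow) (a := lv) (l := l') (m := [s.w]) (by
      rw [← hlist]
      exact hnd2)
    rw [← hl'] at h3
    exact Finset.disjoint_left.1 h3 h (Finset.mem_insert_self _ _)
  have hlvz : s.z ≠ lv := by
    intro h
    rcases List.mem_cons.1 hlvm with h3 | h3
    · exact nzd (h.trans h3)
    · exact nzb (h ▸ h3)
  have hlvw : lv ≠ s.w := by
    intro h
    rcases List.mem_cons.1 hlvm with h3 | h3
    · exact ndw (h3.symm.trans h)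
    · exact (nbe lv h3).2.1 h
  -- the second set
  obtain ⟨K₂, hK₂⟩ : ∃ K₂ : Set V, K₂ = {v | v ∈ KSet J s.bd F (qs.map (wrec s.B)) s.L ∨
    v ∈ s.d :: s.be ∨ ∃ f ∈ fanF s.l2.ow (s.d :: s.be), v ∈ J f} := ⟨_, rfl⟩
  rw [← hK₂] at c2
  have m1 : ∀ f ∈ Fs, f ∉ F → f ∉ fanF s.l2.ow (s.d :: s.be) → ∀ v ∈ J f, v ∉ K₂ := by
    intro f hf hfF hff v hv
    have hvb := hS.cont_bd hc hf hv
    rw [hK₂]
    rintro (((⟨h, -⟩ | h) | h | h) | h | h)
    · exact (hS.cont hc hf hv).1 h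
    · exact StageK_cc hc (Finset.singleton_subset_iff.2 hf) hF0 (Finset.disjoint_singleton_left.2 hfF)
        ⟨f, Finset.mem_singleton_self _, hv⟩ h
    · rw [rv_wrec, a1] at h
      exact hvb (hbdal v h)
    · exact hvb (hbdL v h)
    · rcases List.mem_cons.1 h with h | h
      · exact hvb (h ▸ hbdd)
      · exact hvb (hbdbe v h)
    · exact StageK_cc hc (Finset.singleton_subset_iff.2 hf) (hfan2.trans hF2)
        (Finset.disjoint_singleton_left.2 hff) ⟨f, Finset.mem_singleton_self _, hv⟩ h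
  have m2 : s.z ∉ K₂ := by
    rw [hK₂]
    rintro (((⟨-, h⟩ | ⟨f, hf, h⟩) | h | h) | h | ⟨f, hf, h⟩)
    · exact h hbdz
    · exact hS.cont_bd hc (hF0 hf) h hbdz
    · rw [rv_wrec, a1] at h
      exact nza h
    · exact nzL h
    · rcases List.mem_cons.1 h with h | h
      · exact nzd h
      · exact nzb h
    · exact hS.cont_bd hc (hF2 (hfan2 hf)) h hbdz
  have e1 : ∀ x, s.l2.R < x → x ∉ coreD U₂ D s.l2.Λ s.Xd s.l2.c0 s.Xw s.l2.lo s.l2.hi s.l2.s0 s.l2.s1
      s.B T₁ false s.l2.Λ := by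
    rintro x hx ⟨-, ((((h | h) | h) | ⟨h, -⟩) | h)⟩
    · exact h (a3.sub _ hΛ2U)
    · obtain ⟨-, -, -, h⟩ := (LineB_mem hLOK.h1.le).1 h
      have := hLOK.h2
      linarith
    · have h3 : s.l2.c0 ≤ s.Xw := (hLOK.h4.trans hL2.eX).le
      obtain ⟨-, -, -, h⟩ := (LineB_mem h3).1 h
      have := hL2.XR
      linarith
    · exact absurd h (by simp)
    · have := (CoreG2_bandh.1 h).1
      linarith
  have e2 : ∀ x, x < s.l2.s1 → x ∉ coreD U₂ D s.l2.Λ s.Xd s.l2.c0 s.Xw s.l2.lo s.l2.hi s.l2.s0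
      s.l2.s1 s.B T₁ true s.l2.R := by
    rintro x hx ⟨-, ((((h | ⟨h, -⟩) | ⟨h, -⟩) | ⟨-, h, -⟩) | h)⟩
    · exact h (a3.sub _ hR2U)
    · exact absurd h (by simp)
    · exact absurd h (by simp)
    · exact absurd h hXdR2.ne'
    · have := (CoreG2_bandv.1 h).1
      linarith [hL2.sB]
  obtain ⟨t0, t1, ht0, ht, ht1, htx⟩ : ∃ t0 t1, s0' ≤ t0 ∧ t0 < t1 ∧ t1 ≤ s.l2.s1 ∧
      ∀ x, t0 < x → x < t1 → x ≤ y1 ∨ y2 ≤ x := by
    rcases a7 with h | h
    · exact ⟨max s0' y2, s.l2.s1, le_max_left _ _, max_lt c3.h7 h, le_rfl,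
        fun x hx _ => Or.inr ((le_max_right _ _).trans hx.le)⟩
    · exact ⟨s0', s.l2.s1, le_rfl, c3.h7, le_rfl, fun x _ hx => Or.inl (hx.le.trans h)⟩
  have hcolw : SW Γ₃ D {s.w} true s.l2.R t0 t1 := by
    refine ((hL2.col.sub (c3.h6.trans ht0) ht1).grow a3.grow ?_).grow c2.grow ?_
    · exact fun x hx hx' => d3 _ hR2U (hG.lc1.trans hXdR2).ne' x fun _ => htx x hx hx'
    · exact fun x _ hx' => e2 x (hx'.trans_le ht1)
  have hroww : SW Γ₃ D {s.l2.ow, s.w} false s.l2.Λ s.l2.R s.l2.nr := by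
    refine (hL2.row.grow a3.grow ?_).grow c2.grow ?_
    · exact fun x _ _ => d1 _ hΛ2U hG.ne.symm x
    · exact fun x hx _ => e1 x hx
  obtain ⟨Γ₄, U₄, s4, y4, b1, b2, b3, b4, b5, b6, b7⟩ := StageB_join (nr := s.l2.nr) (w := s.w)
    (J := J {s.l2.ow, lv, s.w}) c2.wd ((hD.mono a3.sub).mono c2.sub) (StageB_strip c3 ht0 ht ht1)
    (hc.adj _ hfwFs lv (by simp) s.w (by simp) hlvw) (hS.adj2 hc (List.mem_append_left _ hlvm))
    hL2.nr hroww hcolw
    (by
      intro q hq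
      have hqb := hS.cont_bd hc hfwFs hq
      refine ⟨(hund2 _ hfw q hq).grow c2.grow (m1 _ hfwFs (fun h =>
        Finset.disjoint_left.1 hS.dj2 h hfw) hfwn q hq), fun h => hqb (h ▸ hlvb),
        fun h => hqb (h ▸ hbdw), (hS.cont hc hfwFs hq).2.2⟩)
    (by
      have h1 : ({lv, s.w, s.l2.ow} : Finset V) = {s.l2.ow, lv, s.w} := by
        ext q
        simp only [Finset.mem_insert, Finset.mem_singleton]
        (clear * -; tauto)
      rw [h1]
      exact hc.fill _ hfwFs)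
  have hfc1 : ∀ f ∈ F, f ∈ s.fc F := fun f hf => Finset.mem_union_left _ hf
  have hfc2 : ∀ f ∈ fanF s.l1.ow (s.z :: s.al ++ [s.w]), f ∈ s.fc F := fun f hf =>
    Finset.mem_union_right _ (Finset.mem_union_left _ hf)
  have hfc3 : ∀ f ∈ fanF s.l2.ow (s.d :: s.be ++ [s.w]), f ∈ s.fc F := fun f hf =>
    Finset.mem_union_right _ (Finset.mem_union_right _ hf)
  have p2 : ∀ f ∈ Fs, f ≠ {s.l2.ow, lv, s.w} → ∀ v ∈ J f, v ∉ {p | p = lv ∨ p ∈ J {s.l2.ow, lv, s.w}} := by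
    rintro f hf hne v hv (h | h)
    · exact hS.cont_bd hc hf hv (h ▸ hlvb)
    · exact Finset.disjoint_left.1 (hc.disj f hf _ hfwFs hne) hv h
  have p1 : ∀ v ∈ s.bd, v ≠ lv → v ∉ {p | p = lv ∨ p ∈ J {s.l2.ow, lv, s.w}} := by
    rintro v hv hne (h | h)
    · exact hne h
    · exact hS.cont_bd hc hfwFs h hv
  have hfill : ∀ f ∈ s.fc F, Filled G Γ₄ (J f) := by
    intro f hf
    rcases Finset.mem_union.1 hf with h | h
    · refine (c7 f (Finset.mem_union_left _ h)).mono b4.grow (p2 f (hF0 h) ?_)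
      rintro rfl
      exact Finset.disjoint_left.1 hS.dj2 h hfw
    · rcases Finset.mem_union.1 h with h | h
      · refine ((a10 f h).mono c2.grow (m1 f (hF1 h) (fun h3 => Finset.disjoint_left.1 hS.dj1 h3 h)
          (fun h3 => Finset.disjoint_left.1 hS.dj3 h (hfan2 h3)))).mono b4.grow (p2 f (hF1 h) ?_)
        rintro rfl
        exact Finset.disjoint_left.1 hS.dj3 h hfw
      · rw [hfanw] at h
        rcases Finset.mem_union.1 h with h | h
        · refine (c7 f (Finset.mem_union_right _ h)).mono b4.grow (p2 f (hF2 (hfan2 h)) ?_)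
          rintro rfl
          exact hfwn h
        · rw [Finset.mem_singleton.1 h]
          exact b6
  refine ⟨Γ₄, U₄, ((a3.weaken inf_le_left ?_).trans (c2.weaken inf_le_left ?_)).trans
    (b4.weaken inf_le_left ?_), ?_, hfill, ?_⟩
  · rw [hK₁]
    rintro v (h | h | ⟨f, hf, h⟩)
    · exact Or.inr (Or.inr (Or.inl h))
    · exact Or.inr (Or.inr (Or.inr (Or.inr (Or.inl h))))
    · exact Or.inr (Or.inr (Or.inr (Or.inr (Or.inr (Or.inr ⟨f, hfc2 f hf, h⟩)))))
  · rw [hK₂]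
    rintro v (((h | ⟨f, hf, h⟩) | h | h) | h | ⟨f, hf, h⟩)
    · exact Or.inl h
    · exact Or.inr (Or.inr (Or.inr (Or.inr (Or.inr (Or.inr ⟨f, hfc1 f hf, h⟩)))))
    · rw [rv_wrec, a1] at h
      exact Or.inr (Or.inr (Or.inr (Or.inr (Or.inl h))))
    · exact Or.inr (Or.inl h)
    · rcases List.mem_cons.1 h with h | h
      · exact Or.inr (Or.inr (Or.inr (Or.inl h)))
      · exact Or.inr (Or.inr (Or.inr (Or.inr (Or.inr (Or.inl h)))))
    · exact Or.inr (Or.inr (Or.inr (Or.inr (Or.inr (Or.inr ⟨f, hfc3 f (hfan2 hf), h⟩)))))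
  · rintro v (h | h)
    · rw [h]
      rcases List.mem_cons.1 hlvm with h3 | h3
      · exact Or.inr (Or.inr (Or.inr (Or.inl h3)))
      · exact Or.inr (Or.inr (Or.inr (Or.inr (Or.inr (Or.inl h3)))))
    · exact Or.inr (Or.inr (Or.inr (Or.inr (Or.inr (Or.inr ⟨_, hfc3 _ hfw, h⟩)))))
  · rintro v (⟨h, hb⟩ | h | h | h | h | h | ⟨f, hf, h⟩)
    · have h3 : v ≠ lv := fun h4 => hb (h4 ▸ hlvb)
      rw [b4.grow.eq (v := v) (by
        rintro (h4 | h4)
        · exact h3 h4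
        · exact (hS.cont hc hfwFs h4).1 h)]
      exact c5 v (Or.inl (Or.inl (Or.inl ⟨h, hb⟩))) h3
    · have h3 : v ≠ lv := by
        rintro rfl
        rcases List.mem_cons.1 hlvm with h4 | h4
        · exact ndL (h4 ▸ h)
        · exact (nbe _ h4).1 h
      rw [b4.grow.eq (p1 v (hbdL v h) h3)]
      exact c5 v (Or.inl (Or.inr (Or.inr h))) h3
    · rw [h, b4.grow.eq (p1 _ hbdz hlvz), c2.grow.eq m2]
      exact a8
    · by_cases h3 : v = lv
      · rw [h3, b5]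
        exact (c6.extend b1).path
      · rw [b4.grow.eq (p1 v (h ▸ hbdd) h3)]
        exact c5 v (Or.inr (Or.inl (h ▸ List.mem_cons_self))) h3
    · have h3 : v ≠ lv := by
        rintro rfl
        rcases List.mem_cons.1 hlvm with h4 | h4
        · exact nda (h4 ▸ h)
        · exact (nbe _ h4).2.2 h
      rw [b4.grow.eq (p1 v (hbdal v h) h3)]
      refine c5 v (Or.inl (Or.inr (Or.inl ?_))) h3
      rw [rv_wrec, a1]
      exact h
    · by_cases h3 : v = lv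
      · rw [h3, b5]
        exact (c6.extend b1).path
      · rw [b4.grow.eq (p1 v (hbdbe v h) h3)]
        exact c5 v (Or.inr (Or.inl (List.mem_cons_of_mem _ h))) h3
    · exact (hfill f hf v h).1
  · have hlow : Ov Γ₃ lv s.l2.ow := by
      obtain ⟨x, hx1, hx2⟩ := exists_between c3.h4
      have h3 := (c3.zone x hx1 hx2).2
      exact ⟨false, s.l2.Λ, x, (h3 lv).2 (Or.inr rfl), (h3 s.l2.ow).2 (Or.inl rfl)⟩
    have hwow : Ov Γ₃ s.w s.l2.ow := by
      obtain ⟨x, hx1, hx2⟩ := exists_between hL2.nr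
      have h3 := (hroww x hx1 hx2).2
      exact ⟨false, s.l2.Λ, x, (h3 s.w).2 (Or.inr rfl), (h3 s.l2.ow).2 (Or.inl rfl)⟩
    have hwow1 : Ov Γ s.w s.l1.ow := by
      obtain ⟨x, hx1, hx2⟩ := exists_between hLn.nr
      have h3 := (hLn.row x hx1 hx2).2
      exact ⟨false, s.l1.Λ, x, (h3 s.w).2 (Or.inr rfl), (h3 s.l1.ow).2 (Or.inl rfl)⟩
    have hold : ∀ f ∈ F ∪ fanF s.l2.ow (s.d :: s.be), ∀ p ∈ f, ∀ q ∈ f, p ≠ q → Rz Ex Γ₄ p q := by
      intro f hf p hp q hq hpq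
      rcases c8 f hf p hp q hq hpq with h | h
      · rw [hEx'] at h
        rcases h with h | ⟨h, h'⟩ | ⟨h, h'⟩
        · exact Or.inl h
        · rw [h, h', ← hlv]
          exact Or.inr b7
        · rw [h, h', ← hlv]
          exact Or.inr b7.symm
      · exact Or.inr (h.mono b4.grow)
    intro f hf p hp q hq hpq
    rcases Finset.mem_union.1 hf with h | h
    · exact hold f (Finset.mem_union_left _ h) p hp q hq hpq
    · rcases Finset.mem_union.1 h with h | h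
      · refine Or.inr (((StageB_fan_rz a11 ?_ h hp hq hpq).mono c2.grow).mono b4.grow)
        intro v hv
        rcases List.mem_append.1 hv with h3 | h3
        · exact a12 v h3
        · rw [List.mem_singleton.1 h3]
          exact hwow1.mono a3.grow
      · rw [hfanw] at h
        rcases Finset.mem_union.1 h with h | h
        · exact hold f (Finset.mem_union_right _ h) p hp q hq hpq
        · refine Or.inr (StageB_fan_rz (ow := s.l2.ow) (l := [lv, s.w]) ?_ ?_ (f := f) ?_ hp hq hpq)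
          · exact List.isChain_pair.2 b7
          · intro v hv
            rcases List.mem_cons.1 hv with h3 | h3
            · rw [h3]
              exact hlow.mono b4.grow
            · rw [List.mem_singleton.1 h3]
              exact hwow.mono b4.grow
          · rw [Finset.mem_singleton.1 h]
            exact Finset.mem_insert_self _ _

end EPG26
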