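import Pool.Agent.W_26e041_h61.DiscC

/-!
Surgery of triangulated discs: inserting a vertex into a face.
-/

namespace EPG26

variable {V : Type*} [DecidableEq V]

/-- The faces after inserting `t` into the face `f`. -/
def TopA1_stk (f : Finset V) (t : V) (F : Finset (Finset V)) : Finset (Finset V) :=
  (F.erase f) ∪ f.image (fun z => insert t (f.erase z))

theorem TopA1_mem {f g : Finset V} {t : V} {F : Finset (Finset V)} :
    g ∈ TopA1_stk f t F ↔ (g ≠ f ∧ g ∈ F) ∨ ∃ z ∈ f, insert t (f.erase z) = g := by
  simp only [TopA1_stk, Finset.mem_union, Finset.mem_erase, Finset.mem_image]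

theorem TopA1_img {a b c t : V} (hab : a ≠ b) (hac : a ≠ c) (hbc : b ≠ c) :
    (({a, b, c} : Finset V)).image (fun z => insert t (({a, b, c} : Finset V).erase z)) =
      {{b, c, t}, {a, c, t}, {a, b, t}} := by
  have h1 : insert t (({a, b, c} : Finset V).erase a) = {b, c, t} := by
    ext z
    simp only [Finset.mem_insert, Finset.mem_singleton, Finset.mem_erase]
    constructor
    · tauto
    · rintro (rfl | rfl | rfl)
      · exact Or.inr ⟨hab.symm, by simp⟩
      · exact Or.inr ⟨hac.symm, by simp⟩
      · exact Or.inl rfl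
  have h2 : insert t (({a, b, c} : Finset V).erase b) = {a, c, t} := by
    ext z
    simp only [Finset.mem_insert, Finset.mem_singleton, Finset.mem_erase]
    constructor
    · tauto
    · rintro (rfl | rfl | rfl)
      · exact Or.inr ⟨hab, by simp⟩
      · exact Or.inr ⟨hbc.symm, by simp⟩
      · exact Or.inl rfl
  have h3 : insert t (({a, b, c} : Finset V).erase c) = {a, b, t} := by
    ext z
    simp only [Finset.mem_insert, Finset.mem_singleton, Finset.mem_erase]
    constructor
    · tauto
    · rintro (rfl | rfl | rfl)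
      · exact Or.inr ⟨hac, by simp⟩
      · exact Or.inr ⟨hbc, by simp⟩
      · exact Or.inl rfl
  rw [Finset.image_insert, Finset.image_insert, Finset.image_singleton, h1, h2, h3]

/-- A vertex of a new face is `t` or an old vertex of `f`. -/
theorem TopA1_sub {f g : Finset V} {t v : V} {F : Finset (Finset V)} (hf : f ∈ F)
    (hg : g ∈ TopA1_stk f t F) (hv : v ∈ g) (hvt : v ≠ t) :
    ∃ g' ∈ F, g ⊆ insert t g' ∧ v ∈ g' := by
  rcases TopA1_mem.1 hg with ⟨_, h⟩ | ⟨z, hz, rfl⟩
  · exact ⟨g, h, Finset.subset_insert _ _, hv⟩
  · refine ⟨f, hf, Finset.insert_subset_insert _ (Finset.erase_subset _ _), ?_⟩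
    rcases Finset.mem_insert.1 hv with h | h
    · exact absurd h hvt
    · exact Finset.mem_of_mem_erase h

theorem TopA1_nadj {f : Finset V} {t x y : V} {F : Finset (Finset V)} (hf : f ∈ F)
    (hx : x ≠ t) (hy : y ≠ t) (h : ¬ AdjF F x y) : ¬ AdjF (TopA1_stk f t F) x y := by
  rintro ⟨hxy, g, hg, hxg, hyg⟩
  obtain ⟨g', hg', hsub, hxg'⟩ := TopA1_sub hf hg hxg hx
  refine h ⟨hxy, g', hg', hxg', ?_⟩
  rcases Finset.mem_insert.1 (hsub hyg) with h1 | h1
  · exact absurd h1 hy
  · exact h1

theorem TopA1_verts {l : List V} {f : Finset V} {t v : V} {F : Finset (Finset V)} (hf : f ∈ F)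
    (hv : v ∈ verts l (TopA1_stk f t F)) : v = t ∨ v ∈ verts l F := by
  by_cases hvt : v = t
  · exact Or.inl hvt
  · right
    rcases Finset.mem_union.1 hv with h | h
    · exact Finset.mem_union_left _ h
    · obtain ⟨g, hg, hvg⟩ := Finset.mem_biUnion.1 h
      obtain ⟨g', hg', _, hvg'⟩ := TopA1_sub hf hg hvg hvt
      exact DiscA_mem_verts_right hg' hvg'

theorem TopA1_insert {f f0 : Finset V} {t : V} {F : Finset (Finset V)} (hne : f0 ≠ f) :
    insert f0 (TopA1_stk f t F) = TopA1_stk f t (insert f0 F) := by
  rw [TopA1_stk, TopA1_stk, Finset.erase_insert_of_ne hne, Finset.insert_union]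

theorem TopA1_union_left {f : Finset V} {t : V} {F₁ F₂ : Finset (Finset V)} (hne : f ∉ F₂) :
    TopA1_stk f t F₁ ∪ F₂ = TopA1_stk f t (F₁ ∪ F₂) := by
  rw [TopA1_stk, TopA1_stk, Finset.erase_union_distrib, Finset.erase_eq_of_notMem hne]
  ext g
  simp only [Finset.mem_union]
  tauto

theorem TopA1_union_right {f : Finset V} {t : V} {F₁ F₂ : Finset (Finset V)} (hne : f ∉ F₁) :
    F₁ ∪ TopA1_stk f t F₂ = TopA1_stk f t (F₁ ∪ F₂) := by
  rw [TopA1_stk, TopA1_stk, Finset.erase_union_distrib, Finset.erase_eq_of_notMem hne]
  ext g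
  simp only [Finset.mem_union]
  tauto

theorem TopA1_root {x y s t : V} {G : Finset (Finset V)} (hxy : x ≠ y) (hxs : x ≠ s)
    (hys : y ≠ s) (hG : ({x, y, s} : Finset V) ∉ G) :
    TopA1_stk {x, y, s} t (insert {x, y, s} G) =
      insert {x, y, t} (insert {x, t, s} (insert {y, s, t} G)) := by
  have e1 : ({x, t, s} : Finset V) = {x, s, t} := by
    ext z
    simp only [Finset.mem_insert, Finset.mem_singleton]
    tauto
  rw [TopA1_stk, Finset.erase_insert hG, TopA1_img hxy hxs hys, e1]
  ext g
  simp only [Finset.mem_union, Finset.mem_insert, Finset.mem_singleton]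
  tauto

omit [DecidableEq V] in
theorem TopA1_l1 {x y s v : V} {m : List V} (h : v ∈ x :: (m ++ [y, s])) :
    v ∈ x :: (m ++ [y]) ∨ v = s := by
  simp only [List.mem_cons, List.mem_append, List.not_mem_nil, or_false] at h ⊢
  tauto

omit [DecidableEq V] in
theorem TopA1_l2 {x y s v : V} {m₁ m₂ : List V} (h : v ∈ x :: (m₁ ++ [s])) :
    v ∈ x :: (m₁ ++ s :: (m₂ ++ [y])) := by
  simp only [List.mem_cons, List.mem_append, List.not_mem_nil, or_false] at h ⊢
  tauto

omit [DecidableEq V] in
theorem TopA1_l3 {x y s v : V} {m₁ m₂ : List V} (h : v ∈ s :: (m₂ ++ [y])) :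
    v ∈ x :: (m₁ ++ s :: (m₂ ++ [y])) := by
  simp only [List.mem_cons, List.mem_append, List.not_mem_nil, or_false] at h ⊢
  tauto

omit [DecidableEq V] in
theorem TopA1_l4 {y s v : V} {m₂ : List V} (h : v ∈ m₂ ++ y :: s :: []) :
    v ∈ s :: (m₂ ++ [y]) := by
  simp only [List.mem_cons, List.mem_append, List.not_mem_nil, or_false] at h ⊢
  tauto

omit [DecidableEq V] in
theorem TopA1_l5 {y s t v : V} {m₂ : List V} (h : v ∈ s :: ((m₂ ++ [y]) ++ [t])) :
    v ∈ s :: (m₂ ++ [y]) ∨ v = t := by
  simp only [List.mem_cons, List.mem_append, List.not_mem_nil, or_false] at h ⊢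
  tauto

theorem TopA1_n3 {x a b c : V} (h1 : x ≠ a) (h2 : x ≠ b) (h3 : x ≠ c) :
    x ∉ ({a, b, c} : Finset V) := by
  simp only [Finset.mem_insert, Finset.mem_singleton]
  tauto

theorem TopA1_main {l : List V} {F : Finset (Finset V)} (h : Disc l F) {f : Finset V} {t : V}
    (hf : f ∈ F) (ht : t ∉ verts l F) : Disc l (TopA1_stk f t F) := by
  induction h with
  | edge h => simp at hf
  | @inner x m y s F hd hm hxy ih =>
    have hnd := hd.nodup
    have hne : x ≠ y := by
      rintro rfl
      simp at hnd
    have hxs : x ≠ s := by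
      rintro rfl
      simp at hnd
    have hys : y ≠ s := by
      rintro rfl
      have h2 : x :: (m ++ [y, y]) = (x :: m) ++ [y, y] := by simp
      rw [h2] at hnd
      have h3 := hnd.of_append_right
      simp at h3
    have ht' : t ∉ verts (x :: (m ++ [y, s])) F := by
      intro hh
      apply ht
      rcases Finset.mem_union.1 hh with h1 | h1
      · have h2 := List.mem_toFinset.1 h1
        rcases TopA1_l1 h2 with h3 | h3
        · exact DiscA_mem_verts_left h3
        · exact DiscA_mem_verts_right (Finset.mem_insert_self _ _) (by simp [h3])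
      · obtain ⟨g, hg, htg⟩ := Finset.mem_biUnion.1 h1
        exact DiscA_mem_verts_right (Finset.mem_insert_of_mem hg) htg
    have hxt : x ≠ t := by
      rintro rfl
      exact ht' (DiscA_mem_verts_left (by simp))
    have hyt : y ≠ t := by
      rintro rfl
      exact ht' (DiscA_mem_verts_left (by simp))
    have hst : s ≠ t := by
      rintro rfl
      exact ht' (DiscA_mem_verts_left (by simp))
    have hF0 : ({x, y, s} : Finset V) ∉ F := by
      intro hmem
      exact hxy ⟨hne, _, hmem, by simp, by simp⟩
    by_cases hff : f = {x, y, s}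
    · subst hff
      rw [TopA1_root hne hxs hys hF0]
      have d1 : Disc ((x :: m) ++ y :: t :: s :: []) (insert {y, s, t} F) := by
        apply Disc.ear
        · simpa using hd
        · simpa using ht'
      have d2 : Disc (x :: ((m ++ [y]) ++ [t])) (insert {x, t, s} (insert {y, s, t} F)) := by
        apply Disc.inner
        · simpa using d1
        · simp
        · rintro ⟨_, g, hg, hxg, htg⟩
          rcases Finset.mem_insert.1 hg with rfl | hg
          · exact TopA1_n3 hne hxs hxt hxg
          · exact ht' (DiscA_mem_verts_right hg htg)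
      apply Disc.inner
      · simpa using d2
      · exact hm
      · rintro ⟨_, g, hg, hxg, hyg⟩
        rcases Finset.mem_insert.1 hg with rfl | hg
        · exact TopA1_n3 hne.symm hyt hys hyg
        · rcases Finset.mem_insert.1 hg with rfl | hg
          · exact TopA1_n3 hne hxs hxt hxg
          · exact hxy ⟨hne, g, hg, hxg, hyg⟩
    · have hfF : f ∈ F := (Finset.mem_insert.1 hf).resolve_left hff
      rw [← TopA1_insert (Ne.symm hff)]
      exact Disc.inner (ih hfF ht') hm (TopA1_nadj hfF hxt hyt hxy)
  | @split x m₁ s m₂ y F₁ F₂ h₁ h₂ hdis ih₁ ih₂ =>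
    have n1 := h₁.nodup
    have n2 := h₂.nodup
    have hxs : x ≠ s := by
      rintro rfl
      simp at n1
    have hys : y ≠ s := by
      rintro rfl
      simp at n2
    have hy1 : y ∉ verts (x :: (m₁ ++ [s])) F₁ := fun hh =>
      hys (hdis y hh (DiscA_mem_verts_left (by simp)))
    have hx2 : x ∉ verts (s :: (m₂ ++ [y])) F₂ := fun hh =>
      hxs (hdis x (DiscA_mem_verts_left (by simp)) hh)
    have hne : x ≠ y := by
      rintro rfl
      exact hy1 (DiscA_mem_verts_left (by simp))
    have ht1 : t ∉ verts (x :: (m₁ ++ [s])) F₁ := by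
      intro hh
      apply ht
      rcases Finset.mem_union.1 hh with h1 | h1
      · exact DiscA_mem_verts_left (TopA1_l2 (List.mem_toFinset.1 h1))
      · obtain ⟨g, hg, htg⟩ := Finset.mem_biUnion.1 h1
        exact DiscA_mem_verts_right
          (Finset.mem_insert_of_mem (Finset.mem_union_left _ hg)) htg
    have ht2 : t ∉ verts (s :: (m₂ ++ [y])) F₂ := by
      intro hh
      apply ht
      rcases Finset.mem_union.1 hh with h1 | h1
      · exact DiscA_mem_verts_left (TopA1_l3 (List.mem_toFinset.1 h1))
      · obtain ⟨g, hg, htg⟩ := Finset.mem_biUnion.1 h1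
        exact DiscA_mem_verts_right
          (Finset.mem_insert_of_mem (Finset.mem_union_right _ hg)) htg
    have hxt : x ≠ t := by
      rintro rfl
      exact ht1 (DiscA_mem_verts_left (by simp))
    have hyt : y ≠ t := by
      rintro rfl
      exact ht2 (DiscA_mem_verts_left (by simp))
    have hst : s ≠ t := by
      rintro rfl
      exact ht2 (DiscA_mem_verts_left (by simp))
    have h01 : ({x, y, s} : Finset V) ∉ F₁ := fun hm =>
      hy1 (DiscA_mem_verts_right hm (by simp))
    have h02 : ({x, y, s} : Finset V) ∉ F₂ := fun hm =>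
      hx2 (DiscA_mem_verts_right hm (by simp))
    have hdj : ∀ g, g ∈ F₁ → g ∈ F₂ → False := by
      intro g hg1 hg2
      have h5 : g ⊆ {s} := by
        intro v hv
        rw [Finset.mem_singleton]
        exact hdis v (DiscA_mem_verts_right hg1 hv) (DiscA_mem_verts_right hg2 hv)
      have h6 := Finset.card_le_card h5
      rw [h₁.card3 g hg1, Finset.card_singleton] at h6
      omega
    by_cases hff : f = {x, y, s}
    · subst hff
      rw [TopA1_root hne hxs hys (fun hh => (Finset.mem_union.1 hh).elim h01 h02)]
      have d0 : Disc (m₂ ++ y :: s :: []) F₂ := by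
        have := Disc.rotate h₂
        simpa using this
      have ht2' : t ∉ verts (m₂ ++ y :: s :: []) F₂ := by
        intro hh
        apply ht2
        rcases Finset.mem_union.1 hh with h1 | h1
        · exact DiscA_mem_verts_left (TopA1_l4 (List.mem_toFinset.1 h1))
        · exact Finset.mem_union_right _ h1
      have d1 : Disc (m₂ ++ y :: t :: s :: []) (insert {y, s, t} F₂) := Disc.ear d0 ht2'
      have d2 : Disc (s :: ((m₂ ++ [y]) ++ [t])) (insert {y, s, t} F₂) := by
        have : Disc ((m₂ ++ [y, t]) ++ [s]) (insert {y, s, t} F₂) := by simpa using d1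
        have := Disc.append_comm this
        simpa using this
      have d3 : Disc (x :: (m₁ ++ s :: ((m₂ ++ [y]) ++ [t])))
          (insert {x, t, s} (F₁ ∪ insert {y, s, t} F₂)) := by
        refine Disc.split h₁ d2 ?_
        intro v hv1 hv2
        rcases Finset.mem_union.1 hv2 with h1 | h1
        · have h2 := List.mem_toFinset.1 h1
          rcases TopA1_l5 h2 with h3 | h3
          · exact hdis v hv1 (DiscA_mem_verts_left h3)
          · subst h3
            exact absurd hv1 ht1
        · obtain ⟨g, hg, hvg⟩ := Finset.mem_biUnion.1 h1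
          rcases Finset.mem_insert.1 hg with rfl | hg
          · have hvg' : v ∈ ({y, s, t} : Finset V) := hvg
            simp only [Finset.mem_insert, Finset.mem_singleton] at hvg'
            rcases hvg' with rfl | rfl | rfl
            · exact absurd hv1 hy1
            · rfl
            · exact absurd hv1 ht1
          · exact hdis v hv1 (DiscA_mem_verts_right hg hvg)
      have e1 : x :: (m₁ ++ s :: (m₂ ++ [y])) = x :: ((m₁ ++ s :: m₂) ++ [y]) := by simp
      have e2 : insert ({x, t, s} : Finset V) (insert {y, s, t} (F₁ ∪ F₂)) =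
          insert {x, t, s} (F₁ ∪ insert {y, s, t} F₂) := by
        rw [Finset.union_insert]
      rw [e1, e2]
      apply Disc.inner
      · simpa using d3
      · simp
      · rintro ⟨_, g, hg, hxg, hyg⟩
        rcases Finset.mem_insert.1 hg with rfl | hg
        · exact TopA1_n3 hne.symm hyt hys hyg
        · rcases Finset.mem_union.1 hg with hg | hg
          · exact hy1 (DiscA_mem_verts_right hg hyg)
          · rcases Finset.mem_insert.1 hg with rfl | hg
            · exact TopA1_n3 hne hxs hxt hxg
            · exact hx2 (DiscA_mem_verts_right hg hxg)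
    · have hfF := (Finset.mem_insert.1 hf).resolve_left hff
      rw [← TopA1_insert (Ne.symm hff)]
      rcases Finset.mem_union.1 hfF with hf1 | hf2
      · rw [← TopA1_union_left (fun hh => hdj f hf1 hh)]
        refine Disc.split (ih₁ hf1 ht1) h₂ ?_
        intro v hv1 hv2
        rcases TopA1_verts hf1 hv1 with h | h
        · subst h
          exact absurd hv2 ht2
        · exact hdis v h hv2
      · rw [← TopA1_union_right (fun hh => hdj f hh hf2)]
        refine Disc.split h₁ (ih₂ hf2 ht2) ?_
        intro v hv1 hv2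
        rcases TopA1_verts hf2 hv2 with h | h
        · subst h
          exact absurd hv1 ht1
        · exact hdis v hv1 h

/-- Insert a new vertex `t` into the face `{a, b, c}`. Induction on `Disc`. If the face is in the
smaller disc (or in one of the two parts) use the induction hypothesis and apply the constructor
again (the new adjacencies contain `t`, so `¬ AdjF F x y` is preserved). If it is the root face
`{x, y, r}`: for `inner`, i.e. `Disc (x :: (m ++ [y, r])) F₀`, add `{y, r, t}` by `Disc.ear` (boundary
`x :: (m ++ [y, t, r])`), `{t, r, x}` by `Disc.close` (boundary `x :: (m ++ [y, t])`), and the root face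
`{x, y, t}` by `Disc.inner`. For `split`: first `{x, y, r}` is replaced by the same three faces: from the
parts `x :: (m₁ ++ [r])` and `r :: (m₂ ++ [y])` make `Disc.ear` at the root edge `r y` of the second part
(boundary `r :: (m₂ ++ [y, t])` after rotation, face `{r, y, t}`), join the parts by the face
`{x, r, t}` (`Disc.split` with root edge `x t` and apex `r`: boundary `x :: (m₁ ++ r :: (m₂ ++ [y, t]))`),
and then `Disc.inner` with `{x, y, t}`. -/
theorem Disc.stack {l : List V} {F : Finset (Finset V)} (h : Disc l F) {a b c t : V}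
    (hf : ({a, b, c} : Finset V) ∈ F) (ht : t ∉ verts l F) :
    Disc l (insert {a, b, t} (insert {b, c, t} (insert {a, c, t} (F.erase {a, b, c})))) := by
  have hc := h.card3 _ hf
  have hab : a ≠ b := by
    rintro rfl
    have := Finset.card_le_two (a := a) (b := c)
    rw [Finset.insert_eq_self.2 (by simp)] at hc
    omega
  have hac : a ≠ c := by
    rintro rfl
    have := Finset.card_le_two (a := b) (b := a)
    rw [Finset.insert_eq_self.2 (by simp)] at hc
    omega
  have hbc : b ≠ c := by
    rintro rfl
    have := Finset.card_le_two (a := a) (b := b)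
    rw [Finset.insert_eq_self.2 (show b ∈ ({b} : Finset V) by simp)] at hc
    omega
  have h1 := TopA1_main h hf ht
  rw [TopA1_stk, TopA1_img hab hac hbc] at h1
  have e : insert ({a, b, t} : Finset V) (insert {b, c, t} (insert {a, c, t}
      (F.erase {a, b, c}))) = F.erase {a, b, c} ∪ {{b, c, t}, {a, c, t}, {a, b, t}} := by
    ext g
    simp only [Finset.mem_union, Finset.mem_insert, Finset.mem_singleton]
    tauto
  rw [e]
  exact h1

end EPG26
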