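import Pool.Agent.W_26e041_h61.DiscC

/-!
Surgery of triangulated discs: flipping an edge.
-/

namespace EPG26

variable {V : Type*} [DecidableEq V]

theorem TopA2_mem {l : List V} {F : Finset (Finset V)} {v : V} :
    v ∈ verts l F ↔ v ∈ l ∨ ∃ f ∈ F, v ∈ f := by
  unfold verts
  rw [Finset.mem_union, List.mem_toFinset, Finset.mem_biUnion]
  rfl

theorem TopA2_third {x y s t : V} (h1 : x ≠ s) (h2 : y ≠ s)
    (h : ({x, y, t} : Finset V) = {x, y, s}) : t = s := by
  have h3 : s ∈ ({x, y, t} : Finset V) := by rw [h]; simp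
  simp only [Finset.mem_insert, Finset.mem_singleton] at h3
  rcases h3 with h3 | h3 | h3
  · exact absurd h3.symm h1
  · exact absurd h3.symm h2
  · exact h3.symm

theorem TopA2_ne {l : List V} {F : Finset (Finset V)} (h : Disc l F) {x y z : V}
    (hf : ({x, y, z} : Finset V) ∈ F) : x ≠ y ∧ x ≠ z ∧ y ≠ z := by
  have h1 := h.card3 _ hf
  refine ⟨?_, ?_, ?_⟩
  · rintro rfl
    have h2 : ({x, x, z} : Finset V).card ≤ 2 := by
      rw [Finset.insert_eq_of_mem (Finset.mem_insert_self x {z})]
      exact Finset.card_le_two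
    omega
  · rintro rfl
    have h2 : ({x, y, x} : Finset V).card ≤ 2 := by
      rw [Finset.insert_eq_of_mem (by simp)]
      exact Finset.card_le_two
    omega
  · rintro rfl
    have h2 : ({x, y, y} : Finset V).card ≤ 2 := by
      rw [Finset.pair_eq_singleton]
      exact Finset.card_le_two
    omega

/-- the root face `{x, y, t}`, `t` inner, the edge `x t` -/
theorem TopA2_inner {x y t d : V} {m : List V} {F : Finset (Finset V)}
    (h : Disc (x :: (m ++ [y, t])) F) (hm : m ≠ []) (hxy : ¬ AdjF F x y)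
    (hd : ({x, t, d} : Finset V) ∈ F) (hyd : y ≠ d) (hn : ¬ AdjF F y d) :
    Disc (x :: (m ++ [y])) (insert {x, y, d} (insert {y, t, d} (F.erase {x, t, d}))) := by
  obtain ⟨n1, n2, n3⟩ := TopA2_ne h hd
  have hnd := h.nodup
  have hxy' : x ≠ y := by
    rintro rfl
    simp at hnd
  have hr : Disc (x :: ((m ++ [y]) ++ [t])) F := by simpa using h
  obtain ⟨s, F', hs1, hs2, hs3⟩ := hr.peel (by simp)
  have hsd : s = d := by
    have h1 : ({x, t, s} : Finset V) = {x, t, d} :=
      hr.root_unique (by simp) (by rw [hs2]; exact Finset.mem_insert_self _ _) hd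
        (by simp) (by simp) (by simp) (by simp)
    exact TopA2_third n2 n3 h1
  subst hsd
  have hF' : F.erase {x, t, s} = F' := by
    rw [hs2, Finset.erase_insert hs1]
  have hF'F : ∀ f ∈ F', f ∈ F := fun f hf => by
    rw [hs2]
    exact Finset.mem_insert_of_mem hf
  have e1 : ({y, t, s} : Finset V) = {y, s, t} := by rw [Finset.pair_comm]
  rw [hF', e1]
  rcases hs3 with ⟨g1, g2, g3⟩ | ⟨m₁, m₂, F₁, F₂, g1, g2, g3, g4, g5, g6⟩
  · have g2' : Disc ((x :: m) ++ y :: t :: s :: []) F' := by simpa using g2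
    have g4 := g2'.close (Or.inl (by simp)) (fun ⟨h1, f, hf, h2⟩ => hn ⟨h1, f, hF'F f hf, h2⟩)
    have g5 : Disc (x :: (m ++ [y, s])) (insert {y, s, t} F') := by simpa using g4
    refine Disc.inner g5 hm ?_
    rintro ⟨-, f, hf, h2, h3⟩
    rcases Finset.mem_insert.1 hf with rfl | hf
    · simp only [Finset.mem_insert, Finset.mem_singleton] at h2
      rcases h2 with h2 | h2 | h2
      · exact hxy' h2
      · exact n2 h2
      · exact n1 h2
    · exact hxy ⟨hxy', f, hF'F f hf, h2, h3⟩
  · -- `s` on the boundary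
    rcases List.eq_nil_or_concat' m₂ with e | ⟨n, z, e⟩
    · subst e
      have h1 : y = s := by
        have := List.append_inj' g1 rfl
        simpa using this.2
      exact absurd h1 hyd
    · subst e
      have g1' : m ++ [y] = (m₁ ++ s :: n) ++ [z] := by rw [g1]; simp
      obtain ⟨e2, e3⟩ := List.append_inj' g1' rfl
      have e4 : y = z := by simpa using e3
      subst e4
      subst e2
      have hF₁ : ∀ f ∈ F₁, f ∈ F := fun f hf => hF'F f (by
        rw [g2]
        exact Finset.mem_union_left _ hf)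
      have hF₂ : ∀ f ∈ F₂, f ∈ F := fun f hf => hF'F f (by
        rw [g2]
        exact Finset.mem_union_right _ hf)
      have hsy : ¬ AdjF F₂ s y := fun ⟨h1, f, hf, h2, h3⟩ => hn ⟨h1.symm, f, hF₂ f hf, h3, h2⟩
      have g5' : Disc (s :: (n ++ [y, t])) F₂ := by simpa using g5
      have hn' : n ≠ [] := by
        rintro rfl
        have g7 : Disc ([] ++ s :: y :: [t]) F₂ := by simpa using g5'
        exact hsy (g7.bd_adj (Or.inr (by simp)))
      have g7 := Disc.split g4 (Disc.inner g5' hn' hsy) (by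
        intro v hv1 hv2
        refine g6 v hv1 ?_
        rw [TopA2_mem] at hv2 ⊢
        rcases hv2 with hv2 | ⟨f, hf, hv2⟩
        · left
          simp only [List.mem_cons, List.mem_append, List.not_mem_nil, or_false] at hv2 ⊢
          tauto
        · rcases Finset.mem_insert.1 hf with rfl | hf
          · left
            simp only [Finset.mem_insert, Finset.mem_singleton] at hv2
            simp only [List.mem_cons, List.mem_append, List.not_mem_nil, or_false]
            tauto
          · exact Or.inr ⟨f, hf, hv2⟩)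
      have e5 : x :: (m₁ ++ s :: n ++ [y]) = x :: (m₁ ++ s :: (n ++ [y])) := by simp
      have e6 : insert {y, s, t} F' = F₁ ∪ insert {s, y, t} F₂ := by
        rw [g2, Finset.union_insert, DiscC_swap y s t]
      rw [e5, e6]
      exact g7

/-- the root face `{x, y, t}`, `t` on the boundary, the edge `x t` -/
theorem TopA2_split {x y t d : V} {m₁ m₂ : List V} {F₁ F₂ : Finset (Finset V)}
    (h₁ : Disc (x :: (m₁ ++ [t])) F₁) (h₂ : Disc (t :: (m₂ ++ [y])) F₂)
    (hdis : ∀ v, v ∈ verts (x :: (m₁ ++ [t])) F₁ → v ∈ verts (t :: (m₂ ++ [y])) F₂ → v = t)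
    (hd : ({x, t, d} : Finset V) ∈ F₁) :
    Disc (x :: (m₁ ++ t :: (m₂ ++ [y])))
      (insert {x, y, d} (insert {y, t, d} ((F₁.erase {x, t, d}) ∪ F₂))) := by
  obtain ⟨n1, n2, n3⟩ := TopA2_ne h₁ hd
  have hx2 : x ∉ verts (t :: (m₂ ++ [y])) F₂ := fun h5 =>
    n1 (hdis x (TopA2_mem.2 (Or.inl (by simp))) h5)
  have hyt : y ≠ t := by
    rintro rfl
    have := h₂.nodup
    simp at this
  have hy1 : y ∉ verts (x :: (m₁ ++ [t])) F₁ := fun h5 =>
    hyt (hdis y h5 (TopA2_mem.2 (Or.inl (by simp))))
  have hxy : x ≠ y := by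
    rintro rfl
    exact hx2 (TopA2_mem.2 (Or.inl (by simp)))
  have hm₁ : m₁ ≠ [] := by
    rintro rfl
    have h5 : Disc [x, t] F₁ := by simpa using h₁
    rw [h5.empty_of_two] at hd
    exact absurd hd (Finset.notMem_empty _)
  obtain ⟨s, F', hs1, hs2, hs3⟩ := h₁.peel hm₁
  have hsd : s = d := by
    have h1 : ({x, t, s} : Finset V) = {x, t, d} :=
      h₁.root_unique hm₁ (by rw [hs2]; exact Finset.mem_insert_self _ _) hd
        (by simp) (by simp) (by simp) (by simp)
    exact TopA2_third n2 n3 h1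
  subst hsd
  have hF' : F₁.erase {x, t, s} = F' := by
    rw [hs2, Finset.erase_insert hs1]
  have hF'F : ∀ f ∈ F', f ∈ F₁ := fun f hf => by
    rw [hs2]
    exact Finset.mem_insert_of_mem hf
  have hsv : s ∈ verts (x :: (m₁ ++ [t])) F₁ := TopA2_mem.2 (Or.inr ⟨_, hd, by simp⟩)
  have e1 : ({y, t, s} : Finset V) = {s, y, t} := by
    rw [Finset.pair_comm, DiscC_swap]
  rw [hF', e1]
  rcases hs3 with ⟨g1, g2, g3⟩ | ⟨p₁, p₂, G₁, G₂, g1, g2, g3, g4, g5, g6⟩
  · have g2' : Disc ((x :: (m₁ ++ [t])) ++ [s]) F' := by simpa using g2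
    have g4 : Disc (s :: ((x :: m₁) ++ [t])) F' := by
      have := g2'.append_comm
      simpa using this
    have g5 := Disc.split g4 h₂ (by
      intro v hv1 hv2
      refine hdis v ?_ hv2
      rw [TopA2_mem] at hv1
      rcases hv1 with hv1 | ⟨f, hf, hv1⟩
      · rcases List.mem_cons.1 hv1 with rfl | hv1
        · exact hsv
        · exact TopA2_mem.2 (Or.inl (by simpa using hv1))
      · exact TopA2_mem.2 (Or.inr ⟨f, hF'F f hf, hv1⟩))
    have g6 : Disc ([s] ++ (x :: (m₁ ++ t :: m₂) ++ [y])) (insert {s, y, t} (F' ∪ F₂)) := by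
      simpa using g5
    have g7 : Disc (x :: ((m₁ ++ t :: m₂) ++ [y, s])) (insert {s, y, t} (F' ∪ F₂)) := by
      have := g6.append_comm
      simpa using this
    have g8 := Disc.inner g7 (by simp) (by
      rintro ⟨-, f, hf, h2, h3⟩
      rcases Finset.mem_insert.1 hf with rfl | hf
      · simp only [Finset.mem_insert, Finset.mem_singleton] at h2
        rcases h2 with h2 | h2 | h2
        · exact n2 h2
        · exact hxy h2
        · exact n1 h2
      · rcases Finset.mem_union.1 hf with hf | hf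
        · exact hy1 (TopA2_mem.2 (Or.inr ⟨f, hF'F f hf, h3⟩))
        · exact hx2 (TopA2_mem.2 (Or.inr ⟨f, hf, h2⟩)))
    simpa using g8
  · subst g1
    have hG₁ : ∀ f ∈ G₁, f ∈ F₁ := fun f hf => hF'F f (by
      rw [g2]
      exact Finset.mem_union_left _ hf)
    have hG₂ : ∀ f ∈ G₂, f ∈ F₁ := fun f hf => hF'F f (by
      rw [g2]
      exact Finset.mem_union_right _ hf)
    have hv2 : ∀ v, v ∈ verts (s :: (p₂ ++ [t])) G₂ →
        v ∈ verts (x :: (p₁ ++ s :: p₂ ++ [t])) F₁ := by
      intro v hv
      rw [TopA2_mem] at hv ⊢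
      rcases hv with hv | ⟨f, hf, hv⟩
      · left
        simp only [List.mem_cons, List.mem_append, List.not_mem_nil, or_false] at hv ⊢
        tauto
      · exact Or.inr ⟨f, hG₂ f hf, hv⟩
    have g7 := Disc.split g5 h₂ (fun v hv1 hv2' => hdis v (hv2 v hv1) hv2')
    have g7' : Disc (s :: ((p₂ ++ t :: m₂) ++ [y])) (insert {s, y, t} (G₂ ∪ F₂)) := by
      simpa using g7
    have hts : t ∈ verts (s :: (p₂ ++ [t])) G₂ := TopA2_mem.2 (Or.inl (by simp))
    have hv1 : ∀ v, v ∈ verts (x :: (p₁ ++ [s])) G₁ →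
        v ∈ verts (x :: (p₁ ++ s :: p₂ ++ [t])) F₁ := by
      intro v hv
      rw [TopA2_mem] at hv ⊢
      rcases hv with hv | ⟨f, hf, hv⟩
      · left
        simp only [List.mem_cons, List.mem_append, List.not_mem_nil, or_false] at hv ⊢
        tauto
      · exact Or.inr ⟨f, hG₁ f hf, hv⟩
    have g8 := Disc.split g4 g7' (by
      intro v hv3 hv4
      have h5 : v ∈ verts (s :: (p₂ ++ [t])) G₂ ∨ v ∈ verts (t :: (m₂ ++ [y])) F₂ := by
        rw [TopA2_mem] at hv4
        rw [TopA2_mem, TopA2_mem]
        rcases hv4 with hv4 | ⟨f, hf, hv4⟩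
        · simp only [List.mem_cons, List.mem_append, List.not_mem_nil, or_false] at hv4 ⊢
          tauto
        · rcases Finset.mem_insert.1 hf with rfl | hf
          · simp only [Finset.mem_insert, Finset.mem_singleton] at hv4
            simp only [List.mem_cons, List.mem_append, List.not_mem_nil, or_false]
            tauto
          · rcases Finset.mem_union.1 hf with hf | hf
            · exact Or.inl (Or.inr ⟨f, hf, hv4⟩)
            · exact Or.inr (Or.inr ⟨f, hf, hv4⟩)
      rcases h5 with h5 | h5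
      · exact g6 v hv3 h5
      · have h6 : v = t := hdis v (hv1 v hv3) h5
        rw [h6] at hv3 ⊢
        exact g6 t hv3 hts)
    have e5 : x :: (p₁ ++ s :: p₂ ++ t :: (m₂ ++ [y])) =
        x :: (p₁ ++ s :: ((p₂ ++ t :: m₂) ++ [y])) := by simp
    have e6 : insert {s, y, t} (F' ∪ F₂) = G₁ ∪ insert {s, y, t} (G₂ ∪ F₂) := by
      rw [g2, Finset.union_insert, Finset.union_assoc]
    rw [e5, e6]
    exact g8

/-- the root face `{x, y, t}`, the edge `x t` -/
theorem TopA2_root {x y t d : V} {m : List V} {F : Finset (Finset V)}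
    (h : Disc (x :: (m ++ [y])) F) (hm : m ≠ []) (ht : ({x, y, t} : Finset V) ∈ F)
    (hd : ({x, t, d} : Finset V) ∈ F) (hyd : y ≠ d) (hn : ¬ AdjF F y d) :
    Disc (x :: (m ++ [y]))
      (insert {x, y, d} (insert {y, t, d} ((F.erase {x, y, t}).erase {x, t, d}))) := by
  obtain ⟨n1, n2, n3⟩ := TopA2_ne h ht
  obtain ⟨n4, n5, n6⟩ := TopA2_ne h hd
  obtain ⟨s, F', hs1, hs2, hs3⟩ := h.peel hm
  have hst : s = t := by
    have h1 : ({x, y, s} : Finset V) = {x, y, t} :=
      h.root_unique hm (by rw [hs2]; exact Finset.mem_insert_self _ _) ht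
        (by simp) (by simp) (by simp) (by simp)
    exact TopA2_third n2 n3 h1
  subst hst
  have hF' : F.erase {x, y, s} = F' := by
    rw [hs2, Finset.erase_insert hs1]
  have hF'F : ∀ f ∈ F', f ∈ F := fun f hf => by
    rw [hs2]
    exact Finset.mem_insert_of_mem hf
  have hd' : ({x, s, d} : Finset V) ∈ F' := by
    rw [← hF']
    refine Finset.mem_erase.2 ⟨?_, hd⟩
    intro h5
    have h6 : d ∈ ({x, y, s} : Finset V) := by rw [← h5]; simp
    simp only [Finset.mem_insert, Finset.mem_singleton] at h6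
    rcases h6 with h6 | h6 | h6
    · exact n5 h6.symm
    · exact hyd h6.symm
    · exact n6 h6.symm
  rw [hF']
  rcases hs3 with ⟨g1, g2, g3⟩ | ⟨m₁, m₂, F₁, F₂, g1, g2, g3, g4, g5, g6⟩
  · exact TopA2_inner g2 hm g3 hd' hyd (fun ⟨h1, f, hf, h2⟩ => hn ⟨h1, f, hF'F f hf, h2⟩)
  · subst g1
    have hx2 : x ∉ verts (s :: (m₂ ++ [y])) F₂ := fun h5 =>
      n2 (g6 x (TopA2_mem.2 (Or.inl (by simp))) h5)
    have hd2 : ({x, s, d} : Finset V) ∉ F₂ := fun h5 =>
      hx2 (TopA2_mem.2 (Or.inr ⟨_, h5, by simp⟩))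
    have hd1 : ({x, s, d} : Finset V) ∈ F₁ := by
      rw [g2] at hd'
      exact (Finset.mem_union.1 hd').resolve_right hd2
    have g7 := TopA2_split g4 g5 g6 hd1
    have e5 : x :: (m₁ ++ s :: m₂ ++ [y]) = x :: (m₁ ++ s :: (m₂ ++ [y])) := by simp
    have e6 : F'.erase {x, s, d} = F₁.erase {x, s, d} ∪ F₂ := by
      rw [g2, Finset.erase_union_distrib, Finset.erase_eq_of_notMem hd2]
    rw [e5, e6]
    exact g7

/-- one of the two faces is the root face -/
theorem TopA2_any {x y : V} {m : List V} {F : Finset (Finset V)}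
    (h : Disc (x :: (m ++ [y])) F) (hm : m ≠ []) {a b c d : V}
    (h1 : ({a, b, c} : Finset V) ∈ F) (h2 : ({b, c, d} : Finset V) ∈ F) (had : a ≠ d)
    (hn : ¬ AdjF F a d) (hx : x ∈ ({a, b, c} : Finset V)) (hy : y ∈ ({a, b, c} : Finset V)) :
    Disc (x :: (m ++ [y]))
      (insert {a, b, d} (insert {a, c, d} ((F.erase {a, b, c}).erase {b, c, d}))) := by
  obtain ⟨n1, n2, n3⟩ := TopA2_ne h h1
  obtain ⟨n4, n5, n6⟩ := TopA2_ne h h2
  have hxy : x ≠ y := by
    have hnd := h.nodup
    rintro rfl
    simp at hnd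
  -- not both `x`, `y` are on the edge `b c`
  have key : ¬ ((x = b ∧ y = c) ∨ (x = c ∧ y = b)) := by
    intro h5
    have h6 : ({a, b, c} : Finset V) = {b, c, d} :=
      h.root_unique hm h1 h2 hx hy (by rcases h5 with h5 | h5 <;> simp [h5.1])
        (by rcases h5 with h5 | h5 <;> simp [h5.2])
    have h7 : d ∈ ({a, b, c} : Finset V) := by rw [h6]; simp
    simp only [Finset.mem_insert, Finset.mem_singleton] at h7
    rcases h7 with h7 | h7 | h7
    · exact had h7.symm
    · exact n5 h7.symm
    · exact n6 h7.symm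
  -- the root lemma for both orientations
  have keyx : ∀ s, ({x, a, s} : Finset V) ∈ F → ({x, s, d} : Finset V) ∈ F → y = a →
      Disc (x :: (m ++ [y]))
        (insert {x, a, d} (insert {a, s, d} ((F.erase {x, a, s}).erase {x, s, d}))) := by
    intro s hs1 hs2 hya
    subst hya
    exact TopA2_root h hm hs1 hs2 had hn
  have keyy : ∀ s, ({y, a, s} : Finset V) ∈ F → ({y, s, d} : Finset V) ∈ F → x = a →
      Disc (x :: (m ++ [y]))
        (insert {y, a, d} (insert {a, s, d} ((F.erase {y, a, s}).erase {y, s, d}))) := by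
    intro s hs1 hs2 hxa
    subst hxa
    have h5 : Disc (y :: (m.reverse ++ [x])) F := by
      have := h.reverse
      simpa using this
    have h6 := (TopA2_root h5 (by simpa using hm) hs1 hs2 had hn).reverse
    simpa using h6
  simp only [Finset.mem_insert, Finset.mem_singleton] at hx hy
  have e3 : ∀ p q r : V, ({p, q, r} : Finset V) = {q, p, r} := DiscC_swap
  have e4 : ∀ p q r : V, ({p, q, r} : Finset V) = {p, r, q} := fun p q r => by
    rw [Finset.pair_comm]
  rcases hx with hx | hx | hx <;> rcases hy with hy | hy | hy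
  · exact absurd (hx.trans hy.symm) hxy
  · -- `x = a`, `y = b`
    have h5 := keyy c (by rw [hy, e3]; exact h1) (by rw [hy]; exact h2) hx
    rw [hy, e3 b a d, e3 b a c] at h5
    rw [hy]
    exact h5
  · -- `x = a`, `y = c`
    have h5 := keyy b (by rw [hy, e3, e4]; exact h1) (by rw [hy, e3]; exact h2) hx
    rw [hy, e3 c a d, e3 c a b, e4 a c b, e3 c b d] at h5
    rw [hy, Finset.insert_comm]
    exact h5
  · -- `x = b`, `y = a`
    have h5 := keyx c (by rw [hx, e3]; exact h1) (by rw [hx]; exact h2) hy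
    rw [hx, e3 b a d, e3 b a c] at h5
    rw [hx]
    exact h5
  · exact absurd (hx.trans hy.symm) hxy
  · exact absurd (Or.inl ⟨hx, hy⟩) key
  · -- `x = c`, `y = a`
    have h5 := keyx b (by rw [hx, e3, e4]; exact h1) (by rw [hx, e3]; exact h2) hy
    rw [hx, e3 c a d, e3 c a b, e4 a c b, e3 c b d] at h5
    rw [hx, Finset.insert_comm]
    exact h5
  · exact absurd (Or.inr ⟨hx, hy⟩) key
  · exact absurd (hx.trans hy.symm) hxy

/-- the new faces contain no new vertices -/
theorem TopA2_new {l : List V} {F : Finset (Finset V)} {a b c d : V}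
    (h1 : ({a, b, c} : Finset V) ∈ F) (h2 : ({b, c, d} : Finset V) ∈ F) {v : V}
    (hv : v ∈ verts l
      (insert {a, b, d} (insert {a, c, d} ((F.erase {a, b, c}).erase {b, c, d})))) :
    v ∈ verts l F := by
  rw [TopA2_mem] at hv ⊢
  rcases hv with hv | ⟨f, hf, hv⟩
  · exact Or.inl hv
  · right
    simp only [Finset.mem_insert, Finset.mem_erase] at hf
    rcases hf with rfl | rfl | hf
    · simp only [Finset.mem_insert, Finset.mem_singleton] at hv
      rcases hv with rfl | rfl | rfl
      · exact ⟨_, h1, by simp⟩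
      · exact ⟨_, h1, by simp⟩
      · exact ⟨_, h2, by simp⟩
    · simp only [Finset.mem_insert, Finset.mem_singleton] at hv
      rcases hv with rfl | rfl | rfl
      · exact ⟨_, h1, by simp⟩
      · exact ⟨_, h1, by simp⟩
      · exact ⟨_, h2, by simp⟩
    · exact ⟨f, hf.2.2, hv⟩

/-- the new adjacencies -/
theorem TopA2_adj {F : Finset (Finset V)} {a b c d x y : V}
    (h1 : ({a, b, c} : Finset V) ∈ F) (h2 : ({b, c, d} : Finset V) ∈ F)
    (hxy : ¬ AdjF F x y) (hn : ¬ ((x = a ∧ y = d) ∨ (x = d ∧ y = a))) :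
    ¬ AdjF (insert {a, b, d} (insert {a, c, d} ((F.erase {a, b, c}).erase {b, c, d}))) x y := by
  rintro ⟨h3, f, hf, h4, h5⟩
  simp only [Finset.mem_insert, Finset.mem_erase] at hf
  have k1 : ∀ {p q : V}, p ∈ ({a, b, c} : Finset V) → q ∈ ({a, b, c} : Finset V) → x = p → y = q →
      False := fun hp hq ep eq => hxy ⟨h3, _, h1, by rw [ep]; exact hp, by rw [eq]; exact hq⟩
  have k2 : ∀ {p q : V}, p ∈ ({b, c, d} : Finset V) → q ∈ ({b, c, d} : Finset V) → x = p → y = q →
      False := fun hp hq ep eq => hxy ⟨h3, _, h2, by rw [ep]; exact hp, by rw [eq]; exact hq⟩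
  rcases hf with rfl | rfl | hf
  · simp only [Finset.mem_insert, Finset.mem_singleton] at h4 h5
    rcases h4 with h4 | h4 | h4 <;> rcases h5 with h5 | h5 | h5
    · exact h3 (h4.trans h5.symm)
    · exact k1 (by simp) (by simp) h4 h5
    · exact hn (Or.inl ⟨h4, h5⟩)
    · exact k1 (by simp) (by simp) h4 h5
    · exact h3 (h4.trans h5.symm)
    · exact k2 (by simp) (by simp) h4 h5
    · exact hn (Or.inr ⟨h4, h5⟩)
    · exact k2 (by simp) (by simp) h4 h5
    · exact h3 (h4.trans h5.symm)
  · simp only [Finset.mem_insert, Finset.mem_singleton] at h4 h5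
    rcases h4 with h4 | h4 | h4 <;> rcases h5 with h5 | h5 | h5
    · exact h3 (h4.trans h5.symm)
    · exact k1 (by simp) (by simp) h4 h5
    · exact hn (Or.inl ⟨h4, h5⟩)
    · exact k1 (by simp) (by simp) h4 h5
    · exact h3 (h4.trans h5.symm)
    · exact k2 (by simp) (by simp) h4 h5
    · exact hn (Or.inr ⟨h4, h5⟩)
    · exact k2 (by simp) (by simp) h4 h5
    · exact h3 (h4.trans h5.symm)
  · exact hxy ⟨h3, f, hf.2.2, h4, h5⟩

/-- Flip the edge `b c` of the faces `{a, b, c}` and `{b, c, d}`, where `a, d` are not adjacent.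
Induction on `Disc`. If no one of the two faces is the root face `{x, y, t}`, both are in the smaller
disc, or in the same part of a split (they have two common vertices, the parts only one): use the
induction hypothesis and the constructor again (`{x, y}` is not `{a, d}` since `x, y` are adjacent).
Otherwise let the root face be one of the two faces (they are symmetric), say `{a, b, c}`; the edge
`b c` is in a face of the smaller discs, so it is not `x y`; up to symmetry (reversal, exchange of
`b, c`) it is `{x, t}` and `a = y`; the other case `{y, t}`, `a = x` is symmetric.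
`inner`: `Disc (x :: (m ++ [y, t])) F₀`, `{x, t, d} ∈ F₀`; rotate and `Disc.peel` at the edge `t x`, the
face there is `{x, t, d}` (`Disc.root_unique`). If `d` is inner: `Disc (x :: (m ++ [y, t, d])) F₁` up to
rotation; add `{y, t, d}` by `Disc.close` (`y, d` are not adjacent) and `{x, y, d}` by `Disc.inner`. If
`d` is on the boundary, `m = m₁ ++ d :: m₂`, with parts `x :: (m₁ ++ [d])` and `d :: (m₂ ++ [y, t])`: add
`{y, t, d}` to the second part (root edge `d y` after it; `m₂ ≠ []` because `y, d` are not adjacent),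
and join by `Disc.split` with the face `{x, y, d}`.
`split`: parts `x :: (m₁ ++ [t])` with `F₁`, `t :: (m₂ ++ [y])` with `F₂`, `{x, t, d} ∈ F₁`; peel the first
part at its root edge `x t`. If `d` is inner: `Disc (x :: (m₁ ++ [t, d])) F₁'`; rotate it to
`d :: x :: (m₁ ++ [t])`, join with the second part by `{d, y, t}` (`Disc.split`, root edge `d y`, apex
`t`), rotate, and add `{x, y, d}` by `Disc.inner`. If `d` is on the boundary, `m₁ = n₁ ++ d :: n₂`, with
parts `x :: (n₁ ++ [d])` and `d :: (n₂ ++ [t])`: join the second one with `t :: (m₂ ++ [y])` by the face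
`{d, y, t}`, and then with the first one by the face `{x, y, d}`. -/
theorem Disc.flip {l : List V} {F : Finset (Finset V)} (h : Disc l F) {a b c d : V}
    (h1 : ({a, b, c} : Finset V) ∈ F) (h2 : ({b, c, d} : Finset V) ∈ F) (had : a ≠ d)
    (hn : ¬ AdjF F a d) :
    Disc l (insert {a, b, d} (insert {a, c, d} ((F.erase {a, b, c}).erase {b, c, d}))) := by
  -- the two faces are symmetric
  have hsw : ∀ (F : Finset (Finset V)),
      insert {a, b, d} (insert {a, c, d} ((F.erase {a, b, c}).erase {b, c, d})) =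
      insert ({d, b, a} : Finset V) (insert {d, c, a} ((F.erase {d, b, c}).erase {b, c, a})) := by
    intro F
    have e1 : ({d, b, a} : Finset V) = {a, b, d} := by
      ext z; simp only [Finset.mem_insert, Finset.mem_singleton]; tauto
    have e2 : ({d, c, a} : Finset V) = {a, c, d} := by
      ext z; simp only [Finset.mem_insert, Finset.mem_singleton]; tauto
    have e3 : ({d, b, c} : Finset V) = {b, c, d} := by
      ext z; simp only [Finset.mem_insert, Finset.mem_singleton]; tauto
    have e4 : ({b, c, a} : Finset V) = {a, b, c} := by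
      ext z; simp only [Finset.mem_insert, Finset.mem_singleton]; tauto
    rw [e1, e2, e3, e4, Finset.erase_right_comm]
  have e3 : ({d, b, c} : Finset V) = {b, c, d} := by
    ext z; simp only [Finset.mem_insert, Finset.mem_singleton]; tauto
  have e4 : ({b, c, a} : Finset V) = {a, b, c} := by
    ext z; simp only [Finset.mem_insert, Finset.mem_singleton]; tauto
  -- one of the faces is the root face
  have hroot : ∀ {x y : V} {m : List V} {F : Finset (Finset V)} {t : V},
      Disc (x :: (m ++ [y])) F → m ≠ [] → ({a, b, c} : Finset V) ∈ F →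
      ({b, c, d} : Finset V) ∈ F → ¬ AdjF F a d →
      (({a, b, c} : Finset V) = {x, y, t} ∨ ({b, c, d} : Finset V) = {x, y, t}) →
      Disc (x :: (m ++ [y]))
        (insert {a, b, d} (insert {a, c, d} ((F.erase {a, b, c}).erase {b, c, d}))) := by
    intro x y m F t h hm h1 h2 hn h3
    rcases h3 with h3 | h3
    · exact TopA2_any h hm h1 h2 had hn (by rw [h3]; simp) (by rw [h3]; simp)
    · rw [hsw]
      refine TopA2_any h hm (by rw [e3]; exact h2) (by rw [e4]; exact h1) had.symm
        (fun ⟨g1, f, hf, g2, g3⟩ => hn ⟨g1.symm, f, hf, g3, g2⟩)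
        (by rw [e3, h3]; simp) (by rw [e3, h3]; simp)
  induction h with
  | edge _ => exact absurd h1 (Finset.notMem_empty _)
  | @inner x m y t F₀ hd hm hxy ih =>
    by_cases hr : ({a, b, c} : Finset V) = {x, y, t} ∨ ({b, c, d} : Finset V) = {x, y, t}
    · exact hroot (Disc.inner hd hm hxy) hm h1 h2 hn hr
    · rw [not_or] at hr
      obtain ⟨hr1, hr2⟩ := hr
      have g1 := (Finset.mem_insert.1 h1).resolve_left hr1
      have g2 := (Finset.mem_insert.1 h2).resolve_left hr2
      have g3 := ih g1 g2 (fun ⟨k1, f, hf, k2⟩ => hn ⟨k1, f, Finset.mem_insert_of_mem hf, k2⟩)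
      have hxy' : x ≠ y := by
        have hnd := hd.nodup
        rintro rfl
        simp at hnd
      have g4 : ¬ ((x = a ∧ y = d) ∨ (x = d ∧ y = a)) := by
        rintro (⟨k1, k2⟩ | ⟨k1, k2⟩)
        · exact hn ⟨had, _, Finset.mem_insert_self _ _, by rw [← k1]; simp, by rw [← k2]; simp⟩
        · exact hn ⟨had, _, Finset.mem_insert_self _ _, by rw [← k2]; simp, by rw [← k1]; simp⟩
      have g5 := Disc.inner g3 hm (TopA2_adj g1 g2 hxy g4)
      have e5 : insert {a, b, d} (insert {a, c, d}
          (((insert {x, y, t} F₀).erase {a, b, c}).erase {b, c, d})) =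
          insert ({x, y, t} : Finset V)
            (insert {a, b, d} (insert {a, c, d} ((F₀.erase {a, b, c}).erase {b, c, d}))) := by
        rw [Finset.erase_insert_of_ne (fun k => hr1 k.symm),
          Finset.erase_insert_of_ne (fun k => hr2 k.symm), Finset.insert_comm ({a, c, d} : Finset V) {x, y, t},
          Finset.insert_comm ({a, b, d} : Finset V) {x, y, t}]
      rw [e5]
      exact g5
  | @split x m₁ t m₂ y F₁ F₂ h₁ h₂ hdis ih₁ ih₂ =>
    by_cases hr : ({a, b, c} : Finset V) = {x, y, t} ∨ ({b, c, d} : Finset V) = {x, y, t}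
    · have e5 : x :: (m₁ ++ t :: (m₂ ++ [y])) = x :: ((m₁ ++ t :: m₂) ++ [y]) := by simp
      have g := Disc.split h₁ h₂ hdis
      rw [e5] at g ⊢
      exact hroot g (by simp) h1 h2 hn hr
    · rw [not_or] at hr
      obtain ⟨hr1, hr2⟩ := hr
      have g1 := Finset.mem_union.1 ((Finset.mem_insert.1 h1).resolve_left hr1)
      have g2 := Finset.mem_union.1 ((Finset.mem_insert.1 h2).resolve_left hr2)
      obtain ⟨n4, -, -⟩ := TopA2_ne (Disc.split h₁ h₂ hdis) h2
      -- the faces are in the same part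
      have k12 : ∀ {f g : Finset V}, f ∈ F₁ → g ∈ F₂ → b ∈ f → c ∈ f → b ∈ g → c ∈ g → False := by
        intro f g hf hg b1 c1 b2 c2
        have q1 := hdis b (TopA2_mem.2 (Or.inr ⟨f, hf, b1⟩)) (TopA2_mem.2 (Or.inr ⟨g, hg, b2⟩))
        have q2 := hdis c (TopA2_mem.2 (Or.inr ⟨f, hf, c1⟩)) (TopA2_mem.2 (Or.inr ⟨g, hg, c2⟩))
        exact n4 (q1.trans q2.symm)
      have i1 : b ∈ ({a, b, c} : Finset V) := by simp
      have i2 : c ∈ ({a, b, c} : Finset V) := by simp
      have i3 : b ∈ ({b, c, d} : Finset V) := by simp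
      have i4 : c ∈ ({b, c, d} : Finset V) := by simp
      have e5 : ∀ F₃ : Finset (Finset V), insert {a, b, d} (insert {a, c, d}
          (((insert {x, y, t} F₃).erase {a, b, c}).erase {b, c, d})) =
          insert ({x, y, t} : Finset V)
            (insert {a, b, d} (insert {a, c, d} ((F₃.erase {a, b, c}).erase {b, c, d}))) := by
        intro F₃
        rw [Finset.erase_insert_of_ne (fun k => hr1 k.symm),
          Finset.erase_insert_of_ne (fun k => hr2 k.symm), Finset.insert_comm ({a, c, d} : Finset V) {x, y, t},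
          Finset.insert_comm ({a, b, d} : Finset V) {x, y, t}]
      rw [e5]
      rcases g1 with g1 | g1
      · rcases g2 with g2 | g2
        · have j1 : ({a, b, c} : Finset V) ∉ F₂ := fun k => k12 g1 k i1 i2 i1 i2
          have j2 : ({b, c, d} : Finset V) ∉ F₂ := fun k => k12 g1 k i1 i2 i3 i4
          have g3 := ih₁ g1 g2 (fun ⟨k1, f, hf, k2⟩ => hn ⟨k1, f,
            Finset.mem_insert_of_mem (Finset.mem_union_left _ hf), k2⟩)
          have g4 := Disc.split g3 h₂ (fun v hv1 hv2 => hdis v (TopA2_new g1 g2 hv1) hv2)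
          have e6 : insert {a, b, d} (insert {a, c, d}
              (((F₁ ∪ F₂).erase {a, b, c}).erase {b, c, d})) =
              insert ({a, b, d} : Finset V) (insert {a, c, d}
                ((F₁.erase {a, b, c}).erase {b, c, d})) ∪ F₂ := by
            rw [Finset.erase_union_distrib, Finset.erase_eq_of_notMem j1,
              Finset.erase_union_distrib, Finset.erase_eq_of_notMem j2, Finset.insert_union,
              Finset.insert_union]
          rw [e6]
          exact g4
        · exact absurd (k12 g1 g2 i1 i2 i3 i4) id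
      · rcases g2 with g2 | g2
        · exact absurd (k12 g2 g1 i3 i4 i1 i2) id
        · have j1 : ({a, b, c} : Finset V) ∉ F₁ := fun k => k12 k g1 i1 i2 i1 i2
          have j2 : ({b, c, d} : Finset V) ∉ F₁ := fun k => k12 k g1 i3 i4 i1 i2
          have g3 := ih₂ g1 g2 (fun ⟨k1, f, hf, k2⟩ => hn ⟨k1, f,
            Finset.mem_insert_of_mem (Finset.mem_union_right _ hf), k2⟩)
          have g4 := Disc.split h₁ g3 (fun v hv1 hv2 => hdis v hv1 (TopA2_new g1 g2 hv2))
          have e6 : insert {a, b, d} (insert {a, c, d}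
              (((F₁ ∪ F₂).erase {a, b, c}).erase {b, c, d})) =
              F₁ ∪ insert ({a, b, d} : Finset V) (insert {a, c, d}
                ((F₂.erase {a, b, c}).erase {b, c, d})) := by
            rw [Finset.erase_union_distrib, Finset.erase_eq_of_notMem j1,
              Finset.erase_union_distrib, Finset.erase_eq_of_notMem j2, Finset.union_insert,
              Finset.union_insert]
          rw [e6]
          exact g4

end EPG26
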