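import Pool.Agent.W_26e041_h61.TopA1
import Pool.Agent.W_26e041_h61.TopA2
import Pool.Agent.W_26e041_h61.Fin

/-!
Suppressing a vertex: the class of induced subgraphs of triangulated discs.
-/

namespace EPG26

variable {V : Type*} [DecidableEq V]

theorem TopB_mem_tri {a b c w : V} : w ∈ ({a, b, c} : Finset V) ↔ w = a ∨ w = b ∨ w = c := by
  simp only [Finset.mem_insert, Finset.mem_singleton]

theorem TopB_img3 {W : Type*} [DecidableEq W] (f : V → W) (a b c : V) :
    ({a, b, c} : Finset V).image f = {f a, f b, f c} := by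
  simp only [Finset.image_insert, Finset.image_singleton]

omit [DecidableEq V] in
theorem TopB_img_adj {W : Type*} [DecidableEq W] {F : Finset (Finset V)} {f : V → W}
    (hf : Function.Injective f) (u v : V) :
    AdjF (F.image (fun s => s.image f)) (f u) (f v) ↔ AdjF F u v := by
  constructor
  · rintro ⟨h1, g, hg, h2, h3⟩
    obtain ⟨s, hs, rfl⟩ := Finset.mem_image.1 hg
    refine ⟨fun h => h1 (congrArg f h), s, hs, ?_, ?_⟩
    · obtain ⟨a, ha, hau⟩ := Finset.mem_image.1 h2
      exact hf hau ▸ ha
    · obtain ⟨a, ha, hau⟩ := Finset.mem_image.1 h3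
      exact hf hau ▸ ha
  · rintro ⟨h1, s, hs, h2, h3⟩
    exact ⟨fun h => h1 (hf h), s.image f, Finset.mem_image_of_mem _ hs,
      Finset.mem_image_of_mem f h2, Finset.mem_image_of_mem f h3⟩

theorem TopB_img_verts {W : Type*} [DecidableEq W] {l : List V} {F : Finset (Finset V)}
    {f : V → W} {w : W} :
    w ∈ verts (l.map f) (F.image (fun s => s.image f)) ↔ ∃ v, v ∈ verts l F ∧ f v = w := by
  constructor
  · intro h
    rcases DiscB_mem_verts.1 h with h | ⟨g, hg, h⟩
    · obtain ⟨v, hv, rfl⟩ := List.mem_map.1 h
      exact ⟨v, DiscA_mem_verts_left hv, rfl⟩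
    · obtain ⟨s, hs, rfl⟩ := Finset.mem_image.1 hg
      obtain ⟨v, hv, rfl⟩ := Finset.mem_image.1 h
      exact ⟨v, DiscA_mem_verts_right hs hv, rfl⟩
  · rintro ⟨v, hv, rfl⟩
    rcases DiscB_mem_verts.1 hv with h | ⟨g, hg, h⟩
    · exact DiscA_mem_verts_left (List.mem_map_of_mem h)
    · exact DiscA_mem_verts_right (Finset.mem_image_of_mem _ hg) (Finset.mem_image_of_mem f h)

/-- Renaming the vertices. -/
theorem Disc.map {W : Type*} [DecidableEq W] {l : List V} {F : Finset (Finset V)}
    (h : Disc l F) {f : V → W} (hf : Function.Injective f) :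
    Disc (l.map f) (F.image (fun s => s.image f)) := by
  induction h with
  | edge h =>
    simp only [List.map_cons, List.map_nil, Finset.image_empty]
    exact Disc.edge (fun e => h (hf e))
  | @inner x m y t F hd hm hxy ih =>
    simp only [List.map_cons, List.map_append, List.map_nil, Finset.image_insert,
      Finset.image_singleton] at ih ⊢
    exact Disc.inner ih (by simpa using hm) (fun h => hxy ((TopB_img_adj hf x y).1 h))
  | @split x m₁ t m₂ y F₁ F₂ h₁ h₂ hdis ih₁ ih₂ =>
    have key : ∀ v, v ∈ verts ((x :: (m₁ ++ [t])).map f) (F₁.image (fun s => s.image f)) →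
        v ∈ verts ((t :: (m₂ ++ [y])).map f) (F₂.image (fun s => s.image f)) → v = f t := by
      intro v hv1 hv2
      obtain ⟨a, ha, rfl⟩ := TopB_img_verts.1 hv1
      obtain ⟨b, hb, hab⟩ := TopB_img_verts.1 hv2
      have : b = a := hf hab
      subst this
      exact congrArg f (hdis b ha hb)
    simp only [List.map_cons, List.map_append, List.map_nil, Finset.image_insert,
      Finset.image_singleton, Finset.image_union] at ih₁ ih₂ key ⊢
    exact Disc.split ih₁ ih₂ key

/-- two vertices form a face with `s` -/
def TopB_R (F : Finset (Finset V)) (s p q : V) : Prop := p ≠ q ∧ ({s, p, q} : Finset V) ∈ F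

theorem TopB_R_symm {F : Finset (Finset V)} {s p q : V} (h : TopB_R F s p q) :
    TopB_R F s q p := by
  refine ⟨h.1.symm, ?_⟩
  have e : ({s, q, p} : Finset V) = {s, p, q} := by
    ext z
    simp only [Finset.mem_insert, Finset.mem_singleton]
    tauto
  rw [e]
  exact h.2

theorem TopB_RT_symm {F : Finset (Finset V)} {s p q : V}
    (h : Relation.ReflTransGen (TopB_R F s) p q) : Relation.ReflTransGen (TopB_R F s) q p := by
  induction h with
  | refl => exact Relation.ReflTransGen.refl
  | tail _ h ih => exact Relation.ReflTransGen.head (TopB_R_symm h) ih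

theorem TopB_RT_mono {F G : Finset (Finset V)} (hFG : F ⊆ G) {s p q : V}
    (h : Relation.ReflTransGen (TopB_R F s) p q) : Relation.ReflTransGen (TopB_R G s) p q := by
  induction h with
  | refl => exact Relation.ReflTransGen.refl
  | tail _ h ih => exact Relation.ReflTransGen.tail ih ⟨h.1, hFG h.2⟩

/-- Enough: every neighbour is connected to a fixed vertex. -/
theorem TopB_hub {F : Finset (Finset V)} {s k : V}
    (h : ∀ u, AdjF F s u → Relation.ReflTransGen (TopB_R F s) u k) {u v : V}
    (hu : AdjF F s u) (hv : AdjF F s v) : Relation.ReflTransGen (TopB_R F s) u v :=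
  (h u hu).trans (TopB_RT_symm (h v hv))

theorem TopB_link {l : List V} {F : Finset (Finset V)} (h : Disc l F) :
    ∀ {s u v : V}, AdjF F s u → AdjF F s v → Relation.ReflTransGen (TopB_R F s) u v := by
  induction h with
  | edge h =>
    rintro s u v ⟨_, f, hf, _⟩
    exact absurd hf (Finset.notMem_empty f)
  | @inner x m y t F hd hm hxy ih =>
    have hc : ∀ f ∈ insert {x, y, t} F, f.card = 3 := (Disc.inner hd hm hxy).card3
    have h3 : ({x, y, t} : Finset V).card = 3 := hc _ (Finset.mem_insert_self _ _)
    have hn : x ≠ y ∧ x ≠ t ∧ y ≠ t := by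
      refine ⟨?_, ?_, ?_⟩
      · rintro rfl
        have : ({x, x, t} : Finset V).card ≤ 2 := by
          rw [Finset.insert_eq_of_mem (Finset.mem_insert_self _ _)]
          exact Finset.card_le_two
        omega
      · rintro rfl
        have : ({x, y, x} : Finset V).card ≤ 2 := by
          rw [Finset.insert_eq_of_mem (by simp)]
          exact Finset.card_le_two
        omega
      · rintro rfl
        have : ({x, y, y} : Finset V).card ≤ 2 := by
          rw [Finset.insert_eq_of_mem (Finset.mem_singleton_self y : y ∈ ({y} : Finset V))]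
          exact Finset.card_le_two
        omega
    obtain ⟨nxy, nxt, nyt⟩ := hn
    have hsub : F ⊆ insert {x, y, t} F := Finset.subset_insert _ _
    have axt : AdjF F x t := by
      have h1 : Disc (x :: ((m ++ [y]) ++ [t])) F := by simpa using hd
      exact Disc.root_adj h1 (by simp)
    have ayt : AdjF F y t := by
      have h1 : Disc ((x :: m) ++ y :: t :: []) F := by simpa using hd
      exact Disc.bd_adj h1 (Or.inl (by simp))
    have hroot : ({x, y, t} : Finset V) ∈ insert {x, y, t} F := Finset.mem_insert_self _ _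
    -- faces at `s` are old ones or the root face
    have hor : ∀ s u, AdjF (insert {x, y, t} F) s u →
        AdjF F s u ∨ (s ≠ u ∧ s ∈ ({x, y, t} : Finset V) ∧ u ∈ ({x, y, t} : Finset V)) := by
      rintro s u ⟨hsu, f, hf, h4, h5⟩
      rcases Finset.mem_insert.1 hf with rfl | hf
      · exact Or.inr ⟨hsu, h4, h5⟩
      · exact Or.inl ⟨hsu, f, hf, h4, h5⟩
    intro s u v hu hv
    by_cases hsx : s = x
    · subst hsx
      refine TopB_hub (k := t) ?_ hu hv
      intro w hw
      rcases hor _ _ hw with h6 | ⟨h6, -, h7⟩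
      · exact TopB_RT_mono hsub (ih h6 axt)
      · rw [TopB_mem_tri] at h7
        rcases h7 with rfl | rfl | rfl
        · exact absurd rfl h6
        · exact Relation.ReflTransGen.single ⟨nyt, hroot⟩
        · exact Relation.ReflTransGen.refl
    by_cases hsy : s = y
    · subst hsy
      refine TopB_hub (k := t) ?_ hu hv
      intro w hw
      rcases hor _ _ hw with h6 | ⟨h6, -, h7⟩
      · exact TopB_RT_mono hsub (ih h6 ayt)
      · rw [TopB_mem_tri] at h7
        rcases h7 with rfl | rfl | rfl
        · exact Relation.ReflTransGen.single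
            ⟨nxt, Finset.mem_insert.2 (Or.inl (DiscC_swap _ _ _))⟩
        · exact absurd rfl h6
        · exact Relation.ReflTransGen.refl
    by_cases hst : s = t
    · subst hst
      refine TopB_hub (k := x) ?_ hu hv
      intro w hw
      have h8 : AdjF F s w := by
        rcases hor _ _ hw with h6 | ⟨h6, -, h7⟩
        · exact h6
        · rw [TopB_mem_tri] at h7
          rcases h7 with rfl | rfl | rfl
          · exact DiscC_symm axt
          · exact DiscC_symm ayt
          · exact absurd rfl h6
      exact TopB_RT_mono hsub (ih h8 (DiscC_symm axt))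
    · have hns : s ∉ ({x, y, t} : Finset V) := by
        rw [TopB_mem_tri]
        tauto
      have hu' : AdjF F s u := by
        rcases hor _ _ hu with h6 | ⟨-, h7, -⟩
        · exact h6
        · exact absurd h7 hns
      have hv' : AdjF F s v := by
        rcases hor _ _ hv with h6 | ⟨-, h7, -⟩
        · exact h6
        · exact absurd h7 hns
      exact TopB_RT_mono hsub (ih hu' hv')
  | @split x m₁ t m₂ y F₁ F₂ h₁ h₂ hdis ih₁ ih₂ =>
    have hd := Disc.split h₁ h₂ hdis
    have n1 := h₁.nodup
    have n2 := h₂.nodup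
    have nxt : x ≠ t := by
      rintro rfl
      simp at n1
    have nyt : y ≠ t := by
      rintro rfl
      simp at n2
    have nxy : x ≠ y := by
      intro hxy
      have h3 : x = t := hdis x (DiscA_mem_verts_left (by simp))
        (DiscA_mem_verts_left (by simp [hxy]))
      exact nxt h3
    have hroot : ({x, y, t} : Finset V) ∈ insert {x, y, t} (F₁ ∪ F₂) :=
      Finset.mem_insert_self _ _
    have hsub1 : F₁ ⊆ insert {x, y, t} (F₁ ∪ F₂) := fun f hf =>
      Finset.mem_insert_of_mem (Finset.mem_union_left _ hf)
    have hsub2 : F₂ ⊆ insert {x, y, t} (F₁ ∪ F₂) := fun f hf =>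
      Finset.mem_insert_of_mem (Finset.mem_union_right _ hf)
    -- neighbours in the parts
    have a1 : ∀ {s u}, AdjF F₁ s u → AdjF F₁ x t := by
      rintro s u ⟨_, f, hf, _⟩
      refine Disc.root_adj h₁ ?_
      rintro rfl
      have := Disc.empty_of_two (by simpa using h₁ : Disc [x, t] F₁)
      subst this
      exact absurd hf (Finset.notMem_empty f)
    have a2 : ∀ {s u}, AdjF F₂ s u → AdjF F₂ t y := by
      rintro s u ⟨_, f, hf, _⟩
      refine Disc.root_adj h₂ ?_
      rintro rfl
      have := Disc.empty_of_two (by simpa using h₂ : Disc [t, y] F₂)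
      subst this
      exact absurd hf (Finset.notMem_empty f)
    have hor : ∀ s u, AdjF (insert {x, y, t} (F₁ ∪ F₂)) s u → AdjF F₁ s u ∨ AdjF F₂ s u ∨
        (s ≠ u ∧ s ∈ ({x, y, t} : Finset V) ∧ u ∈ ({x, y, t} : Finset V)) := by
      rintro s u ⟨hsu, f, hf, h4, h5⟩
      rcases Finset.mem_insert.1 hf with rfl | hf
      · exact Or.inr (Or.inr ⟨hsu, h4, h5⟩)
      · rcases Finset.mem_union.1 hf with hf | hf
        · exact Or.inl ⟨hsu, f, hf, h4, h5⟩
        · exact Or.inr (Or.inl ⟨hsu, f, hf, h4, h5⟩)
    have v1 : ∀ {s u}, AdjF F₁ s u → s ∈ verts (x :: (m₁ ++ [t])) F₁ := by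
      rintro s u ⟨_, f, hf, h4, _⟩
      exact DiscA_mem_verts_right hf h4
    have v2 : ∀ {s u}, AdjF F₂ s u → s ∈ verts (t :: (m₂ ++ [y])) F₂ := by
      rintro s u ⟨_, f, hf, h4, _⟩
      exact DiscA_mem_verts_right hf h4
    intro s u v hu hv
    by_cases hsx : s = x
    · subst hsx
      refine TopB_hub (k := t) ?_ hu hv
      intro w hw
      rcases hor _ _ hw with h6 | h6 | ⟨h6, -, h7⟩
      · exact TopB_RT_mono hsub1 (ih₁ h6 (a1 h6))
      · exact absurd (hdis s (DiscA_mem_verts_left (by simp)) (v2 h6)) nxt
      · rw [TopB_mem_tri] at h7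
        rcases h7 with rfl | rfl | rfl
        · exact absurd rfl h6
        · exact Relation.ReflTransGen.single ⟨nyt, hroot⟩
        · exact Relation.ReflTransGen.refl
    by_cases hsy : s = y
    · subst hsy
      refine TopB_hub (k := t) ?_ hu hv
      intro w hw
      rcases hor _ _ hw with h6 | h6 | ⟨h6, -, h7⟩
      · exact absurd (hdis s (v1 h6) (DiscA_mem_verts_left (by simp))) nyt
      · exact TopB_RT_mono hsub2 (ih₂ h6 (DiscC_symm (a2 h6)))
      · rw [TopB_mem_tri] at h7
        rcases h7 with rfl | rfl | rfl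
        · exact Relation.ReflTransGen.single
            ⟨nxt, Finset.mem_insert.2 (Or.inl (DiscC_swap _ _ _))⟩
        · exact absurd rfl h6
        · exact Relation.ReflTransGen.refl
    by_cases hst : s = t
    · subst hst
      have hyx : Relation.ReflTransGen (TopB_R (insert {x, y, s} (F₁ ∪ F₂)) s) y x := by
        refine Relation.ReflTransGen.single ⟨nxy.symm, ?_⟩
        have e : ({s, y, x} : Finset V) = {x, y, s} := by
          ext z
          simp only [Finset.mem_insert, Finset.mem_singleton]
          tauto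
        rw [e]
        exact hroot
      refine TopB_hub (k := x) ?_ hu hv
      intro w hw
      rcases hor _ _ hw with h6 | h6 | ⟨h6, -, h7⟩
      · exact TopB_RT_mono hsub1 (ih₁ h6 (DiscC_symm (a1 h6)))
      · exact (TopB_RT_mono hsub2 (ih₂ h6 (a2 h6))).trans hyx
      · rw [TopB_mem_tri] at h7
        rcases h7 with rfl | rfl | rfl
        · exact Relation.ReflTransGen.refl
        · exact hyx
        · exact absurd rfl h6
    · have hns : s ∉ ({x, y, t} : Finset V) := by
        rw [TopB_mem_tri]
        tauto
      rcases hor _ _ hu with h6 | h6 | ⟨-, h7, -⟩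
      · rcases hor _ _ hv with h8 | h8 | ⟨-, h9, -⟩
        · exact TopB_RT_mono hsub1 (ih₁ h6 h8)
        · exact absurd (hdis s (v1 h6) (v2 h8)) hst
        · exact absurd h9 hns
      · rcases hor _ _ hv with h8 | h8 | ⟨-, h9, -⟩
        · exact absurd (hdis s (v1 h8) (v2 h6)) hst
        · exact TopB_RT_mono hsub2 (ih₂ h6 h8)
        · exact absurd h9 hns
      · exact absurd h7 hns

/-- The neighbours of a vertex `s` are connected through the faces at `s`. Induction on `Disc`:
`inner` with root face `{x, y, t}`: if `s` is not in it use the induction hypothesis; if `s = t`, then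
`x, y` are neighbours of `t` in the smaller disc (boundary edges); if `s = x` the only new neighbour is
`y`, which is connected to `t`, a neighbour of `x` in the smaller disc. `split`: the same with the two
parts (which may be edges); for `s = t` the neighbours in the two parts are connected by the root
face. -/
theorem Disc.link {l : List V} {F : Finset (Finset V)} (h : Disc l F) {s u v : V}
    (hu : AdjF F s u) (hv : AdjF F s v) :
    Relation.ReflTransGen (fun p q => p ≠ q ∧ ({s, p, q} : Finset V) ∈ F) u v :=
  TopB_link h hu hv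

theorem TopB_flip_adj {F : Finset (Finset V)} {a b c d : V}
    (h1 : ({a, b, c} : Finset V) ∈ F) (h2 : ({b, c, d} : Finset V) ∈ F) {p q : V} (hp : p ≠ b)
    (hq : q ≠ b) :
    AdjF (insert {a, b, d} (insert {a, c, d} ((F.erase {a, b, c}).erase {b, c, d}))) p q ↔
      AdjF F p q ∨ (p ≠ q ∧ ((p = a ∧ q = d) ∨ (p = d ∧ q = a))) := by
  constructor
  · rintro ⟨hpq, f, hf, h3, h4⟩
    rw [Finset.mem_insert, Finset.mem_insert, Finset.mem_erase, Finset.mem_erase] at hf
    rcases hf with rfl | rfl | ⟨-, -, hf⟩
    · rw [TopB_mem_tri] at h3 h4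
      rcases h3 with rfl | rfl | rfl
      · rcases h4 with rfl | rfl | rfl
        · exact absurd rfl hpq
        · exact absurd rfl hq
        · exact Or.inr ⟨hpq, Or.inl ⟨rfl, rfl⟩⟩
      · exact absurd rfl hp
      · rcases h4 with rfl | rfl | rfl
        · exact Or.inr ⟨hpq, Or.inr ⟨rfl, rfl⟩⟩
        · exact absurd rfl hq
        · exact absurd rfl hpq
    · rw [TopB_mem_tri] at h3 h4
      rcases h3 with rfl | rfl | rfl
      · rcases h4 with rfl | rfl | rfl
        · exact absurd rfl hpq
        · exact Or.inl ⟨hpq, _, h1, by simp, by simp⟩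
        · exact Or.inr ⟨hpq, Or.inl ⟨rfl, rfl⟩⟩
      · rcases h4 with rfl | rfl | rfl
        · exact Or.inl ⟨hpq, _, h1, by simp, by simp⟩
        · exact absurd rfl hpq
        · exact Or.inl ⟨hpq, _, h2, by simp, by simp⟩
      · rcases h4 with rfl | rfl | rfl
        · exact Or.inr ⟨hpq, Or.inr ⟨rfl, rfl⟩⟩
        · exact Or.inl ⟨hpq, _, h2, by simp, by simp⟩
        · exact absurd rfl hpq
    · exact Or.inl ⟨hpq, f, hf, h3, h4⟩
  · rintro (⟨hpq, f, hf, h3, h4⟩ | ⟨hpq, h⟩)
    · refine ⟨hpq, ?_⟩
      by_cases e1 : f = {a, b, c}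
      · subst e1
        refine ⟨{a, c, d}, by simp, ?_⟩
        rw [TopB_mem_tri] at h3 h4 ⊢
        rw [TopB_mem_tri]
        tauto
      · by_cases e2 : f = {b, c, d}
        · subst e2
          refine ⟨{a, c, d}, by simp, ?_⟩
          rw [TopB_mem_tri] at h3 h4 ⊢
          rw [TopB_mem_tri]
          tauto
        · refine ⟨f, ?_, h3, h4⟩
          rw [Finset.mem_insert, Finset.mem_insert, Finset.mem_erase, Finset.mem_erase]
          exact Or.inr (Or.inr ⟨e2, e1, hf⟩)
    · refine ⟨hpq, {a, b, d}, by simp, ?_⟩
      rw [TopB_mem_tri, TopB_mem_tri]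
      tauto

theorem TopB_flip_verts {l : List V} {F : Finset (Finset V)} {a b c d : V}
    (h1 : ({a, b, c} : Finset V) ∈ F) (h2 : ({b, c, d} : Finset V) ∈ F) (w : V) :
    w ∈ verts l (insert {a, b, d} (insert {a, c, d} ((F.erase {a, b, c}).erase {b, c, d}))) ↔
      w ∈ verts l F := by
  constructor
  · intro h
    rcases DiscB_mem_verts.1 h with h | ⟨f, hf, h⟩
    · exact DiscA_mem_verts_left h
    · rw [Finset.mem_insert, Finset.mem_insert, Finset.mem_erase, Finset.mem_erase] at hf
      rcases hf with rfl | rfl | ⟨-, -, hf⟩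
      · rw [TopB_mem_tri] at h
        rcases h with rfl | rfl | rfl
        · exact DiscA_mem_verts_right h1 (by simp)
        · exact DiscA_mem_verts_right h1 (by simp)
        · exact DiscA_mem_verts_right h2 (by simp)
      · rw [TopB_mem_tri] at h
        rcases h with rfl | rfl | rfl
        · exact DiscA_mem_verts_right h1 (by simp)
        · exact DiscA_mem_verts_right h1 (by simp)
        · exact DiscA_mem_verts_right h2 (by simp)
      · exact DiscA_mem_verts_right hf h
  · intro h
    rcases DiscB_mem_verts.1 h with h | ⟨f, hf, h⟩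
    · exact DiscA_mem_verts_left h
    · have k1 : ({a, b, d} : Finset V) ∈ insert {a, b, d} (insert {a, c, d}
          ((F.erase {a, b, c}).erase {b, c, d})) := by simp
      have k2 : ({a, c, d} : Finset V) ∈ insert {a, b, d} (insert {a, c, d}
          ((F.erase {a, b, c}).erase {b, c, d})) := by simp
      by_cases e1 : f = {a, b, c}
      · subst e1
        rw [TopB_mem_tri] at h
        rcases h with rfl | rfl | rfl
        · exact DiscA_mem_verts_right k1 (by simp)
        · exact DiscA_mem_verts_right k1 (by simp)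
        · exact DiscA_mem_verts_right k2 (by simp)
      · by_cases e2 : f = {b, c, d}
        · subst e2
          rw [TopB_mem_tri] at h
          rcases h with rfl | rfl | rfl
          · exact DiscA_mem_verts_right k1 (by simp)
          · exact DiscA_mem_verts_right k2 (by simp)
          · exact DiscA_mem_verts_right k2 (by simp)
        · refine DiscA_mem_verts_right (f := f) ?_ h
          rw [Finset.mem_insert, Finset.mem_insert, Finset.mem_erase, Finset.mem_erase]
          exact Or.inr (Or.inr ⟨e2, e1, hf⟩)

theorem TopB_stack_adj {F : Finset (Finset V)} {a b c t : V}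
    (h1 : ({a, b, c} : Finset V) ∈ F) {p q : V} (hp : p ≠ t) (hq : q ≠ t) :
    AdjF (insert {a, b, t} (insert {b, c, t} (insert {a, c, t} (F.erase {a, b, c})))) p q ↔
      AdjF F p q := by
  constructor
  · rintro ⟨hpq, f, hf, h3, h4⟩
    rw [Finset.mem_insert, Finset.mem_insert, Finset.mem_insert, Finset.mem_erase] at hf
    have key : ∀ x y z : V, f = {x, y, t} → x ∈ ({a, b, c} : Finset V) →
        y ∈ ({a, b, c} : Finset V) → AdjF F p q := by
      rintro x y z rfl hx hy
      rw [TopB_mem_tri] at h3 h4
      refine ⟨hpq, _, h1, ?_, ?_⟩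
      · rcases h3 with rfl | rfl | rfl
        · exact hx
        · exact hy
        · exact absurd rfl hp
      · rcases h4 with rfl | rfl | rfl
        · exact hx
        · exact hy
        · exact absurd rfl hq
    rcases hf with h | h | h | ⟨-, hf⟩
    · exact key a b c h (by simp) (by simp)
    · exact key b c c h (by simp) (by simp)
    · exact key a c c h (by simp) (by simp)
    · exact ⟨hpq, f, hf, h3, h4⟩
  · rintro ⟨hpq, f, hf, h3, h4⟩
    refine ⟨hpq, ?_⟩
    by_cases e1 : f = {a, b, c}
    · subst e1
      rw [TopB_mem_tri] at h3 h4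
      rcases h3 with rfl | rfl | rfl
      · rcases h4 with rfl | rfl | rfl
        · exact absurd rfl hpq
        · exact ⟨{p, q, t}, by simp, by simp, by simp⟩
        · exact ⟨{p, q, t}, by simp, by simp, by simp⟩
      · rcases h4 with rfl | rfl | rfl
        · exact ⟨{q, p, t}, by simp, by simp, by simp⟩
        · exact absurd rfl hpq
        · exact ⟨{p, q, t}, by simp, by simp, by simp⟩
      · rcases h4 with rfl | rfl | rfl
        · exact ⟨{q, p, t}, by simp, by simp, by simp⟩
        · exact ⟨{q, p, t}, by simp, by simp, by simp⟩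
        · exact absurd rfl hpq
    · refine ⟨f, ?_, h3, h4⟩
      rw [Finset.mem_insert, Finset.mem_insert, Finset.mem_insert, Finset.mem_erase]
      exact Or.inr (Or.inr (Or.inr ⟨e1, hf⟩))

theorem TopB_stack_verts {l : List V} {F : Finset (Finset V)} {a b c t : V}
    (h1 : ({a, b, c} : Finset V) ∈ F) (w : V) :
    w ∈ verts l (insert {a, b, t} (insert {b, c, t} (insert {a, c, t} (F.erase {a, b, c})))) ↔
      w ∈ verts l F ∨ w = t := by
  constructor
  · intro h
    rcases DiscB_mem_verts.1 h with h | ⟨f, hf, h⟩
    · exact Or.inl (DiscA_mem_verts_left h)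
    · rw [Finset.mem_insert, Finset.mem_insert, Finset.mem_insert, Finset.mem_erase] at hf
      have ha : a ∈ verts l F := DiscA_mem_verts_right h1 (by simp)
      have hb : b ∈ verts l F := DiscA_mem_verts_right h1 (by simp)
      have hc : c ∈ verts l F := DiscA_mem_verts_right h1 (by simp)
      rcases hf with rfl | rfl | rfl | ⟨-, hf⟩
      · rw [TopB_mem_tri] at h
        rcases h with rfl | rfl | rfl
        · exact Or.inl ha
        · exact Or.inl hb
        · exact Or.inr rfl
      · rw [TopB_mem_tri] at h
        rcases h with rfl | rfl | rfl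
        · exact Or.inl hb
        · exact Or.inl hc
        · exact Or.inr rfl
      · rw [TopB_mem_tri] at h
        rcases h with rfl | rfl | rfl
        · exact Or.inl ha
        · exact Or.inl hc
        · exact Or.inr rfl
      · exact Or.inl (DiscA_mem_verts_right hf h)
  · have k1 : ({a, b, t} : Finset V) ∈ insert {a, b, t} (insert {b, c, t} (insert {a, c, t}
        (F.erase {a, b, c}))) := by simp
    have k2 : ({b, c, t} : Finset V) ∈ insert {a, b, t} (insert {b, c, t} (insert {a, c, t}
        (F.erase {a, b, c}))) := by simp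
    rintro (h | rfl)
    · rcases DiscB_mem_verts.1 h with h | ⟨f, hf, h⟩
      · exact DiscA_mem_verts_left h
      · by_cases e1 : f = {a, b, c}
        · subst e1
          rw [TopB_mem_tri] at h
          rcases h with rfl | rfl | rfl
          · exact DiscA_mem_verts_right k1 (by simp)
          · exact DiscA_mem_verts_right k1 (by simp)
          · exact DiscA_mem_verts_right k2 (by simp)
        · refine DiscA_mem_verts_right (f := f) ?_ h
          rw [Finset.mem_insert, Finset.mem_insert, Finset.mem_insert, Finset.mem_erase]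
          exact Or.inr (Or.inr (Or.inr ⟨e1, hf⟩))
    · exact DiscA_mem_verts_right k1 (by simp)

/-- Rotating the edge from `t` along the neighbours of `s`. -/
theorem TopB_walk {l : List V} {s t v u : V} (hst : s ≠ t) (hsv : s ≠ v) (htv : t ≠ v) :
    ∀ (c : List V) (w : V) (F : Finset (Finset V)), Disc l F → ({s, v, t} : Finset V) ∈ F →
      ({s, w, t} : Finset V) ∈ F → (w :: c).IsChain (fun p q => ({s, p, q} : Finset V) ∈ F) →
      (w :: c).Nodup → v ∉ w :: c → s ∉ w :: c → t ∉ w :: c → (∀ b ∈ c, ¬ AdjF F t b) →
      (w :: c).getLast (by simp) = u →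
      ∃ F', Disc l F' ∧ ({s, v, t} : Finset V) ∈ F' ∧ ({s, u, t} : Finset V) ∈ F' ∧
        (∀ z, z ∈ verts l F' ↔ z ∈ verts l F) ∧
        ∀ a b, a ≠ s → a ≠ t → b ≠ s → b ≠ t → (AdjF F' a b ↔ AdjF F a b) := by
  intro c
  induction c with
  | nil =>
    intro w F hd h1 h2 _ _ _ _ _ _ hl
    have e : w = u := by simpa using hl
    subst e
    exact ⟨F, hd, h1, h2, fun _ => Iff.rfl, fun _ _ _ _ _ _ => Iff.rfl⟩
  | cons b c ih =>
    intro w F hd h1 h2 hch hnd hv hs ht hadj hl
    rw [List.isChain_cons_cons] at hch
    obtain ⟨hwb, hch⟩ := hch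
    simp only [List.nodup_cons, List.mem_cons, not_or] at hnd hv hs ht
    obtain ⟨⟨nwb, nwc⟩, nbc, ncd⟩ := hnd
    obtain ⟨nvw, nvb, nvc⟩ := hv
    obtain ⟨nsw, nsb, nsc⟩ := hs
    obtain ⟨ntw, ntb, ntc⟩ := ht
    have e1 : ({t, s, w} : Finset V) = {s, w, t} := by
      ext z
      simp only [Finset.mem_insert, Finset.mem_singleton]
      tauto
    have g1 : ({t, s, w} : Finset V) ∈ F := by rw [e1]; exact h2
    have hF := Disc.flip hd g1 hwb ntb (hadj b (by simp))
    have hin : ∀ f ∈ F, (t ∉ f ∨ w ∉ f) → w ∉ f ∨ b ∉ f →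
        f ∈ insert {t, s, b} (insert {t, w, b} ((F.erase {t, s, w}).erase {s, w, b})) := by
      intro f hf k1 k2
      rw [Finset.mem_insert, Finset.mem_insert, Finset.mem_erase, Finset.mem_erase]
      refine Or.inr (Or.inr ⟨?_, ?_, hf⟩)
      · rintro rfl
        rcases k2 with k2 | k2 <;> exact k2 (by simp)
      · rintro rfl
        rcases k1 with k1 | k1 <;> exact k1 (by simp)
    obtain ⟨F', h3, h4, h5, h6, h7⟩ := ih b _ hF
      (by
        refine hin _ h1 (Or.inr ?_) (Or.inl ?_)
        · rw [TopB_mem_tri]
          rintro (h | h | h)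
          · exact nsw h.symm
          · exact nvw h.symm
          · exact ntw h.symm
        · rw [TopB_mem_tri]
          rintro (h | h | h)
          · exact nsw h.symm
          · exact nvw h.symm
          · exact ntw h.symm)
      (by
        have e2 : ({s, b, t} : Finset V) = {t, s, b} := by
          ext z
          simp only [Finset.mem_insert, Finset.mem_singleton]
          tauto
        rw [e2]
        exact Finset.mem_insert_self _ _)
      (by
        refine List.IsChain.imp_of_mem_imp ?_ hch
        intro p q hp hq hpq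
        have hwp : w ≠ p := by
          rintro rfl
          rcases List.mem_cons.1 hp with h | h
          · exact nwb h
          · exact nwc h
        have hwq : w ≠ q := by
          rintro rfl
          rcases List.mem_cons.1 hq with h | h
          · exact nwb h
          · exact nwc h
        have hw : w ∉ ({s, p, q} : Finset V) := by
          rw [TopB_mem_tri]
          rintro (h | h | h)
          · exact nsw h.symm
          · exact hwp h
          · exact hwq h
        exact hin _ hpq (Or.inr hw) (Or.inl hw))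
      (List.nodup_cons.2 ⟨nbc, ncd⟩)
      (by simp only [List.mem_cons, not_or]; exact ⟨nvb, nvc⟩)
      (by simp only [List.mem_cons, not_or]; exact ⟨nsb, nsc⟩)
      (by simp only [List.mem_cons, not_or]; exact ⟨ntb, ntc⟩)
      (by
        rintro b' hb' ⟨k0, f, hf, k1, k2⟩
        rw [Finset.mem_insert, Finset.mem_insert, Finset.mem_erase, Finset.mem_erase] at hf
        rcases hf with rfl | rfl | ⟨-, -, hf⟩
        · rw [TopB_mem_tri] at k2
          rcases k2 with rfl | rfl | rfl
          · exact k0 rfl
          · exact nsc hb'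
          · exact nbc hb'
        · rw [TopB_mem_tri] at k2
          rcases k2 with rfl | rfl | rfl
          · exact k0 rfl
          · exact nwc hb'
          · exact nbc hb'
        · exact hadj b' (List.mem_cons_of_mem _ hb') ⟨k0, f, hf, k1, k2⟩)
      (by
        rw [List.getLast_cons_cons] at hl
        exact hl)
    refine ⟨F', h3, h4, h5, ?_, ?_⟩
    · intro z
      rw [h6 z]
      exact TopB_flip_verts g1 hwb z
    · intro p q hps hpt hqs hqt
      rw [h7 p q hps hpt hqs hqt, TopB_flip_adj g1 hwb hps hqs]
      constructor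
      · rintro (h | ⟨-, ⟨h, -⟩ | ⟨-, h⟩⟩)
        · exact h
        · exact absurd h hpt
        · exact absurd h hqt
      · exact Or.inl

/-- a path without repetitions through the neighbours of `s` -/
theorem TopB_path {F : Finset (Finset V)} {s u v : V}
    (h : Relation.ReflTransGen (TopB_R F s) v u) (huv : u ≠ v) :
    ∃ (w : V) (c : List V), (v :: w :: c).Nodup ∧
      (v :: w :: c).IsChain (fun p q => ({s, p, q} : Finset V) ∈ F) ∧
      (w :: c).getLast (by simp) = u := by
  classical
  let G : SimpleGraph V :=
    { Adj := TopB_R F s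
      symm := ⟨fun _ _ h => TopB_R_symm h⟩
      loopless := ⟨fun _ h => h.1 rfl⟩ }
  have hr : G.Reachable v u := (SimpleGraph.reachable_iff_reflTransGen v u).2 h
  obtain ⟨p, hp⟩ := hr.exists_isPath
  cases p with
  | nil => exact absurd rfl huv
  | @cons _ w _ hvw p =>
    have h1 := hp.support_nodup
    have h2 := (SimpleGraph.Walk.cons hvw p).isChain_adj_support
    rw [SimpleGraph.Walk.support_cons] at h1 h2
    have h3 : w :: p.support.tail = p.support := p.cons_tail_support
    have h4 : ∀ (L : List V) (hL : L ≠ []), L = p.support → L.getLast hL = u := by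
      rintro L hL rfl
      exact p.getLast_support
    refine ⟨w, p.support.tail, ?_, ?_, h4 _ _ h3⟩
    · rw [h3]
      exact h1
    · rw [h3]
      exact h2.imp (fun _ _ h => h.2)

/-- A new edge `u v` instead of the path `u s v`. Let `u` and `v` be non-adjacent neighbours of `s` and
`t` a new vertex. By `Disc.link` there is a list `v :: (bs ++ [u])` without repetitions whose
consecutive elements form faces with `s`; `bs ≠ []`. Insert `t` into the face `{s, v, b₁}`
(`Disc.stack`), flip the edges `s b₁`, `s b₂`, ..., `s b_l` (`Disc.flip`: the faces `{t, s, bᵢ}` and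
`{s, bᵢ, bᵢ₊₁}` with `t, bᵢ₊₁` not adjacent, `b_{l+1} = u`), and finally flip the edge `s t` (faces
`{u, s, t}` and `{s, t, v}`; `u, v` are not adjacent). A stack step and a flip change no adjacency
between vertices different from `s, t`, except for the last flip, which adds `u v`; the set of vertices
changes only by `t`. -/
theorem Disc.suppress {l : List V} {F : Finset (Finset V)} (h : Disc l F) {s t u v : V}
    (hsu : AdjF F s u) (hsv : AdjF F s v) (huv : u ≠ v) (hn : ¬ AdjF F u v)
    (ht : t ∉ verts l F) :
    ∃ F', Disc l F' ∧ (∀ w, w ∈ verts l F' ↔ w ∈ verts l F ∨ w = t) ∧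
      ∀ a b, a ≠ s → a ≠ t → b ≠ s → b ≠ t →
        (AdjF F' a b ↔ AdjF F a b ∨ (a = u ∧ b = v) ∨ (a = v ∧ b = u)) := by
  obtain ⟨w, c, hnd, hch, hlast⟩ := TopB_path (TopB_link h hsv hsu) huv
  -- vertices
  have hmem : ∀ {a b : V}, AdjF F a b → a ∈ verts l F := by
    rintro a b ⟨_, f, hf, h1, _⟩
    exact DiscA_mem_verts_right hf h1
  have hst : s ≠ t := by
    rintro rfl
    exact ht (hmem hsu)
  have hut : u ≠ t := by
    rintro rfl
    exact ht (hmem (DiscC_symm hsu))
  have hvt : v ≠ t := by
    rintro rfl
    exact ht (hmem (DiscC_symm hsv))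
  have hsv' : s ≠ v := hsv.1
  have hsu' : s ≠ u := hsu.1
  rw [List.isChain_cons_cons] at hch
  obtain ⟨hvw, hch⟩ := hch
  obtain ⟨nv, hnd⟩ := List.nodup_cons.1 hnd
  -- members of the list are in faces with `s`
  have hw3 := h.card3 _ hvw
  have nsw : s ≠ w := by
    rintro rfl
    have e : ({s, v, s} : Finset V) = {v, s} := by
      ext z
      simp only [Finset.mem_insert, Finset.mem_singleton]
      tauto
    rw [e] at hw3
    have := Finset.card_le_two (a := v) (b := s)
    omega
  have hface : ∀ p q, ({s, p, q} : Finset V) ∈ F → s ≠ p ∧ s ≠ q ∧ p ≠ q := by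
    intro p q hpq
    have h3 := h.card3 _ hpq
    refine ⟨?_, ?_, ?_⟩
    · rintro rfl
      have e : ({s, s, q} : Finset V) = {s, q} := by
        ext z
        simp only [Finset.mem_insert, Finset.mem_singleton]
        tauto
      rw [e] at h3
      have := Finset.card_le_two (a := s) (b := q)
      omega
    · rintro rfl
      have e : ({s, p, s} : Finset V) = {s, p} := by
        ext z
        simp only [Finset.mem_insert, Finset.mem_singleton]
        tauto
      rw [e] at h3
      have := Finset.card_le_two (a := s) (b := p)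
      omega
    · rintro rfl
      have e : ({s, p, p} : Finset V) = {s, p} := by
        ext z
        simp only [Finset.mem_insert, Finset.mem_singleton]
        tauto
      rw [e] at h3
      have := Finset.card_le_two (a := s) (b := p)
      omega
  have hall : ∀ (c : List V) (w : V), (w :: c).IsChain (fun p q => ({s, p, q} : Finset V) ∈ F) →
      ∀ z ∈ c, ∃ p, ({s, p, z} : Finset V) ∈ F := by
    intro c
    induction c with
    | nil => simp
    | cons b c ih =>
      intro w hc z hz
      rw [List.isChain_cons_cons] at hc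
      rcases List.mem_cons.1 hz with rfl | hz
      · exact ⟨w, hc.1⟩
      · exact ih b hc.2 z hz
  have hnt : ∀ z, z ∈ w :: c → z ≠ t ∧ z ≠ s := by
    intro z hz
    have : ∃ p, ({s, p, z} : Finset V) ∈ F := by
      rcases List.mem_cons.1 hz with rfl | hz
      · exact ⟨v, hvw⟩
      · exact hall c w hch z hz
    obtain ⟨p, hp⟩ := this
    refine ⟨?_, (hface p z hp).2.1.symm⟩
    rintro rfl
    exact ht (DiscA_mem_verts_right hp (by simp))
  have ht' : ∀ f ∈ F, t ∉ f := fun f hf h => ht (DiscA_mem_verts_right hf h)
  have hS := Disc.stack h hvw ht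
  obtain ⟨F', h3, h4, h5, h6, h7⟩ := TopB_walk (u := u) hst hsv' hvt.symm c w _ hS
    (Finset.mem_insert_self _ _)
    (Finset.mem_insert_of_mem (Finset.mem_insert_of_mem (Finset.mem_insert_self _ _)))
    (by
      refine List.IsChain.imp_of_mem_imp ?_ hch
      intro p q hp hq hpq
      refine Finset.mem_insert_of_mem (Finset.mem_insert_of_mem (Finset.mem_insert_of_mem
        (Finset.mem_erase.2 ⟨?_, hpq⟩)))
      intro e
      have hv : v ∈ ({s, p, q} : Finset V) := by
        rw [e]
        simp
      rw [TopB_mem_tri] at hv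
      rcases hv with rfl | rfl | rfl
      · exact hsv' rfl
      · exact nv hp
      · exact nv hq)
    hnd nv (fun hs => (hnt s hs).2 rfl) (fun h8 => (hnt t h8).1 rfl)
    (by
      rintro b hb ⟨k0, f, hf, k1, k2⟩
      have hbw : b ≠ w := by
        rintro rfl
        exact (List.nodup_cons.1 hnd).1 hb
      have hbv : b ≠ v := by
        rintro rfl
        exact nv (List.mem_cons_of_mem _ hb)
      have hbs : b ≠ s := (hnt b (List.mem_cons_of_mem _ hb)).2
      rw [Finset.mem_insert, Finset.mem_insert, Finset.mem_insert, Finset.mem_erase] at hf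
      rcases hf with rfl | rfl | rfl | ⟨-, hf⟩
      · rw [TopB_mem_tri] at k2
        rcases k2 with h | h | h
        · exact hbs h
        · exact hbv h
        · exact k0 h.symm
      · rw [TopB_mem_tri] at k2
        rcases k2 with h | h | h
        · exact hbv h
        · exact hbw h
        · exact k0 h.symm
      · rw [TopB_mem_tri] at k2
        rcases k2 with h | h | h
        · exact hbs h
        · exact hbw h
        · exact k0 h.symm
      · exact ht' f hf k1)
    hlast
  have hun : ¬ AdjF F' u v := by
    rw [h7 u v hsu'.symm hut hsv'.symm hvt, TopB_stack_adj hvw hut hvt]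
    exact hn
  have g1 : ({u, s, t} : Finset V) ∈ F' := by
    rw [DiscC_swap]
    exact h5
  have g2 : ({s, t, v} : Finset V) ∈ F' := by
    have e : ({s, t, v} : Finset V) = {s, v, t} := by
      ext z
      simp only [Finset.mem_insert, Finset.mem_singleton]
      tauto
    rw [e]
    exact h4
  refine ⟨_, Disc.flip h3 g1 g2 huv hun, ?_, ?_⟩
  · intro z
    rw [TopB_flip_verts g1 g2 z, h6 z, TopB_stack_verts hvw z]
  · intro a b has hat hbs hbt
    rw [TopB_flip_adj g1 g2 has hbs, h7 a b has hat hbs hbt, TopB_stack_adj hvw hat hbt]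
    constructor
    · rintro (h | ⟨-, h⟩)
      · exact Or.inl h
      · exact Or.inr h
    · rintro (h | h)
      · exact Or.inl h
      · refine Or.inr ⟨?_, h⟩
        rcases h with ⟨rfl, rfl⟩ | ⟨rfl, rfl⟩
        · exact huv
        · exact huv.symm

/-- `G` is an induced subgraph of the graph of a triangulated disc with triangular boundary. -/
def InDisc {V : Type*} (G : SimpleGraph V) : Prop :=
  ∃ (n : ℕ) (φ : V → Fin n) (x y z : Fin n) (F : Finset (Finset (Fin n))),
    Function.Injective φ ∧ Disc [x, y, z] F ∧ (∀ w, w ∈ verts [x, y, z] F) ∧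
      ∀ u v, G.Adj u v ↔ AdjF F (φ u) (φ v)

/-- `planar_disc`, `Disc.map` with an equivalence `W ≃ Fin n`. -/
theorem InDisc.of_planar {V : Type*} [Fintype V] {G : SimpleGraph V} (h : Planar G) :
    InDisc G := by
  obtain ⟨W, hW1, hW2, H, φ, x, y, z, F, hφ, hadj, hd, hv, hH⟩ := planar_disc.{_, 0} h
  let e : W ≃ Fin (Fintype.card W) := Fintype.equivFin W
  have he : Function.Injective (e : W → Fin (Fintype.card W)) := e.injective
  have hd' : Disc [e x, e y, e z]
      (F.image (fun s => s.image (e : W → Fin (Fintype.card W)))) := Disc.map hd he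
  refine ⟨Fintype.card W, fun v => e (φ v), e x, e y, e z,
    F.image (fun s => s.image (e : W → Fin (Fintype.card W))), fun a b hab => hφ (he hab),
    hd', ?_, ?_⟩
  · intro w
    have h1 : w ∈ verts ([x, y, z].map e) (F.image (fun s => s.image
        (e : W → Fin (Fintype.card W)))) :=
      TopB_img_verts.2 ⟨e.symm w, hv _, e.apply_symm_apply w⟩
    exact h1
  · intro u v
    rw [hadj, hH, TopB_img_adj he]

/-- `Disc.suppress` for the images of `none`, `some u`, `some v`, with `t` a new vertex (embed `Fin n`
into `Fin (n + 1)`, `Disc.map`). -/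
theorem InDisc.suppress {V : Type*} {G : SimpleGraph V} {G' : SimpleGraph (Option V)} {u v : V}
    (huv : G.Adj u v) (h : InDisc G') (h0 : ∀ a, G'.Adj none (some a) ↔ a = u ∨ a = v)
    (h1 : ∀ a b, G'.Adj (some a) (some b) ↔
      G.Adj a b ∧ ¬ ((a = u ∧ b = v) ∨ (a = v ∧ b = u))) : InDisc G := by
  obtain ⟨n, φ, x, y, z, F, hφ, hd, hv, hA⟩ := h
  have hι : Function.Injective (Fin.castSucc : Fin n → Fin (n + 1)) := Fin.castSucc_injective n
  have hd' := Disc.map hd hι
  have hvm := @TopB_img_verts _ _ _ _ [x, y, z] F (Fin.castSucc : Fin n → Fin (n + 1))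
  have ham := @TopB_img_adj _ _ _ F (Fin.castSucc : Fin n → Fin (n + 1)) hι
  generalize hF' : F.image (fun s => s.image (Fin.castSucc : Fin n → Fin (n + 1))) = F' at hd' hvm ham
  have hne : u ≠ v := huv.ne
  have k1 : AdjF F' (φ none).castSucc (φ (some u)).castSucc := by
    rw [ham, ← hA]
    exact (h0 u).2 (Or.inl rfl)
  have k2 : AdjF F' (φ none).castSucc (φ (some v)).castSucc := by
    rw [ham, ← hA]
    exact (h0 v).2 (Or.inr rfl)
  have k3 : (φ (some u)).castSucc ≠ (φ (some v)).castSucc := fun h =>
    hne (Option.some_injective _ (hφ (hι h)))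
  have k4 : ¬ AdjF F' (φ (some u)).castSucc (φ (some v)).castSucc := by
    rw [ham, ← hA, h1]
    rintro ⟨-, h⟩
    exact h (Or.inl ⟨rfl, rfl⟩)
  have k5 : Fin.last n ∉ verts ([x, y, z].map Fin.castSucc) F' := by
    rw [hvm]
    rintro ⟨a, -, ha⟩
    exact (Fin.castSucc_lt_last a).ne ha
  obtain ⟨F'', h3, h4, h5⟩ := Disc.suppress hd' k1 k2 k3 k4 k5
  refine ⟨n + 1, fun a => (φ (some a)).castSucc, x.castSucc, y.castSucc, z.castSucc, F'',
    fun a b hab => Option.some_injective _ (hφ (hι hab)), h3, ?_, ?_⟩
  · intro w
    refine (h4 w).2 ?_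
    rw [hvm]
    rcases Fin.eq_castSucc_or_eq_last w with ⟨a, rfl⟩ | rfl
    · exact Or.inl ⟨a, hv a, rfl⟩
    · exact Or.inr rfl
  · intro a b
    have q1 : ∀ a, (φ (some a)).castSucc ≠ (φ none).castSucc := fun a h => by
      have := hφ (hι h)
      simp at this
    have q2 : ∀ a, (φ (some a)).castSucc ≠ Fin.last n := fun a =>
      (Fin.castSucc_lt_last _).ne
    have q3 : ∀ a b, (φ (some a)).castSucc = (φ (some b)).castSucc ↔ a = b := fun a b =>
      ⟨fun h => Option.some_injective _ (hφ (hι h)), fun h => by rw [h]⟩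
    rw [h5 _ _ (q1 a) (q2 a) (q1 b) (q2 b), ham, ← hA, h1, q3, q3, q3, q3]
    constructor
    · intro h
      by_cases h8 : (a = u ∧ b = v) ∨ (a = v ∧ b = u)
      · exact Or.inr h8
      · exact Or.inl ⟨h, h8⟩
    · rintro (⟨h, -⟩ | ⟨rfl, rfl⟩ | ⟨rfl, rfl⟩)
      · exact h
      · exact huv
      · exact huv.symm

end EPG26
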