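import Pool.Agent.W_26e041_h61.TopB

/-!
Polygonal drawings.
-/

namespace EPG26

/-- the union of the segments between consecutive points -/
def polySegs : List (ℝ × ℝ) → Set (ℝ × ℝ)
  | a :: b :: t => segment ℝ a b ∪ polySegs (b :: t)
  | _ => ∅

/-- the polygonal path does not meet itself -/
def PolySimple : List (ℝ × ℝ) → Prop
  | a :: b :: t => a ≠ b ∧ (∀ z ∈ segment ℝ a b, z ∈ polySegs (b :: t) → z = b) ∧
      PolySimple (b :: t)
  | _ => True

/-- A drawing of `G` with polygonal edges: `q u v` is the list of the inner vertices of the polygonal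
path from `p u` to `p v`. -/
structure PolyDrawn {V : Type*} (G : SimpleGraph V) (p : V → ℝ × ℝ)
    (q : V → V → List (ℝ × ℝ)) : Prop where
  inj : Function.Injective p
  symm : ∀ u v, G.Adj u v → q v u = (q u v).reverse
  simple : ∀ u v, G.Adj u v → PolySimple (p u :: (q u v ++ [p v]))
  vert : ∀ u v w, G.Adj u v → p w ∈ polySegs (p u :: (q u v ++ [p v])) → w = u ∨ w = v
  cross : ∀ u v x y, G.Adj u v → G.Adj x y → s(u, v) ≠ s(x, y) →
    ∀ z ∈ polySegs (p u :: (q u v ++ [p v])), z ∈ polySegs (p x :: (q x y ++ [p y])) →
      ∃ w, z = p w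

theorem TopC_append (l₁ : List (ℝ × ℝ)) (c : ℝ × ℝ) (l₂ : List (ℝ × ℝ)) :
    polySegs (l₁ ++ c :: l₂) = polySegs (l₁ ++ [c]) ∪ polySegs (c :: l₂) := by
  induction l₁ with
  | nil => simp [polySegs]
  | cons a t ih =>
    cases t with
    | nil =>
      simp only [List.cons_append, List.nil_append, polySegs, Set.union_empty]
    | cons b t =>
      simp only [List.cons_append, polySegs] at ih ⊢
      rw [ih, Set.union_assoc]

theorem polySegs_reverse (l : List (ℝ × ℝ)) : polySegs l.reverse = polySegs l := by
  induction l with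
  | nil => rfl
  | cons a t ih =>
    cases t with
    | nil => rfl
    | cons b t =>
      have h : (a :: b :: t).reverse = t.reverse ++ b :: [a] := by simp
      have h2 : (b :: t).reverse = t.reverse ++ [b] := by simp
      rw [h, TopC_append, ← h2, ih]
      simp only [polySegs, Set.union_empty]
      rw [segment_symm, Set.union_comm]

theorem TopC_last (a : ℝ × ℝ) (m : List (ℝ × ℝ)) (b : ℝ × ℝ) :
    b ∈ polySegs (a :: (m ++ [b])) := by
  induction m generalizing a with
  | nil =>
    simp only [List.nil_append, polySegs, Set.union_empty]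
    exact right_mem_segment ℝ a b
  | cons c m ih =>
    simp only [List.cons_append, polySegs]
    exact Or.inr (ih c)

theorem TopC_first (a : ℝ × ℝ) (m : List (ℝ × ℝ)) (b : ℝ × ℝ) :
    a ∈ polySegs (a :: (m ++ [b])) := by
  cases m with
  | nil =>
    simp only [List.nil_append, polySegs, Set.union_empty]
    exact left_mem_segment ℝ a b
  | cons c m =>
    simp only [List.cons_append, polySegs]
    exact Or.inl (left_mem_segment ℝ a c)

theorem TopC_snoc (l : List (ℝ × ℝ)) (b a : ℝ × ℝ) (h1 : PolySimple (l ++ [b])) (h2 : b ≠ a)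
    (h3 : ∀ z ∈ segment ℝ b a, z ∈ polySegs (l ++ [b]) → z = b) :
    PolySimple (l ++ b :: [a]) := by
  induction l with
  | nil =>
    simp only [List.nil_append, PolySimple, polySegs]
    exact ⟨h2, fun z _ hz => absurd hz (Set.notMem_empty z), trivial⟩
  | cons c l ih =>
    cases l with
    | nil =>
      simp only [List.cons_append, List.nil_append, PolySimple, polySegs, Set.union_empty]
        at h1 h3 ⊢
      refine ⟨h1.1, fun z hz hz2 => h3 z hz2 hz, h2, fun z _ hz => absurd hz ?_, trivial⟩
      exact Set.notMem_empty z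
    | cons d l =>
      have e1 : c :: d :: l ++ [b] = c :: d :: (l ++ [b]) := rfl
      have e2 : c :: d :: l ++ b :: [a] = c :: d :: (l ++ b :: [a]) := rfl
      rw [e1] at h1 h3
      rw [e2]
      obtain ⟨hcd, hz1, hs⟩ := h1
      have hsub : polySegs (d :: (l ++ [b])) ⊆ polySegs (c :: d :: (l ++ [b])) :=
        Set.subset_union_right
      refine ⟨hcd, fun z hz hz2 => ?_, ih hs fun z hz hz2 => h3 z hz (hsub hz2)⟩
      have e3 : polySegs (d :: (l ++ b :: [a])) =
          polySegs (d :: (l ++ [b])) ∪ polySegs (b :: [a]) := TopC_append (d :: l) b [a]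
      rw [e3] at hz2
      rcases hz2 with hz2 | hz2
      · exact hz1 z hz hz2
      · have hz3 : z ∈ segment ℝ b a := by
          simpa only [polySegs, Set.union_empty] using hz2
        have hzb : z = b := h3 z hz3 (Or.inl hz)
        subst hzb
        exact hz1 z hz (TopC_last d l z)

theorem PolySimple.reverse {l : List (ℝ × ℝ)} (h : PolySimple l) : PolySimple l.reverse := by
  induction l with
  | nil => trivial
  | cons a t ih =>
    cases t with
    | nil => trivial
    | cons b t =>
      obtain ⟨hab, hz, hs⟩ := h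
      have e1 : (a :: b :: t).reverse = t.reverse ++ b :: [a] := by simp
      have e2 : (b :: t).reverse = t.reverse ++ [b] := by simp
      rw [e1]
      have h1 := ih hs
      rw [e2] at h1
      refine TopC_snoc _ b a h1 hab.symm fun z hz1 hz2 => ?_
      rw [← e2, polySegs_reverse] at hz2
      rw [segment_symm] at hz1
      exact hz z hz1 hz2

theorem TopC_ne {a : ℝ × ℝ} {m : List (ℝ × ℝ)} {b : ℝ × ℝ} (h : PolySimple (a :: (m ++ [b]))) :
    a ≠ b := by
  cases m with
  | nil => exact h.1
  | cons c m =>
    rintro rfl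
    have h1 := h.2.1 a (left_mem_segment ℝ a c) (TopC_last c m a)
    exact h.1 h1

/-- The subdivided graph. -/
def TopC_G {V : Type*} (G : SimpleGraph V) (u v : V) : SimpleGraph (Option V) where
  Adj x y := match x, y with
    | none, none => False
    | none, some a => a = u ∨ a = v
    | some a, none => a = u ∨ a = v
    | some a, some c => G.Adj a c ∧ ¬ ((a = u ∧ c = v) ∨ (a = v ∧ c = u))
  symm := ⟨by
    rintro (_ | a) (_ | c) h
    · exact h
    · exact h
    · exact h
    · refine ⟨h.1.symm, fun h2 => h.2 ?_⟩
      rcases h2 with ⟨h3, h4⟩ | ⟨h3, h4⟩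
      · exact Or.inr ⟨h4, h3⟩
      · exact Or.inl ⟨h4, h3⟩⟩
  loopless := ⟨by
    rintro (_ | a) h
    · exact h
    · exact G.loopless.irrefl a h.1⟩

/-- The position of the vertices. -/
def TopC_p {V : Type*} (p : V → ℝ × ℝ) (b : ℝ × ℝ) : Option V → ℝ × ℝ
  | none => b
  | some a => p a

open Classical in
/-- The inner vertices of the edges. -/
noncomputable def TopC_q {V : Type*} (q : V → V → List (ℝ × ℝ)) (v : V) (t : List (ℝ × ℝ)) :
    Option V → Option V → List (ℝ × ℝ)
  | none, none => []
  | none, some a => if a = v then t else []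
  | some a, none => if a = v then t.reverse else []
  | some a, some c => q a c

theorem TopC_pathrev (a c : ℝ × ℝ) (m : List (ℝ × ℝ)) :
    polySegs (c :: (m.reverse ++ [a])) = polySegs (a :: (m ++ [c])) := by
  rw [← polySegs_reverse]
  simp

theorem TopC_class {V : Type*} {G : SimpleGraph V} {p : V → ℝ × ℝ}
    {q : V → V → List (ℝ × ℝ)} {u v : V} (hne : u ≠ v) {b : ℝ × ℝ} {t : List (ℝ × ℝ)}
    {x y : Option V} (hxy : (TopC_G G u v).Adj x y) :
    (∃ a c, G.Adj a c ∧ s(a, c) ≠ s(u, v) ∧ s(x, y) = s(some a, some c) ∧
      polySegs (TopC_p p b x :: (TopC_q q v t x y ++ [TopC_p p b y])) =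
        polySegs (p a :: (q a c ++ [p c]))) ∨
    (s(x, y) = s(none, some u) ∧
      polySegs (TopC_p p b x :: (TopC_q q v t x y ++ [TopC_p p b y])) = segment ℝ (p u) b) ∨
    (s(x, y) = s(none, some v) ∧
      polySegs (TopC_p p b x :: (TopC_q q v t x y ++ [TopC_p p b y])) =
        polySegs (b :: (t ++ [p v]))) := by
  match x, y, hxy with
  | none, none, h => exact absurd h id
  | none, some a, h =>
    rcases h with rfl | rfl
    · refine Or.inr (Or.inl ⟨rfl, ?_⟩)
      simp only [TopC_q, if_neg hne, TopC_p, List.nil_append, polySegs, Set.union_empty]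
      exact segment_symm ℝ _ _
    · refine Or.inr (Or.inr ⟨rfl, ?_⟩)
      simp only [TopC_q, if_true, TopC_p]
  | some a, none, h =>
    rcases h with rfl | rfl
    · refine Or.inr (Or.inl ⟨Sym2.eq_swap, ?_⟩)
      simp only [TopC_q, if_neg hne, TopC_p, List.nil_append, polySegs, Set.union_empty]
    · refine Or.inr (Or.inr ⟨Sym2.eq_swap, ?_⟩)
      simp only [TopC_q, if_true, TopC_p]
      exact TopC_pathrev _ _ _
  | some a, some c, h =>
    refine Or.inl ⟨a, c, h.1, ?_, rfl, rfl⟩
    intro h2
    rw [Sym2.eq_iff] at h2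
    exact h.2 h2

theorem TopC_drawn {V : Type*} {G : SimpleGraph V} {p : V → ℝ × ℝ}
    {q : V → V → List (ℝ × ℝ)} (h : PolyDrawn G p q) {u v : V} (huv : G.Adj u v) {b : ℝ × ℝ}
    {t : List (ℝ × ℝ)} (hq : q u v = b :: t) :
    PolyDrawn (TopC_G G u v) (TopC_p p b) (TopC_q q v t) := by
  have hne : u ≠ v := huv.ne
  have hs := h.simple u v huv
  rw [hq] at hs
  have hs1 : p u ≠ b := hs.1
  have hs2 : ∀ z ∈ segment ℝ (p u) b, z ∈ polySegs (b :: (t ++ [p v])) → z = b := hs.2.1
  have hs3 : PolySimple (b :: (t ++ [p v])) := hs.2.2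
  have hbv : b ≠ p v := TopC_ne hs3
  have hP : polySegs (p u :: (q u v ++ [p v])) =
      segment ℝ (p u) b ∪ polySegs (b :: (t ++ [p v])) := by
    rw [hq]
    rfl
  have hb : ∀ w, b ≠ p w := by
    intro w hw
    have h1 : p w ∈ polySegs (p u :: (q u v ++ [p v])) := by
      rw [hP, ← hw]
      exact Or.inl (right_mem_segment ℝ _ _)
    rcases h.vert u v w huv h1 with rfl | rfl
    · exact hs1 hw.symm
    · exact hbv hw
  have hnb : ∀ a c, G.Adj a c → s(a, c) ≠ s(u, v) → b ∉ polySegs (p a :: (q a c ++ [p c])) := by
    intro a c hac hacuv hbm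
    obtain ⟨w, hw⟩ := h.cross a c u v hac huv hacuv b hbm (by
      rw [hP]
      exact Or.inl (right_mem_segment ℝ _ _))
    exact hb w hw
  refine ⟨?_, ?_, ?_, ?_, ?_⟩
  · rintro (_ | a) (_ | c) hac
    · rfl
    · exact absurd hac (hb c)
    · exact absurd hac.symm (hb a)
    · exact congrArg some (h.inj hac)
  · rintro (_ | a) (_ | c) hac
    · exact absurd hac id
    · simp only [TopC_q]
      split_ifs <;> simp
    · simp only [TopC_q]
      split_ifs <;> simp
    · exact h.symm a c hac.1
  · rintro (_ | a) (_ | c) hac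
    · exact absurd hac id
    · rcases hac with rfl | rfl
      · simp only [TopC_q, if_neg hne, TopC_p, List.nil_append, PolySimple, polySegs]
        exact ⟨hs1.symm, fun z _ hz => absurd hz (Set.notMem_empty z), trivial⟩
      · simp only [TopC_q, if_true, TopC_p]
        exact hs3
    · rcases hac with rfl | rfl
      · simp only [TopC_q, if_neg hne, TopC_p, List.nil_append, PolySimple, polySegs]
        exact ⟨hs1, fun z _ hz => absurd hz (Set.notMem_empty z), trivial⟩
      · simp only [TopC_q, if_true, TopC_p]
        have h1 := hs3.reverse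
        have h2 : (b :: (t ++ [p a])).reverse = p a :: (t.reverse ++ [b]) := by simp
        rw [h2] at h1
        exact h1
    · exact h.simple a c hac.1
  · intro x y w hxy hw
    rcases TopC_class (p := p) (q := q) (b := b) (t := t) hne hxy with
      ⟨a, c, hac, hacuv, hs, hpath⟩ | ⟨hs, hpath⟩ | ⟨hs, hpath⟩
    · rw [hpath] at hw
      cases w with
      | none => exact absurd hw (hnb a c hac hacuv)
      | some w =>
        have h1 : some w ∈ s(x, y) := by
          rw [hs, Sym2.mem_iff]
          rcases h.vert a c w hac hw with rfl | rfl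
          · exact Or.inl rfl
          · exact Or.inr rfl
        exact Sym2.mem_iff.1 h1
    · rw [hpath] at hw
      have h1 : w ∈ s(x, y) := by
        rw [hs, Sym2.mem_iff]
        cases w with
        | none => exact Or.inl rfl
        | some w =>
          right
          have h2 : p w ∈ segment ℝ (p u) b := hw
          rcases h.vert u v w huv (by rw [hP]; exact Or.inl h2) with rfl | rfl
          · rfl
          · exact absurd (hs2 _ h2 (TopC_last b t _)).symm (hb w)
      exact Sym2.mem_iff.1 h1
    · rw [hpath] at hw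
      have h1 : w ∈ s(x, y) := by
        rw [hs, Sym2.mem_iff]
        cases w with
        | none => exact Or.inl rfl
        | some w =>
          right
          have h2 : p w ∈ polySegs (b :: (t ++ [p v])) := hw
          rcases h.vert u v w huv (by rw [hP]; exact Or.inr h2) with rfl | rfl
          · exact absurd (hs2 _ (left_mem_segment ℝ _ _) h2) hs1
          · rfl
      exact Sym2.mem_iff.1 h1
  · intro x y x' y' hxy hxy' hne' z hz hz'
    rcases TopC_class (p := p) (q := q) (b := b) (t := t) hne hxy with
      ⟨a, c, hac, hacuv, hs, hpath⟩ | ⟨hs, hpath⟩ | ⟨hs, hpath⟩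
    · rw [hpath] at hz
      rcases TopC_class (p := p) (q := q) (b := b) (t := t) hne hxy' with
        ⟨a', c', hac', hacuv', hs', hpath'⟩ | ⟨hs', hpath'⟩ | ⟨hs', hpath'⟩
      · rw [hpath'] at hz'
        obtain ⟨w, hw⟩ := h.cross a c a' c' hac hac' (by
          intro h3
          apply hne'
          rw [hs, hs']
          rw [Sym2.eq_iff] at h3 ⊢
          rcases h3 with ⟨rfl, rfl⟩ | ⟨rfl, rfl⟩
          · exact Or.inl ⟨rfl, rfl⟩
          · exact Or.inr ⟨rfl, rfl⟩) z hz hz'
        exact ⟨some w, hw⟩
      · rw [hpath'] at hz'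
        obtain ⟨w, hw⟩ := h.cross a c u v hac huv hacuv z hz (by rw [hP]; exact Or.inl hz')
        exact ⟨some w, hw⟩
      · rw [hpath'] at hz'
        obtain ⟨w, hw⟩ := h.cross a c u v hac huv hacuv z hz (by rw [hP]; exact Or.inr hz')
        exact ⟨some w, hw⟩
    · rw [hpath] at hz
      rcases TopC_class (p := p) (q := q) (b := b) (t := t) hne hxy' with
        ⟨a', c', hac', hacuv', hs', hpath'⟩ | ⟨hs', hpath'⟩ | ⟨hs', hpath'⟩
      · rw [hpath'] at hz'
        obtain ⟨w, hw⟩ := h.cross a' c' u v hac' huv hacuv' z hz' (by rw [hP]; exact Or.inl hz)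
        exact ⟨some w, hw⟩
      · exact absurd (hs.trans hs'.symm) hne'
      · rw [hpath'] at hz'
        exact ⟨none, hs2 z hz hz'⟩
    · rw [hpath] at hz
      rcases TopC_class (p := p) (q := q) (b := b) (t := t) hne hxy' with
        ⟨a', c', hac', hacuv', hs', hpath'⟩ | ⟨hs', hpath'⟩ | ⟨hs', hpath'⟩
      · rw [hpath'] at hz'
        obtain ⟨w, hw⟩ := h.cross a' c' u v hac' huv hacuv' z hz' (by rw [hP]; exact Or.inr hz)
        exact ⟨some w, hw⟩
      · rw [hpath'] at hz'
        exact ⟨none, hs2 z hz' hz⟩
      · exact absurd (hs.trans hs'.symm) hne'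

open Classical in
/-- The number of all inner vertices. -/
noncomputable def TopC_N {V : Type*} [Fintype V] (G : SimpleGraph V)
    (q : V → V → List (ℝ × ℝ)) : ℕ :=
  ∑ a, ∑ c, if G.Adj a c then (q a c).length else 0

theorem TopC_less {V : Type*} [Fintype V] {G : SimpleGraph V} {p : V → ℝ × ℝ}
    {q : V → V → List (ℝ × ℝ)} (h : PolyDrawn G p q) {u v : V} (huv : G.Adj u v) {b : ℝ × ℝ}
    {t : List (ℝ × ℝ)} (hq : q u v = b :: t) :
    TopC_N (TopC_G G u v) (TopC_q q v t) < TopC_N G q := by
  classical
  have hne : u ≠ v := huv.ne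
  have hq' : q v u = (b :: t).reverse := by rw [h.symm u v huv, hq]
  unfold TopC_N
  simp only [Fintype.sum_option]
  have h1 : ∀ a c : V, (if G.Adj a c then (q a c).length else 0) =
      (if (TopC_G G u v).Adj (some a) (some c) then (TopC_q q v t (some a) (some c)).length
        else 0) + ((if a = u then (if c = v then t.length + 1 else 0) else 0) +
        (if a = v then (if c = u then t.length + 1 else 0) else 0)) := by
    intro a c
    by_cases h1 : a = u ∧ c = v
    · obtain ⟨rfl, rfl⟩ := h1
      have h2 : ¬ (TopC_G G a c).Adj (some a) (some c) := fun h3 => h3.2 (Or.inl ⟨rfl, rfl⟩)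
      rw [if_neg h2, if_pos huv, if_pos rfl, if_pos rfl, if_neg hne, hq]
      simp
    · by_cases h2 : a = v ∧ c = u
      · obtain ⟨rfl, rfl⟩ := h2
        have h3 : ¬ (TopC_G G c a).Adj (some a) (some c) := fun h3 => h3.2 (Or.inr ⟨rfl, rfl⟩)
        rw [if_neg h3, if_pos huv.symm, if_neg hne.symm, if_pos rfl, if_pos rfl, hq']
        simp
      · have h3 : (if a = u then (if c = v then t.length + 1 else 0) else 0) = 0 := by
          split_ifs with h4 h5
          · exact absurd ⟨h4, h5⟩ h1
          · rfl
          · rfl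
        have h4 : (if a = v then (if c = u then t.length + 1 else 0) else 0) = 0 := by
          split_ifs with h4 h5
          · exact absurd ⟨h4, h5⟩ h2
          · rfl
          · rfl
        rw [h3, h4]
        have h5 : (TopC_G G u v).Adj (some a) (some c) ↔ G.Adj a c := by
          constructor
          · exact fun h6 => h6.1
          · exact fun h6 => ⟨h6, fun h7 => h7.elim h1 h2⟩
        by_cases h6 : G.Adj a c
        · rw [if_pos h6, if_pos (h5.2 h6)]
          rfl
        · rw [if_neg h6, if_neg (fun h7 => h6 (h5.1 h7))]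
  have h2 : ∀ a : V, (if (TopC_G G u v).Adj none (some a) then
      (TopC_q q v t none (some a)).length else 0) = if a = v then t.length else 0 := by
    intro a
    simp only [TopC_q]
    by_cases h3 : a = v
    · rw [if_pos h3, if_pos h3, if_pos (show (TopC_G G u v).Adj none (some a) from Or.inr h3)]
    · rw [if_neg h3, if_neg h3]
      simp
  have h3 : ∀ a : V, (if (TopC_G G u v).Adj (some a) none then
      (TopC_q q v t (some a) none).length else 0) = if a = v then t.length else 0 := by
    intro a
    simp only [TopC_q]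
    by_cases h3 : a = v
    · rw [if_pos h3, if_pos h3, if_pos (show (TopC_G G u v).Adj (some a) none from Or.inr h3)]
      simp
    · rw [if_neg h3, if_neg h3]
      simp
  have h4 : (if (TopC_G G u v).Adj none none then (TopC_q q v t none none).length else 0) = 0 :=
    if_neg id
  simp only [h1, h2, h3, h4, Finset.sum_add_distrib, Finset.sum_ite_eq',
    Finset.mem_univ, if_true]
  have h5 : ∑ x : V, ∑ x_1 : V, (if x = u then if x_1 = v then t.length + 1 else 0 else 0) =
      t.length + 1 := by
    rw [Finset.sum_eq_single u]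
    · simp
    · intro b _ hb
      simp [hb]
    · simp
  have h6 : ∑ x : V, ∑ x_1 : V, (if x = v then if x_1 = u then t.length + 1 else 0 else 0) =
      t.length + 1 := by
    rw [Finset.sum_eq_single v]
    · simp
    · intro b _ hb
      simp [hb]
    · simp
  rw [h5, h6]
  omega

/-- Induction on the number of all inner vertices (for all finite `V`). If there is none, the drawing is
a straight-line drawing (`Planar`), `InDisc.of_planar`. Otherwise let `G.Adj u v` with
`q u v = b :: t`. The graph `G'` on `Option V` (as in `InDisc.suppress`) has a polygonal drawing: `none` is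
drawn at `b`, the edge `none, some u` straight, the edge `none, some v` with the inner vertices `t`, the
other edges as before (both orientations); it has fewer inner vertices. `InDisc.suppress`. -/
theorem InDisc.of_poly {V : Type*} [Fintype V] {G : SimpleGraph V} {p : V → ℝ × ℝ}
    {q : V → V → List (ℝ × ℝ)} (h : PolyDrawn G p q) : InDisc G := by
  classical
  induction hN : TopC_N G q using Nat.strong_induction_on generalizing V with
  | _ N ih =>
    by_cases hex : ∃ u v, G.Adj u v ∧ q u v ≠ []
    · obtain ⟨u, v, huv, hne⟩ := hex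
      obtain ⟨b, t, hq⟩ : ∃ b t, q u v = b :: t := by
        cases hq : q u v with
        | nil => exact absurd hq hne
        | cons b t => exact ⟨b, t, rfl⟩
      have h1 := TopC_less h huv hq
      rw [hN] at h1
      have h2 := ih _ h1 (TopC_drawn h huv hq) rfl
      exact InDisc.suppress huv h2 (fun a => Iff.rfl) (fun a c => Iff.rfl)
    · push Not at hex
      apply InDisc.of_planar
      refine ⟨p, h.inj, ?_, ?_⟩
      · intro u v w huv hwu hwv hw
        have h1 := h.vert u v w huv (by
          rw [hex u v huv]
          exact Or.inl hw)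
        exact h1.elim hwu hwv
      · intro u v x y huv hxy hux huy hvx hvy
        rw [Set.disjoint_left]
        intro z hz hz'
        have hne : s(u, v) ≠ s(x, y) := by
          intro h1
          rw [Sym2.eq_iff] at h1
          rcases h1 with ⟨h2, _⟩ | ⟨h2, _⟩
          · exact hux h2
          · exact huy h2
        have hz1 : z ∈ polySegs (p u :: (q u v ++ [p v])) := by
          rw [hex u v huv]
          exact Or.inl hz
        have hz2 : z ∈ polySegs (p x :: (q x y ++ [p y])) := by
          rw [hex x y hxy]
          exact Or.inl hz'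
        obtain ⟨w, rfl⟩ := h.cross u v x y huv hxy hne z hz1 hz2
        rcases h.vert u v w huv hz1 with rfl | rfl
        · rcases h.vert x y w hxy hz2 with rfl | rfl
          · exact hux rfl
          · exact huy rfl
        · rcases h.vert x y w hxy hz2 with rfl | rfl
          · exact hvx rfl
          · exact hvy rfl

end EPG26
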