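import Pool.Agent.W_26e041_h61.TopC

/-!
Every polygonal walk contains a simple polygonal path.
-/

namespace EPG26

/-- the point of `[c, d] ∩ [a, e]` nearest to `d` -/
theorem TopD_nearest {a c d e : ℝ × ℝ} (h : ∃ z ∈ segment ℝ a e, z ∈ segment ℝ c d) :
    ∃ z ∈ segment ℝ a e, z ∈ segment ℝ c d ∧ ∀ w ∈ segment ℝ z d, w ∈ segment ℝ a e → w = z := by
  have hcomp : ∀ p q : ℝ × ℝ, IsCompact (segment ℝ p q) := by
    intro p q
    rw [segment_eq_image_lineMap]
    exact isCompact_Icc.image (AffineMap.lineMap_continuous)
  have hK : IsCompact (segment ℝ a e ∩ segment ℝ c d) := (hcomp a e).inter (hcomp c d)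
  obtain ⟨z0, h1, h2⟩ := h
  obtain ⟨z, ⟨hz1, hz2⟩, hz⟩ := hK.exists_isMinOn ⟨z0, h1, h2⟩
    (f := fun w => dist w d) (by fun_prop)
  refine ⟨z, hz1, hz2, fun w hw hw' => ?_⟩
  have hwcd : w ∈ segment ℝ c d :=
    (convex_segment c d).segment_subset hz2 (right_mem_segment ℝ c d) hw
  have h3 : dist z d ≤ dist w d := hz ⟨hw', hwcd⟩
  rw [segment_eq_image'] at hw
  obtain ⟨t, ⟨ht0, ht1⟩, rfl⟩ := hw
  have h4 : dist (z + t • (d - z)) d = (1 - t) * dist z d := by
    rw [dist_eq_norm, dist_eq_norm]
    have e1 : z + t • (d - z) - d = (1 - t) • (z - d) := by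
      rw [sub_smul, one_smul, smul_sub, smul_sub]
      abel
    rw [e1, norm_smul, Real.norm_of_nonneg (by linarith)]
  rw [h4] at h3
  have h5 : 0 ≤ dist z d := dist_nonneg
  have h6 : t * dist z d ≤ 0 := by linarith
  rcases ht0.eq_or_lt with h7 | h7
  · change z + t • (d - z) = z
    rw [← h7, zero_smul, add_zero]
  · have h8 : dist z d = 0 := by
      by_contra h9
      have h10 : 0 < dist z d := lt_of_le_of_ne h5 (Ne.symm h9)
      have := mul_pos h7 h10
      linarith
    rw [dist_eq_zero] at h8
    change z + t • (d - z) = z
    rw [h8, sub_self, smul_zero, add_zero]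

/-- the step: a segment which meets a simple path -/
theorem TopD_aux (b : ℝ × ℝ) : ∀ (Q : List (ℝ × ℝ)), PolySimple (Q ++ [b]) → ∀ a e, a ≠ b →
    (∃ z ∈ segment ℝ a e, z ∈ polySegs (Q ++ [b])) →
    ∃ m', PolySimple (a :: (m' ++ [b])) ∧
      polySegs (a :: (m' ++ [b])) ⊆ segment ℝ a e ∪ polySegs (Q ++ [b]) := by
  intro Q
  induction Q with
  | nil =>
    intro _ a e _ ⟨z, _, hz⟩
    simp [polySegs] at hz
  | cons c Q ih =>
    intro hQ a e hab hz
    by_cases hcase : ∃ z ∈ segment ℝ a e, z ∈ polySegs (Q ++ [b])
    · -- the segment meets the rest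
      have hQ' : PolySimple (Q ++ [b]) := by
        cases Q with
        | nil => simp [PolySimple]
        | cons d Q => exact hQ.2.2
      obtain ⟨m', h1, h2⟩ := ih hQ' a e hab hcase
      refine ⟨m', h1, h2.trans (Set.union_subset_union_right _ ?_)⟩
      cases Q with
      | nil => simp [polySegs]
      | cons d Q => exact Set.subset_union_right
    · push Not at hcase
      cases Q with
      | nil =>
        -- the path is the segment `[c, b]`
        have hz' : ∃ z ∈ segment ℝ a e, z ∈ segment ℝ c b := by
          obtain ⟨z, hz1, hz2⟩ := hz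
          refine ⟨z, hz1, ?_⟩
          simpa [polySegs] using hz2
        obtain ⟨z, hz1, hz2, hz3⟩ := TopD_nearest hz'
        have hcb : polySegs ([c] ++ [b]) = segment ℝ c b := by simp [polySegs]
        rw [hcb]
        by_cases hzb : z = b
        · refine ⟨[], ?_, ?_⟩
          · simp [PolySimple, polySegs, hab]
          · subst hzb
            intro w hw
            left
            have hw' : w ∈ segment ℝ a z := by simpa [polySegs] using hw
            exact (convex_segment a e).segment_subset (left_mem_segment ℝ a e) hz1 hw'
        · by_cases hza : z = a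
          · refine ⟨[], ?_, ?_⟩
            · simp [PolySimple, polySegs, hab]
            · subst hza
              intro w hw
              right
              have hw' : w ∈ segment ℝ z b := by simpa [polySegs] using hw
              exact (convex_segment c b).segment_subset hz2 (right_mem_segment ℝ c b) hw'
          · refine ⟨[z], ?_, ?_⟩
            · refine ⟨fun h => hza h.symm, ?_, hzb, ?_, trivial⟩
              · intro w hw hw'
                have hw2 : w ∈ segment ℝ z b := by simpa [polySegs] using hw'
                exact hz3 w hw2
                  ((convex_segment a e).segment_subset (left_mem_segment ℝ a e) hz1 hw)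
              · intro w _ hw'
                simp [polySegs] at hw'
            · intro w hw
              have hw2 : w ∈ segment ℝ a z ∪ segment ℝ z b := by simpa [polySegs] using hw
              rcases hw2 with hw2 | hw2
              · left
                exact (convex_segment a e).segment_subset (left_mem_segment ℝ a e) hz1 hw2
              · right
                exact (convex_segment c b).segment_subset hz2 (right_mem_segment ℝ c b) hw2
      | cons d Q =>
        have hseg : polySegs (c :: d :: Q ++ [b]) = segment ℝ c d ∪ polySegs (d :: Q ++ [b]) :=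
          rfl
        have hz' : ∃ z ∈ segment ℝ a e, z ∈ segment ℝ c d := by
          obtain ⟨z, hz1, hz2⟩ := hz
          rw [hseg] at hz2
          rcases hz2 with hz2 | hz2
          · exact ⟨z, hz1, hz2⟩
          · exact absurd hz2 (hcase z hz1)
        obtain ⟨z, hz1, hz2, hz3⟩ := TopD_nearest hz'
        have hQ1 : c ≠ d := hQ.1
        have hQ2 : ∀ z ∈ segment ℝ c d, z ∈ polySegs (d :: Q ++ [b]) → z = d := hQ.2.1
        have hQ3 : PolySimple (d :: Q ++ [b]) := hQ.2.2
        have hd : d ∈ polySegs (d :: Q ++ [b]) := by
          cases Q with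
          | nil => exact Or.inl (left_mem_segment ℝ d b)
          | cons f Q => exact Or.inl (left_mem_segment ℝ d f)
        have hzd : z ≠ d := by
          rintro rfl
          exact hcase z hz1 hd
        have hsub1 : segment ℝ z d ⊆ segment ℝ c d :=
          (convex_segment c d).segment_subset hz2 (right_mem_segment ℝ c d)
        have hsub2 : segment ℝ a z ⊆ segment ℝ a e :=
          (convex_segment a e).segment_subset (left_mem_segment ℝ a e) hz1
        rw [hseg]
        by_cases hza : z = a
        · subst hza
          refine ⟨d :: Q, ?_, ?_⟩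
          · exact ⟨hzd, fun w hw hw' => hQ2 w (hsub1 hw) hw', hQ3⟩
          · intro w hw
            rcases hw with hw | hw
            · exact Or.inr (Or.inl (hsub1 hw))
            · exact Or.inr (Or.inr hw)
        · refine ⟨z :: d :: Q, ?_, ?_⟩
          · refine ⟨fun h => hza h.symm, ?_, hzd, fun w hw hw' => hQ2 w (hsub1 hw) hw', hQ3⟩
            intro w hw hw'
            rcases hw' with hw' | hw'
            · exact hz3 w hw' (hsub2 hw)
            · exact absurd hw' (hcase w (hsub2 hw))
          · intro w hw
            rcases hw with hw | hw | hw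
            · exact Or.inl (hsub2 hw)
            · exact Or.inr (Or.inl (hsub1 hw))
            · exact Or.inr (Or.inr hw)

/-- A polygonal walk from `a` to `b` (`a ≠ b`) contains a simple polygonal path from `a` to `b`.
Induction on `m` (for all `a`). Let `a'` be the first element of `m` (the case `m = []` is clear). If
`a' = b` take `[a, b]` (it is contained in the walk). Otherwise let `Q = a' :: (m' ++ [b])` be a simple
path in the walk from `a'`. If `a = a'` take `Q`. Otherwise `a'` is in the segment `S = [a, a']`; take the
last segment `[c, d]` of `Q` which meets `S` and on it the last point `z` (nearest to `d`) of the compact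
convex set `[c, d] ∩ S`. Then the path `a, z, d, ...` (the rest of `Q`), with the repetitions removed if
`z = a` or `z = d` (if `z = d` then it is the last point of `Q`, since otherwise the next segment meets
`S`; if `z = a` the path is `a, d, ...`), is simple: `[a, z] ⊆ S` meets the rest only in `z`. -/
theorem exists_simple (m : List (ℝ × ℝ)) (a b : ℝ × ℝ) (hab : a ≠ b) :
    ∃ m', PolySimple (a :: (m' ++ [b])) ∧
      polySegs (a :: (m' ++ [b])) ⊆ polySegs (a :: (m ++ [b])) := by
  induction m generalizing a with
  | nil =>
    refine ⟨[], ?_, le_rfl⟩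
    simp [PolySimple, polySegs, hab]
  | cons a' m ih =>
    by_cases hb : a' = b
    · subst hb
      refine ⟨[], ?_, ?_⟩
      · simp [PolySimple, polySegs, hab]
      · intro w hw
        left
        simpa [polySegs] using hw
    · obtain ⟨m'', h1, h2⟩ := ih a' hb
      have hmem : a' ∈ polySegs (a' :: m'' ++ [b]) := by
        cases m'' with
        | nil => exact Or.inl (left_mem_segment ℝ a' b)
        | cons f Q => exact Or.inl (left_mem_segment ℝ a' f)
      obtain ⟨m', h3, h4⟩ := TopD_aux b (a' :: m'') h1 a a' hab
        ⟨a', right_mem_segment ℝ a a', hmem⟩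
      refine ⟨m', h3, h4.trans ?_⟩
      rintro w (hw | hw)
      · exact Or.inl hw
      · exact Or.inr (h2 hw)

end EPG26
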