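import Pool.Agent.W_26e041_h61.TopC
import Pool.Agent.W_26e041_h61.PlanarDef

/-!
Arcs and polygonal approximations.
-/

namespace EPG26

theorem TopE_ivt {g : ℝ → ℝ} {a b r : ℝ} (hab : a ≤ b) (hg : ContinuousOn g (Set.Icc a b))
    (h : (g a ≤ r ∧ r ≤ g b) ∨ (g b ≤ r ∧ r ≤ g a)) : ∃ x ∈ Set.Icc a b, g x = r := by
  rcases h with h | h
  · exact (intermediate_value_Icc hab hg) h
  · exact (intermediate_value_Icc' hab hg) h

theorem TopE_level {g : ℝ → ℝ} {a b r : ℝ} (hg : ContinuousOn g (Set.Icc a b)) :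
    IsCompact {x | x ∈ Set.Icc a b ∧ g x = r} := by
  have : IsClosed (Set.Icc a b ∩ g ⁻¹' {r}) :=
    hg.preimage_isClosed_of_isClosed isClosed_Icc isClosed_singleton
  have h2 : {x | x ∈ Set.Icc a b ∧ g x = r} = Set.Icc a b ∩ g ⁻¹' {r} := by
    ext x; simp
  rw [h2]
  exact isCompact_Icc.of_isClosed_subset this Set.inter_subset_left

/-- The part of an arc between the last point near `a` and the next point near `b`: take the last
`s` with `dist (f s) a ≤ r` and then the first `t ≥ s` with `dist (f t) b ≤ r`. -/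
theorem arc_trim {f : ℝ → ℝ × ℝ} (hf : ContinuousOn f (Set.Icc 0 1)) {r : ℝ} (hr : 0 < r)
    (hd : 2 * r < dist (f 0) (f 1)) :
    ∃ s t, 0 < s ∧ s < t ∧ t < 1 ∧ dist (f s) (f 0) = r ∧ dist (f t) (f 1) = r ∧
      ∀ x, s ≤ x → x ≤ t → r ≤ dist (f x) (f 0) ∧ r ≤ dist (f x) (f 1) := by
  have hg : ContinuousOn (fun x => dist (f x) (f 0)) (Set.Icc 0 1) := (continuous_dist.comp_continuousOn (hf.prodMk continuousOn_const))
  have hh : ContinuousOn (fun x => dist (f x) (f 1)) (Set.Icc 0 1) := (continuous_dist.comp_continuousOn (hf.prodMk continuousOn_const))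
  have hne : {x | x ∈ Set.Icc (0 : ℝ) 1 ∧ dist (f x) (f 0) = r}.Nonempty := by
    obtain ⟨x, hx, hx2⟩ := TopE_ivt (g := fun x => dist (f x) (f 0)) (r := r) zero_le_one hg
      (Or.inl ⟨by simp [hr.le], by rw [dist_comm] at hd; show r ≤ dist (f 1) (f 0); linarith⟩)
    exact ⟨x, hx, hx2⟩
  obtain ⟨s, ⟨⟨hs0, hs1⟩, hs2⟩, hsm⟩ := (TopE_level (r := r) hg).exists_isGreatest hne
  have hs2' : dist (f s) (f 0) = r := hs2
  have hs0' : 0 < s := by
    rcases hs0.eq_or_lt with h | h
    · rw [← h, dist_self] at hs2'; linarith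
    · exact h
  have hs1' : s < 1 := by
    rcases hs1.eq_or_lt with h | h
    · rw [h, dist_comm] at hs2'; linarith
    · exact h
  have hgt : ∀ x, s < x → x ≤ 1 → r < dist (f x) (f 0) := by
    intro x hx hx1
    by_contra hcon
    push Not at hcon
    obtain ⟨y, hy, hy2⟩ := TopE_ivt (g := fun x => dist (f x) (f 0)) (r := r) hx1
      (hg.mono (Set.Icc_subset_Icc (by linarith) le_rfl))
      (Or.inl ⟨hcon, by rw [dist_comm] at hd; show r ≤ dist (f 1) (f 0); linarith⟩)
    have := hsm ⟨⟨by linarith [hy.1], hy.2⟩, hy2⟩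
    linarith [hy.1]
  have hsf : r < dist (f s) (f 1) := by
    have := dist_triangle (f 0) (f s) (f 1)
    rw [dist_comm (f 0) (f s)] at this
    linarith
  have hh' : ContinuousOn (fun x => dist (f x) (f 1)) (Set.Icc s 1) :=
    hh.mono (Set.Icc_subset_Icc hs0 le_rfl)
  have hne2 : {x | x ∈ Set.Icc s 1 ∧ dist (f x) (f 1) = r}.Nonempty := by
    obtain ⟨x, hx, hx2⟩ := TopE_ivt (g := fun x => dist (f x) (f 1)) (r := r) hs1 hh'
      (Or.inr ⟨by simp [hr.le], hsf.le⟩)
    exact ⟨x, hx, hx2⟩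
  obtain ⟨t, ⟨⟨hts, ht1⟩, ht2⟩, htm⟩ := (TopE_level (r := r) hh').exists_isLeast hne2
  have ht2' : dist (f t) (f 1) = r := ht2
  have hts' : s < t := by
    rcases hts.eq_or_lt with h | h
    · rw [← h] at ht2'; linarith
    · exact h
  have ht1' : t < 1 := by
    rcases ht1.eq_or_lt with h | h
    · rw [h, dist_self] at ht2'; linarith
    · exact h
  have hgt2 : ∀ x, s ≤ x → x < t → r < dist (f x) (f 1) := by
    intro x hx hxt
    by_contra hcon
    push Not at hcon
    obtain ⟨y, hy, hy2⟩ := TopE_ivt (g := fun x => dist (f x) (f 1)) (r := r) hx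
      (hh'.mono (Set.Icc_subset_Icc le_rfl (by linarith)))
      (Or.inr ⟨hcon, hsf.le⟩)
    have := htm ⟨⟨hy.1, by linarith [hy.2]⟩, hy2⟩
    linarith [hy.2]
  refine ⟨s, t, hs0', hts', ht1', hs2', ht2', fun x hx1 hx2 => ⟨?_, ?_⟩⟩
  · rcases hx1.eq_or_lt with h | h
    · rw [← h, hs2']
    · exact (hgt x h (by linarith)).le
  · rcases hx2.eq_or_lt with h | h
    · rw [h, ht2']
    · exact (hgt2 x hx1 h).le

theorem TopE_seg {a b z : ℝ × ℝ} (hz : z ∈ segment ℝ a b) : dist z a ≤ dist b a := by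
  rw [segment_eq_image_lineMap] at hz
  obtain ⟨θ, ⟨h0, h1⟩, rfl⟩ := hz
  rw [dist_lineMap_left, Real.norm_of_nonneg h0, dist_comm a b]
  have := dist_nonneg (x := b) (y := a)
  nlinarith

theorem TopE_poly {f : ℝ → ℝ × ℝ} {ε δ : ℝ} {t : ℝ} (n : ℕ) : ∀ s : ℝ, s ≤ t →
    (∀ x ∈ Set.Icc s t, ∀ y ∈ Set.Icc s t, |x - y| < δ → dist (f x) (f y) < ε) →
    t - s < (n + 1) * δ →
    ∃ m : List (ℝ × ℝ), ∀ z ∈ polySegs (f s :: (m ++ [f t])),
      ∃ x ∈ Set.Icc s t, dist z (f x) < ε := by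
  induction n with
  | zero =>
    intro s hs hunif hlt
    refine ⟨[], fun z hz => ⟨s, ⟨le_rfl, hs⟩, ?_⟩⟩
    simp only [List.nil_append, polySegs, Set.union_empty] at hz
    have h1 := TopE_seg hz
    have h2 := hunif t ⟨hs, le_rfl⟩ s ⟨le_rfl, hs⟩ (by
      rw [abs_of_nonneg (by linarith)]; simpa using hlt)
    linarith
  | succ n ih =>
    intro s hs hunif hlt
    have hn : (0 : ℝ) < n + 2 := by positivity
    push_cast at hlt
    have hstep : (t - s) / (n + 2) < δ := by
      rw [div_lt_iff₀ hn]; nlinarith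
    have hstep0 : 0 ≤ (t - s) / (n + 2) := div_nonneg (by linarith) hn.le
    have hstep1 : (t - s) / (n + 2) ≤ t - s := by
      rw [div_le_iff₀ hn]
      have : (0 : ℝ) ≤ n := by positivity
      nlinarith
    have hs' : s + (t - s) / (n + 2) ≤ t := by linarith
    obtain ⟨m, hm⟩ := ih (s + (t - s) / (n + 2)) hs' (by
      intro x hx y hy
      exact hunif x ⟨by linarith [hx.1], hx.2⟩ y ⟨by linarith [hy.1], hy.2⟩) (by
      have h1 : t - (s + (t - s) / (n + 2)) = (n + 1) * ((t - s) / (n + 2)) := by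
        field_simp; ring
      rw [h1]
      exact mul_lt_mul_of_pos_left hstep (by positivity))
    refine ⟨f (s + (t - s) / (n + 2)) :: m, fun z hz => ?_⟩
    rw [List.cons_append] at hz
    rcases hz with hz | hz
    · refine ⟨s, ⟨le_rfl, hs⟩, ?_⟩
      have h1 := TopE_seg hz
      have h2 := hunif (s + (t - s) / (n + 2)) ⟨by linarith, hs'⟩ s ⟨le_rfl, hs⟩ (by
        rw [add_sub_cancel_left, abs_of_nonneg hstep0]; exact hstep)
      linarith
    · obtain ⟨x, hx, hx2⟩ := hm z hz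
      exact ⟨x, ⟨by linarith [hx.1], hx.2⟩, hx2⟩

/-- Polygonal approximation (uniform continuity: the points `f (s + i (t - s) / n)` for large `n`; every
segment between consecutive points is in a ball of radius `ε` around a point of the arc). -/
theorem arc_poly {f : ℝ → ℝ × ℝ} {s t : ℝ} (hst : s ≤ t) (hf : ContinuousOn f (Set.Icc s t))
    {ε : ℝ} (hε : 0 < ε) :
    ∃ m : List (ℝ × ℝ), ∀ z ∈ polySegs (f s :: (m ++ [f t])),
      ∃ x ∈ Set.Icc s t, dist z (f x) < ε := by
  have hu := isCompact_Icc.uniformContinuousOn_of_continuous hf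
  rw [Metric.uniformContinuousOn_iff] at hu
  obtain ⟨δ, hδ, hu⟩ := hu ε hε
  obtain ⟨n, hn⟩ := exists_nat_gt ((t - s) / δ)
  refine TopE_poly (δ := δ) n s hst (fun x hx y hy hxy => hu x hx y hy ?_) ?_
  · rw [Real.dist_eq]; exact hxy
  · rw [div_lt_iff₀ hδ] at hn
    nlinarith

/-- Two segments with the same end `c` and the other ends at the same distance `r` from `c` meet only in
`c` if these ends are different; points of the segment at distance at least `r` from `c` are the end. -/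
theorem radial {c a b z : ℝ × ℝ} {r : ℝ} (hr : 0 < r) (ha : dist a c = r) (hb : dist b c = r)
    (hab : a ≠ b) (hza : z ∈ segment ℝ c a) (hzb : z ∈ segment ℝ c b) : z = c := by
  rw [segment_eq_image_lineMap] at hza hzb
  obtain ⟨α, ⟨hα0, hα1⟩, hα⟩ := hza
  obtain ⟨β, ⟨hβ0, hβ1⟩, hβ⟩ := hzb
  have h1 : dist z c = α * r := by
    rw [← hα, dist_lineMap_left, Real.norm_of_nonneg hα0, dist_comm c a, ha]
  have h2 : dist z c = β * r := by
    rw [← hβ, dist_lineMap_left, Real.norm_of_nonneg hβ0, dist_comm c b, hb]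
  have h3 : α = β := by
    have : α * r = β * r := by rw [← h1, h2]
    exact mul_right_cancel₀ hr.ne' this
  subst h3
  by_cases h0 : α = 0
  · rw [← hα, h0, AffineMap.lineMap_apply_zero]
  · exfalso
    apply hab
    have h4 : AffineMap.lineMap c a α = AffineMap.lineMap c b α := by rw [hα, hβ]
    rw [AffineMap.lineMap_apply, AffineMap.lineMap_apply] at h4
    simp only [vsub_eq_sub, vadd_eq_add, add_left_inj] at h4
    have h5 := smul_right_injective (ℝ × ℝ) h0 h4
    exact sub_left_injective h5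

theorem radial_end {c a z : ℝ × ℝ} {r : ℝ} (hr : 0 < r) (ha : dist a c = r)
    (hz : z ∈ segment ℝ c a) (h : r ≤ dist z c) : z = a := by
  rw [segment_eq_image_lineMap] at hz
  obtain ⟨α, ⟨hα0, hα1⟩, hα⟩ := hz
  have h1 : dist z c = α * r := by
    rw [← hα, dist_lineMap_left, Real.norm_of_nonneg hα0, dist_comm c a, ha]
  rw [h1] at h
  have h2 : α = 1 := by nlinarith
  rw [← hα, h2, AffineMap.lineMap_apply_one]

/-- Disjoint compact sets have a positive distance (finite family version). -/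
theorem exists_sep {ι : Type*} [Finite ι] (A B : ι → Set (ℝ × ℝ)) (hA : ∀ i, IsCompact (A i))
    (hB : ∀ i, IsCompact (B i)) (h : ∀ i, Disjoint (A i) (B i)) :
    ∃ ε : ℝ, 0 < ε ∧ ∀ i, ∀ x ∈ A i, ∀ y ∈ B i, ε ≤ dist x y := by
  have h1 : ∀ i, ∃ ε : ℝ, 0 < ε ∧ ∀ x ∈ A i, ∀ y ∈ B i, ε ≤ dist x y := by
    intro i
    obtain ⟨r, hr, hr2⟩ := Metric.exists_pos_forall_lt_edist (hA i) (hB i).isClosed (h i)
    refine ⟨r, by exact_mod_cast hr, fun x hx y hy => ?_⟩
    have := hr2 x hx y hy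
    rw [edist_nndist] at this
    have h3 : r < nndist x y := by exact_mod_cast this
    have h4 : (r : ℝ) < (nndist x y : ℝ) := by exact_mod_cast h3
    rw [← dist_nndist] at h4
    exact h4.le
  choose e he1 he2 using h1
  rcases isEmpty_or_nonempty ι with hι | hι
  · exact ⟨1, one_pos, fun i => (hι.false i).elim⟩
  · obtain ⟨i0, hi0⟩ := Finite.exists_min e
    exact ⟨e i0, he1 i0, fun i x hx y hy => (hi0 i).trans (he2 i x hx y hy)⟩

end EPG26
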