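import Pool.Agent.W_26e041_h61.TopD
import Pool.Agent.W_26e041_h61.TopE

/-!
Drawings with arcs and drawings with polygonal paths.
-/

namespace EPG26

/-- Edges may be drawn as polygonal paths.
1. Choose `r > 0` with `2 r < dist (p u) (p v)` for `u ≠ v` and such that the arcs of edges not at `v` have
   distance more than `r` from `p v` (`exists_sep`; finitely many compact sets).
2. For every edge choose an order `(a, b)` of its ends and a parametrization `f` (of its arc, from `p a` to
   `p b`), and `s, t` by `arc_trim`. The set `A = f '' [s, t]` has distance at least `r` from all points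
   `p w`. The sets `A` of different edges are disjoint (they contain no vertex). The radial segments
   `[p a, f s]`, `[p b, f t]` are in closed balls of radius `r` around the vertices; the set `A` of an edge
   is disjoint from the radial segments of the other edges (`radial_end`: a common point would be a point
   of two arcs, so a vertex, but it has distance `r` from a vertex), and radial segments of different
   edges meet only in vertices (`radial`).
3. Let `ε ≤ r` be such that the sets `A` of different edges have distance at least `2 ε` and the set `A` of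
   an edge and the radial segments of the other edges have distance at least `ε` (`exists_sep`).
   `arc_poly` with `ε` gives a polygonal path from `f s` to `f t`; together with the radial segments it is
   a polygonal walk from `p a` to `p b`, and `exists_simple` a simple path inside. For the other
   order of the ends take the reversed list (`polySegs_reverse`, `PolySimple.reverse`).
The polygonal paths of different edges meet only in vertices and contain no other vertices. -/
theorem PlanarTop.poly {V : Type*} [Fintype V] {G : SimpleGraph V} (h : PlanarTop G) :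
    ∃ (p : V → ℝ × ℝ) (q : V → V → List (ℝ × ℝ)), PolyDrawn G p q := by
  classical
  obtain ⟨p, γ, hinj, harc, hvert, hcross⟩ := h
  let idx := Fintype.equivFin V
  let ι := {e : V × V // G.Adj e.1 e.2 ∧ idx e.1 < idx e.2}
  have hfin : Finite ι := inferInstance
  choose f hfc hfi hf0 hf1 hfγ using fun e : ι => harc e.1.1 e.1.2 e.2.1
  have hab : ∀ e : ι, e.1.1 ≠ e.1.2 := fun e => e.2.1.ne
  have hsym : ∀ e e' : ι, e ≠ e' → s(e.1.1, e.1.2) ≠ s(e'.1.1, e'.1.2) := by
    rintro ⟨⟨a, b⟩, h1, h2⟩ ⟨⟨a', b'⟩, h1', h2'⟩ hne h3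
    apply hne
    simp only [Sym2.eq_iff] at h3
    rcases h3 with ⟨h4, h5⟩ | ⟨h4, h5⟩
    · subst h4 h5
      rfl
    · subst h4 h5
      exact absurd (lt_trans h2 h2') (lt_irrefl _)
  -- the points of two arcs are vertices
  have hmem : ∀ e : ι, ∀ x ∈ Set.Icc (0 : ℝ) 1, f e x ∈ γ s(e.1.1, e.1.2) := by
    intro e x hx
    rw [hfγ]
    exact ⟨x, hx, rfl⟩
  -- step 1
  obtain ⟨ε1, hε1, hsep1⟩ := exists_sep
    (ι := {x : ι × V // x.2 ≠ x.1.1.1 ∧ x.2 ≠ x.1.1.2})
    (fun x => f x.1.1 '' Set.Icc 0 1) (fun x => {p x.1.2})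
    (fun x => isCompact_Icc.image_of_continuousOn (hfc x.1.1)) (fun x => isCompact_singleton)
    (by
      rintro ⟨⟨e, w⟩, hw1, hw2⟩
      rw [Set.disjoint_singleton_right]
      rintro ⟨x, hx, hxw⟩
      have h1 := hmem e x hx
      rw [hxw] at h1
      rcases hvert _ _ _ e.2.1 h1 with h2 | h2
      · exact hw1 h2
      · exact hw2 h2)
  obtain ⟨ε2, hε2, hsep2⟩ := exists_sep
    (ι := {x : V × V // x.1 ≠ x.2})
    (fun x => {p x.1.1}) (fun x => {p x.1.2})
    (fun x => isCompact_singleton) (fun x => isCompact_singleton)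
    (by
      rintro ⟨⟨a, b⟩, hne⟩
      rw [Set.disjoint_singleton]
      exact fun h1 => hne (hinj h1))
  obtain ⟨r, hr, hr1, hr2⟩ : ∃ r : ℝ, 0 < r ∧ r < ε1 ∧ 2 * r < ε2 := by
    refine ⟨min ε1 ε2 / 3, by positivity, ?_, ?_⟩
    · have := min_le_left ε1 ε2
      have : 0 < min ε1 ε2 := lt_min hε1 hε2
      linarith
    · have := min_le_right ε1 ε2
      have : 0 < min ε1 ε2 := lt_min hε1 hε2
      linarith
  have hvv : ∀ a b : V, a ≠ b → 2 * r < dist (p a) (p b) := by
    intro a b hne
    exact lt_of_lt_of_le hr2 (hsep2 ⟨(a, b), hne⟩ (p a) rfl (p b) rfl)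
  -- step 2
  choose s t hs0 hst ht1 hds hdt hfar using fun e : ι => arc_trim (hfc e) hr (by
    rw [hf0, hf1]
    exact hvv _ _ (hab e))
  have hsub : ∀ e : ι, Set.Icc (s e) (t e) ⊆ Set.Icc 0 1 := fun e =>
    Set.Icc_subset_Icc (hs0 e).le (ht1 e).le
  have hsm : ∀ e : ι, s e ∈ Set.Icc (s e) (t e) := fun e => ⟨le_rfl, (hst e).le⟩
  have htm : ∀ e : ι, t e ∈ Set.Icc (s e) (t e) := fun e => ⟨(hst e).le, le_rfl⟩
  have hAfar : ∀ e : ι, ∀ x ∈ Set.Icc (s e) (t e), ∀ w, r ≤ dist (f e x) (p w) := by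
    intro e x hx w
    by_cases h1 : w = e.1.1
    · have h2 := (hfar e x hx.1 hx.2).1
      rw [hf0] at h2
      rw [h1]
      exact h2
    · by_cases h2 : w = e.1.2
      · have h3 := (hfar e x hx.1 hx.2).2
        rw [hf1] at h3
        rw [h2]
        exact h3
      · exact (hr1.trans_le (hsep1 ⟨(e, w), h1, h2⟩ (f e x) ⟨x, hsub e hx, rfl⟩ (p w) rfl)).le
  have hAA : ∀ e e' : ι, e ≠ e' → ∀ x ∈ Set.Icc (s e) (t e), ∀ x' ∈ Set.Icc (0 : ℝ) 1,
      f e x ≠ f e' x' := by
    intro e e' hne x hx x' hx' heq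
    obtain ⟨w, hw⟩ := hcross _ _ _ _ e.2.1 e'.2.1 (hsym e e' hne) (f e x)
      (hmem e x (hsub e hx)) (by
        rw [heq]
        exact hmem e' x' hx')
    have h1 := hAfar e x hx w
    rw [hw, dist_self] at h1
    exact absurd h1 (not_le.2 hr)
  -- radial segments
  have hds' : ∀ e : ι, dist (f e (s e)) (p e.1.1) = r := by
    intro e
    rw [← hf0 e]
    exact hds e
  have hdt' : ∀ e : ι, dist (f e (t e)) (p e.1.2) = r := by
    intro e
    rw [← hf1 e]
    exact hdt e
  -- the two radial segments of an edge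
  let c : ι → Bool → V := fun e o => if o then e.1.1 else e.1.2
  let g : ι → Bool → ℝ × ℝ := fun e o => if o then f e (s e) else f e (t e)
  have hg : ∀ e o, dist (g e o) (p (c e o)) = r := by
    rintro e (_ | _)
    · exact hdt' e
    · exact hds' e
  have hgA : ∀ e o, ∃ x ∈ Set.Icc (s e) (t e), g e o = f e x := by
    rintro e (_ | _)
    · exact ⟨t e, htm e, rfl⟩
    · exact ⟨s e, hsm e, rfl⟩
  have hball : ∀ e o, ∀ z ∈ segment ℝ (p (c e o)) (g e o), dist z (p (c e o)) ≤ r := by
    intro e o z hz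
    have h1 := (convex_closedBall (p (c e o)) r).segment_subset
      (Metric.mem_closedBall_self hr.le) (Metric.mem_closedBall.2 (hg e o).le) hz
    exact Metric.mem_closedBall.1 h1
  have hRV : ∀ e o w, p w ∈ segment ℝ (p (c e o)) (g e o) → w = c e o := by
    intro e o w hw
    by_contra hne
    have h1 := hball e o _ hw
    have h2 := hvv w (c e o) hne
    linarith
  have hAR : ∀ e e' : ι, e ≠ e' → ∀ o, ∀ x ∈ Set.Icc (s e) (t e),
      f e x ∉ segment ℝ (p (c e' o)) (g e' o) := by
    intro e e' hne o x hx hz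
    have h1 := radial_end hr (hg e' o) hz (hAfar e x hx (c e' o))
    obtain ⟨x', hx', hgx⟩ := hgA e' o
    exact hAA e e' hne x hx x' (hsub e' hx') (h1.trans hgx)
  have hRR : ∀ e e' : ι, e ≠ e' → ∀ o o', ∀ z ∈ segment ℝ (p (c e o)) (g e o),
      z ∈ segment ℝ (p (c e' o')) (g e' o') → ∃ w, z = p w := by
    intro e e' hne o o' z hz hz'
    by_cases hcc : c e o = c e' o'
    · refine ⟨c e o, ?_⟩
      have h1 := hg e' o'
      rw [← hcc] at h1 hz'
      refine radial hr (hg e o) h1 ?_ hz hz'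
      intro h2
      obtain ⟨x, hx, hgx⟩ := hgA e o
      obtain ⟨x', hx', hgx'⟩ := hgA e' o'
      exact hAA e e' hne x hx x' (hsub e' hx') (by rw [← hgx, h2, hgx'])
    · exfalso
      have h1 := hball e o z hz
      have h2 := hball e' o' z hz'
      have h3 := hvv _ _ hcc
      have h4 := dist_triangle_left (p (c e o)) (p (c e' o')) z
      linarith
  -- step 3
  obtain ⟨ε3, hε3, hsep3⟩ := exists_sep
    (ι := {x : ι × ι // x.1 ≠ x.2})
    (fun x => f x.1.1 '' Set.Icc (s x.1.1) (t x.1.1))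
    (fun x => f x.1.2 '' Set.Icc (s x.1.2) (t x.1.2))
    (fun x => isCompact_Icc.image_of_continuousOn ((hfc x.1.1).mono (hsub x.1.1)))
    (fun x => isCompact_Icc.image_of_continuousOn ((hfc x.1.2).mono (hsub x.1.2)))
    (by
      rintro ⟨⟨e, e'⟩, hne⟩
      rw [Set.disjoint_left]
      rintro _ ⟨x, hx, rfl⟩ ⟨x', hx', heq⟩
      exact hAA e e' hne x hx x' (hsub e' hx') heq.symm)
  obtain ⟨ε4, hε4, hsep4⟩ := exists_sep
    (ι := {x : (ι × ι) × Bool // x.1.1 ≠ x.1.2})
    (fun x => f x.1.1.1 '' Set.Icc (s x.1.1.1) (t x.1.1.1))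
    (fun x => segment ℝ (p (c x.1.1.2 x.1.2)) (g x.1.1.2 x.1.2))
    (fun x => isCompact_Icc.image_of_continuousOn ((hfc x.1.1.1).mono (hsub x.1.1.1)))
    (fun x => by
      rw [segment_eq_image]
      refine isCompact_Icc.image ?_
      fun_prop)
    (by
      rintro ⟨⟨⟨e, e'⟩, o⟩, hne⟩
      rw [Set.disjoint_left]
      rintro _ ⟨x, hx, rfl⟩ hx'
      exact hAR e e' hne o x hx hx')
  obtain ⟨ε, hε, hεr, hε3', hε4'⟩ : ∃ ε : ℝ, 0 < ε ∧ ε ≤ r ∧ 2 * ε ≤ ε3 ∧ ε ≤ ε4 := by
    refine ⟨min r (min (ε3 / 2) ε4), by positivity, min_le_left _ _, ?_, ?_⟩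
    · have h1 : min r (min (ε3 / 2) ε4) ≤ ε3 / 2 := (min_le_right _ _).trans (min_le_left _ _)
      linarith
    · exact (min_le_right _ _).trans (min_le_right _ _)
  choose m hm using fun e : ι => arc_poly (hst e).le ((hfc e).mono (hsub e)) hε
  choose m' hm1 hm2 using fun e : ι => exists_simple (f e (s e) :: (m e ++ [f e (t e)]))
    (p e.1.1) (p e.1.2) (fun h1 => hab e (hinj h1))
  -- the union of the three parts
  have hT : ∀ e : ι, ∀ z ∈ polySegs (p e.1.1 :: (m' e ++ [p e.1.2])),
      (∃ o, z ∈ segment ℝ (p (c e o)) (g e o)) ∨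
        ∃ x ∈ Set.Icc (s e) (t e), dist z (f e x) < ε := by
    intro e z hz
    have h1 := hm2 e hz
    have h2 : polySegs (p e.1.1 :: ((f e (s e) :: (m e ++ [f e (t e)])) ++ [p e.1.2])) =
        segment ℝ (p e.1.1) (f e (s e)) ∪ (polySegs (f e (s e) :: (m e ++ [f e (t e)])) ∪
          segment ℝ (f e (t e)) (p e.1.2)) := by
      have h3 : (p e.1.1 :: ((f e (s e) :: (m e ++ [f e (t e)])) ++ [p e.1.2])) =
          p e.1.1 :: f e (s e) :: (m e ++ f e (t e) :: [p e.1.2]) := by simp
      rw [h3]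
      have h4 : polySegs (p e.1.1 :: f e (s e) :: (m e ++ f e (t e) :: [p e.1.2])) =
          segment ℝ (p e.1.1) (f e (s e)) ∪
            polySegs ((f e (s e) :: m e) ++ f e (t e) :: [p e.1.2]) := rfl
      rw [h4, TopC_append]
      simp only [polySegs, Set.union_empty, List.cons_append]
    rw [h2] at h1
    rcases h1 with h1 | h1 | h1
    · exact Or.inl ⟨true, h1⟩
    · exact Or.inr (hm e z h1)
    · rw [segment_symm] at h1
      exact Or.inl ⟨false, h1⟩
  -- the edges
  let q : V → V → List (ℝ × ℝ) := fun a b =>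
    if h1 : G.Adj a b ∧ idx a < idx b then m' ⟨(a, b), h1⟩
    else if h2 : G.Adj b a ∧ idx b < idx a then (m' ⟨(b, a), h2⟩).reverse else []
  have hq : ∀ a b, G.Adj a b → ∃ e : ι, s(a, b) = s(e.1.1, e.1.2) ∧
      polySegs (p a :: (q a b ++ [p b])) = polySegs (p e.1.1 :: (m' e ++ [p e.1.2])) ∧
      PolySimple (p a :: (q a b ++ [p b])) := by
    intro a b hadj
    rcases lt_trichotomy (idx a) (idx b) with hlt | heq | hgt
    · refine ⟨⟨(a, b), hadj, hlt⟩, rfl, ?_, ?_⟩
      · simp only [q, dif_pos (And.intro hadj hlt)]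
      · simp only [q, dif_pos (And.intro hadj hlt)]
        exact hm1 ⟨(a, b), hadj, hlt⟩
    · exact absurd (idx.injective heq) hadj.ne
    · have h1 : ¬ (G.Adj a b ∧ idx a < idx b) := fun h2 => absurd h2.2 (not_lt.2 hgt.le)
      refine ⟨⟨(b, a), hadj.symm, hgt⟩, Sym2.eq_swap, ?_, ?_⟩
      · simp only [q, dif_neg h1, dif_pos (And.intro hadj.symm hgt)]
        exact TopC_pathrev _ _ _
      · simp only [q, dif_neg h1, dif_pos (And.intro hadj.symm hgt)]
        have h2 := (hm1 ⟨(b, a), hadj.symm, hgt⟩).reverse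
        have h3 : (p b :: (m' ⟨(b, a), hadj.symm, hgt⟩ ++ [p a])).reverse =
            p a :: ((m' ⟨(b, a), hadj.symm, hgt⟩).reverse ++ [p b]) := by simp
        rw [h3] at h2
        exact h2
  refine ⟨p, q, hinj, ?_, ?_, ?_, ?_⟩
  · intro a b hadj
    rcases lt_trichotomy (idx a) (idx b) with hlt | heq | hgt
    · have h1 : ¬ (G.Adj b a ∧ idx b < idx a) := fun h2 => absurd h2.2 (not_lt.2 hlt.le)
      simp only [q, dif_neg h1, dif_pos (And.intro hadj hlt)]
    · exact absurd (idx.injective heq) hadj.ne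
    · have h1 : ¬ (G.Adj a b ∧ idx a < idx b) := fun h2 => absurd h2.2 (not_lt.2 hgt.le)
      simp only [q, dif_neg h1, dif_pos (And.intro hadj.symm hgt), List.reverse_reverse]
  · intro a b hadj
    obtain ⟨e, -, -, h1⟩ := hq a b hadj
    exact h1
  · intro a b w hadj hw
    obtain ⟨e, hse, hpe, -⟩ := hq a b hadj
    rw [hpe] at hw
    have h1 : w ∈ s(a, b) := by
      rw [hse, Sym2.mem_iff]
      rcases hT e _ hw with ⟨o, ho⟩ | ⟨x, hx, hd⟩
      · have h2 := hRV e o w ho
        cases o with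
        | true => exact Or.inl h2
        | false => exact Or.inr h2
      · exfalso
        have h2 := hAfar e x hx w
        rw [dist_comm] at h2
        linarith
    exact Sym2.mem_iff.1 h1
  · intro a b x y hadj hadj' hne z hz hz'
    obtain ⟨e, hse, hpe, -⟩ := hq a b hadj
    obtain ⟨e', hse', hpe', -⟩ := hq x y hadj'
    rw [hpe] at hz
    rw [hpe'] at hz'
    have hee : e ≠ e' := by
      rintro rfl
      exact hne (hse.trans hse'.symm)
    rcases hT e _ hz with ⟨o, ho⟩ | ⟨w, hw, hd⟩
    · rcases hT e' _ hz' with ⟨o', ho'⟩ | ⟨w', hw', hd'⟩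
      · exact hRR e e' hee o o' z ho ho'
      · exfalso
        have h1 := hsep4 ⟨((e', e), o), hee.symm⟩ (f e' w') ⟨w', hw', rfl⟩ z ho
        rw [dist_comm] at h1
        linarith
    · rcases hT e' _ hz' with ⟨o', ho'⟩ | ⟨w', hw', hd'⟩
      · exfalso
        have h1 := hsep4 ⟨((e, e'), o'), hee⟩ (f e w) ⟨w, hw, rfl⟩ z ho'
        rw [dist_comm] at h1
        linarith
      · exfalso
        have h1 := hsep3 ⟨(e, e'), hee⟩ (f e w) ⟨w, hw, rfl⟩ (f e' w') ⟨w', hw', rfl⟩
        have h2 := dist_triangle_left (f e w) (f e' w') z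
        linarith

/-- Every planar graph is an induced subgraph of the graph of a triangulated disc. -/
theorem PlanarTop.inDisc {V : Type*} [Fintype V] {G : SimpleGraph V} (h : PlanarTop G) :
    InDisc G := by
  obtain ⟨p, q, h⟩ := h.poly
  exact InDisc.of_poly h

end EPG26
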