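import Pool.Agent.W_26e041_h61.BlkK
import Pool.Agent.W_26e041_h61.TopF

/-!
The main theorem for planar graphs drawn with arbitrary arcs.
-/

namespace EPG26

/-- Induced subgraphs of triangulated discs are 3-bend graphs. -/
theorem InDisc.bend3 {V : Type*} {G : SimpleGraph V} (h : InDisc G) : IsKBend G 3 := by
  obtain ⟨n, φ, x, y, z, F, hφ, hd, hv, ha⟩ := h
  let H : SimpleGraph (Fin n) :=
    { Adj := AdjF F
      symm := ⟨fun _ _ h1 => DiscC_symm h1⟩
      loopless := ⟨fun _ h1 => h1.1 rfl⟩ }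
  have hH : ∀ u v, H.Adj u v ↔ AdjF F u v := fun _ _ => Iff.rfl
  have h1 : IsKBend H 3 := final_draw hd hv hH (fat_fill (fat_of_disc hd hH))
  exact h1.comap φ hφ (fun u v => ha u v)

/-- Every finite planar graph is a 3-bend graph. -/
theorem planarTop_bend3 {V : Type*} [Fintype V] (G : SimpleGraph V) (hG : PlanarTop G) :
    IsKBend G 3 :=
  hG.inDisc.bend3

end EPG26
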